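import Pool.Agent.IT.Base

/-!
# The Anclin lemma

Two unimodular triangulations of the square that agree on all edges whose midpoint is smaller (for an
integer linear form) have, at the next midpoint, edges spanning a unimodular parallelogram. In particular
there are at most two possible edges at each midpoint, given the past.
-/

set_option autoImplicit false

namespace Pool.Agent.IT

open Finset

/-- Algebraic core of the Anclin lemma. -/
theorem anclin_core (δ a b x y κ : ℤ) (ha : 0 < a) (hb : 0 ≤ b) (hab : 2 * b + a ≤ δ)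
    (hκ : 0 < κ) (hid : a * y = κ * δ + x * b)
    (h1 : ¬ (x * (a - x) < 0 ∧ κ * (2 * x - a + κ) < 0))
    (h2 : ¬ ((δ - 2 * y - x) * (δ - 2 * (b - y) - (a - x)) < 0 ∧
        ((2 * x - a + 2 * κ) - (b - 2 * y + κ)) * (b - 2 * y + κ) < 0)) :
    0 ≤ x ∧ 0 ≤ y ∧ 2 * y + x ≤ δ := by
  have hδ : 0 < δ := by linarith
  rcases le_or_gt (2 * κ + 2 * x - a) 0 with hA | hB
  · -- case A
    have hx : 0 ≤ x := by
      by_contra hx
      push Not at hx
      apply h1
      constructor
      · nlinarith
      · nlinarith
    have hy : 0 ≤ y := by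
      have : 0 ≤ a * y := by rw [hid]; positivity
      nlinarith
    refine ⟨hx, hy, ?_⟩
    have key : 0 ≤ a * (δ - 2 * y - x) := by
      have e : a * (δ - 2 * y - x) = δ * (a - 2 * κ) - x * (2 * b + a) := by
        linear_combination (-2) * hid
      rw [e]
      nlinarith
    nlinarith
  · have hC : a * (b - 2 * y + κ) < 0 := by
      have e : a * (b - 2 * y + κ) = b * (a - 2 * x) - 2 * κ * δ + κ * a := by
        linear_combination (-2) * hid
      rw [e]
      nlinarith
    have hC' : b - 2 * y + κ < 0 := by
      by_contra h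
      push Not at h
      nlinarith
    have hD' : 0 < (2 * x - a + 2 * κ) - (b - 2 * y + κ) := by linarith
    have h3 : 0 ≤ δ - 2 * y - x := by
      by_contra h
      push Not at h
      apply h2
      constructor
      · have : 0 < δ - 2 * (b - y) - (a - x) := by linarith
        nlinarith
      · nlinarith
    have hx : 0 ≤ x := by
      by_contra hx
      push Not at hx
      have e : a * (δ - 2 * y - x) = δ * (a - 2 * κ) - x * (2 * b + a) := by
        linear_combination (-2) * hid
      have h4 : 0 ≤ a * (δ - 2 * y - x) := by positivity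
      rw [e] at h4
      nlinarith
    have hy : 0 ≤ y := by
      have : 0 ≤ a * y := by rw [hid]; positivity
      nlinarith
    exact ⟨hx, hy, by linarith⟩

/-- The integer linear form ordering the midpoints. -/
def lf (B : ℤ) (p : Pt) : ℤ := B * p.1 + p.2

/-- The set of lattice points of the (closed) triangle `a, (a+b)/2, c`, in the form used in the Anclin
lemma; `s = ±1` is the orientation. -/
def Del (s : ℤ) (a b c r : Pt) : Prop :=
  0 ≤ s * det a b r ∧ 0 ≤ s * det a r c ∧ 2 * (s * det a r c) + s * det a b r ≤ s * det a b c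

variable {n : ℕ} {T T' : Finset (Finset Pt)}

/-- key identity: `δ R = ω(R,C) v + ω(v,R) C` evaluated with a linear form -/
theorem lf_identity (B : ℤ) (a b c r : Pt) :
    det a b c * (lf B r - lf B a) = det a r c * (lf B b - lf B a) + det a b r * (lf B c - lf B a) := by
  simp only [det, lf]; ring

theorem fst_identity (a b c r : Pt) :
    det a b c * (r.1 - a.1) = det a r c * (b.1 - a.1) + det a b r * (c.1 - a.1) := by
  simp only [det]; ring

theorem snd_identity (a b c r : Pt) :
    det a b c * (r.2 - a.2) = det a r c * (b.2 - a.2) + det a b r * (c.2 - a.2) := by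
  simp only [det]; ring

/-- points of `Del` other than `a` are later than `a` -/
theorem Del.lf_pos {s B : ℤ} {a b c r : Pt} (h : Del s a b c r) (hs : s = 1 ∨ s = -1)
    (hδ : 0 < s * det a b c) (hb : lf B a < lf B b) (hc : lf B a < lf B c) (hr : r ≠ a) :
    lf B a < lf B r := by
  obtain ⟨h1, h2, h3⟩ := h
  have hss : s * s = 1 := by rcases hs with rfl | rfl <;> norm_num
  have e := lf_identity B a b c r
  have e' : (s * det a b c) * (lf B r - lf B a)
      = (s * det a r c) * (lf B b - lf B a) + (s * det a b r) * (lf B c - lf B a) := by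
    linear_combination s * e
  have hne : 0 < s * det a r c ∨ 0 < s * det a b r := by
    by_contra hcon
    push Not at hcon
    have z1 : s * det a r c = 0 := le_antisymm hcon.1 h2
    have z2 : s * det a b r = 0 := le_antisymm hcon.2 h1
    have f1 : (s * det a b c) * (r.1 - a.1) = 0 := by
      have := fst_identity a b c r
      have : (s * det a b c) * (r.1 - a.1)
        = (s * det a r c) * (b.1 - a.1) + (s * det a b r) * (c.1 - a.1) := by
        linear_combination s * this
      rw [this, z1, z2]; ring
    have f2 : (s * det a b c) * (r.2 - a.2) = 0 := by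
      have := snd_identity a b c r
      have : (s * det a b c) * (r.2 - a.2)
        = (s * det a r c) * (b.2 - a.2) + (s * det a b r) * (c.2 - a.2) := by
        linear_combination s * this
      rw [this, z1, z2]; ring
    have g1 : r.1 - a.1 = 0 := by
      rcases mul_eq_zero.1 f1 with h | h
      · omega
      · exact h
    have g2 : r.2 - a.2 = 0 := by
      rcases mul_eq_zero.1 f2 with h | h
      · omega
      · exact h
    exact hr (Prod.ext (by omega) (by omega))
  have hpos : 0 < (s * det a b c) * (lf B r - lf B a) := by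
    rw [e']
    have hb' : 0 < lf B b - lf B a := by linarith
    have hc' : 0 < lf B c - lf B a := by linarith
    rcases hne with h | h
    · nlinarith [mul_pos h hb', mul_nonneg h1 hc'.le]
    · nlinarith [mul_pos h hc', mul_nonneg h2 hb'.le]
  nlinarith

theorem Del.insq {s : ℤ} {a b c r : Pt} (h : Del s a b c r) (_ : s = 1 ∨ s = -1)
    (hδ : 0 < s * det a b c) (ha : InSq n a) (hb : InSq n b) (hc : InSq n c) : InSq n r := by
  obtain ⟨h1, h2, h3⟩ := h
  obtain ⟨a1, a2, a3, a4⟩ := ha
  obtain ⟨b1, b2, b3, b4⟩ := hb
  obtain ⟨c1, c2, c3, c4⟩ := hc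
  have e1 : (s * det a b c) * r.1 = (s * det a b c - s * det a r c - s * det a b r) * a.1
      + (s * det a r c) * b.1 + (s * det a b r) * c.1 := by
    linear_combination s * fst_identity a b c r
  have e2 : (s * det a b c) * r.2 = (s * det a b c - s * det a r c - s * det a b r) * a.2
      + (s * det a r c) * b.2 + (s * det a b r) * c.2 := by
    linear_combination s * snd_identity a b c r
  set δ := s * det a b c
  set y := s * det a r c
  set x := s * det a b r
  have hz : 0 ≤ δ - y - x := by linarith
  refine ⟨?_, ?_, ?_, ?_⟩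
  · have : 0 ≤ δ * r.1 := by rw [e1]; positivity
    exact nonneg_of_mul_nonneg_right this hδ
  · have : 0 ≤ δ * ((n : ℤ) - r.1) := by
      have e : δ * ((n : ℤ) - r.1) = (δ - y - x) * ((n : ℤ) - a.1) + y * ((n : ℤ) - b.1)
        + x * ((n : ℤ) - c.1) := by linear_combination (-1) * e1
      rw [e]
      have i1 : 0 ≤ (n : ℤ) - a.1 := by linarith
      have i2 : 0 ≤ (n : ℤ) - b.1 := by linarith
      have i3 : 0 ≤ (n : ℤ) - c.1 := by linarith
      positivity
    have := nonneg_of_mul_nonneg_right this hδ
    linarith
  · have : 0 ≤ δ * r.2 := by rw [e2]; positivity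
    exact nonneg_of_mul_nonneg_right this hδ
  · have : 0 ≤ δ * ((n : ℤ) - r.2) := by
      have e : δ * ((n : ℤ) - r.2) = (δ - y - x) * ((n : ℤ) - a.2) + y * ((n : ℤ) - b.2)
        + x * ((n : ℤ) - c.2) := by linear_combination (-1) * e2
      rw [e]
      have i1 : 0 ≤ (n : ℤ) - a.2 := by linarith
      have i2 : 0 ≤ (n : ℤ) - b.2 := by linarith
      have i3 : 0 ≤ (n : ℤ) - c.2 := by linarith
      positivity
    have := nonneg_of_mul_nonneg_right this hδ
    linarith

/-- The hull neighbour of `a` in `Del`: all points of `Del` are on one side of the line `a p`, and `p` is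
the first lattice point on it. -/
theorem Del.exists_hull {s B : ℤ} {a b c : Pt} (hs : s = 1 ∨ s = -1) (hδ : 0 < s * det a b c)
    (hlb : lf B a < lf B b) (hlc : lf B a < lf B c) (ha : InSq n a) (hb : InSq n b)
    (hc : InSq n c) :
    ∃ p, Del s a b c p ∧ p ≠ a ∧ ∀ r, Del s a b c r → r ≠ a →
      0 ≤ s * det a p r ∧ (s * det a p r = 0 → lf B p ≤ lf B r) := by
  classical
  set D : Finset Pt := ((Finset.Icc (0 : ℤ) n) ×ˢ (Finset.Icc (0 : ℤ) n)).filter
    (fun r => Del s a b c r ∧ r ≠ a) with hD
  have hmem : ∀ r, Del s a b c r → r ≠ a → r ∈ D := by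
    intro r h1 h2
    have := h1.insq hs hδ ha hb hc
    obtain ⟨i1, i2, i3, i4⟩ := this
    simp only [hD, Finset.mem_filter, Finset.mem_product, Finset.mem_Icc]
    exact ⟨⟨⟨i1, i2⟩, ⟨i3, i4⟩⟩, h1, h2⟩
  have hcD : c ∈ D := by
    apply hmem
    · refine ⟨hδ.le, ?_, ?_⟩
      · rw [det_self_right]; simp
      · rw [det_self_right]; simp
    · rintro rfl; exact lt_irrefl _ hlc
  obtain ⟨p, hpD, hmin⟩ := D.exists_min_image
    (fun r => toLex ((((s * det a b r : ℤ) : ℚ) / ((lf B r - lf B a : ℤ) : ℚ)), lf B r)) ⟨c, hcD⟩
  have hp := (Finset.mem_filter.1 hpD).2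
  refine ⟨p, hp.1, hp.2, ?_⟩
  intro r hr hra
  have hrD := hmem r hr hra
  have hlp : lf B a < lf B p := hp.1.lf_pos hs hδ hlb hlc hp.2
  have hlr : lf B a < lf B r := hr.lf_pos hs hδ hlb hlc hra
  have hk := hmin r hrD
  rw [Prod.Lex.le_iff] at hk
  simp only [ofLex_toLex] at hk
  have hlpq : (0 : ℚ) < ((lf B p - lf B a : ℤ) : ℚ) := by exact_mod_cast sub_pos.2 hlp
  have hlrq : (0 : ℚ) < ((lf B r - lf B a : ℤ) : ℚ) := by exact_mod_cast sub_pos.2 hlr
  have hid : (lf B b - lf B a) * (s * det a p r)
      = (s * det a b r) * (lf B p - lf B a) - (s * det a b p) * (lf B r - lf B a) := by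
    simp only [det, lf]; ring
  have hlb' : 0 < lf B b - lf B a := by linarith
  constructor
  · have hle : (((s * det a b p : ℤ) : ℚ) / ((lf B p - lf B a : ℤ) : ℚ))
        ≤ (((s * det a b r : ℤ) : ℚ) / ((lf B r - lf B a : ℤ) : ℚ)) := by
      rcases hk with h | ⟨h, -⟩
      · exact h.le
      · exact h.le
    rw [div_le_div_iff₀ hlpq hlrq] at hle
    have hle' : (s * det a b p) * (lf B r - lf B a) ≤ (s * det a b r) * (lf B p - lf B a) := by
      exact_mod_cast hle
    have : 0 ≤ (lf B b - lf B a) * (s * det a p r) := by rw [hid]; linarith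
    exact nonneg_of_mul_nonneg_right this hlb'
  · intro h0
    rw [h0, mul_zero] at hid
    have heq : (s * det a b r) * (lf B p - lf B a) = (s * det a b p) * (lf B r - lf B a) := by
      linarith
    rcases hk with h | ⟨-, h⟩
    · exfalso
      rw [div_lt_div_iff₀ hlpq hlrq] at h
      have h' : (s * det a b p) * (lf B r - lf B a) < (s * det a b r) * (lf B p - lf B a) := by
        exact_mod_cast h
      linarith
    · exact h

/-- The hull neighbour is not a proper multiple. -/
theorem Del.not_multiple {s B : ℤ} {a b c p r : Pt} (hs : s = 1 ∨ s = -1)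
    (hδ : 0 < s * det a b c) (hlb : lf B a < lf B b) (hlc : lf B a < lf B c)
    (hp : Del s a b c p) (hpa : p ≠ a)
    (hmin : ∀ r, Del s a b c r → r ≠ a → 0 ≤ s * det a p r ∧ (s * det a p r = 0 → lf B p ≤ lf B r))
    (K : ℤ) (hK : 2 ≤ K) (h1 : p.1 - a.1 = K * (r.1 - a.1)) (h2 : p.2 - a.2 = K * (r.2 - a.2)) :
    False := by
  have hr : Del s a b c r := by
    obtain ⟨g1, g2, g3⟩ := hp
    have e1 : s * det a b p = K * (s * det a b r) := by
      simp only [det, h1, h2]; ring
    have e2 : s * det a p c = K * (s * det a r c) := by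
      simp only [det, h1, h2]; ring
    rw [e1] at g1 g3
    rw [e2] at g2 g3
    have hK0 : 0 < K := by linarith
    have g1' : 0 ≤ s * det a b r := nonneg_of_mul_nonneg_right g1 hK0
    have g2' : 0 ≤ s * det a r c := nonneg_of_mul_nonneg_right g2 hK0
    refine ⟨g1', g2', ?_⟩
    nlinarith
  have hra : r ≠ a := by
    rintro rfl
    apply hpa
    exact Prod.ext (by linarith) (by linarith)
  obtain ⟨-, h⟩ := hmin r hr hra
  have h0 : s * det a p r = 0 := by
    simp only [det, h1, h2]; ring
  have hle := h h0
  have hlr := hr.lf_pos hs hδ hlb hlc hra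
  have e : lf B p - lf B a = K * (lf B r - lf B a) := by
    simp only [lf]; linear_combination B * h1 + h2
  nlinarith

/-- Points of `Del` are earlier than `b`. -/
theorem Del.lf_lt {s B : ℤ} {a b c r : Pt} (h : Del s a b c r)
    (hδ : 0 < s * det a b c) (hb : lf B a < lf B b) (hcb : lf B c < lf B b) :
    lf B r < lf B b := by
  obtain ⟨h1, h2, h3⟩ := h
  have e' : (s * det a b c) * (lf B b - lf B r)
      = (s * det a b c - s * det a r c - s * det a b r) * (lf B b - lf B a)
        + (s * det a b r) * (lf B b - lf B c) := by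
    have := lf_identity B a b c r
    linear_combination (-s) * this
  have hb' : 0 < lf B b - lf B a := by linarith
  have hc' : 0 < lf B b - lf B c := by linarith
  have hpos : 0 < (s * det a b c) * (lf B b - lf B r) := by
    rw [e']
    rcases lt_or_eq_of_le h1 with h | h
    · have i1 : 0 ≤ s * det a b c - s * det a r c - s * det a b r := by linarith
      nlinarith [mul_pos h hc', mul_nonneg i1 hb'.le]
    · rw [← h]
      have i1 : 0 < s * det a b c - s * det a r c - 0 := by linarith
      nlinarith [mul_pos i1 hb']
  have := (mul_pos_iff_of_pos_left hδ).1 hpos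
  linarith

/-- The edge from `a` to its hull neighbour belongs to the triangulation. -/
theorem hull_edge (hT : UT n T) (hT' : UT n T') {s B : ℤ} (hs : s = 1 ∨ s = -1) {a b c d p : Pt}
    (hab : IsEdge T a b) (hdc : IsEdge T' d c) (hd1 : d.1 + c.1 = a.1 + b.1)
    (hd2 : d.2 + c.2 = a.2 + b.2) (hδ : 0 < s * det a b c) (hlb : lf B a < lf B b)
    (hlc : lf B a < lf B c) (hld : lf B a < lf B d)
    (past : ∀ p q, lf B p + lf B q < lf B a + lf B b → (IsEdge T p q ↔ IsEdge T' p q))
    (hp : Del s a b c p) (hpa : p ≠ a)
    (hmin : ∀ r, Del s a b c r → r ≠ a →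
      0 ≤ s * det a p r ∧ (s * det a p r = 0 → lf B p ≤ lf B r)) :
    IsEdge T a p := by
  have hss : s * s = 1 := by rcases hs with rfl | rfl <;> norm_num
  have hd1' : d.1 = a.1 + b.1 - c.1 := by linarith
  have hd2' : d.2 = a.2 + b.2 - c.2 := by linarith
  have hld' : lf B d = lf B a + lf B b - lf B c := by
    simp only [lf, hd1', hd2']; ring
  have hcb : lf B c < lf B b := by linarith
  have hpb : lf B p < lf B b := hp.lf_lt hδ hlb hcb
  have ha := hab.insq hT
  have hb := hab.symm.insq hT
  have hc := hdc.symm.insq hT'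
  have hpsq := hp.insq hs hδ ha hb hc
  -- `h1(P) > 0`
  have hbp : 0 < s * det a b p := by
    rcases lt_or_eq_of_le hp.1 with h | h
    · exact h
    · exfalso
      -- `p` on the line `a b`, in the open segment: impossible as `b - a` is primitive
      have h0 : det a b p = 0 := by
        have : s * (s * det a b p) = 0 := by rw [← h]; ring
        have : (s * s) * det a b p = 0 := by linarith
        rwa [hss, one_mul] at this
      obtain ⟨z, hz⟩ := hab
      obtain ⟨u, hu⟩ : ∃ u : Pt, det a b u = 1 := by
        rcases hz with hz | hz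
        · exact ⟨z, hz.2⟩
        · refine ⟨(2 * a.1 - z.1, 2 * a.2 - z.2), ?_⟩
          have := hz.2
          simp only [det] at *
          linarith
      have e1 := fst_identity a b u p
      have e2 := snd_identity a b u p
      rw [hu, h0] at e1 e2
      have e3 := lf_identity B a b u p
      rw [hu, h0] at e3
      have hlp := hp.lf_pos hs hδ hlb hlc hpa
      have k1 : 0 < det a p u := by nlinarith
      have k2 : det a p u < 1 := by nlinarith
      omega
  -- the main claim
  have claim : ∀ x y, IsEdge T x y → x.1 + y.1 = a.1 + p.1 → x.2 + y.2 = a.2 + p.2 →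
      0 ≤ s * det a p x := by
    intro x y hxy hx1 hx2
    by_contra hneg
    push Not at hneg
    have hy1 : y.1 = a.1 + p.1 - x.1 := by linarith
    have hy2 : y.2 = a.2 + p.2 - x.2 := by linarith
    have hxa : x ≠ a := by
      rintro rfl
      rw [det_self_out] at hneg
      simp at hneg
    have hxy' : IsEdge T' x y := by
      rw [← past x y ?_]
      · exact hxy
      · have : lf B x + lf B y = lf B a + lf B p := by
          simp only [lf, hy1, hy2]; ring
        linarith
    have hcore := anclin_core (s * det a b c) (s * det a b p) (s * det a p c) (s * det a b x)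
      (s * det a x c) (s * det a x p) hbp hp.2.1 hp.2.2 ?_ ?_ ?_ ?_
    · have := (hmin x ⟨hcore.1, hcore.2.1, hcore.2.2⟩ hxa).1
      linarith
    · rw [det_swap' a p x]; linarith
    · -- the identity
      have : det a b p * det a x c = det a x p * det a b c + det a b x * det a p c := by
        simp only [det]; ring
      linear_combination (s * s) * this
    · rintro ⟨k1, k2⟩
      refine hab.no_cross hT hxy (by
        have e : det a b y = det a b p - det a b x := by simp only [det, hy1, hy2]; ring
        have e' : (s * det a b x) * (s * det a b p - s * det a b x)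
          = (s * s) * (det a b x * (det a b p - det a b x)) := by ring
        rw [e', hss, one_mul] at k1
        rw [e]; exact k1) ?_
      have e1 : det x y a = det a x p := by simp only [det, hy1, hy2]; ring
      have e2 : det x y b = 2 * det a b x - det a b p + det a x p := by
        simp only [det, hy1, hy2]; ring
      rw [e1, e2]
      have e' : (s * det a x p) * (2 * (s * det a b x) - s * det a b p + s * det a x p)
        = (s * s) * (det a x p * (2 * det a b x - det a b p + det a x p)) := by ring
      rw [e', hss, one_mul] at k2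
      exact k2
    · rintro ⟨k1, k2⟩
      refine hdc.no_cross hT' hxy' ?_ ?_
      · have e1 : det d c x = det a b c - 2 * det a x c - det a b x := by
          simp only [det, hd1', hd2']; ring
        have e2 : det d c y = det a b c - 2 * (det a p c - det a x c)
            - (det a b p - det a b x) := by
          simp only [det, hd1', hd2', hy1, hy2]; ring
        rw [e1, e2]
        have e' : (s * det a b c - 2 * (s * det a x c) - s * det a b x) *
            (s * det a b c - 2 * (s * det a p c - s * det a x c)
              - (s * det a b p - s * det a b x))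
          = (s * s) * ((det a b c - 2 * det a x c - det a b x) *
            (det a b c - 2 * (det a p c - det a x c) - (det a b p - det a b x))) := by ring
        rw [e', hss, one_mul] at k1
        exact k1
      · have e1 : det x y d = (2 * det a b x - det a b p + 2 * det a x p)
            - (det a p c - 2 * det a x c + det a x p) := by
          simp only [det, hd1', hd2', hy1, hy2]; ring
        have e2 : det x y c = det a p c - 2 * det a x c + det a x p := by
          simp only [det, hy1, hy2]; ring
        rw [e1, e2]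
        have e' : ((2 * (s * det a b x) - s * det a b p + 2 * (s * det a x p))
            - (s * det a p c - 2 * (s * det a x c) + s * det a x p)) *
            (s * det a p c - 2 * (s * det a x c) + s * det a x p)
          = (s * s) * (((2 * det a b x - det a b p + 2 * det a x p)
            - (det a p c - 2 * det a x c + det a x p)) *
            (det a p c - 2 * det a x c + det a x p)) := by ring
        rw [e', hss, one_mul] at k2
        exact k2
  -- the edge at the midpoint of `a p`
  obtain ⟨p1, p2, p3, p4⟩ := hpsq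
  obtain ⟨a1, a2, a3, a4⟩ := ha
  have hodd : ¬ (2 ∣ a.1 + p.1 ∧ 2 ∣ a.2 + p.2) := by
    rintro ⟨⟨i, hi⟩, ⟨j, hj⟩⟩
    refine Del.not_multiple hs hδ hlb hlc hp hpa hmin 2 le_rfl (r := (i, j)) ?_ ?_
    · simp only; linarith
    · simp only; linarith
  obtain ⟨x, y, hxy, hx1, hx2⟩ := hT.exists_mid (m := (a.1 + p.1, a.2 + p.2))
    (by simp only; linarith) (by simp only; linarith) (by simp only; linarith)
    (by simp only; linarith) hodd
  simp only at hx1 hx2
  have c1 := claim x y hxy hx1 hx2
  have c2 := claim y x hxy.symm (by linarith) (by linarith)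
  have hdet : det a p x = 0 := by
    have hsum : det a p x + det a p y = 0 := by
      have hy1 : y.1 = a.1 + p.1 - x.1 := by linarith
      have hy2 : y.2 = a.2 + p.2 - x.2 := by linarith
      simp only [det, hy1, hy2]; ring
    rcases hs with rfl | rfl <;> linarith
  -- wlog `Pos T x y z`
  have fin : ∀ x y z, Pos T x y z → x.1 + y.1 = a.1 + p.1 → x.2 + y.2 = a.2 + p.2 →
      det a p x = 0 → IsEdge T a p := by
    intro x y z hz hx1 hx2 hdet
    set u : Pt := (y.1 - x.1, y.2 - x.2) with hu
    set e : Pt := (z.1 - x.1, z.2 - x.2) with he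
    set P : Pt := (p.1 - a.1, p.2 - a.2) with hP
    have hue : crs u e = 1 := by rw [← hz.2]; simp only [crs, det, hu, he]
    have hy1 : y.1 = a.1 + p.1 - x.1 := by linarith
    have hy2 : y.2 = a.2 + p.2 - x.2 := by linarith
    have huP : crs u P = 0 := by
      have : crs u P = 2 * det a p x := by
        simp only [crs, det, hu, hP, hy1, hy2]; ring
      rw [this, hdet]; ring
    have hk := eq_smul_of_crs hue huP
    set k := crs P e with hkdef
    have hk1 : p.1 - a.1 = k * (y.1 - x.1) := congrArg Prod.fst hk
    have hk2 : p.2 - a.2 = k * (y.2 - x.2) := congrArg Prod.snd hk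
    have hx1' : 2 * (x.1 - a.1) = (k - 1) * (y.1 - x.1) := by linarith
    have hx2' : 2 * (x.2 - a.2) = (k - 1) * (y.2 - x.2) := by linarith
    have hodd' : 2 ∣ (k - 1) := by
      refine ⟨(x.1 - a.1) * e.2 - (x.2 - a.2) * e.1, ?_⟩
      have : (k - 1) * crs u e = 2 * ((x.1 - a.1) * e.2 - (x.2 - a.2) * e.1) := by
        simp only [crs, hu]
        linear_combination (-e.2) * hx1' + e.1 * hx2'
      rw [hue, mul_one] at this
      exact this
    rcases lt_trichotomy k 1 with hlt | heq | hgt
    · -- `k ≤ -1`
      rcases eq_or_lt_of_le (show k ≤ -1 by omega) with h | h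
      · rw [h] at hk1 hk2 hx1' hx2'
        have hxp : x = p := Prod.ext (by linarith) (by linarith)
        have hya : y = a := Prod.ext (by linarith) (by linarith)
        rw [hxp, hya] at hz
        exact hz.edge'
      · exfalso
        refine Del.not_multiple hs hδ hlb hlc hp hpa hmin (-k) (by linarith)
          (r := (a.1 - (y.1 - x.1), a.2 - (y.2 - x.2))) ?_ ?_
        · simp only; linarith
        · simp only; linarith
    · rw [heq] at hk1 hk2 hx1' hx2'
      have hxa : x = a := Prod.ext (by linarith) (by linarith)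
      have hyp : y = p := Prod.ext (by linarith) (by linarith)
      rw [hxa, hyp] at hz
      exact hz.edge
    · exfalso
      refine Del.not_multiple hs hδ hlb hlc hp hpa hmin k (by linarith)
        (r := (a.1 + (y.1 - x.1), a.2 + (y.2 - x.2))) ?_ ?_
      · simp only; linarith
      · simp only; linarith
  obtain ⟨z, hz | hz⟩ := hxy
  · exact fin x y z hz hx1 hx2 hdet
  · refine fin y x z hz (by linarith) (by linarith) ?_
    have hy1 : y.1 = a.1 + p.1 - x.1 := by linarith
    have hy2 : y.2 = a.2 + p.2 - x.2 := by linarith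
    have : det a p y = - det a p x := by simp only [det, hy1, hy2]; ring
    rw [this, hdet]; ring

/-- an edge vector is primitive -/
theorem IsEdge.exists_unit {a b : Pt} (h : IsEdge T a b) : ∃ u : Pt, det a b u = 1 := by
  obtain ⟨z, hz | hz⟩ := h
  · exact ⟨z, hz.2⟩
  · refine ⟨(2 * a.1 - z.1, 2 * a.2 - z.2), ?_⟩
    have := hz.2
    simp only [det] at *
    linarith

/-- a lattice point on the line of an edge `a b` is `a + k (b - a)` -/
theorem IsEdge.eq_of_det_zero {a b r : Pt} (h : IsEdge T a b) (h0 : det a b r = 0) :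
    ∃ k : ℤ, r.1 - a.1 = k * (b.1 - a.1) ∧ r.2 - a.2 = k * (b.2 - a.2) := by
  obtain ⟨u, hu⟩ := h.exists_unit
  refine ⟨det a r u, ?_, ?_⟩
  · have := fst_identity a b u r
    rw [hu, h0] at this
    linarith
  · have := snd_identity a b u r
    rw [hu, h0] at this
    linarith

theorem eq_one_of_mutual {Y P k j : ℤ} (hY : 0 < Y) (hP : 0 < P) (h1 : Y = k * P)
    (h2 : P = j * Y) : k = 1 := by
  have hk : 0 < k := by
    rw [h1] at hY
    exact (mul_pos_iff_of_pos_right hP).1 hY
  have hj : 0 < j := by
    rw [h2] at hP
    exact (mul_pos_iff_of_pos_right hY).1 hP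
  have h3 : k * j = 1 := by
    have : (k * j) * Y = 1 * Y := by
      calc (k * j) * Y = k * (j * Y) := by ring
        _ = k * P := by rw [← h2]
        _ = 1 * Y := by rw [← h1]; ring
    exact mul_right_cancel₀ hY.ne' this
  have := Int.isUnit_iff.1 (IsUnit.of_mul_eq_one _ h3)
  omega

/-- In `T'`, the ray bounding the cone around the direction `b - a` on the side `s` is the hull
neighbour. -/
theorem hull_ray (hT' : UT n T') {s B : ℤ} (hs : s = 1 ∨ s = -1) {a b c d p x y : Pt}
    (hdc : IsEdge T' d c) (hd1 : d.1 + c.1 = a.1 + b.1)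
    (hd2 : d.2 + c.2 = a.2 + b.2) (hδ : 0 < s * det a b c) (hlb : lf B a < lf B b)
    (hlc : lf B a < lf B c)
    (hp : Del s a b c p) (hbp : 0 < s * det a b p) (hap : IsEdge T' a p)
    (hmin : ∀ r, Del s a b c r → r ≠ a →
      0 ≤ s * det a p r ∧ (s * det a p r = 0 → lf B p ≤ lf B r))
    (hxy : s * det a x y = 1) (hay : IsEdge T' a y) (hy : 0 < s * det a b y)
    (hx : s * det a b x < 0)
    (hnc : ∀ r, IsEdge T' a r → 0 < s * det a x r → 0 < s * det a r y → False) : y = p := by
  have hss : s * s = 1 := by rcases hs with rfl | rfl <;> norm_num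
  have hd1' : d.1 = a.1 + b.1 - c.1 := by linarith
  have hd2' : d.2 = a.2 + b.2 - c.2 := by linarith
  -- `y` is not beyond `p`
  have h1 : s * det a p y ≤ 0 := by
    by_contra hcon
    push Not at hcon
    refine hnc p hap ?_ hcon
    have e : (s * det a b y) * (s * det a x p)
        = (s * det a p y) * (-(s * det a b x)) + (s * det a b p) * (s * det a x y) := by
      have : det a b y * det a x p = det a p y * (-(det a b x)) + det a b p * det a x y := by
        simp only [det]; ring
      linear_combination (s * s) * this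
    have : 0 < (s * det a b y) * (s * det a x p) := by
      rw [e, hxy]
      have : 0 < -(s * det a b x) := by linarith
      positivity
    exact (mul_pos_iff_of_pos_left hy).1 this
  have h1' : 0 ≤ s * det a y p := by rw [det_swap' a p y]; linarith
  -- `y` belongs to `Del`
  have e2 : (s * det a b p) * (s * det a y c)
      = (s * det a y p) * (s * det a b c) + (s * det a b y) * (s * det a p c) := by
    have : det a b p * det a y c = det a y p * det a b c + det a b y * det a p c := by
      simp only [det]; ring
    linear_combination (s * s) * this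
  have h2 : 0 ≤ s * det a y c := by
    have : 0 ≤ (s * det a b p) * (s * det a y c) := by
      rw [e2]
      have := hp.2.1
      positivity
    exact nonneg_of_mul_nonneg_right this hbp
  have h3 : 2 * (s * det a y c) + s * det a b y ≤ s * det a b c := by
    by_contra hcon
    push Not at hcon
    have h2' : 0 < s * det a y c := by
      rcases lt_or_eq_of_le h2 with h | h
      · exact h
      · exfalso
        rw [← h, mul_zero] at e2
        have i1 : 0 ≤ (s * det a y p) * (s * det a b c) := mul_nonneg h1' hδ.le
        have i2 : 0 ≤ (s * det a b y) * (s * det a p c) := mul_nonneg hy.le hp.2.1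
        have j2 : (s * det a b y) * (s * det a p c) = 0 := by linarith
        have h0 : det a y c = 0 := by
          have : s * (s * det a y c) = 0 := by rw [← h]; ring
          have : (s * s) * det a y c = 0 := by linarith
          rwa [hss, one_mul] at this
        obtain ⟨k, k1, k2⟩ := hay.eq_of_det_zero h0
        have e3 : s * det a b c = k * (s * det a b y) := by
          simp only [det, k1, k2]; ring
        have hk : 1 ≤ k := by
          by_contra hk
          push Not at hk
          have : k ≤ 0 := by omega
          nlinarith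
        nlinarith
    refine hay.no_cross hT' hdc ?_ ?_
    · have e4 : det a y d = - det a b y - det a y c := by
        simp only [det, hd1', hd2']; ring
      rw [e4]
      have : (s * det a y c) * (- (s * det a b y) - s * det a y c) < 0 := by nlinarith
      have e5 : (s * det a y c) * (- (s * det a b y) - s * det a y c)
        = (s * s) * ((- det a b y - det a y c) * det a y c) := by ring
      rw [e5, hss, one_mul] at this
      exact this
    · have e4 : det d c a = det a b c := by simp only [det, hd1', hd2']; ring
      have e5 : det d c y = det a b c - 2 * det a y c - det a b y := by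
        simp only [det, hd1', hd2']; ring
      rw [e4, e5]
      have : (s * det a b c) * (s * det a b c - 2 * (s * det a y c) - s * det a b y) < 0 := by
        nlinarith
      have e6 : (s * det a b c) * (s * det a b c - 2 * (s * det a y c) - s * det a b y)
        = (s * s) * (det a b c * (det a b c - 2 * det a y c - det a b y)) := by ring
      rw [e6, hss, one_mul] at this
      exact this
  have hya : y ≠ a := by
    rintro rfl
    rw [det_self_out] at hy
    simp at hy
  have h4 := (hmin y ⟨hy.le, h2, h3⟩ hya).1
  have h5 : s * det a p y = 0 := le_antisymm h1 h4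
  have h6 : det a p y = 0 := by
    have : s * (s * det a p y) = 0 := by rw [h5]; ring
    have : (s * s) * det a p y = 0 := by linarith
    rwa [hss, one_mul] at this
  obtain ⟨k, k1, k2⟩ := hap.eq_of_det_zero h6
  have h7 : det a y p = 0 := by rw [det_swap' a p y, h6]; ring
  obtain ⟨j, j1, j2⟩ := hay.eq_of_det_zero h7
  have e3 : s * det a b y = k * (s * det a b p) := by
    simp only [det, k1, k2]; ring
  have e4 : s * det a b p = j * (s * det a b y) := by
    simp only [det, j1, j2]; ring
  have hk1 : k = 1 := by
    have e5 := eq_one_of_mutual hy hbp e3 e4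
    exact e5
  rw [hk1] at k1 k2
  exact Prod.ext (by linarith) (by linarith)

theorem segment_dir {a b : Pt} (ha : InSq n a) (hb : InSq n b) :
    ∀ᶠ ε in nhdsWithin (0:ℝ) (Set.Ioi 0), emb a + ε • emb (b.1 - a.1, b.2 - a.2) ∈ Sq n := by
  have h1 : ∀ᶠ ε in nhdsWithin (0:ℝ) (Set.Ioi 0), ε < 1 :=
    (gt_mem_nhds (by norm_num : (0:ℝ) < 1)).filter_mono nhdsWithin_le_nhds
  filter_upwards [h1, self_mem_nhdsWithin] with ε hε1 hε0
  have hε0' : (0:ℝ) < ε := hε0
  rw [mem_Sq]
  obtain ⟨a1, a2, a3, a4⟩ := ha
  obtain ⟨b1, b2, b3, b4⟩ := hb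
  have a1' : (0:ℝ) ≤ a.1 := by exact_mod_cast a1
  have a2' : (a.1:ℝ) ≤ n := by exact_mod_cast a2
  have a3' : (0:ℝ) ≤ a.2 := by exact_mod_cast a3
  have a4' : (a.2:ℝ) ≤ n := by exact_mod_cast a4
  have b1' : (0:ℝ) ≤ b.1 := by exact_mod_cast b1
  have b2' : (b.1:ℝ) ≤ n := by exact_mod_cast b2
  have b3' : (0:ℝ) ≤ b.2 := by exact_mod_cast b3
  have b4' : (b.2:ℝ) ≤ n := by exact_mod_cast b4
  simp only [emb, Prod.fst_add, Prod.snd_add, Prod.smul_fst, Prod.smul_snd, smul_eq_mul]
  push_cast
  refine ⟨?_, ?_, ?_, ?_⟩ <;> nlinarith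

theorem sum_lt_aux {α β x y : ℤ} (hα : 1 ≤ α) (hβ : 1 ≤ β) (h : 3 ≤ α + β) (hx : 0 < x)
    (hy : 0 < y) : x + y < β * x + α * y := by
  have h1 : 0 ≤ (β - 1) * x := mul_nonneg (by linarith) hx.le
  have h2 : 0 ≤ (α - 1) * y := mul_nonneg (by linarith) hy.le
  have h3 : 0 < (β - 1) * x + (α - 1) * y := by
    rcases (show 2 ≤ α ∨ 2 ≤ β by omega) with h | h
    · have : 0 < (α - 1) * y := mul_pos (by linarith) hy
      linarith
    · have : 0 < (β - 1) * x := mul_pos (by linarith) hx
      linarith
  linarith

/-- The asymmetric form of the Anclin lemma. -/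
theorem anclin_aux (hT : UT n T) (hT' : UT n T') {B : ℤ} {a b c d : Pt}
    (hab : IsEdge T a b) (hdc : IsEdge T' d c) (hd1 : d.1 + c.1 = a.1 + b.1)
    (hd2 : d.2 + c.2 = a.2 + b.2) (hlad : lf B a < lf B d) (hldc : lf B d < lf B c)
    (hlcb : lf B c < lf B b)
    (past : ∀ p q, lf B p + lf B q < lf B a + lf B b → (IsEdge T p q ↔ IsEdge T' p q)) :
    crs (b.1 - a.1, b.2 - a.2) (c.1 - d.1, c.2 - d.2) = 2 ∨
      crs (b.1 - a.1, b.2 - a.2) (c.1 - d.1, c.2 - d.2) = -2 := by
  have hlb : lf B a < lf B b := by linarith
  have hlc : lf B a < lf B c := by linarith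
  have hldb : lf B d < lf B b := by linarith
  have ha := hab.insq hT
  have hb := hab.symm.insq hT
  have hc := hdc.symm.insq hT'
  have hd := hdc.insq hT'
  have hd1' : d.1 = a.1 + b.1 - c.1 := by linarith
  have hd2' : d.2 = a.2 + b.2 - c.2 := by linarith
  -- no lattice point of the line `a b` strictly between
  have hline : ∀ r, lf B a < lf B r → lf B r < lf B b → det a b r ≠ 0 := by
    intro r h1 h2 h0
    obtain ⟨k, k1, k2⟩ := hab.eq_of_det_zero h0
    have e : lf B r - lf B a = k * (lf B b - lf B a) := by
      simp only [lf]; linear_combination B * k1 + k2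
    have hk0 : 0 < k := by
      by_contra hk
      push Not at hk
      nlinarith
    nlinarith
  have hne : det a b c ≠ 0 := hline c hlc hlcb
  obtain ⟨s, hs, hδ⟩ : ∃ s : ℤ, (s = 1 ∨ s = -1) ∧ 0 < s * det a b c := by
    rcases lt_or_gt_of_ne hne with h | h
    · exact ⟨-1, Or.inr rfl, by linarith⟩
    · exact ⟨1, Or.inl rfl, by linarith⟩
  have hs' : -s = 1 ∨ -s = -1 := by rcases hs with rfl | rfl <;> norm_num
  have hss : s * s = 1 := by rcases hs with rfl | rfl <;> norm_num
  have hdd : det a b d = - det a b c := by simp only [det, hd1', hd2']; ring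
  have hδ' : 0 < (-s) * det a b d := by rw [hdd]; linarith
  obtain ⟨p, hp, hpa, hpmin⟩ := Del.exists_hull hs hδ hlb hlc ha hb hc
  obtain ⟨q, hq, hqa, hqmin⟩ := Del.exists_hull hs' hδ' hlb hlad ha hb hd
  have hTp := hull_edge hT hT' hs hab hdc hd1 hd2 hδ hlb hlc hlad past hp hpa hpmin
  have hTq := hull_edge hT hT' hs' hab hdc.symm (by linarith) (by linarith) hδ' hlb hlad hlc past
    hq hqa hqmin
  have hlp := hp.lf_pos hs hδ hlb hlc hpa
  have hlq := hq.lf_pos hs' hδ' hlb hlad hqa
  have hlpb := hp.lf_lt hδ hlb hlcb
  have hlqb := hq.lf_lt hδ' hlb hldb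
  have hT'p : IsEdge T' a p := (past a p (by linarith)).1 hTp
  have hT'q : IsEdge T' a q := (past a q (by linarith)).1 hTq
  have hbp : 0 < s * det a b p := by
    refine lt_of_le_of_ne hp.1 ?_
    intro h
    apply hline p hlp hlpb
    have : s * (s * det a b p) = 0 := by rw [← h]; ring
    have : (s * s) * det a b p = 0 := by linarith
    rwa [hss, one_mul] at this
  have hbq : 0 < (-s) * det a b q := by
    refine lt_of_le_of_ne hq.1 ?_
    intro h
    apply hline q hlq hlqb
    have : (-s) * ((-s) * det a b q) = 0 := by rw [← h]; ring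
    have : (s * s) * det a b q = 0 := by linarith
    rwa [hss, one_mul] at this
  -- `b` is not a neighbour of `a` in `T'`
  have hnb : ¬ IsEdge T' a b := by
    intro h
    rcases h.eq_of_mid hT' hdc (by linarith) (by linarith) with ⟨h1, -⟩ | ⟨h1, -⟩
    · rw [h1] at hlad; exact lt_irrefl _ hlad
    · rw [h1] at hlc; exact lt_irrefl _ hlc
  -- the triangle of `T'` at `a` around the direction of `b`
  obtain ⟨x, y, hxy, hx0, hy0⟩ := hT'.exists_cone (segment_dir ha hb)
  have hx0' : det a b x ≤ 0 := by
    have : crs (x.1 - a.1, x.2 - a.2) (b.1 - a.1, b.2 - a.2) = - det a b x := by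
      simp only [crs, det]; ring
    rw [this] at hx0; linarith
  have hy0' : 0 ≤ det a b y := by
    have : crs (b.1 - a.1, b.2 - a.2) (y.1 - a.1, y.2 - a.2) = det a b y := by
      simp only [crs, det]
    rw [this] at hy0; exact hy0
  have hax : IsEdge T' a x := hxy.edge
  have hay : IsEdge T' a y := hxy.cyc'.edge'
  have hb1 : b.1 - a.1 = det a b y * (x.1 - a.1) - det a b x * (y.1 - a.1) := by
    have h := hxy.2
    have : det a x y * (b.1 - a.1) = det a b y * (x.1 - a.1) - det a b x * (y.1 - a.1) := by
      simp only [det]; ring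
    rw [h, one_mul] at this; exact this
  have hb2 : b.2 - a.2 = det a b y * (x.2 - a.2) - det a b x * (y.2 - a.2) := by
    have h := hxy.2
    have : det a x y * (b.2 - a.2) = det a b y * (x.2 - a.2) - det a b x * (y.2 - a.2) := by
      simp only [det]; ring
    rw [h, one_mul] at this; exact this
  have hprim : ∀ k : ℤ, ∀ r : Pt, b.1 - a.1 = k * (r.1 - a.1) → b.2 - a.2 = k * (r.2 - a.2) →
      0 ≤ k → k = 1 := by
    intro k r k1 k2 hk
    obtain ⟨u, hu⟩ := hab.exists_unit
    have : k * det a r u = 1 := by
      rw [← hu]; simp only [det, k1, k2]; ring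
    have h1 := Int.isUnit_iff.1 (IsUnit.of_mul_eq_one _ this)
    omega
  have hx1 : det a b x < 0 := by
    refine lt_of_le_of_ne hx0' ?_
    intro h
    rw [h] at hb1 hb2
    have hk := hprim (det a b y) x (by linarith) (by linarith) hy0'
    rw [hk] at hb1 hb2
    have : x = b := Prod.ext (by linarith) (by linarith)
    rw [this] at hax
    exact hnb hax
  have hy1 : 0 < det a b y := by
    refine lt_of_le_of_ne hy0' ?_
    intro h
    rw [← h] at hb1 hb2
    have hk := hprim (-det a b x) y (by linarith) (by linarith) (by linarith)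
    have hk' : det a b x = -1 := by linarith
    rw [hk'] at hb1 hb2
    have : y = b := Prod.ext (by linarith) (by linarith)
    rw [this] at hay
    exact hnb hay
  -- identify the two rays
  have htri : s * det a q p = 1 ∧ IsEdge T' q p := by
    rcases hs with rfl | rfl
    · have hyp : y = p := hull_ray hT' (Or.inl rfl) hdc hd1 hd2 hδ hlb hlc hp hbp hT'p hpmin
        (by rw [one_mul]; exact hxy.2) hay (by linarith) (by linarith)
        (fun r hr h1 h2 => hxy.no_cone hT' hr (by linarith) (by linarith))
      have hxq : x = q := hull_ray hT' hs' hdc.symm (by linarith) (by linarith) hδ' hlb hlad hq hbq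
        hT'q hqmin (x := y) (by rw [det_swap' a x y, hxy.2]; norm_num) hax (by linarith)
        (by linarith)
        (fun r hr h1 h2 => hxy.no_cone hT' hr
          (by rw [det_swap' a x r] at h2; linarith) (by rw [det_swap' a y r]; linarith))
      rw [← hyp, ← hxq]
      exact ⟨by rw [one_mul]; exact hxy.2, hxy.cyc.edge⟩
    · have hxp : x = p := hull_ray hT' (Or.inr rfl) hdc hd1 hd2 hδ hlb hlc hp hbp hT'p hpmin
        (x := y) (by rw [det_swap' a x y, hxy.2]; norm_num) hax (by linarith) (by linarith)
        (fun r hr h1 h2 => hxy.no_cone hT' hr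
          (by rw [det_swap' a x r] at h2; linarith) (by rw [det_swap' a y r]; linarith))
      have hyq : y = q := hull_ray hT' hs' hdc.symm (by linarith) (by linarith) hδ' hlb hlad hq hbq
        hT'q hqmin (x := x) (by rw [hxy.2]; norm_num) hay (by linarith) (by linarith)
        (fun r hr h1 h2 => hxy.no_cone hT' hr (by linarith) (by linarith))
      rw [← hyq, ← hxp]
      exact ⟨by rw [det_swap' a x y, hxy.2]; norm_num, hxy.cyc.edge'⟩
  obtain ⟨hqp, hqpE⟩ := htri
  -- coordinates of `b`
  have f1 : b.1 - a.1 = (s * det a b p) * (q.1 - a.1) + ((-s) * det a b q) * (p.1 - a.1) := by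
    have : det a q p * (b.1 - a.1) = det a b p * (q.1 - a.1) - det a b q * (p.1 - a.1) := by
      simp only [det]; ring
    linear_combination (-(b.1 - a.1)) * hqp + s * this
  have f2 : b.2 - a.2 = (s * det a b p) * (q.2 - a.2) + ((-s) * det a b q) * (p.2 - a.2) := by
    have : det a q p * (b.2 - a.2) = det a b p * (q.2 - a.2) - det a b q * (p.2 - a.2) := by
      simp only [det]; ring
    linear_combination (-(b.2 - a.2)) * hqp + s * this
  obtain ⟨α, hα⟩ : ∃ α : ℤ, α = (-s) * det a b q := ⟨_, rfl⟩
  obtain ⟨β, hβ⟩ : ∃ β : ℤ, β = s * det a b p := ⟨_, rfl⟩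
  rw [← hα, ← hβ] at f1 f2
  have hqp' : det a q p = s := by
    have : s * (s * det a q p) = s := by rw [hqp, mul_one]
    have : (s * s) * det a q p = s := by linarith
    rwa [hss, one_mul] at this
  by_cases h11 : α = 1 ∧ β = 1
  · obtain ⟨hα1, hβ1⟩ := h11
    rw [hα1, hβ1] at f1 f2
    have hm1 : q.1 + p.1 = d.1 + c.1 := by linarith
    have hm2 : q.2 + p.2 = d.2 + c.2 := by linarith
    have hb1' : b.1 = q.1 + p.1 - a.1 := by linarith
    have hb2' : b.2 = q.2 + p.2 - a.2 := by linarith
    have hdq : det a q p = 1 ∨ det a q p = -1 := by rw [hqp']; exact hs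
    rcases hqpE.eq_of_mid hT' hdc hm1 hm2 with ⟨h1, h2⟩ | ⟨h1, h2⟩
    · rw [← h1, ← h2]
      have : crs (b.1 - a.1, b.2 - a.2) (p.1 - q.1, p.2 - q.2) = 2 * det a q p := by
        simp only [crs, det, hb1', hb2']; ring
      rw [this]
      rcases hdq with h | h <;> rw [h] <;> norm_num
    · rw [← h1, ← h2]
      have : crs (b.1 - a.1, b.2 - a.2) (q.1 - p.1, q.2 - p.2) = -2 * det a q p := by
        simp only [crs, det, hb1', hb2']; ring
      rw [this]
      rcases hdq with h | h <;> rw [h] <;> norm_num
  · exfalso
    have hα1 : 1 ≤ α := by rw [hα]; exact hbq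
    have hβ1 : 1 ≤ β := by rw [hβ]; exact hbp
    have hsum : 3 ≤ α + β := by omega
    have e : lf B b - lf B a = β * (lf B q - lf B a) + α * (lf B p - lf B a) := by
      simp only [lf]; linear_combination B * f1 + f2
    have hlt : lf B q + lf B p < lf B a + lf B b := by
      have i1 : 0 < lf B q - lf B a := by linarith
      have i2 : 0 < lf B p - lf B a := by linarith
      have := sum_lt_aux hα1 hβ1 hsum i1 i2
      rw [← e] at this
      linarith
    have hTqp : IsEdge T q p := (past q p hlt).2 hqpE
    refine hab.no_cross hT hTqp ?_ ?_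
    · have e0 := mul_pos hbq hbp
      have e1 : (-s) * det a b q * (s * det a b p) = -((s * s) * (det a b q * det a b p)) := by
        ring
      rw [e1, hss, one_mul] at e0
      linarith
    · have e1 : det q p a = det a q p := by simp only [det]; ring
      have e2 : det q p b = - det a b p + det a q p + det a b q := by simp only [det]; ring
      have e3 : s * det q p b = -β + 1 - α := by
        rw [e2, hα, hβ]; linear_combination hqp
      rw [e1, hqp', e3]
      linarith

/-- **Anclin lemma.** -/
theorem anclin (hT : UT n T) (hT' : UT n T') {B : ℤ} (hB : (n : ℤ) < B) {a b c d : Pt}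
    (hab : IsEdge T a b) (hdc : IsEdge T' d c) (hd1 : d.1 + c.1 = a.1 + b.1)
    (hd2 : d.2 + c.2 = a.2 + b.2) (hlab : lf B a < lf B b) (hldc : lf B d < lf B c)
    (past : ∀ p q, lf B p + lf B q < lf B a + lf B b → (IsEdge T p q ↔ IsEdge T' p q))
    (hne : b ≠ c) :
    crs (b.1 - a.1, b.2 - a.2) (c.1 - d.1, c.2 - d.2) = 2 ∨
      crs (b.1 - a.1, b.2 - a.2) (c.1 - d.1, c.2 - d.2) = -2 := by
  have hsum : lf B d + lf B c = lf B a + lf B b := by
    simp only [lf]; linear_combination B * hd1 + hd2
  rcases lt_trichotomy (lf B c) (lf B b) with h | h | h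
  · exact anclin_aux hT hT' hab hdc hd1 hd2 (by linarith) hldc h past
  · exfalso
    apply hne
    obtain ⟨b1, b2, b3, b4⟩ := hab.symm.insq hT
    obtain ⟨c1, c2, c3, c4⟩ := hdc.symm.insq hT'
    simp only [lf] at h
    have h1 : B * (c.1 - b.1) = b.2 - c.2 := by linarith
    have h2 : c.1 - b.1 = 0 := by
      by_contra h0
      rcases lt_or_gt_of_ne h0 with h3 | h3
      · have : c.1 - b.1 ≤ -1 := by omega
        nlinarith
      · have : 1 ≤ c.1 - b.1 := by omega
        nlinarith
    rw [h2] at h1
    exact Prod.ext (by linarith) (by linarith)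
  · have := anclin_aux hT' hT hdc hab (by linarith) (by linarith) (by linarith) hlab h
      (fun p q hpq => (past p q (by linarith)).symm)
    have e : crs (b.1 - a.1, b.2 - a.2) (c.1 - d.1, c.2 - d.2)
        = - crs (c.1 - d.1, c.2 - d.2) (b.1 - a.1, b.2 - a.2) := by
      simp only [crs]; ring
    rw [e]
    rcases this with h | h <;> rw [h] <;> norm_num

end Pool.Agent.IT
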