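import Pool.Agent.IT.CrossMeet

/-!
# Dual balls: size, and small connected patches lie in them
-/

set_option autoImplicit false

namespace Pool.Agent.IT

open Ins (pair_cases)

variable {n : ℕ} {T : Finset (Finset Pt)}

open Classical in
/-- the triangles of `T` sharing at least two vertices with `t` -/
noncomputable def nbs (T : Finset (Finset Pt)) (t : Finset Pt) : Finset (Finset Pt) :=
  T.filter fun s => Adj t s

/-- dual ball -/
noncomputable def bal (T : Finset (Finset Pt)) : ℕ → Finset Pt → Finset (Finset Pt)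
  | 0, t => {t}
  | k + 1, t => (bal T k t).biUnion (nbs T)

theorem mem_nbs {t s : Finset Pt} : s ∈ nbs T t ↔ s ∈ T ∧ Adj t s := by
  classical
  simp only [nbs, Finset.mem_filter]

theorem adj_self (hT : UT n T) {t : Finset Pt} (ht : t ∈ T) : Adj t t := by
  obtain ⟨p, q, r, rfl, h⟩ := hT.exists_pos ht
  exact ⟨p, q, h.ne, by simp, by simp, by simp, by simp⟩

/-- at most two triangles contain two given points -/
theorem card_two (hT : UT n T) {p q : Pt} (hpq : p ≠ q) :
    (T.filter fun s => p ∈ s ∧ q ∈ s).card ≤ 2 := by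
  classical
  have key : ∃ f1 f2 : Finset Pt, ∀ s ∈ T, p ∈ s → q ∈ s → s = f1 ∨ s = f2 := by
    have side : ∀ a b : Pt, ∃ f : Finset Pt, ∀ w, Pos T a b w → ({a, b, w} : Finset Pt) = f := by
      intro a b
      by_cases h : ∃ w, Pos T a b w
      · obtain ⟨w, hw⟩ := h
        exact ⟨{a, b, w}, fun w' hw' => by rw [hw'.unique hT hw]⟩
      · exact ⟨∅, fun w hw => absurd ⟨w, hw⟩ h⟩
    obtain ⟨f1, hf1⟩ := side p q
    obtain ⟨f2, hf2⟩ := side q p
    refine ⟨f1, f2, ?_⟩
    intro s hs hp hq
    obtain ⟨x, y, w, rfl, h⟩ := hT.exists_pos hs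
    have conc : ∀ u v w' : Pt, Pos T u v w' → ({x, y, w} : Finset Pt) = {u, v, w'} →
        (p = u ∧ q = v) ∨ (p = v ∧ q = u) →
        ({x, y, w} : Finset Pt) = f1 ∨ ({x, y, w} : Finset Pt) = f2 := by
      intro u v w' g hg hc
      rcases hc with ⟨rfl, rfl⟩ | ⟨rfl, rfl⟩
      · left; rw [hg]; exact hf1 _ g
      · right; rw [hg]; exact hf2 _ g
    rcases pair_cases hpq hp hq with h' | h' | h' | h' | h' | h'
    · exact conc x y w h rfl (Or.inl h')
    · exact conc x y w h rfl (Or.inr h')
    · exact conc y w x h.cyc (Ins.tri_rot x y w).symm (Or.inl h')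
    · exact conc y w x h.cyc (Ins.tri_rot x y w).symm (Or.inr h')
    · exact conc w x y h.cyc' ((Ins.tri_rot y w x).trans (Ins.tri_rot x y w)).symm (Or.inl h')
    · exact conc w x y h.cyc' ((Ins.tri_rot y w x).trans (Ins.tri_rot x y w)).symm (Or.inr h')
  obtain ⟨f1, f2, h⟩ := key
  calc (T.filter fun s => p ∈ s ∧ q ∈ s).card ≤ ({f1, f2} : Finset (Finset Pt)).card := by
        apply Finset.card_le_card
        intro s hs
        rw [Finset.mem_filter] at hs
        rcases h s hs.1 hs.2.1 hs.2.2 with h | h <;> simp [h]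
    _ ≤ 2 := Finset.card_le_two

theorem card_nbs (hT : UT n T) {t : Finset Pt} (ht : t ∈ T) : (nbs T t).card ≤ 6 := by
  classical
  obtain ⟨p, q, r, rfl, h⟩ := hT.exists_pos ht
  have hsub : nbs T {p, q, r} ⊆ (T.filter fun s => p ∈ s ∧ q ∈ s) ∪
      ((T.filter fun s => q ∈ s ∧ r ∈ s) ∪ (T.filter fun s => r ∈ s ∧ p ∈ s)) := by
    intro s hs
    rw [mem_nbs] at hs
    obtain ⟨hsT, x, y, hxy, hx, hy, hxs, hys⟩ := hs
    simp only [Finset.mem_union, Finset.mem_filter]
    rcases pair_cases hxy hx hy with ⟨rfl, rfl⟩ | ⟨rfl, rfl⟩ | ⟨rfl, rfl⟩ | ⟨rfl, rfl⟩ |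
      ⟨rfl, rfl⟩ | ⟨rfl, rfl⟩ <;> tauto
  have c1 := card_two hT h.ne
  have c2 := card_two hT h.cyc.ne
  have c3 := card_two hT h.cyc'.ne
  calc (nbs T {p, q, r}).card ≤ _ := Finset.card_le_card hsub
    _ ≤ _ := Finset.card_union_le _ _
    _ ≤ _ := Nat.add_le_add_left (Finset.card_union_le _ _) _
    _ ≤ 6 := by omega

theorem bal_sub {t : Finset Pt} (ht : t ∈ T) (k : ℕ) : bal T k t ⊆ T := by
  induction k with
  | zero => simpa [bal] using ht
  | succ k _ =>
    intro s hs
    simp only [bal, Finset.mem_biUnion] at hs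
    obtain ⟨a, _, hs⟩ := hs
    exact (mem_nbs.1 hs).1

theorem card_bal (hT : UT n T) {t : Finset Pt} (ht : t ∈ T) (k : ℕ) :
    (bal T k t).card ≤ 6 ^ k := by
  induction k with
  | zero => simp [bal]
  | succ k ih =>
    calc (bal T (k + 1) t).card ≤ ∑ s ∈ bal T k t, (nbs T s).card := Finset.card_biUnion_le
      _ ≤ ∑ s ∈ bal T k t, 6 := Finset.sum_le_sum fun s hs => card_nbs hT (bal_sub ht k hs)
      _ = (bal T k t).card * 6 := by rw [Finset.sum_const, smul_eq_mul]
      _ ≤ 6 ^ k * 6 := Nat.mul_le_mul_right _ ih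
      _ = 6 ^ (k + 1) := by ring

theorem bal_succ (hT : UT n T) {t : Finset Pt} (ht : t ∈ T) (k : ℕ) :
    bal T k t ⊆ bal T (k + 1) t := by
  intro s hs
  simp only [bal, Finset.mem_biUnion]
  exact ⟨s, hs, mem_nbs.2 ⟨bal_sub ht k hs, adj_self hT (bal_sub ht k hs)⟩⟩

/-- A connected patch with at most `m` triangles lies in the dual ball of radius `m` around any of its
triangles. -/
theorem conn_sub_bal (hT : UT n T) {S : Finset (Finset Pt)} (hST : S ⊆ T) (hS : Conn S) {m : ℕ}
    (hm : S.card ≤ m) {t : Finset Pt} (ht : t ∈ S) : S ⊆ bal T m t := by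
  classical
  have htT := hST ht
  have claim : ∀ k : ℕ, S ⊆ bal T k t ∨ k + 1 ≤ (S ∩ bal T k t).card := by
    intro k
    induction k with
    | zero =>
      right
      have : t ∈ S ∩ bal T 0 t := Finset.mem_inter.2 ⟨ht, by simp [bal]⟩
      have := Finset.card_pos.2 ⟨t, this⟩
      omega
    | succ k ih =>
      rcases ih with ih | ih
      · left; exact ih.trans (bal_succ hT htT k)
      · by_cases hsub : S ⊆ bal T k t
        · left; exact hsub.trans (bal_succ hT htT k)
        · right
          obtain ⟨s, hsS, hsn⟩ := Finset.not_subset.1 hsub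
          -- first exit of a path from t to s
          have exit : ∀ b, Relation.ReflTransGen (StepIn S) t b → b ∉ bal T k t →
              ∃ c d, c ∈ S ∧ d ∈ S ∧ c ∈ bal T k t ∧ d ∉ bal T k t ∧ Adj c d := by
            intro b hb
            induction hb with
            | refl =>
              intro h
              exfalso
              apply h
              clear ih hsub hsn h
              induction k with
              | zero => simp [bal]
              | succ k ih => exact bal_succ hT htT k ih
            | @tail c d _ hcd ih' =>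
              intro hd
              by_cases hc : c ∈ bal T k t
              · exact ⟨c, d, hcd.1, hcd.2.1, hc, hd, hcd.2.2⟩
              · exact ih' hc
          obtain ⟨c, d, hcS, hdS, hcb, hdb, hcd⟩ := exit s (hS t ht s hsS) hsn
          have hd' : d ∈ bal T (k + 1) t := by
            simp only [bal, Finset.mem_biUnion]
            exact ⟨c, hcb, mem_nbs.2 ⟨hST hdS, hcd⟩⟩
          have hlt : (S ∩ bal T k t).card < (S ∩ bal T (k + 1) t).card := by
            apply Finset.card_lt_card
            rw [Finset.ssubset_iff_of_subset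
              (Finset.inter_subset_inter_left (bal_succ hT htT k))]
            exact ⟨d, Finset.mem_inter.2 ⟨hdS, hd'⟩, fun h => hdb (Finset.mem_inter.1 h).2⟩
          omega
  rcases claim m with h | h
  · exact h
  · have : (S ∩ bal T m t).card ≤ S.card := Finset.card_le_card Finset.inter_subset_left
    omega

end Pool.Agent.IT
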