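import Pool.Agent.IT.Geo

/-!
# Unimodular triangulations of the square: base layer

`UT n T` packages the three conditions of S11801. From it we derive the combinatorial structure: positively
oriented triangles, uniqueness, neighbours, midpoints, non-crossing of edges.
-/

namespace Pool.Agent.IT

open Filter Topology

/-- `T` is a unimodular triangulation of the square `[0,n] x [0,n]` (conditions as in S11801). -/
structure UT (n : ℕ) (T : Finset (Finset Pt)) : Prop where
  tri : ∀ t ∈ T, ∃ a b c : ℤ × ℤ, t = {a, b, c} ∧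
    (∀ p ∈ t, 0 ≤ p.1 ∧ p.1 ≤ (n : ℤ) ∧ 0 ≤ p.2 ∧ p.2 ≤ (n : ℤ)) ∧
    |(b.1 - a.1) * (c.2 - a.2) - (b.2 - a.2) * (c.1 - a.1)| = 1
  disj : ∀ t ∈ T, ∀ s ∈ T, t ≠ s → Disjoint (interior (cell t)) (interior (cell s))
  cover : (⋃ t ∈ T, cell t) = Set.Icc ((0 : ℝ), (0 : ℝ)) ((n : ℝ), (n : ℝ))

/-- `p q r` is a positively oriented triangle of `T`. -/
def Pos (T : Finset (Finset Pt)) (p q r : Pt) : Prop :=
  ({p, q, r} : Finset Pt) ∈ T ∧ det p q r = 1

/-- lattice points of the square -/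
def InSq (n : ℕ) (p : Pt) : Prop := 0 ≤ p.1 ∧ p.1 ≤ (n : ℤ) ∧ 0 ≤ p.2 ∧ p.2 ≤ (n : ℤ)

/-- real square -/
def Sq (n : ℕ) : Set (ℝ × ℝ) := Set.Icc ((0 : ℝ), (0 : ℝ)) ((n : ℝ), (n : ℝ))

/-- `[p,q]` is an edge of `T`. -/
def IsEdge (T : Finset (Finset Pt)) (p q : Pt) : Prop := ∃ r, Pos T p q r ∨ Pos T q p r

variable {n : ℕ} {T : Finset (Finset Pt)}

theorem Pos.cyc {p q r : Pt} (h : Pos T p q r) : Pos T q r p := by
  refine ⟨?_, by rw [det_cyc]; exact h.2⟩
  have : ({q, r, p} : Finset Pt) = {p, q, r} := by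
    ext x; simp only [Finset.mem_insert, Finset.mem_singleton]; tauto
  rw [this]; exact h.1

theorem Pos.cyc' {p q r : Pt} (h : Pos T p q r) : Pos T r p q := h.cyc.cyc

theorem IsEdge.symm {p q : Pt} (h : IsEdge T p q) : IsEdge T q p := by
  obtain ⟨r, h | h⟩ := h
  · exact ⟨r, Or.inr h⟩
  · exact ⟨r, Or.inl h⟩

theorem Pos.edge {p q r : Pt} (h : Pos T p q r) : IsEdge T p q := ⟨r, Or.inl h⟩
theorem Pos.edge' {p q r : Pt} (h : Pos T p q r) : IsEdge T q p := ⟨r, Or.inr h⟩

theorem Pos.ne {p q r : Pt} (h : Pos T p q r) : p ≠ q := by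
  rintro rfl
  have := h.2
  rw [det_self_left] at this
  omega

theorem Pos.ne' {p q r : Pt} (h : Pos T p q r) : p ≠ r := fun e => h.cyc'.ne e.symm

theorem UT.exists_pos (hT : UT n T) {t : Finset Pt} (ht : t ∈ T) :
    ∃ p q r, t = {p, q, r} ∧ Pos T p q r := by
  obtain ⟨a, b, c, rfl, -, h⟩ := hT.tri t ht
  rcases abs_eq (by norm_num : (0:ℤ) ≤ 1) |>.mp h with h | h
  · exact ⟨a, b, c, rfl, ht, h⟩
  · have e : ({a, b, c} : Finset Pt) = {a, c, b} := by
      ext x; simp only [Finset.mem_insert, Finset.mem_singleton]; tauto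
    refine ⟨a, c, b, e, ?_, ?_⟩
    · rw [← e]; exact ht
    · rw [det_swap']; simp only [det]; omega

theorem UT.insq (hT : UT n T) {t : Finset Pt} (ht : t ∈ T) {p : Pt} (hp : p ∈ t) : InSq n p := by
  obtain ⟨a, b, c, -, h, -⟩ := hT.tri t ht
  exact h p hp

theorem Pos.insq (hT : UT n T) {p q r : Pt} (h : Pos T p q r) : InSq n p :=
  hT.insq h.1 (by simp)

theorem IsEdge.insq (hT : UT n T) {p q : Pt} (h : IsEdge T p q) : InSq n p := by
  obtain ⟨r, h | h⟩ := h
  · exact h.insq hT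
  · exact h.cyc.insq hT

theorem mem_Sq {x : ℝ × ℝ} : x ∈ Sq n ↔ 0 ≤ x.1 ∧ x.1 ≤ n ∧ 0 ≤ x.2 ∧ x.2 ≤ n := by
  simp only [Sq, Set.mem_Icc, Prod.le_def]
  tauto

theorem UT.exists_cell (hT : UT n T) {x : ℝ × ℝ} (hx : x ∈ Sq n) : ∃ t ∈ T, x ∈ cell t := by
  have : x ∈ ⋃ t ∈ T, cell t := by rw [hT.cover]; exact hx
  simpa using this

theorem UT.cell_sub (hT : UT n T) {t : Finset Pt} (ht : t ∈ T) : cell t ⊆ Sq n := by
  intro x hx
  have : x ∈ ⋃ t ∈ T, cell t := by simpa using ⟨t, ht, hx⟩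
  rw [hT.cover] at this; exact this

theorem UT.eq_of_interior (hT : UT n T) {t s : Finset Pt} (ht : t ∈ T) (hs : s ∈ T) {x : ℝ × ℝ}
    (h1 : x ∈ interior (cell t)) (h2 : x ∈ interior (cell s)) : t = s := by
  by_contra hne
  exact Set.disjoint_left.mp (hT.disj t ht s hs hne) h1 h2

theorem dl_add_smul (p q : Pt) (x w : ℝ × ℝ) (ε : ℝ) :
    dl p q (x + ε • w) = dl p q x + ε * (((q.1:ℝ) - p.1) * w.2 - ((q.2:ℝ) - p.2) * w.1) := by
  simp only [dl, Prod.fst_add, Prod.snd_add, Prod.smul_fst, Prod.smul_snd, smul_eq_mul]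
  ring

/-- slope of the functional `dl p q` in the direction `w` -/
def sl (p q : Pt) (w : ℝ × ℝ) : ℝ := ((q.1:ℝ) - p.1) * w.2 - ((q.2:ℝ) - p.2) * w.1

theorem dl_add (p q : Pt) (x w : ℝ × ℝ) (ε : ℝ) : dl p q (x + ε • w) = dl p q x + ε * sl p q w :=
  dl_add_smul p q x w ε

theorem ev_pos {A B : ℝ} (h : 0 < A ∨ (A = 0 ∧ 0 < B)) : ∀ᶠ ε in 𝓝[>] (0:ℝ), 0 < A + ε * B := by
  rcases h with h | ⟨rfl, h⟩
  · have hc : Continuous (fun ε : ℝ => A + ε * B) := by fun_prop
    have : ∀ᶠ ε in 𝓝 (0:ℝ), 0 < A + ε * B := by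
      apply hc.continuousAt.eventually (p := fun y => 0 < y)
      simpa using lt_mem_nhds h
    exact this.filter_mono nhdsWithin_le_nhds
  · filter_upwards [self_mem_nhdsWithin] with ε hε
    have : (0:ℝ) < ε := hε
    nlinarith [mul_pos this h]

theorem ev_neg {A B : ℝ} (h : A < 0 ∨ (A = 0 ∧ B < 0)) : ∀ᶠ ε in 𝓝[>] (0:ℝ), A + ε * B < 0 := by
  have : 0 < -A ∨ (-A = 0 ∧ 0 < -B) := by
    rcases h with h | ⟨h, h'⟩
    · left; linarith
    · right; constructor <;> linarith
  filter_upwards [ev_pos this] with ε hε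
  linarith

/-- Points of a cell are limits of interior points: moving towards the centre. -/
theorem toward_center {p q r : Pt} (h : det p q r = 1) {x : ℝ × ℝ} (hx : x ∈ cell {p, q, r}) :
    ∃ w : ℝ × ℝ, ∀ᶠ ε in 𝓝[>] (0:ℝ), x + ε • w ∈ interior (cell {p, q, r}) := by
  rw [mem_cell_iff h] at hx
  obtain ⟨h1, h2, h3⟩ := hx
  set c : ℝ × ℝ := (((p.1:ℝ) + q.1 + r.1) / 3, ((p.2:ℝ) + q.2 + r.2) / 3) with hc
  have h' : (det p q r : ℝ) = 1 := by exact_mod_cast h
  have e1 : sl p q (c - x) = 1 / 3 - dl p q x := by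
    rw [← h']; simp only [sl, dl, hc, det, Prod.fst_sub, Prod.snd_sub]; push_cast; ring
  have e2 : sl q r (c - x) = 1 / 3 - dl q r x := by
    rw [← h']; simp only [sl, dl, hc, det, Prod.fst_sub, Prod.snd_sub]; push_cast; ring
  have e3 : sl r p (c - x) = 1 / 3 - dl r p x := by
    rw [← h']; simp only [sl, dl, hc, det, Prod.fst_sub, Prod.snd_sub]; push_cast; ring
  refine ⟨c - x, ?_⟩
  have key : ∀ A : ℝ, 0 ≤ A → 0 < A ∨ (A = 0 ∧ 0 < 1/3 - A) := by
    intro A hA
    rcases hA.lt_or_eq with h | h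
    · left; exact h
    · right; exact ⟨h.symm, by rw [← h]; norm_num⟩
  filter_upwards [ev_pos (key _ h1), ev_pos (key _ h2), ev_pos (key _ h3)] with ε g1 g2 g3
  rw [mem_interior_cell_iff h]
  refine ⟨?_, ?_, ?_⟩
  · rw [dl_add, e1]; exact g1
  · rw [dl_add, e2]; exact g2
  · rw [dl_add, e3]; exact g3

/-- A cell meeting the interior of another cell of `T` equals it. -/
theorem UT.eq_of_mem_interior (hT : UT n T) {t s : Finset Pt} (ht : t ∈ T) (hs : s ∈ T) {x : ℝ × ℝ}
    (h1 : x ∈ interior (cell t)) (h2 : x ∈ cell s) : t = s := by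
  obtain ⟨a, b, c, rfl, hpos⟩ := hT.exists_pos hs
  obtain ⟨w, hw⟩ := toward_center hpos.2 h2
  have hc : Continuous (fun ε : ℝ => x + ε • w) := by fun_prop
  have h0 : x + (0:ℝ) • w = x := by simp
  have hev : ∀ᶠ ε in 𝓝 (0:ℝ), x + ε • w ∈ interior (cell t) := by
    apply hc.continuousAt.eventually_mem
    rw [h0]; exact isOpen_interior.mem_nhds h1
  obtain ⟨ε, g1, g2⟩ := ((hev.filter_mono nhdsWithin_le_nhds).and hw).exists
  exact hT.eq_of_interior ht hs g1 g2

/-- Interior points of a cell in terms of positive triangles. -/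
theorem Pos.eq_set (hT : UT n T) {p q r a b c : Pt} (h : Pos T p q r) (g : Pos T a b c) {x : ℝ × ℝ}
    (h1 : 0 < dl p q x ∧ 0 < dl q r x ∧ 0 < dl r p x)
    (h2 : 0 ≤ dl a b x ∧ 0 ≤ dl b c x ∧ 0 ≤ dl c a x) : ({p, q, r} : Finset Pt) = {a, b, c} :=
  hT.eq_of_mem_interior h.1 g.1 ((mem_interior_cell_iff h.2 x).mpr h1) ((mem_cell_iff g.2 x).mpr h2)

/-- Directions: if a short move from `x` in the direction `w` stays in the square then it stays in one
cell containing `x`. -/
theorem UT.exists_dir (hT : UT n T) {x w : ℝ × ℝ} (hw : ∀ᶠ ε in 𝓝[>] (0:ℝ), x + ε • w ∈ Sq n) :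
    ∃ t ∈ T, x ∈ cell t ∧ ∀ᶠ ε in 𝓝[>] (0:ℝ), x + ε • w ∈ cell t := by
  have h1 : ∃ t ∈ T, ∃ᶠ ε in 𝓝[>] (0:ℝ), x + ε • w ∈ cell t := by
    by_contra hcon
    push Not at hcon
    have : ∀ᶠ ε in 𝓝[>] (0:ℝ), ∀ t ∈ T, ¬ (x + ε • w ∈ cell t) := by
      rw [Finset.eventually_all]
      intro t ht
      exact hcon t ht
    obtain ⟨ε, g1, g2⟩ := (hw.and this).exists
    obtain ⟨t, ht, hx⟩ := hT.exists_cell g1
    exact g2 t ht hx
  obtain ⟨t, ht, hf⟩ := h1
  obtain ⟨a, b, c, rfl, hpos⟩ := hT.exists_pos ht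
  have hclosed := isClosed_cell hpos.2
  have hx : x ∈ cell {a, b, c} := by
    have hc : Continuous (fun ε : ℝ => x + ε • w) := by fun_prop
    have ht : Tendsto (fun ε : ℝ => x + ε • w) (𝓝[>] (0:ℝ)) (𝓝 x) := by
      have := (hc.tendsto 0).mono_left (nhdsWithin_le_nhds (s := Set.Ioi (0:ℝ)))
      simpa using this
    have : x ∈ closure (cell {a, b, c}) := mem_closure_of_frequently_of_tendsto hf ht
    rwa [hclosed.closure_eq] at this
  refine ⟨_, ht, hx, ?_⟩
  obtain ⟨ε₀, g0, g1⟩ := (hf.and_eventually (self_mem_nhdsWithin : Set.Ioi (0:ℝ) ∈ 𝓝[>] (0:ℝ))).exists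
  have hpos0 : (0:ℝ) < ε₀ := g1
  have hconv : Convex ℝ (cell {a, b, c}) := convex_convexHull ℝ _
  filter_upwards [Ioo_mem_nhdsGT hpos0] with ε hε
  have e : x + ε • w = (1 - ε / ε₀) • x + (ε / ε₀) • (x + ε₀ • w) := by
    have : ε / ε₀ * ε₀ = ε := by field_simp
    rw [smul_add, smul_smul, this]
    module
  rw [e]
  apply hconv hx g0
  · have : ε / ε₀ ≤ 1 := by rw [div_le_one hpos0]; exact hε.2.le
    linarith
  · exact div_nonneg hε.1.le hpos0.le
  · ring

/-- Uniqueness of the triangle on the left of a directed edge. -/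
theorem Pos.unique (hT : UT n T) {p q r s : Pt} (h : Pos T p q r) (g : Pos T p q s) : r = s := by
  -- near the midpoint of `[p,q]`, towards `r`
  set x : ℝ × ℝ := (((p.1:ℝ) + q.1) / 2, ((p.2:ℝ) + q.2) / 2) with hx
  set w : ℝ × ℝ := ((r.1:ℝ) - p.1, (r.2:ℝ) - p.2) with hw
  have h' : (det p q r : ℝ) = 1 := by exact_mod_cast h.2
  have g' : (det p q s : ℝ) = 1 := by exact_mod_cast g.2
  have a1 : dl p q x = 0 := by simp only [dl, hx]; ring
  have a2 : dl q r x = 1 / 2 := by rw [← h']; simp only [dl, hx, det]; push_cast; ring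
  have a3 : dl r p x = 1 / 2 := by rw [← h']; simp only [dl, hx, det]; push_cast; ring
  have a4 : dl q s x = 1 / 2 := by rw [← g']; simp only [dl, hx, det]; push_cast; ring
  have a5 : dl s p x = 1 / 2 := by rw [← g']; simp only [dl, hx, det]; push_cast; ring
  have a6 : sl p q w = 1 := by rw [← h']; simp only [sl, hw, det]; push_cast; ring
  obtain ⟨ε, ⟨⟨g1, g2⟩, g3⟩, g4, g5⟩ := (((ev_pos (A := 0) (B := 1) (Or.inr ⟨rfl, by norm_num⟩)).and
    (ev_pos (A := 1/2) (B := sl q r w) (Or.inl (by norm_num)))).and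
    (ev_pos (A := 1/2) (B := sl r p w) (Or.inl (by norm_num)))).and
    ((ev_pos (A := 1/2) (B := sl q s w) (Or.inl (by norm_num))).and
    (ev_pos (A := 1/2) (B := sl s p w) (Or.inl (by norm_num)))) |>.exists
  have e : ({p, q, r} : Finset Pt) = {p, q, s} := by
    apply h.eq_set hT g (x := x + ε • w)
    · refine ⟨?_, ?_, ?_⟩
      · rw [dl_add, a1, a6]; exact g1
      · rw [dl_add, a2]; exact g2
      · rw [dl_add, a3]; exact g3
    · refine ⟨?_, ?_, ?_⟩
      · rw [dl_add, a1, a6]; exact g1.le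
      · rw [dl_add, a4]; exact g4.le
      · rw [dl_add, a5]; exact g5.le
  have : r ∈ ({p, q, s} : Finset Pt) := by rw [← e]; simp
  simp only [Finset.mem_insert, Finset.mem_singleton] at this
  rcases this with h1 | h1 | h1
  · exact absurd h1 h.ne'.symm
  · exact absurd h1 h.cyc.ne.symm
  · exact h1

/-- `det` is determined by cross products. -/
theorem eq_smul_of_crs {u v e : Pt} (h : crs u e = 1) (h0 : crs u v = 0) :
    v = (crs v e * u.1, crs v e * u.2) := by
  simp only [crs] at *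
  ext
  · simp only; linear_combination (-v.1) * h + e.1 * h0
  · simp only; linear_combination (-v.2) * h + e.2 * h0

/-- Two edges with a common midpoint coincide. -/
theorem Pos.eq_of_mid (hT : UT n T) {p q r a b c : Pt} (h : Pos T p q r) (g : Pos T a b c)
    (h1 : p.1 + q.1 = a.1 + b.1) (h2 : p.2 + q.2 = a.2 + b.2) : (p = a ∧ q = b) ∨ (p = b ∧ q = a) := by
  set u : Pt := (q.1 - p.1, q.2 - p.2) with hu
  set v : Pt := (b.1 - a.1, b.2 - a.2) with hv
  set u' : Pt := (r.1 - p.1, r.2 - p.2) with hu'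
  set v' : Pt := (c.1 - a.1, c.2 - a.2) with hv'
  have hd : crs u u' = 1 := by rw [← h.2]; simp only [crs, det, hu, hu']
  have gd : crs v v' = 1 := by rw [← g.2]; simp only [crs, det, hv, hv']
  by_cases hk : crs u v = 0
  · have e1 := eq_smul_of_crs hd hk
    have hk' : crs v u = 0 := by simp only [crs] at *; linarith
    have e2 := eq_smul_of_crs gd hk'
    have hm : crs v u' * crs u v' = 1 := by
      have e3 : crs u v' = crs u v' := rfl
      have : crs v v' = crs v u' * crs u v' := by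
        conv_lhs => rw [e1]
        simp only [crs]; ring
      rw [← this]; exact gd
    rcases Int.eq_one_or_neg_one_of_mul_eq_one hm with h3 | h3
    · left
      rw [h3] at e1
      have e11 : b.1 - a.1 = 1 * (q.1 - p.1) := congrArg Prod.fst e1
      have e12 : b.2 - a.2 = 1 * (q.2 - p.2) := congrArg Prod.snd e1
      constructor <;> ext <;> omega
    · right
      rw [h3] at e1
      have e11 : b.1 - a.1 = -1 * (q.1 - p.1) := congrArg Prod.fst e1
      have e12 : b.2 - a.2 = -1 * (q.2 - p.2) := congrArg Prod.snd e1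
      constructor <;> ext <;> omega
  · exfalso
    set x : ℝ × ℝ := (((p.1:ℝ) + q.1) / 2, ((p.2:ℝ) + q.2) / 2) with hx
    have h' : (det p q r : ℝ) = 1 := by exact_mod_cast h.2
    have g' : (det a b c : ℝ) = 1 := by exact_mod_cast g.2
    have h1' : (p.1:ℝ) + q.1 = a.1 + b.1 := by exact_mod_cast h1
    have h2' : (p.2:ℝ) + q.2 = a.2 + b.2 := by exact_mod_cast h2
    have hx' : x = (((a.1:ℝ) + b.1) / 2, ((a.2:ℝ) + b.2) / 2) := by rw [hx, h1', h2']
    have a1 : dl p q x = 0 := by simp only [dl, hx]; ring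
    have a2 : dl q r x = 1 / 2 := by rw [← h']; simp only [dl, hx, det]; push_cast; ring
    have a3 : dl r p x = 1 / 2 := by rw [← h']; simp only [dl, hx, det]; push_cast; ring
    have b1 : dl a b x = 0 := by simp only [dl, hx']; ring
    have b2 : dl b c x = 1 / 2 := by rw [← g']; simp only [dl, hx', det]; push_cast; ring
    have b3 : dl c a x = 1 / 2 := by rw [← g']; simp only [dl, hx', det]; push_cast; ring
    -- direction
    obtain ⟨σ, hσ, hσ2⟩ : ∃ σ : ℝ, 0 < σ * (crs u v : ℝ) ∧ (σ = 1 ∨ σ = -1) := by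
      rcases lt_or_gt_of_ne hk with h3 | h3
      · exact ⟨-1, by have : (crs u v : ℝ) < 0 := by exact_mod_cast h3
                      linarith, Or.inr rfl⟩
      · exact ⟨1, by have : (0:ℝ) < (crs u v : ℝ) := by exact_mod_cast h3
                     linarith, Or.inl rfl⟩
    set w : ℝ × ℝ := (σ * ((v.1:ℝ) - u.1), σ * ((v.2:ℝ) - u.2)) with hw
    have s1 : sl p q w = σ * (crs u v : ℝ) := by
      simp only [sl, hw, crs, hu, hv]; push_cast; ring
    have s2 : sl a b w = σ * (crs u v : ℝ) := by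
      simp only [sl, hw, crs, hu, hv]; push_cast; ring
    obtain ⟨ε, ⟨⟨g1, g2⟩, g3⟩, g4, g5⟩ := (((ev_pos (A := 0) (B := σ * (crs u v : ℝ))
      (Or.inr ⟨rfl, hσ⟩)).and
      (ev_pos (A := 1/2) (B := sl q r w) (Or.inl (by norm_num)))).and
      (ev_pos (A := 1/2) (B := sl r p w) (Or.inl (by norm_num)))).and
      ((ev_pos (A := 1/2) (B := sl b c w) (Or.inl (by norm_num))).and
      (ev_pos (A := 1/2) (B := sl c a w) (Or.inl (by norm_num)))) |>.exists
    have e : ({p, q, r} : Finset Pt) = {a, b, c} := by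
      apply h.eq_set hT g (x := x + ε • w)
      · refine ⟨?_, ?_, ?_⟩
        · rw [dl_add, a1, s1]; exact g1
        · rw [dl_add, a2]; exact g2
        · rw [dl_add, a3]; exact g3
      · refine ⟨?_, ?_, ?_⟩
        · rw [dl_add, b1, s2]; exact g1.le
        · rw [dl_add, b2]; exact g4.le
        · rw [dl_add, b3]; exact g5.le
    have ha : a ∈ ({p, q, r} : Finset Pt) := by rw [e]; simp
    have hb : b ∈ ({p, q, r} : Finset Pt) := by rw [e]; simp
    simp only [Finset.mem_insert, Finset.mem_singleton] at ha hb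
    have n1 := h.ne
    have n2 := h.cyc.ne
    have n3 := h.cyc'.ne
    have n4 := g.ne
    have m1 : p.1 + q.1 = a.1 + b.1 := h1
    have m2 : p.2 + q.2 = a.2 + b.2 := h2
    have hk2 : crs u v ≠ 0 := hk
    simp only [crs, hu, hv] at hk2
    rcases ha with rfl | rfl | rfl <;> rcases hb with rfl | rfl | rfl
    · exact n4 rfl
    · apply hk2; ring
    · apply n2; ext <;> omega
    · apply hk2; ring
    · exact n4 rfl
    · apply n3; ext <;> omega
    · apply n2; ext <;> omega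
    · apply n3; ext <;> omega
    · exact n4 rfl

theorem IsEdge.eq_of_mid (hT : UT n T) {p q a b : Pt} (h : IsEdge T p q) (g : IsEdge T a b)
    (h1 : p.1 + q.1 = a.1 + b.1) (h2 : p.2 + q.2 = a.2 + b.2) : (p = a ∧ q = b) ∨ (p = b ∧ q = a) := by
  obtain ⟨r, h | h⟩ := h <;> obtain ⟨c, g | g⟩ := g
  · exact h.eq_of_mid hT g h1 h2
  · rcases h.eq_of_mid hT g (by linarith) (by linarith) with h | h
    · exact Or.inr h
    · exact Or.inl h
  · rcases h.eq_of_mid hT g (by linarith) (by linarith) with h | h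
    · exact Or.inr ⟨h.2, h.1⟩
    · exact Or.inl ⟨h.2, h.1⟩
  · rcases h.eq_of_mid hT g (by linarith) (by linarith) with h | h
    · exact Or.inl ⟨h.2, h.1⟩
    · exact Or.inr ⟨h.2, h.1⟩

/-- A real point in the relative interior of two non-parallel edges forces equal triangles. -/
theorem Pos.eq_of_cross (hT : UT n T) {p q r a b c : Pt} (h : Pos T p q r) (g : Pos T a b c)
    {x : ℝ × ℝ} (a1 : dl p q x = 0) (a2 : 0 < dl q r x) (a3 : 0 < dl r p x)
    (b1 : dl a b x = 0) (b2 : 0 < dl b c x) (b3 : 0 < dl c a x)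
    (hk : crs (q.1 - p.1, q.2 - p.2) (b.1 - a.1, b.2 - a.2) ≠ 0) :
    ({p, q, r} : Finset Pt) = {a, b, c} := by
  set u : Pt := (q.1 - p.1, q.2 - p.2) with hu
  set v : Pt := (b.1 - a.1, b.2 - a.2) with hv
  obtain ⟨σ, hσ⟩ : ∃ σ : ℝ, 0 < σ * (crs u v : ℝ) := by
    rcases lt_or_gt_of_ne hk with h3 | h3
    · exact ⟨-1, by have : (crs u v : ℝ) < 0 := by exact_mod_cast h3
                    linarith⟩
    · exact ⟨1, by have : (0:ℝ) < (crs u v : ℝ) := by exact_mod_cast h3
                   linarith⟩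
  set w : ℝ × ℝ := (σ * ((v.1:ℝ) - u.1), σ * ((v.2:ℝ) - u.2)) with hw
  have s1 : sl p q w = σ * (crs u v : ℝ) := by
    simp only [sl, hw, crs, hu, hv]; push_cast; ring
  have s2 : sl a b w = σ * (crs u v : ℝ) := by
    simp only [sl, hw, crs, hu, hv]; push_cast; ring
  obtain ⟨ε, ⟨⟨g1, g2⟩, g3⟩, g4, g5⟩ := (((ev_pos (A := 0) (B := σ * (crs u v : ℝ))
    (Or.inr ⟨rfl, hσ⟩)).and
    (ev_pos (B := sl q r w) (Or.inl a2))).and
    (ev_pos (B := sl r p w) (Or.inl a3))).and
    ((ev_pos (B := sl b c w) (Or.inl b2)).and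
    (ev_pos (B := sl c a w) (Or.inl b3))) |>.exists
  apply h.eq_set hT g (x := x + ε • w)
  · refine ⟨?_, ?_, ?_⟩
    · rw [dl_add, a1, s1]; exact g1
    · rw [dl_add]; exact g2
    · rw [dl_add]; exact g3
  · refine ⟨?_, ?_, ?_⟩
    · rw [dl_add, b1, s2]; exact g1.le
    · rw [dl_add]; exact g4.le
    · rw [dl_add]; exact g5.le

theorem Pos.no_cross (hT : UT n T) {p q r a b c : Pt} (h : Pos T p q r) (g : Pos T a b c)
    (h1 : det p q a * det p q b < 0) (h2 : det a b p * det a b q < 0) : False := by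
  set A : ℝ := (det a b p : ℝ) with hA
  set B : ℝ := (det a b q : ℝ) with hB
  set C : ℝ := (det p q a : ℝ) with hC
  set D : ℝ := (det p q b : ℝ) with hD
  have h1' : C * D < 0 := by rw [hC, hD]; exact_mod_cast h1
  have h2' : A * B < 0 := by rw [hA, hB]; exact_mod_cast h2
  have hBA : B - A ≠ 0 := by
    intro e
    have : A = B := by linarith
    rw [this] at h2'; nlinarith [mul_self_nonneg B]
  have hDC : D - C ≠ 0 := by
    intro e
    have : C = D := by linarith
    rw [this] at h1'; nlinarith [mul_self_nonneg D]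
  have hrel : D - C = -(B - A) := by
    rw [hA, hB, hC, hD]; simp only [det]; push_cast; ring
  set l : ℝ := -A / (B - A) with hl
  have hl1 : l * (B - A) = -A := by rw [hl]; field_simp
  have hl0 : 0 < l := by
    have h3 : 0 < l * (B - A) ^ 2 := by
      have : l * (B - A) ^ 2 = -A * (B - A) := by rw [← hl1]; ring
      rw [this]; nlinarith [mul_self_nonneg A]
    have h4 : 0 < (B - A) ^ 2 := by positivity
    exact (mul_pos_iff_of_pos_right h4).mp h3
  have hl2 : l < 1 := by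
    have h3 : 0 < (1 - l) * (B - A) ^ 2 := by
      have : (1 - l) * (B - A) ^ 2 = (B - A) * (B - A + A) := by
        have : (1 - l) * (B - A) ^ 2 = (B - A) ^ 2 - (l * (B - A)) * (B - A) := by ring
        rw [this, hl1]; ring
      rw [this]; nlinarith [mul_self_nonneg B]
    have h4 : 0 < (B - A) ^ 2 := by positivity
    have := (mul_pos_iff_of_pos_right h4).mp h3
    linarith
  set x : ℝ × ℝ := ((p.1:ℝ) + l * (q.1 - p.1), (p.2:ℝ) + l * (q.2 - p.2)) with hx
  have h' : (det p q r : ℝ) = 1 := by exact_mod_cast h.2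
  have g' : (det a b c : ℝ) = 1 := by exact_mod_cast g.2
  have a1 : dl p q x = 0 := by simp only [dl, hx]; ring
  have a2 : dl q r x = 1 - l := by
    have : dl q r x = (1 - l) * (det p q r : ℝ) := by simp only [dl, hx, det]; push_cast; ring
    rw [this, h']; ring
  have a3 : dl r p x = l := by
    have : dl r p x = l * (det p q r : ℝ) := by simp only [dl, hx, det]; push_cast; ring
    rw [this, h']; ring
  have b1 : dl a b x = 0 := by
    have : dl a b x = A + l * (B - A) := by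
      simp only [dl, hx, hA, hB, det]; push_cast; ring
    rw [this, hl1]; ring
  -- position of x on [a,b]
  set m : ℝ := -C / (D - C) with hm
  have hm1 : m * (D - C) = -C := by rw [hm]; field_simp
  have hm0 : 0 < m := by
    have h3 : 0 < m * (D - C) ^ 2 := by
      have : m * (D - C) ^ 2 = -C * (D - C) := by rw [← hm1]; ring
      rw [this]; nlinarith [mul_self_nonneg C]
    have h4 : 0 < (D - C) ^ 2 := by positivity
    exact (mul_pos_iff_of_pos_right h4).mp h3
  have hm2 : m < 1 := by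
    have h3 : 0 < (1 - m) * (D - C) ^ 2 := by
      have : (1 - m) * (D - C) ^ 2 = (D - C) * (D - C + C) := by
        have : (1 - m) * (D - C) ^ 2 = (D - C) ^ 2 - (m * (D - C)) * (D - C) := by ring
        rw [this, hm1]; ring
      rw [this]; nlinarith [mul_self_nonneg D]
    have h4 : 0 < (D - C) ^ 2 := by positivity
    have := (mul_pos_iff_of_pos_right h4).mp h3
    linarith
  have hx2 : x = ((a.1:ℝ) + m * (b.1 - a.1), (a.2:ℝ) + m * (b.2 - a.2)) := by
    -- both are the intersection point of the two lines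
    have e1 : (D - C) * ((p.1:ℝ) + l * (q.1 - p.1)) = (D - C) * ((a.1:ℝ) + m * (b.1 - a.1)) := by
      have : (D - C) * ((a.1:ℝ) + m * (b.1 - a.1)) = (D - C) * a.1 + (m * (D - C)) * (b.1 - a.1) := by
        ring
      rw [this, hm1]
      have : (D - C) * ((p.1:ℝ) + l * (q.1 - p.1)) = (D - C) * p.1 - (l * (B - A)) * (q.1 - p.1) := by
        rw [hrel]; ring
      rw [this, hl1]
      simp only [hA, hC, hD, det]; push_cast; ring
    have e2 : (D - C) * ((p.2:ℝ) + l * (q.2 - p.2)) = (D - C) * ((a.2:ℝ) + m * (b.2 - a.2)) := by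
      have : (D - C) * ((a.2:ℝ) + m * (b.2 - a.2)) = (D - C) * a.2 + (m * (D - C)) * (b.2 - a.2) := by
        ring
      rw [this, hm1]
      have : (D - C) * ((p.2:ℝ) + l * (q.2 - p.2)) = (D - C) * p.2 - (l * (B - A)) * (q.2 - p.2) := by
        rw [hrel]; ring
      rw [this, hl1]
      simp only [hA, hC, hD, det]; push_cast; ring
    rw [hx]
    ext
    · exact mul_left_cancel₀ hDC e1
    · exact mul_left_cancel₀ hDC e2
  have b2 : dl b c x = 1 - m := by
    have : dl b c x = (1 - m) * (det a b c : ℝ) := by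
      rw [hx2]; simp only [dl, det]; push_cast; ring
    rw [this, g']; ring
  have b3 : dl c a x = m := by
    have : dl c a x = m * (det a b c : ℝ) := by rw [hx2]; simp only [dl, det]; push_cast; ring
    rw [this, g']; ring
  have hk : crs (q.1 - p.1, q.2 - p.2) (b.1 - a.1, b.2 - a.2) ≠ 0 := by
    intro e
    apply hDC
    have : D - C = (crs (q.1 - p.1, q.2 - p.2) (b.1 - a.1, b.2 - a.2) : ℝ) := by
      simp only [hC, hD, det, crs]; push_cast; ring
    rw [this, e]; simp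
  have e := h.eq_of_cross hT g a1 (by rw [a2]; linarith) (by rw [a3]; exact hl0) b1
    (by rw [b2]; linarith) (by rw [b3]; exact hm0) hk
  have ha : a ∈ ({p, q, r} : Finset Pt) := by rw [e]; simp
  have hb : b ∈ ({p, q, r} : Finset Pt) := by rw [e]; simp
  simp only [Finset.mem_insert, Finset.mem_singleton] at ha hb
  rcases ha with rfl | rfl | rfl
  · rw [det_self_out] at h1; simp at h1
  · rw [det_self_right] at h1; simp at h1
  · rcases hb with rfl | rfl | rfl
    · rw [det_self_out] at h1; simp at h1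
    · rw [det_self_right] at h1; simp at h1
    · exact g.ne rfl

/-- Edges do not cross properly. -/
theorem IsEdge.no_cross (hT : UT n T) {p q a b : Pt} (h : IsEdge T p q) (g : IsEdge T a b)
    (h1 : det p q a * det p q b < 0) (h2 : det a b p * det a b q < 0) : False := by
  have s1 : det q p a * det q p b < 0 := by rw [det_swap p q a, det_swap p q b]; linarith
  have s2 : det b a p * det b a q < 0 := by rw [det_swap a b p, det_swap a b q]; linarith
  obtain ⟨r, h | h⟩ := h <;> obtain ⟨c, g | g⟩ := g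
  · exact h.no_cross hT g h1 h2
  · exact h.no_cross hT g (by linarith) s2
  · exact h.no_cross hT g s1 (by linarith)
  · exact h.no_cross hT g (by linarith) (by linarith)

/-- No edge starts inside the cone of a triangle at one of its vertices. -/
theorem Pos.no_cone (hT : UT n T) {p q r b : Pt} (h : Pos T p q r) (g : IsEdge T p b)
    (h1 : 0 < det p q b) (h2 : 0 < det p b r) : False := by
  apply g.no_cross hT h.cyc.edge
  · -- det p b q * det p b r < 0
    rw [det_swap' p q b]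
    nlinarith
  · -- det q r p * det q r b < 0
    have e1 : det q r p = 1 := by rw [det_cyc]; exact h.2
    have e2 : det q r b = 1 - det p q b - det p b r := by
      rw [← h.2]; simp only [det]; ring
    rw [e1, e2]; linarith

/-- Every lattice point of the square is a vertex. -/
theorem UT.exists_pos_at (hT : UT n T) {p : Pt} (hp : InSq n p) : ∃ q r, Pos T p q r := by
  have hx : emb p ∈ Sq n := by
    rw [mem_Sq]; simp only [emb]
    obtain ⟨h1, h2, h3, h4⟩ := hp
    exact ⟨by exact_mod_cast h1, by exact_mod_cast h2, by exact_mod_cast h3, by exact_mod_cast h4⟩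
  obtain ⟨t, ht, hxt⟩ := hT.exists_cell hx
  obtain ⟨a, b, c, rfl, hpos⟩ := hT.exists_pos ht
  rw [mem_cell_iff hpos.2, dl_emb, dl_emb, dl_emb] at hxt
  obtain ⟨h1, h2, h3⟩ := hxt
  have h1' : 0 ≤ det a b p := by exact_mod_cast h1
  have h2' : 0 ≤ det b c p := by exact_mod_cast h2
  have h3' : 0 ≤ det c a p := by exact_mod_cast h3
  have hs : det a b p + det b c p + det c a p = 1 := by
    rw [← hpos.2]; simp only [det]; ring
  have e1 : p.1 = det b c p * a.1 + det c a p * b.1 + det a b p * c.1 := by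
    have := hpos.2
    simp only [det] at *
    linear_combination (-p.1) * this
  have e2 : p.2 = det b c p * a.2 + det c a p * b.2 + det a b p * c.2 := by
    have := hpos.2
    simp only [det] at *
    linear_combination (-p.2) * this
  have hcases : (det b c p = 1 ∧ det c a p = 0 ∧ det a b p = 0) ∨
      (det b c p = 0 ∧ det c a p = 1 ∧ det a b p = 0) ∨
      (det b c p = 0 ∧ det c a p = 0 ∧ det a b p = 1) := by omega
  rcases hcases with ⟨k1, k2, k3⟩ | ⟨k1, k2, k3⟩ | ⟨k1, k2, k3⟩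
  · have : p = a := by
      ext
      · rw [k1, k2, k3] at e1; linarith
      · rw [k1, k2, k3] at e2; linarith
    exact ⟨b, c, this ▸ hpos⟩
  · have : p = b := by
      ext
      · rw [k1, k2, k3] at e1; linarith
      · rw [k1, k2, k3] at e2; linarith
    exact ⟨c, a, this ▸ hpos.cyc⟩
  · have : p = c := by
      ext
      · rw [k1, k2, k3] at e1; linarith
      · rw [k1, k2, k3] at e2; linarith
    exact ⟨a, b, this ▸ hpos.cyc'⟩

/-- If a lattice point lies in a cell it is one of its vertices. -/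
theorem Pos.mem_of_det {a b c p : Pt} (h : det a b c = 1) (h1 : 0 ≤ det a b p) (h2 : 0 ≤ det b c p)
    (h3 : 0 ≤ det c a p) : p = a ∨ p = b ∨ p = c := by
  have hs : det a b p + det b c p + det c a p = 1 := by
    rw [← h]; simp only [det]; ring
  have e1 : p.1 = det b c p * a.1 + det c a p * b.1 + det a b p * c.1 := by
    simp only [det] at *
    linear_combination (-p.1) * h
  have e2 : p.2 = det b c p * a.2 + det c a p * b.2 + det a b p * c.2 := by
    simp only [det] at *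
    linear_combination (-p.2) * h
  have hcases : (det b c p = 1 ∧ det c a p = 0 ∧ det a b p = 0) ∨
      (det b c p = 0 ∧ det c a p = 1 ∧ det a b p = 0) ∨
      (det b c p = 0 ∧ det c a p = 0 ∧ det a b p = 1) := by omega
  rcases hcases with ⟨k1, k2, k3⟩ | ⟨k1, k2, k3⟩ | ⟨k1, k2, k3⟩
  · left; ext
    · rw [k1, k2, k3] at e1; linarith
    · rw [k1, k2, k3] at e2; linarith
  · right; left; ext
    · rw [k1, k2, k3] at e1; linarith
    · rw [k1, k2, k3] at e2; linarith
  · right; right; ext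
    · rw [k1, k2, k3] at e1; linarith
    · rw [k1, k2, k3] at e2; linarith

/-- Every half-integral non-integral point of the square is the midpoint of an edge. -/
theorem UT.exists_mid (hT : UT n T) {m : Pt} (h1 : 0 ≤ m.1) (h2 : m.1 ≤ 2 * n) (h3 : 0 ≤ m.2)
    (h4 : m.2 ≤ 2 * n) (hodd : ¬ (2 ∣ m.1 ∧ 2 ∣ m.2)) :
    ∃ p q, IsEdge T p q ∧ p.1 + q.1 = m.1 ∧ p.2 + q.2 = m.2 := by
  set x : ℝ × ℝ := ((m.1:ℝ) / 2, (m.2:ℝ) / 2) with hx
  have hxS : x ∈ Sq n := by
    rw [mem_Sq]; simp only [hx]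
    have h1' : (0:ℝ) ≤ m.1 := by exact_mod_cast h1
    have h2' : (m.1:ℝ) ≤ 2 * n := by exact_mod_cast h2
    have h3' : (0:ℝ) ≤ m.2 := by exact_mod_cast h3
    have h4' : (m.2:ℝ) ≤ 2 * n := by exact_mod_cast h4
    refine ⟨by linarith, by linarith, by linarith, by linarith⟩
  obtain ⟨t, ht, hxt⟩ := hT.exists_cell hxS
  obtain ⟨a, b, c, rfl, hpos⟩ := hT.exists_pos ht
  rw [mem_cell_iff hpos.2] at hxt
  set C : ℤ := (b.1 - a.1) * (m.2 - 2 * a.2) - (b.2 - a.2) * (m.1 - 2 * a.1) with hC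
  set A : ℤ := (c.1 - b.1) * (m.2 - 2 * b.2) - (c.2 - b.2) * (m.1 - 2 * b.1) with hA
  set B : ℤ := (a.1 - c.1) * (m.2 - 2 * c.2) - (a.2 - c.2) * (m.1 - 2 * c.1) with hB
  have eC : dl a b x = (C:ℝ) / 2 := by simp only [dl, hx, hC]; push_cast; ring
  have eA : dl b c x = (A:ℝ) / 2 := by simp only [dl, hx, hA]; push_cast; ring
  have eB : dl c a x = (B:ℝ) / 2 := by simp only [dl, hx, hB]; push_cast; ring
  rw [eA, eB, eC] at hxt
  obtain ⟨g1, g2, g3⟩ := hxt
  have g1' : 0 ≤ C := by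
    have : (0:ℝ) ≤ C := by linarith
    exact_mod_cast this
  have g2' : 0 ≤ A := by
    have : (0:ℝ) ≤ A := by linarith
    exact_mod_cast this
  have g3' : 0 ≤ B := by
    have : (0:ℝ) ≤ B := by linarith
    exact_mod_cast this
  have hd := hpos.2
  have hs : A + B + C = 2 := by
    have : A + B + C = 2 * det a b c := by simp only [hA, hB, hC, det]; ring
    rw [this, hd]; norm_num
  have e1 : m.1 = A * a.1 + B * b.1 + C * c.1 := by
    simp only [hA, hB, hC, det] at *
    linear_combination (-m.1) * hd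
  have e2 : m.2 = A * a.2 + B * b.2 + C * c.2 := by
    simp only [hA, hB, hC, det] at *
    linear_combination (-m.2) * hd
  have hcases : (A = 2 ∧ B = 0 ∧ C = 0) ∨ (A = 0 ∧ B = 2 ∧ C = 0) ∨ (A = 0 ∧ B = 0 ∧ C = 2) ∨
      (A = 1 ∧ B = 1 ∧ C = 0) ∨ (A = 0 ∧ B = 1 ∧ C = 1) ∨ (A = 1 ∧ B = 0 ∧ C = 1) := by omega
  clear_value A B C
  rcases hcases with ⟨rfl, rfl, rfl⟩ | ⟨rfl, rfl, rfl⟩ | ⟨rfl, rfl, rfl⟩ | ⟨rfl, rfl, rfl⟩ |
    ⟨rfl, rfl, rfl⟩ | ⟨rfl, rfl, rfl⟩
  · exact absurd ⟨⟨a.1, by linarith⟩, ⟨a.2, by linarith⟩⟩ hodd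
  · exact absurd ⟨⟨b.1, by linarith⟩, ⟨b.2, by linarith⟩⟩ hodd
  · exact absurd ⟨⟨c.1, by linarith⟩, ⟨c.2, by linarith⟩⟩ hodd
  · exact ⟨a, b, hpos.edge, by linarith, by linarith⟩
  · exact ⟨b, c, hpos.cyc.edge, by linarith, by linarith⟩
  · exact ⟨c, a, hpos.cyc'.edge, by linarith, by linarith⟩

/-- both endpoints on a common side of the square -/
def OnSide (n : ℕ) (p q : Pt) : Prop :=
  (p.1 = 0 ∧ q.1 = 0) ∨ (p.1 = n ∧ q.1 = n) ∨ (p.2 = 0 ∧ q.2 = 0) ∨ (p.2 = n ∧ q.2 = n)

/-- An edge not on the boundary has a triangle on the other side. -/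
theorem Pos.neighbor (hT : UT n T) {p q r : Pt} (h : Pos T p q r) (hs : ¬ OnSide n p q) :
    ∃ z, Pos T q p z := by
  set x : ℝ × ℝ := (((p.1:ℝ) + q.1) / 2, ((p.2:ℝ) + q.2) / 2) with hx
  set w : ℝ × ℝ := (-((r.1:ℝ) - p.1), -((r.2:ℝ) - p.2)) with hw
  have hp := h.insq hT
  have hq := h.cyc.insq hT
  obtain ⟨p1, p2, p3, p4⟩ := hp
  obtain ⟨q1, q2, q3, q4⟩ := hq
  have i1 : 0 < p.1 + q.1 := by
    by_contra hc; apply hs; left; constructor <;> omega
  have i2 : p.1 + q.1 < 2 * n := by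
    by_contra hc; apply hs; right; left; constructor <;> omega
  have i3 : 0 < p.2 + q.2 := by
    by_contra hc; apply hs; right; right; left; constructor <;> omega
  have i4 : p.2 + q.2 < 2 * n := by
    by_contra hc; apply hs; right; right; right; constructor <;> omega
  have j1 : (0:ℝ) < (p.1:ℝ) + q.1 := by exact_mod_cast i1
  have j2 : (p.1:ℝ) + q.1 < 2 * n := by exact_mod_cast i2
  have j3 : (0:ℝ) < (p.2:ℝ) + q.2 := by exact_mod_cast i3
  have j4 : (p.2:ℝ) + q.2 < 2 * n := by exact_mod_cast i4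
  have hev : ∀ᶠ ε in 𝓝[>] (0:ℝ), x + ε • w ∈ Sq n := by
    filter_upwards [ev_pos (A := ((p.1:ℝ) + q.1) / 2) (B := w.1) (Or.inl (by linarith)),
      ev_pos (A := n - ((p.1:ℝ) + q.1) / 2) (B := -w.1) (Or.inl (by linarith)),
      ev_pos (A := ((p.2:ℝ) + q.2) / 2) (B := w.2) (Or.inl (by linarith)),
      ev_pos (A := n - ((p.2:ℝ) + q.2) / 2) (B := -w.2) (Or.inl (by linarith))] with ε g1 g2 g3 g4
    rw [mem_Sq]
    simp only [hx, Prod.fst_add, Prod.snd_add, Prod.smul_fst, Prod.smul_snd, smul_eq_mul]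
    refine ⟨by linarith, by linarith, by linarith, by linarith⟩
  obtain ⟨t, ht, hxt, hdir⟩ := hT.exists_dir hev
  obtain ⟨a, b, c, rfl, hpos⟩ := hT.exists_pos ht
  have h' : (det p q r : ℝ) = 1 := by exact_mod_cast h.2
  have a1 : dl p q x = 0 := by simp only [dl, hx]; ring
  have a6 : sl p q w = -1 := by
    rw [← h']; simp only [sl, hw, det]; push_cast; ring
  -- it suffices to treat the case that `x` is the midpoint of `[a,b]`
  have key : ∀ a b c : Pt, Pos T a b c → (∀ᶠ ε in 𝓝[>] (0:ℝ), x + ε • w ∈ cell {a, b, c}) →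
      a.1 + b.1 = p.1 + q.1 → a.2 + b.2 = p.2 + q.2 → ∃ z, Pos T q p z := by
    intro a b c g hdir e1 e2
    rcases g.eq_of_mid hT h e1 e2 with ⟨rfl, rfl⟩ | ⟨rfl, rfl⟩
    · exfalso
      obtain ⟨ε, g1, g2⟩ := (hdir.and (self_mem_nhdsWithin : Set.Ioi (0:ℝ) ∈ 𝓝[>] (0:ℝ))).exists
      rw [mem_cell_iff g.2] at g1
      have := g1.1
      rw [dl_add, a1, a6] at this
      have g2' : (0:ℝ) < ε := g2
      linarith
    · exact ⟨c, g⟩
  -- integrality
  set m : Pt := (p.1 + q.1, p.2 + q.2) with hm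
  have hxm : x = ((m.1:ℝ) / 2, (m.2:ℝ) / 2) := by simp only [hx, hm]; push_cast; rfl
  rw [mem_cell_iff hpos.2] at hxt
  set C : ℤ := (b.1 - a.1) * (m.2 - 2 * a.2) - (b.2 - a.2) * (m.1 - 2 * a.1) with hC
  set A : ℤ := (c.1 - b.1) * (m.2 - 2 * b.2) - (c.2 - b.2) * (m.1 - 2 * b.1) with hA
  set B : ℤ := (a.1 - c.1) * (m.2 - 2 * c.2) - (a.2 - c.2) * (m.1 - 2 * c.1) with hB
  have eC : dl a b x = (C:ℝ) / 2 := by simp only [dl, hxm, hC]; push_cast; ring
  have eA : dl b c x = (A:ℝ) / 2 := by simp only [dl, hxm, hA]; push_cast; ring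
  have eB : dl c a x = (B:ℝ) / 2 := by simp only [dl, hxm, hB]; push_cast; ring
  rw [eA, eB, eC] at hxt
  obtain ⟨g1, g2, g3⟩ := hxt
  have g1' : 0 ≤ C := by
    have : (0:ℝ) ≤ C := by linarith
    exact_mod_cast this
  have g2' : 0 ≤ A := by
    have : (0:ℝ) ≤ A := by linarith
    exact_mod_cast this
  have g3' : 0 ≤ B := by
    have : (0:ℝ) ≤ B := by linarith
    exact_mod_cast this
  have hd := hpos.2
  have hsum : A + B + C = 2 := by
    have : A + B + C = 2 * det a b c := by simp only [hA, hB, hC, det]; ring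
    rw [this, hd]; norm_num
  have e1 : m.1 = A * a.1 + B * b.1 + C * c.1 := by
    simp only [hA, hB, hC, det] at *
    linear_combination (-m.1) * hd
  have e2 : m.2 = A * a.2 + B * b.2 + C * c.2 := by
    simp only [hA, hB, hC, det] at *
    linear_combination (-m.2) * hd
  have hodd : ¬ (2 ∣ m.1 ∧ 2 ∣ m.2) := by
    rintro ⟨⟨k1, hk1⟩, ⟨k2, hk2⟩⟩
    have hh := h.2
    simp only [hm] at hk1 hk2
    have hq1 : q.1 = 2 * k1 - p.1 := by linarith
    have hq2 : q.2 = 2 * k2 - p.2 := by linarith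
    simp only [det] at hh
    rw [hq1, hq2] at hh
    have : 2 * ((k1 - p.1) * (r.2 - p.2) - (k2 - p.2) * (r.1 - p.1)) = 1 := by linarith
    omega
  have hcases : (A = 2 ∧ B = 0 ∧ C = 0) ∨ (A = 0 ∧ B = 2 ∧ C = 0) ∨ (A = 0 ∧ B = 0 ∧ C = 2) ∨
      (A = 1 ∧ B = 1 ∧ C = 0) ∨ (A = 0 ∧ B = 1 ∧ C = 1) ∨ (A = 1 ∧ B = 0 ∧ C = 1) := by omega
  clear_value A B C
  rcases hcases with ⟨rfl, rfl, rfl⟩ | ⟨rfl, rfl, rfl⟩ | ⟨rfl, rfl, rfl⟩ | ⟨rfl, rfl, rfl⟩ |
    ⟨rfl, rfl, rfl⟩ | ⟨rfl, rfl, rfl⟩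
  · exact absurd ⟨⟨a.1, by linarith⟩, ⟨a.2, by linarith⟩⟩ hodd
  · exact absurd ⟨⟨b.1, by linarith⟩, ⟨b.2, by linarith⟩⟩ hodd
  · exact absurd ⟨⟨c.1, by linarith⟩, ⟨c.2, by linarith⟩⟩ hodd
  · exact key a b c hpos hdir (by simp only [hm] at e1; linarith) (by simp only [hm] at e2; linarith)
  · have e : ({a, b, c} : Finset Pt) = {b, c, a} := by
      ext x; simp only [Finset.mem_insert, Finset.mem_singleton]; tauto
    rw [e] at hdir
    exact key b c a hpos.cyc hdir (by simp only [hm] at e1; linarith) (by simp only [hm] at e2; linarith)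
  · have e : ({a, b, c} : Finset Pt) = {c, a, b} := by
      ext x; simp only [Finset.mem_insert, Finset.mem_singleton]; tauto
    rw [e] at hdir
    exact key c a b hpos.cyc' hdir (by simp only [hm] at e1; linarith)
      (by simp only [hm] at e2; linarith)

/-- The jump of an edge: opposite vertices `r` (left), `z` (right) satisfy `r + z = p + q + k (q - p)`. -/
theorem jump_exists {p q r z : Pt} (h : det p q r = 1) (g : det q p z = 1) :
    ∃ k : ℤ, r.1 + z.1 = p.1 + q.1 + k * (q.1 - p.1) ∧ r.2 + z.2 = p.2 + q.2 + k * (q.2 - p.2) := by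
  set u : Pt := (q.1 - p.1, q.2 - p.2) with hu
  set e : Pt := (r.1 - p.1, r.2 - p.2) with he
  set v : Pt := (r.1 + z.1 - 2 * p.1, r.2 + z.2 - 2 * p.2) with hv
  have h1 : crs u e = 1 := by rw [← h]; simp only [crs, hu, he, det]
  have h0 : crs u v = 0 := by
    have : crs u v = det p q r - det q p z := by simp only [crs, hu, hv, det]; ring
    rw [this, h, g]; norm_num
  have := eq_smul_of_crs h1 h0
  refine ⟨crs v e - 1, ?_, ?_⟩
  · have e1 : r.1 + z.1 - 2 * p.1 = crs v e * (q.1 - p.1) := congrArg Prod.fst this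
    linarith
  · have e2 : r.2 + z.2 - 2 * p.2 = crs v e * (q.2 - p.2) := congrArg Prod.snd this
    linarith

/-- For every direction `w` pointing into the square at a lattice point there is a triangle at `p` whose
closed cone contains `w`. -/
theorem UT.exists_cone (hT : UT n T) {p w : Pt}
    (hw : ∀ᶠ ε in 𝓝[>] (0:ℝ), emb p + ε • emb w ∈ Sq n) :
    ∃ q r, Pos T p q r ∧ 0 ≤ crs (q.1 - p.1, q.2 - p.2) w ∧ 0 ≤ crs w (r.1 - p.1, r.2 - p.2) := by
  obtain ⟨t, ht, hxt, hdir⟩ := hT.exists_dir hw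
  obtain ⟨a, b, c, rfl, hpos⟩ := hT.exists_pos ht
  have hpt : p = a ∨ p = b ∨ p = c := by
    rw [mem_cell_iff hpos.2, dl_emb, dl_emb, dl_emb] at hxt
    obtain ⟨h1, h2, h3⟩ := hxt
    exact Pos.mem_of_det hpos.2 (by exact_mod_cast h1) (by exact_mod_cast h2) (by exact_mod_cast h3)
  have key : ∀ b c : Pt, Pos T p b c → (∀ᶠ ε in 𝓝[>] (0:ℝ), emb p + ε • emb w ∈ cell {p, b, c}) →
      ∃ q r, Pos T p q r ∧ 0 ≤ crs (q.1 - p.1, q.2 - p.2) w ∧ 0 ≤ crs w (r.1 - p.1, r.2 - p.2) := by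
    intro b c g hdir
    refine ⟨b, c, g, ?_⟩
    obtain ⟨ε, g1, g2⟩ := (hdir.and (self_mem_nhdsWithin : Set.Ioi (0:ℝ) ∈ 𝓝[>] (0:ℝ))).exists
    have g2' : (0:ℝ) < ε := g2
    rw [mem_cell_iff g.2, dl_add, dl_add, dl_add, dl_emb, dl_emb, dl_emb, det_self_out,
      det_self_right] at g1
    obtain ⟨k1, -, k3⟩ := g1
    simp only [Int.cast_zero, zero_add] at k1 k3
    have l1 := nonneg_of_mul_nonneg_right k1 g2'
    have l3 := nonneg_of_mul_nonneg_right k3 g2'
    constructor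
    · have : (0:ℝ) ≤ (crs (b.1 - p.1, b.2 - p.2) w : ℝ) := by
        simp only [sl, emb, crs] at *; push_cast; linarith
      exact_mod_cast this
    · have : (0:ℝ) ≤ (crs w (c.1 - p.1, c.2 - p.2) : ℝ) := by
        simp only [sl, emb, crs] at *; push_cast; linarith
      exact_mod_cast this
  rcases hpt with rfl | rfl | rfl
  · exact key b c hpos hdir
  · have e : ({a, p, c} : Finset Pt) = {p, c, a} := by
      ext x; simp only [Finset.mem_insert, Finset.mem_singleton]; tauto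
    rw [e] at hdir
    exact key c a hpos.cyc hdir
  · have e : ({a, b, p} : Finset Pt) = {p, a, b} := by
      ext x; simp only [Finset.mem_insert, Finset.mem_singleton]; tauto
    rw [e] at hdir
    exact key a b hpos.cyc' hdir

end Pool.Agent.IT
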