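import Pool.Agent.IT.Base

/-!
# Unimodular triangulations: rotation around a vertex, jumps, retriangulation
-/

namespace Pool.Agent.IT

open Filter Topology

variable {n : ℕ} {T : Finset (Finset Pt)}

theorem Pos.neighbor' (hT : UT n T) {p q r : Pt} (h : Pos T p q r) {b : Pt} (hb : InSq n b)
    (h1 : det p q b < 0) : ∃ z, Pos T q p z := by
  apply h.neighbor hT
  intro hs
  have hr := h.cyc'.insq hT
  obtain ⟨b1, b2, b3, b4⟩ := hb
  obtain ⟨r1, r2, r3, r4⟩ := hr
  have h2 := h.2
  simp only [det] at h1 h2
  rcases hs with ⟨e1, e2⟩ | ⟨e1, e2⟩ | ⟨e1, e2⟩ | ⟨e1, e2⟩ <;> rw [e1, e2] at h1 h2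
  · -- left side: b.1 ≥ 0, r.1 ≥ 0
    rcases le_total 0 (q.2 - p.2) with g | g
    · have := mul_nonneg g r1
      linarith
    · have := mul_nonneg (neg_nonneg.mpr g) b1
      linarith
  · rcases le_total 0 (q.2 - p.2) with g | g
    · have := mul_nonneg g (sub_nonneg.mpr b2)
      linarith
    · have := mul_nonneg (neg_nonneg.mpr g) (sub_nonneg.mpr r2)
      linarith
  · rcases le_total 0 (q.1 - p.1) with g | g
    · have := mul_nonneg g b3
      linarith
    · have := mul_nonneg (neg_nonneg.mpr g) r3
      linarith
  · rcases le_total 0 (q.1 - p.1) with g | g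
    · have := mul_nonneg g (sub_nonneg.mpr r4)
      linarith
    · have := mul_nonneg (neg_nonneg.mpr g) (sub_nonneg.mpr b4)
      linarith

/-- If a point of the square lies strictly to the left of an edge, there is a triangle on the left. -/
theorem IsEdge.left (hT : UT n T) {p q : Pt} (h : IsEdge T p q) {b : Pt} (hb : InSq n b)
    (h1 : 0 < det p q b) : ∃ r, Pos T p q r := by
  obtain ⟨r, h | h⟩ := h
  · exact ⟨r, h⟩
  · exact h.neighbor' hT hb (by rw [det_swap]; linarith)

theorem IsEdge.right (hT : UT n T) {p q : Pt} (h : IsEdge T p q) {b : Pt} (hb : InSq n b)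
    (h1 : det p q b < 0) : ∃ r, Pos T q p r := by
  apply h.symm.left hT hb
  rw [det_swap]; linarith

/-- Interior lattice points. -/
def Inner (n : ℕ) (p : Pt) : Prop := 0 < p.1 ∧ p.1 < (n : ℤ) ∧ 0 < p.2 ∧ p.2 < (n : ℤ)

theorem Inner.insq {p : Pt} (h : Inner n p) : InSq n p := ⟨h.1.le, h.2.1.le, h.2.2.1.le, h.2.2.2.le⟩

theorem Inner.not_onSide {p q : Pt} (h : Inner n p) : ¬ OnSide n p q := by
  obtain ⟨h1, h2, h3, h4⟩ := h
  rintro (⟨e, -⟩ | ⟨e, -⟩ | ⟨e, -⟩ | ⟨e, -⟩) <;> omega

theorem OnSide.symm {p q : Pt} (h : OnSide n p q) : OnSide n q p := by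
  rcases h with h | h | h | h
  · exact Or.inl ⟨h.2, h.1⟩
  · exact Or.inr (Or.inl ⟨h.2, h.1⟩)
  · exact Or.inr (Or.inr (Or.inl ⟨h.2, h.1⟩))
  · exact Or.inr (Or.inr (Or.inr ⟨h.2, h.1⟩))

/-- At an interior vertex every edge has a triangle on its left. -/
theorem IsEdge.left_of_inner (hT : UT n T) {p q : Pt} (h : IsEdge T p q) (hp : Inner n p) :
    ∃ r, Pos T p q r := by
  obtain ⟨r, h | h⟩ := h
  · exact ⟨r, h⟩
  · exact h.neighbor hT (fun hs => hp.not_onSide hs.symm)

theorem IsEdge.right_of_inner (hT : UT n T) {p q : Pt} (h : IsEdge T p q) (hp : Inner n p) :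
    ∃ r, Pos T q p r := by
  obtain ⟨r, h | h⟩ := h
  · exact h.neighbor hT hp.not_onSide
  · exact ⟨r, h⟩

/-- Edges are primitive: some lattice vector has cross product one with them. -/
theorem IsEdge.prim {p q : Pt} (h : IsEdge T p q) :
    ∃ e : Pt, crs (q.1 - p.1, q.2 - p.2) e = 1 := by
  obtain ⟨r, h | h⟩ := h
  · refine ⟨(r.1 - p.1, r.2 - p.2), ?_⟩
    rw [← h.2]; simp only [crs, det]
  · refine ⟨(q.1 - r.1, q.2 - r.2), ?_⟩
    rw [← h.2]; simp only [crs, det]; ring

/-- Two edges at `q` in the same direction coincide. -/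
theorem IsEdge.eq_of_dir {q a b c : Pt} (h : IsEdge T q a) (g : IsEdge T q b)
    (h0 : det q a b = 0) (h1 : 0 < det q c a ∨ 0 < det q a c) (h2 : 0 < det q c a ↔ 0 < det q c b)
    (h3 : 0 < det q a c ↔ 0 < det q b c) : a = b := by
  obtain ⟨e, he⟩ := h.prim
  obtain ⟨f, hf⟩ := g.prim
  set u : Pt := (a.1 - q.1, a.2 - q.2) with hu
  set v : Pt := (b.1 - q.1, b.2 - q.2) with hv
  have h0' : crs u v = 0 := by rw [← h0]; simp only [crs, det, hu, hv]
  have h0'' : crs v u = 0 := by simp only [crs] at *; linarith
  have e1 := eq_smul_of_crs he h0'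
  have e2 := eq_smul_of_crs hf h0''
  have hm : crs v e * crs u f = 1 := by
    have : crs v f = crs v e * crs u f := by
      conv_lhs => rw [e1]
      simp only [crs]; ring
    rw [← this]; exact hf
  have e11 : b.1 - q.1 = crs v e * (a.1 - q.1) := congrArg Prod.fst e1
  have e12 : b.2 - q.2 = crs v e * (a.2 - q.2) := congrArg Prod.snd e1
  rcases Int.eq_one_or_neg_one_of_mul_eq_one hm with k | k
  · rw [k] at e11 e12
    ext <;> omega
  · exfalso
    rw [k] at e11 e12
    have k1 : det q c b = - det q c a := by
      simp only [det]; rw [show b.2 - q.2 = -1 * (a.2 - q.2) from e12,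
        show b.1 - q.1 = -1 * (a.1 - q.1) from e11]; ring
    have k2 : det q b c = - det q a c := by
      simp only [det]; rw [show b.2 - q.2 = -1 * (a.2 - q.2) from e12,
        show b.1 - q.1 = -1 * (a.1 - q.1) from e11]; ring
    rcases h1 with h1 | h1
    · have := h2.mp h1; omega
    · have := h3.mp h1; omega

/-- `Rot T q k a b`: rotating counterclockwise around `q` from the ray `a` to the ray `b` in `k` steps. -/
inductive Rot (T : Finset (Finset Pt)) (q : Pt) : ℕ → Pt → Pt → Prop
  | refl (a : Pt) : Rot T q 0 a a
  | step {k : ℕ} {a b c : Pt} : Pos T q a b → Rot T q k b c → Rot T q (k + 1) a c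

theorem Rot.trans {q : Pt} {k l : ℕ} {a b c : Pt} (h : Rot T q k a b) (g : Rot T q l b c) :
    Rot T q (k + l) a c := by
  induction h with
  | refl a => simpa using g
  | @step k a b d hp _ ih =>
    have := Rot.step hp (ih g)
    rw [show k + 1 + l = (k + l) + 1 by omega]
    exact this

/-- the finite set of neighbours of `q` -/
noncomputable def nbr (T : Finset (Finset Pt)) (q : Pt) : Finset Pt :=
  open Classical in (T.biUnion id).filter (fun a => IsEdge T q a)

theorem mem_nbr {q a : Pt} : a ∈ nbr T q ↔ IsEdge T q a := by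
  classical
  simp only [nbr, Finset.mem_filter, Finset.mem_biUnion, id, and_iff_right_iff_imp]
  rintro ⟨r, h | h⟩
  · exact ⟨_, h.1, by simp⟩
  · exact ⟨_, h.1, by simp⟩

/-- the degree of a vertex -/
noncomputable def deg (T : Finset (Finset Pt)) (q : Pt) : ℕ := (nbr T q).card

/-- neighbours strictly inside the cone from `a` to `b` (less than 180 degrees) -/
noncomputable def btw (T : Finset (Finset Pt)) (q a b : Pt) : Finset Pt :=
  open Classical in (nbr T q).filter (fun c => 0 < det q a c ∧ 0 < det q c b)

theorem mem_btw {q a b c : Pt} : c ∈ btw T q a b ↔ IsEdge T q c ∧ 0 < det q a c ∧ 0 < det q c b := by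
  classical
  simp only [btw, Finset.mem_filter, mem_nbr]

/-- linear algebra in cones -/
theorem det_between {q a b r c : Pt} (h1 : 0 < det q a r) (h2 : 0 < det q r b) (h3 : 0 < det q a b)
    (h4 : 0 < det q r c) (h5 : 0 < det q c b) : 0 < det q a c := by
  have key : det q r b * det q a c = det q c b * det q a r + det q r c * det q a b := by
    simp only [det]; ring
  have : 0 < det q r b * det q a c := by rw [key]; positivity
  exact (pos_iff_pos_of_mul_pos this).mp h2

/-- Rotation lemma: from a ray `a` to a ray `b` at angle less than 180 degrees one gets by rotating through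
the rays in between. -/
theorem IsEdge.rot (hT : UT n T) {q a b : Pt} (ha : IsEdge T q a) (hb : IsEdge T q b)
    (h : 0 < det q a b) : Rot T q ((btw T q a b).card + 1) a b := by
  classical
  induction hk : (btw T q a b).card using Nat.strong_induction_on generalizing a with
  | _ k ih =>
    obtain ⟨r, hr⟩ := ha.left hT (hb.symm.insq hT) h
    have h1 : det q a r = 1 := hr.2
    have h2 : ¬ 0 < det q b r := fun h2 => hr.no_cone hT hb h h2
    have h3 : 0 ≤ det q r b := by rw [det_swap' q b r]; linarith
    rcases h3.lt_or_eq with h3 | h3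
    · -- `r` strictly between
      have hsub : btw T q r b ⊆ (btw T q a b).erase r := by
        intro c hc
        rw [mem_btw] at hc
        rw [Finset.mem_erase, mem_btw]
        refine ⟨?_, hc.1, ?_, hc.2.2⟩
        · rintro rfl
          have := hc.2.1
          rw [det_self_right] at this; omega
        · exact det_between (by rw [h1]; norm_num) h3 h hc.2.1 hc.2.2
      have hmem : r ∈ btw T q a b := by
        rw [mem_btw]; exact ⟨hr.cyc'.edge', by rw [h1]; norm_num, h3⟩
      -- every ray strictly between `a` and `b` other than `r` is between `r` and `b`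
      have hsup : (btw T q a b).erase r ⊆ btw T q r b := by
        intro c hc
        rw [Finset.mem_erase, mem_btw] at hc
        obtain ⟨hcr, hc1, hc2, hc3⟩ := hc
        rw [mem_btw]
        refine ⟨hc1, ?_, hc3⟩
        have h6 : ¬ 0 < det q c r := fun h6 => hr.no_cone hT hc1 hc2 h6
        have h7 : 0 ≤ det q r c := by rw [det_swap' q c r]; linarith
        rcases h7.lt_or_eq with h7 | h7
        · exact h7
        · exfalso
          apply hcr
          have hre : IsEdge T q r := hr.cyc'.edge'
          have key : r = c := by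
            refine hre.eq_of_dir hc1 h7.symm (c := a) (Or.inl (by rw [h1]; norm_num)) ?_ ?_
            · rw [h1]; simp [hc2]
            · rw [det_swap' q a r, det_swap' q a c, h1]
              constructor <;> intro h8 <;> omega
          exact key.symm
      have heq : btw T q r b = (btw T q a b).erase r := Finset.Subset.antisymm hsub hsup
      have hcard : (btw T q r b).card = k - 1 := by
        rw [heq, Finset.card_erase_of_mem hmem, hk]
      have hkpos : 0 < k := by
        rw [← hk]; exact Finset.card_pos.mpr ⟨r, hmem⟩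
      have := ih (k - 1) (by omega) hr.cyc'.edge' h3 hcard
      have h4 := Rot.step hr this
      rwa [show k - 1 + 1 = k by omega] at h4
    · -- `r = b`
      have hre : IsEdge T q r := hr.cyc'.edge'
      have key : r = b := by
        refine hre.eq_of_dir hb h3.symm (c := a) (Or.inl (by rw [h1]; norm_num)) ?_ ?_
        · rw [h1]; simp [h]
        · rw [det_swap' q a r, det_swap' q a b, h1]
          constructor <;> intro h8 <;> omega
      subst key
      have hempty : btw T q a r = ∅ := by
        rw [Finset.eq_empty_iff_forall_notMem]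
        intro c hc
        rw [mem_btw] at hc
        exact hr.no_cone hT hc.1 hc.2.1 hc.2.2
      rw [hempty, Finset.card_empty] at hk
      subst hk
      exact Rot.step hr (Rot.refl _)

/-! ### Jumps -/

/-- `Jump T p q k`: the edge `p → q` has triangles on both sides and jump `k`. -/
def Jump (T : Finset (Finset Pt)) (p q : Pt) (k : ℤ) : Prop :=
  ∃ r z, Pos T p q r ∧ Pos T q p z ∧
    r.1 + z.1 = p.1 + q.1 + k * (q.1 - p.1) ∧ r.2 + z.2 = p.2 + q.2 + k * (q.2 - p.2)

theorem Jump.of_pos {p q r z : Pt} (h : Pos T p q r) (g : Pos T q p z) : ∃ k, Jump T p q k := by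
  obtain ⟨k, h1, h2⟩ := jump_exists h.2 g.2
  exact ⟨k, r, z, h, g, h1, h2⟩

/-- Reversing the edge changes the sign of the jump. -/
theorem Jump.neg {p q : Pt} {k : ℤ} (h : Jump T p q k) : Jump T q p (-k) := by
  obtain ⟨r, z, h1, h2, h3, h4⟩ := h
  exact ⟨z, r, h2, h1, by linarith, by linarith⟩

theorem Jump.unique (hT : UT n T) {p q : Pt} {k l : ℤ} (h : Jump T p q k) (g : Jump T p q l) :
    k = l := by
  obtain ⟨r, z, h1, h2, h3, h4⟩ := h
  obtain ⟨r', z', g1, g2, g3, g4⟩ := g
  obtain rfl := h1.unique hT g1
  obtain rfl := h2.unique hT g2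
  have e1 : (k - l) * (q.1 - p.1) = 0 := by linarith
  have e2 : (k - l) * (q.2 - p.2) = 0 := by linarith
  by_contra hne
  have hne' : k - l ≠ 0 := sub_ne_zero.mpr hne
  have f1 : q.1 = p.1 := by
    rcases mul_eq_zero.mp e1 with h | h
    · exact absurd h hne'
    · linarith
  have f2 : q.2 = p.2 := by
    rcases mul_eq_zero.mp e2 with h | h
    · exact absurd h hne'
    · linarith
  exact h1.ne (Prod.ext f1.symm f2.symm)

theorem Jump.edge {p q : Pt} {k : ℤ} (h : Jump T p q k) : IsEdge T p q := by
  obtain ⟨r, z, h1, -⟩ := h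
  exact h1.edge

/-- If the forward jump at `p → q` is at least `3` then the edge continues straight, and the jump drops by
at most two. -/
theorem Jump.forward (hT : UT n T) {p q : Pt} {k : ℤ} (h : Jump T p q k) (hk : 3 ≤ k) :
    ∃ l, Jump T q (2 * q.1 - p.1, 2 * q.2 - p.2) l ∧ k - 2 ≤ l := by
  obtain ⟨r, z, h1, h2, h3, h4⟩ := h
  have hr := h1.cyc'.insq hT
  have hz := h2.cyc'.insq hT
  have d1 := h1.2
  have d2 := h2.2
  have hk0 : 0 ≤ k - 3 := by linarith
  have hq := h1.cyc.insq hT
  set q' : Pt := (2 * q.1 - p.1, 2 * q.2 - p.2) with hq'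
  -- the midpoint of `[q,q']` is in the square
  have hedge : IsEdge T q q' := by
    obtain ⟨r1, r2, r3, r4⟩ := hr
    obtain ⟨z1, z2, z3, z4⟩ := hz
    obtain ⟨q1, q2, q3, q4⟩ := hq
    have hp := h1.insq hT
    obtain ⟨p1, p2, p3, p4⟩ := hp
    have m1 : 0 ≤ 3 * q.1 - p.1 := by
      rcases le_total 0 (q.1 - p.1) with g | g
      · linarith
      · have := mul_nonneg hk0 (sub_nonneg.mpr (sub_nonpos.mp g))
        linarith
    have m2 : 3 * q.1 - p.1 ≤ 2 * n := by
      rcases le_total 0 (q.1 - p.1) with g | g
      · have := mul_nonneg hk0 g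
        linarith
      · linarith
    have m3 : 0 ≤ 3 * q.2 - p.2 := by
      rcases le_total 0 (q.2 - p.2) with g | g
      · linarith
      · have := mul_nonneg hk0 (sub_nonneg.mpr (sub_nonpos.mp g))
        linarith
    have m4 : 3 * q.2 - p.2 ≤ 2 * n := by
      rcases le_total 0 (q.2 - p.2) with g | g
      · have := mul_nonneg hk0 g
        linarith
      · linarith
    have hodd : ¬ (2 ∣ 3 * q.1 - p.1 ∧ 2 ∣ 3 * q.2 - p.2) := by
      rintro ⟨⟨a, ha⟩, ⟨b, hb⟩⟩
      have e1 : p.1 = 3 * q.1 - 2 * a := by linarith
      have e2 : p.2 = 3 * q.2 - 2 * b := by linarith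
      simp only [det] at d1
      have : 2 * ((a - q.1) * (r.2 - p.2) - (b - q.2) * (r.1 - p.1)) = 1 := by
        rw [← d1]; rw [e1, e2]; ring
      omega
    obtain ⟨a, b, hab, e1, e2⟩ := hT.exists_mid (m := (3 * q.1 - p.1, 3 * q.2 - p.2)) m1 m2 m3 m4 hodd
    simp only at e1 e2
    -- main claim, for an edge with `det p q a ≥ 0`
    have key : ∀ a b : Pt, IsEdge T a b → a.1 + b.1 = 3 * q.1 - p.1 → a.2 + b.2 = 3 * q.2 - p.2 →
        0 ≤ det p q a → IsEdge T q q' := by
      intro a b hab e1 e2 hh
      have hb1 : b.1 = 3 * q.1 - p.1 - a.1 := by linarith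
      have hb2 : b.2 = 3 * q.2 - p.2 - a.2 := by linarith
      have hz1 : z.1 = p.1 + q.1 + k * (q.1 - p.1) - r.1 := by linarith
      have hz2 : z.2 = p.2 + q.2 + k * (q.2 - p.2) - r.2 := by linarith
      rcases hh.lt_or_eq with hh | hh
      · exfalso
        set H : ℤ := det p q a with hH
        set X : ℤ := det q r a with hX
        set Y : ℤ := det q b z with hY
        have i1 : det q r b = -1 - X := by
          simp only [hX, det] at *; rw [hb1, hb2]
          linear_combination (-1) * d1
        have i2 : det a b q = -H := by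
          simp only [hH, det] at *; rw [hb1, hb2]; ring
        have i3 : det a b r = 1 - H + 2 * X := by
          simp only [hH, hX, det] at *; rw [hb1, hb2]
          linear_combination d1
        have i4 : det q z b = -Y := by simp only [hY, det]; ring
        have i5 : det q z a = 1 + Y := by
          simp only [hY, det] at *; rw [hb1, hb2, hz1, hz2]
          linear_combination d1
        have i6 : det a b z = 1 - H + 2 * Y := by
          simp only [hH, hY, det] at *; rw [hb1, hb2, hz1, hz2]
          linear_combination d1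
        have i7 : X + Y = (k - 1) * H - 1 := by
          simp only [hH, hX, hY, det] at *; rw [hb1, hb2, hz1, hz2]
          linear_combination (-1) * d1
        have c1 : 2 * X ≤ H - 1 := by
          by_contra hc
          push Not at hc
          apply h1.cyc.edge.no_cross hT hab
          · rw [i1, ← hX]
            have : 1 ≤ X := by omega
            have := mul_nonneg (by linarith : (0:ℤ) ≤ X - 1) (by linarith : (0:ℤ) ≤ X)
            linarith
          · rw [i2, i3]
            have := mul_pos hh (by omega : 0 < 1 - H + 2 * X)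
            linarith
        have c2 : 2 * Y ≤ H - 1 := by
          by_contra hc
          push Not at hc
          apply h2.cyc'.edge'.no_cross hT hab
          · rw [i4, i5]
            have : 1 ≤ Y := by omega
            have := mul_nonneg (by linarith : (0:ℤ) ≤ Y - 1) (by linarith : (0:ℤ) ≤ Y)
            linarith
          · rw [i2, i6]
            have := mul_pos hh (by omega : 0 < 1 - H + 2 * Y)
            linarith
        have := mul_nonneg hk0 hh.le
        linarith
      · -- `a`, `b` on the line
        obtain ⟨e, he⟩ := h1.edge.prim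
        have h0 : crs (q.1 - p.1, q.2 - p.2) (a.1 - q.1, a.2 - q.2) = 0 := by
          have : crs (q.1 - p.1, q.2 - p.2) (a.1 - q.1, a.2 - q.2) = det p q a := by
            simp only [crs, det]; ring
          rw [this, ← hh]
        have e3 := eq_smul_of_crs he h0
        set s : ℤ := crs (a.1 - q.1, a.2 - q.2) e with hs
        have f1 : a.1 - q.1 = s * (q.1 - p.1) := congrArg Prod.fst e3
        have f2 : a.2 - q.2 = s * (q.2 - p.2) := congrArg Prod.snd e3
        obtain ⟨e', he'⟩ := hab.prim
        have g1 : (1 - 2 * s) * crs (q.1 - p.1, q.2 - p.2) e' = 1 := by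
          have g0 : (1 - 2 * s) * crs (q.1 - p.1, q.2 - p.2) e' = crs (b.1 - a.1, b.2 - a.2) e' := by
            simp only [crs]; rw [hb1, hb2]
            linear_combination (2 * e'.2) * f1 - (2 * e'.1) * f2
          rw [g0, he']
        have g2 : s = 0 ∨ s = 1 := by
          rcases Int.eq_one_or_neg_one_of_mul_eq_one g1 with h | h <;> omega
        rcases g2 with g2 | g2
        · rw [g2] at f1 f2
          have ha : a = q := by ext <;> omega
          have hb : b = q' := by
            ext
            · simp only [hq']; omega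
            · simp only [hq']; omega
          rw [ha, hb] at hab; exact hab
        · rw [g2] at f1 f2
          have ha : a = q' := by
            ext
            · simp only [hq']; omega
            · simp only [hq']; omega
          have hb : b = q := by ext <;> omega
          rw [ha, hb] at hab; exact hab.symm
    by_cases hh : 0 ≤ det p q a
    · exact key a b hab e1 e2 hh
    · apply key b a hab.symm (by linarith) (by linarith)
      have : det p q a + det p q b = 0 := by
        have hb1 : b.1 = 3 * q.1 - p.1 - a.1 := by linarith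
        have hb2 : b.2 = 3 * q.2 - p.2 - a.2 := by linarith
        simp only [det]; rw [hb1, hb2]; ring
      omega
  have l1 : det q q' r = 1 := by
    simp only [hq', det] at *; linear_combination d1
  have l2 : det q q' z = -1 := by
    simp only [hq', det] at *; linear_combination (-1) * d2
  obtain ⟨r', hr'⟩ := hedge.left hT hr (by rw [l1]; norm_num)
  obtain ⟨z', hz'⟩ := hedge.right hT hz (by rw [l2]; norm_num)
  obtain ⟨l, e1, e2⟩ := jump_exists hr'.2 hz'.2
  refine ⟨l, ⟨r', z', hr', hz', e1, e2⟩, ?_⟩
  -- compare with the old apexes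
  obtain ⟨e, he⟩ := hedge.prim
  have m1 := hr'.2
  have m2 := hz'.2
  -- `s = - det q r r'` is nonnegative
  have s1 : det q r r' ≤ 0 := by
    by_contra hc
    push Not at hc
    apply h1.cyc.edge.no_cross hT hr'.cyc.edge
    · -- det q r q' * det q r r' < 0
      have : det q r q' = -1 := by
        rw [det_swap' q q' r, l1]
      rw [this]; linarith
    · -- det q' r' q * det q' r' r < 0
      have j1 : det q' r' q = 1 := by rw [det_cyc, m1]
      have j2 : det q' r' r = - det q r r' := by
        have : det q' r' r = det q q' r' - det q q' r - det q r r' := by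
          simp only [det]; ring
        rw [this, m1, l1]; ring
      rw [j1, j2]; linarith
  have s2 : det q z' z ≤ 0 := by
    by_contra hc
    push Not at hc
    apply h2.cyc'.edge'.no_cross hT hz'.cyc'.edge
    · -- det q z z' * det q z q' < 0
      have j1 : det q z q' = 1 := by rw [det_swap' q q' z, l2]; norm_num
      have j2 : det q z z' = - det q z' z := by rw [det_swap' q z' z]
      rw [j1, j2]; linarith
    · -- det z' q' q * det z' q' z
      have j1 : det z' q' q = 1 := by rw [← m2]; simp only [det]; ring
      have j3 : det q q' z' = -1 := by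
        have : det q q' z' = - det q' q z' := by simp only [det]; ring
        rw [this, m2]
      have j2 : det z' q' z = - det q z' z := by
        have : det z' q' z = det q q' z - det q q' z' - det q z' z := by
          simp only [det]; ring
        rw [this, l2, j3]; ring
      rw [j1, j2]; linarith
  -- the relation between the jumps
  have j3 : det q q' z' = -1 := by
    have : det q q' z' = - det q' q z' := by simp only [det]; ring
    rw [this, m2]
  have rel : l = k - 2 - det q r r' - det q z' z := by
    -- take cross product of `r' + z' - ...` with `r - q`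
    have hrr : det q r r' + det q z' z = (k - 2 - l) := by
      have e1' : z'.1 = q.1 + q'.1 + l * (q'.1 - q.1) - r'.1 := by linarith
      have e2' : z'.2 = q.2 + q'.2 + l * (q'.2 - q.2) - r'.2 := by linarith
      have hz1 : z.1 = p.1 + q.1 + k * (q.1 - p.1) - r.1 := by linarith
      have hz2 : z.2 = p.2 + q.2 + k * (q.2 - p.2) - r.2 := by linarith
      simp only [hq', det] at *
      rw [e1', e2', hz1, hz2]
      linear_combination (-l - 1) * d1 + (k - 1) * m1
    linarith
  linarith

end Pool.Agent.IT
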