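import Pool.Agent.IT.BoxChain

/-!
# Boxes: the canonical filling
-/

set_option autoImplicit false

namespace Pool.Agent.IT

open Finset BoxAux

variable {n : ℕ} {T : Finset (Finset Pt)} {D : BoxD}

namespace BoxAux

/-- sum of the coordinates of the vertices -/
def key (D : BoxD) (t : Finset Pt) : ℤ × ℤ := (∑ x ∈ t, D.cX x, ∑ x ∈ t, D.cY x)

theorem key_tri (hok : D.Ok) {X₁ Y₁ X₂ Y₂ X₃ Y₃ : ℤ}
    (h : (X₂ - X₁) * (Y₃ - Y₁) - (Y₂ - Y₁) * (X₃ - X₁) ≠ 0) :
    key D {D.pt X₁ Y₁, D.pt X₂ Y₂, D.pt X₃ Y₃} = (X₁ + X₂ + X₃, Y₁ + Y₂ + Y₃) := by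
  have h1 : D.pt X₁ Y₁ ∉ ({D.pt X₂ Y₂, D.pt X₃ Y₃} : Finset Pt) := by
    simp only [mem_insert, mem_singleton, not_or]
    constructor
    · intro h2
      obtain ⟨rfl, rfl⟩ := hok.pt_inj h2
      apply h; ring
    · intro h2
      obtain ⟨rfl, rfl⟩ := hok.pt_inj h2
      apply h; ring
  have h3 : D.pt X₂ Y₂ ∉ ({D.pt X₃ Y₃} : Finset Pt) := by
    simp only [mem_singleton]
    intro h2
    obtain ⟨rfl, rfl⟩ := hok.pt_inj h2
    apply h; ring
  rw [key, sum_insert h1, sum_insert h3, sum_singleton, sum_insert h1, sum_insert h3, sum_singleton]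
  simp only [hok.cX_pt, hok.cY_pt]
  ext
  · simp only; ring
  · simp only; ring

end BoxAux

namespace BoxD.Ok

/-- the canonical filling in coordinates -/
theorem canon_eq (hok : D.Ok) : D.canon =
    {{D.pt 0 0, D.pt (-1) 2, D.pt 0 1}, {D.pt D.p 0, D.pt (D.q - 1) 2, D.pt (D.h - 1) 1}} ∪
    (range (D.h - 1)).image (fun i : ℕ => {D.pt 0 0, D.pt i 1, D.pt (i + 1) 1}) ∪
    (range (D.h - 1)).image (fun i : ℕ => {D.pt (-1) 2, D.pt i 1, D.pt (i + 1) 1}) ∪
    (range D.p).image (fun j : ℕ => {D.pt j 0, D.pt (j + 1) 0, D.pt (D.h - 1) 1}) ∪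
    (range D.q).image (fun j : ℕ => {D.pt (j - 1) 2, D.pt j 2, D.pt (D.h - 1) 1}) := by
  have hh := hok.pos
  have e1 : ((D.h - 1 : ℕ) : ℤ) = D.h - 1 := by omega
  have e2 : ∀ j : ℕ, (j : ℤ) + 1 - 1 = j := fun j => by ring
  unfold BoxD.canon
  simp only [pt_a', hok.pt_b', pt_mid, pt_aj, hok.pt_bj, e1, e2, Nat.cast_add, Nat.cast_one,
    Nat.cast_zero]
  rw [← pt_a, ← hok.pt_b]

/-- sums over the canonical filling -/
theorem canon_sum {M : Type*} [AddCommMonoid M] (hok : D.Ok) (F : Finset Pt → M) :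
    ∑ t ∈ D.canon, F t =
      F {D.pt 0 0, D.pt (-1) 2, D.pt 0 1} + F {D.pt D.p 0, D.pt (D.q - 1) 2, D.pt (D.h - 1) 1} +
      ∑ i ∈ range (D.h - 1), F {D.pt 0 0, D.pt i 1, D.pt (i + 1) 1} +
      ∑ i ∈ range (D.h - 1), F {D.pt (-1) 2, D.pt i 1, D.pt (i + 1) 1} +
      ∑ j ∈ range D.p, F {D.pt j 0, D.pt (j + 1) 0, D.pt (D.h - 1) 1} +
      ∑ j ∈ range D.q, F {D.pt (j - 1) 2, D.pt j 2, D.pt (D.h - 1) 1} := by
  have hh := hok.pos
  have h2 := hok.two_h
  have k1 : key D {D.pt 0 0, D.pt (-1) 2, D.pt 0 1} = ((-1, 3) : ℤ × ℤ) := by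
    rw [key_tri hok (by norm_num)]; norm_num
  have k2 : key D {D.pt D.p 0, D.pt (D.q - 1) 2, D.pt (D.h - 1) 1} = ((3 * (D.h : ℤ) - 2, 3) : ℤ × ℤ) := by
    rw [key_tri hok (by omega)]
    ext
    · simp only; omega
    · simp only; omega
  have k3 : ∀ i : ℕ, key D {D.pt 0 0, D.pt i 1, D.pt (i + 1) 1} = ((2 * (i : ℤ) + 1, 2) : ℤ × ℤ) := by
    intro i
    rw [key_tri hok (by ring_nf; omega)]
    ext
    · simp only; omega
    · simp only; omega
  have k4 : ∀ i : ℕ, key D {D.pt (-1) 2, D.pt i 1, D.pt (i + 1) 1} = ((2 * (i : ℤ), 4) : ℤ × ℤ) := by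
    intro i
    rw [key_tri hok (by ring_nf; omega)]
    ext
    · simp only; omega
    · simp only; omega
  have k5 : ∀ j : ℕ, key D {D.pt j 0, D.pt (j + 1) 0, D.pt (D.h - 1) 1} = ((2 * (j : ℤ) + D.h, 1) : ℤ × ℤ) := by
    intro j
    rw [key_tri hok (by omega)]
    ext
    · simp only; omega
    · simp only; omega
  have k6 : ∀ j : ℕ, key D {D.pt (j - 1) 2, D.pt j 2, D.pt (D.h - 1) 1} = ((2 * (j : ℤ) + D.h - 2, 5) : ℤ × ℤ) := by
    intro j
    rw [key_tri hok (by omega)]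
    ext
    · simp only; omega
    · simp only; omega
  rw [hok.canon_eq, sum_union, sum_union, sum_union, sum_union, sum_pair, sum_image, sum_image,
    sum_image, sum_image]
  · intro i _ j _ h
    have := congrArg (key D) h
    simp only [k6, Prod.mk.injEq] at this
    omega
  · intro i _ j _ h
    have := congrArg (key D) h
    simp only [k5, Prod.mk.injEq] at this
    omega
  · intro i _ j _ h
    have := congrArg (key D) h
    simp only [k4, Prod.mk.injEq] at this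
    omega
  · intro i _ j _ h
    have := congrArg (key D) h
    simp only [k3, Prod.mk.injEq] at this
    omega
  · intro h
    have := congrArg (key D) h
    rw [k1, k2, Prod.mk.injEq] at this
    omega
  · rw [Finset.disjoint_left]
    intro t h3 h4
    simp only [mem_insert, mem_singleton, mem_image] at h3 h4
    obtain ⟨i, _, rfl⟩ := h4
    rcases h3 with h3 | h3 <;>
    · have := congrArg (key D) h3
      simp only [k1, k2, k3, Prod.mk.injEq] at this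
      omega
  · rw [Finset.disjoint_left]
    intro t h3 h4
    simp only [mem_union, mem_insert, mem_singleton, mem_image] at h3 h4
    obtain ⟨i, _, rfl⟩ := h4
    rcases h3 with (h3 | h3) | ⟨j, _, h3⟩ <;>
    · have := congrArg (key D) h3
      simp only [k1, k2, k3, k4, Prod.mk.injEq] at this
      omega
  · rw [Finset.disjoint_left]
    intro t h3 h4
    simp only [mem_union, mem_insert, mem_singleton, mem_image] at h3 h4
    obtain ⟨i, _, rfl⟩ := h4
    rcases h3 with ((h3 | h3) | ⟨j, _, h3⟩) | ⟨j, _, h3⟩ <;>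
    · have := congrArg (key D) h3
      simp only [k1, k2, k3, k4, k5, Prod.mk.injEq] at this
      omega
  · rw [Finset.disjoint_left]
    intro t h3 h4
    simp only [mem_union, mem_insert, mem_singleton, mem_image] at h3 h4
    obtain ⟨i, _, rfl⟩ := h4
    rcases h3 with (((h3 | h3) | ⟨j, _, h3⟩) | ⟨j, _, h3⟩) | ⟨j, _, h3⟩ <;>
    · have := congrArg (key D) h3
      simp only [k1, k2, k3, k4, k5, k6, Prod.mk.injEq] at this
      omega

/-- the triangles of the canonical filling are unimodular -/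
theorem canon_pos (hok : D.Ok) {t : Finset Pt} (ht : t ∈ D.canon) :
    ∃ x y z, t = {x, y, z} ∧ det x y z = 1 := by
  have h2 := hok.two_h
  rw [hok.canon_eq] at ht
  simp only [mem_union, mem_insert, mem_singleton, mem_image] at ht
  rcases ht with ((((rfl | rfl) | ⟨i, _, rfl⟩) | ⟨i, _, rfl⟩) | ⟨j, _, rfl⟩) | ⟨j, _, rfl⟩
  · exact ⟨_, _, _, (tri_rev _ _ _).symm, by rw [hok.det_pt]; norm_num⟩
  · exact ⟨_, _, _, rfl, by rw [hok.det_pt]; omega⟩
  · exact ⟨_, _, _, (tri_rev _ _ _).symm, by rw [hok.det_pt]; ring⟩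
  · exact ⟨_, _, _, rfl, by rw [hok.det_pt]; ring⟩
  · exact ⟨_, _, _, rfl, by rw [hok.det_pt]; ring⟩
  · exact ⟨_, _, _, (tri_rev _ _ _).symm, by rw [hok.det_pt]; ring⟩

/-- boundary sums of the canonical filling -/
theorem sum_canon (hok : D.Ok) (c : Pt → Pt → ℤ) (hc : ∀ x y, c y x = - c x y) :
    ∑ t ∈ D.canon, bd c t = D.bsum c := by
  have h2 := hok.two_h
  have hh := hok.pos
  have e1 : ((D.h - 1 : ℕ) : ℤ) = D.h - 1 := by omega
  rw [hok.canon_sum (bd c)]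
  rw [bd_tri' c (p := D.pt 0 0) (q := D.pt (-1) 2) (r := D.pt 0 1)
      (by rw [hok.det_pt]; norm_num),
    bd_tri c (p := D.pt D.p 0) (q := D.pt (D.q - 1) 2) (r := D.pt (D.h - 1) 1)
      (by rw [hok.det_pt]; omega)]
  have s3 : ∑ i ∈ range (D.h - 1), bd c {D.pt 0 0, D.pt i 1, D.pt (i + 1) 1} =
      (∑ i ∈ range (D.h - 1), (c (D.pt 0 0) (D.pt (i + 1) 1) - c (D.pt 0 0) (D.pt i 1))) -
        ∑ i ∈ range (D.h - 1), c (D.pt i 1) (D.pt (i + 1) 1) := by
    rw [← sum_sub_distrib]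
    apply sum_congr rfl
    intro i _
    rw [bd_tri' c (by rw [hok.det_pt]; ring), hc (D.pt i 1) (D.pt (i + 1) 1),
      hc (D.pt 0 0) (D.pt i 1)]
    ring
  have s4 : ∑ i ∈ range (D.h - 1), bd c {D.pt (-1) 2, D.pt i 1, D.pt (i + 1) 1} =
      (∑ i ∈ range (D.h - 1), c (D.pt i 1) (D.pt (i + 1) 1)) -
        ∑ i ∈ range (D.h - 1), (c (D.pt (-1) 2) (D.pt (i + 1) 1) - c (D.pt (-1) 2) (D.pt i 1)) := by
    rw [← sum_sub_distrib]
    apply sum_congr rfl
    intro i _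
    rw [bd_tri c (by rw [hok.det_pt]; ring), hc (D.pt (-1) 2) (D.pt (i + 1) 1)]
    ring
  have s5 : ∑ j ∈ range D.p, bd c {D.pt j 0, D.pt (j + 1) 0, D.pt (D.h - 1) 1} =
      (∑ j ∈ range D.p, c (D.pt j 0) (D.pt (j + 1) 0)) +
        ∑ j ∈ range D.p, (c (D.pt (j + 1) 0) (D.pt (D.h - 1) 1) - c (D.pt j 0) (D.pt (D.h - 1) 1)) := by
    rw [← sum_add_distrib]
    apply sum_congr rfl
    intro j _
    rw [bd_tri c (by rw [hok.det_pt]; ring), hc (D.pt j 0) (D.pt (D.h - 1) 1)]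
    ring
  have s6 : ∑ j ∈ range D.q, bd c {D.pt (j - 1) 2, D.pt j 2, D.pt (D.h - 1) 1} =
      (∑ j ∈ range D.q, c (D.pt j 2) (D.pt (j - 1) 2)) -
        ∑ j ∈ range D.q, (c (D.pt j 2) (D.pt (D.h - 1) 1) - c (D.pt (j - 1) 2) (D.pt (D.h - 1) 1)) := by
    rw [← sum_sub_distrib]
    apply sum_congr rfl
    intro j _
    rw [bd_tri' c (by rw [hok.det_pt]; ring), hc (D.pt j 2) (D.pt (D.h - 1) 1)]
    ring
  have t3 := Finset.sum_range_sub (fun i : ℕ => c (D.pt 0 0) (D.pt i 1)) (D.h - 1)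
  have t4 := Finset.sum_range_sub (fun i : ℕ => c (D.pt (-1) 2) (D.pt i 1)) (D.h - 1)
  have t5 := Finset.sum_range_sub (fun j : ℕ => c (D.pt j 0) (D.pt (D.h - 1) 1)) D.p
  have t6 := Finset.sum_range_sub (fun j : ℕ => c (D.pt (j - 1) 2) (D.pt (D.h - 1) 1)) D.q
  simp only [Nat.cast_add, Nat.cast_one, Nat.cast_zero, e1] at t3 t4 t5 t6
  have e2 : ∀ j : ℕ, (j : ℤ) + 1 - 1 = j := fun j => by ring
  simp only [e2, zero_sub] at t6
  rw [s3, s4, s5, s6, t3, t4, t5, t6, BoxD.bsum]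
  rw [hc (D.pt (-1) 2) (D.pt 0 1), hc (D.pt D.p 0) (D.pt (D.h - 1) 1)]
  ring

end BoxD.Ok

theorem canon_card {D : BoxD} (hD : D.Ok) : D.canon.card = 2 * (D.p + D.q) := by
  have h2 := hD.even
  have hh := hD.pos
  rw [card_eq_sum_ones, hD.canon_sum (fun _ => 1)]
  simp only [sum_const, card_range, smul_eq_mul, mul_one]
  omega

/-- the shoelace form -/
theorem BoxAux.bd_area {x y z : Pt} (h : det x y z = 1) :
    bd (fun x y => x.1 * y.2 - x.2 * y.1) {x, y, z} = 1 := by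
  rw [bd_tri _ h, ← h]
  simp only [det]
  ring

theorem BT_card {n : ℕ} {T : Finset (Finset Pt)} (hT : UT n T) {D : BoxD} (hD : IsBox n T D) :
    (D.BT T).card = 2 * (D.p + D.q) := by
  have h1 := hD.sum_BT hT (fun x y => x.1 * y.2 - x.2 * y.1) (fun x y => by ring)
  have h2 := hD.ok.sum_canon (fun x y => x.1 * y.2 - x.2 * y.1) (fun x y => by ring)
  have h3 : ∑ t ∈ D.BT T, bd (fun x y => x.1 * y.2 - x.2 * y.1) t = (D.BT T).card := by
    rw [card_eq_sum_ones]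
    push_cast
    apply sum_congr rfl
    intro t ht
    obtain ⟨p, q, r, rfl, h⟩ := hT.exists_pos (IsBox.BT_sub D T ht)
    exact bd_area h.2
  have h4 : ∑ t ∈ D.canon, bd (fun x y => x.1 * y.2 - x.2 * y.1) t = D.canon.card := by
    rw [card_eq_sum_ones]
    push_cast
    apply sum_congr rfl
    intro t ht
    obtain ⟨p, q, r, rfl, h⟩ := hD.ok.canon_pos ht
    exact bd_area h
  have h5 := canon_card hD.ok
  rw [h3] at h1
  rw [h4] at h2
  omega

/-- membership in the canonical filling -/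
theorem unit_survives {n : ℕ} {T : Finset (Finset Pt)} (hT : UT n T) {D : BoxD} (hD : IsBox n T D)
    {t : Finset Pt} (ht : t ∈ D.BT T) {x : Pt} (hx : x ∈ t) (hx' : x + D.e ∈ t) :
    ∃ s ∈ D.canon, x ∈ s ∧ x + D.e ∈ s := by
  have hok := hD.ok
  have h2 := hok.two_h
  rw [IsBox.mem_BT] at ht
  obtain ⟨hT', i, hi, hm⟩ := ht
  obtain ⟨X, Y, rfl⟩ := hok.exists_pt x
  have e1 : D.pt X Y + D.e = D.pt (X + 1) Y := by
    ext
    · simp only [BoxD.pt, Prod.fst_add]; ring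
    · simp only [BoxD.pt, Prod.snd_add]; ring
  rw [e1] at hx' ⊢
  have l1 : D.Loc X Y := hD.loc hT hi hT' hm hx
  have l2 : D.Loc (X + 1) Y := hD.loc hT hi hT' hm hx'
  rw [hok.canon_eq]
  simp only [mem_union, mem_insert, mem_singleton, mem_image, mem_range]
  rcases l1 with ⟨rfl, l1⟩ | ⟨rfl, l1⟩ | ⟨rfl, l1⟩
  · rcases l2 with l2 | l2 | l2
    · obtain ⟨k, rfl⟩ : ∃ k : ℕ, (k : ℤ) = X := ⟨X.toNat, by omega⟩
      exact ⟨_, Or.inl (Or.inr ⟨k, by omega, rfl⟩), by simp, by simp⟩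
    · omega
    · omega
  · rcases l2 with l2 | l2 | l2
    · omega
    · obtain ⟨k, rfl⟩ : ∃ k : ℕ, (k : ℤ) = X := ⟨X.toNat, by omega⟩
      exact ⟨_, Or.inl (Or.inl (Or.inl (Or.inr ⟨k, by omega, rfl⟩))), by simp, by simp⟩
    · omega
  · rcases l2 with l2 | l2 | l2
    · omega
    · omega
    · obtain ⟨k, hk⟩ : ∃ k : ℕ, (k : ℤ) = X + 1 := ⟨(X + 1).toNat, by omega⟩
      refine ⟨_, Or.inr ⟨k, by omega, rfl⟩, ?_, ?_⟩
      · rw [hk]; simp
      · rw [hk]; simp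

end Pool.Agent.IT
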