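import Pool.Agent.IT.BoxStar

/-!
# Boxes: oriented boundary sums

For an antisymmetric function `c` of two points the sum of `c` over the oriented edges of all the triangles of
a box is the sum over the oriented boundary of the trapezoid, both for the given triangulation and for the
canonical filling.
-/

set_option autoImplicit false

namespace Pool.Agent.IT

open Finset

variable {n : ℕ} {T : Finset (Finset Pt)} {D : BoxD}

namespace BoxAux

/-- oriented edges of a triangle -/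
def oe (t : Finset Pt) : Finset (Pt × Pt) :=
  (t ×ˢ t).filter (fun xy => ∃ r ∈ t, det xy.1 xy.2 r = 1)

theorem mem_oe {t : Finset Pt} {x y : Pt} :
    (x, y) ∈ oe t ↔ x ∈ t ∧ y ∈ t ∧ ∃ r ∈ t, det x y r = 1 := by
  simp only [oe, mem_filter, mem_product, and_assoc]

/-- sum over the oriented boundary of a triangle -/
def bd (c : Pt → Pt → ℤ) (t : Finset Pt) : ℤ := ∑ xy ∈ oe t, c xy.1 xy.2

theorem det_ne {p q r : Pt} (h : det p q r = 1) : p ≠ q ∧ q ≠ r ∧ r ≠ p := by
  refine ⟨?_, ?_, ?_⟩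
  · rintro rfl; rw [det_self_left] at h; omega
  · rintro rfl; rw [det_self_right] at h; omega
  · rintro rfl; rw [det_self_out] at h; omega

theorem oe_tri {p q r : Pt} (h : det p q r = 1) :
    oe {p, q, r} = {(p, q), (q, r), (r, p)} := by
  have h1 : det q r p = 1 := by rw [det_cyc]; exact h
  have h2 : det r p q = 1 := by rw [det_cyc']; exact h
  have h3 : det q p r = -1 := by rw [det_swap, h]
  have h4 : det r q p = -1 := by rw [det_swap, h1]
  have h5 : det p r q = -1 := by rw [det_swap, h2]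
  ext ⟨x, y⟩
  rw [mem_oe]
  simp only [mem_insert, mem_singleton, Prod.mk.injEq]
  constructor
  · rintro ⟨hx, hy, s, hs, hd⟩
    rcases hx with rfl | rfl | rfl <;> rcases hy with rfl | rfl | rfl <;>
      rcases hs with rfl | rfl | rfl <;>
      simp only [det_self_left, det_self_right, det_self_out, h, h1, h2, h3, h4, h5] at hd <;>
      first
      | omega
      | simp
  · rintro (⟨rfl, rfl⟩ | ⟨rfl, rfl⟩ | ⟨rfl, rfl⟩)
    · exact ⟨by simp, by simp, r, by simp, h⟩
    · exact ⟨by simp, by simp, p, by simp, h1⟩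
    · exact ⟨by simp, by simp, q, by simp, h2⟩

theorem bd_tri (c : Pt → Pt → ℤ) {p q r : Pt} (h : det p q r = 1) :
    bd c {p, q, r} = c p q + c q r + c r p := by
  obtain ⟨h1, h2, h3⟩ := det_ne h
  rw [bd, oe_tri h, sum_insert, sum_insert, sum_singleton]
  · ring
  · simp only [mem_singleton, Prod.mk.injEq, not_and]
    intro h4; exact absurd h4 h2
  · simp only [mem_insert, mem_singleton, Prod.mk.injEq, not_or, not_and]
    exact ⟨fun h4 => absurd h4 h1, fun h4 => absurd h4.symm h3⟩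

theorem tri_rev (p q r : Pt) : ({p, r, q} : Finset Pt) = {p, q, r} := by
  ext x; simp only [mem_insert, mem_singleton]; tauto

theorem bd_tri' (c : Pt → Pt → ℤ) {p q r : Pt} (h : det p q r = -1) :
    bd c {p, q, r} = c p r + c r q + c q p := by
  rw [← tri_rev, bd_tri c (by rw [det_swap', h]; norm_num)]

theorem eq_of_det (hT : UT n T) {t : Finset Pt} (ht : t ∈ T) {x y r : Pt} (hx : x ∈ t)
    (hy : y ∈ t) (hr : r ∈ t) (hd : det x y r = 1) : t = {x, y, r} := by
  obtain ⟨p, q, s, rfl, h⟩ := hT.exists_pos ht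
  obtain ⟨h1, h2, h3⟩ := det_ne hd
  obtain ⟨k1, k2, k3⟩ := det_ne h.2
  symm
  apply Finset.eq_of_subset_of_card_le
  · intro z hz
    simp only [mem_insert, mem_singleton] at hz
    rcases hz with rfl | rfl | rfl <;> assumption
  · rw [Finset.card_eq_three.2 ⟨x, y, r, h1, Ne.symm h3, h2, rfl⟩]
    exact Finset.card_le_three

/-- the sum over the oriented edges of the triangles of a subset of `T` -/
theorem sum_bd (hT : UT n T) {S : Finset (Finset Pt)} (hS : S ⊆ T) (c : Pt → Pt → ℤ) :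
    ∑ t ∈ S, bd c t = ∑ xy ∈ S.biUnion oe, c xy.1 xy.2 := by
  rw [sum_biUnion]
  · rfl
  · intro t ht s hs hts
    rw [Function.onFun, Finset.disjoint_left]
    rintro ⟨x, y⟩ h1 h2
    rw [mem_oe] at h1 h2
    obtain ⟨hx, hy, r, hr, hd⟩ := h1
    obtain ⟨hx', hy', r', hr', hd'⟩ := h2
    have e1 := eq_of_det hT (hS ht) hx hy hr hd
    have e2 := eq_of_det hT (hS hs) hx' hy' hr' hd'
    have p1 : Pos T x y r := ⟨e1 ▸ hS ht, hd⟩
    have p2 : Pos T x y r' := ⟨e2 ▸ hS hs, hd'⟩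
    have := p1.unique hT p2
    apply hts
    rw [e1, e2, this]

/-- cancellation of opposite edges -/
theorem sum_cancel (E : Finset (Pt × Pt)) (c : Pt → Pt → ℤ) (hc : ∀ x y, c y x = - c x y) :
    ∑ xy ∈ E, c xy.1 xy.2 = ∑ xy ∈ E.filter (fun xy => (xy.2, xy.1) ∉ E), c xy.1 xy.2 := by
  rw [← Finset.sum_filter_add_sum_filter_not E (fun xy => (xy.2, xy.1) ∈ E)]
  have : ∑ xy ∈ E.filter (fun xy => (xy.2, xy.1) ∈ E), c xy.1 xy.2 = 0 := by
    apply Finset.sum_involution (fun xy _ => (xy.2, xy.1))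
    · rintro ⟨x, y⟩ _
      simp only
      rw [hc x y]; ring
    · rintro ⟨x, y⟩ _ h0 h1
      simp only [Prod.mk.injEq] at h0 h1
      apply h0
      have h2 := hc x y
      rw [h1.1] at h2 ⊢
      omega
    · rintro ⟨x, y⟩ h
      simp only [mem_filter] at h ⊢
      exact ⟨h.2, h.1⟩
    · rintro ⟨x, y⟩ _
      rfl
  rw [this, zero_add]

end BoxAux

open BoxAux

/-- oriented boundary edges of the trapezoid, as a finite set -/
def BoxD.bdF (D : BoxD) : Finset (Pt × Pt) :=
  insert (D.pt (-1) 2, D.pt 0 0) (insert (D.pt D.p 0, D.pt (D.q - 1) 2)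
    ((range D.p).image (fun j : ℕ => (D.pt j 0, D.pt (j + 1) 0)) ∪
      (range D.q).image (fun j : ℕ => (D.pt j 2, D.pt (j - 1) 2))))

theorem BoxD.mem_bdF {x y : Pt} : (x, y) ∈ D.bdF ↔ D.Bd x y := by
  simp only [BoxD.bdF, BoxD.Bd, mem_insert, mem_union, mem_image, mem_range, Prod.mk.injEq]
  constructor
  · rintro (h | h | ⟨j, hj, h1, h2⟩ | ⟨j, hj, h1, h2⟩)
    · exact Or.inl h
    · exact Or.inr (Or.inl h)
    · exact Or.inr (Or.inr (Or.inl ⟨j, hj, h1.symm, h2.symm⟩))
    · exact Or.inr (Or.inr (Or.inr ⟨j, hj, h1.symm, h2.symm⟩))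
  · rintro (h | h | ⟨j, hj, h1, h2⟩ | ⟨j, hj, h1, h2⟩)
    · exact Or.inl h
    · exact Or.inr (Or.inl h)
    · exact Or.inr (Or.inr (Or.inl ⟨j, hj, h1.symm, h2.symm⟩))
    · exact Or.inr (Or.inr (Or.inr ⟨j, hj, h1.symm, h2.symm⟩))

/-- the boundary sum -/
def BoxD.bsum (D : BoxD) (c : Pt → Pt → ℤ) : ℤ :=
  c (D.pt (-1) 2) (D.pt 0 0) + c (D.pt D.p 0) (D.pt (D.q - 1) 2) +
    ∑ j ∈ range D.p, c (D.pt j 0) (D.pt (j + 1) 0) + ∑ j ∈ range D.q, c (D.pt j 2) (D.pt (j - 1) 2)

theorem BoxD.Ok.sum_bdF (hok : D.Ok) (c : Pt → Pt → ℤ) :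
    ∑ xy ∈ D.bdF, c xy.1 xy.2 = D.bsum c := by
  rw [BoxD.bdF, sum_insert, sum_insert, sum_union, sum_image, sum_image, BoxD.bsum]
  · ring
  · intro i _ j _ h
    have := (hok.pt_inj (Prod.mk.inj h).1).1
    exact_mod_cast this
  · intro i _ j _ h
    have := (hok.pt_inj (Prod.mk.inj h).1).1
    exact_mod_cast this
  · rw [Finset.disjoint_left]
    rintro ⟨x, y⟩ h1 h2
    simp only [mem_image, Prod.mk.injEq] at h1 h2
    obtain ⟨i, _, rfl, _⟩ := h1
    obtain ⟨j, _, h, _⟩ := h2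
    have := (hok.pt_inj h).2
    omega
  · simp only [mem_union, mem_image, Prod.mk.injEq, not_or, not_exists, not_and]
    constructor
    · rintro j _ _ h
      have := (hok.pt_inj h).2
      omega
    · rintro j _ h
      have := (hok.pt_inj h).2
      omega
  · simp only [mem_insert, mem_union, mem_image, Prod.mk.injEq, not_or, not_exists, not_and]
    refine ⟨?_, ?_, ?_⟩
    · rintro h
      have := (hok.pt_inj h).2
      omega
    · rintro j _ h
      have := (hok.pt_inj h).2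
      omega
    · rintro j _ _ h
      have := (hok.pt_inj h).2
      omega

/-- first coordinate -/
def BoxD.cX (D : BoxD) (x : Pt) : ℤ := (x.1 - D.a.1) * D.f.2 - (x.2 - D.a.2) * D.f.1
/-- second coordinate (level) -/
def BoxD.cY (D : BoxD) (x : Pt) : ℤ := D.e.1 * (x.2 - D.a.2) - D.e.2 * (x.1 - D.a.1)

theorem BoxD.Ok.cX_pt (hok : D.Ok) (X Y : ℤ) : D.cX (D.pt X Y) = X := by
  have h1 := hok.crs_f
  simp only [BoxD.cX, BoxD.pt]
  linear_combination X * h1

theorem BoxD.Ok.cY_pt (hok : D.Ok) (X Y : ℤ) : D.cY (D.pt X Y) = Y := by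
  have h1 := hok.crs_f
  simp only [BoxD.cY, BoxD.pt]
  linear_combination Y * h1

namespace IsBox

theorem BT_sub (D : BoxD) (T : Finset (Finset Pt)) : D.BT T ⊆ T := Finset.filter_subset _ _

theorem mem_BT {t : Finset Pt} : t ∈ D.BT T ↔ t ∈ T ∧ ∃ i : ℕ, i < D.h ∧ D.pt i 1 ∈ t := by
  simp only [BoxD.BT, mem_filter, mem_range, BoxD.Ok.pt_mid]

theorem mem_oeBT (hT : UT n T) {x y : Pt} : (x, y) ∈ (D.BT T).biUnion oe ↔ D.OB T x y := by
  simp only [mem_biUnion, mem_oe, mem_BT]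
  constructor
  · rintro ⟨t, ⟨ht, i, hi, hm⟩, hx, hy, r, hr, hd⟩
    have e1 := eq_of_det hT ht hx hy hr hd
    refine ⟨r, ⟨e1 ▸ ht, hd⟩, i, hi, ?_⟩
    rw [e1] at hm
    simpa using hm
  · rintro ⟨r, hr, i, hi, hm⟩
    refine ⟨_, ⟨hr.1, i, hi, ?_⟩, by simp, by simp, r, by simp, hr.2⟩
    simpa using hm

/-- the remaining oriented edges of the box are those of the boundary of the trapezoid -/
theorem rem_eq (hT : UT n T) (hD : IsBox n T D) :
    ((D.BT T).biUnion oe).filter (fun xy => (xy.2, xy.1) ∉ (D.BT T).biUnion oe) = D.bdF := by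
  have hok := hD.ok
  have h2 := hok.two_h
  have hh := hok.pos
  set E := (D.BT T).biUnion oe with hE
  set R := E.filter (fun xy => (xy.2, xy.1) ∉ E) with hR
  have memR : ∀ x y, (x, y) ∈ R ↔ D.OB T x y ∧ ¬ D.OB T y x := by
    intro x y
    rw [hR, mem_filter, mem_oeBT hT, mem_oeBT hT]
  have hsub : R ⊆ D.bdF := by
    rintro ⟨x, y⟩ h
    rw [memR] at h
    rw [BoxD.mem_bdF]
    rcases hD.classify hT h.1 with h1 | h1
    · exact absurd h1 h.2
    · exact h1
  have hstokes : ∀ f : Pt → ℤ, ∑ xy ∈ R, (f xy.2 - f xy.1) = 0 := by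
    intro f
    have h3 := sum_cancel E (fun x y => f y - f x) (fun x y => by ring)
    have h4 := sum_bd hT (BT_sub D T) (fun x y => f y - f x)
    rw [← hE] at h4
    rw [hR, ← h3, ← h4]
    apply sum_eq_zero
    intro t ht
    obtain ⟨p, q, r, rfl, hp⟩ := hT.exists_pos (BT_sub D T ht)
    rw [bd_tri _ hp.2]
    ring
  have hfirst : (D.pt (-1) 2, D.pt 0 0) ∈ R := by
    rw [memR]; exact ⟨hD.oe_first hT, hD.not_oe (Or.inl ⟨rfl, rfl⟩)⟩
  have hlast : (D.pt D.p 0, D.pt (D.q - 1) 2) ∈ R := by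
    rw [memR]; exact ⟨hD.oe_last hT, hD.not_oe (Or.inr (Or.inl ⟨rfl, rfl⟩))⟩
  apply Finset.Subset.antisymm hsub
  rintro ⟨x, y⟩ h
  rw [BoxD.mem_bdF] at h
  rcases h with ⟨rfl, rfl⟩ | ⟨rfl, rfl⟩ | ⟨j, hj, rfl, rfl⟩ | ⟨j, hj, rfl, rfl⟩
  · exact hfirst
  · exact hlast
  · by_contra hcon
    have h5 := hstokes (fun x => if D.cY x = 0 ∧ D.cX x ≤ j then 1 else 0)
    rw [Finset.sum_eq_single_of_mem _ hfirst] at h5
    · simp only [hok.cX_pt, hok.cY_pt, true_and] at h5
      norm_num at h5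
    · rintro ⟨x, y⟩ hxy hne
      have h6 := hsub hxy
      rw [BoxD.mem_bdF] at h6
      rcases h6 with ⟨rfl, rfl⟩ | ⟨rfl, rfl⟩ | ⟨i, hi, rfl, rfl⟩ | ⟨i, hi, rfl, rfl⟩
      · exact absurd rfl hne
      · simp only [hok.cX_pt, hok.cY_pt, true_and]
        rw [if_neg (by omega), if_neg (by omega)]; norm_num
      · simp only [hok.cX_pt, hok.cY_pt, true_and]
        have hij : i ≠ j := by rintro rfl; exact hcon hxy
        rcases Nat.lt_or_gt_of_ne hij with h7 | h7
        · rw [if_pos (by omega), if_pos (by omega)]; norm_num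
        · rw [if_neg (by omega), if_neg (by omega)]; norm_num
      · simp only [hok.cX_pt, hok.cY_pt, true_and]
        rw [if_neg (by omega), if_neg (by omega)]; norm_num
  · by_contra hcon
    have h5 := hstokes (fun x => if D.cY x = 2 ∧ D.cX x ≤ j - 1 then 1 else 0)
    rw [Finset.sum_eq_single_of_mem _ hfirst] at h5
    · simp only [hok.cX_pt, hok.cY_pt, true_and] at h5
      rw [if_neg (by omega), if_pos (by omega)] at h5
      norm_num at h5
    · rintro ⟨x, y⟩ hxy hne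
      have h6 := hsub hxy
      rw [BoxD.mem_bdF] at h6
      rcases h6 with ⟨rfl, rfl⟩ | ⟨rfl, rfl⟩ | ⟨i, hi, rfl, rfl⟩ | ⟨i, hi, rfl, rfl⟩
      · exact absurd rfl hne
      · simp only [hok.cX_pt, hok.cY_pt, true_and]
        rw [if_neg (by omega), if_neg (by omega)]; norm_num
      · simp only [hok.cX_pt, hok.cY_pt, true_and]
        rw [if_neg (by omega), if_neg (by omega)]; norm_num
      · simp only [hok.cX_pt, hok.cY_pt, true_and]
        have hij : i ≠ j := by rintro rfl; exact hcon hxy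
        rcases Nat.lt_or_gt_of_ne hij with h7 | h7
        · rw [if_pos (by omega), if_pos (by omega)]; norm_num
        · rw [if_neg (by omega), if_neg (by omega)]; norm_num

/-- boundary sums of the box -/
theorem sum_BT (hT : UT n T) (hD : IsBox n T D) (c : Pt → Pt → ℤ) (hc : ∀ x y, c y x = - c x y) :
    ∑ t ∈ D.BT T, bd c t = D.bsum c := by
  rw [sum_bd hT (BT_sub D T), sum_cancel _ c hc, hD.rem_eq hT, hD.ok.sum_bdF]

end IsBox

end Pool.Agent.IT
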