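import Pool.Agent.IT.BoxCanon

/-!
# Boxes: refilling a family of boxes gives a unimodular triangulation

The number of open triangles of a box containing a generic point is a sum over the oriented boundary (crossing
numbers of the vertical ray), so it is the same for the given and for the canonical filling.
-/

set_option autoImplicit false

namespace Pool.Agent.IT

open Finset BoxAux Filter Topology

variable {n : ℕ} {T : Finset (Finset Pt)} {D : BoxD}

namespace BoxAux

/-- `z` is on no line through two lattice points -/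
def Gen (z : ℝ × ℝ) : Prop := ∀ p q : Pt, p ≠ q → dl p q z ≠ 0

theorem dense_gen : Dense {z : ℝ × ℝ | Gen z} := by
  have h : {z : ℝ × ℝ | Gen z} = ⋂ pq : Pt × Pt, {z : ℝ × ℝ | pq.1 ≠ pq.2 → dl pq.1 pq.2 z ≠ 0} := by
    ext x
    simp only [Set.mem_iInter, Set.mem_ofPred_eq, Gen]
    constructor
    · intro h pq; exact h pq.1 pq.2
    · intro h p q; exact h (p, q)
  rw [h]
  apply dense_iInter_of_isOpen
  · rintro ⟨p, q⟩
    by_cases hpq : p = q
    · simp [hpq]
    · have : {z : ℝ × ℝ | (p, q).1 ≠ (p, q).2 → dl (p, q).1 (p, q).2 z ≠ 0} =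
          {z : ℝ × ℝ | dl p q z ≠ 0} := by
        ext x; simp [hpq]
      rw [this]
      exact isOpen_ne_fun (continuous_dl _ _) continuous_const
  · rintro ⟨p, q⟩
    by_cases hpq : p = q
    · simp [hpq]
    · have : {z : ℝ × ℝ | (p, q).1 ≠ (p, q).2 → dl (p, q).1 (p, q).2 z ≠ 0} =
          {z : ℝ × ℝ | dl p q z ≠ 0} := by
        ext x; simp [hpq]
      rw [this]
      intro x
      by_cases hx : dl p q x ≠ 0
      · exact subset_closure hx
      · push Not at hx
        set w : ℝ × ℝ := (-((q.2 : ℝ) - p.2), (q.1 : ℝ) - p.1) with hw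
        have hc : Filter.Tendsto (fun ε : ℝ => x + ε • w) (nhdsWithin 0 (Set.Ioi 0)) (nhds x) := by
          have hcont : Continuous (fun ε : ℝ => x + ε • w) := by fun_prop
          have := hcont.tendsto 0
          simp only [zero_smul, add_zero] at this
          exact this.mono_left nhdsWithin_le_nhds
        apply mem_closure_of_tendsto hc
        filter_upwards [self_mem_nhdsWithin] with ε hε
        have hε' : (0:ℝ) < ε := hε
        change dl p q (x + ε • w) ≠ 0
        rw [dl_add, hx, zero_add]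
        have e : sl p q w = ((q.1:ℝ) - p.1) ^ 2 + ((q.2:ℝ) - p.2) ^ 2 := by
          simp only [sl, hw]; ring
        rw [e]
        have hne : (q.1:ℝ) - p.1 ≠ 0 ∨ (q.2:ℝ) - p.2 ≠ 0 := by
          by_contra hcon
          push Not at hcon
          apply hpq
          have e1 : (q.1:ℝ) = p.1 := by linarith [hcon.1]
          have e2 : (q.2:ℝ) = p.2 := by linarith [hcon.2]
          ext
          · exact_mod_cast e1.symm
          · exact_mod_cast e2.symm
        have : 0 < ((q.1:ℝ) - p.1) ^ 2 + ((q.2:ℝ) - p.2) ^ 2 := by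
          rcases hne with h | h
          · have := pow_pos (abs_pos.2 h) 2
            rw [sq_abs] at this
            positivity
          · have := pow_pos (abs_pos.2 h) 2
            rw [sq_abs] at this
            positivity
        positivity

theorem exists_gen {U : Set (ℝ × ℝ)} (hU : IsOpen U) (hne : U.Nonempty) : ∃ z ∈ U, Gen z := by
  obtain ⟨z, h1, h2⟩ := dense_gen.exists_mem_open hU hne
  exact ⟨z, h2, h1⟩

theorem Gen.fst_ne {z : ℝ × ℝ} (hz : Gen z) (p : Pt) : z.1 ≠ p.1 := by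
  intro h
  apply hz p (p.1, p.2 + 1)
  · intro h1
    have := congrArg Prod.snd h1
    simp at this
  · simp only [dl]; rw [h]; ring

open Classical in
/-- crossing number of the edge `p → q` with the vertical ray above `z` -/
noncomputable def cn (z : ℝ × ℝ) (p q : Pt) : ℤ :=
  if z.1 < p.1 ∧ (q.1:ℝ) < z.1 ∧ 0 < dl p q z then 1
  else if (p.1:ℝ) < z.1 ∧ z.1 < q.1 ∧ dl p q z < 0 then -1 else 0

theorem cn_anti (z : ℝ × ℝ) (p q : Pt) : cn z q p = - cn z p q := by
  have h := dl_swap p q z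
  unfold cn
  by_cases h1 : z.1 < p.1 ∧ (q.1:ℝ) < z.1 ∧ 0 < dl p q z
  · rw [if_pos h1, if_neg (by rintro ⟨h2, _, _⟩; linarith [h1.2.1]),
      if_pos ⟨h1.2.1, h1.1, by rw [h]; linarith [h1.2.2]⟩]
  · rw [if_neg h1]
    by_cases h2 : (p.1:ℝ) < z.1 ∧ z.1 < q.1 ∧ dl p q z < 0
    · rw [if_pos h2, if_pos ⟨h2.2.1, h2.1, by rw [h]; linarith [h2.2.2]⟩]
      norm_num
    · rw [if_neg h2, if_neg, if_neg]
      · norm_num
      · rintro ⟨h3, h4, h5⟩
        exact h1 ⟨h4, h3, by rw [h] at h5; linarith⟩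
      · rintro ⟨h3, h4, h5⟩
        exact h2 ⟨h4, h3, by rw [h] at h5; linarith⟩

theorem cn_same {z : ℝ × ℝ} {p q : Pt} (h : (z.1 < p.1 ∧ z.1 < q.1) ∨ ((p.1:ℝ) < z.1 ∧ (q.1:ℝ) < z.1)) :
    cn z p q = 0 := by
  unfold cn
  rw [if_neg, if_neg]
  · rintro ⟨h1, h2, _⟩
    rcases h with h | h
    · linarith [h.1]
    · linarith [h.2]
  · rintro ⟨h1, h2, _⟩
    rcases h with h | h
    · linarith [h.2]
    · linarith [h.1]

open Classical in
theorem cn_pn {z : ℝ × ℝ} {p q : Pt} (h1 : z.1 < p.1) (h2 : (q.1:ℝ) < z.1) :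
    cn z p q = if 0 < dl p q z then 1 else 0 := by
  unfold cn
  by_cases h : 0 < dl p q z
  · rw [if_pos ⟨h1, h2, h⟩, if_pos h]
  · rw [if_neg (fun h3 => h h3.2.2), if_neg h, if_neg (fun h3 => by linarith [h3.1])]

open Classical in
theorem cn_np {z : ℝ × ℝ} {p q : Pt} (h1 : (p.1:ℝ) < z.1) (h2 : z.1 < q.1) :
    cn z p q = if dl p q z < 0 then -1 else 0 := by
  unfold cn
  by_cases h : dl p q z < 0
  · rw [if_pos h, if_neg (fun h3 => by linarith [h3.1]), if_pos ⟨h1, h2, h⟩]
  · rw [if_neg (fun h3 => by linarith [h3.1]), if_neg (fun h3 => h h3.2.2), if_neg h]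

open Classical in
/-- the case where `p` is alone on its side of the vertical line -/
theorem cn_tri_aux {z : ℝ × ℝ} (hz : Gen z) {p q r : Pt} (h : det p q r = 1)
    (hs : (z.1 < p.1 ∧ (q.1:ℝ) < z.1 ∧ (r.1:ℝ) < z.1) ∨ ((p.1:ℝ) < z.1 ∧ z.1 < q.1 ∧ z.1 < r.1)) :
    cn z p q + cn z q r + cn z r p =
      if 0 < dl p q z ∧ 0 < dl q r z ∧ 0 < dl r p z then 1 else 0 := by
  have b1 := bary1 h z
  have hsum := dl_sum p q r z
  rw [h] at hsum
  push_cast at hsum
  obtain ⟨n1, n2, n3⟩ := det_ne h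
  have g1 := hz p q n1
  have g3 := hz r p n3
  set d1 := dl p q z
  set d2 := dl q r z
  set d3 := dl r p z
  have rel : d2 * (p.1 - z.1) + d3 * (q.1 - z.1) + d1 * (r.1 - z.1) = 0 := by
    have : d2 * (p.1 - z.1) + d3 * (q.1 - z.1) + d1 * (r.1 - z.1) =
        (d2 * p.1 + d3 * q.1 + d1 * r.1) - (d1 + d2 + d3) * z.1 := by ring
    rw [this, ← b1, hsum]; ring
  rcases hs with ⟨hp, hq, hr⟩ | ⟨hp, hq, hr⟩
  · have F1 : d1 < 0 → d3 < 0 → False := by
      intro k1 k3
      have m1 : 0 < d3 * (q.1 - z.1) := mul_pos_of_neg_of_neg k3 (by linarith)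
      have m2 : 0 < d1 * (r.1 - z.1) := mul_pos_of_neg_of_neg k1 (by linarith)
      have m3 : d2 * (p.1 - z.1) < 0 := by linarith
      have m4 : d2 < 0 := by
        by_contra hc
        push Not at hc
        have := mul_nonneg hc (by linarith : (0:ℝ) ≤ p.1 - z.1)
        linarith
      linarith
    have F2 : 0 < d1 → 0 < d3 → 0 < d2 := by
      intro k1 k3
      have m1 : d3 * (q.1 - z.1) < 0 := mul_neg_of_pos_of_neg k3 (by linarith)
      have m2 : d1 * (r.1 - z.1) < 0 := mul_neg_of_pos_of_neg k1 (by linarith)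
      have m3 : 0 < d2 * (p.1 - z.1) := by linarith
      exact (pos_iff_pos_of_mul_pos m3).2 (by linarith)
    rw [cn_pn hp hq, cn_same (Or.inr ⟨hq, hr⟩), cn_np hr hp]
    change (if 0 < d1 then (1:ℤ) else 0) + 0 + (if d3 < 0 then -1 else 0) = _
    rcases lt_or_gt_of_ne g1 with k1 | k1 <;> rcases lt_or_gt_of_ne g3 with k3 | k3
    · exact (F1 k1 k3).elim
    · simp [not_lt.2 k1.le, not_lt.2 k3.le]
    · simp [k1, k3, not_lt.2 k3.le]
    · simp [k1, k3, not_lt.2 k3.le, F2 k1 k3]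
  · have F1 : d1 < 0 → d3 < 0 → False := by
      intro k1 k3
      have m1 : d3 * (q.1 - z.1) < 0 := mul_neg_of_neg_of_pos k3 (by linarith)
      have m2 : d1 * (r.1 - z.1) < 0 := mul_neg_of_neg_of_pos k1 (by linarith)
      have m3 : 0 < d2 * (p.1 - z.1) := by linarith
      have m4 : d2 < 0 := by
        by_contra hc
        push Not at hc
        have := mul_nonneg hc (by linarith : (0:ℝ) ≤ z.1 - p.1)
        linarith
      linarith
    have F2 : 0 < d1 → 0 < d3 → 0 < d2 := by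
      intro k1 k3
      have m1 : 0 < d3 * (q.1 - z.1) := mul_pos k3 (by linarith)
      have m2 : 0 < d1 * (r.1 - z.1) := mul_pos k1 (by linarith)
      have m3 : 0 < d2 * (z.1 - p.1) := by
        have : d2 * (z.1 - p.1) = -(d2 * (p.1 - z.1)) := by ring
        rw [this]; linarith
      exact (pos_iff_pos_of_mul_pos m3).2 (by linarith)
    rw [cn_np hp hq, cn_same (Or.inl ⟨hq, hr⟩), cn_pn hr hp]
    change (if d1 < 0 then (-1:ℤ) else 0) + 0 + (if 0 < d3 then 1 else 0) = _
    rcases lt_or_gt_of_ne g1 with k1 | k1 <;> rcases lt_or_gt_of_ne g3 with k3 | k3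
    · exact (F1 k1 k3).elim
    · simp [k1, k3, not_lt.2 k1.le]
    · simp [not_lt.2 k1.le, not_lt.2 k3.le]
    · simp [k1, k3, not_lt.2 k1.le, F2 k1 k3]

open Classical in
theorem cn_tri {z : ℝ × ℝ} (hz : Gen z) {p q r : Pt} (h : det p q r = 1) :
    cn z p q + cn z q r + cn z r p =
      if 0 < dl p q z ∧ 0 < dl q r z ∧ 0 < dl r p z then 1 else 0 := by
  have hq : det q r p = 1 := by rw [det_cyc]; exact h
  have hr : det r p q = 1 := by rw [det_cyc']; exact h
  have er : cn z p q + cn z q r + cn z r p = cn z r p + cn z p q + cn z q r := by ring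
  have eq' : cn z p q + cn z q r + cn z r p = cn z q r + cn z r p + cn z p q := by ring
  have b1 := bary1 h z
  have hsum := dl_sum p q r z
  rw [h] at hsum
  push_cast at hsum
  have rel : dl q r z * (p.1 - z.1) + dl r p z * (q.1 - z.1) + dl p q z * (r.1 - z.1) = 0 := by
    have : dl q r z * (p.1 - z.1) + dl r p z * (q.1 - z.1) + dl p q z * (r.1 - z.1) =
        (dl q r z * p.1 + dl r p z * q.1 + dl p q z * r.1) -
          (dl p q z + dl q r z + dl r p z) * z.1 := by ring
    rw [this, ← b1, hsum]; ring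
  have rot1 : (0 < dl q r z ∧ 0 < dl r p z ∧ 0 < dl p q z) ↔
      (0 < dl p q z ∧ 0 < dl q r z ∧ 0 < dl r p z) := by tauto
  have rot2 : (0 < dl r p z ∧ 0 < dl p q z ∧ 0 < dl q r z) ↔
      (0 < dl p q z ∧ 0 < dl q r z ∧ 0 < dl r p z) := by tauto
  rcases lt_or_gt_of_ne (hz.fst_ne p) with kp | kp <;>
  rcases lt_or_gt_of_ne (hz.fst_ne q) with kq | kq <;>
  rcases lt_or_gt_of_ne (hz.fst_ne r) with kr | kr
  · rw [cn_same (Or.inl ⟨kp, kq⟩), cn_same (Or.inl ⟨kq, kr⟩), cn_same (Or.inl ⟨kr, kp⟩)]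
    rw [if_neg]
    · norm_num
    · rintro ⟨h1, h2, h3⟩
      have m1 := mul_pos h2 (sub_pos.2 kp)
      have m2 := mul_pos h3 (sub_pos.2 kq)
      have m3 := mul_pos h1 (sub_pos.2 kr)
      linarith
  · -- r alone
    have := cn_tri_aux hz hr (Or.inr ⟨kr, kp, kq⟩)
    rw [er, this]
    simp only [rot2]
  · have := cn_tri_aux hz hq (Or.inr ⟨kq, kr, kp⟩)
    rw [eq', this]
    simp only [rot1]
  · exact cn_tri_aux hz h (Or.inl ⟨kp, kq, kr⟩)
  · exact cn_tri_aux hz h (Or.inr ⟨kp, kq, kr⟩)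
  · have := cn_tri_aux hz hq (Or.inl ⟨kq, kr, kp⟩)
    rw [eq', this]
    simp only [rot1]
  · have := cn_tri_aux hz hr (Or.inl ⟨kr, kp, kq⟩)
    rw [er, this]
    simp only [rot2]
  · rw [cn_same (Or.inr ⟨kp, kq⟩), cn_same (Or.inr ⟨kq, kr⟩), cn_same (Or.inr ⟨kr, kp⟩)]
    rw [if_neg]
    · norm_num
    · rintro ⟨h1, h2, h3⟩
      have m1 := mul_pos h2 (sub_pos.2 kp)
      have m2 := mul_pos h3 (sub_pos.2 kq)
      have m3 := mul_pos h1 (sub_pos.2 kr)
      linarith

open Classical in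
theorem bd_cn {z : ℝ × ℝ} (hz : Gen z) {t : Finset Pt} (ht : ∃ x y r, t = {x, y, r} ∧ det x y r = 1) :
    bd (cn z) t = if z ∈ interior (cell t) then 1 else 0 := by
  obtain ⟨p, q, r, rfl, h⟩ := ht
  rw [bd_tri _ h, cn_tri hz h]
  simp only [mem_interior_cell_iff h]

open Classical in
/-- triangles of `S` whose interior contains `z` -/
noncomputable def hit (z : ℝ × ℝ) (S : Finset (Finset Pt)) : Finset (Finset Pt) :=
  S.filter (fun t => z ∈ interior (cell t))

theorem mem_hit {z : ℝ × ℝ} {S : Finset (Finset Pt)} {t : Finset Pt} :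
    t ∈ hit z S ↔ t ∈ S ∧ z ∈ interior (cell t) := by
  classical
  simp only [hit, mem_filter]

theorem card_hit {z : ℝ × ℝ} (hz : Gen z) {S : Finset (Finset Pt)}
    (hS : ∀ t ∈ S, ∃ x y r, t = {x, y, r} ∧ det x y r = 1) :
    ((hit z S).card : ℤ) = ∑ t ∈ S, bd (cn z) t := by
  classical
  rw [hit, Finset.card_filter]
  push_cast
  exact sum_congr rfl fun t ht => (bd_cn hz (hS t ht)).symm

/-- the two fillings of a box cover every generic point equally often -/
theorem hit_eq (hT : UT n T) (hD : IsBox n T D) {z : ℝ × ℝ} (hz : Gen z) :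
    (hit z (D.BT T)).card = (hit z D.canon).card := by
  have h1 := card_hit hz (S := D.BT T) (fun t ht => by
    obtain ⟨p, q, r, rfl, h⟩ := hT.exists_pos (IsBox.BT_sub D T ht)
    exact ⟨p, q, r, rfl, h.2⟩)
  have h2 := card_hit hz (S := D.canon) (fun t ht => hD.ok.canon_pos ht)
  rw [hD.sum_BT hT _ (fun x y => cn_anti z x y)] at h1
  rw [hD.ok.sum_canon _ (fun x y => cn_anti z x y)] at h2
  omega

theorem interior_nonempty {x y r : Pt} (h : det x y r = 1) :
    (interior (cell {x, y, r})).Nonempty := by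
  have h' : (det x y r : ℝ) = 1 := by exact_mod_cast h
  refine ⟨(((x.1:ℝ) + y.1 + r.1) / 3, ((x.2:ℝ) + y.2 + r.2) / 3), ?_⟩
  rw [mem_interior_cell_iff h]
  refine ⟨?_, ?_, ?_⟩
  · have : dl x y (((x.1:ℝ) + y.1 + r.1) / 3, ((x.2:ℝ) + y.2 + r.2) / 3) = 1 / 3 := by
      rw [← h']; simp only [dl, det]; push_cast; ring
    rw [this]; norm_num
  · have : dl y r (((x.1:ℝ) + y.1 + r.1) / 3, ((x.2:ℝ) + y.2 + r.2) / 3) = 1 / 3 := by
      rw [← h']; simp only [dl, det]; push_cast; ring
    rw [this]; norm_num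
  · have : dl r x (((x.1:ℝ) + y.1 + r.1) / 3, ((x.2:ℝ) + y.2 + r.2) / 3) = 1 / 3 := by
      rw [← h']; simp only [dl, det]; push_cast; ring
    rw [this]; norm_num

theorem exists_gen_interior {t : Finset Pt} (ht : ∃ x y r, t = {x, y, r} ∧ det x y r = 1) :
    ∃ z, Gen z ∧ z ∈ interior (cell t) := by
  obtain ⟨x, y, r, rfl, h⟩ := ht
  obtain ⟨z, h1, h2⟩ := exists_gen isOpen_interior (interior_nonempty h)
  exact ⟨z, h2, h1⟩

/-- a generic point in a triangle of the canonical filling is in a triangle of the box -/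
theorem exists_of_canon (hT : UT n T) (hD : IsBox n T D) {z : ℝ × ℝ} (hz : Gen z) {t : Finset Pt}
    (ht : t ∈ D.canon) (h : z ∈ interior (cell t)) :
    ∃ s ∈ D.BT T, z ∈ interior (cell s) := by
  have h1 : 0 < (hit z D.canon).card := Finset.card_pos.2 ⟨t, mem_hit.2 ⟨ht, h⟩⟩
  rw [← hit_eq hT hD hz] at h1
  obtain ⟨s, hs⟩ := Finset.card_pos.1 h1
  rw [mem_hit] at hs
  exact ⟨s, hs.1, hs.2⟩

theorem UT.pos_n (hT : UT n T) : 0 < n := by
  by_contra h0
  have hn : n = 0 := by omega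
  subst hn
  have : ((0:ℝ), (0:ℝ)) ∈ Sq 0 := by rw [mem_Sq]; norm_num
  obtain ⟨t, ht, -⟩ := hT.exists_cell this
  obtain ⟨p, q, r, rfl, h⟩ := hT.exists_pos ht
  have h1 := h.insq hT
  have h2 := h.cyc.insq hT
  have h3 := h.cyc'.insq hT
  have h4 := h.2
  simp only [InSq, Nat.cast_zero] at h1 h2 h3
  have e1 : p.1 = 0 := by omega
  have e2 : p.2 = 0 := by omega
  have e3 : q.1 = 0 := by omega
  have e4 : q.2 = 0 := by omega
  simp only [det, e1, e2, e3, e4] at h4
  norm_num at h4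

/-- criterion for a unimodular triangulation -/
theorem ut_of_gen (hn : 0 < n) {T' : Finset (Finset Pt)}
    (htri : ∀ t ∈ T', ∃ x y r, t = {x, y, r} ∧ det x y r = 1)
    (hsq : ∀ t ∈ T', ∀ p ∈ t, InSq n p)
    (h : ∀ z, Gen z → z ∈ Sq n → (hit z T').card = 1) : UT n T' := by
  have hsub : ∀ t ∈ T', cell t ⊆ Sq n := by
    intro t ht
    apply convexHull_min
    · rintro x ⟨p, hp, rfl⟩
      obtain ⟨h1, h2, h3, h4⟩ := hsq t ht p (by simpa using hp)
      rw [mem_Sq]
      simp only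
      exact ⟨by exact_mod_cast h1, by exact_mod_cast h2, by exact_mod_cast h3, by exact_mod_cast h4⟩
    · exact convex_Icc _ _
  refine ⟨?_, ?_, ?_⟩
  · intro t ht
    obtain ⟨x, y, r, rfl, hd⟩ := htri t ht
    refine ⟨x, y, r, rfl, fun p hp => hsq _ ht p hp, ?_⟩
    have : (y.1 - x.1) * (r.2 - x.2) - (y.2 - x.2) * (r.1 - x.1) = 1 := hd
    rw [this]; norm_num
  · intro t ht s hs hts
    rw [Set.disjoint_left]
    intro x h1 h2
    obtain ⟨z, ⟨h3, h4⟩, hz⟩ := exists_gen (isOpen_interior.inter isOpen_interior) ⟨x, h1, h2⟩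
    have h5 := h z hz (hsub t ht (interior_subset h3))
    obtain ⟨u, hu⟩ := Finset.card_eq_one.1 h5
    have e1 : t = u := by
      have : t ∈ hit z T' := mem_hit.2 ⟨ht, h3⟩
      rw [hu] at this; simpa using this
    have e2 : s = u := by
      have : s ∈ hit z T' := mem_hit.2 ⟨hs, h4⟩
      rw [hu] at this; simpa using this
    exact hts (e1.trans e2.symm)
  · apply Set.Subset.antisymm
    · intro x hx
      simp only [Set.mem_iUnion] at hx
      obtain ⟨t, ht, hx⟩ := hx
      exact hsub t ht hx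
    · intro x hx
      by_contra hcon
      have hclosed : IsClosed (⋃ t ∈ T', cell t) := by
        apply Set.Finite.isClosed_biUnion T'.finite_toSet
        intro t ht
        obtain ⟨x, y, r, rfl, hd⟩ := htri t ht
        exact isClosed_cell hd
      have hconv : Convex ℝ (Sq n) := convex_Icc _ _
      have hc : ((n:ℝ) / 2, (n:ℝ) / 2) ∈ interior (Sq n) := by
        have hopen : IsOpen {y : ℝ × ℝ | 0 < y.1 ∧ y.1 < n ∧ 0 < y.2 ∧ y.2 < n} := by
          apply IsOpen.inter (isOpen_lt continuous_const continuous_fst)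
          apply IsOpen.inter (isOpen_lt continuous_fst continuous_const)
          exact IsOpen.inter (isOpen_lt continuous_const continuous_snd)
            (isOpen_lt continuous_snd continuous_const)
        have hs : {y : ℝ × ℝ | 0 < y.1 ∧ y.1 < n ∧ 0 < y.2 ∧ y.2 < n} ⊆ Sq n := by
          rintro y ⟨h1, h2, h3, h4⟩
          rw [mem_Sq]
          exact ⟨h1.le, h2.le, h3.le, h4.le⟩
        apply interior_maximal hs hopen
        have : (0:ℝ) < n := by exact_mod_cast hn
        refine ⟨?_, ?_, ?_, ?_⟩ <;> simp only <;> linarith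
      have hx' : x ∈ closure (interior (Sq n)) := by
        rw [hconv.closure_interior_eq_closure_of_nonempty_interior ⟨_, hc⟩]
        exact subset_closure hx
      have hU : IsOpen (⋃ t ∈ T', cell t)ᶜ := hclosed.isOpen_compl
      rw [mem_closure_iff] at hx'
      obtain ⟨y, hy1, hy2⟩ := hx' _ hU hcon
      obtain ⟨z, ⟨h3, h4⟩, hz⟩ := exists_gen (hU.inter isOpen_interior) ⟨y, hy1, hy2⟩
      have h5 := h z hz (interior_subset h4)
      obtain ⟨u, hu⟩ := Finset.card_eq_one.1 h5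
      have h6 : u ∈ hit z T' := by rw [hu]; simp
      rw [mem_hit] at h6
      apply h3
      simp only [Set.mem_iUnion]
      exact ⟨u, h6.1, interior_subset h6.2⟩

theorem exists_hit (hT : UT n T) {z : ℝ × ℝ} (hz : Gen z) (hs : z ∈ Sq n) :
    ∃ t ∈ T, z ∈ interior (cell t) := by
  obtain ⟨t, ht, hx⟩ := hT.exists_cell hs
  obtain ⟨p, q, r, rfl, h⟩ := hT.exists_pos ht
  refine ⟨_, ht, ?_⟩
  obtain ⟨n1, n2, n3⟩ := det_ne h.2
  rw [mem_cell_iff h.2] at hx
  rw [mem_interior_cell_iff h.2]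
  exact ⟨lt_of_le_of_ne hx.1 (hz _ _ n1).symm, lt_of_le_of_ne hx.2.1 (hz _ _ n2).symm,
    lt_of_le_of_ne hx.2.2 (hz _ _ n3).symm⟩

theorem between {a e X p N : ℤ} (h0 : 0 ≤ X) (h1 : X ≤ p) (ha : 0 ≤ a) (ha' : a ≤ N)
    (hb : 0 ≤ a + p * e) (hb' : a + p * e ≤ N) : 0 ≤ a + X * e ∧ a + X * e ≤ N := by
  rcases le_total 0 e with he | he
  · have m1 := mul_nonneg h0 he
    have m2 : X * e ≤ p * e := mul_le_mul_of_nonneg_right h1 he
    constructor <;> linarith
  · have m1 : X * e ≤ 0 := mul_nonpos_of_nonneg_of_nonpos h0 he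
    have m2 : p * e ≤ X * e := mul_le_mul_of_nonpos_right h1 he
    constructor <;> linarith

end BoxAux

/-- the lattice points of the closed trapezoid are in the square -/
theorem IsBox.insq_pt (hT : UT n T) (hD : IsBox n T D) {X Y : ℤ} (h : D.Loc X Y) :
    InSq n (D.pt X Y) := by
  have hok := hD.ok
  rcases h with ⟨rfl, h1, h2⟩ | ⟨rfl, h1, h2⟩ | ⟨rfl, h1, h2⟩
  · have ha := hD.left'.insq hT
    have hb := hD.right'.insq hT
    simp only [InSq, BoxD.pt] at *
    obtain ⟨a1, a2, a3, a4⟩ := ha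
    obtain ⟨b1, b2, b3, b4⟩ := hb
    have c1 := between (a := D.a.1) (e := D.e.1) (N := n) h1 h2 (by linarith) (by linarith)
      (by linarith) (by linarith)
    have c2 := between (a := D.a.2) (e := D.e.2) (N := n) h1 h2 (by linarith) (by linarith)
      (by linarith) (by linarith)
    exact ⟨by linarith [c1.1], by linarith [c1.2], by linarith [c2.1], by linarith [c2.2]⟩
  · obtain ⟨k, rfl⟩ : ∃ k : ℕ, (k : ℤ) = X := ⟨X.toNat, by omega⟩
    have := hD.int k (by omega)
    rw [BoxD.Ok.pt_mid] at this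
    exact this.insq
  · have ha := hD.left'.symm.insq hT
    have hb := hD.right'.symm.insq hT
    simp only [InSq, BoxD.pt] at *
    obtain ⟨a1, a2, a3, a4⟩ := ha
    obtain ⟨b1, b2, b3, b4⟩ := hb
    have c1 := between (a := D.a.1 + (-1) * D.e.1 + 2 * D.f.1) (e := D.e.1) (N := n) (X := X + 1)
      (p := D.q) (by linarith) (by linarith) (by linarith) (by linarith)
      (by linarith) (by linarith)
    have c2 := between (a := D.a.2 + (-1) * D.e.2 + 2 * D.f.2) (e := D.e.2) (N := n) (X := X + 1)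
      (p := D.q) (by linarith) (by linarith) (by linarith) (by linarith)
      (by linarith) (by linarith)
    exact ⟨by linarith [c1.1], by linarith [c1.2], by linarith [c2.1], by linarith [c2.2]⟩

/-- the vertices of the canonical filling are lattice points of the trapezoid -/
theorem BoxD.Ok.canon_loc (hok : D.Ok) {t : Finset Pt} (ht : t ∈ D.canon) {x : Pt} (hx : x ∈ t) :
    ∃ X Y, x = D.pt X Y ∧ D.Loc X Y := by
  have h2 := hok.two_h
  have hh := hok.pos
  have hp : (0:ℤ) ≤ D.p := by positivity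
  have hq : (0:ℤ) ≤ D.q := by positivity
  rw [hok.canon_eq] at ht
  simp only [mem_union, mem_insert, mem_singleton, mem_image, mem_range] at ht
  rcases ht with ((((rfl | rfl) | ⟨i, hi, rfl⟩) | ⟨i, hi, rfl⟩) | ⟨j, hj, rfl⟩) | ⟨j, hj, rfl⟩ <;>
    simp only [mem_insert, mem_singleton] at hx <;> rcases hx with rfl | rfl | rfl <;>
    refine ⟨_, _, rfl, ?_⟩ <;> unfold BoxD.Loc <;> omega

theorem refill_disj {n : ℕ} {T : Finset (Finset Pt)} (hT : UT n T) {F : Finset BoxD} (hF : Fam n T F) :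
    (∀ D ∈ F, Disjoint (D.canon) (T \ F.biUnion (fun D => D.BT T))) ∧
    (∀ D ∈ F, ∀ D' ∈ F, D ≠ D' → Disjoint D.canon D'.canon) := by
  constructor
  · intro D hD
    rw [Finset.disjoint_left]
    intro t h1 h2
    rw [Finset.mem_sdiff] at h2
    obtain ⟨z, hz, hzt⟩ := exists_gen_interior ((hF.box D hD).ok.canon_pos h1)
    obtain ⟨s, hs, hzs⟩ := exists_of_canon hT (hF.box D hD) hz h1 hzt
    have := hT.eq_of_interior (IsBox.BT_sub D T hs) h2.1 hzs hzt
    subst this
    exact h2.2 (mem_biUnion.2 ⟨D, hD, hs⟩)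
  · intro D hD D' hD' hne
    rw [Finset.disjoint_left]
    intro t h1 h2
    obtain ⟨z, hz, hzt⟩ := exists_gen_interior ((hF.box D hD).ok.canon_pos h1)
    obtain ⟨s, hs, hzs⟩ := exists_of_canon hT (hF.box D hD) hz h1 hzt
    obtain ⟨s', hs', hzs'⟩ := exists_of_canon hT (hF.box D' hD') hz h2 hzt
    have := hT.eq_of_interior (IsBox.BT_sub D T hs) (IsBox.BT_sub D' T hs') hzs hzs'
    subst this
    exact Finset.disjoint_left.1 (hF.disj D hD D' hD' hne) hs hs'

theorem refill_UT {n : ℕ} {T : Finset (Finset Pt)} (hT : UT n T) {F : Finset BoxD} (hF : Fam n T F) :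
    UT n (refill T F) := by
  apply ut_of_gen (UT.pos_n hT)
  · intro t ht
    rw [refill, mem_union, mem_biUnion] at ht
    rcases ht with ht | ⟨D, hD, ht⟩
    · obtain ⟨p, q, r, rfl, h⟩ := hT.exists_pos (Finset.mem_sdiff.1 ht).1
      exact ⟨p, q, r, rfl, h.2⟩
    · exact (hF.box D hD).ok.canon_pos ht
  · intro t ht p hp
    rw [refill, mem_union, mem_biUnion] at ht
    rcases ht with ht | ⟨D, hD, ht⟩
    · exact hT.insq (Finset.mem_sdiff.1 ht).1 hp
    · obtain ⟨X, Y, rfl, hl⟩ := (hF.box D hD).ok.canon_loc ht hp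
      exact (hF.box D hD).insq_pt hT hl
  · intro z hz hs
    obtain ⟨t₀, ht₀, hz₀⟩ := exists_hit hT hz hs
    have uniq : ∀ t ∈ T, z ∈ interior (cell t) → t = t₀ := fun t ht h => hT.eq_of_interior ht ht₀ h hz₀
    rw [Finset.card_eq_one]
    by_cases hc : ∃ D ∈ F, t₀ ∈ D.BT T
    · obtain ⟨D, hD, hD0⟩ := hc
      have h1 : (hit z (D.BT T)).card = 1 := by
        rw [Finset.card_eq_one]
        refine ⟨t₀, ?_⟩
        ext s
        rw [mem_hit, mem_singleton]
        constructor
        · rintro ⟨h1, h2⟩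
          exact uniq s (IsBox.BT_sub D T h1) h2
        · rintro rfl
          exact ⟨hD0, hz₀⟩
      rw [hit_eq hT (hF.box D hD) hz, Finset.card_eq_one] at h1
      obtain ⟨s₀, hs₀⟩ := h1
      have hs₁ : s₀ ∈ D.canon ∧ z ∈ interior (cell s₀) := by
        rw [← mem_hit, hs₀]; simp
      refine ⟨s₀, ?_⟩
      ext s
      rw [mem_hit, mem_singleton, refill, mem_union, mem_biUnion, Finset.mem_sdiff]
      constructor
      · rintro ⟨⟨h1, h2⟩ | ⟨D', hD', h1⟩, h3⟩
        · exfalso
          apply h2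
          rw [uniq s h1 h3]
          exact mem_biUnion.2 ⟨D, hD, hD0⟩
        · obtain ⟨u, hu, hzu⟩ := exists_of_canon hT (hF.box D' hD') hz h1 h3
          have e1 := uniq u (IsBox.BT_sub D' T hu) hzu
          subst e1
          have e2 : D' = D := by
            by_contra hne
            exact Finset.disjoint_left.1 (hF.disj D' hD' D hD hne) hu hD0
          subst e2
          have : s ∈ hit z D'.canon := mem_hit.2 ⟨h1, h3⟩
          rw [hs₀] at this
          simpa using this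
      · rintro rfl
        exact ⟨Or.inr ⟨D, hD, hs₁.1⟩, hs₁.2⟩
    · refine ⟨t₀, ?_⟩
      ext s
      rw [mem_hit, mem_singleton, refill, mem_union, mem_biUnion, Finset.mem_sdiff]
      constructor
      · rintro ⟨⟨h1, h2⟩ | ⟨D', hD', h1⟩, h3⟩
        · exact uniq s h1 h3
        · obtain ⟨u, hu, hzu⟩ := exists_of_canon hT (hF.box D' hD') hz h1 h3
          have e1 := uniq u (IsBox.BT_sub D' T hu) hzu
          subst e1
          exact absurd ⟨D', hD', hu⟩ hc
      · rintro rfl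
        refine ⟨Or.inl ⟨ht₀, ?_⟩, hz₀⟩
        rw [mem_biUnion]
        exact hc

end Pool.Agent.IT
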