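import Mathlib

/-!
# MP_da73da_co (S11801), module BoxNum (M14)

The number of admissible filling codes of a box is at most `4 (100/49)^(2(p+q))`, by a potential function on
the state `k = α + β - 2 i` of the frontier recursion.
-/

set_option autoImplicit false

namespace Pool.Agent.IT.BoxNum

open Finset

/-- admissible filling code of a box with side lengths `p, q` and `h` middle vertices: for the gap `i`
(`1 ≤ i < h`) between the middle vertices `i-1` and `i`, `f i = (α, β, flag)` -/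
structure CodeOk (p q h : ℕ) (f : ℕ → ℕ × ℕ × Bool) : Prop where
  lea : ∀ i, 1 ≤ i → i < h → (f i).1 ≤ p
  leb : ∀ i, 1 ≤ i → i < h → (f i).2.1 ≤ q
  mona : ∀ i, 1 ≤ i → i + 1 < h → (f i).1 ≤ (f (i + 1)).1
  monb : ∀ i, 1 ≤ i → i + 1 < h → (f i).2.1 ≤ (f (i + 1)).2.1
  flag : ∀ i, 1 ≤ i → i < h → (f i).2.2 = true → (f i).1 + (f i).2.1 = 2 * i

/-- lists of codes for `m` consecutive gaps starting with gap `i` -/
def Seqs (p q : ℕ) : ℕ → ℕ → ℕ → ℕ → Finset (List (ℕ × ℕ × Bool))
  | 0, _, _, _ => {[]}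
  | m + 1, i, a, b =>
    (((Finset.Icc a p) ×ˢ ((Finset.Icc b q) ×ˢ (Finset.univ : Finset Bool))).filter
      (fun t => t.2.2 = true → t.1 + t.2.1 = 2 * i)).biUnion
      (fun t => (Seqs p q m (i + 1) t.1 t.2.1).image (fun l => t :: l))

/-- weighted number of codes -/
def A (p q : ℕ) : ℕ → ℕ → ℕ → ℕ → ℕ
  | 0, _, _, _ => 1
  | m + 1, i, a, b =>
    ∑ a' ∈ Finset.Icc a p, ∑ b' ∈ Finset.Icc b q,
      (if a' + b' = 2 * i then 2 else 1) * A p q m (i + 1) a' b'

theorem card_Seqs (p q : ℕ) : ∀ m i a b : ℕ, (Seqs p q m i a b).card ≤ A p q m i a b := by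
  intro m
  induction m with
  | zero => intro i a b; simp [Seqs, A]
  | succ m ih =>
    intro i a b
    have h1 : (Seqs p q (m + 1) i a b).card ≤
        ∑ t ∈ ((Finset.Icc a p) ×ˢ ((Finset.Icc b q) ×ˢ (Finset.univ : Finset Bool))).filter
          (fun t => t.2.2 = true → t.1 + t.2.1 = 2 * i), A p q m (i + 1) t.1 t.2.1 := by
      rw [Seqs]
      refine Finset.card_biUnion_le.trans (Finset.sum_le_sum ?_)
      intro t _
      exact Finset.card_image_le.trans (ih _ _ _)
    refine h1.trans (le_of_eq ?_)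
    rw [Finset.sum_filter, Finset.sum_product, A]
    refine Finset.sum_congr rfl ?_
    intro a' _
    rw [Finset.sum_product]
    refine Finset.sum_congr rfl ?_
    intro b' _
    simp only [Fintype.sum_bool]
    by_cases hk : a' + b' = 2 * i
    · simp [hk]; ring
    · simp [hk]

theorem mem_Seqs {p q h : ℕ} {f : ℕ → ℕ × ℕ × Bool} (hf : CodeOk p q h f) :
    ∀ m i a b : ℕ, 1 ≤ i → i + m ≤ h → (i < h → a ≤ (f i).1 ∧ b ≤ (f i).2.1) →
      (List.range' i m).map f ∈ Seqs p q m i a b := by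
  intro m
  induction m with
  | zero => intro i a b _ _ _; simp [Seqs]
  | succ m ih =>
    intro i a b hi him hab
    have hih : i < h := by omega
    rw [Seqs]
    simp only [List.range'_succ, List.map_cons]
    refine Finset.mem_biUnion.2 ⟨f i, ?_, ?_⟩
    · refine Finset.mem_filter.2 ⟨?_, hf.flag i hi hih⟩
      refine Finset.mem_product.2 ⟨Finset.mem_Icc.2 ⟨(hab hih).1, hf.lea i hi hih⟩, ?_⟩
      exact Finset.mem_product.2 ⟨Finset.mem_Icc.2 ⟨(hab hih).2, hf.leb i hi hih⟩, Finset.mem_univ _⟩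
    · refine Finset.mem_image.2 ⟨(List.range' (i + 1) m).map f, ?_, rfl⟩
      refine ih (i + 1) _ _ (by omega) (by omega) ?_
      intro hlt
      exact ⟨hf.mona i hi hlt, hf.monb i hi hlt⟩

/-! ### The potential -/

/-- potential for the states `(α ≥ a, β ≥ b)` -/
def g0 (k : ℤ) : ℕ :=
  if k < -10 then 1000 else if 10 < k then 1000 else
  [1000, 1034, 1110, 1230, 1397, 1617, 1892, 2219, 2574, 2884, 2942, 2219, 1954, 1617, 1408, 1230, 1112,
    1034, 1000, 1000, 1000].getD (k + 10).toNat 1000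

/-- potential for the states `(α = a, β ≥ b)` -/
def gM (k : ℤ) : ℕ :=
  if k < -10 then 1000 else if 10 < k then 1000 else
  [1000, 1000, 1035, 1112, 1234, 1408, 1642, 1954, 2369, 2942, 3784, 2574, 2369, 1892, 1642, 1397, 1234,
    1110, 1035, 1000, 1000].getD (k + 10).toNat 1000

theorem g0_out (k : ℤ) (h : k < -10 ∨ 10 < k) : g0 k = 1000 := by
  unfold g0
  rcases h with h | h
  · simp [h]
  · by_cases h' : k < -10
    · simp [h']
    · simp [h', h]

theorem gM_out (k : ℤ) (h : k < -10 ∨ 10 < k) : gM k = 1000 := by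
  unfold gM
  rcases h with h | h
  · simp [h]
  · by_cases h' : k < -10
    · simp [h']
    · simp [h', h]

theorem g0_ineq (k : ℤ) : 49 * (g0 (k + 1) + gM k) ≤ 100 * g0 k := by
  by_cases h1 : k < -11
  · rw [g0_out (k + 1) (by omega), gM_out k (by omega), g0_out k (by omega)]; norm_num
  by_cases h2 : 10 < k
  · rw [g0_out (k + 1) (by omega), gM_out k (by omega), g0_out k (by omega)]; norm_num
  have h3 : -11 ≤ k := by omega
  have h4 : k ≤ 10 := by omega
  interval_cases k <;> decide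

theorem gM_ineq (k : ℤ) : 49 * (gM (k + 1) + (if k = 0 then 2 else 1) * g0 (k - 2)) ≤ 100 * gM k := by
  by_cases h1 : k < -11
  · rw [gM_out (k + 1) (by omega), g0_out (k - 2) (by omega), gM_out k (by omega), if_neg (by omega)]
    norm_num
  by_cases h2 : 12 < k
  · rw [gM_out (k + 1) (by omega), g0_out (k - 2) (by omega), gM_out k (by omega), if_neg (by omega)]
    norm_num
  have h3 : -11 ≤ k := by omega
  have h4 : k ≤ 12 := by omega
  interval_cases k <;> decide

theorem g0_ge (k : ℤ) : 1000 ≤ g0 k := by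
  by_cases h1 : k < -10
  · rw [g0_out k (by omega)]
  by_cases h2 : 10 < k
  · rw [g0_out k (by omega)]
  have h3 : -10 ≤ k := by omega
  have h4 : k ≤ 10 := by omega
  interval_cases k <;> decide

/-! ### The bound -/

/-- `A ≤ (g0 k / 1000) y^(steps)` -/
theorem A_le (p q : ℕ) : ∀ m i a b d c : ℕ, p + 1 = a + d → q + 1 = b + c →
    (1000 : ℝ) * (A p q m i a b : ℝ) ≤
      (g0 ((a : ℤ) + b - 2 * i) : ℝ) * (100 / 49 : ℝ) ^ (d + c + 2 * m) := by
  intro m
  induction m with
  | zero =>
    intro i a b d c _ _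
    have h1 : (1 : ℝ) ≤ (100 / 49 : ℝ) ^ (d + c + 2 * 0) := one_le_pow₀ (by norm_num)
    have h2 : (1000 : ℝ) ≤ (g0 ((a : ℤ) + b - 2 * i) : ℝ) := by exact_mod_cast g0_ge _
    simp only [A, Nat.cast_one, mul_one]
    nlinarith
  | succ m ih =>
    intro i
    -- inner claim
    have inner : ∀ c a b d : ℕ, p + 1 = a + (d + 1) → q + 1 = b + c →
        (1000 : ℝ) * ((∑ b' ∈ Finset.Icc b q,
          (if a + b' = 2 * i then 2 else 1) * A p q m (i + 1) a b' : ℕ) : ℝ) ≤
        (gM ((a : ℤ) + b - 2 * i) : ℝ) * (100 / 49 : ℝ) ^ (d + 1 + c + 2 * m + 1) := by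
      intro c
      induction c with
      | zero =>
        intro a b d _ hb
        rw [Finset.Icc_eq_empty (by omega)]
        simp only [Finset.sum_empty, Nat.cast_zero, mul_zero]
        positivity
      | succ c ihc =>
        intro a b d ha hb
        have hbq : b ≤ q := by omega
        have hsplit : Finset.Icc b q = insert b (Finset.Icc (b + 1) q) := by
          ext z; simp only [Finset.mem_Icc, Finset.mem_insert]; omega
        have hnot : b ∉ Finset.Icc (b + 1) q := by simp
        rw [hsplit, Finset.sum_insert hnot]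
        have h1 := ihc a (b + 1) d ha (by omega)
        have h2 := ih (i + 1) a b (d + 1) (c + 1) ha (by omega)
        set y : ℝ := (100 / 49 : ℝ) with hy
        have hk := gM_ineq ((a : ℤ) + b - 2 * i)
        have hk' : (49 : ℝ) * ((gM ((a : ℤ) + b - 2 * i + 1) : ℝ) +
            ((if (a : ℤ) + b - 2 * i = 0 then 2 else 1 : ℕ) : ℝ) * (g0 ((a : ℤ) + b - 2 * i - 2) : ℝ)) ≤
            100 * (gM ((a : ℤ) + b - 2 * i) : ℝ) := by exact_mod_cast hk
        have hw : (if (a : ℤ) + b - 2 * i = 0 then 2 else 1 : ℕ) = (if a + b = 2 * i then 2 else 1) := by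
          by_cases hc : a + b = 2 * i
          · rw [if_pos hc, if_pos (by omega)]
          · rw [if_neg hc, if_neg (by omega)]
        rw [hw] at hk'
        have e1 : ((a : ℤ) + ((b + 1 : ℕ) : ℤ) - 2 * i) = (a : ℤ) + b - 2 * i + 1 := by push_cast; ring
        have e2 : ((a : ℤ) + (b : ℤ) - 2 * ((i + 1 : ℕ) : ℤ)) = (a : ℤ) + b - 2 * i - 2 := by
          push_cast; ring
        rw [e1] at h1
        rw [e2] at h2
        set w : ℕ := (if a + b = 2 * i then 2 else 1) with hwdef
        have hw0 : (0 : ℝ) ≤ (w : ℝ) := Nat.cast_nonneg _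
        have hP : (0 : ℝ) < y ^ (d + 1 + c + 2 * m + 1) := by positivity
        have p1 : y ^ (d + 1 + (c + 1) + 2 * m + 1) = y ^ (d + 1 + c + 2 * m + 1) * y := by
          rw [← pow_succ]; congr 1; ring
        have p2 : y ^ (d + 1 + (c + 1) + 2 * m) = y ^ (d + 1 + c + 2 * m + 1) := by
          congr 1; ring
        rw [p2] at h2
        rw [p1]
        push_cast
        push_cast at h1
        have h3 : (1000 : ℝ) * ((w : ℝ) * (A p q m (i + 1) a b : ℝ)) ≤
            (w : ℝ) * ((g0 ((a : ℤ) + b - 2 * i - 2) : ℝ) * y ^ (d + 1 + c + 2 * m + 1)) := by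
          have := mul_le_mul_of_nonneg_left h2 hw0
          linarith
        have h4 : ((gM ((a : ℤ) + b - 2 * i + 1) : ℝ) +
            (w : ℝ) * (g0 ((a : ℤ) + b - 2 * i - 2) : ℝ)) ≤ y * (gM ((a : ℤ) + b - 2 * i) : ℝ) := by
          rw [hy]; linarith
        have h5 := mul_le_mul_of_nonneg_right h4 hP.le
        nlinarith [h1, h3, h5]
    -- outer claim
    have outer : ∀ d a b c : ℕ, p + 1 = a + d → q + 1 = b + c →
        (1000 : ℝ) * ((∑ a' ∈ Finset.Icc a p, ∑ b' ∈ Finset.Icc b q,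
          (if a' + b' = 2 * i then 2 else 1) * A p q m (i + 1) a' b' : ℕ) : ℝ) ≤
        (g0 ((a : ℤ) + b - 2 * i) : ℝ) * (100 / 49 : ℝ) ^ (d + c + 2 * (m + 1)) := by
      intro d
      induction d with
      | zero =>
        intro a b c ha _
        rw [Finset.Icc_eq_empty (by omega)]
        simp only [Finset.sum_empty, Nat.cast_zero, mul_zero]
        positivity
      | succ d ihd =>
        intro a b c ha hb
        have hsplit : Finset.Icc a p = insert a (Finset.Icc (a + 1) p) := by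
          ext z; simp only [Finset.mem_Icc, Finset.mem_insert]; omega
        have hnot : a ∉ Finset.Icc (a + 1) p := by simp
        rw [hsplit, Finset.sum_insert hnot]
        have h1 := ihd (a + 1) b c (by omega) hb
        have h2 := inner c a b d ha hb
        have hk := g0_ineq ((a : ℤ) + b - 2 * i)
        have hk' : (49 : ℝ) * ((g0 ((a : ℤ) + b - 2 * i + 1) : ℝ) + (gM ((a : ℤ) + b - 2 * i) : ℝ)) ≤
            100 * (g0 ((a : ℤ) + b - 2 * i) : ℝ) := by exact_mod_cast hk
        have e1 : (((a + 1 : ℕ) : ℤ) + (b : ℤ) - 2 * i) = (a : ℤ) + b - 2 * i + 1 := by push_cast; ring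
        rw [e1] at h1
        set y : ℝ := (100 / 49 : ℝ) with hy
        have hP : (0 : ℝ) < y ^ (d + c + 2 * (m + 1)) := by positivity
        have p1 : y ^ (d + 1 + c + 2 * (m + 1)) = y ^ (d + c + 2 * (m + 1)) * y := by
          rw [← pow_succ]; congr 1; ring
        have p2 : y ^ (d + 1 + c + 2 * m + 1) = y ^ (d + c + 2 * (m + 1)) := by
          congr 1; ring
        rw [p2] at h2
        rw [p1]
        have h4 : ((g0 ((a : ℤ) + b - 2 * i + 1) : ℝ) + (gM ((a : ℤ) + b - 2 * i) : ℝ)) ≤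
            y * (g0 ((a : ℤ) + b - 2 * i) : ℝ) := by
          rw [hy]; linarith
        have h5 := mul_le_mul_of_nonneg_right h4 hP.le
        rw [Nat.cast_add]
        nlinarith [h1, h2, h5]
    intro a b d c ha hb
    have := outer d a b c ha hb
    rw [A]
    exact this

/-- M14: the number of admissible filling codes -/
theorem card_bound (p q h : ℕ) (hpq : h + h = p + q) (hh : 0 < h) :
    ((Seqs p q (h - 1) 1 0 0).card : ℝ) ≤ 3 * (100 / 49 : ℝ) ^ (2 * (p + q)) := by
  have h1 := A_le p q (h - 1) 1 0 0 (p + 1) (q + 1) (by ring) (by ring)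
  have h2 : ((Seqs p q (h - 1) 1 0 0).card : ℝ) ≤ (A p q (h - 1) 1 0 0 : ℝ) := by
    exact_mod_cast card_Seqs p q (h - 1) 1 0 0
  have e : p + 1 + (q + 1) + 2 * (h - 1) = 2 * (p + q) := by omega
  rw [e] at h1
  have hg : g0 (((0 : ℕ) : ℤ) + ((0 : ℕ) : ℤ) - 2 * ((1 : ℕ) : ℤ)) = 2574 := by decide
  rw [hg] at h1
  have hP : (0 : ℝ) < (100 / 49 : ℝ) ^ (2 * (p + q)) := by positivity
  push_cast at h1
  nlinarith

/-- M14 in the form used for boxes: a set of objects encoded injectively by admissible codes -/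
theorem box_num {ι : Type*} (X : Set ι) (p q h : ℕ) (hpq : h + h = p + q) (hh : 0 < h)
    (f : ι → ℕ → ℕ × ℕ × Bool) (hf : ∀ x ∈ X, CodeOk p q h (f x))
    (hinj : ∀ x ∈ X, ∀ y ∈ X, (∀ i, 1 ≤ i → i < h → f x i = f y i) → x = y) :
    (X.ncard : ℝ) ≤ 4 * (100 / 49 : ℝ) ^ (2 * (p + q)) := by
  have h1 : X.ncard ≤ (Seqs p q (h - 1) 1 0 0).card := by
    have h2 : X.ncard ≤ ((Seqs p q (h - 1) 1 0 0 : Finset _) : Set (List (ℕ × ℕ × Bool))).ncard := by
      refine Set.ncard_le_ncard_of_injOn (fun x => (List.range' 1 (h - 1)).map (f x)) ?_ ?_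
        (Finset.finite_toSet _)
      · intro x hx
        exact mem_Seqs (hf x hx) (h - 1) 1 0 0 le_rfl (by omega)
          (fun _ => ⟨Nat.zero_le _, Nat.zero_le _⟩)
      · intro x hx y hy hxy
        refine hinj x hx y hy ?_
        intro i hi1 hi2
        have hmem : i ∈ List.range' 1 (h - 1) := by
          rw [List.mem_range'_1]; omega
        exact List.map_inj_left.1 hxy i hmem
    rwa [Set.ncard_coe_finset] at h2
  have h3 := card_bound p q h hpq hh
  have h4 : (X.ncard : ℝ) ≤ ((Seqs p q (h - 1) 1 0 0).card : ℝ) := by exact_mod_cast h1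
  have hP : (0 : ℝ) < (100 / 49 : ℝ) ^ (2 * (p + q)) := by positivity
  nlinarith

end Pool.Agent.IT.BoxNum
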