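import Mathlib

/-!
# Codes of the fillings of a box (interface between IT/BoxSeq and IT/BoxNum)
-/

set_option autoImplicit false

namespace Pool.Agent.IT

/-- `L` lists the gaps `i, i+1, ...` of a box with lower side of length `p` and upper side of length `q`;
`(α, β, f)`: apexes `a + α e`, `b + β e` of the gap, `f = true` for a crossing edge (then
`α + β = 2 i`), `f = false` for a unit edge; `(a, b)` are the apexes of the previous gap. -/
def SeqOK (p q : ℕ) : ℕ → ℕ → ℕ → List (ℕ × ℕ × Bool) → Prop
  | _, _, _, [] => True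
  | i, a, b, (α, β, f) :: L =>
      a ≤ α ∧ α ≤ p ∧ b ≤ β ∧ β ≤ q ∧ (f = true → α + β = 2 * i) ∧ SeqOK p q (i + 1) α β L

end Pool.Agent.IT
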