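import Pool.Agent.IT.BoxNum
import Pool.Agent.IT.SeqDef

/-!
# MP_da73da_co (S11801), module BoxNum (M14), list form of the count
-/

set_option autoImplicit false

namespace Pool.Agent.IT

theorem mem_Seqs_of_SeqOK (p q : ℕ) : ∀ (m i a b : ℕ) (L : List (ℕ × ℕ × Bool)), L.length = m →
    SeqOK p q i a b L → L ∈ BoxNum.Seqs p q m i a b := by
  intro m
  induction m with
  | zero =>
    intro i a b L hL _
    have : L = [] := List.length_eq_zero_iff.1 hL
    subst this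
    simp [BoxNum.Seqs]
  | succ m ih =>
    intro i a b L hL hok
    match L, hL, hok with
    | (x, y, f) :: L, hL, hok =>
      obtain ⟨h1, h2, h3, h4, h5, h6⟩ := hok
      rw [BoxNum.Seqs]
      refine Finset.mem_biUnion.2 ⟨(x, y, f), ?_, ?_⟩
      · refine Finset.mem_filter.2 ⟨?_, h5⟩
        refine Finset.mem_product.2 ⟨Finset.mem_Icc.2 ⟨h1, h2⟩, ?_⟩
        exact Finset.mem_product.2 ⟨Finset.mem_Icc.2 ⟨h3, h4⟩, Finset.mem_univ _⟩
      · refine Finset.mem_image.2 ⟨L, ?_, rfl⟩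
        exact ih (i + 1) x y L (by simpa using hL) h6

/-- number of admissible codes, list form -/
theorem seq_count (p q h : ℕ) (hh : p + q = 2 * h) (h0 : 0 < h) :
    {L : List (ℕ × ℕ × Bool) | L.length = h - 1 ∧ SeqOK p q 1 0 0 L}.Finite ∧
    (({L : List (ℕ × ℕ × Bool) | L.length = h - 1 ∧ SeqOK p q 1 0 0 L}).ncard : ℝ) ≤
      4 * (100 / 49 : ℝ) ^ (2 * (p + q)) := by
  have hsub : {L : List (ℕ × ℕ × Bool) | L.length = h - 1 ∧ SeqOK p q 1 0 0 L} ⊆
      ((BoxNum.Seqs p q (h - 1) 1 0 0 : Finset _) : Set (List (ℕ × ℕ × Bool))) := by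
    intro L hL
    exact mem_Seqs_of_SeqOK p q (h - 1) 1 0 0 L hL.1 hL.2
  refine ⟨(Finset.finite_toSet _).subset hsub, ?_⟩
  have h1 := Set.ncard_le_ncard hsub (Finset.finite_toSet _)
  rw [Set.ncard_coe_finset] at h1
  have h2 := BoxNum.card_bound p q h (by omega) h0
  have h4 : (({L : List (ℕ × ℕ × Bool) | L.length = h - 1 ∧ SeqOK p q 1 0 0 L}).ncard : ℝ) ≤
      ((BoxNum.Seqs p q (h - 1) 1 0 0).card : ℝ) := by exact_mod_cast h1
  have hP : (0 : ℝ) < (100 / 49 : ℝ) ^ (2 * (p + q)) := by positivity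
  nlinarith

end Pool.Agent.IT
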