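import Pool.Agent.IT.BoxStar
import Pool.Agent.IT.BoxNum

/-!
# M13: the fillings of a box are coded by sequences
-/

set_option autoImplicit false

namespace Pool.Agent.IT

variable {n : ℕ} {T T' : Finset (Finset Pt)} {D : BoxD}

/-- the left side of the vertex `mid i` -/
def LeftG (T : Finset (Finset Pt)) (D : BoxD) (i : ℕ) (α β : ℤ) (f : Bool) : Prop :=
  (f = true ∧ Pos T (D.pt i 1) (D.pt β 2) (D.pt α 0)) ∨
  (f = false ∧ Pos T (D.pt i 1) (D.pt (i - 1) 1) (D.pt α 0) ∧
    Pos T (D.pt i 1) (D.pt β 2) (D.pt (i - 1) 1))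

/-- the right side of the vertex `mid i` -/
def RightG (T : Finset (Finset Pt)) (D : BoxD) (i : ℕ) (α β : ℤ) (f : Bool) : Prop :=
  (f = true ∧ Pos T (D.pt i 1) (D.pt α 0) (D.pt β 2)) ∨
  (f = false ∧ Pos T (D.pt i 1) (D.pt α 0) (D.pt (i + 1) 1) ∧
    Pos T (D.pt i 1) (D.pt (i + 1) 1) (D.pt β 2))

/-- data of the filling of a box -/
structure Dat (T : Finset (Finset Pt)) (D : BoxD) (α β : ℕ → ℤ) (f : ℕ → Bool) : Prop where
  a0 : α 0 = 0
  b0 : β 0 = -1
  f0 : f 0 = true
  ah : α D.h = D.p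
  bh : β D.h = D.q - 1
  fh : f D.h = true
  left : ∀ i < D.h, LeftG T D i (α i) (β i) (f i)
  right : ∀ i < D.h, RightG T D i (α (i + 1)) (β (i + 1)) (f (i + 1))

theorem gap_exists (hT : UT n T) (hD : IsBox n T D) {i : ℕ} (hi : i + 1 < D.h) :
    ∃ (α β : ℤ) (f : Bool), RightG T D i α β f ∧ LeftG T D (i + 1) α β f := by
  have hok := hD.ok
  have e0 : ((i + 1 : ℕ) : ℤ) = i + 1 := by push_cast; ring
  rcases hD.gapR hT (i := i) (by omega) with ⟨_, h⟩ | ⟨α, β, hs, h⟩
  · have hI := hD.int i (by omega)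
    rw [BoxD.Ok.pt_mid] at hI
    obtain ⟨r, hr⟩ := h.left_of_inner hT hI
    obtain ⟨z, hz⟩ := h.right_of_inner hT hI
    obtain ⟨β, V, rfl⟩ := hok.exists_pt r
    obtain ⟨α, V', rfl⟩ := hok.exists_pt z
    have h1 := hr.2
    have h2 := hz.2
    rw [hok.det_pt] at h1 h2
    have e1 : V = 2 := by nlinarith
    have e2 : V' = 0 := by nlinarith
    subst e1 e2
    refine ⟨α, β, false, Or.inr ⟨rfl, hz.cyc, hr⟩, Or.inr ⟨rfl, ?_, ?_⟩⟩
    · have e3 : (((i + 1 : ℕ) : ℤ) - 1) = i := by rw [e0]; ring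
      rw [e3, e0]; exact hz
    · have e3 : (((i + 1 : ℕ) : ℤ) - 1) = i := by rw [e0]; ring
      rw [e3, e0]; exact hr.cyc
  · refine ⟨α, β, true, Or.inl ⟨rfl, h⟩, Or.inl ⟨rfl, ?_⟩⟩
    exact hD.crossL hT (i := i + 1) hi h.cyc.edge (by push_cast; omega)

theorem dat_exists (hT : UT n T) (hD : IsBox n T D) : ∃ α β f, Dat T D α β f := by
  have hok := hD.ok
  have hpos := hok.pos
  have key : ∀ g : ℕ, ∃ x : ℤ × ℤ × Bool,
      (g = 0 → x = (0, -1, true)) ∧ (g = D.h → x = ((D.p : ℤ), (D.q : ℤ) - 1, true)) ∧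
      (g < D.h → LeftG T D g x.1 x.2.1 x.2.2) ∧
      (∀ i, g = i + 1 → i < D.h → RightG T D i x.1 x.2.1 x.2.2) := by
    intro g
    rcases Nat.eq_zero_or_pos g with rfl | hg
    · refine ⟨(0, -1, true), fun _ => rfl, fun h => absurd h (by omega), fun _ => Or.inl ⟨rfl, ?_⟩,
        fun i h => absurd h (by omega)⟩
      have := hD.first hT
      simpa using this
    obtain ⟨i, rfl⟩ : ∃ i, g = i + 1 := ⟨g - 1, by omega⟩
    by_cases hgh : i + 1 < D.h
    · obtain ⟨α, β, f, h1, h2⟩ := gap_exists hT hD hgh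
      refine ⟨(α, β, f), fun h => absurd h (by omega), fun h => absurd h (by omega), fun _ => h2, ?_⟩
      intro j hj _
      obtain rfl : i = j := by omega
      exact h1
    · by_cases he : i + 1 = D.h
      · refine ⟨((D.p : ℤ), (D.q : ℤ) - 1, true), fun h => absurd h (by omega), fun _ => rfl,
          fun h => absurd h (by omega), ?_⟩
        intro j hj _
        obtain rfl : i = j := by omega
        have := hD.last hT
        have e : (D.h : ℤ) - 1 = i := by omega
        rw [e] at this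
        exact Or.inl ⟨rfl, this⟩
      · exact ⟨(0, 0, true), fun h => absurd h (by omega), fun h => absurd h he,
          fun h => absurd h (by omega), fun j hj hj' => absurd hj (by omega)⟩
  choose x hx using key
  refine ⟨fun g => (x g).1, fun g => (x g).2.1, fun g => (x g).2.2, ?_⟩
  have h0 := (hx 0).1 rfl
  have hh := (hx D.h).2.1 rfl
  exact ⟨by simp only [h0], by simp only [h0], by simp only [h0], by simp only [hh],
    by simp only [hh], by simp only [hh], fun i hi => (hx i).2.2.1 hi,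
    fun i hi => (hx (i + 1)).2.2.2 i rfl hi⟩

/-- lower rays at `mid i` are on the right of the left gap -/
theorem LeftG.low (hT : UT n T) (hok : D.Ok) {i : ℕ} {α β : ℤ} {f : Bool} (h : LeftG T D i α β f)
    {X : ℤ} (hX : IsEdge T (D.pt i 1) (D.pt X 0)) : α ≤ X := by
  by_contra hlt
  rcases h with ⟨_, h⟩ | ⟨_, h, _⟩
  · have hd := h.2
    rw [hok.det_pt] at hd
    apply h.no_cone hT hX
    · rw [hok.det_pt]; linarith
    · rw [hok.det_pt]; linarith
  · apply h.no_cone hT hX
    · rw [hok.det_pt]; linarith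
    · rw [hok.det_pt]; linarith

theorem LeftG.upp (hT : UT n T) (hok : D.Ok) {i : ℕ} {α β : ℤ} {f : Bool} (h : LeftG T D i α β f)
    {X : ℤ} (hX : IsEdge T (D.pt i 1) (D.pt X 2)) : β ≤ X := by
  by_contra hlt
  rcases h with ⟨_, h⟩ | ⟨_, _, h⟩
  · have hd := h.2
    rw [hok.det_pt] at hd
    apply h.no_cone hT hX
    · rw [hok.det_pt]; linarith
    · rw [hok.det_pt]; linarith
  · apply h.no_cone hT hX
    · rw [hok.det_pt]; linarith
    · rw [hok.det_pt]; linarith

theorem RightG.low (hT : UT n T) (hok : D.Ok) {i : ℕ} {α β : ℤ} {f : Bool} (h : RightG T D i α β f)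
    {X : ℤ} (hX : IsEdge T (D.pt i 1) (D.pt X 0)) : X ≤ α := by
  by_contra hlt
  rcases h with ⟨_, h⟩ | ⟨_, h, _⟩
  · have hd := h.2
    rw [hok.det_pt] at hd
    apply h.no_cone hT hX
    · rw [hok.det_pt]; linarith
    · rw [hok.det_pt]; linarith
  · apply h.no_cone hT hX
    · rw [hok.det_pt]; linarith
    · rw [hok.det_pt]; linarith

theorem RightG.upp (hT : UT n T) (hok : D.Ok) {i : ℕ} {α β : ℤ} {f : Bool} (h : RightG T D i α β f)
    {X : ℤ} (hX : IsEdge T (D.pt i 1) (D.pt X 2)) : X ≤ β := by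
  by_contra hlt
  rcases h with ⟨_, h⟩ | ⟨_, _, h⟩
  · have hd := h.2
    rw [hok.det_pt] at hd
    apply h.no_cone hT hX
    · rw [hok.det_pt]; linarith
    · rw [hok.det_pt]; linarith
  · apply h.no_cone hT hX
    · rw [hok.det_pt]; linarith
    · rw [hok.det_pt]; linarith

theorem LeftG.edge_low {i : ℕ} {α β : ℤ} {f : Bool} (h : LeftG T D i α β f) :
    IsEdge T (D.pt i 1) (D.pt α 0) := by
  rcases h with ⟨_, h⟩ | ⟨_, h, _⟩
  · exact h.cyc'.edge'
  · exact h.cyc'.edge'

theorem LeftG.edge_upp {i : ℕ} {α β : ℤ} {f : Bool} (h : LeftG T D i α β f) :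
    IsEdge T (D.pt i 1) (D.pt β 2) := by
  rcases h with ⟨_, h⟩ | ⟨_, _, h⟩
  · exact h.edge
  · exact h.edge

theorem RightG.edge_low {i : ℕ} {α β : ℤ} {f : Bool} (h : RightG T D i α β f) :
    IsEdge T (D.pt i 1) (D.pt α 0) := by
  rcases h with ⟨_, h⟩ | ⟨_, h, _⟩
  · exact h.edge
  · exact h.edge

theorem RightG.edge_upp {i : ℕ} {α β : ℤ} {f : Bool} (h : RightG T D i α β f) :
    IsEdge T (D.pt i 1) (D.pt β 2) := by
  rcases h with ⟨_, h⟩ | ⟨_, _, h⟩
  · exact h.cyc'.edge'
  · exact h.cyc'.edge'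

/-- lower fan at `mid i` -/
theorem fan_low (hT : UT n T) (hD : IsBox n T D) {i : ℕ} (hi : i < D.h) {α β α' β' : ℤ} {f f' : Bool}
    (hl : LeftG T D i α β f) (hr : RightG T D i α' β' f') (k : ℕ) (hk : α + k < α') :
    Pos T (D.pt i 1) (D.pt (α + k) 0) (D.pt (α + k + 1) 0) := by
  have hok := hD.ok
  have hI := hD.int i hi
  rw [BoxD.Ok.pt_mid] at hI
  have hedge : IsEdge T (D.pt i 1) (D.pt (α + k) 0) := by
    induction k with
    | zero => simpa using hl.edge_low
    | succ k ih =>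
      have h1 : α + k < α' := by push_cast at hk; omega
      have h2 := ih h1
      -- same argument as below
      obtain ⟨r, hr'⟩ := h2.left_of_inner hT hI
      obtain ⟨U, V, rfl⟩ := hok.exists_pt r
      have hV := hD.level (X := U) (Y := V) hi hr'.1 (by simp) (by simp)
      have hd := hr'.2
      rw [hok.det_pt] at hd
      have hc : V = 0 ∨ V = 1 ∨ V = 2 := by omega
      rcases hc with rfl | rfl | rfl
      · have : U = α + ((k + 1 : ℕ) : ℤ) := by push_cast; linarith
        rw [← this]; exact hr'.cyc'.edge'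
      · exfalso
        apply hr'.no_cone hT hr.edge_low
        · rw [hok.det_pt]; linarith
        · rw [hok.det_pt]; linarith
      · exfalso
        apply hr'.no_cone hT hr.edge_low
        · rw [hok.det_pt]; linarith
        · rw [hok.det_pt]; linarith
  obtain ⟨r, hr'⟩ := hedge.left_of_inner hT hI
  obtain ⟨U, V, rfl⟩ := hok.exists_pt r
  have hV := hD.level (X := U) (Y := V) hi hr'.1 (by simp) (by simp)
  have hd := hr'.2
  rw [hok.det_pt] at hd
  have hc : V = 0 ∨ V = 1 ∨ V = 2 := by omega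
  rcases hc with rfl | rfl | rfl
  · have : U = α + k + 1 := by linarith
    rw [← this]; exact hr'
  · exfalso
    apply hr'.no_cone hT hr.edge_low
    · rw [hok.det_pt]; linarith
    · rw [hok.det_pt]; linarith
  · exfalso
    apply hr'.no_cone hT hr.edge_low
    · rw [hok.det_pt]; linarith
    · rw [hok.det_pt]; linarith

/-- upper fan at `mid i` -/
theorem fan_upp (hT : UT n T) (hD : IsBox n T D) {i : ℕ} (hi : i < D.h) {α β α' β' : ℤ} {f f' : Bool}
    (hl : LeftG T D i α β f) (hr : RightG T D i α' β' f') (k : ℕ) (hk : β + k < β') :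
    Pos T (D.pt i 1) (D.pt (β + k + 1) 2) (D.pt (β + k) 2) := by
  have hok := hD.ok
  have hI := hD.int i hi
  rw [BoxD.Ok.pt_mid] at hI
  have hstep : ∀ X : ℤ, X < β' → IsEdge T (D.pt i 1) (D.pt X 2) →
      Pos T (D.pt i 1) (D.pt (X + 1) 2) (D.pt X 2) := by
    intro X hX hE
    obtain ⟨r, hr'⟩ := hE.right_of_inner hT hI
    obtain ⟨U, V, rfl⟩ := hok.exists_pt r
    have hV := hD.level (X := U) (Y := V) hi hr'.1 (by simp) (by simp)
    have hd := hr'.2
    rw [hok.det_pt] at hd
    have hc : V = 0 ∨ V = 1 ∨ V = 2 := by omega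
    rcases hc with rfl | rfl | rfl
    · exfalso
      apply hr'.cyc.no_cone hT hr.edge_upp
      · rw [hok.det_pt]; linarith
      · rw [hok.det_pt]; linarith
    · exfalso
      apply hr'.cyc.no_cone hT hr.edge_upp
      · rw [hok.det_pt]; linarith
      · rw [hok.det_pt]; linarith
    · have : U = X + 1 := by linarith
      rw [← this]; exact hr'.cyc
  have hedge : ∀ k : ℕ, β + k < β' → IsEdge T (D.pt i 1) (D.pt (β + k) 2) := by
    intro k
    induction k with
    | zero => intro _; simpa using hl.edge_upp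
    | succ k ih =>
      intro hk
      have h1 : β + k < β' := by push_cast at hk; omega
      have h2 := hstep _ h1 (ih h1)
      have e : β + ((k + 1 : ℕ) : ℤ) = β + k + 1 := by push_cast; ring
      rw [e]; exact h2.edge
  exact hstep _ hk (hedge k hk)

/-- the triangle `t` belongs to the filling described by the data -/
def InFill (D : BoxD) (α β : ℕ → ℤ) (f : ℕ → Bool) (t : Finset Pt) : Prop :=
  ∃ i < D.h,
    (∃ k : ℕ, α i + k < α (i + 1) ∧ t = {D.pt i 1, D.pt (α i + k) 0, D.pt (α i + k + 1) 0}) ∨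
    (∃ k : ℕ, β i + k < β (i + 1) ∧ t = {D.pt i 1, D.pt (β i + k + 1) 2, D.pt (β i + k) 2}) ∨
    (f i = true ∧ t = {D.pt i 1, D.pt (β i) 2, D.pt (α i) 0}) ∨
    (f i = false ∧ t = {D.pt i 1, D.pt (i - 1) 1, D.pt (α i) 0}) ∨
    (f i = false ∧ t = {D.pt i 1, D.pt (β i) 2, D.pt (i - 1) 1}) ∨
    (f (i + 1) = true ∧ t = {D.pt i 1, D.pt (α (i + 1)) 0, D.pt (β (i + 1)) 2}) ∨
    (f (i + 1) = false ∧ t = {D.pt i 1, D.pt (α (i + 1)) 0, D.pt (i + 1) 1}) ∨
    (f (i + 1) = false ∧ t = {D.pt i 1, D.pt (i + 1) 1, D.pt (β (i + 1)) 2})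

theorem mem_BT {t : Finset Pt} : t ∈ D.BT T ↔ t ∈ T ∧ ∃ i < D.h, D.pt i 1 ∈ t := by
  unfold BoxD.BT
  rw [Finset.mem_filter]
  simp only [Finset.mem_range, BoxD.Ok.pt_mid]

theorem mem_T_of_inFill (hT : UT n T) (hD : IsBox n T D) {α β : ℕ → ℤ} {f : ℕ → Bool}
    (h : Dat T D α β f) {t : Finset Pt} (ht : InFill D α β f t) : t ∈ D.BT T := by
  obtain ⟨i, hi, ht⟩ := ht
  have hl := h.left i hi
  have hr := h.right i hi
  rw [mem_BT]
  rcases ht with ⟨k, hk, rfl⟩ | ⟨k, hk, rfl⟩ | ⟨hf, rfl⟩ | ⟨hf, rfl⟩ | ⟨hf, rfl⟩ | ⟨hf, rfl⟩ |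
    ⟨hf, rfl⟩ | ⟨hf, rfl⟩
  · exact ⟨(fan_low hT hD hi hl hr k hk).1, i, hi, by simp⟩
  · exact ⟨(fan_upp hT hD hi hl hr k hk).1, i, hi, by simp⟩
  · rcases hl with ⟨_, h1⟩ | ⟨h0, _⟩
    · exact ⟨h1.1, i, hi, by simp⟩
    · rw [hf] at h0; exact absurd h0 (by simp)
  · rcases hl with ⟨h0, _⟩ | ⟨_, h1, _⟩
    · rw [hf] at h0; exact absurd h0 (by simp)
    · exact ⟨h1.1, i, hi, by simp⟩
  · rcases hl with ⟨h0, _⟩ | ⟨_, _, h1⟩
    · rw [hf] at h0; exact absurd h0 (by simp)
    · exact ⟨h1.1, i, hi, by simp⟩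
  · rcases hr with ⟨_, h1⟩ | ⟨h0, _⟩
    · exact ⟨h1.1, i, hi, by simp⟩
    · rw [hf] at h0; exact absurd h0 (by simp)
  · rcases hr with ⟨h0, _⟩ | ⟨_, h1, _⟩
    · rw [hf] at h0; exact absurd h0 (by simp)
    · exact ⟨h1.1, i, hi, by simp⟩
  · rcases hr with ⟨h0, _⟩ | ⟨_, _, h1⟩
    · rw [hf] at h0; exact absurd h0 (by simp)
    · exact ⟨h1.1, i, hi, by simp⟩

/-- two triangles on the same side of an edge: sets -/
theorem Pos.set_eq (hT : UT n T) {p q r s : Pt} (h : Pos T p q r) (g : Pos T p q s) :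
    ({p, q, r} : Finset Pt) = {p, q, s} := by rw [h.unique hT g]

theorem inFill_of_mem (hT : UT n T) (hD : IsBox n T D) {α β : ℕ → ℤ} {f : ℕ → Bool}
    (h : Dat T D α β f) {t : Finset Pt} (ht : t ∈ D.BT T) : InFill D α β f t := by
  have hok := hD.ok
  obtain ⟨htT, i, hi, hm⟩ := mem_BT.mp ht
  refine ⟨i, hi, ?_⟩
  have hl := h.left i hi
  have hr := h.right i hi
  -- orientation
  obtain ⟨x, y, rfl, hpos⟩ : ∃ x y, t = {D.pt i 1, x, y} ∧ Pos T (D.pt i 1) x y := by
    obtain ⟨p, q, r, rfl, hp⟩ := hT.exists_pos htT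
    simp only [Finset.mem_insert, Finset.mem_singleton] at hm
    rcases hm with hm | hm | hm
    · exact ⟨q, r, by rw [hm], by rw [hm]; exact hp⟩
    · refine ⟨r, p, ?_, by rw [hm]; exact hp.cyc⟩
      rw [hm]; ext s; simp only [Finset.mem_insert, Finset.mem_singleton]; tauto
    · refine ⟨p, q, ?_, by rw [hm]; exact hp.cyc'⟩
      rw [hm]; ext s; simp only [Finset.mem_insert, Finset.mem_singleton]; tauto
  obtain ⟨X, Y, rfl⟩ := hok.exists_pt x
  obtain ⟨U, V, rfl⟩ := hok.exists_pt y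
  have hY := hD.level (X := X) (Y := Y) hi hpos.1 (by simp) (by simp)
  have hV := hD.level (X := U) (Y := V) hi hpos.1 (by simp) (by simp)
  have hd := hpos.2
  rw [hok.det_pt] at hd
  have hcY : Y = 0 ∨ Y = 1 ∨ Y = 2 := by omega
  have hcV : V = 0 ∨ V = 1 ∨ V = 2 := by omega
  rcases hcY with rfl | rfl | rfl
  · rcases hcV with rfl | rfl | rfl
    · -- lower fan
      left
      have h1 := hl.low hT hok hpos.edge
      have h2 := hr.low hT hok hpos.cyc'.edge'
      have hU : U = X + 1 := by linarith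
      refine ⟨(X - α i).toNat, ?_, ?_⟩
      · have : ((X - α i).toNat : ℤ) = X - α i := Int.toNat_of_nonneg (by omega)
        omega
      · have : ((X - α i).toNat : ℤ) = X - α i := Int.toNat_of_nonneg (by omega)
        rw [this, hU]
        congr 3 <;> ring_nf
    · -- lower, mid
      have hU : U = i + 1 := by linarith
      subst hU
      rcases hr with ⟨h0, h1⟩ | ⟨h0, h1, h2⟩
      · exfalso
        have hd1 := h1.2
        rw [hok.det_pt] at hd1
        apply h1.no_cone hT hpos.cyc'.edge'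
        · rw [hok.det_pt]; linarith
        · rw [hok.det_pt]; linarith
      · right; right; right; right; right; right; left
        refine ⟨h0, ?_⟩
        have := h1.cyc'.unique hT hpos.cyc'
        rw [this]
    · -- lower, upper
      have hs : X + U = 2 * i + 1 := by linarith
      rcases hr with ⟨h0, h1⟩ | ⟨h0, h1, h2⟩
      · right; right; right; right; right; left
        refine ⟨h0, ?_⟩
        have hd1 := h1.2
        rw [hok.det_pt] at hd1
        rcases hok.mid_eq hT hpos.cyc.edge h1.cyc.edge (by linarith) (by norm_num) with h3 | h3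
        · obtain ⟨h4, _, h5, _⟩ := h3
          rw [h4, h5]
        · omega
      · exfalso
        apply hpos.no_cone hT h2.edge
        · rw [hok.det_pt]; linarith
        · rw [hok.det_pt]; linarith
  · rcases hcV with rfl | rfl | rfl
    · -- mid, lower
      have hX : X = i - 1 := by linarith
      subst hX
      rcases hl with ⟨h0, h1⟩ | ⟨h0, h1, h2⟩
      · exfalso
        have hd1 := h1.2
        rw [hok.det_pt] at hd1
        apply h1.no_cone hT hpos.edge
        · rw [hok.det_pt]; linarith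
        · rw [hok.det_pt]; linarith
      · right; right; right; left
        refine ⟨h0, ?_⟩
        rw [h1.unique hT hpos]
    · exfalso; linarith
    · -- mid, upper
      have hX : X = i + 1 := by linarith
      subst hX
      rcases hr with ⟨h0, h1⟩ | ⟨h0, h1, h2⟩
      · exfalso
        have hd1 := h1.2
        rw [hok.det_pt] at hd1
        apply h1.no_cone hT hpos.edge
        · rw [hok.det_pt]; linarith
        · rw [hok.det_pt]; linarith
      · right; right; right; right; right; right; right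
        refine ⟨h0, ?_⟩
        rw [h2.unique hT hpos]
  · rcases hcV with rfl | rfl | rfl
    · -- upper, lower
      have hs : X + U = 2 * i - 1 := by linarith
      rcases hl with ⟨h0, h1⟩ | ⟨h0, h1, h2⟩
      · right; right; left
        refine ⟨h0, ?_⟩
        have hd1 := h1.2
        rw [hok.det_pt] at hd1
        rcases hok.mid_eq hT hpos.cyc.edge h1.cyc.edge (by linarith) (by norm_num) with h3 | h3
        · obtain ⟨h4, _, h5, _⟩ := h3
          rw [h4, h5]
        · omega
      · exfalso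
        apply hpos.no_cone hT h1.edge
        · rw [hok.det_pt]; linarith
        · rw [hok.det_pt]; linarith
    · -- upper, mid
      have hU : U = i - 1 := by linarith
      subst hU
      rcases hl with ⟨h0, h1⟩ | ⟨h0, h1, h2⟩
      · exfalso
        have hd1 := h1.2
        rw [hok.det_pt] at hd1
        apply h1.no_cone hT hpos.cyc'.edge'
        · rw [hok.det_pt]; linarith
        · rw [hok.det_pt]; linarith
      · right; right; right; right; left
        refine ⟨h0, ?_⟩
        have := h2.cyc'.unique hT hpos.cyc'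
        rw [this]
    · -- upper fan
      right; left
      have h1 := hl.upp hT hok hpos.cyc'.edge'
      have h2 := hr.upp hT hok hpos.edge
      have hU : X = U + 1 := by linarith
      refine ⟨(U - β i).toNat, ?_, ?_⟩
      · have : ((U - β i).toNat : ℤ) = U - β i := Int.toNat_of_nonneg (by omega)
        omega
      · have : ((U - β i).toNat : ℤ) = U - β i := Int.toNat_of_nonneg (by omega)
        rw [this, hU]
        congr 3 <;> ring_nf

/-- the data determine the filling -/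
theorem BT_eq (hT : UT n T) (hD : IsBox n T D) (hT' : UT n T') (hD' : IsBox n T' D)
    {α β α' β' : ℕ → ℤ} {f f' : ℕ → Bool} (h : Dat T D α β f) (h' : Dat T' D α' β' f')
    (ha : ∀ i, 1 ≤ i → i < D.h → α i = α' i) (hb : ∀ i, 1 ≤ i → i < D.h → β i = β' i)
    (hf : ∀ i, 1 ≤ i → i < D.h → f i = f' i) : D.BT T = D.BT T' := by
  have ha' : ∀ i, i ≤ D.h → α i = α' i := by
    intro i hi
    rcases Nat.eq_zero_or_pos i with rfl | h0
    · rw [h.a0, h'.a0]
    · rcases hi.eq_or_lt with rfl | h1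
      · rw [h.ah, h'.ah]
      · exact ha i h0 h1
  have hb' : ∀ i, i ≤ D.h → β i = β' i := by
    intro i hi
    rcases Nat.eq_zero_or_pos i with rfl | h0
    · rw [h.b0, h'.b0]
    · rcases hi.eq_or_lt with rfl | h1
      · rw [h.bh, h'.bh]
      · exact hb i h0 h1
  have hf' : ∀ i, i ≤ D.h → f i = f' i := by
    intro i hi
    rcases Nat.eq_zero_or_pos i with rfl | h0
    · rw [h.f0, h'.f0]
    · rcases hi.eq_or_lt with rfl | h1
      · rw [h.fh, h'.fh]
      · exact hf i h0 h1
  have key : ∀ t, InFill D α β f t ↔ InFill D α' β' f' t := by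
    intro t
    unfold InFill
    apply exists_congr
    intro i
    apply and_congr_right
    intro hi
    rw [ha' i hi.le, ha' (i + 1) hi, hb' i hi.le, hb' (i + 1) hi, hf' i hi.le, hf' (i + 1) hi]
  ext t
  constructor
  · intro ht
    exact mem_T_of_inFill hT' hD' h' ((key t).mp (inFill_of_mem hT hD h ht))
  · intro ht
    exact mem_T_of_inFill hT hD h ((key t).mpr (inFill_of_mem hT' hD' h' ht))

theorem Dat.mono_a (hT : UT n T) (hD : IsBox n T D) {α β : ℕ → ℤ} {f : ℕ → Bool}
    (h : Dat T D α β f) {i : ℕ} (hi : i < D.h) : α i ≤ α (i + 1) :=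
  (h.left i hi).low hT hD.ok (h.right i hi).edge_low

theorem Dat.mono_b (hT : UT n T) (hD : IsBox n T D) {α β : ℕ → ℤ} {f : ℕ → Bool}
    (h : Dat T D α β f) {i : ℕ} (hi : i < D.h) : β i ≤ β (i + 1) :=
  (h.left i hi).upp hT hD.ok (h.right i hi).edge_upp

theorem Dat.bd_a (hT : UT n T) (hD : IsBox n T D) {α β : ℕ → ℤ} {f : ℕ → Bool}
    (h : Dat T D α β f) {i : ℕ} (hi : i < D.h) : 0 ≤ α i ∧ α i ≤ D.p := by
  have h1 := hD.edge_loc hT hi (h.left i hi).edge_low
  rcases h1 with h1 | h1 | h1 <;> omega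

theorem Dat.bd_b (hT : UT n T) (hD : IsBox n T D) {α β : ℕ → ℤ} {f : ℕ → Bool}
    (h : Dat T D α β f) {i : ℕ} (hi : i < D.h) : -1 ≤ β i ∧ β i ≤ D.q - 1 := by
  have h1 := hD.edge_loc hT hi (h.left i hi).edge_upp
  rcases h1 with h1 | h1 | h1 <;> omega

theorem Dat.flag {α β : ℕ → ℤ} {f : ℕ → Bool} (hok : D.Ok)
    (h : Dat T D α β f) {i : ℕ} (hi : i < D.h) (hf : f i = true) : α i + β i = 2 * i - 1 := by
  rcases h.left i hi with ⟨_, h1⟩ | ⟨h0, _⟩
  · have hd := h1.2
    rw [hok.det_pt] at hd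
    linarith
  · rw [hf] at h0; exact absurd h0 (by simp)

/-- the code of a filling -/
theorem box_fill (n : ℕ) (D : BoxD) (hD : D.Ok) :
    (({X | ∃ T, UT n T ∧ IsBox n T D ∧ X = D.BT T} : Set (Finset (Finset Pt))).ncard : ℝ) ≤
      4 * (100 / 49 : ℝ) ^ (2 * (D.p + D.q)) := by
  classical
  have hch : ∀ X : Finset (Finset Pt), ∃ F : ℕ → ℤ × ℤ × Bool,
      (∃ T, UT n T ∧ IsBox n T D ∧ X = D.BT T) → ∃ T, UT n T ∧ IsBox n T D ∧ X = D.BT T ∧
        Dat T D (fun i => (F i).1) (fun i => (F i).2.1) (fun i => (F i).2.2) := by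
    intro X
    by_cases h : ∃ T, UT n T ∧ IsBox n T D ∧ X = D.BT T
    · obtain ⟨T, hT, hB, rfl⟩ := h
      obtain ⟨α, β, f, hdat⟩ := dat_exists hT hB
      exact ⟨fun i => (α i, β i, f i), fun _ => ⟨T, hT, hB, rfl, hdat⟩⟩
    · exact ⟨fun _ => (0, 0, true), fun h' => absurd h' h⟩
  choose F hF using hch
  refine BoxNum.box_num _ D.p D.q D.h hD.even hD.pos
    (fun X i => ((F X i).1.toNat, ((F X i).2.1 + 1).toNat, (F X i).2.2)) ?_ ?_
  · intro X hX
    obtain ⟨T, hT, hB, rfl, hdat⟩ := hF X hX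
    constructor
    · intro i h1 hi
      have := hdat.bd_a hT hB hi
      simp only at this ⊢
      omega
    · intro i h1 hi
      have := hdat.bd_b hT hB hi
      simp only at this ⊢
      omega
    · intro i h1 hi
      have := hdat.mono_a hT hB (i := i) (by omega)
      simp only at this ⊢
      omega
    · intro i h1 hi
      have := hdat.mono_b hT hB (i := i) (by omega)
      simp only at this ⊢
      omega
    · intro i h1 hi hf
      have h2 := hdat.flag hD (i := i) hi hf
      have h3 := hdat.bd_a hT hB hi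
      have h4 := hdat.bd_b hT hB hi
      simp only at h2 h3 h4 ⊢
      omega
  · intro X hX Y hY hXY
    obtain ⟨T, hT, hB, rfl, hdat⟩ := hF X hX
    obtain ⟨T', hT', hB', rfl, hdat'⟩ := hF Y hY
    apply BT_eq hT hB hT' hB' hdat hdat'
    · intro i h1 hi
      have h2 := hXY i h1 hi
      have h3 := hdat.bd_a hT hB hi
      have h4 := hdat'.bd_a hT' hB' hi
      simp only [Prod.mk.injEq] at h2 h3 h4 ⊢
      omega
    · intro i h1 hi
      have h2 := hXY i h1 hi
      have h3 := hdat.bd_b hT hB hi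
      have h4 := hdat'.bd_b hT' hB' hi
      simp only [Prod.mk.injEq] at h2 h3 h4 ⊢
      omega
    · intro i h1 hi
      have h2 := hXY i h1 hi
      simp only [Prod.mk.injEq] at h2 ⊢
      exact h2.2.2

end Pool.Agent.IT
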