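import Pool.Agent.IT.Defs

/-!
# Boxes: coordinates, location of the vertices, gaps, oriented edges

`D.pt X Y = a + X e + Y f` with `f = v1 - a`: `a = pt 0 0`, `mid i = pt i 1`, `b = pt (-1) 2`,
`a' = pt p 0`, `b' = pt (q-1) 2`.
-/

set_option autoImplicit false

namespace Pool.Agent.IT

open Filter Topology

variable {n : ℕ} {T : Finset (Finset Pt)} {D : BoxD}

namespace BoxAux

theorem inner_eventually {p : Pt} (hp : Inner n p) (w : ℝ × ℝ) :
    ∀ᶠ ε in 𝓝[>] (0:ℝ), emb p + ε • w ∈ Sq n := by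
  obtain ⟨h1, h2, h3, h4⟩ := hp
  have j1 : (0:ℝ) < p.1 := by exact_mod_cast h1
  have j2 : (p.1:ℝ) < n := by exact_mod_cast h2
  have j3 : (0:ℝ) < p.2 := by exact_mod_cast h3
  have j4 : (p.2:ℝ) < n := by exact_mod_cast h4
  filter_upwards [ev_pos (A := (p.1:ℝ)) (B := w.1) (Or.inl j1),
    ev_pos (A := n - (p.1:ℝ)) (B := -w.1) (Or.inl (by linarith)),
    ev_pos (A := (p.2:ℝ)) (B := w.2) (Or.inl j3),
    ev_pos (A := n - (p.2:ℝ)) (B := -w.2) (Or.inl (by linarith))] with ε g1 g2 g3 g4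
  rw [mem_Sq]
  simp only [emb, Prod.fst_add, Prod.snd_add, Prod.smul_fst, Prod.smul_snd, smul_eq_mul]
  refine ⟨by linarith, by linarith, by linarith, by linarith⟩

/-- a primitive vector in the direction of an edge is the edge -/
theorem prim_eq {u u' e : Pt} (he : IsCoprime e.1 e.2) (h : crs u u' = 1) (h0 : crs u e = 0)
    (hk : 0 ≤ crs e u') : e = u := by
  have h1 := eq_smul_of_crs h h0
  set k := crs e u' with hkd
  have e1 : e.1 = k * u.1 := congrArg Prod.fst h1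
  have e2 : e.2 = k * u.2 := congrArg Prod.snd h1
  obtain ⟨a, b, hab⟩ := he
  have h2 : k * (a * u.1 + b * u.2) = 1 := by
    rw [← hab, e1, e2]; ring
  have h3 : k = 1 := by
    rcases Int.eq_one_or_neg_one_of_mul_eq_one h2 with h | h
    · exact h
    · omega
  rw [h3] at e1 e2
  ext
  · linarith
  · linarith

theorem straddle (hT : UT n T) {x e : Pt} (hx : Inner n x)
    (he : IsCoprime e.1 e.2) :
    IsEdge T x (x + e) ∨ ∃ a b, Pos T x a b ∧ crs e a < crs e x ∧ crs e x < crs e b := by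
  obtain ⟨q, r, h, h1, h2⟩ := hT.exists_cone (inner_eventually hx (emb e))
  have hd := h.2
  by_cases c1 : crs (q.1 - x.1, q.2 - x.2) e = 0
  · left
    have := prim_eq (u := (q.1 - x.1, q.2 - x.2)) (u' := (r.1 - x.1, r.2 - x.2)) he
      (by rw [← hd]; simp only [crs, det]) c1 h2
    have e1 : x + e = q := by
      rw [this]; ext <;> simp
    rw [e1]; exact h.edge
  by_cases c2 : crs e (r.1 - x.1, r.2 - x.2) = 0
  · left
    have := prim_eq (u := (r.1 - x.1, r.2 - x.2)) (u' := (x.1 - q.1, x.2 - q.2)) he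
      (by rw [← hd]; simp only [crs, det]; ring) (by simp only [crs] at *; linarith)
      (by simp only [crs] at *; linarith)
    have e1 : x + e = r := by
      rw [this]; ext <;> simp
    rw [e1]; exact h.cyc'.edge'
  right
  refine ⟨q, r, h, ?_, ?_⟩
  · have : 0 < crs (q.1 - x.1, q.2 - x.2) e := lt_of_le_of_ne h1 (Ne.symm c1)
    simp only [crs] at *; linarith
  · have : 0 < crs e (r.1 - x.1, r.2 - x.2) := lt_of_le_of_ne h2 (Ne.symm c2)
    simp only [crs] at *; linarith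
end BoxAux

/-- second basis vector -/
def BoxD.f (D : BoxD) : Pt := D.v1 - D.a

/-- lattice coordinates with respect to `a`, `e`, `f` -/
def BoxD.pt (D : BoxD) (X Y : ℤ) : Pt :=
  (D.a.1 + X * D.e.1 + Y * D.f.1, D.a.2 + X * D.e.2 + Y * D.f.2)

namespace BoxD.Ok

theorem half1 (h : D.Ok) : 2 * D.v1.1 = D.a.1 + D.b.1 + D.e.1 := by
  have := congrArg Prod.fst h.half
  simp only [Prod.fst_add] at this
  linarith

theorem half2 (h : D.Ok) : 2 * D.v1.2 = D.a.2 + D.b.2 + D.e.2 := by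
  have := congrArg Prod.snd h.half
  simp only [Prod.snd_add] at this
  linarith

theorem crs_f (h : D.Ok) : D.e.1 * D.f.2 - D.e.2 * D.f.1 = 1 := by
  have h1 := h.half1
  have h2 := h.half2
  have h3 := h.two
  simp only [crs, Prod.fst_sub, Prod.snd_sub] at h3
  simp only [BoxD.f, Prod.fst_sub, Prod.snd_sub]
  have : 2 * (D.e.1 * (D.v1.2 - D.a.2) - D.e.2 * (D.v1.1 - D.a.1)) = 2 := by
    linear_combination h3 + D.e.1 * h2 - D.e.2 * h1
  linarith

theorem det_pt (h : D.Ok) (X₁ Y₁ X₂ Y₂ X₃ Y₃ : ℤ) :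
    det (D.pt X₁ Y₁) (D.pt X₂ Y₂) (D.pt X₃ Y₃) =
      (X₂ - X₁) * (Y₃ - Y₁) - (Y₂ - Y₁) * (X₃ - X₁) := by
  simp only [det, BoxD.pt]
  linear_combination ((X₂ - X₁) * (Y₃ - Y₁) - (Y₂ - Y₁) * (X₃ - X₁)) * h.crs_f

theorem exists_pt (h : D.Ok) (x : Pt) : ∃ X Y, x = D.pt X Y := by
  refine ⟨(x.1 - D.a.1) * D.f.2 - (x.2 - D.a.2) * D.f.1,
    D.e.1 * (x.2 - D.a.2) - D.e.2 * (x.1 - D.a.1), ?_⟩
  have h1 := h.crs_f
  ext
  · simp only [BoxD.pt]
    linear_combination (-(x.1 - D.a.1)) * h1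
  · simp only [BoxD.pt]
    linear_combination (-(x.2 - D.a.2)) * h1

theorem pt_inj (h : D.Ok) {X Y X' Y' : ℤ} (he : D.pt X Y = D.pt X' Y') : X = X' ∧ Y = Y' := by
  have h1 := h.crs_f
  have e1 := congrArg Prod.fst he
  have e2 := congrArg Prod.snd he
  simp only [BoxD.pt] at e1 e2
  constructor
  · linear_combination D.f.2 * e1 - D.f.1 * e2 - (X - X') * h1
  · linear_combination (-D.e.2) * e1 + D.e.1 * e2 - (Y - Y') * h1

theorem crs_pt (h : D.Ok) (X Y : ℤ) : crs D.e (D.pt X Y) = crs D.e D.a + Y := by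
  have h1 := h.crs_f
  simp only [crs, BoxD.pt]
  linear_combination Y * h1

theorem pt_a (D : BoxD) : D.a = D.pt 0 0 := by
  ext <;> simp [BoxD.pt]

theorem pt_aj (D : BoxD) (j : ℤ) : D.a + j • D.e = D.pt j 0 := by
  ext <;> simp [BoxD.pt]

theorem pt_b (h : D.Ok) : D.b = D.pt (-1) 2 := by
  have h1 := h.half1
  have h2 := h.half2
  ext
  · simp only [BoxD.pt, BoxD.f, Prod.fst_sub]; linarith
  · simp only [BoxD.pt, BoxD.f, Prod.snd_sub]; linarith

theorem pt_bj (h : D.Ok) (j : ℤ) : D.b + j • D.e = D.pt (j - 1) 2 := by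
  rw [h.pt_b]
  ext
  · simp only [BoxD.pt, Prod.fst_add, Prod.smul_fst, smul_eq_mul]; ring
  · simp only [BoxD.pt, Prod.snd_add, Prod.smul_snd, smul_eq_mul]; ring

theorem pt_mid (D : BoxD) (i : ℕ) : D.mid i = D.pt i 1 := by
  ext
  · simp only [BoxD.pt, BoxD.mid, BoxD.f, Prod.fst_add, Prod.smul_fst, smul_eq_mul, Prod.fst_sub]
    ring
  · simp only [BoxD.pt, BoxD.mid, BoxD.f, Prod.snd_add, Prod.smul_snd, smul_eq_mul, Prod.snd_sub]
    ring

theorem pt_a' (D : BoxD) : D.a' = D.pt D.p 0 := pt_aj D _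
theorem pt_b' (h : D.Ok) : D.b' = D.pt (D.q - 1) 2 := h.pt_bj _

theorem two_h (h : D.Ok) : (2 * D.h : ℤ) = D.p + D.q := by
  have := h.even
  omega

end BoxD.Ok

/-- two edges given by coordinates do not cross -/
theorem BoxD.Ok.cross (hok : D.Ok) (hT : UT n T) {X₁ Y₁ X₂ Y₂ X₃ Y₃ X₄ Y₄ : ℤ}
    (h : IsEdge T (D.pt X₁ Y₁) (D.pt X₂ Y₂)) (g : IsEdge T (D.pt X₃ Y₃) (D.pt X₄ Y₄))
    (h1 : (0 < (X₂ - X₁) * (Y₃ - Y₁) - (Y₂ - Y₁) * (X₃ - X₁) ∧
        (X₂ - X₁) * (Y₄ - Y₁) - (Y₂ - Y₁) * (X₄ - X₁) < 0) ∨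
      ((X₂ - X₁) * (Y₃ - Y₁) - (Y₂ - Y₁) * (X₃ - X₁) < 0 ∧
        0 < (X₂ - X₁) * (Y₄ - Y₁) - (Y₂ - Y₁) * (X₄ - X₁)))
    (h2 : (0 < (X₄ - X₃) * (Y₁ - Y₃) - (Y₄ - Y₃) * (X₁ - X₃) ∧
        (X₄ - X₃) * (Y₂ - Y₃) - (Y₄ - Y₃) * (X₂ - X₃) < 0) ∨
      ((X₄ - X₃) * (Y₁ - Y₃) - (Y₄ - Y₃) * (X₁ - X₃) < 0 ∧
        0 < (X₄ - X₃) * (Y₂ - Y₃) - (Y₄ - Y₃) * (X₂ - X₃))) : False := by
  apply h.no_cross hT g
  · rw [hok.det_pt, hok.det_pt]
    rcases h1 with h1 | h1
    · exact mul_neg_of_pos_of_neg h1.1 h1.2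
    · exact mul_neg_of_neg_of_pos h1.1 h1.2
  · rw [hok.det_pt, hok.det_pt]
    rcases h2 with h2 | h2
    · exact mul_neg_of_pos_of_neg h2.1 h2.2
    · exact mul_neg_of_neg_of_pos h2.1 h2.2

/-- edges with the same midpoint coincide -/
theorem BoxD.Ok.mid_eq (hok : D.Ok) (hT : UT n T) {X₁ Y₁ X₂ Y₂ X₃ Y₃ X₄ Y₄ : ℤ}
    (h : IsEdge T (D.pt X₁ Y₁) (D.pt X₂ Y₂)) (g : IsEdge T (D.pt X₃ Y₃) (D.pt X₄ Y₄))
    (hX : X₁ + X₂ = X₃ + X₄) (hY : Y₁ + Y₂ = Y₃ + Y₄) :
    (X₁ = X₃ ∧ Y₁ = Y₃ ∧ X₂ = X₄ ∧ Y₂ = Y₄) ∨ (X₁ = X₄ ∧ Y₁ = Y₄ ∧ X₂ = X₃ ∧ Y₂ = Y₃) := by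
  rcases h.eq_of_mid hT g (by simp only [BoxD.pt]; linear_combination D.e.1 * hX + D.f.1 * hY)
    (by simp only [BoxD.pt]; linear_combination D.e.2 * hX + D.f.2 * hY) with ⟨h1, h2⟩ | ⟨h1, h2⟩
  · have := hok.pt_inj h1
    have := hok.pt_inj h2
    left; tauto
  · have := hok.pt_inj h1
    have := hok.pt_inj h2
    right; tauto

namespace IsBox

theorem left' (hD : IsBox n T D) : IsEdge T (D.pt 0 0) (D.pt (-1) 2) := by
  rw [← BoxD.Ok.pt_a, ← hD.ok.pt_b]; exact hD.left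

theorem right' (hD : IsBox n T D) : IsEdge T (D.pt D.p 0) (D.pt (D.q - 1) 2) := by
  rw [← BoxD.Ok.pt_a', ← hD.ok.pt_b']; exact hD.right

/-- the direction at a middle vertex -/
theorem level (hD : IsBox n T D) {i : ℕ} (hi : i < D.h) {t : Finset Pt} (ht : t ∈ T)
    (hm : D.pt i 1 ∈ t) {X Y : ℤ} (hx : D.pt X Y ∈ t) : 0 ≤ Y ∧ Y ≤ 2 := by
  have := hD.slab i hi t ht (by rw [BoxD.Ok.pt_mid]; exact hm) (D.pt X Y) hx
  rw [hD.ok.crs_pt] at this
  omega

/-- location of the neighbours of a middle vertex -/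
theorem edge_loc (hT : UT n T) (hD : IsBox n T D) {i : ℕ} (hi : i < D.h) {X Y : ℤ}
    (he : IsEdge T (D.pt i 1) (D.pt X Y)) :
      (Y = 0 ∧ 0 ≤ X ∧ X ≤ D.p) ∨ (Y = 1 ∧ 0 ≤ X ∧ X < D.h ∧ (X = i + 1 ∨ X = i - 1)) ∨
        (Y = 2 ∧ -1 ≤ X ∧ X ≤ D.q - 1) := by
  have hok := hD.ok
  have h2 := hok.two_h
  have hY : 0 ≤ Y ∧ Y ≤ 2 := by
    obtain ⟨r, hr | hr⟩ := he
    · exact hD.level (X := X) hi hr.1 (by simp) (by simp)
    · exact hD.level (X := X) hi hr.1 (by simp) (by simp)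
  have hl := hD.left'
  have hr := hD.right'
  have hprim : ∃ U V : ℤ, (X - i) * V - (Y - 1) * U = 1 ∨ (X - i) * V - (Y - 1) * U = -1 := by
    obtain ⟨r, hr | hr⟩ := he
    · obtain ⟨U, V, rfl⟩ := hok.exists_pt r
      have := hr.2
      rw [hok.det_pt] at this
      exact ⟨U - i, V - 1, Or.inl (by linarith)⟩
    · obtain ⟨U, V, rfl⟩ := hok.exists_pt r
      have := hr.2
      rw [hok.det_pt] at this
      refine ⟨U - i, V - 1, Or.inr (by linarith)⟩
  have hiz : (i : ℤ) < D.h := by exact_mod_cast hi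
  have hi0 : (0 : ℤ) ≤ i := by positivity
  have hp0 : (0 : ℤ) ≤ D.p := by positivity
  have hq0 : (0 : ℤ) ≤ D.q := by positivity
  have hc : Y = 0 ∨ Y = 1 ∨ Y = 2 := by omega
  rcases hc with rfl | rfl | rfl
  · left
    refine ⟨rfl, ?_, ?_⟩
    · by_contra hX
      exact hok.cross hT he hl (by omega) (by omega)
    · by_contra hX
      exact hok.cross hT he hr (by omega) (by omega)
  · right; left
    obtain ⟨U, V, hUV⟩ := hprim
    have h3 : X - i = 1 ∨ X - i = -1 := by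
      have h4 : (X - i) * V = 1 ∨ (X - i) * V = -1 := by
        rcases hUV with h | h
        · left; linarith
        · right; linarith
      rcases h4 with h4 | h4
      · exact Int.eq_one_or_neg_one_of_mul_eq_one h4
      · exact Int.eq_one_or_neg_one_of_mul_eq_neg_one h4
    refine ⟨rfl, ?_, ?_, ?_⟩
    · by_contra hX
      exact hok.cross hT he hl (by omega) (by omega)
    · by_contra hX
      exact hok.cross hT he hr (by omega) (by omega)
    · omega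
  · right; right
    refine ⟨rfl, ?_, ?_⟩
    · by_contra hX
      exact hok.cross hT he hl (by omega) (by omega)
    · by_contra hX
      exact hok.cross hT he hr (by omega) (by omega)

end IsBox

theorem BoxAux.isEdge_of_mem (hT : UT n T) {t : Finset Pt} (ht : t ∈ T) {x y : Pt} (hx : x ∈ t)
    (hy : y ∈ t) (hxy : x ≠ y) : IsEdge T x y := by
  obtain ⟨p, q, r, rfl, h⟩ := hT.exists_pos ht
  have h' := h.cyc
  have h'' := h.cyc'
  simp only [Finset.mem_insert, Finset.mem_singleton] at hx hy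
  rcases hx with rfl | rfl | rfl <;> rcases hy with rfl | rfl | rfl
  · exact absurd rfl hxy
  · exact h.edge
  · exact h''.edge'
  · exact h.edge'
  · exact absurd rfl hxy
  · exact h'.edge
  · exact h''.edge
  · exact h'.edge'
  · exact absurd rfl hxy

/-- coordinates of the lattice points of the closed trapezoid -/
def BoxD.Loc (D : BoxD) (X Y : ℤ) : Prop :=
  (Y = 0 ∧ 0 ≤ X ∧ X ≤ D.p) ∨ (Y = 1 ∧ 0 ≤ X ∧ X < D.h) ∨ (Y = 2 ∧ -1 ≤ X ∧ X ≤ D.q - 1)

namespace IsBox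

/-- location of all vertices of the triangles of the box -/
theorem loc (hT : UT n T) (hD : IsBox n T D) {i : ℕ} (hi : i < D.h) {t : Finset Pt} (ht : t ∈ T)
    (hm : D.pt i 1 ∈ t) {X Y : ℤ} (hx : D.pt X Y ∈ t) : D.Loc X Y := by
  by_cases h : D.pt i 1 = D.pt X Y
  · obtain ⟨h1, h2⟩ := hD.ok.pt_inj h
    right; left
    have : (i : ℤ) < D.h := by exact_mod_cast hi
    omega
  · rcases hD.edge_loc hT hi (BoxAux.isEdge_of_mem hT ht hm hx h) with h | h | h
    · exact Or.inl h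
    · exact Or.inr (Or.inl ⟨h.1, h.2.1, h.2.2.1⟩)
    · exact Or.inr (Or.inr h)

/-- the direction `e` at a middle vertex -/
theorem gapR (hT : UT n T) (hD : IsBox n T D) {i : ℕ} (hi : i < D.h) :
    (i + 1 < D.h ∧ IsEdge T (D.pt i 1) (D.pt (i + 1) 1)) ∨
      ∃ α β : ℤ, α + β = 2 * i + 1 ∧ Pos T (D.pt i 1) (D.pt α 0) (D.pt β 2) := by
  have hok := hD.ok
  have hI := hD.int i hi
  rw [BoxD.Ok.pt_mid] at hI
  rcases BoxAux.straddle hT hI hok.dir.1 with h | ⟨u, v, h, h1, h2⟩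
  · left
    have e1 : D.pt i 1 + D.e = D.pt (i + 1) 1 := by
      ext
      · simp only [BoxD.pt, Prod.fst_add]; ring
      · simp only [BoxD.pt, Prod.snd_add]; ring
    rw [e1] at h
    refine ⟨?_, h⟩
    rcases hD.edge_loc hT hi h with h3 | h3 | h3 <;> omega
  · right
    obtain ⟨α, Y₁, rfl⟩ := hok.exists_pt u
    obtain ⟨β, Y₂, rfl⟩ := hok.exists_pt v
    rw [hok.crs_pt, hok.crs_pt] at h1 h2
    have h3 := hD.level (X := α) (Y := Y₁) hi h.1 (by simp) (by simp)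
    have h4 := hD.level (X := β) (Y := Y₂) hi h.1 (by simp) (by simp)
    have e1 : Y₁ = 0 := by omega
    have e2 : Y₂ = 2 := by omega
    subst e1 e2
    refine ⟨α, β, ?_, h⟩
    have h5 := h.2
    rw [hok.det_pt] at h5
    omega

/-- the direction `-e` at a middle vertex -/
theorem gapL (hT : UT n T) (hD : IsBox n T D) {i : ℕ} (hi : i < D.h) :
    (1 ≤ i ∧ IsEdge T (D.pt i 1) (D.pt (i - 1) 1)) ∨
      ∃ α β : ℤ, α + β = 2 * i - 1 ∧ Pos T (D.pt i 1) (D.pt β 2) (D.pt α 0) := by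
  have hok := hD.ok
  have hI := hD.int i hi
  rw [BoxD.Ok.pt_mid] at hI
  have hc : IsCoprime (-D.e).1 (-D.e).2 := by
    obtain ⟨u, v, huv⟩ := hok.dir.1
    refine ⟨-u, -v, ?_⟩
    simp only [Prod.fst_neg, Prod.snd_neg]
    linarith
  have hneg : ∀ x : Pt, crs (-D.e) x = - crs D.e x := by
    intro x
    simp only [crs, Prod.fst_neg, Prod.snd_neg]; ring
  rcases BoxAux.straddle hT hI hc with h | ⟨u, v, h, h1, h2⟩
  · left
    have e1 : D.pt i 1 + -D.e = D.pt (i - 1) 1 := by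
      ext
      · simp only [BoxD.pt, Prod.fst_add, Prod.fst_neg]; ring
      · simp only [BoxD.pt, Prod.snd_add, Prod.snd_neg]; ring
    rw [e1] at h
    refine ⟨?_, h⟩
    rcases hD.edge_loc hT hi h with h3 | h3 | h3 <;> omega
  · right
    obtain ⟨β, Y₁, rfl⟩ := hok.exists_pt u
    obtain ⟨α, Y₂, rfl⟩ := hok.exists_pt v
    rw [hneg, hneg, hok.crs_pt, hok.crs_pt] at h1 h2
    have h3 := hD.level (X := β) (Y := Y₁) hi h.1 (by simp) (by simp)
    have h4 := hD.level (X := α) (Y := Y₂) hi h.1 (by simp) (by simp)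
    have e1 : Y₁ = 2 := by omega
    have e2 : Y₂ = 0 := by omega
    subst e1 e2
    refine ⟨α, β, ?_, h⟩
    have h5 := h.2
    rw [hok.det_pt] at h5
    omega

/-- a crossing edge to the left of `mid i` -/
theorem crossL (hT : UT n T) (hD : IsBox n T D) {i : ℕ} (hi : i < D.h) {α β : ℤ}
    (h : IsEdge T (D.pt α 0) (D.pt β 2)) (hs : α + β = 2 * i - 1) :
    Pos T (D.pt i 1) (D.pt β 2) (D.pt α 0) := by
  have hok := hD.ok
  rcases hD.gapL hT hi with ⟨_, h1⟩ | ⟨α', β', h1, h2⟩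
  · exact (hok.cross hT h1 h (by omega) (by omega)).elim
  · rcases hok.mid_eq hT h h2.cyc.edge (by omega) (by omega) with h3 | h3
    · omega
    · obtain ⟨rfl, _, rfl, _⟩ := h3
      exact h2

/-- a crossing edge to the right of `mid i` -/
theorem crossR (hT : UT n T) (hD : IsBox n T D) {i : ℕ} (hi : i < D.h) {α β : ℤ}
    (h : IsEdge T (D.pt α 0) (D.pt β 2)) (hs : α + β = 2 * i + 1) :
    Pos T (D.pt i 1) (D.pt α 0) (D.pt β 2) := by
  have hok := hD.ok
  rcases hD.gapR hT hi with ⟨_, h1⟩ | ⟨α', β', h1, h2⟩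
  · exact (hok.cross hT h1 h (by omega) (by omega)).elim
  · rcases hok.mid_eq hT h h2.cyc.edge (by omega) (by omega) with h3 | h3
    · obtain ⟨rfl, _, rfl, _⟩ := h3
      exact h2
    · omega

/-- first triangle of the box -/
theorem first (hT : UT n T) (hD : IsBox n T D) : Pos T (D.pt 0 1) (D.pt (-1) 2) (D.pt 0 0) := by
  have := hD.crossL hT hD.ok.pos hD.left' (by norm_num)
  simpa using this

/-- last triangle of the box -/
theorem last (hT : UT n T) (hD : IsBox n T D) :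
    Pos T (D.pt (D.h - 1) 1) (D.pt D.p 0) (D.pt (D.q - 1) 2) := by
  have h2 := hD.ok.two_h
  have h3 := hD.ok.pos
  have e : ((D.h - 1 : ℕ) : ℤ) = D.h - 1 := by omega
  have := hD.crossR hT (i := D.h - 1) (by omega) hD.right' (by omega)
  rwa [e] at this

end IsBox

/-- `(x, y)` is a positively oriented edge of a triangle of the box -/
def BoxD.OB (D : BoxD) (T : Finset (Finset Pt)) (x y : Pt) : Prop :=
  ∃ r, Pos T x y r ∧ ∃ i : ℕ, i < D.h ∧ (D.pt i 1 = x ∨ D.pt i 1 = y ∨ D.pt i 1 = r)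

/-- oriented boundary edges of the trapezoid -/
def BoxD.Bd (D : BoxD) (x y : Pt) : Prop :=
  (x = D.pt (-1) 2 ∧ y = D.pt 0 0) ∨ (x = D.pt D.p 0 ∧ y = D.pt (D.q - 1) 2) ∨
  (∃ j : ℕ, j < D.p ∧ x = D.pt j 0 ∧ y = D.pt (j + 1) 0) ∨
  (∃ j : ℕ, j < D.q ∧ x = D.pt j 2 ∧ y = D.pt (j - 1) 2)

namespace IsBox

theorem oe_first (hT : UT n T) (hD : IsBox n T D) : D.OB T (D.pt (-1) 2) (D.pt 0 0) := by
  refine ⟨D.pt 0 1, (hD.first hT).cyc, 0, hD.ok.pos, ?_⟩
  right; right; rfl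

theorem oe_last (hT : UT n T) (hD : IsBox n T D) :
    D.OB T (D.pt D.p 0) (D.pt (D.q - 1) 2) := by
  have h3 := hD.ok.pos
  refine ⟨D.pt (D.h - 1) 1, (hD.last hT).cyc, D.h - 1, by omega, ?_⟩
  right; right
  congr 1
  omega

theorem not_oe (hD : IsBox n T D) {x y : Pt} (h : D.Bd x y) : ¬ D.OB T y x := by
  have hok := hD.ok
  have h2 := hok.two_h
  rintro ⟨r, hr, i, hi, hm⟩
  have hiz : (i : ℤ) < D.h := by exact_mod_cast hi
  have hd := hr.2
  rcases hm with rfl | rfl | rfl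
  · rcases h with ⟨_, h⟩ | ⟨_, h⟩ | ⟨j, _, _, h⟩ | ⟨j, _, _, h⟩ <;>
    · have := (hok.pt_inj h).2
      omega
  · rcases h with ⟨h, _⟩ | ⟨h, _⟩ | ⟨j, _, h, _⟩ | ⟨j, _, h, _⟩ <;>
    · have := (hok.pt_inj h).2
      omega
  · rcases h with ⟨rfl, rfl⟩ | ⟨rfl, rfl⟩ | ⟨j, _, rfl, rfl⟩ | ⟨j, _, rfl, rfl⟩ <;>
    · rw [hok.det_pt] at hd
      omega

theorem classify_mid (hT : UT n T) (hD : IsBox n T D) {x y r : Pt} (hr : Pos T x y r) {i : ℕ}
    (hi : i < D.h) (hm : D.pt i 1 = x ∨ D.pt i 1 = y) : D.OB T y x := by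
  have hI := hD.int i hi
  rw [BoxD.Ok.pt_mid] at hI
  rcases hm with rfl | rfl
  · obtain ⟨z, hz⟩ := hr.neighbor hT hI.not_onSide
    exact ⟨z, hz, i, hi, Or.inr (Or.inl rfl)⟩
  · obtain ⟨z, hz⟩ := hr.neighbor hT (fun hs => hI.not_onSide hs.symm)
    exact ⟨z, hz, i, hi, Or.inl rfl⟩

/-- oriented edges of the triangles of the box: on the boundary of the trapezoid, or the opposite
edge is also an oriented edge of a triangle of the box -/
theorem classify (hT : UT n T) (hD : IsBox n T D) {x y : Pt} (h : D.OB T x y) :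
    D.OB T y x ∨ D.Bd x y := by
  have hok := hD.ok
  have h2 := hok.two_h
  obtain ⟨r, hr, i, hi, hm⟩ := h
  have hiz : (i : ℤ) < D.h := by exact_mod_cast hi
  have hi0 : (0 : ℤ) ≤ i := by positivity
  rcases hm with hm | hm | rfl
  · exact Or.inl (hD.classify_mid hT hr hi (Or.inl hm))
  · exact Or.inl (hD.classify_mid hT hr hi (Or.inr hm))
  · obtain ⟨X₁, Y₁, rfl⟩ := hok.exists_pt x
    obtain ⟨X₂, Y₂, rfl⟩ := hok.exists_pt y
    have l1 : D.Loc X₁ Y₁ := hD.loc hT hi hr.1 (by simp) (by simp)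
    have l2 : D.Loc X₂ Y₂ := hD.loc hT hi hr.1 (by simp) (by simp)
    have hd := hr.2
    rw [hok.det_pt] at hd
    by_cases c1 : Y₁ = 1
    · left
      obtain ⟨k, hk⟩ : ∃ k : ℕ, (k : ℤ) = X₁ := ⟨X₁.toNat, by rcases l1 with l1 | l1 | l1 <;> omega⟩
      refine hD.classify_mid hT hr (i := k) (by rcases l1 with l1 | l1 | l1 <;> omega) (Or.inl ?_)
      rw [hk, c1]
    by_cases c2 : Y₂ = 1
    · left
      obtain ⟨k, hk⟩ : ∃ k : ℕ, (k : ℤ) = X₂ := ⟨X₂.toNat, by rcases l2 with l2 | l2 | l2 <;> omega⟩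
      refine hD.classify_mid hT hr (i := k) (by rcases l2 with l2 | l2 | l2 <;> omega) (Or.inr ?_)
      rw [hk, c2]
    rcases l1 with l1 | l1 | l1
    · rcases l2 with l2 | l2 | l2
      · -- both on the lower line
        obtain ⟨rfl, l1⟩ := l1
        obtain ⟨rfl, l2⟩ := l2
        right; right; right; left
        refine ⟨X₁.toNat, by omega, ?_, ?_⟩
        · congr 1; omega
        · congr 1; omega
      · exact absurd l2.1 c2
      · -- upwards
        obtain ⟨rfl, l1⟩ := l1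
        obtain ⟨rfl, l2⟩ := l2
        have hs : X₁ + X₂ = 2 * i + 1 := by omega
        by_cases hl : i + 1 < D.h
        · left
          have := hD.crossL hT (i := i + 1) hl hr.edge (by push_cast; omega)
          exact ⟨_, this.cyc, i + 1, hl, Or.inr (Or.inr rfl)⟩
        · right; right; left
          rcases hok.mid_eq hT hr.edge hD.right' (by omega) (by omega) with h3 | h3
          · obtain ⟨rfl, _, rfl, _⟩ := h3
            exact ⟨rfl, rfl⟩
          · omega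
    · exact absurd l1.1 c1
    · rcases l2 with l2 | l2 | l2
      · -- downwards
        obtain ⟨rfl, l1⟩ := l1
        obtain ⟨rfl, l2⟩ := l2
        have hs : X₁ + X₂ = 2 * i - 1 := by omega
        by_cases hl : 1 ≤ i
        · left
          have e : ((i - 1 : ℕ) : ℤ) = i - 1 := by omega
          have := hD.crossR hT (i := i - 1) (by omega) hr.edge' (by omega)
          exact ⟨_, this.cyc, i - 1, by omega, Or.inr (Or.inr rfl)⟩
        · right; left
          rcases hok.mid_eq hT hr.edge hD.left' (by omega) (by omega) with h3 | h3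
          · omega
          · obtain ⟨rfl, _, rfl, _⟩ := h3
            exact ⟨rfl, rfl⟩
      · exact absurd l2.1 c2
      · -- both on the upper line
        obtain ⟨rfl, l1⟩ := l1
        obtain ⟨rfl, l2⟩ := l2
        right; right; right; right
        refine ⟨X₁.toNat, by omega, ?_, ?_⟩
        · congr 1; omega
        · congr 1; omega

end IsBox

end Pool.Agent.IT
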