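import Pool.Agent.IT.Base

/-!
# Frames, fat places, regular triangulations

A frame is a triple `g = (o, u, v)` with `crs u v = 1`; it stands for the unimodular affine map
`(x, y) ↦ o + x u + y v`. The pattern region is `Q = conv {(0,0), (3,3), (-3,3)}`.
-/

namespace Pool.Agent.IT

/-- The affine map of a frame. -/
def fr (g : Pt × Pt × Pt) (x : Pt) : Pt :=
  (g.1.1 + x.1 * g.2.1.1 + x.2 * g.2.2.1, g.1.2 + x.1 * g.2.1.2 + x.2 * g.2.2.2)

/-- The open triangle with vertices `a b c` (positively oriented). -/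
def opn (a b c : Pt) : Set (ℝ × ℝ) := {x | 0 < dl a b x ∧ 0 < dl b c x ∧ 0 < dl c a x}

/-- The cell of `t` meets the interior of the copy `g Q`. -/
def MeetsQ (g : Pt × Pt × Pt) (t : Finset Pt) : Prop :=
  ∃ x ∈ cell t, x ∈ opn (fr g (0, 0)) (fr g (3, 3)) (fr g (-3, 3))

open Classical in
/-- The triangles of `T` meeting the interior of `g Q`. -/
noncomputable def meetSet (T : Finset (Finset Pt)) (g : Pt × Pt × Pt) : Finset (Finset Pt) :=
  T.filter (MeetsQ g)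

/-- `g` is a frame with `g Q` inside the square. -/
def IsFrame (n : ℕ) (g : Pt × Pt × Pt) : Prop :=
  crs g.2.1 g.2.2 = 1 ∧ InSq n (fr g (0, 0)) ∧ InSq n (fr g (3, 3)) ∧ InSq n (fr g (-3, 3))

/-- `g` is an `M`-fat frame of `T`. -/
def FatAt (n M : ℕ) (T : Finset (Finset Pt)) (g : Pt × Pt × Pt) : Prop :=
  IsFrame n g ∧ (meetSet T g).card ≤ M

/-- `T` is regular (exactly as in S11801). -/
def Reg (n : ℕ) (T : Finset (Finset Pt)) : Prop :=
  ∃ h : ℤ × ℤ → ℝ, ∀ t ∈ T, ∃ α β γ : ℝ,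
    (∀ p ∈ t, h p = α * (p.1 : ℝ) + β * (p.2 : ℝ) + γ) ∧
    ∀ p : ℤ × ℤ, 0 ≤ p.1 → p.1 ≤ (n : ℤ) → 0 ≤ p.2 → p.2 ≤ (n : ℤ) → p ∉ t →
      α * (p.1 : ℝ) + β * (p.2 : ℝ) + γ < h p

end Pool.Agent.IT
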