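import Pool.Agent.IT.Base2
import Pool.Agent.IT.Frame

/-!
# Bridge to S11801, finiteness, retriangulation, flips, irregular patterns
-/

namespace Pool.Agent.IT

open Filter Topology

variable {n : ℕ} {T : Finset (Finset Pt)}

/-- the lattice points of the square as a finset -/
noncomputable def box (n : ℕ) : Finset Pt := Finset.Icc (0 : ℤ) n ×ˢ Finset.Icc (0 : ℤ) n

theorem mem_box {p : Pt} : p ∈ box n ↔ InSq n p := by
  simp only [box, Finset.mem_product, Finset.mem_Icc, InSq]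
  tauto

theorem UT.mem_powerset (hT : UT n T) : T ∈ (box n).powerset.powerset := by
  rw [Finset.mem_powerset]
  intro t ht
  rw [Finset.mem_powerset]
  intro p hp
  rw [mem_box]
  exact hT.insq ht hp

theorem UT.finite (n : ℕ) : {T : Finset (Finset Pt) | UT n T}.Finite :=
  Set.Finite.subset (Finset.finite_toSet (box n).powerset.powerset) (fun _ hT => hT.mem_powerset)

/-- the finset of all unimodular triangulations of the square -/
noncomputable def UTs (n : ℕ) : Finset (Finset (Finset Pt)) := (UT.finite n).toFinset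

theorem mem_UTs : T ∈ UTs n ↔ UT n T := by simp [UTs]

/-- the finset of all regular unimodular triangulations of the square -/
noncomputable def RUTs (n : ℕ) : Finset (Finset (Finset Pt)) :=
  open Classical in (UTs n).filter (Reg n)

theorem mem_RUTs : T ∈ RUTs n ↔ UT n T ∧ Reg n T := by
  classical
  simp [RUTs, mem_UTs]

/-- Reduction of S11801 to a counting statement. -/
theorem S11801_of (H : ∀ ε : ℝ, 0 < ε → ∃ n0 : ℕ, ∀ n : ℕ, n0 ≤ n →
      ((RUTs n).card : ℝ) ≤ ε * ((UTs n).card : ℝ)) :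
    Filter.Tendsto (fun n : ℕ =>
      ((Set.ncard {T : Finset (Finset (ℤ × ℤ)) |
          (∀ t ∈ T, ∃ a b c : ℤ × ℤ, t = {a, b, c} ∧
              (∀ p ∈ t, 0 ≤ p.1 ∧ p.1 ≤ (n : ℤ) ∧ 0 ≤ p.2 ∧ p.2 ≤ (n : ℤ)) ∧
              |(b.1 - a.1) * (c.2 - a.2) - (b.2 - a.2) * (c.1 - a.1)| = 1) ∧
          (∀ t ∈ T, ∀ s ∈ T, t ≠ s →
              Disjoint
                (interior (convexHull ℝ ((fun p : ℤ × ℤ => ((p.1 : ℝ), (p.2 : ℝ))) '' (t : Set (ℤ × ℤ)))))
                (interior (convexHull ℝ ((fun p : ℤ × ℤ => ((p.1 : ℝ), (p.2 : ℝ))) '' (s : Set (ℤ × ℤ)))))) ∧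
          (⋃ t ∈ T, convexHull ℝ ((fun p : ℤ × ℤ => ((p.1 : ℝ), (p.2 : ℝ))) '' (t : Set (ℤ × ℤ))))
              = Set.Icc ((0 : ℝ), (0 : ℝ)) ((n : ℝ), (n : ℝ)) ∧
          (∃ h : ℤ × ℤ → ℝ, ∀ t ∈ T, ∃ α β γ : ℝ,
              (∀ p ∈ t, h p = α * (p.1 : ℝ) + β * (p.2 : ℝ) + γ) ∧
              ∀ p : ℤ × ℤ, 0 ≤ p.1 → p.1 ≤ (n : ℤ) → 0 ≤ p.2 → p.2 ≤ (n : ℤ) → p ∉ t →
                α * (p.1 : ℝ) + β * (p.2 : ℝ) + γ < h p)} : ℕ) : ℝ) /
      ((Set.ncard {T : Finset (Finset (ℤ × ℤ)) |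
          (∀ t ∈ T, ∃ a b c : ℤ × ℤ, t = {a, b, c} ∧
              (∀ p ∈ t, 0 ≤ p.1 ∧ p.1 ≤ (n : ℤ) ∧ 0 ≤ p.2 ∧ p.2 ≤ (n : ℤ)) ∧
              |(b.1 - a.1) * (c.2 - a.2) - (b.2 - a.2) * (c.1 - a.1)| = 1) ∧
          (∀ t ∈ T, ∀ s ∈ T, t ≠ s →
              Disjoint
                (interior (convexHull ℝ ((fun p : ℤ × ℤ => ((p.1 : ℝ), (p.2 : ℝ))) '' (t : Set (ℤ × ℤ)))))
                (interior (convexHull ℝ ((fun p : ℤ × ℤ => ((p.1 : ℝ), (p.2 : ℝ))) '' (s : Set (ℤ × ℤ)))))) ∧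
          (⋃ t ∈ T, convexHull ℝ ((fun p : ℤ × ℤ => ((p.1 : ℝ), (p.2 : ℝ))) '' (t : Set (ℤ × ℤ))))
              = Set.Icc ((0 : ℝ), (0 : ℝ)) ((n : ℝ), (n : ℝ))} : ℕ) : ℝ))
      Filter.atTop (nhds 0) := by
  have e1 : ∀ n : ℕ, Set.ncard {T : Finset (Finset (ℤ × ℤ)) |
          (∀ t ∈ T, ∃ a b c : ℤ × ℤ, t = {a, b, c} ∧
              (∀ p ∈ t, 0 ≤ p.1 ∧ p.1 ≤ (n : ℤ) ∧ 0 ≤ p.2 ∧ p.2 ≤ (n : ℤ)) ∧
              |(b.1 - a.1) * (c.2 - a.2) - (b.2 - a.2) * (c.1 - a.1)| = 1) ∧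
          (∀ t ∈ T, ∀ s ∈ T, t ≠ s →
              Disjoint
                (interior (convexHull ℝ ((fun p : ℤ × ℤ => ((p.1 : ℝ), (p.2 : ℝ))) '' (t : Set (ℤ × ℤ)))))
                (interior (convexHull ℝ ((fun p : ℤ × ℤ => ((p.1 : ℝ), (p.2 : ℝ))) '' (s : Set (ℤ × ℤ)))))) ∧
          (⋃ t ∈ T, convexHull ℝ ((fun p : ℤ × ℤ => ((p.1 : ℝ), (p.2 : ℝ))) '' (t : Set (ℤ × ℤ))))
              = Set.Icc ((0 : ℝ), (0 : ℝ)) ((n : ℝ), (n : ℝ)) ∧
          (∃ h : ℤ × ℤ → ℝ, ∀ t ∈ T, ∃ α β γ : ℝ,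
              (∀ p ∈ t, h p = α * (p.1 : ℝ) + β * (p.2 : ℝ) + γ) ∧
              ∀ p : ℤ × ℤ, 0 ≤ p.1 → p.1 ≤ (n : ℤ) → 0 ≤ p.2 → p.2 ≤ (n : ℤ) → p ∉ t →
                α * (p.1 : ℝ) + β * (p.2 : ℝ) + γ < h p)} = (RUTs n).card := by
    intro n
    rw [← Set.ncard_coe_finset]
    congr 1
    ext T
    simp only [Set.mem_ofPred_eq, Finset.mem_coe, mem_RUTs]
    constructor
    · rintro ⟨h1, h2, h3, h4⟩
      exact ⟨⟨h1, h2, h3⟩, h4⟩
    · rintro ⟨⟨h1, h2, h3⟩, h4⟩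
      exact ⟨h1, h2, h3, h4⟩
  have e2 : ∀ n : ℕ, Set.ncard {T : Finset (Finset (ℤ × ℤ)) |
          (∀ t ∈ T, ∃ a b c : ℤ × ℤ, t = {a, b, c} ∧
              (∀ p ∈ t, 0 ≤ p.1 ∧ p.1 ≤ (n : ℤ) ∧ 0 ≤ p.2 ∧ p.2 ≤ (n : ℤ)) ∧
              |(b.1 - a.1) * (c.2 - a.2) - (b.2 - a.2) * (c.1 - a.1)| = 1) ∧
          (∀ t ∈ T, ∀ s ∈ T, t ≠ s →
              Disjoint
                (interior (convexHull ℝ ((fun p : ℤ × ℤ => ((p.1 : ℝ), (p.2 : ℝ))) '' (t : Set (ℤ × ℤ)))))
                (interior (convexHull ℝ ((fun p : ℤ × ℤ => ((p.1 : ℝ), (p.2 : ℝ))) '' (s : Set (ℤ × ℤ)))))) ∧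
          (⋃ t ∈ T, convexHull ℝ ((fun p : ℤ × ℤ => ((p.1 : ℝ), (p.2 : ℝ))) '' (t : Set (ℤ × ℤ))))
              = Set.Icc ((0 : ℝ), (0 : ℝ)) ((n : ℝ), (n : ℝ))} = (UTs n).card := by
    intro n
    rw [← Set.ncard_coe_finset]
    congr 1
    ext T
    simp only [Set.mem_ofPred_eq, Finset.mem_coe, mem_UTs]
    constructor
    · rintro ⟨h1, h2, h3⟩
      exact ⟨h1, h2, h3⟩
    · rintro ⟨h1, h2, h3⟩
      exact ⟨h1, h2, h3⟩
  simp only [e1, e2]
  rw [Metric.tendsto_atTop]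
  intro ε hε
  obtain ⟨n0, hn0⟩ := H (ε / 2) (by linarith)
  refine ⟨n0, fun n hn => ?_⟩
  have h1 := hn0 n hn
  rw [Real.dist_eq, sub_zero, abs_of_nonneg (by positivity)]
  rcases Nat.eq_zero_or_pos (UTs n).card with h0 | h0
  · rw [h0]; simpa using hε
  · have h0' : (0:ℝ) < ((UTs n).card : ℝ) := by exact_mod_cast h0
    calc ((RUTs n).card : ℝ) / ((UTs n).card : ℝ) ≤ ε / 2 := by
          rw [div_le_iff₀ h0']; exact h1
      _ < ε := by linarith

/-! ### Retriangulation -/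

theorem emb_mem_Sq {p : Pt} : emb p ∈ Sq n ↔ InSq n p := by
  rw [mem_Sq]
  simp only [emb, InSq]
  constructor
  · rintro ⟨h1, h2, h3, h4⟩
    exact ⟨by exact_mod_cast h1, by exact_mod_cast h2, by exact_mod_cast h3, by exact_mod_cast h4⟩
  · rintro ⟨h1, h2, h3, h4⟩
    exact ⟨by exact_mod_cast h1, by exact_mod_cast h2, by exact_mod_cast h3, by exact_mod_cast h4⟩

/-- Replace a set `S` of triangles of `T` by another unimodular triangulation `S'` of the same region. -/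
theorem UT.replace (hT : UT n T) {S S' : Finset (Finset Pt)} (hS : S ⊆ T)
    (htri : ∀ t ∈ S', ∃ a b c : Pt, t = {a, b, c} ∧ det a b c = 1)
    (hdisj : ∀ t ∈ S', ∀ s ∈ S', t ≠ s → Disjoint (interior (cell t)) (interior (cell s)))
    (hun : (⋃ t ∈ S, cell t) = ⋃ t ∈ S', cell t) : UT n ((T \ S) ∪ S') := by
  have hsub : (⋃ t ∈ S', cell t) ⊆ Sq n := by
    rw [← hun]
    intro x hx
    simp only [Set.mem_iUnion] at hx
    obtain ⟨t, ht, hx⟩ := hx
    exact hT.cell_sub (hS ht) hx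
  have hcross : ∀ t ∈ T \ S, ∀ s ∈ S', Disjoint (interior (cell t)) (interior (cell s)) := by
    intro t ht s hs
    rw [Set.disjoint_left]
    intro x hx1 hx2
    rw [Finset.mem_sdiff] at ht
    have : x ∈ ⋃ t ∈ S, cell t := by
      rw [hun]
      simp only [Set.mem_iUnion]
      exact ⟨s, hs, interior_subset hx2⟩
    simp only [Set.mem_iUnion] at this
    obtain ⟨s0, hs0, hx0⟩ := this
    have := hT.eq_of_mem_interior ht.1 (hS hs0) hx1 hx0
    rw [this] at ht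
    exact ht.2 hs0
  refine ⟨?_, ?_, ?_⟩
  · intro t ht
    rw [Finset.mem_union] at ht
    rcases ht with ht | ht
    · exact hT.tri t (Finset.mem_sdiff.mp ht).1
    · obtain ⟨a, b, c, e, hd⟩ := htri t ht
      refine ⟨a, b, c, e, ?_, ?_⟩
      · intro p hp
        have h1 : emb p ∈ cell t := emb_mem_cell hp
        have h2 : emb p ∈ Sq n := hsub (by simp only [Set.mem_iUnion]; exact ⟨t, ht, h1⟩)
        exact emb_mem_Sq.mp h2
      · have hd' : (b.1 - a.1) * (c.2 - a.2) - (b.2 - a.2) * (c.1 - a.1) = 1 := hd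
        rw [hd']; norm_num
  · intro t ht s hs hne
    rw [Finset.mem_union] at ht hs
    rcases ht with ht | ht <;> rcases hs with hs | hs
    · exact hT.disj t (Finset.mem_sdiff.mp ht).1 s (Finset.mem_sdiff.mp hs).1 hne
    · exact hcross t ht s hs
    · exact (hcross s hs t ht).symm
    · exact hdisj t ht s hs hne
  · rw [← hT.cover]
    ext x
    simp only [Set.mem_iUnion, Finset.mem_union, Finset.mem_sdiff]
    constructor
    · rintro ⟨t, (⟨ht, -⟩ | ht), hx⟩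
      · exact ⟨t, ht, hx⟩
      · have : x ∈ ⋃ t ∈ S, cell t := by
          rw [hun]; simp only [Set.mem_iUnion]; exact ⟨t, ht, hx⟩
        simp only [Set.mem_iUnion] at this
        obtain ⟨s0, hs0, hx0⟩ := this
        exact ⟨s0, hS hs0, hx0⟩
    · rintro ⟨t, ht, hx⟩
      by_cases hts : t ∈ S
      · have : x ∈ ⋃ t ∈ S', cell t := by
          rw [← hun]; simp only [Set.mem_iUnion]; exact ⟨t, hts, hx⟩
        simp only [Set.mem_iUnion] at this
        obtain ⟨s0, hs0, hx0⟩ := this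
        exact ⟨s0, Or.inr hs0, hx0⟩
      · exact ⟨t, Or.inl ⟨ht, hts⟩, hx⟩

/-- The flip of an edge with jump zero. -/
theorem UT.flip (hT : UT n T) {p q r z : Pt} (h : Pos T p q r) (g : Pos T q p z)
    (e1 : r.1 + z.1 = p.1 + q.1) (e2 : r.2 + z.2 = p.2 + q.2) :
    UT n ((T \ {{p, q, r}, {q, p, z}}) ∪ {{z, q, r}, {r, p, z}}) := by
  have d1 := h.2
  have d2 := g.2
  have z1 : z.1 = p.1 + q.1 - r.1 := by linarith
  have z2 : z.2 = p.2 + q.2 - r.2 := by linarith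
  have d3 : det z q r = 1 := by
    simp only [det] at *; rw [z1, z2]; linear_combination d1
  have d4 : det r p z = 1 := by
    simp only [det] at *; rw [z1, z2]; linear_combination d1
  have c1 : ∀ x : ℝ × ℝ, dl p z x + dl q r x = 1 := by
    intro x
    have : (det p q r : ℝ) = 1 := by exact_mod_cast d1
    simp only [dl, det] at *
    push_cast at this
    rw [z1, z2]; push_cast
    linear_combination this
  have c2 : ∀ x : ℝ × ℝ, dl z q x + dl r p x = 1 := by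
    intro x
    have : (det p q r : ℝ) = 1 := by exact_mod_cast d1
    simp only [dl, det] at *
    push_cast at this
    rw [z1, z2]; push_cast
    linear_combination this
  apply hT.replace
  · intro t ht
    simp only [Finset.mem_insert, Finset.mem_singleton] at ht
    rcases ht with rfl | rfl
    · exact h.1
    · exact g.1
  · intro t ht
    simp only [Finset.mem_insert, Finset.mem_singleton] at ht
    rcases ht with rfl | rfl
    · exact ⟨z, q, r, rfl, d3⟩
    · exact ⟨r, p, z, rfl, d4⟩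
  · have hd : Disjoint (interior (cell {z, q, r})) (interior (cell {r, p, z})) := by
      rw [Set.disjoint_left]
      intro x hx1 hx2
      rw [mem_interior_cell_iff d3] at hx1
      rw [mem_interior_cell_iff d4] at hx2
      have h1 := hx1.2.2
      have h2 := hx2.2.2
      rw [dl_swap] at h1
      linarith
    intro t ht s hs hne
    simp only [Finset.mem_insert, Finset.mem_singleton] at ht hs
    rcases ht with rfl | rfl <;> rcases hs with rfl | rfl
    · exact absurd rfl hne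
    · exact hd
    · exact hd.symm
    · exact absurd rfl hne
  · ext x
    simp only [Set.mem_iUnion, Finset.mem_insert, Finset.mem_singleton, exists_prop,
      exists_eq_or_imp, exists_eq_left]
    rw [mem_cell_iff d1, mem_cell_iff d2, mem_cell_iff d3, mem_cell_iff d4]
    have k1 := c1 x
    have k2 := c2 x
    have k3 := dl_sum p q r x
    have k4 := dl_sum q p z x
    have k5 := dl_sum z q r x
    have k6 := dl_sum r p z x
    rw [d1] at k3
    rw [d2] at k4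
    rw [d3] at k5
    rw [d4] at k6
    rw [dl_swap p q] at *
    rw [dl_swap z r] at *
    push_cast at k3 k4 k5 k6
    constructor
    · rintro (⟨i1, i2, i3⟩ | ⟨i1, i2, i3⟩)
      · rcases le_total 0 (dl z r x) with j | j
        · right; refine ⟨?_, ?_, ?_⟩ <;> linarith
        · left; refine ⟨?_, ?_, ?_⟩ <;> linarith
      · rcases le_total 0 (dl z r x) with j | j
        · right; refine ⟨?_, ?_, ?_⟩ <;> linarith
        · left; refine ⟨?_, ?_, ?_⟩ <;> linarith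
    · rintro (⟨i1, i2, i3⟩ | ⟨i1, i2, i3⟩)
      · rcases le_total 0 (dl p q x) with j | j
        · left; refine ⟨?_, ?_, ?_⟩ <;> linarith
        · right; refine ⟨?_, ?_, ?_⟩ <;> linarith
      · rcases le_total 0 (dl p q x) with j | j
        · left; refine ⟨?_, ?_, ?_⟩ <;> linarith
        · right; refine ⟨?_, ?_, ?_⟩ <;> linarith

/-! ### Patterns -/

/-- affine lattice map with origin `o` and basis `u`, `v` -/
def afr (o u v z : Pt) : Pt := (o.1 + z.1 * u.1 + z.2 * v.1, o.2 + z.1 * u.2 + z.2 * v.2)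

theorem afr_injective {o u v : Pt} (h : crs u v ≠ 0) : Function.Injective (afr o u v) := by
  intro x y hxy
  have h1 : o.1 + x.1 * u.1 + x.2 * v.1 = o.1 + y.1 * u.1 + y.2 * v.1 := congrArg Prod.fst hxy
  have h2 : o.2 + x.1 * u.2 + x.2 * v.2 = o.2 + y.1 * u.2 + y.2 * v.2 := congrArg Prod.snd hxy
  have k1 : (x.1 - y.1) * crs u v = 0 := by
    simp only [crs]; linear_combination v.2 * h1 - v.1 * h2
  have k2 : (x.2 - y.2) * crs u v = 0 := by
    simp only [crs]; linear_combination u.1 * h2 - u.2 * h1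
  ext
  · rcases mul_eq_zero.mp k1 with h | h'
    · linarith
    · exact absurd h' h
  · rcases mul_eq_zero.mp k2 with h | h'
    · linarith
    · exact absurd h' h

theorem det_afr (o u v p q r : Pt) : det (afr o u v p) (afr o u v q) (afr o u v r) = crs u v * det p q r := by
  simp only [det, afr, crs]; ring

theorem fr_eq_afr (g : Pt × Pt × Pt) (x : Pt) : fr g x = afr g.1 g.2.1 g.2.2 x := rfl

/-- Finite regularity of a family `P` of triangles with respect to a point set `Q`. -/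
def PReg (P : Finset (Finset Pt)) (Q : Finset Pt) : Prop :=
  ∃ h : Pt → ℝ, ∀ t ∈ P, ∃ α β γ : ℝ, (∀ p ∈ t, h p = α * (p.1 : ℝ) + β * (p.2 : ℝ) + γ) ∧
    ∀ p ∈ Q, p ∉ t → α * (p.1 : ℝ) + β * (p.2 : ℝ) + γ < h p

/-- A triangulation containing an affine copy of an irregular pattern is irregular. -/
theorem not_reg_of_pattern {P : Finset (Finset Pt)} {Q : Finset Pt} (hP : ¬ PReg P Q)
    {o u v : Pt} (hdet : crs u v ≠ 0) (hin : ∀ t ∈ P, t.image (afr o u v) ∈ T)
    (hQ : ∀ p ∈ Q, InSq n (afr o u v p)) : ¬ Reg n T := by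
  rintro ⟨h, hh⟩
  apply hP
  refine ⟨fun z => h (afr o u v z), ?_⟩
  intro t ht
  obtain ⟨α, β, γ, h1, h2⟩ := hh _ (hin t ht)
  refine ⟨α * u.1 + β * u.2, α * v.1 + β * v.2, α * o.1 + β * o.2 + γ, ?_, ?_⟩
  · intro p hp
    have := h1 (afr o u v p) (Finset.mem_image_of_mem _ hp)
    simp only [afr] at *
    rw [this]; push_cast; ring
  · intro p hp hpt
    obtain ⟨g1, g2, g3, g4⟩ := hQ p hp
    have hnot : afr o u v p ∉ t.image (afr o u v) := by
      intro hmem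
      rw [Finset.mem_image] at hmem
      obtain ⟨a, ha, hap⟩ := hmem
      exact hpt (afr_injective hdet hap ▸ ha)
    have := h2 (afr o u v p) g1 g2 g3 g4 hnot
    simp only [afr] at *
    push_cast at this
    calc (α * u.1 + β * u.2) * (p.1:ℝ) + (α * v.1 + β * v.2) * (p.2:ℝ) + (α * o.1 + β * o.2 + γ)
        = α * (o.1 + p.1 * u.1 + p.2 * v.1) + β * (o.2 + p.1 * u.2 + p.2 * v.2) + γ := by ring
      _ < _ := this

end Pool.Agent.IT
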