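import Pool.Agent.IT.Bridge

/-!
# Counting: number of triangles, number of edges, sum of degrees
-/

namespace Pool.Agent.IT

open Filter Topology

variable {n : ℕ} {T : Finset (Finset Pt)}

/-- sums `p + q` of possible edges: points of `[0,2n]^2` which are not twice a lattice point -/
noncomputable def Hs (n : ℕ) : Finset Pt :=
  ((Finset.Icc (0:ℤ) (2 * n)) ×ˢ (Finset.Icc (0:ℤ) (2 * n))).filter (fun m => ¬ (2 ∣ m.1 ∧ 2 ∣ m.2))

/-- the interior ones -/
noncomputable def Hi (n : ℕ) : Finset Pt :=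
  ((Finset.Ioo (0:ℤ) (2 * n)) ×ˢ (Finset.Ioo (0:ℤ) (2 * n))).filter (fun m => ¬ (2 ∣ m.1 ∧ 2 ∣ m.2))

theorem mem_Hs {m : Pt} : m ∈ Hs n ↔ (0 ≤ m.1 ∧ m.1 ≤ 2 * n ∧ 0 ≤ m.2 ∧ m.2 ≤ 2 * n) ∧
    ¬ (2 ∣ m.1 ∧ 2 ∣ m.2) := by
  simp only [Hs, Finset.mem_filter, Finset.mem_product, Finset.mem_Icc]
  tauto

theorem mem_Hi {m : Pt} : m ∈ Hi n ↔ (0 < m.1 ∧ m.1 < 2 * n ∧ 0 < m.2 ∧ m.2 < 2 * n) ∧
    ¬ (2 ∣ m.1 ∧ 2 ∣ m.2) := by
  simp only [Hi, Finset.mem_filter, Finset.mem_product, Finset.mem_Ioo]
  tauto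

theorem dbl_injective : Function.Injective (fun z : Pt => ((2 * z.1, 2 * z.2) : Pt)) := by
  intro x y hxy
  have h1 : 2 * x.1 = 2 * y.1 := congrArg Prod.fst hxy
  have h2 : 2 * x.2 = 2 * y.2 := congrArg Prod.snd hxy
  ext <;> omega

theorem card_Hs : (Hs n).card = 3 * n ^ 2 + 2 * n := by
  have h1 := Finset.card_filter_add_card_filter_not
    (s := ((Finset.Icc (0:ℤ) (2 * n)) ×ˢ (Finset.Icc (0:ℤ) (2 * n))))
    (fun m : Pt => (2 ∣ m.1 ∧ 2 ∣ m.2))
  have h2 : ((Finset.Icc (0:ℤ) (2 * n)) ×ˢ (Finset.Icc (0:ℤ) (2 * n))).filter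
      (fun m : Pt => (2 ∣ m.1 ∧ 2 ∣ m.2)) =
      ((Finset.Icc (0:ℤ) n) ×ˢ (Finset.Icc (0:ℤ) n)).image
        (fun z : Pt => ((2 * z.1, 2 * z.2) : Pt)) := by
    ext m
    simp only [Finset.mem_filter, Finset.mem_product, Finset.mem_Icc, Finset.mem_image]
    constructor
    · rintro ⟨⟨⟨a1, a2⟩, a3, a4⟩, ⟨k, hk⟩, ⟨l, hl⟩⟩
      exact ⟨(k, l), ⟨⟨by omega, by omega⟩, by omega, by omega⟩, by ext <;> simp [hk, hl]⟩
    · rintro ⟨z, ⟨⟨a1, a2⟩, a3, a4⟩, rfl⟩
      simp only
      exact ⟨⟨⟨by omega, by omega⟩, by omega, by omega⟩, ⟨z.1, rfl⟩, ⟨z.2, rfl⟩⟩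
  rw [h2, Finset.card_image_of_injective _ dbl_injective] at h1
  simp only [Finset.card_product, Int.card_Icc] at h1
  have e1 : ((n:ℤ) + 1 - 0).toNat = n + 1 := by omega
  have e2 : (2 * (n:ℤ) + 1 - 0).toNat = 2 * n + 1 := by omega
  rw [e1, e2] at h1
  simp only [Hs]
  nlinarith

theorem card_Hi : (Hi n).card + 2 * n = 3 * n ^ 2 := by
  rcases Nat.eq_zero_or_pos n with rfl | hn
  · simp [Hi]
  have h1 := Finset.card_filter_add_card_filter_not
    (s := ((Finset.Ioo (0:ℤ) (2 * n)) ×ˢ (Finset.Ioo (0:ℤ) (2 * n))))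
    (fun m : Pt => (2 ∣ m.1 ∧ 2 ∣ m.2))
  have h2 : ((Finset.Ioo (0:ℤ) (2 * n)) ×ˢ (Finset.Ioo (0:ℤ) (2 * n))).filter
      (fun m : Pt => (2 ∣ m.1 ∧ 2 ∣ m.2)) =
      ((Finset.Ioo (0:ℤ) n) ×ˢ (Finset.Ioo (0:ℤ) n)).image
        (fun z : Pt => ((2 * z.1, 2 * z.2) : Pt)) := by
    ext m
    simp only [Finset.mem_filter, Finset.mem_product, Finset.mem_Ioo, Finset.mem_image]
    constructor
    · rintro ⟨⟨⟨a1, a2⟩, a3, a4⟩, ⟨k, hk⟩, ⟨l, hl⟩⟩
      exact ⟨(k, l), ⟨⟨by omega, by omega⟩, by omega, by omega⟩, by ext <;> simp [hk, hl]⟩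
    · rintro ⟨z, ⟨⟨a1, a2⟩, a3, a4⟩, rfl⟩
      simp only
      exact ⟨⟨⟨by omega, by omega⟩, by omega, by omega⟩, ⟨z.1, rfl⟩, ⟨z.2, rfl⟩⟩
  rw [h2, Finset.card_image_of_injective _ dbl_injective] at h1
  simp only [Finset.card_product, Int.card_Ioo] at h1
  obtain ⟨k, rfl⟩ : ∃ k, n = k + 1 := ⟨n - 1, by omega⟩
  have e1 : (((k + 1 : ℕ):ℤ) - 0 - 1).toNat = k := by omega
  have e2 : (2 * ((k + 1 : ℕ):ℤ) - 0 - 1).toNat = 2 * k + 1 := by omega
  rw [e1, e2] at h1
  simp only [Hi]
  nlinarith

theorem IsEdge.sum_mem (hT : UT n T) {p q : Pt} (h : IsEdge T p q) :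
    (p.1 + q.1, p.2 + q.2) ∈ Hs n := by
  rw [mem_Hs]
  obtain ⟨a1, a2, a3, a4⟩ := h.insq hT
  obtain ⟨b1, b2, b3, b4⟩ := h.symm.insq hT
  refine ⟨⟨by simp only; omega, by simp only; omega, by simp only; omega, by simp only; omega⟩, ?_⟩
  rintro ⟨⟨k, hk⟩, ⟨l, hl⟩⟩
  obtain ⟨e, he⟩ := h.prim
  simp only at hk hl
  have e1 : q.1 = 2 * k - p.1 := by omega
  have e2 : q.2 = 2 * l - p.2 := by omega
  simp only [crs, e1, e2] at he
  have : 2 * ((k - p.1) * e.2 - (l - p.2) * e.1) = 1 := by linarith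
  omega

/-- ordered edges -/
noncomputable def oedges (n : ℕ) (T : Finset (Finset Pt)) : Finset (Pt × Pt) :=
  open Classical in ((box n) ×ˢ (box n)).filter (fun e => IsEdge T e.1 e.2)

theorem mem_oedges (hT : UT n T) {e : Pt × Pt} : e ∈ oedges n T ↔ IsEdge T e.1 e.2 := by
  classical
  simp only [oedges, Finset.mem_filter, Finset.mem_product, mem_box, and_iff_right_iff_imp]
  exact fun h => ⟨h.insq hT, h.symm.insq hT⟩

theorem IsEdge.ne_card {p q : Pt} (h : IsEdge T p q) : p ≠ q := by
  obtain ⟨r, h | h⟩ := h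
  · exact h.ne
  · exact h.ne.symm

/-- the number of ordered edges -/
theorem card_oedges (hT : UT n T) : (oedges n T).card = 2 * (3 * n ^ 2 + 2 * n) := by
  classical
  rw [← card_Hs, mul_comm]
  rw [Finset.card_eq_sum_card_fiberwise (f := fun e : Pt × Pt => ((e.1.1 + e.2.1, e.1.2 + e.2.2) : Pt))
    (t := Hs n)]
  · rw [Finset.sum_const_nat (m := 2)]
    intro m hm
    rw [mem_Hs] at hm
    obtain ⟨⟨h1, h2, h3, h4⟩, hodd⟩ := hm
    obtain ⟨p, q, hpq, e1, e2⟩ := hT.exists_mid h1 h2 h3 h4 hodd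
    have : (oedges n T).filter (fun e : Pt × Pt => ((e.1.1 + e.2.1, e.1.2 + e.2.2) : Pt) = m) =
        {(p, q), (q, p)} := by
      ext e
      simp only [Finset.mem_filter, mem_oedges hT, Finset.mem_insert, Finset.mem_singleton]
      constructor
      · rintro ⟨he, hem⟩
        have f1 : e.1.1 + e.2.1 = m.1 := congrArg Prod.fst hem
        have f2 : e.1.2 + e.2.2 = m.2 := congrArg Prod.snd hem
        rcases he.eq_of_mid hT hpq (by omega) (by omega) with ⟨g1, g2⟩ | ⟨g1, g2⟩
        · left; exact Prod.ext g1 g2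
        · right; exact Prod.ext g1 g2
      · rintro (rfl | rfl)
        · exact ⟨hpq, Prod.ext e1 e2⟩
        · exact ⟨hpq.symm, Prod.ext (by simp only; omega) (by simp only; omega)⟩
    rw [this, Finset.card_pair]
    intro h
    exact hpq.ne_card (congrArg Prod.fst h)
  · intro e he
    rw [Finset.mem_coe, mem_oedges hT] at he
    exact he.sum_mem hT

/-- the sum of the degrees -/
theorem sum_deg (hT : UT n T) : ∑ v ∈ box n, deg T v = 2 * (3 * n ^ 2 + 2 * n) := by
  classical
  rw [← card_oedges hT]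
  rw [Finset.card_eq_sum_card_fiberwise (f := fun e : Pt × Pt => e.1) (t := box n)]
  · apply Finset.sum_congr rfl
    intro v _
    rw [deg]
    apply Finset.card_bij (fun a _ => (v, a))
    · intro a ha
      rw [mem_nbr] at ha
      rw [Finset.mem_filter, mem_oedges hT]
      exact ⟨ha, rfl⟩
    · intro a _ b _ h
      exact congrArg Prod.snd h
    · rintro ⟨a, b⟩ he
      rw [Finset.mem_filter, mem_oedges hT] at he
      obtain ⟨h1, h2⟩ := he
      simp only at h1 h2
      subst h2
      exact ⟨b, mem_nbr.mpr h1, rfl⟩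
  · intro e he
    rw [Finset.mem_coe, mem_oedges hT] at he
    rw [Finset.mem_coe, mem_box]
    exact he.insq hT

/-- darts: directed edges with a triangle on the left -/
noncomputable def darts (n : ℕ) (T : Finset (Finset Pt)) : Finset (Pt × Pt) :=
  open Classical in ((box n) ×ˢ (box n)).filter (fun e => ∃ r, Pos T e.1 e.2 r)

theorem mem_darts (hT : UT n T) {e : Pt × Pt} : e ∈ darts n T ↔ ∃ r, Pos T e.1 e.2 r := by
  classical
  simp only [darts, Finset.mem_filter, Finset.mem_product, mem_box, and_iff_right_iff_imp]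
  rintro ⟨r, h⟩
  exact ⟨h.insq hT, h.cyc.insq hT⟩

/-- Positive triples with the same vertex set are cyclic rotations of each other. -/
theorem rot_of_set_eq {p q r a b c : Pt} (h : det p q r = 1) (g : det a b c = 1)
    (e : ({p, q, r} : Finset Pt) = {a, b, c}) :
    (p = a ∧ q = b ∧ r = c) ∨ (p = b ∧ q = c ∧ r = a) ∨ (p = c ∧ q = a ∧ r = b) := by
  have hp : p ∈ ({a, b, c} : Finset Pt) := by rw [← e]; simp
  have hq : q ∈ ({a, b, c} : Finset Pt) := by rw [← e]; simp
  have hr : r ∈ ({a, b, c} : Finset Pt) := by rw [← e]; simp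
  simp only [Finset.mem_insert, Finset.mem_singleton] at hp hq hr
  have n1 : p ≠ q := by rintro rfl; rw [det_self_left] at h; omega
  have n2 : q ≠ r := by rintro rfl; rw [det_self_right] at h; omega
  have n3 : p ≠ r := by rintro rfl; rw [det_self_out] at h; omega
  have g' : det a c b = -1 := by rw [det_swap', g]
  rcases hp with rfl | rfl | rfl <;> rcases hq with rfl | rfl | rfl <;>
    rcases hr with rfl | rfl | rfl <;> first
    | exact absurd rfl n1
    | exact absurd rfl n2
    | exact absurd rfl n3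
    | exact Or.inl ⟨rfl, rfl, rfl⟩
    | exact Or.inr (Or.inl ⟨rfl, rfl, rfl⟩)
    | exact Or.inr (Or.inr ⟨rfl, rfl, rfl⟩)
    | (exfalso; simp only [det] at h g; linarith)

theorem Pos.not_onSide_of_both (hT : UT n T) {p q r z : Pt} (h : Pos T p q r) (g : Pos T q p z) :
    ¬ OnSide n p q := by
  intro hs
  obtain ⟨r1, r2, r3, r4⟩ := h.cyc'.insq hT
  obtain ⟨z1, z2, z3, z4⟩ := g.cyc'.insq hT
  have h1 := h.2
  have h2 := g.2
  simp only [det] at h1 h2
  rcases hs with ⟨e1, e2⟩ | ⟨e1, e2⟩ | ⟨e1, e2⟩ | ⟨e1, e2⟩ <;> rw [e1, e2] at h1 h2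
  · rcases le_total 0 (q.2 - p.2) with k | k
    · have := mul_nonneg k r1; linarith
    · have := mul_nonneg (neg_nonneg.mpr k) z1; linarith
  · rcases le_total 0 (q.2 - p.2) with k | k
    · have := mul_nonneg k (sub_nonneg.mpr z2); linarith
    · have := mul_nonneg (neg_nonneg.mpr k) (sub_nonneg.mpr r2); linarith
  · rcases le_total 0 (q.1 - p.1) with k | k
    · have := mul_nonneg k z3; linarith
    · have := mul_nonneg (neg_nonneg.mpr k) r3; linarith
  · rcases le_total 0 (q.1 - p.1) with k | k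
    · have := mul_nonneg k (sub_nonneg.mpr r4); linarith
    · have := mul_nonneg (neg_nonneg.mpr k) (sub_nonneg.mpr z4); linarith

theorem card_darts_eq (hT : UT n T) : (darts n T).card = (Hs n).card + (Hi n).card := by
  classical
  have hsub : Hi n ⊆ Hs n := by
    intro m hm
    rw [mem_Hi] at hm
    rw [mem_Hs]
    exact ⟨⟨hm.1.1.le, hm.1.2.1.le, hm.1.2.2.1.le, hm.1.2.2.2.le⟩, hm.2⟩
  rw [Finset.card_eq_sum_card_fiberwise (f := fun e : Pt × Pt => ((e.1.1 + e.2.1, e.1.2 + e.2.2) : Pt))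
    (t := Hs n)]
  · have key : ∀ m ∈ Hs n, ((darts n T).filter
        (fun e : Pt × Pt => ((e.1.1 + e.2.1, e.1.2 + e.2.2) : Pt) = m)).card =
        1 + (if m ∈ Hi n then 1 else 0) := by
      intro m hm
      have hm' := hm
      rw [mem_Hs] at hm
      obtain ⟨⟨h1, h2, h3, h4⟩, hodd⟩ := hm
      obtain ⟨p, q, hpq, e1, e2⟩ := hT.exists_mid h1 h2 h3 h4 hodd
      -- choose orientation with a triangle on the left
      obtain ⟨p, q, r, hr, e1, e2⟩ : ∃ p q r, Pos T p q r ∧ p.1 + q.1 = m.1 ∧ p.2 + q.2 = m.2 := by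
        obtain ⟨r, h | h⟩ := hpq
        · exact ⟨p, q, r, h, e1, e2⟩
        · exact ⟨q, p, r, h, by omega, by omega⟩
      have hfib : ∀ e : Pt × Pt, (e ∈ (darts n T).filter
          (fun e : Pt × Pt => ((e.1.1 + e.2.1, e.1.2 + e.2.2) : Pt) = m)) ↔
          (e = (p, q) ∨ (e = (q, p) ∧ ∃ z, Pos T q p z)) := by
        intro e
        simp only [Finset.mem_filter, mem_darts hT]
        constructor
        · rintro ⟨⟨z, hz⟩, hem⟩
          have f1 : e.1.1 + e.2.1 = m.1 := congrArg Prod.fst hem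
          have f2 : e.1.2 + e.2.2 = m.2 := congrArg Prod.snd hem
          rcases hz.eq_of_mid hT hr (by omega) (by omega) with ⟨g1, g2⟩ | ⟨g1, g2⟩
          · left; exact Prod.ext g1 g2
          · right; refine ⟨Prod.ext g1 g2, z, ?_⟩
            rw [← g1, ← g2]; exact hz
        · rintro (rfl | ⟨rfl, z, hz⟩)
          · exact ⟨⟨r, hr⟩, Prod.ext e1 e2⟩
          · exact ⟨⟨z, hz⟩, Prod.ext (by simp only; omega) (by simp only; omega)⟩
      obtain ⟨p1, p2, p3, p4⟩ := hr.insq hT
      obtain ⟨q1, q2, q3, q4⟩ := hr.cyc.insq hT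
      have hne : p ≠ q := hr.ne
      by_cases hi : m ∈ Hi n
      · rw [if_pos hi]
        rw [mem_Hi] at hi
        obtain ⟨⟨i1, i2, i3, i4⟩, -⟩ := hi
        have hns : ¬ OnSide n p q := by
          rintro (⟨a, b⟩ | ⟨a, b⟩ | ⟨a, b⟩ | ⟨a, b⟩) <;> omega
        obtain ⟨z, hz⟩ := hr.neighbor hT hns
        have : (darts n T).filter
            (fun e : Pt × Pt => ((e.1.1 + e.2.1, e.1.2 + e.2.2) : Pt) = m) = {(p, q), (q, p)} := by
          ext e
          rw [hfib e]
          simp only [Finset.mem_insert, Finset.mem_singleton]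
          constructor
          · rintro (h | ⟨h, -⟩)
            · exact Or.inl h
            · exact Or.inr h
          · rintro (h | h)
            · exact Or.inl h
            · exact Or.inr ⟨h, z, hz⟩
        rw [this, Finset.card_pair]
        intro h
        exact hne (congrArg Prod.fst h)
      · rw [if_neg hi]
        have hs : OnSide n p q := by
          by_contra hns
          apply hi
          rw [mem_Hi]
          refine ⟨?_, hodd⟩
          simp only [OnSide, not_or, not_and] at hns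
          obtain ⟨k1, k2, k3, k4⟩ := hns
          refine ⟨?_, ?_, ?_, ?_⟩
          · by_contra hc
            exact k1 (by omega) (by omega)
          · by_contra hc
            exact k2 (by omega) (by omega)
          · by_contra hc
            exact k3 (by omega) (by omega)
          · by_contra hc
            exact k4 (by omega) (by omega)
        have : (darts n T).filter
            (fun e : Pt × Pt => ((e.1.1 + e.2.1, e.1.2 + e.2.2) : Pt) = m) = {(p, q)} := by
          ext e
          rw [hfib e]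
          simp only [Finset.mem_singleton]
          constructor
          · rintro (h | ⟨-, z, hz⟩)
            · exact h
            · exact absurd hs (hr.not_onSide_of_both hT hz)
          · intro h
            exact Or.inl h
        rw [this, Finset.card_singleton]
    rw [Finset.sum_congr rfl key, Finset.sum_add_distrib, Finset.sum_const, smul_eq_mul, mul_one,
      ← Finset.sum_filter, Finset.sum_const, smul_eq_mul, mul_one]
    congr 2
    ext m
    rw [Finset.mem_filter]
    exact ⟨fun h => h.2, fun h => ⟨hsub h, h⟩⟩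
  · intro e he
    rw [Finset.mem_coe, mem_darts hT] at he
    obtain ⟨r, hr⟩ := he
    exact hr.edge.sum_mem hT

theorem card_darts_three (hT : UT n T) : (darts n T).card = 3 * T.card := by
  classical
  -- count triples (p,q,r)
  rw [mul_comm]
  -- map a dart to its triangle
  have hmap : ∀ e ∈ darts n T, ∃ t ∈ T, ∃ r, t = {e.1, e.2, r} ∧ Pos T e.1 e.2 r := by
    intro e he
    rw [mem_darts hT] at he
    obtain ⟨r, hr⟩ := he
    exact ⟨_, hr.1, r, rfl, hr⟩
  choose! f hf using hmap
  rw [Finset.card_eq_sum_card_fiberwise (f := f) (t := T)]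
  · rw [Finset.sum_const_nat (m := 3)]
    intro t ht
    obtain ⟨a, b, c, rfl, habc⟩ := hT.exists_pos ht
    have : (darts n T).filter (fun e => f e = {a, b, c}) = {(a, b), (b, c), (c, a)} := by
      ext e
      simp only [Finset.mem_filter, Finset.mem_insert, Finset.mem_singleton]
      constructor
      · rintro ⟨he, hfe⟩
        obtain ⟨-, r, hr1, hr2⟩ := hf e he
        rw [hfe] at hr1
        rcases rot_of_set_eq hr2.2 habc.2 hr1.symm with ⟨g1, g2, -⟩ | ⟨g1, g2, -⟩ | ⟨g1, g2, -⟩
        · left; exact Prod.ext g1 g2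
        · right; left; exact Prod.ext g1 g2
        · right; right; exact Prod.ext g1 g2
      · have key : ∀ x y z : Pt, Pos T x y z → ({x, y, z} : Finset Pt) = {a, b, c} →
            (x, y) ∈ darts n T ∧ f (x, y) = {a, b, c} := by
          intro x y z hxyz hset
          have hd : (x, y) ∈ darts n T := (mem_darts hT).mpr ⟨z, hxyz⟩
          refine ⟨hd, ?_⟩
          obtain ⟨-, r, hr1, hr2⟩ := hf (x, y) hd
          have : r = z := hr2.unique hT hxyz
          rw [hr1, this]; exact hset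
        have p1 : ({b, c, a} : Finset Pt) = {a, b, c} := by
          ext x; simp only [Finset.mem_insert, Finset.mem_singleton]; tauto
        have p2 : ({c, a, b} : Finset Pt) = {a, b, c} := by
          ext x; simp only [Finset.mem_insert, Finset.mem_singleton]; tauto
        rintro (rfl | rfl | rfl)
        · exact key a b c habc rfl
        · exact key b c a habc.cyc p1
        · exact key c a b habc.cyc' p2
    rw [this, Finset.card_eq_three]
    refine ⟨(a, b), (b, c), (c, a), ?_, ?_, ?_, rfl⟩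
    · intro h; exact habc.ne (congrArg Prod.fst h)
    · intro h; exact habc.ne' (congrArg Prod.fst h)
    · intro h; exact habc.cyc.ne (congrArg Prod.fst h)
  · intro e he
    exact (hf e he).1

/-- The number of triangles is `2 n^2`. -/
theorem ut_card (hT : UT n T) : T.card = 2 * n ^ 2 := by
  have h1 := card_darts_three hT
  have h2 := card_darts_eq hT
  have h3 := card_Hs (n := n)
  have h4 := card_Hi (n := n)
  omega

/-- The number of (unordered) edges is `3 n^2 + 2 n`. -/
noncomputable def uedges (n : ℕ) (T : Finset (Finset Pt)) : Finset (Finset Pt) :=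
  (oedges n T).image (fun e => {e.1, e.2})

theorem mem_uedges (hT : UT n T) {ε : Finset Pt} :
    ε ∈ uedges n T ↔ ∃ p q, ε = {p, q} ∧ IsEdge T p q := by
  simp only [uedges, Finset.mem_image]
  constructor
  · rintro ⟨e, he, rfl⟩
    exact ⟨e.1, e.2, rfl, (mem_oedges hT).mp he⟩
  · rintro ⟨p, q, rfl, h⟩
    exact ⟨(p, q), (mem_oedges hT).mpr h, rfl⟩

theorem card_uedges (hT : UT n T) : (uedges n T).card = 3 * n ^ 2 + 2 * n := by
  classical
  have h := card_oedges hT
  have h2 : (oedges n T).card = 2 * (uedges n T).card := by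
    rw [mul_comm, Finset.card_eq_sum_card_fiberwise (f := fun e : Pt × Pt => ({e.1, e.2} : Finset Pt))
      (t := uedges n T)]
    · rw [Finset.sum_const_nat (m := 2)]
      intro ε hε
      rw [mem_uedges hT] at hε
      obtain ⟨p, q, rfl, hpq⟩ := hε
      have : (oedges n T).filter (fun e : Pt × Pt => ({e.1, e.2} : Finset Pt) = {p, q}) =
          {(p, q), (q, p)} := by
        ext e
        simp only [Finset.mem_filter, mem_oedges hT, Finset.mem_insert, Finset.mem_singleton]
        constructor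
        · rintro ⟨he, hem⟩
          have f1 : e.1 ∈ ({p, q} : Finset Pt) := by rw [← hem]; simp
          have f2 : e.2 ∈ ({p, q} : Finset Pt) := by rw [← hem]; simp
          simp only [Finset.mem_insert, Finset.mem_singleton] at f1 f2
          have hne := he.ne_card
          rcases f1 with f1 | f1 <;> rcases f2 with f2 | f2
          · exact absurd (f1.trans f2.symm) hne
          · left; exact Prod.ext f1 f2
          · right; exact Prod.ext f1 f2
          · exact absurd (f1.trans f2.symm) hne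
        · rintro (rfl | rfl)
          · exact ⟨hpq, rfl⟩
          · exact ⟨hpq.symm, Finset.pair_comm _ _⟩
      rw [this, Finset.card_pair]
      intro h
      exact hpq.ne_card (congrArg Prod.fst h)
    · intro e he
      rw [Finset.mem_coe] at he
      rw [Finset.mem_coe, uedges, Finset.mem_image]
      exact ⟨e, he, rfl⟩
  omega

end Pool.Agent.IT
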