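import Pool.Agent.IT.Share

/-!
# Dual connectedness of the triangles meeting a segment without lattice points, and of the triangles
meeting the interior of a copy of the pattern region
-/

set_option autoImplicit false

namespace Pool.Agent.IT

open Filter Topology

variable {n : ℕ} {T : Finset (Finset Pt)}

/-- One step of a dual path inside `S`. -/
def StepIn (S : Finset (Finset Pt)) (a b : Finset Pt) : Prop := a ∈ S ∧ b ∈ S ∧ Adj a b

/-- `S` is dual-connected. -/
def Conn (S : Finset (Finset Pt)) : Prop :=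
  ∀ t ∈ S, ∀ s ∈ S, Relation.ReflTransGen (StepIn S) t s

theorem StepIn.symm {S : Finset (Finset Pt)} {a b : Finset Pt} (h : StepIn S a b) :
    StepIn S b a := ⟨h.2.1, h.1, h.2.2.symm⟩

theorem reach_symm {S : Finset (Finset Pt)} {a b : Finset Pt}
    (h : Relation.ReflTransGen (StepIn S) a b) : Relation.ReflTransGen (StepIn S) b a := by
  induction h with
  | refl => exact Relation.ReflTransGen.refl
  | tail _ h2 ih => exact Relation.ReflTransGen.head h2.symm ih

/-- The triangles meeting a segment which contains no lattice point are dual-connected. -/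
theorem UT.seg_conn (hT : UT n T) {x y : ℝ × ℝ} (hseg : segment ℝ x y ⊆ Sq n)
    (hnl : ∀ v : Pt, emb v ∉ segment ℝ x y) (S : Finset (Finset Pt)) (hST : S ⊆ T)
    (hS : ∀ t ∈ T, (cell t ∩ segment ℝ x y).Nonempty → t ∈ S) {t s : Finset Pt}
    (ht : t ∈ T) (hs : s ∈ T) (hx : x ∈ cell t) (hy : y ∈ cell s) :
    Relation.ReflTransGen (StepIn S) t s := by
  classical
  have hxs : x ∈ segment ℝ x y := left_mem_segment ℝ x y
  have hys : y ∈ segment ℝ x y := right_mem_segment ℝ x y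
  have htS : t ∈ S := hS t ht ⟨x, hx, hxs⟩
  have hsS : s ∈ S := hS s hs ⟨y, hy, hys⟩
  set A : Finset (Finset Pt) := S.filter fun a => Relation.ReflTransGen (StepIn S) t a with hA
  set B : Finset (Finset Pt) := S.filter fun a => ¬ Relation.ReflTransGen (StepIn S) t a with hB
  by_contra hcon
  have hsB : s ∈ B := Finset.mem_filter.2 ⟨hsS, hcon⟩
  have htA : t ∈ A := Finset.mem_filter.2 ⟨htS, Relation.ReflTransGen.refl⟩
  have closed : ∀ U : Finset (Finset Pt), U ⊆ S → IsClosed (⋃ a ∈ U, cell a) := by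
    intro U hU
    apply Set.Finite.isClosed_biUnion U.finite_toSet
    intro a ha
    obtain ⟨p, q, r, rfl, h⟩ := hT.exists_pos (hST (hU ha))
    exact isClosed_cell h.2
  have hcA := closed A (Finset.filter_subset _ _)
  have hcB := closed B (Finset.filter_subset _ _)
  have hpre : IsPreconnected (segment ℝ x y) := (convex_segment x y).isPreconnected
  have hcov : segment ℝ x y ⊆ (⋃ a ∈ A, cell a) ∪ (⋃ a ∈ B, cell a) := by
    intro z hz
    obtain ⟨a, ha, hza⟩ := hT.exists_cell (hseg hz)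
    have haS : a ∈ S := hS a ha ⟨z, hza, hz⟩
    by_cases h : Relation.ReflTransGen (StepIn S) t a
    · left
      simp only [Set.mem_iUnion, exists_prop]
      exact ⟨a, Finset.mem_filter.2 ⟨haS, h⟩, hza⟩
    · right
      simp only [Set.mem_iUnion, exists_prop]
      exact ⟨a, Finset.mem_filter.2 ⟨haS, h⟩, hza⟩
  have h1 : (segment ℝ x y ∩ ⋃ a ∈ A, cell a).Nonempty := by
    refine ⟨x, hxs, ?_⟩
    simp only [Set.mem_iUnion, exists_prop]
    exact ⟨t, htA, hx⟩
  have h2 : (segment ℝ x y ∩ ⋃ a ∈ B, cell a).Nonempty := by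
    refine ⟨y, hys, ?_⟩
    simp only [Set.mem_iUnion, exists_prop]
    exact ⟨s, hsB, hy⟩
  obtain ⟨z, hz, hzA, hzB⟩ := isPreconnected_closed_iff.1 hpre _ _ hcA hcB hcov h1 h2
  simp only [Set.mem_iUnion, exists_prop] at hzA hzB
  obtain ⟨a, ha, hza⟩ := hzA
  obtain ⟨b, hb, hzb⟩ := hzB
  obtain ⟨haS, hra⟩ := Finset.mem_filter.1 ha
  obtain ⟨hbS, hrb⟩ := Finset.mem_filter.1 hb
  rcases hT.adj_of_mem (hST haS) (hST hbS) hza hzb (fun v hv => hnl v (hv ▸ hz)) with h | h
  · exact hrb (h ▸ hra)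
  · exact hrb (hra.tail ⟨haS, hbS, h⟩)

/-! ### Generic segments -/

/-- a nonzero polynomial of degree at most two has no small positive roots -/
theorem eventually_quad {c0 c1 c2 : ℝ} (h : c0 ≠ 0 ∨ c1 ≠ 0 ∨ c2 ≠ 0) :
    ∀ᶠ ε in 𝓝[>] (0:ℝ), c0 + ε * c1 + ε ^ 2 * c2 ≠ 0 := by
  by_cases h0 : c0 = 0
  · by_cases h1 : c1 = 0
    · have h2 : c2 ≠ 0 := by tauto
      filter_upwards [self_mem_nhdsWithin] with ε hε
      have : (0:ℝ) < ε := hε
      rw [h0, h1]
      have : ε ^ 2 * c2 ≠ 0 := mul_ne_zero (by positivity) h2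
      simpa using this
    · have hc : Continuous (fun ε : ℝ => c1 + ε * c2) := by fun_prop
      have : ∀ᶠ ε in 𝓝 (0:ℝ), c1 + ε * c2 ≠ 0 := by
        apply hc.continuousAt.eventually_ne
        simpa using h1
      filter_upwards [this.filter_mono nhdsWithin_le_nhds, self_mem_nhdsWithin] with ε h2 hε
      have : (0:ℝ) < ε := hε
      rw [h0]
      have h3 : ε * (c1 + ε * c2) ≠ 0 := mul_ne_zero this.ne' h2
      intro h4
      apply h3
      linarith [h4]
  · have hc : Continuous (fun ε : ℝ => c0 + ε * c1 + ε ^ 2 * c2) := by fun_prop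
    have : ∀ᶠ ε in 𝓝 (0:ℝ), c0 + ε * c1 + ε ^ 2 * c2 ≠ 0 := by
      apply hc.continuousAt.eventually_ne
      simpa using h0
    exact this.filter_mono nhdsWithin_le_nhds

/-- In an open set there is a point `y` such that the segment from a given non-lattice point contains no
lattice point of a given finite set. -/
theorem exists_generic_seg (V : Finset Pt) {x : ℝ × ℝ} (hx : ∀ v : Pt, x ≠ emb v) {U : Set (ℝ × ℝ)}
    (hU : IsOpen U) {y : ℝ × ℝ} (hy : y ∈ U) :
    ∃ y' ∈ U, ∀ v ∈ V, emb v ∉ segment ℝ x y' := by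
  have hc : Continuous (fun ε : ℝ => ((y.1 + ε, y.2 + ε ^ 2) : ℝ × ℝ)) := by fun_prop
  have h1 : ∀ᶠ ε in 𝓝[>] (0:ℝ), ((y.1 + ε, y.2 + ε ^ 2) : ℝ × ℝ) ∈ U := by
    have : ∀ᶠ ε in 𝓝 (0:ℝ), ((y.1 + ε, y.2 + ε ^ 2) : ℝ × ℝ) ∈ U := by
      apply hc.continuousAt.eventually_mem
      simpa using hU.mem_nhds hy
    exact this.filter_mono nhdsWithin_le_nhds
  have h2 : ∀ᶠ ε in 𝓝[>] (0:ℝ), ∀ v ∈ V,
      (((v.1:ℝ) - x.1) * (y.2 - x.2) - ((v.2:ℝ) - x.2) * (y.1 - x.1)) + ε * (-((v.2:ℝ) - x.2))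
        + ε ^ 2 * ((v.1:ℝ) - x.1) ≠ 0 := by
    rw [Finset.eventually_all]
    intro v _
    apply eventually_quad
    right
    by_contra hcon
    push Not at hcon
    apply hx v
    ext
    · simp only [emb]; linarith [hcon.2]
    · simp only [emb]; linarith [hcon.1]
  obtain ⟨ε, g1, g2⟩ := (h1.and h2).exists
  refine ⟨_, g1, ?_⟩
  intro v hv hmem
  apply g2 v hv
  obtain ⟨a, b, _, _, hab, he⟩ := hmem
  have e1 : a * x.1 + b * (y.1 + ε) = (v.1 : ℝ) := by
    have := congrArg Prod.fst he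
    simpa [emb] using this
  have e2 : a * x.2 + b * (y.2 + ε ^ 2) = (v.2 : ℝ) := by
    have := congrArg Prod.snd he
    simpa [emb] using this
  have ha : a = 1 - b := by linarith
  rw [ha] at e1 e2
  have f1 : (v.1 : ℝ) - x.1 = b * (y.1 + ε - x.1) := by linarith
  have f2 : (v.2 : ℝ) - x.2 = b * (y.2 + ε ^ 2 - x.2) := by linarith
  rw [f1, f2]; ring

theorem not_lattice_of_interior {p q r : Pt} (h : det p q r = 1) {x : ℝ × ℝ}
    (hx : x ∈ interior (cell {p, q, r})) (v : Pt) : x ≠ emb v := by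
  rintro rfl
  rw [mem_interior_cell_iff h, dl_emb, dl_emb, dl_emb] at hx
  obtain ⟨h1, h2, h3⟩ := hx
  have h1' : 0 < det p q v := by exact_mod_cast h1
  have h2' : 0 < det q r v := by exact_mod_cast h2
  have h3' : 0 < det r p v := by exact_mod_cast h3
  have hs : det p q v + det q r v + det r p v = 1 := by
    rw [← h]; simp only [det]; ring
  omega

/-- The triangles meeting a convex open part of the square are dual-connected. -/
theorem UT.conn_of_convex (hT : UT n T) {U : Set (ℝ × ℝ)} (hU : IsOpen U) (hUc : Convex ℝ U)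
    (hUS : U ⊆ Sq n) (S : Finset (Finset Pt)) (hST : S ⊆ T)
    (hS : ∀ t, t ∈ S ↔ t ∈ T ∧ (cell t ∩ U).Nonempty) : Conn S := by
  intro t ht s hs
  obtain ⟨htT, x, hx, hxU⟩ := (hS t).1 ht
  obtain ⟨hsT, y, hy, hyU⟩ := (hS s).1 hs
  obtain ⟨p, q, r, rfl, hp⟩ := hT.exists_pos htT
  obtain ⟨a, b, c, rfl, ha⟩ := hT.exists_pos hsT
  -- interior points
  have move : ∀ {p q r : Pt}, det p q r = 1 → ∀ {x : ℝ × ℝ}, x ∈ cell {p, q, r} → x ∈ U →
      ∃ x', x' ∈ interior (cell {p, q, r}) ∧ x' ∈ U := by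
    intro p q r hd x hx hxU
    obtain ⟨w, hw⟩ := toward_center hd hx
    have hc : Continuous (fun ε : ℝ => x + ε • w) := by fun_prop
    have hev : ∀ᶠ ε in 𝓝 (0:ℝ), x + ε • w ∈ U := by
      apply hc.continuousAt.eventually_mem
      have h00 : x + (0:ℝ) • w = x := by simp
      rw [h00]; exact hU.mem_nhds hxU
    obtain ⟨ε, h1, h2⟩ := (hw.and (hev.filter_mono nhdsWithin_le_nhds)).exists
    exact ⟨_, h1, h2⟩
  obtain ⟨x', hx', hxU'⟩ := move hp.2 hx hxU
  obtain ⟨y0, hy0, hyU0⟩ := move ha.2 hy hyU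
  set V : Finset Pt := (Finset.Icc (0:ℤ) n) ×ˢ (Finset.Icc (0:ℤ) n) with hV
  obtain ⟨y', ⟨hy1, hy2⟩, hgen⟩ := exists_generic_seg V (not_lattice_of_interior hp.2 hx')
    (isOpen_interior.inter hU) ⟨hy0, hyU0⟩
  have hseg : segment ℝ x' y' ⊆ U := hUc.segment_subset hxU' hy2
  have hnl : ∀ v : Pt, emb v ∉ segment ℝ x' y' := by
    intro v hv
    have hvS := hUS (hseg hv)
    rw [mem_Sq] at hvS
    simp only [emb] at hvS
    obtain ⟨h1, h2, h3, h4⟩ := hvS
    apply hgen v _ hv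
    rw [hV, Finset.mem_product, Finset.mem_Icc, Finset.mem_Icc]
    exact ⟨⟨by exact_mod_cast h1, by exact_mod_cast h2⟩, by exact_mod_cast h3, by exact_mod_cast h4⟩
  apply hT.seg_conn (hseg.trans hUS) hnl S hST _ htT hsT (interior_subset hx') (interior_subset hy1)
  intro u hu hne
  rw [hS]
  obtain ⟨z, hz1, hz2⟩ := hne
  exact ⟨hu, z, hz1, hseg hz2⟩

end Pool.Agent.IT
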