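import Pool.Agent.IT.FamCore

/-!
# M16 `fam_count` from the number of triangles
-/

set_option autoImplicit false

namespace Pool.Agent.IT

/-- `fam_count` for any notion of triangulation with at most `2 n ^ 2` triangles -/
theorem fam_count_of (hcard : ∀ (n : ℕ) (T : Finset (Finset Pt)), UT n T → T.card ≤ 2 * n ^ 2) :
    ∀ η : ℝ, 0 < η → ∃ β : ℝ, 0 < β ∧ ∃ n0 : ℕ, ∀ n, n0 ≤ n →
    ∀ T : Finset (Finset Pt), UT n T →
    (({F | (∀ D ∈ F, D.Ok ∧ D.canon ⊆ T) ∧ (∀ D ∈ F, ∀ D' ∈ F, D ≠ D' → Disjoint D.canon D'.canon) ∧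
        (F.card : ℝ) ≤ β * (n : ℝ) ^ 2} : Set (Finset BoxD)).ncard : ℝ) ≤
      (2 : ℝ) ^ (η * (n : ℝ) ^ 2) := by
  intro η hη
  obtain ⟨β, hβ, h⟩ := fam_core η hη
  refine ⟨β, hβ, 0, fun n _ T hT => ?_⟩
  have h3 : ∀ t ∈ T, t.card ≤ 3 := by
    intro t ht
    obtain ⟨a, b, c, rfl, -⟩ := hT.tri t ht
    exact Finset.card_le_three
  have h4 := h (n ^ 2) T h3 (hcard n T hT)
  have e : ((n ^ 2 : ℕ) : ℝ) = (n : ℝ) ^ 2 := by push_cast; rfl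
  rw [e] at h4
  exact h4

end Pool.Agent.IT
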