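import Pool.Agent.IT.SweepS

set_option autoImplicit false
open Set Filter Topology

namespace Pool.Agent.IT

/-- point on `[b,c]` -/
def wpt (b c : ℝ × ℝ) (τ : ℝ) : ℝ × ℝ := (b.1 + τ * (c.1 - b.1), b.2 + τ * (c.2 - b.2))

theorem wpt_mem {b c : ℝ × ℝ} {τ : ℝ} (h0 : 0 ≤ τ) (h1 : τ ≤ 1) : wpt b c τ ∈ segment ℝ b c := by
  refine ⟨1 - τ, τ, by linarith, h0, by ring, ?_⟩
  ext
  · simp only [wpt, Prod.fst_add, Prod.smul_fst, smul_eq_mul]; ring
  · simp only [wpt, Prod.snd_add, Prod.smul_snd, smul_eq_mul]; ring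

theorem seg_bw {b c : ℝ × ℝ} {τ : ℝ} (h0 : 0 ≤ τ) (h1 : τ ≤ 1) :
    segment ℝ b (wpt b c τ) ⊆ segment ℝ b c :=
  (convex_segment b c).segment_subset (left_mem_segment ℝ b c) (wpt_mem h0 h1)

theorem seg_wc {b c : ℝ × ℝ} {τ : ℝ} (h0 : 0 ≤ τ) (h1 : τ ≤ 1) :
    segment ℝ (wpt b c τ) c ⊆ segment ℝ b c :=
  (convex_segment b c).segment_subset (wpt_mem h0 h1) (right_mem_segment ℝ b c)

theorem sa_abw (a b c : ℝ × ℝ) (τ : ℝ) : sa a b (wpt b c τ) = τ * sa a b c := by
  simp only [sa, wpt]; ring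

theorem sa_awc (a b c : ℝ × ℝ) (τ : ℝ) : sa a (wpt b c τ) c = (1 - τ) * sa a b c := by
  simp only [sa, wpt]; ring

theorem cf_abw1 {a b c : ℝ × ℝ} {τ : ℝ} (hτ : τ ≠ 0) (u : ℝ × ℝ) :
    cf a b (wpt b c τ) u = cf a b c u := by
  simp only [cf, sa_abw]
  rw [show sa b (wpt b c τ) u = τ * sa b c u by simp only [sa, wpt]; ring, mul_div_mul_left _ _ hτ]

theorem cf_abw2 {a b c : ℝ × ℝ} {τ : ℝ} (hτ : τ ≠ 0) (u : ℝ × ℝ) :
    cf b (wpt b c τ) a u = cf b c a u - (1 - τ) / τ * cf c a b u := by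
  simp only [cf]
  rw [sa_cyc a b (wpt b c τ), sa_abw, sa_cyc a b c, show sa c a b = sa a b c by simp only [sa]; ring]
  by_cases h : sa a b c = 0
  · simp [h]
  · rw [show sa (wpt b c τ) a u = τ * sa c a u - (1 - τ) * sa a b u by simp only [sa, wpt]; ring]
    field_simp

theorem cf_abw3 {a b c : ℝ × ℝ} {τ : ℝ} (hτ : τ ≠ 0) (u : ℝ × ℝ) :
    cf (wpt b c τ) a b u = cf c a b u / τ := by
  simp only [cf]
  rw [show sa (wpt b c τ) a b = τ * sa a b c by simp only [sa, wpt]; ring,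
    show sa c a b = sa a b c by simp only [sa]; ring]
  by_cases h : sa a b c = 0
  · simp [h]
  · field_simp

theorem cf_awc1 {a b c : ℝ × ℝ} {τ : ℝ} (hτ : 1 - τ ≠ 0) (u : ℝ × ℝ) :
    cf a (wpt b c τ) c u = cf a b c u := by
  simp only [cf, sa_awc]
  rw [show sa (wpt b c τ) c u = (1 - τ) * sa b c u by simp only [sa, wpt]; ring,
    mul_div_mul_left _ _ hτ]

theorem cf_awc2 {a b c : ℝ × ℝ} {τ : ℝ} (hτ : 1 - τ ≠ 0) (u : ℝ × ℝ) :
    cf (wpt b c τ) c a u = cf b c a u / (1 - τ) := by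
  simp only [cf]
  rw [show sa (wpt b c τ) c a = (1 - τ) * sa a b c by simp only [sa, wpt]; ring, sa_cyc a b c]
  by_cases h : sa a b c = 0
  · simp [h]
  · field_simp

theorem cf_awc3 {a b c : ℝ × ℝ} {τ : ℝ} (hτ : 1 - τ ≠ 0) (u : ℝ × ℝ) :
    cf c a (wpt b c τ) u = cf c a b u - τ / (1 - τ) * cf b c a u := by
  simp only [cf]
  rw [show sa c a (wpt b c τ) = (1 - τ) * sa a b c by simp only [sa, wpt]; ring,
    show sa c a b = sa a b c by simp only [sa]; ring, sa_cyc a b c]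
  by_cases h : sa a b c = 0
  · simp [h]
  · rw [show sa a (wpt b c τ) u = (1 - τ) * sa a b u - τ * sa c a u by simp only [sa, wpt]; ring]
    field_simp

theorem mem_Trg {a b c u : ℝ × ℝ} :
    u ∈ Trg a b c ↔ 0 ≤ cf a b c u ∧ 0 ≤ cf b c a u ∧ 0 ≤ cf c a b u := Iff.rfl

theorem mem_Trg_abw {a b c : ℝ × ℝ} {τ : ℝ} (h0 : 0 < τ) (u : ℝ × ℝ) :
    u ∈ Trg a b (wpt b c τ) ↔ 0 ≤ cf a b c u ∧ (1 - τ) * cf c a b u ≤ τ * cf b c a u ∧
      0 ≤ cf c a b u := by
  rw [mem_Trg, cf_abw1 h0.ne', cf_abw2 h0.ne', cf_abw3 h0.ne']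
  have e1 : 0 ≤ cf b c a u - (1 - τ) / τ * cf c a b u ↔
      (1 - τ) * cf c a b u ≤ τ * cf b c a u := by
    rw [sub_nonneg, div_mul_eq_mul_div, div_le_iff₀ h0, mul_comm (cf b c a u)]
  have e2 : 0 ≤ cf c a b u / τ ↔ 0 ≤ cf c a b u := by
    constructor
    · intro h
      have := mul_nonneg h h0.le
      rwa [div_mul_cancel₀ _ h0.ne'] at this
    · intro h; exact div_nonneg h h0.le
  rw [e1, e2]

theorem mem_Trg_awc {a b c : ℝ × ℝ} {τ : ℝ} (h1 : τ < 1) (u : ℝ × ℝ) :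
    u ∈ Trg a (wpt b c τ) c ↔ 0 ≤ cf a b c u ∧ 0 ≤ cf b c a u ∧
      τ * cf b c a u ≤ (1 - τ) * cf c a b u := by
  have h1' : 0 < 1 - τ := by linarith
  rw [mem_Trg, cf_awc1 h1'.ne', cf_awc2 h1'.ne', cf_awc3 h1'.ne']
  have e1 : 0 ≤ cf c a b u - τ / (1 - τ) * cf b c a u ↔
      τ * cf b c a u ≤ (1 - τ) * cf c a b u := by
    rw [sub_nonneg, div_mul_eq_mul_div, div_le_iff₀ h1', mul_comm (cf c a b u)]
  have e2 : 0 ≤ cf b c a u / (1 - τ) ↔ 0 ≤ cf b c a u := by
    constructor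
    · intro h
      have := mul_nonneg h h1'.le
      rwa [div_mul_cancel₀ _ h1'.ne'] at this
    · intro h; exact div_nonneg h h1'.le
  rw [e1, e2]

theorem Trg_abw_sub {a b c : ℝ × ℝ} {τ : ℝ} (h0 : 0 < τ) (h1 : τ ≤ 1) :
    Trg a b (wpt b c τ) ⊆ Trg a b c := by
  intro u hu
  rw [mem_Trg_abw h0] at hu
  obtain ⟨g1, g2, g3⟩ := hu
  refine ⟨g1, ?_, g3⟩
  have := mul_nonneg (by linarith : (0:ℝ) ≤ 1 - τ) g3
  exact nonneg_of_mul_nonneg_right (by linarith) h0

theorem Trg_awc_sub {a b c : ℝ × ℝ} {τ : ℝ} (h0 : 0 ≤ τ) (h1 : τ < 1) :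
    Trg a (wpt b c τ) c ⊆ Trg a b c := by
  intro u hu
  rw [mem_Trg_awc h1] at hu
  obtain ⟨g1, g2, g3⟩ := hu
  refine ⟨g1, g2, ?_⟩
  have := mul_nonneg h0 g2
  exact nonneg_of_mul_nonneg_right (by linarith) (by linarith : (0:ℝ) < 1 - τ)

/-- cross product seen from `a` in barycentric coordinates -/
theorem sa_apq {a b c : ℝ × ℝ} (h : sa a b c ≠ 0) (p q : ℝ × ℝ) :
    sa a p q = (cf b c a p * cf c a b q - cf c a b p * cf b c a q) * sa a b c := by
  simp only [cf]
  rw [sa_cyc a b c, show sa c a b = sa a b c by simp only [sa]; ring]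
  field_simp
  simp only [sa]; ring

/-- boundedness of antipode marks around `t0` -/
def MarksLE (n : ℕ) (T : Finset (Finset Pt)) (t0 : Finset Pt) (K : ℕ → ℕ) : Prop :=
  ∀ ρ : ℕ, ∀ D ∈ dball T t0 ρ, ∀ v ∈ D, InSqo n v → (anti T D v).card ≤ K ρ

theorem isPreconnected_two_seg (a b c : ℝ × ℝ) :
    IsPreconnected (segment ℝ a b ∪ segment ℝ b c) :=
  IsPreconnected.union b (right_mem_segment ℝ a b) (left_mem_segment ℝ b c)
    (convex_segment a b).isPreconnected (convex_segment b c).isPreconnected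

/-- **Sweeping lemma.** -/
theorem sweep (K : ℕ → ℕ) : ∀ k m : ℕ, ∃ M : ℕ, ∀ (n : ℕ) (T : Finset (Finset Pt)) (t0 : Finset Pt)
    (a b c : ℝ × ℝ) (P : Finset Pt), UT n T → t0 ∈ T → MarksLE n T t0 K → a ∈ cell t0 →
    sa a b c ≠ 0 → Trg a b c ⊆ Sq n → (∀ p : Pt, emb p ∈ Trg a b c ↔ p ∈ P) → P.card = k →
    (∀ p ∈ P, 0 < cf a b c (emb p) ∧ 0 < cf b c a (emb p) ∧ 0 < cf c a b (emb p)) →
    (∀ p ∈ P, ∀ q ∈ P, p ≠ q → sa a (emb p) (emb q) ≠ 0) →
    (∀ p ∈ P, InSqo n p) →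
    NM T (segment ℝ a b ∪ segment ℝ b c) ≤ m → NM T (segment ℝ a c) ≤ M := by
  classical
  intro k
  induction k with
  | zero =>
    intro m
    refine ⟨m, ?_⟩
    intro n T t0 a b c P hT ht0 hK ha h hSq hP hcard _ _ _ hN
    refine le_trans (NM_L0 h ?_ T) hN
    intro p hp
    have := (hP p).mp hp
    rw [Finset.card_eq_zero.mp hcard] at this
    exact absurd this (Finset.notMem_empty p)
  | succ k ih =>
    intro m
    obtain ⟨M, hM⟩ := ih ((K m + 1) * m + m)
    refine ⟨M, ?_⟩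
    intro n T t0 a b c P hT ht0 hK ha h hSq hP hcard hint hgen hin hN
    have hPne : P.Nonempty := by
      rw [← Finset.card_pos, hcard]; omega
    -- the slopes
    set τ : Pt → ℝ := fun p => cf c a b (emb p) / (cf b c a (emb p) + cf c a b (emb p)) with hτ
    have hτpos : ∀ p ∈ P, 0 < τ p := fun p hp =>
      div_pos (hint p hp).2.2 (add_pos (hint p hp).2.1 (hint p hp).2.2)
    have hτlt : ∀ p ∈ P, τ p < 1 := fun p hp => by
      rw [hτ]
      simp only
      rw [div_lt_one (add_pos (hint p hp).2.1 (hint p hp).2.2)]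
      linarith [(hint p hp).2.1]
    have hτne : ∀ p ∈ P, ∀ q ∈ P, p ≠ q → τ p ≠ τ q := by
      intro p hp q hq hpq he
      apply hgen p hp q hq hpq
      rw [sa_apq h]
      have h1 := add_pos (hint p hp).2.1 (hint p hp).2.2
      have h2 := add_pos (hint q hq).2.1 (hint q hq).2.2
      simp only [hτ] at he
      rw [div_eq_div_iff h1.ne' h2.ne'] at he
      have : cf b c a (emb p) * cf c a b (emb q) - cf c a b (emb p) * cf b c a (emb q) = 0 := by
        linarith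
      rw [this, zero_mul]
    obtain ⟨p1, hp1, hmin⟩ := Finset.exists_min_image P τ hPne
    -- the next slope
    set Q : Finset ℝ := insert 1 ((P.erase p1).image τ) with hQ
    have hQne : Q.Nonempty := ⟨1, Finset.mem_insert_self _ _⟩
    set τ2 := Q.min' hQne with hτ2
    have hτ2mem : τ2 ∈ Q := Finset.min'_mem Q hQne
    have hlt : τ p1 < τ2 := by
      rw [hQ, Finset.mem_insert] at hτ2mem
      rcases hτ2mem with h' | h'
      · rw [h']; exact hτlt p1 hp1
      · rw [Finset.mem_image] at h'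
        obtain ⟨q, hq, hq'⟩ := h'
        rw [Finset.mem_erase] at hq
        rw [← hq']
        exact lt_of_le_of_ne (hmin q hq.2) (hτne p1 hp1 q hq.2 (Ne.symm hq.1))
    have hle1 : τ2 ≤ 1 := Finset.min'_le Q 1 (Finset.mem_insert_self _ _)
    have hleq : ∀ q ∈ P.erase p1, τ2 ≤ τ q := fun q hq =>
      Finset.min'_le Q _ (Finset.mem_insert_of_mem (Finset.mem_image_of_mem τ hq))
    set σ := (τ p1 + τ2) / 2 with hσ
    have hσ1 : τ p1 < σ := by rw [hσ]; linarith
    have hσ2 : σ < τ2 := by rw [hσ]; linarith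
    have hσ0 : 0 < σ := lt_trans (hτpos p1 hp1) hσ1
    have hσ3 : σ < 1 := lt_of_lt_of_le hσ2 hle1
    -- translation of the slope conditions
    have key1 : ∀ p ∈ P, τ p < σ → (1 - σ) * cf c a b (emb p) < σ * cf b c a (emb p) := by
      intro p hp hlt
      have h1 := add_pos (hint p hp).2.1 (hint p hp).2.2
      simp only [hτ] at hlt
      rw [div_lt_iff₀ h1] at hlt
      linarith
    have key2 : ∀ p ∈ P, σ < τ p → σ * cf b c a (emb p) < (1 - σ) * cf c a b (emb p) := by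
      intro p hp hlt
      have h1 := add_pos (hint p hp).2.1 (hint p hp).2.2
      simp only [hτ] at hlt
      rw [lt_div_iff₀ h1] at hlt
      linarith
    set w := wpt b c σ with hw
    have hother : ∀ q ∈ P, q ≠ p1 → σ < τ q := fun q hq hne =>
      lt_of_lt_of_le hσ2 (hleq q (Finset.mem_erase.mpr ⟨hne, hq⟩))
    have sub1 : Trg a b w ⊆ Trg a b c := Trg_abw_sub hσ0 hσ3.le
    have sub2 : Trg a w c ⊆ Trg a b c := Trg_awc_sub hσ0.le hσ3
    have hS1 : sa a b w ≠ 0 := by rw [hw, sa_abw]; exact mul_ne_zero hσ0.ne' h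
    have hσ4 : (1 - σ) ≠ 0 := by intro he; linarith
    have hS2 : sa a w c ≠ 0 := by
      rw [hw, sa_awc]; exact mul_ne_zero hσ4 h
    -- no lattice points on the two sides
    have hside : ∀ p : Pt, emb p ∉ segment ℝ a b ∪ segment ℝ b c := by
      rintro p (hp | hp)
      · have hmem : emb p ∈ Trg a b c := seg_subset_Trg h hp
        have h3 := (hint p ((hP p).mp hmem)).2.2
        rw [cf_seg_zero hp] at h3
        exact lt_irrefl _ h3
      · have hmem : emb p ∈ Trg a b c := by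
          rw [← Trg_cyc]; exact seg_subset_Trg (sa_ne_cyc h) hp
        have h3 := (hint p ((hP p).mp hmem)).1
        rw [cf_seg_zero hp] at h3
        exact lt_irrefl _ h3
    have hSsq : segment ℝ a b ∪ segment ℝ b c ⊆ Sq n := by
      rintro x (hx | hx)
      · exact hSq (seg_subset_Trg h hx)
      · apply hSq; rw [← Trg_cyc]; exact seg_subset_Trg (sa_ne_cyc h) hx
    have ht0F : t0 ∈ FM T (segment ℝ a b ∪ segment ℝ b c) :=
      mem_FM.mpr ⟨ht0, a, ha, Or.inl (left_mem_segment ℝ a b)⟩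
    have hball := hT.FM_subset_dball (isPreconnected_two_seg a b c) hSsq hside ht0F
    have hsub1 : segment ℝ a b ∪ segment ℝ b w ⊆ segment ℝ a b ∪ segment ℝ b c :=
      union_subset_union_right _ (seg_bw hσ0.le hσ3.le)
    -- first step
    have step1 : NM T (segment ℝ a w) ≤ (K m + 1) * NM T (segment ℝ a b ∪ segment ℝ b w) := by
      apply hT.NM_L1 hS1 (hin p1 hp1)
      · rw [hw, mem_Trg_abw hσ0]
        exact ⟨(hint p1 hp1).1.le, (key1 p1 hp1 hσ1).le, (hint p1 hp1).2.2.le⟩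
      · intro p hp
        by_contra hne
        have hpP := (hP p).mp (sub1 hp)
        have := key2 p hpP (hother p hpP hne)
        rw [hw, mem_Trg_abw hσ0] at hp
        linarith [hp.2.1]
      · intro D hD hvD hmeet
        have hDF : D ∈ FM T (segment ℝ a b ∪ segment ℝ b c) := mem_FM.mpr ⟨hD, hmeet.mono hsub1⟩
        exact hK m D (dball_mono hN (hball hDF)) p1 hvD (hin p1 hp1)
    have step1' : NM T (segment ℝ a w) ≤ (K m + 1) * m :=
      le_trans step1 (Nat.mul_le_mul_left _ (le_trans (NM_mono T hsub1) hN))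
    -- second step
    apply hM n T t0 a w c (P.erase p1) hT ht0 hK ha hS2 (sub2.trans hSq)
    · intro p
      constructor
      · intro hp
        rw [Finset.mem_erase]
        have hpP := (hP p).mp (sub2 hp)
        refine ⟨?_, hpP⟩
        rintro rfl
        have := key1 p hpP hσ1
        rw [hw, mem_Trg_awc hσ3] at hp
        linarith [hp.2.2]
      · intro hp
        rw [Finset.mem_erase] at hp
        rw [hw, mem_Trg_awc hσ3]
        exact ⟨(hint p hp.2).1.le, (hint p hp.2).2.1.le, (key2 p hp.2 (hother p hp.2 hp.1)).le⟩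
    · rw [Finset.card_erase_of_mem hp1, hcard]; rfl
    · intro p hp
      rw [Finset.mem_erase] at hp
      rw [hw, cf_awc1 hσ4, cf_awc2 hσ4, cf_awc3 hσ4]
      have h1' : 0 < 1 - σ := by linarith
      refine ⟨(hint p hp.2).1, div_pos (hint p hp.2).2.1 h1', ?_⟩
      rw [sub_pos, div_mul_eq_mul_div, div_lt_iff₀ h1']
      linarith [key2 p hp.2 (hother p hp.2 hp.1)]
    · intro p hp q hq
      exact hgen p (Finset.mem_of_mem_erase hp) q (Finset.mem_of_mem_erase hq)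
    · intro p hp
      exact hin p (Finset.mem_of_mem_erase hp)
    · refine le_trans (NM_union T _ _) (Nat.add_le_add step1' ?_)
      refine le_trans (NM_mono T ?_) hN
      exact subset_union_of_subset_right (seg_wc hσ0.le hσ3.le) _

end Pool.Agent.IT
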