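import Pool.Agent.IT.Base2
import Pool.Agent.IT.SweepT

/-!
# MP_da73da_co (S11801): definitions shared by the structure and counting modules

On top of helper45's `Geo/Base/Base2` and helper41's `Sweep*`.
-/

set_option autoImplicit false

namespace Pool.Agent.IT

/-! ## Jump balls -/

/-- `t`, `s` adjacent across an edge of jump at most `J` in absolute value -/
def JNb (T : Finset (Finset Pt)) (J : ℕ) (t s : Finset Pt) : Prop :=
  ∃ (p q r z : Pt) (k : ℤ), Pos T p q r ∧ Pos T q p z ∧ t = {p, q, r} ∧ s = {q, p, z} ∧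
    Jump T p q k ∧ |k| ≤ (J : ℤ)

open Classical in
/-- dual ball of radius `k` around `t0` using only edges of jump at most `J` -/
noncomputable def jball (T : Finset (Finset Pt)) (J : ℕ) (t0 : Finset Pt) : ℕ → Finset (Finset Pt)
  | 0 => {t0}
  | k + 1 => jball T J t0 k ∪ T.filter fun t => ∃ s ∈ jball T J t0 k, JNb T J s t

/-- vertices of the triangles in `jball` -/
noncomputable def jverts (T : Finset (Finset Pt)) (J : ℕ) (t0 : Finset Pt) (k : ℕ) : Finset Pt :=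
  (jball T J t0 k).biUnion id

/-- convex hull of a set of lattice points -/
def hullR (P : Set Pt) : Set (ℝ × ℝ) := convexHull ℝ (emb '' P)

/-! ## Slabs and structured triangulations -/

/-- lexicographically positive vector -/
def LexPos (e : Pt) : Prop := 0 < e.1 ∨ (e.1 = 0 ∧ 0 < e.2)

/-- primitive, lexicographically positive direction -/
def Dir (e : Pt) : Prop := IsCoprime e.1 e.2 ∧ LexPos e

/-- a slab `(e, c, w)`: `c ≤ crs e p ≤ c + w` -/
abbrev Slab := Pt × ℤ × ℤ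

/-- structure of (almost) non-fat triangulations -/
structure Str (n : ℕ) (T V : Finset (Finset Pt)) (S : Finset Pt → Slab) : Prop where
  sub : V ⊆ T
  dir : ∀ t ∈ V, Dir (S t).1
  wid : ∀ t ∈ V, 1 ≤ (S t).2.2 ∧ (S t).2.2 ≤ 3
  slab : ∀ t ∈ V, ∀ p ∈ t, (S t).2.1 ≤ crs (S t).1 p ∧ crs (S t).1 p ≤ (S t).2.1 + (S t).2.2
  /-- no edge of a triangle of `V` lies on the boundary of the square -/
  nb : ∀ t ∈ V, ∀ p ∈ t, ∀ q ∈ t, p ≠ q → ∃ s ∈ T, s ≠ t ∧ p ∈ s ∧ q ∈ s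
  /-- across an edge not parallel to `e` the slab does not change -/
  adj : ∀ t ∈ V, ∀ s ∈ V, ∀ p q, p ∈ t → q ∈ t → p ∈ s → q ∈ s →
    crs (S t).1 p ≠ crs (S t).1 q → S s = S t
  /-- in width three: no edge on the two side lines, no edge from side to side -/
  exc : ∀ t ∈ V, (S t).2.2 = 3 → ∀ p ∈ t, ∀ q ∈ t, p ≠ q →
    crs (S t).1 q - crs (S t).1 p ≠ 3 ∧
    ¬ (crs (S t).1 p = crs (S t).1 q ∧
      (crs (S t).1 p = (S t).2.1 ∨ crs (S t).1 p = (S t).2.1 + 3))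

/-! ## Prediction -/

/-- `{p,q}` is predicted from `p`: it continues a straight run of `r` edges, or a generalised
arithmetic fan of `r` edges at `p` (arbitrary other rays may lie in between). -/
def Pred1 (r : ℕ) (T : Finset (Finset Pt)) (p q : Pt) : Prop :=
  (LexPos (q - p) ∧ ∀ i : ℕ, 1 ≤ i → i ≤ r →
      IsEdge T (p - (i : ℤ) • (q - p)) (q - (i : ℤ) • (q - p))) ∨
  (∃ v : Pt, LexPos v ∧ |crs v (q - p)| = 1 ∧ ∀ i : ℕ, 1 ≤ i → i ≤ r → IsEdge T p (q - (i : ℤ) • v))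

def Pred (r : ℕ) (T : Finset (Finset Pt)) (p q : Pt) : Prop := Pred1 r T p q ∨ Pred1 r T q p

/-- unpredicted edges, as unordered pairs -/
def UnpSet (r : ℕ) (T : Finset (Finset Pt)) : Set (Finset Pt) :=
  {ε | ∃ p q : Pt, ε = {p, q} ∧ IsEdge T p q ∧ ¬ Pred r T p q}

noncomputable def Unp (r : ℕ) (T : Finset (Finset Pt)) : ℕ := (UnpSet r T).ncard

/-! ## Boxes -/

/-- trapezoid between the crossing edges `[a,b]` and `[a+pe, b+qe]` of a width-2 slab -/
structure BoxD where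
  a : Pt
  b : Pt
  e : Pt
  p : ℕ
  q : ℕ
deriving DecidableEq

/-- first middle vertex `(a+b+e)/2` -/
def BoxD.v1 (D : BoxD) : Pt := ((D.a.1 + D.b.1 + D.e.1) / 2, (D.a.2 + D.b.2 + D.e.2) / 2)

/-- number of middle vertices -/
def BoxD.h (D : BoxD) : ℕ := (D.p + D.q) / 2

/-- middle vertices, `i < D.h` -/
def BoxD.mid (D : BoxD) (i : ℕ) : Pt := D.v1 + (i : ℤ) • D.e

structure BoxD.Ok (D : BoxD) : Prop where
  dir : Dir D.e
  two : crs D.e (D.b - D.a) = 2
  half : D.v1 + D.v1 = D.a + D.b + D.e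
  even : D.h + D.h = D.p + D.q
  pos : 0 < D.h

/-- lower right vertex of the box -/
def BoxD.a' (D : BoxD) : Pt := D.a + (D.p : ℤ) • D.e
/-- upper right vertex of the box -/
def BoxD.b' (D : BoxD) : Pt := D.b + (D.q : ℤ) • D.e

/-- the triangles of `T` in the box: all triangles having a middle vertex of `D` -/
def BoxD.BT (D : BoxD) (T : Finset (Finset Pt)) : Finset (Finset Pt) :=
  T.filter (fun t => ∃ i ∈ Finset.range D.h, D.mid i ∈ t)

/-- `D` is a box of `T` -/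
structure IsBox (n : ℕ) (T : Finset (Finset Pt)) (D : BoxD) : Prop where
  ok : D.Ok
  left : IsEdge T D.a D.b
  right : IsEdge T D.a' D.b'
  int : ∀ i < D.h, Inner n (D.mid i)
  slab : ∀ i < D.h, ∀ t ∈ T, D.mid i ∈ t → ∀ x ∈ t, crs D.e D.a ≤ crs D.e x ∧ crs D.e x ≤ crs D.e D.a + 2

/-- canonical filling of the box -/
def BoxD.canon (D : BoxD) : Finset (Finset Pt) :=
  {{D.a, D.b, D.mid 0}, {D.a', D.b', D.mid (D.h - 1)}} ∪
  (Finset.range (D.h - 1)).image (fun i => {D.a, D.mid i, D.mid (i + 1)}) ∪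
  (Finset.range (D.h - 1)).image (fun i => {D.b, D.mid i, D.mid (i + 1)}) ∪
  (Finset.range D.p).image
    (fun j : ℕ => {D.a + (j : ℤ) • D.e, D.a + ((j : ℤ) + 1) • D.e, D.mid (D.h - 1)}) ∪
  (Finset.range D.q).image
    (fun j : ℕ => {D.b + (j : ℤ) • D.e, D.b + ((j : ℤ) + 1) • D.e, D.mid (D.h - 1)})

/-- refill all boxes of the family `F` canonically -/
def refill (T : Finset (Finset Pt)) (F : Finset BoxD) : Finset (Finset Pt) :=
  (T \ F.biUnion (fun D => D.BT T)) ∪ F.biUnion (fun D => D.canon)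

/-- family of pairwise disjoint boxes of `T` -/
structure Fam (n : ℕ) (T : Finset (Finset Pt)) (F : Finset BoxD) : Prop where
  box : ∀ D ∈ F, IsBox n T D
  disj : ∀ D ∈ F, ∀ D' ∈ F, D ≠ D' → Disjoint (D.BT T) (D'.BT T)

/-- `t ∈ V` has an edge `[x, x+e]` parallel to the direction `e` of its slab, preceded on the line by `r`
edges all belonging to triangles of `V` with the same slab -/
def Straight (r : ℕ) (V : Finset (Finset Pt)) (S : Finset Pt → Slab) (t : Finset Pt) : Prop :=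
  ∃ x : Pt, x ∈ t ∧ x + (S t).1 ∈ t ∧ ∀ j : ℕ, j ≤ r → ∃ s ∈ V, S s = S t ∧
    x - (j : ℤ) • (S t).1 ∈ s ∧ x - (j : ℤ) • (S t).1 + (S t).1 ∈ s

/-- the edge `[a,v]` continues a generalised arithmetic fan at `a` of `r` edges to the points
`v - e, ..., v - r e`, all belonging to triangles of `V` with slab `σ` -/
def Fanned (r : ℕ) (V : Finset (Finset Pt)) (S : Finset Pt → Slab) (σ : Slab) (a v : Pt) : Prop :=
  |crs σ.1 (v - a)| = 1 ∧ ∀ j : ℕ, j ≤ r → ∃ s ∈ V, S s = σ ∧ a ∈ s ∧ v - (j : ℤ) • σ.1 ∈ s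

/-- fine triangle of width 3 -/
def Fine3 (r : ℕ) (V : Finset (Finset Pt)) (S : Finset Pt → Slab) (t : Finset Pt) : Prop :=
  Straight r V S t ∨ (∃ a ∈ t, ∃ v ∈ t, Fanned r V S (S t) a v) ∨
  (∃ s ∈ V, S s = S t ∧ s ≠ t ∧ ∃ a x y, s = {a, x, y} ∧ a ∉ t ∧ x ∈ t ∧ y ∈ t ∧ x ≠ y ∧
    Fanned r V S (S t) a x ∧ Fanned r V S (S t) a y)

end Pool.Agent.IT
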