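import Pool.Agent.IT.PredCount
import Pool.Agent.IT.Defs

/-!
# The predictor theorem

At most `2 ^ (U + η n²)` unimodular triangulations have at most `U` unpredicted edges.
-/

set_option autoImplicit false

namespace Pool.Agent.IT

open Finset

variable {n : ℕ} {T T' : Finset (Finset Pt)}

theorem sh_neg (p v : Pt) (i : ℤ) : sh p v (-i) = p - i • v := by
  apply Prod.ext
  · simp only [sh, Prod.fst_sub, Prod.smul_fst, smul_eq_mul]; ring
  · simp only [sh, Prod.snd_sub, Prod.smul_snd, smul_eq_mul]; ring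

theorem lf_pos_of_lexPos {B : ℤ} (hB : (n : ℤ) < B) {v : Pt} (hv : LexPos v) (h2 : |v.2| ≤ n) :
    0 < lf B v := by
  have h3 := abs_le.1 h2
  unfold lf
  rcases hv with h | ⟨h, h'⟩
  · nlinarith [h3.1, h3.2]
  · rw [h]; linarith

theorem hasPat_of_pred1 (hT : UT n T) {B : ℤ} (hB : (n : ℤ) < B) {r : ℕ} (hr : 2 ≤ r) {p q : Pt}
    (he : IsEdge T p q) (h : Pred1 r T p q) : HasPat B r T (p + q) := by
  rcases h with ⟨hl, hE⟩ | ⟨v, hl, hc, hE⟩
  · refine Or.inl ⟨p, q, ?_, rfl, ?_⟩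
    · have hp := he.insq hT
      have hq := he.symm.insq hT
      have := lf_pos_of_lexPos (n := n) hB hl (by
        rw [abs_le, Prod.snd_sub]
        obtain ⟨_, _, h3, h4⟩ := hp
        obtain ⟨_, _, h5, h6⟩ := hq
        constructor <;> linarith)
      rw [lf_sub] at this
      linarith
    · intro i h1 h2
      rw [sh_neg, sh_neg]
      exact hE i h1 h2
  · refine Or.inr ⟨p, q, v, rfl, ?_, ?_, ?_⟩
    · have e : crs (q - p) v = - crs v (q - p) := by simp only [crs]; ring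
      rw [e]
      rcases abs_eq (by norm_num : (0 : ℤ) ≤ 1) |>.1 hc with h | h
      · right; rw [h]
      · left; rw [h]; norm_num
    · refine lf_pos_of_lexPos (n := n) hB hl ?_
      have e1 := (hE 1 le_rfl (by omega)).symm.insq hT
      have e2 := (hE 2 (by norm_num) hr).symm.insq hT
      obtain ⟨_, _, h3, h4⟩ := e1
      obtain ⟨_, _, h5, h6⟩ := e2
      simp only [Prod.snd_sub, Prod.smul_snd, smul_eq_mul, Nat.cast_one, one_mul,
        Nat.cast_ofNat] at h3 h4 h5 h6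
      rw [abs_le]
      constructor <;> linarith
    · intro i h1 h2
      rw [sh_neg]
      exact hE i h1 h2

theorem hasPat_of_pred (hT : UT n T) {B : ℤ} (hB : (n : ℤ) < B) {r : ℕ} (hr : 2 ≤ r) {p q : Pt}
    (he : IsEdge T p q) (h : Pred r T p q) : HasPat B r T (p + q) := by
  rcases h with h | h
  · exact hasPat_of_pred1 hT hB hr he h
  · rw [add_comm]
    exact hasPat_of_pred1 hT hB hr he.symm h

theorem unpSet_finite (r : ℕ) (T : Finset (Finset Pt)) : (UnpSet r T).Finite := by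
  classical
  refine Set.Finite.subset ((T.biUnion id).powerset).finite_toSet ?_
  rintro ε ⟨p, q, rfl, h, -⟩
  have key : ∀ p q : Pt, IsEdge T p q → p ∈ T.biUnion id := by
    rintro p q ⟨r, h | h⟩
    · exact Finset.mem_biUnion.2 ⟨_, h.1, by simp⟩
    · exact Finset.mem_biUnion.2 ⟨_, h.1, by simp⟩
  simp only [Finset.coe_powerset, Set.mem_preimage, Set.mem_powerset_iff, Finset.coe_subset]
  intro x hx
  rcases Finset.mem_insert.1 hx with rfl | hx
  · exact key _ _ h
  · rw [Finset.mem_singleton.1 hx]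
    exact key _ _ h.symm

theorem unpatterned_card (hT : UT n T) {B : ℤ} (hB : (n : ℤ) < B) {r : ℕ} (hr : 2 ≤ r)
    (F : Finset Pt) (hF : F ⊆ Mid n) (hn : ∀ s ∈ F, ¬ HasPat B r T s) : F.card ≤ Unp r T := by
  classical
  have hex : ∀ s ∈ F, ∃ ab : Pt × Pt, IsEdge T ab.1 ab.2 ∧ ab.1 + ab.2 = s := by
    intro s hs
    obtain ⟨a, b, h1, h2, h3, h4⟩ := ev_spec hT hB (hF hs)
    exact ⟨(a, b), h1, h3⟩
  choose! g hg using hex
  rw [Unp, ← Set.ncard_coe_finset F]
  refine Set.ncard_le_ncard_of_injOn (fun s => ({(g s).1, (g s).2} : Finset Pt)) ?_ ?_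
    (unpSet_finite r T)
  · intro s hs
    have hs' := Finset.mem_coe.1 hs
    obtain ⟨h1, h2⟩ := hg s hs'
    refine ⟨(g s).1, (g s).2, rfl, h1, ?_⟩
    intro h3
    apply hn s hs'
    have := hasPat_of_pred hT hB hr h1 h3
    rwa [h2] at this
  · intro s hs s' hs' he
    have hs := Finset.mem_coe.1 hs
    have hs' := Finset.mem_coe.1 hs'
    obtain ⟨h1, h2⟩ := hg s hs
    obtain ⟨h1', h2'⟩ := hg s' hs'
    have hne := h1.ne
    have hne' := h1'.ne
    simp only at he
    have e := congrArg (fun f : Finset Pt => f.sum id) he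
    rw [Finset.sum_pair hne, Finset.sum_pair hne'] at e
    simp only [id] at e
    rw [← h2, ← h2', e]

theorem UT_finite (n : ℕ) : {T : Finset (Finset Pt) | UT n T}.Finite := by
  classical
  refine Set.Finite.subset
    ((((Finset.Icc (0 : ℤ) n) ×ˢ (Finset.Icc (0 : ℤ) n)).powerset).powerset).finite_toSet ?_
  intro T hT
  simp only [Set.mem_ofPred_eq] at hT
  simp only [Finset.coe_powerset, Set.mem_preimage, Set.mem_powerset_iff]
  intro t ht
  simp only [Set.mem_preimage, Set.mem_powerset_iff, Finset.coe_subset]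
  intro p hp
  obtain ⟨h1, h2, h3, h4⟩ := hT.insq (Finset.mem_coe.1 ht) hp
  rw [Finset.mem_product, Finset.mem_Icc, Finset.mem_Icc]
  exact ⟨⟨h1, h2⟩, ⟨h3, h4⟩⟩

theorem predictor : ∀ η : ℝ, 0 < η → ∃ r n0 : ℕ, ∀ n, n0 ≤ n → ∀ U : ℕ,
    (({T | UT n T ∧ Unp r T ≤ U} : Set (Finset (Finset Pt))).ncard : ℝ) ≤
      (2 : ℝ) ^ ((U : ℝ) + η * (n : ℝ) ^ 2) := by
  intro η hη
  obtain ⟨r, hr3, hr⟩ := count_patterns η hη
  refine ⟨r, 0, ?_⟩
  intro n _ U
  have hfin : ({T | UT n T ∧ Unp r T ≤ U} : Set (Finset (Finset Pt))).Finite :=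
    (UT_finite n).subset (fun T hT => hT.1)
  have hmem : ∀ T ∈ hfin.toFinset, UT n T ∧ Unp r T ≤ U := fun T hT => hfin.mem_toFinset.1 hT
  rw [Set.ncard_eq_toFinset_card _ hfin]
  refine hr r le_rfl n (2 * n + 1) (by linarith) hfin.toFinset (fun T hT => (hmem T hT).1) U ?_
  intro T hT F hF hn
  refine le_trans (unpatterned_card (hmem T hT).1 ?_ (by omega) F hF hn) (hmem T hT).2
  have : (0 : ℤ) ≤ n := Int.natCast_nonneg n
  linarith

end Pool.Agent.IT
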