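import Pool.Agent.IT.Card
import Pool.Agent.IT.Predictor
import Pool.Agent.IT.BoxGeom
import Pool.Agent.IT.BoxSeq
import Pool.Agent.IT.FamCountOf

/-!
# M17: upper bound for the number of structured triangulations
-/

set_option autoImplicit false
namespace Pool.Agent.IT

open Finset

theorem cnt_fill_finite (n : ℕ) (D : BoxD) :
    ({X | ∃ T, UT n T ∧ IsBox n T D ∧ X = D.BT T} : Set (Finset (Finset Pt))).Finite := by
  refine ((UT_finite n).image (fun T => D.BT T)).subset ?_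
  rintro X ⟨T, hT, -, rfl⟩
  exact ⟨T, hT, rfl⟩

/-- The box is determined by some vertices of the triangles of its canonical filling, and `p`, `q`. -/
theorem cnt_boxes_finite (T : Finset (Finset Pt)) : {D : BoxD | D.Ok ∧ D.canon ⊆ T}.Finite := by
  classical
  set P : Finset Pt := T.biUnion id with hP
  have hfin : (((fun z : (Pt × Pt × Pt) × ℕ × ℕ =>
      (⟨z.1.1, z.1.2.1, z.1.2.2 + z.1.2.2 - z.1.1 - z.1.2.1, z.2.1, z.2.2⟩ : BoxD)) ''
      (((P ×ˢ (P ×ˢ P)) ×ˢ (range (T.card + 1) ×ˢ range (T.card + 1)) :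
        Finset ((Pt × Pt × Pt) × ℕ × ℕ)) : Set ((Pt × Pt × Pt) × ℕ × ℕ)))).Finite :=
    Set.Finite.image _ (Finset.finite_toSet _)
  refine hfin.subset ?_
  rintro D ⟨hD, hsub⟩
  have hmem : ({D.a, D.b, D.mid 0} : Finset Pt) ∈ D.canon := by
    unfold BoxD.canon
    simp
  have hT0 := hsub hmem
  have hv : ∀ x ∈ ({D.a, D.b, D.mid 0} : Finset Pt), x ∈ P := by
    intro x hx
    rw [hP, mem_biUnion]
    exact ⟨_, hT0, hx⟩
  have hcard : 2 * (D.p + D.q) ≤ T.card := by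
    rw [← canon_card hD]
    exact card_le_card hsub
  have hm0 : D.mid 0 = D.v1 := by
    unfold BoxD.mid
    simp
  refine ⟨((D.a, D.b, D.mid 0), D.p, D.q), ?_, ?_⟩
  · simp only [coe_product, Set.mem_prod, mem_coe, mem_range]
    refine ⟨⟨hv _ (by simp), hv _ (by simp), hv _ (by simp)⟩, by omega, by omega⟩
  · have he : D.mid 0 + D.mid 0 - D.a - D.b = D.e := by
      rw [hm0, hD.half]
      abel
    cases D with
    | mk a b e p q =>
      simp only at he ⊢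
      simp only [he]

theorem cnt_fams_finite (T : Finset (Finset Pt)) (x : ℝ) :
    ({F | (∀ D ∈ F, D.Ok ∧ D.canon ⊆ T) ∧
      (∀ D ∈ F, ∀ D' ∈ F, D ≠ D' → Disjoint D.canon D'.canon) ∧
      (F.card : ℝ) ≤ x} : Set (Finset BoxD)).Finite := by
  classical
  refine ((cnt_boxes_finite T).toFinset.powerset.finite_toSet).subset ?_
  rintro F ⟨hF, -, -⟩
  rw [mem_coe, mem_powerset]
  intro D hD
  rw [Set.Finite.mem_toFinset]
  exact hF D hD

theorem cnt_recover {n : ℕ} {T : Finset (Finset Pt)} (hT : UT n T) {F : Finset BoxD}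
    (hF : Fam n T F) :
    T = (refill T F \ F.biUnion (fun D => D.canon)) ∪ F.biUnion (fun D => D.BT T) := by
  classical
  obtain ⟨h1, -⟩ := refill_disj hT hF
  have hsub : F.biUnion (fun D => D.BT T) ⊆ T := by
    intro t ht
    obtain ⟨D, -, hD⟩ := mem_biUnion.1 ht
    exact (mem_filter.1 hD).1
  have hdis : Disjoint (T \ F.biUnion (fun D => D.BT T)) (F.biUnion (fun D => D.canon)) := by
    rw [disjoint_biUnion_right]
    intro D hD
    exact (h1 D hD).symm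
  have h2 : refill T F \ F.biUnion (fun D => D.canon) = T \ F.biUnion (fun D => D.BT T) := by
    unfold refill
    rw [union_sdiff_right]
    exact sdiff_eq_self_of_disjoint hdis
  rw [h2, sdiff_union_of_subset hsub]

/-- number of triangulations with a given family of boxes and a given refilling -/
theorem cnt_inner {n : ℕ} {T' : Finset (Finset Pt)} {F : Finset BoxD}
    (s : Finset (Finset (Finset Pt)))
    (hs : ∀ T ∈ s, UT n T ∧ Fam n T F ∧ refill T F = T') :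
    (s.card : ℝ) ≤ ∏ D ∈ F, (4 * (100 / 49 : ℝ) ^ (2 * (D.p + D.q))) := by
  classical
  rcases s.eq_empty_or_nonempty with rfl | ⟨T0, hT0⟩
  · simp only [card_empty, Nat.cast_zero]
    exact prod_nonneg fun D _ => by positivity
  have hok : ∀ D ∈ F, D.Ok := fun D hD => ((hs T0 hT0).2.1.box D hD).ok
  set X : BoxD → Finset (Finset (Finset Pt)) := fun D => (cnt_fill_finite n D).toFinset with hX
  have hle : s.card ≤ (F.pi X).card := by
    refine card_le_card_of_injOn (fun T => fun (D : BoxD) (_ : D ∈ F) => D.BT T) ?_ ?_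
    · intro T hT
      rw [mem_coe] at hT ⊢
      rw [mem_pi]
      intro D hD
      rw [hX]
      simp only
      rw [Set.Finite.mem_toFinset]
      obtain ⟨hUT, hFam, -⟩ := hs T hT
      exact ⟨T, hUT, hFam.box D hD, rfl⟩
    · intro T1 hT1 T2 hT2 h
      rw [mem_coe] at hT1 hT2
      obtain ⟨hU1, hF1, hR1⟩ := hs T1 hT1
      obtain ⟨hU2, hF2, hR2⟩ := hs T2 hT2
      have hBT : ∀ D ∈ F, D.BT T1 = D.BT T2 := by
        intro D hD
        exact congrFun (congrFun h D) hD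
      rw [cnt_recover hU1 hF1, cnt_recover hU2 hF2, hR1, hR2, biUnion_congr rfl hBT]
  have h2 : ((F.pi X).card : ℝ) = ∏ D ∈ F, ((X D).card : ℝ) := by
    rw [card_pi]
    push_cast
    rfl
  calc (s.card : ℝ) ≤ ((F.pi X).card : ℝ) := by exact_mod_cast hle
    _ = ∏ D ∈ F, ((X D).card : ℝ) := h2
    _ ≤ ∏ D ∈ F, (4 * (100 / 49 : ℝ) ^ (2 * (D.p + D.q))) := by
        refine prod_le_prod (fun D _ => Nat.cast_nonneg _) ?_
        intro D hD
        have h3 := box_fill n D (hok D hD)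
        rwa [Set.ncard_eq_toFinset_card _ (cnt_fill_finite n D)] at h3

theorem cnt_prod (F : Finset BoxD) :
    ∏ D ∈ F, (4 * (100 / 49 : ℝ) ^ (2 * (D.p + D.q))) =
      (4 : ℝ) ^ F.card * (100 / 49 : ℝ) ^ (∑ D ∈ F, 2 * (D.p + D.q)) := by
  rw [prod_mul_distrib, prod_const, prod_pow_eq_pow_sum]

theorem cnt_poly (ε : ℝ) (hε : 0 < ε) : ∃ n0 : ℕ, ∀ n : ℕ, n0 ≤ n →
    ((2 * n ^ 2 + 1 : ℕ) : ℝ) * (2 : ℝ) ^ (2 * n) ≤ (2 : ℝ) ^ (ε * (n : ℝ) ^ 2) := by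
  refine ⟨⌈5 / ε⌉₊ + 1, fun n hn => ?_⟩
  have hn1 : 1 ≤ n := by omega
  have h1 : 5 / ε ≤ (n : ℝ) := by
    refine (Nat.le_ceil _).trans ?_
    exact_mod_cast (by omega : ⌈5 / ε⌉₊ ≤ n)
  have h2 : 5 * (n : ℝ) ≤ ε * (n : ℝ) ^ 2 := by
    have h3 : 5 ≤ ε * (n : ℝ) := by
      rw [div_le_iff₀ hε] at h1
      linarith
    have h4 : (0 : ℝ) ≤ (n : ℝ) := Nat.cast_nonneg _
    nlinarith
  have h5 : 2 * n ^ 2 + 1 ≤ 2 ^ (2 * n + 1) := by
    have h6 : n < 2 ^ n := Nat.lt_two_pow_self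
    have h7 : n ^ 2 + 1 ≤ 2 ^ (2 * n) := by
      have h8 : n ^ 2 < (2 ^ n) ^ 2 := Nat.pow_lt_pow_left h6 (by norm_num)
      rw [← pow_mul, mul_comm n 2] at h8
      exact h8
    have h10 : (2 : ℕ) ^ (2 * n + 1) = 2 ^ (2 * n) * 2 := pow_succ 2 (2 * n)
    rw [h10]
    linarith
  have h9 : ((2 * n ^ 2 + 1 : ℕ) : ℝ) ≤ (2 : ℝ) ^ (2 * n + 1) := by exact_mod_cast h5
  calc ((2 * n ^ 2 + 1 : ℕ) : ℝ) * (2 : ℝ) ^ (2 * n)
      ≤ (2 : ℝ) ^ (2 * n + 1) * (2 : ℝ) ^ (2 * n) :=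
        mul_le_mul_of_nonneg_right h9 (by positivity)
    _ = (2 : ℝ) ^ (4 * n + 1) := by rw [← pow_add]; congr 1; ring
    _ ≤ (2 : ℝ) ^ (5 * n) := pow_le_pow_right₀ (by norm_num) (by omega)
    _ = (2 : ℝ) ^ (5 * (n : ℝ)) := by
        rw [← Real.rpow_natCast]
        push_cast
        rfl
    _ ≤ (2 : ℝ) ^ (ε * (n : ℝ) ^ 2) := Real.rpow_le_rpow_of_exponent_le (by norm_num) h2

/-- the count for a fixed total area `A` of the boxes -/
theorem cnt_fixed {n r A U : ℕ} {η' b1 cf : ℝ}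
    (hpred : (({T | UT n T ∧ Unp r T ≤ U} : Set (Finset (Finset Pt))).ncard : ℝ) ≤
      (2 : ℝ) ^ ((U : ℝ) + η' * (n : ℝ) ^ 2))
    (hfam : ∀ T : Finset (Finset Pt), UT n T →
      (({F | (∀ D ∈ F, D.Ok ∧ D.canon ⊆ T) ∧
        (∀ D ∈ F, ∀ D' ∈ F, D ≠ D' → Disjoint D.canon D'.canon) ∧
        (F.card : ℝ) ≤ b1 * (n : ℝ) ^ 2} : Set (Finset BoxD)).ncard : ℝ) ≤
      (2 : ℝ) ^ (η' * (n : ℝ) ^ 2))
    (Fc : Finset (Finset Pt) → Finset BoxD) (s : Finset (Finset (Finset Pt)))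
    (hs : ∀ T ∈ s, UT n T ∧ Fam n T (Fc T) ∧ ((Fc T).card : ℝ) ≤ b1 * (n : ℝ) ^ 2 ∧
      ((Fc T).card : ℝ) ≤ cf ∧ ∑ D ∈ Fc T, 2 * (D.p + D.q) = A ∧ Unp r (refill T (Fc T)) ≤ U) :
    (s.card : ℝ) ≤ (2 : ℝ) ^ ((U : ℝ) + η' * (n : ℝ) ^ 2) * ((2 : ℝ) ^ (η' * (n : ℝ) ^ 2) *
      ((4 : ℝ) ^ cf * (100 / 49 : ℝ) ^ A)) := by
  classical
  have hUfin : ({T | UT n T ∧ Unp r T ≤ U} : Set (Finset (Finset Pt))).Finite :=
    (UT_finite n).subset fun T hT => hT.1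
  rw [Set.ncard_eq_toFinset_card _ hUfin] at hpred
  have h1 : (s.card : ℝ) = ∑ T' ∈ hUfin.toFinset,
      ((s.filter (fun T => refill T (Fc T) = T')).card : ℝ) := by
    rw [card_eq_sum_card_fiberwise (f := fun T => refill T (Fc T)) (t := hUfin.toFinset)]
    · push_cast
      rfl
    · intro T hT
      rw [mem_coe] at hT ⊢
      rw [Set.Finite.mem_toFinset]
      obtain ⟨hU, hF, -, -, -, hUnp⟩ := hs T hT
      exact ⟨refill_UT hU hF, hUnp⟩
  have h2 : ∀ T' ∈ hUfin.toFinset, ((s.filter (fun T => refill T (Fc T) = T')).card : ℝ) ≤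
      (2 : ℝ) ^ (η' * (n : ℝ) ^ 2) * ((4 : ℝ) ^ cf * (100 / 49 : ℝ) ^ A) := by
    intro T' hT'
    rw [Set.Finite.mem_toFinset] at hT'
    set s' := s.filter (fun T => refill T (Fc T) = T') with hs'
    have hFfin := cnt_fams_finite T' (b1 * (n : ℝ) ^ 2)
    have hfam' := hfam T' hT'.1
    rw [Set.ncard_eq_toFinset_card _ hFfin] at hfam'
    have h3 : (s'.card : ℝ) = ∑ F ∈ hFfin.toFinset,
        ((s'.filter (fun T => Fc T = F)).card : ℝ) := by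
      rw [card_eq_sum_card_fiberwise (f := fun T => Fc T) (t := hFfin.toFinset)]
      · push_cast
        rfl
      · intro T hT
        rw [mem_coe] at hT ⊢
        rw [Set.Finite.mem_toFinset]
        obtain ⟨hTs, hTr⟩ := mem_filter.1 hT
        obtain ⟨hU, hF, hb, -, -, -⟩ := hs T hTs
        refine ⟨?_, (refill_disj hU hF).2, hb⟩
        intro D hD
        refine ⟨(hF.box D hD).ok, ?_⟩
        rw [← hTr]
        unfold refill
        refine Subset.trans ?_ subset_union_right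
        exact subset_biUnion_of_mem (fun D : BoxD => D.canon) hD
    have h4 : ∀ F ∈ hFfin.toFinset, ((s'.filter (fun T => Fc T = F)).card : ℝ) ≤
        (4 : ℝ) ^ cf * (100 / 49 : ℝ) ^ A := by
      intro F _
      rcases (s'.filter (fun T => Fc T = F)).eq_empty_or_nonempty with h0 | ⟨T0, hT0⟩
      · rw [h0]
        simp only [card_empty, Nat.cast_zero]
        positivity
      · have h5 := cnt_inner (n := n) (T' := T') (F := F) (s'.filter (fun T => Fc T = F)) (by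
          intro T hT
          obtain ⟨hT1, hT2⟩ := mem_filter.1 hT
          obtain ⟨hT3, hT4⟩ := mem_filter.1 hT1
          obtain ⟨hU, hF, -⟩ := hs T hT3
          rw [hT2] at hF hT4
          exact ⟨hU, hF, hT4⟩)
        refine h5.trans ?_
        rw [cnt_prod]
        obtain ⟨hT1, hT2⟩ := mem_filter.1 hT0
        obtain ⟨hT3, hT4⟩ := mem_filter.1 hT1
        obtain ⟨-, -, -, hcf, hA, -⟩ := hs T0 hT3
        rw [hT2] at hA hcf
        rw [hA]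
        refine mul_le_mul_of_nonneg_right ?_ (by positivity)
        rw [← Real.rpow_natCast]
        exact Real.rpow_le_rpow_of_exponent_le (by norm_num) hcf
    rw [h3]
    calc ∑ F ∈ hFfin.toFinset, ((s'.filter (fun T => Fc T = F)).card : ℝ)
        ≤ ∑ F ∈ hFfin.toFinset, (4 : ℝ) ^ cf * (100 / 49 : ℝ) ^ A := sum_le_sum h4
      _ = (hFfin.toFinset.card : ℝ) * ((4 : ℝ) ^ cf * (100 / 49 : ℝ) ^ A) := by
          rw [sum_const, nsmul_eq_mul]
      _ ≤ _ := mul_le_mul_of_nonneg_right hfam' (by positivity)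
  rw [h1]
  calc ∑ T' ∈ hUfin.toFinset, ((s.filter (fun T => refill T (Fc T) = T')).card : ℝ)
      ≤ ∑ T' ∈ hUfin.toFinset,
        (2 : ℝ) ^ (η' * (n : ℝ) ^ 2) * ((4 : ℝ) ^ cf * (100 / 49 : ℝ) ^ A) := sum_le_sum h2
    _ = (hUfin.toFinset.card : ℝ) *
        ((2 : ℝ) ^ (η' * (n : ℝ) ^ 2) * ((4 : ℝ) ^ cf * (100 / 49 : ℝ) ^ A)) := by
        rw [sum_const, nsmul_eq_mul]
    _ ≤ _ := mul_le_mul_of_nonneg_right hpred (by positivity)

/-- M17 from `unp_refill` -/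
theorem count_thm_of (unp_refill : ∃ C : ℕ, ∀ (n : ℕ) (T V : Finset (Finset Pt))
      (S : Finset Pt → Slab), UT n T → Str n T V S → ∃ F : Finset BoxD, Fam n T F ∧
      F.card ≤ C * (T \ V).card ∧
      ∀ r : ℕ, Unp r (refill T F) + ∑ D ∈ F, 2 * (D.p + D.q) ≤
        2 * n ^ 2 + 2 * n + C * (r + 1) * (T \ V).card) :
    ∀ η : ℝ, 0 < η → ∃ β : ℝ, 0 < β ∧ ∃ n0 : ℕ, ∀ n, n0 ≤ n →
    (({T | UT n T ∧ ∃ V S, Str n T V S ∧ ((T \ V).card : ℝ) ≤ β * (n : ℝ) ^ 2} :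
      Set (Finset (Finset Pt))).ncard : ℝ) ≤
      (2 : ℝ) ^ (η * (n : ℝ) ^ 2) * (100 / 49 : ℝ) ^ (2 * n ^ 2) := by
  classical
  intro η hη
  obtain ⟨C, hC⟩ := unp_refill
  have hη' : 0 < η / 10 := by positivity
  set η' : ℝ := η / 10 with hη'd
  obtain ⟨r, n1, hr⟩ := predictor η' hη'
  obtain ⟨b1, hb1, n2, hfam⟩ := fam_count_of
    (fun n T (hT : UT n T) => (ut_card hT).le) η' hη'
  obtain ⟨n3, hpoly⟩ := cnt_poly η' hη'
  set β : ℝ := min b1 (η' / 2) / (((C : ℝ) + 1) * ((r : ℝ) + 1)) with hβ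
  have hm : 0 < min b1 (η' / 2) := lt_min hb1 (by positivity)
  have hden : (0 : ℝ) < ((C : ℝ) + 1) * ((r : ℝ) + 1) := by positivity
  have hβ0 : 0 < β := div_pos hm hden
  have hβm : (C : ℝ) * ((r : ℝ) + 1) * β ≤ min b1 (η' / 2) := by
    rw [hβ, mul_div_assoc', div_le_iff₀ hden]
    have h1 : (C : ℝ) * ((r : ℝ) + 1) ≤ ((C : ℝ) + 1) * ((r : ℝ) + 1) := by
      have : (0 : ℝ) ≤ (r : ℝ) + 1 := by positivity
      nlinarith
    nlinarith
  have hCβ : (C : ℝ) * β ≤ min b1 (η' / 2) := by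
    refine le_trans ?_ hβm
    have h1 : (0 : ℝ) ≤ (C : ℝ) * β := by positivity
    have h2 : (0 : ℝ) ≤ (r : ℝ) := Nat.cast_nonneg _
    nlinarith
  refine ⟨β, hβ0, max n1 (max n2 n3), fun n hn => ?_⟩
  have hn1 : n1 ≤ n := le_trans (le_max_left _ _) hn
  have hn2 : n2 ≤ n := le_trans (le_trans (le_max_left _ _) (le_max_right _ _)) hn
  have hn3 : n3 ≤ n := le_trans (le_trans (le_max_right _ _) (le_max_right _ _)) hn
  set 𝒯 : Set (Finset (Finset Pt)) :=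
    {T | UT n T ∧ ∃ V S, Str n T V S ∧ ((T \ V).card : ℝ) ≤ β * (n : ℝ) ^ 2} with h𝒯
  have hfin : 𝒯.Finite := (UT_finite n).subset fun T hT => hT.1
  have hN0 : (0 : ℝ) ≤ (n : ℝ) ^ 2 := by positivity
  -- choice of the family of boxes
  have hch : ∀ T : Finset (Finset Pt), ∃ F : Finset BoxD, T ∈ 𝒯 → Fam n T F ∧
      (F.card : ℝ) ≤ b1 * (n : ℝ) ^ 2 ∧ (F.card : ℝ) ≤ η' / 2 * (n : ℝ) ^ 2 ∧
      ((Unp r (refill T F) : ℕ) : ℝ) + ((∑ D ∈ F, 2 * (D.p + D.q) : ℕ) : ℝ) ≤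
        2 * (n : ℝ) ^ 2 + 2 * n + η' / 2 * (n : ℝ) ^ 2 := by
    intro T
    by_cases hT : T ∈ 𝒯
    · obtain ⟨hU, V, S, hStr, hcard⟩ := hT
      obtain ⟨F, hF, hFc, hFr⟩ := hC n T V S hU hStr
      refine ⟨F, fun _ => ⟨hF, ?_, ?_, ?_⟩⟩
      · have h1 : (F.card : ℝ) ≤ (C : ℝ) * ((T \ V).card : ℝ) := by exact_mod_cast hFc
        have h2 : (C : ℝ) * ((T \ V).card : ℝ) ≤ (C : ℝ) * (β * (n : ℝ) ^ 2) :=
          mul_le_mul_of_nonneg_left hcard (Nat.cast_nonneg _)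
        have h3 : (C : ℝ) * β * (n : ℝ) ^ 2 ≤ b1 * (n : ℝ) ^ 2 :=
          mul_le_mul_of_nonneg_right (hCβ.trans (min_le_left _ _)) hN0
        linarith
      · have h1 : (F.card : ℝ) ≤ (C : ℝ) * ((T \ V).card : ℝ) := by exact_mod_cast hFc
        have h2 : (C : ℝ) * ((T \ V).card : ℝ) ≤ (C : ℝ) * (β * (n : ℝ) ^ 2) :=
          mul_le_mul_of_nonneg_left hcard (Nat.cast_nonneg _)
        have h3 : (C : ℝ) * β * (n : ℝ) ^ 2 ≤ η' / 2 * (n : ℝ) ^ 2 :=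
          mul_le_mul_of_nonneg_right (hCβ.trans (min_le_right _ _)) hN0
        linarith
      · have h1 : ((Unp r (refill T F) : ℕ) : ℝ) + ((∑ D ∈ F, 2 * (D.p + D.q) : ℕ) : ℝ) ≤
            2 * (n : ℝ) ^ 2 + 2 * n + C * (r + 1) * ((T \ V).card : ℝ) := by
          exact_mod_cast hFr r
        have h2 : (C : ℝ) * (r + 1) * ((T \ V).card : ℝ) ≤ (C : ℝ) * (r + 1) * (β * (n : ℝ) ^ 2) :=
          mul_le_mul_of_nonneg_left hcard (by positivity)
        have h3 : (C : ℝ) * (r + 1) * β * (n : ℝ) ^ 2 ≤ η' / 2 * (n : ℝ) ^ 2 :=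
          mul_le_mul_of_nonneg_right (hβm.trans (min_le_right _ _)) hN0
        linarith
    · exact ⟨∅, fun h => absurd h hT⟩
  choose Fc hFc using hch
  -- the total area is at most `2 n ^ 2`
  have harea : ∀ T ∈ hfin.toFinset, ∑ D ∈ Fc T, 2 * (D.p + D.q) ∈ range (2 * n ^ 2 + 1) := by
    intro T hT
    rw [Set.Finite.mem_toFinset] at hT
    have hU := hT.1
    obtain ⟨hF, -, -, -⟩ := hFc T hT
    obtain ⟨-, hd⟩ := refill_disj hU hF
    have h1 : ((Fc T).biUnion (fun D => D.canon)).card = ∑ D ∈ Fc T, 2 * (D.p + D.q) := by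
      rw [card_biUnion]
      · exact sum_congr rfl fun D hD => canon_card (hF.box D hD).ok
      · intro D hD D' hD' hne
        exact hd D hD D' hD' hne
    have h2 : ((Fc T).biUnion (fun D => D.canon)).card ≤ (refill T (Fc T)).card :=
      card_le_card (by unfold refill; exact subset_union_right)
    rw [ut_card (refill_UT hU hF), h1] at h2
    rw [mem_range]
    omega
  have hsum : (hfin.toFinset.card : ℝ) = ∑ A ∈ range (2 * n ^ 2 + 1),
      ((hfin.toFinset.filter (fun T => ∑ D ∈ Fc T, 2 * (D.p + D.q) = A)).card : ℝ) := by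
    rw [card_eq_sum_card_fiberwise (f := fun T => ∑ D ∈ Fc T, 2 * (D.p + D.q))
      (t := range (2 * n ^ 2 + 1))]
    · push_cast
      rfl
    · intro T hT
      exact harea T hT
  set G : ℝ := (2 : ℝ) ^ (η' * (n : ℝ) ^ 2) with hG
  have hG0 : 0 < G := Real.rpow_pos_of_pos (by norm_num) _
  have hG1 : 1 ≤ G := Real.one_le_rpow (by norm_num) (by positivity)
  have hterm : ∀ A ∈ range (2 * n ^ 2 + 1),
      ((hfin.toFinset.filter (fun T => ∑ D ∈ Fc T, 2 * (D.p + D.q) = A)).card : ℝ) ≤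
        (2 : ℝ) ^ (2 * n) * G ^ 4 * (100 / 49 : ℝ) ^ (2 * n ^ 2) := by
    intro A hA
    rw [mem_range] at hA
    have hA' : (A : ℝ) ≤ 2 * (n : ℝ) ^ 2 := by exact_mod_cast (by omega : A ≤ 2 * n ^ 2)
    set X : ℝ := 2 * (n : ℝ) ^ 2 + 2 * n + η' / 2 * (n : ℝ) ^ 2 with hX
    have hXA : 0 ≤ X - A := by
      have : (0 : ℝ) ≤ 2 * n + η' / 2 * (n : ℝ) ^ 2 := by positivity
      linarith
    have h1 := cnt_fixed (n := n) (r := r) (A := A) (U := ⌊X - A⌋₊) (η' := η') (b1 := b1)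
      (cf := η' / 2 * (n : ℝ) ^ 2) (hr n hn1 _) (hfam n hn2) Fc
      (hfin.toFinset.filter (fun T => ∑ D ∈ Fc T, 2 * (D.p + D.q) = A)) (by
        intro T hT
        obtain ⟨hT1, hT2⟩ := mem_filter.1 hT
        rw [Set.Finite.mem_toFinset] at hT1
        obtain ⟨hF, hF1, hF2, hF3⟩ := hFc T hT1
        refine ⟨hT1.1, hF, hF1, hF2, hT2, ?_⟩
        rw [hT2] at hF3
        exact Nat.le_floor (by linarith))
    refine h1.trans ?_
    have hU : ((⌊X - A⌋₊ : ℕ) : ℝ) ≤ X - A := Nat.floor_le hXA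
    have e1 : (2 : ℝ) ^ (((⌊X - A⌋₊ : ℕ) : ℝ) + η' * (n : ℝ) ^ 2) ≤
        (2 : ℝ) ^ (2 * n) * (2 : ℝ) ^ (2 * n ^ 2 - A) * G * G := by
      have h2 : (((⌊X - A⌋₊ : ℕ) : ℝ) + η' * (n : ℝ) ^ 2) ≤
          ((2 * n : ℕ) : ℝ) + ((2 * n ^ 2 - A : ℕ) : ℝ) + η' * (n : ℝ) ^ 2 +
            η' * (n : ℝ) ^ 2 := by
        rw [Nat.cast_sub (by omega : A ≤ 2 * n ^ 2)]
        push_cast
        have : η' / 2 * (n : ℝ) ^ 2 ≤ η' * (n : ℝ) ^ 2 := by
          have := mul_nonneg hη'.le hN0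
          linarith
        linarith
      refine (Real.rpow_le_rpow_of_exponent_le (by norm_num) h2).trans (le_of_eq ?_)
      rw [Real.rpow_add (by norm_num), Real.rpow_add (by norm_num), Real.rpow_add (by norm_num),
        Real.rpow_natCast, Real.rpow_natCast]
    have e2 : (4 : ℝ) ^ (η' / 2 * (n : ℝ) ^ 2) = G := by
      rw [hG, show (4 : ℝ) = (2 : ℝ) ^ (2 : ℝ) by norm_num, ← Real.rpow_mul (by norm_num)]
      congr 1
      ring
    have e3 : (2 : ℝ) ^ (2 * n ^ 2 - A) * (100 / 49 : ℝ) ^ A ≤ (100 / 49 : ℝ) ^ (2 * n ^ 2) := by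
      calc (2 : ℝ) ^ (2 * n ^ 2 - A) * (100 / 49 : ℝ) ^ A
          ≤ (100 / 49 : ℝ) ^ (2 * n ^ 2 - A) * (100 / 49 : ℝ) ^ A :=
            mul_le_mul_of_nonneg_right (pow_le_pow_left₀ (by norm_num) (by norm_num) _)
              (by positivity)
        _ = (100 / 49 : ℝ) ^ (2 * n ^ 2) := by
            rw [← pow_add, Nat.sub_add_cancel (by omega)]
    rw [e2]
    calc (2 : ℝ) ^ (((⌊X - A⌋₊ : ℕ) : ℝ) + η' * (n : ℝ) ^ 2) *
          (G * (G * (100 / 49 : ℝ) ^ A))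
        ≤ ((2 : ℝ) ^ (2 * n) * (2 : ℝ) ^ (2 * n ^ 2 - A) * G * G) *
          (G * (G * (100 / 49 : ℝ) ^ A)) := mul_le_mul_of_nonneg_right e1 (by positivity)
      _ = (2 : ℝ) ^ (2 * n) * G ^ 4 * ((2 : ℝ) ^ (2 * n ^ 2 - A) * (100 / 49 : ℝ) ^ A) := by ring
      _ ≤ (2 : ℝ) ^ (2 * n) * G ^ 4 * (100 / 49 : ℝ) ^ (2 * n ^ 2) :=
          mul_le_mul_of_nonneg_left e3 (by positivity)
  rw [Set.ncard_eq_toFinset_card _ hfin, hsum]
  have hfinal : G ^ 5 ≤ (2 : ℝ) ^ (η * (n : ℝ) ^ 2) := by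
    rw [hG, ← Real.rpow_natCast, ← Real.rpow_mul (by norm_num)]
    refine Real.rpow_le_rpow_of_exponent_le (by norm_num) ?_
    push_cast
    rw [hη'd]
    have := mul_nonneg hη.le hN0
    linarith
  calc ∑ A ∈ range (2 * n ^ 2 + 1),
        ((hfin.toFinset.filter (fun T => ∑ D ∈ Fc T, 2 * (D.p + D.q) = A)).card : ℝ)
      ≤ ∑ A ∈ range (2 * n ^ 2 + 1),
        (2 : ℝ) ^ (2 * n) * G ^ 4 * (100 / 49 : ℝ) ^ (2 * n ^ 2) := sum_le_sum hterm
    _ = ((2 * n ^ 2 + 1 : ℕ) : ℝ) *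
        ((2 : ℝ) ^ (2 * n) * G ^ 4 * (100 / 49 : ℝ) ^ (2 * n ^ 2)) := by
        rw [sum_const, card_range, nsmul_eq_mul]
    _ = (((2 * n ^ 2 + 1 : ℕ) : ℝ) * (2 : ℝ) ^ (2 * n)) *
        (G ^ 4 * (100 / 49 : ℝ) ^ (2 * n ^ 2)) := by ring
    _ ≤ G * (G ^ 4 * (100 / 49 : ℝ) ^ (2 * n ^ 2)) :=
        mul_le_mul_of_nonneg_right (hpoly n hn3) (by positivity)
    _ = G ^ 5 * (100 / 49 : ℝ) ^ (2 * n ^ 2) := by ring
    _ ≤ (2 : ℝ) ^ (η * (n : ℝ) ^ 2) * (100 / 49 : ℝ) ^ (2 * n ^ 2) :=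
        mul_le_mul_of_nonneg_right hfinal (by positivity)

end Pool.Agent.IT
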