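import Pool.Agent.IT.FlipConn

/-!
# An edge crossing a segment of the closed pattern region meets its interior
-/

set_option autoImplicit false

namespace Pool.Agent.IT

open Filter Topology
open Ins (Cross)

theorem eq_of_two_zero {A B C a : Pt} (hd : 0 < det A B C) (h1 : det A B a = 0)
    (h2 : det B C a = 0) : a = B := by
  have e1 : det A B C * (a.1 - B.1) = 0 := by
    simp only [det] at *
    linear_combination (C.1 - B.1) * h1 + (A.1 - B.1) * h2
  have e2 : det A B C * (a.2 - B.2) = 0 := by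
    simp only [det] at *
    linear_combination (C.2 - B.2) * h1 + (A.2 - B.2) * h2
  have hd' : det A B C ≠ 0 := hd.ne'
  have f1 : a.1 - B.1 = 0 := by
    rcases mul_eq_zero.mp e1 with h | h
    · exact absurd h hd'
    · exact h
  have f2 : a.2 - B.2 = 0 := by
    rcases mul_eq_zero.mp e2 with h | h
    · exact absurd h hd'
    · exact h
  exact Prod.ext (by linarith) (by linarith)

theorem collinear_zero {A B a b p : Pt} (hAB : A ≠ B) (h1 : det A B a = 0) (h2 : det A B b = 0)
    (h3 : det A B p = 0) : det a b p = 0 := by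
  have e1 : (B.1 - A.1) * det a b p = 0 := by
    simp only [det] at *
    linear_combination (p.1 - b.1) * h1 + (a.1 - p.1) * h2 + (b.1 - a.1) * h3
  have e2 : (B.2 - A.2) * det a b p = 0 := by
    simp only [det] at *
    linear_combination (p.2 - b.2) * h1 + (a.2 - p.2) * h2 + (b.2 - a.2) * h3
  by_contra hcon
  apply hAB
  have f1 : B.1 - A.1 = 0 := by
    rcases mul_eq_zero.mp e1 with h | h
    · exact h
    · exact absurd h hcon
  have f2 : B.2 - A.2 = 0 := by
    rcases mul_eq_zero.mp e2 with h | h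
    · exact h
    · exact absurd h hcon
  exact Prod.ext (by linarith) (by linarith)

/-- the crossing point of an edge and a segment -/
noncomputable def xpt (a b p q : Pt) : ℝ × ℝ :=
  ((-(det a b q : ℝ) * p.1 + (det a b p : ℝ) * q.1) / ((det a b p : ℝ) - det a b q),
   (-(det a b q : ℝ) * p.2 + (det a b p : ℝ) * q.2) / ((det a b p : ℝ) - det a b q))

theorem xpt_dl {a b p q : Pt} (h : (det a b p : ℝ) - det a b q ≠ 0) (A B : Pt) :
    ((det a b p : ℝ) - det a b q) * dl A B (xpt a b p q) =
      -(det a b q : ℝ) * det A B p + (det a b p : ℝ) * det A B q := by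
  have h1 : ((det a b p : ℝ) - det a b q) * (xpt a b p q).1 =
      -(det a b q : ℝ) * p.1 + (det a b p : ℝ) * q.1 := by
    simp only [xpt]; field_simp
  have h2 : ((det a b p : ℝ) - det a b q) * (xpt a b p q).2 =
      -(det a b q : ℝ) * p.2 + (det a b p : ℝ) * q.2 := by
    simp only [xpt]; field_simp
  have e : ((det a b p : ℝ) - det a b q) * dl A B (xpt a b p q) =
      ((B.1 : ℝ) - A.1) * (((det a b p : ℝ) - det a b q) * (xpt a b p q).2
        - ((det a b p : ℝ) - det a b q) * A.2) - ((B.2 : ℝ) - A.2) *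
        (((det a b p : ℝ) - det a b q) * (xpt a b p q).1 - ((det a b p : ℝ) - det a b q) * A.1) := by
    simp only [dl]; ring
  rw [e, h1, h2]
  have f1 : (det A B p : ℝ) = ((B.1 : ℝ) - A.1) * (p.2 - A.2) - ((B.2 : ℝ) - A.2) * (p.1 - A.1) := by
    simp only [det]; push_cast; ring
  have f2 : (det A B q : ℝ) = ((B.1 : ℝ) - A.1) * (q.2 - A.2) - ((B.2 : ℝ) - A.2) * (q.1 - A.1) := by
    simp only [det]; push_cast; ring
  rw [f1, f2]; ring

theorem xpt_dl' {a b p q : Pt} (h : (det a b p : ℝ) - det a b q ≠ 0) (A B : Pt) :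
    ((det a b p : ℝ) - det a b q) * dl A B (xpt a b p q) =
      (det p q b : ℝ) * det A B a - (det p q a : ℝ) * det A B b := by
  rw [xpt_dl h]
  simp only [det]; push_cast; ring

theorem xpt_mem_segment {a b p q : Pt} (h1 : 0 < det a b p) (h2 : det a b q < 0) :
    xpt a b p q ∈ segment ℝ (emb p) (emb q) := by
  have h1' : (0:ℝ) < det a b p := by exact_mod_cast h1
  have h2' : (det a b q : ℝ) < 0 := by exact_mod_cast h2
  have hD : (0:ℝ) < (det a b p : ℝ) - det a b q := by linarith
  refine ⟨-(det a b q : ℝ) / ((det a b p : ℝ) - det a b q),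
    (det a b p : ℝ) / ((det a b p : ℝ) - det a b q), by
      apply div_nonneg <;> linarith, by apply div_nonneg <;> linarith, ?_, ?_⟩
  · rw [← add_div, div_eq_one_iff_eq hD.ne']; ring
  · ext
    · simp only [emb, xpt, Prod.fst_add, Prod.smul_fst, smul_eq_mul]; ring
    · simp only [emb, xpt, Prod.snd_add, Prod.smul_snd, smul_eq_mul]; ring

/-- the essential case: if the crossing point is on the line `A B` -/
theorem cross_meets_aux {A B C a b p q : Pt} (hd : 0 < det A B C)
    (ha1 : 0 ≤ det A B a) (ha2 : 0 ≤ det B C a) (ha3 : 0 ≤ det C A a)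
    (hb1 : 0 ≤ det A B b) (hb2 : 0 ≤ det B C b) (hb3 : 0 ≤ det C A b)
    (hc : Cross a b p q) (h0 : dl A B (xpt a b p q) = 0) :
    ∃ y ∈ segment ℝ (emb p) (emb q), y ∈ opn A B C := by
  obtain ⟨c1, c2, c3, c4⟩ := hc
  have c1' : (0:ℝ) < det a b p := by exact_mod_cast c1
  have c2' : (det a b q : ℝ) < 0 := by exact_mod_cast c2
  have c3' : (det p q a : ℝ) < 0 := by exact_mod_cast c3
  have c4' : (0:ℝ) < det p q b := by exact_mod_cast c4
  have hD : (0:ℝ) < (det a b p : ℝ) - det a b q := by linarith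
  have hab : a ≠ b := by
    rintro rfl
    rw [det_self_left] at c1; exact lt_irrefl _ c1
  have hAB : A ≠ B := by
    rintro rfl
    rw [det_self_left] at hd; exact lt_irrefl _ hd
  -- a and b are on the line A B
  have e1 := xpt_dl' hD.ne' A B (a := a) (b := b) (p := p) (q := q)
  rw [h0, mul_zero] at e1
  have ha1' : (0:ℝ) ≤ det A B a := by exact_mod_cast ha1
  have hb1' : (0:ℝ) ≤ det A B b := by exact_mod_cast hb1
  have za : (det A B a : ℝ) = 0 := by
    by_contra hne
    have hpos : (0:ℝ) < det A B a := lt_of_le_of_ne ha1' (Ne.symm hne)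
    nlinarith [mul_pos c4' hpos, mul_nonneg (by linarith : 0 ≤ -(det p q a : ℝ)) hb1']
  have zb : (det A B b : ℝ) = 0 := by
    rw [za] at e1
    have : (det p q a : ℝ) * det A B b = 0 := by linarith
    rcases mul_eq_zero.mp this with h | h
    · exact absurd h c3'.ne
    · exact h
  have za' : det A B a = 0 := by exact_mod_cast za
  have zb' : det A B b = 0 := by exact_mod_cast zb
  -- the other two functionals are positive at the crossing point
  have pos2 : 0 < dl B C (xpt a b p q) := by
    have e2 := xpt_dl' hD.ne' B C (a := a) (b := b) (p := p) (q := q)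
    have g1 : (0:ℝ) ≤ det B C a := by exact_mod_cast ha2
    have g2 : (0:ℝ) ≤ det B C b := by exact_mod_cast hb2
    have hne : (0:ℝ) < (det p q b : ℝ) * det B C a - (det p q a : ℝ) * det B C b := by
      by_contra hcon
      have k1 := mul_nonneg c4'.le g1
      have k2 := mul_nonneg (by linarith : 0 ≤ -(det p q a : ℝ)) g2
      have l1 : (det p q b : ℝ) * det B C a = 0 := by linarith
      have l2 : (det p q a : ℝ) * det B C b = 0 := by linarith
      have m1 : (det B C a : ℝ) = 0 := (mul_eq_zero.mp l1).resolve_left c4'.ne'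
      have m2 : (det B C b : ℝ) = 0 := (mul_eq_zero.mp l2).resolve_left c3'.ne
      apply hab
      rw [eq_of_two_zero hd za' (by exact_mod_cast m1), eq_of_two_zero hd zb' (by exact_mod_cast m2)]
    rw [← e2] at hne
    exact pos_of_mul_pos_right hne hD.le
  have pos3 : 0 < dl C A (xpt a b p q) := by
    have e2 := xpt_dl' hD.ne' C A (a := a) (b := b) (p := p) (q := q)
    have g1 : (0:ℝ) ≤ det C A a := by exact_mod_cast ha3
    have g2 : (0:ℝ) ≤ det C A b := by exact_mod_cast hb3
    have hne : (0:ℝ) < (det p q b : ℝ) * det C A a - (det p q a : ℝ) * det C A b := by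
      by_contra hcon
      have k1 := mul_nonneg c4'.le g1
      have k2 := mul_nonneg (by linarith : 0 ≤ -(det p q a : ℝ)) g2
      have l1 : (det p q b : ℝ) * det C A a = 0 := by linarith
      have l2 : (det p q a : ℝ) * det C A b = 0 := by linarith
      have m1 : (det C A a : ℝ) = 0 := (mul_eq_zero.mp l1).resolve_left c4'.ne'
      have m2 : (det C A b : ℝ) = 0 := (mul_eq_zero.mp l2).resolve_left c3'.ne
      have hd2 : 0 < det C A B := by rw [det_cyc']; exact hd
      apply hab
      rw [eq_of_two_zero hd2 (by exact_mod_cast m1) za', eq_of_two_zero hd2 (by exact_mod_cast m2) zb']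
    rw [← e2] at hne
    exact pos_of_mul_pos_right hne hD.le
  -- one of p, q is strictly inside the half plane
  have e3 := xpt_dl hD.ne' A B (a := a) (b := b) (p := p) (q := q)
  rw [h0, mul_zero] at e3
  have hpq : 0 < (det A B p : ℝ) ∨ 0 < (det A B q : ℝ) := by
    by_contra hcon
    push Not at hcon
    have k1 := mul_nonneg (by linarith : 0 ≤ -(det a b q : ℝ)) (by linarith : 0 ≤ -(det A B p : ℝ))
    have k2 := mul_nonneg c1'.le (by linarith : 0 ≤ -(det A B q : ℝ))
    have l1 : (det a b q : ℝ) * det A B p = 0 := by linarith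
    have m1 : (det A B p : ℝ) = 0 := (mul_eq_zero.mp l1).resolve_left c2'.ne
    have : det a b p = 0 := collinear_zero hAB za' zb' (by exact_mod_cast m1)
    omega
  have hxs := xpt_mem_segment c1 c2
  -- move towards `w`
  have move : ∀ w : Pt, emb w ∈ segment ℝ (emb p) (emb q) → 0 < (det A B w : ℝ) →
      ∃ y ∈ segment ℝ (emb p) (emb q), y ∈ opn A B C := by
    intro w hw hpos
    have s1 : sl A B (emb w - xpt a b p q) = det A B w := by
      have : sl A B (emb w - xpt a b p q) = dl A B (emb w) - dl A B (xpt a b p q) := by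
        simp only [sl, dl, Prod.fst_sub, Prod.snd_sub]; ring
      rw [this, h0, dl_emb, sub_zero]
    obtain ⟨ε, ⟨⟨g1, g2⟩, g3⟩, g4⟩ := (((ev_pos (A := dl A B (xpt a b p q))
      (B := sl A B (emb w - xpt a b p q)) (Or.inr ⟨h0, by rw [s1]; exact hpos⟩)).and
      (ev_pos (B := sl B C (emb w - xpt a b p q)) (Or.inl pos2))).and
      (ev_pos (B := sl C A (emb w - xpt a b p q)) (Or.inl pos3))).and
      (Ioo_mem_nhdsGT (show (0:ℝ) < 1 by norm_num)) |>.exists
    refine ⟨xpt a b p q + ε • (emb w - xpt a b p q), ?_, ?_, ?_, ?_⟩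
    · have hcv := convex_segment (𝕜 := ℝ) (emb p) (emb q)
      have e : xpt a b p q + ε • (emb w - xpt a b p q) = (1 - ε) • xpt a b p q + ε • emb w := by
        module
      rw [e]
      exact hcv hxs hw (by linarith [g4.2]) g4.1.le (by ring)
    · rw [dl_add]; exact g1
    · rw [dl_add]; exact g2
    · rw [dl_add]; exact g3
  rcases hpq with h | h
  · exact move p (left_mem_segment ℝ _ _) h
  · exact move q (right_mem_segment ℝ _ _) h

/-- An edge crossing a segment of the closed triangle `A B C` properly meets the open triangle. -/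
theorem cross_meets {A B C a b p q : Pt} (hd : 0 < det A B C)
    (ha1 : 0 ≤ det A B a) (ha2 : 0 ≤ det B C a) (ha3 : 0 ≤ det C A a)
    (hb1 : 0 ≤ det A B b) (hb2 : 0 ≤ det B C b) (hb3 : 0 ≤ det C A b)
    (hc : Cross a b p q) : ∃ y ∈ segment ℝ (emb p) (emb q), y ∈ opn A B C := by
  have c1' : (0:ℝ) < det a b p := by exact_mod_cast hc.1
  have c2' : (det a b q : ℝ) < 0 := by exact_mod_cast hc.2.1
  have c3' : (det p q a : ℝ) < 0 := by exact_mod_cast hc.2.2.1
  have c4' : (0:ℝ) < det p q b := by exact_mod_cast hc.2.2.2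
  have hD : (0:ℝ) < (det a b p : ℝ) - det a b q := by linarith
  have nn : ∀ X Y : Pt, 0 ≤ det X Y a → 0 ≤ det X Y b → 0 ≤ dl X Y (xpt a b p q) := by
    intro X Y g1 g2
    have e := xpt_dl' hD.ne' X Y (a := a) (b := b) (p := p) (q := q)
    have g1' : (0:ℝ) ≤ det X Y a := by exact_mod_cast g1
    have g2' : (0:ℝ) ≤ det X Y b := by exact_mod_cast g2
    have : 0 ≤ ((det a b p : ℝ) - det a b q) * dl X Y (xpt a b p q) := by
      rw [e]
      nlinarith [mul_nonneg c4'.le g1', mul_nonneg (by linarith : 0 ≤ -(det p q a : ℝ)) g2']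
    exact nonneg_of_mul_nonneg_right this hD
  have n1 := nn A B ha1 hb1
  have n2 := nn B C ha2 hb2
  have n3 := nn C A ha3 hb3
  rcases n1.lt_or_eq with h1 | h1
  · rcases n2.lt_or_eq with h2 | h2
    · rcases n3.lt_or_eq with h3 | h3
      · exact ⟨_, xpt_mem_segment hc.1 hc.2.1, h1, h2, h3⟩
      · obtain ⟨y, hy, g1, g2, g3⟩ := cross_meets_aux (A := C) (B := A) (C := B)
          (by rw [det_cyc']; exact hd) ha3 ha1 ha2 hb3 hb1 hb2 hc h3.symm
        exact ⟨y, hy, g2, g3, g1⟩
    · obtain ⟨y, hy, g1, g2, g3⟩ := cross_meets_aux (A := B) (B := C) (C := A)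
        (by rw [det_cyc]; exact hd) ha2 ha3 ha1 hb2 hb3 hb1 hc h2.symm
      exact ⟨y, hy, g3, g1, g2⟩
  · exact cross_meets_aux hd ha1 ha2 ha3 hb1 hb2 hb3 hc h1.symm

end Pool.Agent.IT
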