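import Pool.Agent.IT.Anclin

/-!
# The edge function of a triangulation

`Mid n` is the set of (doubled) midpoints, `ev B T s` the vector of the edge of `T` with doubled
midpoint `s`, oriented by the linear form `lf B`.
-/

set_option autoImplicit false

namespace Pool.Agent.IT

open Finset

variable {n : ℕ} {T T' : Finset (Finset Pt)}

/-- doubled midpoints of the edges -/
noncomputable def Mid (n : ℕ) : Finset Pt :=
  ((Finset.Icc (0 : ℤ) (2 * n)) ×ˢ (Finset.Icc (0 : ℤ) (2 * n))).filter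
    (fun s => ¬ (2 ∣ s.1 ∧ 2 ∣ s.2))

theorem mem_Mid {s : Pt} : s ∈ Mid n ↔ (0 ≤ s.1 ∧ s.1 ≤ 2 * n) ∧ (0 ≤ s.2 ∧ s.2 ≤ 2 * n) ∧
    ¬ (2 ∣ s.1 ∧ 2 ∣ s.2) := by
  simp only [Mid, Finset.mem_filter, Finset.mem_product, Finset.mem_Icc]
  tauto

theorem lf_add (B : ℤ) (a b : Pt) : lf B (a + b) = lf B a + lf B b := by
  simp only [lf, Prod.fst_add, Prod.snd_add]; ring

theorem lf_sub (B : ℤ) (a b : Pt) : lf B (a - b) = lf B a - lf B b := by
  simp only [lf, Prod.fst_sub, Prod.snd_sub]; ring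

theorem lf_injOn {B : ℤ} (hB : (n : ℤ) < B) {a b : Pt} (ha : InSq n a) (hb : InSq n b)
    (h : lf B a = lf B b) : a = b := by
  obtain ⟨a1, a2, a3, a4⟩ := ha
  obtain ⟨b1, b2, b3, b4⟩ := hb
  simp only [lf] at h
  have h1 : B * (a.1 - b.1) = b.2 - a.2 := by linarith
  have h2 : a.1 - b.1 = 0 := by
    by_contra h0
    rcases lt_or_gt_of_ne h0 with h3 | h3
    · have : a.1 - b.1 ≤ -1 := by omega
      nlinarith
    · have : 1 ≤ a.1 - b.1 := by omega
      nlinarith
  rw [h2] at h1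
  exact Prod.ext (by linarith) (by linarith)

theorem lf_injOn_Mid {B : ℤ} (hB : 2 * (n : ℤ) < B) :
    Set.InjOn (lf B) (Mid n : Set Pt) := by
  intro a ha b hb h
  obtain ⟨⟨a1, a2⟩, ⟨a3, a4⟩, -⟩ := mem_Mid.1 ha
  obtain ⟨⟨b1, b2⟩, ⟨b3, b4⟩, -⟩ := mem_Mid.1 hb
  simp only [lf] at h
  have h1 : B * (a.1 - b.1) = b.2 - a.2 := by linarith
  have h2 : a.1 - b.1 = 0 := by
    by_contra h0
    rcases lt_or_gt_of_ne h0 with h3 | h3
    · have : a.1 - b.1 ≤ -1 := by omega
      nlinarith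
    · have : 1 ≤ a.1 - b.1 := by omega
      nlinarith
  rw [h2] at h1
  exact Prod.ext (by linarith) (by linarith)

theorem IsEdge.ne {a b : Pt} (h : IsEdge T a b) : a ≠ b := by
  obtain ⟨r, h | h⟩ := h
  · exact h.ne
  · exact h.ne.symm

theorem IsEdge.mem_Mid (hT : UT n T) {a b : Pt} (h : IsEdge T a b) : a + b ∈ Mid n := by
  obtain ⟨a1, a2, a3, a4⟩ := h.insq hT
  obtain ⟨b1, b2, b3, b4⟩ := h.symm.insq hT
  rw [IT.mem_Mid]
  refine ⟨⟨?_, ?_⟩, ⟨?_, ?_⟩, ?_⟩
  · simp only [Prod.fst_add]; linarith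
  · simp only [Prod.fst_add]; linarith
  · simp only [Prod.snd_add]; linarith
  · simp only [Prod.snd_add]; linarith
  · rintro ⟨⟨i, hi⟩, ⟨j, hj⟩⟩
    simp only [Prod.fst_add, Prod.snd_add] at hi hj
    obtain ⟨u, hu⟩ := h.exists_unit
    have hb1 : b.1 = 2 * i - a.1 := by linarith
    have hb2 : b.2 = 2 * j - a.2 := by linarith
    have : 2 * ((i - a.1) * (u.2 - a.2) - (j - a.2) * (u.1 - a.1)) = 1 := by
      rw [← hu]; simp only [det, hb1, hb2]; ring
    omega

open Classical in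
/-- The oriented vector of the edge of `T` with doubled midpoint `s`. -/
noncomputable def ev (B : ℤ) (T : Finset (Finset Pt)) (s : Pt) : Pt :=
  if h : ∃ ab : Pt × Pt, IsEdge T ab.1 ab.2 ∧ lf B ab.1 < lf B ab.2 ∧ ab.1 + ab.2 = s then
    (Classical.choose h).2 - (Classical.choose h).1 else 0

theorem ev_eq (hT : UT n T) {B : ℤ} {a b : Pt} (h : IsEdge T a b) (hl : lf B a < lf B b) :
    ev B T (a + b) = b - a := by
  classical
  have hex : ∃ ab : Pt × Pt, IsEdge T ab.1 ab.2 ∧ lf B ab.1 < lf B ab.2 ∧ ab.1 + ab.2 = a + b :=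
    ⟨(a, b), h, hl, rfl⟩
  unfold ev
  rw [dif_pos hex]
  obtain ⟨h1, h2, h3⟩ := Classical.choose_spec hex
  set c := Classical.choose hex
  have e1 := congrArg Prod.fst h3
  have e2 := congrArg Prod.snd h3
  simp only [Prod.fst_add, Prod.snd_add] at e1 e2
  rcases h1.eq_of_mid hT h e1 e2 with ⟨k1, k2⟩ | ⟨k1, k2⟩
  · rw [k1, k2]
  · rw [k1, k2] at h2
    exact absurd h2 (not_lt.2 hl.le)

theorem ev_spec (hT : UT n T) {B : ℤ} (hB : (n : ℤ) < B) {s : Pt} (hs : s ∈ Mid n) :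
    ∃ a b, IsEdge T a b ∧ lf B a < lf B b ∧ a + b = s ∧ ev B T s = b - a := by
  obtain ⟨⟨s1, s2⟩, ⟨s3, s4⟩, hodd⟩ := mem_Mid.1 hs
  obtain ⟨p, q, h, h1, h2⟩ := hT.exists_mid s1 s2 s3 s4 hodd
  have hsum : p + q = s := Prod.ext h1 h2
  rcases lt_trichotomy (lf B p) (lf B q) with hl | hl | hl
  · exact ⟨p, q, h, hl, hsum, by rw [← hsum]; exact ev_eq hT h hl⟩
  · exact absurd (lf_injOn hB (h.insq hT) (h.symm.insq hT) hl) h.ne
  · refine ⟨q, p, h.symm, hl, by rw [add_comm]; exact hsum, ?_⟩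
    rw [← hsum, add_comm p q]
    exact ev_eq hT h.symm hl

/-- edges in terms of the edge function -/
def EF (n : ℕ) (f : Pt → Pt) (a b : Pt) : Prop :=
  a + b ∈ Mid n ∧ (f (a + b) = b - a ∨ f (a + b) = a - b)

theorem EF.symm {f : Pt → Pt} {a b : Pt} (h : EF n f a b) : EF n f b a := by
  obtain ⟨h1, h2⟩ := h
  rw [add_comm] at h1 h2
  exact ⟨h1, h2.symm⟩

theorem isEdge_iff (hT : UT n T) {B : ℤ} (hB : (n : ℤ) < B) {a b : Pt} :
    IsEdge T a b ↔ EF n (ev B T) a b := by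
  constructor
  · intro h
    refine ⟨h.mem_Mid hT, ?_⟩
    rcases lt_trichotomy (lf B a) (lf B b) with hl | hl | hl
    · exact Or.inl (ev_eq hT h hl)
    · exact absurd (lf_injOn hB (h.insq hT) (h.symm.insq hT) hl) h.ne
    · right
      rw [add_comm]
      exact ev_eq hT h.symm hl
  · rintro ⟨hm, h⟩
    obtain ⟨c, d, hcd, -, hsum, hev⟩ := ev_spec hT hB hm
    have e1 := congrArg Prod.fst hsum
    have e2 := congrArg Prod.snd hsum
    simp only [Prod.fst_add, Prod.snd_add] at e1 e2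
    rw [hev] at h
    rcases h with h | h
    · have g1 := congrArg Prod.fst h
      have g2 := congrArg Prod.snd h
      simp only [Prod.fst_sub, Prod.snd_sub] at g1 g2
      have hc : c = a := Prod.ext (by linarith) (by linarith)
      have hd : d = b := Prod.ext (by linarith) (by linarith)
      rw [← hc, ← hd]; exact hcd
    · have g1 := congrArg Prod.fst h
      have g2 := congrArg Prod.snd h
      simp only [Prod.fst_sub, Prod.snd_sub] at g1 g2
      have hc : c = b := Prod.ext (by linarith) (by linarith)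
      have hd : d = a := Prod.ext (by linarith) (by linarith)
      rw [← hc, ← hd]; exact hcd.symm

theorem ev_eq_zero (hT : UT n T) {B : ℤ} {s : Pt} (hs : s ∉ Mid n) : ev B T s = 0 := by
  classical
  unfold ev
  rw [dif_neg]
  rintro ⟨ab, h, -, rfl⟩
  exact hs (h.mem_Mid hT)

/-- Three pairwise adjacent lattice points spanning a unimodular triangle form a triangle of `T`. -/
theorem pos_of_edges (hT : UT n T) {p q r : Pt} (hpq : IsEdge T p q) (hpr : IsEdge T p r)
    (hqr : IsEdge T q r) (h : det p q r = 1) : Pos T p q r := by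
  have hp := hpq.insq hT
  have hq := hpq.symm.insq hT
  have hr := hpr.symm.insq hT
  -- no edge at `p` strictly inside the cone
  have hin : ∀ z, IsEdge T p z → 0 < det p q z → 0 < det p z r → False := by
    intro z hz h1 h2
    refine hqr.no_cross hT hz ?_ ?_
    · have e1 : det q r p = 1 := by rw [det_cyc]; exact h
      have e2 : det q r z = 1 - det p q z - det p z r := by
        have : det q r z = det p q r - det p q z - det p z r := by simp only [det]; ring
        rw [this, h]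
      rw [e1, e2]; linarith
    · rw [det_swap' p q z]
      nlinarith
  -- direction `w`
  have hdir : ∀ᶠ ε in nhdsWithin (0:ℝ) (Set.Ioi 0),
      emb p + ε • emb (q.1 + r.1 - 2 * p.1, q.2 + r.2 - 2 * p.2) ∈ Sq n := by
    have h1 : ∀ᶠ ε in nhdsWithin (0:ℝ) (Set.Ioi 0), ε < 1 / 2 :=
      (gt_mem_nhds (by norm_num : (0:ℝ) < 1 / 2)).filter_mono nhdsWithin_le_nhds
    filter_upwards [h1, self_mem_nhdsWithin] with ε hε1 hε0
    have hε0' : (0:ℝ) < ε := hε0
    rw [mem_Sq]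
    obtain ⟨a1, a2, a3, a4⟩ := hp
    obtain ⟨b1, b2, b3, b4⟩ := hq
    obtain ⟨c1, c2, c3, c4⟩ := hr
    have a1' : (0:ℝ) ≤ p.1 := by exact_mod_cast a1
    have a2' : (p.1:ℝ) ≤ n := by exact_mod_cast a2
    have a3' : (0:ℝ) ≤ p.2 := by exact_mod_cast a3
    have a4' : (p.2:ℝ) ≤ n := by exact_mod_cast a4
    have b1' : (0:ℝ) ≤ q.1 := by exact_mod_cast b1
    have b2' : (q.1:ℝ) ≤ n := by exact_mod_cast b2
    have b3' : (0:ℝ) ≤ q.2 := by exact_mod_cast b3
    have b4' : (q.2:ℝ) ≤ n := by exact_mod_cast b4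
    have c1' : (0:ℝ) ≤ r.1 := by exact_mod_cast c1
    have c2' : (r.1:ℝ) ≤ n := by exact_mod_cast c2
    have c3' : (0:ℝ) ≤ r.2 := by exact_mod_cast c3
    have c4' : (r.2:ℝ) ≤ n := by exact_mod_cast c4
    simp only [emb, Prod.fst_add, Prod.snd_add, Prod.smul_fst, Prod.smul_snd, smul_eq_mul]
    push_cast
    have k1 : 0 ≤ (1 - 2 * ε) * p.1 := mul_nonneg (by linarith) a1'
    have k2 : 0 ≤ (1 - 2 * ε) * (n - p.1) := mul_nonneg (by linarith) (by linarith)
    have k3 : 0 ≤ (1 - 2 * ε) * p.2 := mul_nonneg (by linarith) a3'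
    have k4 : 0 ≤ (1 - 2 * ε) * (n - p.2) := mul_nonneg (by linarith) (by linarith)
    refine ⟨?_, ?_, ?_, ?_⟩
    · nlinarith [mul_nonneg hε0'.le b1', mul_nonneg hε0'.le c1']
    · nlinarith [mul_nonneg hε0'.le (sub_nonneg.2 b2'), mul_nonneg hε0'.le (sub_nonneg.2 c2')]
    · nlinarith [mul_nonneg hε0'.le b3', mul_nonneg hε0'.le c3']
    · nlinarith [mul_nonneg hε0'.le (sub_nonneg.2 b4'), mul_nonneg hε0'.le (sub_nonneg.2 c4')]
  obtain ⟨x, y, hxy, hx0, hy0⟩ := hT.exists_cone hdir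
  -- in coordinates
  have hx1 : 0 ≤ det p x q + det p x r := by
    have : crs (x.1 - p.1, x.2 - p.2) (q.1 + r.1 - 2 * p.1, q.2 + r.2 - 2 * p.2)
        = det p x q + det p x r := by simp only [crs, det]; ring
    rw [this] at hx0; exact hx0
  have hy1 : 0 ≤ det p q y + det p r y := by
    have : crs (q.1 + r.1 - 2 * p.1, q.2 + r.2 - 2 * p.2) (y.1 - p.1, y.2 - p.2)
        = det p q y + det p r y := by simp only [crs, det]; ring
    rw [this] at hy0; exact hy0
  have hpx : IsEdge T p x := hxy.edge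
  have hpy : IsEdge T p y := hxy.cyc'.edge'
  -- `X = det p x r • Q - det p x q • R`
  have X1 : x.1 - p.1 = det p x r * (q.1 - p.1) - det p x q * (r.1 - p.1) := by
    have : det p q r * (x.1 - p.1) = det p x r * (q.1 - p.1) - det p x q * (r.1 - p.1) := by
      simp only [det]; ring
    rwa [h, one_mul] at this
  have X2 : x.2 - p.2 = det p x r * (q.2 - p.2) - det p x q * (r.2 - p.2) := by
    have : det p q r * (x.2 - p.2) = det p x r * (q.2 - p.2) - det p x q * (r.2 - p.2) := by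
      simp only [det]; ring
    rwa [h, one_mul] at this
  have Y1 : y.1 - p.1 = - det p r y * (q.1 - p.1) + det p q y * (r.1 - p.1) := by
    have : det p q r * (y.1 - p.1) = - det p r y * (q.1 - p.1) + det p q y * (r.1 - p.1) := by
      simp only [det]; ring
    rwa [h, one_mul] at this
  have Y2 : y.2 - p.2 = - det p r y * (q.2 - p.2) + det p q y * (r.2 - p.2) := by
    have : det p q r * (y.2 - p.2) = - det p r y * (q.2 - p.2) + det p q y * (r.2 - p.2) := by
      simp only [det]; ring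
    rwa [h, one_mul] at this
  have hXY : det p x r * det p q y - det p x q * det p r y = 1 := by
    rw [← hxy.2]
    have : det p q r * det p x y = det p x r * det p q y - det p x q * det p r y := by
      simp only [det]; ring
    rw [h, one_mul] at this; exact this.symm
  have nx : ¬ (0 < det p q x ∧ 0 < det p x r) := fun h => hin x hpx h.1 h.2
  have ny : ¬ (0 < det p q y ∧ 0 < det p y r) := fun h => hin y hpy h.1 h.2
  rw [det_swap' p x q] at nx
  rw [det_swap' p r y] at ny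
  have nq : ¬ (0 < det p x q ∧ 0 < det p q y) := fun h => hxy.no_cone hT hpq h.1 h.2
  have nr : ¬ (0 < det p x r ∧ 0 < det p r y) := fun h => hxy.no_cone hT hpr h.1 h.2
  obtain ⟨A, hA⟩ : ∃ A : ℤ, A = det p x r := ⟨_, rfl⟩
  obtain ⟨C, hC⟩ : ∃ C : ℤ, C = det p x q := ⟨_, rfl⟩
  obtain ⟨D, hD⟩ : ∃ D : ℤ, D = det p q y := ⟨_, rfl⟩
  obtain ⟨E, hE⟩ : ∃ E : ℤ, E = det p r y := ⟨_, rfl⟩
  rw [← hA, ← hC] at X1 X2
  rw [← hD, ← hE] at Y1 Y2
  rw [← hA, ← hC, ← hD, ← hE] at hXY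
  rw [← hA, ← hC] at hx1 nx
  rw [← hD, ← hE] at hy1 ny
  rw [← hC, ← hD] at nq
  rw [← hA, ← hE] at nr
  push Not at nx ny nq nr
  -- `C = 0`, `E = 0`
  have hC0 : C = 0 := by
    rcases lt_trichotomy C 0 with hc | hc | hc
    · have := nx (by linarith)
      linarith
    · exact hc
    · exfalso
      have hD0 := nq hc
      have hE0 : 0 ≤ E := by linarith
      rcases le_or_gt A 0 with ha | ha
      · have k1 : (-A) * (-D) ≤ C * (-D) := mul_le_mul_of_nonneg_right (by linarith) (by linarith)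
        have k2 : C * (-D) ≤ C * E := mul_le_mul_of_nonneg_left (by linarith) hc.le
        nlinarith
      · have k1 : A * D ≤ 0 := mul_nonpos_of_nonneg_of_nonpos ha.le hD0
        have k2 : 0 ≤ C * E := mul_nonneg hc.le hE0
        linarith
  rw [hC0, zero_mul, sub_zero] at hXY
  have hA0 : 0 ≤ A := by linarith
  have hA1 : A = 1 := by
    rcases Int.isUnit_iff.1 (IsUnit.of_mul_eq_one _ hXY) with h | h
    · exact h
    · omega
  have hD1 : D = 1 := by rw [hA1, one_mul] at hXY; exact hXY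
  have hE0 : E = 0 := by
    have h1 := ny (by omega)
    have h2 := nr (by omega)
    omega
  rw [hC0, hA1] at X1 X2
  rw [hE0, hD1] at Y1 Y2
  have hxq : x = q := Prod.ext (by linarith) (by linarith)
  have hyr : y = r := Prod.ext (by linarith) (by linarith)
  rw [hxq, hyr] at hxy
  exact hxy

/-- A triangulation is determined by its edges. -/
theorem UT.ext_edges (hT : UT n T) (hT' : UT n T') (h : ∀ p q, IsEdge T p q ↔ IsEdge T' p q) :
    T = T' := by
  have key : ∀ S S' : Finset (Finset Pt), UT n S → UT n S' →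
      (∀ p q, IsEdge S p q ↔ IsEdge S' p q) → S ⊆ S' := by
    intro S S' hS hS' h t ht
    obtain ⟨p, q, r, rfl, hp⟩ := hS.exists_pos ht
    exact (pos_of_edges hS' ((h p q).1 hp.edge) ((h p r).1 hp.cyc'.edge')
      ((h q r).1 hp.cyc.edge) hp.2).1
  exact Finset.Subset.antisymm (key T T' hT hT' h) (key T' T hT' hT (fun p q => (h p q).symm))

theorem ev_injective (hT : UT n T) (hT' : UT n T') {B : ℤ} (hB : (n : ℤ) < B)
    (h : ∀ s ∈ Mid n, ev B T s = ev B T' s) : T = T' := by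
  refine hT.ext_edges hT' ?_
  intro p q
  rw [isEdge_iff hT hB, isEdge_iff hT' hB]
  unfold EF
  constructor
  · rintro ⟨h1, h2⟩
    rw [h _ h1] at h2
    exact ⟨h1, h2⟩
  · rintro ⟨h1, h2⟩
    rw [← h _ h1] at h2
    exact ⟨h1, h2⟩

/-- three vectors in the same parity class cannot span pairwise parallelograms of area 2 -/
theorem no_three {x y z : Pt} (hxy1 : 2 ∣ y.1 - x.1) (hxy2 : 2 ∣ y.2 - x.2)
    (hxz1 : 2 ∣ z.1 - x.1) (hxz2 : 2 ∣ z.2 - x.2)
    (h1 : crs x y = 2 ∨ crs x y = -2) (h2 : crs x z = 2 ∨ crs x z = -2)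
    (h3 : crs y z = 2 ∨ crs y z = -2) : False := by
  obtain ⟨a, ha⟩ := hxy1
  obtain ⟨b, hb⟩ := hxy2
  obtain ⟨c, hc⟩ := hxz1
  obtain ⟨d, hd⟩ := hxz2
  have hy1 : y.1 = x.1 + 2 * a := by linarith
  have hy2 : y.2 = x.2 + 2 * b := by linarith
  have hz1 : z.1 = x.1 + 2 * c := by linarith
  have hz2 : z.2 = x.2 + 2 * d := by linarith
  have e1 : crs x y = 2 * (x.1 * b - x.2 * a) := by simp only [crs, hy1, hy2]; ring
  have e2 : crs x z = 2 * (x.1 * d - x.2 * c) := by simp only [crs, hz1, hz2]; ring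
  have e3 : crs y z = 2 * (x.1 * d - x.2 * c) - 2 * (x.1 * b - x.2 * a) + 4 * (a * d - b * c) := by
    simp only [crs, hy1, hy2, hz1, hz2]; ring
  rw [e1] at h1
  rw [e2] at h2
  rw [e3] at h3
  generalize x.1 * b - x.2 * a = u at *
  generalize x.1 * d - x.2 * c = v at *
  generalize a * d - b * c = w at *
  omega

theorem agree_past (hT : UT n T) (hT' : UT n T') {B : ℤ} (hB : (n : ℤ) < B) {s : Pt}
    (h : ∀ k ∈ Mid n, lf B k < lf B s → ev B T k = ev B T' k) :
    ∀ p q, lf B p + lf B q < lf B s → (IsEdge T p q ↔ IsEdge T' p q) := by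
  intro p q hpq
  rw [← lf_add] at hpq
  rw [isEdge_iff hT hB, isEdge_iff hT' hB]
  unfold EF
  constructor
  · rintro ⟨h1, h2⟩
    rw [h _ h1 hpq] at h2
    exact ⟨h1, h2⟩
  · rintro ⟨h1, h2⟩
    rw [← h _ h1 hpq] at h2
    exact ⟨h1, h2⟩

/-- At most two values of the edge function at a midpoint, given the past. -/
theorem two_options {B : ℤ} (hB : (n : ℤ) < B) (𝒮 : Finset (Finset (Finset Pt)))
    (h𝒮 : ∀ T ∈ 𝒮, UT n T) {s : Pt} (hs : s ∈ Mid n) (f : Pt → Pt) (O : Finset Pt)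
    (hO : ∀ x ∈ O, ∃ T ∈ 𝒮, (∀ k ∈ Mid n, lf B k < lf B s → ev B T k = f k) ∧ ev B T s = x) :
    O.card ≤ 2 := by
  by_contra hcon
  push Not at hcon
  obtain ⟨x, hx, y, hy, z, hz, hxy, hxz, hyz⟩ := Finset.two_lt_card.1 hcon
  -- pairwise
  have pair : ∀ x ∈ O, ∀ y ∈ O, x ≠ y → (crs x y = 2 ∨ crs x y = -2) ∧ 2 ∣ y.1 - x.1 ∧
      2 ∣ y.2 - x.2 := by
    intro x hx y hy hxy
    obtain ⟨T1, hT1, hp1, he1⟩ := hO x hx
    obtain ⟨T2, hT2, hp2, he2⟩ := hO y hy
    have u1 := h𝒮 T1 hT1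
    have u2 := h𝒮 T2 hT2
    obtain ⟨a, b, hab, hlab, hsab, hev1⟩ := ev_spec u1 hB hs
    obtain ⟨d, c, hdc, hldc, hsdc, hev2⟩ := ev_spec u2 hB hs
    have past := agree_past u1 u2 hB (s := s) (fun k hk hl => by rw [hp1 k hk hl, hp2 k hk hl])
    have e1 := congrArg Prod.fst (hsdc.trans hsab.symm)
    have e2 := congrArg Prod.snd (hsdc.trans hsab.symm)
    simp only [Prod.fst_add, Prod.snd_add] at e1 e2
    have hls : lf B s = lf B a + lf B b := by rw [← hsab, lf_add]
    rw [hls] at past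
    have hx' : x = b - a := by rw [← he1, hev1]
    have hy' : y = c - d := by rw [← he2, hev2]
    have hbc : b ≠ c := by
      rintro rfl
      have : d = a := Prod.ext (by linarith) (by linarith)
      rw [this] at hy'
      exact hxy (by rw [hx', hy'])
    have := anclin u1 u2 hB hab hdc e1 e2 hlab hldc past hbc
    refine ⟨?_, ?_, ?_⟩
    · rw [hx', hy']
      simpa [crs] using this
    · rw [hx', hy']
      refine ⟨a.1 - d.1, ?_⟩
      simp only [Prod.fst_sub]; linarith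
    · rw [hx', hy']
      refine ⟨a.2 - d.2, ?_⟩
      simp only [Prod.snd_sub]; linarith
  obtain ⟨p1, p2, p3⟩ := pair x hx y hy hxy
  obtain ⟨q1, q2, q3⟩ := pair x hx z hz hxz
  obtain ⟨r1, -, -⟩ := pair y hy z hz hyz
  exact no_three p2 p3 q2 q3 p1 q1 r1

end Pool.Agent.IT
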