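import Pool.Agent.IT.Defs

/-!
# Family of boxes, part A: local geometry
-/

set_option autoImplicit false

namespace Pool.Agent.IT

variable {n : ℕ} {T : Finset (Finset Pt)}

/-! ### cross products -/

theorem crs_add_r (e x y : Pt) : crs e (x + y) = crs e x + crs e y := by
  simp only [crs, Prod.fst_add, Prod.snd_add]; ring

theorem crs_sub_r (e x y : Pt) : crs e (x - y) = crs e x - crs e y := by
  simp only [crs, Prod.fst_sub, Prod.snd_sub]; ring

theorem crs_smul_r (e x : Pt) (k : ℤ) : crs e (k • x) = k * crs e x := by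
  simp only [crs, Prod.smul_fst, Prod.smul_snd, smul_eq_mul]; ring

theorem crs_self' (e : Pt) : crs e e = 0 := by
  simp only [crs]; ring

theorem crs_neg_l (e x : Pt) : crs (-e) x = - crs e x := by
  simp only [crs, Prod.fst_neg, Prod.snd_neg]; ring

theorem crs_add_smul_self (e x : Pt) (k : ℤ) : crs e (x + k • e) = crs e x := by
  rw [crs_add_r, crs_smul_r, crs_self']; ring

theorem crs_sub_smul_self (e x : Pt) (k : ℤ) : crs e (x - k • e) = crs e x := by
  rw [crs_sub_r, crs_smul_r, crs_self']; ring

theorem crs_add_self (e x : Pt) : crs e (x + e) = crs e x := by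
  rw [crs_add_r, crs_self']; ring

theorem crs_sub_self (e x : Pt) : crs e (x - e) = crs e x := by
  rw [crs_sub_r, crs_self']; ring

theorem det_eq_crs (p q r : Pt) : det p q r = crs (q - p) (r - p) := by
  simp only [crs, det, Prod.fst_sub, Prod.snd_sub]

theorem eq_smul_of_level {e : Pt} (he : IsCoprime e.1 e.2) {x y : Pt} (h : crs e x = crs e y) :
    ∃ k : ℤ, y = x + k • e := by
  obtain ⟨u, v, huv⟩ := he
  simp only [crs] at h
  refine ⟨u * (y.1 - x.1) + v * (y.2 - x.2), ?_⟩
  ext
  · simp only [Prod.fst_add, Prod.smul_fst, smul_eq_mul]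
    linear_combination (x.1 - y.1) * huv + v * h
  · simp only [Prod.snd_add, Prod.smul_snd, smul_eq_mul]
    linear_combination (x.2 - y.2) * huv - u * h

theorem Dir.ne_zero {e : Pt} (h : Dir e) : e ≠ 0 := by
  rintro rfl
  obtain ⟨h1, h2 | h2⟩ := h
  · simp at h2
  · simp at h2

theorem ne_add_of_dir {e : Pt} (h : Dir e) (x : Pt) : x ≠ x + e := by
  intro hx
  apply h.ne_zero
  have : x + 0 = x + e := by rw [add_zero]; exact hx
  exact (add_left_cancel this).symm

/-! ### triangles of `T` -/

theorem UT.pos_at (hT : UT n T) {t : Finset Pt} (ht : t ∈ T) {v : Pt} (hv : v ∈ t) :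
    ∃ a b, Pos T v a b ∧ t = {v, a, b} := by
  obtain ⟨a, b, c, rfl, h⟩ := hT.exists_pos ht
  simp only [Finset.mem_insert, Finset.mem_singleton] at hv
  rcases hv with rfl | rfl | rfl
  · exact ⟨b, c, h, rfl⟩
  · refine ⟨c, a, h.cyc, ?_⟩
    ext s; simp only [Finset.mem_insert, Finset.mem_singleton]; tauto
  · refine ⟨a, b, h.cyc', ?_⟩
    ext s; simp only [Finset.mem_insert, Finset.mem_singleton]; tauto

theorem Pos.mem1 {a b c : Pt} (_h : Pos T a b c) : a ∈ ({a, b, c} : Finset Pt) := by simp
theorem Pos.mem2 {a b c : Pt} (_h : Pos T a b c) : b ∈ ({a, b, c} : Finset Pt) := by simp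
theorem Pos.mem3 {a b c : Pt} (_h : Pos T a b c) : c ∈ ({a, b, c} : Finset Pt) := by simp

theorem UT.two (hT : UT n T) {u v w : Finset Pt} {x y : Pt} (hxy : x ≠ y)
    (hu : u ∈ T) (hv : v ∈ T) (hw : w ∈ T) (hxu : x ∈ u) (hyu : y ∈ u) (hxv : x ∈ v) (hyv : y ∈ v)
    (hxw : x ∈ w) (hyw : y ∈ w) (h1 : u ≠ w) (h2 : v ≠ w) : u = v := by
  by_contra hne
  have h := hT.card_edge_le (v := x) (p := y) hxy.symm
  have hsub : ({u, v, w} : Finset (Finset Pt)) ⊆ T.filter fun t => x ∈ t ∧ y ∈ t := by
    intro t ht
    simp only [Finset.mem_insert, Finset.mem_singleton] at ht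
    rw [Finset.mem_filter]
    rcases ht with rfl | rfl | rfl
    · exact ⟨hu, hxu, hyu⟩
    · exact ⟨hv, hxv, hyv⟩
    · exact ⟨hw, hxw, hyw⟩
  have h3 : ({u, v, w} : Finset (Finset Pt)).card = 3 := by
    rw [Finset.card_eq_three]
    exact ⟨u, v, w, hne, h1, h2, rfl⟩
  have := Finset.card_le_card hsub
  omega

/-- the other triangle at an edge -/
theorem UT.opp (hT : UT n T) {s : Finset Pt} (hs : s ∈ T) {p q r : Pt} (h : Pos T p q r)
    (hne : s ≠ {p, q, r}) (hp : p ∈ s) (hq : q ∈ s) : ∃ z, Pos T q p z ∧ s = {q, p, z} := by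
  obtain ⟨z, hz, rfl⟩ := hT.pos_of_mem hs hp hq h.ne.symm
  rcases hz with hz | hz
  · exact absurd (by rw [h.unique hT hz]) hne
  · refine ⟨z, hz, ?_⟩
    ext s; simp only [Finset.mem_insert, Finset.mem_singleton]; tauto

/-- every triangle has a vertex at another level than a given vertex -/
theorem Pos.off {v a b : Pt} (h : Pos T v a b) (e : Pt) (he : e ≠ 0) :
    crs e a ≠ crs e v ∨ crs e b ≠ crs e v := by
  by_contra hc
  push Not at hc
  obtain ⟨h1, h2⟩ := hc
  have h3 := h.2
  apply he
  have k1 : e.1 * (a.2 - v.2) = e.2 * (a.1 - v.1) := by simp only [crs] at h1; linarith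
  have k2 : e.1 * (b.2 - v.2) = e.2 * (b.1 - v.1) := by simp only [crs] at h2; linarith
  simp only [det] at h3
  ext
  · have : e.1 = 0 := by linear_combination (-e.1) * h3 + (a.1 - v.1) * k2 - (b.1 - v.1) * k1
    exact this
  · have : e.2 = 0 := by linear_combination (-e.2) * h3 + (a.2 - v.2) * k2 - (b.2 - v.2) * k1
    exact this

/-! ### the boundary of the square -/

theorem edge_of_side (hT : UT n T) {x w : Pt} (hx : InSq n x) (hxw : InSq n (x + w))
    (hw : w = (1, 0) ∨ w = (-1, 0) ∨ w = (0, 1) ∨ w = (0, -1)) (hs : OnSide n x (x + w)) :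
    IsEdge T x (x + w) := by
  obtain ⟨x1, x2, x3, x4⟩ := hx
  obtain ⟨y1, y2, y3, y4⟩ := hxw
  simp only [Prod.fst_add, Prod.snd_add] at y1 y2 y3 y4
  have hodd : ¬ (2 ∣ (x + (x + w)).1 ∧ 2 ∣ (x + (x + w)).2) := by
    simp only [Prod.fst_add, Prod.snd_add]
    rcases hw with rfl | rfl | rfl | rfl <;> simp only <;> omega
  obtain ⟨p, q, hpq, h1, h2⟩ := hT.exists_mid (m := x + (x + w))
    (by simp only [Prod.fst_add]; omega) (by simp only [Prod.fst_add]; omega)
    (by simp only [Prod.snd_add]; omega) (by simp only [Prod.snd_add]; omega) hodd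
  simp only [Prod.fst_add, Prod.snd_add] at h1 h2
  obtain ⟨p1, p2, p3, p4⟩ := hpq.insq hT
  obtain ⟨q1, q2, q3, q4⟩ := hpq.symm.insq hT
  obtain ⟨f, hf⟩ := hpq.prim
  simp only [crs] at hf
  -- the edge is parallel to the side
  have key : (p = x ∧ q = x + w) ∨ (p = x + w ∧ q = x) := by
    rcases hs with ⟨e1, e2⟩ | ⟨e1, e2⟩ | ⟨e1, e2⟩ | ⟨e1, e2⟩
    · simp only [Prod.fst_add] at e2
      have a1 : p.1 = 0 := by omega
      have a2 : q.1 = 0 := by omega
      have a3 : w.1 = 0 := by omega
      rw [a1, a2] at hf
      have hd : (q.2 - p.2) * (-f.1) = 1 := by linarith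
      rcases Int.eq_one_or_neg_one_of_mul_eq_one hd with k | k
      · rcases hw with rfl | rfl | rfl | rfl
        · simp at a3
        · simp at a3
        · left; simp only at h2; constructor <;> ext <;> (try simp only [Prod.fst_add, Prod.snd_add]) <;> omega
        · right; simp only at h2; constructor <;> ext <;> (try simp only [Prod.fst_add, Prod.snd_add]) <;> omega
      · rcases hw with rfl | rfl | rfl | rfl
        · simp at a3
        · simp at a3
        · right; simp only at h2; constructor <;> ext <;> (try simp only [Prod.fst_add, Prod.snd_add]) <;> omega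
        · left; simp only at h2; constructor <;> ext <;> (try simp only [Prod.fst_add, Prod.snd_add]) <;> omega
    · simp only [Prod.fst_add] at e2
      have a1 : p.1 = n := by omega
      have a2 : q.1 = n := by omega
      have a3 : w.1 = 0 := by omega
      rw [a1, a2] at hf
      have hd : (q.2 - p.2) * (-f.1) = 1 := by linarith
      rcases Int.eq_one_or_neg_one_of_mul_eq_one hd with k | k
      · rcases hw with rfl | rfl | rfl | rfl
        · simp at a3
        · simp at a3
        · left; simp only at h2; constructor <;> ext <;> (try simp only [Prod.fst_add, Prod.snd_add]) <;> omega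
        · right; simp only at h2; constructor <;> ext <;> (try simp only [Prod.fst_add, Prod.snd_add]) <;> omega
      · rcases hw with rfl | rfl | rfl | rfl
        · simp at a3
        · simp at a3
        · right; simp only at h2; constructor <;> ext <;> (try simp only [Prod.fst_add, Prod.snd_add]) <;> omega
        · left; simp only at h2; constructor <;> ext <;> (try simp only [Prod.fst_add, Prod.snd_add]) <;> omega
    · simp only [Prod.snd_add] at e2
      have a1 : p.2 = 0 := by omega
      have a2 : q.2 = 0 := by omega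
      have a3 : w.2 = 0 := by omega
      rw [a1, a2] at hf
      have hd : (q.1 - p.1) * f.2 = 1 := by linarith
      rcases Int.eq_one_or_neg_one_of_mul_eq_one hd with k | k
      · rcases hw with rfl | rfl | rfl | rfl
        · left; simp only at h1; constructor <;> ext <;> (try simp only [Prod.fst_add, Prod.snd_add]) <;> omega
        · right; simp only at h1; constructor <;> ext <;> (try simp only [Prod.fst_add, Prod.snd_add]) <;> omega
        · simp at a3
        · simp at a3
      · rcases hw with rfl | rfl | rfl | rfl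
        · right; simp only at h1; constructor <;> ext <;> (try simp only [Prod.fst_add, Prod.snd_add]) <;> omega
        · left; simp only at h1; constructor <;> ext <;> (try simp only [Prod.fst_add, Prod.snd_add]) <;> omega
        · simp at a3
        · simp at a3
    · simp only [Prod.snd_add] at e2
      have a1 : p.2 = n := by omega
      have a2 : q.2 = n := by omega
      have a3 : w.2 = 0 := by omega
      rw [a1, a2] at hf
      have hd : (q.1 - p.1) * f.2 = 1 := by linarith
      rcases Int.eq_one_or_neg_one_of_mul_eq_one hd with k | k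
      · rcases hw with rfl | rfl | rfl | rfl
        · left; simp only at h1; constructor <;> ext <;> (try simp only [Prod.fst_add, Prod.snd_add]) <;> omega
        · right; simp only at h1; constructor <;> ext <;> (try simp only [Prod.fst_add, Prod.snd_add]) <;> omega
        · simp at a3
        · simp at a3
      · rcases hw with rfl | rfl | rfl | rfl
        · right; simp only at h1; constructor <;> ext <;> (try simp only [Prod.fst_add, Prod.snd_add]) <;> omega
        · left; simp only at h1; constructor <;> ext <;> (try simp only [Prod.fst_add, Prod.snd_add]) <;> omega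
        · simp at a3
        · simp at a3
  rcases key with ⟨rfl, rfl⟩ | ⟨rfl, rfl⟩
  · exact hpq
  · exact hpq.symm

/-- there is only one triangle at an edge on a side of the square -/
theorem side_unique (hT : UT n T) {u s : Finset Pt} (hu : u ∈ T) (hs : s ∈ T) {x y : Pt}
    (hxy : x ≠ y) (hside : OnSide n x y) (hxu : x ∈ u) (hyu : y ∈ u) (hxs : x ∈ s) (hys : y ∈ s) :
    u = s := by
  by_contra hne
  obtain ⟨r, hr, hur⟩ := hT.pos_of_mem hu hxu hyu hxy.symm
  have key : ∀ a b c : Pt, Pos T a b c → OnSide n a b → a ∈ s → b ∈ s → u = {a, b, c} → False := by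
    intro a b c habc hab ha hb hu'
    obtain ⟨z, hz, -⟩ := hT.opp hs habc (by rw [← hu']; exact fun h => hne h.symm) ha hb
    have d1 := habc.2
    have d2 := hz.2
    obtain ⟨c1, c2, c3, c4⟩ := habc.cyc'.insq hT
    obtain ⟨z1, z2, z3, z4⟩ := hz.cyc'.insq hT
    simp only [det] at d1 d2
    rcases hab with ⟨e1, e2⟩ | ⟨e1, e2⟩ | ⟨e1, e2⟩ | ⟨e1, e2⟩ <;> rw [e1, e2] at d1 d2
    · have h1 : (a.2 - b.2) * c.1 = 1 := by linarith
      have h2 : (a.2 - b.2) * z.1 = -1 := by linarith
      have h3 : 0 < a.2 - b.2 := by
        by_contra h; push Not at h; nlinarith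
      nlinarith
    · have h1 : (a.2 - b.2) * (n - c.1) = -1 := by linarith
      have h2 : (a.2 - b.2) * (n - z.1) = 1 := by linarith
      have h3 : 0 < a.2 - b.2 := by
        by_contra h; push Not at h; nlinarith
      nlinarith
    · have h1 : (b.1 - a.1) * c.2 = 1 := by linarith
      have h2 : (b.1 - a.1) * z.2 = -1 := by linarith
      have h3 : 0 < b.1 - a.1 := by
        by_contra h; push Not at h; nlinarith
      nlinarith
    · have h1 : (b.1 - a.1) * (n - c.2) = -1 := by linarith
      have h2 : (b.1 - a.1) * (n - z.2) = 1 := by linarith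
      have h3 : 0 < b.1 - a.1 := by
        by_contra h; push Not at h; nlinarith
      nlinarith
  rcases hr with hr | hr
  · exact key x y r hr hside hxs hys hur
  · refine key y x r hr hside.symm hys hxs ?_
    rw [hur]; ext s; simp only [Finset.mem_insert, Finset.mem_singleton]; tauto

end Pool.Agent.IT
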