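import Pool.Agent.IT.FamA

/-!
# Family of boxes, part B: the boundary of the square and structured triangulations
-/

set_option autoImplicit false

namespace Pool.Agent.IT

variable {n : ℕ} {T V : Finset (Finset Pt)} {S : Finset Pt → Slab}

/-- unit vector along a side of the square -/
def Unit4 (w : Pt) : Prop := w = (1, 0) ∨ w = (-1, 0) ∨ w = (0, 1) ∨ w = (0, -1)

theorem side_dir {x z x' e' : Pt} (he' : e' ≠ 0) (hx : InSq n x) (hz : InSq n z)
    (hzl : crs e' x < crs e' z) (hlx' : crs e' x' = crs e' x) (hside : ¬ OnSide n x x')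
    (hni : ¬ Inner n x) :
    ∃ w, Unit4 w ∧ InSq n (x + w) ∧ OnSide n x (x + w) ∧ crs e' x < crs e' (x + w) := by
  obtain ⟨x1, x2, x3, x4⟩ := hx
  obtain ⟨z1, z2, z3, z4⟩ := hz
  have hpos : 0 < e'.1 * (z.2 - x.2) + (-e'.2) * (z.1 - x.1) := by
    simp only [crs] at hzl; linarith
  have hlev : e'.1 * (x'.2 - x.2) = e'.2 * (x'.1 - x.1) := by
    simp only [crs] at hlx'; linarith
  have case1 : (x.1 = 0 ∨ x.1 = n) → 0 < e'.1 * (z.2 - x.2) →
      ∃ w, Unit4 w ∧ InSq n (x + w) ∧ OnSide n x (x + w) ∧ crs e' x < crs e' (x + w) := by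
    intro hs h
    rcases lt_trichotomy (z.2 - x.2) 0 with g | g | g
    · have h1 : e'.1 < 0 := by
        by_contra hc; push Not at hc; nlinarith
      refine ⟨(0, -1), by simp [Unit4], ⟨by simpa using x1, by simpa using x2, ?_, ?_⟩, ?_, ?_⟩
      · simp only [Prod.snd_add]; omega
      · simp only [Prod.snd_add]; omega
      · rcases hs with hs | hs
        · left; simp [hs]
        · right; left; simp [hs]
      · simp only [crs, Prod.snd_add, Prod.fst_add]; nlinarith
    · rw [g, mul_zero] at h; exact absurd h (lt_irrefl _)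
    · have h1 : 0 < e'.1 := by
        by_contra hc; push Not at hc; nlinarith
      refine ⟨(0, 1), by simp [Unit4], ⟨by simpa using x1, by simpa using x2, ?_, ?_⟩, ?_, ?_⟩
      · simp only [Prod.snd_add]; omega
      · simp only [Prod.snd_add]; omega
      · rcases hs with hs | hs
        · left; simp [hs]
        · right; left; simp [hs]
      · simp only [crs, Prod.snd_add, Prod.fst_add]; nlinarith
  have case2 : (x.2 = 0 ∨ x.2 = n) → 0 < (-e'.2) * (z.1 - x.1) →
      ∃ w, Unit4 w ∧ InSq n (x + w) ∧ OnSide n x (x + w) ∧ crs e' x < crs e' (x + w) := by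
    intro hs h
    rcases lt_trichotomy (z.1 - x.1) 0 with g | g | g
    · have h1 : 0 < e'.2 := by
        by_contra hc; push Not at hc; nlinarith
      refine ⟨(-1, 0), by simp [Unit4], ⟨?_, ?_, by simpa using x3, by simpa using x4⟩, ?_, ?_⟩
      · simp only [Prod.fst_add]; omega
      · simp only [Prod.fst_add]; omega
      · rcases hs with hs | hs
        · right; right; left; simp [hs]
        · right; right; right; simp [hs]
      · simp only [crs, Prod.snd_add, Prod.fst_add]; nlinarith
    · rw [g, mul_zero] at h; exact absurd h (lt_irrefl _)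
    · have h1 : e'.2 < 0 := by
        by_contra hc; push Not at hc; nlinarith
      refine ⟨(1, 0), by simp [Unit4], ⟨?_, ?_, by simpa using x3, by simpa using x4⟩, ?_, ?_⟩
      · simp only [Prod.fst_add]; omega
      · simp only [Prod.fst_add]; omega
      · rcases hs with hs | hs
        · right; right; left; simp [hs]
        · right; right; right; simp [hs]
      · simp only [crs, Prod.snd_add, Prod.fst_add]; nlinarith
  have hor : 0 < e'.1 * (z.2 - x.2) ∨ 0 < (-e'.2) * (z.1 - x.1) := by
    by_contra hc; push Not at hc; linarith [hc.1, hc.2]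
  by_cases hv : x.1 = 0 ∨ x.1 = n
  · by_cases hh : x.2 = 0 ∨ x.2 = n
    · rcases hor with h | h
      · exact case1 hv h
      · exact case2 hh h
    · rcases lt_trichotomy e'.1 0 with g | g | g
      · refine ⟨(0, -1), by simp [Unit4], ⟨by simpa using x1, by simpa using x2, ?_, ?_⟩, ?_, ?_⟩
        · simp only [Prod.snd_add]; omega
        · simp only [Prod.snd_add]; omega
        · rcases hv with hs | hs
          · left; simp [hs]
          · right; left; simp [hs]
        · simp only [crs, Prod.snd_add, Prod.fst_add]; nlinarith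
      · exfalso
        have h2 : e'.2 ≠ 0 := by
          intro h2; apply he'; ext
          · exact g
          · exact h2
        rw [g, zero_mul] at hlev
        have h3 : x'.1 - x.1 = 0 := by
          rcases mul_eq_zero.mp hlev.symm with h | h
          · exact absurd h h2
          · exact h
        apply hside
        rcases hv with hs | hs
        · left; exact ⟨hs, by omega⟩
        · right; left; exact ⟨hs, by omega⟩
      · refine ⟨(0, 1), by simp [Unit4], ⟨by simpa using x1, by simpa using x2, ?_, ?_⟩, ?_, ?_⟩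
        · simp only [Prod.snd_add]; omega
        · simp only [Prod.snd_add]; omega
        · rcases hv with hs | hs
          · left; simp [hs]
          · right; left; simp [hs]
        · simp only [crs, Prod.snd_add, Prod.fst_add]; nlinarith
  · have hh : x.2 = 0 ∨ x.2 = n := by
      by_contra hc
      apply hni
      refine ⟨?_, ?_, ?_, ?_⟩ <;> omega
    rcases lt_trichotomy e'.2 0 with g | g | g
    · refine ⟨(1, 0), by simp [Unit4], ⟨?_, ?_, by simpa using x3, by simpa using x4⟩, ?_, ?_⟩
      · simp only [Prod.fst_add]; omega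
      · simp only [Prod.fst_add]; omega
      · rcases hh with hs | hs
        · right; right; left; simp [hs]
        · right; right; right; simp [hs]
      · simp only [crs, Prod.snd_add, Prod.fst_add]; nlinarith
    · exfalso
      have h2 : e'.1 ≠ 0 := by
        intro h2; apply he'; ext
        · exact h2
        · exact g
      rw [g, zero_mul] at hlev
      have h3 : x'.2 - x.2 = 0 := by
        rcases mul_eq_zero.mp hlev with h | h
        · exact absurd h h2
        · exact h
      apply hside
      rcases hh with hs | hs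
      · right; right; left; exact ⟨hs, by omega⟩
      · right; right; right; exact ⟨hs, by omega⟩
    · refine ⟨(-1, 0), by simp [Unit4], ⟨?_, ?_, by simpa using x3, by simpa using x4⟩, ?_, ?_⟩
      · simp only [Prod.fst_add]; omega
      · simp only [Prod.fst_add]; omega
      · rcases hh with hs | hs
        · right; right; left; simp [hs]
        · right; right; right; simp [hs]
      · simp only [crs, Prod.snd_add, Prod.fst_add]; nlinarith

theorem side_dir' {x : Pt} (hn : 1 ≤ n) (hx : InSq n x) (hni : ¬ Inner n x) :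
    ∃ w, Unit4 w ∧ InSq n (x + w) ∧ OnSide n x (x + w) := by
  obtain ⟨x1, x2, x3, x4⟩ := hx
  by_cases hv : x.1 = 0 ∨ x.1 = n
  · by_cases h : x.2 = n
    · refine ⟨(0, -1), by simp [Unit4], ⟨by simpa using x1, by simpa using x2, ?_, ?_⟩, ?_⟩
      · simp only [Prod.snd_add]; omega
      · simp only [Prod.snd_add]; omega
      · rcases hv with hs | hs
        · left; simp [hs]
        · right; left; simp [hs]
    · refine ⟨(0, 1), by simp [Unit4], ⟨by simpa using x1, by simpa using x2, ?_, ?_⟩, ?_⟩
      · simp only [Prod.snd_add]; omega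
      · simp only [Prod.snd_add]; omega
      · rcases hv with hs | hs
        · left; simp [hs]
        · right; left; simp [hs]
  · have hh : x.2 = 0 ∨ x.2 = n := by
      by_contra hc
      apply hni
      refine ⟨?_, ?_, ?_, ?_⟩ <;> omega
    refine ⟨(1, 0), by simp [Unit4], ⟨?_, ?_, by simpa using x3, by simpa using x4⟩, ?_⟩
    · simp only [Prod.fst_add]; omega
    · simp only [Prod.fst_add]; omega
    · rcases hh with hs | hs
      · right; right; left; simp [hs]
      · right; right; right; simp [hs]

theorem nb_side (hT : UT n T) (hS : Str n T V S) {u : Finset Pt} (hu : u ∈ V) {x y : Pt}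
    (hxy : x ≠ y) (hx : x ∈ u) (hy : y ∈ u) : ¬ OnSide n x y := by
  intro hside
  obtain ⟨s, hs, hne, hxs, hys⟩ := hS.nb u hu x hx y hy hxy
  exact hne (side_unique hT hs (hS.sub hu) hxy hside hxs hys hx hy)

theorem Unit4.ne {w : Pt} (h : Unit4 w) (x : Pt) : x ≠ x + w := by
  intro hx
  have : x + 0 = x + w := by rw [add_zero]; exact hx
  have h0 := (add_left_cancel this).symm
  rcases h with rfl | rfl | rfl | rfl <;> simp [Prod.ext_iff] at h0

theorem inner_of_upper (hT : UT n T) (hS : Str n T V S) {x z x' e' : Pt} (he' : e' ≠ 0)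
    (hx : InSq n x) (hz : InSq n z) (hzl : crs e' x < crs e' z) (hlx' : crs e' x' = crs e' x)
    (hside : ¬ OnSide n x x')
    (hstar : ∀ u ∈ T, x ∈ u → (∃ y ∈ u, crs e' x < crs e' y) → u ∈ V) : Inner n x := by
  by_contra hni
  obtain ⟨w, hw, hxw, hs, hl⟩ := side_dir he' hx hz hzl hlx' hside hni
  obtain ⟨r, hr | hr⟩ := edge_of_side hT hx hxw hw hs
  · have hu := hstar _ hr.1 (by simp) ⟨x + w, by simp, hl⟩
    exact nb_side hT hS hu hr.ne (by simp) (by simp) hs
  · have hu := hstar _ hr.1 (by simp) ⟨x + w, by simp, hl⟩
    exact nb_side hT hS hu hr.ne.symm (by simp) (by simp) hs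

theorem inner_of_star (hT : UT n T) (hS : Str n T V S) {x : Pt} (hx : InSq n x)
    (hstar : ∀ u ∈ T, x ∈ u → u ∈ V) : Inner n x := by
  by_contra hni
  have hn : 1 ≤ n := by
    obtain ⟨q, r, h⟩ := hT.exists_pos_at hx
    obtain ⟨q1, q2, q3, q4⟩ := h.cyc.insq hT
    obtain ⟨r1, r2, r3, r4⟩ := h.insq hT
    by_contra hc
    have : (n : ℤ) = 0 := by omega
    apply h.ne
    ext <;> omega
  obtain ⟨w, hw, hxw, hs⟩ := side_dir' hn hx hni
  obtain ⟨r, hr | hr⟩ := edge_of_side hT hx hxw hw hs
  · exact nb_side hT hS (hstar _ hr.1 (by simp)) hr.ne (by simp) (by simp) hs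
  · exact nb_side hT hS (hstar _ hr.1 (by simp)) hr.ne.symm (by simp) (by simp) hs

end Pool.Agent.IT
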