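import Pool.Agent.IT.Base2

/-!
# Half stars
-/

set_option autoImplicit false

namespace Pool.Agent.IT

open Filter Topology

variable {n : ℕ} {T : Finset (Finset Pt)}

/-- One step of rotation around `q` from the ray `a` towards the ray `b`. -/
theorem IsEdge.next (hT : UT n T) {q a b : Pt} (ha : IsEdge T q a) (hb : IsEdge T q b)
    (h : 0 < det q a b) : ∃ r, Pos T q a r ∧ (r = b ∨
      (0 < det q r b ∧ IsEdge T q r ∧ (btw T q r b).card < (btw T q a b).card)) := by
  classical
  obtain ⟨r, hr⟩ := ha.left hT (hb.symm.insq hT) h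
  refine ⟨r, hr, ?_⟩
  have h1 : det q a r = 1 := hr.2
  have hre : IsEdge T q r := hr.cyc'.edge'
  have h2 : ¬ 0 < det q b r := fun h2 => hr.no_cone hT hb h h2
  have h3 : 0 ≤ det q r b := by rw [det_swap' q b r]; linarith
  rcases h3.lt_or_eq with h3 | h3
  · right
    refine ⟨h3, hre, Finset.card_lt_card ?_⟩
    rw [Finset.ssubset_iff_of_subset]
    · refine ⟨r, ?_, ?_⟩
      · rw [mem_btw]; exact ⟨hre, by rw [h1]; norm_num, h3⟩
      · rw [mem_btw, det_self_right]; simp
    · intro c hc
      rw [mem_btw] at hc
      rw [mem_btw]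
      exact ⟨hc.1, det_between (by rw [h1]; norm_num) h3 h hc.2.1 hc.2.2, hc.2.2⟩
  · left
    refine hre.eq_of_dir hb h3.symm (c := a) (Or.inl (by rw [h1]; norm_num)) ?_ ?_
    · rw [h1]; simp [h]
    · rw [det_swap' q a r, det_swap' q a b, h1]
      constructor <;> intro h8 <;> omega

/-- Induction along the rays of a sector of angle less than 180 degrees. -/
theorem rot_iff (hT : UT n T) {q b : Pt} (Q : Pt → Prop) (hb : IsEdge T q b) (k : ℕ) :
    ∀ a : Pt, IsEdge T q a → 0 < det q a b → (btw T q a b).card < k →
    (∀ c d, Pos T q c d → 0 ≤ det q a c → 0 < det q c b → 0 < det q a d → 0 ≤ det q d b →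
      (Q c ↔ Q d)) → (Q a ↔ Q b) := by
  induction k with
  | zero => intro a _ _ h; omega
  | succ k ih =>
    intro a ha hab hk hQ
    obtain ⟨r, hr, hr'⟩ := ha.next hT hb hab
    have h1 : det q a r = 1 := hr.2
    rcases hr' with rfl | ⟨hrb, hre, hlt⟩
    · exact hQ a r hr (by rw [det_self_right]) hab hab (by rw [det_self_right])
    · have s1 : Q a ↔ Q r := hQ a r hr (by rw [det_self_right]) hab (by rw [h1]; norm_num) hrb.le
      refine s1.trans (ih r hre hrb (by omega) ?_)
      intro c d hcd g1 g2 g3 g4
      have key : ∀ c : Pt, det q r b * det q a c = det q c b * det q a r + det q r c * det q a b := by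
        intro c; simp only [det]; ring
      refine hQ c d hcd ?_ g2 ?_ g4
      · have := key c
        rw [h1] at this
        nlinarith
      · have := key d
        rw [h1] at this
        nlinarith

/-- the height above the line through `x` in the direction `e` -/
theorem det_dir (x e y : Pt) : det x (x + e) y = crs e y - crs e x := by
  simp only [det, crs, Prod.fst_add, Prod.snd_add]; ring

theorem mem_edge (hT : UT n T) {t : Finset Pt} (ht : t ∈ T) {x y : Pt} (hx : x ∈ t) (hy : y ∈ t)
    (hne : x ≠ y) : IsEdge T x y := by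
  obtain ⟨a, b, c, rfl, h⟩ := hT.exists_pos ht
  simp only [Finset.mem_insert, Finset.mem_singleton] at hx hy
  rcases hx with rfl | rfl | rfl <;> rcases hy with rfl | rfl | rfl
  · exact absurd rfl hne
  · exact h.edge
  · exact h.cyc'.edge'
  · exact h.edge'
  · exact absurd rfl hne
  · exact h.cyc.edge
  · exact h.cyc'.edge
  · exact h.cyc.edge'
  · exact absurd rfl hne

/-- any property that propagates around `x` across the rays strictly above the line `x + ℝe` is constant on
the triangles at `x` having a vertex strictly above the line -/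
theorem half_star (hT : UT n T) (x e : Pt) (P : Finset Pt → Prop)
    (hstep : ∀ u ∈ T, ∀ v ∈ T, u ≠ v → x ∈ u → x ∈ v → (∃ y, y ∈ u ∧ y ∈ v ∧ crs e x < crs e y) →
      P u → P v)
    {t s : Finset Pt} (ht : t ∈ T) (hs : s ∈ T) (hxt : x ∈ t) (hxs : x ∈ s)
    (hyt : ∃ y ∈ t, crs e x < crs e y) (hys : ∃ y ∈ s, crs e x < crs e y) (hP : P t) : P s := by
  obtain ⟨y, hyt, hy⟩ := hyt
  obtain ⟨y', hys, hy'⟩ := hys
  set Q : Pt → Prop := fun y => ∀ u ∈ T, x ∈ u → y ∈ u → P u with hQ
  have hprop : ∀ z, crs e x < crs e z → ∀ u ∈ T, x ∈ u → z ∈ u → P u → Q z := by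
    intro z hz u hu hxu hzu hPu v hv hxv hzv
    by_cases huv : u = v
    · exact huv ▸ hPu
    · exact hstep u hu v hv huv hxu hxv ⟨z, hzu, hzv, hz⟩ hPu
  have hQy : Q y := hprop y hy t ht hxt hyt hP
  have hne : x ≠ y := by rintro rfl; omega
  have hne' : x ≠ y' := by rintro rfl; omega
  have hey : IsEdge T x y := mem_edge hT ht hxt hyt hne
  have hey' : IsEdge T x y' := mem_edge hT hs hxs hys hne'
  -- the sector argument
  have sector : ∀ a b : Pt, IsEdge T x a → IsEdge T x b → crs e x < crs e a → crs e x < crs e b →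
      0 < det x a b → (Q a ↔ Q b) := by
    intro a b ha hb ua ub hab
    have up : ∀ c : Pt, 0 ≤ det x a c → 0 ≤ det x c b → (0 < det x a c ∨ 0 < det x c b) →
        crs e x < crs e c := by
      intro c h1 h2 h3
      have e1 : det x a b * (crs e c - crs e x) = det x c b * (crs e a - crs e x) +
          det x a c * (crs e b - crs e x) := by
        simp only [det, crs]; ring
      have e2 : 0 < crs e a - crs e x := by linarith
      have e3 : 0 < crs e b - crs e x := by linarith
      have e4 : 0 < det x a b * (crs e c - crs e x) := by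
        rw [e1]
        rcases h3 with h3 | h3
        · have := mul_nonneg h2 e2.le
          have := mul_pos h3 e3
          linarith
        · have := mul_pos h3 e2
          have := mul_nonneg h1 e3.le
          linarith
      have := (pos_iff_pos_of_mul_pos e4).mp hab
      linarith
    refine rot_iff hT Q hb _ a ha hab (Nat.lt_succ_self _) ?_
    intro c d hcd h1 h2 h3 h4
    have uc := up c h1 h2.le (Or.inr h2)
    have ud := up d h3.le h4 (Or.inl h3)
    have m1 : x ∈ ({x, c, d} : Finset Pt) := by simp
    have m2 : c ∈ ({x, c, d} : Finset Pt) := by simp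
    have m3 : d ∈ ({x, c, d} : Finset Pt) := by simp
    constructor
    · intro h
      exact hprop d ud _ hcd.1 m1 m3 (h _ hcd.1 m1 m2)
    · intro h
      exact hprop c uc _ hcd.1 m1 m2 (h _ hcd.1 m1 m3)
  have hQy' : Q y' := by
    rcases lt_trichotomy (det x y y') 0 with h | h | h
    · have h' : 0 < det x y' y := by rw [det_swap' x y y']; linarith
      exact (sector y' y hey' hey hy' hy h').mpr hQy
    · have : y = y' := by
        refine hey.eq_of_dir hey' h (c := x + e) (Or.inl ?_) ?_ ?_
        · rw [det_dir]; linarith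
        · rw [det_dir, det_dir]
          constructor <;> intro _ <;> linarith
        · rw [det_swap' x (x + e) y, det_swap' x (x + e) y', det_dir, det_dir]
          constructor <;> intro _ <;> linarith
      exact this ▸ hQy
    · exact (sector y y' hey hey' hy hy' h).mp hQy
  exact hQy' s hs hxs hys

theorem inner_dir {x : Pt} (hx : Inner n x) (w : Pt) :
    ∀ᶠ ε in 𝓝[>] (0:ℝ), emb x + ε • emb w ∈ Sq n := by
  obtain ⟨h1, h2, h3, h4⟩ := hx
  have g1 : (0:ℝ) < x.1 := by exact_mod_cast h1
  have g2 : (x.1:ℝ) < n := by exact_mod_cast h2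
  have g3 : (0:ℝ) < x.2 := by exact_mod_cast h3
  have g4 : (x.2:ℝ) < n := by exact_mod_cast h4
  filter_upwards [ev_pos (A := (x.1:ℝ)) (B := w.1) (Or.inl g1),
    ev_pos (A := n - (x.1:ℝ)) (B := -w.1) (Or.inl (by linarith)),
    ev_pos (A := (x.2:ℝ)) (B := w.2) (Or.inl g3),
    ev_pos (A := n - (x.2:ℝ)) (B := -w.2) (Or.inl (by linarith))] with ε k1 k2 k3 k4
  rw [mem_Sq]
  simp only [emb, Prod.fst_add, Prod.snd_add, Prod.smul_fst, Prod.smul_snd, smul_eq_mul]
  refine ⟨by linarith, by linarith, by linarith, by linarith⟩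

/-- the direction `e` at an interior vertex: either `[x,x+e]` is an edge or one triangle at `x` contains it
in the interior of its cone -/
theorem straddle (hT : UT n T) {x e : Pt} (hx : Inner n x) (he : IsCoprime e.1 e.2) :
    IsEdge T x (x + e) ∨ ∃ a b, Pos T x a b ∧ crs e a < crs e x ∧ crs e x < crs e b := by
  obtain ⟨q, r, hqr, h1, h2⟩ := hT.exists_cone (inner_dir hx e)
  have hd : crs (q.1 - x.1, q.2 - x.2) (r.1 - x.1, r.2 - x.2) = 1 := hqr.2
  set u : Pt := (q.1 - x.1, q.2 - x.2) with hu
  set v : Pt := (r.1 - x.1, r.2 - x.2) with hv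
  have e1 : e.1 = crs e v * u.1 + crs u e * v.1 := by
    simp only [crs] at *
    linear_combination (-e.1) * hd
  have e2 : e.2 = crs e v * u.2 + crs u e * v.2 := by
    simp only [crs] at *
    linear_combination (-e.2) * hd
  -- a nonnegative multiple which is primitive
  have prim : ∀ (k : ℤ) (w : Pt), 0 ≤ k → e.1 = k * w.1 → e.2 = k * w.2 → k = 1 := by
    intro k w hk k1 k2
    obtain ⟨a, b, hab⟩ := he
    have : k * (a * w.1 + b * w.2) = 1 := by rw [← hab, k1, k2]; ring
    rcases Int.eq_one_or_neg_one_of_mul_eq_one this with h | h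
    · exact h
    · omega
  rcases h1.lt_or_eq with h1 | h1
  · rcases h2.lt_or_eq with h2 | h2
    · right
      refine ⟨q, r, hqr, ?_, ?_⟩
      · have : crs u e = crs e x - crs e q := by simp only [crs, hu]; ring
        linarith
      · have : crs e v = crs e r - crs e x := by simp only [crs, hv]; ring
        linarith
    · left
      rw [← h2] at e1 e2
      have hk := prim (crs u e) v h1.le (by linarith) (by linarith)
      rw [hk] at e1 e2
      have : x + e = r := by
        ext
        · simp only [Prod.fst_add]; rw [e1]; simp only [hv]; ring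
        · simp only [Prod.snd_add]; rw [e2]; simp only [hv]; ring
      rw [this]
      exact hqr.cyc'.edge'
  · left
    rw [← h1] at e1 e2
    have hk := prim (crs e v) u h2 (by linarith) (by linarith)
    rw [hk] at e1 e2
    have : x + e = q := by
      ext
      · simp only [Prod.fst_add]; rw [e1]; simp only [hu]; ring
      · simp only [Prod.snd_add]; rw [e2]; simp only [hu]; ring
    rw [this]
    exact hqr.edge

end Pool.Agent.IT
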