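import Pool.Agent.IT.FamB
import Pool.Agent.IT.Star

/-!
# Family of boxes, part C: located points, middle vertices, gaps
-/

set_option autoImplicit false

namespace Pool.Agent.IT

namespace Fa

variable {n : ℕ} {T V : Finset (Finset Pt)} {S : Finset Pt → Slab} {σ : Slab}

/-- `z` is a vertex of a triangle of `V` with slab `σ` adjacent to a triangle outside `V` -/
def Loc (T V : Finset (Finset Pt)) (S : Finset Pt → Slab) (σ : Slab) (z : Pt) : Prop :=
  ∃ u ∈ V, S u = σ ∧ z ∈ u ∧ ∃ Δ ∈ T, Δ ∉ V ∧ ∃ y y', y ≠ y' ∧ y ∈ Δ ∧ y' ∈ Δ ∧ y ∈ u ∧ y' ∈ u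

/-- `x` is on the middle line of the slab `σ` of width two and all triangles at `x` are in `V` and have
slab `σ` -/
structure IsMid (n : ℕ) (T V : Finset (Finset Pt)) (S : Finset Pt → Slab) (σ : Slab) (x : Pt) :
    Prop where
  w : σ.2.2 = 2
  lev : crs σ.1 x = σ.2.1 + 1
  sq : InSq n x
  star : ∀ u ∈ T, x ∈ u → u ∈ V ∧ S u = σ

theorem crs_smul_l (e x : Pt) (k : ℤ) : crs (k • e) x = k * crs e x := by
  simp only [crs, Prod.smul_fst, Prod.smul_snd, smul_eq_mul]; ring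

theorem lt_iff_ab {e x y : Pt} {δ : ℤ} :
    crs (δ • e) x < crs (δ • e) y ↔ 0 < δ * (crs e y - crs e x) := by
  rw [crs_smul_l, crs_smul_l, mul_sub, sub_pos]

theorem hs_or (hT : UT n T) (hS : Str n T V S) {x : Pt} {δ : ℤ} {u0 : Finset Pt} (hu0 : u0 ∈ V)
    (hσ : S u0 = σ) (hx : x ∈ u0) (hy : ∃ y ∈ u0, 0 < δ * (crs σ.1 y - crs σ.1 x)) :
    Loc T V S σ x ∨ ∀ u ∈ T, x ∈ u → (∃ y ∈ u, 0 < δ * (crs σ.1 y - crs σ.1 x)) →
      u ∈ V ∧ S u = σ := by
  by_cases hL : Loc T V S σ x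
  · exact Or.inl hL
  · right
    intro u hu hxu hyu
    have hy' : ∃ y ∈ u0, crs (δ • σ.1) x < crs (δ • σ.1) y := by
      obtain ⟨y, h1, h2⟩ := hy
      exact ⟨y, h1, lt_iff_ab.mpr h2⟩
    have hyu' : ∃ y ∈ u, crs (δ • σ.1) x < crs (δ • σ.1) y := by
      obtain ⟨y, h1, h2⟩ := hyu
      exact ⟨y, h1, lt_iff_ab.mpr h2⟩
    refine half_star hT x (δ • σ.1) (fun u => u ∈ V ∧ S u = σ) ?_ (hS.sub hu0) hu hx hxu hy' hyu'
      ⟨hu0, hσ⟩
    rintro u hu v hv huv hxu hxv ⟨y, hyu, hyv, hlt⟩ ⟨huV, huσ⟩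
    have hne : crs σ.1 x ≠ crs σ.1 y := by
      intro h
      rw [lt_iff_ab, h, sub_self, mul_zero] at hlt
      exact lt_irrefl _ hlt
    by_cases hvV : v ∈ V
    · refine ⟨hvV, ?_⟩
      rw [hS.adj u huV v hvV x y hxu hyu hxv hyv (by rw [huσ]; exact hne), huσ]
    · exfalso
      exact hL ⟨u, huV, huσ, hxu, v, hv, hvV, x, y, fun h => hne (by rw [h]), hxv, hyv, hxu, hyu⟩

theorem star_of_both (hT : UT n T) {x : Pt} (he : σ.1 ≠ 0)
    (h1 : ∀ u ∈ T, x ∈ u → (∃ y ∈ u, 0 < (1 : ℤ) * (crs σ.1 y - crs σ.1 x)) → u ∈ V ∧ S u = σ)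
    (h2 : ∀ u ∈ T, x ∈ u → (∃ y ∈ u, 0 < (-1 : ℤ) * (crs σ.1 y - crs σ.1 x)) → u ∈ V ∧ S u = σ) :
    ∀ u ∈ T, x ∈ u → u ∈ V ∧ S u = σ := by
  intro u hu hx
  obtain ⟨a, b, h, rfl⟩ := hT.pos_at hu hx
  have key : ∀ y ∈ ({x, a, b} : Finset Pt), crs σ.1 y ≠ crs σ.1 x →
      ({x, a, b} : Finset Pt) ∈ V ∧ S {x, a, b} = σ := by
    intro y hy hne
    rcases lt_or_gt_of_ne hne with h | h
    · exact h2 _ hu hx ⟨y, hy, by linarith⟩
    · exact h1 _ hu hx ⟨y, hy, by linarith⟩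
  rcases h.off σ.1 he with h | h
  · exact key a (by simp) h
  · exact key b (by simp) h

theorem mid_or (hT : UT n T) (hS : Str n T V S) {x : Pt} {u0 : Finset Pt} (hu0 : u0 ∈ V)
    (hσ : S u0 = σ) (hw : σ.2.2 ≤ 2) (hx : x ∈ u0) (ha : ∃ a ∈ u0, crs σ.1 a < crs σ.1 x)
    (hb : ∃ b ∈ u0, crs σ.1 x < crs σ.1 b) : Loc T V S σ x ∨ IsMid n T V S σ x := by
  have hdir : Dir σ.1 := by rw [← hσ]; exact hS.dir u0 hu0
  obtain ⟨a, hau, ha⟩ := ha
  obtain ⟨b, hbu, hb⟩ := hb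
  rcases hs_or hT hS (δ := 1) hu0 hσ hx ⟨b, hbu, by linarith⟩ with h1 | h1
  · exact Or.inl h1
  rcases hs_or hT hS (δ := -1) hu0 hσ hx ⟨a, hau, by linarith⟩ with h2 | h2
  · exact Or.inl h2
  right
  have s1 := hS.slab u0 hu0 a hau
  have s2 := hS.slab u0 hu0 b hbu
  rw [hσ] at s1 s2
  refine ⟨by omega, by omega, hT.insq (hS.sub hu0) hx, star_of_both hT hdir.ne_zero h1 h2⟩

theorem cross_alg {v a b e : Pt} (he : IsCoprime e.1 e.2) (h : det v a b = 1) {δ : ℤ}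
    (hδ : δ = 1 ∨ δ = -1)
    (ha : crs e a = crs e v - δ) (hb : crs e b = crs e v + δ) : a + b = v + (v + δ • e) := by
  have h1 : crs e (v + v) = crs e (a + b) := by
    rw [crs_add_r, crs_add_r, ha, hb]; ring
  obtain ⟨k, hk⟩ := eq_smul_of_level he h1
  have k1 : a.1 + b.1 = v.1 + v.1 + k * e.1 := by
    have := congrArg Prod.fst hk
    simpa [Prod.fst_add, Prod.smul_fst, smul_eq_mul] using this
  have k2 : a.2 + b.2 = v.2 + v.2 + k * e.2 := by
    have := congrArg Prod.snd hk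
    simpa [Prod.snd_add, Prod.smul_snd, smul_eq_mul] using this
  have hkd : k * δ = 1 := by
    simp only [det] at h
    simp only [crs] at ha
    linear_combination h - (a.1 - v.1) * k2 + (a.2 - v.2) * k1 + k * ha
  have : k = δ := by
    rcases hδ with rfl | rfl <;> omega
  rw [hk, this, add_assoc]

theorem gap_gen (hT : UT n T) (hS : Str n T V S) {v a b : Pt} {δ : ℤ} (hδ : δ = 1 ∨ δ = -1)
    (hpos : Pos T v a b) (hu : ({v, a, b} : Finset Pt) ∈ V) (hσ : S {v, a, b} = σ) (hw : σ.2.2 ≤ 2)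
    (ha : 0 < δ * (crs σ.1 v - crs σ.1 a)) (hb : 0 < δ * (crs σ.1 b - crs σ.1 v)) :
    Loc T V S σ v ∨ (Pos T b a (v + δ • σ.1) ∧ ({b, a, v + δ • σ.1} : Finset Pt) ∈ V ∧
      S {b, a, v + δ • σ.1} = σ ∧ a + b = v + (v + δ • σ.1) ∧ crs σ.1 a = σ.2.1 + 1 - δ ∧
      crs σ.1 b = σ.2.1 + 1 + δ ∧ σ.2.2 = 2) := by
  have hdir : Dir σ.1 := by rw [← hσ]; exact hS.dir _ hu
  have s0 := hS.slab _ hu v (by simp)
  have s1 := hS.slab _ hu a (by simp)
  have s2 := hS.slab _ hu b (by simp)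
  rw [hσ] at s0 s1 s2
  have hla : crs σ.1 a = σ.2.1 + 1 - δ := by
    rcases hδ with rfl | rfl <;> omega
  have hlb : crs σ.1 b = σ.2.1 + 1 + δ := by
    rcases hδ with rfl | rfl <;> omega
  have hlv : crs σ.1 v = σ.2.1 + 1 := by
    rcases hδ with rfl | rfl <;> omega
  have hw2 : σ.2.2 = 2 := by
    rcases hδ with rfl | rfl <;> omega
  have hsum := cross_alg hdir.1 hpos.2 hδ (by rw [hla, hlv]) (by rw [hlb, hlv])
  have hab : a ≠ b := hpos.cyc.ne
  obtain ⟨s, hs, hne, hsa, hsb⟩ := hS.nb _ hu a (by simp) b (by simp) hab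
  by_cases hsV : s ∈ V
  · right
    have hne' : s ≠ {a, b, v} := by
      intro h; apply hne; rw [h]
      ext s; simp only [Finset.mem_insert, Finset.mem_singleton]; tauto
    obtain ⟨z, hz, hsz⟩ := hT.opp hs hpos.cyc hne' hsa hsb
    have hSs : S s = σ := by
      rw [hS.adj _ hu s hsV a b (by simp) (by simp) hsa hsb ?_, hσ]
      rw [hσ, hla, hlb]
      rcases hδ with rfl | rfl <;> omega
    obtain ⟨k, k1, k2⟩ := jump_exists hpos.cyc.2 hz.2
    have s3 := hS.slab s hsV z (by rw [hsz]; simp)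
    rw [hSs] at s3
    have hlz : crs σ.1 z = σ.2.1 + 1 + k * (2 * δ) := by
      have : crs σ.1 v + crs σ.1 z = crs σ.1 a + crs σ.1 b + k * (crs σ.1 b - crs σ.1 a) := by
        simp only [crs]
        linear_combination σ.1.1 * k2 - σ.1.2 * k1
      rw [hla, hlb, hlv] at this
      linarith
    have hk : k = 0 := by
      rcases hδ with rfl | rfl <;> omega
    have hz' : z = v + δ • σ.1 := by
      have e1 := congrArg Prod.fst hsum
      have e2 := congrArg Prod.snd hsum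
      simp only [Prod.fst_add, Prod.snd_add, Prod.smul_fst, Prod.smul_snd, smul_eq_mul] at e1 e2
      rw [hk] at k1 k2
      ext
      · simp only [Prod.fst_add, Prod.smul_fst, smul_eq_mul]; linarith
      · simp only [Prod.snd_add, Prod.smul_snd, smul_eq_mul]; linarith
    subst hz'
    subst hsz
    exact ⟨hz, hsV, hSs, hsum, hla, hlb, hw2⟩
  · left
    exact ⟨_, hu, hσ, by simp, s, hs, hsV, a, b, hab, hsa, hsb, by simp, by simp⟩

/-- a crossing triangle at `v` excludes the edge -/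
theorem not_edge_of_cross (hT : UT n T) {v a b : Pt} {e : Pt} {δ : ℤ}
    (hpos : Pos T v a b) (ha : 0 < δ * (crs e v - crs e a)) (hb : 0 < δ * (crs e b - crs e v)) :
    ¬ IsEdge T v (v + δ • e) := by
  intro hE
  apply hpos.no_cone hT hE
  · have : det v a (v + δ • e) = δ * (crs e v - crs e a) := by
      simp only [det, crs, Prod.fst_add, Prod.snd_add, Prod.smul_fst, Prod.smul_snd, smul_eq_mul]
      ring
    rw [this]; exact ha
  · have : det v (v + δ • e) b = δ * (crs e b - crs e v) := by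
      simp only [det, crs, Prod.fst_add, Prod.snd_add, Prod.smul_fst, Prod.smul_snd, smul_eq_mul]
      ring
    rw [this]; exact hb

theorem IsMid.inner (hT : UT n T) (hS : Str n T V S) {x : Pt} (h : IsMid n T V S σ x) :
    Inner n x := inner_of_star hT hS h.sq fun u hu hx => (h.star u hu hx).1

theorem IsMid.dir (hT : UT n T) (hS : Str n T V S) {x : Pt} (h : IsMid n T V S σ x) :
    Dir σ.1 := by
  obtain ⟨q, r, hp⟩ := hT.exists_pos_at h.sq
  obtain ⟨h1, h2⟩ := h.star _ hp.1 (by simp)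
  rw [← h2]; exact hS.dir _ h1

/-- crossing gap between two middle vertices -/
def Gap (n : ℕ) (T V : Finset (Finset Pt)) (S : Finset Pt → Slab) (σ : Slab) (g : Pt) : Prop :=
  IsMid n T V S σ g ∧ IsMid n T V S σ (g + σ.1) ∧ ¬ IsEdge T g (g + σ.1)

/-- the star of a middle vertex in the direction `δ e` -/
theorem mid_straddle (hT : UT n T) (hS : Str n T V S) {x : Pt} (h : IsMid n T V S σ x) {δ : ℤ}
    (hδ : δ = 1 ∨ δ = -1) : IsEdge T x (x + δ • σ.1) ∨ ∃ a b, Pos T x a b ∧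
      crs σ.1 a = σ.2.1 + 1 - δ ∧ crs σ.1 b = σ.2.1 + 1 + δ ∧ a + b = x + (x + δ • σ.1) := by
  have hdir := h.dir hT hS
  have hco : IsCoprime (δ • σ.1).1 (δ • σ.1).2 := by
    rcases hδ with rfl | rfl
    · simpa using hdir.1
    · simpa using hdir.1.neg_neg
  rcases straddle hT (h.inner hT hS) hco with h1 | ⟨a, b, hab, h1, h2⟩
  · exact Or.inl h1
  · right
    rw [crs_smul_l, crs_smul_l] at h1 h2
    obtain ⟨hV, hσ⟩ := h.star _ hab.1 (by simp)
    have s1 := hS.slab _ hV a (by simp)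
    have s2 := hS.slab _ hV b (by simp)
    rw [hσ] at s1 s2
    have hlev := h.lev
    have hw := h.w
    have hla : crs σ.1 a = σ.2.1 + 1 - δ := by
      rcases hδ with rfl | rfl <;> omega
    have hlb : crs σ.1 b = σ.2.1 + 1 + δ := by
      rcases hδ with rfl | rfl <;> omega
    exact ⟨a, b, hab, hla, hlb, cross_alg hdir.1 hab.2 hδ (by rw [hla, hlev]) (by rw [hlb, hlev])⟩

theorem gap_data (hT : UT n T) (hS : Str n T V S) {g : Pt} (h : Gap n T V S σ g) :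
    ∃ a b, Pos T g a b ∧ Pos T (g + σ.1) b a ∧ a + b = g + (g + σ.1) ∧ crs σ.1 a = σ.2.1 ∧
      crs σ.1 b = σ.2.1 + 2 := by
  obtain ⟨h1, h2, h3⟩ := h
  rcases mid_straddle hT hS h1 (δ := 1) (Or.inl rfl) with h4 | ⟨a, b, hab, ha, hb, hs⟩
  · rw [one_smul] at h4; exact absurd h4 h3
  rcases mid_straddle hT hS h2 (δ := -1) (Or.inr rfl) with h4 | ⟨b', a', hab', hb', ha', hs'⟩
  · exfalso
    apply h3
    have : g + σ.1 + (-1 : ℤ) • σ.1 = g := by
      rw [neg_smul, one_smul]; abel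
    rw [this] at h4
    exact h4.symm
  rw [one_smul] at hs
  have hs'' : a' + b' = g + (g + σ.1) := by
    rw [add_comm a' b', hs', neg_smul, one_smul]; abel
  have e0 : a + b = a' + b' := by rw [hs, hs'']
  have e1 : a.1 + b.1 = a'.1 + b'.1 := by
    have := congrArg Prod.fst e0
    simpa [Prod.fst_add] using this
  have e2 : a.2 + b.2 = a'.2 + b'.2 := by
    have := congrArg Prod.snd e0
    simpa [Prod.snd_add] using this
  rcases hab.cyc.edge.eq_of_mid hT hab'.cyc.edge.symm e1 e2 with ⟨rfl, rfl⟩ | ⟨rfl, rfl⟩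
  · exact ⟨a, b, hab, hab', hs, by omega, by omega⟩
  · omega

end Fa

end Pool.Agent.IT
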