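import Pool.Agent.IT.Defs

/-!
# Number of families of disjoint boxes (counting core of M16)

Weights: every box `D` gets the weight `x * lam ^ (p + q)`; the sum over all subfamilies of the product
of the weights is `∏ (1 + w D) ≤ exp (∑ w D)`.
-/

set_option autoImplicit false

namespace Pool.Agent.IT

open Finset

/-! ### elementary facts on one box -/

theorem BoxD.mid_zero (D : BoxD) : D.mid 0 = D.v1 := by
  simp [BoxD.mid]

theorem BoxD.cr_mid {D : BoxD} (hD : D.Ok) (i : ℕ) : crs D.e (D.mid i) = crs D.e D.a + 1 := by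
  have h1 := hD.two
  have h2 := hD.half
  have h3 : (D.v1.1 + D.v1.1, D.v1.2 + D.v1.2) = (D.a.1 + D.b.1 + D.e.1, D.a.2 + D.b.2 + D.e.2) := h2
  simp only [Prod.mk.injEq] at h3
  obtain ⟨h4, h5⟩ := h3
  simp only [crs, BoxD.mid, Prod.fst_sub, Prod.snd_sub, Prod.fst_add, Prod.snd_add, Prod.smul_fst,
    Prod.smul_snd, smul_eq_mul] at h1 ⊢
  have h6 : D.e.1 * (D.v1.2 + D.v1.2) = D.e.1 * (D.a.2 + D.b.2 + D.e.2) := by rw [h5]
  have h7 : D.e.2 * (D.v1.1 + D.v1.1) = D.e.2 * (D.a.1 + D.b.1 + D.e.1) := by rw [h4]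
  linarith

theorem BoxD.e_ne {D : BoxD} (hD : D.Ok) : D.e ≠ 0 := by
  intro h
  have h1 := hD.two
  rw [h] at h1
  simp [crs] at h1

/-- a fan of triangles `{c + j e, c + (j+1) e, m}` with `m` off the line is injectively indexed -/
theorem fan_inj {c e m : Pt} (he : e ≠ 0) (hm : ∀ i : ℤ, c + i • e ≠ m) :
    Function.Injective (fun j : ℕ => ({c + (j : ℤ) • e, c + ((j : ℤ) + 1) • e, m} : Finset Pt)) := by
  intro j j' h
  have hinj : ∀ s s' : ℤ, c + s • e = c + s' • e → s = s' := by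
    intro s s' h
    have h1 : s • e = s' • e := by simpa using h
    exact smul_left_injective ℤ he h1
  have h1 : c + (j : ℤ) • e ∈ ({c + (j' : ℤ) • e, c + ((j' : ℤ) + 1) • e, m} : Finset Pt) := by
    have h2 : c + (j : ℤ) • e ∈ ({c + (j : ℤ) • e, c + ((j : ℤ) + 1) • e, m} : Finset Pt) := by simp
    exact (congrArg (c + (j : ℤ) • e ∈ ·) h).mp h2
  have h3 : c + ((j : ℤ) + 1) • e ∈ ({c + (j' : ℤ) • e, c + ((j' : ℤ) + 1) • e, m} : Finset Pt) := by
    have h2 : c + ((j : ℤ) + 1) • e ∈ ({c + (j : ℤ) • e, c + ((j : ℤ) + 1) • e, m} : Finset Pt) := by simp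
    exact (congrArg (c + ((j : ℤ) + 1) • e ∈ ·) h).mp h2
  simp only [Finset.mem_insert, Finset.mem_singleton] at h1 h3
  have h1' : (j : ℤ) = j' ∨ (j : ℤ) = j' + 1 := by
    rcases h1 with h1 | h1 | h1
    · exact Or.inl (hinj _ _ h1)
    · exact Or.inr (hinj _ _ h1)
    · exact absurd h1 (hm _)
  have h3' : (j : ℤ) + 1 = j' ∨ (j : ℤ) + 1 = j' + 1 := by
    rcases h3 with h1 | h1 | h1
    · exact Or.inl (hinj _ _ h1)
    · exact Or.inr (hinj _ _ h1)
    · exact absurd h1 (hm _)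
  omega

theorem BoxD.p_le {D : BoxD} (hD : D.Ok) : D.p ≤ D.canon.card := by
  have hm : ∀ i : ℤ, D.a + i • D.e ≠ D.mid (D.h - 1) := by
    intro i h
    have h1 := BoxD.cr_mid hD (D.h - 1)
    rw [← h] at h1
    simp only [crs, Prod.fst_add, Prod.snd_add, Prod.smul_fst, Prod.smul_snd, smul_eq_mul] at h1
    have h2 : D.e.1 * (i * D.e.2) = D.e.2 * (i * D.e.1) := by ring
    linarith
  have h1 : ((Finset.range D.p).image
      (fun j : ℕ => ({D.a + (j : ℤ) • D.e, D.a + ((j : ℤ) + 1) • D.e, D.mid (D.h - 1)} : Finset Pt))).card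
      = D.p := by
    rw [Finset.card_image_of_injective _ (fan_inj (BoxD.e_ne hD) hm), Finset.card_range]
  rw [← h1]
  apply Finset.card_le_card
  intro s hs
  unfold BoxD.canon
  simp only [Finset.mem_union]
  exact Or.inl (Or.inr hs)

theorem BoxD.q_le {D : BoxD} (hD : D.Ok) : D.q ≤ D.canon.card := by
  have hm : ∀ i : ℤ, D.b + i • D.e ≠ D.mid (D.h - 1) := by
    intro i h
    have h1 := BoxD.cr_mid hD (D.h - 1)
    have h0 := hD.two
    rw [← h] at h1
    simp only [crs, Prod.fst_add, Prod.snd_add, Prod.fst_sub, Prod.snd_sub, Prod.smul_fst, Prod.smul_snd,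
      smul_eq_mul] at h1 h0
    have h2 : D.e.1 * (i * D.e.2) = D.e.2 * (i * D.e.1) := by ring
    linarith
  have h1 : ((Finset.range D.q).image
      (fun j : ℕ => ({D.b + (j : ℤ) • D.e, D.b + ((j : ℤ) + 1) • D.e, D.mid (D.h - 1)} : Finset Pt))).card
      = D.q := by
    rw [Finset.card_image_of_injective _ (fan_inj (BoxD.e_ne hD) hm), Finset.card_range]
  rw [← h1]
  apply Finset.card_le_card
  intro s hs
  unfold BoxD.canon
  simp only [Finset.mem_union]
  exact Or.inr hs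

theorem BoxD.first_mem (D : BoxD) : ({D.a, D.b, D.mid 0} : Finset Pt) ∈ D.canon := by
  unfold BoxD.canon
  simp

/-! ### codes -/

/-- the box with a given code -/
def decode (c : (Pt × Pt × Pt) × ℕ × ℕ) : BoxD :=
  ⟨c.1.1, c.1.2.1, c.1.2.2 + c.1.2.2 - c.1.1 - c.1.2.1, c.2.1, c.2.2⟩

theorem decode_inj : Function.Injective decode := by
  rintro ⟨⟨a, b, m⟩, p, q⟩ ⟨⟨a', b', m'⟩, p', q'⟩ h
  simp only [decode, BoxD.mk.injEq] at h
  obtain ⟨h1, h2, h3, h4, h5⟩ := h
  subst h1 h2 h4 h5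
  have h6 : m + m = m' + m' := by
    have := congrArg (· + a + b) h3
    have e1 : m + m - a - b + a + b = m + m := by abel
    have e2 : m' + m' - a - b + a + b = m' + m' := by abel
    rwa [e1, e2] at this
  have h7 : m = m' := by
    have h8 := congrArg Prod.fst h6
    have h9 := congrArg Prod.snd h6
    simp only [Prod.fst_add, Prod.snd_add] at h8 h9
    ext <;> omega
  rw [h7]

theorem decode_code {D : BoxD} (hD : D.Ok) : decode ((D.a, D.b, D.mid 0), D.p, D.q) = D := by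
  have h := hD.half
  have h1 : D.mid 0 + D.mid 0 - D.a - D.b = D.e := by
    rw [BoxD.mid_zero, h]; abel
  unfold decode
  simp only [h1]

/-- all codes of boxes whose first triangle is in `T` and with `p, q ≤ M` -/
def codes (T : Finset (Finset Pt)) (M : ℕ) : Finset ((Pt × Pt × Pt) × ℕ × ℕ) :=
  (T.biUnion (fun t => t ×ˢ t ×ˢ t)) ×ˢ (Finset.range (M + 1) ×ˢ Finset.range (M + 1))

theorem mem_image_codes {T : Finset (Finset Pt)} {D : BoxD} (hD : D.Ok) (hT : D.canon ⊆ T) :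
    D ∈ (codes T T.card).image decode := by
  rw [Finset.mem_image]
  refine ⟨((D.a, D.b, D.mid 0), D.p, D.q), ?_, decode_code hD⟩
  have h1 := hT D.first_mem
  have h2 : D.p ≤ T.card := (BoxD.p_le hD).trans (Finset.card_le_card hT)
  have h3 : D.q ≤ T.card := (BoxD.q_le hD).trans (Finset.card_le_card hT)
  unfold codes
  simp only [Finset.mem_product, Finset.mem_biUnion, Finset.mem_range]
  refine ⟨⟨_, h1, ?_, ?_, ?_⟩, by omega, by omega⟩ <;> simp

theorem geom_le {lam : ℝ} (h0 : 0 ≤ lam) (h1 : lam < 1) (M : ℕ) :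
    ∑ i ∈ Finset.range M, lam ^ i ≤ 1 / (1 - lam) := by
  have h2 : 0 < 1 - lam := by linarith
  rw [geom_sum_eq h1.ne, le_div_iff₀ h2]
  have h3 : (lam ^ M - 1) / (lam - 1) * (1 - lam) = 1 - lam ^ M := by
    have h4 : lam - 1 ≠ 0 := by linarith
    field_simp
    ring
  rw [h3]
  have := pow_nonneg h0 M
  linarith

theorem card_triples {T : Finset (Finset Pt)} (h3 : ∀ t ∈ T, t.card ≤ 3) :
    (T.biUnion (fun t => t ×ˢ t ×ˢ t)).card ≤ 27 * T.card := by
  refine (Finset.card_biUnion_le).trans ?_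
  have : ∀ t ∈ T, (t ×ˢ t ×ˢ t).card ≤ 27 := by
    intro t ht
    rw [Finset.card_product, Finset.card_product]
    have := h3 t ht
    calc t.card * (t.card * t.card) ≤ 3 * (3 * 3) := by gcongr
      _ = 27 := by norm_num
  calc ∑ t ∈ T, (t ×ˢ t ×ˢ t).card ≤ ∑ _t ∈ T, 27 := Finset.sum_le_sum this
    _ = 27 * T.card := by rw [Finset.sum_const, smul_eq_mul, mul_comm]

/-- total weight of the boxes -/
theorem weight_le {T : Finset (Finset Pt)} (h3 : ∀ t ∈ T, t.card ≤ 3) {x lam : ℝ} (hx : 0 ≤ x)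
    (h0 : 0 ≤ lam) (h1 : lam < 1) (M : ℕ) :
    ∑ D ∈ (codes T M).image decode, x * (lam ^ D.p * lam ^ D.q) ≤
      27 * T.card * (x * (1 / (1 - lam) * (1 / (1 - lam)))) := by
  rw [Finset.sum_image (fun c _ c' _ h => decode_inj h)]
  have e : ∀ c ∈ codes T M, x * (lam ^ (decode c).p * lam ^ (decode c).q) =
      x * (lam ^ c.2.1 * lam ^ c.2.2) := fun c _ => rfl
  rw [Finset.sum_congr rfl e]
  unfold codes
  rw [Finset.sum_product]
  have e2 : ∀ y ∈ T.biUnion (fun t => t ×ˢ t ×ˢ t),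
      ∑ y_1 ∈ Finset.range (M + 1) ×ˢ Finset.range (M + 1), x * (lam ^ (y, y_1).2.1 * lam ^ (y, y_1).2.2)
      = x * ((∑ i ∈ Finset.range (M + 1), lam ^ i) * (∑ i ∈ Finset.range (M + 1), lam ^ i)) := by
    intro y _
    rw [Finset.sum_product, Finset.sum_mul_sum, Finset.mul_sum]
    refine Finset.sum_congr rfl fun i _ => ?_
    rw [Finset.mul_sum]
  rw [Finset.sum_congr rfl e2, Finset.sum_const, nsmul_eq_mul]
  have hg := geom_le h0 h1 (M + 1)
  have hg0 : 0 ≤ ∑ i ∈ Finset.range (M + 1), lam ^ i := Finset.sum_nonneg fun i _ => pow_nonneg h0 i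
  have hc : ((T.biUnion (fun t => t ×ˢ t ×ˢ t)).card : ℝ) ≤ 27 * T.card := by
    exact_mod_cast card_triples h3
  have h5 : (0 : ℝ) ≤ 1 / (1 - lam) := by
    apply div_nonneg zero_le_one; linarith
  gcongr

/-- the family of sets of boxes -/
def FamSet (T : Finset (Finset Pt)) (B : ℝ) : Set (Finset BoxD) :=
  {F | (∀ D ∈ F, D.Ok ∧ D.canon ⊆ T) ∧ (∀ D ∈ F, ∀ D' ∈ F, D ≠ D' → Disjoint D.canon D'.canon) ∧
        (F.card : ℝ) ≤ B}

theorem FamSet_sub (T : Finset (Finset Pt)) (B : ℝ) :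
    FamSet T B ⊆ (((codes T T.card).image decode).powerset : Set (Finset BoxD)) := by
  intro F hF
  rw [Finset.mem_coe, Finset.mem_powerset]
  intro D hD
  exact mem_image_codes (hF.1 D hD).1 (hF.1 D hD).2

theorem sum_pq_le {T : Finset (Finset Pt)} {B : ℝ} {F : Finset BoxD} (hF : F ∈ FamSet T B) :
    ∑ D ∈ F, (D.p + D.q) ≤ 2 * T.card := by
  have h1 : ∑ D ∈ F, (D.p + D.q) ≤ ∑ D ∈ F, 2 * D.canon.card := by
    refine Finset.sum_le_sum fun D hD => ?_
    have := BoxD.p_le (hF.1 D hD).1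
    have := BoxD.q_le (hF.1 D hD).1
    omega
  have h2 : ∑ D ∈ F, D.canon.card = (F.biUnion (fun D => D.canon)).card := by
    rw [Finset.card_biUnion]
    intro D hD D' hD' hne
    exact hF.2.1 D hD D' hD' hne
  have h3 : (F.biUnion (fun D => D.canon)).card ≤ T.card := by
    apply Finset.card_le_card
    intro s hs
    rw [Finset.mem_biUnion] at hs
    obtain ⟨D, hD, hs⟩ := hs
    exact (hF.1 D hD).2 hs
  rw [← Finset.mul_sum, h2] at h1
  omega

theorem fam_weighted {T : Finset (Finset Pt)} (h3 : ∀ t ∈ T, t.card ≤ 3) {x lam : ℝ} (hx : 0 < x)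
    (hx1 : x < 1) (h0 : 0 < lam) (h1 : lam < 1) (B : ℝ) :
    ((FamSet T B).ncard : ℝ) * (x ^ B * lam ^ ((2 * T.card : ℕ) : ℝ)) ≤
      Real.exp (27 * T.card * (x * (1 / (1 - lam) * (1 / (1 - lam))))) := by
  classical
  set 𝒟 := (codes T T.card).image decode with h𝒟
  set w : BoxD → ℝ := fun D => x * (lam ^ D.p * lam ^ D.q) with hw
  have hw0 : ∀ D, 0 ≤ w D := fun D => by positivity
  have hfin : (FamSet T B).Finite := (Finset.finite_toSet _).subset (FamSet_sub T B)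
  have hnc : (FamSet T B).ncard = hfin.toFinset.card := Set.ncard_eq_toFinset_card _ hfin
  have hsub : hfin.toFinset ⊆ 𝒟.powerset := by
    intro F hF
    rw [Set.Finite.mem_toFinset] at hF
    exact FamSet_sub T B hF
  have hone : ∀ F ∈ hfin.toFinset, x ^ B * lam ^ ((2 * T.card : ℕ) : ℝ) ≤ ∏ D ∈ F, w D := by
    intro F hF
    rw [Set.Finite.mem_toFinset] at hF
    have e1 : ∏ D ∈ F, w D = x ^ (F.card : ℝ) * lam ^ ((∑ D ∈ F, (D.p + D.q) : ℕ) : ℝ) := by
      rw [Real.rpow_natCast, Real.rpow_natCast, ← Finset.prod_pow_eq_pow_sum, ← Finset.prod_const,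
        ← Finset.prod_mul_distrib]
      refine Finset.prod_congr rfl fun D _ => ?_
      rw [pow_add]
    rw [e1]
    have h4 : x ^ B ≤ x ^ (F.card : ℝ) := Real.rpow_le_rpow_of_exponent_ge hx hx1.le hF.2.2
    have h5 : lam ^ ((2 * T.card : ℕ) : ℝ) ≤ lam ^ ((∑ D ∈ F, (D.p + D.q) : ℕ) : ℝ) :=
      Real.rpow_le_rpow_of_exponent_ge h0 h1.le (by exact_mod_cast sum_pq_le hF)
    have h6 : 0 ≤ lam ^ ((2 * T.card : ℕ) : ℝ) := Real.rpow_nonneg h0.le _
    have h7 : 0 ≤ x ^ (F.card : ℝ) := Real.rpow_nonneg hx.le _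
    exact mul_le_mul h4 h5 h6 h7
  calc ((FamSet T B).ncard : ℝ) * (x ^ B * lam ^ ((2 * T.card : ℕ) : ℝ))
      = ∑ _F ∈ hfin.toFinset, x ^ B * lam ^ ((2 * T.card : ℕ) : ℝ) := by
        rw [Finset.sum_const, nsmul_eq_mul, hnc]
    _ ≤ ∑ F ∈ hfin.toFinset, ∏ D ∈ F, w D := Finset.sum_le_sum hone
    _ ≤ ∑ F ∈ 𝒟.powerset, ∏ D ∈ F, w D :=
        Finset.sum_le_sum_of_subset_of_nonneg hsub fun F _ _ => Finset.prod_nonneg fun D _ => hw0 D
    _ = ∏ D ∈ 𝒟, (1 + w D) := (Finset.prod_one_add 𝒟).symm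
    _ ≤ ∏ D ∈ 𝒟, Real.exp (w D) := by
        refine Finset.prod_le_prod (fun D _ => by have := hw0 D; linarith) fun D _ => ?_
        have := Real.add_one_le_exp (w D)
        linarith
    _ = Real.exp (∑ D ∈ 𝒟, w D) := (Real.exp_sum _ _).symm
    _ ≤ _ := Real.exp_le_exp.mpr (weight_le h3 hx.le h0.le h1 _)

/-- counting core of `fam_count` -/
theorem fam_core (η : ℝ) (hη : 0 < η) : ∃ β : ℝ, 0 < β ∧ ∀ (N : ℕ) (T : Finset (Finset Pt)),
    (∀ t ∈ T, t.card ≤ 3) → T.card ≤ 2 * N →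
    ((FamSet T (β * N)).ncard : ℝ) ≤ (2 : ℝ) ^ (η * N) := by
  have hl2 : 0 < Real.log 2 := Real.log_pos (by norm_num)
  -- lam = 2 ^ (-η/16)
  set lam : ℝ := (2 : ℝ) ^ (-(η / 16)) with hlam
  have hlam0 : 0 < lam := Real.rpow_pos_of_pos (by norm_num) _
  have hlam1 : lam < 1 := Real.rpow_lt_one_of_one_lt_of_neg (by norm_num) (by linarith)
  set G : ℝ := 1 / (1 - lam) * (1 / (1 - lam)) with hG
  have hG0 : 0 < G := by
    have : 0 < 1 - lam := by linarith
    positivity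
  -- x
  obtain ⟨x, hx0, hx1, hx2⟩ : ∃ x : ℝ, 0 < x ∧ x < 1 ∧ 54 * (x * G) ≤ η / 4 * Real.log 2 := by
    refine ⟨min (1 / 2) (η / 4 * Real.log 2 / (54 * G)), by positivity, ?_, ?_⟩
    · exact (min_le_left _ _).trans_lt (by norm_num)
    · calc 54 * (min (1 / 2) (η / 4 * Real.log 2 / (54 * G)) * G)
          ≤ 54 * ((η / 4 * Real.log 2 / (54 * G)) * G) := by
            gcongr
            exact min_le_right _ _
        _ = η / 4 * Real.log 2 := by field_simp
  have hlx : Real.log x < 0 := Real.log_neg hx0 hx1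
  set β : ℝ := η / 4 * Real.log 2 / (-Real.log x) with hβ
  have hβ0 : 0 < β := by
    have : 0 < -Real.log x := by linarith
    positivity
  refine ⟨β, hβ0, fun N T h3 hT => ?_⟩
  have key := fam_weighted h3 hx0 hx1 hlam0 hlam1 (β * N)
  have hTr : (T.card : ℝ) ≤ 2 * N := by exact_mod_cast hT
  have hN : (0 : ℝ) ≤ N := Nat.cast_nonneg N
  -- rewrite everything as exp
  have ex : x ^ (β * N) = Real.exp (-(η / 4 * Real.log 2 * N)) := by
    rw [Real.rpow_def_of_pos hx0]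
    congr 1
    rw [hβ]
    have : -Real.log x ≠ 0 := by linarith
    field_simp
    have h' : Real.log x ≠ 0 := hlx.ne
    field_simp
  have el : Real.exp (-(η / 4 * Real.log 2 * N)) ≤ lam ^ ((2 * T.card : ℕ) : ℝ) := by
    rw [hlam, ← Real.rpow_mul (by norm_num), Real.rpow_def_of_pos (by norm_num)]
    apply Real.exp_le_exp.mpr
    push_cast
    have h8 : η / 16 * (2 * (T.card : ℝ)) ≤ η / 4 * N := by nlinarith
    have h9 := mul_le_mul_of_nonneg_left h8 hl2.le
    nlinarith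
  have er : Real.exp (27 * T.card * (x * (1 / (1 - lam) * (1 / (1 - lam))))) ≤
      Real.exp (η / 4 * Real.log 2 * N) := by
    apply Real.exp_le_exp.mpr
    rw [← hG]
    have h10 : 0 ≤ x * G := by positivity
    calc 27 * (T.card : ℝ) * (x * G) ≤ 27 * (2 * N) * (x * G) := by gcongr
      _ = 54 * (x * G) * N := by ring
      _ ≤ η / 4 * Real.log 2 * N := by gcongr
  have hfinal : ((FamSet T (β * N)).ncard : ℝ) * (Real.exp (-(η / 4 * Real.log 2 * N)) *
      Real.exp (-(η / 4 * Real.log 2 * N))) ≤ Real.exp (η / 4 * Real.log 2 * N) := by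
    refine le_trans ?_ (key.trans er)
    rw [ex]
    gcongr
  rw [← Real.exp_add] at hfinal
  have h11 : ((FamSet T (β * N)).ncard : ℝ) ≤ Real.exp (3 * (η / 4 * Real.log 2 * N)) := by
    have h12 : ((FamSet T (β * N)).ncard : ℝ) =
        ((FamSet T (β * N)).ncard : ℝ) * Real.exp (-(η / 4 * Real.log 2 * N) + -(η / 4 * Real.log 2 * N)) *
          Real.exp (2 * (η / 4 * Real.log 2 * N)) := by
      rw [mul_assoc, ← Real.exp_add]
      have : -(η / 4 * Real.log 2 * N) + -(η / 4 * Real.log 2 * N) + 2 * (η / 4 * Real.log 2 * N) = 0 := by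
        ring
      rw [this, Real.exp_zero, mul_one]
    rw [h12]
    calc _ ≤ Real.exp (η / 4 * Real.log 2 * N) * Real.exp (2 * (η / 4 * Real.log 2 * N)) := by
          gcongr
      _ = _ := by rw [← Real.exp_add]; congr 1; ring
  refine h11.trans ?_
  rw [Real.rpow_def_of_pos (by norm_num)]
  apply Real.exp_le_exp.mpr
  have : 0 ≤ η * Real.log 2 * N := by positivity
  nlinarith

end Pool.Agent.IT
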