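import Pool.Agent.IT.FamC

/-!
# Family of boxes, part D: runs, ends and the box between two gaps
-/

set_option autoImplicit false

namespace Pool.Agent.IT

namespace Fa

variable {n : ℕ} {T V : Finset (Finset Pt)} {S : Finset Pt → Slab} {σ : Slab}

/-- `u, u + e, ..., u + k e` are middle vertices -/
def Run (n : ℕ) (T V : Finset (Finset Pt)) (S : Finset Pt → Slab) (σ : Slab) (u : Pt) (k : ℕ) :
    Prop := ∀ i : ℕ, i ≤ k → IsMid n T V S σ (u + (i : ℤ) • σ.1)

theorem Run.mono {u : Pt} {k l : ℕ} (h : Run n T V S σ u k) (hl : l ≤ k) : Run n T V S σ u l :=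
  fun i hi => h i (hi.trans hl)

theorem Run.shift {u : Pt} {k : ℕ} (h : Run n T V S σ u k) {j l : ℕ} (hl : j + l ≤ k) :
    Run n T V S σ (u + (j : ℤ) • σ.1) l := by
  intro i hi
  have := h (j + i) (by omega)
  have e : u + (j : ℤ) • σ.1 + (i : ℤ) • σ.1 = u + ((j + i : ℕ) : ℤ) • σ.1 := by
    push_cast; rw [add_smul]; abel
  rw [e]; exact this

theorem Run.zero_iff {u : Pt} : Run n T V S σ u 0 ↔ IsMid n T V S σ u := by
  constructor
  · intro h
    have := h 0 le_rfl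
    simpa using this
  · intro h i hi
    have : i = 0 := by omega
    subst this
    simpa using h

/-- joining two runs -/
theorem Run.join {u : Pt} {k l : ℕ} (h : Run n T V S σ u k)
    (h' : Run n T V S σ (u + (k : ℤ) • σ.1) l) : Run n T V S σ u (k + l) := by
  intro i hi
  by_cases hik : i ≤ k
  · exact h i hik
  · have := h' (i - k) (by omega)
    have e : u + (k : ℤ) • σ.1 + ((i - k : ℕ) : ℤ) • σ.1 = u + (i : ℤ) • σ.1 := by
      rw [add_assoc, ← add_smul]
      congr 2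
      omega
    rw [← e]; exact this

/-- joining two runs with a step in between -/
theorem Run.join' {u : Pt} {k l : ℕ} (h : Run n T V S σ u k)
    (h' : Run n T V S σ (u + (k : ℤ) • σ.1 + σ.1) l) : Run n T V S σ u (k + 1 + l) := by
  intro i hi
  by_cases hik : i ≤ k
  · exact h i hik
  · have := h' (i - (k + 1)) (by omega)
    have e : u + (k : ℤ) • σ.1 + σ.1 + ((i - (k + 1) : ℕ) : ℤ) • σ.1 = u + (i : ℤ) • σ.1 := by
      have h1 : ((i : ℕ) : ℤ) = (k : ℤ) + 1 + ((i - (k + 1) : ℕ) : ℤ) := by omega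
      rw [h1, add_smul, add_smul, one_smul]; abel
    rw [← e]; exact this

theorem steps_le {u e : Pt} {k : ℕ} (he : e ≠ 0) (h1 : InSq n u) (h2 : InSq n (u + (k : ℤ) • e)) :
    k ≤ n := by
  obtain ⟨a1, a2, a3, a4⟩ := h1
  obtain ⟨b1, b2, b3, b4⟩ := h2
  simp only [Prod.fst_add, Prod.snd_add, Prod.smul_fst, Prod.smul_snd, smul_eq_mul] at b1 b2 b3 b4
  by_contra hc
  push Not at hc
  have hc' : (n : ℤ) < k := by exact_mod_cast hc
  apply he
  have key : ∀ x y : ℤ, 0 ≤ x → x ≤ n → 0 ≤ x + k * y → x + k * y ≤ n → y = 0 := by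
    intro x y h1 h2 h3 h4
    rcases lt_trichotomy y 0 with g | g | g
    · nlinarith
    · exact g
    · nlinarith
  ext
  · exact key _ _ a1 a2 b1 b2
  · exact key _ _ a3 a4 b3 b4

/-- right end of a run -/
def REnd (n : ℕ) (T V : Finset (Finset Pt)) (S : Finset Pt → Slab) (σ : Slab) (x : Pt) : Prop :=
  IsMid n T V S σ x ∧ ¬ IsMid n T V S σ (x + σ.1)

theorem exists_rend (hT : UT n T) (hS : Str n T V S) {u : Pt} (h : IsMid n T V S σ u) :
    ∃ k : ℕ, Run n T V S σ u k ∧ REnd n T V S σ (u + (k : ℤ) • σ.1) := by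
  classical
  have hdir := h.dir hT hS
  have hex : ∃ k : ℕ, ¬ IsMid n T V S σ (u + (k : ℤ) • σ.1) := by
    refine ⟨n + 1, fun hm => ?_⟩
    have := steps_le hdir.ne_zero h.sq hm.sq
    omega
  have hne : Nat.find hex ≠ 0 := by
    intro h0
    have := Nat.find_spec hex
    rw [h0] at this
    apply this
    simpa using h
  refine ⟨Nat.find hex - 1, ?_, ?_, ?_⟩
  · intro i hi
    have := Nat.find_min hex (m := i) (by omega)
    push Not at this
    exact this
  · have := Nat.find_min hex (m := Nat.find hex - 1) (by omega)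
    push Not at this
    exact this
  · have := Nat.find_spec hex
    have e : u + ((Nat.find hex - 1 : ℕ) : ℤ) • σ.1 + σ.1 = u + ((Nat.find hex : ℕ) : ℤ) • σ.1 := by
      have h1 : ((Nat.find hex : ℕ) : ℤ) = ((Nat.find hex - 1 : ℕ) : ℤ) + 1 := by omega
      rw [h1, add_smul, one_smul]; abel
    rw [e]; exact this

/-- last gap of a run -/
def LGap (n : ℕ) (T V : Finset (Finset Pt)) (S : Finset Pt → Slab) (σ : Slab) (g : Pt) : Prop :=
  Gap n T V S σ g ∧ ∀ k : ℕ, Run n T V S σ (g + σ.1) k → ¬ Gap n T V S σ (g + σ.1 + (k : ℤ) • σ.1)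

/-- first gap of a run -/
def FGap (n : ℕ) (T V : Finset (Finset Pt)) (S : Finset Pt → Slab) (σ : Slab) (g : Pt) : Prop :=
  Gap n T V S σ g ∧ ∀ (k : ℕ) (g' : Pt), g' + σ.1 + (k : ℤ) • σ.1 = g →
    Run n T V S σ (g' + σ.1) k → ¬ Gap n T V S σ g'

theorem exists_max {P : ℕ → Prop} {k0 B : ℕ} (h0 : P k0) (hB : ∀ k, P k → k ≤ B) :
    ∃ k, k0 ≤ k ∧ P k ∧ ∀ l, P l → l ≤ k := by
  classical
  have h1 := Nat.findGreatest_spec (P := P) (hB k0 h0) h0
  refine ⟨Nat.findGreatest P B, Nat.le_findGreatest (hB k0 h0) h0, h1, ?_⟩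
  intro l hl
  exact Nat.le_findGreatest (hB l hl) hl

theorem exists_lgap (hT : UT n T) (hS : Str n T V S) {v : Pt} {k : ℕ}
    (hr : Run n T V S σ v k) (hg : Gap n T V S σ (v + (k : ℤ) • σ.1)) :
    ∃ l : ℕ, k ≤ l ∧ Run n T V S σ v l ∧ LGap n T V S σ (v + (l : ℤ) • σ.1) := by
  have hv : IsMid n T V S σ v := Run.zero_iff.mp (hr.mono (Nat.zero_le _))
  have hdir := hv.dir hT hS
  obtain ⟨l, hkl, ⟨h1, h2⟩, h3⟩ := exists_max
    (P := fun k => Run n T V S σ v k ∧ Gap n T V S σ (v + (k : ℤ) • σ.1)) (B := n) ⟨hr, hg⟩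
    (fun k hk => steps_le hdir.ne_zero hv.sq hk.2.1.sq)
  refine ⟨l, hkl, h1, h2, ?_⟩
  intro j hj hgj
  have e : v + (l : ℤ) • σ.1 + σ.1 + (j : ℤ) • σ.1 = v + ((l + 1 + j : ℕ) : ℤ) • σ.1 := by
    push_cast
    rw [add_smul, add_smul, one_smul]; abel
  have := h3 (l + 1 + j) ⟨h1.join' hj, by rw [← e]; exact hgj⟩
  omega

theorem exists_fgap (hT : UT n T) (hS : Str n T V S) {v g : Pt} {k : ℕ}
    (hgv : g + σ.1 + (k : ℤ) • σ.1 = v)
    (hr : Run n T V S σ (g + σ.1) k) (hg : Gap n T V S σ g) :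
    ∃ (l : ℕ) (g0 : Pt), g0 + σ.1 + (l : ℤ) • σ.1 = v ∧ Run n T V S σ (g0 + σ.1) l ∧
      FGap n T V S σ g0 := by
  have hv : IsMid n T V S σ v := by
    rw [← hgv]; exact hr k le_rfl
  have hdir := hv.dir hT hS
  obtain ⟨l, hkl, ⟨g0, h0, h1, h2⟩, h3⟩ := exists_max
    (P := fun k => ∃ g, g + σ.1 + (k : ℤ) • σ.1 = v ∧ Run n T V S σ (g + σ.1) k ∧ Gap n T V S σ g)
    (B := n) ⟨g, hgv, hr, hg⟩
    (by
      rintro k ⟨g, h0, h1, h2⟩
      refine steps_le hdir.ne_zero h2.2.1.sq ?_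
      rw [h0]; exact hv.sq)
  refine ⟨l, g0, h0, h1, h2, ?_⟩
  intro j g' hg' hrun hgap
  have hjoin : Run n T V S σ (g' + σ.1) (j + 1 + l) := by
    apply hrun.join'
    rw [hg']; exact h1
  have := h3 (j + 1 + l) ⟨g', ?_, hjoin, hgap⟩
  · omega
  · rw [← h0, ← hg']
    push_cast
    rw [add_smul, add_smul, one_smul]; abel

/-! ### the box between two gaps -/

theorem box_exists (hT : UT n T) (hS : Str n T V S) {g : Pt} {k : ℕ} (hg : Gap n T V S σ g)
    (hr : Run n T V S σ (g + σ.1) k) (hg' : Gap n T V S σ (g + σ.1 + (k : ℤ) • σ.1)) :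
    ∃ D : BoxD, D.e = σ.1 ∧ crs D.e D.a = σ.2.1 ∧ D.h = k + 1 ∧
      (∀ i : ℕ, D.mid i = g + σ.1 + (i : ℤ) • σ.1) ∧ IsBox n T D := by
  have hdir := hg.1.dir hT hS
  obtain ⟨a, b, h1, h2, h3, ha, hb⟩ := gap_data hT hS hg
  obtain ⟨a', b', h1', h2', h3', ha', hb'⟩ := gap_data hT hS hg'
  obtain ⟨p, hp⟩ := eq_smul_of_level hdir.1 (ha.trans ha'.symm)
  obtain ⟨q, hq⟩ := eq_smul_of_level hdir.1 (hb.trans hb'.symm)
  -- p + q = 2 (k + 1)
  have hpq : (p + q) • σ.1 = (2 * ((k : ℤ) + 1)) • σ.1 := by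
    have : a' + b' = a + b + (2 * ((k : ℤ) + 1)) • σ.1 := by
      rw [h3, h3', mul_smul, two_smul, add_smul, one_smul]; abel
    rw [hp, hq] at this
    have e : a + p • σ.1 + (b + q • σ.1) = a + b + (p + q) • σ.1 := by
      rw [add_smul]; abel
    rw [e] at this
    exact add_left_cancel this
  have hpq' : p + q = 2 * ((k : ℤ) + 1) := by
    by_contra hne
    apply hdir.ne_zero
    have : (p + q - 2 * ((k : ℤ) + 1)) • σ.1 = 0 := by
      rw [sub_smul, hpq, sub_self]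
    rcases smul_eq_zero.mp this with h | h
    · exact absurd (by linarith) hne
    · exact h
  have hE : IsEdge T a b := h1.cyc.edge
  have hE' : IsEdge T a' b' := h1'.cyc.edge
  have hab : crs σ.1 b - crs σ.1 a = 2 := by rw [ha, hb]; ring
  -- nonnegativity from the absence of crossings
  have hd1 : det a b a' = -2 * p := by
    rw [hp]
    simp only [det, crs, Prod.fst_add, Prod.snd_add, Prod.smul_fst, Prod.smul_snd,
      smul_eq_mul] at hab ⊢
    linear_combination (-p) * hab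
  have hd2 : det a b b' = -2 * q := by
    rw [hq]
    simp only [det, crs, Prod.fst_add, Prod.snd_add, Prod.smul_fst, Prod.smul_snd,
      smul_eq_mul] at hab ⊢
    linear_combination (-q) * hab
  have hd3 : det a' b' a = 2 * p := by
    rw [hp, hq]
    simp only [det, crs, Prod.fst_add, Prod.snd_add, Prod.smul_fst, Prod.smul_snd,
      smul_eq_mul] at hab ⊢
    linear_combination p * hab
  have hd4 : det a' b' b = 2 * q := by
    rw [hp, hq]
    simp only [det, crs, Prod.fst_add, Prod.snd_add, Prod.smul_fst, Prod.smul_snd,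
      smul_eq_mul] at hab ⊢
    linear_combination q * hab
  have hnn : 0 ≤ p * q := by
    by_contra hc
    push Not at hc
    apply hE.no_cross hT hE'
    · rw [hd1, hd2]; nlinarith
    · rw [hd3, hd4]; nlinarith
  have hp0 : 0 ≤ p := by
    by_contra hc
    push Not at hc
    have : 0 < q := by omega
    nlinarith
  have hq0 : 0 ≤ q := by
    by_contra hc
    push Not at hc
    have : 0 < p := by omega
    nlinarith
  obtain ⟨p, rfl⟩ := Int.eq_ofNat_of_zero_le hp0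
  obtain ⟨q, rfl⟩ := Int.eq_ofNat_of_zero_le hq0
  have hh : (p + q) / 2 = k + 1 := by omega
  have hv1 : BoxD.v1 ⟨a, b, σ.1, p, q⟩ = g + σ.1 := by
    have e1 := congrArg Prod.fst h3
    have e2 := congrArg Prod.snd h3
    simp only [Prod.fst_add, Prod.snd_add] at e1 e2
    simp only [BoxD.v1]
    ext
    · simp only [Prod.fst_add]; omega
    · simp only [Prod.snd_add]; omega
  have hmid : ∀ i : ℕ, BoxD.mid ⟨a, b, σ.1, p, q⟩ i = g + σ.1 + (i : ℤ) • σ.1 := by
    intro i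
    simp only [BoxD.mid, hv1]
  refine ⟨⟨a, b, σ.1, p, q⟩, rfl, ha, hh, hmid, ?_⟩
  refine ⟨⟨hdir, ?_, ?_, ?_, ?_⟩, hE, ?_, ?_, ?_⟩
  · show crs σ.1 (b - a) = 2
    rw [crs_sub_r]; exact hab
  · show BoxD.v1 ⟨a, b, σ.1, p, q⟩ + BoxD.v1 ⟨a, b, σ.1, p, q⟩ = a + b + σ.1
    rw [hv1, h3]; abel
  · show (p + q) / 2 + (p + q) / 2 = p + q
    omega
  · show 0 < (p + q) / 2
    omega
  · show IsEdge T (a + (p : ℤ) • σ.1) (b + (q : ℤ) • σ.1)
    rw [← hp, ← hq]; exact hE'
  · intro i hi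
    change i < (p + q) / 2 at hi
    rw [hmid]
    exact (hr i (by omega)).inner hT hS
  · intro i hi t ht hmt x hx
    change i < (p + q) / 2 at hi
    rw [hmid] at hmt
    obtain ⟨hV, hσ⟩ := (hr i (by omega)).star t ht hmt
    have hs := hS.slab t hV x hx
    rw [hσ] at hs
    have hw := hg.1.w
    show crs σ.1 a ≤ crs σ.1 x ∧ crs σ.1 x ≤ crs σ.1 a + 2
    omega

end Fa

end Pool.Agent.IT
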