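import Pool.Agent.IT.FamD

/-!
# Family of boxes, part E: charging
-/

set_option autoImplicit false

namespace Pool.Agent.IT

namespace Fa

variable {n : ℕ} {T V : Finset (Finset Pt)} {S : Finset Pt → Slab} {σ : Slab}

theorem rend_loc (hT : UT n T) (hS : Str n T V S) {x : Pt} (h : REnd n T V S σ x) :
    Loc T V S σ x ∨ Loc T V S σ (x + σ.1) := by
  obtain ⟨hm, hn⟩ := h
  have hdir := hm.dir hT hS
  have hin := hm.inner hT hS
  rcases mid_straddle hT hS hm (δ := 1) (Or.inl rfl) with hE | ⟨a, b, hab, ha, hb, hs⟩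
  · rw [one_smul] at hE
    right
    obtain ⟨r, hr⟩ := hE.left_of_inner hT hin
    obtain ⟨s, hs⟩ := hE.right_of_inner hT hin
    obtain ⟨r1, r2⟩ := hm.star _ hr.1 (by simp)
    obtain ⟨s1, s2⟩ := hm.star _ hs.1 (by simp)
    have er : crs σ.1 r - crs σ.1 x = 1 := by rw [← det_dir]; exact hr.2
    have es : crs σ.1 s - crs σ.1 x = -1 := by
      rw [← det_dir, det_swap, hs.2]
    rcases hs_or hT hS (δ := 1) r1 r2 (x := x + σ.1) (by simp)
      ⟨r, by simp, by rw [crs_add_self]; linarith⟩ with h1 | h1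
    · exact h1
    rcases hs_or hT hS (δ := -1) s1 s2 (x := x + σ.1) (by simp)
      ⟨s, by simp, by rw [crs_add_self]; linarith⟩ with h2 | h2
    · exact h2
    exfalso
    exact hn ⟨hm.w, by rw [crs_add_self]; exact hm.lev, hr.cyc.insq hT,
      star_of_both hT hdir.ne_zero h1 h2⟩
  · obtain ⟨u1, u2⟩ := hm.star _ hab.1 (by simp)
    have hw := hm.w
    have hl := hm.lev
    rcases gap_gen hT hS (δ := 1) (Or.inl rfl) hab u1 u2 (by omega) (by omega) (by omega)
      with h1 | ⟨h1, h2, h3, h4, h5, h6, -⟩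
    · exact Or.inl h1
    · right
      rw [one_smul] at h1 h2 h3
      rcases mid_or hT hS h2 h3 (by omega) (x := x + σ.1) (by simp)
        ⟨a, by simp, by rw [crs_add_self]; omega⟩ ⟨b, by simp, by rw [crs_add_self]; omega⟩ with h | h
      · exact h
      · exact absurd h hn

/-- line triangle: `t` has the edge `[x, x+e]` and a vertex on the side `δ` -/
def LineAt (σ : Slab) (t : Finset Pt) (x : Pt) (δ : ℤ) : Prop :=
  x ∈ t ∧ x + σ.1 ∈ t ∧ ∃ y ∈ t, 0 < δ * (crs σ.1 y - crs σ.1 x)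

/-- crossing triangle at `v` in the direction `δ e` -/
def CrossAt (T : Finset (Finset Pt)) (σ : Slab) (t : Finset Pt) (v : Pt) (δ : ℤ) : Prop :=
  ∃ a b, Pos T v a b ∧ t = {v, a, b} ∧ 0 < δ * (crs σ.1 v - crs σ.1 a) ∧
    0 < δ * (crs σ.1 b - crs σ.1 v)

theorem line_of_level {e x y z : Pt} (he : IsCoprime e.1 e.2) (h : det x y z = 1)
    (hl : crs e x = crs e y) : (y = x + e ∧ crs e z - crs e x = 1) ∨
      (x = y + e ∧ crs e z - crs e y = -1) := by
  obtain ⟨k, rfl⟩ := eq_smul_of_level he hl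
  have hk : k * (crs e z - crs e x) = 1 := by
    simp only [det, crs, Prod.fst_add, Prod.snd_add, Prod.smul_fst, Prod.smul_snd,
      smul_eq_mul] at h ⊢
    linear_combination h
  rcases Int.eq_one_or_neg_one_of_mul_eq_one hk with rfl | rfl
  · left
    exact ⟨by rw [one_smul], by linarith⟩
  · right
    refine ⟨by rw [neg_smul, one_smul]; abel, ?_⟩
    rw [crs_add_smul_self]; linarith

theorem classify (hT : UT n T) (hS : Str n T V S) {t : Finset Pt} (ht : t ∈ V) (hσ : S t = σ)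
    (hw : σ.2.2 ≤ 2) : (∃ x δ, (δ = 1 ∨ δ = -1) ∧ LineAt σ t x δ) ∨
      (∃ v δ, (δ = 1 ∨ δ = -1) ∧ CrossAt T σ t v δ) := by
  have hdir : Dir σ.1 := by rw [← hσ]; exact hS.dir t ht
  obtain ⟨p, q, r, htpqr, hpos⟩ := hT.exists_pos (hS.sub ht)
  have hslab := hS.slab t ht
  rw [hσ] at hslab
  have sp := hslab p (by rw [htpqr]; simp)
  have sq := hslab q (by rw [htpqr]; simp)
  have sr := hslab r (by rw [htpqr]; simp)
  have line : ∀ x y z : Pt, Pos T x y z → t = {x, y, z} → crs σ.1 x = crs σ.1 y →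
      ∃ x δ, (δ = 1 ∨ δ = -1) ∧ LineAt σ t x δ := by
    intro x y z h ht hl
    rcases line_of_level hdir.1 h.2 hl with ⟨h1, h2⟩ | ⟨h1, h2⟩
    · exact ⟨x, 1, Or.inl rfl, by rw [ht]; simp, by rw [ht, ← h1]; simp, z, by rw [ht]; simp,
        by linarith⟩
    · exact ⟨y, -1, Or.inr rfl, by rw [ht]; simp, by rw [ht, ← h1]; simp, z, by rw [ht]; simp,
        by linarith⟩
  have cross : ∀ x y z : Pt, Pos T x y z → t = {x, y, z} → crs σ.1 x = σ.2.1 + 1 →
      ((crs σ.1 y = σ.2.1 ∧ crs σ.1 z = σ.2.1 + 2) ∨ (crs σ.1 y = σ.2.1 + 2 ∧ crs σ.1 z = σ.2.1)) →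
      ∃ v δ, (δ = 1 ∨ δ = -1) ∧ CrossAt T σ t v δ := by
    intro x y z h ht h0 h1
    rcases h1 with ⟨h1, h2⟩ | ⟨h1, h2⟩
    · exact ⟨x, 1, Or.inl rfl, y, z, h, ht, by omega, by omega⟩
    · exact ⟨x, -1, Or.inr rfl, y, z, h, ht, by omega, by omega⟩
  have e1 : t = {q, r, p} := by
    rw [htpqr]; ext s; simp only [Finset.mem_insert, Finset.mem_singleton]; tauto
  have e2 : t = {r, p, q} := by
    rw [htpqr]; ext s; simp only [Finset.mem_insert, Finset.mem_singleton]; tauto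
  by_cases c1 : crs σ.1 p = crs σ.1 q
  · exact Or.inl (line p q r hpos htpqr c1)
  by_cases c2 : crs σ.1 q = crs σ.1 r
  · exact Or.inl (line q r p hpos.cyc e1 c2)
  by_cases c3 : crs σ.1 r = crs σ.1 p
  · exact Or.inl (line r p q hpos.cyc' e2 c3)
  right
  by_cases d1 : crs σ.1 p = σ.2.1 + 1
  · exact cross p q r hpos htpqr d1 (by omega)
  by_cases d2 : crs σ.1 q = σ.2.1 + 1
  · exact cross q r p hpos.cyc e1 d2 (by omega)
  · exact cross r p q hpos.cyc' e2 (by omega) (by omega)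

/-- some triangle of `V` with slab `σ` contains `[x, x+e]` on the side `δ` -/
def Up (V : Finset (Finset Pt)) (S : Finset Pt → Slab) (σ : Slab) (δ : ℤ) (x : Pt) : Prop :=
  ∃ u ∈ V, S u = σ ∧ LineAt σ u x δ

/-- middle vertex with a crossing triangle on the left -/
def LeftX (n : ℕ) (T V : Finset (Finset Pt)) (S : Finset Pt → Slab) (σ : Slab) (x : Pt) : Prop :=
  IsMid n T V S σ x ∧ ∃ t, CrossAt T σ t x (-1)

theorem walk_step (hT : UT n T) (hS : Str n T V S) (hw : σ.2.2 ≤ 2) {δ : ℤ}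
    (hδ : δ = 1 ∨ δ = -1) {x : Pt} (h : Up V S σ δ x) :
    Loc T V S σ x ∨ Up V S σ δ (x - σ.1) ∨ LeftX n T V S σ x := by
  obtain ⟨u, hu, hσ, hx, hx', hy⟩ := h
  have hdir : Dir σ.1 := by rw [← hσ]; exact hS.dir u hu
  rcases hs_or hT hS hu hσ hx hy with h1 | h1
  · exact Or.inl h1
  obtain ⟨y, hyu, hy⟩ := hy
  have hδ0 : δ • σ.1 ≠ 0 := by
    intro h0
    rcases smul_eq_zero.mp h0 with h | h
    · rcases hδ with rfl | rfl <;> omega
    · exact hdir.ne_zero h
  have hin : Inner n x := by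
    refine inner_of_upper hT hS (e' := δ • σ.1) (z := y) (x' := x + σ.1) hδ0
      (hT.insq (hS.sub hu) hx) (hT.insq (hS.sub hu) hyu) (lt_iff_ab.mpr hy) ?_ ?_ ?_
    · rw [crs_smul_l, crs_smul_l, crs_add_self]
    · exact nb_side hT hS hu (ne_add_of_dir hdir x) hx hx'
    · intro v hv hxv ⟨z, hz, hz'⟩
      exact (h1 v hv hxv ⟨z, hz, lt_iff_ab.mp hz'⟩).1
  have hco : IsCoprime (-σ.1).1 (-σ.1).2 := by simpa using hdir.1.neg_neg
  rcases straddle hT hin hco with hE | ⟨a, b, hab, ha, hb⟩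
  · right; left
    have hE' : IsEdge T (x - σ.1) x := by
      rw [sub_eq_add_neg]; exact hE.symm
    have e0 : x - σ.1 + σ.1 = x := by abel
    rcases hδ with rfl | rfl
    · obtain ⟨r, hr⟩ := hE'.symm.right_of_inner hT hin
      have er : crs σ.1 r - crs σ.1 (x - σ.1) = 1 := by
        rw [← det_dir, e0]; exact hr.2
      rw [crs_sub_self] at er
      obtain ⟨g1, g2⟩ := h1 _ hr.1 (by simp) ⟨r, by simp, by linarith⟩
      refine ⟨_, g1, g2, by simp, by rw [e0]; simp, r, by simp, ?_⟩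
      rw [crs_sub_self]; linarith
    · obtain ⟨r, hr⟩ := hE'.symm.left_of_inner hT hin
      have er : crs σ.1 r - crs σ.1 (x - σ.1) = -1 := by
        rw [← det_dir, e0, det_swap, hr.2]
      rw [crs_sub_self] at er
      obtain ⟨g1, g2⟩ := h1 _ hr.1 (by simp) ⟨r, by simp, by linarith⟩
      refine ⟨_, g1, g2, by simp, by rw [e0]; simp, r, by simp, ?_⟩
      rw [crs_sub_self]; linarith
  · rw [crs_neg_l, crs_neg_l] at ha hb
    have hV : ({x, a, b} : Finset Pt) ∈ V ∧ S {x, a, b} = σ := by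
      rcases hδ with rfl | rfl
      · exact h1 _ hab.1 (by simp) ⟨a, by simp, by linarith⟩
      · exact h1 _ hab.1 (by simp) ⟨b, by simp, by linarith⟩
    rcases mid_or hT hS hV.1 hV.2 hw (x := x) (by simp) ⟨b, by simp, by linarith⟩
      ⟨a, by simp, by linarith⟩ with h2 | h2
    · exact Or.inl h2
    · right; right
      exact ⟨h2, _, a, b, hab, rfl, by linarith, by linarith⟩

theorem walk (hT : UT n T) (hS : Str n T V S) (hw : σ.2.2 ≤ 2) {δ : ℤ}
    (hδ : δ = 1 ∨ δ = -1) {x : Pt} (h : Up V S σ δ x) (j : ℕ) :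
    (∀ i : ℕ, i ≤ j → Up V S σ δ (x - (i : ℤ) • σ.1)) ∨
      ∃ i : ℕ, i < j ∧ (Loc T V S σ (x - (i : ℤ) • σ.1) ∨ LeftX n T V S σ (x - (i : ℤ) • σ.1)) := by
  induction j with
  | zero =>
    left
    intro i hi
    have : i = 0 := by omega
    subst this
    simpa using h
  | succ j ih =>
    rcases ih with ih | ⟨i, hi, h2⟩
    · rcases walk_step hT hS hw hδ (ih j le_rfl) with h1 | h1 | h1
      · exact Or.inr ⟨j, by omega, Or.inl h1⟩
      · left
        intro i hi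
        rcases Nat.lt_or_ge i (j + 1) with h | h
        · exact ih i (by omega)
        · have : i = j + 1 := by omega
          subst this
          have e : x - ((j + 1 : ℕ) : ℤ) • σ.1 = x - (j : ℤ) • σ.1 - σ.1 := by
            push_cast
            rw [add_smul, one_smul]; abel
          rw [e]; exact h1
      · exact Or.inr ⟨j, by omega, Or.inr h1⟩
    · exact Or.inr ⟨i, by omega, h2⟩

theorem walk' (hT : UT n T) (hS : Str n T V S) (hw : σ.2.2 ≤ 2) {δ : ℤ}
    (hδ : δ = 1 ∨ δ = -1) {t : Finset Pt} (ht : t ∈ V) (hσ : S t = σ) {x : Pt}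
    (h : LineAt σ t x δ) {r : ℕ} (hns : ¬ Straight r V S t) :
      ∃ i : ℕ, i < r ∧ (Loc T V S σ (x - (i : ℤ) • σ.1) ∨ LeftX n T V S σ (x - (i : ℤ) • σ.1)) := by
  rcases walk hT hS hw hδ ⟨t, ht, hσ, h⟩ r with h1 | h1
  · exfalso
    apply hns
    refine ⟨x, h.1, by rw [hσ]; exact h.2.1, ?_⟩
    intro j hj
    obtain ⟨u, hu, hu', h2⟩ := h1 j hj
    rw [hσ]
    exact ⟨u, hu, hu', h2.1, h2.2.1⟩
  · exact h1

/-- a crossing triangle between two middle vertices: gap -/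
theorem gap_of_cross (hT : UT n T) {g : Pt} {t : Finset Pt} (h1 : IsMid n T V S σ g)
    (h2 : IsMid n T V S σ (g + σ.1)) (ht : CrossAt T σ t g 1) : Gap n T V S σ g := by
  refine ⟨h1, h2, ?_⟩
  obtain ⟨a, b, hab, -, ha, hb⟩ := ht
  have := not_edge_of_cross hT hab ha hb
  rwa [one_smul] at this

theorem gap_of_cross' (hT : UT n T) {g : Pt} {t : Finset Pt} (h1 : IsMid n T V S σ (g - σ.1))
    (h2 : IsMid n T V S σ g) (ht : CrossAt T σ t g (-1)) : Gap n T V S σ (g - σ.1) := by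
  refine ⟨h1, by rw [sub_add_cancel]; exact h2, ?_⟩
  obtain ⟨a, b, hab, -, ha, hb⟩ := ht
  have := not_edge_of_cross hT hab ha hb
  rw [sub_add_cancel]
  intro hE
  apply this
  rw [neg_smul, one_smul, ← sub_eq_add_neg]
  exact hE.symm

/-- neighbouring vertex across a crossing edge -/
theorem cross_next (hT : UT n T) (hS : Str n T V S) {δ : ℤ} (hδ : δ = 1 ∨ δ = -1) {v : Pt}
    {t : Finset Pt} (ht : t ∈ V) (hσ : S t = σ) (hw : σ.2.2 ≤ 2) (h : CrossAt T σ t v δ) :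
    Loc T V S σ v ∨ Loc T V S σ (v + δ • σ.1) ∨
      (IsMid n T V S σ v ∧ IsMid n T V S σ (v + δ • σ.1)) := by
  obtain ⟨a, b, hab, rfl, ha, hb⟩ := h
  rcases gap_gen hT hS hδ hab ht hσ hw ha hb with h1 | ⟨h1, h2, h3, h4, h5, h6, h7⟩
  · exact Or.inl h1
  have hm1 : Loc T V S σ v ∨ IsMid n T V S σ v := by
    rcases hδ with rfl | rfl
    · exact mid_or hT hS ht hσ hw (by simp) ⟨a, by simp, by linarith⟩ ⟨b, by simp, by linarith⟩
    · exact mid_or hT hS ht hσ hw (by simp) ⟨b, by simp, by linarith⟩ ⟨a, by simp, by linarith⟩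
  rcases hm1 with h | hm1
  · exact Or.inl h
  have hm2 : Loc T V S σ (v + δ • σ.1) ∨ IsMid n T V S σ (v + δ • σ.1) := by
    have hl : crs σ.1 (v + δ • σ.1) = crs σ.1 v := crs_add_smul_self _ _ _
    rcases hδ with rfl | rfl
    · exact mid_or hT hS h2 h3 hw (by simp) ⟨a, by simp, by rw [hl]; linarith⟩
        ⟨b, by simp, by rw [hl]; linarith⟩
    · exact mid_or hT hS h2 h3 hw (by simp) ⟨b, by simp, by rw [hl]; linarith⟩
        ⟨a, by simp, by rw [hl]; linarith⟩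
  rcases hm2 with h | hm2
  · exact Or.inr (Or.inl h)
  · exact Or.inr (Or.inr ⟨hm1, hm2⟩)

/-! ### uniqueness -/

theorem LineAt.unique (hT : UT n T) {t t' : Finset Pt} {x : Pt} {δ : ℤ} (hδ : δ = 1 ∨ δ = -1)
    (he : σ.1 ≠ 0)
    (ht : t ∈ T) (ht' : t' ∈ T) (h : LineAt σ t x δ) (h' : LineAt σ t' x δ) : t = t' := by
  have hne : x + σ.1 ≠ x := by
    intro h0
    exact he (by simpa using h0)
  have key : ∀ s : Finset Pt, s ∈ T → LineAt σ s x δ →
      ∃ r, s = {x, x + σ.1, r} ∧ ((δ = 1 ∧ Pos T x (x + σ.1) r) ∨ (δ = -1 ∧ Pos T (x + σ.1) x r)) := by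
    rintro s hs ⟨h1, h2, y, hy, hlt⟩
    obtain ⟨r, hr, hs'⟩ := hT.pos_of_mem hs h1 h2 hne
    refine ⟨r, hs', ?_⟩
    have hyr : y = r := by
      rw [hs'] at hy
      simp only [Finset.mem_insert, Finset.mem_singleton] at hy
      rcases hy with rfl | rfl | rfl
      · simp at hlt
      · rw [crs_add_self] at hlt; simp at hlt
      · rfl
    subst hyr
    rcases hr with hr | hr
    · left
      have : crs σ.1 y - crs σ.1 x = 1 := by rw [← det_dir]; exact hr.2
      rw [this] at hlt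
      rcases hδ with rfl | rfl
      · exact ⟨rfl, hr⟩
      · omega
    · right
      have : crs σ.1 y - crs σ.1 x = -1 := by rw [← det_dir, det_swap, hr.2]
      rw [this] at hlt
      rcases hδ with rfl | rfl
      · omega
      · exact ⟨rfl, hr⟩
  obtain ⟨r, hr, h1⟩ := key t ht h
  obtain ⟨r', hr', h1'⟩ := key t' ht' h'
  rcases h1 with ⟨rfl, h1⟩ | ⟨rfl, h1⟩
  · rcases h1' with ⟨-, h2⟩ | ⟨h2, -⟩
    · rw [hr, hr', h1.unique hT h2]
    · omega
  · rcases h1' with ⟨h2, -⟩ | ⟨-, h2⟩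
    · omega
    · rw [hr, hr', h1.unique hT h2]

/-- crossing triangle of a structured triangulation -/
def CrossAt' (T : Finset (Finset Pt)) (σ : Slab) (t : Finset Pt) (v : Pt) (δ : ℤ) : Prop :=
  ∃ a b, Pos T v a b ∧ t = {v, a, b} ∧ a + b = v + (v + δ • σ.1)

theorem CrossAt'.unique (hT : UT n T) {t t' : Finset Pt} {v : Pt} {δ : ℤ}
    (h : CrossAt' T σ t v δ) (h' : CrossAt' T σ t' v δ) : t = t' := by
  obtain ⟨a, b, hab, rfl, hs⟩ := h
  obtain ⟨a', b', hab', rfl, hs'⟩ := h'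
  have e0 : a + b = a' + b' := by rw [hs, hs']
  have e1 : a.1 + b.1 = a'.1 + b'.1 := by
    have := congrArg Prod.fst e0
    simpa [Prod.fst_add] using this
  have e2 : a.2 + b.2 = a'.2 + b'.2 := by
    have := congrArg Prod.snd e0
    simpa [Prod.snd_add] using this
  rcases hab.cyc.edge.eq_of_mid hT hab'.cyc.edge e1 e2 with ⟨rfl, rfl⟩ | ⟨rfl, rfl⟩
  · rfl
  · ext s; simp only [Finset.mem_insert, Finset.mem_singleton]; tauto

theorem CrossAt.prime (hS : Str n T V S) {t : Finset Pt} (ht : t ∈ V) (hσ : S t = σ)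
    (hw : σ.2.2 ≤ 2) {v : Pt} {δ : ℤ} (hδ : δ = 1 ∨ δ = -1) (h : CrossAt T σ t v δ) :
    CrossAt' T σ t v δ := by
  obtain ⟨a, b, hab, rfl, ha, hb⟩ := h
  have hdir : Dir σ.1 := by rw [← hσ]; exact hS.dir _ ht
  have s0 := hS.slab _ ht v (by simp)
  have s1 := hS.slab _ ht a (by simp)
  have s2 := hS.slab _ ht b (by simp)
  rw [hσ] at s0 s1 s2
  refine ⟨a, b, hab, rfl, cross_alg hdir.1 hab.2 hδ ?_ ?_⟩
  · rcases hδ with rfl | rfl <;> omega
  · rcases hδ with rfl | rfl <;> omega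

end Fa

end Pool.Agent.IT
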