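import Pool.Agent.IT.FamE

/-!
# Family of boxes
-/

set_option autoImplicit false

namespace Pool.Agent.IT

namespace Fa

open Classical

variable {n : ℕ} {T V : Finset (Finset Pt)} {S : Finset Pt → Slab} {σ : Slab}

/-! ### the finite sets -/

/-- triangles of `V` next to a triangle outside `V` -/
noncomputable def NB (T V : Finset (Finset Pt)) : Finset (Finset Pt) :=
  V.filter fun u => ∃ Δ ∈ T, Δ ∉ V ∧ ∃ y y', y ≠ y' ∧ y ∈ Δ ∧ y' ∈ Δ ∧ y ∈ u ∧ y' ∈ u

/-- located pairs -/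
noncomputable def LP (T V : Finset (Finset Pt)) (S : Finset Pt → Slab) : Finset (Slab × Pt) :=
  (NB T V).biUnion fun u => u.image fun z => (S u, z)

theorem mem_LP {z : Pt} : (σ, z) ∈ LP T V S ↔ Loc T V S σ z := by
  unfold LP NB Loc
  simp only [Finset.mem_biUnion, Finset.mem_filter, Finset.mem_image, Prod.mk.injEq]
  constructor
  · rintro ⟨u, ⟨hu, h⟩, z', hz', h1, rfl⟩
    exact ⟨u, hu, h1, hz', h⟩
  · rintro ⟨u, hu, h1, hz, h⟩
    exact ⟨u, ⟨hu, h⟩, z, hz, h1, rfl⟩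

/-- flags of the triangles outside `V` -/
noncomputable def FL (T V : Finset (Finset Pt)) : Finset (Finset Pt × Pt × Pt) :=
  (T \ V).biUnion fun Δ => (Δ ×ˢ Δ).image fun p => (Δ, p.1, p.2)

theorem card_FL (hT : UT n T) : (FL T V).card ≤ 9 * (T \ V).card := by
  unfold FL
  rw [mul_comm]
  refine Finset.card_biUnion_le_card_mul _ _ 9 fun Δ hΔ => ?_
  refine Finset.card_image_le.trans ?_
  rw [Finset.card_product, hT.card_three (Finset.mem_sdiff.mp hΔ).1]

theorem card_NB (hT : UT n T) (hS : Str n T V S) : (NB T V).card ≤ 9 * (T \ V).card := by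
  refine le_trans ?_ (card_FL hT)
  refine Finset.card_le_card_of_forall_subsingleton
    (fun u f => f.2.1 ≠ f.2.2 ∧ f.2.1 ∈ u ∧ f.2.2 ∈ u) ?_ ?_
  · intro u hu
    obtain ⟨hu, Δ, hΔ, hΔV, y, y', hne, h1, h2, h3, h4⟩ := Finset.mem_filter.mp hu
    refine ⟨(Δ, y, y'), ?_, hne, h3, h4⟩
    unfold FL
    rw [Finset.mem_biUnion]
    refine ⟨Δ, Finset.mem_sdiff.mpr ⟨hΔ, hΔV⟩, ?_⟩
    rw [Finset.mem_image]
    exact ⟨(y, y'), Finset.mem_product.mpr ⟨h1, h2⟩, rfl⟩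
  · rintro ⟨Δ, y, y'⟩ hf u ⟨hu, hne, h3, h4⟩ u' ⟨hu', -, h3', h4'⟩
    unfold FL at hf
    rw [Finset.mem_biUnion] at hf
    obtain ⟨Δ', hΔ', hf⟩ := hf
    rw [Finset.mem_image] at hf
    obtain ⟨⟨z, z'⟩, hz, hf⟩ := hf
    rw [Finset.mem_product] at hz
    simp only [Prod.mk.injEq] at hf
    obtain ⟨rfl, rfl, rfl⟩ := hf
    obtain ⟨hΔT, hΔV⟩ := Finset.mem_sdiff.mp hΔ'
    have huV := (Finset.mem_filter.mp hu).1
    have huV' := (Finset.mem_filter.mp hu').1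
    exact hT.two hne (hS.sub huV) (hS.sub huV') hΔT h3 h4 h3' h4' hz.1 hz.2
      (fun h => hΔV (h ▸ huV)) (fun h => hΔV (h ▸ huV'))

theorem card_LP (hT : UT n T) (hS : Str n T V S) : (LP T V S).card ≤ 27 * (T \ V).card := by
  have h1 : (LP T V S).card ≤ (NB T V).card * 3 := by
    unfold LP
    refine Finset.card_biUnion_le_card_mul _ _ 3 fun u hu => ?_
    refine Finset.card_image_le.trans ?_
    rw [hT.card_three (hS.sub (Finset.mem_filter.mp hu).1)]
  have h2 := card_NB hT hS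
  omega

/-- pairs (slab, vertex) -/
noncomputable def PP (T : Finset (Finset Pt)) (S : Finset Pt → Slab) : Finset (Slab × Pt) :=
  (T.image S) ×ˢ (T.biUnion id)

theorem IsMid.mem_PP (hT : UT n T) {x : Pt} (h : IsMid n T V S σ x) : (σ, x) ∈ PP T S := by
  obtain ⟨q, r, hp⟩ := hT.exists_pos_at h.sq
  obtain ⟨-, h2⟩ := h.star _ hp.1 (by simp)
  unfold PP
  rw [Finset.mem_product, Finset.mem_image, Finset.mem_biUnion]
  exact ⟨⟨_, hp.1, h2⟩, ⟨_, hp.1, by simp⟩⟩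

noncomputable def RE (n : ℕ) (T V : Finset (Finset Pt)) (S : Finset Pt → Slab) :
    Finset (Slab × Pt) := (PP T S).filter fun p => REnd n T V S p.1 p.2

noncomputable def LG (n : ℕ) (T V : Finset (Finset Pt)) (S : Finset Pt → Slab) :
    Finset (Slab × Pt) := (PP T S).filter fun p => LGap n T V S p.1 p.2

noncomputable def FG (n : ℕ) (T V : Finset (Finset Pt)) (S : Finset Pt → Slab) :
    Finset (Slab × Pt) := (PP T S).filter fun p => FGap n T V S p.1 p.2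

theorem mem_RE (hT : UT n T) {x : Pt} : (σ, x) ∈ RE n T V S ↔ REnd n T V S σ x := by
  unfold RE
  rw [Finset.mem_filter]
  exact ⟨fun h => h.2, fun h => ⟨h.1.mem_PP hT, h⟩⟩

theorem mem_LG (hT : UT n T) {x : Pt} : (σ, x) ∈ LG n T V S ↔ LGap n T V S σ x := by
  unfold LG
  rw [Finset.mem_filter]
  exact ⟨fun h => h.2, fun h => ⟨h.1.1.mem_PP hT, h⟩⟩

theorem mem_FG (hT : UT n T) {x : Pt} : (σ, x) ∈ FG n T V S ↔ FGap n T V S σ x := by
  unfold FG
  rw [Finset.mem_filter]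
  exact ⟨fun h => h.2, fun h => ⟨h.1.1.mem_PP hT, h⟩⟩

theorem card_RE (hT : UT n T) (hS : Str n T V S) : (RE n T V S).card ≤ 2 * (LP T V S).card := by
  have hsub : RE n T V S ⊆ LP T V S ∪ (LP T V S).image fun p => (p.1, p.2 - p.1.1) := by
    rintro ⟨σ, x⟩ h
    rw [mem_RE hT] at h
    rw [Finset.mem_union]
    rcases rend_loc hT hS h with h1 | h1
    · exact Or.inl (mem_LP.mpr h1)
    · right
      rw [Finset.mem_image]
      exact ⟨(σ, x + σ.1), mem_LP.mpr h1, by simp⟩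
  have h1 := Finset.card_le_card hsub
  have h2 := Finset.card_union_le (LP T V S) ((LP T V S).image fun p => (p.1, p.2 - p.1.1))
  have h3 := Finset.card_image_le (s := LP T V S) (f := fun p => (p.1, p.2 - p.1.1))
  omega

theorem run_order {g g' : Pt} {k k' : ℕ} (hr' : Run n T V S σ g' k')
    (h : g + (k : ℤ) • σ.1 = g' + (k' : ℤ) • σ.1) (hlt : k < k') :
    g' + σ.1 + ((k' - k - 1 : ℕ) : ℤ) • σ.1 = g ∧ Run n T V S σ (g' + σ.1) (k' - k - 1) := by
  constructor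
  · have e1 : ((k' : ℕ) : ℤ) = (k : ℤ) + 1 + ((k' - k - 1 : ℕ) : ℤ) := by omega
    rw [e1, add_smul, add_smul, one_smul] at h
    have : g + (k : ℤ) • σ.1 = g' + σ.1 + ((k' - k - 1 : ℕ) : ℤ) • σ.1 + (k : ℤ) • σ.1 := by
      rw [h]; abel
    exact (add_right_cancel this).symm
  · have := hr'.shift (j := 1) (l := k' - k - 1) (by omega)
    simpa using this

theorem card_LG (hT : UT n T) (hS : Str n T V S) : (LG n T V S).card ≤ (RE n T V S).card := by
  refine Finset.card_le_card_of_forall_subsingleton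
    (fun a b => b.1 = a.1 ∧ ∃ k : ℕ, Run n T V S a.1 a.2 k ∧ a.2 + (k : ℤ) • a.1.1 = b.2) ?_ ?_
  · rintro ⟨σ, g⟩ h
    rw [mem_LG hT] at h
    obtain ⟨k, h1, h2⟩ := exists_rend hT hS h.1.1
    exact ⟨(σ, g + (k : ℤ) • σ.1), (mem_RE hT).mpr h2, rfl, k, h1, rfl⟩
  · rintro ⟨τ, x⟩ - ⟨σ, g⟩ ⟨hg, h1, k, h2, h3⟩ ⟨σ', g'⟩ ⟨hg', h1', k', h2', h3'⟩
    simp only at h1 h1' h2 h2' h3 h3'
    subst h1
    subst h1'
    rw [mem_LG hT] at hg hg'
    rcases lt_trichotomy k k' with hlt | rfl | hlt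
    · exfalso
      obtain ⟨e1, e2⟩ := run_order h2' (h3.trans h3'.symm) hlt
      exact hg'.2 _ e2 (by rw [e1]; exact hg.1)
    · have := h3.trans h3'.symm
      rw [add_right_cancel this]
    · exfalso
      obtain ⟨e1, e2⟩ := run_order h2 (h3'.trans h3.symm) hlt
      exact hg.2 _ e2 (by rw [e1]; exact hg'.1)

theorem card_FG (hT : UT n T) (hS : Str n T V S) : (FG n T V S).card ≤ (RE n T V S).card := by
  refine Finset.card_le_card_of_forall_subsingleton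
    (fun a b => b.1 = a.1 ∧ ∃ k : ℕ, Run n T V S a.1 a.2 k ∧ a.2 + (k : ℤ) • a.1.1 = b.2) ?_ ?_
  · rintro ⟨σ, g⟩ h
    rw [mem_FG hT] at h
    obtain ⟨k, h1, h2⟩ := exists_rend hT hS h.1.1
    exact ⟨(σ, g + (k : ℤ) • σ.1), (mem_RE hT).mpr h2, rfl, k, h1, rfl⟩
  · rintro ⟨τ, x⟩ - ⟨σ, g⟩ ⟨hg, h1, k, h2, h3⟩ ⟨σ', g'⟩ ⟨hg', h1', k', h2', h3'⟩
    simp only at h1 h1' h2 h2' h3 h3'
    subst h1
    subst h1'
    rw [mem_FG hT] at hg hg'
    rcases lt_trichotomy k k' with hlt | rfl | hlt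
    · exfalso
      obtain ⟨e1, e2⟩ := run_order h2' (h3.trans h3'.symm) hlt
      exact hg.2 _ _ e1 e2 hg'.1
    · have := h3.trans h3'.symm
      rw [add_right_cancel this]
    · exfalso
      obtain ⟨e1, e2⟩ := run_order h2 (h3'.trans h3.symm) hlt
      exact hg'.2 _ _ e1 e2 hg.1

/-! ### the family -/

/-- first gaps of runs with at least two gaps -/
noncomputable def IX (n : ℕ) (T V : Finset (Finset Pt)) (S : Finset Pt → Slab) :
    Finset (Slab × Pt) := (PP T S).filter fun p => FGap n T V S p.1 p.2 ∧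
      ∃ k : ℕ, Run n T V S p.1 (p.2 + p.1.1) k ∧ LGap n T V S p.1 (p.2 + p.1.1 + (k : ℤ) • p.1.1)

theorem mem_IX (hT : UT n T) {g : Pt} : (σ, g) ∈ IX n T V S ↔ FGap n T V S σ g ∧
    ∃ k : ℕ, Run n T V S σ (g + σ.1) k ∧ LGap n T V S σ (g + σ.1 + (k : ℤ) • σ.1) := by
  unfold IX
  rw [Finset.mem_filter]
  exact ⟨fun h => h.2, fun h => ⟨h.1.1.1.mem_PP hT, h⟩⟩

theorem card_IX (hT : UT n T) (hS : Str n T V S) : (IX n T V S).card ≤ (RE n T V S).card := by
  refine le_trans (Finset.card_le_card ?_) (card_FG hT hS)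
  rintro ⟨σ, g⟩ h
  rw [mem_FG hT]
  exact ((mem_IX hT).mp h).1

theorem lgap_unique {u : Pt} {k k' : ℕ} (h1 : Run n T V S σ u k)
    (h2 : LGap n T V S σ (u + (k : ℤ) • σ.1)) (h1' : Run n T V S σ u k')
    (h2' : LGap n T V S σ (u + (k' : ℤ) • σ.1)) : k = k' := by
  have key : ∀ {k k' : ℕ}, LGap n T V S σ (u + (k : ℤ) • σ.1) → Run n T V S σ u k' →
      LGap n T V S σ (u + (k' : ℤ) • σ.1) → ¬ k < k' := by
    intro k k' h2 h1' h2' hlt
    have e : u + (k : ℤ) • σ.1 + σ.1 + ((k' - k - 1 : ℕ) : ℤ) • σ.1 = u + (k' : ℤ) • σ.1 := by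
      have e1 : ((k' : ℕ) : ℤ) = (k : ℤ) + 1 + ((k' - k - 1 : ℕ) : ℤ) := by omega
      rw [e1, add_smul, add_smul, one_smul]; abel
    apply h2.2 (k' - k - 1)
    · have := h1'.shift (j := k + 1) (l := k' - k - 1) (by omega)
      have e2 : u + ((k + 1 : ℕ) : ℤ) • σ.1 = u + (k : ℤ) • σ.1 + σ.1 := by
        push_cast
        rw [add_smul, one_smul]; abel
      rw [e2] at this
      exact this
    · rw [e]; exact h2'.1
  have a1 := key h2 h1' h2'
  have a2 := key h2' h1 h2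
  omega

/-- the property defining the box of a first gap -/
def BP (n : ℕ) (T V : Finset (Finset Pt)) (S : Finset Pt → Slab) (p : Slab × Pt) (D : BoxD) :
    Prop :=
  D.e = p.1.1 ∧ crs D.e D.a = p.1.2.1 ∧ (∀ i : ℕ, D.mid i = p.2 + p.1.1 + (i : ℤ) • p.1.1) ∧
    IsBox n T D ∧ Run n T V S p.1 (p.2 + p.1.1) (D.h - 1) ∧
    ∀ k : ℕ, Run n T V S p.1 (p.2 + p.1.1) k →
      LGap n T V S p.1 (p.2 + p.1.1 + (k : ℤ) • p.1.1) → D.h = k + 1

theorem exists_BP (hT : UT n T) (hS : Str n T V S) {p : Slab × Pt} (hp : p ∈ IX n T V S) :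
    ∃ D, BP n T V S p D := by
  obtain ⟨σ, g⟩ := p
  obtain ⟨h1, k, h2, h3⟩ := (mem_IX hT).mp hp
  obtain ⟨D, e1, e2, e3, e4, e5⟩ := box_exists hT hS h1.1 h2 h3.1
  refine ⟨D, e1, e2, e4, e5, ?_, ?_⟩
  · rw [e3]; exact h2
  · intro k' h2' h3'
    rw [e3, lgap_unique h2 h3 h2' h3']

noncomputable def bx (n : ℕ) (T V : Finset (Finset Pt)) (S : Finset Pt → Slab) (p : Slab × Pt) :
    BoxD := if h : ∃ D, BP n T V S p D then Classical.choose h else ⟨0, 0, 0, 0, 0⟩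

theorem bx_spec (hT : UT n T) (hS : Str n T V S) {p : Slab × Pt} (hp : p ∈ IX n T V S) :
    BP n T V S p (bx n T V S p) := by
  have h := exists_BP hT hS hp
  unfold bx
  rw [dif_pos h]
  exact Classical.choose_spec h

theorem bt_mid {p : Slab × Pt} {D : BoxD} (hD : BP n T V S p D) {t : Finset Pt}
    (ht : t ∈ D.BT T) : t ∈ T ∧ ∃ i : ℕ, i ≤ D.h - 1 ∧ p.2 + p.1.1 + (i : ℤ) • p.1.1 ∈ t ∧
      t ∈ V ∧ S t = p.1 := by
  unfold BoxD.BT at ht
  rw [Finset.mem_filter] at ht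
  obtain ⟨h1, i, hi, hm⟩ := ht
  rw [Finset.mem_range] at hi
  rw [hD.2.2.1] at hm
  have := (hD.2.2.2.2.1 i (by omega)).star t h1 hm
  exact ⟨h1, i, by omega, hm, this⟩

/-- two middle vertices of one triangle are equal or neighbours on the line -/
theorem mids_close (hT : UT n T) {t : Finset Pt} (ht : t ∈ T) {x y : Pt} {e : Pt}
    (he : IsCoprime e.1 e.2) (hx : x ∈ t) (hy : y ∈ t) (hl : crs e x = crs e y) :
    ∃ m : ℤ, y = x + m • e ∧ -1 ≤ m ∧ m ≤ 1 := by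
  by_cases hxy : y = x
  · exact ⟨0, by simpa using hxy, by norm_num, by norm_num⟩
  obtain ⟨r, hr, -⟩ := hT.pos_of_mem ht hx hy hxy
  rcases hr with hr | hr
  · rcases line_of_level he hr.2 hl with ⟨h, -⟩ | ⟨h, -⟩
    · exact ⟨1, by rw [one_smul]; exact h, by norm_num, le_refl _⟩
    · refine ⟨-1, ?_, le_refl _, by norm_num⟩
      rw [h, neg_smul, one_smul]; abel
  · rcases line_of_level he hr.2 hl.symm with ⟨h, -⟩ | ⟨h, -⟩
    · refine ⟨-1, ?_, le_refl _, by norm_num⟩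
      rw [h, neg_smul, one_smul]; abel
    · exact ⟨1, by rw [one_smul]; exact h, by norm_num, le_refl _⟩

theorem same_run {g g' : Pt} {i j : ℕ} {m : ℤ}
    (h1 : FGap n T V S σ g) (h1' : FGap n T V S σ g')
    (hr : Run n T V S σ (g + σ.1) i) (hr' : Run n T V S σ (g' + σ.1) j)
    (h : g' + σ.1 + (j : ℤ) • σ.1 = g + σ.1 + (i : ℤ) • σ.1 + m • σ.1) (hm1 : -1 ≤ m)
    (hm2 : m ≤ 1) : g = g' := by
  have e0 : g' = g + ((i : ℤ) + m - j) • σ.1 := by
    have : g' + σ.1 + (j : ℤ) • σ.1 = g + ((i : ℤ) + m - j) • σ.1 + σ.1 + (j : ℤ) • σ.1 := by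
      rw [h, sub_smul, add_smul]; abel
    exact add_right_cancel (add_right_cancel this)
  rcases lt_trichotomy ((i : ℤ) + m - j) 0 with hlt | h0 | hlt
  · exfalso
    obtain ⟨d, hd'⟩ := Int.eq_ofNat_of_zero_le (show 0 ≤ -((i : ℤ) + m - j) - 1 by omega)
    apply h1.2 d g' ?_ (hr'.mono (by omega)) h1'.1
    rw [e0]
    have e1 : (i : ℤ) + m - j = -((d : ℤ) + 1) := by omega
    rw [e1, neg_smul, add_smul, one_smul]; abel
  · rw [e0, h0, zero_smul, add_zero]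
  · exfalso
    obtain ⟨d, hd'⟩ := Int.eq_ofNat_of_zero_le (show 0 ≤ ((i : ℤ) + m - j) - 1 by omega)
    apply h1'.2 d g ?_ (hr.mono (by omega)) h1.1
    rw [e0]
    have e1 : (i : ℤ) + m - j = (d : ℤ) + 1 := by omega
    rw [e1, add_smul, one_smul]; abel

theorem bt_disj (hT : UT n T) (hS : Str n T V S) {p q : Slab × Pt} (hp : p ∈ IX n T V S)
    (hq : q ∈ IX n T V S) {t : Finset Pt} (h1 : t ∈ (bx n T V S p).BT T)
    (h2 : t ∈ (bx n T V S q).BT T) : p = q := by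
  obtain ⟨σ, g⟩ := p
  obtain ⟨τ, g'⟩ := q
  have bp := bx_spec hT hS hp
  have bq := bx_spec hT hS hq
  obtain ⟨htT, i, hi, hmi, htV, hs⟩ := bt_mid bp h1
  obtain ⟨-, j, hj, hmj, -, hs'⟩ := bt_mid bq h2
  simp only at hmi hs hmj hs'
  have hστ : τ = σ := by rw [← hs, ← hs']
  subst hστ
  have hdir : Dir τ.1 := by rw [← hs]; exact hS.dir t htV
  have hri := bp.2.2.2.2.1
  have hrj := bq.2.2.2.2.1
  simp only at hri hrj
  have li := (hri i hi).lev
  have lj := (hrj j hj).lev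
  obtain ⟨m, hm, hm1, hm2⟩ := mids_close hT htT hdir.1 hmi hmj (by rw [li, lj])
  have := same_run ((mem_IX hT).mp hp).1 ((mem_IX hT).mp hq).1 (hri.mono hi)
    (hrj.mono hj) hm hm1 hm2
  rw [this]

theorem bt_cover (hT : UT n T) (hS : Str n T V S) {t : Finset Pt} (ht : t ∈ T) {v g : Pt}
    (hv : v ∈ t) {k m : ℕ} (hgv : g + σ.1 + (k : ℤ) • σ.1 = v) (hr : Run n T V S σ (g + σ.1) k)
    (hg : Gap n T V S σ g) (hr' : Run n T V S σ v m)
    (hg' : Gap n T V S σ (v + (m : ℤ) • σ.1)) :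
    ∃ p ∈ IX n T V S, t ∈ (bx n T V S p).BT T := by
  obtain ⟨l, g0, h1, h2, h3⟩ := exists_fgap hT hS hgv hr hg
  obtain ⟨m', -, h5, h6⟩ := exists_lgap hT hS hr' hg'
  have hjoin : Run n T V S σ (g0 + σ.1) (l + m') := by
    apply h2.join
    rw [h1]; exact h5
  have hend : LGap n T V S σ (g0 + σ.1 + ((l + m' : ℕ) : ℤ) • σ.1) := by
    have : g0 + σ.1 + ((l + m' : ℕ) : ℤ) • σ.1 = v + (m' : ℤ) • σ.1 := by
      rw [← h1]; push_cast; rw [add_smul]; abel
    rw [this]; exact h6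
  have hp : (σ, g0) ∈ IX n T V S := (mem_IX hT).mpr ⟨h3, l + m', hjoin, hend⟩
  refine ⟨(σ, g0), hp, ?_⟩
  have hb := bx_spec hT hS hp
  unfold BoxD.BT
  rw [Finset.mem_filter]
  refine ⟨ht, l, ?_, ?_⟩
  · rw [Finset.mem_range, hb.2.2.2.2.2 (l + m') hjoin hend]
    omega
  · rw [hb.2.2.1]
    simp only
    rw [h1]; exact hv

/-- the family -/
noncomputable def FF (n : ℕ) (T V : Finset (Finset Pt)) (S : Finset Pt → Slab) : Finset BoxD :=
  (IX n T V S).image (bx n T V S)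

theorem fam_FF (hT : UT n T) (hS : Str n T V S) : Fam n T (FF n T V S) := by
  refine ⟨?_, ?_⟩
  · intro D hD
    unfold FF at hD
    rw [Finset.mem_image] at hD
    obtain ⟨p, hp, rfl⟩ := hD
    exact (bx_spec hT hS hp).2.2.2.1
  · intro D hD D' hD' hne
    unfold FF at hD hD'
    rw [Finset.mem_image] at hD hD'
    obtain ⟨p, hp, rfl⟩ := hD
    obtain ⟨q, hq, rfl⟩ := hD'
    rw [Finset.disjoint_left]
    intro t h1 h2
    exact hne (by rw [bt_disj hT hS hp hq h1 h2])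

theorem FF_slab (hT : UT n T) (hS : Str n T V S) {D : BoxD} (hD : D ∈ FF n T V S)
    {t : Finset Pt} (ht : t ∈ D.BT T) : t ∈ V ∧ S t = (D.e, crs D.e D.a, 2) := by
  unfold FF at hD
  rw [Finset.mem_image] at hD
  obtain ⟨p, hp, rfl⟩ := hD
  have hb := bx_spec hT hS hp
  obtain ⟨-, i, hi, -, htV, hs⟩ := bt_mid hb ht
  refine ⟨htV, ?_⟩
  rw [hs, hb.2.1, hb.1]
  have := (hb.2.2.2.2.1 i hi).w
  ext
  · rfl
  · rfl
  · rfl
  · exact this

theorem card_FF (hT : UT n T) (hS : Str n T V S) :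
    (FF n T V S).card ≤ 54 * (T \ V).card := by
  have h1 : (FF n T V S).card ≤ (IX n T V S).card := Finset.card_image_le
  have h2 := card_IX hT hS
  have h3 := card_RE hT hS
  have h4 := card_LP hT hS
  omega

/-! ### locating the remaining triangles -/

noncomputable def ZZ (n : ℕ) (T V : Finset (Finset Pt)) (S : Finset Pt → Slab) :
    Finset (Slab × Pt) := LP T V S ∪ RE n T V S ∪ LG n T V S ∪ FG n T V S

theorem card_ZZ (hT : UT n T) (hS : Str n T V S) : (ZZ n T V S).card ≤ 189 * (T \ V).card := by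
  have h0 : (ZZ n T V S).card ≤ (LP T V S).card + (RE n T V S).card + (LG n T V S).card +
      (FG n T V S).card := by
    unfold ZZ
    refine (Finset.card_union_le _ _).trans ?_
    gcongr
    refine (Finset.card_union_le _ _).trans ?_
    gcongr
    exact Finset.card_union_le _ _
  have h1 := card_RE hT hS
  have h2 := card_LG hT hS
  have h3 := card_FG hT hS
  have h4 := card_LP hT hS
  omega

theorem Loc.mem_ZZ {z : Pt} (h : Loc T V S σ z) : (σ, z) ∈ ZZ n T V S := by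
  unfold ZZ
  simp only [Finset.mem_union]
  exact Or.inl (Or.inl (Or.inl (mem_LP.mpr h)))

theorem REnd.mem_ZZ (hT : UT n T) {z : Pt} (h : REnd n T V S σ z) : (σ, z) ∈ ZZ n T V S := by
  unfold ZZ
  simp only [Finset.mem_union]
  exact Or.inl (Or.inl (Or.inr ((mem_RE hT).mpr h)))

theorem LGap.mem_ZZ (hT : UT n T) {z : Pt} (h : LGap n T V S σ z) : (σ, z) ∈ ZZ n T V S := by
  unfold ZZ
  simp only [Finset.mem_union]
  exact Or.inl (Or.inr ((mem_LG hT).mpr h))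

theorem FGap.mem_ZZ (hT : UT n T) {z : Pt} (h : FGap n T V S σ z) : (σ, z) ∈ ZZ n T V S := by
  unfold ZZ
  simp only [Finset.mem_union]
  exact Or.inr ((mem_FG hT).mpr h)

theorem locate_cross (hT : UT n T) (hS : Str n T V S) {δ : ℤ} (hδ : δ = 1 ∨ δ = -1) {v : Pt}
    {t : Finset Pt} (ht : t ∈ V) (hσ : S t = σ) (hw : σ.2.2 ≤ 2) (h : CrossAt T σ t v δ)
    (hF : ∀ p ∈ IX n T V S, t ∉ (bx n T V S p).BT T) :
    ∃ (z : Pt) (j : ℤ), (σ, z) ∈ ZZ n T V S ∧ -1 ≤ j ∧ j ≤ 1 ∧ v = z + j • σ.1 := by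
  have hvt : v ∈ t := by
    obtain ⟨a, b, -, rfl, -⟩ := h
    simp
  rcases cross_next hT hS hδ ht hσ hw h with h1 | h1 | ⟨h1, h2⟩
  · exact ⟨v, 0, h1.mem_ZZ, by norm_num, by norm_num, by simp⟩
  · refine ⟨v + δ • σ.1, -δ, h1.mem_ZZ, by rcases hδ with rfl | rfl <;> norm_num,
      by rcases hδ with rfl | rfl <;> norm_num, ?_⟩
    rw [neg_smul]; abel
  · rcases hδ with rfl | rfl
    · rw [one_smul] at h2
      have hgap := gap_of_cross hT h1 h2 h
      by_cases hf : FGap n T V S σ v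
      · exact ⟨v, 0, hf.mem_ZZ hT, by norm_num, by norm_num, by simp⟩
      · exfalso
        have : ∃ (k : ℕ) (g' : Pt), g' + σ.1 + (k : ℤ) • σ.1 = v ∧
            Run n T V S σ (g' + σ.1) k ∧ Gap n T V S σ g' := by
          by_contra hc
          apply hf
          refine ⟨hgap, fun k g' e1 e2 e3 => hc ⟨k, g', e1, e2, e3⟩⟩
        obtain ⟨k, g', e1, e2, e3⟩ := this
        obtain ⟨p, hp, hpt⟩ := bt_cover hT hS (hS.sub ht) hvt e1 e2 e3
          (Run.zero_iff.mpr h1) (m := 0) (by simpa using hgap)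
        exact hF p hp hpt
    · have e0 : v + (-1 : ℤ) • σ.1 = v - σ.1 := by rw [neg_smul, one_smul, ← sub_eq_add_neg]
      rw [e0] at h2
      have hgap := gap_of_cross' hT h2 h1 h
      by_cases hf : LGap n T V S σ (v - σ.1)
      · exact ⟨v - σ.1, 1, hf.mem_ZZ hT, by norm_num, by norm_num, by rw [one_smul]; abel⟩
      · exfalso
        have : ∃ k : ℕ, Run n T V S σ (v - σ.1 + σ.1) k ∧
            Gap n T V S σ (v - σ.1 + σ.1 + (k : ℤ) • σ.1) := by
          by_contra hc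
          apply hf
          refine ⟨hgap, fun k e1 e2 => hc ⟨k, e1, e2⟩⟩
        obtain ⟨k, e1, e2⟩ := this
        rw [sub_add_cancel] at e1 e2
        obtain ⟨p, hp, hpt⟩ := bt_cover hT hS (hS.sub ht) hvt (g := v - σ.1) (k := 0)
          (by simp) (Run.zero_iff.mpr (by rw [sub_add_cancel]; exact h1)) hgap e1 e2
        exact hF p hp hpt

theorem locate_line (hT : UT n T) (hS : Str n T V S) {δ : ℤ} (hδ : δ = 1 ∨ δ = -1) {x : Pt}
    {t : Finset Pt} (ht : t ∈ V) (hσ : S t = σ) (hw : σ.2.2 ≤ 2) (h : LineAt σ t x δ) {r : ℕ}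
    (hns : ¬ Straight r V S t)
    (hF : ∀ p ∈ IX n T V S, t ∉ (bx n T V S p).BT T) :
    ∃ (z : Pt) (j : ℤ), (σ, z) ∈ ZZ n T V S ∧ -1 ≤ j ∧ j ≤ r + 1 ∧ x = z + j • σ.1 := by
  obtain ⟨i, hir, h1 | ⟨hm, u, hu⟩⟩ := walk' hT hS hw hδ ht hσ h hns
  · exact ⟨_, i, h1.mem_ZZ, by omega, by omega, by abel⟩
  have huT : u ∈ T := by
    obtain ⟨a, b, hab, rfl, -⟩ := hu
    exact hab.1
  have hyu : x - (i : ℤ) • σ.1 ∈ u := by
    obtain ⟨a, b, hab, rfl, -⟩ := hu
    simp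
  obtain ⟨huV, huσ⟩ := hm.star u huT hyu
  rcases cross_next hT hS (Or.inr rfl) huV huσ hw hu with h1 | h1 | ⟨-, h2⟩
  · exact ⟨_, i, h1.mem_ZZ, by omega, by omega, by abel⟩
  · refine ⟨_, i + 1, h1.mem_ZZ, by omega, by omega, ?_⟩
    rw [neg_smul, one_smul, add_smul, one_smul]; abel
  have e0 : x - (i : ℤ) • σ.1 + (-1 : ℤ) • σ.1 = x - (i : ℤ) • σ.1 - σ.1 := by
    rw [neg_smul, one_smul, ← sub_eq_add_neg]
  rw [e0] at h2
  have hgap := gap_of_cross' hT h2 hm hu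
  -- all points up to x are middle vertices, or there is a right end
  by_cases hall : ∀ k : ℕ, k ≤ i → IsMid n T V S σ (x - (k : ℤ) • σ.1)
  · have hmx : IsMid n T V S σ x := by
      have := hall 0 (Nat.zero_le _)
      simpa using this
    have hrun : ∀ k : ℕ, k ≤ i → Run n T V S σ (x - (k : ℤ) • σ.1) k := by
      intro k hk l hl
      have := hall (k - l) (by omega)
      have e : x - (k : ℤ) • σ.1 + (l : ℤ) • σ.1 = x - ((k - l : ℕ) : ℤ) • σ.1 := by
        have e1 : ((k : ℕ) : ℤ) = ((k - l : ℕ) : ℤ) + l := by omega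
        rw [e1, add_smul]; abel
      rw [e]; exact this
    by_cases hright : ∃ m : ℕ, Run n T V S σ x m ∧ Gap n T V S σ (x + (m : ℤ) • σ.1)
    · exfalso
      obtain ⟨m, e1, e2⟩ := hright
      obtain ⟨p, hp, hpt⟩ := bt_cover hT hS (hS.sub ht) h.1
        (g := x - (i : ℤ) • σ.1 - σ.1) (k := i) (by abel)
        (by rw [sub_add_cancel]; exact hrun i le_rfl) hgap e1 e2
      exact hF p hp hpt
    · have hex : ∃ k : ℕ, k ≤ i ∧ Gap n T V S σ (x - (k : ℤ) • σ.1 - σ.1) := ⟨i, le_rfl, hgap⟩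
      obtain ⟨hki, hkg⟩ := Nat.find_spec hex
      set k := Nat.find hex with hk
      have hlast : LGap n T V S σ (x - (k : ℤ) • σ.1 - σ.1) := by
        refine ⟨hkg, ?_⟩
        intro m hm hg
        rw [sub_add_cancel] at hm hg
        rcases Nat.lt_or_ge m k with hmk | hmk
        · have := Nat.find_min hex (m := k - m - 1) (by omega)
          apply this
          refine ⟨by omega, ?_⟩
          have e : x - ((k - m - 1 : ℕ) : ℤ) • σ.1 - σ.1 = x - (k : ℤ) • σ.1 + (m : ℤ) • σ.1 := by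
            have e1 : ((k : ℕ) : ℤ) = ((k - m - 1 : ℕ) : ℤ) + 1 + m := by omega
            rw [e1, add_smul, add_smul, one_smul]; abel
          rw [e]; exact hg
        · apply hright
          refine ⟨m - k, ?_, ?_⟩
          · have := hm.shift (j := k) (l := m - k) (by omega)
            rwa [sub_add_cancel] at this
          · have e : x + ((m - k : ℕ) : ℤ) • σ.1 = x - (k : ℤ) • σ.1 + (m : ℤ) • σ.1 := by
              have e1 : ((m : ℕ) : ℤ) = ((m - k : ℕ) : ℤ) + k := by omega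
              rw [e1, add_smul]; abel
            rw [e]; exact hg
      refine ⟨_, k + 1, hlast.mem_ZZ hT, by omega, by omega, ?_⟩
      rw [add_smul, one_smul]; abel
  · push Not at hall
    have hex : ∃ k : ℕ, ¬ IsMid n T V S σ (x - (i : ℤ) • σ.1 + (k : ℤ) • σ.1) := by
      obtain ⟨k, hk, hn⟩ := hall
      refine ⟨i - k, ?_⟩
      have e : x - (i : ℤ) • σ.1 + ((i - k : ℕ) : ℤ) • σ.1 = x - (k : ℤ) • σ.1 := by
        have e1 : ((i : ℕ) : ℤ) = ((i - k : ℕ) : ℤ) + k := by omega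
        rw [e1, add_smul]; abel
      rw [e]; exact hn
    have hkl : Nat.find hex ≤ i := by
      obtain ⟨k, hk, hn⟩ := hall
      refine (Nat.find_min' hex (m := i - k) ?_).trans (Nat.sub_le _ _)
      have e : x - (i : ℤ) • σ.1 + ((i - k : ℕ) : ℤ) • σ.1 = x - (k : ℤ) • σ.1 := by
        have e1 : ((i : ℕ) : ℤ) = ((i - k : ℕ) : ℤ) + k := by omega
        rw [e1, add_smul]; abel
      rw [e]; exact hn
    have hk0 : Nat.find hex ≠ 0 := by
      intro h0
      have := Nat.find_spec hex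
      rw [h0] at this
      apply this
      simpa using hm
    have hn := Nat.find_spec hex
    have hp := Nat.find_min hex (m := Nat.find hex - 1) (by omega)
    push Not at hp
    set k := Nat.find hex with hk
    have hre : REnd n T V S σ (x - (i : ℤ) • σ.1 + ((k - 1 : ℕ) : ℤ) • σ.1) := by
      refine ⟨hp, ?_⟩
      have e : x - (i : ℤ) • σ.1 + ((k - 1 : ℕ) : ℤ) • σ.1 + σ.1 =
          x - (i : ℤ) • σ.1 + (k : ℤ) • σ.1 := by
        have e1 : ((k : ℕ) : ℤ) = ((k - 1 : ℕ) : ℤ) + 1 := by omega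
        rw [e1, add_smul, one_smul]; abel
      rw [e]; exact hn
    refine ⟨_, (i : ℤ) - ((k - 1 : ℕ) : ℤ), hre.mem_ZZ hT, by omega, by omega, ?_⟩
    rw [sub_smul]; abel

/-- sign of a boolean -/
def sgn (b : Bool) : ℤ := if b then 1 else -1

theorem sgn_cases (b : Bool) : sgn b = 1 ∨ sgn b = -1 := by
  cases b
  · right; rfl
  · left; rfl

theorem exists_sgn {δ : ℤ} (h : δ = 1 ∨ δ = -1) : ∃ b, sgn b = δ := by
  rcases h with rfl | rfl
  · exact ⟨true, rfl⟩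
  · exact ⟨false, rfl⟩

/-- decoding relation -/
def Rel (T : Finset (Finset Pt)) (S : Finset Pt → Slab) (t : Finset Pt)
    (c : (Slab × Pt) × ℤ × Bool × Bool) : Prop :=
  S t = c.1.1 ∧ ((c.2.2.1 = true ∧ LineAt c.1.1 t (c.1.2 + c.2.1 • c.1.1.1) (sgn c.2.2.2)) ∨
    (c.2.2.1 = false ∧ CrossAt' T c.1.1 t (c.1.2 + c.2.1 • c.1.1.1) (sgn c.2.2.2)))

theorem count_rest (hT : UT n T) (hS : Str n T V S) (r : ℕ) :
    ({t | t ∈ V ∧ t ∉ (FF n T V S).biUnion (fun D => D.BT T) ∧ (S t).2.2 ≤ 2 ∧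
      ¬ Straight r V S t}).ncard ≤ 2268 * (r + 1) * (T \ V).card := by
  set X : Finset (Finset Pt) := V.filter fun t => t ∉ (FF n T V S).biUnion (fun D => D.BT T) ∧
    (S t).2.2 ≤ 2 ∧ ¬ Straight r V S t with hX
  have hXe : {t | t ∈ V ∧ t ∉ (FF n T V S).biUnion (fun D => D.BT T) ∧ (S t).2.2 ≤ 2 ∧
      ¬ Straight r V S t} = (X : Set (Finset Pt)) := by
    ext t
    simp [hX]
  rw [hXe, Set.ncard_coe_finset]
  set K : Finset ((Slab × Pt) × ℤ × Bool × Bool) :=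
    (ZZ n T V S) ×ˢ (Finset.Icc (-1 : ℤ) (r + 1)) ×ˢ (Finset.univ : Finset (Bool × Bool)) with hK
  have hcard : K.card ≤ 2268 * (r + 1) * (T \ V).card := by
    rw [hK, Finset.card_product, Finset.card_product, Int.card_Icc, Finset.card_univ]
    have e1 : Fintype.card (Bool × Bool) = 4 := rfl
    have e2 : ((r : ℤ) + 1 + 1 - -1).toNat = r + 3 := by omega
    rw [e1, e2]
    have h := card_ZZ hT hS
    calc (ZZ n T V S).card * ((r + 3) * 4) ≤ (189 * (T \ V).card) * ((r + 3) * 4) := by gcongr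
      _ ≤ 2268 * (r + 1) * (T \ V).card := by nlinarith [Nat.zero_le (r * (T \ V).card)]
  refine le_trans ?_ hcard
  refine Finset.card_le_card_of_forall_subsingleton (Rel T S) ?_ ?_
  · intro t ht
    obtain ⟨htV, htF, hw, hns⟩ := Finset.mem_filter.mp ht
    have hF : ∀ p ∈ IX n T V S, t ∉ (bx n T V S p).BT T := by
      intro p hp hpt
      apply htF
      rw [Finset.mem_biUnion]
      exact ⟨bx n T V S p, Finset.mem_image.mpr ⟨p, hp, rfl⟩, hpt⟩
    rcases classify hT hS htV rfl hw with ⟨x, δ, hδ, hx⟩ | ⟨v, δ, hδ, hv⟩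
    · obtain ⟨z, j, hz, hj1, hj2, hxz⟩ := locate_line hT hS hδ htV rfl hw hx hns hF
      obtain ⟨b, hb⟩ := exists_sgn hδ
      refine ⟨((S t, z), j, true, b), ?_, rfl, Or.inl ⟨rfl, ?_⟩⟩
      · rw [hK, Finset.mem_product, Finset.mem_product, Finset.mem_Icc]
        exact ⟨hz, ⟨hj1, hj2⟩, Finset.mem_univ _⟩
      · simp only
        rw [← hxz, hb]; exact hx
    · obtain ⟨z, j, hz, hj1, hj2, hxz⟩ := locate_cross hT hS hδ htV rfl hw hv hF
      obtain ⟨b, hb⟩ := exists_sgn hδ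
      refine ⟨((S t, z), j, false, b), ?_, rfl, Or.inr ⟨rfl, ?_⟩⟩
      · rw [hK, Finset.mem_product, Finset.mem_product, Finset.mem_Icc]
        refine ⟨hz, ⟨hj1, ?_⟩, Finset.mem_univ _⟩
        have : (0 : ℤ) ≤ r := by positivity
        simp only
        linarith
      · simp only
        rw [← hxz, hb]; exact hv.prime hS htV rfl hw hδ
  · rintro ⟨⟨σ, z⟩, j, b, b'⟩ - t ⟨ht, h1, h2⟩ t' ⟨ht', h1', h2'⟩
    simp only at h1 h1' h2 h2'
    have htV := (Finset.mem_filter.mp ht).1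
    have htV' := (Finset.mem_filter.mp ht').1
    have hdir : Dir σ.1 := by rw [← h1]; exact hS.dir t htV
    rcases h2 with ⟨hb, h2⟩ | ⟨hb, h2⟩
    · rcases h2' with ⟨-, h2'⟩ | ⟨hb', -⟩
      · exact LineAt.unique hT (sgn_cases b') hdir.ne_zero (hS.sub htV) (hS.sub htV') h2 h2'
      · rw [hb] at hb'; exact absurd hb' (by decide)
    · rcases h2' with ⟨hb', -⟩ | ⟨-, h2'⟩
      · rw [hb] at hb'; exact absurd hb' (by decide)
      · exact CrossAt'.unique hT h2 h2'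

end Fa

theorem family : ∃ C : ℕ, ∀ (n : ℕ) (T V : Finset (Finset Pt)) (S : Finset Pt → Slab), UT n T → Str n T V S →
    ∃ F : Finset BoxD, Fam n T F ∧
      (∀ D ∈ F, ∀ t ∈ D.BT T, t ∈ V ∧ S t = (D.e, crs D.e D.a, 2)) ∧
      F.card ≤ C * (T \ V).card ∧
      ∀ r : ℕ, ({t | t ∈ V ∧ t ∉ F.biUnion (fun D => D.BT T) ∧ (S t).2.2 ≤ 2 ∧ ¬ Straight r V S t}).ncard
        ≤ C * (r + 1) * (T \ V).card := by
  classical
  refine ⟨2268, fun n T V S hT hS => ⟨Fa.FF n T V S, Fa.fam_FF hT hS, ?_, ?_, ?_⟩⟩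
  · intro D hD t ht
    exact Fa.FF_slab hT hS hD ht
  · have := Fa.card_FF (n := n) hT hS
    refine this.trans ?_
    gcongr
    norm_num
  · intro r
    convert Fa.count_rest hT hS r using 3

end Pool.Agent.IT
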