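import Pool.Agent.IT.IntNb

/-!
Width three: all but few triangles of `V` with a slab of width three are fine (`fine3_count`).
-/

set_option autoImplicit false

namespace Pool.Agent.IT

namespace F3

variable {n : ℕ} {T V : Finset (Finset Pt)} {S : Finset Pt → Slab}

theorem cr_add (e u w : Pt) : crs e (u + w) = crs e u + crs e w := by simp [crs]; ring
theorem cr_sub (e u w : Pt) : crs e (u - w) = crs e u - crs e w := by simp [crs]; ring
theorem cr_self (e : Pt) : crs e e = 0 := by simp [crs]; ring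
theorem cr_smul (k : ℤ) (e u : Pt) : crs e (k • u) = k * crs e u := by simp [crs]; ring
theorem cr_neg_left (e u : Pt) : crs (-e) u = - crs e u := by simp [crs]; ring
theorem cr_swap (e u : Pt) : crs u e = - crs e u := by simp [crs]; ring
/-! ### charges -/

/-- candidate end points -/
def W (a y e : Pt) (j : ℕ) : Finset Pt :=
  ([a, y, y + (j : ℤ) • e, y + (j : ℤ) • e + e, y + (j : ℤ) • e - e,
    ((a.1 + y.1 + e.1) / 2, (a.2 + y.2 + e.2) / 2) + (j : ℤ) • e,
    ((a.1 + y.1 + e.1) / 2, (a.2 + y.2 + e.2) / 2) + (j : ℤ) • e + e,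
    ((a.1 + y.1 + e.1) / 2, (a.2 + y.2 + e.2) / 2) + (j : ℤ) • e - e,
    a + (j : ℤ) • e, a + (j : ℤ) • e + e] : List Pt).toFinset

theorem W_card (a y e : Pt) (j : ℕ) : (W a y e j).card ≤ 10 := by
  unfold W
  exact List.toFinset_card_le _

def Chg (r : ℕ) (T V : Finset (Finset Pt)) (S : Finset Pt → Slab) (t : Finset Pt) : Prop :=
  ∃ Δ ∈ T, Δ ∉ V ∧ ∃ a ∈ Δ, ∃ y ∈ Δ, a ≠ y ∧ ∃ s ∈ T, (a ∈ s ∧ y ∈ s) ∧ ∃ j ≤ r,
    ∃ p ∈ W a y (S s).1 j, ∃ q ∈ W a y (S s).1 j, p ≠ q ∧ p ∈ t ∧ q ∈ t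

section
attribute [local irreducible] W
open Classical in
theorem chg_count (hT : UT n T) (r : ℕ) :
    (T.filter (fun t => Chg r T V S t)).card ≤ (T \ V).card * (3 * (3 * (2 * ((r + 1) * (100 * 2))))) := by
  set F : Finset Pt → Finset (Finset Pt) := fun Δ =>
    Δ.biUnion fun a => Δ.biUnion fun y => if a = y then ∅ else
      (T.filter (fun s => a ∈ s ∧ y ∈ s)).biUnion fun s => (Finset.range (r + 1)).biUnion fun j =>
        (W a y (S s).1 j ×ˢ W a y (S s).1 j).biUnion fun z => if z.1 = z.2 then ∅ else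
          T.filter (fun t => z.1 ∈ t ∧ z.2 ∈ t) with hF
  have hsub : T.filter (fun t => Chg r T V S t) ⊆ (T \ V).biUnion F := by
    intro t ht
    rw [Finset.mem_filter] at ht
    obtain ⟨htT, Δ, hΔ, hΔV, a, ha, y, hy, hay, s, hs, hays, j, hj, p, hp, q, hq, hpq, hpt, hqt⟩ := ht
    rw [Finset.mem_biUnion]
    refine ⟨Δ, Finset.mem_sdiff.mpr ⟨hΔ, hΔV⟩, ?_⟩
    simp only [hF]
    rw [Finset.mem_biUnion]
    refine ⟨a, ha, ?_⟩
    rw [Finset.mem_biUnion]
    refine ⟨y, hy, ?_⟩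
    rw [if_neg hay, Finset.mem_biUnion]
    refine ⟨s, Finset.mem_filter.mpr ⟨hs, hays⟩, ?_⟩
    rw [Finset.mem_biUnion]
    refine ⟨j, Finset.mem_range.mpr (by omega), ?_⟩
    rw [Finset.mem_biUnion]
    refine ⟨(p, q), Finset.mk_mem_product hp hq, ?_⟩
    rw [if_neg hpq]
    exact Finset.mem_filter.mpr ⟨htT, hpt, hqt⟩
  refine (Finset.card_le_card hsub).trans ?_
  refine Finset.card_biUnion_le_card_mul _ _ _ fun Δ hΔ => ?_
  have hΔT := (Finset.mem_sdiff.mp hΔ).1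
  have h3 := card3 hT hΔT
  refine (Finset.card_biUnion_le_card_mul _ _ (3 * (2 * ((r + 1) * (100 * 2)))) fun a _ => ?_).trans
    (Nat.mul_le_mul_right _ h3)
  refine (Finset.card_biUnion_le_card_mul _ _ (2 * ((r + 1) * (100 * 2))) fun y _ => ?_).trans
    (Nat.mul_le_mul_right _ h3)
  split_ifs with hay
  · simp
  refine (Finset.card_biUnion_le_card_mul _ _ ((r + 1) * (100 * 2)) fun s _ => ?_).trans
    (Nat.mul_le_mul_right _ (card2 hT hay))
  refine (Finset.card_biUnion_le_card_mul _ _ (100 * 2) fun j _ => ?_).trans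
    (Nat.mul_le_mul_right _ (by simp))
  refine (Finset.card_biUnion_le_card_mul _ _ 2 fun z _ => ?_).trans
    (Nat.mul_le_mul_right _ ?_)
  · split_ifs with hz
    · simp
    · exact card2 hT hz
  · rw [Finset.card_product]
    calc _ ≤ 10 * 10 := Nat.mul_le_mul (W_card _ _ _ _) (W_card _ _ _ _)
      _ = 100 := by norm_num
end

/-! ### coordinates -/

theorem eq_of_base {e u w : Pt} {δ β : ℤ} (hδ : δ = 1 ∨ δ = -1) (hu : crs e u = δ) (hd : crs u w = δ)
    (hb : crs e w = δ * β) : w = β • u - e := by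
  have c1 : crs e u * w.1 = -(crs u w) * e.1 + crs e w * u.1 := by simp only [crs]; ring
  have c2 : crs e u * w.2 = -(crs u w) * e.2 + crs e w * u.2 := by simp only [crs]; ring
  rw [hu, hd, hb] at c1 c2
  rcases hδ with rfl | rfl
  · ext
    · simp; linarith
    · simp; linarith
  · ext
    · simp; linarith
    · simp; linarith

/-- parity obstruction: a unimodular triangle with two vertices at distance two on the same line -/
theorem no_two {e u w : Pt} (he : IsCoprime e.1 e.2) (hd : crs u w = 1 ∨ crs u w = -1)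
    {k : ℤ} (hu : crs e u = 2 * k) (hw : crs e w = 2 * k) : False := by
  have c1 : crs u w * e.1 = crs e w * u.1 - crs e u * w.1 := by simp only [crs]; ring
  have c2 : crs u w * e.2 = crs e w * u.2 - crs e u * w.2 := by simp only [crs]; ring
  rw [hu, hw] at c1 c2
  have d1 : (2 : ℤ) ∣ e.1 := by
    rcases hd with hd | hd
    · exact ⟨k * u.1 - k * w.1, by rw [hd] at c1; linarith⟩
    · exact ⟨-(k * u.1 - k * w.1), by rw [hd] at c1; linarith⟩
  have d2 : (2 : ℤ) ∣ e.2 := by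
    rcases hd with hd | hd
    · exact ⟨k * u.2 - k * w.2, by rw [hd] at c2; linarith⟩
    · exact ⟨-(k * u.2 - k * w.2), by rw [hd] at c2; linarith⟩
  have := he.isUnit_of_dvd' d1 d2
  rw [Int.isUnit_iff] at this
  omega

/-- two vectors on the line `ℝe` are not a basis -/
theorem no_line {e u w : Pt} (he : IsCoprime e.1 e.2) (hd : crs u w = 1 ∨ crs u w = -1)
    (hu : crs e u = 0) (hw : crs e w = 0) : False :=
  no_two he hd (k := 0) (by simpa using hu) (by simpa using hw)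

/-- two lattice points on a line forming a unimodular triangle with a third point: the difference is `±e` -/
theorem diff_e {e u w : Pt} (hd : crs u w = 1 ∨ crs u w = -1) {k : ℤ} (hk : k = 1 ∨ k = -1)
    (hu : crs e u = k) (hw : crs e w = k) : u = w + e ∨ w = u + e := by
  have c1 : crs u w * e.1 = crs e w * u.1 - crs e u * w.1 := by simp only [crs]; ring
  have c2 : crs u w * e.2 = crs e w * u.2 - crs e u * w.2 := by simp only [crs]; ring
  rw [hu, hw] at c1 c2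
  rcases hd with hd | hd <;> rcases hk with rfl | rfl <;> rw [hd] at c1 c2
  · left; ext <;> simp <;> linarith
  · right; ext <;> simp <;> linarith
  · right; ext <;> simp <;> linarith
  · left; ext <;> simp <;> linarith

/-! ### the fan walk -/

/-- one bad triangle stopping the fan at `a` -/
def Stop (T V : Finset (Finset Pt)) (S : Finset Pt → Slab) (σ : Slab) (a v : Pt) : Prop :=
  ∃ y, (y = v ∨ y + a + σ.1 = v + v) ∧ ∃ Δ ∈ T, Δ ∉ V ∧ a ∈ Δ ∧ y ∈ Δ ∧ ∃ s ∈ V, S s = σ ∧ a ∈ s ∧ y ∈ s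

/-- the triangle on the side of `-e` of the edge `a v` -/
theorem side (hT : UT n T) (hS : Str n T V S) {s : Finset Pt} (hs : s ∈ V) {p q : Pt} (hp : p ∈ s)
    (hq : q ∈ s) (hne : p ≠ q) {δ : ℤ} (hδ : δ = 1 ∨ δ = -1) :
    ∃ L ∈ T, ∃ w, L = {p, q, w} ∧ det p q w = δ := by
  obtain ⟨w, hw, hd⟩ := third hT (hS.sub hs) hp hq hne
  by_cases h : det p q w = δ
  · exact ⟨s, hS.sub hs, w, hw, h⟩
  · obtain ⟨s', hs'T, hs's, hps', hqs'⟩ := hS.nb s hs p hp q hq hne
    obtain ⟨w', hw', hd', -⟩ := opp hT (hS.sub hs) hs'T hs's hne hw hps' hqs'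
    exact ⟨s', hs'T, w', hw', by omega⟩

theorem fan_step (hT : UT n T) (hS : Str n T V S) {σ : Slab} (hw3 : σ.2.2 = 3) {a v : Pt}
    (hlev : (crs σ.1 a = σ.2.1 ∧ crs σ.1 v = σ.2.1 + 1) ∨ (crs σ.1 a = σ.2.1 + 3 ∧ crs σ.1 v = σ.2.1 + 2))
    (hE : ∃ s ∈ V, S s = σ ∧ a ∈ s ∧ v ∈ s) :
    (∃ s ∈ V, S s = σ ∧ a ∈ s ∧ v - σ.1 ∈ s) ∨ Stop T V S σ a v := by
  obtain ⟨s, hs, hSs, has, hvs⟩ := hE
  have hav : a ≠ v := by
    rintro rfl
    rcases hlev with h | h <;> omega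
  obtain ⟨δ, hδ, hcr⟩ : ∃ δ : ℤ, (δ = 1 ∨ δ = -1) ∧ crs σ.1 (v - a) = δ := by
    rcases hlev with h | h
    · exact ⟨1, Or.inl rfl, by rw [cr_sub]; omega⟩
    · exact ⟨-1, Or.inr rfl, by rw [cr_sub]; omega⟩
  obtain ⟨L, hL, w, hLw, hdw⟩ := side hT hS hs has hvs hav hδ
  have haL : a ∈ L := by rw [hLw]; simp
  have hvL : v ∈ L := by rw [hLw]; simp
  have hwL : w ∈ L := by rw [hLw]; simp
  by_cases hLV : L ∈ V
  swap
  · right
    exact ⟨v, Or.inl rfl, L, hL, hLV, haL, hvL, s, hs, hSs, has, hvs⟩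
  have hne' : crs (S s).1 a ≠ crs (S s).1 v := by
    rw [hSs]; rcases hlev with h | h <;> omega
  have hSL : S L = σ := by rw [← hSs]; exact hS.adj s hs L hLV a v has hvs haL hvL hne'
  rw [det_eq_cr] at hdw
  have haw : a ≠ w := by
    rintro rfl
    simp [crs] at hdw
    omega
  have l1 := hS.slab L hLV w hwL
  have e1 := hS.exc L hLV (by rw [hSL]; exact hw3) a haL w hwL haw
  have e1' := hS.exc L hLV (by rw [hSL]; exact hw3) w hwL a haL haw.symm
  rw [hSL] at l1 e1 e1'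
  rw [hw3] at l1
  have hlw : crs σ.1 (w - a) = δ * 1 ∨ crs σ.1 (w - a) = δ * 2 := by
    rw [cr_sub] at hcr ⊢
    rcases hlev with h | h <;> rcases hδ with rfl | rfl <;> omega
  rcases hlw with hlw | hlw
  · have := eq_of_base hδ hcr hdw hlw
    left
    refine ⟨L, hLV, hSL, haL, ?_⟩
    have h2 : v - σ.1 = w := by
      have : w = a + (w - a) := by abel
      rw [this, eq_of_base hδ hcr hdw hlw, one_smul]; abel
    rw [h2]; exact hwL
  · have hwy : w - a = (2 : ℤ) • (v - a) - σ.1 := eq_of_base hδ hcr hdw hlw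
    have hy : w + a + σ.1 = v + v := by
      have : w = a + (w - a) := by abel
      rw [this, hwy, two_smul]; abel
    obtain ⟨L', hL'T, hL'L, haL', hwL'⟩ := hS.nb L hLV a haL w hwL haw
    by_cases hL'V : L' ∈ V
    swap
    · right
      exact ⟨w, Or.inr hy, L', hL'T, hL'V, haL', hwL', L, hLV, hSL, haL, hwL⟩
    have hLw2 : L = {a, w, v} := by rw [hLw]; exact perm3 _ _ _
    obtain ⟨w', hLw', hdw', -⟩ := opp hT hL hL'T hL'L haw hLw2 haL' hwL'
    have hw'L : w' ∈ L' := by rw [hLw']; simp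
    have hSL' : S L' = σ := by
      rw [← hSL]
      refine hS.adj L hLV L' hL'V a w haL hwL haL' hwL' ?_
      rw [hSL]
      rw [cr_sub] at hlw
      rcases hδ with rfl | rfl <;> omega
    rw [det_eq_cr, det_eq_cr] at hdw'
    have hdd : crs (w - a) (v - a) = - δ := by rw [cr_swap, hdw]
    rw [hdd, neg_neg] at hdw'
    have haw' : a ≠ w' := by
      rintro rfl
      simp [crs] at hdw'
      omega
    have l1 := hS.slab L' hL'V w' hw'L
    have e1 := hS.exc L' hL'V (by rw [hSL']; exact hw3) a haL' w' hw'L haw'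
    have e1' := hS.exc L' hL'V (by rw [hSL']; exact hw3) w' hw'L a haL' haw'.symm
    rw [hSL'] at l1 e1 e1'
    rw [hw3] at l1
    have hlw' : crs σ.1 (w' - a) = δ * 1 ∨ crs σ.1 (w' - a) = δ * 2 := by
      rw [cr_sub] at hcr ⊢
      rcases hlev with h | h <;> rcases hδ with rfl | rfl <;> omega
    -- `w' = v - e`
    left
    refine ⟨L', hL'V, hSL', haL', ?_⟩
    suffices h2 : v - σ.1 = w' by rw [h2]; exact hw'L
    have c1 : crs σ.1 (w - a) * (w' - a).1 = -(crs (w - a) (w' - a)) * σ.1.1 + crs σ.1 (w' - a) * (w - a).1 := by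
      simp only [crs]; ring
    have c2 : crs σ.1 (w - a) * (w' - a).2 = -(crs (w - a) (w' - a)) * σ.1.2 + crs σ.1 (w' - a) * (w - a).2 := by
      simp only [crs]; ring
    rw [hlw, hdw'] at c1 c2
    have k1 : (w - a).1 = 2 * (v.1 - a.1) - σ.1.1 := by rw [hwy]; simp
    have k2 : (w - a).2 = 2 * (v.2 - a.2) - σ.1.2 := by rw [hwy]; simp
    rw [k1] at c1
    rw [k2] at c2
    rcases hlw' with h | h <;> rw [h] at c1 c2
    · ext
      · simp only [Prod.fst_sub] at c1 ⊢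
        rcases hδ with rfl | rfl <;> linarith
      · simp only [Prod.snd_sub] at c2 ⊢
        rcases hδ with rfl | rfl <;> linarith
    · exfalso
      have := hS.dir L hLV
      rw [hSL] at this
      refine no_two this.1 (u := w - a) (w := w' - a) (k := δ) ?_ (by rw [hlw]; ring) (by rw [h]; ring)
      rw [hdw']; exact hδ

theorem fan_or (hT : UT n T) (hS : Str n T V S) {σ : Slab} (hw3 : σ.2.2 = 3) {a v : Pt}
    (hlev : (crs σ.1 a = σ.2.1 ∧ crs σ.1 v = σ.2.1 + 1) ∨ (crs σ.1 a = σ.2.1 + 3 ∧ crs σ.1 v = σ.2.1 + 2))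
    (hE : ∃ s ∈ V, S s = σ ∧ a ∈ s ∧ v ∈ s) (r : ℕ) :
    Fanned r V S σ a v ∨ ∃ j : ℕ, j ≤ r ∧ Stop T V S σ a (v - (j : ℤ) • σ.1) := by
  by_cases hst : ∃ j : ℕ, j ≤ r ∧ Stop T V S σ a (v - (j : ℤ) • σ.1)
  · exact Or.inr hst
  · push Not at hst
    left
    refine ⟨?_, ?_⟩
    · rw [cr_sub]
      rcases hlev with h | h
      · rw [h.1, h.2]; simp
      · rw [h.1, h.2]; norm_num [abs_eq]
    · intro j
      induction j with
      | zero => intro _; simpa using hE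
      | succ j ih =>
        intro hj
        have h1 := ih (by omega)
        have hl : crs σ.1 (v - (j : ℤ) • σ.1) = crs σ.1 v := by rw [cr_sub, cr_smul, cr_self]; ring
        have := fan_step hT hS hw3 (a := a) (v := v - (j : ℤ) • σ.1) (by rw [hl]; exact hlev) h1
        rcases this with h | h
        · have e1 : v - ((j + 1 : ℕ) : ℤ) • σ.1 = v - (j : ℤ) • σ.1 - σ.1 := by
            push_cast; rw [add_smul, one_smul]; abel
          rw [e1]; exact h
        · exact absurd h (hst j (by omega))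

theorem mem_W {a y e v : Pt} {j : ℕ}
    (h : y = v - (j : ℤ) • e ∨ y + a + e = (v - (j : ℤ) • e) + (v - (j : ℤ) • e)) :
    a ∈ W a y e j ∧ v ∈ W a y e j ∧ v + e ∈ W a y e j ∧ v - e ∈ W a y e j := by
  rcases h with h | h
  · have hv : v = y + (j : ℤ) • e := by rw [h]; abel
    rw [hv]
    simp [W]
  · have h1 := congrArg Prod.fst h
    have h2 := congrArg Prod.snd h
    simp only [Prod.fst_add, Prod.snd_add] at h1 h2
    have m1 : (a.1 + y.1 + e.1) / 2 = (v - (j : ℤ) • e).1 := by omega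
    have m2 : (a.2 + y.2 + e.2) / 2 = (v - (j : ℤ) • e).2 := by omega
    have hm : ((a.1 + y.1 + e.1) / 2, (a.2 + y.2 + e.2) / 2) = v - (j : ℤ) • e := by rw [m1, m2]
    have hv : v = ((a.1 + y.1 + e.1) / 2, (a.2 + y.2 + e.2) / 2) + (j : ℤ) • e := by rw [hm]; abel
    refine ⟨by simp [W], ?_, ?_, ?_⟩
    · simp only [W, List.mem_toFinset, List.mem_cons]
      tauto
    · simp only [W, List.mem_toFinset, List.mem_cons]
      rw [← hv]
      tauto
    · simp only [W, List.mem_toFinset, List.mem_cons]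
      rw [← hv]
      tauto

theorem chg_of_stop (hS : Str n T V S) {σ : Slab} {a v : Pt} {r : ℕ} {t : Finset Pt}
    (hlev : (crs σ.1 a = σ.2.1 ∧ crs σ.1 v = σ.2.1 + 1) ∨ (crs σ.1 a = σ.2.1 + 3 ∧ crs σ.1 v = σ.2.1 + 2))
    (h : ∃ j : ℕ, j ≤ r ∧ Stop T V S σ a (v - (j : ℤ) • σ.1))
    (ht : (a ∈ t ∧ v ∈ t) ∨ (v ∈ t ∧ v + σ.1 ∈ t ∧ v ≠ v + σ.1) ∨ (v ∈ t ∧ v - σ.1 ∈ t ∧ v ≠ v - σ.1)) :
    Chg r T V S t := by
  obtain ⟨j, hj, y, hy, Δ, hΔ, hΔV, haΔ, hyΔ, s, hs, hSs, has, hys⟩ := h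
  have hl : crs σ.1 (v - (j : ℤ) • σ.1) = crs σ.1 v := by rw [cr_sub, cr_smul, cr_self]; ring
  have hay : a ≠ y := by
    rintro rfl
    rcases hy with hy | hy
    · rw [← hy] at hl
      rcases hlev with h | h <;> omega
    · have := congrArg (crs σ.1) hy
      simp only [cr_add, cr_self, hl] at this
      rcases hlev with h | h <;> omega
  obtain ⟨w1, w2, w3, w4⟩ := mem_W hy
  refine ⟨Δ, hΔ, hΔV, a, haΔ, y, hyΔ, hay, s, hS.sub hs, ⟨has, hys⟩, j, hj, ?_⟩
  rw [hSs]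
  rcases ht with ht | ht | ht
  · refine ⟨a, w1, v, w2, ?_, ht⟩
    rintro rfl
    rcases hlev with h | h <;> omega
  · exact ⟨v, w2, v + σ.1, w3, ht.2.2, ht.1, ht.2.1⟩
  · exact ⟨v, w2, v - σ.1, w4, ht.2.2, ht.1, ht.2.1⟩

/-! ### the straight walk -/

theorem half_or (hT : UT n T) (hS : Str n T V S) {σ : Slab} {x f : Pt}
    (hf : ∀ y, crs f x < crs f y → crs σ.1 x ≠ crs σ.1 y)
    {t : Finset Pt} (ht : t ∈ V) (hSt : S t = σ) (hx : x ∈ t) (hy : ∃ y ∈ t, crs f x < crs f y) :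
    (∀ u ∈ T, x ∈ u → (∃ y ∈ u, crs f x < crs f y) → u ∈ V ∧ S u = σ) ∨
    (∃ Δ ∈ T, Δ ∉ V ∧ x ∈ Δ ∧ ∃ y ∈ Δ, x ≠ y ∧ ∃ s ∈ V, S s = σ ∧ x ∈ s ∧ y ∈ s) := by
  by_cases hc : ∃ Δ ∈ T, Δ ∉ V ∧ x ∈ Δ ∧ ∃ y ∈ Δ, x ≠ y ∧ ∃ s ∈ V, S s = σ ∧ x ∈ s ∧ y ∈ s
  · exact Or.inr hc
  · left
    intro u hu hxu hyu
    refine half_star hT x f (fun u => u ∈ V ∧ S u = σ) ?_ (hS.sub ht) hu hx hxu hy hyu ⟨ht, hSt⟩
    intro p hp q hq hpq hxp hxq ⟨y, hyp, hyq, hly⟩ ⟨hpV, hSp⟩
    have hxy : x ≠ y := by rintro rfl; omega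
    have hqV : q ∈ V := by
      by_contra hqV
      exact hc ⟨q, hq, hqV, hxq, y, hyq, hxy, p, hpV, hSp, hxp, hyp⟩
    refine ⟨hqV, ?_⟩
    rw [← hSp]
    exact hS.adj p hpV q hqV x y hxp hyp hxq hyq (by rw [hSp]; exact hf y hly)

/-- bad triangle at `x` -/
def LC (T V : Finset (Finset Pt)) (S : Finset Pt → Slab) (e x : Pt) : Prop :=
  ∃ Δ ∈ T, Δ ∉ V ∧ x ∈ Δ ∧ ∃ y ∈ Δ, x ≠ y ∧ ∃ s ∈ V, (S s).1 = e ∧ x ∈ s ∧ y ∈ s

def Inv (V : Finset (Finset Pt)) (S : Finset Pt → Slab) (σ σ' : Slab) (x : Pt) : Prop :=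
  (∃ s ∈ V, S s = σ ∧ x ∈ s ∧ x + σ.1 ∈ s ∧ ∃ y ∈ s, crs σ.1 x < crs σ.1 y) ∧
  (∃ s ∈ V, S s = σ' ∧ x ∈ s ∧ x + σ.1 ∈ s ∧ ∃ y ∈ s, crs (-σ.1) x < crs (-σ.1) y)

theorem line_step (hT : UT n T) (hS : Str n T V S) {σ σ' : Slab} (hσ : σ'.1 = σ.1) (hne : σ ≠ σ')
    {x : Pt} (h : Inv V S σ σ' x) : Inv V S σ σ' (x - σ.1) ∨ LC T V S σ.1 x := by
  obtain ⟨⟨s1, hs1, hS1, hx1, -, hy1⟩, s2, hs2, hS2, hx2, -, hy2⟩ := h
  have hco : IsCoprime σ.1.1 σ.1.2 := by
    have := (hS.dir s1 hs1).1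
    rw [hS1] at this; exact this
  rcases half_or hT hS (σ := σ) (x := x) (f := σ.1) (fun y hy => ne_of_lt hy) hs1 hS1 hx1 hy1 with up | hc
  swap
  · right
    obtain ⟨Δ, h1, h2, h3, y, h4, h5, s, h6, h7, h8⟩ := hc
    exact ⟨Δ, h1, h2, h3, y, h4, h5, s, h6, by rw [h7], h8⟩
  rcases half_or hT hS (σ := σ') (x := x) (f := -σ.1)
    (fun y hy => by rw [hσ]; rw [cr_neg_left, cr_neg_left] at hy; omega) hs2 hS2 hx2 hy2 with dn | hc
  swap
  · right
    obtain ⟨Δ, h1, h2, h3, y, h4, h5, s, h6, h7, h8⟩ := hc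
    exact ⟨Δ, h1, h2, h3, y, h4, h5, s, h6, by rw [h7]; exact hσ, h8⟩
  left
  -- all triangles at `x` are in `V`
  have hall : ∀ u ∈ T, x ∈ u → u ∈ V := by
    intro u hu hxu
    obtain ⟨a, b, hu', hd⟩ : ∃ a b, u = {x, a, b} ∧ (det x a b = 1 ∨ det x a b = -1) := by
      have hcard : 1 < u.card := by
        obtain ⟨a, b, c, rfl, hp⟩ := hT.exists_pos hu
        rw [Finset.one_lt_card]
        refine ⟨a, by simp, b, by simp, ?_⟩
        rintro rfl
        have := hp.2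
        simp [det] at this
      obtain ⟨a, ha, hxa⟩ := Finset.exists_mem_ne hcard x
      obtain ⟨w, hw, hd⟩ := third hT hu hxu ha hxa.symm
      exact ⟨a, w, hw, hd⟩
    have ha : a ∈ u := by rw [hu']; simp
    have hb : b ∈ u := by rw [hu']; simp
    rw [det_eq_cr] at hd
    by_cases h1 : crs σ.1 x < crs σ.1 a
    · exact (up u hu hxu ⟨a, ha, h1⟩).1
    by_cases h2 : crs σ.1 x < crs σ.1 b
    · exact (up u hu hxu ⟨b, hb, h2⟩).1
    by_cases h3 : crs σ.1 a < crs σ.1 x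
    · exact (dn u hu hxu ⟨a, ha, by rw [cr_neg_left, cr_neg_left]; omega⟩).1
    by_cases h4 : crs σ.1 b < crs σ.1 x
    · exact (dn u hu hxu ⟨b, hb, by rw [cr_neg_left, cr_neg_left]; omega⟩).1
    exfalso
    exact no_line hco hd (by rw [cr_sub]; omega) (by rw [cr_sub]; omega)
  have hint : Inner n x := int_of_nb hT ⟨s1, hS.sub hs1, hx1⟩
    (fun t ht hxt q hq hxq => hS.nb t (hall t ht hxt) x hxt q hq hxq)
  have hco' : IsCoprime (-σ.1).1 (-σ.1).2 := hco.neg_neg
  rcases straddle hT hint hco' with hE | ⟨a, b, hp, ha, hb⟩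
  swap
  · exfalso
    have hxm : x ∈ ({x, a, b} : Finset Pt) := by simp
    have ham : a ∈ ({x, a, b} : Finset Pt) := by simp
    have hbm : b ∈ ({x, a, b} : Finset Pt) := by simp
    have k1 := (up _ hp.1 hxm ⟨a, ham, by rw [cr_neg_left, cr_neg_left] at ha; omega⟩).2
    have k2 := (dn _ hp.1 hxm ⟨b, hbm, hb⟩).2
    exact hne (k1.symm.trans k2)
  -- `[x - e, x]` is an edge
  obtain ⟨hxx, t, ht, hxt, hxt'⟩ := edge_mem hE
  have e1 : x + -σ.1 = x - σ.1 := by abel
  rw [e1] at hxx hxt'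
  have htV := hall t ht hxt
  obtain ⟨w, hw, hd⟩ := third hT ht hxt hxt' hxx
  obtain ⟨t', ht', htt', hxt2, hxt2'⟩ := hS.nb t htV x hxt _ hxt' hxx
  obtain ⟨w', hw', hd', -⟩ := opp hT ht ht' htt' hxx hw hxt2 hxt2'
  have hl : ∀ z : Pt, det x (x - σ.1) z = crs σ.1 x - crs σ.1 z := by
    intro z; simp only [det, crs, Prod.fst_sub, Prod.snd_sub]; ring
  have e2 : x - σ.1 + σ.1 = x := by abel
  have hxe : crs σ.1 (x - σ.1) = crs σ.1 x := by rw [cr_sub, cr_self]; ring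
  rw [hl, hl] at hd'
  rw [hl] at hd
  have hwt : w ∈ t := by rw [hw]; simp
  have hwt' : w' ∈ t' := by rw [hw']; simp
  rcases hd with hd | hd
  · -- `w` below, `w'` above
    have k1 := dn t ht hxt ⟨w, hwt, by rw [cr_neg_left, cr_neg_left]; omega⟩
    have k2 := up t' ht' hxt2 ⟨w', hwt', by omega⟩
    refine ⟨⟨t', k2.1, k2.2, hxt2', by rw [e2]; exact hxt2, w', hwt', by rw [hxe]; omega⟩,
      t, k1.1, k1.2, hxt', by rw [e2]; exact hxt, w, hwt, ?_⟩
    rw [cr_neg_left, cr_neg_left, hxe]; omega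
  · have k1 := up t ht hxt ⟨w, hwt, by omega⟩
    have k2 := dn t' ht' hxt2 ⟨w', hwt', by rw [cr_neg_left, cr_neg_left]; omega⟩
    refine ⟨⟨t, k1.1, k1.2, hxt', by rw [e2]; exact hxt, w, hwt, by rw [hxe]; omega⟩,
      t', k2.1, k2.2, hxt2', by rw [e2]; exact hxt2, w', hwt', ?_⟩
    rw [cr_neg_left, cr_neg_left, hxe]; omega

theorem line_or (hT : UT n T) (hS : Str n T V S) {σ σ' : Slab} (hσ : σ'.1 = σ.1) (hne : σ ≠ σ')
    {x : Pt} (h : Inv V S σ σ' x) (r : ℕ) :
    (∀ j : ℕ, j ≤ r → Inv V S σ σ' (x - (j : ℤ) • σ.1)) ∨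
      ∃ j : ℕ, j ≤ r ∧ LC T V S σ.1 (x - (j : ℤ) • σ.1) := by
  by_cases hst : ∃ j : ℕ, j ≤ r ∧ LC T V S σ.1 (x - (j : ℤ) • σ.1)
  · exact Or.inr hst
  · push Not at hst
    left
    intro j
    induction j with
    | zero => intro _; simpa using h
    | succ j ih =>
      intro hj
      rcases line_step hT hS hσ hne (ih (by omega)) with h | h
      · have e1 : x - ((j + 1 : ℕ) : ℤ) • σ.1 = x - (j : ℤ) • σ.1 - σ.1 := by
          push_cast; rw [add_smul, one_smul]; abel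
        rw [e1]; exact h
      · exact absurd h (hst j (by omega))

theorem chg_of_LC (hS : Str n T V S) {e x : Pt} {r : ℕ} {t : Finset Pt} (hxe : x ≠ x + e)
    (hx : x ∈ t) (hx' : x + e ∈ t) (h : ∃ j : ℕ, j ≤ r ∧ LC T V S e (x - (j : ℤ) • e)) :
    Chg r T V S t := by
  obtain ⟨j, hj, Δ, hΔ, hΔV, hxΔ, y, hyΔ, hxy, s, hs, hSs, hxs, hys⟩ := h
  refine ⟨Δ, hΔ, hΔV, _, hxΔ, y, hyΔ, hxy, s, hS.sub hs, ⟨hxs, hys⟩, j, hj, ?_⟩
  rw [hSs]
  refine ⟨x, ?_, x + e, ?_, hxe, hx, hx'⟩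
  · have : x = x - (j : ℤ) • e + (j : ℤ) • e := by abel
    simp only [W, List.mem_toFinset, List.mem_cons]
    tauto
  · have : x + e = x - (j : ℤ) • e + (j : ℤ) • e + e := by abel
    simp only [W, List.mem_toFinset, List.mem_cons]
    tauto

theorem dir_eq {e e' : Pt} (he : Dir e) (he' : Dir e') (h : crs e' e = 0) : e' = e := by
  obtain ⟨⟨u, v, huv⟩, hl'⟩ := he'
  obtain ⟨hco, hl⟩ := he
  simp only [crs] at h
  have k1 : e.1 = (u * e.1 + v * e.2) * e'.1 := by linear_combination (-e.1) * huv - v * h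
  have k2 : e.2 = (u * e.1 + v * e.2) * e'.2 := by linear_combination (-e.2) * huv + u * h
  set k := u * e.1 + v * e.2 with hk
  have hu : IsUnit k := hco.isUnit_of_dvd' ⟨e'.1, k1⟩ ⟨e'.2, k2⟩
  rw [Int.isUnit_iff] at hu
  rcases hu with hu | hu
  · rw [hu] at k1 k2
    ext <;> omega
  · exfalso
    rw [hu] at k1 k2
    simp only [LexPos] at hl hl'
    omega

/-- a triangle with a vertex on a side line -/
theorem side_case (hT : UT n T) (hS : Str n T V S) {r : ℕ} {t : Finset Pt} (ht : t ∈ V)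
    (hw : (S t).2.2 = 3) (hF : ¬ Fine3 r V S t) {a : Pt} (ha : a ∈ t)
    (hlev : crs (S t).1 a = (S t).2.1 ∨ crs (S t).1 a = (S t).2.1 + 3) : Chg r T V S t := by
  have htT := hS.sub ht
  obtain ⟨p, q, hpq, hd⟩ : ∃ p q, t = {a, p, q} ∧ (det a p q = 1 ∨ det a p q = -1) := by
    have hcard : 1 < t.card := by
      obtain ⟨a, b, c, rfl, hp⟩ := hT.exists_pos htT
      rw [Finset.one_lt_card]
      refine ⟨a, by simp, b, by simp, ?_⟩
      rintro rfl
      have := hp.2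
      simp [det] at this
    obtain ⟨b, hb, hab⟩ := Finset.exists_mem_ne hcard a
    obtain ⟨w, hw, hd⟩ := third hT htT ha hb hab.symm
    exact ⟨b, w, hw, hd⟩
  have hp : p ∈ t := by rw [hpq]; simp
  have hq : q ∈ t := by rw [hpq]; simp
  have hap : a ≠ p := by
    rintro rfl
    simp [det] at hd
  have haq : a ≠ q := by
    rintro rfl
    simp only [det] at hd
    ring_nf at hd
    omega
  -- levels of `p` and `q`
  have key : ∀ z ∈ t, a ≠ z → ((crs (S t).1 a = (S t).2.1 ∧ crs (S t).1 z = (S t).2.1 + 1) ∨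
      (crs (S t).1 a = (S t).2.1 + 3 ∧ crs (S t).1 z = (S t).2.1 + 2)) → Chg r T V S t := by
    intro z hz haz hl
    rcases fan_or hT hS hw hl ⟨t, ht, rfl, ha, hz⟩ r with h | h
    · exact absurd (Or.inr (Or.inl ⟨a, ha, z, hz, h⟩)) hF
    · exact chg_of_stop hS hl h (Or.inl ⟨ha, hz⟩)
  have l1 := hS.slab t ht p hp
  have l2 := hS.slab t ht q hq
  have e1 := hS.exc t ht hw a ha p hp hap
  have e2 := hS.exc t ht hw p hp a ha hap.symm
  have e3 := hS.exc t ht hw a ha q hq haq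
  have e4 := hS.exc t ht hw q hq a ha haq.symm
  rw [hw] at l1 l2
  by_cases c1 : ((crs (S t).1 a = (S t).2.1 ∧ crs (S t).1 p = (S t).2.1 + 1) ∨
      (crs (S t).1 a = (S t).2.1 + 3 ∧ crs (S t).1 p = (S t).2.1 + 2))
  · exact key p hp hap c1
  by_cases c2 : ((crs (S t).1 a = (S t).2.1 ∧ crs (S t).1 q = (S t).2.1 + 1) ∨
      (crs (S t).1 a = (S t).2.1 + 3 ∧ crs (S t).1 q = (S t).2.1 + 2))
  · exact key q hq haq c2
  exfalso
  rw [det_eq_cr] at hd
  rcases hlev with hl | hl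
  · exact no_two (hS.dir t ht).1 hd (k := 1) (by rw [cr_sub]; omega) (by rw [cr_sub]; omega)
  · exact no_two (hS.dir t ht).1 hd (k := -1) (by rw [cr_sub]; omega) (by rw [cr_sub]; omega)

/-- a triangle with an edge on an inner line and the third vertex on the other inner line -/
theorem inner_case (hT : UT n T) (hS : Str n T V S) {r : ℕ} {t : Finset Pt} (ht : t ∈ V)
    (hw : (S t).2.2 = 3) (hF : ¬ Fine3 r V S t) {v b : Pt} (htv : t = {v, v + (S t).1, b})
    (hlev : (crs (S t).1 v = (S t).2.1 + 1 ∧ crs (S t).1 b = (S t).2.1 + 2) ∨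
      (crs (S t).1 v = (S t).2.1 + 2 ∧ crs (S t).1 b = (S t).2.1 + 1)) : Chg r T V S t := by
  have htT := hS.sub ht
  have hve : v ≠ v + (S t).1 := by
    intro h
    have h0 : (S t).1 = 0 := by
      have := congrArg (fun z => z - v) h
      simpa using this.symm
    have := (hS.dir t ht).1
    rw [h0] at this
    exact not_isCoprime_zero_zero this
  have hv : v ∈ t := (Finset.ext_iff.mp htv _).mpr (by simp)
  have hv' : v + (S t).1 ∈ t := (Finset.ext_iff.mp htv _).mpr (by simp)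
  have hb : b ∈ t := (Finset.ext_iff.mp htv _).mpr (by simp)
  have hlv' : crs (S t).1 (v + (S t).1) = crs (S t).1 v := by rw [cr_add, cr_self]; ring
  obtain ⟨s, hsT, hst, hvs, hvs'⟩ := hS.nb t ht v hv _ hv' hve
  obtain ⟨a, hsa, hda, hd1⟩ := opp hT htT hsT hst hve htv hvs hvs'
  have has : a ∈ s := by rw [hsa]; simp
  have hdet : ∀ z : Pt, det v (v + (S t).1) z = crs (S t).1 z - crs (S t).1 v := by
    intro z; simp only [det, crs, Prod.fst_add, Prod.snd_add]; ring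
  rw [hdet, hdet] at hda
  by_cases hsV : s ∈ V
  swap
  · -- bad neighbour
    refine ⟨s, hsT, hsV, v, hvs, _, hvs', hve, t, htT, ⟨hv, hv'⟩, 0, Nat.zero_le _, v, ?_, v + (S t).1, ?_,
      hve, hv, hv'⟩
    · simp [W]
    · simp [W]
  by_cases hSs : S s = S t
  · -- same slab: fans at `a`
    have hl1 : (crs (S t).1 a = (S t).2.1 ∧ crs (S t).1 v = (S t).2.1 + 1) ∨
        (crs (S t).1 a = (S t).2.1 + 3 ∧ crs (S t).1 v = (S t).2.1 + 2) := by omega
    have hl2 : (crs (S t).1 a = (S t).2.1 ∧ crs (S t).1 (v + (S t).1) = (S t).2.1 + 1) ∨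
        (crs (S t).1 a = (S t).2.1 + 3 ∧ crs (S t).1 (v + (S t).1) = (S t).2.1 + 2) := by
      rw [hlv']; exact hl1
    rcases fan_or hT hS hw hl1 ⟨s, hsV, hSs, has, hvs⟩ r with h1 | h1
    swap
    · exact chg_of_stop hS hl1 h1 (Or.inr (Or.inl ⟨hv, hv', hve⟩))
    rcases fan_or hT hS hw hl2 ⟨s, hsV, hSs, has, hvs'⟩ r with h2 | h2
    swap
    · refine chg_of_stop hS hl2 h2 (Or.inr (Or.inr ⟨hv', ?_, ?_⟩))
      · rw [add_sub_cancel_right]; exact hv
      · rw [add_sub_cancel_right]; exact hve.symm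
    exfalso
    apply hF
    refine Or.inr (Or.inr ⟨s, hsV, hSs, hst, a, v, v + (S t).1, ?_, ?_, hv, hv', hve, h1, h2⟩)
    · rw [hsa]; exact (perm3c _ _ _).trans (perm3c _ _ _)
    · intro hat
      replace hat := (Finset.ext_iff.mp htv _).mp hat
      simp only [Finset.mem_insert, Finset.mem_singleton] at hat
      rcases hat with h | h | h
      · rw [h] at hl1; omega
      · rw [h, hlv'] at hl1; omega
      · rw [h] at hl1; omega
  · -- different slabs: straight line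
    have he : (S s).1 = (S t).1 := by
      have h0 : crs (S s).1 v = crs (S s).1 (v + (S t).1) := by
        by_contra hcon
        exact hSs (hS.adj s hsV t ht v _ hvs hvs' hv hv' hcon).symm
      rw [cr_add] at h0
      exact dir_eq (hS.dir t ht) (hS.dir s hsV) (by omega)
    have hF' : ¬ Straight r V S t := fun h => hF (Or.inl h)
    rcases hlev with hl | hl
    · -- `t` above
      have hI : Inv V S (S t) (S s) v := by
        refine ⟨⟨t, ht, rfl, hv, hv', b, hb, by omega⟩, s, hsV, rfl, hvs, hvs', a, has, ?_⟩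
        rw [cr_neg_left, cr_neg_left]; omega
      rcases line_or hT hS he (Ne.symm hSs) hI r with h | h
      · exfalso
        apply hF'
        refine ⟨v, hv, hv', fun j hj => ?_⟩
        obtain ⟨⟨u, hu, hSu, hxu, hxu', -⟩, -⟩ := h j hj
        exact ⟨u, hu, hSu, hxu, hxu'⟩
      · exact chg_of_LC hS hve hv hv' h
    · -- `t` below
      have hI : Inv V S (S s) (S t) v := by
        refine ⟨⟨s, hsV, rfl, hvs, by rw [he]; exact hvs', a, has, by rw [he]; omega⟩,
          t, ht, rfl, hv, by rw [he]; exact hv', b, hb, ?_⟩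
        rw [cr_neg_left, cr_neg_left, he]; omega
      rcases line_or hT hS he.symm hSs hI r with h | h
      · exfalso
        apply hF'
        refine ⟨v, hv, hv', fun j hj => ?_⟩
        obtain ⟨-, u, hu, hSu, hxu, hxu', -⟩ := h j hj
        rw [he] at hxu hxu'
        exact ⟨u, hu, hSu, hxu, hxu'⟩
      · rw [he] at h
        exact chg_of_LC hS hve hv hv' h

theorem chg_of_not_fine (hT : UT n T) (hS : Str n T V S) {r : ℕ} {t : Finset Pt} (ht : t ∈ V)
    (hw : (S t).2.2 = 3) (hF : ¬ Fine3 r V S t) : Chg r T V S t := by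
  by_cases h0 : ∃ a ∈ t, crs (S t).1 a = (S t).2.1 ∨ crs (S t).1 a = (S t).2.1 + 3
  · obtain ⟨a, ha, hl⟩ := h0
    exact side_case hT hS ht hw hF ha hl
  push Not at h0
  have claim : ∀ p q b : Pt, t = {p, q, b} → (det p q b = 1 ∨ det p q b = -1) →
      crs (S t).1 p = crs (S t).1 q → Chg r T V S t := by
    intro p q b htp hd hpq
    have hp : p ∈ t := by rw [htp]; simp
    have hq : q ∈ t := by rw [htp]; simp
    have hb : b ∈ t := by rw [htp]; simp
    have l1 := hS.slab t ht p hp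
    have l2 := hS.slab t ht b hb
    rw [hw] at l1 l2
    have m1 := h0 p hp
    have m2 := h0 b hb
    have hne : crs (S t).1 p ≠ crs (S t).1 b := by
      intro h
      rw [det_eq_cr] at hd
      exact no_line (hS.dir t ht).1 hd (by rw [cr_sub]; omega) (by rw [cr_sub]; omega)
    have hd2 : crs (p - b) (q - b) = 1 ∨ crs (p - b) (q - b) = -1 := by
      rw [← det_eq_cr]
      have : det b p q = det p q b := by simp only [det]; ring
      rw [this]; exact hd
    obtain ⟨k, hk, hk1⟩ : ∃ k : ℤ, (k = 1 ∨ k = -1) ∧ crs (S t).1 (p - b) = k := by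
      rw [cr_sub]
      exact ⟨_, by omega, rfl⟩
    have hk2 : crs (S t).1 (q - b) = k := by rw [← hk1, cr_sub, cr_sub, hpq]
    rcases diff_e hd2 hk hk1 hk2 with h | h
    · -- `p = q + e`
      have hpe : p = q + (S t).1 := by
        have : p = (p - b) + b := by abel
        rw [this, h]; abel
      refine inner_case hT hS ht hw hF (v := q) (b := b) ?_ (by omega)
      calc t = {p, q, b} := htp
        _ = {q, p, b} := perm3' _ _ _
        _ = {q, q + (S t).1, b} := by rw [← hpe]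
    · have hqe : q = p + (S t).1 := by
        have : q = (q - b) + b := by abel
        rw [this, h]; abel
      refine inner_case hT hS ht hw hF (v := p) (b := b) ?_ (by omega)
      calc t = {p, q, b} := htp
        _ = {p, p + (S t).1, b} := by rw [← hqe]
  obtain ⟨p, q, b, htp, hpos⟩ := hT.exists_pos (hS.sub ht)
  have hd := hpos.2
  have hp : p ∈ t := by rw [htp]; simp
  have hq : q ∈ t := by rw [htp]; simp
  have hb : b ∈ t := by rw [htp]; simp
  have l1 := hS.slab t ht p hp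
  have l2 := hS.slab t ht q hq
  have l3 := hS.slab t ht b hb
  rw [hw] at l1 l2 l3
  have m1 := h0 p hp
  have m2 := h0 q hq
  have m3 := h0 b hb
  by_cases c1 : crs (S t).1 p = crs (S t).1 q
  · exact claim p q b htp (Or.inl hd) c1
  by_cases c2 : crs (S t).1 q = crs (S t).1 b
  · exact claim q b p (htp.trans (perm3c _ _ _)) (Or.inl (by rw [det_cyc]; exact hd)) c2
  · refine claim b p q (htp.trans ((perm3c _ _ _).trans (perm3c _ _ _)))
      (Or.inl (by rw [← hd]; simp only [det]; ring)) (by omega)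

end F3

theorem fine3_count : ∃ C : ℕ, ∀ (n : ℕ) (T V : Finset (Finset Pt)) (S : Finset Pt → Slab), UT n T →
    Str n T V S → ∀ r : ℕ,
      ({t | t ∈ V ∧ (S t).2.2 = 3 ∧ ¬ Fine3 r V S t}).ncard ≤ C * (r + 1) * (T \ V).card := by
  classical
  refine ⟨3600, fun n T V S hT hS r => ?_⟩
  have hsub : {t | t ∈ V ∧ (S t).2.2 = 3 ∧ ¬ Fine3 r V S t} ⊆
      ((T.filter (fun t => F3.Chg r T V S t) : Finset (Finset Pt)) : Set (Finset Pt)) := by
    rintro t ⟨ht, hw, hF⟩
    rw [Finset.mem_coe, Finset.mem_filter]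
    exact ⟨hS.sub ht, F3.chg_of_not_fine hT hS ht hw hF⟩
  calc _ ≤ ((T.filter (fun t => F3.Chg r T V S t) : Finset (Finset Pt)) : Set (Finset Pt)).ncard :=
        Set.ncard_le_ncard hsub (Finset.finite_toSet _)
    _ = (T.filter (fun t => F3.Chg r T V S t)).card := Set.ncard_coe_finset _
    _ ≤ (T \ V).card * (3 * (3 * (2 * ((r + 1) * (100 * 2))))) := by
        convert F3.chg_count hT r
    _ = 3600 * (r + 1) * (T \ V).card := by ring

end Pool.Agent.IT
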