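import Pool.Agent.IT.LowerDefs

/-!
# MP_da73da_co: growth of `Z3`, by a transfer matrix certificate with 361 states
-/

set_option autoImplicit false

namespace Pool.Agent.IT.LN

open Finset

/-- number of zero-jump positions for two lists of apexes, with offset `k` -/
def zc : ℤ → List ℕ → List ℕ → ℕ
  | k, a :: A, b :: B => (if k + a + b = 1 then 1 else 0) + zc (k - 2) A B
  | _, [], _ => 0
  | _, _ :: _, [] => 0

/-- number of zero-jump units of the line between `u` and `v`, with offset `k` -/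
def wt (k : ℤ) (u v : List Bool) : ℕ := zc k (apx true u 0) (apx false v 0)

theorem apx_add (b : Bool) (w : List Bool) (m c : ℕ) :
    apx b w (m + c) = (apx b w m).map (· + c) := by
  induction w generalizing m with
  | nil => rfl
  | cons d w ih =>
    by_cases h : d = b
    · simp [apx, h, ih]
    · simp only [apx, h, if_false]
      rw [← ih, show m + c + 1 = m + 1 + c by omega]

theorem apx_append (b : Bool) (u v : List Bool) (m : ℕ) :
    apx b (u ++ v) m = apx b u m ++ (apx b v 0).map (· + (m + u.count (!b))) := by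
  induction u generalizing m with
  | nil =>
    have := apx_add b v 0 m
    simp only [zero_add] at this
    simp [apx, this]
  | cons d u ih =>
    by_cases h : d = b
    · subst h
      simp [apx, ih]
    · have h' : d = !b := by cases d <;> cases b <;> simp_all
      subst h'
      have h2 : ¬ ((!b) = b) := h
      simp only [List.cons_append, apx, h2, if_false, ih, List.count_cons_self]
      congr 1
      congr 1
      funext x
      omega

theorem zc_map (A B : List ℕ) (k : ℤ) (c d : ℕ) :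
    zc k (A.map (· + c)) (B.map (· + d)) = zc (k + c + d) A B := by
  induction A generalizing B k with
  | nil => simp [zc]
  | cons a A ih =>
    cases B with
    | nil => simp [zc]
    | cons b B =>
      simp only [List.map_cons, zc, ih]
      have e1 : (k + ((a + c : ℕ) : ℤ) + ((b + d : ℕ) : ℤ) = 1) ↔ (k + c + d + a + b = 1) := by
        push_cast
        constructor <;> intro h <;> linarith
      have e2 : k - 2 + (c : ℤ) + d = k + c + d - 2 := by ring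
      simp only [e1, e2]

theorem zc_append (A B A' B' : List ℕ) (k : ℤ) (h : A.length = B.length) :
    zc k (A ++ A') (B ++ B') = zc k A B + zc (k - 2 * A.length) A' B' := by
  induction A generalizing B k with
  | nil =>
    cases B with
    | nil => simp [zc]
    | cons b B => simp at h
  | cons a A ih =>
    cases B with
    | nil => simp at h
    | cons b B =>
      have h' : A.length = B.length := by simpa using h
      simp only [List.cons_append, zc, ih B (k - 2) h', List.length_cons]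
      have e : k - 2 - 2 * (A.length : ℤ) = k - 2 * ((A.length + 1 : ℕ) : ℤ) := by
        push_cast
        ring
      rw [e]
      omega

theorem wt_append (k : ℤ) (u v u' v' : List Bool) (m0 m1 m2 : ℕ) (h0 : u.count false = m0)
    (h1 : u.count true = m1) (h1' : v.count false = m1) (h2 : v.count true = m2) :
    wt k (u ++ u') (v ++ v') = wt k u v + wt (k + m0 + m2 - 2 * m1) u' v' := by
  unfold wt
  rw [apx_append, apx_append, zc_append _ _ _ _ _ (by rw [length_apx, length_apx, h1, h1']),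
    zc_map, length_apx]
  simp only [Bool.not_true, Bool.not_false, zero_add, h0, h1, h2]
  congr 2
  ring

/-- card form of `zc` -/
theorem zc_card (A B : List ℕ) (k : ℤ) (h : A.length = B.length) :
    zc k A B = ((range A.length).filter
      (fun i => k + A.getD i 0 + B.getD i 0 = 2 * (i : ℤ) + 1)).card := by
  induction A generalizing B k with
  | nil => simp [zc]
  | cons a A ih =>
    cases B with
    | nil => simp at h
    | cons b B =>
      have h' : A.length = B.length := by simpa using h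
      rw [zc, ih B (k - 2) h', List.length_cons, card_filter, card_filter, sum_range_succ', add_comm]
      congr 1
      refine sum_congr rfl (fun i _ => ?_)
      simp only [List.getD_cons_succ]
      have e : (k - 2 + ((A.getD i 0 : ℕ) : ℤ) + ((B.getD i 0 : ℕ) : ℤ) = 2 * (i : ℤ) + 1) ↔
          (k + ((A.getD i 0 : ℕ) : ℤ) + ((B.getD i 0 : ℕ) : ℤ) = 2 * ((i + 1 : ℕ) : ℤ) + 1) := by
        push_cast
        constructor <;> intro h <;> linarith
      simp only [e]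

/-! ## Triples of words -/

abbrev Tr := List Bool × List Bool × List Bool

def app (s t : Tr) : Tr := (s.1 ++ t.1, s.2.1 ++ t.2.1, s.2.2 ++ t.2.2)

def W (k1 k2 : ℤ) (t : Tr) : ℕ := 2 ^ (wt k1 t.1 t.2.1 + wt k2 t.2.1 t.2.2)

def TS (m0 m1 m2 m3 : ℕ) : Finset Tr := words m0 m1 ×ˢ (words m1 m2 ×ˢ words m2 m3)

def Z (m0 m1 m2 m3 : ℕ) (k1 k2 : ℤ) : ℕ := ∑ t ∈ TS m0 m1 m2 m3, W k1 k2 t

theorem mem_TS {m0 m1 m2 m3 : ℕ} {t : Tr} : t ∈ TS m0 m1 m2 m3 ↔
    (t.1.count false = m0 ∧ t.1.count true = m1) ∧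
    (t.2.1.count false = m1 ∧ t.2.1.count true = m2) ∧
    (t.2.2.count false = m2 ∧ t.2.2.count true = m3) := by
  simp only [TS, mem_product, mem_words]

theorem W_app {m0 m1 m2 m3 : ℕ} {s : Tr} (hs : s ∈ TS m0 m1 m2 m3) (t : Tr) (k1 k2 : ℤ) :
    W k1 k2 (app s t) =
      W k1 k2 s * W (k1 + m0 + m2 - 2 * m1) (k2 + m1 + m3 - 2 * m2) t := by
  rw [mem_TS] at hs
  obtain ⟨⟨a1, a2⟩, ⟨a3, a4⟩, a5, a6⟩ := hs
  simp only [W, app]
  rw [wt_append k1 s.1 s.2.1 t.1 t.2.1 m0 m1 m2 a1 a2 a3 a4,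
    wt_append k2 s.2.1 s.2.2 t.2.1 t.2.2 m1 m2 m3 a3 a4 a5 a6, ← pow_add]
  congr 1
  omega

theorem app_mem {m0 m1 m2 m3 n0 n1 n2 n3 : ℕ} {s t : Tr} (hs : s ∈ TS m0 m1 m2 m3)
    (ht : t ∈ TS n0 n1 n2 n3) : app s t ∈ TS (m0 + n0) (m1 + n1) (m2 + n2) (m3 + n3) := by
  rw [mem_TS] at *
  obtain ⟨⟨a1, a2⟩, ⟨a3, a4⟩, a5, a6⟩ := hs
  obtain ⟨⟨b1, b2⟩, ⟨b3, b4⟩, b5, b6⟩ := ht
  simp only [app, List.count_append]
  refine ⟨⟨?_, ?_⟩, ⟨?_, ?_⟩, ?_, ?_⟩ <;> omega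

theorem len_of_count {u : List Bool} {a b : ℕ} (h1 : u.count false = a) (h2 : u.count true = b) :
    u.length = a + b := by
  have := List.length_eq_countP_add_countP (fun x => x == false) (l := u)
  have e1 : u.countP (fun x => x == false) = a := by rw [← h1]; rfl
  have e2 : u.countP (fun x => ¬ (x == false) = true) = b := by
    rw [← h2]
    unfold List.count
    congr 1
    funext x
    cases x <;> rfl
  omega

theorem app_inj {m0 m1 m2 m3 : ℕ} {s s' t t' : Tr} (hs : s ∈ TS m0 m1 m2 m3)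
    (hs' : s' ∈ TS m0 m1 m2 m3) (h : app s t = app s' t') : s = s' ∧ t = t' := by
  rw [mem_TS] at *
  obtain ⟨⟨a1, a2⟩, ⟨a3, a4⟩, a5, a6⟩ := hs
  obtain ⟨⟨b1, b2⟩, ⟨b3, b4⟩, b5, b6⟩ := hs'
  simp only [app, Prod.mk.injEq] at h
  obtain ⟨h1, h2, h3⟩ := h
  obtain ⟨c1, c2⟩ := List.append_inj h1 (by rw [len_of_count a1 a2, len_of_count b1 b2])
  obtain ⟨c3, c4⟩ := List.append_inj h2 (by rw [len_of_count a3 a4, len_of_count b3 b4])
  obtain ⟨c5, c6⟩ := List.append_inj h3 (by rw [len_of_count a5 a6, len_of_count b5 b6])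
  exact ⟨Prod.ext c1 (Prod.ext c3 c5), Prod.ext c2 (Prod.ext c4 c6)⟩

theorem Z_mul (m0 m1 m2 m3 n0 n1 n2 n3 : ℕ) (k1 k2 : ℤ) :
    Z m0 m1 m2 m3 k1 k2 *
      Z n0 n1 n2 n3 (k1 + m0 + m2 - 2 * m1) (k2 + m1 + m3 - 2 * m2) ≤
      Z (m0 + n0) (m1 + n1) (m2 + n2) (m3 + n3) k1 k2 := by
  unfold Z
  rw [sum_mul_sum, ← sum_product']
  have e : ∀ p ∈ TS m0 m1 m2 m3 ×ˢ TS n0 n1 n2 n3,
      W k1 k2 p.1 * W (k1 + m0 + m2 - 2 * m1) (k2 + m1 + m3 - 2 * m2) p.2 =
        W k1 k2 (app p.1 p.2) := by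
    intro p hp
    rw [mem_product] at hp
    rw [W_app hp.1]
  rw [sum_congr rfl e]
  have inj : Set.InjOn (fun p : Tr × Tr => app p.1 p.2)
      (TS m0 m1 m2 m3 ×ˢ TS n0 n1 n2 n3 : Finset (Tr × Tr)) := by
    intro p hp q hq h
    simp only [coe_product, Set.mem_prod, mem_coe] at hp hq
    obtain ⟨h1, h2⟩ := app_inj hp.1 hq.1 h
    exact Prod.ext h1 h2
  rw [← sum_image (f := fun t => W k1 k2 t) inj]
  refine sum_le_sum_of_subset ?_
  intro t ht
  rw [mem_image] at ht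
  obtain ⟨p, hp, rfl⟩ := ht
  rw [mem_product] at hp
  exact app_mem hp.1 hp.2

/-! ## Mirror image -/

def neg (w : List Bool) : List Bool := w.map (!·)

theorem neg_neg (w : List Bool) : neg (neg w) = w := by
  simp [neg, Function.comp_def]

theorem count_neg (w : List Bool) (b : Bool) : (neg w).count b = w.count (!b) := by
  induction w with
  | nil => rfl
  | cons c w ih =>
    simp only [neg, List.map_cons, List.count_cons] at *
    rw [ih]
    cases b <;> cases c <;> rfl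

theorem apx_neg (b : Bool) (w : List Bool) (m : ℕ) : apx b (neg w) m = apx (!b) w m := by
  induction w generalizing m with
  | nil => rfl
  | cons c w ih =>
    simp only [neg, List.map_cons, apx] at *
    rw [ih, ih]
    cases b <;> cases c <;> simp

theorem zc_comm (A B : List ℕ) (k : ℤ) : zc k A B = zc k B A := by
  induction A generalizing B k with
  | nil => cases B <;> simp [zc]
  | cons a A ih =>
    cases B with
    | nil => simp [zc]
    | cons b B =>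
      simp only [zc, ih]
      have e : k + (a : ℤ) + b = k + b + a := by ring
      rw [e]

theorem wt_neg (k : ℤ) (u v : List Bool) : wt k (neg v) (neg u) = wt k u v := by
  unfold wt
  rw [apx_neg, apx_neg, zc_comm]
  rfl

def mir (t : Tr) : Tr := (neg t.2.2, neg t.2.1, neg t.1)

theorem W_mir (k1 k2 : ℤ) (t : Tr) : W k2 k1 (mir t) = W k1 k2 t := by
  simp only [W, mir, wt_neg]
  rw [add_comm]

theorem mir_mem {m0 m1 m2 m3 : ℕ} {t : Tr} (ht : t ∈ TS m0 m1 m2 m3) : mir t ∈ TS m3 m2 m1 m0 := by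
  rw [mem_TS] at *
  obtain ⟨⟨a1, a2⟩, ⟨a3, a4⟩, a5, a6⟩ := ht
  simp only [mir, count_neg, Bool.not_true, Bool.not_false]
  exact ⟨⟨a6, a5⟩, ⟨a4, a3⟩, a2, a1⟩

theorem mir_mir (t : Tr) : mir (mir t) = t := by
  simp only [mir, neg_neg]

theorem Z_mir (m0 m1 m2 m3 : ℕ) (k1 k2 : ℤ) : Z m0 m1 m2 m3 k1 k2 = Z m3 m2 m1 m0 k2 k1 := by
  unfold Z
  refine sum_bij' (fun t _ => mir t) (fun t _ => mir t) (fun t ht => mir_mem ht)
    (fun t ht => mir_mem ht) (fun t _ => mir_mir t) (fun t _ => mir_mir t) (fun t _ => ?_)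
  rw [W_mir]

theorem Z_pos (m0 m1 m2 m3 : ℕ) (k1 k2 : ℤ) : 1 ≤ Z m0 m1 m2 m3 k1 k2 := by
  unfold Z
  have hmem : ∀ a b : ℕ, List.replicate a false ++ List.replicate b true ∈ words a b := by
    intro a b
    rw [mem_words]
    simp [List.count_append, List.count_replicate]
  have hm : ((List.replicate m0 false ++ List.replicate m1 true,
      List.replicate m1 false ++ List.replicate m2 true,
      List.replicate m2 false ++ List.replicate m3 true) : Tr) ∈ TS m0 m1 m2 m3 := by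
    simp only [TS, mem_product]
    exact ⟨hmem _ _, hmem _ _, hmem _ _⟩
  refine le_trans ?_ (single_le_sum (f := fun t => W k1 k2 t) (fun t _ => Nat.zero_le _) hm)
  exact Nat.one_le_two_pow

theorem zer_card {u v : List Bool} (h : u.count true = v.count false) :
    (zer u v).card = wt 0 u v := by
  unfold wt zer
  rw [zc_card _ _ _ (by rw [length_apx, length_apx, h]), length_apx]
  congr 1
  refine filter_congr (fun i _ => ?_)
  rw [zero_add]
  norm_cast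

theorem Z3_eq (n : ℕ) : Z3 n = Z n n n n 0 0 := by
  unfold Z3 Z
  refine sum_congr rfl (fun t ht => ?_)
  have ht' : t ∈ TS n n n n := ht
  rw [mem_TS] at ht'
  obtain ⟨⟨a1, a2⟩, ⟨a3, a4⟩, a5, a6⟩ := ht'
  rw [zer_card (a2.trans a3.symm), zer_card (a4.trans a5.symm)]
  rfl

/-! ## Tables -/

/-- certificate, free mode; the row index is `k1 + 9`, the column index is `k2 + 9` -/
def tabF : List (List ℕ) :=
  [
   [0, 0, 0, 0, 0, 0, 1, 4, 10, 22, 43, 55, 81, 103, 134, 162, 187, 189, 142],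
   [0, 0, 0, 0, 0, 2, 5, 13, 31, 62, 112, 138, 196, 244, 312, 369, 417, 409, 292],
   [0, 0, 0, 0, 2, 6, 16, 38, 79, 153, 261, 315, 435, 535, 668, 777, 855, 809, 532],
   [0, 0, 0, 2, 6, 17, 41, 87, 172, 322, 538, 633, 857, 1036, 1271, 1452, 1562, 1442, 929],
   [0, 0, 2, 6, 18, 42, 91, 184, 353, 641, 1048, 1211, 1613, 1916, 2307, 2584, 2726, 2460, 1556],
   [0, 2, 6, 17, 42, 92, 188, 366, 685, 1221, 1961, 2228, 2916, 3395, 4017, 4416, 4567, 4038,
    2502],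
   [1, 5, 16, 41, 91, 188, 370, 701, 1286, 2255, 3566, 3969, 5097, 5824, 6754, 7265, 7341, 6344,
    3836],
   [4, 13, 38, 87, 184, 366, 701, 1302, 2351, 4051, 6282, 6846, 8609, 9611, 10870, 11418, 11256,
    9520, 5587],
   [10, 31, 79, 172, 353, 685, 1286, 2351, 4168, 7025, 10640, 11313, 13799, 15025, 16523, 17085,
    16394, 13413, 7529],
   [22, 62, 153, 322, 641, 1221, 2255, 4051, 7025, 11535, 16763, 17337, 20258, 21982, 23608,
    23782, 22091, 17188, 8843],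
   [43, 112, 261, 538, 1048, 1961, 3566, 6282, 10640, 16763, 22352, 23542, 26889, 28511, 29997,
    29323, 25945, 18563, 7956],
   [55, 138, 315, 633, 1211, 2228, 3969, 6846, 11313, 17337, 23542, 23400, 26548, 27509, 28329,
    27024, 23342, 16498, 7809],
   [81, 196, 435, 857, 1613, 2916, 5097, 8609, 13799, 20258, 26889, 26548, 29406, 29877, 30000,
    27694, 22914, 15394, 7204],
   [103, 244, 535, 1036, 1916, 3395, 5824, 9611, 15025, 21982, 28511, 27509, 29877, 29646, 29041,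
    26129, 21138, 14201, 6371],
   [134, 312, 668, 1271, 2307, 4017, 6754, 10870, 16523, 23608, 29997, 28329, 30000, 29041,
    27571, 23992, 18693, 12163, 5218],
   [162, 369, 777, 1452, 2584, 4416, 7265, 11418, 17085, 23782, 29323, 27024, 27694, 26129,
    23992, 20282, 15311, 9457, 3746],
   [187, 417, 855, 1562, 2726, 4567, 7341, 11256, 16394, 22091, 25945, 23342, 22914, 21138,
    18693, 15311, 10992, 6251, 2130],
   [189, 409, 809, 1442, 2460, 4038, 6344, 9520, 13413, 17188, 18563, 16498, 15394, 14201, 12163,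
    9457, 6251, 3050, 726],
   [142, 292, 532, 929, 1556, 2502, 3836, 5587, 7529, 8843, 7956, 7809, 7204, 6371, 5218, 3746,
    2130, 726, 0]]

/-- certificate, mode 1 -/
def tabA : List (List ℕ) :=
  [
   [0, 0, 0, 0, 0, 0, 0, 1, 3, 6, 7, 11, 14, 17, 20, 22, 21, 15, 0],
   [0, 0, 0, 0, 0, 1, 2, 5, 11, 19, 23, 33, 41, 51, 60, 66, 64, 44, 0],
   [0, 0, 0, 0, 1, 3, 7, 17, 33, 58, 70, 98, 120, 151, 177, 196, 189, 131, 0],
   [0, 0, 0, 1, 3, 8, 19, 40, 75, 128, 152, 207, 251, 310, 357, 389, 366, 244, 0],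
   [0, 0, 1, 3, 9, 21, 44, 87, 160, 263, 307, 411, 492, 597, 676, 722, 662, 423, 0],
   [0, 1, 3, 9, 21, 46, 92, 176, 316, 511, 584, 770, 905, 1080, 1202, 1258, 1129, 708, 0],
   [1, 3, 9, 22, 47, 96, 185, 343, 604, 960, 1078, 1396, 1613, 1891, 2065, 2120, 1862, 1143, 0],
   [3, 8, 21, 47, 97, 190, 358, 651, 1129, 1761, 1945, 2472, 2805, 3228, 3459, 3478, 2989, 1791,
    0],
   [7, 20, 46, 97, 193, 369, 682, 1222, 2084, 3194, 3464, 4317, 4813, 5428, 5706, 5610, 4710,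
    2740, 0],
   [16, 43, 95, 194, 378, 710, 1295, 2290, 3845, 5782, 6169, 7536, 8260, 9129, 9433, 9074, 7438,
    4182, 0],
   [36, 89, 191, 386, 741, 1377, 2488, 4350, 7202, 10638, 11206, 13441, 14559, 15842, 16183,
    15294, 12245, 6650, 0],
   [44, 105, 217, 426, 800, 1458, 2579, 4392, 7025, 9848, 10163, 11731, 12551, 13308, 13183,
    11963, 9002, 4402, 0],
   [67, 155, 315, 606, 1121, 2012, 3496, 5826, 9022, 12052, 12402, 14068, 14743, 15331, 14792,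
    12914, 9154, 4037, 0],
   [86, 193, 384, 726, 1319, 2322, 3948, 6409, 9637, 12912, 12746, 14275, 14626, 14863, 13960,
    11841, 8223, 3856, 0],
   [114, 252, 491, 914, 1634, 2825, 4706, 7440, 10861, 14238, 13895, 15222, 15288, 15160, 13822,
    11306, 7563, 3475, 0],
   [140, 303, 581, 1064, 1867, 3169, 5163, 7970, 11521, 14772, 14108, 15133, 14855, 14358, 12750,
    10168, 6737, 2965, 0],
   [166, 353, 666, 1198, 2070, 3449, 5497, 8297, 11728, 14712, 13770, 14402, 13821, 12971, 11179,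
    8615, 5511, 2305, 0],
   [174, 365, 678, 1201, 2042, 3340, 5216, 7754, 10708, 13052, 11962, 12141, 11399, 10383, 8719,
    6516, 3962, 1528, 0],
   [142, 292, 533, 931, 1560, 2508, 3846, 5603, 7550, 8867, 7977, 7831, 7224, 6388, 5232, 3756,
    2136, 727, 0]]

/-! ## Certificate -/

/-- weight of a unit on a line with offset index `i = k + 9` -/
def wi (i : ℕ) : ℕ := if i = 10 then 2 else 1

def tF (i j : ℕ) : ℕ := (tabF.getD i []).getD j 0

def tA (i j : ℕ) : ℕ := (tabA.getD i []).getD j 0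

set_option maxRecDepth 100000 in
theorem cert1 : ∀ i < 19, ∀ j < 19,
    79 * tA i j ≤ 27 * (wi i * (if 2 ≤ i then tF (i - 2) (j + 1) else 0) + tA (i + 1) j) := by
  decide +kernel

set_option maxRecDepth 100000 in
theorem cert2 : ∀ i < 19, ∀ j < 19, tF i j ≤ tA i j + tA j i ∧ tF i j = tF j i ∧
    tF i j ≤ 30000 ∧ tA i j ≤ 30000 := by
  decide +kernel

set_option maxRecDepth 100000 in
theorem cert3 : tabF.length = 19 ∧ tabA.length = 19 ∧ (∀ l ∈ tabF, l.length = 19) ∧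
    (∀ l ∈ tabA, l.length = 19) := by
  decide +kernel

theorem tF_zero {i j : ℕ} (h : 19 ≤ i ∨ 19 ≤ j) : tF i j = 0 := by
  unfold tF
  by_cases hi : i < tabF.length
  · have hj : 19 ≤ j := by
      rw [cert3.1] at hi
      omega
    rw [List.getD_eq_getElem _ _ hi, List.getD_eq_default]
    rw [cert3.2.2.1 _ (List.getElem_mem hi)]
    exact hj
  · have e : tabF.getD i [] = [] := List.getD_eq_default _ _ (not_lt.mp hi)
    rw [e]
    rfl

theorem tA_zero {i j : ℕ} (h : 19 ≤ i ∨ 19 ≤ j) : tA i j = 0 := by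
  unfold tA
  by_cases hi : i < tabA.length
  · have hj : 19 ≤ j := by
      rw [cert3.2.1] at hi
      omega
    rw [List.getD_eq_getElem _ _ hi, List.getD_eq_default]
    rw [cert3.2.2.2 _ (List.getElem_mem hi)]
    exact hj
  · have e : tabA.getD i [] = [] := List.getD_eq_default _ _ (not_lt.mp hi)
    rw [e]
    rfl

/-- the window -/
def Win (k1 k2 : ℤ) : Prop := -9 ≤ k1 ∧ k1 ≤ 9 ∧ -9 ≤ k2 ∧ k2 ≤ 9

instance (k1 k2 : ℤ) : Decidable (Win k1 k2) := by unfold Win; infer_instance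

def fF (k1 k2 : ℤ) : ℕ := if Win k1 k2 then tF (k1 + 9).toNat (k2 + 9).toNat else 0

def fA (k1 k2 : ℤ) : ℕ := if Win k1 k2 then tA (k1 + 9).toNat (k2 + 9).toNat else 0

def w1 (k : ℤ) : ℕ := if k = 1 then 2 else 1

theorem fF_eq {k1 k2 : ℤ} (h1 : -9 ≤ k1) (h2 : -9 ≤ k2) :
    fF k1 k2 = tF (k1 + 9).toNat (k2 + 9).toNat := by
  unfold fF
  by_cases h : Win k1 k2
  · rw [if_pos h]
  · rw [if_neg h, tF_zero]
    unfold Win at h
    omega

theorem fA_eq {k1 k2 : ℤ} (h1 : -9 ≤ k1) (h2 : -9 ≤ k2) :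
    fA k1 k2 = tA (k1 + 9).toNat (k2 + 9).toNat := by
  unfold fA
  by_cases h : Win k1 k2
  · rw [if_pos h]
  · rw [if_neg h, tA_zero]
    unfold Win at h
    omega

theorem step1 (k1 k2 : ℤ) :
    79 * fA k1 k2 ≤ 27 * (w1 k1 * fF (k1 - 2) (k2 + 1) + fA (k1 + 1) k2) := by
  by_cases h : Win k1 k2
  · obtain ⟨a1, a2, a3, a4⟩ := h
    obtain ⟨i, hi⟩ : ∃ i : ℕ, k1 + 9 = i := ⟨(k1 + 9).toNat, by omega⟩
    obtain ⟨j, hj⟩ : ∃ j : ℕ, k2 + 9 = j := ⟨(k2 + 9).toNat, by omega⟩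
    have hc := cert1 i (by omega) j (by omega)
    have e1 : fA k1 k2 = tA i j := by
      rw [fA_eq a1 a3, hi, hj]
      rfl
    have e2 : fA (k1 + 1) k2 = tA (i + 1) j := by
      rw [fA_eq (by omega) a3, hj, show k1 + 1 + 9 = ((i + 1 : ℕ) : ℤ) by push_cast; omega]
      rfl
    have e3 : w1 k1 = wi i := by
      unfold w1 wi
      by_cases h : k1 = 1
      · rw [if_pos h, if_pos (by omega)]
      · rw [if_neg h, if_neg (by omega)]
    have e4 : (if 2 ≤ i then tF (i - 2) (j + 1) else 0) ≤ fF (k1 - 2) (k2 + 1) := by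
      split_ifs with h2
      · rw [fF_eq (by omega) (by omega), show k1 - 2 + 9 = ((i - 2 : ℕ) : ℤ) by omega,
          show k2 + 1 + 9 = ((j + 1 : ℕ) : ℤ) by push_cast; omega]
        exact le_rfl
      · exact Nat.zero_le _
    rw [e1, e2, e3]
    refine hc.trans (Nat.mul_le_mul_left _ (Nat.add_le_add_right (Nat.mul_le_mul_left _ e4) _))
  · have : fA k1 k2 = 0 := by
      unfold fA
      rw [if_neg h]
    rw [this]
    omega

theorem fF_symm (k1 k2 : ℤ) : fF k1 k2 = fF k2 k1 := by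
  by_cases h : Win k1 k2
  · obtain ⟨a1, a2, a3, a4⟩ := h
    rw [fF_eq a1 a3, fF_eq a3 a1]
    exact (cert2 _ (by omega) _ (by omega)).2.1
  · unfold fF
    rw [if_neg h, if_neg]
    unfold Win at *
    omega

theorem step2 (k1 k2 : ℤ) :
    79 * fA k2 k1 ≤ 27 * (w1 k2 * fF (k1 + 1) (k2 - 2) + fA (k2 + 1) k1) := by
  rw [fF_symm (k1 + 1) (k2 - 2)]
  exact step1 k2 k1

theorem step0 (k1 k2 : ℤ) : fF k1 k2 ≤ fA k1 k2 + fA k2 k1 := by
  by_cases h : Win k1 k2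
  · obtain ⟨a1, a2, a3, a4⟩ := h
    rw [fF_eq a1 a3, fA_eq a1 a3, fA_eq a3 a1]
    exact (cert2 _ (by omega) _ (by omega)).1
  · unfold fF
    rw [if_neg h]
    exact Nat.zero_le _

theorem fF_le (k1 k2 : ℤ) : fF k1 k2 ≤ if Win k1 k2 then 30000 else 0 := by
  unfold fF
  split_ifs with h
  · obtain ⟨a1, a2, a3, a4⟩ := h
    exact (cert2 _ (by omega) _ (by omega)).2.2.1
  · exact le_rfl

theorem fA_le (k1 k2 : ℤ) : fA k1 k2 ≤ if Win k1 k2 then 30000 else 0 := by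
  unfold fA
  split_ifs with h
  · obtain ⟨a1, a2, a3, a4⟩ := h
    exact (cert2 _ (by omega) _ (by omega)).2.2.2
  · exact le_rfl

theorem fF_zero : fF 0 0 = 11535 := by decide +kernel

/-! ## Normal form paths -/

def c0 (t : Tr) : Tr := (false :: t.1, t.2.1, t.2.2)
def c1 (t : Tr) : Tr := (true :: t.1, false :: t.2.1, t.2.2)
def c2 (t : Tr) : Tr := (t.1, true :: t.2.1, false :: t.2.2)
def c3 (t : Tr) : Tr := (t.1, t.2.1, true :: t.2.2)

/-- triples of words made by `N` moves in normal form, in free mode, in mode `1`, in mode `2` -/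
def P : ℕ → Finset Tr × Finset Tr × Finset Tr
  | 0 => ({([], [], [])}, {([], [], [])}, {([], [], [])})
  | N + 1 => (((P N).2.1.image c0 ∪ (P N).1.image c1) ∪ ((P N).2.2.image c3 ∪ (P N).1.image c2),
      (P N).2.1.image c0 ∪ (P N).1.image c1, (P N).2.2.image c3 ∪ (P N).1.image c2)

theorem inv1 (N : ℕ) : ∀ t ∈ (P N).2.1, (∃ w, t.2.1 = false :: w) ∨ (t.2.1 = [] ∧ t.2.2 = []) := by
  induction N with
  | zero =>
    intro t ht
    simp only [P, mem_singleton] at ht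
    rw [ht]
    right
    exact ⟨rfl, rfl⟩
  | succ N ih =>
    intro t ht
    simp only [P, mem_union, mem_image] at ht
    rcases ht with ⟨s, hs, rfl⟩ | ⟨s, hs, rfl⟩
    · exact ih s hs
    · left
      exact ⟨_, rfl⟩

theorem inv2 (N : ℕ) : ∀ t ∈ (P N).2.2, (∃ w, t.2.1 = true :: w) ∨ (t.2.1 = [] ∧ t.1 = []) := by
  induction N with
  | zero =>
    intro t ht
    simp only [P, mem_singleton] at ht
    rw [ht]
    right
    exact ⟨rfl, rfl⟩
  | succ N ih =>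
    intro t ht
    simp only [P, mem_union, mem_image] at ht
    rcases ht with ⟨s, hs, rfl⟩ | ⟨s, hs, rfl⟩
    · exact ih s hs
    · left
      exact ⟨_, rfl⟩

/-- being a triple with `N` moves -/
def Q (N : ℕ) (t : Tr) : Prop := ∃ m0 m1 m2 m3, t ∈ TS m0 m1 m2 m3 ∧ m0 + m1 + m2 + m3 = N

theorem Q_c0 {N : ℕ} {t : Tr} (h : Q N t) : Q (N + 1) (c0 t) := by
  obtain ⟨m0, m1, m2, m3, h, e⟩ := h
  refine ⟨m0 + 1, m1, m2, m3, ?_, by omega⟩
  rw [mem_TS] at *
  simp only [c0, List.count_cons_self, List.count_cons]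
  simpa using h

theorem Q_c1 {N : ℕ} {t : Tr} (h : Q N t) : Q (N + 1) (c1 t) := by
  obtain ⟨m0, m1, m2, m3, h, e⟩ := h
  refine ⟨m0, m1 + 1, m2, m3, ?_, by omega⟩
  rw [mem_TS] at *
  simp only [c1, List.count_cons_self, List.count_cons]
  simpa using h

theorem Q_c2 {N : ℕ} {t : Tr} (h : Q N t) : Q (N + 1) (c2 t) := by
  obtain ⟨m0, m1, m2, m3, h, e⟩ := h
  refine ⟨m0, m1, m2 + 1, m3, ?_, by omega⟩
  rw [mem_TS] at *
  simp only [c2, List.count_cons_self, List.count_cons]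
  simpa using h

theorem Q_c3 {N : ℕ} {t : Tr} (h : Q N t) : Q (N + 1) (c3 t) := by
  obtain ⟨m0, m1, m2, m3, h, e⟩ := h
  refine ⟨m0, m1, m2, m3 + 1, ?_, by omega⟩
  rw [mem_TS] at *
  simp only [c3, List.count_cons_self, List.count_cons]
  simpa using h

theorem P_Q (N : ℕ) : (∀ t ∈ (P N).1, Q N t) ∧ (∀ t ∈ (P N).2.1, Q N t) ∧
    (∀ t ∈ (P N).2.2, Q N t) := by
  induction N with
  | zero =>
    have h : Q 0 (([], [], []) : Tr) := ⟨0, 0, 0, 0, by rw [mem_TS]; simp, rfl⟩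
    refine ⟨fun t ht => ?_, fun t ht => ?_, fun t ht => ?_⟩ <;>
    · simp only [P, mem_singleton] at ht
      rw [ht]
      exact h
  | succ N ih =>
    obtain ⟨i0, i1, i2⟩ := ih
    have j1 : ∀ t ∈ (P (N + 1)).2.1, Q (N + 1) t := by
      intro t ht
      simp only [P, mem_union, mem_image] at ht
      rcases ht with ⟨s, hs, rfl⟩ | ⟨s, hs, rfl⟩
      · exact Q_c0 (i1 s hs)
      · exact Q_c1 (i0 s hs)
    have j2 : ∀ t ∈ (P (N + 1)).2.2, Q (N + 1) t := by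
      intro t ht
      simp only [P, mem_union, mem_image] at ht
      rcases ht with ⟨s, hs, rfl⟩ | ⟨s, hs, rfl⟩
      · exact Q_c3 (i2 s hs)
      · exact Q_c2 (i0 s hs)
    refine ⟨fun t ht => ?_, j1, j2⟩
    have e : (P (N + 1)).1 = (P (N + 1)).2.1 ∪ (P (N + 1)).2.2 := rfl
    rw [e, mem_union] at ht
    exact ht.elim (j1 t) (j2 t)

/-- final offsets -/
def e1 (k : ℤ) (t : Tr) : ℤ := k + t.1.count false + t.2.1.count true - 2 * t.2.1.count false
def e2 (k : ℤ) (t : Tr) : ℤ := k + t.2.1.count false + t.2.2.count true - 2 * t.2.1.count true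

/-- weight of a path ending in the window -/
def V (k1 k2 : ℤ) (t : Tr) : ℕ := if Win (e1 k1 t) (e2 k2 t) then W k1 k2 t else 0

theorem W_c0 (k1 k2 : ℤ) (t : Tr) : W k1 k2 (c0 t) = W (k1 + 1) k2 t := by
  have h := W_app (m0 := 1) (m1 := 0) (m2 := 0) (m3 := 0) (s := ([false], [], []))
    (by rw [mem_TS]; simp) t k1 k2
  have e : app ([false], [], []) t = c0 t := rfl
  rw [e] at h
  rw [h]
  have : W k1 k2 ([false], [], []) = 1 := by simp [W, wt, apx, zc]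
  rw [this, one_mul]
  congr 1 <;> push_cast <;> ring

theorem W_c3 (k1 k2 : ℤ) (t : Tr) : W k1 k2 (c3 t) = W k1 (k2 + 1) t := by
  have h := W_app (m0 := 0) (m1 := 0) (m2 := 0) (m3 := 1) (s := ([], [], [true]))
    (by rw [mem_TS]; simp) t k1 k2
  have e : app ([], [], [true]) t = c3 t := rfl
  rw [e] at h
  rw [h]
  have : W k1 k2 ([], [], [true]) = 1 := by simp [W, wt, apx, zc]
  rw [this, one_mul]
  congr 1 <;> push_cast <;> ring

theorem W_c1 (k1 k2 : ℤ) (t : Tr) : W k1 k2 (c1 t) = w1 k1 * W (k1 - 2) (k2 + 1) t := by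
  have h := W_app (m0 := 0) (m1 := 1) (m2 := 0) (m3 := 0) (s := ([true], [false], []))
    (by rw [mem_TS]; simp) t k1 k2
  have e : app ([true], [false], []) t = c1 t := rfl
  rw [e] at h
  rw [h]
  have : W k1 k2 ([true], [false], []) = w1 k1 := by
    by_cases h : k1 = 1 <;> simp [W, wt, apx, w1, zc, h]
  rw [this]
  congr 2 <;> push_cast <;> ring

theorem W_c2 (k1 k2 : ℤ) (t : Tr) : W k1 k2 (c2 t) = w1 k2 * W (k1 + 1) (k2 - 2) t := by
  have h := W_app (m0 := 0) (m1 := 0) (m2 := 1) (m3 := 0) (s := ([], [true], [false]))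
    (by rw [mem_TS]; simp) t k1 k2
  have e : app ([], [true], [false]) t = c2 t := rfl
  rw [e] at h
  rw [h]
  have : W k1 k2 ([], [true], [false]) = w1 k2 := by
    by_cases h : k2 = 1 <;> simp [W, wt, apx, w1, zc, h]
  rw [this]
  congr 2 <;> push_cast <;> ring

theorem V_c0 (k1 k2 : ℤ) (t : Tr) : V k1 k2 (c0 t) = V (k1 + 1) k2 t := by
  have a : e1 k1 (c0 t) = e1 (k1 + 1) t := by
    simp only [e1, c0, List.count_cons_self]
    push_cast
    ring
  have b : e2 k2 (c0 t) = e2 k2 t := rfl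
  simp only [V, a, b, W_c0]

theorem V_c3 (k1 k2 : ℤ) (t : Tr) : V k1 k2 (c3 t) = V k1 (k2 + 1) t := by
  have a : e2 k2 (c3 t) = e2 (k2 + 1) t := by
    simp only [e2, c3, List.count_cons_self]
    push_cast
    ring
  have b : e1 k1 (c3 t) = e1 k1 t := rfl
  simp only [V, a, b, W_c3]

theorem V_c1 (k1 k2 : ℤ) (t : Tr) : V k1 k2 (c1 t) = w1 k1 * V (k1 - 2) (k2 + 1) t := by
  have a : e1 k1 (c1 t) = e1 (k1 - 2) t := by
    simp only [e1, c1, List.count_cons_self, List.count_cons]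
    push_cast
    simp
    ring
  have b : e2 k2 (c1 t) = e2 (k2 + 1) t := by
    simp only [e2, c1, List.count_cons_self, List.count_cons]
    push_cast
    simp
    ring
  simp only [V, a, b, W_c1]
  split_ifs
  · rfl
  · rw [mul_zero]

theorem V_c2 (k1 k2 : ℤ) (t : Tr) : V k1 k2 (c2 t) = w1 k2 * V (k1 + 1) (k2 - 2) t := by
  have a : e1 k1 (c2 t) = e1 (k1 + 1) t := by
    simp only [e1, c2, List.count_cons_self, List.count_cons]
    push_cast
    simp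
    ring
  have b : e2 k2 (c2 t) = e2 (k2 - 2) t := by
    simp only [e2, c2, List.count_cons_self, List.count_cons]
    push_cast
    simp
    ring
  simp only [V, a, b, W_c2]
  split_ifs
  · rfl
  · rw [mul_zero]

theorem c0_inj : Function.Injective c0 := by
  rintro ⟨a, b, c⟩ ⟨a', b', c'⟩ h
  simpa [c0] using h

theorem c1_inj : Function.Injective c1 := by
  rintro ⟨a, b, c⟩ ⟨a', b', c'⟩ h
  simpa [c1] using h

theorem c2_inj : Function.Injective c2 := by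
  rintro ⟨a, b, c⟩ ⟨a', b', c'⟩ h
  simpa [c2] using h

theorem c3_inj : Function.Injective c3 := by
  rintro ⟨a, b, c⟩ ⟨a', b', c'⟩ h
  simpa [c3] using h

theorem sum1 (N : ℕ) (k1 k2 : ℤ) : ∑ t ∈ (P (N + 1)).2.1, V k1 k2 t =
    ∑ t ∈ (P N).2.1, V (k1 + 1) k2 t + w1 k1 * ∑ t ∈ (P N).1, V (k1 - 2) (k2 + 1) t := by
  have d : Disjoint ((P N).2.1.image c0) ((P N).1.image c1) := by
    rw [disjoint_left]
    intro t h1 h2
    rw [mem_image] at h1 h2
    obtain ⟨s, -, rfl⟩ := h1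
    obtain ⟨s', -, h⟩ := h2
    simp [c0, c1] at h
  have e : (P (N + 1)).2.1 = (P N).2.1.image c0 ∪ (P N).1.image c1 := rfl
  rw [e, sum_union d, sum_image c0_inj.injOn, sum_image c1_inj.injOn, mul_sum]
  simp only [V_c0, V_c1]

theorem sum2 (N : ℕ) (k1 k2 : ℤ) : ∑ t ∈ (P (N + 1)).2.2, V k1 k2 t =
    ∑ t ∈ (P N).2.2, V k1 (k2 + 1) t + w1 k2 * ∑ t ∈ (P N).1, V (k1 + 1) (k2 - 2) t := by
  have d : Disjoint ((P N).2.2.image c3) ((P N).1.image c2) := by
    rw [disjoint_left]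
    intro t h1 h2
    rw [mem_image] at h1 h2
    obtain ⟨s, -, rfl⟩ := h1
    obtain ⟨s', -, h⟩ := h2
    simp [c3, c2] at h
  have e : (P (N + 1)).2.2 = (P N).2.2.image c3 ∪ (P N).1.image c2 := rfl
  rw [e, sum_union d, sum_image c3_inj.injOn, sum_image c2_inj.injOn, mul_sum]
  simp only [V_c3, V_c2]

theorem sum0 (N : ℕ) (k1 k2 : ℤ) : ∑ t ∈ (P (N + 1)).1, V k1 k2 t =
    ∑ t ∈ (P (N + 1)).2.1, V k1 k2 t + ∑ t ∈ (P (N + 1)).2.2, V k1 k2 t := by
  have e : (P (N + 1)).1 = (P (N + 1)).2.1 ∪ (P (N + 1)).2.2 := rfl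
  rw [e, sum_union]
  rw [disjoint_left]
  intro t h1 h2
  have i1 := inv1 _ t h1
  have i2 := inv2 _ t h2
  obtain ⟨m0, m1, m2, m3, h, hs⟩ := (P_Q (N + 1)).2.1 t h1
  rw [mem_TS] at h
  rcases i1 with ⟨w, hw⟩ | ⟨a, b⟩
  · rcases i2 with ⟨w', hw'⟩ | ⟨a', b'⟩
    · rw [hw] at hw'
      simp at hw'
    · rw [hw] at a'
      simp at a'
  · rcases i2 with ⟨w', hw'⟩ | ⟨a', b'⟩
    · rw [a] at hw'
      simp at hw'
    · rw [a, b, b'] at h
      simp at h
      omega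

theorem grow (N : ℕ) : ∀ k1 k2 : ℤ,
    (fF k1 k2 * 79 ^ N ≤ 27 ^ N * (30000 * ∑ t ∈ (P N).1, V k1 k2 t)) ∧
    (fA k1 k2 * 79 ^ N ≤ 27 ^ N * (30000 * ∑ t ∈ (P N).2.1, V k1 k2 t)) ∧
    (fA k2 k1 * 79 ^ N ≤ 27 ^ N * (30000 * ∑ t ∈ (P N).2.2, V k1 k2 t)) := by
  induction N with
  | zero =>
    intro k1 k2
    have hV : V k1 k2 ([], [], []) = if Win k1 k2 then 1 else 0 := by
      simp [V, e1, e2, W, wt, apx, zc]
    have hsw : Win k2 k1 ↔ Win k1 k2 := by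
      unfold Win
      omega
    have b1 := fF_le k1 k2
    have b2 := fA_le k1 k2
    have b3 := fA_le k2 k1
    simp only [hsw] at b3
    simp only [P, sum_singleton, hV, pow_zero, mul_one, one_mul]
    split_ifs at * with h
    · exact ⟨by omega, by omega, by omega⟩
    · exact ⟨by omega, by omega, by omega⟩
  | succ N ih =>
    intro k1 k2
    have h1 : fA k1 k2 * 79 ^ (N + 1) ≤
        27 ^ (N + 1) * (30000 * ∑ t ∈ (P (N + 1)).2.1, V k1 k2 t) := by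
      rw [sum1]
      have s := step1 k1 k2
      have a := (ih (k1 - 2) (k2 + 1)).1
      have b := (ih (k1 + 1) k2).2.1
      calc fA k1 k2 * 79 ^ (N + 1) = (79 * fA k1 k2) * 79 ^ N := by ring
        _ ≤ (27 * (w1 k1 * fF (k1 - 2) (k2 + 1) + fA (k1 + 1) k2)) * 79 ^ N :=
            Nat.mul_le_mul_right _ s
        _ = 27 * (w1 k1 * (fF (k1 - 2) (k2 + 1) * 79 ^ N) + fA (k1 + 1) k2 * 79 ^ N) := by ring
        _ ≤ 27 * (w1 k1 * (27 ^ N * (30000 * ∑ t ∈ (P N).1, V (k1 - 2) (k2 + 1) t)) +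
              27 ^ N * (30000 * ∑ t ∈ (P N).2.1, V (k1 + 1) k2 t)) := by gcongr
        _ = _ := by ring
    have h2 : fA k2 k1 * 79 ^ (N + 1) ≤
        27 ^ (N + 1) * (30000 * ∑ t ∈ (P (N + 1)).2.2, V k1 k2 t) := by
      rw [sum2]
      have s := step2 k1 k2
      have a := (ih (k1 + 1) (k2 - 2)).1
      have b := (ih k1 (k2 + 1)).2.2
      calc fA k2 k1 * 79 ^ (N + 1) = (79 * fA k2 k1) * 79 ^ N := by ring
        _ ≤ (27 * (w1 k2 * fF (k1 + 1) (k2 - 2) + fA (k2 + 1) k1)) * 79 ^ N :=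
            Nat.mul_le_mul_right _ s
        _ = 27 * (w1 k2 * (fF (k1 + 1) (k2 - 2) * 79 ^ N) + fA (k2 + 1) k1 * 79 ^ N) := by ring
        _ ≤ 27 * (w1 k2 * (27 ^ N * (30000 * ∑ t ∈ (P N).1, V (k1 + 1) (k2 - 2) t)) +
              27 ^ N * (30000 * ∑ t ∈ (P N).2.2, V k1 (k2 + 1) t)) := by gcongr
        _ = _ := by ring
    refine ⟨?_, h1, h2⟩
    rw [sum0]
    calc fF k1 k2 * 79 ^ (N + 1) ≤ (fA k1 k2 + fA k2 k1) * 79 ^ (N + 1) :=
          Nat.mul_le_mul_right _ (step0 k1 k2)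
      _ = fA k1 k2 * 79 ^ (N + 1) + fA k2 k1 * 79 ^ (N + 1) := by ring
      _ ≤ _ := Nat.add_le_add h1 h2
      _ = _ := by ring

/-! ## Pigeonhole -/

def cnt (t : Tr) : ℕ × ℕ × ℕ × ℕ :=
  (t.1.count false, t.2.1.count false, t.2.1.count true, t.2.2.count true)

theorem exists_class (N : ℕ) : ∃ m0 m1 m2 m3 : ℕ, m0 + m1 + m2 + m3 = N ∧
    Win ((m0 : ℤ) + m2 - 2 * m1) ((m1 : ℤ) + m3 - 2 * m2) ∧
    11535 * 79 ^ N ≤ 27 ^ N * (30000 * ((N + 1) ^ 4 * Z m0 m1 m2 m3 0 0)) := by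
  have hg := (grow N 0 0).1
  rw [fF_zero] at hg
  set A : Finset Tr := (P N).1.filter (fun t => Win (e1 0 t) (e2 0 t)) with hA
  have hsum : ∑ t ∈ (P N).1, V 0 0 t = ∑ t ∈ A, W 0 0 t := by
    rw [hA, sum_filter]
    rfl
  set B : Finset (ℕ × ℕ × ℕ × ℕ) := (range (N + 1) ×ˢ (range (N + 1) ×ˢ (range (N + 1) ×ˢ
    range (N + 1)))).filter (fun m => m.1 + m.2.1 + m.2.2.1 + m.2.2.2 = N ∧
      Win ((m.1 : ℤ) + m.2.2.1 - 2 * m.2.1) ((m.2.1 : ℤ) + m.2.2.2 - 2 * m.2.2.1)) with hB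
  have hmaps : ∀ t ∈ A, cnt t ∈ B := by
    intro t ht
    rw [hA, mem_filter] at ht
    obtain ⟨hP, hw⟩ := ht
    obtain ⟨m0, m1, m2, m3, h, hs⟩ := (P_Q N).1 t hP
    rw [mem_TS] at h
    obtain ⟨⟨a1, a2⟩, ⟨a3, a4⟩, a5, a6⟩ := h
    rw [hB, mem_filter]
    simp only [cnt, mem_product, mem_range]
    simp only [e1, e2, zero_add] at hw
    rw [a1, a3, a4, a6] at *
    exact ⟨⟨by omega, by omega, by omega, by omega⟩, hs, hw⟩
  have hfib : ∑ t ∈ A, W 0 0 t ≤ ∑ m ∈ B, Z m.1 m.2.1 m.2.2.1 m.2.2.2 0 0 := by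
    rw [← sum_fiberwise_of_maps_to hmaps]
    refine sum_le_sum (fun m _ => ?_)
    unfold Z
    refine sum_le_sum_of_subset ?_
    intro t ht
    rw [mem_filter] at ht
    obtain ⟨htA, rfl⟩ := ht
    rw [hA, mem_filter] at htA
    obtain ⟨m0, m1, m2, m3, h, hs⟩ := (P_Q N).1 t htA.1
    have h' := h
    rw [mem_TS] at h'
    obtain ⟨⟨a1, a2⟩, ⟨a3, a4⟩, a5, a6⟩ := h'
    simp only [cnt]
    rw [a1, a3, a4, a6]
    exact h
  have hcard : B.card ≤ (N + 1) ^ 4 := by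
    refine (card_filter_le _ _).trans ?_
    simp only [card_product, card_range]
    exact le_of_eq (by ring)
  have hne : B.Nonempty := by
    by_contra hne
    rw [not_nonempty_iff_eq_empty] at hne
    rw [hne, sum_empty] at hfib
    have h0 : ∑ t ∈ A, W 0 0 t = 0 := Nat.le_zero.mp hfib
    rw [hsum, h0] at hg
    have : 0 < 11535 * 79 ^ N := by positivity
    omega
  obtain ⟨m, hm, hmax⟩ := exists_max_image B (fun m => Z m.1 m.2.1 m.2.2.1 m.2.2.2 0 0) hne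
  have hle : ∑ m ∈ B, Z m.1 m.2.1 m.2.2.1 m.2.2.2 0 0 ≤
      (N + 1) ^ 4 * Z m.1 m.2.1 m.2.2.1 m.2.2.2 0 0 := by
    refine (sum_le_card_nsmul _ _ _ hmax).trans ?_
    rw [smul_eq_mul]
    exact Nat.mul_le_mul_right _ hcard
  rw [hB, mem_filter] at hm
  refine ⟨m.1, m.2.1, m.2.2.1, m.2.2.2, hm.2.1, hm.2.2, hg.trans ?_⟩
  rw [hsum]
  exact Nat.mul_le_mul_left _ (Nat.mul_le_mul_left _ (hfib.trans hle))

/-! ## Lower bound for `Z3` -/

theorem Z3_sq (n : ℕ) (hn : 27 ≤ n) :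
    (11535 * 79 ^ (2 * (n - 27))) ^ 2 ≤
      (27 ^ (2 * (n - 27)) * (30000 * (2 * (n - 27) + 1) ^ 4)) ^ 2 * Z3 n := by
  obtain ⟨m0, m1, m2, m3, hs, hw, h⟩ := exists_class (2 * (n - 27))
  obtain ⟨w1, w2, w3, w4⟩ := hw
  have key : Z m0 m1 m2 m3 0 0 ^ 2 ≤ Z3 n := by
    rw [Z3_eq]
    obtain ⟨a, ha⟩ : ∃ a : ℕ, (a : ℤ) = 9 - ((m0 : ℤ) + m2 - 2 * m1) :=
      ⟨(9 - ((m0 : ℤ) + m2 - 2 * m1)).toNat, by omega⟩
    obtain ⟨b, hb⟩ : ∃ b : ℕ, (b : ℤ) = 9 - ((m1 : ℤ) + m3 - 2 * m2) :=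
      ⟨(9 - ((m1 : ℤ) + m3 - 2 * m2)).toNat, by omega⟩
    have s1 := Z_mul m0 m1 m2 m3 a 9 9 b 0 0
    have s2 := Z_mul (m0 + a) (m1 + 9) (m2 + 9) (m3 + b) m3 m2 m1 m0 0 0
    have z1 : (0 : ℤ) + ((m0 + a : ℕ) : ℤ) + ((m2 + 9 : ℕ) : ℤ) - 2 * ((m1 + 9 : ℕ) : ℤ) = 0 := by
      push_cast
      omega
    have z2 : (0 : ℤ) + ((m1 + 9 : ℕ) : ℤ) + ((m3 + b : ℕ) : ℤ) - 2 * ((m2 + 9 : ℕ) : ℤ) = 0 := by
      push_cast
      omega
    rw [z1, z2] at s2
    obtain ⟨d0, hd0⟩ : ∃ d, m0 + a + m3 + d = n := ⟨n - (m0 + a + m3), by omega⟩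
    obtain ⟨d1, hd1⟩ : ∃ d, m1 + 9 + m2 + d = n := ⟨n - (m1 + 9 + m2), by omega⟩
    obtain ⟨d2, hd2⟩ : ∃ d, m2 + 9 + m1 + d = n := ⟨n - (m2 + 9 + m1), by omega⟩
    obtain ⟨d3, hd3⟩ : ∃ d, m3 + b + m0 + d = n := ⟨n - (m3 + b + m0), by omega⟩
    have s3 := Z_mul (m0 + a + m3) (m1 + 9 + m2) (m2 + 9 + m1) (m3 + b + m0) d0 d1 d2 d3 0 0
    rw [hd0, hd1, hd2, hd3] at s3
    have p1 := Z_pos a 9 9 b (0 + (m0 : ℤ) + m2 - 2 * m1) (0 + (m1 : ℤ) + m3 - 2 * m2)
    have p3 := Z_pos d0 d1 d2 d3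
      (0 + ((m0 + a + m3 : ℕ) : ℤ) + ((m2 + 9 + m1 : ℕ) : ℤ) - 2 * ((m1 + 9 + m2 : ℕ) : ℤ))
      (0 + ((m1 + 9 + m2 : ℕ) : ℤ) + ((m3 + b + m0 : ℕ) : ℤ) - 2 * ((m2 + 9 + m1 : ℕ) : ℤ))
    have hmir : Z m3 m2 m1 m0 0 0 = Z m0 m1 m2 m3 0 0 := Z_mir _ _ _ _ _ _
    have t1 : Z m0 m1 m2 m3 0 0 ≤ Z (m0 + a) (m1 + 9) (m2 + 9) (m3 + b) 0 0 :=
      (Nat.le_mul_of_pos_right _ p1).trans s1
    have t2 : Z m0 m1 m2 m3 0 0 ^ 2 ≤
        Z (m0 + a + m3) (m1 + 9 + m2) (m2 + 9 + m1) (m3 + b + m0) 0 0 := by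
      rw [sq]
      refine le_trans ?_ s2
      rw [hmir]
      exact Nat.mul_le_mul_right _ t1
    exact t2.trans ((Nat.le_mul_of_pos_right _ p3).trans s3)
  calc (11535 * 79 ^ (2 * (n - 27))) ^ 2
      ≤ (27 ^ (2 * (n - 27)) * (30000 * ((2 * (n - 27) + 1) ^ 4 * Z m0 m1 m2 m3 0 0))) ^ 2 :=
        Nat.pow_le_pow_left h 2
    _ = (27 ^ (2 * (n - 27)) * (30000 * (2 * (n - 27) + 1) ^ 4)) ^ 2 *
          Z m0 m1 m2 m3 0 0 ^ 2 := by ring
    _ ≤ _ := Nat.mul_le_mul_left _ key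

theorem tends : Filter.Tendsto (fun n : ℕ => ((2 * n + 1 : ℕ) : ℝ) ^ 8 *
    ((27 ^ 4 * 1000 ^ 6 : ℝ) / (79 ^ 4 * 489 ^ 6)) ^ n) Filter.atTop (nhds 0) := by
  set r : ℝ := (27 ^ 4 * 1000 ^ 6 : ℝ) / (79 ^ 4 * 489 ^ 6) with hr
  have hr0 : 0 < r := by rw [hr]; positivity
  have hr1 : r < 1 := by
    rw [hr, div_lt_one (by positivity)]
    norm_num
  have h := tendsto_pow_const_mul_const_pow_of_abs_lt_one 8 (r := r) (by rw [abs_of_pos hr0]; exact hr1)
  have h2 := h.const_mul ((3 : ℝ) ^ 8)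
  rw [mul_zero] at h2
  refine squeeze_zero' (Filter.Eventually.of_forall (fun n => by positivity)) ?_ h2
  filter_upwards [Filter.eventually_ge_atTop 1] with n hn
  have hn' : (1 : ℝ) ≤ n := by exact_mod_cast hn
  have : ((2 * n + 1 : ℕ) : ℝ) ^ 8 ≤ (3 * n) ^ 8 := by
    push_cast
    gcongr
    linarith
  calc ((2 * n + 1 : ℕ) : ℝ) ^ 8 * r ^ n ≤ (3 * n) ^ 8 * r ^ n := by gcongr
    _ = 3 ^ 8 * ((n : ℝ) ^ 8 * r ^ n) := by ring

end Pool.Agent.IT.LN

namespace Pool.Agent.IT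

open LN in
/-- growth of `Z3` -/
theorem Z3_ge : ∃ n0 : ℕ, ∀ n, n0 ≤ n → (1000 / 489 : ℝ) ^ (6 * n) ≤ (Z3 n : ℝ) := by
  have hc : (0 : ℝ) < 11535 ^ 2 / (30000 ^ 2 * (79 / 27) ^ 108) := by positivity
  have h := (tends.eventually (gt_mem_nhds hc))
  obtain ⟨n0, hn0⟩ := Filter.eventually_atTop.mp h
  refine ⟨max n0 27, fun n hn => ?_⟩
  have h1 := hn0 n (le_trans (le_max_left _ _) hn)
  have h27 : 27 ≤ n := le_trans (le_max_right _ _) hn
  have hq := Z3_sq n h27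
  obtain ⟨m, rfl⟩ : ∃ m, n = m + 27 := ⟨n - 27, by omega⟩
  rw [Nat.add_sub_cancel] at hq
  have hq' : ((11535 : ℝ) * 79 ^ (2 * m)) ^ 2 ≤
      (27 ^ (2 * m) * (30000 * (2 * m + 1) ^ 4)) ^ 2 * (Z3 (m + 27) : ℝ) := by
    exact_mod_cast hq
  set X : ℝ := (Z3 (m + 27) : ℝ) with hX
  set r : ℝ := (27 ^ 4 * 1000 ^ 6 : ℝ) / (79 ^ 4 * 489 ^ 6) with hr
  have e1 : (1000 / 489 : ℝ) ^ (6 * (m + 27)) = r ^ (m + 27) * (79 / 27) ^ (4 * (m + 27)) := by
    rw [hr, pow_mul, pow_mul (79 / 27 : ℝ), ← mul_pow]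
    congr 1
    norm_num
  have e2 : (79 / 27 : ℝ) ^ (4 * (m + 27)) = (79 / 27) ^ 108 * ((79 ^ (2 * m)) ^ 2 / (27 ^ (2 * m)) ^ 2) := by
    rw [← div_pow, ← div_pow, ← pow_mul, ← pow_add]
    congr 1
    ring
  have h27 : (0 : ℝ) < 27 ^ (2 * m) := by positivity
  have hX2 : 11535 ^ 2 * ((79 ^ (2 * m)) ^ 2 / (27 ^ (2 * m)) ^ 2) ≤
      30000 ^ 2 * (2 * m + 1) ^ 8 * X := by
    rw [← mul_div_assoc, div_le_iff₀ (by positivity)]
    calc (11535 : ℝ) ^ 2 * (79 ^ (2 * m)) ^ 2 = (11535 * 79 ^ (2 * m)) ^ 2 := by ring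
      _ ≤ _ := hq'
      _ = _ := by ring
  have h3 : ((2 * (m + 27) + 1 : ℕ) : ℝ) ^ 8 * r ^ (m + 27) * (30000 ^ 2 * (79 / 27) ^ 108) ≤
      11535 ^ 2 := by
    have := h1.le
    rw [le_div_iff₀ (by positivity)] at this
    exact this
  have h4 : ((2 : ℝ) * m + 1) ^ 8 ≤ ((2 * (m + 27) + 1 : ℕ) : ℝ) ^ 8 := by
    push_cast
    gcongr
    linarith
  have hm0 : (0 : ℝ) < (2 * m + 1) ^ 8 := by positivity
  have hX0 : 0 ≤ X := by positivity
  rw [e1, e2]
  set Y : ℝ := (79 ^ (2 * m)) ^ 2 / (27 ^ (2 * m)) ^ 2 with hY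
  have hY0 : 0 < Y := by positivity
  have hr0 : 0 < r ^ (m + 27) := by
    rw [hr]
    positivity
  -- r^n c Y ≤ X
  have h5 : (r ^ (m + 27) * (30000 ^ 2 * (79 / 27) ^ 108) * (2 * m + 1) ^ 8) * Y ≤ 11535 ^ 2 * Y := by
    refine mul_le_mul_of_nonneg_right ?_ hY0.le
    calc r ^ (m + 27) * (30000 ^ 2 * (79 / 27) ^ 108) * (2 * m + 1) ^ 8
        ≤ r ^ (m + 27) * (30000 ^ 2 * (79 / 27) ^ 108) * ((2 * (m + 27) + 1 : ℕ) : ℝ) ^ 8 := by
          gcongr
      _ = _ := by ring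
      _ ≤ _ := h3
  have h6 : (r ^ (m + 27) * (30000 ^ 2 * (79 / 27) ^ 108) * (2 * m + 1) ^ 8) * Y ≤
      30000 ^ 2 * (2 * m + 1) ^ 8 * X := h5.trans hX2
  have h7 : (30000 ^ 2 * (2 * m + 1) ^ 8) * (r ^ (m + 27) * ((79 / 27) ^ 108 * Y)) ≤
      (30000 ^ 2 * (2 * m + 1) ^ 8) * X := by
    calc _ = (r ^ (m + 27) * (30000 ^ 2 * (79 / 27) ^ 108) * (2 * m + 1) ^ 8) * Y := by ring
      _ ≤ _ := h6
  exact le_of_mul_le_mul_left h7 (by positivity)

end Pool.Agent.IT
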