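import Pool.Agent.IT.LowerFlip
import Pool.Agent.IT.LowerNum

/-!
# MP_da73da_co: lower bound for the number of unimodular triangulations of the square (M18)
-/

set_option autoImplicit false

namespace Pool.Agent.IT

namespace Low

variable {n : ℕ}

/-- data of three rows: three words and sets of zero-jump units of the two inner lines -/
abbrev Dat : Type := (_ : List Bool × List Bool × List Bool) × (Finset ℕ × Finset ℕ)

/-- admissible data of three rows -/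
def G (n : ℕ) : Finset Dat :=
  (words n n ×ˢ (words n n ×ˢ words n n)).sigma
    (fun p => (zer p.1 p.2.1).powerset ×ˢ (zer p.2.1 p.2.2).powerset)

theorem card_G (n : ℕ) : (G n).card = Z3 n := by
  unfold G Z3
  rw [Finset.card_sigma]
  apply Finset.sum_congr rfl
  intro p _
  rw [Finset.card_product, Finset.card_powerset, Finset.card_powerset, ← pow_add]

theorem mem_G {x : Dat} : x ∈ G n ↔ (x.1.1 ∈ words n n ∧ x.1.2.1 ∈ words n n ∧ x.1.2.2 ∈ words n n) ∧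
    x.2.1 ⊆ zer x.1.1 x.1.2.1 ∧ x.2.2 ⊆ zer x.1.2.1 x.1.2.2 := by
  simp only [G, Finset.mem_sigma, Finset.mem_product, Finset.mem_powerset]

/-- a fixed word -/
def std (n : ℕ) : List Bool := List.replicate n false ++ List.replicate n true

theorem std_mem (n : ℕ) : std n ∈ words n n := by
  rw [mem_words]
  simp [std, List.count_append, List.count_replicate]

/-- the words of all rows -/
def WW (n : ℕ) (d : Fin (n / 3) → Dat) (r : ℕ) : List Bool :=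
  if h : r / 3 < n / 3 then
    (if r % 3 = 0 then (d ⟨r / 3, h⟩).1.1 else if r % 3 = 1 then (d ⟨r / 3, h⟩).1.2.1
      else (d ⟨r / 3, h⟩).1.2.2)
  else std n

/-- the flipped units -/
def FF (n : ℕ) (d : Fin (n / 3) → Dat) : Finset (ℕ × ℕ) :=
  (Finset.univ : Finset (Fin (n / 3))).biUnion (fun g =>
    (d g).2.1.image (fun i => (3 * (g : ℕ), i)) ∪ (d g).2.2.image (fun i => (3 * (g : ℕ) + 1, i)))

theorem mem_FF {d : Fin (n / 3) → Dat} {f : ℕ × ℕ} : f ∈ FF n d ↔ ∃ g : Fin (n / 3),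
    (f.1 = 3 * (g : ℕ) ∧ f.2 ∈ (d g).2.1) ∨ (f.1 = 3 * (g : ℕ) + 1 ∧ f.2 ∈ (d g).2.2) := by
  simp only [FF, Finset.mem_biUnion, Finset.mem_univ, true_and, Finset.mem_union, Finset.mem_image]
  constructor
  · rintro ⟨g, ⟨i, hi, rfl⟩ | ⟨i, hi, rfl⟩⟩
    · exact ⟨g, Or.inl ⟨rfl, hi⟩⟩
    · exact ⟨g, Or.inr ⟨rfl, hi⟩⟩
  · rintro ⟨g, ⟨h1, h2⟩ | ⟨h1, h2⟩⟩
    · exact ⟨g, Or.inl ⟨f.2, h2, by rw [← h1]⟩⟩
    · exact ⟨g, Or.inr ⟨f.2, h2, by rw [← h1]⟩⟩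

theorem WW_0 (d : Fin (n / 3) → Dat) (g : Fin (n / 3)) : WW n d (3 * (g : ℕ)) = (d g).1.1 := by
  have h1 : 3 * (g : ℕ) / 3 = g := by omega
  have h2 : 3 * (g : ℕ) % 3 = 0 := by omega
  unfold WW
  rw [dif_pos (by rw [h1]; exact g.2), if_pos h2]
  congr 2
  congr 1
  exact Fin.ext h1

theorem WW_1 (d : Fin (n / 3) → Dat) (g : Fin (n / 3)) : WW n d (3 * (g : ℕ) + 1) = (d g).1.2.1 := by
  have h1 : (3 * (g : ℕ) + 1) / 3 = g := by omega
  have h2 : (3 * (g : ℕ) + 1) % 3 = 1 := by omega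
  unfold WW
  rw [dif_pos (by rw [h1]; exact g.2), if_neg (by omega), if_pos h2]
  congr 3
  congr 1
  exact Fin.ext h1

theorem WW_2 (d : Fin (n / 3) → Dat) (g : Fin (n / 3)) : WW n d (3 * (g : ℕ) + 2) = (d g).1.2.2 := by
  have h1 : (3 * (g : ℕ) + 2) / 3 = g := by omega
  have h2 : (3 * (g : ℕ) + 2) % 3 = 2 := by omega
  unfold WW
  rw [dif_pos (by rw [h1]; exact g.2), if_neg (by omega), if_neg (by omega)]
  congr 3
  congr 1
  exact Fin.ext h1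

theorem WW_mem {d : Fin (n / 3) → Dat} (hd : ∀ g, d g ∈ G n) (r : ℕ) : WW n d r ∈ words n n := by
  unfold WW
  split_ifs with h h1 h2
  · exact (mem_G.mp (hd _)).1.1
  · exact (mem_G.mp (hd _)).1.2.1
  · exact (mem_G.mp (hd _)).1.2.2
  · exact std_mem n

theorem mem_zer {u v : List Bool} (hu : u ∈ words n n) {i : ℕ} :
    i ∈ zer u v ↔ i < n ∧ A u i + B v i = 2 * i + 1 := by
  rw [mem_words] at hu
  simp only [zer, Finset.mem_filter, Finset.mem_range, hu.2, A, B]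

theorem FF_zero {d : Fin (n / 3) → Dat} (hd : ∀ g, d g ∈ G n) :
    ∀ f ∈ FF n d, Zero n (WW n d) f := by
  intro f hf
  rw [mem_FF] at hf
  obtain ⟨g, hg⟩ := hf
  obtain ⟨⟨w0, w1, w2⟩, s1, s2⟩ := mem_G.mp (hd g)
  have hg' := g.2
  rcases hg with ⟨h1, h2⟩ | ⟨h1, h2⟩
  · have hz := (mem_zer w0).mp (s1 h2)
    refine ⟨by omega, hz.1, ?_⟩
    unfold lo hi
    rw [h1, WW_0, WW_1]
    exact hz.2
  · have hz := (mem_zer w1).mp (s2 h2)
    refine ⟨by omega, hz.1, ?_⟩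
    unfold lo hi
    rw [h1, WW_1]
    have e : 3 * (g : ℕ) + 1 + 1 = 3 * (g : ℕ) + 2 := by ring
    rw [e, WW_2]
    exact hz.2

theorem inj (d d' : Fin (n / 3) → Dat) (hd : ∀ g, d g ∈ G n) (hd' : ∀ g, d' g ∈ G n)
    (h : tr n (WW n d) (FF n d) = tr n (WW n d') (FF n d')) : d = d' := by
  obtain ⟨hF, hA⟩ := tr_inj (fun r _ => WW_mem hd r) (fun r _ => WW_mem hd' r) (FF_zero hd)
    (FF_zero hd') h
  have hW : ∀ r < n, WW n d r = WW n d' r := fun r hr =>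
    word_ext' (WW_mem hd r) (WW_mem hd' r) (hA r hr)
  funext g
  have hg := g.2
  have e0 := hW (3 * (g : ℕ)) (by omega)
  have e1 := hW (3 * (g : ℕ) + 1) (by omega)
  have e2 := hW (3 * (g : ℕ) + 2) (by omega)
  rw [WW_0, WW_0] at e0
  rw [WW_1, WW_1] at e1
  rw [WW_2, WW_2] at e2
  have hgg : ∀ g' : Fin (n / 3), 3 * (g : ℕ) = 3 * (g' : ℕ) → g = g' := fun g' h => Fin.ext (by omega)
  have hgg' : ∀ g' : Fin (n / 3), 3 * (g : ℕ) + 1 = 3 * (g' : ℕ) + 1 → g = g' :=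
    fun g' h => Fin.ext (by omega)
  have f1 : (d g).2.1 = (d' g).2.1 := by
    ext i
    have k : ∀ d : Fin (n / 3) → Dat, (3 * (g : ℕ), i) ∈ FF n d ↔ i ∈ (d g).2.1 := by
      intro d
      rw [mem_FF]
      constructor
      · rintro ⟨g', ⟨h1, h2⟩ | ⟨h1, h2⟩⟩
        · rw [hgg g' h1]; exact h2
        · simp only at h1; omega
      · intro hi'; exact ⟨g, Or.inl ⟨rfl, hi'⟩⟩
    rw [← k d, ← k d', hF]
  have f2 : (d g).2.2 = (d' g).2.2 := by
    ext i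
    have k : ∀ d : Fin (n / 3) → Dat, (3 * (g : ℕ) + 1, i) ∈ FF n d ↔ i ∈ (d g).2.2 := by
      intro d
      rw [mem_FF]
      constructor
      · rintro ⟨g', ⟨h1, h2⟩ | ⟨h1, h2⟩⟩
        · simp only at h1; omega
        · rw [hgg' g' h1]; exact h2
      · intro hi'; exact ⟨g, Or.inr ⟨rfl, hi'⟩⟩
    rw [← k d, ← k d', hF]
  generalize d g = x at *
  generalize d' g = y at *
  obtain ⟨⟨x1, x2, x3⟩, ⟨x4, x5⟩⟩ := x
  obtain ⟨⟨y1, y2, y3⟩, ⟨y4, y5⟩⟩ := y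
  simp only at e0 e1 e2 f1 f2
  subst e0 e1 e2 f1 f2
  rfl

theorem Z3_pow_le (hn : 0 < n) :
    (Z3 n) ^ (n / 3) ≤ ({T | UT n T} : Set (Finset (Finset Pt))).ncard := by
  have h1 : (Fintype.piFinset (fun _ : Fin (n / 3) => G n)).card = (Z3 n) ^ (n / 3) := by
    rw [Fintype.card_piFinset, Finset.prod_const, card_G, Finset.card_univ, Fintype.card_fin]
  have h2 : ({T | UT n T} : Set (Finset (Finset Pt))).ncard = (UTs n).card := by
    rw [Set.ncard_eq_toFinset_card _ (UT.finite n)]; rfl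
  rw [← h1, h2]
  apply Finset.card_le_card_of_injOn (fun d => tr n (WW n d) (FF n d))
  · intro d hd
    rw [Finset.mem_coe, Fintype.mem_piFinset] at hd
    rw [Finset.mem_coe, mem_UTs]
    exact tr_UT hn (fun r _ => WW_mem hd r) _ (FF_zero hd)
  · intro d hd d' hd' h
    rw [Finset.mem_coe, Fintype.mem_piFinset] at hd hd'
    exact inj d d' hd hd' h

end Low

theorem lower_bound_of_Z3 (hZ : ∃ n0 : ℕ, ∀ n, n0 ≤ n → (1000 / 489 : ℝ) ^ (6 * n) ≤ (Z3 n : ℝ)) :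
    ∀ η : ℝ, 0 < η → ∃ n0 : ℕ, ∀ n, n0 ≤ n →
    (1000 / 489 : ℝ) ^ (2 * n ^ 2) ≤ (2 : ℝ) ^ (η * (n : ℝ) ^ 2) *
      (({T | UT n T} : Set (Finset (Finset Pt))).ncard : ℝ) := by
  intro η hη
  obtain ⟨n1, h1⟩ := hZ
  obtain ⟨n2, h2⟩ := exists_nat_ge (8 / η)
  refine ⟨max (max n1 n2) 1, fun n hn => ?_⟩
  have hn1 : n1 ≤ n := le_trans (le_trans (le_max_left _ _) (le_max_left _ _)) hn
  have hn2 : n2 ≤ n := le_trans (le_trans (le_max_right _ _) (le_max_left _ _)) hn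
  have hn3 : 0 < n := le_trans (le_max_right _ _) hn
  have hN : ((Z3 n : ℝ)) ^ (n / 3) ≤ (({T | UT n T} : Set (Finset (Finset Pt))).ncard : ℝ) := by
    exact_mod_cast Low.Z3_pow_le hn3
  have hZn := h1 n hn1
  have a1 : (1000 / 489 : ℝ) ^ (6 * n * (n / 3)) ≤
      (({T | UT n T} : Set (Finset (Finset Pt))).ncard : ℝ) := by
    rw [pow_mul]
    exact le_trans (pow_le_pow_left₀ (by positivity) hZn _) hN
  have a2 : 2 * n ^ 2 ≤ 4 * n + 6 * n * (n / 3) := by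
    have : n ≤ 3 * (n / 3) + 2 := by omega
    nlinarith
  have a3 : (1000 / 489 : ℝ) ^ (2 * n ^ 2) ≤
      (1000 / 489 : ℝ) ^ (4 * n) * (1000 / 489 : ℝ) ^ (6 * n * (n / 3)) := by
    rw [← pow_add]
    exact pow_le_pow_right₀ (by norm_num) a2
  have a4 : (1000 / 489 : ℝ) ^ (4 * n) ≤ (2 : ℝ) ^ (η * (n : ℝ) ^ 2) := by
    have b1 : (1000 / 489 : ℝ) ^ (4 * n) ≤ ((2 : ℝ) ^ 2) ^ (4 * n) :=
      pow_le_pow_left₀ (by norm_num) (by norm_num) _
    have b2 : ((2 : ℝ) ^ 2) ^ (4 * n) = (2 : ℝ) ^ ((8 * n : ℕ) : ℝ) := by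
      rw [Real.rpow_natCast, ← pow_mul]; congr 1; ring
    rw [b2] at b1
    refine le_trans b1 (Real.rpow_le_rpow_of_exponent_le (by norm_num) ?_)
    have c1 : (8 : ℝ) ≤ η * n := by
      have : (n2 : ℝ) ≤ n := by exact_mod_cast hn2
      have : 8 / η ≤ n := le_trans h2 this
      rw [div_le_iff₀ hη] at this
      linarith
    have c2 : (0 : ℝ) ≤ n := Nat.cast_nonneg _
    push_cast
    nlinarith
  refine le_trans a3 (mul_le_mul a4 a1 (by positivity) (by positivity))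

theorem lower_bound : ∀ η : ℝ, 0 < η → ∃ n0 : ℕ, ∀ n, n0 ≤ n →
    (1000 / 489 : ℝ) ^ (2 * n ^ 2) ≤ (2 : ℝ) ^ (η * (n : ℝ) ^ 2) *
      (({T | UT n T} : Set (Finset (Finset Pt))).ncard : ℝ) :=
  lower_bound_of_Z3 Z3_ge

end Pool.Agent.IT
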