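import Pool.Agent.IT.Switch

/-!
# Irregularity of the pattern and the switching theorem
-/

set_option autoImplicit false

namespace Pool.Agent.IT

variable {n : ℕ} {T : Finset (Finset Pt)}

/-- Local convexity of the heights of a regular triangulation across an edge of a copy of the pattern. -/
theorem reg_local (hT : UT n T) {g : Pt × Pt × Pt} (hg : crs g.2.1 g.2.2 = 1) {h : ℤ × ℤ → ℝ}
    (hh : ∀ t ∈ T, ∃ α β γ : ℝ, (∀ p ∈ t, h p = α * (p.1 : ℝ) + β * (p.2 : ℝ) + γ) ∧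
      ∀ p : ℤ × ℤ, 0 ≤ p.1 → p.1 ≤ (n : ℤ) → 0 ≤ p.2 → p.2 ≤ (n : ℤ) → p ∉ t →
        α * (p.1 : ℝ) + β * (p.2 : ℝ) + γ < h p)
    {a b c d : Pt} {k : ℤ} (h1 : Pos T (fr g a) (fr g b) (fr g c))
    (h2 : Pos T (fr g b) (fr g a) (fr g d)) (e1 : c.1 + d.1 = a.1 + b.1 + k * (b.1 - a.1))
    (e2 : c.2 + d.2 = a.2 + b.2 + k * (b.2 - a.2)) :
    (1 - (k : ℝ)) * h (fr g a) + (1 + (k : ℝ)) * h (fr g b) < h (fr g c) + h (fr g d) := by
  obtain ⟨α, β, γ, hv, hlt⟩ := hh _ h1.1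
  have ha := hv (fr g a) (by simp)
  have hb := hv (fr g b) (by simp)
  have hc := hv (fr g c) (by simp)
  obtain ⟨i1, i2, i3, i4⟩ := h2.cyc'.insq hT
  have hd : fr g d ∉ ({fr g a, fr g b, fr g c} : Finset Pt) := by
    intro hmem
    simp only [Finset.mem_insert, Finset.mem_singleton] at hmem
    rcases hmem with hm | hm | hm
    · exact h2.cyc.ne hm.symm
    · exact h2.ne' hm.symm
    · have k1 := h1.2
      have k2 := h2.2
      rw [det_swap, hm] at k2
      omega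
  have hlt' := hlt (fr g d) i1 i2 i3 i4 hd
  have e1' : (c.1 : ℝ) + d.1 = a.1 + b.1 + k * (b.1 - a.1) := by exact_mod_cast e1
  have e2' : (c.2 : ℝ) + d.2 = a.2 + b.2 + k * (b.2 - a.2) := by exact_mod_cast e2
  have hd1 : (d.1 : ℝ) = a.1 + b.1 + k * (b.1 - a.1) - c.1 := by linarith
  have hd2 : (d.2 : ℝ) = a.2 + b.2 + k * (b.2 - a.2) - c.2 := by linarith
  have key : α * ((fr g d).1 : ℝ) + β * ((fr g d).2 : ℝ) + γ =
      (1 - (k : ℝ)) * h (fr g a) + (1 + (k : ℝ)) * h (fr g b) - h (fr g c) := by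
    rw [ha, hb, hc]
    simp only [fr]
    push_cast
    rw [hd1, hd2]
    ring
  linarith

/-- A triangulation containing a copy of the pattern is irregular. -/
theorem patt_irr : PattIrr := by
  rintro n T g hT hg h ⟨hf, hh⟩
  have e0 := reg_local hT hg hh (a := (-3, 3)) (b := (0, 1)) (c := (-1, 2)) (d := (-2, 2)) (k := 0)
    (h ((-3, 3), (0, 1), (-1, 2)) (by decide)) (h ((-3, 3), (-2, 2), (0, 1)) (by decide)).cyc' (by decide) (by decide)
  have e1 := reg_local hT hg hh (a := (-2, 2)) (b := (0, 1)) (c := (-3, 3)) (d := (-1, 1)) (k := -1)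
    (h ((-3, 3), (-2, 2), (0, 1)) (by decide)).cyc (h ((-2, 2), (-1, 1), (0, 1)) (by decide)).cyc' (by decide) (by decide)
  have e2 := reg_local hT hg hh (a := (-2, 3)) (b := (-1, 2)) (c := (-1, 3)) (d := (-3, 3)) (k := -1)
    (h ((-2, 3), (-1, 2), (-1, 3)) (by decide)) (h ((-3, 3), (-1, 2), (-2, 3)) (by decide)).cyc (by decide) (by decide)
  have e3 := reg_local hT hg hh (a := (-1, 1)) (b := (0, 1)) (c := (-2, 2)) (d := (0, 0)) (k := -1)
    (h ((-2, 2), (-1, 1), (0, 1)) (by decide)).cyc (h ((-1, 1), (0, 0), (0, 1)) (by decide)).cyc' (by decide) (by decide)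
  have e4 := reg_local hT hg hh (a := (-1, 2)) (b := (-1, 3)) (c := (-2, 3)) (d := (0, 3)) (k := 1)
    (h ((-2, 3), (-1, 2), (-1, 3)) (by decide)).cyc (h ((-1, 2), (0, 3), (-1, 3)) (by decide)).cyc' (by decide) (by decide)
  have e5 := reg_local hT hg hh (a := (-1, 2)) (b := (0, 3)) (c := (-1, 3)) (d := (0, 2)) (k := 0)
    (h ((-1, 2), (0, 3), (-1, 3)) (by decide)) (h ((-1, 2), (0, 2), (0, 3)) (by decide)).cyc' (by decide) (by decide)
  have e6 := reg_local hT hg hh (a := (0, 0)) (b := (1, 2)) (c := (0, 1)) (d := (1, 1)) (k := 0)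
    (h ((0, 0), (1, 2), (0, 1)) (by decide)) (h ((0, 0), (1, 1), (1, 2)) (by decide)).cyc' (by decide) (by decide)
  have e7 := reg_local hT hg hh (a := (0, 2)) (b := (1, 3)) (c := (0, 3)) (d := (2, 3)) (k := 1)
    (h ((0, 2), (1, 3), (0, 3)) (by decide)) (h ((0, 2), (2, 3), (1, 3)) (by decide)).cyc' (by decide) (by decide)
  have e8 := reg_local hT hg hh (a := (0, 2)) (b := (2, 3)) (c := (1, 3)) (d := (3, 3)) (k := 1)
    (h ((0, 2), (2, 3), (1, 3)) (by decide)) (h ((0, 2), (3, 3), (2, 3)) (by decide)).cyc' (by decide) (by decide)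
  have e9 := reg_local hT hg hh (a := (0, 2)) (b := (3, 3)) (c := (2, 3)) (d := (1, 2)) (k := 0)
    (h ((0, 2), (3, 3), (2, 3)) (by decide)) (h ((0, 2), (1, 2), (3, 3)) (by decide)).cyc' (by decide) (by decide)
  have e10 := reg_local hT hg hh (a := (1, 1)) (b := (1, 2)) (c := (0, 0)) (d := (2, 2)) (k := -1)
    (h ((0, 0), (1, 1), (1, 2)) (by decide)).cyc (h ((1, 1), (2, 2), (1, 2)) (by decide)).cyc' (by decide) (by decide)
  have e11 := reg_local hT hg hh (a := (1, 2)) (b := (2, 2)) (c := (3, 3)) (d := (1, 1)) (k := 1)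
    (h ((1, 2), (2, 2), (3, 3)) (by decide)) (h ((1, 1), (2, 2), (1, 2)) (by decide)).cyc (by decide) (by decide)
  push_cast at e0 e1 e2 e3 e4 e5 e6 e7 e8 e9 e10 e11
  linarith

/-- **Switching theorem.** -/
theorem switching (m : ℕ) : ∃ C : ℕ, ∀ n D : ℕ,
    D * ({T | UT n T ∧ Reg n T ∧ D ≤ ({g | FatAt n m T g}).ncard}).ncard ≤
      C * ({T | UT n T} : Set (Finset (Finset Pt))).ncard := switching_of patt_irr m

end Pool.Agent.IT
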