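import Pool.Agent.IT.UnpOf
import Pool.Agent.IT.Family
import Pool.Agent.IT.Fine3
import Pool.Agent.IT.BoxGeom
import Pool.Agent.IT.Card

/-!
# M15: unpredicted edges of the refilled triangulation
-/

set_option autoImplicit false

namespace Pool.Agent.IT

theorem UnpM.onSd_iff {n : ℕ} {p q : Pt} : UnpM.OnSd n p q ↔ OnSide n p q := Iff.rfl

theorem unp_refill : ∃ C : ℕ, ∀ (n : ℕ) (T V : Finset (Finset Pt)) (S : Finset Pt → Slab), UT n T →
    Str n T V S → ∃ F : Finset BoxD, Fam n T F ∧ F.card ≤ C * (T \ V).card ∧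
      ∀ r : ℕ, Unp r (refill T F) + ∑ D ∈ F, 2 * (D.p + D.q) ≤
        2 * n ^ 2 + 2 * n + C * (r + 1) * (T \ V).card :=
  UnpM.unp_refill_of (fun hT => ut_card hT) (fun hT _ ht => hT.exists_pos ht)
    (fun hT _ _ _ _ h1 h2 => h1.unique hT h2)
    (fun hT _ _ _ h hs => h.neighbor hT hs)
    family fine3_count (fun hT _ hD => BT_card hT hD) (fun hT _ hF => refill_UT hT hF)
    (fun hT _ hD _ ht _ hx hx' => unit_survives hT hD ht hx hx')

end Pool.Agent.IT
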