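import Pool.Agent.IT.Structure
import Pool.Agent.IT.CountOf
import Pool.Agent.IT.Lower
import Pool.Agent.IT.Switching
import Pool.Agent.IT.Fine3
import Pool.Agent.IT.BoxGeom
import Pool.Agent.IT.Family
import Pool.Agent.IT.Unp

/-! Final assembly (helper66). -/

set_option autoImplicit false

namespace Pool.Agent.IT

theorem tri_finite (n : ℕ) : ({T | UT n T} : Set (Finset (Finset Pt))).Finite := UT.finite n

theorem final_aux {C D : ℕ} {ε δ a r1 r2 r : ℝ} (hD : 0 < D) (ha : 0 < a)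
    (h1 : (D : ℝ) * r1 ≤ C * a) (h2 : r2 ≤ δ * a) (hr : r ≤ r1 + r2) (hC : 2 * (C : ℝ) < ε * D)
    (hδ : δ < ε / 2) : r / a < ε := by
  have hD' : (0:ℝ) < D := by exact_mod_cast hD
  rw [div_lt_iff₀ ha]
  have e1 : r1 ≤ (C / D) * a := by
    rw [div_mul_eq_mul_div, le_div_iff₀ hD']; linarith
  have e2 : (C : ℝ) / D < ε / 2 := by
    rw [div_lt_iff₀ hD']; linarith
  have e3 : (C : ℝ) / D * a < ε / 2 * a := mul_lt_mul_of_pos_right e2 ha
  have e4 : δ * a < ε / 2 * a := mul_lt_mul_of_pos_right hδ ha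
  linarith

theorem final_of
    (unp_refill : ∃ C : ℕ, ∀ (n : ℕ) (T V : Finset (Finset Pt)) (S : Finset Pt → Slab), UT n T →
      Str n T V S → ∃ F : Finset BoxD, Fam n T F ∧ F.card ≤ C * (T \ V).card ∧
        ∀ r : ℕ, Unp r (refill T F) + ∑ D ∈ F, 2 * (D.p + D.q) ≤
          2 * n ^ 2 + 2 * n + C * (r + 1) * (T \ V).card) : Filter.Tendsto (fun n : ℕ =>
      ((({T | UT n T ∧ Reg n T} : Set (Finset (Finset Pt))).ncard : ℕ) : ℝ) /
        ((({T | UT n T} : Set (Finset (Finset Pt))).ncard : ℕ) : ℝ)) Filter.atTop (nhds 0) := by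
  rw [Metric.tendsto_atTop]
  intro ε hε
  set η : ℝ := Real.logb 2 (49000 / 48900) / 2 with hη
  have hηpos : 0 < η := by
    rw [hη]
    have : 0 < Real.logb 2 (49000 / 48900) := Real.logb_pos (by norm_num) (by norm_num)
    linarith
  have h2η : (2:ℝ) ^ (2 * η) = 49000 / 48900 := by
    rw [hη, mul_div_cancel₀ _ (by norm_num : (2:ℝ) ≠ 0)]
    exact Real.rpow_logb (by norm_num) (by norm_num) (by norm_num)
  obtain ⟨β, hβ, n1, hcount⟩ := count_thm_of unp_refill η hηpos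
  obtain ⟨M, hstruct⟩ := structure_thm β hβ
  obtain ⟨C, hC⟩ := switching M
  obtain ⟨D, hD⟩ := exists_nat_gt (2 * (C : ℝ) / ε)
  have hDpos : 0 < D := by
    have : (0:ℝ) < D := lt_of_le_of_lt (by positivity) hD
    exact_mod_cast this
  have hCD : 2 * (C : ℝ) < ε * D := by
    rw [div_lt_iff₀ hε] at hD; linarith
  obtain ⟨n2, hs⟩ := hstruct D
  obtain ⟨n3, hlow⟩ := lower_bound η hηpos
  obtain ⟨n4, hn4⟩ := exists_pow_lt_of_lt_one (show (0:ℝ) < ε / 2 by linarith)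
    (show (48900 / 49000 : ℝ) < 1 by norm_num)
  refine ⟨max (max n1 n2) (max n3 (n4 + 1)), fun n hn => ?_⟩
  have hn1 : n1 ≤ n := le_trans (le_max_left _ _) (le_trans (le_max_left _ _) hn)
  have hn2 : n2 ≤ n := le_trans (le_max_right _ _) (le_trans (le_max_left _ _) hn)
  have hn3 : n3 ≤ n := le_trans (le_max_left _ _) (le_trans (le_max_right _ _) hn)
  have hn5 : n4 + 1 ≤ n := le_trans (le_max_right _ _) (le_trans (le_max_right _ _) hn)
  set a : ℕ := ({T | UT n T} : Set (Finset (Finset Pt))).ncard with ha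
  set r : ℕ := ({T | UT n T ∧ Reg n T} : Set (Finset (Finset Pt))).ncard with hr
  set r1 : ℕ := ({T | UT n T ∧ Reg n T ∧ D ≤ ({g | FatAt n M T g}).ncard} :
    Set (Finset (Finset Pt))).ncard with hr1
  set r2 : ℕ := ({T | UT n T ∧ ∃ V S, Str n T V S ∧ ((T \ V).card : ℝ) ≤ β * (n : ℝ) ^ 2} :
      Set (Finset (Finset Pt))).ncard with hr2
  have hfin := tri_finite n
  have hle : r ≤ r1 + r2 := by
    refine le_trans (Set.ncard_le_ncard (t := {T | UT n T ∧ Reg n T ∧ D ≤ ({g | FatAt n M T g}).ncard} ∪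
      {T | UT n T ∧ ∃ V S, Str n T V S ∧ ((T \ V).card : ℝ) ≤ β * (n : ℝ) ^ 2}) ?_ ?_)
      (Set.ncard_union_le _ _)
    · rintro T ⟨hT, hreg⟩
      by_cases h : D ≤ ({g | FatAt n M T g}).ncard
      · exact Or.inl ⟨hT, hreg, h⟩
      · exact Or.inr ⟨hT, hs n hn2 T hT (not_le.mp h)⟩
    · exact (hfin.subset fun T hT => hT.1).union (hfin.subset fun T hT => hT.1)
  have hsw : D * r1 ≤ C * a := hC n D
  have hcnt := hcount n hn1
  have hlw := hlow n hn3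
  rw [← hr2] at hcnt
  rw [← ha] at hlw
  have hapos : (0:ℝ) < a := by
    have h1 : (0:ℝ) < (1000 / 489 : ℝ) ^ (2 * n ^ 2) := by positivity
    have h2 : (0:ℝ) < (2 : ℝ) ^ (η * (n : ℝ) ^ 2) * a := lt_of_lt_of_le h1 hlw
    have h3 : (0:ℝ) < (2 : ℝ) ^ (η * (n : ℝ) ^ 2) := by positivity
    exact (mul_pos_iff_of_pos_left h3).mp h2
  have hpow : (r2 : ℝ) ≤ (48900 / 49000 : ℝ) ^ (n ^ 2) * a := by
    have e1 : (100 / 49 : ℝ) ^ (2 * n ^ 2) = (48900 / 49000 : ℝ) ^ (2 * n ^ 2) * (1000 / 489 : ℝ) ^ (2 * n ^ 2) := by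
      rw [← mul_pow]; norm_num
    have e2 : (2 : ℝ) ^ (η * (n : ℝ) ^ 2) * (2 : ℝ) ^ (η * (n : ℝ) ^ 2) = (49000 / 48900 : ℝ) ^ (n ^ 2) := by
      have e3 : (η * (n : ℝ) ^ 2) + (η * (n : ℝ) ^ 2) = (2 * η) * ((n ^ 2 : ℕ) : ℝ) := by
        push_cast; ring
      rw [← Real.rpow_add (by norm_num), e3, Real.rpow_mul (by norm_num), h2η, Real.rpow_natCast]
    calc (r2 : ℝ) ≤ (2 : ℝ) ^ (η * (n : ℝ) ^ 2) * (100 / 49 : ℝ) ^ (2 * n ^ 2) := hcnt
      _ = (2 : ℝ) ^ (η * (n : ℝ) ^ 2) * (48900 / 49000 : ℝ) ^ (2 * n ^ 2) *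
          (1000 / 489 : ℝ) ^ (2 * n ^ 2) := by rw [e1]; ring
      _ ≤ (2 : ℝ) ^ (η * (n : ℝ) ^ 2) * (48900 / 49000 : ℝ) ^ (2 * n ^ 2) *
          ((2 : ℝ) ^ (η * (n : ℝ) ^ 2) * a) := mul_le_mul_of_nonneg_left hlw (by positivity)
      _ = ((2 : ℝ) ^ (η * (n : ℝ) ^ 2) * (2 : ℝ) ^ (η * (n : ℝ) ^ 2)) *
          (48900 / 49000 : ℝ) ^ (2 * n ^ 2) * a := by ring
      _ = (48900 / 49000 : ℝ) ^ (n ^ 2) * a := by
          have e4 : (49000 / 48900 : ℝ) ^ (n ^ 2) * (48900 / 49000 : ℝ) ^ (2 * n ^ 2) =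
              (48900 / 49000 : ℝ) ^ (n ^ 2) := by
            rw [pow_mul, ← mul_pow]
            norm_num
          rw [e2, e4]
  have hδ : (48900 / 49000 : ℝ) ^ (n ^ 2) < ε / 2 := by
    refine lt_of_le_of_lt (pow_le_pow_of_le_one (by norm_num) (by norm_num) ?_) hn4
    nlinarith
  have hmain := final_aux (C := C) (D := D) (ε := ε) (a := a) (r1 := r1) (r2 := r2) (r := r) hDpos hapos
    (by exact_mod_cast hsw) hpow (by exact_mod_cast hle) hCD hδ
  rw [Real.dist_eq, sub_zero, abs_of_nonneg (by positivity)]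
  exact hmain

/-- **Main theorem**: the fraction of regular unimodular triangulations tends to zero. -/
theorem final : Filter.Tendsto (fun n : ℕ =>
      ((({T | UT n T ∧ Reg n T} : Set (Finset (Finset Pt))).ncard : ℕ) : ℝ) /
        ((({T | UT n T} : Set (Finset (Finset Pt))).ncard : ℕ) : ℝ)) Filter.atTop (nhds 0) :=
  final_of unp_refill

end Pool.Agent.IT
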