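import Pool.Agent.IT.Insert

/-!
# Flips of unimodular triangulations of the square

The flip of a parallelogram is again a unimodular triangulation, and the family `UT n` satisfies the
hypotheses `Ins.Sys` of the insertion theorem.
-/

set_option autoImplicit false

namespace Pool.Agent.IT

open Filter Topology

/-- the parallelogram `p z q r` is the union of two cells -/
theorem cell_union_iff {p q r z : Pt} (h1 : det p q r = 1) (h2 : det q p z = 1) (h3 : r + z = p + q)
    (x : ℝ × ℝ) : (x ∈ cell {p, q, r} ∨ x ∈ cell {q, p, z}) ↔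
      (0 ≤ dl p z x ∧ 0 ≤ dl z q x ∧ 0 ≤ dl q r x ∧ 0 ≤ dl r p x) := by
  have e1 : r.1 + z.1 = p.1 + q.1 := congrArg Prod.fst h3
  have e2 : r.2 + z.2 = p.2 + q.2 := congrArg Prod.snd h3
  have e1' : (r.1 : ℝ) + z.1 = p.1 + q.1 := by exact_mod_cast e1
  have e2' : (r.2 : ℝ) + z.2 = p.2 + q.2 := by exact_mod_cast e2
  have hz1 : (z.1 : ℝ) = p.1 + q.1 - r.1 := by linarith
  have hz2 : (z.2 : ℝ) = p.2 + q.2 - r.2 := by linarith
  have h1' : (det p q r : ℝ) = 1 := by exact_mod_cast h1
  have k1 : dl p z x = 1 - dl q r x := by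
    rw [← h1']; simp only [dl, det]; push_cast; rw [hz1, hz2]; ring
  have k2 : dl z q x = 1 - dl r p x := by
    rw [← h1']; simp only [dl, det]; push_cast; rw [hz1, hz2]; ring
  have hs := dl_sum p q r x
  rw [h1] at hs
  push_cast at hs
  have hq : dl q p x = - dl p q x := dl_swap p q x
  rw [mem_cell_iff h1, mem_cell_iff h2, k1, k2, hq]
  constructor
  · rintro (⟨g1, g2, g3⟩ | ⟨g1, g2, g3⟩)
    · exact ⟨by linarith, by linarith, g2, g3⟩
    · exact ⟨g2, g3, by linarith, by linarith⟩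
  · rintro ⟨g1, g2, g3, g4⟩
    rcases le_total 0 (dl p q x) with h | h
    · left; exact ⟨h, g3, g4⟩
    · right; exact ⟨by linarith, g1, g2⟩

theorem flip_dets {p q r z : Pt} (h1 : det p q r = 1) (h3 : r + z = p + q) :
    det p z r = 1 ∧ det q r z = 1 := by
  have e1 : r.1 + z.1 = p.1 + q.1 := congrArg Prod.fst h3
  have e2 : r.2 + z.2 = p.2 + q.2 := congrArg Prod.snd h3
  have hz1 : z.1 = p.1 + q.1 - r.1 := by linarith
  have hz2 : z.2 = p.2 + q.2 - r.2 := by linarith
  constructor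
  · rw [← h1]; simp only [det]; rw [hz1, hz2]; ring
  · rw [← h1]; simp only [det]; rw [hz1, hz2]; ring

/-- the two cells before and after the flip have the same union -/
theorem cell_union_flip {p q r z : Pt} (h1 : det p q r = 1) (h2 : det q p z = 1)
    (h3 : r + z = p + q) :
    cell {p, q, r} ∪ cell {q, p, z} = cell {p, z, r} ∪ cell {q, r, z} := by
  obtain ⟨g1, g2⟩ := flip_dets h1 h3
  have k1 : det z r p = 1 := by rw [det_cyc]; exact g1
  have k2 : det r z q = 1 := by rw [det_cyc]; exact g2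
  have h4 : p + q = z + r := by rw [← h3, add_comm]
  have e1 : ({p, z, r} : Finset Pt) = {z, r, p} := (Ins.tri_rot p z r).symm
  have e2 : ({q, r, z} : Finset Pt) = {r, z, q} := (Ins.tri_rot q r z).symm
  ext x
  rw [Set.mem_union, Set.mem_union, cell_union_iff h1 h2 h3, e1, e2, cell_union_iff k1 k2 h4]
  tauto

variable {n : ℕ} {T : Finset (Finset Pt)}

theorem UT.flipPar (hT : UT n T) {p q r z : Pt} (h1 : Pos T p q r) (h2 : Pos T q p z)
    (h3 : r + z = p + q) : UT n (Ins.flipT T p q r z) := by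
  obtain ⟨g1, g2⟩ := flip_dets h1.2 h3
  have hp := h1.insq hT
  have hq := h1.cyc.insq hT
  have hr := h1.cyc'.insq hT
  have hz := h2.cyc'.insq hT
  have hU := cell_union_flip h1.2 h2.2 h3
  have hcov : ∀ t ∈ T, t ≠ {p, q, r} → t ≠ {q, p, z} → t ∈ Ins.flipT T p q r z := by
    intro t ht n1 n2
    simp only [Ins.flipT, Finset.mem_union, Finset.mem_sdiff, Finset.mem_insert,
      Finset.mem_singleton, not_or]
    exact Or.inl ⟨ht, n1, n2⟩
  have m1 : ({p, z, r} : Finset Pt) ∈ Ins.flipT T p q r z := by simp [Ins.flipT]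
  have m2 : ({q, r, z} : Finset Pt) ∈ Ins.flipT T p q r z := by simp [Ins.flipT]
  have hcases : ∀ t ∈ Ins.flipT T p q r z, (t ∈ T ∧ t ≠ {p, q, r} ∧ t ≠ {q, p, z}) ∨
      t = {p, z, r} ∨ t = {q, r, z} := by
    intro t ht
    simp only [Ins.flipT, Finset.mem_union, Finset.mem_sdiff, Finset.mem_insert,
      Finset.mem_singleton, not_or] at ht
    tauto
  -- old against new
  have old_new : ∀ t ∈ T, t ≠ {p, q, r} → t ≠ {q, p, z} → ∀ s : Finset Pt,
      (s = {p, z, r} ∨ s = {q, r, z}) → Disjoint (interior (cell t)) (interior (cell s)) := by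
    intro t ht n1 n2 s hs
    rw [Set.disjoint_left]
    intro x hx hx'
    have hx2 : x ∈ cell {p, z, r} ∪ cell {q, r, z} := by
      rcases hs with rfl | rfl
      · exact Or.inl (interior_subset hx')
      · exact Or.inr (interior_subset hx')
    rw [← hU] at hx2
    rcases hx2 with hx2 | hx2
    · exact n1 (hT.eq_of_mem_interior ht h1.1 hx hx2)
    · exact n2 (hT.eq_of_mem_interior ht h2.1 hx hx2)
  have new_new : Disjoint (interior (cell {p, z, r})) (interior (cell {q, r, z})) := by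
    rw [Set.disjoint_left]
    intro x hx hx'
    rw [mem_interior_cell_iff g1] at hx
    rw [mem_interior_cell_iff g2] at hx'
    have := dl_swap z r x
    linarith [hx.2.1, hx'.2.1]
  refine ⟨?_, ?_, ?_⟩
  · intro t ht
    rcases hcases t ht with ⟨h, _, _⟩ | rfl | rfl
    · exact hT.tri t h
    · refine ⟨p, z, r, rfl, ?_, ?_⟩
      · intro x hx
        simp only [Finset.mem_insert, Finset.mem_singleton] at hx
        rcases hx with rfl | rfl | rfl
        · exact hp
        · exact hz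
        · exact hr
      · have : (z.1 - p.1) * (r.2 - p.2) - (z.2 - p.2) * (r.1 - p.1) = 1 := g1
        rw [this]; norm_num
    · refine ⟨q, r, z, rfl, ?_, ?_⟩
      · intro x hx
        simp only [Finset.mem_insert, Finset.mem_singleton] at hx
        rcases hx with rfl | rfl | rfl
        · exact hq
        · exact hr
        · exact hz
      · have : (r.1 - q.1) * (z.2 - q.2) - (r.2 - q.2) * (z.1 - q.1) = 1 := g2
        rw [this]; norm_num
  · intro t ht s hs hts
    rcases hcases t ht with ⟨h, a1, a2⟩ | h <;> rcases hcases s hs with ⟨h', b1, b2⟩ | h'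
    · exact hT.disj t h s h' hts
    · exact old_new t h a1 a2 s h'
    · exact (old_new s h' b1 b2 t h).symm
    · rcases h with rfl | rfl <;> rcases h' with rfl | rfl
      · exact absurd rfl hts
      · exact new_new
      · exact new_new.symm
      · exact absurd rfl hts
  · rw [← hT.cover]
    ext x
    simp only [Set.mem_iUnion, exists_prop]
    constructor
    · rintro ⟨t, ht, hx⟩
      have key : x ∈ cell {p, q, r} ∪ cell {q, p, z} → ∃ i ∈ T, x ∈ cell i := by
        rintro (h | h)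
        · exact ⟨_, h1.1, h⟩
        · exact ⟨_, h2.1, h⟩
      rcases hcases t ht with ⟨h, _, _⟩ | rfl | rfl
      · exact ⟨t, h, hx⟩
      · exact key (by rw [hU]; exact Or.inl hx)
      · exact key (by rw [hU]; exact Or.inr hx)
    · rintro ⟨t, ht, hx⟩
      have key : x ∈ cell {p, z, r} ∪ cell {q, r, z} → ∃ i ∈ Ins.flipT T p q r z, x ∈ cell i := by
        rintro (h | h)
        · exact ⟨_, m1, h⟩
        · exact ⟨_, m2, h⟩
      by_cases c1 : t = {p, q, r}
      · subst c1; exact key (by rw [← hU]; exact Or.inl hx)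
      · by_cases c2 : t = {q, p, z}
        · subst c2; exact key (by rw [← hU]; exact Or.inr hx)
        · exact ⟨t, hcov t ht c1 c2, hx⟩

theorem edge_isEdge (hT : UT n T) {a b : Pt} (h : Ins.Edge T a b) : IsEdge T a b := by
  obtain ⟨hab, t, ht, ha, hb⟩ := h
  obtain ⟨p, q, r, rfl, h1⟩ := hT.exists_pos ht
  have h2 := h1.cyc
  have h3 := h1.cyc'
  rcases Ins.pair_cases hab ha hb with ⟨rfl, rfl⟩ | ⟨rfl, rfl⟩ | ⟨rfl, rfl⟩ | ⟨rfl, rfl⟩ |
    ⟨rfl, rfl⟩ | ⟨rfl, rfl⟩
  · exact h1.edge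
  · exact h1.edge'
  · exact h2.edge
  · exact h2.edge'
  · exact h3.edge
  · exact h3.edge'

theorem isEdge_edge {a b : Pt} (h : IsEdge T a b) : Ins.Edge T a b := by
  obtain ⟨r, h | h⟩ := h
  · exact h.toEdge
  · exact h.toEdge.symm

/-- on the boundary, the whole square is on the left of the edge -/
theorem OnSide.left (hT : UT n T) {p q r : Pt} (h : Pos T p q r) (hs : OnSide n p q) {x : Pt}
    (hx : InSq n x) : 0 ≤ det p q x := by
  have hr := h.cyc'.insq hT
  have hd := h.2
  obtain ⟨x1, x2, x3, x4⟩ := hx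
  obtain ⟨r1, r2, r3, r4⟩ := hr
  rcases hs with ⟨e1, e2⟩ | ⟨e1, e2⟩ | ⟨e1, e2⟩ | ⟨e1, e2⟩
  · simp only [det, e1, e2] at hd ⊢
    have hpos : 0 < -(q.2 - p.2) := by
      by_contra hc
      nlinarith [mul_nonneg (by linarith : 0 ≤ q.2 - p.2) r1]
    nlinarith [mul_nonneg hpos.le x1]
  · simp only [det, e1, e2] at hd ⊢
    have hpos : 0 < q.2 - p.2 := by
      by_contra hc
      nlinarith [mul_nonneg (by linarith : 0 ≤ -(q.2 - p.2)) (by linarith : 0 ≤ (n:ℤ) - r.1)]
    nlinarith [mul_nonneg hpos.le (by linarith : 0 ≤ (n:ℤ) - x.1)]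
  · simp only [det, e1, e2] at hd ⊢
    have hpos : 0 < q.1 - p.1 := by
      by_contra hc
      nlinarith [mul_nonneg (by linarith : 0 ≤ -(q.1 - p.1)) r3]
    nlinarith [mul_nonneg hpos.le x3]
  · simp only [det, e1, e2] at hd ⊢
    have hpos : 0 < -(q.1 - p.1) := by
      by_contra hc
      nlinarith [mul_nonneg (by linarith : 0 ≤ q.1 - p.1) (by linarith : 0 ≤ (n:ℤ) - r.2)]
    nlinarith [mul_nonneg hpos.le (by linarith : 0 ≤ (n:ℤ) - x.2)]

theorem eventually_toward {a b : Pt} (ha : InSq n a) (hb : InSq n b) :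
    ∀ᶠ ε in 𝓝[>] (0:ℝ), emb a + ε • emb (b.1 - a.1, b.2 - a.2) ∈ Sq n := by
  obtain ⟨a1, a2, a3, a4⟩ := ha
  obtain ⟨b1, b2, b3, b4⟩ := hb
  have a1' : (0:ℝ) ≤ a.1 := by exact_mod_cast a1
  have a2' : (a.1:ℝ) ≤ n := by exact_mod_cast a2
  have a3' : (0:ℝ) ≤ a.2 := by exact_mod_cast a3
  have a4' : (a.2:ℝ) ≤ n := by exact_mod_cast a4
  have b1' : (0:ℝ) ≤ b.1 := by exact_mod_cast b1
  have b2' : (b.1:ℝ) ≤ n := by exact_mod_cast b2
  have b3' : (0:ℝ) ≤ b.2 := by exact_mod_cast b3
  have b4' : (b.2:ℝ) ≤ n := by exact_mod_cast b4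
  filter_upwards [Ioo_mem_nhdsGT (show (0:ℝ) < 1 by norm_num)] with ε hε
  obtain ⟨h0, h1⟩ := hε
  rw [mem_Sq]
  simp only [emb, Prod.fst_add, Prod.snd_add, Prod.smul_fst, Prod.smul_snd, smul_eq_mul]
  push_cast
  refine ⟨?_, ?_, ?_, ?_⟩
  · nlinarith [mul_nonneg h0.le b1', mul_nonneg (by linarith : 0 ≤ 1 - ε) a1']
  · nlinarith [mul_nonneg h0.le (by linarith : 0 ≤ (n:ℝ) - b.1),
      mul_nonneg (by linarith : 0 ≤ 1 - ε) (by linarith : 0 ≤ (n:ℝ) - a.1)]
  · nlinarith [mul_nonneg h0.le b3', mul_nonneg (by linarith : 0 ≤ 1 - ε) a3']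
  · nlinarith [mul_nonneg h0.le (by linarith : 0 ≤ (n:ℝ) - b.2),
      mul_nonneg (by linarith : 0 ≤ 1 - ε) (by linarith : 0 ≤ (n:ℝ) - a.2)]

/-- The unimodular triangulations of the square satisfy the hypotheses of the insertion theorem. -/
theorem sysUT (n : ℕ) : Ins.Sys {p : Pt | InSq n p} (UT n) where
  tri := by
    intro T hT t ht
    obtain ⟨p, q, r, h, hp⟩ := hT.exists_pos ht
    exact ⟨p, q, r, h, hp.2⟩
  mem := by
    intro T hT t ht p hp
    exact hT.insq ht hp
  uniq := by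
    intro T hT p q r r' h h'
    exact h.unique hT h'
  nbr := by
    intro T hT p q r h
    by_cases hs : OnSide n p q
    · right
      intro x hx
      exact OnSide.left hT h hs hx
    · left; exact h.neighbor hT hs
  cover := by
    intro T hT a b ha hb _
    obtain ⟨q, r, h, h1, h2⟩ := hT.exists_cone (eventually_toward ha hb)
    refine ⟨q, r, h, ?_, ?_⟩
    · simpa [crs, det] using h1
    · simpa [crs, det] using h2
  flp := by
    intro T hT p q r z h1 h2 h3
    exact hT.flipPar h1 h2 h3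
  nocross := by
    rintro T hT p q s t h1 h2 ⟨g1, g2, g3, g4⟩
    exact (edge_isEdge hT h1).no_cross hT (edge_isEdge hT h2) (by nlinarith) (by nlinarith)

end Pool.Agent.IT
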