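import Pool.Agent.IT.MeetSet

/-!
# Flips preserve dual-connected patches
-/

set_option autoImplicit false

namespace Pool.Agent.IT

open Ins (flipT pair_cases)

variable {n : ℕ} {T : Finset (Finset Pt)}

/-- A triangle containing both endpoints of an interior edge is one of its two neighbours. -/
theorem UT.two_tri (hT : UT n T) {p q r z : Pt} (h1 : Pos T p q r) (h2 : Pos T q p z)
    {a : Finset Pt} (ha : a ∈ T) (hp : p ∈ a) (hq : q ∈ a) : a = {p, q, r} ∨ a = {q, p, z} := by
  obtain ⟨x, y, w, rfl, h⟩ := hT.exists_pos ha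
  have key : ∀ u v w' : Pt, Pos T u v w' → ({x, y, w} : Finset Pt) = {u, v, w'} →
      (p = u ∧ q = v) ∨ (p = v ∧ q = u) →
      ({x, y, w} : Finset Pt) = {p, q, r} ∨ ({x, y, w} : Finset Pt) = {q, p, z} := by
    intro u v w' g hg hc
    rcases hc with ⟨rfl, rfl⟩ | ⟨rfl, rfl⟩
    · left; rw [hg, g.unique hT h1]
    · right; rw [hg, g.unique hT h2]
  rcases pair_cases h1.ne hp hq with h' | h' | h' | h' | h' | h'
  · exact key x y w h rfl (Or.inl h')
  · exact key x y w h rfl (Or.inr h')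
  · exact key y w x h.cyc (Ins.tri_rot x y w).symm (Or.inl h')
  · exact key y w x h.cyc (Ins.tri_rot x y w).symm (Or.inr h')
  · exact key w x y h.cyc' ((Ins.tri_rot y w x).trans (Ins.tri_rot x y w)).symm (Or.inl h')
  · exact key w x y h.cyc' ((Ins.tri_rot y w x).trans (Ins.tri_rot x y w)).symm (Or.inr h')

theorem adj_new (hT : UT n T) {p q r z : Pt} (h1 : Pos T p q r) (h2 : Pos T q p z)
    {a b : Finset Pt} (ha : a ∈ T) (n1 : a ≠ {p, q, r}) (n2 : a ≠ {q, p, z})
    (hb : b = {p, q, r} ∨ b = {q, p, z}) (h : Adj a b) :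
    Adj a {p, z, r} ∨ Adj a {q, r, z} := by
  obtain ⟨x, y, hxy, hxa, hya, hxb, hyb⟩ := h
  have hno : ¬ (p ∈ a ∧ q ∈ a) := by
    rintro ⟨g1, g2⟩
    rcases hT.two_tri h1 h2 ha g1 g2 with h | h
    · exact n1 h
    · exact n2 h
  rcases hb with rfl | rfl
  · rcases pair_cases hxy hxb hyb with ⟨rfl, rfl⟩ | ⟨rfl, rfl⟩ | ⟨rfl, rfl⟩ | ⟨rfl, rfl⟩ |
      ⟨rfl, rfl⟩ | ⟨rfl, rfl⟩
    · exact absurd ⟨hxa, hya⟩ hno
    · exact absurd ⟨hya, hxa⟩ hno
    · exact Or.inr ⟨x, y, hxy, hxa, hya, by simp, by simp⟩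
    · exact Or.inr ⟨x, y, hxy, hxa, hya, by simp, by simp⟩
    · exact Or.inl ⟨x, y, hxy, hxa, hya, by simp, by simp⟩
    · exact Or.inl ⟨x, y, hxy, hxa, hya, by simp, by simp⟩
  · rcases pair_cases hxy hxb hyb with ⟨rfl, rfl⟩ | ⟨rfl, rfl⟩ | ⟨rfl, rfl⟩ | ⟨rfl, rfl⟩ |
      ⟨rfl, rfl⟩ | ⟨rfl, rfl⟩
    · exact absurd ⟨hya, hxa⟩ hno
    · exact absurd ⟨hxa, hya⟩ hno
    · exact Or.inl ⟨x, y, hxy, hxa, hya, by simp, by simp⟩
    · exact Or.inl ⟨x, y, hxy, hxa, hya, by simp, by simp⟩
    · exact Or.inr ⟨x, y, hxy, hxa, hya, by simp, by simp⟩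
    · exact Or.inr ⟨x, y, hxy, hxa, hya, by simp, by simp⟩

theorem mem_flipT {S : Finset (Finset Pt)} {p q r z : Pt} {a : Finset Pt} :
    a ∈ flipT S p q r z ↔ (a ∈ S ∧ a ≠ {p, q, r} ∧ a ≠ {q, p, z}) ∨ a = {p, z, r} ∨
      a = {q, r, z} := by
  simp only [flipT, Finset.mem_union, Finset.mem_sdiff, Finset.mem_insert, Finset.mem_singleton,
    not_or]

/-- Flips preserve dual-connectedness of patches. -/
theorem conn_flip (hT : UT n T) {S : Finset (Finset Pt)} (hST : S ⊆ T) {p q r z : Pt}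
    (h1 : Pos T p q r) (h2 : Pos T q p z) (m1 : ({p, q, r} : Finset Pt) ∈ S)
    (hS : Conn S) : Conn (flipT S p q r z) := by
  have hrz : r ≠ z := by
    rintro rfl
    have e1 := h1.2
    have e2 := h2.2
    rw [det_swap] at e2
    omega
  set S' := flipT S p q r z with hS'
  have k1 : ({p, z, r} : Finset Pt) ∈ S' := by rw [hS', mem_flipT]; tauto
  have k2 : ({q, r, z} : Finset Pt) ∈ S' := by rw [hS', mem_flipT]; tauto
  have k12 : StepIn S' {p, z, r} {q, r, z} :=
    ⟨k1, k2, r, z, hrz, by simp, by simp, by simp, by simp⟩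
  -- every element of S is connected to the first new triangle
  have key : ∀ a, Relation.ReflTransGen (StepIn S) a {p, q, r} →
      a = {p, q, r} ∨ a = {q, p, z} ∨ Relation.ReflTransGen (StepIn S') a {p, z, r} := by
    intro a ha
    induction ha using Relation.ReflTransGen.head_induction_on with
    | refl => exact Or.inl rfl
    | @head a c hac _ ih =>
      by_cases n1 : a = {p, q, r}
      · exact Or.inl n1
      by_cases n2 : a = {q, p, z}
      · exact Or.inr (Or.inl n2)
      right; right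
      have haS' : a ∈ S' := by rw [hS', mem_flipT]; exact Or.inl ⟨hac.1, n1, n2⟩
      by_cases hc : c = {p, q, r} ∨ c = {q, p, z}
      · rcases adj_new hT h1 h2 (hST hac.1) n1 n2 hc hac.2.2 with h | h
        · exact Relation.ReflTransGen.single ⟨haS', k1, h⟩
        · exact Relation.ReflTransGen.head ⟨haS', k2, h⟩ (Relation.ReflTransGen.single k12.symm)
      · push Not at hc
        have hcS' : c ∈ S' := by rw [hS', mem_flipT]; exact Or.inl ⟨hac.2.1, hc.1, hc.2⟩
        rcases ih with h | h | h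
        · exact absurd h hc.1
        · exact absurd h hc.2
        · exact Relation.ReflTransGen.head ⟨haS', hcS', hac.2.2⟩ h
  have toNew : ∀ a ∈ S', Relation.ReflTransGen (StepIn S') a {p, z, r} := by
    intro a ha
    rw [hS', mem_flipT] at ha
    rcases ha with ⟨ha, n1, n2⟩ | rfl | rfl
    · rcases key a (hS a ha _ m1) with h | h | h
      · exact absurd h n1
      · exact absurd h n2
      · exact h
    · exact Relation.ReflTransGen.refl
    · exact Relation.ReflTransGen.single k12.symm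
  intro a ha b hb
  exact (toNew a ha).trans (reach_symm (toNew b hb))

end Pool.Agent.IT
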