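import Pool.Agent.IT.Bridge

/-!
# Generic points and the generic form of `UT`
-/

namespace Pool.Agent.IT

open Filter Topology

variable {n : ℕ} {T : Finset (Finset Pt)}

/-- generic real points: on no line through two different lattice points -/
def Gen (z : ℝ × ℝ) : Prop := ∀ p q : Pt, p ≠ q → dl p q z ≠ 0

theorem dense_line_compl {p q : Pt} (h : p ≠ q) : Dense {z : ℝ × ℝ | dl p q z ≠ 0} := by
  intro z
  rw [mem_closure_iff_nhds]
  intro U hU
  by_cases hz : dl p q z = 0
  · set w : ℝ × ℝ := (-((q.2:ℝ) - p.2), (q.1:ℝ) - p.1) with hw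
    have hs : 0 < sl p q w := by
      simp only [sl, hw]
      have h1 : (q.1:ℝ) - p.1 ≠ 0 ∨ (q.2:ℝ) - p.2 ≠ 0 := by
        by_contra hc
        push Not at hc
        apply h
        ext
        · have : (q.1:ℝ) = p.1 := by linarith [hc.1]
          exact_mod_cast this.symm
        · have : (q.2:ℝ) = p.2 := by linarith [hc.2]
          exact_mod_cast this.symm
      rcases h1 with h1 | h1
      · have := mul_self_pos.mpr h1
        nlinarith [mul_self_nonneg ((q.2:ℝ) - p.2)]
      · have := mul_self_pos.mpr h1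
        nlinarith [mul_self_nonneg ((q.1:ℝ) - p.1)]
    have hc : Continuous (fun ε : ℝ => z + ε • w) := by fun_prop
    have h0 : z + (0:ℝ) • w = z := by simp
    have hev : ∀ᶠ ε in 𝓝 (0:ℝ), z + ε • w ∈ U := by
      apply hc.continuousAt.eventually_mem
      rw [h0]; exact hU
    obtain ⟨ε, g1, g2⟩ := ((hev.filter_mono nhdsWithin_le_nhds).and
      (self_mem_nhdsWithin : Set.Ioi (0:ℝ) ∈ 𝓝[>] (0:ℝ))).exists
    refine ⟨z + ε • w, g1, ?_⟩
    change dl p q (z + ε • w) ≠ 0
    rw [dl_add, hz, zero_add]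
    exact (mul_pos g2 hs).ne'
  · exact ⟨z, mem_of_mem_nhds hU, hz⟩

theorem isOpen_line_compl (p q : Pt) : IsOpen {z : ℝ × ℝ | dl p q z ≠ 0} :=
  isOpen_ne_fun (continuous_dl p q) continuous_const

theorem dense_gen : Dense {z : ℝ × ℝ | Gen z} := by
  have e : {z : ℝ × ℝ | Gen z} = ⋂ i : {e : Pt × Pt // e.1 ≠ e.2}, {z : ℝ × ℝ | dl i.1.1 i.1.2 z ≠ 0} := by
    ext z
    simp only [Set.mem_ofPred_eq, Set.mem_iInter, Gen]
    constructor
    · intro h i
      exact h i.1.1 i.1.2 i.2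
    · intro h p q hpq
      exact h ⟨(p, q), hpq⟩
  rw [e]
  exact dense_iInter_of_isOpen (fun i => isOpen_line_compl _ _) (fun i => dense_line_compl i.2)

/-- every nonempty open set contains a generic point -/
theorem exists_gen {U : Set (ℝ × ℝ)} (hU : IsOpen U) (hne : U.Nonempty) : ∃ z ∈ U, Gen z := by
  obtain ⟨z, h1, h2⟩ := dense_gen.inter_open_nonempty U hU hne
  exact ⟨z, h1, h2⟩

theorem Gen.mem_interior {a b c : Pt} (h : det a b c = 1) {z : ℝ × ℝ} (hz : Gen z)
    (hm : z ∈ cell {a, b, c}) : z ∈ interior (cell {a, b, c}) := by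
  rw [mem_cell_iff h] at hm
  rw [mem_interior_cell_iff h]
  have n1 : a ≠ b := by rintro rfl; rw [det_self_left] at h; omega
  have n2 : b ≠ c := by rintro rfl; rw [det_self_right] at h; omega
  have n3 : c ≠ a := by rintro rfl; rw [det_self_out] at h; omega
  exact ⟨lt_of_le_of_ne hm.1 (hz a b n1).symm, lt_of_le_of_ne hm.2.1 (hz b c n2).symm,
    lt_of_le_of_ne hm.2.2 (hz c a n3).symm⟩

/-- A generic point lies in at most one cell. -/
theorem UT.gen_unique (hT : UT n T) {z : ℝ × ℝ} (hz : Gen z) {t s : Finset Pt} (ht : t ∈ T)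
    (hs : s ∈ T) (h1 : z ∈ cell t) (h2 : z ∈ cell s) : t = s := by
  obtain ⟨a, b, c, rfl, hpos⟩ := hT.exists_pos ht
  exact hT.eq_of_mem_interior ht hs (hz.mem_interior hpos.2 h1) h2

theorem isOpen_Sq_interior : IsOpen {z : ℝ × ℝ | 0 < z.1 ∧ z.1 < n ∧ 0 < z.2 ∧ z.2 < n} := by
  apply IsOpen.inter (isOpen_lt continuous_const continuous_fst)
  apply IsOpen.inter (isOpen_lt continuous_fst continuous_const)
  apply IsOpen.inter (isOpen_lt continuous_const continuous_snd)
    (isOpen_lt continuous_snd continuous_const)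

/-- The generic criterion: a family of unimodular triangles in the square is a triangulation as soon as
every generic point of the square is in exactly one of them. -/
theorem UT.of_gen (hn : 0 < n)
    (htri : ∀ t ∈ T, ∃ a b c : Pt, t = {a, b, c} ∧ det a b c = 1)
    (hin : ∀ t ∈ T, ∀ p ∈ t, InSq n p)
    (hex : ∀ z ∈ Sq n, Gen z → ∃ t ∈ T, z ∈ cell t)
    (hun : ∀ z, Gen z → ∀ t ∈ T, ∀ s ∈ T, z ∈ cell t → z ∈ cell s → t = s) : UT n T := by
  have hcl : ∀ t ∈ T, IsClosed (cell t) := by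
    intro t ht
    obtain ⟨a, b, c, rfl, h⟩ := htri t ht
    exact isClosed_cell h
  refine ⟨?_, ?_, ?_⟩
  · intro t ht
    obtain ⟨a, b, c, e, h⟩ := htri t ht
    refine ⟨a, b, c, e, fun p hp => hin t ht p hp, ?_⟩
    have h' : (b.1 - a.1) * (c.2 - a.2) - (b.2 - a.2) * (c.1 - a.1) = 1 := h
    rw [h']; norm_num
  · intro t ht s hs hne
    by_contra hd
    rw [Set.not_disjoint_iff_nonempty_inter] at hd
    obtain ⟨z, ⟨h1, h2⟩, hz⟩ := exists_gen (isOpen_interior.inter isOpen_interior) hd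
    exact hne (hun z hz t ht s hs (interior_subset h1) (interior_subset h2))
  · apply Set.Subset.antisymm
    · intro z hz
      simp only [Set.mem_iUnion] at hz
      obtain ⟨t, ht, hz⟩ := hz
      have hc : Convex ℝ (Sq n) := by
        unfold Sq
        exact convex_Icc _ _
      have : cell t ⊆ Sq n := by
        apply convexHull_min _ hc
        rintro y ⟨p, hp, rfl⟩
        exact emb_mem_Sq.mpr (hin t ht p (by simpa using hp))
      exact this hz
    · -- the union is closed and contains the generic points of the open square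
      have hclosed : IsClosed (⋃ t ∈ T, cell t) := by
        apply Set.Finite.isClosed_biUnion T.finite_toSet
        intro t ht
        exact hcl t ht
      intro z hz
      rw [← hclosed.closure_eq, mem_closure_iff_nhds]
      intro U hU
      -- a point of the open square near z
      have hz' : z ∈ Sq n := hz
      rw [mem_Sq] at hz'
      obtain ⟨z1, z2, z3, z4⟩ := hz'
      have hn' : (0:ℝ) < n := by exact_mod_cast hn
      set w : ℝ × ℝ := ((n:ℝ) / 2 - z.1, (n:ℝ) / 2 - z.2) with hw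
      have hc : Continuous (fun ε : ℝ => z + ε • w) := by fun_prop
      have h0 : z + (0:ℝ) • w = z := by simp
      obtain ⟨V, hVU, hVo, hzV⟩ := mem_nhds_iff.mp hU
      have hev : ∀ᶠ ε in 𝓝 (0:ℝ), z + ε • w ∈ V := by
        apply hc.continuousAt.eventually_mem
        rw [h0]; exact hVo.mem_nhds hzV
      obtain ⟨ε, g1, g2, g3⟩ := ((hev.filter_mono nhdsWithin_le_nhds).and
        (Ioo_mem_nhdsGT (zero_lt_one))).exists
      have hopen : IsOpen (V ∩ {z : ℝ × ℝ | 0 < z.1 ∧ z.1 < n ∧ 0 < z.2 ∧ z.2 < n}) :=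
        hVo.inter isOpen_Sq_interior
      have hne : (V ∩ {z : ℝ × ℝ | 0 < z.1 ∧ z.1 < n ∧ 0 < z.2 ∧ z.2 < n}).Nonempty := by
        refine ⟨z + ε • w, g1, ?_⟩
        simp only [Set.mem_ofPred_eq, Prod.fst_add, Prod.snd_add, Prod.smul_fst, Prod.smul_snd,
          smul_eq_mul, hw]
        have k1 : z.1 + ε * (n / 2 - z.1) = (1 - ε) * z.1 + ε * (n / 2) := by ring
        have k2 : z.2 + ε * (n / 2 - z.2) = (1 - ε) * z.2 + ε * (n / 2) := by ring
        rw [k1, k2]
        have l0 : 0 < 1 - ε := by linarith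
        have l1 : 0 < ε * ((n:ℝ) / 2) := by positivity
        refine ⟨?_, ?_, ?_, ?_⟩
        · have := mul_nonneg l0.le z1; linarith
        · have := mul_nonneg l0.le (sub_nonneg.mpr z2); nlinarith
        · have := mul_nonneg l0.le z3; linarith
        · have := mul_nonneg l0.le (sub_nonneg.mpr z4); nlinarith
      obtain ⟨y, ⟨hy1, hy2⟩, hy3⟩ := exists_gen hopen hne
      have hyS : y ∈ Sq n := by
        rw [mem_Sq]
        exact ⟨hy2.1.le, hy2.2.1.le, hy2.2.2.1.le, hy2.2.2.2.le⟩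
      obtain ⟨t, ht, hyt⟩ := hex y hyS hy3
      exact ⟨y, hVU hy1, by simp only [Set.mem_iUnion]; exact ⟨t, ht, hyt⟩⟩

/-- Generic form of `UT.replace`: it is enough that the generic points covered by `S` and `S'` are the same
and that every generic point is covered at most once by `S'`. -/
theorem UT.replace_gen (hT : UT n T) {S S' : Finset (Finset Pt)} (hS : S ⊆ T)
    (htri : ∀ t ∈ S', ∃ a b c : Pt, t = {a, b, c} ∧ det a b c = 1)
    (h1 : ∀ z, Gen z → (∃ t ∈ S, z ∈ cell t) → ∃ t ∈ S', z ∈ cell t)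
    (h2 : ∀ z, Gen z → (∃ t ∈ S', z ∈ cell t) → ∃ t ∈ S, z ∈ cell t)
    (h3 : ∀ z, Gen z → ∀ t ∈ S', ∀ s ∈ S', z ∈ cell t → z ∈ cell s → t = s) :
    UT n ((T \ S) ∪ S') := by
  -- closure argument
  have hclos : ∀ A B : Finset (Finset Pt),
      (∀ t ∈ A, ∃ a b c : Pt, t = {a, b, c} ∧ det a b c = 1) →
      (∀ t ∈ B, ∃ a b c : Pt, t = {a, b, c} ∧ det a b c = 1) →
      (∀ z, Gen z → (∃ t ∈ A, z ∈ cell t) → ∃ t ∈ B, z ∈ cell t) →
      (⋃ t ∈ A, cell t) ⊆ ⋃ t ∈ B, cell t := by
    intro A B hA hB hAB x hx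
    simp only [Set.mem_iUnion] at hx
    obtain ⟨t, ht, hx⟩ := hx
    obtain ⟨a, b, c, rfl, hd⟩ := hA t ht
    have hclosed : IsClosed (⋃ t ∈ B, cell t) := by
      apply Set.Finite.isClosed_biUnion B.finite_toSet
      intro t ht
      obtain ⟨a, b, c, rfl, h⟩ := hB t ht
      exact isClosed_cell h
    rw [← hclosed.closure_eq, mem_closure_iff_nhds]
    intro U hU
    obtain ⟨V, hVU, hVo, hzV⟩ := mem_nhds_iff.mp hU
    obtain ⟨w, hw⟩ := toward_center hd hx
    have hc : Continuous (fun ε : ℝ => x + ε • w) := by fun_prop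
    have h0 : x + (0:ℝ) • w = x := by simp
    have hev : ∀ᶠ ε in 𝓝 (0:ℝ), x + ε • w ∈ V := by
      apply hc.continuousAt.eventually_mem
      rw [h0]; exact hVo.mem_nhds hzV
    obtain ⟨ε, g1, g2⟩ := ((hev.filter_mono nhdsWithin_le_nhds).and hw).exists
    obtain ⟨y, ⟨hy1, hy2⟩, hy3⟩ := exists_gen (hVo.inter isOpen_interior) ⟨_, g1, g2⟩
    obtain ⟨s, hs, hys⟩ := hAB y hy3 ⟨_, ht, interior_subset hy2⟩
    exact ⟨y, hVU hy1, by simp only [Set.mem_iUnion]; exact ⟨s, hs, hys⟩⟩
  have hStri : ∀ t ∈ S, ∃ a b c : Pt, t = {a, b, c} ∧ det a b c = 1 := by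
    intro t ht
    obtain ⟨a, b, c, e, h⟩ := hT.exists_pos (hS ht)
    exact ⟨a, b, c, e, h.2⟩
  apply hT.replace hS htri
  · intro t ht s hs hne
    by_contra hd
    rw [Set.not_disjoint_iff_nonempty_inter] at hd
    obtain ⟨z, ⟨k1, k2⟩, hz⟩ := exists_gen (isOpen_interior.inter isOpen_interior) hd
    exact hne (h3 z hz t ht s hs (interior_subset k1) (interior_subset k2))
  · exact Set.Subset.antisymm (hclos S S' hStri htri h1) (hclos S' S htri hStri h2)

end Pool.Agent.IT
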