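import Mathlib

/-!
# Unimodular triangles in the real plane

Elementary geometry used for the frozen statement S11801: cells (convex hulls of the three vertices of a
unimodular lattice triangle) are described by three linear inequalities, their interiors by the strict
versions.
-/

namespace Pool.Agent.IT

/-- Lattice points. -/
abbrev Pt := ℤ × ℤ

/-- Twice the signed area of the lattice triangle `p q r`. -/
def det (p q r : Pt) : ℤ := (q.1 - p.1) * (r.2 - p.2) - (q.2 - p.2) * (r.1 - p.1)

/-- Cross product of two lattice vectors. -/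
def crs (u v : Pt) : ℤ := u.1 * v.2 - u.2 * v.1

/-- The real point of a lattice point. -/
def emb (p : Pt) : ℝ × ℝ := ((p.1 : ℝ), (p.2 : ℝ))

/-- The cell (closed triangle) of a finset of lattice points, written exactly as in S11801. -/
def cell (t : Finset Pt) : Set (ℝ × ℝ) :=
  convexHull ℝ ((fun p : ℤ × ℤ => ((p.1 : ℝ), (p.2 : ℝ))) '' (t : Set (ℤ × ℤ)))

/-- Signed distance-like functional of the directed line `p → q` at the real point `x`. -/
def dl (p q : Pt) (x : ℝ × ℝ) : ℝ :=
  ((q.1 : ℝ) - p.1) * (x.2 - p.2) - ((q.2 : ℝ) - p.2) * (x.1 - p.1)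

theorem dl_emb (p q r : Pt) : dl p q (emb r) = (det p q r : ℝ) := by
  simp only [dl, emb, det]; push_cast; ring

theorem det_cyc (p q r : Pt) : det q r p = det p q r := by simp only [det]; ring

theorem det_cyc' (p q r : Pt) : det r p q = det p q r := by simp only [det]; ring

theorem det_swap (p q r : Pt) : det q p r = - det p q r := by simp only [det]; ring

theorem det_swap' (p q r : Pt) : det p r q = - det p q r := by simp only [det]; ring

theorem det_self_left (p r : Pt) : det p p r = 0 := by simp only [det]; ring

theorem det_self_right (p r : Pt) : det p r r = 0 := by simp only [det]; ring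

theorem det_self_out (p r : Pt) : det p r p = 0 := by simp only [det]; ring

theorem dl_swap (p q : Pt) (x : ℝ × ℝ) : dl q p x = - dl p q x := by simp only [dl]; ring

/-- The three functionals of a triangle add up to twice its signed area. -/
theorem dl_sum (p q r : Pt) (x : ℝ × ℝ) :
    dl p q x + dl q r x + dl r p x = (det p q r : ℝ) := by
  simp only [dl, det]; push_cast; ring

/-- Barycentric coordinates. -/
theorem bary1 {p q r : Pt} (h : det p q r = 1) (x : ℝ × ℝ) :
    x.1 = dl q r x * p.1 + dl r p x * q.1 + dl p q x * r.1 := by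
  have h' : (det p q r : ℝ) = 1 := by exact_mod_cast h
  simp only [dl, det] at *
  push_cast at h'
  linear_combination (-x.1) * h'

theorem bary2 {p q r : Pt} (h : det p q r = 1) (x : ℝ × ℝ) :
    x.2 = dl q r x * p.2 + dl r p x * q.2 + dl p q x * r.2 := by
  have h' : (det p q r : ℝ) = 1 := by exact_mod_cast h
  simp only [dl, det] at *
  push_cast at h'
  linear_combination (-x.2) * h'

theorem emb_mem_cell {t : Finset Pt} {p : Pt} (h : p ∈ t) : emb p ∈ cell t :=
  subset_convexHull ℝ _ ⟨p, by simpa using h, rfl⟩

theorem convex_halfplane (p q : Pt) : Convex ℝ {x : ℝ × ℝ | 0 ≤ dl p q x} := by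
  intro x hx y hy a b ha hb hab
  simp only [Set.mem_ofPred_eq] at *
  have : dl p q (a • x + b • y) = a * dl p q x + b * dl p q y := by
    simp only [dl, Prod.fst_add, Prod.snd_add, Prod.smul_fst, Prod.smul_snd, smul_eq_mul]
    linear_combination (-(((q.1:ℝ) - p.1) * (-p.2) - ((q.2:ℝ) - p.2) * (-p.1))) * hab
  rw [this]
  positivity

/-- A cell is cut out by its three closed half planes. -/
theorem mem_cell_iff {p q r : Pt} (h : det p q r = 1) (x : ℝ × ℝ) :
    x ∈ cell {p, q, r} ↔ 0 ≤ dl p q x ∧ 0 ≤ dl q r x ∧ 0 ≤ dl r p x := by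
  have hc1 : det q r p = 1 := by rw [det_cyc, h]
  have hc2 : det r p q = 1 := by rw [det_cyc', h]
  constructor
  · intro hx
    have key : cell {p, q, r} ⊆ {x | 0 ≤ dl p q x} ∩ ({x | 0 ≤ dl q r x} ∩ {x | 0 ≤ dl r p x}) := by
      apply convexHull_min
      · rintro y ⟨s, hs, rfl⟩
        have hs' : s = p ∨ s = q ∨ s = r := by simpa using hs
        change emb s ∈ _
        simp only [Set.mem_inter_iff, Set.mem_ofPred_eq, dl_emb]
        rcases hs' with rfl | rfl | rfl
        · rw [det_self_out, hc1, det_self_right]; norm_num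
        · rw [det_self_right, det_self_out, hc2]; norm_num
        · rw [h, det_self_right, det_self_out]; norm_num
      · exact (convex_halfplane p q).inter ((convex_halfplane q r).inter (convex_halfplane r p))
    have := key hx
    simpa using this
  · rintro ⟨h1, h2, h3⟩
    have hs : dl p q x + dl q r x + dl r p x = 1 := by rw [dl_sum, h]; norm_num
    have hp : emb p ∈ cell {p, q, r} := emb_mem_cell (by simp)
    have hq : emb q ∈ cell {p, q, r} := emb_mem_cell (by simp)
    have hr : emb r ∈ cell {p, q, r} := emb_mem_cell (by simp)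
    have hconv : Convex ℝ (cell {p, q, r}) := convex_convexHull ℝ _
    have hx : x = dl q r x • emb p + dl r p x • emb q + dl p q x • emb r := by
      ext
      · simp only [emb, Prod.fst_add, Prod.smul_fst, smul_eq_mul]; exact bary1 h x
      · simp only [emb, Prod.snd_add, Prod.smul_snd, smul_eq_mul]; exact bary2 h x
    rw [hx]
    have := hconv.sum_mem (t := (Finset.univ : Finset (Fin 3)))
      (w := ![dl q r x, dl r p x, dl p q x]) (z := ![emb p, emb q, emb r])
      (by intro i _; fin_cases i <;> simp [h1, h2, h3])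
      (by simp [Fin.sum_univ_three]; linarith)
      (by intro i _; fin_cases i <;> simp [hp, hq, hr])
    simpa [Fin.sum_univ_three] using this

theorem continuous_dl (p q : Pt) : Continuous (dl p q) := by
  unfold dl
  fun_prop

/-- The interior of a cell is cut out by the strict inequalities. -/
theorem mem_interior_cell_iff {p q r : Pt} (h : det p q r = 1) (x : ℝ × ℝ) :
    x ∈ interior (cell {p, q, r}) ↔ 0 < dl p q x ∧ 0 < dl q r x ∧ 0 < dl r p x := by
  constructor
  · intro hx
    have hmem : cell {p, q, r} ∈ nhds x := mem_interior_iff_mem_nhds.mp hx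
    -- move in the direction `x - ε (c - x)` where `c` is a vertex
    have key : ∀ a b c : Pt, det a b c = 1 → (∀ y ∈ cell {p, q, r}, 0 ≤ dl a b y) → 0 < dl a b x := by
      intro a b c habc hy
      have hcont : Continuous (fun ε : ℝ => x + ε • (emb a - emb c)) := by fun_prop
      have hev : ∀ᶠ ε in nhds (0:ℝ), x + ε • (emb a - emb c) ∈ cell {p, q, r} := by
        apply hcont.continuousAt.eventually_mem
        have h00 : x + (0:ℝ) • (emb a - emb c) = x := by simp
        rw [h00]; exact hmem
      obtain ⟨ε, hε, hεpos⟩ := ((hev.filter_mono nhdsWithin_le_nhds).and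
        (self_mem_nhdsWithin : Set.Ioi (0:ℝ) ∈ nhdsWithin 0 (Set.Ioi 0))).exists
      have h1 := hy _ hε
      have h2 : dl a b (x + ε • (emb a - emb c)) = dl a b x - ε * (det a b c : ℝ) := by
        simp only [dl, emb, det, Prod.fst_add, Prod.snd_add, Prod.smul_fst, Prod.smul_snd, smul_eq_mul,
          Prod.fst_sub, Prod.snd_sub]
        push_cast; ring
      rw [h2, habc] at h1
      have : (0:ℝ) < ε := hεpos
      push_cast at h1
      linarith
    have hall : ∀ y ∈ cell {p, q, r}, 0 ≤ dl p q y ∧ 0 ≤ dl q r y ∧ 0 ≤ dl r p y :=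
      fun y hy => (mem_cell_iff h y).mp hy
    refine ⟨key p q r h (fun y hy => (hall y hy).1), key q r p (by rw [det_cyc, h])
      (fun y hy => (hall y hy).2.1), key r p q (by rw [det_cyc', h]) (fun y hy => (hall y hy).2.2)⟩
  · rintro ⟨h1, h2, h3⟩
    have hopen : IsOpen {y : ℝ × ℝ | 0 < dl p q y ∧ 0 < dl q r y ∧ 0 < dl r p y} := by
      apply IsOpen.inter (isOpen_lt continuous_const (continuous_dl p q))
      apply IsOpen.inter (isOpen_lt continuous_const (continuous_dl q r))
        (isOpen_lt continuous_const (continuous_dl r p))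
    have hsub : {y : ℝ × ℝ | 0 < dl p q y ∧ 0 < dl q r y ∧ 0 < dl r p y} ⊆ cell {p, q, r} := by
      rintro y ⟨g1, g2, g3⟩
      exact (mem_cell_iff h y).mpr ⟨g1.le, g2.le, g3.le⟩
    exact interior_maximal hsub hopen ⟨h1, h2, h3⟩

theorem isClosed_cell {p q r : Pt} (h : det p q r = 1) : IsClosed (cell {p, q, r}) := by
  have : cell {p, q, r} = {x | 0 ≤ dl p q x ∧ 0 ≤ dl q r x ∧ 0 ≤ dl r p x} := by
    ext x; exact mem_cell_iff h x
  rw [this]
  apply IsClosed.inter (isClosed_le continuous_const (continuous_dl p q))
  apply IsClosed.inter (isClosed_le continuous_const (continuous_dl q r))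
    (isClosed_le continuous_const (continuous_dl r p))

end Pool.Agent.IT
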