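import Pool.Agent.IT.Defs
import Pool.Agent.IT.EdgeFn

/-!
# M3: few triangles have a near triangle with many antipodes

`good_count`: the triangles `t` of `T` which do not satisfy `MarksLE n T t (fun ρ => c * 16 ^ ρ)` are at
most `36 n² / c`.
-/

set_option autoImplicit false

namespace Pool.Agent.IT

variable {n : ℕ} {T : Finset (Finset Pt)}

/-! ### neighbours and dual balls -/

theorem Nb.ne {t s : Finset Pt} (h : Nb T t s) : t ≠ s := by
  obtain ⟨p, q, r, z, h1, h2, rfl, rfl⟩ := h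
  intro he
  have hz : z ∈ ({p, q, r} : Finset Pt) := by rw [he]; simp
  simp only [Finset.mem_insert, Finset.mem_singleton] at hz
  rcases hz with rfl | rfl | rfl
  · exact h2.cyc.ne rfl
  · exact h2.ne' rfl
  · have e1 := h1.2
    have e2 := h2.2
    rw [det_swap] at e2
    omega

open Classical in
theorem UT.card_Nb (hT : UT n T) (t : Finset Pt) : (T.filter fun s => Nb T t s).card ≤ 3 := by
  by_cases ht : t ∈ T
  swap
  · have : (T.filter fun s => Nb T t s) = ∅ := by
      rw [Finset.filter_eq_empty_iff]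
      intro s _ h
      exact ht h.mem_left
    rw [this]; simp
  have h3 := hT.card_three ht
  have hsub : (T.filter fun s => Nb T t s) ⊆
      t.biUnion (fun z => (T.filter fun s => t.erase z ⊆ s).erase t) := by
    intro s hs
    rw [Finset.mem_filter] at hs
    obtain ⟨hsT, hnb⟩ := hs
    have hne := hnb.ne
    obtain ⟨p, q, r, z, h1, h2, rfl, rfl⟩ := hnb
    rw [Finset.mem_biUnion]
    refine ⟨r, by simp, ?_⟩
    rw [Finset.mem_erase, Finset.mem_filter]
    refine ⟨hne.symm, hsT, ?_⟩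
    intro x hx
    rw [Finset.mem_erase] at hx
    simp only [Finset.mem_insert, Finset.mem_singleton] at hx ⊢
    tauto
  have hone : ∀ z ∈ t, ((T.filter fun s => t.erase z ⊆ s).erase t).card ≤ 1 := by
    intro z hz
    have h2 : (t.erase z).card = 2 := by rw [Finset.card_erase_of_mem hz, h3]
    obtain ⟨x, y, hxy, he⟩ := Finset.card_eq_two.mp h2
    have hsub2 : (T.filter fun s => t.erase z ⊆ s) ⊆ T.filter fun s => x ∈ s ∧ y ∈ s := by
      intro s hs
      rw [Finset.mem_filter] at hs ⊢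
      refine ⟨hs.1, hs.2 (by rw [he]; simp), hs.2 (by rw [he]; simp)⟩
    have hle := (Finset.card_le_card hsub2).trans (hT.card_edge_le (v := x) (p := y) hxy.symm)
    have hmem : t ∈ T.filter fun s => t.erase z ⊆ s := by
      rw [Finset.mem_filter]; exact ⟨ht, Finset.erase_subset _ _⟩
    rw [Finset.card_erase_of_mem hmem]
    omega
  calc (T.filter fun s => Nb T t s).card
      ≤ (t.biUnion (fun z => (T.filter fun s => t.erase z ⊆ s).erase t)).card :=
        Finset.card_le_card hsub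
    _ ≤ ∑ z ∈ t, ((T.filter fun s => t.erase z ⊆ s).erase t).card := Finset.card_biUnion_le
    _ ≤ ∑ z ∈ t, 1 := Finset.sum_le_sum hone
    _ = 3 := by rw [Finset.sum_const, h3]; rfl

theorem UT.card_dball (hT : UT n T) (t : Finset Pt) (ρ : ℕ) : (dball T t ρ).card ≤ 4 ^ ρ := by
  classical
  induction ρ with
  | zero => rw [dball_zero]; simp
  | succ ρ ih =>
    have hsub : dball T t (ρ + 1) ⊆
        dball T t ρ ∪ (dball T t ρ).biUnion (fun s => T.filter fun u => Nb T s u) := by
      intro u hu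
      rw [Finset.mem_union]
      rcases mem_dball_succ.mp hu with h | ⟨s, hs, h⟩
      · exact Or.inl h
      · refine Or.inr ?_
        rw [Finset.mem_biUnion]
        exact ⟨s, hs, Finset.mem_filter.mpr ⟨h.mem_right, h⟩⟩
    have h1 : ((dball T t ρ).biUnion (fun s => T.filter fun u => Nb T s u)).card ≤
        3 * (dball T t ρ).card := by
      refine Finset.card_biUnion_le.trans ?_
      refine (Finset.sum_le_sum (fun s _ => hT.card_Nb s)).trans ?_
      rw [Finset.sum_const, smul_eq_mul, mul_comm]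
    have h2 := Finset.card_le_card hsub
    have h3 := Finset.card_union_le (dball T t ρ)
      ((dball T t ρ).biUnion (fun s => T.filter fun u => Nb T s u))
    rw [pow_succ]
    omega

theorem dball_symm {t s : Finset Pt} {ρ : ℕ} (h : s ∈ dball T t ρ) : t ∈ dball T s ρ := by
  induction ρ generalizing s with
  | zero =>
    rw [dball_zero, Finset.mem_singleton] at h
    subst h; exact mem_dball_self _ _
  | succ ρ ih =>
    rcases mem_dball_succ.mp h with h | ⟨u, hu, h⟩
    · exact dball_mono (Nat.le_succ ρ) (ih h)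
    · have h1 : u ∈ dball T s 1 := mem_dball_succ.mpr (Or.inr ⟨s, mem_dball_self s 0, h.symm⟩)
      have h2 := dball_add h1 (ih hu)
      rwa [add_comm] at h2

/-! ### antipodes -/

theorem mem_anti {D : Finset Pt} {v p : Pt} : p ∈ anti T D v ↔ p ∈ nbrs T v ∧
    ∃ q r, D = {v, q, r} ∧ det v q r = 1 ∧
    0 ≤ crs (q.1 - v.1, q.2 - v.2) (v.1 - p.1, v.2 - p.2) ∧
    0 ≤ crs (v.1 - p.1, v.2 - p.2) (r.1 - v.1, r.2 - v.2) := by
  classical
  unfold anti
  rw [Finset.mem_filter]

theorem UT.isEdge_of_nbrs (hT : UT n T) {v p : Pt} (h : p ∈ nbrs T v) : IsEdge T v p := by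
  obtain ⟨t, ht, hv, hp, hne⟩ := mem_nbrs.mp h
  obtain ⟨r, h | h, -⟩ := hT.pos_of_mem ht hv hp hne
  · exact ⟨r, Or.inl h⟩
  · exact ⟨r, Or.inr h⟩

/-- a direction lying in the open cone of one triangle at `v` lies in the closed cone of no other -/
theorem UT.cone_unique (hT : UT n T) {v q r q' r' w : Pt} (h : Pos T v q r) (g : Pos T v q' r')
    (h1 : 0 < crs (q.1 - v.1, q.2 - v.2) w) (h2 : 0 < crs w (r.1 - v.1, r.2 - v.2))
    (g1 : 0 ≤ crs (q'.1 - v.1, q'.2 - v.2) w) (g2 : 0 ≤ crs w (r'.1 - v.1, r'.2 - v.2)) :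
    ({v, q, r} : Finset Pt) = {v, q', r'} := by
  set A : ℝ := (crs (q.1 - v.1, q.2 - v.2) w : ℝ) with hA
  set B : ℝ := (crs w (r.1 - v.1, r.2 - v.2) : ℝ) with hB
  set A' : ℝ := (crs (q'.1 - v.1, q'.2 - v.2) w : ℝ) with hA'
  set B' : ℝ := (crs w (r'.1 - v.1, r'.2 - v.2) : ℝ) with hB'
  have hA0 : 0 < A := by rw [hA]; exact_mod_cast h1
  have hB0 : 0 < B := by rw [hB]; exact_mod_cast h2
  have hA0' : 0 ≤ A' := by rw [hA']; exact_mod_cast g1
  have hB0' : 0 ≤ B' := by rw [hB']; exact_mod_cast g2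
  set ε : ℝ := 1 / (1 + A + B + A' + B') with hε
  have hden : 0 < 1 + A + B + A' + B' := by positivity
  have hε0 : 0 < ε := by rw [hε]; positivity
  have hε1 : ε * (1 + A + B + A' + B') = 1 := by rw [hε]; field_simp
  have hd : (det v q r : ℝ) = 1 := by exact_mod_cast h.2
  have hd' : (det v q' r' : ℝ) = 1 := by exact_mod_cast g.2
  set x : ℝ × ℝ := ((v.1 : ℝ) + ε * w.1, (v.2 : ℝ) + ε * w.2) with hx
  have e1 : dl v q x = ε * A := by
    simp only [dl, hx, hA, crs]; push_cast; ring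
  have e2 : dl r v x = ε * B := by
    simp only [dl, hx, hB, crs]; push_cast; ring
  have e3 : dl q r x = 1 - ε * A - ε * B := by
    have := dl_sum v q r x
    rw [hd] at this
    linarith
  have f1 : dl v q' x = ε * A' := by
    simp only [dl, hx, hA', crs]; push_cast; ring
  have f2 : dl r' v x = ε * B' := by
    simp only [dl, hx, hB', crs]; push_cast; ring
  have f3 : dl q' r' x = 1 - ε * A' - ε * B' := by
    have := dl_sum v q' r' x
    rw [hd'] at this
    linarith
  have p1 : 0 < ε * A := by positivity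
  have p2 : 0 < ε * B := by positivity
  have p3 : 0 ≤ ε * A' := by positivity
  have p4 : 0 ≤ ε * B' := by positivity
  have key : ε + ε * A + ε * B + ε * A' + ε * B' = 1 := by linarith
  apply h.eq_set hT g (x := x)
  · rw [e1, e2, e3]; exact ⟨p1, by linarith, p2⟩
  · rw [f1, f2, f3]; exact ⟨p3, by linarith, p4⟩

/-- a direction `w` with `crs w w' = 1` in the closed cone of the triangle `v q r` is `q - v`, `r - v`, or
lies in the open cone -/
theorem cone_cases {v q r w w' : Pt} (hd : det v q r = 1) (hw : crs w w' = 1 ∨ crs w w' = -1)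
    (h1 : 0 ≤ crs (q.1 - v.1, q.2 - v.2) w) (h2 : 0 ≤ crs w (r.1 - v.1, r.2 - v.2)) :
    (0 < crs (q.1 - v.1, q.2 - v.2) w ∧ 0 < crs w (r.1 - v.1, r.2 - v.2)) ∨
    v + w = q ∨ v + w = r := by
  set α : ℤ := crs w (r.1 - v.1, r.2 - v.2) with hα
  set β : ℤ := crs (q.1 - v.1, q.2 - v.2) w with hβ
  have e1 : w.1 = α * (q.1 - v.1) + β * (r.1 - v.1) := by
    simp only [hα, hβ, crs, det] at *
    linear_combination (-w.1) * hd
  have e2 : w.2 = α * (q.2 - v.2) + β * (r.2 - v.2) := by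
    simp only [hα, hβ, crs, det] at *
    linear_combination (-w.2) * hd
  have unit : ∀ s x y : ℤ, 0 ≤ s → w.1 = s * x → w.2 = s * y → s = 1 := by
    intro s x y hs hx hy
    have hdvd : s ∣ crs w w' := by
      simp only [crs]
      rw [hx, hy]
      exact ⟨x * w'.2 - y * w'.1, by ring⟩
    have h1 : s ∣ 1 := by
      rcases hw with hw | hw
      · rwa [hw] at hdvd
      · rw [hw] at hdvd; exact (Int.dvd_neg).mp hdvd
    exact Int.eq_one_of_dvd_one hs h1
  rcases h1.eq_or_lt with hb | hb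
  · right; left
    rw [← hb] at e1 e2
    have hα1 := unit α (q.1 - v.1) (q.2 - v.2) h2 (by linarith) (by linarith)
    rw [hα1] at e1 e2
    ext
    · simp only [Prod.fst_add]; linarith
    · simp only [Prod.snd_add]; linarith
  · rcases h2.eq_or_lt with ha | ha
    · right; right
      rw [← ha] at e1 e2
      have hβ1 := unit β (r.1 - v.1) (r.2 - v.2) h1 (by linarith) (by linarith)
      rw [hβ1] at e1 e2
      ext
      · simp only [Prod.fst_add]; linarith
      · simp only [Prod.snd_add]; linarith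
    · left; exact ⟨hb, ha⟩

open Classical in
/-- the antipode of a ray lies in at most two closed cones -/
theorem UT.card_anti_le (hT : UT n T) (v p : Pt) :
    (T.filter fun D => p ∈ anti T D v).card ≤ 2 := by
  by_cases hp : p ∈ nbrs T v
  swap
  · have : (T.filter fun D => p ∈ anti T D v) = ∅ := by
      rw [Finset.filter_eq_empty_iff]
      intro D _ h
      exact hp (mem_anti.mp h).1
    rw [this]; simp
  have hedge := hT.isEdge_of_nbrs hp
  set w : Pt := (v.1 - p.1, v.2 - p.2) with hw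
  have hprim : ∃ w' : Pt, crs w w' = 1 ∨ crs w w' = -1 := by
    obtain ⟨e, he⟩ := hedge.prim
    refine ⟨e, Or.inr ?_⟩
    rw [← he]; simp only [crs, hw]; ring_nf
  obtain ⟨w', hw'⟩ := hprim
  have hvw : v + w ≠ v := by
    intro h
    have h0 : w = 0 := by simpa using h
    rw [h0] at hw'
    simp [crs] at hw'
  by_cases hopen : ∃ q r, Pos T v q r ∧ 0 < crs (q.1 - v.1, q.2 - v.2) w ∧
      0 < crs w (r.1 - v.1, r.2 - v.2)
  · obtain ⟨q, r, hpos, h1, h2⟩ := hopen
    have hsub : (T.filter fun D => p ∈ anti T D v) ⊆ {({v, q, r} : Finset Pt)} := by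
      intro D hD
      rw [Finset.mem_filter] at hD
      obtain ⟨hDT, hD⟩ := hD
      obtain ⟨-, q', r', rfl, hd, g1, g2⟩ := mem_anti.mp hD
      rw [Finset.mem_singleton]
      exact (hT.cone_unique hpos ⟨hDT, hd⟩ h1 h2 g1 g2).symm
    exact (Finset.card_le_card hsub).trans (by simp)
  · have hsub : (T.filter fun D => p ∈ anti T D v) ⊆ T.filter fun D => v ∈ D ∧ v + w ∈ D := by
      intro D hD
      rw [Finset.mem_filter] at hD ⊢
      obtain ⟨hDT, hD⟩ := hD
      obtain ⟨-, q', r', rfl, hd, g1, g2⟩ := mem_anti.mp hD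
      refine ⟨hDT, by simp, ?_⟩
      rcases cone_cases hd hw' g1 g2 with ⟨k1, k2⟩ | k | k
      · exact absurd ⟨q', r', ⟨hDT, hd⟩, k1, k2⟩ hopen
      · rw [k]; simp
      · rw [k]; simp
    exact (Finset.card_le_card hsub).trans (hT.card_edge_le hvw)

theorem Mid_card_le' : (Mid n).card ≤ 9 * n ^ 2 := by
  rcases Nat.eq_zero_or_pos n with h | h
  · subst h
    have : Mid 0 = ∅ := by
      ext s
      rw [mem_Mid]
      simp only [Nat.cast_zero, mul_zero, Finset.notMem_empty, iff_false]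
      rintro ⟨h1, h2, h3⟩
      apply h3
      constructor <;> omega
    rw [this]; simp
  · refine (Finset.card_filter_le _ _).trans ?_
    rw [Finset.card_product, Int.card_Icc]
    have : (2 * (n : ℤ) + 1 - 0).toNat = 2 * n + 1 := by omega
    rw [this]
    nlinarith

/-- total weight of a triangle -/
noncomputable def mark (T : Finset (Finset Pt)) (D : Finset Pt) : ℕ := ∑ v ∈ D, (anti T D v).card

open Classical in
/-- directed edges -/
noncomputable def dirE (T : Finset (Finset Pt)) : Finset (Pt × Pt) :=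
  (T.biUnion fun t => t.offDiag)

theorem mem_dirE {x : Pt × Pt} : x ∈ dirE T ↔ x.2 ∈ nbrs T x.1 := by
  classical
  unfold dirE
  rw [Finset.mem_biUnion, mem_nbrs]
  constructor
  · rintro ⟨t, ht, h⟩
    rw [Finset.mem_offDiag] at h
    exact ⟨t, ht, h.1, h.2.1, h.2.2.symm⟩
  · rintro ⟨t, ht, h1, h2, h3⟩
    refine ⟨t, ht, ?_⟩
    rw [Finset.mem_offDiag]
    exact ⟨h1, h2, h3.symm⟩

theorem UT.card_dirE (hT : UT n T) : (dirE T).card ≤ 2 * (Mid n).card := by
  classical
  have hmap : ∀ x ∈ dirE T, x.1 + x.2 ∈ Mid n := by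
    intro x hx
    exact (hT.isEdge_of_nbrs (mem_dirE.mp hx)).mem_Mid hT
  refine Finset.card_le_mul_card_image_of_maps_to hmap 2 ?_
  intro s hs
  by_cases hne : ((dirE T).filter fun x => x.1 + x.2 = s).Nonempty
  swap
  · rw [Finset.not_nonempty_iff_eq_empty] at hne
    rw [hne]; simp
  obtain ⟨⟨a, b⟩, hab⟩ := hne
  rw [Finset.mem_filter] at hab
  have hsub : ((dirE T).filter fun x => x.1 + x.2 = s) ⊆ {(a, b), (b, a)} := by
    rintro ⟨c, d⟩ hcd
    rw [Finset.mem_filter] at hcd
    have e1 := hT.isEdge_of_nbrs (mem_dirE.mp hcd.1)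
    have e2 := hT.isEdge_of_nbrs (mem_dirE.mp hab.1)
    have hs' : c + d = a + b := hcd.2.trans hab.2.symm
    have := e1.eq_of_mid hT e2 (congrArg Prod.fst hs') (congrArg Prod.snd hs')
    rcases this with ⟨h1, h2⟩ | ⟨h1, h2⟩
    · simp only at h1 h2; subst h1; subst h2; simp
    · simp only at h1 h2; subst h1; subst h2; simp
  exact (Finset.card_le_card hsub).trans Finset.card_le_two

theorem UT.sum_mark (hT : UT n T) : ∑ D ∈ T, mark T D ≤ 36 * n ^ 2 := by
  classical
  have h1 : ∀ D ∈ T, mark T D = ((dirE T).filter fun x => x.1 ∈ D ∧ x.2 ∈ anti T D x.1).card := by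
    intro D _
    rw [mark, ← Finset.card_sigma]
    apply Finset.card_bij (fun (x : (_ : Pt) × Pt) _ => (x.1, x.2))
    · rintro ⟨v, p⟩ h
      rw [Finset.mem_sigma] at h
      rw [Finset.mem_filter, mem_dirE]
      exact ⟨(mem_anti.mp h.2).1, h.1, h.2⟩
    · rintro ⟨v, p⟩ _ ⟨v', p'⟩ _ h
      simp only [Prod.mk.injEq] at h
      obtain ⟨rfl, rfl⟩ := h
      rfl
    · rintro ⟨v, p⟩ h
      rw [Finset.mem_filter] at h
      exact ⟨⟨v, p⟩, Finset.mem_sigma.mpr ⟨h.2.1, h.2.2⟩, rfl⟩
  rw [Finset.sum_congr rfl h1]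
  have h2 : ∑ D ∈ T, ((dirE T).filter fun x => x.1 ∈ D ∧ x.2 ∈ anti T D x.1).card =
      ∑ x ∈ dirE T, (T.filter fun D => x.1 ∈ D ∧ x.2 ∈ anti T D x.1).card :=
    Finset.sum_card_bipartiteAbove_eq_sum_card_bipartiteBelow _
  rw [h2]
  have h3 : ∀ x ∈ dirE T, (T.filter fun D => x.1 ∈ D ∧ x.2 ∈ anti T D x.1).card ≤ 2 := by
    intro x _
    refine (Finset.card_le_card ?_).trans (hT.card_anti_le x.1 x.2)
    intro D hD
    rw [Finset.mem_filter] at hD ⊢
    exact ⟨hD.1, hD.2.2⟩
  have h4 := Finset.sum_le_sum h3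
  rw [Finset.sum_const, smul_eq_mul] at h4
  have h5 := hT.card_dirE
  have h6 := Mid_card_le' (n := n)
  omega

open Classical in
/-- **Most triangles are good.** -/
theorem good_count_marks (hT : UT n T) (c : ℕ) :
    c * (T.filter fun t => ¬ MarksLE n T t (fun ρ => c * 16 ^ ρ)).card ≤ 36 * n ^ 2 := by
  rcases Nat.eq_zero_or_pos c with rfl | hc
  · simp
  have hcov : (T.filter fun t => ¬ MarksLE n T t (fun ρ => c * 16 ^ ρ)) ⊆
      T.biUnion fun D => T.filter fun t => ∃ ρ, D ∈ dball T t ρ ∧ c * 16 ^ ρ < mark T D := by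
    intro t ht
    rw [Finset.mem_filter] at ht
    obtain ⟨htT, hm⟩ := ht
    unfold MarksLE at hm
    push Not at hm
    obtain ⟨ρ, D, hD, v, hv, -, hlt⟩ := hm
    rw [Finset.mem_biUnion]
    refine ⟨D, dball_subset htT ρ hD, ?_⟩
    rw [Finset.mem_filter]
    refine ⟨htT, ρ, hD, hlt.trans_le ?_⟩
    exact Finset.single_le_sum (f := fun v => (anti T D v).card) (fun _ _ => Nat.zero_le _) hv
  have hD : ∀ D ∈ T, c * (T.filter fun t => ∃ ρ, D ∈ dball T t ρ ∧ c * 16 ^ ρ < mark T D).card ≤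
      mark T D := by
    intro D _
    by_cases hex : ∃ ρ, c * 16 ^ ρ < mark T D
    swap
    · have : (T.filter fun t => ∃ ρ, D ∈ dball T t ρ ∧ c * 16 ^ ρ < mark T D) = ∅ := by
        rw [Finset.filter_eq_empty_iff]
        rintro t _ ⟨ρ, _, h⟩
        exact hex ⟨ρ, h⟩
      rw [this]; simp
    have hbound : ∀ ρ, c * 16 ^ ρ < mark T D → ρ ≤ mark T D := by
      intro ρ h
      have h1 : ρ < 16 ^ ρ := Nat.lt_pow_self (by norm_num)
      have h2 : 16 ^ ρ ≤ c * 16 ^ ρ := Nat.le_mul_of_pos_left _ hc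
      omega
    obtain ⟨ρ0, hρ0⟩ := hex
    set R := Nat.findGreatest (fun ρ => c * 16 ^ ρ < mark T D) (mark T D) with hR
    have hRspec : c * 16 ^ R < mark T D :=
      Nat.findGreatest_spec (P := fun ρ => c * 16 ^ ρ < mark T D) (hbound ρ0 hρ0) hρ0
    have hsub : (T.filter fun t => ∃ ρ, D ∈ dball T t ρ ∧ c * 16 ^ ρ < mark T D) ⊆ dball T D R := by
      intro t ht
      rw [Finset.mem_filter] at ht
      obtain ⟨-, ρ, h1, h2⟩ := ht
      have h3 : ρ ≤ R := Nat.le_findGreatest (hbound ρ h2) h2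
      exact dball_mono h3 (dball_symm h1)
    have h1 := (Finset.card_le_card hsub).trans (hT.card_dball D R)
    have h2 : (4 : ℕ) ^ R ≤ 16 ^ R := Nat.pow_le_pow_left (by norm_num) R
    calc c * _ ≤ c * 16 ^ R := Nat.mul_le_mul_left _ (h1.trans h2)
      _ ≤ mark T D := hRspec.le
  calc c * (T.filter fun t => ¬ MarksLE n T t (fun ρ => c * 16 ^ ρ)).card
      ≤ c * ∑ D ∈ T, (T.filter fun t => ∃ ρ, D ∈ dball T t ρ ∧ c * 16 ^ ρ < mark T D).card :=
        Nat.mul_le_mul_left _ ((Finset.card_le_card hcov).trans Finset.card_biUnion_le)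
    _ = ∑ D ∈ T, c * (T.filter fun t => ∃ ρ, D ∈ dball T t ρ ∧ c * 16 ^ ρ < mark T D).card := by
        rw [Finset.mul_sum]
    _ ≤ ∑ D ∈ T, mark T D := Finset.sum_le_sum hD
    _ ≤ 36 * n ^ 2 := hT.sum_mark

theorem good_count {n : ℕ} {T : Finset (Finset Pt)} (hT : UT n T) (c : ℕ) :
    c * ({t | t ∈ T ∧ ¬ MarksLE n T t (fun ρ => c * 16 ^ ρ)}).ncard ≤ 100 * n ^ 2 := by
  classical
  have h := good_count_marks hT c
  have e : ({t | t ∈ T ∧ ¬ MarksLE n T t (fun ρ => c * 16 ^ ρ)}).ncard =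
      (T.filter fun t => ¬ MarksLE n T t (fun ρ => c * 16 ^ ρ)).card := by
    rw [← Set.ncard_coe_finset]
    congr 1
    ext t
    simp
  rw [e]
  exact h.trans (by nlinarith)

end Pool.Agent.IT
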