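import Pool.Agent.IT.Geo

/-! The heights lemma for fans on one side of a straight line (used in IT/Wall). -/

set_option autoImplicit false

namespace Pool.Agent.IT

theorem heights_aux (m : ℕ) : ∀ (e : Pt) (l : List Pt), l.length = m + 1 →
    List.IsChain (fun a b => crs a b = 1) (e :: (l ++ [-e])) → (∀ g ∈ l, 0 < crs e g) →
    ∀ g ∈ l, crs e g ≤ 2 ^ m := by
  induction m with
  | zero =>
    intro e l hlen hch hpos g hg
    obtain ⟨x, rfl⟩ := List.length_eq_one_iff.1 hlen
    rw [List.mem_singleton] at hg
    subst hg
    rw [List.singleton_append, List.isChain_cons_cons] at hch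
    rw [hch.1]; norm_num
  | succ m ih =>
    intro e l hlen hch hpos x hx
    -- an element of maximal height
    obtain ⟨g, hg, hmax⟩ := l.toFinset.exists_max_image (crs e) ⟨x, List.mem_toFinset.2 hx⟩
    rw [List.mem_toFinset] at hg
    have hmax' : ∀ y ∈ l, crs e y ≤ crs e g := fun y hy => hmax y (List.mem_toFinset.2 hy)
    refine (hmax' x hx).trans ?_
    have hone : (1 : ℤ) ≤ 2 ^ (m + 1) := one_le_pow₀ (by norm_num)
    by_cases hH : crs e g ≤ 1
    · exact hH.trans hone
    push Not at hH
    obtain ⟨l1, l2, hl⟩ := List.append_of_mem hg
    -- predecessor and successor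
    obtain ⟨A, a, hA⟩ : ∃ A a, e :: l1 = A ++ [a] := by
      rcases List.eq_nil_or_concat (e :: l1) with h | ⟨A, a, h⟩
      · exact absurd h (List.cons_ne_nil _ _)
      · exact ⟨A, a, by rw [h, List.concat_eq_append]⟩
    obtain ⟨b, B, hB⟩ : ∃ b B, l2 ++ [-e] = b :: B := by
      cases l2 with
      | nil => exact ⟨-e, [], rfl⟩
      | cons y l => exact ⟨y, l ++ [-e], rfl⟩
    have hfull : e :: (l ++ [-e]) = A ++ a :: g :: (b :: B) := by
      rw [hl, List.append_assoc, List.cons_append, hB, ← List.cons_append, hA]
      simp
    rw [hfull, List.isChain_append_cons_cons, List.isChain_cons_cons] at hch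
    obtain ⟨h1, hag, hgb, h2⟩ := hch
    -- a and b
    have ha : a = e ∨ a ∈ l1 := by
      have : a ∈ e :: l1 := by rw [hA]; simp
      rcases List.mem_cons.1 this with h | h
      · exact Or.inl h
      · exact Or.inr h
    have hb : b = -e ∨ b ∈ l2 := by
      have : b ∈ l2 ++ [-e] := by rw [hB]; simp
      rcases List.mem_append.1 this with h | h
      · exact Or.inr h
      · exact Or.inl (by simpa using h)
    have hee : crs e e = 0 := by simp only [crs]; ring
    have hene : crs e (-e) = 0 := by simp only [crs, Prod.fst_neg, Prod.snd_neg]; ring
    have hl1 : ∀ y ∈ l1, y ∈ l := fun y hy => by rw [hl]; exact List.mem_append_left _ hy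
    have hl2 : ∀ y ∈ l2, y ∈ l := fun y hy => by
      rw [hl]; exact List.mem_append_right _ (List.mem_cons_of_mem _ hy)
    have ha0 : 0 ≤ crs e a := by
      rcases ha with rfl | h
      · rw [hee]
      · exact (hpos a (hl1 a h)).le
    have hb0 : 0 ≤ crs e b := by
      rcases hb with rfl | h
      · rw [hene]
      · exact (hpos b (hl2 b h)).le
    have haH : crs e a ≤ crs e g := by
      rcases ha with rfl | h
      · rw [hee]; linarith
      · exact hmax' a (hl1 a h)
    have hbH : crs e b ≤ crs e g := by
      rcases hb with rfl | h
      · rw [hene]; linarith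
      · exact hmax' b (hl2 b h)
    -- e is primitive
    have hprim : ∃ f, crs e f = 1 := by
      cases l with
      | nil => simp at hg
      | cons y l =>
        refine ⟨y, ?_⟩
        have hc : List.IsChain (fun a b => crs a b = 1) (e :: (y :: l ++ [-e])) := by
          rw [hfull, List.isChain_append_cons_cons, List.isChain_cons_cons]
          exact ⟨h1, hag, hgb, h2⟩
        rw [List.cons_append, List.isChain_cons_cons] at hc
        exact hc.1
    obtain ⟨f, hf⟩ := hprim
    -- determinants
    have hag' : a.1 * g.2 - a.2 * g.1 = 1 := hag
    have hgb' : g.1 * b.2 - g.2 * b.1 = 1 := hgb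
    -- crs e a + crs e b = crs a b * crs e g
    have hkey : crs e a + crs e b = crs a b * crs e g := by
      simp only [crs]
      linear_combination (e.1 * a.2 - e.2 * a.1) * (-hgb') + (e.1 * b.2 - e.2 * b.1) * (-hag')
    -- strictness
    have haH' : crs e a < crs e g := by
      refine lt_of_le_of_ne haH ?_
      intro hEq
      -- then crs e g divides crs e f
      have hdiv : crs e g ∣ 1 := by
        rw [← hf]
        refine ⟨crs a f - crs g f, ?_⟩
        have : crs e g * (crs a f - crs g f) = crs e g * crs a f - crs e a * crs g f := by
          rw [hEq]; ring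
        rw [this]
        simp only [crs]
        linear_combination (-(e.1 * f.2 - e.2 * f.1)) * hag'
      have := Int.le_of_dvd (by norm_num) hdiv
      omega
    have hbH' : crs e b < crs e g := by
      refine lt_of_le_of_ne hbH ?_
      intro hEq
      have hdiv : crs e g ∣ 1 := by
        rw [← hf]
        refine ⟨crs g f - crs b f, ?_⟩
        have : crs e g * (crs g f - crs b f) = crs e b * crs g f - crs e g * crs b f := by
          rw [hEq]; ring
        rw [this]
        simp only [crs]
        linear_combination (-(e.1 * f.2 - e.2 * f.1)) * hgb'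
      have := Int.le_of_dvd (by norm_num) hdiv
      omega
    have hcpos : crs a b = 1 := by
      have hlt : crs a b < 2 := by
        by_contra hcon
        push Not at hcon
        nlinarith
      have hnn : 0 < crs a b := by
        by_contra hcon
        push Not at hcon
        have hle : crs a b * crs e g ≤ 0 := mul_nonpos_of_nonpos_of_nonneg hcon (by linarith)
        have ea : crs e a = 0 := by linarith
        have eb : crs e b = 0 := by linarith
        have ha1 : l1 = [] := by
          rcases ha with h | h
          · -- a = e : then crs e g = 1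
            subst h; omega
          · exact absurd ea (hpos a (hl1 a h)).ne'
        have hae : a = e := by
          rcases ha with h | h
          · exact h
          · exact absurd ea (hpos a (hl1 a h)).ne'
        rw [hae] at hag
        omega
      omega
    -- remove g
    have hnew : List.IsChain (fun a b => crs a b = 1) (e :: ((l1 ++ l2) ++ [-e])) := by
      have e1 : e :: ((l1 ++ l2) ++ [-e]) = A ++ a :: b :: B := by
        rw [List.append_assoc, hB, ← List.cons_append, hA]; simp
      rw [e1, List.isChain_append_cons_cons]
      exact ⟨h1, hcpos, h2⟩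
    have hlen' : (l1 ++ l2).length = m + 1 := by
      rw [hl] at hlen
      simp only [List.length_append, List.length_cons] at hlen ⊢
      omega
    have hI := ih e (l1 ++ l2) hlen' hnew (fun y hy => by
      rcases List.mem_append.1 hy with h | h
      · exact hpos y (hl1 y h)
      · exact hpos y (hl2 y h))
    have hone' : (0 : ℤ) ≤ 2 ^ m := by positivity
    have ha2 : crs e a ≤ 2 ^ m := by
      rcases ha with rfl | h
      · rw [hee]; exact hone'
      · exact hI a (List.mem_append_left _ h)
    have hb2 : crs e b ≤ 2 ^ m := by
      rcases hb with rfl | h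
      · rw [hene]; exact hone'
      · exact hI b (List.mem_append_right _ h)
    rw [hcpos, one_mul] at hkey
    rw [← hkey, pow_succ]
    linarith

/-- heights lemma -/
theorem heights (e : Pt) (l : List Pt) (hl : l ≠ [])
    (hch : List.IsChain (fun a b => crs a b = 1) (e :: (l ++ [-e]))) (hpos : ∀ g ∈ l, 0 < crs e g) :
    ∀ g ∈ l, crs e g ≤ 2 ^ (l.length - 1) := by
  have hlen : l.length = (l.length - 1) + 1 := by
    have := List.length_pos_iff.2 hl
    omega
  exact heights_aux (l.length - 1) e l hlen hch hpos

end Pool.Agent.IT
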