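import Pool.Agent.IT.HullD

set_option autoImplicit false
open Set Filter Topology

namespace Pool.Agent.IT

variable {n : ℕ} {T : Finset (Finset Pt)}

/-- a convex set meeting the triangle and leaving it meets one of the sides -/
theorem meets_sides {a b c : ℝ × ℝ} (h : sa a b c ≠ 0) {C : Set (ℝ × ℝ)} (hC : Convex ℝ C)
    {z0 w : ℝ × ℝ} (hz0 : z0 ∈ C) (hz0T : z0 ∈ Trg a b c) (hw : w ∈ C) (hwT : w ∉ Trg a b c) :
    ∃ u ∈ C, u ∈ segment ℝ a b ∪ segment ℝ b c ∪ segment ℝ a c := by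
  have hs := cf_sum h w
  have h' := sa_ne_cyc h
  have h'' := sa_ne_cyc h'
  have e1 : Trg b c a = Trg a b c := Trg_cyc a b c
  have e2 : Trg c a b = Trg a b c := (Trg_cyc b c a).trans e1
  by_cases h1 : 0 ≤ cf b c a w
  · obtain ⟨u, hu, hu'⟩ := exit_lemma h hC hz0 hz0T hw h1 hwT
    exact ⟨u, hu, Or.inl hu'⟩
  · by_cases h2 : 0 ≤ cf c a b w
    · obtain ⟨u, hu, hu'⟩ := exit_lemma h' hC hz0 (by rw [e1]; exact hz0T) hw h2 (by rw [e1]; exact hwT)
      refine ⟨u, hu, ?_⟩
      rcases hu' with h | h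
      · exact Or.inl (Or.inr h)
      · rw [segment_symm] at h; exact Or.inr h
    · have h3 : 0 ≤ cf a b c w := by linarith
      obtain ⟨u, hu, hu'⟩ := exit_lemma h'' hC hz0 (by rw [e2]; exact hz0T) hw h3 (by rw [e2]; exact hwT)
      refine ⟨u, hu, ?_⟩
      rcases hu' with h | h
      · rw [segment_symm] at h; exact Or.inr h
      · exact Or.inl (Or.inl h)

/-- number of triangles meeting a full triangle -/
theorem NM_Trg {a b c : ℝ × ℝ} (h : sa a b c ≠ 0) {k : ℕ}
    (hfin : {p : Pt | emb p ∈ Trg a b c}.Finite) (hk : hfin.toFinset.card ≤ k) :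
    NM T (Trg a b c) ≤ NM T (segment ℝ a b) + NM T (segment ℝ b c) + NM T (segment ℝ a c) + 2 ^ k := by
  classical
  have hsub : FM T (Trg a b c) ⊆ FM T (segment ℝ a b ∪ segment ℝ b c ∪ segment ℝ a c) ∪
      hfin.toFinset.powerset := by
    intro D hD
    rw [mem_FM] at hD
    obtain ⟨hDT, u, hu1, hu2⟩ := hD
    rw [Finset.mem_union]
    by_cases hall : ∀ p ∈ D, emb p ∈ Trg a b c
    · right
      rw [Finset.mem_powerset]
      intro p hp
      rw [Set.Finite.mem_toFinset]
      exact hall p hp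
    · left
      push Not at hall
      obtain ⟨p, hp, hp'⟩ := hall
      obtain ⟨v, hv, hv'⟩ := meets_sides h (cell_convex D) hu1 hu2 (emb_mem_cell hp) hp'
      rw [mem_FM]
      exact ⟨hDT, v, hv, hv'⟩
  have h1 : NM T (Trg a b c) ≤ NM T (segment ℝ a b ∪ segment ℝ b c ∪ segment ℝ a c) +
      (hfin.toFinset.powerset).card := by
    unfold NM
    exact (Finset.card_le_card hsub).trans (Finset.card_union_le _ _)
  have h2 := NM_union T (segment ℝ a b ∪ segment ℝ b c) (segment ℝ a c)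
  have h3 := NM_union T (segment ℝ a b) (segment ℝ b c)
  rw [Finset.card_powerset] at h1
  have h4 : 2 ^ hfin.toFinset.card ≤ 2 ^ k := Nat.pow_le_pow_right (by omega) hk
  omega

/-- Carathéodory for a generic point: it lies strictly inside a triangle with vertices in the set. -/
theorem cara {P : Set Pt} {z : ℝ × ℝ} (hz : z ∈ hullR P) (hG : Gx z) :
    ∃ a ∈ P, ∃ b ∈ P, ∃ c ∈ P, sa (emb a) (emb b) (emb c) ≠ 0 ∧
      0 < cf (emb a) (emb b) (emb c) z ∧ 0 < cf (emb b) (emb c) (emb a) z ∧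
      0 < cf (emb c) (emb a) (emb b) z := by
  obtain ⟨ι, hι, y, w, hy, hind, hw, hsum, hzz⟩ := eq_pos_convex_span_of_mem_convexHull hz
  have hcard : Fintype.card ι ≤ 3 := by
    have h1 := hind.card_le_finrank_succ
    have h2 : Module.finrank ℝ (vectorSpan ℝ (Set.range y)) ≤ Module.finrank ℝ (ℝ × ℝ) :=
      Submodule.finrank_le _
    have h3 : Module.finrank ℝ (ℝ × ℝ) = 2 := by simp
    omega
  have hy' : ∀ i, ∃ p ∈ P, emb p = y i := by
    intro i
    obtain ⟨p, hp, e⟩ := hy ⟨i, rfl⟩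
    exact ⟨p, hp, e⟩
  choose f hfP hf using hy'
  obtain ⟨m, hm⟩ : ∃ m, Fintype.card ι = m := ⟨_, rfl⟩
  have e : ι ≃ Fin m := (Fintype.equivFin ι).trans (finCongr hm)
  have hsum' : ∑ j : Fin m, w (e.symm j) = 1 := by
    rw [← hsum]; exact Equiv.sum_comp e.symm w
  have hzz' : ∑ j : Fin m, w (e.symm j) • y (e.symm j) = z := by
    rw [← hzz]; exact Equiv.sum_comp e.symm (fun i => w i • y i)
  rw [hm] at hcard
  have hinj := hind.injective
  interval_cases m
  · simp at hsum'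
  · exfalso
    rw [Fin.sum_univ_one] at hsum' hzz'
    rw [hsum', one_smul, ← hf] at hzz'
    exact hG.ne_emb _ hzz'.symm
  · exfalso
    rw [Fin.sum_univ_two] at hsum' hzz'
    have hne : f (e.symm 0) ≠ f (e.symm 1) := by
      intro h
      have : y (e.symm 0) = y (e.symm 1) := by rw [← hf, ← hf, h]
      have := e.symm.injective (hinj this)
      simp at this
    apply hG _ _ hne
    rw [← hzz', ← hf (e.symm 0), ← hf (e.symm 1)]
    rw [← sa_cyc, sa_combo _ _ _ _ hsum']
    simp only [sa]; ring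
  · rw [Fin.sum_univ_three] at hsum' hzz'
    have hne : f (e.symm 0) ≠ f (e.symm 1) := by
      intro h
      have : y (e.symm 0) = y (e.symm 1) := by rw [← hf, ← hf, h]
      have := e.symm.injective (hinj this)
      simp at this
    have hG' := hG _ _ hne
    set A := emb (f (e.symm 0)) with hA
    set B := emb (f (e.symm 1)) with hB
    set C := emb (f (e.symm 2)) with hC
    rw [← hf (e.symm 0), ← hf (e.symm 1), ← hf (e.symm 2), ← hA, ← hB, ← hC] at hzz'
    set w0 := w (e.symm 0) with hw0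
    set w1 := w (e.symm 1) with hw1
    set w2 := w (e.symm 2) with hw2
    have hw2' : w2 = 1 - w0 - w1 := by linarith
    have e1 : sa A B z = w2 * sa A B C := by
      rw [← hzz', hw2']
      simp only [sa, Prod.fst_add, Prod.snd_add, Prod.smul_fst, Prod.smul_snd, smul_eq_mul]
      ring
    have e2 : sa B C z = w0 * sa A B C := by
      rw [← hzz', hw2']
      simp only [sa, Prod.fst_add, Prod.snd_add, Prod.smul_fst, Prod.smul_snd, smul_eq_mul]
      ring
    have e3 : sa C A z = w1 * sa A B C := by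
      rw [← hzz', hw2']
      simp only [sa, Prod.fst_add, Prod.snd_add, Prod.smul_fst, Prod.smul_snd, smul_eq_mul]
      ring
    have hne' : sa A B C ≠ 0 := by
      intro h0
      apply hG'
      rw [← sa_cyc z A B, e1, h0, mul_zero]
    refine ⟨_, hfP (e.symm 0), _, hfP (e.symm 1), _, hfP (e.symm 2), hne', ?_, ?_, ?_⟩
    · simp only [cf]
      rw [← hB, ← hC, ← hA, e2, mul_div_cancel_right₀ _ hne']; exact hw _
    · simp only [cf]
      rw [← hB, ← hC, ← hA, e3, sa_cyc A B C, mul_div_cancel_right₀ _ hne']; exact hw _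
    · simp only [cf]
      rw [← hB, ← hC, ← hA, e1, sa_cyc B C A, sa_cyc A B C, mul_div_cancel_right₀ _ hne']; exact hw _

theorem Gp.not_mem_segment {x y : ℝ × ℝ} (h : Gp x y) (p : Pt) : emb p ∉ segment ℝ x y := by
  intro hp
  obtain ⟨s, t, _, _, hst, he⟩ := hp
  apply h p
  rw [← he, sa_combo _ _ _ _ hst]
  simp only [sa]; ring

/-- strict interior of a triangle is an open condition on the vertices -/
theorem exists_nhds {a b c z : ℝ × ℝ} (h : sa a b c ≠ 0) (h1 : 0 < cf a b c z)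
    (h2 : 0 < cf b c a z) (h3 : 0 < cf c a b z) :
    ∃ A B C : Set (ℝ × ℝ), IsOpen A ∧ IsOpen B ∧ IsOpen C ∧ a ∈ A ∧ b ∈ B ∧ c ∈ C ∧
      ∀ a' ∈ A, ∀ b' ∈ B, ∀ c' ∈ C, sa a' b' c' ≠ 0 ∧ z ∈ Trg a' b' c' := by
  set W : Set ((ℝ × ℝ) × ((ℝ × ℝ) × (ℝ × ℝ))) :=
    {w | 0 < sa w.2.1 w.2.2 z * sa w.1 w.2.1 w.2.2} ∩
    ({w | 0 < sa w.2.2 w.1 z * sa w.1 w.2.1 w.2.2} ∩
      {w | 0 < sa w.1 w.2.1 z * sa w.1 w.2.1 w.2.2}) with hW
  have hWo : IsOpen W := by
    refine IsOpen.inter ?_ (IsOpen.inter ?_ ?_)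
    · apply isOpen_lt continuous_const
      unfold sa; fun_prop
    · apply isOpen_lt continuous_const
      unfold sa; fun_prop
    · apply isOpen_lt continuous_const
      unfold sa; fun_prop
  have hsq : 0 < sa a b c ^ 2 := by positivity
  have hin : (a, (b, c)) ∈ W := by
    refine ⟨?_, ?_, ?_⟩
    · change 0 < sa b c z * sa a b c
      have : sa b c z * sa a b c = cf a b c z * sa a b c ^ 2 := by
        simp only [cf]; field_simp
      rw [this]; exact mul_pos h1 hsq
    · change 0 < sa c a z * sa a b c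
      have : sa c a z * sa a b c = cf b c a z * sa a b c ^ 2 := by
        simp only [cf]; rw [sa_cyc a b c]; field_simp
      rw [this]; exact mul_pos h2 hsq
    · change 0 < sa a b z * sa a b c
      have : sa a b z * sa a b c = cf c a b z * sa a b c ^ 2 := by
        simp only [cf]; rw [sa_cyc b c a, sa_cyc a b c]; field_simp
      rw [this]; exact mul_pos h3 hsq
  obtain ⟨A, V, hA, hV, haA, hbcV, hAV⟩ := isOpen_prod_iff.mp hWo a (b, c) hin
  obtain ⟨B, C, hB, hC, hbB, hcC, hBC⟩ := isOpen_prod_iff.mp hV b c hbcV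
  refine ⟨A, B, C, hA, hB, hC, haA, hbB, hcC, ?_⟩
  intro a' ha' b' hb' c' hc'
  have hmem : (a', (b', c')) ∈ W := hAV ⟨ha', hBC ⟨hb', hc'⟩⟩
  obtain ⟨g1, g2, g3⟩ := hmem
  change 0 < sa b' c' z * sa a' b' c' at g1
  change 0 < sa c' a' z * sa a' b' c' at g2
  change 0 < sa a' b' z * sa a' b' c' at g3
  have hne : sa a' b' c' ≠ 0 := by
    intro h0; rw [h0, mul_zero] at g1; exact lt_irrefl _ g1
  have hsq' : 0 < sa a' b' c' ^ 2 := by positivity
  refine ⟨hne, ?_, ?_, ?_⟩
  · have : cf a' b' c' z = sa b' c' z * sa a' b' c' / sa a' b' c' ^ 2 := by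
      simp only [cf]; field_simp
    rw [this]; positivity
  · have : cf b' c' a' z = sa c' a' z * sa a' b' c' / sa a' b' c' ^ 2 := by
      simp only [cf]; rw [sa_cyc a' b' c']; field_simp
    rw [this]; positivity
  · have : cf c' a' b' z = sa a' b' z * sa a' b' c' / sa a' b' c' ^ 2 := by
      simp only [cf]; rw [sa_cyc b' c' a', sa_cyc a' b' c']; field_simp
    rw [this]; positivity

theorem MarksLE.shift {K : ℕ → ℕ} {t u : Finset Pt} {k : ℕ} (h : MarksLE n T t K)
    (hu : u ∈ dball T t k) : MarksLE n T u (fun ρ => K (k + ρ)) :=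
  fun ρ D hD v hv hin => h (k + ρ) D (dball_add hu hD) v hv hin

/-- **Hull lemma.** -/
theorem hull_lemma (K : ℕ → ℕ) (J k : ℕ) : ∃ M : ℕ, ∀ (n : ℕ) (T : Finset (Finset Pt))
    (t : Finset Pt), UT n T → t ∈ T → MarksLE n T t K → ∀ s ∈ T,
    (interior (cell s) ∩ interior (hullR (jverts T J t k))).Nonempty → s ∈ dball T t M := by
  classical
  obtain ⟨M, hM⟩ := chain_bound (fun ρ => K (k + ρ)) J (k + k)
  refine ⟨k + (3 * M + 2 ^ ((2 * (2 * J + 3) ^ k + 1) ^ 2)), ?_⟩
  intro n T t hT ht hK s hs hne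
  -- a generic point
  obtain ⟨z, ⟨hzs, hzH⟩, hGz, -, -⟩ := exists_pt
    (O := interior (cell s) ∩ interior (hullR (jverts T J t k)))
    (isOpen_interior.inter isOpen_interior) hne ∅ Set.countable_empty (by simp) ∅
    Set.countable_empty (by simp)
  obtain ⟨a, ha, b, hb, c, hc, habc, h1, h2, h3⟩ := cara (interior_subset hzH) hGz
  obtain ⟨A, B, C, hA, hB, hC, haA, hbB, hcC, hABC⟩ := exists_nhds habc h1 h2 h3
  have hmem : ∀ x ∈ (jverts T J t k : Set Pt), ∃ u ∈ jball T J t k, x ∈ u := by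
    intro x hx
    have : x ∈ jverts T J t k := hx
    simpa [jverts] using this
  obtain ⟨ta, hta, haa⟩ := hmem a ha
  obtain ⟨tb, htb, hbb⟩ := hmem b hb
  obtain ⟨tc, htc, hcc⟩ := hmem c hc
  have htaT := jball_subset ht _ hta
  have htbT := jball_subset ht _ htb
  have htcT := jball_subset ht _ htc
  have hzX : ∀ v ∈ ({z} : Set (ℝ × ℝ)), ∀ p : Pt, v ≠ emb p := by
    rintro v rfl p; exact hGz.ne_emb p
  obtain ⟨a', ⟨ha'A, ha'⟩, hGa', hGza', -⟩ := exists_pt (O := A ∩ interior (cell ta))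
    (hA.inter isOpen_interior) (hT.open_meets htaT hA haA (emb_mem_cell haa))
    {z} (Set.countable_singleton _) hzX ∅ Set.countable_empty (by simp)
  obtain ⟨b', ⟨hb'B, hb'⟩, hGb', hGab', -⟩ := exists_pt (O := B ∩ interior (cell tb))
    (hB.inter isOpen_interior) (hT.open_meets htbT hB hbB (emb_mem_cell hbb))
    {a'} (Set.countable_singleton _) (by rintro v rfl p; exact hGa'.ne_emb p) ∅
    Set.countable_empty (by simp)
  obtain ⟨c', ⟨hc'C, hc'⟩, hGc', hGabc', -⟩ := exists_pt (O := C ∩ interior (cell tc))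
    (hC.inter isOpen_interior) (hT.open_meets htcT hC hcC (emb_mem_cell hcc))
    {a', b'} (Set.toFinite _).countable (by
      rintro v (rfl | rfl) p
      · exact hGa'.ne_emb p
      · exact hGb'.ne_emb p) ∅ Set.countable_empty (by simp)
  have gza : Gp z a' := hGza' z rfl
  have gab : Gp a' b' := hGab' a' rfl
  have gac : Gp a' c' := hGabc' a' (by simp)
  have gbc : Gp b' c' := hGabc' b' (by simp)
  obtain ⟨hsa, hzT⟩ := hABC a' ha'A b' hb'B c' hc'C
  -- the three sides
  have hKa : MarksLE n T ta (fun ρ => K (k + ρ)) := hK.shift (jball_subset_dball _ _ hta)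
  have hKb : MarksLE n T tb (fun ρ => K (k + ρ)) := hK.shift (jball_subset_dball _ _ htb)
  have n1 : NM T (segment ℝ a' b') ≤ M :=
    hM n T ta tb hT htaT hKa (jball_add (jball_symm hta) htb) a' ha' b' hb' hGa' gab
  have n2 : NM T (segment ℝ b' c') ≤ M :=
    hM n T tb tc hT htbT hKb (jball_add (jball_symm htb) htc) b' hb' c' hc' hGb' gbc
  have n3 : NM T (segment ℝ a' c') ≤ M :=
    hM n T ta tc hT htaT hKa (jball_add (jball_symm hta) htc) a' ha' c' hc' hGa' gac
  -- lattice points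
  obtain ⟨o, p, q, rfl, hopq⟩ := hT.exists_pos ht
  have hBa : a' ∈ Bnd o p q (((2 * J + 3) ^ k : ℕ) : ℝ) :=
    cell_sub_Bnd (jball_bnd hT hopq.2 hta) (interior_subset ha')
  have hBb : b' ∈ Bnd o p q (((2 * J + 3) ^ k : ℕ) : ℝ) :=
    cell_sub_Bnd (jball_bnd hT hopq.2 htb) (interior_subset hb')
  have hBc : c' ∈ Bnd o p q (((2 * J + 3) ^ k : ℕ) : ℝ) :=
    cell_sub_Bnd (jball_bnd hT hopq.2 htc) (interior_subset hc')
  have hcard := Trg_card hopq.2 hsa _ hBa hBb hBc
  have hTS := Trg_sub_Sq hsa (hT.int_sub htaT ha') (hT.int_sub htbT hb') (hT.int_sub htcT hc')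
  have hfin : {x : Pt | emb x ∈ Trg a' b' c'}.Finite := by
    apply Set.Finite.subset ((Finset.Icc (0:ℤ) n) ×ˢ (Finset.Icc (0:ℤ) n)).finite_toSet
    intro x hx
    have := hTS hx
    rw [mem_interior_Sq] at this
    obtain ⟨g1, g2, g3, g4⟩ := this
    simp only [emb] at g1 g2 g3 g4
    rw [Finset.mem_coe, Finset.mem_product, Finset.mem_Icc, Finset.mem_Icc]
    refine ⟨⟨?_, ?_⟩, ?_, ?_⟩
    · exact_mod_cast g1.le
    · exact_mod_cast g2.le
    · exact_mod_cast g3.le
    · exact_mod_cast g4.le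
  have hN := NM_Trg (T := T) hsa hfin (hcard hfin.toFinset (fun x hx => by
    rw [Set.Finite.mem_toFinset] at hx; exact hx))
  -- the segment from a' to z
  have ha'T : a' ∈ Trg a' b' c' := seg_subset_Trg hsa (left_mem_segment ℝ _ _)
  have hTconv : Convex ℝ (Trg a' b' c') := by
    intro x hx y hy s t hs ht hst
    obtain ⟨x1, x2, x3⟩ := hx
    obtain ⟨y1, y2, y3⟩ := hy
    refine ⟨?_, ?_, ?_⟩
    · rw [cf_combo _ _ _ _ _ hst]; positivity
    · rw [cf_combo _ _ _ _ _ hst]; positivity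
    · rw [cf_combo _ _ _ _ _ hst]; positivity
  have hseg : segment ℝ a' z ⊆ Trg a' b' c' := hTconv.segment_subset ha'T hzT
  have hNs : NM T (segment ℝ a' z) ≤ 3 * M + 2 ^ ((2 * (2 * J + 3) ^ k + 1) ^ 2) := by
    have := NM_mono T hseg
    omega
  have hF := hT.FM_subset_dball (S := segment ℝ a' z) (convex_segment _ _).isPreconnected
    ((hseg.trans hTS).trans interior_subset) (fun p => gza.symm.not_mem_segment p) (t0 := ta)
    (mem_FM.mpr ⟨htaT, a', interior_subset ha', left_mem_segment ℝ _ _⟩)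
  have hsF : s ∈ FM T (segment ℝ a' z) :=
    mem_FM.mpr ⟨hs, z, interior_subset hzs, right_mem_segment ℝ _ _⟩
  exact dball_add (jball_subset_dball _ _ hta) (dball_mono hNs (hF hsF))

end Pool.Agent.IT
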