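import Pool.Agent.IT.HullS

set_option autoImplicit false
open Set Filter Topology

namespace Pool.Agent.IT

variable {n : ℕ} {T : Finset (Finset Pt)}

theorem cell_sub_closure {p q r : Pt} (h : det p q r = 1) :
    cell {p, q, r} ⊆ closure (interior (cell {p, q, r})) := by
  have hne : (interior (cell {p, q, r})).Nonempty := by
    have h' : (det p q r : ℝ) = 1 := by exact_mod_cast h
    refine ⟨(((p.1:ℝ) + q.1 + r.1) / 3, ((p.2:ℝ) + q.2 + r.2) / 3), ?_⟩
    rw [mem_interior_cell_iff h]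
    refine ⟨?_, ?_, ?_⟩
    · have : dl p q (((p.1:ℝ) + q.1 + r.1) / 3, ((p.2:ℝ) + q.2 + r.2) / 3) = 1 / 3 := by
        rw [← h']; simp only [dl, det]; push_cast; ring
      rw [this]; norm_num
    · have : dl q r (((p.1:ℝ) + q.1 + r.1) / 3, ((p.2:ℝ) + q.2 + r.2) / 3) = 1 / 3 := by
        rw [← h']; simp only [dl, det]; push_cast; ring
      rw [this]; norm_num
    · have : dl r p (((p.1:ℝ) + q.1 + r.1) / 3, ((p.2:ℝ) + q.2 + r.2) / 3) = 1 / 3 := by
        rw [← h']; simp only [dl, det]; push_cast; ring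
      rw [this]; norm_num
  rw [(cell_convex _).closure_interior_eq_closure_of_nonempty_interior hne]
  exact subset_closure

theorem UT.sub_closure (hT : UT n T) {t : Finset Pt} (ht : t ∈ T) :
    cell t ⊆ closure (interior (cell t)) := by
  obtain ⟨p, q, r, rfl, h⟩ := hT.exists_pos ht
  exact cell_sub_closure h.2

theorem UT.int_sub (hT : UT n T) {t : Finset Pt} (ht : t ∈ T) :
    interior (cell t) ⊆ interior (Sq n) := interior_mono (hT.cell_sub ht)

/-- an open set meeting a cell meets its interior -/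
theorem UT.open_meets (hT : UT n T) {t : Finset Pt} (ht : t ∈ T) {U : Set (ℝ × ℝ)} (hU : IsOpen U)
    {u : ℝ × ℝ} (hu : u ∈ U) (hut : u ∈ cell t) : (U ∩ interior (cell t)).Nonempty :=
  mem_closure_iff.mp (hT.sub_closure ht hut) U hU hu

theorem UT.NM_int (hT : UT n T) {t : Finset Pt} (ht : t ∈ T) {S : Set (ℝ × ℝ)}
    (hS : S ⊆ interior (cell t)) : NM T S ≤ 1 := by
  have : FM T S ⊆ {t} := by
    intro D hD
    rw [mem_FM] at hD
    obtain ⟨hD, u, hu1, hu2⟩ := hD
    rw [Finset.mem_singleton]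
    exact (hT.eq_of_mem_interior ht hD (hS hu2) hu1).symm
  have := Finset.card_le_card this
  simpa [NM] using this

theorem seg_sub_int {t : Finset Pt} {x y : ℝ × ℝ} (hx : x ∈ interior (cell t))
    (hy : y ∈ interior (cell t)) : segment ℝ x y ⊆ interior (cell t) :=
  (cell_convex t).interior.segment_subset hx hy

/-- the convex region around an edge -/
def Rg (p q z r : Pt) : Set (ℝ × ℝ) := {u | 0 < dl q z u ∧ 0 < dl z p u ∧ 0 < dl p r u ∧ 0 < dl r q u}

theorem Rg_open (p q z r : Pt) : IsOpen (Rg p q z r) := by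
  have h : ∀ a b : Pt, IsOpen {u : ℝ × ℝ | 0 < dl a b u} := fun a b =>
    isOpen_lt continuous_const (continuous_dl a b)
  exact (h q z).inter ((h z p).inter ((h p r).inter (h r q)))

theorem Rg_convex (p q z r : Pt) : Convex ℝ (Rg p q z r) := by
  have h : ∀ a b : Pt, Convex ℝ {u : ℝ × ℝ | 0 < dl a b u} := by
    intro a b x hx y hy s t hs ht hst
    change 0 < dl a b x at hx
    change 0 < dl a b y at hy
    change 0 < dl a b (s • x + t • y)
    rw [dl_combo a b x y hst]
    rcases hs.eq_or_lt with h | h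
    · have : t = 1 := by linarith
      rw [← h, this]; linarith
    · have := mul_pos h hx
      have := mul_nonneg ht hy.le
      linarith
  exact (h q z).inter ((h z p).inter ((h p r).inter (h r q)))

theorem mid_mem_Rg {p q z r : Pt} (h : det p q z = 1) (g : det q p r = 1) :
    (((p.1:ℝ) + q.1) / 2, ((p.2:ℝ) + q.2) / 2) ∈ Rg p q z r := by
  have h' : (det p q z : ℝ) = 1 := by exact_mod_cast h
  have g' : (det q p r : ℝ) = 1 := by exact_mod_cast g
  refine ⟨?_, ?_, ?_, ?_⟩
  · have : dl q z (((p.1:ℝ) + q.1) / 2, ((p.2:ℝ) + q.2) / 2) = 1 / 2 := by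
      rw [← h']; simp only [dl, det]; push_cast; ring
    rw [this]; norm_num
  · have : dl z p (((p.1:ℝ) + q.1) / 2, ((p.2:ℝ) + q.2) / 2) = 1 / 2 := by
      rw [← h']; simp only [dl, det]; push_cast; ring
    rw [this]; norm_num
  · have : dl p r (((p.1:ℝ) + q.1) / 2, ((p.2:ℝ) + q.2) / 2) = 1 / 2 := by
      rw [← g']; simp only [dl, det]; push_cast; ring
    rw [this]; norm_num
  · have : dl r q (((p.1:ℝ) + q.1) / 2, ((p.2:ℝ) + q.2) / 2) = 1 / 2 := by
      rw [← g']; simp only [dl, det]; push_cast; ring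
    rw [this]; norm_num

theorem mid_mem_cell {p q z : Pt} (h : det p q z = 1) :
    (((p.1:ℝ) + q.1) / 2, ((p.2:ℝ) + q.2) / 2) ∈ cell {p, q, z} := by
  have h' : (det p q z : ℝ) = 1 := by exact_mod_cast h
  rw [mem_cell_iff h]
  refine ⟨?_, ?_, ?_⟩
  · have : dl p q (((p.1:ℝ) + q.1) / 2, ((p.2:ℝ) + q.2) / 2) = 0 := by
      simp only [dl]; ring
    rw [this]
  · have : dl q z (((p.1:ℝ) + q.1) / 2, ((p.2:ℝ) + q.2) / 2) = 1 / 2 := by
      rw [← h']; simp only [dl, det]; push_cast; ring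
    rw [this]; norm_num
  · have : dl z p (((p.1:ℝ) + q.1) / 2, ((p.2:ℝ) + q.2) / 2) = 1 / 2 := by
      rw [← h']; simp only [dl, det]; push_cast; ring
    rw [this]; norm_num

theorem dl_eq_sa (p q : Pt) (u : ℝ × ℝ) : dl p q u = sa (emb p) (emb q) u := rfl

theorem UT.NM_Rg (hT : UT n T) {p q z r : Pt} (h : Pos T p q z) (g : Pos T q p r)
    {S : Set (ℝ × ℝ)} (hS : S ⊆ Rg p q z r) : NM T S ≤ 2 := by
  classical
  have : FM T S ⊆ {{p, q, z}, {q, p, r}} := by
    intro D hD
    rw [mem_FM] at hD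
    obtain ⟨hD, u, hu1, hu2⟩ := hD
    obtain ⟨u', hu'⟩ := hT.open_meets hD (Rg_open p q z r) (hS hu2) hu1
    obtain ⟨v, ⟨⟨v1, v2, v3, v4⟩, hv⟩, hv'⟩ := exists_generic
      (O := Rg p q z r ∩ interior (cell D)) ((Rg_open p q z r).inter isOpen_interior) ⟨u', hu'⟩
      (L := {(emb p, emb q)}) (Set.countable_singleton _) (by
        rintro l rfl
        exact emb_ne h.ne)
    have hne := hv' (emb p, emb q) rfl
    rw [← dl_eq_sa] at hne
    rw [Finset.mem_insert, Finset.mem_singleton]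
    rcases lt_or_gt_of_ne hne with h0 | h0
    · right
      apply hT.eq_of_interior hD g.1 hv
      rw [mem_interior_cell_iff g.2]
      refine ⟨?_, v3, v4⟩
      rw [dl_swap]; linarith
    · left
      apply hT.eq_of_interior hD h.1 hv
      rw [mem_interior_cell_iff h.2]
      exact ⟨h0, v1, v2⟩
  refine (Finset.card_le_card this).trans ?_
  exact Finset.card_le_two

end Pool.Agent.IT
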