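import Pool.Agent.IT.Defs
import Pool.Agent.IT.HullC

set_option autoImplicit false
open Set Filter Topology

namespace Pool.Agent.IT

variable {n : ℕ} {T : Finset (Finset Pt)} {J : ℕ}

theorem JNb.nb {t s : Finset Pt} (h : JNb T J t s) : Nb T t s := by
  obtain ⟨p, q, r, z, k, h1, h2, h3, h4, _, _⟩ := h
  exact ⟨p, q, r, z, h1, h2, h3, h4⟩

theorem JNb.symm {t s : Finset Pt} (h : JNb T J t s) : JNb T J s t := by
  obtain ⟨p, q, r, z, k, h1, h2, h3, h4, h5, h6⟩ := h
  exact ⟨q, p, z, r, -k, h2, h1, h4, h3, h5.neg, by rwa [abs_neg]⟩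

theorem jball_zero (t0 : Finset Pt) : jball T J t0 0 = {t0} := rfl

theorem mem_jball_succ {t0 t : Finset Pt} {k : ℕ} :
    t ∈ jball T J t0 (k + 1) ↔ t ∈ jball T J t0 k ∨ ∃ s ∈ jball T J t0 k, JNb T J s t := by
  classical
  rw [jball, Finset.mem_union, Finset.mem_filter]
  constructor
  · rintro (h | ⟨_, h⟩)
    · exact Or.inl h
    · exact Or.inr h
  · rintro (h | ⟨s, hs, h⟩)
    · exact Or.inl h
    · exact Or.inr ⟨h.nb.mem_right, s, hs, h⟩

theorem jball_mono {t0 : Finset Pt} {k l : ℕ} (h : k ≤ l) : jball T J t0 k ⊆ jball T J t0 l := by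
  induction h with
  | refl => exact subset_rfl
  | step _ ih => exact fun t ht => mem_jball_succ.mpr (Or.inl (ih ht))

theorem mem_jball_self (t0 : Finset Pt) (k : ℕ) : t0 ∈ jball T J t0 k :=
  jball_mono (Nat.zero_le k) (by simp [jball_zero])

theorem jball_subset_dball (t0 : Finset Pt) (k : ℕ) : jball T J t0 k ⊆ dball T t0 k := by
  induction k with
  | zero => exact subset_rfl
  | succ k ih =>
    intro t ht
    rcases mem_jball_succ.mp ht with h | ⟨s, hs, h⟩
    · exact mem_dball_succ.mpr (Or.inl (ih h))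
    · exact mem_dball_succ.mpr (Or.inr ⟨s, ih hs, h.nb⟩)

theorem jball_subset {t0 : Finset Pt} (h0 : t0 ∈ T) (k : ℕ) : jball T J t0 k ⊆ T :=
  (jball_subset_dball t0 k).trans (dball_subset h0 k)

theorem jball_add {t0 t1 t2 : Finset Pt} {k l : ℕ} (h1 : t1 ∈ jball T J t0 k)
    (h2 : t2 ∈ jball T J t1 l) : t2 ∈ jball T J t0 (k + l) := by
  induction l generalizing t2 with
  | zero => rw [jball_zero, Finset.mem_singleton] at h2; rw [h2]; exact h1
  | succ l ih =>
    rcases mem_jball_succ.mp h2 with h | ⟨s, hs, h⟩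
    · exact jball_mono (by omega) (ih h)
    · exact mem_jball_succ.mpr (Or.inr ⟨s, ih hs, h⟩)

theorem jball_symm {t s : Finset Pt} {k : ℕ} (h : s ∈ jball T J t k) : t ∈ jball T J s k := by
  induction k generalizing s with
  | zero => rw [jball_zero, Finset.mem_singleton] at h ⊢; exact h.symm
  | succ k ih =>
    rcases mem_jball_succ.mp h with h | ⟨u, hu, h⟩
    · exact jball_mono (by omega) (ih h)
    · have h1 : u ∈ jball T J s 1 :=
        mem_jball_succ.mpr (Or.inr ⟨s, by simp [jball_zero], h.symm⟩)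
      have := jball_add h1 (ih hu)
      rwa [Nat.add_comm] at this

/-- all vertices in a jump ball have bounded coordinates -/
theorem jball_bnd (hT : UT n T) {o a b : Pt} (h0 : det o a b = 1) {s : Finset Pt} {l : ℕ}
    (hs : s ∈ jball T J {o, a, b} l) : ∀ p ∈ s, emb p ∈ Bnd o a b (((2 * J + 3) ^ l : ℕ) : ℝ) := by
  induction l generalizing s with
  | zero =>
    rw [jball_zero, Finset.mem_singleton] at hs
    subst hs
    intro p hp
    have hp' : p = o ∨ p = a ∨ p = b := by simpa using hp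
    have h1 : det b o a = 1 := by rw [det_cyc']; exact h0
    simp only [Bnd, mem_ofPred_eq, dl_emb, pow_zero, Nat.cast_one]
    rcases hp' with rfl | rfl | rfl
    · rw [det_self_out, det_self_right]; norm_num
    · rw [det_self_right, h1]; norm_num
    · rw [h0, det_self_out]; norm_num
  | succ l ih =>
    have hmono : (((2 * J + 3) ^ l : ℕ) : ℝ) ≤ (((2 * J + 3) ^ (l + 1) : ℕ) : ℝ) := by
      exact_mod_cast Nat.pow_le_pow_right (by omega) (by omega)
    rcases mem_jball_succ.mp hs with hs | ⟨u, hu, h⟩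
    · exact fun p hp => Bnd_mono hmono (ih hs p hp)
    · obtain ⟨p, q, r, z, k, h1, h2, h3, h4, h5, h6⟩ := h
      have hk := ih hu
      rw [h3] at hk
      have bp := hk p (by simp)
      have bq := hk q (by simp)
      have br := hk r (by simp)
      intro x hx
      rw [h4] at hx
      have hx' : x = q ∨ x = p ∨ x = z := by simpa using hx
      rcases hx' with rfl | rfl | rfl
      · exact Bnd_mono hmono bq
      · exact Bnd_mono hmono bp
      · obtain ⟨r', z', g1, g2, g3, g4⟩ := h5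
        have e1 := h1.unique hT g1
        have e2 := h2.unique hT g2
        subst e1 e2
        obtain ⟨p1, p2⟩ := bp
        obtain ⟨q1, q2⟩ := bq
        obtain ⟨r1, r2⟩ := br
        rw [dl_emb] at p1 p2 q1 q2 r1 r2
        have hC : (((2 * J + 3) ^ (l + 1) : ℕ) : ℝ) = (2 * J + 3) * (((2 * J + 3) ^ l : ℕ) : ℝ) := by
          push_cast; ring
        set C : ℝ := (((2 * J + 3) ^ l : ℕ) : ℝ) with hCdef
        have hC0 : 0 ≤ C := le_trans (abs_nonneg _) p1
        have hkr : |(k:ℝ)| ≤ J := by exact_mod_cast h6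
        have key : ∀ P Q R : ℝ, |P| ≤ C → |Q| ≤ C → |R| ≤ C →
            |P + Q + k * (Q - P) - R| ≤ (2 * J + 3) * C := by
          intro P Q R hP hQ hR
          have hPQ : |Q - P| ≤ 2 * C := by
            calc |Q - P| ≤ |Q| + |P| := abs_sub _ _
              _ ≤ 2 * C := by linarith
          have hk2 : |(k:ℝ) * (Q - P)| ≤ J * (2 * C) := by
            rw [abs_mul]
            exact mul_le_mul hkr hPQ (abs_nonneg _) (Nat.cast_nonneg _)
          rw [abs_le] at *
          constructor <;> nlinarith [hP.1, hP.2, hQ.1, hQ.2, hR.1, hR.2, hk2.1, hk2.2]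
        refine ⟨?_, ?_⟩
        · rw [dl_emb, hC]
          have : (det o a x : ℝ) = (det o a p : ℝ) + (det o a q : ℝ) +
              k * ((det o a q : ℝ) - (det o a p : ℝ)) - (det o a r : ℝ) := by
            have e3 : (r.1:ℝ) + x.1 = p.1 + q.1 + k * (q.1 - p.1) := by exact_mod_cast g3
            have e4 : (r.2:ℝ) + x.2 = p.2 + q.2 + k * (q.2 - p.2) := by exact_mod_cast g4
            simp only [det]; push_cast
            linear_combination ((a.1:ℝ) - o.1) * e4 - ((a.2:ℝ) - o.2) * e3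
          rw [this]
          exact key _ _ _ p1 q1 r1
        · rw [dl_emb, hC]
          have : (det b o x : ℝ) = (det b o p : ℝ) + (det b o q : ℝ) +
              k * ((det b o q : ℝ) - (det b o p : ℝ)) - (det b o r : ℝ) := by
            have e3 : (r.1:ℝ) + x.1 = p.1 + q.1 + k * (q.1 - p.1) := by exact_mod_cast g3
            have e4 : (r.2:ℝ) + x.2 = p.2 + q.2 + k * (q.2 - p.2) := by exact_mod_cast g4
            simp only [det]; push_cast
            linear_combination ((o.1:ℝ) - b.1) * e4 - ((o.2:ℝ) - b.2) * e3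
          rw [this]
          exact key _ _ _ p2 q2 r2

theorem cell_sub_Bnd {o a b : Pt} {C : ℝ} {s : Finset Pt} (h : ∀ p ∈ s, emb p ∈ Bnd o a b C) :
    cell s ⊆ Bnd o a b C := by
  apply convexHull_min _ (Bnd_convex o a b C)
  rintro _ ⟨p, hp, rfl⟩
  exact h p hp

theorem Trg_card {o a b : Pt} (h0 : det o a b = 1) {x y z : ℝ × ℝ} (h : sa x y z ≠ 0) (C : ℕ)
    (hx : x ∈ Bnd o a b C) (hy : y ∈ Bnd o a b C) (hz : z ∈ Bnd o a b C)
    (P : Finset Pt) (hP : ∀ p ∈ P, emb p ∈ Trg x y z) : P.card ≤ (2 * C + 1) ^ 2 :=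
  Bnd_card h0 C P (fun p hp => Trg_subset h (Bnd_convex o a b C) hx hy hz (hP p hp))

/-- **Chain bound.** Between generic points of two triangles at bounded jump distance only boundedly many
triangles are met. -/
theorem chain_bound (K : ℕ → ℕ) (J l : ℕ) : ∃ M : ℕ, ∀ (n : ℕ) (T : Finset (Finset Pt))
    (t0 s : Finset Pt), UT n T → t0 ∈ T → MarksLE n T t0 K → s ∈ jball T J t0 l →
    ∀ x ∈ interior (cell t0), ∀ y ∈ interior (cell s), Gx x → Gp x y →
    NM T (segment ℝ x y) ≤ M := by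
  induction l with
  | zero =>
    refine ⟨1, ?_⟩
    intro n T t0 s hT ht0 _ hs x hx y hy _ _
    rw [jball_zero, Finset.mem_singleton] at hs
    subst hs
    exact hT.NM_int ht0 (seg_sub_int hx hy)
  | succ l ih =>
    obtain ⟨M, hM⟩ := ih
    obtain ⟨M1, h01, hM1⟩ := sweep_gen K ((2 * (2 * J + 3) ^ (l + 1) + 1) ^ 2) (M + 2)
    obtain ⟨M2, h12, hM2⟩ := sweep_gen K ((2 * (2 * J + 3) ^ (l + 1) + 1) ^ 2) (M1 + 1)
    refine ⟨M2, ?_⟩
    intro n T t0 s hT ht0 hK hs x hx y hy hGx hGp
    have hsT := jball_subset ht0 _ hs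
    rcases mem_jball_succ.mp hs with hs' | ⟨u, hu, h⟩
    · have := hM n T t0 s hT ht0 hK hs' x hx y hy hGx hGp
      omega
    · have huT := jball_subset ht0 _ hu
      obtain ⟨p, q, r, z, k, h1, h2, h3, h4, h5, h6⟩ := h
      -- choose y1, y2
      have hxx : ∀ v ∈ ({x} : Set (ℝ × ℝ)), ∀ p : Pt, v ≠ emb p := by
        rintro v rfl p; exact hGx.ne_emb p
      obtain ⟨y1, ⟨hy1R, hy1⟩, hGy1, hGxy1, -⟩ := exists_pt
        (O := Rg p q r z ∩ interior (cell u)) ((Rg_open p q r z).inter isOpen_interior)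
        (by
          rw [h3]
          exact hT.open_meets h1.1 (Rg_open p q r z) (mid_mem_Rg h1.2 h2.2) (mid_mem_cell h1.2))
        {x} (Set.countable_singleton _) hxx ∅ Set.countable_empty (by simp)
      have hxy1 : Gp x y1 := hGxy1 x rfl
      have hmid : (((p.1:ℝ) + q.1) / 2, ((p.2:ℝ) + q.2) / 2) ∈ cell {q, p, z} := by
        have := mid_mem_cell h2.2
        rwa [add_comm (q.1:ℝ), add_comm (q.2:ℝ)] at this
      obtain ⟨y2, ⟨hy2R, hy2⟩, hGy2, hGX, hGL⟩ := exists_pt
        (O := Rg p q r z ∩ interior (cell s)) ((Rg_open p q r z).inter isOpen_interior)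
        (by
          rw [h4]
          exact hT.open_meets h2.1 (Rg_open p q r z) (mid_mem_Rg h1.2 h2.2) hmid)
        {x, y1, y} (Set.toFinite _).countable (by
          rintro v (rfl | rfl | rfl) w
          · exact hGx.ne_emb w
          · exact hGy1.ne_emb w
          · exact hGp.symm.left_ne_emb w)
        {(x, y1), (x, y)} (Set.toFinite _).countable (by
          rintro v (rfl | rfl)
          · exact hxy1.ne
          · exact hGp.ne)
      have g1 : Gp x y2 := hGX x (by simp)
      have g2 : Gp y1 y2 := hGX y1 (by simp)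
      have g3 : Gp y y2 := hGX y (by simp)
      have g4 : sa x y1 y2 ≠ 0 := hGL (x, y1) (by simp)
      have g5 : sa x y2 y ≠ 0 := by
        have := hGL (x, y) (by simp)
        rw [sa_swap]; simpa using this
      -- coordinates
      obtain ⟨o, a, b, rfl, hoab⟩ := hT.exists_pos ht0
      have hCmono : ∀ i : ℕ, i ≤ l + 1 →
          (((2 * J + 3) ^ i : ℕ) : ℝ) ≤ (((2 * J + 3) ^ (l + 1) : ℕ) : ℝ) := by
        intro i hi
        exact_mod_cast Nat.pow_le_pow_right (by omega) hi
      have hBx : x ∈ Bnd o a b (((2 * J + 3) ^ (l + 1) : ℕ) : ℝ) :=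
        Bnd_mono (hCmono 0 (by omega))
          (cell_sub_Bnd (jball_bnd hT hoab.2 (mem_jball_self (J := J) _ 0)) (interior_subset hx))
      have hBy1 : y1 ∈ Bnd o a b (((2 * J + 3) ^ (l + 1) : ℕ) : ℝ) :=
        Bnd_mono (hCmono l (by omega))
          (cell_sub_Bnd (jball_bnd hT hoab.2 hu) (interior_subset hy1))
      have hBy2 : y2 ∈ Bnd o a b (((2 * J + 3) ^ (l + 1) : ℕ) : ℝ) :=
        cell_sub_Bnd (jball_bnd hT hoab.2 hs) (interior_subset hy2)
      have hBy : y ∈ Bnd o a b (((2 * J + 3) ^ (l + 1) : ℕ) : ℝ) :=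
        cell_sub_Bnd (jball_bnd hT hoab.2 hs) (interior_subset hy)
      have hN1 : NM T (segment ℝ x y1) ≤ M := hM n T _ u hT ht0 hK hu x hx y1 hy1 hGx hxy1
      have hN2 : NM T (segment ℝ y1 y2) ≤ 2 :=
        hT.NM_Rg h1 h2 ((Rg_convex p q r z).segment_subset hy1R hy2R)
      have hN3 : NM T (segment ℝ x y2) ≤ M1 :=
        hM1 n T _ x y1 y2 hT ht0 hK (interior_subset hx) hGx hxy1 g2 g1 g4
          (hT.int_sub ht0 hx) (hT.int_sub huT hy1) (hT.int_sub hsT hy2)
          (Trg_card hoab.2 g4 _ hBx hBy1 hBy2) (by omega)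
      have hN4 : NM T (segment ℝ y2 y) ≤ 1 := hT.NM_int hsT (seg_sub_int hy2 hy)
      exact hM2 n T _ x y2 y hT ht0 hK (interior_subset hx) hGx g1 g3.symm hGp g5
          (hT.int_sub ht0 hx) (hT.int_sub hsT hy2) (hT.int_sub hsT hy)
          (Trg_card hoab.2 g5 _ hBx hBy2 hBy) (by omega)

end Pool.Agent.IT
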