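import Pool.Agent.IT.SweepT

set_option autoImplicit false
open Set Filter Topology

namespace Pool.Agent.IT

variable {n : ℕ} {T : Finset (Finset Pt)}

theorem continuous_sa (x y : ℝ × ℝ) : Continuous (sa x y) := by
  unfold sa; fun_prop

theorem dense_sa {x y : ℝ × ℝ} (h : x ≠ y) : Dense {u : ℝ × ℝ | sa x y u ≠ 0} := by
  intro u
  have hc : 0 < (y.1 - x.1) ^ 2 + (y.2 - x.2) ^ 2 := by
    by_contra hcon
    apply h
    have h1 : (y.1 - x.1) ^ 2 = 0 := by nlinarith [sq_nonneg (y.1 - x.1), sq_nonneg (y.2 - x.2)]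
    have h2 : (y.2 - x.2) ^ 2 = 0 := by nlinarith [sq_nonneg (y.1 - x.1), sq_nonneg (y.2 - x.2)]
    ext
    · have := pow_eq_zero_iff (two_ne_zero) |>.mp h1; linarith
    · have := pow_eq_zero_iff (two_ne_zero) |>.mp h2; linarith
  have ht : Tendsto (fun ε : ℝ => u + ε • ((-(y.2 - x.2), y.1 - x.1) : ℝ × ℝ)) (𝓝[>] (0:ℝ)) (𝓝 u) := by
    have hc : Continuous (fun ε : ℝ => u + ε • ((-(y.2 - x.2), y.1 - x.1) : ℝ × ℝ)) := by fun_prop
    have := (hc.tendsto 0).mono_left (nhdsWithin_le_nhds (s := Set.Ioi (0:ℝ)))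
    simpa using this
  apply mem_closure_of_tendsto ht
  have key : ∀ ε : ℝ, sa x y (u + ε • ((-(y.2 - x.2), y.1 - x.1) : ℝ × ℝ)) =
      sa x y u + ε * ((y.1 - x.1) ^ 2 + (y.2 - x.2) ^ 2) := by
    intro ε
    simp only [sa, Prod.fst_add, Prod.snd_add, Prod.smul_fst, Prod.smul_snd, smul_eq_mul]
    ring
  rcases lt_or_ge (sa x y u) 0 with h0 | h0
  · filter_upwards [ev_neg (A := sa x y u) (B := (y.1 - x.1) ^ 2 + (y.2 - x.2) ^ 2) (Or.inl h0)]
      with ε hε
    rw [key]; exact hε.ne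
  · have h1 : 0 < sa x y u ∨ (sa x y u = 0 ∧ 0 < (y.1 - x.1) ^ 2 + (y.2 - x.2) ^ 2) := by
      rcases h0.lt_or_eq with g | g
      · exact Or.inl g
      · exact Or.inr ⟨g.symm, hc⟩
    filter_upwards [ev_pos h1] with ε hε
    rw [key]; exact hε.ne'

/-- Points avoiding countably many lines are dense. -/
theorem exists_generic {O : Set (ℝ × ℝ)} (hO : IsOpen O) (hne : O.Nonempty)
    {L : Set ((ℝ × ℝ) × (ℝ × ℝ))} (hc : L.Countable) (hL : ∀ l ∈ L, l.1 ≠ l.2) :
    ∃ u ∈ O, ∀ l ∈ L, sa l.1 l.2 u ≠ 0 := by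
  have hd : Dense (⋂ l ∈ L, {u : ℝ × ℝ | sa l.1 l.2 u ≠ 0}) := by
    apply dense_biInter_of_isOpen _ hc
    · intro l hl; exact dense_sa (hL l hl)
    · intro l hl
      exact isOpen_ne_fun (continuous_sa l.1 l.2) continuous_const
  obtain ⟨u, hu, hu'⟩ := hd.inter_open_nonempty O hO hne
  refine ⟨u, hu, fun l hl => ?_⟩
  simp only [mem_iInter] at hu'
  exact hu' l hl

/-- no lattice point on the line `x y` -/
def Gp (x y : ℝ × ℝ) : Prop := ∀ p : Pt, sa x y (emb p) ≠ 0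

/-- `x` lies on no line through two lattice points -/
def Gx (x : ℝ × ℝ) : Prop := ∀ p q : Pt, p ≠ q → sa x (emb p) (emb q) ≠ 0

theorem Gp.symm {x y : ℝ × ℝ} (h : Gp x y) : Gp y x := by
  intro p hp
  apply h p
  rw [sa_swap']; simpa using hp

theorem Gp.ne {x y : ℝ × ℝ} (h : Gp x y) : x ≠ y := by
  rintro rfl
  apply h (0, 0)
  simp only [sa]; ring

theorem Gx.ne_emb {x : ℝ × ℝ} (h : Gx x) (p : Pt) : x ≠ emb p := by
  rintro rfl
  apply h p (p.1 + 1, p.2) (by intro e; have := congrArg Prod.fst e; simp at this)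
  simp only [sa]; ring

theorem Gp.left_ne_emb {x y : ℝ × ℝ} (h : Gp x y) (p : Pt) : x ≠ emb p := by
  rintro rfl
  apply h p
  simp only [sa]; ring

theorem emb_ne {p q : Pt} (h : p ≠ q) : emb p ≠ emb q := by
  intro e
  apply h
  have h1 := congrArg Prod.fst e
  have h2 := congrArg Prod.snd e
  simp only [emb] at h1 h2
  exact Prod.ext (by exact_mod_cast h1) (by exact_mod_cast h2)

/-- choose a generic point avoiding the lines through two lattice points, through a lattice point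
and one of finitely many points, and finitely many further lines -/
theorem exists_pt {O : Set (ℝ × ℝ)} (hO : IsOpen O) (hne : O.Nonempty)
    (X : Set (ℝ × ℝ)) (hX : X.Countable) (hXe : ∀ x ∈ X, ∀ p : Pt, x ≠ emb p)
    (L : Set ((ℝ × ℝ) × (ℝ × ℝ))) (hLc : L.Countable) (hL : ∀ l ∈ L, l.1 ≠ l.2) :
    ∃ u ∈ O, Gx u ∧ (∀ x ∈ X, Gp x u) ∧ ∀ l ∈ L, sa l.1 l.2 u ≠ 0 := by
  set L1 : Set ((ℝ × ℝ) × (ℝ × ℝ)) :=
    (fun pq : Pt × Pt => (emb pq.1, emb pq.2)) '' {pq | pq.1 ≠ pq.2} with hL1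
  set L2 : Set ((ℝ × ℝ) × (ℝ × ℝ)) := X ×ˢ (Set.range emb) with hL2
  have hc1 : L1.Countable := (Set.to_countable _).image _
  have hc2 : L2.Countable := hX.prod (Set.countable_range _)
  obtain ⟨u, hu, hg⟩ := exists_generic hO hne ((hc1.union hc2).union hLc) (by
    rintro l ((hl | hl) | hl)
    · obtain ⟨pq, hpq, rfl⟩ := hl
      exact emb_ne hpq
    · obtain ⟨h1, ⟨p, hp⟩⟩ := hl
      rw [← hp]; exact hXe _ h1 p
    · exact hL l hl)
  refine ⟨u, hu, ?_, ?_, ?_⟩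
  · intro p q hpq h0
    apply hg (emb p, emb q) (Or.inl (Or.inl ⟨(p, q), hpq, rfl⟩))
    change sa (emb p) (emb q) u = 0
    rw [sa_cyc u (emb p) (emb q)]; exact h0
  · intro x hx p h0
    apply hg (x, emb p) (Or.inl (Or.inr ⟨hx, ⟨p, rfl⟩⟩))
    change sa x (emb p) u = 0
    rw [sa_swap, h0, neg_zero]
  · intro l hl; exact hg l (Or.inr hl)

theorem Trg_subset {a b c : ℝ × ℝ} (h : sa a b c ≠ 0) {C : Set (ℝ × ℝ)} (hC : Convex ℝ C)
    (ha : a ∈ C) (hb : b ∈ C) (hc : c ∈ C) : Trg a b c ⊆ C := by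
  intro u hu
  obtain ⟨h1, h2, h3⟩ := hu
  rw [cf_repr h u]
  have hs := cf_sum h u
  have := hC.sum_mem (t := (Finset.univ : Finset (Fin 3)))
    (w := ![cf a b c u, cf b c a u, cf c a b u]) (z := ![a, b, c])
    (by intro i _; fin_cases i <;> simp [h1, h2, h3])
    (by simp [Fin.sum_univ_three]; linarith)
    (by intro i _; fin_cases i <;> simp [ha, hb, hc])
  simpa [Fin.sum_univ_three] using this

/-- `cf` vanishes exactly on the opposite line; for generic sides lattice points of the triangle are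
strictly inside -/
theorem cf_pos_of_generic {a b c : ℝ × ℝ} (hbc : Gp b c) {p : Pt} (hp : 0 ≤ cf a b c (emb p))
    (h : sa a b c ≠ 0) : 0 < cf a b c (emb p) := by
  rcases hp.lt_or_eq with h0 | h0
  · exact h0
  · exfalso
    simp only [cf] at h0
    rcases (div_eq_zero_iff.mp h0.symm) with h1 | h1
    · exact hbc p h1
    · exact h h1

end Pool.Agent.IT
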