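import Pool.Agent.IT.HullG

set_option autoImplicit false
open Set Filter Topology

namespace Pool.Agent.IT

variable {n : ℕ} {T : Finset (Finset Pt)}

/-- points with bounded coordinates in the frame of the triangle `o a b` -/
def Bnd (o a b : Pt) (C : ℝ) : Set (ℝ × ℝ) := {u | |dl o a u| ≤ C ∧ |dl b o u| ≤ C}

theorem dl_combo (p q : Pt) (x y : ℝ × ℝ) {s t : ℝ} (h : s + t = 1) :
    dl p q (s • x + t • y) = s * dl p q x + t * dl p q y := by
  have ht : t = 1 - s := by linarith
  subst ht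
  simp only [dl, Prod.fst_add, Prod.snd_add, Prod.smul_fst, Prod.smul_snd, smul_eq_mul]
  ring

theorem Bnd_convex (o a b : Pt) (C : ℝ) : Convex ℝ (Bnd o a b C) := by
  intro x hx y hy s t hs ht hst
  obtain ⟨h1, h2⟩ := hx
  obtain ⟨h3, h4⟩ := hy
  rw [abs_le] at h1 h2 h3 h4
  have e : C = s * C + t * C := by rw [← add_mul, hst, one_mul]
  refine ⟨?_, ?_⟩
  · rw [dl_combo o a x y hst, abs_le]
    constructor
    · have := mul_le_mul_of_nonneg_left h1.1 hs
      have := mul_le_mul_of_nonneg_left h3.1 ht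
      linarith
    · have := mul_le_mul_of_nonneg_left h1.2 hs
      have := mul_le_mul_of_nonneg_left h3.2 ht
      linarith
  · rw [dl_combo b o x y hst, abs_le]
    constructor
    · have := mul_le_mul_of_nonneg_left h2.1 hs
      have := mul_le_mul_of_nonneg_left h4.1 ht
      linarith
    · have := mul_le_mul_of_nonneg_left h2.2 hs
      have := mul_le_mul_of_nonneg_left h4.2 ht
      linarith

theorem Bnd_mono {o a b : Pt} {C D : ℝ} (h : C ≤ D) : Bnd o a b C ⊆ Bnd o a b D :=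
  fun _ hx => ⟨hx.1.trans h, hx.2.trans h⟩

theorem Bnd_card {o a b : Pt} (h : det o a b = 1) (C : ℕ) (P : Finset Pt)
    (hP : ∀ p ∈ P, emb p ∈ Bnd o a b C) : P.card ≤ (2 * C + 1) ^ 2 := by
  classical
  have h1 : P.card ≤ ((Finset.Icc (-(C:ℤ)) C) ×ˢ (Finset.Icc (-(C:ℤ)) C)).card := by
    apply Finset.card_le_card_of_injOn (fun p => (det o a p, det b o p))
    · intro p hp
      obtain ⟨g1, g2⟩ := hP p hp
      rw [dl_emb, abs_le] at g1 g2
      simp only [Finset.coe_product, Finset.coe_Icc, Set.mem_prod, Set.mem_Icc]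
      refine ⟨⟨?_, ?_⟩, ?_, ?_⟩
      · exact_mod_cast g1.1
      · exact_mod_cast g1.2
      · exact_mod_cast g2.1
      · exact_mod_cast g2.2
    · intro p _ q _ e
      have e1 : det o a p = det o a q := congrArg Prod.fst e
      have e2 : det b o p = det b o q := congrArg Prod.snd e
      simp only [det] at e1 e2 h
      ext
      · linear_combination (-(p.1 - q.1)) * h + (b.1 - o.1) * e1 + (a.1 - o.1) * e2
      · linear_combination (-(p.2 - q.2)) * h + (b.2 - o.2) * e1 + (a.2 - o.2) * e2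
  refine h1.trans ?_
  rw [Finset.card_product, Int.card_Icc]
  have : ((C:ℤ) + 1 - -(C:ℤ)).toNat = 2 * C + 1 := by omega
  rw [this, sq]

theorem mem_interior_Sq {x : ℝ × ℝ} :
    x ∈ interior (Sq n) ↔ 0 < x.1 ∧ x.1 < n ∧ 0 < x.2 ∧ x.2 < n := by
  have : Sq n = Set.Icc (0:ℝ) n ×ˢ Set.Icc (0:ℝ) n := by
    rw [Set.Icc_prod_Icc]; rfl
  rw [this, interior_prod_eq, interior_Icc]
  simp only [Set.mem_prod, Set.mem_Ioo]
  tauto

theorem Sq_convex (n : ℕ) : Convex ℝ (Sq n) := convex_Icc _ _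

theorem Trg_sub_Sq {a b c : ℝ × ℝ} (h : sa a b c ≠ 0) (ha : a ∈ interior (Sq n))
    (hb : b ∈ interior (Sq n)) (hc : c ∈ interior (Sq n)) : Trg a b c ⊆ interior (Sq n) :=
  Trg_subset h (Sq_convex n).interior ha hb hc

/-- The sweeping lemma for generic points. -/
theorem sweep_gen (K : ℕ → ℕ) (k m : ℕ) : ∃ M : ℕ, m ≤ M ∧ ∀ (n : ℕ) (T : Finset (Finset Pt))
    (t0 : Finset Pt) (a b c : ℝ × ℝ), UT n T → t0 ∈ T → MarksLE n T t0 K → a ∈ cell t0 →
    Gx a → Gp a b → Gp b c → Gp a c → sa a b c ≠ 0 →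
    a ∈ interior (Sq n) → b ∈ interior (Sq n) → c ∈ interior (Sq n) →
    (∀ P : Finset Pt, (∀ p ∈ P, emb p ∈ Trg a b c) → P.card ≤ k) →
    NM T (segment ℝ a b) + NM T (segment ℝ b c) ≤ m → NM T (segment ℝ a c) ≤ M := by
  classical
  choose f hf using sweep K
  refine ⟨(∑ j ∈ Finset.range (k + 1), f j m) + m, by omega, ?_⟩
  intro n T t0 a b c hT ht0 hK ha hGa hab hbc hac h haS hbS hcS hk hN
  set P : Finset Pt := ((Finset.Icc (0:ℤ) n) ×ˢ (Finset.Icc (0:ℤ) n)).filter
    (fun p => emb p ∈ Trg a b c) with hP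
  have hTS := Trg_sub_Sq h haS hbS hcS
  have hmem : ∀ p : Pt, emb p ∈ Trg a b c ↔ p ∈ P := by
    intro p
    rw [hP, Finset.mem_filter, Finset.mem_product, Finset.mem_Icc, Finset.mem_Icc]
    constructor
    · intro hp
      have := hTS hp
      rw [mem_interior_Sq] at this
      obtain ⟨g1, g2, g3, g4⟩ := this
      simp only [emb] at g1 g2 g3 g4
      refine ⟨⟨⟨?_, ?_⟩, ?_, ?_⟩, hp⟩
      · exact_mod_cast g1.le
      · exact_mod_cast g2.le
      · exact_mod_cast g3.le
      · exact_mod_cast g4.le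
    · exact fun hp => hp.2
  have hPk : P.card ≤ k := hk P (fun p hp => (hmem p).mpr hp)
  have h' : sa b c a ≠ 0 := sa_ne_cyc h
  have h'' : sa c a b ≠ 0 := sa_ne_cyc h'
  have hmain := hf P.card m n T t0 a b c P hT ht0 hK ha h (hTS.trans interior_subset) hmem rfl
    (by
      intro p hp
      obtain ⟨g1, g2, g3⟩ := (hmem p).mpr hp
      exact ⟨cf_pos_of_generic hbc g1 h, cf_pos_of_generic hac.symm g2 h',
        cf_pos_of_generic hab g3 h''⟩)
    (by intro p _ q _ hpq; exact hGa p q hpq)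
    (by
      intro p hp
      have := hTS ((hmem p).mpr hp)
      rw [mem_interior_Sq] at this
      obtain ⟨g1, g2, g3, g4⟩ := this
      simp only [emb] at g1 g2 g3 g4
      refine ⟨?_, ?_, ?_, ?_⟩
      · exact_mod_cast g1
      · exact_mod_cast g2
      · exact_mod_cast g3
      · exact_mod_cast g4)
    ((NM_union T _ _).trans hN)
  refine hmain.trans ?_
  have : f P.card m ≤ ∑ j ∈ Finset.range (k + 1), f j m :=
    Finset.single_le_sum (f := fun j => f j m) (fun _ _ => Nat.zero_le _)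
      (Finset.mem_range.mpr (by omega))
  omega

end Pool.Agent.IT
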