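import Pool.Agent.IT.Patt
import Pool.Agent.IT.Ball

/-!
# Insertion of the pattern into a fat place
-/

set_option autoImplicit false

namespace Pool.Agent.IT

open Ins (flipT Cross pair_cases)

variable {n : ℕ} {T : Finset (Finset Pt)}

theorem bary_int1 (p q r x : Pt) :
    det p q r * x.1 = det q r x * p.1 + det r p x * q.1 + det p q x * r.1 := by
  simp only [det]; ring

theorem bary_int2 (p q r x : Pt) :
    det p q r * x.2 = det q r x * p.2 + det r p x * q.2 + det p q x * r.2 := by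
  simp only [det]; ring

theorem insq_of_dets {p q r x : Pt} (hd : 0 < det p q r) (h1 : 0 ≤ det p q x) (h2 : 0 ≤ det q r x)
    (h3 : 0 ≤ det r p x) (hp : InSq n p) (hq : InSq n q) (hr : InSq n r) : InSq n x := by
  have hs : det p q x + det q r x + det r p x = det p q r := by simp only [det]; ring
  have e1 := bary_int1 p q r x
  have e2 := bary_int2 p q r x
  obtain ⟨a1, a2, a3, a4⟩ := hp
  obtain ⟨b1, b2, b3, b4⟩ := hq
  obtain ⟨c1, c2, c3, c4⟩ := hr
  refine ⟨?_, ?_, ?_, ?_⟩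
  · have : 0 ≤ det p q r * x.1 := by rw [e1]; positivity
    exact nonneg_of_mul_nonneg_right this hd
  · have : det p q r * x.1 ≤ det p q r * n := by
      rw [e1, ← hs]
      nlinarith [mul_nonneg h2 (by linarith : 0 ≤ (n:ℤ) - p.1),
        mul_nonneg h3 (by linarith : 0 ≤ (n:ℤ) - q.1), mul_nonneg h1 (by linarith : 0 ≤ (n:ℤ) - r.1)]
    exact le_of_mul_le_mul_left this hd
  · have : 0 ≤ det p q r * x.2 := by rw [e2]; positivity
    exact nonneg_of_mul_nonneg_right this hd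
  · have : det p q r * x.2 ≤ det p q r * n := by
      rw [e2, ← hs]
      nlinarith [mul_nonneg h2 (by linarith : 0 ≤ (n:ℤ) - p.2),
        mul_nonneg h3 (by linarith : 0 ≤ (n:ℤ) - q.2), mul_nonneg h1 (by linarith : 0 ≤ (n:ℤ) - r.2)]
    exact le_of_mul_le_mul_left this hd

theorem det_fr1 {g : Pt × Pt × Pt} (hg : crs g.2.1 g.2.2 = 1) (x y z : Pt) :
    det (fr g x) (fr g y) (fr g z) = det x y z := by
  rw [det_fr, hg, one_mul]

theorem insq_fr {g : Pt × Pt × Pt} (hg : IsFrame n g) {x : Pt} (hx : InQ x) :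
    InSq n (fr g x) := by
  obtain ⟨h0, h1, h2, h3⟩ := hg
  obtain ⟨x1, x2, x3⟩ := hx
  apply insq_of_dets (p := fr g (0, 0)) (q := fr g (3, 3)) (r := fr g (-3, 3)) _ _ _ _ h1 h2 h3
  · rw [det_fr1 h0]; norm_num [det]
  · rw [det_fr1 h0]; exact x1
  · rw [det_fr1 h0]; exact x2
  · rw [det_fr1 h0]; exact x3

theorem prim_fr {g : Pt × Pt × Pt} (hg : crs g.2.1 g.2.2 = 1) {x y : Pt}
    (h : IsCoprime (y.1 - x.1) (y.2 - x.2)) :
    IsCoprime ((fr g y).1 - (fr g x).1) ((fr g y).2 - (fr g x).2) := by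
  obtain ⟨s, t, hst⟩ := h
  -- coordinates: y - x = crs (w, v), crs (u, w)
  refine ⟨s * g.2.2.2 - t * g.2.1.2, - s * g.2.2.1 + t * g.2.1.1, ?_⟩
  simp only [fr, crs] at *
  linear_combination (s * (y.1 - x.1) + t * (y.2 - x.2)) * hg + hst

theorem cross_fr {g : Pt × Pt × Pt} (hg : crs g.2.1 g.2.2 = 1) (a b p q : Pt) :
    Cross (fr g a) (fr g b) (fr g p) (fr g q) ↔ Cross a b p q := by
  simp only [Cross, det_fr1 hg]

/-- The state of a patch during the insertion. -/
def PatchInv (T S0 : Finset (Finset Pt)) (g : Pt × Pt × Pt) (T1 : Finset (Finset Pt)) : Prop :=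
  ∃ S1 ⊆ T1, T1 \ S1 = T \ S0 ∧ S1.card ≤ S0.card ∧ Conn S1 ∧ (∀ t ∈ T1, MeetsQ g t → t ∈ S1) ∧
    S1.biUnion id = S0.biUnion id

theorem edge_mem_cell {p q z : Pt} {y : ℝ × ℝ} (hy : y ∈ segment ℝ (emb p) (emb q)) :
    y ∈ cell {p, q, z} := by
  have hc : Convex ℝ (cell {p, q, z}) := convex_convexHull ℝ _
  exact hc.segment_subset (emb_mem_cell (by simp)) (emb_mem_cell (by simp)) hy

/-- the triangles created by a flip are new -/
theorem new_not_mem (hT : UT n T) {p q r z : Pt} (h1 : Pos T p q r) (h2 : Pos T q p z)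
    (h3 : r + z = p + q) : ({p, z, r} : Finset Pt) ∉ T ∧ ({q, r, z} : Finset Pt) ∉ T := by
  obtain ⟨g1, g2⟩ := flip_dets h1.2 h3
  have d1 : det p q r = 1 := h1.2
  have d2 : det p q z = -1 := by rw [det_swap]; rw [h2.2]
  have d3 : det z r p = 1 := by rw [det_cyc]; exact g1
  have d4 : det z r q = -1 := by rw [det_swap, det_cyc, g2]
  have key : IsEdge T z r → False := by
    intro h
    apply h1.edge.no_cross hT h
    · rw [d1, d2]; norm_num
    · rw [d3, d4]; norm_num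
  constructor
  · intro h
    have : Pos T p z r := ⟨h, g1⟩
    exact key this.cyc.edge
  · intro h
    have : Pos T q r z := ⟨h, g2⟩
    exact key this.cyc.edge.symm

theorem patch_flip {T S0 : Finset (Finset Pt)} {g : Pt × Pt × Pt} {T1 : Finset (Finset Pt)}
    (hT1 : UT n T1) (hI : PatchInv T S0 g T1) {p q z r : Pt} (h1 : Pos T1 p q z) (h2 : Pos T1 q p r)
    (h3 : z + r = p + q)
    (hm : ∃ y ∈ segment ℝ (emb p) (emb q), y ∈ opn (fr g (0, 0)) (fr g (3, 3)) (fr g (-3, 3))) :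
    PatchInv T S0 g (flipT T1 p q z r) := by
  obtain ⟨S1, hsub, hdiff, hcard, hconn, hmeet, hV⟩ := hI
  obtain ⟨y, hy, hyo⟩ := hm
  have m1 : ({p, q, z} : Finset Pt) ∈ S1 := hmeet _ h1.1 ⟨y, edge_mem_cell hy, hyo⟩
  have m2 : ({q, p, r} : Finset Pt) ∈ S1 :=
    hmeet _ h2.1 ⟨y, edge_mem_cell (by rw [segment_symm]; exact hy), hyo⟩
  obtain ⟨n1, n2⟩ := new_not_mem hT1 h1 h2 h3
  have hne : ({p, q, z} : Finset Pt) ≠ {q, p, r} := by
    intro h
    have hz : z ∈ ({q, p, r} : Finset Pt) := by rw [← h]; simp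
    simp only [Finset.mem_insert, Finset.mem_singleton] at hz
    rcases hz with rfl | rfl | rfl
    · exact h1.cyc.ne rfl
    · exact h1.ne' rfl
    · have e1 := h1.2
      have e2 := h2.2
      rw [det_swap] at e2
      omega
  refine ⟨flipT S1 p q z r, ?_, ?_, ?_, ?_, ?_, ?_⟩
  · intro t ht
    rw [mem_flipT] at ht ⊢
    rcases ht with ⟨h, h'⟩ | h
    · exact Or.inl ⟨hsub h, h'⟩
    · exact Or.inr h
  · rw [← hdiff]
    ext t
    rw [Finset.mem_sdiff, Finset.mem_sdiff, mem_flipT, mem_flipT]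
    constructor
    · rintro ⟨⟨a, b, c⟩ | h, h'⟩
      · exact ⟨a, fun hS => h' (Or.inl ⟨hS, b, c⟩)⟩
      · exact absurd (Or.inr h) h'
    · rintro ⟨a, b⟩
      have c1 : t ≠ {p, q, z} := fun h => b (h ▸ m1)
      have c2 : t ≠ {q, p, r} := fun h => b (h ▸ m2)
      have c3 : t ≠ {p, r, z} := fun h => n1 (h ▸ a)
      have c4 : t ≠ {q, z, r} := fun h => n2 (h ▸ a)
      exact ⟨Or.inl ⟨a, c1, c2⟩, by tauto⟩
  · have e1 : (S1 \ {{p, q, z}, {q, p, r}}).card + 2 = S1.card := by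
      rw [← Finset.card_pair hne]
      apply Finset.card_sdiff_add_card_eq_card
      intro t ht
      simp only [Finset.mem_insert, Finset.mem_singleton] at ht
      rcases ht with rfl | rfl
      · exact m1
      · exact m2
    have e2 : ({{p, r, z}, {q, z, r}} : Finset (Finset Pt)).card ≤ 2 := Finset.card_le_two
    have e3 : (flipT S1 p q z r).card ≤ (S1 \ {{p, q, z}, {q, p, r}}).card +
        ({{p, r, z}, {q, z, r}} : Finset (Finset Pt)).card := Finset.card_union_le _ _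
    omega
  · exact conn_flip hT1 hsub h1 h2 m1 hconn
  · intro t ht hM
    rw [mem_flipT] at ht ⊢
    rcases ht with ⟨h, h'⟩ | h
    · exact Or.inl ⟨hmeet t h hM, h'⟩
    · exact Or.inr h
  · rw [← hV]
    ext x
    simp only [Finset.mem_biUnion, id]
    constructor
    · rintro ⟨t, ht, hx⟩
      rw [mem_flipT] at ht
      rcases ht with ⟨h, _⟩ | rfl | rfl
      · exact ⟨t, h, hx⟩
      · simp only [Finset.mem_insert, Finset.mem_singleton] at hx
        rcases hx with rfl | rfl | rfl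
        · exact ⟨_, m1, by simp⟩
        · exact ⟨_, m2, by simp⟩
        · exact ⟨_, m1, by simp⟩
      · simp only [Finset.mem_insert, Finset.mem_singleton] at hx
        rcases hx with rfl | rfl | rfl
        · exact ⟨_, m1, by simp⟩
        · exact ⟨_, m1, by simp⟩
        · exact ⟨_, m2, by simp⟩
    · rintro ⟨t, ht, hx⟩
      have k1 : ({p, r, z} : Finset Pt) ∈ flipT S1 p q z r := by rw [mem_flipT]; tauto
      have k2 : ({q, z, r} : Finset Pt) ∈ flipT S1 p q z r := by rw [mem_flipT]; tauto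
      by_cases c1 : t = {p, q, z}
      · subst c1
        simp only [Finset.mem_insert, Finset.mem_singleton] at hx
        rcases hx with rfl | rfl | rfl
        · exact ⟨_, k1, by simp⟩
        · exact ⟨_, k2, by simp⟩
        · exact ⟨_, k1, by simp⟩
      by_cases c2 : t = {q, p, r}
      · subst c2
        simp only [Finset.mem_insert, Finset.mem_singleton] at hx
        rcases hx with rfl | rfl | rfl
        · exact ⟨_, k2, by simp⟩
        · exact ⟨_, k1, by simp⟩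
        · exact ⟨_, k1, by simp⟩
      · exact ⟨t, by rw [mem_flipT]; exact Or.inl ⟨ht, c1, c2⟩, hx⟩

theorem meetsQ_patt {g : Pt × Pt × Pt} (hg : crs g.2.1 g.2.2 = 1) {t : Pt × Pt × Pt}
    (ht : t ∈ patt) : MeetsQ g {fr g t.1, fr g t.2.1, fr g t.2.2} := by
  have hd : det (fr g t.1) (fr g t.2.1) (fr g t.2.2) = 1 := by
    rw [det_fr1 hg]; exact patt_det t ht
  obtain ⟨p1, p2, p3⟩ := patt_pos t ht
  set a := fr g t.1 with ha
  set b := fr g t.2.1 with hb
  set c := fr g t.2.2 with hc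
  set x : ℝ × ℝ := (((a.1:ℝ) + b.1 + c.1) / 3, ((a.2:ℝ) + b.2 + c.2) / 3) with hx
  have hdl : ∀ A B : Pt, dl A B x = ((det A B a : ℝ) + det A B b + det A B c) / 3 := by
    intro A B
    simp only [dl, hx, det]; push_cast; ring
  have hpos : ∀ A B : Pt, 0 < det A B t.1 + det A B t.2.1 + det A B t.2.2 →
      0 < dl (fr g A) (fr g B) x := by
    intro A B h
    rw [hdl, ha, hb, hc, det_fr1 hg, det_fr1 hg, det_fr1 hg]
    have : (0:ℝ) < (det A B t.1 : ℝ) + det A B t.2.1 + det A B t.2.2 := by exact_mod_cast h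
    linarith
  refine ⟨x, ?_, hpos _ _ p1, hpos _ _ p2, hpos _ _ p3⟩
  rw [mem_cell_iff hd, hdl, hdl, hdl]
  have e1 : (det a b c : ℝ) = 1 := by exact_mod_cast hd
  have e2 : (det b c a : ℝ) = 1 := by rw [det_cyc]; exact e1
  have e3 : (det c a b : ℝ) = 1 := by rw [det_cyc']; exact e1
  rw [det_self_out, det_self_right, det_self_out, det_self_right, det_self_out, det_self_right,
    e1, e2, e3]
  norm_num

/-- Insertion of the pattern at a frame `g` by flips of triangles meeting `int gQ`. -/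
theorem exists_insert (hT : UT n T) {g : Pt × Pt × Pt} (hg : IsFrame n g) :
    ∃ T', UT n T' ∧ (∀ t ∈ patt, Pos T' (fr g t.1) (fr g t.2.1) (fr g t.2.2)) ∧
      ∃ S' ⊆ T', T' \ S' = T \ meetSet T g ∧ S'.card ≤ (meetSet T g).card ∧ Conn S' ∧
        (∀ t ∈ patt, ({fr g t.1, fr g t.2.1, fr g t.2.2} : Finset Pt) ∈ S') ∧
        S'.biUnion id = (meetSet T g).biUnion id := by
  have h0 := hg.1
  set G : Set (Pt × Pt) := {e | ∃ f ∈ pattE, e = (fr g f.1, fr g f.2)} with hG
  have hdQ : 0 < det (fr g (0, 0)) (fr g (3, 3)) (fr g (-3, 3)) := by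
    rw [det_fr1 h0]; norm_num [det]
  have H := (sysUT n).insert_list G ?_ ?_ (PatchInv T (meetSet T g) g) ?_
      (pattE.map fun f => (fr g f.1, fr g f.2)) ?_ T hT ?_
  · obtain ⟨T', hT', ⟨S', hsub, hdiff, hcard, hconn, hmeet, hV⟩, hE⟩ := H
    have hpos : ∀ t ∈ patt, Pos T' (fr g t.1) (fr g t.2.1) (fr g t.2.2) := by
      intro t ht
      obtain ⟨m1, m2, m3⟩ := pattE_mem ht
      have e1 := hE _ (List.mem_map.2 ⟨_, m1, rfl⟩)
      have e2 := hE _ (List.mem_map.2 ⟨_, m2, rfl⟩)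
      have e3 := hE _ (List.mem_map.2 ⟨_, m3, rfl⟩)
      exact (sysUT n).pos_of_edges hT' (by rw [det_fr1 h0]; exact patt_det t ht) e1 e2 e3
    refine ⟨T', hT', hpos, S', hsub, hdiff, hcard, hconn, ?_, hV⟩
    intro t ht
    exact hmeet _ (hpos t ht).1 (meetsQ_patt h0 ht)
  · rintro e ⟨f, hf, rfl⟩
    obtain ⟨i1, i2⟩ := pattE_inQ f hf
    exact ⟨insq_fr hg i1, insq_fr hg i2, prim_fr h0 (pattE_prim f hf)⟩
  · rintro e ⟨f, hf, rfl⟩ e' ⟨f', hf', rfl⟩
    rw [cross_fr h0, cross_fr h0]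
    exact pattE_nc f hf f' hf'
  · rintro T1 p q z r hT1 hI h1 h2 h3 ⟨e, ⟨f, hf, rfl⟩, hc⟩
    apply patch_flip hT1 hI h1 h2 h3
    obtain ⟨⟨i1, i2, i3⟩, j1, j2, j3⟩ := pattE_inQ f hf
    apply cross_meets hdQ _ _ _ _ _ _ hc
    · rw [det_fr1 h0]; exact i1
    · rw [det_fr1 h0]; exact i2
    · rw [det_fr1 h0]; exact i3
    · rw [det_fr1 h0]; exact j1
    · rw [det_fr1 h0]; exact j2
    · rw [det_fr1 h0]; exact j3
  · intro e he
    obtain ⟨f, hf, rfl⟩ := List.mem_map.1 he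
    exact ⟨f, hf, rfl⟩
  · refine ⟨meetSet T g, fun t ht => (mem_meetSet.1 ht).1, rfl, le_rfl, conn_meetSet hT hg, ?_, rfl⟩
    intro t ht hM
    rw [mem_meetSet]
    obtain ⟨x, hx, hx'⟩ := hM
    exact ⟨ht, x, hx, hx'⟩

end Pool.Agent.IT
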