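import Pool.Agent.IT.Base

set_option autoImplicit false

/-!
Insertion of primitive segments into a unimodular triangulation by flips (abstract version).
-/

namespace Pool.Agent.IT.Ins

/-- the segment from a to b crosses the edge p q properly, p on the left and q on the right -/
def Cross (a b p q : ℤ × ℤ) : Prop :=
  0 < det a b p ∧ det a b q < 0 ∧ det p q a < 0 ∧ 0 < det p q b

/-- integral coordinates with respect to a unimodular triangle -/
theorem exists_coords (p q z x : ℤ × ℤ) (hz : det p q z = 1) :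
    x = (p.1 + det x z p * (q.1 - p.1) + det p q x * (z.1 - p.1),
         p.2 + det x z p * (q.2 - p.2) + det p q x * (z.2 - p.2)) := by
  obtain ⟨p1, p2⟩ := p
  obtain ⟨q1, q2⟩ := q
  obtain ⟨z1, z2⟩ := z
  obtain ⟨x1, x2⟩ := x
  simp only [det] at hz ⊢
  refine Prod.ext ?_ ?_
  · linear_combination (-(x1 - p1)) * hz
  · linear_combination (-(x2 - p2)) * hz

/-- if a lattice vector is parallel to a primitive vector, it is an integer multiple -/
theorem prim_mul (u v : ℤ × ℤ) (hu : IsCoprime u.1 u.2) (h : u.1 * v.2 - u.2 * v.1 = 0) :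
    ∃ m : ℤ, v = (m * u.1, m * u.2) := by
  obtain ⟨s, t, hst⟩ := hu
  refine ⟨s * v.1 + t * v.2, Prod.ext ?_ ?_⟩
  · linear_combination (-(v.1)) * hst - t * h
  · linear_combination (-(v.2)) * hst + s * h

theorem arith_m (x y m : ℤ) (hx : x < 0) (hy : 0 < y) (h : x + m * (y - x) = 1) : m = 1 := by
  have hmpos : 0 < m := by
    by_contra hcon
    nlinarith [mul_nonneg (by linarith : 0 ≤ -m) (by linarith : 0 ≤ y - x)]
  by_contra hcon
  have h2 : 2 ≤ m := by omega
  nlinarith [mul_le_mul_of_nonneg_right h2 (by linarith : 0 ≤ y - x)]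

theorem cross_step (a b p q z : ℤ × ℤ) (hab : IsCoprime (b.1 - a.1) (b.2 - a.2))
    (h : Cross a b p q) (hz : det p q z = 1) :
    z = b ∨ (0 < det a b z ∧ Cross a b z q) ∨ (det a b z < 0 ∧ Cross a b p z) := by
  obtain ⟨h1, h2, h3, h4⟩ := h
  -- coordinates
  set a1 := det a z p with ha1
  set a2 := det p q a with ha2
  set b1 := det b z p with hb1
  set b2 := det p q b with hb2
  have e1 : det a b p = a1 * b2 - a2 * b1 := by
    have := hz
    simp only [ha1, ha2, hb1, hb2, det] at this ⊢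
    linear_combination (-((a.1 - p.1) * (b.2 - p.2) - (a.2 - p.2) * (b.1 - p.1))) * this
  have e2 : det a b q = a1 * b2 - a2 * b1 - (b2 - a2) := by
    have := hz
    simp only [ha1, ha2, hb1, hb2, det] at this ⊢
    linear_combination (-((a.1 - p.1) * (b.2 - p.2) - (a.2 - p.2) * (b.1 - p.1))) * this
  have e3 : det a b z = a1 * b2 - a2 * b1 + (b1 - a1) := by
    have := hz
    simp only [ha1, ha2, hb1, hb2, det] at this ⊢
    linear_combination (-((a.1 - p.1) * (b.2 - p.2) - (a.2 - p.2) * (b.1 - p.1))) * this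
  have e4 : det z q a = a1 + a2 - 1 := by
    have := hz
    simp only [ha1, ha2, det] at this ⊢
    linear_combination (-1) * this
  have e5 : det z q b = b1 + b2 - 1 := by
    have := hz
    simp only [hb1, hb2, det] at this ⊢
    linear_combination (-1) * this
  have e6 : det p z a = - a1 := by
    simp only [ha1, det]; ring
  have e7 : det p z b = - b1 := by
    simp only [hb1, det]; ring
  set A := a1 * b2 - a2 * b1 with hA
  rw [e1] at h1
  rw [e2] at h2
  have hidb : (1 - b1 - b2) * A + b1 * (A - (b2 - a2)) + b2 * (A + (b1 - a1)) = 0 := by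
    rw [hA]; ring
  have hida : (1 - a1 - a2) * A + a1 * (A - (b2 - a2)) + a2 * (A + (b1 - a1)) = 0 := by
    rw [hA]; ring
  rcases lt_trichotomy (A + (b1 - a1)) 0 with hlt | heq | hgt
  · -- z on the right
    right; right
    refine ⟨by rw [e3]; exact hlt, by rw [e1]; exact h1, by rw [e3]; exact hlt, ?_, ?_⟩
    · rw [e6]
      by_contra hcon
      have ha : a1 ≤ 0 := by linarith
      have : 0 < 1 - a1 - a2 := by linarith
      nlinarith [mul_pos this h1, mul_nonneg_of_nonpos_of_nonpos ha h2.le,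
        mul_pos_of_neg_of_neg h3 hlt]
    · rw [e7]
      by_contra hcon
      have hb : 0 ≤ b1 := by linarith
      have : 1 - b1 - b2 ≤ 0 := by linarith
      nlinarith [mul_nonneg_of_nonpos_of_nonpos this (by linarith : -A ≤ 0),
        mul_nonneg hb (by linarith : 0 ≤ -(A - (b2 - a2))), mul_pos h4 (by linarith : 0 < -(A + (b1 - a1)))]
  · -- z on the line
    left
    have hz0 : det a b z = 0 := by rw [e3]; exact heq
    obtain ⟨m, hm⟩ := prim_mul (b.1 - a.1, b.2 - a.2) (z.1 - a.1, z.2 - a.2) hab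
      (by simpa [det] using hz0)
    have hm1 : z.1 - a.1 = m * (b.1 - a.1) := congrArg Prod.fst hm
    have hm2 : z.2 - a.2 = m * (b.2 - a.2) := congrArg Prod.snd hm
    have hlin : a2 + m * (b2 - a2) = 1 := by
      rw [← hz, ha2, hb2]
      simp only [det]
      linear_combination (-(q.1 - p.1)) * hm2 + (q.2 - p.2) * hm1
    have hm' : m = 1 := arith_m a2 b2 m h3 h4 hlin
    rw [hm'] at hm1 hm2
    exact Prod.ext (by linarith) (by linarith)
  · right; left
    refine ⟨by rw [e3]; exact hgt, by rw [e3]; exact hgt, by rw [e2]; exact h2, ?_, ?_⟩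
    · rw [e4]
      by_contra hcon
      have : 1 - a1 - a2 ≤ 0 := by linarith
      have ha : 0 < a1 := by linarith
      nlinarith [mul_nonneg_of_nonpos_of_nonpos this (by linarith : -A ≤ 0),
        mul_pos ha (by linarith : 0 < -(A - (b2 - a2))), mul_pos (by linarith : 0 < -a2) hgt]
    · rw [e5]
      by_contra hcon
      have : 0 ≤ 1 - b1 - b2 := by linarith
      have hb : b1 ≤ 0 := by linarith
      nlinarith [mul_nonneg this h1.le,
        mul_nonneg_of_nonpos_of_nonpos hb h2.le, mul_pos h4 hgt]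

theorem Cross.symm {a b p q : ℤ × ℤ} (h : Cross a b p q) : Cross b a q p := by
  obtain ⟨h1, h2, h3, h4⟩ := h
  refine ⟨?_, ?_, ?_, ?_⟩
  · rw [det_swap]; linarith
  · rw [det_swap]; linarith
  · rw [det_swap]; linarith
  · rw [det_swap]; linarith

/-- The opposite vertices of an edge of maximal size crossing a primitive segment complete the edge
to a parallelogram, and the new diagonal is smaller. -/
theorem max_flip (a b p q z r : ℤ × ℤ) (hab : IsCoprime (b.1 - a.1) (b.2 - a.2))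
    (h : Cross a b p q) (hz : det p q z = 1) (hr : det q p r = 1)
    (hmax1 : Cross a b z q → det a b z - det a b q ≤ det a b p - det a b q)
    (hmax2 : Cross a b p z → det a b p - det a b z ≤ det a b p - det a b q)
    (hmax3 : Cross a b r q → det a b r - det a b q ≤ det a b p - det a b q)
    (hmax4 : Cross a b p r → det a b p - det a b r ≤ det a b p - det a b q) :
    z + r = p + q ∧ det a b z - det a b r < det a b p - det a b q ∧
      det a b r - det a b z < det a b p - det a b q := by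
  have hφb : det a b b = 0 := by simp only [det]; ring
  have hφa : det a b a = 0 := by simp only [det]; ring
  have hp := h.1
  have hq := h.2.1
  -- bounds for z
  have hzb : det a b q ≤ det a b z ∧ det a b z ≤ det a b p := by
    rcases cross_step a b p q z hab h hz with h' | ⟨h', hc⟩ | ⟨h', hc⟩
    · rw [h', hφb]; exact ⟨hq.le, hp.le⟩
    · have := hmax1 hc; constructor <;> linarith
    · have := hmax2 hc; constructor <;> linarith
  have hab' : IsCoprime (a.1 - b.1) (a.2 - b.2) := by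
    have := hab.neg_neg
    simpa using this
  have hrb : det a b q ≤ det a b r ∧ det a b r ≤ det a b p := by
    rcases cross_step b a q p r hab' h.symm hr with h' | ⟨h', hc⟩ | ⟨h', hc⟩
    · rw [h', hφa]; exact ⟨hq.le, hp.le⟩
    · have h2 := hmax4 hc.symm
      rw [det_swap] at h'
      constructor <;> linarith
    · have h2 := hmax3 hc.symm
      rw [det_swap] at h'
      constructor <;> linarith
  set φ : ℤ × ℤ → ℤ := fun x => det a b x with hφ
  have hD : φ p - φ q = (q.1 - p.1) * (b.2 - a.2) - (q.2 - p.2) * (b.1 - a.1) := by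
    simp only [hφ, det]; ring
  have par : ∀ x y : ℤ × ℤ, φ x = φ y → ∃ m : ℤ, x.1 - y.1 = m * (b.1 - a.1) ∧
      x.2 - y.2 = m * (b.2 - a.2) := by
    intro x y hxy
    obtain ⟨m, hm⟩ := prim_mul (b.1 - a.1, b.2 - a.2) (x.1 - y.1, x.2 - y.2) hab
      (by
        simp only [hφ, det] at hxy
        simp only
        linear_combination hxy)
    exact ⟨m, congrArg Prod.fst hm, congrArg Prod.snd hm⟩
  have hD2 : 2 ≤ φ p - φ q := by
    have h1 : 1 ≤ φ p := hp
    have h2 : φ q ≤ -1 := by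
      have : φ q < 0 := hq
      linarith
    linarith
  have nounit : ∀ m : ℤ, m * (φ p - φ q) = 1 → False := by
    intro m hm
    have h1 : (φ p - φ q) ∣ 1 := ⟨m, by linarith⟩
    have := Int.le_of_dvd one_pos h1
    linarith
  have z1 : φ z ≠ φ p := by
    intro he
    obtain ⟨m, m1, m2⟩ := par z p he
    apply nounit m
    rw [hD, ← hz]
    simp only [det]
    rw [m1, m2]; ring
  have z2 : φ z ≠ φ q := by
    intro he
    obtain ⟨m, m1, m2⟩ := par z q he
    apply nounit m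
    rw [hD, ← hz]
    simp only [det]
    linear_combination (-(q.1 - p.1)) * m2 + (q.2 - p.2) * m1
  have r1 : φ r ≠ φ p := by
    intro he
    obtain ⟨m, m1, m2⟩ := par r p he
    apply nounit (-m)
    rw [hD, ← hr]
    simp only [det]
    linear_combination ((q.1 - p.1)) * m2 - (q.2 - p.2) * m1
  have r2 : φ r ≠ φ q := by
    intro he
    obtain ⟨m, m1, m2⟩ := par r q he
    apply nounit (-m)
    rw [hD, ← hr]
    simp only [det]
    linear_combination ((q.1 - p.1)) * m2 - (q.2 - p.2) * m1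
  have zq : φ q < φ z := lt_of_le_of_ne hzb.1 (Ne.symm z2)
  have zp : φ z < φ p := lt_of_le_of_ne hzb.2 z1
  have rq : φ q < φ r := lt_of_le_of_ne hrb.1 (Ne.symm r2)
  have rp : φ r < φ p := lt_of_le_of_ne hrb.2 r1
  -- kappa
  have hpq : IsCoprime (q.1 - p.1) (q.2 - p.2) := by
    refine ⟨z.2 - p.2, -(z.1 - p.1), ?_⟩
    have := hz
    simp only [det] at this
    linarith
  obtain ⟨k, hk⟩ := prim_mul (q.1 - p.1, q.2 - p.2)
    (z.1 + r.1 - p.1 - q.1, z.2 + r.2 - p.2 - q.2) hpq (by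
      have h1 := hz
      have h2 := hr
      simp only [det] at h1 h2 ⊢
      linear_combination h1 - h2)
  have hk1 : z.1 + r.1 - p.1 - q.1 = k * (q.1 - p.1) := congrArg Prod.fst hk
  have hk2 : z.2 + r.2 - p.2 - q.2 = k * (q.2 - p.2) := congrArg Prod.snd hk
  have hkφ : φ z + φ r - φ p - φ q = k * (φ q - φ p) := by
    simp only [hφ, det]
    linear_combination (b.1 - a.1) * hk2 - (b.2 - a.2) * hk1
  have hk0 : k = 0 := by
    rcases lt_trichotomy k 0 with hlt | heq | hgt
    · exfalso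
      have : k ≤ -1 := by omega
      nlinarith [mul_le_mul_of_nonneg_right this (by linarith : 0 ≤ φ p - φ q)]
    · exact heq
    · exfalso
      have : 1 ≤ k := by omega
      nlinarith [mul_le_mul_of_nonneg_right this (by linarith : 0 ≤ φ p - φ q)]
  rw [hk0] at hk1 hk2
  refine ⟨Prod.ext ?_ ?_, ?_, ?_⟩
  · simp only [Prod.fst_add]; linarith
  · simp only [Prod.snd_add]; linarith
  · show φ z - φ r < φ p - φ q
    linarith
  · show φ r - φ z < φ p - φ q
    linarith

/-- undirected edges of T -/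
def Edge (T : Finset (Finset (ℤ × ℤ))) (a b : ℤ × ℤ) : Prop :=
  a ≠ b ∧ ∃ t ∈ T, a ∈ t ∧ b ∈ t

/-- the flip of the diagonal p q of the quadrilateral p z q r -/
def flipT (T : Finset (Finset (ℤ × ℤ))) (p q r z : ℤ × ℤ) : Finset (Finset (ℤ × ℤ)) :=
  (T \ {{p, q, r}, {q, p, z}}) ∪ {{p, z, r}, {q, r, z}}

/-- The properties of the family of unimodular triangulations of a region that are used here. -/
structure Sys (Sq : Set (ℤ × ℤ)) (IsT : Finset (Finset (ℤ × ℤ)) → Prop) : Prop where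
  tri : ∀ T, IsT T → ∀ t ∈ T, ∃ p q r, t = {p, q, r} ∧ det p q r = 1
  mem : ∀ T, IsT T → ∀ t ∈ T, ∀ p ∈ t, p ∈ Sq
  uniq : ∀ T, IsT T → ∀ p q r r', Pos T p q r → Pos T p q r' → r = r'
  nbr : ∀ T, IsT T → ∀ p q r, Pos T p q r → (∃ z, Pos T q p z) ∨ ∀ x ∈ Sq, 0 ≤ det p q x
  cover : ∀ T, IsT T → ∀ a b, a ∈ Sq → b ∈ Sq → a ≠ b →
    ∃ p q, Pos T a p q ∧ 0 ≤ det a p b ∧ 0 ≤ det a b q
  flp : ∀ T, IsT T → ∀ p q r z, Pos T p q r → Pos T q p z → r + z = p + q →
    IsT (flipT T p q r z)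
  nocross : ∀ T, IsT T → ∀ p q s t, Edge T p q → Edge T s t → ¬ Cross p q s t

theorem tri_rot (p q r : ℤ × ℤ) : ({q, r, p} : Finset (ℤ × ℤ)) = {p, q, r} := by
  ext x; simp only [Finset.mem_insert, Finset.mem_singleton]; tauto

theorem tri_swap (p q r : ℤ × ℤ) : ({q, p, r} : Finset (ℤ × ℤ)) = {p, q, r} := by
  ext x; simp only [Finset.mem_insert, Finset.mem_singleton]; tauto

/-- two different elements of a triple -/
theorem pair_cases {a b c x y : ℤ × ℤ} (hxy : x ≠ y) (hx : x ∈ ({a, b, c} : Finset (ℤ × ℤ)))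
    (hy : y ∈ ({a, b, c} : Finset (ℤ × ℤ))) :
    (x = a ∧ y = b) ∨ (x = b ∧ y = a) ∨ (x = b ∧ y = c) ∨ (x = c ∧ y = b) ∨
      (x = c ∧ y = a) ∨ (x = a ∧ y = c) := by
  simp only [Finset.mem_insert, Finset.mem_singleton] at hx hy
  rcases hx with rfl | rfl | rfl <;> rcases hy with rfl | rfl | rfl <;> simp_all

theorem _root_.Pool.Agent.IT.Pos.toEdge {T : Finset (Finset (ℤ × ℤ))} {p q r : ℤ × ℤ} (h : Pos T p q r) : Edge T p q := by
  refine ⟨?_, _, h.1, by simp, by simp⟩
  rintro rfl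
  have := h.2
  simp [det] at this

theorem Edge.symm {T : Finset (Finset (ℤ × ℤ))} {a b : ℤ × ℤ} (h : Edge T a b) : Edge T b a := by
  obtain ⟨h1, t, ht, h2, h3⟩ := h
  exact ⟨h1.symm, t, ht, h3, h2⟩

theorem Cross.ne {a b p q : ℤ × ℤ} (h : Cross a b p q) : p ≠ q := by
  rintro rfl
  have := h.2.2.1
  simp [det] at this

variable {Sq : Set (ℤ × ℤ)} {IsT : Finset (Finset (ℤ × ℤ)) → Prop}

theorem Sys.edge_pos (S : Sys Sq IsT) {T : Finset (Finset (ℤ × ℤ))} (hT : IsT T) {a b : ℤ × ℤ}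
    (h : Edge T a b) : (∃ c, Pos T a b c) ∨ ∃ c, Pos T b a c := by
  obtain ⟨hab, t, ht, ha, hb⟩ := h
  obtain ⟨p, q, r, rfl, hd⟩ := S.tri T hT t ht
  have h1 : Pos T p q r := ⟨ht, hd⟩
  have h2 := h1.cyc
  have h3 := h2.cyc
  rcases pair_cases hab ha hb with ⟨rfl, rfl⟩ | ⟨rfl, rfl⟩ | ⟨rfl, rfl⟩ | ⟨rfl, rfl⟩ | ⟨rfl, rfl⟩ |
    ⟨rfl, rfl⟩
  · exact Or.inl ⟨_, h1⟩
  · exact Or.inr ⟨_, h1⟩
  · exact Or.inl ⟨_, h2⟩
  · exact Or.inr ⟨_, h2⟩
  · exact Or.inl ⟨_, h3⟩
  · exact Or.inr ⟨_, h3⟩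

/-- an edge has a triangle on every side on which there is a point of the region -/
theorem Sys.edge_left (S : Sys Sq IsT) {T : Finset (Finset (ℤ × ℤ))} (hT : IsT T) {a b c : ℤ × ℤ}
    (h : Edge T a b) (hc : c ∈ Sq) (hd : 0 < det a b c) : ∃ z, Pos T a b z := by
  rcases S.edge_pos hT h with h' | ⟨w, h'⟩
  · exact h'
  · rcases S.nbr T hT _ _ _ h' with h'' | h''
    · exact h''
    · have := h'' c hc
      rw [det_swap] at this
      exfalso; linarith

/-- if no edge crosses the primitive segment, it is an edge -/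
theorem Sys.edge_of_not_cross (S : Sys Sq IsT) {T : Finset (Finset (ℤ × ℤ))} (hT : IsT T)
    {a b : ℤ × ℤ} (ha : a ∈ Sq) (hb : b ∈ Sq) (hab : IsCoprime (b.1 - a.1) (b.2 - a.2))
    (h : ∀ p q, Edge T p q → ¬ Cross a b p q) : Edge T a b := by
  have hne : a ≠ b := by
    rintro rfl
    obtain ⟨s, t, hst⟩ := hab
    simp at hst
  obtain ⟨p, q, hp, h1, h2⟩ := S.cover T hT a b ha hb hne
  have hd : det a p q = 1 := hp.2
  set x := det a b q with hx
  set y := det a p b with hy
  have hbx1 : b.1 - a.1 = x * (p.1 - a.1) + y * (q.1 - a.1) := by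
    rw [hx, hy]
    simp only [det] at hd ⊢
    linear_combination (-(b.1 - a.1)) * hd
  have hbx2 : b.2 - a.2 = x * (p.2 - a.2) + y * (q.2 - a.2) := by
    rw [hx, hy]
    simp only [det] at hd ⊢
    linear_combination (-(b.2 - a.2)) * hd
  have hxy : IsCoprime x y := by
    obtain ⟨s, t, hst⟩ := hab
    rw [hbx1, hbx2] at hst
    exact ⟨s * (p.1 - a.1) + t * (p.2 - a.2), s * (q.1 - a.1) + t * (q.2 - a.2), by linarith⟩
  by_cases hy0 : y = 0
  · rw [hy0, isCoprime_zero_right, Int.isUnit_iff] at hxy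
    have hx1 : x = 1 := by
      rcases hxy with h' | h'
      · exact h'
      · rw [h'] at h2; norm_num at h2
    rw [hy0, hx1] at hbx1 hbx2
    have : b = p := Prod.ext (by linarith) (by linarith)
    rw [this]
    exact hp.toEdge
  by_cases hx0 : x = 0
  · rw [hx0, isCoprime_zero_left, Int.isUnit_iff] at hxy
    have hy1 : y = 1 := by
      rcases hxy with h' | h'
      · exact h'
      · rw [h'] at h1; norm_num at h1
    rw [hx0, hy1] at hbx1 hbx2
    have : b = q := Prod.ext (by linarith) (by linarith)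
    rw [this]
    exact hp.cyc.cyc.toEdge.symm
  exfalso
  have hx1 : 1 ≤ x := by omega
  have hy1 : 1 ≤ y := by omega
  apply h q p hp.cyc.toEdge.symm
  have hcyc : det p q a = 1 := by rw [← hd]; simp only [det]; ring
  refine ⟨by linarith, ?_, ?_, ?_⟩
  · have : det a b p = - y := by rw [hy]; simp only [det]; ring
    linarith
  · rw [det_swap]; linarith
  · have : det q p b = x + y - 1 := by
      rw [hx, hy]
      simp only [det] at hd ⊢
      linear_combination (-1) * hd
    linarith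

/-- edges of the flipped triangulation -/
theorem edge_flip_subset (S : Sys Sq IsT) {T : Finset (Finset (ℤ × ℤ))} (hT : IsT T)
    {p q r z : ℤ × ℤ} (h1 : Pos T p q r) (h2 : Pos T q p z) {x y : ℤ × ℤ}
    (h : Edge (flipT T p q r z) x y) :
    (Edge T x y ∧ ¬ (x = p ∧ y = q) ∧ ¬ (x = q ∧ y = p)) ∨ (x = r ∧ y = z) ∨ (x = z ∧ y = r) := by
  obtain ⟨hxy, t, ht, hx, hy⟩ := h
  have hpq : p ≠ q := h1.toEdge.1
  have hqr : q ≠ r := h1.cyc.toEdge.1
  have hrp : r ≠ p := h1.cyc.cyc.toEdge.1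
  have hpz : p ≠ z := h2.cyc.toEdge.1
  have hzq : z ≠ q := h2.cyc.cyc.toEdge.1
  simp only [flipT, Finset.mem_union, Finset.mem_sdiff, Finset.mem_insert,
    Finset.mem_singleton, not_or] at ht
  rcases ht with ⟨ht, hn1, hn2⟩ | rfl | rfl
  · left
    refine ⟨⟨hxy, t, ht, hx, hy⟩, ?_⟩
    -- a triangle containing p and q is one of the two
    obtain ⟨a, b, c, rfl, hd⟩ := S.tri T hT t ht
    have g1 : Pos T a b c := ⟨ht, hd⟩
    have key : ∀ u v w : ℤ × ℤ, Pos T u v w → ({a, b, c} : Finset (ℤ × ℤ)) = {u, v, w} →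
        ¬ (u = p ∧ v = q) ∧ ¬ (u = q ∧ v = p) := by
      intro u v w g hg
      constructor
      · rintro ⟨rfl, rfl⟩
        have := S.uniq T hT _ _ _ _ g h1
        subst this
        exact hn1 hg
      · rintro ⟨rfl, rfl⟩
        have := S.uniq T hT _ _ _ _ g h2
        subst this
        exact hn2 hg
    have k1 := key a b c g1 rfl
    have k2 := key b c a g1.cyc (tri_rot a b c).symm
    have k3 := key c a b g1.cyc.cyc ((tri_rot b c a).trans (tri_rot a b c)).symm
    rcases pair_cases hxy hx hy with ⟨rfl, rfl⟩ | ⟨rfl, rfl⟩ | ⟨rfl, rfl⟩ | ⟨rfl, rfl⟩ | ⟨rfl, rfl⟩ |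
      ⟨rfl, rfl⟩
    · exact k1
    · exact ⟨fun h => k1.2 ⟨h.2, h.1⟩, fun h => k1.1 ⟨h.2, h.1⟩⟩
    · exact k2
    · exact ⟨fun h => k2.2 ⟨h.2, h.1⟩, fun h => k2.1 ⟨h.2, h.1⟩⟩
    · exact k3
    · exact ⟨fun h => k3.2 ⟨h.2, h.1⟩, fun h => k3.1 ⟨h.2, h.1⟩⟩
  · have e1 : Edge T p z := h2.cyc.toEdge
    have e2 : Edge T r p := h1.cyc.cyc.toEdge
    rcases pair_cases hxy hx hy with ⟨rfl, rfl⟩ | ⟨rfl, rfl⟩ | ⟨rfl, rfl⟩ | ⟨rfl, rfl⟩ | ⟨rfl, rfl⟩ |
      ⟨rfl, rfl⟩
    · exact Or.inl ⟨e1, fun h => hzq h.2, fun h => hpq h.1⟩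
    · exact Or.inl ⟨e1.symm, fun h => hpz h.1.symm, fun h => hzq h.1⟩
    · exact Or.inr (Or.inr ⟨rfl, rfl⟩)
    · exact Or.inr (Or.inl ⟨rfl, rfl⟩)
    · exact Or.inl ⟨e2, fun h => hrp h.1, fun h => hqr h.1.symm⟩
    · exact Or.inl ⟨e2.symm, fun h => hqr h.2.symm, fun h => hpq h.1⟩
  · have e1 : Edge T z q := h2.cyc.cyc.toEdge
    have e2 : Edge T q r := h1.cyc.toEdge
    rcases pair_cases hxy hx hy with ⟨rfl, rfl⟩ | ⟨rfl, rfl⟩ | ⟨rfl, rfl⟩ | ⟨rfl, rfl⟩ | ⟨rfl, rfl⟩ |
      ⟨rfl, rfl⟩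
    · exact Or.inl ⟨e2, fun h => hpq h.1.symm, fun h => hrp h.2⟩
    · exact Or.inl ⟨e2.symm, fun h => hrp h.1, fun h => hqr h.1.symm⟩
    · exact Or.inr (Or.inl ⟨rfl, rfl⟩)
    · exact Or.inr (Or.inr ⟨rfl, rfl⟩)
    · exact Or.inl ⟨e1, fun h => hpz h.1.symm, fun h => hzq h.1⟩
    · exact Or.inl ⟨e1.symm, fun h => hpq h.1.symm, fun h => hpz h.2.symm⟩

/-- all edges except the flipped one survive -/
theorem edge_flip_of_ne {T : Finset (Finset (ℤ × ℤ))} {p q r z : ℤ × ℤ} {x y : ℤ × ℤ}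
    (h : Edge T x y) (hn1 : ¬ (x = p ∧ y = q)) (hn2 : ¬ (x = q ∧ y = p)) :
    Edge (flipT T p q r z) x y := by
  obtain ⟨hxy, t, ht, hx, hy⟩ := h
  have m1 : ({p, z, r} : Finset (ℤ × ℤ)) ∈ flipT T p q r z := by simp [flipT]
  have m2 : ({q, r, z} : Finset (ℤ × ℤ)) ∈ flipT T p q r z := by simp [flipT]
  by_cases h1 : t = {p, q, r}
  · subst h1
    rcases pair_cases hxy hx hy with h' | h' | ⟨rfl, rfl⟩ | ⟨rfl, rfl⟩ | ⟨rfl, rfl⟩ | ⟨rfl, rfl⟩
    · exact absurd h' hn1
    · exact absurd h' hn2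
    · exact ⟨hxy, _, m2, by simp, by simp⟩
    · exact ⟨hxy, _, m2, by simp, by simp⟩
    · exact ⟨hxy, _, m1, by simp, by simp⟩
    · exact ⟨hxy, _, m1, by simp, by simp⟩
  by_cases h2 : t = {q, p, z}
  · subst h2
    rcases pair_cases hxy hx hy with h' | h' | ⟨rfl, rfl⟩ | ⟨rfl, rfl⟩ | ⟨rfl, rfl⟩ | ⟨rfl, rfl⟩
    · exact absurd h' hn2
    · exact absurd h' hn1
    · exact ⟨hxy, _, m1, by simp, by simp⟩
    · exact ⟨hxy, _, m1, by simp, by simp⟩
    · exact ⟨hxy, _, m2, by simp, by simp⟩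
    · exact ⟨hxy, _, m2, by simp, by simp⟩
  · refine ⟨hxy, t, ?_, hx, hy⟩
    simp only [flipT, Finset.mem_union, Finset.mem_sdiff, Finset.mem_insert, Finset.mem_singleton,
      not_or]
    exact Or.inl ⟨ht, h1, h2⟩

open Classical in
/-- the edges of T crossing the segment a b, with the left endpoint first -/
noncomputable def crossSet (T : Finset (Finset (ℤ × ℤ))) (a b : ℤ × ℤ) :
    Finset ((ℤ × ℤ) × (ℤ × ℤ)) :=
  (T.biUnion fun t => t ×ˢ t).filter fun e => Cross a b e.1 e.2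

theorem mem_crossSet {T : Finset (Finset (ℤ × ℤ))} {a b : ℤ × ℤ} {e : (ℤ × ℤ) × (ℤ × ℤ)} :
    e ∈ crossSet T a b ↔ Edge T e.1 e.2 ∧ Cross a b e.1 e.2 := by
  classical
  simp only [crossSet, Finset.mem_filter, Finset.mem_biUnion, Finset.mem_product, Edge]
  constructor
  · rintro ⟨⟨t, ht, h1, h2⟩, hc⟩
    exact ⟨⟨hc.ne, t, ht, h1, h2⟩, hc⟩
  · rintro ⟨⟨_, t, ht, h1, h2⟩, hc⟩
    exact ⟨⟨t, ht, h1, h2⟩, hc⟩

/-- size of an edge relative to a segment -/
def wt (a b : ℤ × ℤ) (e : (ℤ × ℤ) × (ℤ × ℤ)) : ℕ := (det a b e.1 - det a b e.2).toNat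

/-- potential -/
noncomputable def pot (T : Finset (Finset (ℤ × ℤ))) (a b : ℤ × ℤ) : ℕ :=
  ∑ e ∈ crossSet T a b, wt a b e

theorem sum_insert_le' {α : Type*} [DecidableEq α] (f : α → ℕ) (a : α) (s : Finset α) :
    ∑ x ∈ insert a s, f x ≤ f a + ∑ x ∈ s, f x := by
  by_cases h : a ∈ s
  · rw [Finset.insert_eq_of_mem h]; exact Nat.le_add_left _ _
  · rw [Finset.sum_insert h]

/-- one flip step towards a segment -/
theorem Sys.step (S : Sys Sq IsT) {T : Finset (Finset (ℤ × ℤ))} (hT : IsT T)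
    {a b : ℤ × ℤ} (ha : a ∈ Sq) (hb : b ∈ Sq) (hab : IsCoprime (b.1 - a.1) (b.2 - a.2))
    (hne : (crossSet T a b).Nonempty) :
    ∃ p q z r, Pos T p q z ∧ Pos T q p r ∧ z + r = p + q ∧ Cross a b p q ∧
      pot (flipT T p q z r) a b < pot T a b := by
  classical
  obtain ⟨⟨p, q⟩, hpq, hmax⟩ := Finset.exists_max_image (crossSet T a b)
    (fun e => det a b e.1 - det a b e.2) hne
  obtain ⟨hE, hC⟩ := mem_crossSet.1 hpq
  simp only at hE hC
  have hmax' : ∀ x y, Edge T x y → Cross a b x y →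
      det a b x - det a b y ≤ det a b p - det a b q := by
    intro x y h1 h2
    exact hmax (x, y) (mem_crossSet.2 ⟨h1, h2⟩)
  obtain ⟨z, hz⟩ := S.edge_left hT hE hb hC.2.2.2
  obtain ⟨r, hr⟩ := S.edge_left hT hE.symm ha (by rw [det_swap]; linarith [hC.2.2.1])
  obtain ⟨hpar, hl1, hl2⟩ := max_flip a b p q z r hab hC hz.2 hr.2
    (hmax' _ _ hz.cyc.toEdge.symm) (hmax' _ _ hz.cyc.cyc.toEdge.symm)
    (hmax' _ _ hr.cyc.cyc.toEdge) (hmax' _ _ hr.cyc.toEdge)
  refine ⟨p, q, z, r, hz, hr, hpar, hC, ?_⟩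
  have hsub : crossSet (flipT T p q z r) a b ⊆
      (crossSet T a b).erase (p, q) ∪ (({(z, r), (r, z)} : Finset _).filter
        fun e => Cross a b e.1 e.2) := by
    rintro ⟨x, y⟩ he
    obtain ⟨h1, h2⟩ := mem_crossSet.1 he
    simp only at h1 h2
    rw [Finset.mem_union, Finset.mem_erase, Finset.mem_filter]
    rcases edge_flip_subset S hT hz hr h1 with ⟨h3, h4, _⟩ | ⟨rfl, rfl⟩ | ⟨rfl, rfl⟩
    · left
      refine ⟨?_, mem_crossSet.2 ⟨h3, h2⟩⟩
      intro h
      exact h4 ⟨congrArg Prod.fst h, congrArg Prod.snd h⟩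
    · right; exact ⟨by simp, h2⟩
    · right; exact ⟨by simp, h2⟩
  have hwpq : (wt a b (p, q) : ℤ) = det a b p - det a b q := by
    simp only [wt]
    rw [Int.toNat_of_nonneg]
    linarith [hC.1, hC.2.1]
  have hwpos : 0 < wt a b (p, q) := by
    have : (0 : ℤ) < wt a b (p, q) := by rw [hwpq]; linarith [hC.1, hC.2.1]
    exact_mod_cast this
  have hsum : ∑ e ∈ (({(z, r), (r, z)} : Finset _).filter fun e => Cross a b e.1 e.2), wt a b e
      < wt a b (p, q) := by
    by_cases h1 : Cross a b z r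
    · have h2 : ¬ Cross a b r z := fun h => by
        have := h.2.1; have := h1.1; linarith
      have : (({(z, r), (r, z)} : Finset ((ℤ × ℤ) × (ℤ × ℤ))).filter fun e => Cross a b e.1 e.2)
          ⊆ {(z, r)} := by
        intro e he
        simp only [Finset.mem_filter, Finset.mem_insert, Finset.mem_singleton] at he ⊢
        rcases he with ⟨rfl | rfl, he⟩
        · rfl
        · exact absurd he h2
      refine lt_of_le_of_lt (Finset.sum_le_sum_of_subset this) ?_
      rw [Finset.sum_singleton]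
      have : (wt a b (z, r) : ℤ) < wt a b (p, q) := by
        rw [hwpq]
        simp only [wt]
        rw [Int.toNat_of_nonneg]
        · exact hl1
        · linarith [h1.1, h1.2.1]
      exact_mod_cast this
    · have : (({(z, r), (r, z)} : Finset ((ℤ × ℤ) × (ℤ × ℤ))).filter fun e => Cross a b e.1 e.2)
          ⊆ ({(r, z)} : Finset _).filter fun e => Cross a b e.1 e.2 := by
        intro e he
        simp only [Finset.mem_filter, Finset.mem_insert, Finset.mem_singleton] at he ⊢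
        rcases he with ⟨rfl | rfl, he⟩
        · exact absurd he h1
        · exact ⟨rfl, he⟩
      refine lt_of_le_of_lt (Finset.sum_le_sum_of_subset this) ?_
      by_cases h2 : Cross a b r z
      · refine lt_of_le_of_lt (Finset.sum_le_sum_of_subset (Finset.filter_subset _ _)) ?_
        rw [Finset.sum_singleton]
        have : (wt a b (r, z) : ℤ) < wt a b (p, q) := by
          rw [hwpq]
          simp only [wt]
          rw [Int.toNat_of_nonneg]
          · exact hl2
          · linarith [h2.1, h2.2.1]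
        exact_mod_cast this
      · have : (({(r, z)} : Finset ((ℤ × ℤ) × (ℤ × ℤ))).filter fun e => Cross a b e.1 e.2) = ∅ := by
          rw [Finset.filter_singleton, if_neg h2]
        rw [this, Finset.sum_empty]
        exact hwpos
  calc pot (flipT T p q z r) a b
      ≤ ∑ e ∈ ((crossSet T a b).erase (p, q) ∪ (({(z, r), (r, z)} : Finset _).filter
        fun e => Cross a b e.1 e.2)), wt a b e := Finset.sum_le_sum_of_subset hsub
    _ ≤ ∑ e ∈ (crossSet T a b).erase (p, q), wt a b e + ∑ e ∈ (({(z, r), (r, z)} : Finset _).filter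
        fun e => Cross a b e.1 e.2), wt a b e := by
          rw [← Finset.sum_union_inter]
          exact Nat.le_add_right _ _
    _ < ∑ e ∈ (crossSet T a b).erase (p, q), wt a b e + wt a b (p, q) := by omega
    _ = pot T a b := Finset.sum_erase_add _ _ hpq

/-- Insertion of a primitive segment by flips. `Inv` is any property preserved by
the flips of edges crossing the segment. -/
theorem Sys.insert_one (S : Sys Sq IsT) {a b : ℤ × ℤ} (ha : a ∈ Sq) (hb : b ∈ Sq)
    (hab : IsCoprime (b.1 - a.1) (b.2 - a.2)) (Inv : Finset (Finset (ℤ × ℤ)) → Prop)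
    (hInv : ∀ T p q z r, IsT T → Inv T → Pos T p q z → Pos T q p r → z + r = p + q →
      Cross a b p q → Inv (flipT T p q z r)) :
    ∀ T, IsT T → Inv T → ∃ T', IsT T' ∧ Inv T' ∧ Edge T' a b := by
  suffices H : ∀ (N : ℕ) (T), IsT T → Inv T → pot T a b ≤ N → ∃ T', IsT T' ∧ Inv T' ∧ Edge T' a b by
    intro T hT hI
    exact H _ T hT hI le_rfl
  intro N
  induction N with
  | zero =>
    intro T hT hI hN
    by_cases hne : (crossSet T a b).Nonempty
    · obtain ⟨p, q, z, r, _, _, _, _, h5⟩ := S.step hT ha hb hab hne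
      omega
    · refine ⟨T, hT, hI, S.edge_of_not_cross hT ha hb hab ?_⟩
      intro p q h1 h2
      exact hne ⟨(p, q), mem_crossSet.2 ⟨h1, h2⟩⟩
  | succ N ih =>
    intro T hT hI hN
    by_cases hne : (crossSet T a b).Nonempty
    · obtain ⟨p, q, z, r, h1, h2, h3, h4, h5⟩ := S.step hT ha hb hab hne
      exact ih _ (S.flp T hT _ _ _ _ h1 h2 h3) (hInv T p q z r hT hI h1 h2 h3 h4) (by omega)
    · refine ⟨T, hT, hI, S.edge_of_not_cross hT ha hb hab ?_⟩
      intro p q h1 h2
      exact hne ⟨(p, q), mem_crossSet.2 ⟨h1, h2⟩⟩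

/-- Insertion of finitely many pairwise non-crossing primitive segments by flips. -/
theorem Sys.insert_list (S : Sys Sq IsT) (G : Set ((ℤ × ℤ) × (ℤ × ℤ)))
    (hG : ∀ e ∈ G, e.1 ∈ Sq ∧ e.2 ∈ Sq ∧ IsCoprime (e.2.1 - e.1.1) (e.2.2 - e.1.2))
    (hnc : ∀ e ∈ G, ∀ f ∈ G, ¬ Cross e.1 e.2 f.1 f.2 ∧ ¬ Cross e.1 e.2 f.2 f.1)
    (Inv : Finset (Finset (ℤ × ℤ)) → Prop)
    (hInv : ∀ T p q z r, IsT T → Inv T → Pos T p q z → Pos T q p r → z + r = p + q →
      (∃ e ∈ G, Cross e.1 e.2 p q) → Inv (flipT T p q z r))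
    (L : List ((ℤ × ℤ) × (ℤ × ℤ))) (hL : ∀ e ∈ L, e ∈ G) :
    ∀ T, IsT T → Inv T → ∃ T', IsT T' ∧ Inv T' ∧ ∀ e ∈ L, Edge T' e.1 e.2 := by
  induction L with
  | nil =>
    intro T hT hI
    exact ⟨T, hT, hI, by simp⟩
  | cons e L ih =>
    intro T hT hI
    obtain ⟨T1, hT1, hI1, hE1⟩ := ih (fun f hf => hL f (List.mem_cons_of_mem _ hf)) T hT hI
    have he : e ∈ G := hL e List.mem_cons_self
    obtain ⟨h1, h2, h3⟩ := hG e he
    obtain ⟨T2, hT2, ⟨hI2, hE2⟩, hE3⟩ := S.insert_one h1 h2 h3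
      (fun T => Inv T ∧ ∀ f ∈ L, Edge T f.1 f.2) (by
        rintro T p q z r hT ⟨hI, hE⟩ g1 g2 g3 g4
        refine ⟨hInv T p q z r hT hI g1 g2 g3 ⟨e, he, g4⟩, ?_⟩
        intro f hf
        have hfG := hL f (List.mem_cons_of_mem _ hf)
        refine edge_flip_of_ne (hE f hf) ?_ ?_
        · rintro ⟨k1, k2⟩
          rw [← k1, ← k2] at g4
          exact (hnc e he f hfG).1 g4
        · rintro ⟨k1, k2⟩
          rw [← k1, ← k2] at g4
          exact (hnc e he f hfG).2 g4) T1 hT1 ⟨hI1, hE1⟩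
    refine ⟨T2, hT2, hI2, ?_⟩
    intro f hf
    rcases List.mem_cons.1 hf with rfl | hf
    · exact hE3
    · exact hE2 f hf

/-- three edges bounding a unimodular triangle bound a triangle of T -/
theorem Sys.pos_of_edges (S : Sys Sq IsT) {T : Finset (Finset (ℤ × ℤ))} (hT : IsT T)
    {a b c : ℤ × ℤ} (h : det a b c = 1) (hab : Edge T a b) (hbc : Edge T b c) (hca : Edge T c a) :
    Pos T a b c := by
  have hc : c ∈ Sq := by
    obtain ⟨_, t, ht, h1, _⟩ := hca
    exact S.mem T hT t ht c h1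
  obtain ⟨z, hz⟩ := S.edge_left hT hab hc (by rw [h]; exact one_pos)
  have hpq : IsCoprime (b.1 - a.1) (b.2 - a.2) := by
    refine ⟨c.2 - a.2, -(c.1 - a.1), ?_⟩
    have := h
    simp only [det] at this
    linarith
  have hz2 := hz.2
  obtain ⟨k, hk⟩ := prim_mul (b.1 - a.1, b.2 - a.2) (z.1 - c.1, z.2 - c.2) hpq (by
    have h1 := h
    simp only [det] at h1 hz2 ⊢
    linear_combination hz2 - h1)
  have hk1 : z.1 - c.1 = k * (b.1 - a.1) := congrArg Prod.fst hk
  have hk2 : z.2 - c.2 = k * (b.2 - a.2) := congrArg Prod.snd hk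
  rcases lt_trichotomy k 0 with hlt | heq | hgt
  · exfalso
    apply S.nocross T hT _ _ _ _ hz.cyc.toEdge hca.symm
    have f1 : det b z a = 1 := by rw [← hz2]; simp only [det]; ring
    have f2 : det b z c = k := by
      simp only [det] at h hz2 ⊢
      linear_combination k * h + (c.2 - b.2) * hk1 - (c.1 - b.1) * hk2
    have f3 : det a c b = -1 := by
      simp only [det] at h ⊢
      linear_combination (-1) * h
    have f4 : det a c z = -k := by
      simp only [det] at h hz2 ⊢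
      linear_combination (-k) * h + (c.1 - a.1) * hk2 - (c.2 - a.2) * hk1
    exact ⟨by rw [f1]; exact one_pos, by rw [f2]; exact hlt, by rw [f3]; norm_num,
      by rw [f4]; linarith⟩
  · rw [heq] at hk1 hk2
    have : z = c := Prod.ext (by linarith) (by linarith)
    rw [← this]; exact hz
  · exfalso
    apply S.nocross T hT _ _ _ _ hz.cyc.cyc.toEdge.symm hbc.symm
    have f1 : det a z c = k := by
      simp only [det] at h hz2 ⊢
      linear_combination k * h + (c.2 - a.2) * hk1 - (c.1 - a.1) * hk2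
    have f2 : det a z b = -1 := by
      simp only [det] at h hz2 ⊢
      linear_combination (-1) * hz2
    have f3 : det c b a = -1 := by
      simp only [det] at h ⊢
      linear_combination (-1) * h
    have f4 : det c b z = k := by
      simp only [det] at h hz2 ⊢
      linear_combination k * h + (b.1 - c.1) * hk2 - (b.2 - c.2) * hk1
    exact ⟨by rw [f1]; exact hgt, by rw [f2]; norm_num, by rw [f3]; norm_num,
      by rw [f4]; exact hgt⟩

end Pool.Agent.IT.Ins
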