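import Pool.Agent.IT.Defs
import Pool.Agent.IT.Star

/-!
Third vertices, opposite sides of an edge, at most two triangles per edge, and: a vertex all of whose
triangles have neighbours across the edges at it is an interior lattice point of the square.
-/

set_option autoImplicit false

namespace Pool.Agent.IT

namespace F3

variable {n : ℕ} {T : Finset (Finset Pt)}

theorem det_eq_cr (p q r : Pt) : det p q r = crs (q - p) (r - p) := by simp [crs, det]

theorem perm3 (a b c : Pt) : ({a, b, c} : Finset Pt) = {a, c, b} := by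
  ext x; simp only [Finset.mem_insert, Finset.mem_singleton]; tauto
theorem perm3' (a b c : Pt) : ({a, b, c} : Finset Pt) = {b, a, c} := by
  ext x; simp only [Finset.mem_insert, Finset.mem_singleton]; tauto
theorem perm3c (a b c : Pt) : ({a, b, c} : Finset Pt) = {b, c, a} := by
  ext x; simp only [Finset.mem_insert, Finset.mem_singleton]; tauto

/-- the third vertex of a triangle -/
theorem third (hT : UT n T) {t : Finset Pt} (ht : t ∈ T) {p q : Pt} (hp : p ∈ t) (hq : q ∈ t)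
    (hne : p ≠ q) : ∃ w, t = {p, q, w} ∧ (det p q w = 1 ∨ det p q w = -1) := by
  obtain ⟨a, b, c, rfl, h⟩ := hT.exists_pos ht
  have h1 := h.2
  simp only [Finset.mem_insert, Finset.mem_singleton] at hp hq
  rcases hp with rfl | rfl | rfl <;> rcases hq with rfl | rfl | rfl
  · exact absurd rfl hne
  · exact ⟨c, rfl, Or.inl h1⟩
  · exact ⟨b, perm3 _ _ _, Or.inr (by rw [det_swap']; omega)⟩
  · exact ⟨c, perm3' _ _ _, Or.inr (by rw [det_swap]; omega)⟩
  · exact absurd rfl hne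
  · exact ⟨a, perm3c _ _ _, Or.inl (by rw [det_cyc]; omega)⟩
  · exact ⟨b, (perm3c _ _ _).trans (perm3c _ _ _), Or.inl (by rw [← det_cyc]; omega)⟩
  · exact ⟨a, (perm3 _ _ _).trans (perm3c _ _ _), Or.inr (by rw [det_swap, det_cyc]; omega)⟩
  · exact absurd rfl hne

/-- a triangle is determined by an edge and a side -/
theorem uniq (hT : UT n T) {p q w w' : Pt} (h : ({p, q, w} : Finset Pt) ∈ T)
    (h' : ({p, q, w'} : Finset Pt) ∈ T) (hd : det p q w = 1 ∨ det p q w = -1)
    (he : det p q w = det p q w') : w = w' := by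
  rcases hd with hd | hd
  · exact Pos.unique hT ⟨h, hd⟩ ⟨h', by omega⟩
  · rw [perm3'] at h h'
    exact Pos.unique hT ⟨h, by rw [det_swap]; omega⟩ ⟨h', by rw [det_swap]; omega⟩

/-- two different triangles with a common edge are on different sides -/
theorem opp (hT : UT n T) {t s : Finset Pt} (ht : t ∈ T) (hs : s ∈ T) (hne : s ≠ t) {p q w : Pt}
    (hpq : p ≠ q) (h : t = {p, q, w}) (hps : p ∈ s) (hqs : q ∈ s) :
    ∃ w', s = {p, q, w'} ∧ det p q w' = - det p q w ∧ (det p q w = 1 ∨ det p q w = -1) := by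
  obtain ⟨w', hs', hd'⟩ := third hT hs hps hqs hpq
  obtain ⟨w₁, ht₁, hd₁⟩ := third hT ht (p := p) (q := q) (by simp [h]) (by simp [h]) hpq
  have hww : w₁ = w := by
    have hw : w ∈ ({p, q, w₁} : Finset Pt) := by rw [← ht₁, h]; simp
    simp only [Finset.mem_insert, Finset.mem_singleton] at hw
    rcases hw with rfl | rfl | rfl
    · have h1 : w₁ ∈ ({w, q, w} : Finset Pt) := by rw [← h, ht₁]; simp
      simp only [Finset.mem_insert, Finset.mem_singleton] at h1
      rcases h1 with h1 | h1 | h1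
      · exact h1
      · rw [h1] at hd₁; exfalso; simp only [det] at hd₁; ring_nf at hd₁; omega
      · exact h1
    · have h1 : w₁ ∈ ({p, w, w} : Finset Pt) := by rw [← h, ht₁]; simp
      simp only [Finset.mem_insert, Finset.mem_singleton] at h1
      rcases h1 with h1 | h1 | h1
      · rw [h1] at hd₁; exfalso; simp only [det] at hd₁; ring_nf at hd₁; omega
      · exact h1
      · exact h1
    · rfl
  rw [hww] at hd₁
  refine ⟨w', hs', ?_, hd₁⟩
  by_contra hcon
  have hee : det p q w = det p q w' := by omega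
  have := uniq hT (h ▸ ht) (hs' ▸ hs) hd₁ hee
  apply hne
  rw [hs', h, this]

theorem card2 (hT : UT n T) {p q : Pt} (hpq : p ≠ q) :
    (T.filter (fun t => p ∈ t ∧ q ∈ t)).card ≤ 2 := by
  by_contra hcon
  push Not at hcon
  rw [Finset.two_lt_card] at hcon
  obtain ⟨a, ha, b, hb, c, hc, hab, hac, hbc⟩ := hcon
  rw [Finset.mem_filter] at ha hb hc
  obtain ⟨w, hw, hd⟩ := third hT ha.1 ha.2.1 ha.2.2 hpq
  obtain ⟨w1, h1, hd1, -⟩ := opp hT ha.1 hb.1 (Ne.symm hab) hpq hw hb.2.1 hb.2.2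
  obtain ⟨w2, h2, hd2, -⟩ := opp hT ha.1 hc.1 (Ne.symm hac) hpq hw hc.2.1 hc.2.2
  have := uniq hT (h1 ▸ hb.1) (h2 ▸ hc.1) (by omega) (by omega)
  exact hbc (by rw [h1, h2, this])

theorem card3 (hT : UT n T) {t : Finset Pt} (ht : t ∈ T) : t.card ≤ 3 := by
  obtain ⟨a, b, c, rfl, h⟩ := hT.exists_pos ht
  exact Finset.card_le_three

end F3

variable {n : ℕ} {T : Finset (Finset Pt)}

/-- an edge on a side of the square is in one triangle only -/
theorem onSide_single (hT : UT n T) {t s : Finset Pt} (ht : t ∈ T) (hs : s ∈ T) (hne : s ≠ t) {p q : Pt}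
    (hpq : p ≠ q) (hp : p ∈ t) (hq : q ∈ t) (hp' : p ∈ s) (hq' : q ∈ s) : ¬ OnSide n p q := by
  obtain ⟨w, hw, -⟩ := F3.third hT ht hp hq hpq
  obtain ⟨w', hw', hd, hd1⟩ := F3.opp hT ht hs hne hpq hw hp' hq'
  have i1 : InSq n w := hT.insq ht (by rw [hw]; simp)
  have i2 : InSq n w' := hT.insq hs (by rw [hw']; simp)
  obtain ⟨a1, a2, a3, a4⟩ := i1
  obtain ⟨b1, b2, b3, b4⟩ := i2
  have hprod : det p q w' * det p q w = -1 := by
    rw [hd]; rcases hd1 with h | h <;> rw [h] <;> norm_num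
  rintro (⟨e1, e2⟩ | ⟨e1, e2⟩ | ⟨e1, e2⟩ | ⟨e1, e2⟩)
  · have : det p q w' * det p q w = (q.2 - p.2) ^ 2 * (w'.1 * w.1) := by
      simp only [det, e1, e2]; ring
    have h1 := mul_nonneg (sq_nonneg (q.2 - p.2)) (mul_nonneg b1 a1)
    linarith
  · have : det p q w' * det p q w = (q.2 - p.2) ^ 2 * ((n - w'.1) * (n - w.1)) := by
      simp only [det, e1, e2]; ring
    have h1 := mul_nonneg (sq_nonneg (q.2 - p.2)) (mul_nonneg (sub_nonneg.mpr b2) (sub_nonneg.mpr a2))
    linarith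
  · have : det p q w' * det p q w = (q.1 - p.1) ^ 2 * (w'.2 * w.2) := by
      simp only [det, e1, e2]; ring
    have h1 := mul_nonneg (sq_nonneg (q.1 - p.1)) (mul_nonneg b3 a3)
    linarith
  · have : det p q w' * det p q w = (q.1 - p.1) ^ 2 * ((n - w'.2) * (n - w.2)) := by
      simp only [det, e1, e2]; ring
    have h1 := mul_nonneg (sq_nonneg (q.1 - p.1)) (mul_nonneg (sub_nonneg.mpr b4) (sub_nonneg.mpr a4))
    linarith

theorem edge_mem {p q : Pt} (h : IsEdge T p q) : p ≠ q ∧ ∃ t ∈ T, p ∈ t ∧ q ∈ t := by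
  obtain ⟨r, h | h⟩ := h
  · exact ⟨h.ne, _, h.1, by simp, by simp⟩
  · exact ⟨h.ne.symm, _, h.1, by simp, by simp⟩

/-- a boundary vertex has an edge on a side -/
theorem exists_side_edge (hT : UT n T) (hn : 0 < n) {x : Pt} (hx : InSq n x) (hI : ¬ Inner n x) :
    ∃ q, OnSide n x q ∧ IsEdge T x q := by
  obtain ⟨x1, x2, x3, x4⟩ := hx
  have hn' : (0 : ℤ) < n := by exact_mod_cast hn
  -- the first coordinate is extremal
  by_cases c1 : x.1 = 0 ∨ x.1 = n
  · obtain ⟨s, hs, hs1, hs2⟩ : ∃ s : ℤ, (s = 1 ∨ s = -1) ∧ 0 ≤ 2 * x.2 + s ∧ 2 * x.2 + s ≤ 2 * n := by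
      by_cases h : x.2 < n
      · exact ⟨1, Or.inl rfl, by omega, by omega⟩
      · exact ⟨-1, Or.inr rfl, by omega, by omega⟩
    obtain ⟨p, q, hE, e1, e2⟩ := hT.exists_mid (m := (2 * x.1, 2 * x.2 + s)) (by simp; omega)
      (by simp; omega) hs1 hs2 (by rintro ⟨-, h⟩; simp only at h; omega)
    simp only at e1 e2
    obtain ⟨p1, p2, p3, p4⟩ := hE.insq hT
    obtain ⟨q1, q2, q3, q4⟩ := hE.symm.insq hT
    have hp : p.1 = x.1 := by omega
    have hq : q.1 = x.1 := by omega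
    obtain ⟨e, he⟩ := hE.prim
    have hprim : q.2 - p.2 = 1 ∨ q.2 - p.2 = -1 := by
      refine Int.eq_one_or_neg_one_of_mul_eq_one (v := -e.1) ?_
      rw [← he]; simp only [crs, hp, hq]; ring
    have : p.2 = x.2 ∨ q.2 = x.2 := by omega
    rcases this with h | h
    · have hpx : p = x := Prod.ext hp h
      subst hpx
      refine ⟨q, ?_, hE⟩
      rcases c1 with c | c
      · exact Or.inl ⟨c, by omega⟩
      · exact Or.inr (Or.inl ⟨c, by omega⟩)
    · have hpx : q = x := Prod.ext hq h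
      subst hpx
      refine ⟨p, ?_, hE.symm⟩
      rcases c1 with c | c
      · exact Or.inl ⟨c, by omega⟩
      · exact Or.inr (Or.inl ⟨c, by omega⟩)
  · have c2 : x.2 = 0 ∨ x.2 = n := by
      by_contra hcon
      apply hI
      refine ⟨by omega, by omega, by omega, by omega⟩
    obtain ⟨s, hs, hs1, hs2⟩ : ∃ s : ℤ, (s = 1 ∨ s = -1) ∧ 0 ≤ 2 * x.1 + s ∧ 2 * x.1 + s ≤ 2 * n := by
      by_cases h : x.1 < n
      · exact ⟨1, Or.inl rfl, by omega, by omega⟩
      · exact ⟨-1, Or.inr rfl, by omega, by omega⟩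
    obtain ⟨p, q, hE, e1, e2⟩ := hT.exists_mid (m := (2 * x.1 + s, 2 * x.2)) hs1 hs2 (by simp; omega)
      (by simp; omega) (by rintro ⟨h, -⟩; simp only at h; omega)
    simp only at e1 e2
    obtain ⟨p1, p2, p3, p4⟩ := hE.insq hT
    obtain ⟨q1, q2, q3, q4⟩ := hE.symm.insq hT
    have hp : p.2 = x.2 := by omega
    have hq : q.2 = x.2 := by omega
    obtain ⟨e, he⟩ := hE.prim
    have hprim : q.1 - p.1 = 1 ∨ q.1 - p.1 = -1 := by
      refine Int.eq_one_or_neg_one_of_mul_eq_one (v := e.2) ?_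
      rw [← he]; simp only [crs, hp, hq]; ring
    have : p.1 = x.1 ∨ q.1 = x.1 := by omega
    rcases this with h | h
    · have hpx : p = x := Prod.ext h hp
      subst hpx
      refine ⟨q, ?_, hE⟩
      rcases c2 with c | c
      · exact Or.inr (Or.inr (Or.inl ⟨c, by omega⟩))
      · exact Or.inr (Or.inr (Or.inr ⟨c, by omega⟩))
    · have hpx : q = x := Prod.ext h hq
      subst hpx
      refine ⟨p, ?_, hE.symm⟩
      rcases c2 with c | c
      · exact Or.inr (Or.inr (Or.inl ⟨c, by omega⟩))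
      · exact Or.inr (Or.inr (Or.inr ⟨c, by omega⟩))

/-- a vertex all of whose triangles have neighbours across the edges at it is interior -/
theorem int_of_nb (hT : UT n T) {x : Pt} (hx : ∃ t ∈ T, x ∈ t)
    (hnb : ∀ t ∈ T, x ∈ t → ∀ q ∈ t, x ≠ q → ∃ s ∈ T, s ≠ t ∧ x ∈ s ∧ q ∈ s) : Inner n x := by
  obtain ⟨t, ht, hxt⟩ := hx
  have hn : 0 < n := by
    rcases Nat.eq_zero_or_pos n with rfl | h
    · exfalso
      obtain ⟨a, b, c, rfl, hp⟩ := hT.exists_pos ht
      obtain ⟨a1, a2, a3, a4⟩ := hp.insq hT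
      obtain ⟨b1, b2, b3, b4⟩ := hp.cyc.insq hT
      apply hp.ne
      ext <;> simp at * <;> omega
    · exact h
  by_contra hI
  obtain ⟨q, hs, hE⟩ := exists_side_edge hT hn (hT.insq ht hxt) hI
  obtain ⟨hne, u, hu, hxu, hqu⟩ := edge_mem hE
  obtain ⟨s, hsT, hsu, hxs, hqs⟩ := hnb u hu hxu q hqu hne
  exact onSide_single hT hu hsT hsu hne hxu hqu hxs hqs hs

end Pool.Agent.IT
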