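import Mathlib

/-! Abstract Kraft inequality for families of functions coded causally (MP_da73da_co). -/

set_option autoImplicit false

open Finset

namespace IT

/-- Kraft inequality.  `S` is a finite set of functions, determined by their values on `M`; the
points of `M` are ordered by `l`.  `w i f x` is the weight of the value `x` at `i`, depending only
on the values of `f` at the earlier points of `M`. -/
theorem kraft {ι X : Type*} [DecidableEq ι] [DecidableEq X] [Inhabited X] (l : ι → ℤ)
    (w : ι → (ι → X) → X → ℝ) (hw0 : ∀ i f x, 0 ≤ w i f x) :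
    ∀ (M : Finset ι) (_ : Set.InjOn l (M : Set ι)) (S : Finset (ι → X))
      (_ : ∀ f ∈ S, ∀ g ∈ S, (∀ i ∈ M, f i = g i) → f = g)
      (_ : ∀ i ∈ M, ∀ f g : ι → X, (∀ k ∈ M, l k < l i → f k = g k) → w i f = w i g)
      (_ : ∀ i ∈ M, ∀ f ∈ S, ∀ O : Finset X,
        (∀ x ∈ O, ∃ g ∈ S, (∀ k ∈ M, l k < l i → g k = f k) ∧ g i = x) →
        ∑ x ∈ O, w i f x ≤ 1),
      ∑ f ∈ S, ∏ i ∈ M, w i f (f i) ≤ 1 := by
  classical
  intro M
  induction M using Finset.strongInduction with
  | H M ih =>
    intro hl S hext hcaus hopt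
    rcases M.eq_empty_or_nonempty with rfl | hne
    · -- `S` has at most one element
      have hcard : S.card ≤ 1 := by
        rw [Finset.card_le_one]
        intro f hf g hg
        exact hext f hf g hg (by simp)
      simpa using hcard
    · obtain ⟨i, hiM, himax⟩ := M.exists_max_image l hne
      set M' := M.erase i with hM'
      have hsub : M' ⊂ M := Finset.erase_ssubset hiM
      have hlt : ∀ k ∈ M', l k < l i := by
        intro k hk
        have hkM : k ∈ M := Finset.mem_of_mem_erase hk
        have hki : k ≠ i := Finset.ne_of_mem_erase hk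
        exact lt_of_le_of_ne (himax k hkM) (fun h => hki (hl hkM hiM h))
      set ρ : (ι → X) → (ι → X) := fun f j => if j ∈ M' then f j else default with hρ
      have hρM : ∀ f : ι → X, ∀ k ∈ M', ρ f k = f k := by
        intro f k hk
        simp [hρ, hk]
      set S' := S.image ρ with hS'
      have hbelow : ∀ j ∈ M', ∀ k ∈ M, l k < l j → k ∈ M' := by
        intro j hj k hk hkj
        refine Finset.mem_erase.2 ⟨?_, hk⟩
        rintro rfl
        exact absurd hkj (not_lt.2 (le_of_lt (hlt j hj)))
      -- the induction hypothesis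
      have key : ∑ g ∈ S', ∏ j ∈ M', w j g (g j) ≤ 1 := by
        refine ih M' hsub (hl.mono (by simpa using Finset.erase_subset i M)) S' ?_ ?_ ?_
        · intro f hf g hg hfg
          obtain ⟨f0, _, rfl⟩ := Finset.mem_image.1 hf
          obtain ⟨g0, _, rfl⟩ := Finset.mem_image.1 hg
          funext j
          by_cases hj : j ∈ M'
          · exact hfg j hj
          · simp [hρ, hj]
        · intro j hj f g hfg
          refine hcaus j (Finset.mem_of_mem_erase hj) f g ?_
          intro k hk hkj
          exact hfg k (hbelow j hj k hk hkj) hkj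
        · intro j hj f hf O hO
          obtain ⟨f0, hf0, rfl⟩ := Finset.mem_image.1 hf
          have hjM : j ∈ M := Finset.mem_of_mem_erase hj
          have hwj : w j (ρ f0) = w j f0 := by
            refine hcaus j hjM _ _ ?_
            intro k hk hkj
            exact hρM f0 k (hbelow j hj k hk hkj)
          rw [hwj]
          refine hopt j hjM f0 hf0 O ?_
          intro x hx
          obtain ⟨g, hg, hgf, hgx⟩ := hO x hx
          obtain ⟨g0, hg0, rfl⟩ := Finset.mem_image.1 hg
          refine ⟨g0, hg0, ?_, ?_⟩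
          · intro k hk hkj
            have hk' := hbelow j hj k hk hkj
            have := hgf k hk' hkj
            rwa [hρM g0 k hk', hρM f0 k hk'] at this
          · rw [← hgx, hρM g0 j hj]
      refine le_trans ?_ key
      -- fibrewise comparison
      rw [← Finset.sum_fiberwise_of_maps_to (g := ρ) (t := S')
        (fun f hf => Finset.mem_image_of_mem ρ hf)]
      refine Finset.sum_le_sum ?_
      intro g hg
      obtain ⟨f0, hf0, rfl⟩ := Finset.mem_image.1 hg
      set F := S.filter (fun f => ρ f = ρ f0) with hF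
      have hagree : ∀ f ∈ F, ∀ k ∈ M', f k = f0 k := by
        intro f hf k hk
        have h := (Finset.mem_filter.1 hf).2
        have := congrFun h k
        rwa [hρM f k hk, hρM f0 k hk] at this
      have hprod : ∀ f ∈ F, ∏ j ∈ M, w j f (f j)
          = (∏ j ∈ M', w j (ρ f0) (ρ f0 j)) * w i f0 (f i) := by
        intro f hf
        rw [← Finset.mul_prod_erase M _ hiM, mul_comm]
        congr 1
        · refine Finset.prod_congr rfl ?_
          intro j hj
          have hjM : j ∈ M := Finset.mem_of_mem_erase hj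
          have h1 : w j f = w j (ρ f0) := by
            refine hcaus j hjM _ _ ?_
            intro k hk hkj
            have hk' := hbelow j hj k hk hkj
            rw [hρM f0 k hk', hagree f hf k hk']
          rw [h1, hρM f0 j hj, hagree f hf j hj]
        · have h1 : w i f = w i f0 := by
            refine hcaus i hiM _ _ ?_
            intro k hk hki
            refine hagree f hf k (Finset.mem_erase.2 ⟨?_, hk⟩)
            rintro rfl
            exact absurd hki (lt_irrefl _)
          rw [h1]
      rw [Finset.sum_congr rfl hprod, ← Finset.mul_sum]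
      have hP0 : 0 ≤ ∏ j ∈ M', w j (ρ f0) (ρ f0 j) :=
        Finset.prod_nonneg (fun j _ => hw0 _ _ _)
      have hinj : Set.InjOn (fun f : ι → X => f i) (F : Set (ι → X)) := by
        intro f hf g hg hfg
        have hf' : f ∈ F := hf
        have hg' : g ∈ F := hg
        refine hext f (Finset.mem_filter.1 hf').1 g (Finset.mem_filter.1 hg').1 ?_
        intro k hk
        by_cases hki : k = i
        · subst hki
          exact hfg
        · have hk' : k ∈ M' := Finset.mem_erase.2 ⟨hki, hk⟩
          rw [hagree f hf' k hk', hagree g hg' k hk']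
      have hsum : ∑ f ∈ F, w i f0 (f i) ≤ 1 := by
        have h1 : ∑ f ∈ F, w i f0 (f i) = ∑ x ∈ F.image (fun f => f i), w i f0 x := by
          rw [Finset.sum_image hinj]
        rw [h1]
        refine hopt i hiM f0 hf0 _ ?_
        intro x hx
        obtain ⟨f, hf, rfl⟩ := Finset.mem_image.1 hx
        refine ⟨f, (Finset.mem_filter.1 hf).1, ?_, rfl⟩
        intro k hk hki
        refine hagree f hf k (Finset.mem_erase.2 ⟨?_, hk⟩)
        rintro rfl
        exact absurd hki (lt_irrefl _)
      calc (∏ j ∈ M', w j (ρ f0) (ρ f0 j)) * ∑ f ∈ F, w i f0 (f i)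
          ≤ (∏ j ∈ M', w j (ρ f0) (ρ f0 j)) * 1 := mul_le_mul_of_nonneg_left hsum hP0
        _ = ∏ j ∈ M', w j (ρ f0) (ρ f0 j) := mul_one _

/-- Kraft inequality with a causal predictor, when there are at most two admissible values at each
point.  Unpredicted points cost `1/2`, correct predictions `1 - d`, wrong predictions `d/2`. -/
theorem kraft_pred {ι X : Type*} [DecidableEq ι] [DecidableEq X] [Inhabited X] (l : ι → ℤ)
    (P : ι → (ι → X) → Option X) (d : ℝ) (hd0 : 0 ≤ d) (hd1 : d ≤ 1)
    (M : Finset ι) (hl : Set.InjOn l (M : Set ι)) (S : Finset (ι → X))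
    (hext : ∀ f ∈ S, ∀ g ∈ S, (∀ i ∈ M, f i = g i) → f = g)
    (hcaus : ∀ i ∈ M, ∀ f g : ι → X, (∀ k ∈ M, l k < l i → f k = g k) → P i f = P i g)
    (hopt : ∀ i ∈ M, ∀ f ∈ S, ∀ O : Finset X,
        (∀ x ∈ O, ∃ g ∈ S, (∀ k ∈ M, l k < l i → g k = f k) ∧ g i = x) → O.card ≤ 2) :
    ∑ f ∈ S, ((1 / 2 : ℝ) ^ (M.filter (fun i => P i f = none)).card
        * (1 - d) ^ (M.filter (fun i => P i f = some (f i))).card
        * (d / 2) ^ (M.filter (fun i => P i f ≠ none ∧ P i f ≠ some (f i))).card) ≤ 1 := by
  classical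
  set w : ι → (ι → X) → X → ℝ := fun i f x =>
    if P i f = none then 1 / 2 else if P i f = some x then 1 - d else d / 2 with hw
  have hw0 : ∀ i f x, 0 ≤ w i f x := by
    intro i f x
    simp only [hw]
    split_ifs
    · norm_num
    · linarith
    · linarith
  have hk := kraft l w hw0 M hl S hext ?_ ?_
  · refine le_trans (le_of_eq ?_) hk
    refine Finset.sum_congr rfl ?_
    intro f _
    have h1 : ∏ i ∈ M, w i f (f i)
        = (∏ i ∈ M, (if P i f = none then (1 / 2 : ℝ) else 1))
          * (∏ i ∈ M, (if P i f = some (f i) then (1 - d) else 1))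
          * (∏ i ∈ M, (if P i f ≠ none ∧ P i f ≠ some (f i) then (d / 2) else 1)) := by
      rw [← Finset.prod_mul_distrib, ← Finset.prod_mul_distrib]
      refine Finset.prod_congr rfl ?_
      intro i _
      simp only [hw]
      by_cases h1 : P i f = none
      · simp [h1]
      · by_cases h2 : P i f = some (f i)
        · simp [h2]
        · simp [h1, h2]
    rw [h1]
    simp only [Finset.prod_ite, Finset.prod_const, one_pow, mul_one]
  · intro i hi f g hfg
    have := hcaus i hi f g hfg
    simp only [hw, this]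
  · intro i hi f hf O hO
    have hc := hopt i hi f hf O hO
    have hc' : (O.card : ℝ) ≤ 2 := by exact_mod_cast hc
    simp only [hw]
    by_cases h1 : P i f = none
    · simp only [h1, if_true, Finset.sum_const, nsmul_eq_mul]
      linarith
    · simp only [h1, if_false]
      obtain ⟨y, hy⟩ := Option.ne_none_iff_exists'.1 h1
      simp only [hy, Option.some.injEq]
      by_cases hyO : y ∈ O
      · rw [← Finset.add_sum_erase O _ hyO]
        have h2 : ∀ x ∈ O.erase y, (if y = x then 1 - d else d / 2) = d / 2 := by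
          intro x hx
          rw [if_neg (fun h => Finset.ne_of_mem_erase hx h.symm)]
        rw [Finset.sum_congr rfl h2]
        simp only [if_true, Finset.sum_const, nsmul_eq_mul, Finset.card_erase_of_mem hyO]
        have h3 : ((O.card - 1 : ℕ) : ℝ) ≤ 1 := by
          have : O.card - 1 ≤ 1 := by omega
          exact_mod_cast this
        nlinarith
      · have h2 : ∀ x ∈ O, (if y = x then 1 - d else d / 2) = d / 2 := by
          intro x hx
          rw [if_neg]
          rintro rfl
          exact hyO hx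
        rw [Finset.sum_congr rfl h2]
        simp only [Finset.sum_const, nsmul_eq_mul]
        nlinarith

/-- Counting form of `kraft_pred`. -/
theorem kraft_count {ι X : Type*} [DecidableEq ι] [DecidableEq X] [Inhabited X] (l : ι → ℤ)
    (P : ι → (ι → X) → Option X) (d : ℝ) (hd0 : 0 < d) (hd1 : d < 1)
    (M : Finset ι) (hl : Set.InjOn l (M : Set ι)) (S : Finset (ι → X))
    (hext : ∀ f ∈ S, ∀ g ∈ S, (∀ i ∈ M, f i = g i) → f = g)
    (hcaus : ∀ i ∈ M, ∀ f g : ι → X, (∀ k ∈ M, l k < l i → f k = g k) → P i f = P i g)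
    (hopt : ∀ i ∈ M, ∀ f ∈ S, ∀ O : Finset X,
        (∀ x ∈ O, ∃ g ∈ S, (∀ k ∈ M, l k < l i → g k = f k) ∧ g i = x) → O.card ≤ 2)
    (A W : ℕ) (S0 : Finset (ι → X)) (hS0 : S0 ⊆ S)
    (hA : ∀ f ∈ S0, (M.filter (fun i => P i f = none)).card ≤ A)
    (hW : ∀ f ∈ S0, (M.filter (fun i => P i f ≠ none ∧ P i f ≠ some (f i))).card ≤ W) :
    (S0.card : ℝ) ≤ 2 ^ A * (1 / (1 - d)) ^ M.card * (2 / d) ^ W := by
  have hk := kraft_pred l P d hd0.le hd1.le M hl S hext hcaus hopt
  have h1d : 0 < 1 - d := by linarith
  set c : ℝ := (1 / 2 : ℝ) ^ A * (1 - d) ^ M.card * (d / 2) ^ W with hc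
  have hcpos : 0 < c := by positivity
  have hle : ∀ f ∈ S0, c ≤ ((1 / 2 : ℝ) ^ (M.filter (fun i => P i f = none)).card
        * (1 - d) ^ (M.filter (fun i => P i f = some (f i))).card
        * (d / 2) ^ (M.filter (fun i => P i f ≠ none ∧ P i f ≠ some (f i))).card) := by
    intro f hf
    have a1 : (1 / 2 : ℝ) ^ A ≤ (1 / 2 : ℝ) ^ (M.filter (fun i => P i f = none)).card :=
      pow_le_pow_of_le_one (by norm_num) (by norm_num) (hA f hf)
    have a2 : (1 - d) ^ M.card ≤ (1 - d) ^ (M.filter (fun i => P i f = some (f i))).card :=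
      pow_le_pow_of_le_one h1d.le (by linarith) (Finset.card_filter_le _ _)
    have a3 : (d / 2) ^ W
        ≤ (d / 2) ^ (M.filter (fun i => P i f ≠ none ∧ P i f ≠ some (f i))).card :=
      pow_le_pow_of_le_one (by linarith) (by linarith) (hW f hf)
    rw [hc]
    have p1 : (0 : ℝ) < (1 / 2) ^ A := by positivity
    have p2 : (0 : ℝ) < (1 - d) ^ M.card := by positivity
    have p3 : (0 : ℝ) < (d / 2) ^ W := by positivity
    exact mul_le_mul (mul_le_mul a1 a2 p2.le (by positivity)) a3 p3.le (by positivity)
  have hsum : (S0.card : ℝ) * c ≤ 1 := by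
    calc (S0.card : ℝ) * c = ∑ _f ∈ S0, c := by simp
      _ ≤ ∑ f ∈ S0, ((1 / 2 : ℝ) ^ (M.filter (fun i => P i f = none)).card
        * (1 - d) ^ (M.filter (fun i => P i f = some (f i))).card
        * (d / 2) ^ (M.filter (fun i => P i f ≠ none ∧ P i f ≠ some (f i))).card) :=
          Finset.sum_le_sum hle
      _ ≤ _ := Finset.sum_le_sum_of_subset_of_nonneg hS0 (fun f _ _ => by positivity)
      _ ≤ 1 := hk
  have hinv : (2 : ℝ) ^ A * (1 / (1 - d)) ^ M.card * (2 / d) ^ W = 1 / c := by
    rw [hc]
    have h2 : (1 / 2 : ℝ) ^ A = 1 / 2 ^ A := by rw [one_div_pow]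
    have h3 : (1 / (1 - d)) ^ M.card = 1 / (1 - d) ^ M.card := by rw [one_div_pow]
    have h4 : (2 / d) ^ W = 1 / (d / 2) ^ W := by
      rw [← one_div_pow, one_div_div]
    rw [h2, h3, h4]
    have p2 : ((1 : ℝ) - d) ^ M.card ≠ 0 := by positivity
    have p3 : ((d : ℝ) / 2) ^ W ≠ 0 := by positivity
    field_simp
  rw [hinv, le_div_iff₀ hcpos]
  exact hsum

end IT
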