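import Mathlib

/-!
# MP_da73da_co: words of rows, zero-jump units, the numbers `Z3 n`

A row word `w : List Bool` is read from the frontier `(0,r)-(0,r+1)`: the letter `false` at the
frontier `(p,r)-(q,r+1)` is the triangle `{(p,r),(p+1,r),(q,r+1)}` (base on the lower line), the letter
`true` is the triangle `{(p,r),(q,r+1),(q+1,r+1)}` (base on the upper line).
-/

set_option autoImplicit false

namespace Pool.Agent.IT

/-- for each letter `b` of the word (in order) the number of letters `!b` before it, plus `m` -/
def apx (b : Bool) : List Bool → ℕ → List ℕ
  | [], _ => []
  | c :: w, m => if c = b then m :: apx b w m else apx b w (m + 1)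

/-- words with `a` letters `false` and `b` letters `true` -/
def words (a b : ℕ) : Finset (List Bool) :=
  (List.replicate a false ++ List.replicate b true).permutations.toFinset

theorem mem_words {a b : ℕ} {w : List Bool} :
    w ∈ words a b ↔ w.count false = a ∧ w.count true = b := by
  simp only [words, List.mem_toFinset, List.mem_permutations]
  rw [List.perm_iff_count]
  constructor
  · intro h
    have h1 := h false
    have h2 := h true
    simp [List.count_append, List.count_replicate] at h1 h2
    exact ⟨h1, h2⟩
  · rintro ⟨h1, h2⟩ x
    cases x <;> simp [List.count_append, List.count_replicate, h1, h2]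

/-- zero-jump units of the line between the lower row `u` and the upper row `v`: the `i`-th unit
`[i,i+1]` has lower apex `(apx true u 0)[i]` and upper apex `(apx false v 0)[i]` -/
def zer (u v : List Bool) : Finset ℕ :=
  (Finset.range (u.count true)).filter
    (fun i => (apx true u 0).getD i 0 + (apx false v 0).getD i 0 = 2 * i + 1)

/-- number of pairs (triangulation of three rows, set of zero-jump units on the two inner lines) -/
def Z3 (n : ℕ) : ℕ :=
  ∑ p ∈ words n n ×ˢ (words n n ×ˢ words n n),
    2 ^ ((zer p.1 p.2.1).card + (zer p.2.1 p.2.2).card)

theorem length_apx (b : Bool) (w : List Bool) (m : ℕ) : (apx b w m).length = w.count b := by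
  induction w generalizing m with
  | nil => rfl
  | cons c w ih =>
    by_cases h : c = b
    · simp [apx, h, ih]
    · simp [apx, h, ih]

end Pool.Agent.IT
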