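import Pool.Agent.IT.LowerGeo

/-!
# MP_da73da_co: flips of zero-jump units of a row triangulation
-/

set_option autoImplicit false

namespace Pool.Agent.IT

namespace Low

variable {n : ℕ}

/-! ### Triangles are determined by their data -/

theorem pt_eq {a b c d : ℤ} : ((a, b) : Pt) = (c, d) ↔ a = c ∧ b = d := Prod.mk_inj

theorem dn_inj {r i m r' i' m' : ℕ} (h : dn r i m = dn r' i' m') : r = r' ∧ i = i' ∧ m = m' := by
  have h1 : ((i : ℤ), (r : ℤ)) ∈ dn r' i' m' := by rw [← h]; simp [dn]
  have h2 : ((i : ℤ) + 1, (r : ℤ)) ∈ dn r' i' m' := by rw [← h]; simp [dn]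
  have h3 : ((m : ℤ), (r : ℤ) + 1) ∈ dn r' i' m' := by rw [← h]; simp [dn]
  simp only [dn, Finset.mem_insert, Finset.mem_singleton, pt_eq] at h1 h2 h3
  omega

theorem up_inj {r i m r' i' m' : ℕ} (h : up r i m = up r' i' m') : r = r' ∧ i = i' ∧ m = m' := by
  have h1 : ((i : ℤ), (r : ℤ) + 1) ∈ up r' i' m' := by rw [← h]; simp [up]
  have h2 : ((i : ℤ) + 1, (r : ℤ) + 1) ∈ up r' i' m' := by rw [← h]; simp [up]
  have h3 : ((m : ℤ), (r : ℤ)) ∈ up r' i' m' := by rw [← h]; simp [up]
  simp only [up, Finset.mem_insert, Finset.mem_singleton, pt_eq] at h1 h2 h3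
  omega

theorem dn_ne_up {r i m r' i' m' : ℕ} : dn r i m ≠ up r' i' m' := by
  intro h
  have h1 : ((i : ℤ), (r : ℤ)) ∈ up r' i' m' := by rw [← h]; simp [dn]
  have h2 : ((i : ℤ) + 1, (r : ℤ)) ∈ up r' i' m' := by rw [← h]; simp [dn]
  have h3 : ((m : ℤ), (r : ℤ) + 1) ∈ up r' i' m' := by rw [← h]; simp [dn]
  simp only [up, Finset.mem_insert, Finset.mem_singleton, pt_eq] at h1 h2 h3
  omega

theorem nw_inj {r j a b r' j' a' b' : ℕ} (h : nw r j a b = nw r' j' a' b') :
    r = r' ∧ j = j' ∧ a = a' ∧ b = b' := by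
  have h1 : ((j : ℤ), (r : ℤ) + 1) ∈ nw r' j' a' b' := by rw [← h]; simp [nw]
  have h2 : ((a : ℤ), (r : ℤ)) ∈ nw r' j' a' b' := by rw [← h]; simp [nw]
  have h3 : ((b : ℤ), (r : ℤ) + 2) ∈ nw r' j' a' b' := by rw [← h]; simp [nw]
  simp only [nw, Finset.mem_insert, Finset.mem_singleton, pt_eq] at h1 h2 h3
  omega

theorem nw_ne_dn {r j a b r' i' m' : ℕ} : nw r j a b ≠ dn r' i' m' := by
  intro h
  have h2 : ((a : ℤ), (r : ℤ)) ∈ dn r' i' m' := by rw [← h]; simp [nw]
  have h3 : ((b : ℤ), (r : ℤ) + 2) ∈ dn r' i' m' := by rw [← h]; simp [nw]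
  simp only [dn, Finset.mem_insert, Finset.mem_singleton, pt_eq] at h2 h3
  omega

theorem nw_ne_up {r j a b r' i' m' : ℕ} : nw r j a b ≠ up r' i' m' := by
  intro h
  have h2 : ((a : ℤ), (r : ℤ)) ∈ up r' i' m' := by rw [← h]; simp [nw]
  have h3 : ((b : ℤ), (r : ℤ) + 2) ∈ up r' i' m' := by rw [← h]; simp [nw]
  simp only [up, Finset.mem_insert, Finset.mem_singleton, pt_eq] at h2 h3
  omega

/-! ### Flips -/

/-- lower apex of the unit `f = (r,i)`: the unit `[i,i+1]` of the line `y = r+1` -/
def lo (W : ℕ → List Bool) (f : ℕ × ℕ) : ℕ := A (W f.1) f.2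
/-- upper apex of the unit `f` -/
def hi (W : ℕ → List Bool) (f : ℕ × ℕ) : ℕ := B (W (f.1 + 1)) f.2

/-- the two triangles of a unit -/
def old (W : ℕ → List Bool) (f : ℕ × ℕ) : Finset (Finset Pt) :=
  {up f.1 f.2 (lo W f), dn (f.1 + 1) f.2 (hi W f)}

/-- the two triangles of a flipped unit -/
def new (W : ℕ → List Bool) (f : ℕ × ℕ) : Finset (Finset Pt) :=
  {nw f.1 f.2 (lo W f) (hi W f), nw f.1 (f.2 + 1) (lo W f) (hi W f)}

/-- zero-jump unit on an inner line -/
structure Zero (n : ℕ) (W : ℕ → List Bool) (f : ℕ × ℕ) : Prop where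
  row : f.1 + 1 < n
  unit : f.2 < n
  jump : lo W f + hi W f = 2 * f.2 + 1

/-- the triangulation with the units in `F` flipped -/
def tr (n : ℕ) (W : ℕ → List Bool) (F : Finset (ℕ × ℕ)) : Finset (Finset Pt) :=
  (base n W \ F.biUnion (old W)) ∪ F.biUnion (new W)

theorem tr_UT (hn : 0 < n) {W : ℕ → List Bool} (hW : ∀ r < n, W r ∈ words n n)
    (F : Finset (ℕ × ℕ)) : (∀ f ∈ F, Zero n W f) → UT n (tr n W F) := by
  induction F using Finset.induction_on with
  | empty =>
    intro _
    have : tr n W ∅ = base n W := by simp [tr]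
    rw [this]; exact base_UT hn hW
  | insert f F hf ih =>
    intro hF
    have hT := ih (fun g hg => hF g (Finset.mem_insert_of_mem hg))
    have hz := hF f (Finset.mem_insert_self _ _)
    obtain ⟨z1, z2, z3⟩ := hz
    set a := lo W f with ha
    set b := hi W f with hb
    set p : Pt := ((f.2 : ℤ) + 1, (f.1 : ℤ) + 1) with hp
    set q : Pt := ((f.2 : ℤ), (f.1 : ℤ) + 1) with hq
    set s : Pt := ((a : ℤ), (f.1 : ℤ)) with hs
    set z : Pt := ((b : ℤ), (f.1 : ℤ) + 1 + 1) with hz
    have eup : ({p, q, s} : Finset Pt) = up f.1 f.2 a := rfl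
    have edn : ({q, p, z} : Finset Pt) = dn (f.1 + 1) f.2 b := by
      simp only [dn, hq, hp, hz]; push_cast; rfl
    have hz' : z = ((b : ℤ), (f.1 : ℤ) + 2) := by rw [hz, add_assoc]; rfl
    -- the two triangles are present
    have hmem : ∀ t ∈ old W f, t ∈ tr n W F := by
      intro t ht
      have ht' := ht
      simp only [old, Finset.mem_insert, Finset.mem_singleton] at ht
      unfold tr
      rw [Finset.mem_union, Finset.mem_sdiff]
      left
      refine ⟨?_, ?_⟩
      · rw [mem_base hW]
        rcases ht with rfl | rfl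
        · exact ⟨f.1, by omega, Or.inr ⟨f.2, z2, rfl⟩⟩
        · exact ⟨f.1 + 1, z1, Or.inl ⟨f.2, z2, rfl⟩⟩
      · rw [Finset.mem_biUnion]
        rintro ⟨g, hg, hgt⟩
        apply hf
        have : f = g := by
          simp only [old, Finset.mem_insert, Finset.mem_singleton] at hgt
          rcases ht with rfl | rfl <;> rcases hgt with h | h
          · obtain ⟨h1, h2, _⟩ := up_inj h; exact Prod.ext h1 h2
          · exact absurd h.symm dn_ne_up
          · exact absurd h dn_ne_up
          · obtain ⟨h1, h2, _⟩ := dn_inj h; exact Prod.ext (by omega) h2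
        rw [this]; exact hg
    have m1 : Pos (tr n W F) p q s := by
      refine ⟨?_, det_up f.1 f.2 a⟩
      rw [eup]; exact hmem _ (by simp [old, ha])
    have m2 : Pos (tr n W F) q p z := by
      refine ⟨?_, ?_⟩
      · rw [edn]; exact hmem _ (by simp [old, hb])
      · have := det_dn (f.1 + 1) f.2 b
        simp only [det, hq, hp, hz] at this ⊢
        push_cast at this
        linarith
    have hj : (a : ℤ) + b = 2 * f.2 + 1 := by exact_mod_cast z3
    have hfl := hT.flip m1 m2 (by simp only [hs, hz, hp, hq]; linarith)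
      (by simp only [hs, hz, hp, hq]; ring)
    -- identify the result
    have enw : ({{z, q, s}, {s, p, z}} : Finset (Finset Pt)) = new W f := by
      have e1 : ({z, q, s} : Finset Pt) = nw f.1 f.2 a b := by
        ext x; simp only [nw, hz', hq, hs, Finset.mem_insert, Finset.mem_singleton]; tauto
      have e2 : ({s, p, z} : Finset Pt) = nw f.1 (f.2 + 1) a b := by
        ext x
        simp only [nw, hz', hp, hs, Finset.mem_insert, Finset.mem_singleton]
        push_cast; tauto
      rw [e1, e2, new, ha, hb]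
    have eold : ({{p, q, s}, {q, p, z}} : Finset (Finset Pt)) = old W f := by
      rw [eup, edn, old]
    rw [enw, eold] at hfl
    have hnd : Disjoint (F.biUnion (new W)) (old W f) := by
      rw [Finset.disjoint_left]
      intro t ht ht'
      rw [Finset.mem_biUnion] at ht
      obtain ⟨g, _, hg⟩ := ht
      simp only [old, new, Finset.mem_insert, Finset.mem_singleton] at hg ht'
      rcases hg with rfl | rfl <;> rcases ht' with h | h
      · exact nw_ne_up h
      · exact nw_ne_dn h
      · exact nw_ne_up h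
      · exact nw_ne_dn h
    have : tr n W (insert f F) = (tr n W F \ old W f) ∪ new W f := by
      unfold tr
      rw [Finset.biUnion_insert, Finset.biUnion_insert, Finset.union_sdiff_distrib,
        Finset.sdiff_eq_self_of_disjoint hnd, Finset.sdiff_sdiff_left', ← Finset.sdiff_union_distrib]
      ext t
      simp only [Finset.mem_union, Finset.mem_sdiff, Finset.mem_inter]
      tauto
    rw [this]; exact hfl

/-! ### Recovering the data -/

theorem mem_tr {W : ℕ → List Bool} (hW : ∀ r < n, W r ∈ words n n) {F : Finset (ℕ × ℕ)}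
    {t : Finset Pt} : t ∈ tr n W F ↔
      (∃ r < n, ∃ i < n, t = dn r i (B (W r) i) ∧ ∀ f ∈ F, ¬ (r = f.1 + 1 ∧ i = f.2)) ∨
      (∃ r < n, ∃ i < n, t = up r i (A (W r) i) ∧ (r, i) ∉ F) ∨
      (∃ f ∈ F, t = nw f.1 f.2 (lo W f) (hi W f) ∨ t = nw f.1 (f.2 + 1) (lo W f) (hi W f)) := by
  unfold tr
  rw [Finset.mem_union, Finset.mem_sdiff, mem_base hW, Finset.mem_biUnion, Finset.mem_biUnion]
  constructor
  · rintro (⟨⟨r, hr, ⟨i, hi', rfl⟩ | ⟨i, hi', rfl⟩⟩, h⟩ | ⟨f, hf, h⟩)
    · left
      refine ⟨r, hr, i, hi', rfl, ?_⟩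
      rintro f hf ⟨e1, e2⟩
      apply h
      refine ⟨f, hf, ?_⟩
      subst e1 e2
      simp [old, hi]
    · right; left
      refine ⟨r, hr, i, hi', rfl, ?_⟩
      intro hf
      exact h ⟨(r, i), hf, by simp [old, lo]⟩
    · right; right
      simp only [new, Finset.mem_insert, Finset.mem_singleton] at h
      exact ⟨f, hf, h⟩
  · rintro (⟨r, hr, i, hi', rfl, h⟩ | ⟨r, hr, i, hi', rfl, h⟩ | ⟨f, hf, h⟩)
    · left
      refine ⟨⟨r, hr, Or.inl ⟨i, hi', rfl⟩⟩, ?_⟩
      rintro ⟨f, hf, hft⟩
      simp only [old, Finset.mem_insert, Finset.mem_singleton] at hft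
      rcases hft with e | e
      · exact dn_ne_up e
      · obtain ⟨e1, e2, _⟩ := dn_inj e
        exact h f hf ⟨e1, e2⟩
    · left
      refine ⟨⟨r, hr, Or.inr ⟨i, hi', rfl⟩⟩, ?_⟩
      rintro ⟨f, hf, hft⟩
      simp only [old, Finset.mem_insert, Finset.mem_singleton] at hft
      rcases hft with e | e
      · obtain ⟨e1, e2, _⟩ := up_inj e
        apply h
        have : (r, i) = f := Prod.ext e1 e2
        rw [this]; exact hf
      · exact dn_ne_up e.symm
    · right
      refine ⟨f, hf, ?_⟩
      simp only [new, Finset.mem_insert, Finset.mem_singleton]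
      exact h

/-- unflipped upper units are seen in `T` -/
theorem up_mem_iff {W : ℕ → List Bool} (hW : ∀ r < n, W r ∈ words n n) {F : Finset (ℕ × ℕ)}
    {r i m : ℕ} (hr : r < n) (hi' : i < n) :
    up r i m ∈ tr n W F ↔ (r, i) ∉ F ∧ m = A (W r) i := by
  rw [mem_tr hW]
  constructor
  · rintro (⟨r', _, i', _, e, _⟩ | ⟨r', _, i', _, e, h⟩ | ⟨f, hf, e | e⟩)
    · exact absurd e.symm dn_ne_up
    · obtain ⟨rfl, rfl, rfl⟩ := up_inj e
      exact ⟨h, rfl⟩
    · exact absurd e.symm nw_ne_up
    · exact absurd e.symm nw_ne_up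
  · rintro ⟨h, rfl⟩
    right; left
    exact ⟨r, hr, i, hi', rfl, h⟩

/-- flipped units are seen in `T` -/
theorem nw_mem_iff {W : ℕ → List Bool} (hW : ∀ r < n, W r ∈ words n n) {F : Finset (ℕ × ℕ)}
    (hF : ∀ f ∈ F, Zero n W f) {r i a b : ℕ} (hab : a + b = 2 * i + 1) :
    nw r i a b ∈ tr n W F ↔ (r, i) ∈ F ∧ a = lo W (r, i) ∧ b = hi W (r, i) := by
  rw [mem_tr hW]
  constructor
  · rintro (⟨r', _, i', _, e, _⟩ | ⟨r', _, i', _, e, h⟩ | ⟨f, hf, e | e⟩)
    · exact absurd e nw_ne_dn
    · exact absurd e nw_ne_up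
    · obtain ⟨e1, e2, e3, e4⟩ := nw_inj e
      have : (r, i) = f := Prod.ext e1 e2
      rw [this]
      exact ⟨hf, e3, e4⟩
    · obtain ⟨e1, e2, e3, e4⟩ := nw_inj e
      have := (hF f hf).jump
      omega
  · rintro ⟨h, rfl, rfl⟩
    right; right
    exact ⟨(r, i), h, Or.inl rfl⟩

theorem tr_inj {W W' : ℕ → List Bool} (hW : ∀ r < n, W r ∈ words n n)
    (hW' : ∀ r < n, W' r ∈ words n n) {F F' : Finset (ℕ × ℕ)} (hF : ∀ f ∈ F, Zero n W f)
    (hF' : ∀ f ∈ F', Zero n W' f) (h : tr n W F = tr n W' F') :
    F = F' ∧ ∀ r < n, ∀ i < n, A (W r) i = A (W' r) i := by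
  have hFF : ∀ f, f ∈ F → f ∈ F' := by
    intro f hf
    have := (nw_mem_iff hW hF (r := f.1) (i := f.2) (hF f hf).jump).mpr ⟨hf, rfl, rfl⟩
    rw [h, nw_mem_iff hW' hF' (hF f hf).jump] at this
    exact this.1
  have hFF' : ∀ f, f ∈ F' → f ∈ F := by
    intro f hf
    have := (nw_mem_iff hW' hF' (r := f.1) (i := f.2) (hF' f hf).jump).mpr ⟨hf, rfl, rfl⟩
    rw [← h, nw_mem_iff hW hF (hF' f hf).jump] at this
    exact this.1
  refine ⟨Finset.ext fun f => ⟨hFF f, hFF' f⟩, ?_⟩
  intro r hr i hi'
  by_cases hf : (r, i) ∈ F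
  · have := (nw_mem_iff hW hF (r := r) (i := i) (hF _ hf).jump).mpr ⟨hf, rfl, rfl⟩
    rw [h, nw_mem_iff hW' hF' (hF _ hf).jump] at this
    exact this.2.1
  · have := (up_mem_iff hW (F := F) hr hi').mpr ⟨hf, rfl⟩
    rw [h, up_mem_iff hW' hr hi'] at this
    exact this.2

/-- a word is determined by its lower apexes -/
theorem word_ext : ∀ (w w' : List Bool) (m : ℕ), w.count false = w'.count false →
    w.count true = w'.count true →
    (∀ i < w.count true, (apx true w m).getD i 0 = (apx true w' m).getD i 0) → w = w' := by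
  have key : ∀ (w : List Bool) (m k : ℕ), (∀ i < w.count true, k ≤ (apx true w (m + k)).getD i 0) := by
    intro w
    induction w with
    | nil => intro m k i h; simp at h
    | cons c w ih =>
      intro m k i h
      cases c with
      | false =>
        rw [List.count_cons_of_ne (by decide)] at h
        have := ih (m + 1) k i h
        simp only [apx, Bool.false_eq_true, if_false]
        have e : m + k + 1 = m + 1 + k := by ring
        rw [e]; exact this
      | true =>
        rw [List.count_cons_self] at h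
        simp only [apx, if_true]
        rcases i with _ | i
        · simp
        · rw [List.getD_cons_succ]; exact ih m k i (by omega)
  have hge : ∀ (w : List Bool) (m : ℕ), ∀ i < w.count true, m ≤ (apx true w m).getD i 0 := by
    intro w m i hi'
    have := key w 0 m i hi'
    simpa using this
  intro w
  induction w with
  | nil =>
    intro w' m h1 h2 _
    cases w' with
    | nil => rfl
    | cons c w' => cases c <;> simp at h1 h2
  | cons c w ih =>
    intro w' m h1 h2 h3
    cases w' with
    | nil => cases c <;> simp at h1 h2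
    | cons c' w' =>
      cases c with
      | false =>
        cases c' with
        | false =>
          simp only [List.count_cons_self, List.count_cons_of_ne (by decide : false ≠ true)] at h1 h2 h3
          simp only [apx, Bool.false_eq_true, if_false] at h3
          rw [ih w' (m + 1) (by omega) h2 h3]
        | true =>
          exfalso
          simp only [List.count_cons_self, List.count_cons_of_ne (by decide : false ≠ true),
            List.count_cons_of_ne (by decide : true ≠ false)] at h1 h2 h3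
          have hpos : 0 < w.count true := by omega
          have := h3 0 hpos
          simp only [apx, Bool.false_eq_true, if_false, if_true, List.getD_cons_zero] at this
          have := hge w (m + 1) 0 hpos
          omega
      | true =>
        cases c' with
        | false =>
          exfalso
          simp only [List.count_cons_self, List.count_cons_of_ne (by decide : false ≠ true),
            List.count_cons_of_ne (by decide : true ≠ false)] at h1 h2 h3
          have hpos : 0 < w'.count true := by omega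
          have := h3 0 (by omega)
          simp only [apx, Bool.false_eq_true, if_false, if_true, List.getD_cons_zero] at this
          have := hge w' (m + 1) 0 hpos
          omega
        | true =>
          simp only [List.count_cons_self, List.count_cons_of_ne (by decide : true ≠ false)] at h1 h2 h3
          simp only [apx, if_true] at h3
          rw [ih w' m (by omega) (by omega) (by
            intro i hi'
            have := h3 (i + 1) (by omega)
            simpa [List.getD_cons_succ] using this)]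

theorem word_ext' {w w' : List Bool} (hw : w ∈ words n n) (hw' : w' ∈ words n n)
    (h : ∀ i < n, A w i = A w' i) : w = w' := by
  rw [mem_words] at hw hw'
  apply word_ext w w' 0 (by omega) (by omega)
  intro i hi'
  exact h i (by omega)

end Low

end Pool.Agent.IT
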