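import Pool.Agent.IT.Bridge
import Pool.Agent.IT.LowerDefs

/-!
# MP_da73da_co: triangulations of the square from row words and flips of zero-jump units

`base n W` is the triangulation whose row `r` is given by the word `W r`; `tr n W F` is obtained from it by
flipping the units in `F` (a set of pairs `(r, i)`: the unit `[i,i+1]` of the line `y = r+1`).
-/

set_option autoImplicit false

namespace Pool.Agent.IT

namespace Low

/-- triangle with base on the lower line of the row `r` -/
def dn (r i m : ℕ) : Finset Pt := {((i : ℤ), (r : ℤ)), ((i : ℤ) + 1, (r : ℤ)), ((m : ℤ), (r : ℤ) + 1)}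

/-- triangle with base on the upper line of the row `r` -/
def up (r i m : ℕ) : Finset Pt :=
  {((i : ℤ) + 1, (r : ℤ) + 1), ((i : ℤ), (r : ℤ) + 1), ((m : ℤ), (r : ℤ))}

/-- triangle with vertices on the lines `r`, `r+1`, `r+2` -/
def nw (r j a b : ℕ) : Finset Pt := {((j : ℤ), (r : ℤ) + 1), ((a : ℤ), (r : ℤ)), ((b : ℤ), (r : ℤ) + 2)}

/-- triangles of the row `r` given by a word, starting at the frontier `(p,r)-(q,r+1)` -/
def rowT (r : ℕ) : ℕ → ℕ → List Bool → Finset (Finset Pt)
  | _, _, [] => ∅
  | p, q, false :: w => insert (dn r p q) (rowT r (p + 1) q w)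
  | p, q, true :: w => insert (up r q p) (rowT r p (q + 1) w)

/-- signed horizontal distance to the frontier `(p,r)-(q,r+1)` -/
noncomputable def fr (r p q : ℕ) (x : ℝ × ℝ) : ℝ := x.1 - p - ((q : ℝ) - p) * (x.2 - r)

theorem det_dn (r i m : ℕ) :
    det ((i : ℤ), (r : ℤ)) ((i : ℤ) + 1, (r : ℤ)) ((m : ℤ), (r : ℤ) + 1) = 1 := by
  simp only [det]; ring

theorem det_up (r i m : ℕ) :
    det ((i : ℤ) + 1, (r : ℤ) + 1) ((i : ℤ), (r : ℤ) + 1) ((m : ℤ), (r : ℤ)) = 1 := by
  simp only [det]; ring

theorem mem_dn (r p q : ℕ) (x : ℝ × ℝ) :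
    x ∈ cell (dn r p q) ↔ (r : ℝ) ≤ x.2 ∧ fr r (p + 1) q x ≤ 0 ∧ 0 ≤ fr r p q x := by
  unfold dn
  rw [mem_cell_iff (det_dn r p q)]
  have e1 : dl ((p : ℤ), (r : ℤ)) ((p : ℤ) + 1, (r : ℤ)) x = x.2 - r := by
    simp only [dl]; push_cast; ring
  have e2 : dl ((p : ℤ) + 1, (r : ℤ)) ((q : ℤ), (r : ℤ) + 1) x = - fr r (p + 1) q x := by
    simp only [dl, fr]; push_cast; ring
  have e3 : dl ((q : ℤ), (r : ℤ) + 1) ((p : ℤ), (r : ℤ)) x = fr r p q x := by
    simp only [dl, fr]; push_cast; ring
  rw [e1, e2, e3]
  constructor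
  · rintro ⟨h1, h2, h3⟩; exact ⟨by linarith, by linarith, h3⟩
  · rintro ⟨h1, h2, h3⟩; exact ⟨by linarith, by linarith, h3⟩

theorem mem_int_dn (r p q : ℕ) (x : ℝ × ℝ) :
    x ∈ interior (cell (dn r p q)) ↔ (r : ℝ) < x.2 ∧ fr r (p + 1) q x < 0 ∧ 0 < fr r p q x := by
  unfold dn
  rw [mem_interior_cell_iff (det_dn r p q)]
  have e1 : dl ((p : ℤ), (r : ℤ)) ((p : ℤ) + 1, (r : ℤ)) x = x.2 - r := by
    simp only [dl]; push_cast; ring
  have e2 : dl ((p : ℤ) + 1, (r : ℤ)) ((q : ℤ), (r : ℤ) + 1) x = - fr r (p + 1) q x := by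
    simp only [dl, fr]; push_cast; ring
  have e3 : dl ((q : ℤ), (r : ℤ) + 1) ((p : ℤ), (r : ℤ)) x = fr r p q x := by
    simp only [dl, fr]; push_cast; ring
  rw [e1, e2, e3]
  constructor
  · rintro ⟨h1, h2, h3⟩; exact ⟨by linarith, by linarith, h3⟩
  · rintro ⟨h1, h2, h3⟩; exact ⟨by linarith, by linarith, h3⟩

theorem mem_up (r p q : ℕ) (x : ℝ × ℝ) :
    x ∈ cell (up r q p) ↔ x.2 ≤ (r : ℝ) + 1 ∧ fr r p (q + 1) x ≤ 0 ∧ 0 ≤ fr r p q x := by
  unfold up
  rw [mem_cell_iff (det_up r q p)]
  have e1 : dl ((q : ℤ) + 1, (r : ℤ) + 1) ((q : ℤ), (r : ℤ) + 1) x = (r : ℝ) + 1 - x.2 := by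
    simp only [dl]; push_cast; ring
  have e2 : dl ((q : ℤ), (r : ℤ) + 1) ((p : ℤ), (r : ℤ)) x = fr r p q x := by
    simp only [dl, fr]; push_cast; ring
  have e3 : dl ((p : ℤ), (r : ℤ)) ((q : ℤ) + 1, (r : ℤ) + 1) x = - fr r p (q + 1) x := by
    simp only [dl, fr]; push_cast; ring
  rw [e1, e2, e3]
  constructor
  · rintro ⟨h1, h2, h3⟩; exact ⟨by linarith, by linarith, h2⟩
  · rintro ⟨h1, h2, h3⟩; exact ⟨by linarith, by linarith, by linarith⟩

theorem mem_int_up (r p q : ℕ) (x : ℝ × ℝ) :
    x ∈ interior (cell (up r q p)) ↔ x.2 < (r : ℝ) + 1 ∧ fr r p (q + 1) x < 0 ∧ 0 < fr r p q x := by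
  unfold up
  rw [mem_interior_cell_iff (det_up r q p)]
  have e1 : dl ((q : ℤ) + 1, (r : ℤ) + 1) ((q : ℤ), (r : ℤ) + 1) x = (r : ℝ) + 1 - x.2 := by
    simp only [dl]; push_cast; ring
  have e2 : dl ((q : ℤ), (r : ℤ) + 1) ((p : ℤ), (r : ℤ)) x = fr r p q x := by
    simp only [dl, fr]; push_cast; ring
  have e3 : dl ((p : ℤ), (r : ℤ)) ((q : ℤ) + 1, (r : ℤ) + 1) x = - fr r p (q + 1) x := by
    simp only [dl, fr]; push_cast; ring
  rw [e1, e2, e3]
  constructor
  · rintro ⟨h1, h2, h3⟩; exact ⟨by linarith, by linarith, h2⟩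
  · rintro ⟨h1, h2, h3⟩; exact ⟨by linarith, by linarith, by linarith⟩

/-- all cells of the row lie in the strip, right of the frontier -/
theorem row_right (r : ℕ) (w : List Bool) : ∀ (p q : ℕ), ∀ t ∈ rowT r p q w, ∀ x ∈ cell t,
    (r : ℝ) ≤ x.2 ∧ x.2 ≤ (r : ℝ) + 1 ∧ 0 ≤ fr r p q x ∧
      fr r (p + w.count false) (q + w.count true) x ≤ 0 := by
  induction w with
  | nil => intro p q t ht; simp [rowT] at ht
  | cons c w ih =>
    intro p q t ht x hx
    cases c with
    | false =>
      rw [rowT, Finset.mem_insert] at ht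
      rcases ht with rfl | ht
      · rw [mem_dn] at hx
        obtain ⟨h1, h2, h3⟩ := hx
        have key : x.2 ≤ (r : ℝ) + 1 := by
          simp only [fr] at h2 h3; push_cast at h2; nlinarith
        refine ⟨h1, key, h3, ?_⟩
        simp only [List.count_cons_self, List.count_cons_of_ne (by decide : false ≠ true)]
        simp only [fr] at h2 ⊢
        push_cast at h2 ⊢
        have c1 : (0 : ℝ) ≤ (w.count false : ℝ) := Nat.cast_nonneg _
        have c2 : (0 : ℝ) ≤ (w.count true : ℝ) := Nat.cast_nonneg _
        nlinarith [mul_nonneg c1 (by linarith : (0:ℝ) ≤ r + 1 - x.2),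
          mul_nonneg c2 (by linarith : (0:ℝ) ≤ x.2 - r)]
      · obtain ⟨h1, h2, h3, h4⟩ := ih (p + 1) q t ht x hx
        refine ⟨h1, h2, ?_, ?_⟩
        · simp only [fr] at h3 ⊢; push_cast at h3; nlinarith
        · simp only [List.count_cons_self, List.count_cons_of_ne (by decide : false ≠ true)]
          have e : p + (w.count false + 1) = p + 1 + w.count false := by ring
          rw [e]; exact h4
    | true =>
      rw [rowT, Finset.mem_insert] at ht
      rcases ht with rfl | ht
      · rw [mem_up] at hx
        obtain ⟨h1, h2, h3⟩ := hx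
        have key : (r : ℝ) ≤ x.2 := by
          simp only [fr] at h2 h3; push_cast at h2; nlinarith
        refine ⟨key, h1, h3, ?_⟩
        simp only [List.count_cons_self, List.count_cons_of_ne (by decide : true ≠ false)]
        simp only [fr] at h2 ⊢
        push_cast at h2 ⊢
        have c1 : (0 : ℝ) ≤ (w.count false : ℝ) := Nat.cast_nonneg _
        have c2 : (0 : ℝ) ≤ (w.count true : ℝ) := Nat.cast_nonneg _
        nlinarith [mul_nonneg c1 (by linarith : (0:ℝ) ≤ r + 1 - x.2),
          mul_nonneg c2 (by linarith : (0:ℝ) ≤ x.2 - r)]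
      · obtain ⟨h1, h2, h3, h4⟩ := ih p (q + 1) t ht x hx
        refine ⟨h1, h2, ?_, ?_⟩
        · simp only [fr] at h3 ⊢; push_cast at h3; nlinarith
        · simp only [List.count_cons_self, List.count_cons_of_ne (by decide : true ≠ false)]
          have e : q + (w.count true + 1) = q + 1 + w.count true := by ring
          rw [e]; exact h4

theorem row_disj (r : ℕ) (w : List Bool) : ∀ (p q : ℕ), ∀ t ∈ rowT r p q w, ∀ s ∈ rowT r p q w,
    t ≠ s → Disjoint (interior (cell t)) (interior (cell s)) := by
  induction w with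
  | nil => intro p q t ht; simp [rowT] at ht
  | cons c w ih =>
    intro p q t ht s hs hts
    cases c with
    | false =>
      have key : ∀ s ∈ rowT r (p + 1) q w,
          Disjoint (interior (cell (dn r p q))) (interior (cell s)) := by
        intro s hs
        rw [Set.disjoint_left]
        intro x h1 h2
        rw [mem_int_dn] at h1
        have := (row_right r w (p + 1) q s hs x (interior_subset h2)).2.2.1
        linarith [h1.2.1]
      rw [rowT, Finset.mem_insert] at ht hs
      rcases ht with rfl | ht <;> rcases hs with rfl | hs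
      · exact absurd rfl hts
      · exact key s hs
      · exact (key t ht).symm
      · exact ih (p + 1) q t ht s hs hts
    | true =>
      have key : ∀ s ∈ rowT r p (q + 1) w,
          Disjoint (interior (cell (up r q p))) (interior (cell s)) := by
        intro s hs
        rw [Set.disjoint_left]
        intro x h1 h2
        rw [mem_int_up] at h1
        have := (row_right r w p (q + 1) s hs x (interior_subset h2)).2.2.1
        linarith [h1.2.1]
      rw [rowT, Finset.mem_insert] at ht hs
      rcases ht with rfl | ht <;> rcases hs with rfl | hs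
      · exact absurd rfl hts
      · exact key s hs
      · exact (key t ht).symm
      · exact ih p (q + 1) t ht s hs hts

theorem row_cover (r : ℕ) (w : List Bool) : ∀ (p q : ℕ) (x : ℝ × ℝ), (r : ℝ) ≤ x.2 →
    x.2 ≤ (r : ℝ) + 1 → 0 ≤ fr r p q x → w ≠ [] →
    fr r (p + w.count false) (q + w.count true) x ≤ 0 → ∃ t ∈ rowT r p q w, x ∈ cell t := by
  induction w with
  | nil => intro p q x _ _ _ h; exact absurd rfl h
  | cons c w ih =>
    intro p q x h1 h2 h3 _ h4
    cases c with
    | false =>
      by_cases h5 : fr r (p + 1) q x ≤ 0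
      · exact ⟨dn r p q, by simp [rowT], (mem_dn r p q x).mpr ⟨h1, h5, h3⟩⟩
      · push Not at h5
        simp only [List.count_cons_self, List.count_cons_of_ne (by decide : false ≠ true)] at h4
        have e : p + (w.count false + 1) = p + 1 + w.count false := by ring
        rw [e] at h4
        have hw : w ≠ [] := by
          rintro rfl
          simp at h4
          linarith
        obtain ⟨t, ht, hx⟩ := ih (p + 1) q x h1 h2 h5.le hw h4
        exact ⟨t, by rw [rowT]; exact Finset.mem_insert_of_mem ht, hx⟩
    | true =>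
      by_cases h5 : fr r p (q + 1) x ≤ 0
      · exact ⟨up r q p, by simp [rowT], (mem_up r p q x).mpr ⟨h2, h5, h3⟩⟩
      · push Not at h5
        simp only [List.count_cons_self, List.count_cons_of_ne (by decide : true ≠ false)] at h4
        have e : q + (w.count true + 1) = q + 1 + w.count true := by ring
        rw [e] at h4
        have hw : w ≠ [] := by
          rintro rfl
          simp at h4
          linarith
        obtain ⟨t, ht, hx⟩ := ih p (q + 1) x h1 h2 h5.le hw h4
        exact ⟨t, by rw [rowT]; exact Finset.mem_insert_of_mem ht, hx⟩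

/-- the triangles of a row by their units -/
theorem mem_row (r : ℕ) (w : List Bool) : ∀ (p q : ℕ) (t : Finset Pt), t ∈ rowT r p q w ↔
    (∃ i < w.count false, t = dn r (p + i) ((apx false w q).getD i 0)) ∨
    (∃ i < w.count true, t = up r (q + i) ((apx true w p).getD i 0)) := by
  induction w with
  | nil => intro p q t; simp [rowT]
  | cons c w ih =>
    intro p q t
    cases c with
    | false =>
      rw [rowT, Finset.mem_insert, ih (p + 1) q t]
      simp only [List.count_cons_self, List.count_cons_of_ne (by decide : false ≠ true), apx, if_true,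
        Bool.false_eq_true, if_false]
      constructor
      · rintro (rfl | ⟨i, hi, rfl⟩ | h)
        · left; exact ⟨0, by omega, by simp⟩
        · left; exact ⟨i + 1, by omega, by
            rw [List.getD_cons_succ]
            have : p + 1 + i = p + (i + 1) := by ring
            rw [this]⟩
        · right; exact h
      · rintro (⟨i, hi, rfl⟩ | h)
        · rcases i with _ | i
          · left; simp
          · right; left
            exact ⟨i, by omega, by
              rw [List.getD_cons_succ]
              have : p + 1 + i = p + (i + 1) := by ring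
              rw [this]⟩
        · right; right; exact h
    | true =>
      rw [rowT, Finset.mem_insert, ih p (q + 1) t]
      simp only [List.count_cons_self, List.count_cons_of_ne (by decide : true ≠ false), apx, if_true,
        Bool.true_eq_false, if_false]
      constructor
      · rintro (rfl | h | ⟨i, hi, rfl⟩)
        · right; exact ⟨0, by omega, by simp⟩
        · left; exact h
        · right; exact ⟨i + 1, by omega, by
            rw [List.getD_cons_succ]
            have : q + 1 + i = q + (i + 1) := by ring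
            rw [this]⟩
      · rintro (h | ⟨i, hi, rfl⟩)
        · right; left; exact h
        · rcases i with _ | i
          · left; simp
          · right; right
            exact ⟨i, by omega, by
              rw [List.getD_cons_succ]
              have : q + 1 + i = q + (i + 1) := by ring
              rw [this]⟩

theorem apx_le (b : Bool) (w : List Bool) : ∀ (m i : ℕ), i < w.count b →
    (apx b w m).getD i 0 ≤ m + w.count (!b) := by
  induction w with
  | nil => intro m i h; simp at h
  | cons c w ih =>
    intro m i h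
    by_cases hc : c = b
    · subst hc
      rw [List.count_cons_self] at h
      have hne : c ≠ !c := by cases c <;> decide
      rw [List.count_cons_of_ne hne]
      simp only [apx, if_true]
      rcases i with _ | i
      · simp
      · rw [List.getD_cons_succ]
        exact ih m i (by omega)
    · have hc' : c = !b := by cases c <;> cases b <;> simp_all
      simp only [apx, hc, if_false]
      rw [List.count_cons_of_ne hc] at h
      have := ih (m + 1) i h
      rw [← hc', List.count_cons_self, hc']
      omega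

/-- upper apex of the lower unit `i` -/
def B (w : List Bool) (i : ℕ) : ℕ := (apx false w 0).getD i 0
/-- lower apex of the upper unit `i` -/
def A (w : List Bool) (i : ℕ) : ℕ := (apx true w 0).getD i 0

variable {n : ℕ}

theorem A_le {w : List Bool} (hw : w ∈ words n n) {i : ℕ} (hi : i < n) : A w i ≤ n := by
  rw [mem_words] at hw
  have := apx_le true w 0 i (by omega)
  simp only [Bool.not_true] at this
  unfold A; omega

theorem B_le {w : List Bool} (hw : w ∈ words n n) {i : ℕ} (hi : i < n) : B w i ≤ n := by
  rw [mem_words] at hw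
  have := apx_le false w 0 i (by omega)
  simp only [Bool.not_false] at this
  unfold B; omega

/-- the triangulation by rows -/
def base (n : ℕ) (W : ℕ → List Bool) : Finset (Finset Pt) :=
  (Finset.range n).biUnion (fun r => rowT r 0 0 (W r))

theorem mem_base {W : ℕ → List Bool} (hW : ∀ r < n, W r ∈ words n n) {t : Finset Pt} :
    t ∈ base n W ↔ ∃ r < n, (∃ i < n, t = dn r i (B (W r) i)) ∨ (∃ i < n, t = up r i (A (W r) i)) := by
  simp only [base, Finset.mem_biUnion, Finset.mem_range]
  constructor
  · rintro ⟨r, hr, ht⟩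
    obtain ⟨c1, c2⟩ := mem_words.mp (hW r hr)
    rw [mem_row, c1, c2] at ht
    simp only [zero_add] at ht
    exact ⟨r, hr, ht⟩
  · rintro ⟨r, hr, ht⟩
    obtain ⟨c1, c2⟩ := mem_words.mp (hW r hr)
    refine ⟨r, hr, ?_⟩
    rw [mem_row, c1, c2]
    simp only [zero_add]
    exact ht

theorem base_UT (hn : 0 < n) {W : ℕ → List Bool} (hW : ∀ r < n, W r ∈ words n n) :
    UT n (base n W) := by
  refine ⟨?_, ?_, ?_⟩
  · intro t ht
    rw [mem_base hW] at ht
    obtain ⟨r, hr, ⟨i, hi, rfl⟩ | ⟨i, hi, rfl⟩⟩ := ht
    · have hb := B_le (hW r hr) hi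
      refine ⟨_, _, _, rfl, ?_, ?_⟩
      · intro p hp
        simp only [dn, Finset.mem_insert, Finset.mem_singleton] at hp
        rcases hp with rfl | rfl | rfl <;> refine ⟨?_, ?_, ?_, ?_⟩ <;> simp only <;> omega
      · have := det_dn r i (B (W r) i)
        simp only [det] at this
        rw [this]; norm_num
    · have hb := A_le (hW r hr) hi
      refine ⟨_, _, _, rfl, ?_, ?_⟩
      · intro p hp
        simp only [up, Finset.mem_insert, Finset.mem_singleton] at hp
        rcases hp with rfl | rfl | rfl <;> refine ⟨?_, ?_, ?_, ?_⟩ <;> simp only <;> omega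
      · have := det_up r i (A (W r) i)
        simp only [det] at this
        rw [this]; norm_num
  · intro t ht s hs hts
    simp only [base, Finset.mem_biUnion, Finset.mem_range] at ht hs
    obtain ⟨r, hr, ht⟩ := ht
    obtain ⟨r', hr', hs⟩ := hs
    by_cases e : r = r'
    · subst e
      exact row_disj r (W r) 0 0 t ht s hs hts
    · rw [Set.disjoint_left]
      intro x h1 h2
      have strict : ∀ (r : ℕ) (t : Finset Pt), t ∈ rowT r 0 0 (W r) → x ∈ interior (cell t) →
          (r : ℝ) < x.2 ∧ x.2 < (r : ℝ) + 1 := by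
        intro r t ht hx
        have hx' := row_right r (W r) 0 0 t ht x (interior_subset hx)
        rw [mem_row] at ht
        rcases ht with ⟨i, hi, rfl⟩ | ⟨i, hi, rfl⟩
        · rw [mem_int_dn] at hx
          refine ⟨hx.1, ?_⟩
          rcases hx'.2.1.lt_or_eq with h | h
          · exact h
          · exfalso
            obtain ⟨_, g1, g2⟩ := hx
            simp only [fr] at g1 g2
            rw [h] at g1 g2
            push_cast at g1
            nlinarith
        · rw [mem_int_up] at hx
          refine ⟨?_, hx.1⟩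
          rcases hx'.1.lt_or_eq with h | h
          · exact h
          · exfalso
            obtain ⟨_, g1, g2⟩ := hx
            simp only [fr] at g1 g2
            rw [← h] at g1 g2
            push_cast at g1
            nlinarith
      obtain ⟨a1, a2⟩ := strict r t ht h1
      obtain ⟨b1, b2⟩ := strict r' s hs h2
      have c1 : (r : ℝ) < r' + 1 := by linarith
      have c2 : (r' : ℝ) < r + 1 := by linarith
      have c1' : r < r' + 1 := by exact_mod_cast c1
      have c2' : r' < r + 1 := by exact_mod_cast c2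
      omega
  · ext x
    have hSq : x ∈ Set.Icc ((0 : ℝ), (0 : ℝ)) ((n : ℝ), (n : ℝ)) ↔
        0 ≤ x.1 ∧ x.1 ≤ n ∧ 0 ≤ x.2 ∧ x.2 ≤ n := mem_Sq
    rw [hSq]
    simp only [Set.mem_iUnion, exists_prop, base, Finset.mem_biUnion, Finset.mem_range]
    constructor
    · rintro ⟨t, ⟨r, hr, ht⟩, hx⟩
      obtain ⟨h1, h2, h3, h4⟩ := row_right r (W r) 0 0 t ht x hx
      obtain ⟨c1, c2⟩ := mem_words.mp (hW r hr)
      rw [c1, c2] at h4
      simp only [fr, zero_add] at h3 h4
      push_cast at h3
      have hr' : (r : ℝ) + 1 ≤ n := by exact_mod_cast hr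
      have hr0 : (0 : ℝ) ≤ r := Nat.cast_nonneg _
      refine ⟨by linarith, by linarith, by linarith, by linarith⟩
    · rintro ⟨h1, h2, h3, h4⟩
      obtain ⟨r, hr, g1, g2⟩ : ∃ r < n, (r : ℝ) ≤ x.2 ∧ x.2 ≤ (r : ℝ) + 1 := by
        rcases h4.lt_or_eq with h | h
        · refine ⟨⌊x.2⌋₊, ?_, Nat.floor_le h3, (Nat.lt_floor_add_one x.2).le⟩
          rw [Nat.floor_lt h3]; exact h
        · refine ⟨n - 1, by omega, ?_, ?_⟩
          · rw [h, Nat.cast_sub (by omega)]; push_cast; linarith
          · rw [h, Nat.cast_sub (by omega)]; push_cast; linarith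
      obtain ⟨c1, c2⟩ := mem_words.mp (hW r hr)
      obtain ⟨t, ht, hx⟩ := row_cover r (W r) 0 0 x g1 g2 (by simp [fr]; exact h1)
        (by rintro e; rw [e] at c1; simp at c1; omega)
        (by rw [c1, c2]; simp only [fr, zero_add]; linarith)
      exact ⟨t, ⟨r, hr, ht⟩, hx⟩

end Low

end Pool.Agent.IT
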