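import Pool.Agent.IT.Conn

/-!
# The triangles meeting the interior of a copy of the pattern region; flips inside it
-/

set_option autoImplicit false

namespace Pool.Agent.IT

open Filter Topology

variable {n : ℕ} {T : Finset (Finset Pt)}

theorem bary1' (p q r : Pt) (x : ℝ × ℝ) :
    (det p q r : ℝ) * x.1 = dl q r x * p.1 + dl r p x * q.1 + dl p q x * r.1 := by
  simp only [dl, det]; push_cast; ring

theorem bary2' (p q r : Pt) (x : ℝ × ℝ) :
    (det p q r : ℝ) * x.2 = dl q r x * p.2 + dl r p x * q.2 + dl p q x * r.2 := by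
  simp only [dl, det]; push_cast; ring

theorem isOpen_opn (a b c : Pt) : IsOpen (opn a b c) := by
  apply IsOpen.inter (isOpen_lt continuous_const (continuous_dl a b))
  apply IsOpen.inter (isOpen_lt continuous_const (continuous_dl b c))
    (isOpen_lt continuous_const (continuous_dl c a))

theorem convex_open_halfplane (p q : Pt) : Convex ℝ {x : ℝ × ℝ | 0 < dl p q x} := by
  intro x hx y hy a b ha hb hab
  simp only [Set.mem_ofPred_eq] at *
  have h : dl p q (a • x + b • y) = a * dl p q x + b * dl p q y := by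
    simp only [dl, Prod.fst_add, Prod.snd_add, Prod.smul_fst, Prod.smul_snd, smul_eq_mul]
    linear_combination (-(((q.1:ℝ) - p.1) * (-p.2) - ((q.2:ℝ) - p.2) * (-p.1))) * hab
  rw [h]
  rcases ha.lt_or_eq with ha' | ha'
  · have := mul_pos ha' hx
    have := mul_nonneg hb hy.le
    linarith
  · have hb1 : b = 1 := by linarith
    rw [← ha', hb1]
    linarith

theorem convex_opn (a b c : Pt) : Convex ℝ (opn a b c) :=
  (convex_open_halfplane a b).inter ((convex_open_halfplane b c).inter (convex_open_halfplane c a))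

theorem opn_sub {a b c : Pt} (hd : 0 < det a b c) (ha : InSq n a) (hb : InSq n b)
    (hc : InSq n c) : opn a b c ⊆ Sq n := by
  rintro x ⟨h1, h2, h3⟩
  have hd' : (0:ℝ) < det a b c := by exact_mod_cast hd
  have hs := dl_sum a b c x
  have e1 := bary1' a b c x
  have e2 := bary2' a b c x
  obtain ⟨a1, a2, a3, a4⟩ := ha
  obtain ⟨b1, b2, b3, b4⟩ := hb
  obtain ⟨c1, c2, c3, c4⟩ := hc
  have a1' : (0:ℝ) ≤ a.1 := by exact_mod_cast a1
  have a2' : (a.1:ℝ) ≤ n := by exact_mod_cast a2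
  have a3' : (0:ℝ) ≤ a.2 := by exact_mod_cast a3
  have a4' : (a.2:ℝ) ≤ n := by exact_mod_cast a4
  have b1' : (0:ℝ) ≤ b.1 := by exact_mod_cast b1
  have b2' : (b.1:ℝ) ≤ n := by exact_mod_cast b2
  have b3' : (0:ℝ) ≤ b.2 := by exact_mod_cast b3
  have b4' : (b.2:ℝ) ≤ n := by exact_mod_cast b4
  have c1' : (0:ℝ) ≤ c.1 := by exact_mod_cast c1
  have c2' : (c.1:ℝ) ≤ n := by exact_mod_cast c2
  have c3' : (0:ℝ) ≤ c.2 := by exact_mod_cast c3
  have c4' : (c.2:ℝ) ≤ n := by exact_mod_cast c4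
  rw [mem_Sq]
  refine ⟨?_, ?_, ?_, ?_⟩
  · have : 0 ≤ (det a b c : ℝ) * x.1 := by rw [e1]; positivity
    exact nonneg_of_mul_nonneg_right this hd'
  · have : (det a b c : ℝ) * x.1 ≤ (det a b c : ℝ) * n := by
      rw [e1, ← hs]
      nlinarith [mul_nonneg h2.le (by linarith : 0 ≤ (n:ℝ) - a.1),
        mul_nonneg h3.le (by linarith : 0 ≤ (n:ℝ) - b.1), mul_nonneg h1.le (by linarith : 0 ≤ (n:ℝ) - c.1)]
    exact le_of_mul_le_mul_left this hd'
  · have : 0 ≤ (det a b c : ℝ) * x.2 := by rw [e2]; positivity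
    exact nonneg_of_mul_nonneg_right this hd'
  · have : (det a b c : ℝ) * x.2 ≤ (det a b c : ℝ) * n := by
      rw [e2, ← hs]
      nlinarith [mul_nonneg h2.le (by linarith : 0 ≤ (n:ℝ) - a.2),
        mul_nonneg h3.le (by linarith : 0 ≤ (n:ℝ) - b.2), mul_nonneg h1.le (by linarith : 0 ≤ (n:ℝ) - c.2)]
    exact le_of_mul_le_mul_left this hd'

theorem det_fr (g : Pt × Pt × Pt) (x y z : Pt) :
    det (fr g x) (fr g y) (fr g z) = crs g.2.1 g.2.2 * det x y z := by
  simp only [det, fr, crs]; ring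

theorem mem_meetSet {g : Pt × Pt × Pt} {t : Finset Pt} :
    t ∈ meetSet T g ↔ t ∈ T ∧ (cell t ∩ opn (fr g (0, 0)) (fr g (3, 3)) (fr g (-3, 3))).Nonempty := by
  classical
  simp only [meetSet, Finset.mem_filter, MeetsQ]
  rfl

/-- The set of triangles meeting the interior of a copy of `Q` is dual-connected. -/
theorem conn_meetSet (hT : UT n T) {g : Pt × Pt × Pt} (hg : IsFrame n g) : Conn (meetSet T g) := by
  obtain ⟨h0, h1, h2, h3⟩ := hg
  apply hT.conn_of_convex (isOpen_opn _ _ _) (convex_opn _ _ _) (opn_sub _ h1 h2 h3) _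
    (fun t ht => (mem_meetSet.1 ht).1)
  · intro t
    exact mem_meetSet
  · rw [det_fr, h0]; norm_num [det]

end Pool.Agent.IT
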