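import Pool.Agent.IT.Insert
import Pool.Agent.IT.Frame

/-!
# The pattern: an irregular unimodular triangulation of `Q = conv {(0,0), (3,3), (-3,3)}`
-/

set_option autoImplicit false

namespace Pool.Agent.IT

/-- The 18 positively oriented triangles of the pattern. -/
def patt : List (Pt × Pt × Pt) :=
  [((-3, 3), (-2, 2), (0, 1)), ((-3, 3), (-1, 2), (-2, 3)), ((-3, 3), (0, 1), (-1, 2)),
   ((-2, 2), (-1, 1), (0, 1)), ((-2, 3), (-1, 2), (-1, 3)), ((-1, 1), (0, 0), (0, 1)),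
   ((-1, 2), (0, 1), (0, 2)), ((-1, 2), (0, 2), (0, 3)), ((-1, 2), (0, 3), (-1, 3)),
   ((0, 0), (1, 1), (1, 2)), ((0, 0), (1, 2), (0, 1)), ((0, 1), (1, 2), (0, 2)),
   ((0, 2), (1, 2), (3, 3)), ((0, 2), (1, 3), (0, 3)), ((0, 2), (2, 3), (1, 3)),
   ((0, 2), (3, 3), (2, 3)), ((1, 1), (2, 2), (1, 2)), ((1, 2), (2, 2), (3, 3))]

/-- The directed edges of the pattern. -/
def pattE : List (Pt × Pt) := patt.flatMap fun t => [(t.1, t.2.1), (t.2.1, t.2.2), (t.2.2, t.1)]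

theorem patt_det : ∀ t ∈ patt, det t.1 t.2.1 t.2.2 = 1 := by decide

theorem patt_length : patt.length = 18 := rfl

/-- closed region `Q` -/
def InQ (x : Pt) : Prop :=
  0 ≤ det (0, 0) (3, 3) x ∧ 0 ≤ det (3, 3) (-3, 3) x ∧ 0 ≤ det (-3, 3) (0, 0) x

instance (x : Pt) : Decidable (InQ x) := by unfold InQ; infer_instance

instance (a b p q : Pt) : Decidable (Ins.Cross a b p q) := by unfold Ins.Cross; infer_instance

theorem pattE_inQ : ∀ e ∈ pattE, InQ e.1 ∧ InQ e.2 := by decide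

theorem pattE_nc : ∀ e ∈ pattE, ∀ f ∈ pattE,
    ¬ Ins.Cross e.1 e.2 f.1 f.2 ∧ ¬ Ins.Cross e.1 e.2 f.2 f.1 := by decide +kernel

theorem pattE_prim : ∀ e ∈ pattE, IsCoprime (e.2.1 - e.1.1) (e.2.2 - e.1.2) := by
  intro e he
  have h : ∃ t ∈ patt, e = (t.1, t.2.1) ∨ e = (t.2.1, t.2.2) ∨ e = (t.2.2, t.1) := by
    simpa [pattE] using he
  obtain ⟨t, ht, h⟩ := h
  have hd := patt_det t ht
  obtain ⟨a, b, c⟩ := t
  rcases h with rfl | rfl | rfl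
  · refine ⟨c.2 - a.2, -(c.1 - a.1), ?_⟩
    simp only [det] at hd ⊢
    linarith
  · refine ⟨a.2 - b.2, -(a.1 - b.1), ?_⟩
    simp only [det] at hd ⊢
    linarith
  · refine ⟨b.2 - c.2, -(b.1 - c.1), ?_⟩
    simp only [det] at hd ⊢
    linarith

theorem patt_pos : ∀ t ∈ patt,
    0 < det (0, 0) (3, 3) t.1 + det (0, 0) (3, 3) t.2.1 + det (0, 0) (3, 3) t.2.2 ∧
    0 < det (3, 3) (-3, 3) t.1 + det (3, 3) (-3, 3) t.2.1 + det (3, 3) (-3, 3) t.2.2 ∧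
    0 < det (-3, 3) (0, 0) t.1 + det (-3, 3) (0, 0) t.2.1 + det (-3, 3) (0, 0) t.2.2 := by decide

theorem pattE_mem {t : Pt × Pt × Pt} (ht : t ∈ patt) :
    (t.1, t.2.1) ∈ pattE ∧ (t.2.1, t.2.2) ∈ pattE ∧ (t.2.2, t.1) ∈ pattE := by
  simp only [pattE, List.mem_flatMap]
  exact ⟨⟨t, ht, by simp⟩, ⟨t, ht, by simp⟩, ⟨t, ht, by simp⟩⟩

end Pool.Agent.IT
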