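import Pool.Agent.IT.Predict

/-!
# The counting theorem

If every triangulation of a family has at most `A` midpoints without a pattern, the family has at
most `2 ^ (A + ε n²)` members.
-/

set_option autoImplicit false

namespace Pool.Agent.IT

open Finset

variable {n : ℕ} {T T' : Finset (Finset Pt)}

/-- `s` has a pattern in `T`: a straight run of `r` earlier edges or an arithmetic progression of
`r` earlier rays ends at `s` -/
def HasPat (B : ℤ) (r : ℕ) (T : Finset (Finset Pt)) (s : Pt) : Prop :=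
  (∃ p q : Pt, lf B p < lf B q ∧ p + q = s ∧
    ∀ i : ℕ, 1 ≤ i → i ≤ r → IsEdge T (sh p (q - p) (-i)) (sh q (q - p) (-i))) ∨
  (∃ z c w : Pt, z + c = s ∧ (crs (c - z) w = 1 ∨ crs (c - z) w = -1) ∧ 0 < lf B w ∧
    ∀ i : ℕ, 1 ≤ i → i ≤ r → IsEdge T z (sh c w (-i)))

theorem hasPat_iff (hT : UT n T) {B : ℤ} (hB : (n : ℤ) < B) (r : ℕ) (s : Pt) :
    HasPat B r T s ↔ ((∃ pq, RunPat n B r s (ev B T) pq) ∨ (∃ t, APPat n B r s (ev B T) t)) := by
  unfold HasPat RunPat APPat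
  constructor
  · rintro (⟨p, q, h1, h2, h3⟩ | ⟨z, c, w, h1, h2, h3, h4⟩)
    · exact Or.inl ⟨(p, q), h1, h2, fun i hi hr => (isEdge_iff hT hB).1 (h3 i hi hr)⟩
    · exact Or.inr ⟨(z, c, w), h1, h2, h3, fun i hi hr => (isEdge_iff hT hB).1 (h4 i hi hr)⟩
  · rintro (⟨⟨p, q⟩, h1, h2, h3⟩ | ⟨⟨z, c, w⟩, h1, h2, h3, h4⟩)
    · exact Or.inl ⟨p, q, h1, h2, fun i hi hr => (isEdge_iff hT hB).2 (h3 i hi hr)⟩
    · exact Or.inr ⟨z, c, w, h1, h2, h3, fun i hi hr => (isEdge_iff hT hB).2 (h4 i hi hr)⟩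

theorem Prd_eq_none_iff (hT : UT n T) {B : ℤ} (hB : (n : ℤ) < B) (r : ℕ) (s : Pt) :
    Prd n B r s (ev B T) = none ↔ ¬ HasPat B r T s := by
  rw [hasPat_iff hT hB]
  unfold Prd
  split_ifs with h1 h2
  · simp [h1]
  · simp [h2]
  · simp only [h1, h2, or_self, not_false_eq_true]

open Classical in
theorem wrong_card (hT : UT n T) {B : ℤ} (hB : (n : ℤ) < B) (r : ℕ) :
    (r - 2) * ((Mid n).filter (fun s => Prd n B r s (ev B T) ≠ none ∧
      Prd n B r s (ev B T) ≠ some (ev B T s))).card ≤ 5 * (Mid n).card := by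
  have hsub : ((Mid n).filter (fun s => Prd n B r s (ev B T) ≠ none ∧
      Prd n B r s (ev B T) ≠ some (ev B T s))) ⊆ WrRun n B r (ev B T) ∪ WrAP n B r (ev B T) := by
    intro s hs
    obtain ⟨h1, h2, h3⟩ := Finset.mem_filter.1 hs
    by_cases h4 : ∃ pq, RunPat n B r s (ev B T) pq
    · exact Finset.mem_union_left _ (Finset.mem_filter.2 ⟨h1, h4, h3⟩)
    · refine Finset.mem_union_right _ (Finset.mem_filter.2 ⟨h1, h4, ?_, h3⟩)
      by_contra h5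
      apply h2
      rw [Prd_eq_none_iff hT hB, hasPat_iff hT hB]
      tauto
  have h1 := Finset.card_le_card hsub
  have h2 := Finset.card_union_le (WrRun n B r (ev B T)) (WrAP n B r (ev B T))
  have h3 := WrRun_card hT hB r
  have h4 := WrAP_card hT hB r
  calc (r - 2) * _ ≤ (r - 2) * ((WrRun n B r (ev B T)).card + (WrAP n B r (ev B T)).card) :=
        Nat.mul_le_mul_left _ (h1.trans h2)
    _ = (r - 2) * (WrRun n B r (ev B T)).card + (r - 2) * (WrAP n B r (ev B T)).card := by ring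
    _ ≤ r * (WrRun n B r (ev B T)).card + 4 * (Mid n).card :=
        Nat.add_le_add (Nat.mul_le_mul_right _ (Nat.sub_le _ _)) h4
    _ ≤ (Mid n).card + 4 * (Mid n).card := Nat.add_le_add_right h3 _
    _ = 5 * (Mid n).card := by ring

theorem Mid_card_le : (Mid n).card ≤ 9 * n ^ 2 := by
  rcases Nat.eq_zero_or_pos n with h | h
  · subst h
    have : Mid 0 = ∅ := by
      ext s
      rw [mem_Mid]
      simp only [Nat.cast_zero, mul_zero, Finset.notMem_empty, iff_false]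
      rintro ⟨h1, h2, h3⟩
      apply h3
      constructor <;> omega
    rw [this]; simp
  · refine (Finset.card_filter_le _ _).trans ?_
    rw [Finset.card_product, Int.card_Icc]
    have : (2 * (n : ℤ) + 1 - 0).toNat = 2 * n + 1 := by omega
    rw [this]
    nlinarith

open Classical in
theorem count_basic {B : ℤ} (hB : 2 * (n : ℤ) < B) (r : ℕ) (hr : 3 ≤ r) (d : ℝ) (hd0 : 0 < d)
    (hd1 : d < 1) (𝒮 : Finset (Finset (Finset Pt))) (h𝒮 : ∀ T ∈ 𝒮, UT n T) (A : ℕ)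
    (hA : ∀ T ∈ 𝒮, ((Mid n).filter (fun s => ¬ HasPat B r T s)).card ≤ A) :
    (𝒮.card : ℝ) ≤ 2 ^ A * (1 / (1 - d)) ^ (Mid n).card * (2 / d) ^ (5 * (Mid n).card / (r - 2)) := by
  have hB' : (n : ℤ) < B := by
    have : (0 : ℤ) ≤ n := Int.natCast_nonneg n
    linarith
  have hinj : Set.InjOn (ev B) (𝒮 : Set (Finset (Finset Pt))) := by
    intro T hT T' hT' he
    exact ev_injective (h𝒮 T hT) (h𝒮 T' hT') hB' (fun s _ => congrFun he s)
  have hcard : (𝒮.image (ev B)).card = 𝒮.card := Finset.card_image_of_injOn hinj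
  rw [← hcard]
  refine IT.kraft_count (lf B) (fun s f => Prd n B r s f) d hd0 hd1 (Mid n)
    (lf_injOn_Mid hB) (𝒮.image (ev B)) ?_ ?_ ?_ A (5 * (Mid n).card / (r - 2)) (𝒮.image (ev B))
    (Finset.Subset.refl _) ?_ ?_
  · intro f hf g hg h
    obtain ⟨T, hT, rfl⟩ := Finset.mem_image.1 hf
    obtain ⟨T', hT', rfl⟩ := Finset.mem_image.1 hg
    funext s
    by_cases hs : s ∈ Mid n
    · exact h s hs
    · rw [ev_eq_zero (h𝒮 T hT) hs, ev_eq_zero (h𝒮 T' hT') hs]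
  · intro s _ f g h
    exact Prd_congr h
  · intro s hs f _ O hO
    refine two_options hB' 𝒮 h𝒮 hs f O ?_
    intro x hx
    obtain ⟨g, hg, h1, h2⟩ := hO x hx
    obtain ⟨T, hT, rfl⟩ := Finset.mem_image.1 hg
    exact ⟨T, hT, h1, h2⟩
  · intro f hf
    obtain ⟨T, hT, rfl⟩ := Finset.mem_image.1 hf
    refine le_trans (Finset.card_le_card ?_) (hA T hT)
    intro s hs
    obtain ⟨h1, h2⟩ := Finset.mem_filter.1 hs
    exact Finset.mem_filter.2 ⟨h1, (Prd_eq_none_iff (h𝒮 T hT) hB' r s).1 h2⟩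
  · intro f hf
    obtain ⟨T, hT, rfl⟩ := Finset.mem_image.1 hf
    rw [Nat.le_div_iff_mul_le (by omega), mul_comm]
    exact wrong_card (h𝒮 T hT) hB' r

/-- **Counting theorem.** -/
theorem count_patterns (ε : ℝ) (hε : 0 < ε) : ∃ r : ℕ, 3 ≤ r ∧ ∀ r' : ℕ, r ≤ r' →
    ∀ n : ℕ, ∀ B : ℤ, 2 * (n : ℤ) < B →
    ∀ 𝒮 : Finset (Finset (Finset Pt)), (∀ T ∈ 𝒮, UT n T) → ∀ A : ℕ,
    (∀ T ∈ 𝒮, ∀ F : Finset Pt, F ⊆ Mid n → (∀ s ∈ F, ¬ HasPat B r' T s) → F.card ≤ A) →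
    (𝒮.card : ℝ) ≤ (2 : ℝ) ^ ((A : ℝ) + ε * (n : ℝ) ^ 2) := by
  -- choose `d` with `1 / (1 - d) ≤ 2 ^ (ε / 18)`
  obtain ⟨d, hd0, hd1, hd⟩ : ∃ d : ℝ, 0 < d ∧ d < 1 ∧ 1 / (1 - d) = (2 : ℝ) ^ (ε / 18) := by
    refine ⟨1 - (2 : ℝ) ^ (-(ε / 18)), ?_, ?_, ?_⟩
    · have : (2 : ℝ) ^ (-(ε / 18)) < 1 := Real.rpow_lt_one_of_one_lt_of_neg (by norm_num) (by linarith)
      linarith
    · have : (0 : ℝ) < (2 : ℝ) ^ (-(ε / 18)) := Real.rpow_pos_of_pos (by norm_num) _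
      linarith
    · rw [sub_sub_cancel, Real.rpow_neg (by norm_num), one_div, inv_inv]
  -- choose `r`
  obtain ⟨L, hL0, hL⟩ : ∃ L : ℝ, 0 < L ∧ 2 / d = (2 : ℝ) ^ L := by
    refine ⟨Real.logb 2 (2 / d), ?_, ?_⟩
    · apply Real.logb_pos (by norm_num)
      rw [lt_div_iff₀ hd0]; linarith
    · rw [Real.rpow_logb (by norm_num) (by norm_num) (by positivity)]
  obtain ⟨r0, hr0⟩ := exists_nat_gt (90 * L / ε)
  refine ⟨r0 + 3, by omega, ?_⟩
  intro r hr n B hB 𝒮 h𝒮 A hA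
  classical
  have hb := count_basic hB r (by omega) d hd0 hd1 𝒮 h𝒮 A (fun T hT => hA T hT _
    (Finset.filter_subset _ _) (fun s hs => (Finset.mem_filter.1 hs).2))
  refine hb.trans ?_
  rw [hd, hL, ← Real.rpow_natCast 2 A, ← Real.rpow_natCast ((2 : ℝ) ^ (ε / 18)) _,
    ← Real.rpow_natCast ((2 : ℝ) ^ L) _, ← Real.rpow_mul (by norm_num),
    ← Real.rpow_mul (by norm_num), ← Real.rpow_add (by norm_num), ← Real.rpow_add (by norm_num)]
  apply Real.rpow_le_rpow_of_exponent_le (by norm_num)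
  have hM : ((Mid n).card : ℝ) ≤ 9 * (n : ℝ) ^ 2 := by exact_mod_cast Mid_card_le (n := n)
  have h1 : ε / 18 * ((Mid n).card : ℝ) ≤ ε / 2 * (n : ℝ) ^ 2 := by nlinarith
  have hr2 : (0 : ℝ) < ((r - 2 : ℕ) : ℝ) := by
    have : 0 < r - 2 := by omega
    exact_mod_cast this
  have h2 : ((5 * (Mid n).card / (r - 2) : ℕ) : ℝ) ≤ 5 * ((Mid n).card : ℝ) / ((r - 2 : ℕ) : ℝ) := by
    have := @Nat.cast_div_le ℝ _ _ _ (5 * (Mid n).card) (r - 2)
    push_cast at this ⊢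
    exact this
  have hr3 : 90 * L / ε ≤ ((r - 2 : ℕ) : ℝ) := by
    have : r0 ≤ r - 2 := by omega
    have : (r0 : ℝ) ≤ ((r - 2 : ℕ) : ℝ) := by exact_mod_cast this
    linarith
  have h3 : L * ((5 * (Mid n).card / (r - 2) : ℕ) : ℝ) ≤ ε / 2 * (n : ℝ) ^ 2 := by
    calc L * ((5 * (Mid n).card / (r - 2) : ℕ) : ℝ)
        ≤ L * (5 * ((Mid n).card : ℝ) / ((r - 2 : ℕ) : ℝ)) := mul_le_mul_of_nonneg_left h2 hL0.le
      _ ≤ L * (5 * (9 * (n : ℝ) ^ 2) / ((r - 2 : ℕ) : ℝ)) := by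
          apply mul_le_mul_of_nonneg_left _ hL0.le
          apply div_le_div_of_nonneg_right _ hr2.le
          linarith
      _ ≤ ε / 2 * (n : ℝ) ^ 2 := by
          rw [← mul_div_assoc, div_le_iff₀ hr2]
          rw [div_le_iff₀ hε] at hr3
          nlinarith [sq_nonneg (n : ℝ)]
  linarith

end Pool.Agent.IT
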