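import Pool.Agent.IT.EdgeFn
import Pool.Agent.IT.Kraft

/-!
# The causal predictor: straight runs and generalised AP fans

At a doubled midpoint `s` the predictor guesses the edge continuing a straight run of `r` earlier edges,
or the edge continuing an arithmetic progression of `r` earlier rays of a vertex.  In every
triangulation there are at most `5 |Mid n| / (r - 2)` wrong guesses.
-/

set_option autoImplicit false

namespace Pool.Agent.IT

open Finset

variable {n : ℕ} {T T' : Finset (Finset Pt)}

/-- `p + k v` -/
def sh (p v : Pt) (k : ℤ) : Pt := (p.1 + k * v.1, p.2 + k * v.2)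

theorem lf_sh (B : ℤ) (p v : Pt) (k : ℤ) : lf B (sh p v k) = lf B p + k * lf B v := by
  simp only [lf, sh]; ring

/-- run pattern at `s` for the edge function `f`: the edge `pq.1 pq.2` continues a straight run -/
def RunPat (n : ℕ) (B : ℤ) (r : ℕ) (s : Pt) (f : Pt → Pt) (pq : Pt × Pt) : Prop :=
  lf B pq.1 < lf B pq.2 ∧ pq.1 + pq.2 = s ∧
    ∀ i : ℕ, 1 ≤ i → i ≤ r → EF n f (sh pq.1 (pq.2 - pq.1) (-i)) (sh pq.2 (pq.2 - pq.1) (-i))

/-- AP pattern at `s`: the ray from `z` to `c` continues an arithmetic progression of rays -/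
def APPat (n : ℕ) (B : ℤ) (r : ℕ) (s : Pt) (f : Pt → Pt) (t : Pt × Pt × Pt) : Prop :=
  t.1 + t.2.1 = s ∧ (crs (t.2.1 - t.1) t.2.2 = 1 ∨ crs (t.2.1 - t.1) t.2.2 = -1) ∧
    0 < lf B t.2.2 ∧ ∀ i : ℕ, 1 ≤ i → i ≤ r → EF n f t.1 (sh t.2.1 t.2.2 (-i))

/-- orientation by `lf` -/
def nrm (B : ℤ) (v : Pt) : Pt := if 0 < lf B v then v else -v

open Classical in
/-- the predictor -/
noncomputable def Prd (n : ℕ) (B : ℤ) (r : ℕ) (s : Pt) (f : Pt → Pt) : Option Pt :=
  if ∃ pq, RunPat n B r s f pq then
    some ((Classical.epsilon (RunPat n B r s f)).2 - (Classical.epsilon (RunPat n B r s f)).1)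
  else if ∃ t, APPat n B r s f t then
    some (nrm B ((Classical.epsilon (APPat n B r s f)).2.1
      - (Classical.epsilon (APPat n B r s f)).1))
  else none

theorem EF_congr {f g : Pt → Pt} {a b : Pt} {B : ℤ} {s : Pt}
    (h : ∀ k ∈ Mid n, lf B k < lf B s → f k = g k) (hl : lf B a + lf B b < lf B s) :
    EF n f a b ↔ EF n g a b := by
  unfold EF
  rw [← lf_add] at hl
  constructor
  · rintro ⟨h1, h2⟩
    rw [h _ h1 hl] at h2
    exact ⟨h1, h2⟩
  · rintro ⟨h1, h2⟩
    rw [← h _ h1 hl] at h2
    exact ⟨h1, h2⟩

theorem RunPat_congr {f g : Pt → Pt} {B : ℤ} {r : ℕ} {s : Pt}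
    (h : ∀ k ∈ Mid n, lf B k < lf B s → f k = g k) : RunPat n B r s f = RunPat n B r s g := by
  funext pq
  apply propext
  unfold RunPat
  refine and_congr_right fun h1 => and_congr_right fun h2 => ?_
  refine forall_congr' fun i => forall_congr' fun hi => forall_congr' fun _ => ?_
  refine EF_congr h ?_
  rw [lf_sh, lf_sh, ← h2, lf_add, lf_sub]
  have : (1 : ℤ) ≤ i := by exact_mod_cast hi
  nlinarith

theorem APPat_congr {f g : Pt → Pt} {B : ℤ} {r : ℕ} {s : Pt}
    (h : ∀ k ∈ Mid n, lf B k < lf B s → f k = g k) : APPat n B r s f = APPat n B r s g := by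
  funext t
  apply propext
  unfold APPat
  refine and_congr_right fun h1 => and_congr_right fun _ => and_congr_right fun h2 => ?_
  refine forall_congr' fun i => forall_congr' fun hi => forall_congr' fun _ => ?_
  refine EF_congr h ?_
  rw [lf_sh, ← h1, lf_add]
  have : (1 : ℤ) ≤ i := by exact_mod_cast hi
  nlinarith

theorem Prd_congr {f g : Pt → Pt} {B : ℤ} {r : ℕ} {s : Pt}
    (h : ∀ k ∈ Mid n, lf B k < lf B s → f k = g k) : Prd n B r s f = Prd n B r s g := by
  unfold Prd
  rw [RunPat_congr h, APPat_congr h]

/-- value of the edge function on an oriented edge -/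
theorem EF_value (hT : UT n T) {B : ℤ} (hB : (n : ℤ) < B) {a b : Pt} (h : EF n (ev B T) a b) :
    ev B T (a + b) = nrm B (b - a) ∧ lf B (b - a) ≠ 0 := by
  have hE : IsEdge T a b := (isEdge_iff hT hB).2 h
  have hne : lf B a ≠ lf B b := fun e => hE.ne (lf_injOn hB (hE.insq hT) (hE.symm.insq hT) e)
  refine ⟨?_, by rw [lf_sub]; intro e; exact hne (by linarith)⟩
  unfold nrm
  rw [lf_sub]
  split_ifs with h1
  · exact ev_eq hT hE (by linarith)
  · have : lf B b < lf B a := lt_of_le_of_ne (by linarith) (Ne.symm hne)
    rw [add_comm, ev_eq hT hE.symm this]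
    abel

open Classical in
/-- wrong run predictions -/
noncomputable def WrRun (n : ℕ) (B : ℤ) (r : ℕ) (f : Pt → Pt) : Finset Pt :=
  (Mid n).filter (fun s => (∃ pq, RunPat n B r s f pq) ∧ Prd n B r s f ≠ some (f s))

open Classical in
/-- wrong AP predictions -/
noncomputable def WrAP (n : ℕ) (B : ℤ) (r : ℕ) (f : Pt → Pt) : Finset Pt :=
  (Mid n).filter (fun s => (¬ ∃ pq, RunPat n B r s f pq) ∧ (∃ t, APPat n B r s f t) ∧
    Prd n B r s f ≠ some (f s))

theorem WrRun_card (hT : UT n T) {B : ℤ} (hB : (n : ℤ) < B) (r : ℕ) :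
    r * (WrRun n B r (ev B T)).card ≤ (Mid n).card := by
  classical
  set f := ev B T with hf
  set R : Pt → Pt × Pt := fun s => Classical.epsilon (RunPat n B r s f) with hR
  have hRspec : ∀ s ∈ WrRun n B r f, RunPat n B r s f (R s) ∧ f s ≠ (R s).2 - (R s).1 := by
    intro s hs
    obtain ⟨h1, h2, h3⟩ := Finset.mem_filter.1 hs
    refine ⟨Classical.epsilon_spec h2, ?_⟩
    intro h4
    apply h3
    unfold Prd
    rw [if_pos h2, h4]
  set u : Pt → Pt := fun s => (R s).2 - (R s).1 with hu
  -- the run edges
  have hrun : ∀ s ∈ WrRun n B r f, ∀ i : ℕ, 1 ≤ i → i ≤ r →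
      sh s (u s) (-2 * i) ∈ Mid n ∧ f (sh s (u s) (-2 * i)) = u s := by
    intro s hs i h1 h2
    obtain ⟨⟨hl, hsum, hE⟩, -⟩ := hRspec s hs
    have := hE i h1 h2
    have hval := (EF_value hT hB this).1
    have e : sh (R s).1 ((R s).2 - (R s).1) (-i) + sh (R s).2 ((R s).2 - (R s).1) (-i)
        = sh s (u s) (-2 * i) := by
      have hs1 := congrArg Prod.fst hsum
      have hs2 := congrArg Prod.snd hsum
      simp only [Prod.fst_add, Prod.snd_add] at hs1 hs2
      apply Prod.ext
      · simp only [sh, hu, Prod.fst_add, Prod.fst_sub]; rw [← hs1]; ring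
      · simp only [sh, hu, Prod.snd_add, Prod.snd_sub]; rw [← hs2]; ring
    rw [e] at hval
    refine ⟨by rw [← e]; exact this.1, ?_⟩
    have e2 : sh (R s).2 ((R s).2 - (R s).1) (-i) - sh (R s).1 ((R s).2 - (R s).1) (-i) = u s := by
      apply Prod.ext
      · simp only [sh, hu, Prod.fst_sub]; ring
      · simp only [sh, hu, Prod.snd_sub]; ring
    rw [e2] at hval
    rw [hf, hval]
    unfold nrm
    rw [if_pos]
    rw [lf_sub]; linarith
  have hinj : Set.InjOn (fun si : Pt × ℕ => sh si.1 (u si.1) (-2 * si.2))
      ((WrRun n B r f ×ˢ Finset.Icc 1 r : Finset (Pt × ℕ)) : Set (Pt × ℕ)) := by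
    -- a common point with `i < i'` is impossible
    have key : ∀ s ∈ WrRun n B r f, ∀ s' ∈ WrRun n B r f, ∀ i i' : ℕ, 1 ≤ i → i ≤ r → 1 ≤ i' →
        i' ≤ r → sh s (u s) (-2 * i) = sh s' (u s') (-2 * i') → ¬ i < i' := by
      intro s hs s' hs' i i' h1 h2 h1' h2' he hlt
      have hu1 := (hrun s hs i h1 h2).2
      have hu2 := (hrun s' hs' i' h1' h2').2
      rw [he, hu2] at hu1
      -- `u s' = u s`
      obtain ⟨j, hj⟩ : ∃ j : ℕ, i' = i + j := ⟨i' - i, by omega⟩
      have hj1 : 1 ≤ j := by omega
      have hj2 : j ≤ r := by omega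
      have h3 := hrun s' hs' j hj1 hj2
      have hs's : sh s' (u s') (-2 * j) = s := by
        have e1 := congrArg Prod.fst he
        have e2 := congrArg Prod.snd he
        simp only [sh, hu1, hj] at e1 e2
        push_cast at e1 e2
        apply Prod.ext
        · simp only [sh, hu1]; linarith
        · simp only [sh, hu1]; linarith
      rw [hs's] at h3
      exact (hRspec s hs).2 (h3.2.trans hu1)
    rintro ⟨s, i⟩ hs ⟨s', i'⟩ hs' he
    simp only [Finset.coe_product, Set.mem_prod, Finset.mem_coe, Finset.mem_Icc] at hs hs'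
    simp only at he
    obtain ⟨hs, h1, h2⟩ := hs
    obtain ⟨hs', h1', h2'⟩ := hs'
    have hii : i = i' := by
      rcases lt_trichotomy i i' with h | h | h
      · exact absurd h (key s hs s' hs' i i' h1 h2 h1' h2' he)
      · exact h
      · exact absurd h (key s' hs' s hs i' i h1' h2' h1 h2 he.symm)
    subst hii
    have hu1 := (hrun s hs i h1 h2).2
    have hu2 := (hrun s' hs' i h1' h2').2
    rw [he, hu2] at hu1
    have e1 := congrArg Prod.fst he
    have e2 := congrArg Prod.snd he
    simp only [sh, hu1] at e1 e2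
    have : s = s' := Prod.ext (by linarith) (by linarith)
    rw [this]
  have hcard := Finset.card_le_card_of_injOn (s := WrRun n B r f ×ˢ Finset.Icc 1 r) (t := Mid n)
    (fun si : Pt × ℕ => sh si.1 (u si.1) (-2 * si.2)) (by
      rintro ⟨s, i⟩ hs
      simp only [Finset.coe_product, Set.mem_prod, Finset.mem_coe, Finset.mem_Icc] at hs
      exact (hrun s hs.1 i hs.2.1 hs.2.2).1) hinj
  rw [Finset.card_product, Nat.card_Icc] at hcard
  rw [mul_comm]
  simpa using hcard

theorem lf_neg (B : ℤ) (v : Pt) : lf B (-v) = - lf B v := by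
  simp only [lf, Prod.fst_neg, Prod.snd_neg]; ring

theorem ray_unique {B : ℤ} {p q q' u : Pt} (hu : crs p u = 1) (h : crs p q = crs p q')
    (h1 : 0 < lf B q) (h2 : lf B q ≤ lf B p) (h1' : 0 < lf B q') (h2' : lf B q' ≤ lf B p) :
    q = q' := by
  have h0 : crs p (q - q') = 0 := by
    have : crs p (q - q') = crs p q - crs p q' := by
      simp only [crs, Prod.fst_sub, Prod.snd_sub]; ring
    rw [this, h]; ring
  have hk := eq_smul_of_crs hu h0
  set k := crs (q - q') u
  have e1 := congrArg Prod.fst hk
  have e2 := congrArg Prod.snd hk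
  simp only [Prod.fst_sub, Prod.snd_sub] at e1 e2
  have e : lf B q - lf B q' = k * lf B p := by
    simp only [lf]; linear_combination B * e1 + e2
  have hp : 0 < lf B p := lt_of_lt_of_le h1 h2
  have hk0 : k = 0 := by
    rcases lt_trichotomy k 0 with h3 | h3 | h3
    · have : k ≤ -1 := by omega
      nlinarith
    · exact h3
    · have : 1 ≤ k := by omega
      nlinarith
  rw [hk0] at e1 e2
  exact Prod.ext (by linarith) (by linarith)

theorem ray_unique' {B : ℤ} {p q q' u : Pt} (hu : crs p u = 1) (h : crs p q = crs p q')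
    (h1 : lf B q < 0) (h2 : lf B p ≤ lf B q) (h1' : lf B q' < 0) (h2' : lf B p ≤ lf B q') :
    q = q' := by
  have := ray_unique (B := B) (p := -p) (q := -q) (q' := -q') (u := -u)
    (by simp only [crs, Prod.fst_neg, Prod.snd_neg] at *; linarith)
    (by simp only [crs, Prod.fst_neg, Prod.snd_neg] at *; linarith)
    (by rw [lf_neg]; linarith) (by rw [lf_neg, lf_neg]; linarith)
    (by rw [lf_neg]; linarith) (by rw [lf_neg, lf_neg]; linarith)
  exact neg_injective this

theorem WrAP_card (hT : UT n T) {B : ℤ} (hB : (n : ℤ) < B) (r : ℕ) :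
    (r - 2) * (WrAP n B r (ev B T)).card ≤ 4 * (Mid n).card := by
  classical
  set f := ev B T with hf
  set W := WrAP n B r f with hW
  set t : Pt → Pt × Pt × Pt := fun s => Classical.epsilon (APPat n B r s f) with ht
  have htspec : ∀ s ∈ W, APPat n B r s f (t s) ∧ f s ≠ nrm B ((t s).2.1 - (t s).1) := by
    intro s hs
    obtain ⟨h1, h2, h3, h4⟩ := Finset.mem_filter.1 hs
    refine ⟨Classical.epsilon_spec h3, ?_⟩
    intro h5
    apply h4
    unfold Prd
    rw [if_neg h2, if_pos h3, h5]
  set z : Pt → Pt := fun s => (t s).1 with hz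
  set w : Pt → Pt := fun s => (t s).2.2 with hw
  set x : Pt → ℤ → Pt := fun s i => sh ((t s).2.1 - (t s).1) (w s) (-i) with hx
  have hsum : ∀ s ∈ W, s = z s + z s + x s 0 := by
    intro s hs
    have h := (htspec s hs).1.1
    have h1 := congrArg Prod.fst h
    have h2 := congrArg Prod.snd h
    simp only [Prod.fst_add, Prod.snd_add] at h1 h2
    apply Prod.ext
    · simp only [hz, hx, sh, Prod.fst_add, Prod.fst_sub]; rw [← h1]; ring
    · simp only [hz, hx, sh, Prod.snd_add, Prod.snd_sub]; rw [← h2]; ring
  have hw0 : ∀ s ∈ W, 0 < lf B (w s) := fun s hs => (htspec s hs).1.2.2.1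
  have hcr : ∀ s ∈ W, crs (x s 0) (w s) = 1 ∨ crs (x s 0) (w s) = -1 := by
    intro s hs
    have h := (htspec s hs).1.2.1
    have e : x s 0 = (t s).2.1 - (t s).1 := by
      apply Prod.ext <;> simp [hx, sh]
    rw [e]; exact h
  have hE : ∀ s ∈ W, ∀ i : ℕ, 1 ≤ i → i ≤ r → EF n f (z s) (z s + x s i) := by
    intro s hs i h1 h2
    have h := (htspec s hs).1.2.2.2 i h1 h2
    have e : sh (t s).2.1 (t s).2.2 (-(i:ℤ)) = z s + x s i := by
      apply Prod.ext
      · simp only [hz, hx, hw, sh, Prod.fst_add, Prod.fst_sub]; ring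
      · simp only [hz, hx, hw, sh, Prod.snd_add, Prod.snd_sub]; ring
    rw [e] at h; exact h
  have hlf : ∀ s, ∀ i : ℤ, lf B (x s (i + 1)) = lf B (x s i) - lf B (w s) := by
    intro s i
    simp only [hx]
    rw [lf_sh, lf_sh]; ring
  have hlf0 : ∀ s ∈ W, ∀ i : ℕ, 1 ≤ i → i ≤ r → lf B (x s i) ≠ 0 := by
    intro s hs i h1 h2
    have := (EF_value hT hB (hE s hs i h1 h2)).2
    rwa [add_sub_cancel_left] at this
  have hunit : ∀ s ∈ W, ∀ i : ℕ, 1 ≤ i → i ≤ r → ∃ u, crs (x s i) u = 1 := by
    intro s hs i h1 h2
    have hEd : IsEdge T (z s) (z s + x s i) := (isEdge_iff hT hB).2 (hE s hs i h1 h2)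
    obtain ⟨u, hu⟩ := hEd.exists_unit
    refine ⟨u - z s, ?_⟩
    rw [← hu]
    simp only [crs, det, Prod.fst_add, Prod.snd_add, Prod.fst_sub, Prod.snd_sub]; ring
  -- good pairs
  set good : Pt × ℕ → Prop := fun si =>
    (0 < lf B (x si.1 si.2) ∧ 0 < lf B (x si.1 (si.2 + 1))) ∨
      (lf B (x si.1 si.2) < 0 ∧ lf B (x si.1 (si.2 + 1)) < 0) with hgood
  set U := W ×ˢ Finset.Icc 1 (r - 1) with hU
  set G := U.filter good with hG
  set Bd := U.filter (fun si => ¬ good si) with hBd
  have hUcard : U.card = W.card * (r - 1) := by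
    rw [hU, Finset.card_product, Nat.card_Icc]; simp
  have hsplit : G.card + Bd.card = U.card := Finset.card_filter_add_card_filter_not _
  have hmono : ∀ s ∈ W, ∀ i j : ℕ, i ≤ j → lf B (x s j) ≤ lf B (x s i) := by
    intro s hs i j hij
    induction j, hij using Nat.le_induction with
    | base => exact le_rfl
    | succ j _ ih =>
      have := hlf s (j : ℤ)
      push_cast
      rw [this]
      have := hw0 s hs
      linarith
  have hBdcard : Bd.card ≤ W.card := by
    refine Finset.card_le_card_of_injOn (fun si : Pt × ℕ => si.1) ?_ ?_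
    · rintro ⟨s, i⟩ hs
      have := (Finset.mem_filter.1 (Finset.mem_coe.1 hs)).1
      exact (Finset.mem_product.1 this).1
    · have bad : ∀ s i, (s, i) ∈ Bd → s ∈ W ∧ 0 < lf B (x s i) ∧ lf B (x s (i + 1)) < 0 := by
        intro s i hs
        obtain ⟨h1, h2⟩ := Finset.mem_filter.1 hs
        obtain ⟨h3, h4⟩ := Finset.mem_product.1 h1
        simp only at h3 h4
        obtain ⟨h5, h6⟩ := Finset.mem_Icc.1 h4
        have n1 := hlf0 s h3 i h5 (by omega)
        have n2 := hlf0 s h3 (i + 1) (by omega) (by omega)
        push_cast at n2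
        have m := hlf s i
        have w0 := hw0 s h3
        simp only [hgood] at h2
        push Not at h2
        refine ⟨h3, ?_, ?_⟩
        · by_contra hc
          push Not at hc
          have l1 : lf B (x s i) < 0 := lt_of_le_of_ne hc n1
          have l2 := h2.2 l1
          linarith
        · by_contra hc
          push Not at hc
          have l1 : 0 < lf B (x s (i + 1)) := lt_of_le_of_ne hc (Ne.symm n2)
          have l2 : lf B (x s i) ≤ 0 := by
            by_contra hd
            push Not at hd
            have := h2.1 hd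
            linarith
          linarith
      rintro ⟨s, i⟩ hs ⟨s', i'⟩ hs' he
      simp only at he
      subst he
      obtain ⟨hsW, b1, b2⟩ := bad s i (Finset.mem_coe.1 hs)
      obtain ⟨-, c1, c2⟩ := bad s i' (Finset.mem_coe.1 hs')
      have : i = i' := by
        rcases lt_trichotomy i i' with h | h | h
        · have := hmono s hsW (i + 1) i' h
          push_cast at this
          linarith
        · exact h
        · have := hmono s hsW (i' + 1) i h
          push_cast at this
          linarith
      rw [this]
  -- the injection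
  set P : Pt × ℕ → Pt := fun si => if 0 < lf B (x si.1 si.2) then x si.1 si.2
    else x si.1 (si.2 + 1) with hP
  set Q : Pt × ℕ → Pt := fun si => if 0 < lf B (x si.1 si.2) then x si.1 (si.2 + 1)
    else x si.1 si.2 with hQ
  have hsucc : ∀ s, ∀ i : ℤ, x s i = x s (i + 1) + w s := by
    intro s i
    apply Prod.ext
    · simp only [hx, sh, Prod.fst_add]; ring
    · simp only [hx, sh, Prod.snd_add]; ring
  have hx0 : ∀ s, ∀ i : ℤ, x s 0 = sh (x s i) (w s) i := by
    intro s i
    apply Prod.ext
    · simp only [hx, sh]; ring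
    · simp only [hx, sh]; ring
  have hcri : ∀ s, ∀ i : ℤ, crs (x s i) (w s) = crs (x s 0) (w s) := by
    intro s i
    rw [hx0 s i]
    simp only [crs, sh]; ring
  have hmemG : ∀ s i, (s, i) ∈ G → s ∈ W ∧ 1 ≤ i ∧ i + 1 ≤ r ∧ good (s, i) := by
    intro s i hs
    obtain ⟨h1, h2⟩ := Finset.mem_filter.1 hs
    obtain ⟨h3, h4⟩ := Finset.mem_product.1 h1
    simp only at h3 h4
    obtain ⟨h5, h6⟩ := Finset.mem_Icc.1 h4
    exact ⟨h3, h5, by omega, h2⟩
  have hEP : ∀ s i, (s, i) ∈ G → EF n f (z s) (z s + P (s, i)) := by
    intro s i hs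
    obtain ⟨h1, h2, h3, -⟩ := hmemG s i hs
    simp only [hP]
    split_ifs
    · exact hE s h1 i h2 (by omega)
    · have := hE s h1 (i + 1) (by omega) h3
      push_cast at this
      exact this
  have hPu : ∀ s i, (s, i) ∈ G → ∃ u, crs (P (s, i)) u = 1 := by
    intro s i hs
    obtain ⟨h1, h2, h3, -⟩ := hmemG s i hs
    simp only [hP]
    split_ifs
    · exact hunit s h1 i h2 (by omega)
    · have := hunit s h1 (i + 1) (by omega) h3
      push_cast at this
      exact this
  have hGcard : G.card ≤ 4 * (Mid n).card := by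
    have hc := Finset.card_le_card_of_injOn (s := G)
      (t := Mid n ×ˢ (Finset.univ : Finset (Bool × Bool)))
      (fun si : Pt × ℕ => (z si.1 + (z si.1 + P si),
        (decide (0 < lf B (P si)), decide (crs (P si) (Q si) = 1)))) ?_ ?_
    · rw [Finset.card_product] at hc
      have : (Finset.univ : Finset (Bool × Bool)).card = 4 := by decide
      rw [this] at hc
      linarith
    · rintro ⟨s, i⟩ hs
      have := hEP s i (Finset.mem_coe.1 hs)
      simp only [Finset.coe_product, Finset.coe_univ, Set.mem_prod, Set.mem_univ, and_true,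
        Finset.mem_coe]
      exact this.1
    · rintro ⟨s, i⟩ hs ⟨s', i'⟩ hs' he
      have hs := Finset.mem_coe.1 hs
      have hs' := Finset.mem_coe.1 hs'
      simp only [Prod.mk.injEq, decide_eq_decide] at he
      obtain ⟨he1, he2, he3⟩ := he
      obtain ⟨a1, a2, a3, a4⟩ := hmemG s i hs
      obtain ⟨b1, b2, b3, b4⟩ := hmemG s' i' hs'
      have ew := hw0 s a1
      have ew' := hw0 s' b1
      have el := hlf s i
      have el' := hlf s' i'
      have c1 := hcr s a1
      have c1' := hcr s' b1
      -- the sign of `P`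
      have sgn : ∀ s i, (s, i) ∈ G → (0 < lf B (P (s, i)) ↔ 0 < lf B (x s i)) := by
        intro s i hs
        obtain ⟨h1, h2, h3, h4⟩ := hmemG s i hs
        simp only [hP]
        split_ifs with h
        · exact Iff.rfl
        · constructor
          · intro h5
            rcases h4 with h6 | h6
            · exact h6.1
            · exact absurd h5 (not_lt.2 h6.2.le)
          · intro h5; exact absurd h5 h
      have sg := sgn s i hs
      have sg' := sgn s' i' hs'
      -- `z = z'` and `P = P'`
      have hzP : z s = z s' ∧ P (s, i) = P (s', i') := by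
        have E1 : IsEdge T (z s) (z s + P (s, i)) := (isEdge_iff hT hB).2 (hEP s i hs)
        have E2 : IsEdge T (z s') (z s' + P (s', i')) := (isEdge_iff hT hB).2 (hEP s' i' hs')
        have g1 := congrArg Prod.fst he1
        have g2 := congrArg Prod.snd he1
        rcases E1.eq_of_mid hT E2 g1 g2 with ⟨k1, k2⟩ | ⟨k1, k2⟩
        · refine ⟨k1, ?_⟩
          rw [k1] at k2
          exact add_left_cancel k2
        · exfalso
          -- opposite orientation
          have : P (s', i') = - P (s, i) := by
            rw [k1, add_assoc] at k2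
            have : P (s', i') + P (s, i) = 0 := by
              have := add_left_cancel (k2.trans (add_zero _).symm)
              exact this
            exact eq_neg_of_add_eq_zero_left this
          rw [this, lf_neg] at he2
          have n1 := (EF_value hT hB (hEP s i hs)).2
          rw [add_sub_cancel_left] at n1
          rcases lt_or_gt_of_ne n1 with h | h
          · have := he2.2 (by linarith)
            linarith
          · have := he2.1 h
            linarith
      obtain ⟨hzz, hPP⟩ := hzP
      -- crs values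
      have crv : ∀ s i, (s, i) ∈ G → crs (P (s, i)) (Q (s, i)) = 1 ∨
          crs (P (s, i)) (Q (s, i)) = -1 := by
        intro s i hs
        obtain ⟨h1, h2, h3, h4⟩ := hmemG s i hs
        have c := hcri s (i + 1)
        have e := hsucc s i
        simp only [hP, hQ]
        split_ifs with h
        · have : crs (x s i) (x s (i + 1)) = - crs (x s (i + 1)) (w s) := by
            rw [e]; simp only [crs, Prod.fst_add, Prod.snd_add]; ring
          rw [this, c]
          rcases hcr s h1 with h | h <;> rw [h] <;> norm_num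
        · have : crs (x s (i + 1)) (x s i) = crs (x s (i + 1)) (w s) := by
            rw [e]; simp only [crs, Prod.fst_add, Prod.snd_add]; ring
          rw [this, c]
          rcases hcr s h1 with h | h <;> rw [h] <;> norm_num
      have hcc : crs (P (s, i)) (Q (s, i)) = crs (P (s', i')) (Q (s', i')) := by
        have v1 := crv s i hs
        have v2 := crv s' i' hs'
        rcases v1 with h | h <;> rcases v2 with h' | h'
        · rw [h, h']
        · exfalso
          have := he3.1 h
          omega
        · exfalso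
          have := he3.2 h'
          omega
        · rw [h, h']
      have hQQ : Q (s, i) = Q (s', i') := by
        obtain ⟨u, hu⟩ := hPu s i hs
        rw [← hPP] at hcc
        by_cases hpos : 0 < lf B (x s i)
        · have hpos' : 0 < lf B (x s' i') := sg'.1 (he2.1 (sg.2 hpos))
          have q1 : 0 < lf B (x s (i + 1)) := by
            rcases a4 with h | h
            · exact h.2
            · exact absurd hpos (not_lt.2 h.1.le)
          have q1' : 0 < lf B (x s' (i' + 1)) := by
            rcases b4 with h | h
            · exact h.2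
            · exact absurd hpos' (not_lt.2 h.1.le)
          have eP : P (s, i) = x s i := by simp only [hP]; rw [if_pos hpos]
          have eP' : P (s', i') = x s' i' := by simp only [hP]; rw [if_pos hpos']
          have eQ : Q (s, i) = x s (i + 1) := by simp only [hQ]; rw [if_pos hpos]
          have eQ' : Q (s', i') = x s' (i' + 1) := by simp only [hQ]; rw [if_pos hpos']
          refine ray_unique (B := B) hu hcc ?_ ?_ ?_ ?_
          · rw [eQ]; exact q1
          · rw [eQ, eP]; linarith
          · rw [eQ']; exact q1'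
          · rw [eQ', hPP, eP']; linarith
        · have hpos' : ¬ 0 < lf B (x s' i') := fun h => hpos (sg.1 (he2.2 (sg'.2 h)))
          have q1 : lf B (x s i) < 0 := by
            rcases a4 with h | h
            · exact absurd h.1 hpos
            · exact h.1
          have q1' : lf B (x s' i') < 0 := by
            rcases b4 with h | h
            · exact absurd h.1 hpos'
            · exact h.1
          have eP : P (s, i) = x s (i + 1) := by simp only [hP]; rw [if_neg hpos]
          have eP' : P (s', i') = x s' (i' + 1) := by simp only [hP]; rw [if_neg hpos']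
          have eQ : Q (s, i) = x s i := by simp only [hQ]; rw [if_neg hpos]
          have eQ' : Q (s', i') = x s' i' := by simp only [hQ]; rw [if_neg hpos']
          refine ray_unique' (B := B) hu hcc ?_ ?_ ?_ ?_
          · rw [eQ]; exact q1
          · rw [eQ, eP]; linarith
          · rw [eQ']; exact q1'
          · rw [eQ', hPP, eP']; linarith
      -- `x s i = x s' i'` and `w s = w s'`
      have hxw : x s i = x s' i' ∧ w s = w s' := by
        by_cases hpos : 0 < lf B (x s i)
        · have hpos' : 0 < lf B (x s' i') := sg'.1 (he2.1 (sg.2 hpos))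
          have eP : P (s, i) = x s i := by simp only [hP]; rw [if_pos hpos]
          have eP' : P (s', i') = x s' i' := by simp only [hP]; rw [if_pos hpos']
          have eQ : Q (s, i) = x s (i + 1) := by simp only [hQ]; rw [if_pos hpos]
          have eQ' : Q (s', i') = x s' (i' + 1) := by simp only [hQ]; rw [if_pos hpos']
          rw [eP, eP'] at hPP
          rw [eQ, eQ'] at hQQ
          refine ⟨hPP, ?_⟩
          have e := hsucc s i
          have e' := hsucc s' i'
          rw [hPP, hQQ, e'] at e
          exact (add_left_cancel e).symm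
        · have hpos' : ¬ 0 < lf B (x s' i') := fun h => hpos (sg.1 (he2.2 (sg'.2 h)))
          have eP : P (s, i) = x s (i + 1) := by simp only [hP]; rw [if_neg hpos]
          have eP' : P (s', i') = x s' (i' + 1) := by simp only [hP]; rw [if_neg hpos']
          have eQ : Q (s, i) = x s i := by simp only [hQ]; rw [if_neg hpos]
          have eQ' : Q (s', i') = x s' i' := by simp only [hQ]; rw [if_neg hpos']
          rw [eP, eP'] at hPP
          rw [eQ, eQ'] at hQQ
          refine ⟨hQQ, ?_⟩
          have e := hsucc s i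
          have e' := hsucc s' i'
          rw [hPP, hQQ, e'] at e
          exact (add_left_cancel e).symm
      obtain ⟨hxx, hww⟩ := hxw
      -- final: a later member of one progression is a wrong prediction of the other
      have key : ∀ s s' : Pt, ∀ i i' : ℕ, s ∈ W → s' ∈ W → 1 ≤ i → i' + 1 ≤ r → z s = z s' →
          x s i = x s' i' → w s = w s' → ¬ i < i' := by
        intro s s' i i' hs hs' h1 h2 hzz hxx hww hlt
        obtain ⟨j, hj⟩ : ∃ j : ℕ, i' = i + j := ⟨i' - i, by omega⟩
        have hj1 : 1 ≤ j := by omega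
        have hj2 : j ≤ r := by omega
        have e : x s 0 = x s' j := by
          rw [hx0 s i, hxx, hww]
          apply Prod.ext
          · simp only [hx, sh, hj]; push_cast; ring
          · simp only [hx, sh, hj]; push_cast; ring
        have hEd := hE s' hs' j hj1 hj2
        rw [← e, ← hzz] at hEd
        have hv := (EF_value hT hB hEd).1
        have es : z s + (z s + x s 0) = s := by
          rw [← add_assoc]; exact (hsum s hs).symm
        rw [es, add_sub_cancel_left] at hv
        have ex : x s 0 = (t s).2.1 - (t s).1 := by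
          apply Prod.ext <;> simp [hx, sh]
        rw [ex] at hv
        exact (htspec s hs).2 hv
      have hii : i = i' := by
        rcases lt_trichotomy i i' with h | h | h
        · exact absurd h (key s s' i i' a1 b1 a2 b3 hzz hxx hww)
        · exact h
        · exact absurd h (key s' s i' i b1 a1 b2 a3 hzz.symm hxx.symm hww.symm)
      subst hii
      have : s = s' := by
        rw [hsum s a1, hsum s' b1, hzz, hx0 s i, hx0 s' i, hxx, hww]
      rw [this]
  have h1 : W.card * (r - 1) ≤ 4 * (Mid n).card + W.card := by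
    rw [← hUcard, ← hsplit]
    exact Nat.add_le_add hGcard hBdcard
  rcases Nat.lt_or_ge r 2 with h | h
  · have : r - 2 = 0 := by omega
    rw [this]; simp
  · obtain ⟨m, rfl⟩ : ∃ m, r = m + 2 := ⟨r - 2, by omega⟩
    simp only [Nat.add_sub_cancel] at *
    have e : m + 2 - 1 = m + 1 := by omega
    rw [e] at h1
    nlinarith

end Pool.Agent.IT
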