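import Mathlib

set_option autoImplicit false

/-!
Abstract theory of rooms (limit objects of unimodular triangulations), part 1:
plane geometry of unimodular triangles.
-/

namespace Pool.IT.RM

/-- lattice points -/
abbrev Z2 := ℤ × ℤ
/-- the real plane -/
abbrev R2 := ℝ × ℝ

/-- the determinant of two integer vectors -/
def dt (u v : Z2) : ℤ := u.1 * v.2 - u.2 * v.1

/-- the determinant of two real vectors -/
def dr (u v : R2) : ℝ := u.1 * v.2 - u.2 * v.1

/-- the embedding of the lattice -/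
def em (p : Z2) : R2 := ((p.1 : ℝ), (p.2 : ℝ))

/-- twice the signed area of a real triangle -/
def LR (x y z : R2) : ℝ := (y.1 - x.1) * (z.2 - x.2) - (y.2 - x.2) * (z.1 - x.1)

/-- closed triangle (counterclockwise) -/
def cl (p q r : R2) : Set R2 := {z | 0 ≤ LR p q z ∧ 0 ≤ LR q r z ∧ 0 ≤ LR r p z}

/-- open triangle (counterclockwise) -/
def op (p q r : R2) : Set R2 := {z | 0 < LR p q z ∧ 0 < LR q r z ∧ 0 < LR r p z}

theorem LR_add (p q r z : R2) : LR p q z + LR q r z + LR r p z = LR p q r := by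
  unfold LR; ring

theorem LR_rot (p q r : R2) : LR q r p = LR p q r := by unfold LR; ring

theorem LR_swap (p q z : R2) : LR q p z = - LR p q z := by unfold LR; ring

theorem LR_em (p q r : Z2) : LR (em p) (em q) (em r) = ((dt (q - p) (r - p) : ℤ) : ℝ) := by
  unfold LR em dt; push_cast [Prod.fst_sub, Prod.snd_sub]; ring

theorem LR_self_left (p q : R2) : LR p q p = 0 := by unfold LR; ring
theorem LR_self_right (p q : R2) : LR p q q = 0 := by unfold LR; ring

/-- the affine point `(1-t) z + t w` -/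
def pt (z w : R2) (t : ℝ) : R2 := ((1 - t) * z.1 + t * w.1, (1 - t) * z.2 + t * w.2)

theorem pt_eq (z w : R2) (t : ℝ) : pt z w t = (1 - t) • z + t • w := by
  ext <;> simp [pt]

theorem LR_pt (x y z w : R2) (t : ℝ) : LR x y (pt z w t) = (1 - t) * LR x y z + t * LR x y w := by
  unfold LR pt; ring

@[simp] theorem pt_zero (z w : R2) : pt z w 0 = z := by ext <;> simp [pt]
@[simp] theorem pt_one (z w : R2) : pt z w 1 = w := by ext <;> simp [pt]

theorem continuous_LR (x y : R2) : Continuous (fun z => LR x y z) := by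
  unfold LR; fun_prop

theorem continuous_pt (z w : R2) : Continuous (fun t => pt z w t) := by
  unfold pt; fun_prop

theorem isClosed_cl (p q r : R2) : IsClosed (cl p q r) := by
  have h1 : IsClosed {z | 0 ≤ LR p q z} := isClosed_le continuous_const (continuous_LR p q)
  have h2 : IsClosed {z | 0 ≤ LR q r z} := isClosed_le continuous_const (continuous_LR q r)
  have h3 : IsClosed {z | 0 ≤ LR r p z} := isClosed_le continuous_const (continuous_LR r p)
  exact h1.inter (h2.inter h3)

theorem isOpen_op (p q r : R2) : IsOpen (op p q r) := by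
  have h1 : IsOpen {z | 0 < LR p q z} := isOpen_lt continuous_const (continuous_LR p q)
  have h2 : IsOpen {z | 0 < LR q r z} := isOpen_lt continuous_const (continuous_LR q r)
  have h3 : IsOpen {z | 0 < LR r p z} := isOpen_lt continuous_const (continuous_LR r p)
  exact h1.inter (h2.inter h3)

theorem op_subset_cl (p q r : R2) : op p q r ⊆ cl p q r := fun _ h => ⟨h.1.le, h.2.1.le, h.2.2.le⟩

theorem cl_rot (p q r : R2) : cl q r p = cl p q r := by
  ext z; simp only [cl, Set.mem_ofPred_eq]; tauto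

theorem op_rot (p q r : R2) : op q r p = op p q r := by
  ext z; simp only [op, Set.mem_ofPred_eq]; tauto

/-- moving from a point of the closed triangle towards a point of the open triangle -/
theorem pt_mem_op {p q r z w : R2} (hz : z ∈ cl p q r) (hw : w ∈ op p q r) {t : ℝ} (h0 : 0 < t)
    (h1 : t ≤ 1) : pt z w t ∈ op p q r := by
  obtain ⟨a1, a2, a3⟩ := hz
  obtain ⟨b1, b2, b3⟩ := hw
  refine ⟨?_, ?_, ?_⟩ <;> rw [LR_pt]
  · nlinarith [mul_nonneg (sub_nonneg.2 h1) a1, mul_pos h0 b1]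
  · nlinarith [mul_nonneg (sub_nonneg.2 h1) a2, mul_pos h0 b2]
  · nlinarith [mul_nonneg (sub_nonneg.2 h1) a3, mul_pos h0 b3]

theorem pt_mem_cl {p q r z w : R2} (hz : z ∈ cl p q r) (hw : w ∈ cl p q r) {t : ℝ} (h0 : 0 ≤ t)
    (h1 : t ≤ 1) : pt z w t ∈ cl p q r := by
  obtain ⟨a1, a2, a3⟩ := hz
  obtain ⟨b1, b2, b3⟩ := hw
  refine ⟨?_, ?_, ?_⟩ <;> rw [LR_pt]
  · nlinarith [mul_nonneg (sub_nonneg.2 h1) a1, mul_nonneg h0 b1]
  · nlinarith [mul_nonneg (sub_nonneg.2 h1) a2, mul_nonneg h0 b2]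
  · nlinarith [mul_nonneg (sub_nonneg.2 h1) a3, mul_nonneg h0 b3]

/-- the centroid of a unimodular triangle is in the open triangle -/
noncomputable def cen (p q r : R2) : R2 := ((p.1 + q.1 + r.1) / 3, (p.2 + q.2 + r.2) / 3)

theorem cen_mem_op {p q r : R2} (h : LR p q r = 1) : cen p q r ∈ op p q r := by
  have h1 : LR p q (cen p q r) = LR p q r / 3 := by unfold LR cen; ring
  have h2 : LR q r (cen p q r) = LR p q r / 3 := by unfold LR cen; ring
  have h3 : LR r p (cen p q r) = LR p q r / 3 := by unfold LR cen; ring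
  refine ⟨?_, ?_, ?_⟩
  · rw [h1, h]; norm_num
  · rw [h2, h]; norm_num
  · rw [h3, h]; norm_num

/-- an open set meeting the closed triangle meets the open triangle -/
theorem op_inter_of_cl_inter {p q r : R2} (h : LR p q r = 1) {U : Set R2} (hU : IsOpen U) {z : R2}
    (hzU : z ∈ U) (hz : z ∈ cl p q r) : ∃ w ∈ U, w ∈ op p q r := by
  have hc : Filter.Tendsto (fun t : ℝ => pt z (cen p q r) t) (nhdsWithin 0 (Set.Ioi 0)) (nhds z) := by
    have := (continuous_pt z (cen p q r)).tendsto 0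
    rw [pt_zero] at this
    exact this.mono_left nhdsWithin_le_nhds
  have h1 : ∀ᶠ t : ℝ in nhdsWithin 0 (Set.Ioi 0), pt z (cen p q r) t ∈ U :=
    hc (hU.mem_nhds hzU)
  have h2 : ∀ᶠ t : ℝ in nhdsWithin 0 (Set.Ioi 0), t ∈ Set.Ioo (0 : ℝ) 1 :=
    Ioo_mem_nhdsGT one_pos
  obtain ⟨t, ht1, ht2⟩ := (h1.and h2).exists
  exact ⟨_, ht1, pt_mem_op hz (cen_mem_op h) ht2.1 ht2.2.le⟩

/-- lattice points of a closed unimodular triangle are its vertices -/
theorem lattice_mem_cl {p q r a : Z2} (h : dt (q - p) (r - p) = 1)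
    (ha : em a ∈ cl (em p) (em q) (em r)) : a = p ∨ a = q ∨ a = r := by
  obtain ⟨h1, h2, h3⟩ := ha
  rw [LR_em] at h1 h2 h3
  have h1' : 0 ≤ dt (q - p) (a - p) := by exact_mod_cast h1
  have h2' : 0 ≤ dt (r - q) (a - q) := by exact_mod_cast h2
  have h3' : 0 ≤ dt (p - r) (a - r) := by exact_mod_cast h3
  have hs : dt (q - p) (a - p) + dt (r - q) (a - q) + dt (p - r) (a - r) = 1 := by
    rw [← h]; simp only [dt, Prod.fst_sub, Prod.snd_sub]; ring
  set x := dt (q - p) (a - p) with hx
  set y := dt (r - q) (a - q) with hy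
  set w := dt (p - r) (a - r) with hw
  have hh : dt (q - p) (r - p) = 1 := h
  -- barycentric formula: a = y p + w q + x r
  have hb1 : a.1 = y * p.1 + w * q.1 + x * r.1 := by
    have hxx := hx; have hyy := hy; have hww := hw
    simp only [dt, Prod.fst_sub, Prod.snd_sub] at hxx hyy hww hh
    have : a.1 * 1 = y * p.1 + w * q.1 + x * r.1 := by
      rw [← hh, hxx, hyy, hww]; ring
    simpa using this
  have hb2 : a.2 = y * p.2 + w * q.2 + x * r.2 := by
    have hxx := hx; have hyy := hy; have hww := hw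
    simp only [dt, Prod.fst_sub, Prod.snd_sub] at hxx hyy hww hh
    have : a.2 * 1 = y * p.2 + w * q.2 + x * r.2 := by
      rw [← hh, hxx, hyy, hww]; ring
    simpa using this
  have hcases : (x = 1 ∧ y = 0 ∧ w = 0) ∨ (x = 0 ∧ y = 1 ∧ w = 0) ∨ (x = 0 ∧ y = 0 ∧ w = 1) := by
    omega
  rcases hcases with ⟨e1, e2, e3⟩ | ⟨e1, e2, e3⟩ | ⟨e1, e2, e3⟩
  · right; right; ext
    · rw [hb1, e1, e2, e3]; ring
    · rw [hb2, e1, e2, e3]; ring
  · left; ext
    · rw [hb1, e1, e2, e3]; ring
    · rw [hb2, e1, e2, e3]; ring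
  · right; left; ext
    · rw [hb1, e1, e2, e3]; ring
    · rw [hb2, e1, e2, e3]; ring

end Pool.IT.RM
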