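import Pool.Agent.IT.RoomStar

set_option autoImplicit false

/-!
Abstract rooms, part 5: the open set of a room is convex.
-/

namespace Pool.IT.RM

/-- `x` is on no line through two lattice points -/
def Gen (x : R2) : Prop := ∀ p q : Z2, p ≠ q → LR (em p) (em q) x ≠ 0

theorem Gen.not_lattice {x : R2} (hx : Gen x) (a : Z2) : x ≠ em a := by
  rintro rfl
  refine hx a (a + (1, 0)) ?_ (LR_self_left _ _)
  intro h
  have := congrArg Prod.fst h
  simp at this

theorem isClosed_em (S : Set Z2) : IsClosed (em '' S) := by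
  have h1 : Topology.IsClosedEmbedding (fun n : ℤ => (n : ℝ)) := Int.isClosedEmbedding_coe_real
  have h2 : Topology.IsClosedEmbedding (Prod.map (fun n : ℤ => (n : ℝ)) (fun n : ℤ => (n : ℝ))) :=
    h1.prodMap h1
  have h3 : em = Prod.map (fun n : ℤ => (n : ℝ)) (fun n : ℤ => (n : ℝ)) := by
    ext p <;> rfl
  rw [h3]
  exact h2.isClosedMap _ (isClosed_discrete S)

theorem dense_gen : Dense {x : R2 | Gen x} := by
  have h : {x : R2 | Gen x} = ⋂ pq : Z2 × Z2, {x : R2 | pq.1 ≠ pq.2 → LR (em pq.1) (em pq.2) x ≠ 0} := by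
    ext x
    simp only [Set.mem_iInter, Set.mem_ofPred_eq, Gen]
    constructor
    · intro h pq; exact h pq.1 pq.2
    · intro h p q; exact h (p, q)
  rw [h]
  apply dense_iInter_of_isOpen
  · rintro ⟨p, q⟩
    by_cases hpq : p = q
    · simp [hpq]
    · have : {x : R2 | (p, q).1 ≠ (p, q).2 → LR (em (p, q).1) (em (p, q).2) x ≠ 0} =
          {x : R2 | LR (em p) (em q) x ≠ 0} := by
        ext x; simp [hpq]
      rw [this]
      exact isOpen_ne_fun (continuous_LR _ _) continuous_const
  · rintro ⟨p, q⟩
    by_cases hpq : p = q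
    · simp [hpq]
    · have : {x : R2 | (p, q).1 ≠ (p, q).2 → LR (em (p, q).1) (em (p, q).2) x ≠ 0} =
          {x : R2 | LR (em p) (em q) x ≠ 0} := by
        ext x; simp [hpq]
      rw [this]
      intro x
      by_cases hx : LR (em p) (em q) x ≠ 0
      · exact subset_closure hx
      · push Not at hx
        -- perturb
        set w : R2 := (-((em q).2 - (em p).2), (em q).1 - (em p).1) with hw
        have hc : Filter.Tendsto (fun ε : ℝ => x + ε • w) (nhdsWithin 0 (Set.Ioi 0)) (nhds x) := by
          have hcont : Continuous (fun ε : ℝ => x + ε • w) := by fun_prop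
          have := hcont.tendsto 0
          simp only [zero_smul, add_zero] at this
          exact this.mono_left nhdsWithin_le_nhds
        apply mem_closure_of_tendsto hc
        filter_upwards [self_mem_nhdsWithin] with ε hε
        have hε' : (0:ℝ) < ε := hε
        change LR (em p) (em q) (x + ε • w) ≠ 0
        rw [LR_add_vec, hx, zero_add]
        have e : dr (em q - em p) (ε • w) = ε * (((em q).1 - (em p).1) ^ 2 + ((em q).2 - (em p).2) ^ 2) := by
          rw [hw]; unfold dr; simp; ring
        rw [e]
        have hne : (em q).1 - (em p).1 ≠ 0 ∨ (em q).2 - (em p).2 ≠ 0 := by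
          by_contra hcon
          push Not at hcon
          apply hpq
          have e1 : (em q).1 = (em p).1 := by linarith [hcon.1]
          have e2 : (em q).2 = (em p).2 := by linarith [hcon.2]
          simp only [em] at e1 e2
          ext
          · exact_mod_cast e1.symm
          · exact_mod_cast e2.symm
        have hpos : 0 < ((em q).1 - (em p).1) ^ 2 + ((em q).2 - (em p).2) ^ 2 := by
          rcases hne with g | g
          · have := pow_pos (abs_pos.2 g) 2
            rw [sq_abs] at this
            nlinarith [sq_nonneg ((em q).2 - (em p).2)]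
          · have := pow_pos (abs_pos.2 g) 2
            rw [sq_abs] at this
            nlinarith [sq_nonneg ((em q).1 - (em p).1)]
        exact (mul_pos hε' hpos).ne'

/-- segment as a set -/
def sg (x y : R2) : Set R2 := (fun t => pt x y t) '' Set.Icc 0 1

theorem isCompact_sg (x y : R2) : IsCompact (sg x y) :=
  isCompact_Icc.image (continuous_pt x y)

theorem dist_pt (x y y' : R2) (s : ℝ) : dist (pt x y s) (pt x y' s) = |s| * dist y y' := by
  have : pt x y s - pt x y' s = s • (y - y') := by
    ext <;> simp [pt] <;> ring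
  rw [dist_eq_norm, this, norm_smul, Real.norm_eq_abs, dist_eq_norm]

theorem dist_pt_right (x y : R2) (s : ℝ) : dist (pt x y s) y = |1 - s| * dist x y := by
  have : pt x y s - y = (1 - s) • (x - y) := by
    ext <;> simp [pt] <;> ring
  rw [dist_eq_norm, this, norm_smul, Real.norm_eq_abs, dist_eq_norm]

theorem pt_mem_ball {x y z : R2} {δ : ℝ} (hx : x ∈ Metric.ball z δ) (hy : y ∈ Metric.ball z δ) {t : ℝ}
    (h0 : 0 ≤ t) (h1 : t ≤ 1) : pt x y t ∈ Metric.ball z δ := by
  rw [pt_eq]
  exact (convex_ball z δ) hx hy (by linarith) h0 (by ring)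

theorem em_inj {a b : Z2} (h : em a = em b) : a = b := by
  have h1 := congrArg Prod.fst h
  have h2 := congrArg Prod.snd h
  simp only [em] at h1 h2
  ext
  · exact_mod_cast h1
  · exact_mod_cast h2

namespace Room

variable (M : Room)

/-- `y` is visible from `x` inside the open set -/
def Vis (x y : R2) : Prop := ∀ t ∈ Set.Icc (0 : ℝ) 1, pt x y t ∈ M.Om

theorem isOpen_Vis (x : R2) : IsOpen {y | M.Vis x y} := by
  rw [isOpen_iff_mem_nhds]
  intro y hy
  have := isCompact_Icc.eventually_forall_of_forall_eventually (x₀ := y)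
    (P := fun (y : R2) (t : ℝ) => pt x y t ∈ M.Om) (K := Set.Icc (0:ℝ) 1) ?_
  · exact this
  · intro t ht
    have hc : Continuous (fun z : R2 × ℝ => pt x z.1 z.2) := by unfold pt; fun_prop
    exact hc.continuousAt.eventually (M.isOpen_Om.mem_nhds (hy t ht))

theorem KL1 {x y1 : R2} (hx : Gen x) (hne : x ≠ y1) (hy1 : y1 ∈ M.Om) (hnl : ∀ a : Z2, y1 ≠ em a)
    (hcl : y1 ∈ closure {y | M.Vis x y}) : M.Vis x y1 := by
  classical
  obtain ⟨δ, hδ, hball⟩ := Metric.isOpen_iff.1 M.isOpen_Om y1 hy1
  -- lattice points near the segment are on the segment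
  set Z : Set R2 := em '' {a : Z2 | em a ∉ sg x y1} with hZ
  have hZc : IsClosed Z := isClosed_em _
  have hsub : sg x y1 ⊆ Zᶜ := by
    rintro z hz ⟨a, ha, rfl⟩
    exact ha hz
  obtain ⟨ρ, hρ, hthick⟩ := (isCompact_sg x y1).exists_thickening_subset_open hZc.isOpen_compl hsub
  -- choice of y0
  have hmin : 0 < min δ ρ := lt_min hδ hρ
  obtain ⟨y', hy'V, hy'd⟩ := Metric.mem_closure_iff.1 hcl (min δ ρ) hmin
  have hy'b : y' ∈ Metric.ball y1 (min δ ρ) := by rw [Metric.mem_ball, dist_comm]; exact hy'd
  have hU : IsOpen ({y | M.Vis x y} ∩ Metric.ball y1 (min δ ρ)) :=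
    (M.isOpen_Vis x).inter Metric.isOpen_ball
  have hy0 : ∃ y0 ∈ ({y | M.Vis x y} ∩ Metric.ball y1 (min δ ρ)), LR x y0 y1 ≠ 0 := by
    by_cases h0 : LR x y' y1 ≠ 0
    · exact ⟨y', ⟨hy'V, hy'b⟩, h0⟩
    · push Not at h0
      set w : R2 := (-(y1.2 - x.2), y1.1 - x.1) with hw
      have hc : Filter.Tendsto (fun ε : ℝ => y' + ε • w) (nhdsWithin 0 (Set.Ioi 0)) (nhds y') := by
        have hcont : Continuous (fun ε : ℝ => y' + ε • w) := by fun_prop
        have := hcont.tendsto 0
        simp only [zero_smul, add_zero] at this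
        exact this.mono_left nhdsWithin_le_nhds
      have e1 := hc.eventually (hU.mem_nhds ⟨hy'V, hy'b⟩)
      obtain ⟨ε, g1, g2⟩ := (e1.and (self_mem_nhdsWithin : Set.Ioi (0:ℝ) ∈ _)).exists
      have g2' : (0:ℝ) < ε := g2
      refine ⟨_, g1, ?_⟩
      have e : LR x (y' + ε • w) y1 = LR x y' y1 - ε * ((y1.1 - x.1) ^ 2 + (y1.2 - x.2) ^ 2) := by
        rw [hw]; unfold LR; simp; ring
      rw [e, h0]
      have hne' : y1.1 - x.1 ≠ 0 ∨ y1.2 - x.2 ≠ 0 := by
        by_contra hcon
        push Not at hcon
        apply hne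
        ext
        · linarith [hcon.1]
        · linarith [hcon.2]
      have hpos : 0 < (y1.1 - x.1) ^ 2 + (y1.2 - x.2) ^ 2 := by
        rcases hne' with g | g
        · have := pow_pos (abs_pos.2 g) 2
          rw [sq_abs] at this
          nlinarith [sq_nonneg (y1.2 - x.2)]
        · have := pow_pos (abs_pos.2 g) 2
          rw [sq_abs] at this
          nlinarith [sq_nonneg (y1.1 - x.1)]
      have := mul_pos g2' hpos
      linarith
  obtain ⟨y0, ⟨hy0V, hy0b⟩, hD⟩ := hy0
  set D := LR x y0 y1 with hDdef
  -- the compact set Γ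
  have hΓ : sg x y0 ∪ sg y0 y1 ⊆ M.Om := by
    rintro z (⟨t, ht, rfl⟩ | ⟨t, ht, rfl⟩)
    · exact hy0V t ht
    · apply hball
      exact pt_mem_ball (Metric.ball_subset_ball (min_le_left _ _) hy0b)
        (Metric.mem_ball_self hδ) ht.1 ht.2
  obtain ⟨F, hF, hFΓ⟩ := M.exists_fin_of_compact ((isCompact_sg x y0).union (isCompact_sg y0 y1)) hΓ
  -- barycentric expansion
  have hbary : ∀ z : R2, z = (LR z y0 y1 / D * x.1 + LR x z y1 / D * y0.1 + LR x y0 z / D * y1.1,
      LR z y0 y1 / D * x.2 + LR x z y1 / D * y0.2 + LR x y0 z / D * y1.2) := by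
    intro z
    have hD' := hD
    rw [hDdef] at hD' ⊢
    ext
    · field_simp; unfold LR; ring
    · field_simp; unfold LR; ring
  have hsum : ∀ z : R2, LR x z y1 / D + LR x y0 z / D + LR z y0 y1 / D = 1 := by
    intro z
    rw [← add_div, ← add_div, div_eq_one_iff_eq hD, hDdef]; unfold LR; ring
  have vx : LR x x y1 = 0 := by unfold LR; ring
  have vx2 : LR x y0 x = 0 := LR_self_left _ _
  have vy : LR x y1 y1 = 0 := LR_self_right _ _
  let T : TriData M :=
    { A := fun z => LR x z y1 / D
      B := fun z => LR x y0 z / D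
      C := fun z => LR z y0 y1 / D
      hA := ⟨by unfold LR; fun_prop, fun z w t => by
        unfold LR pt; ring⟩
      hB := ⟨by unfold LR; fun_prop, fun z w t => by
        unfold LR pt; ring⟩
      hC := ⟨by unfold LR; fun_prop, fun z w t => by
        unfold LR pt; ring⟩
      hsum := hsum
      F := F
      hF := hF
      gam := by
        intro z h1 h2 h3 h4
        apply hFΓ
        have hz := hbary z
        have hs := hsum z
        rcases h4 with h4 | h4
        · left
          refine ⟨LR x z y1 / D, ⟨h1, by linarith⟩, ?_⟩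
          have hC : LR z y0 y1 / D = 1 - LR x z y1 / D := by linarith
          rw [h4, hC] at hz
          have e : pt x y0 (LR x z y1 / D) = z := by
            rw [hz]
            simp only [pt]
            ext
            · simp only
              rw [← hz]; ring
            · simp only
              rw [← hz]; ring
          exact e
        · right
          refine ⟨LR x y0 z / D, ⟨h2, by linarith⟩, ?_⟩
          have hA : LR x z y1 / D = 1 - LR x y0 z / D := by linarith
          rw [h4, hA] at hz
          have e : pt y0 y1 (LR x y0 z / D) = z := by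
            rw [hz]
            simp only [pt]
            ext
            · simp only
              rw [← hz]; ring
            · simp only
              rw [← hz]; ring
          exact e
      lat := by
        intro a h1 h2 h3
        have hz := hbary (em a)
        have hs := hsum (em a)
        -- close to the segment
        have hnear : em a ∈ Metric.thickening ρ (sg x y1) := by
          rw [Metric.mem_thickening_iff]
          refine ⟨pt x y1 (LR x (em a) y1 / D + LR x y0 (em a) / D), ⟨_, ⟨by linarith, by linarith⟩, rfl⟩, ?_⟩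
          have e : em a - pt x y1 (LR x (em a) y1 / D + LR x y0 (em a) / D) =
              (LR x (em a) y1 / D) • (y0 - y1) := by
            have hC : LR (em a) y0 y1 / D = 1 - LR x (em a) y1 / D - LR x y0 (em a) / D := by linarith
            rw [hC] at hz
            have hz1 := congrArg Prod.fst hz
            have hz2 := congrArg Prod.snd hz
            simp only at hz1 hz2
            ext
            · simp only [Prod.fst_sub, Prod.smul_fst, smul_eq_mul, pt]
              rw [hz1]; ring
            · simp only [Prod.snd_sub, Prod.smul_snd, smul_eq_mul, pt]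
              rw [hz2]; ring
          rw [dist_eq_norm, e, norm_smul, Real.norm_eq_abs, abs_of_nonneg h1, ← dist_eq_norm]
          have hA1 : LR x (em a) y1 / D ≤ 1 := by linarith
          have hd : dist y0 y1 < ρ := lt_of_lt_of_le (Metric.mem_ball.1 hy0b) (min_le_right _ _)
          calc LR x (em a) y1 / D * dist y0 y1 ≤ 1 * dist y0 y1 :=
                mul_le_mul_of_nonneg_right hA1 dist_nonneg
            _ = dist y0 y1 := one_mul _
            _ < ρ := hd
        have hin := hthick hnear
        have hseg : em a ∈ sg x y1 := by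
          by_contra hcon
          exact hin ⟨a, hcon, rfl⟩
        obtain ⟨t, ht, hta⟩ := hseg
        have hta' : em a = pt x y1 t := hta.symm
        have ht0 : t ≠ 0 := by
          rintro rfl
          rw [pt_zero] at hta'
          exact hx.not_lattice a hta'.symm
        have ht1 : t ≠ 1 := by
          rintro rfl
          rw [pt_one] at hta'
          exact hnl a hta'.symm
        have t0 : 0 < t := lt_of_le_of_ne ht.1 (Ne.symm ht0)
        have t1 : t < 1 := lt_of_le_of_ne ht.2 ht1
        refine ⟨?_, ?_, ?_⟩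
        · rw [hta']
          have : LR x (pt x y1 t) y1 = 0 := by unfold LR pt; ring
          rw [this, zero_div]
        · rw [hta']
          have : LR x y0 (pt x y1 t) = t * D := by rw [LR_pt, vx2, hDdef]; ring
          rw [this, mul_div_cancel_right₀ _ hD]; exact t0
        · rw [hta']
          have : LR (pt x y1 t) y0 y1 = (1 - t) * D := by rw [hDdef]; unfold LR pt; ring
          rw [this, mul_div_cancel_right₀ _ hD]; linarith
      gen := by
        intro a b ha hb
        by_contra hab
        apply hx a b hab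
        have ha' : LR x (em a) y1 = 0 := by
          rcases div_eq_zero_iff.1 ha with g | g
          · exact g
          · exact absurd g hD
        have hb' : LR x (em b) y1 = 0 := by
          rcases div_eq_zero_iff.1 hb with g | g
          · exact g
          · exact absurd g hD
        have hne' : y1.1 - x.1 ≠ 0 ∨ y1.2 - x.2 ≠ 0 := by
          by_contra hcon
          push Not at hcon
          apply hne
          ext
          · linarith [hcon.1]
          · linarith [hcon.2]
        unfold LR at ha' hb' ⊢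
        rcases hne' with g | g
        · apply mul_left_cancel₀ g
          rw [mul_zero]
          linear_combination ((em b).1 - x.1) * ha' - ((em a).1 - x.1) * hb'
        · apply mul_left_cancel₀ g
          rw [mul_zero]
          linear_combination ((em b).2 - x.2) * ha' - ((em a).2 - x.2) * hb'
      apex := ⟨y0, div_self hD, by rw [LR_self_right, zero_div], by
        have : LR y0 y0 y1 = 0 := by unfold LR; ring
        rw [this, zero_div]⟩ }
  intro t ht
  have hd : ∀ z y : R2, T.A (z + y) = T.A z + dr (-(y1.1 - x.1) / D, -(y1.2 - x.2) / D) y := by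
    intro z y
    change LR x (z + y) y1 / D = LR x z y1 / D + _
    unfold LR dr
    simp only [Prod.fst_add, Prod.snd_add]
    ring
  apply T.all_mem_Om hd
  · change 0 ≤ LR x (pt x y1 t) y1 / D
    have : LR x (pt x y1 t) y1 = 0 := by unfold LR pt; ring
    rw [this, zero_div]
  · change 0 ≤ LR x y0 (pt x y1 t) / D
    have : LR x y0 (pt x y1 t) = t * D := by rw [LR_pt, vx2, hDdef]; ring
    rw [this, mul_div_cancel_right₀ _ hD]; exact ht.1
  · change 0 ≤ LR (pt x y1 t) y0 y1 / D
    have : LR (pt x y1 t) y0 y1 = (1 - t) * D := by rw [hDdef]; unfold LR pt; ring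
    rw [this, mul_div_cancel_right₀ _ hD]; linarith [ht.2]

theorem pt_pt (x y : R2) (s t : ℝ) : pt x (pt x y s) t = pt x y (t * s) := by
  ext <;> simp [pt] <;> ring

/-- closedness of visibility from a generic point -/
theorem KL {x y1 : R2} (hx : Gen x) (hxO : x ∈ M.Om) (hy1 : y1 ∈ M.Om)
    (hcl : y1 ∈ closure {y | M.Vis x y}) : M.Vis x y1 := by
  by_cases hne : x = y1
  · subst hne
    intro t _
    have : pt x x t = x := by ext <;> simp [pt] <;> ring
    rw [this]; exact hxO
  obtain ⟨δ, hδ, hball⟩ := Metric.isOpen_iff.1 M.isOpen_Om y1 hy1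
  have hdpos : 0 < dist x y1 := dist_pos.2 hne
  -- two candidates for the extension
  set η₀ : ℝ := min 1 (δ / (4 * dist x y1)) with hη₀
  have hη₀pos : 0 < η₀ := lt_min one_pos (by positivity)
  have hη₀le : η₀ ≤ 1 := min_le_left _ _
  have hη₀d : η₀ * dist x y1 ≤ δ / 4 := by
    have h1 : η₀ ≤ δ / (4 * dist x y1) := min_le_right _ _
    calc η₀ * dist x y1 ≤ δ / (4 * dist x y1) * dist x y1 :=
          mul_le_mul_of_nonneg_right h1 hdpos.le
      _ = δ / 4 := by field_simp
  have hex : ∃ η : ℝ, 0 < η ∧ η ≤ η₀ ∧ ∀ a : Z2, pt x y1 (1 + η) ≠ em a := by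
    by_contra hcon
    push Not at hcon
    obtain ⟨a, ha⟩ := hcon η₀ hη₀pos le_rfl
    obtain ⟨b, hb⟩ := hcon (η₀ / 2) (by linarith) (by linarith)
    have hab : a ≠ b := by
      rintro rfl
      rw [← hb] at ha
      have h1 := congrArg Prod.fst ha
      have h2 := congrArg Prod.snd ha
      simp only [pt] at h1 h2
      have k1 : η₀ / 2 * (y1.1 - x.1) = 0 := by linear_combination h1
      have k2 : η₀ / 2 * (y1.2 - x.2) = 0 := by linear_combination h2
      have hh : η₀ / 2 ≠ 0 := by linarith
      apply hne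
      ext
      · have := (mul_eq_zero.1 k1).resolve_left hh; linarith
      · have := (mul_eq_zero.1 k2).resolve_left hh; linarith
    apply hx a b hab
    rw [← ha, ← hb]
    unfold LR pt; ring
  obtain ⟨η, hη0, hη1, hηl⟩ := hex
  have hηd : η * dist x y1 ≤ δ / 4 :=
    le_trans (mul_le_mul_of_nonneg_right hη1 hdpos.le) hη₀d
  have hη1' : η ≤ 1 := hη1.trans hη₀le
  set y2 := pt x y1 (1 + η) with hy2
  -- points of V near y1 can be extended
  have hext : ∀ y : R2, M.Vis x y → dist y y1 < δ / 4 → M.Vis x (pt x y (1 + η)) := by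
    intro y hy hyd t ht
    rw [pt_pt]
    by_cases hle : t * (1 + η) ≤ 1
    · exact hy _ ⟨mul_nonneg ht.1 (by linarith), hle⟩
    · push Not at hle
      apply hball
      rw [Metric.mem_ball]
      set s := t * (1 + η) with hs
      have hs2 : s ≤ 1 + η := by
        have := mul_le_mul_of_nonneg_right ht.2 (by linarith : 0 ≤ 1 + η)
        linarith
      have d1 : dist (pt x y s) (pt x y1 s) ≤ 2 * dist y y1 := by
        rw [dist_pt, abs_of_pos (by linarith)]
        exact mul_le_mul_of_nonneg_right (by linarith) dist_nonneg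
      have d2 : dist (pt x y1 s) y1 ≤ η * dist x y1 := by
        rw [dist_pt_right]
        apply mul_le_mul_of_nonneg_right _ hdpos.le
        rw [abs_of_nonpos (by linarith)]; linarith
      have := dist_triangle (pt x y s) (pt x y1 s) y1
      linarith
  have hy2O : y2 ∈ M.Om := by
    apply hball
    rw [Metric.mem_ball, hy2, dist_pt_right, abs_of_nonpos (by linarith)]
    have : -(1 - (1 + η)) * dist x y1 = η * dist x y1 := by ring
    rw [this]; linarith
  have hne2 : x ≠ y2 := by
    intro h
    have h1 := congrArg Prod.fst h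
    have h2 := congrArg Prod.snd h
    simp only [hy2, pt] at h1 h2
    have k1 : (1 + η) * (y1.1 - x.1) = 0 := by linear_combination -h1
    have k2 : (1 + η) * (y1.2 - x.2) = 0 := by linear_combination -h2
    have hh : 1 + η ≠ 0 := by linarith
    apply hne
    ext
    · have := (mul_eq_zero.1 k1).resolve_left hh; linarith
    · have := (mul_eq_zero.1 k2).resolve_left hh; linarith
  have hcl2 : y2 ∈ closure {y | M.Vis x y} := by
    rw [Metric.mem_closure_iff]
    intro ε hε
    obtain ⟨y, hyV, hyd⟩ := Metric.mem_closure_iff.1 hcl (min (δ / 4) (ε / 2))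
      (lt_min (by linarith) (by linarith))
    refine ⟨pt x y (1 + η), hext y hyV ?_, ?_⟩
    · rw [dist_comm]; exact lt_of_lt_of_le hyd (min_le_left _ _)
    · rw [hy2, dist_pt, abs_of_pos (by linarith)]
      have h1 : dist y1 y < ε / 2 := lt_of_lt_of_le hyd (min_le_right _ _)
      nlinarith [dist_nonneg (x := y1) (y := y)]
  have hfin := M.KL1 hx hne2 hy2O hηl hcl2
  intro t ht
  have e : pt x y1 t = pt x y2 (t / (1 + η)) := by
    rw [hy2, pt_pt]
    congr 1
    field_simp
  rw [e]
  apply hfin
  refine ⟨div_nonneg ht.1 (by linarith), ?_⟩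
  rw [div_le_one (by linarith)]
  linarith [ht.2]

/-- visibility is transported along segments inside the open set -/
theorem seg_transfer {x a b : R2} (hx : Gen x) (hxO : x ∈ M.Om)
    (hab : ∀ s ∈ Set.Icc (0 : ℝ) 1, pt a b s ∈ M.Om) (ha : M.Vis x a) : M.Vis x b := by
  have hpre : IsPreconnected (Set.Icc (0 : ℝ) 1) := isPreconnected_Icc
  have hsub : Set.Icc (0 : ℝ) 1 ⊆ (fun s => pt a b s) ⁻¹' {y | M.Vis x y} := by
    apply hpre.subset_of_closure_inter_subset
    · exact (M.isOpen_Vis x).preimage (continuous_pt a b)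
    · refine ⟨0, ⟨le_rfl, zero_le_one⟩, ?_⟩
      change M.Vis x (pt a b 0)
      rw [pt_zero]; exact ha
    · rintro s ⟨hs1, hs2⟩
      have : pt a b s ∈ closure {y | M.Vis x y} :=
        (continuous_pt a b).closure_preimage_subset _ hs1
      exact M.KL hx hxO (hab s hs2) this
  have := hsub ⟨zero_le_one, le_rfl⟩
  change M.Vis x (pt a b 1) at this
  rwa [pt_one] at this

/-- segment inside one closed triangle, both ends in `Om`, one end in the open triangle -/
theorem seg_tri {p q r : Z2} (h : M.R p q r) {a b : R2} (ha : a ∈ cl (em p) (em q) (em r))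
    (haO : a ∈ M.Om) (hb : b ∈ op (em p) (em q) (em r)) : ∀ s ∈ Set.Icc (0 : ℝ) 1, pt a b s ∈ M.Om := by
  intro s hs
  rcases hs.1.lt_or_eq with g | g
  · exact M.op_subset_Om h (pt_mem_op ha hb g hs.2)
  · rw [← g, pt_zero]; exact haO

theorem pt_symm (a b : R2) (s : ℝ) : pt a b s = pt b a (1 - s) := by
  ext <;> simp [pt] <;> ring

theorem seg_symm {a b : R2} (h : ∀ s ∈ Set.Icc (0 : ℝ) 1, pt a b s ∈ M.Om) :
    ∀ s ∈ Set.Icc (0 : ℝ) 1, pt b a s ∈ M.Om := by
  intro s hs
  rw [pt_symm]
  exact h _ ⟨by linarith [hs.2], by linarith [hs.1]⟩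

/-- the midpoint of an edge -/
noncomputable def midp (p q : R2) : R2 := ((p.1 + q.1) / 2, (p.2 + q.2) / 2)

theorem vis_step {x : R2} (hx : Gen x) (hxO : x ∈ M.Om) {p q r s : Z2} (h : M.R p q r)
    (h' : M.R q p s) (hv : M.Vis x (cen (em p) (em q) (em r))) :
    M.Vis x (cen (em q) (em p) (em s)) := by
  have hu := uniR (M.uni h)
  have hu' := uniR (M.uni h')
  have m0 : LR (em p) (em q) (midp (em p) (em q)) = 0 := by unfold LR midp; ring
  have m1 : LR (em q) (em r) (midp (em p) (em q)) = 1 / 2 := by
    rw [← hu]; unfold LR midp; ring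
  have m2 : LR (em r) (em p) (midp (em p) (em q)) = 1 / 2 := by
    rw [← hu]; unfold LR midp; ring
  have hm : midp (em p) (em q) ∈ M.Om :=
    M.edge_mem_Om h h' m0 (by rw [m1]; norm_num) (by rw [m2]; norm_num)
  have hm1 : midp (em p) (em q) ∈ cl (em p) (em q) (em r) :=
    ⟨m0.ge, by rw [m1]; norm_num, by rw [m2]; norm_num⟩
  have hm2 : midp (em p) (em q) ∈ cl (em q) (em p) (em s) := by
    refine ⟨?_, ?_, ?_⟩
    · have : LR (em q) (em p) (midp (em p) (em q)) = 0 := by unfold LR midp; ring
      rw [this]
    · have : LR (em p) (em s) (midp (em p) (em q)) = 1 / 2 := by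
        rw [← hu']; unfold LR midp; ring
      rw [this]; norm_num
    · have : LR (em s) (em q) (midp (em p) (em q)) = 1 / 2 := by
        rw [← hu']; unfold LR midp; ring
      rw [this]; norm_num
  have s1 := M.seg_symm (M.seg_tri h hm1 hm (cen_mem_op hu))
  have s2 := M.seg_tri h' hm2 hm (cen_mem_op hu')
  exact M.seg_transfer hx hxO s2 (M.seg_transfer hx hxO s1 hv)

theorem vis_cen {x : R2} (hx : Gen x) (hxO : x ∈ M.Om) {p q r p' q' r' : Z2} (h : M.R p q r)
    (hv : M.Vis x (cen (em p) (em q) (em r))) (h' : M.R p' q' r') :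
    M.Vis x (cen (em p') (em q') (em r')) := by
  have hc := M.conn h h'
  have key : ∀ t : Z2 × Z2 × Z2, Relation.ReflTransGen (Step M.R) (p, q, r) t →
      M.R t.1 t.2.1 t.2.2 ∧ M.Vis x (cen (em t.1) (em t.2.1) (em t.2.2)) := by
    intro t ht
    induction ht with
    | refl => exact ⟨h, hv⟩
    | tail _ hst ih =>
      rename_i b c _
      obtain ⟨hb, hvb⟩ := ih
      obtain ⟨hR, hor⟩ := hst
      refine ⟨hR, ?_⟩
      rcases hor with rfl | ⟨e1, e2⟩
      · have : cen (em b.2.1) (em b.2.2) (em b.1) = cen (em b.1) (em b.2.1) (em b.2.2) := by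
          unfold cen; ext <;> simp only <;> ring
        change M.Vis x (cen (em b.2.1) (em b.2.2) (em b.1))
        rw [this]; exact hvb
      · obtain ⟨c1, c2, c3⟩ := c
        simp only at e1 e2 hR ⊢
        subst e1; subst e2
        exact M.vis_step hx hxO hb hR hvb
  exact (key _ hc).2

/-- star-shapedness from generic points -/
theorem vis_all {x : R2} (hx : Gen x) (hxO : x ∈ M.Om) {y : R2} (hy : y ∈ M.Om) : M.Vis x y := by
  -- x is in an open triangle
  obtain ⟨F, hF, hxF⟩ := hxO
  obtain ⟨t, ht, hxt⟩ := mem_UF.1 (interior_subset hxF)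
  obtain ⟨p, q, r⟩ := t
  have hR : M.R p q r := hF _ ht
  have hxO' : x ∈ M.Om := ⟨F, hF, hxF⟩
  have hxx : M.Vis x x := by
    intro t _
    have : pt x x t = x := by ext <;> simp [pt] <;> ring
    rw [this]; exact hxO'
  have h0 : M.Vis x (cen (em p) (em q) (em r)) :=
    M.seg_transfer hx hxO' (M.seg_tri hR hxt hxO' (cen_mem_op (uniR (M.uni hR)))) hxx
  obtain ⟨G, hG, hyG⟩ := hy
  obtain ⟨t', ht', hyt⟩ := mem_UF.1 (interior_subset hyG)
  obtain ⟨p', q', r'⟩ := t'
  have hR' : M.R p' q' r' := hG _ ht'
  have hyO' : y ∈ M.Om := ⟨G, hG, hyG⟩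
  have h1 := M.vis_cen hx hxO' hR h0 hR'
  exact M.seg_transfer hx hxO' (M.seg_symm (M.seg_tri hR' hyt hyO' (cen_mem_op (uniR (M.uni hR'))))) h1

/-- the open set of a room is convex -/
theorem convex_pt {a b : R2} (ha : a ∈ M.Om) (hb : b ∈ M.Om) {t : ℝ} (h0 : 0 ≤ t) (h1 : t ≤ 1) :
    pt a b t ∈ M.Om := by
  rcases h0.lt_or_eq with g | g
  swap
  · rw [← g, pt_zero]; exact ha
  -- move a to a generic point
  obtain ⟨δ, hδ, hball⟩ := Metric.isOpen_iff.1 M.isOpen_Om a ha
  obtain ⟨ε, hε, hball'⟩ := Metric.isOpen_iff.1 M.isOpen_Om b hb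
  set c := (1 - t) / t with hc
  have hc0 : 0 ≤ c := div_nonneg (by linarith) g.le
  have hpos : 0 < min δ (ε / (c + 1)) := lt_min hδ (by positivity)
  obtain ⟨x, hxg, hxd⟩ := dense_gen.exists_dist_lt a hpos
  have hxO : x ∈ M.Om := by
    apply hball; rw [Metric.mem_ball, dist_comm]
    exact lt_of_lt_of_le hxd (min_le_left _ _)
  set b' : R2 := b + c • (a - x) with hb'
  have hb'O : b' ∈ M.Om := by
    apply hball'
    rw [Metric.mem_ball, dist_eq_norm, hb', add_sub_cancel_left, norm_smul, Real.norm_eq_abs,
      abs_of_nonneg hc0, ← dist_eq_norm]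
    have h2 : dist a x < ε / (c + 1) := lt_of_lt_of_le hxd (min_le_right _ _)
    calc c * dist a x ≤ (c + 1) * dist a x :=
          mul_le_mul_of_nonneg_right (by linarith) dist_nonneg
      _ < (c + 1) * (ε / (c + 1)) := mul_lt_mul_of_pos_left h2 (by linarith)
      _ = ε := by field_simp
  have hv := M.vis_all hxg hxO hb'O
  have e : pt a b t = pt x b' t := by
    have htc : t * c = 1 - t := by rw [hc]; field_simp
    ext
    · simp only [pt, hb', Prod.fst_add, Prod.smul_fst, Prod.fst_sub, smul_eq_mul]
      linear_combination (-(a.1 - x.1)) * htc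
    · simp only [pt, hb', Prod.snd_add, Prod.smul_snd, Prod.snd_sub, smul_eq_mul]
      linear_combination (-(a.2 - x.2)) * htc
  rw [e]
  exact hv t ⟨h0, h1⟩

theorem convex_Om : Convex ℝ M.Om := by
  intro a ha b hb s t hs ht hst
  have : s • a + t • b = pt a b t := by
    rw [pt_eq]; have : s = 1 - t := by linarith
    rw [this]
  rw [this]
  exact M.convex_pt ha hb ht (by linarith)

end Room

end Pool.IT.RM
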