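import Pool.Agent.IT.RoomConv

set_option autoImplicit false

/-!
Abstract rooms, part 6: unimodular change of coordinates.
-/

namespace Pool.IT.RM

/-- the affine map with origin `o` and basis `e, f` -/
def fr (o e f : Z2) (a : Z2) : Z2 := (o.1 + a.1 * e.1 + a.2 * f.1, o.2 + a.1 * e.2 + a.2 * f.2)

/-- the inverse map when `dt e f = 1` -/
def fri (o e f : Z2) (b : Z2) : Z2 := (dt (b - o) f, dt e (b - o))

/-- the real version -/
def frR (o e f : Z2) (z : R2) : R2 :=
  ((o.1 : ℝ) + z.1 * (e.1 : ℝ) + z.2 * (f.1 : ℝ), (o.2 : ℝ) + z.1 * (e.2 : ℝ) + z.2 * (f.2 : ℝ))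

/-- the linear part -/
def frL (e f : Z2) (z : R2) : R2 := (z.1 * (e.1 : ℝ) + z.2 * (f.1 : ℝ), z.1 * (e.2 : ℝ) + z.2 * (f.2 : ℝ))

/-- the inverse linear part -/
def frLi (e f : Z2) (z : R2) : R2 := (z.1 * (f.2 : ℝ) - z.2 * (f.1 : ℝ), (e.1 : ℝ) * z.2 - (e.2 : ℝ) * z.1)

variable {o e f : Z2}

theorem fr_fri (h : dt e f = 1) (b : Z2) : fr o e f (fri o e f b) = b := by
  have h' : e.1 * f.2 - e.2 * f.1 = 1 := h
  ext
  · simp only [fr, fri, dt, Prod.fst_sub, Prod.snd_sub]
    linear_combination (b.1 - o.1) * h'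
  · simp only [fr, fri, dt, Prod.fst_sub, Prod.snd_sub]
    linear_combination (b.2 - o.2) * h'

theorem fri_fr (h : dt e f = 1) (a : Z2) : fri o e f (fr o e f a) = a := by
  have h' : e.1 * f.2 - e.2 * f.1 = 1 := h
  ext
  · simp only [fr, fri, dt, Prod.fst_sub, Prod.snd_sub]
    linear_combination a.1 * h'
  · simp only [fr, fri, dt, Prod.fst_sub, Prod.snd_sub]
    linear_combination a.2 * h'

theorem fr_inj (h : dt e f = 1) {a b : Z2} (hab : fr o e f a = fr o e f b) : a = b := by
  rw [← fri_fr (o := o) h a, ← fri_fr (o := o) h b, hab]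

theorem em_fr (a : Z2) : em (fr o e f a) = frR o e f (em a) := by
  ext <;> simp only [em, fr, frR] <;> push_cast <;> ring

theorem LR_frR (h : dt e f = 1) (x y z : R2) :
    LR (frR o e f x) (frR o e f y) (frR o e f z) = LR x y z := by
  have h' : (e.1 : ℝ) * f.2 - e.2 * f.1 = 1 := by exact_mod_cast (show e.1 * f.2 - e.2 * f.1 = 1 from h)
  simp only [LR, frR]
  linear_combination ((y.1 - x.1) * (z.2 - x.2) - (y.2 - x.2) * (z.1 - x.1)) * h'

theorem dr_frL (h : dt e f = 1) (x y : R2) : dr (frL e f x) (frL e f y) = dr x y := by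
  have h' : (e.1 : ℝ) * f.2 - e.2 * f.1 = 1 := by exact_mod_cast (show e.1 * f.2 - e.2 * f.1 = 1 from h)
  simp only [dr, frL]
  linear_combination (x.1 * y.2 - x.2 * y.1) * h'

theorem dt_fr (h : dt e f = 1) (p q r : Z2) :
    dt (fr o e f q - fr o e f p) (fr o e f r - fr o e f p) = dt (q - p) (r - p) := by
  have h' : e.1 * f.2 - e.2 * f.1 = 1 := h
  simp only [dt, fr, Prod.fst_sub, Prod.snd_sub]
  linear_combination ((q.1 - p.1) * (r.2 - p.2) - (q.2 - p.2) * (r.1 - p.1)) * h'

theorem frL_frLi (h : dt e f = 1) (z : R2) : frL e f (frLi e f z) = z := by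
  have h' : (e.1 : ℝ) * f.2 - e.2 * f.1 = 1 := by exact_mod_cast (show e.1 * f.2 - e.2 * f.1 = 1 from h)
  ext
  · simp only [frL, frLi]; linear_combination z.1 * h'
  · simp only [frL, frLi]; linear_combination z.2 * h'

theorem frL_em_sub (a b : Z2) : frL e f (em a - em b) = em (fr o e f a) - em (fr o e f b) := by
  ext <;> simp only [frL, em, fr, Prod.fst_sub, Prod.snd_sub] <;> push_cast <;> ring

theorem fr_add_zsmul (p v : Z2) (i : ℤ) :
    fr o e f (p + i • v) = fr o e f p + i • (fr o e f (p + v) - fr o e f p) := by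
  ext
  · simp only [fr, Prod.fst_add, Prod.snd_add, Prod.smul_fst, Prod.smul_snd, Prod.fst_sub, smul_eq_mul]
    ring
  · simp only [fr, Prod.fst_add, Prod.snd_add, Prod.smul_fst, Prod.smul_snd, Prod.snd_sub, smul_eq_mul]
    ring

theorem frR_surj (h : dt e f = 1) (z : R2) : ∃ w, frR o e f w = z := by
  have h' : (e.1 : ℝ) * f.2 - e.2 * f.1 = 1 := by exact_mod_cast (show e.1 * f.2 - e.2 * f.1 = 1 from h)
  refine ⟨frLi e f (z - em o), ?_⟩
  ext
  · simp only [frR, frLi, em, Prod.fst_sub, Prod.snd_sub]; linear_combination (z.1 - o.1) * h'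
  · simp only [frR, frLi, em, Prod.fst_sub, Prod.snd_sub]; linear_combination (z.2 - o.2) * h'

theorem continuous_frR : Continuous (frR o e f) := by unfold frR; fun_prop

theorem mem_cl_frR (h : dt e f = 1) (p q r : Z2) (z : R2) :
    frR o e f z ∈ cl (em (fr o e f p)) (em (fr o e f q)) (em (fr o e f r)) ↔
      z ∈ cl (em p) (em q) (em r) := by
  simp only [cl, Set.mem_ofPred_eq, em_fr, LR_frR h]

theorem mem_op_frR (h : dt e f = 1) (p q r : Z2) (z : R2) :
    frR o e f z ∈ op (em (fr o e f p)) (em (fr o e f q)) (em (fr o e f r)) ↔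
      z ∈ op (em p) (em q) (em r) := by
  simp only [op, Set.mem_ofPred_eq, em_fr, LR_frR h]

namespace Room

/-- the room in new coordinates -/
def map (M : Room) (o e f : Z2) (h : dt e f = 1) : Room where
  R p q r := M.R (fr o e f p) (fr o e f q) (fr o e f r)
  rot := fun h' => M.rot h'
  uni := by
    intro p q r h'
    rw [← dt_fr (o := o) h]; exact M.uni h'
  disj := by
    rintro p q r p' q' r' h1 h2 ⟨z, hz1, hz2⟩
    have := M.disj h1 h2 ⟨frR o e f z, (mem_op_frR h p q r z).2 hz1, (mem_op_frR h p' q' r' z).2 hz2⟩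
    rcases this with ⟨a, b, c⟩ | ⟨a, b, c⟩ | ⟨a, b, c⟩
    · exact Or.inl ⟨fr_inj h a, fr_inj h b, fr_inj h c⟩
    · exact Or.inr (Or.inl ⟨fr_inj h a, fr_inj h b, fr_inj h c⟩)
    · exact Or.inr (Or.inr ⟨fr_inj h a, fr_inj h b, fr_inj h c⟩)
  wall_line := by
    intro p q r h1 h2 i
    have h2' : ∀ s, ¬ M.R (fr o e f q) (fr o e f p) s := by
      intro s hs
      apply h2 (fri o e f s)
      rw [fr_fri h]; exact hs
    obtain ⟨⟨r', hr'⟩, hno⟩ := M.wall_line h1 h2' i
    have e1 : fr o e f (p + i • (q - p)) = fr o e f p + i • (fr o e f q - fr o e f p) := by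
      rw [fr_add_zsmul]; simp
    have e2 : fr o e f (q + i • (q - p)) = fr o e f q + i • (fr o e f q - fr o e f p) := by
      ext
      · simp only [fr, Prod.fst_add, Prod.snd_add, Prod.smul_fst, Prod.smul_snd, Prod.fst_sub,
          Prod.snd_sub, smul_eq_mul]
        ring
      · simp only [fr, Prod.fst_add, Prod.snd_add, Prod.smul_fst, Prod.smul_snd, Prod.fst_sub,
          Prod.snd_sub, smul_eq_mul]
        ring
    refine ⟨⟨fri o e f r', ?_⟩, ?_⟩
    · rw [e1, e2, fr_fri h]; exact hr'
    · intro s hs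
      rw [e1, e2] at hs
      exact hno _ hs
  star_fin := by
    intro v F d hF hd hcov
    classical
    have hfin := M.star_fin (fr o e f v) (F.image (fun uw => (fr o e f uw.1, fr o e f uw.2)))
      (frL e f d) ?_ ?_ ?_
    · have : {uw : Z2 × Z2 | M.R (fr o e f v) (fr o e f uw.1) (fr o e f uw.2)} =
          (fun uw : Z2 × Z2 => (fr o e f uw.1, fr o e f uw.2)) ⁻¹'
            {uw : Z2 × Z2 | M.R (fr o e f v) uw.1 uw.2} := rfl
      rw [this]
      apply hfin.preimage
      intro x _ y _ hxy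
      have h1 := congrArg Prod.fst hxy
      have h2 := congrArg Prod.snd hxy
      exact Prod.ext (fr_inj h h1) (fr_inj h h2)
    · intro uw huw
      obtain ⟨xy, hxy, rfl⟩ := Finset.mem_image.1 huw
      exact hF xy hxy
    · intro a ha h0
      apply hd (fri o e f a)
      · intro h3
        apply ha
        rw [← h3, fr_fri h]
      · have : em a - em (fr o e f v) = frL e f (em (fri o e f a) - em v) := by
          rw [frL_em_sub (o := o), fr_fri h]
        rw [this, dr_frL h] at h0
        exact h0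
    · intro y hy
      have hy' : 0 < dr d (frLi e f y) := by
        rw [← frL_frLi h y, dr_frL h] at hy
        exact hy
      obtain ⟨uw, huw, g1, g2⟩ := hcov _ hy'
      refine ⟨_, Finset.mem_image.2 ⟨uw, huw, rfl⟩, ?_, ?_⟩
      · rw [← frL_em_sub, ← frL_frLi h y, dr_frL h]; exact g1
      · rw [← frL_em_sub, ← frL_frLi h y, dr_frL h]; exact g2
  noDelta := by
    intro a e' f' h' F hF hsub
    classical
    set L : Z2 → Z2 := fun u => fr o e f (a + u) - fr o e f a with hL
    have hLe : dt (L e') (L f') = 1 := by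
      rw [hL, dt_fr h]; simpa using h'
    apply M.noDelta (fr o e f a) (L e') (L f') hLe
      (F.image (fun t => (fr o e f t.1, fr o e f t.2.1, fr o e f t.2.2)))
    · intro t ht
      obtain ⟨t', ht', rfl⟩ := Finset.mem_image.1 ht
      exact hF t' ht'
    · intro z hz
      obtain ⟨w, rfl⟩ := frR_surj (o := o) h z
      have e1 : fr o e f a + (3 : ℤ) • L e' = fr o e f (a + (3 : ℤ) • e') := by
        rw [fr_add_zsmul]
      have e2 : fr o e f a + (3 : ℤ) • L e' + (6 : ℤ) • L f' =
          fr o e f (a + (3 : ℤ) • e' + (6 : ℤ) • f') := by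
        ext
        · simp only [hL, fr, Prod.fst_add, Prod.snd_add, Prod.smul_fst, Prod.smul_snd, Prod.fst_sub,
            smul_eq_mul]
          ring
        · simp only [hL, fr, Prod.fst_add, Prod.snd_add, Prod.smul_fst, Prod.smul_snd, Prod.snd_sub,
            smul_eq_mul]
          ring
      have hw : w ∈ clt (a, a + (3 : ℤ) • e', a + (3 : ℤ) • e' + (6 : ℤ) • f') := by
        unfold clt at hz
        simp only at hz
        rw [e2, e1] at hz
        exact (mem_cl_frR h _ _ _ w).1 hz
      have := hsub hw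
      simp only [Set.mem_iUnion] at this ⊢
      obtain ⟨t, ht, hwt⟩ := this
      refine ⟨_, Finset.mem_image.2 ⟨t, ht, rfl⟩, ?_⟩
      exact (mem_cl_frR h _ _ _ w).2 hwt
  conn := by
    intro p q r p' q' r' h1 h2
    have hc := M.conn h1 h2
    have key : ∀ t : Z2 × Z2 × Z2,
        Relation.ReflTransGen (Step M.R) (fr o e f p, fr o e f q, fr o e f r) t →
        Relation.ReflTransGen (Step (fun p q r => M.R (fr o e f p) (fr o e f q) (fr o e f r)))
          (p, q, r) (fri o e f t.1, fri o e f t.2.1, fri o e f t.2.2) := by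
      intro t ht
      induction ht with
      | refl => simp only [fri_fr h]; exact Relation.ReflTransGen.refl
      | tail _ hst ih =>
        refine ih.tail ?_
        obtain ⟨g1, g2⟩ := hst
        refine ⟨?_, ?_⟩
        · simp only [fr_fri h]; exact g1
        · rcases g2 with rfl | ⟨g2, g3⟩
          · left; rfl
          · right
            simp only
            rw [g2, g3]; exact ⟨rfl, rfl⟩
    have := key _ hc
    simpa only [fri_fr h] using this

end Room

end Pool.IT.RM
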