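import Pool.Agent.IT.RoomSec
import Pool.Agent.IT.RoomMap

set_option autoImplicit false

/-!
Abstract rooms, part 7: lines, fans, fine triangles; the forbidden triangle in the standard frame.
-/

namespace Pool.IT.RM

theorem cl_subset_convexHull {p q r : R2} (h : 0 < LR p q r) :
    cl p q r ⊆ convexHull ℝ {p, q, r} := by
  intro z hz
  obtain ⟨h1, h2, h3⟩ := hz
  have hs := LR_add p q r z
  set D := LR p q r with hD
  have hz : z = (LR q r z / D) • p + (LR r p z / D) • q + (LR p q z / D) • r := by
    have hD0 : D ≠ 0 := h.ne'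
    have e1 : D * z.1 = LR q r z * p.1 + LR r p z * q.1 + LR p q z * r.1 := by
      rw [hD]; unfold LR; ring
    have e2 : D * z.2 = LR q r z * p.2 + LR r p z * q.2 + LR p q z * r.2 := by
      rw [hD]; unfold LR; ring
    ext
    · simp only [Prod.fst_add, Prod.smul_fst, smul_eq_mul]
      field_simp
      linarith
    · simp only [Prod.snd_add, Prod.smul_snd, smul_eq_mul]
      field_simp
      linarith
  have hc := convex_convexHull ℝ ({p, q, r} : Set R2)
  have mp : p ∈ convexHull ℝ ({p, q, r} : Set R2) := subset_convexHull _ _ (by simp)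
  have mq : q ∈ convexHull ℝ ({p, q, r} : Set R2) := subset_convexHull _ _ (by simp)
  have mr : r ∈ convexHull ℝ ({p, q, r} : Set R2) := subset_convexHull _ _ (by simp)
  have := hc.sum_mem (t := Finset.univ) (w := ![LR q r z / D, LR r p z / D, LR p q z / D])
    (z := ![p, q, r]) (by
      intro i _
      fin_cases i
      · exact div_nonneg h2 h.le
      · exact div_nonneg h3 h.le
      · exact div_nonneg h1 h.le) (by
      simp only [Fin.sum_univ_three]
      simp only [Matrix.cons_val_zero, Matrix.cons_val_one, Matrix.cons_val]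
      rw [← add_div, ← add_div, div_eq_one_iff_eq h.ne']
      linarith) (by
      intro i _
      fin_cases i
      · exact mp
      · exact mq
      · exact mr)
  simp only [Fin.sum_univ_three, Matrix.cons_val_zero, Matrix.cons_val_one, Matrix.cons_val] at this
  rw [hz]; exact this

theorem isCompact_cl {p q r : R2} (h : 0 < LR p q r) : IsCompact (cl p q r) :=
  IsCompact.of_isClosed_subset (Set.Finite.isCompact_convexHull ℝ (Set.toFinite _)) (isClosed_cl p q r)
    (cl_subset_convexHull h)

namespace Room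

variable (M : Room)

/-- edges of the room -/
def Edge (a b : Z2) : Prop := ∃ c, M.R a b c ∨ M.R b a c

/-- the whole line through `a` and `b` consists of edges -/
def Line (a b : Z2) : Prop := ∀ i : ℤ, M.Edge (a + i • (b - a)) (b + i • (b - a))

/-- `h` is joined to all points `w + i v` of an adjacent line -/
def Fan (h w v : Z2) : Prop := (dt (w - h) v = 1 ∨ dt (w - h) v = -1) ∧ ∀ i : ℤ, M.Edge h (w + i • v)

/-- edges that belong to a bi-infinite progression -/
def Prog (a b : Z2) : Prop := M.Line a b ∨ (∃ v, M.Fan a b v) ∨ (∃ v, M.Fan b a v)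

/-- the edge is in a progression or the two other edges of the neighbour are -/
def FineE (p q : Z2) : Prop := M.Prog p q ∨ ∃ s, M.R q p s ∧ M.Prog p s ∧ M.Prog s q

/-- fine triangles -/
def Fine (p q r : Z2) : Prop := M.FineE p q ∨ M.FineE q r ∨ M.FineE r p

/-- the room lies between two complete lines at distance two -/
def TwoWall (p q r : Z2) : Prop := ∃ o e f : Z2, dt e f = 1 ∧
  (∀ i : ℤ, M.Edge (o + i • f) (o + (i + 1) • f)) ∧
  (∀ i : ℤ, M.Edge (o + (2 : ℤ) • e + i • f) (o + (2 : ℤ) • e + (i + 1) • f)) ∧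
  (0 ≤ dt (p - o) f ∧ dt (p - o) f ≤ 2) ∧ (0 ≤ dt (q - o) f ∧ dt (q - o) f ≤ 2) ∧
  (0 ≤ dt (r - o) f ∧ dt (r - o) f ≤ 2)

variable {M}

theorem Edge.symm {a b : Z2} (h : M.Edge a b) : M.Edge b a := by
  obtain ⟨c, h | h⟩ := h
  · exact ⟨c, Or.inr h⟩
  · exact ⟨c, Or.inl h⟩

theorem Line.symm {a b : Z2} (h : M.Line a b) : M.Line b a := by
  intro i
  have h1 := (h (-i)).symm
  have e1 : b + i • (a - b) = b + -i • (b - a) := by module
  have e2 : a + i • (a - b) = a + -i • (b - a) := by module
  rw [e1, e2]; exact h1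

theorem Prog.symm {a b : Z2} (h : M.Prog a b) : M.Prog b a := by
  rcases h with h | h | h
  · exact Or.inl h.symm
  · exact Or.inr (Or.inr h)
  · exact Or.inr (Or.inl h)

theorem Fine.rot {p q r : Z2} (h : M.Fine p q r) : M.Fine q r p := by
  rcases h with h | h | h
  · exact Or.inr (Or.inr h)
  · exact Or.inl h
  · exact Or.inr (Or.inl h)

theorem TwoWall.rot {p q r : Z2} (h : M.TwoWall p q r) : M.TwoWall q r p := by
  obtain ⟨o, e, f, h1, h2, h3, h4, h5, h6⟩ := h
  exact ⟨o, e, f, h1, h2, h3, h5, h6, h4⟩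

theorem line_of_wall {p q r : Z2} (h : M.R p q r) (hs : ∀ s, ¬ M.R q p s) : M.Line p q := by
  intro i
  obtain ⟨⟨r', hr'⟩, -⟩ := M.wall_line h hs i
  exact ⟨r', Or.inl hr'⟩

theorem edge1 {p q r : Z2} (h : M.R p q r) : M.Edge p q := ⟨r, Or.inl h⟩
theorem edge2 {p q r : Z2} (h : M.R p q r) : M.Edge q r := ⟨p, Or.inl (M.rot h)⟩
theorem edge3 {p q r : Z2} (h : M.R p q r) : M.Edge r p := ⟨q, Or.inl (M.rot2 h)⟩

/-! ### frame change -/

section map
variable {o e f : Z2} (hef : dt e f = 1)

theorem fr_add_smul (o e f a b : Z2) (i : ℤ) :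
    fr o e f (a + i • (b - a)) = fr o e f a + i • (fr o e f b - fr o e f a) := by
  unfold fr
  ext
  · simp only [Prod.fst_add, Prod.snd_add, Prod.smul_fst, Prod.smul_snd, Prod.fst_sub, Prod.snd_sub,
      smul_eq_mul]
    ring
  · simp only [Prod.fst_add, Prod.snd_add, Prod.smul_fst, Prod.smul_snd, Prod.fst_sub, Prod.snd_sub,
      smul_eq_mul]
    ring

theorem map_edge {a b : Z2} (h : (M.map o e f hef).Edge a b) :
    M.Edge (fr o e f a) (fr o e f b) := by
  obtain ⟨c, h | h⟩ := h
  · exact ⟨_, Or.inl h⟩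
  · exact ⟨_, Or.inr h⟩

theorem map_line {a b : Z2} (h : (M.map o e f hef).Line a b) :
    M.Line (fr o e f a) (fr o e f b) := by
  intro i
  have := map_edge hef (h i)
  rw [fr_add_smul] at this
  have e2 : b + i • (b - a) = b + (-i) • (a - b) := by module
  rw [e2, fr_add_smul] at this
  have e3 : fr o e f b + -i • (fr o e f a - fr o e f b) = fr o e f b + i • (fr o e f b - fr o e f a) := by
    module
  rw [e3] at this
  exact this

theorem map_fan {h w v : Z2} (hh : (M.map o e f hef).Fan h w v) :
    M.Fan (fr o e f h) (fr o e f w) (v.1 • e + v.2 • f) := by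
  obtain ⟨h1, h2⟩ := hh
  constructor
  · have : dt (fr o e f w - fr o e f h) (v.1 • e + v.2 • f) = dt (w - h) v * dt e f := by
      unfold fr dt
      simp only [Prod.fst_add, Prod.snd_add, Prod.smul_fst, Prod.smul_snd, Prod.fst_sub, Prod.snd_sub,
        smul_eq_mul]
      ring
    rw [this, hef, mul_one]; exact h1
  · intro i
    have := map_edge hef (h2 i)
    have e1 : fr o e f (w + i • v) = fr o e f w + i • (v.1 • e + v.2 • f) := by
      unfold fr
      ext
      · simp only [Prod.fst_add, Prod.snd_add, Prod.smul_fst, Prod.smul_snd, smul_eq_mul]; ring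
      · simp only [Prod.fst_add, Prod.snd_add, Prod.smul_fst, Prod.smul_snd, smul_eq_mul]; ring
    rw [e1] at this
    exact this

theorem map_prog {a b : Z2} (h : (M.map o e f hef).Prog a b) :
    M.Prog (fr o e f a) (fr o e f b) := by
  rcases h with h | ⟨v, h⟩ | ⟨v, h⟩
  · exact Or.inl (map_line hef h)
  · exact Or.inr (Or.inl ⟨_, map_fan hef h⟩)
  · exact Or.inr (Or.inr ⟨_, map_fan hef h⟩)

theorem map_fineE {a b : Z2} (h : (M.map o e f hef).FineE a b) :
    M.FineE (fr o e f a) (fr o e f b) := by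
  rcases h with h | ⟨s, h1, h2, h3⟩
  · exact Or.inl (map_prog hef h)
  · exact Or.inr ⟨_, h1, map_prog hef h2, map_prog hef h3⟩

theorem map_fine {p q r : Z2} (h : (M.map o e f hef).Fine p q r) :
    M.Fine (fr o e f p) (fr o e f q) (fr o e f r) := by
  rcases h with h | h | h
  · exact Or.inl (map_fineE hef h)
  · exact Or.inr (Or.inl (map_fineE hef h))
  · exact Or.inr (Or.inr (map_fineE hef h))

end map

end Room

end Pool.IT.RM
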