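import Pool.Agent.IT.RoomBasic

set_option autoImplicit false

/-!
Abstract rooms, part 2: the structure, face-to-face lemma, the open set of a room.
-/

namespace Pool.IT.RM

/-- closed triangle of a triple of lattice points -/
def clt (t : Z2 × Z2 × Z2) : Set R2 := cl (em t.1) (em t.2.1) (em t.2.2)

/-- one step between room triangles: rotation or crossing of the first edge -/
def Step (R : Z2 → Z2 → Z2 → Prop) (t t' : Z2 × Z2 × Z2) : Prop :=
  R t'.1 t'.2.1 t'.2.2 ∧ (t' = (t.2.1, t.2.2, t.1) ∨ (t'.1 = t.2.1 ∧ t'.2.1 = t.1))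

/-- equality up to rotation -/
def Same (p q r p' q' r' : Z2) : Prop :=
  (p' = p ∧ q' = q ∧ r' = r) ∨ (p' = q ∧ q' = r ∧ r' = p) ∨ (p' = r ∧ q' = p ∧ r' = q)

/-- rooms: limit objects of unimodular triangulations -/
structure Room where
  /-- the counterclockwise triangles -/
  R : Z2 → Z2 → Z2 → Prop
  rot : ∀ {p q r : Z2}, R p q r → R q r p
  uni : ∀ {p q r : Z2}, R p q r → dt (q - p) (r - p) = 1
  disj : ∀ {p q r p' q' r' : Z2}, R p q r → R p' q' r' →
    (op (em p) (em q) (em r) ∩ op (em p') (em q') (em r')).Nonempty → Same p q r p' q' r'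
  wall_line : ∀ {p q r : Z2}, R p q r → (∀ s, ¬ R q p s) → ∀ i : ℤ,
    (∃ r', R (p + i • (q - p)) (q + i • (q - p)) r') ∧
      ∀ s, ¬ R (q + i • (q - p)) (p + i • (q - p)) s
  star_fin : ∀ (v : Z2) (F : Finset (Z2 × Z2)) (d : R2), (∀ uw ∈ F, R v uw.1 uw.2) →
    (∀ a : Z2, a ≠ v → dr d (em a - em v) ≠ 0) →
    (∀ y : R2, 0 < dr d y → ∃ uw ∈ F, 0 ≤ dr (em uw.1 - em v) y ∧ 0 ≤ dr y (em uw.2 - em v)) →
    {uw : Z2 × Z2 | R v uw.1 uw.2}.Finite
  noDelta : ∀ (a e f : Z2), dt e f = 1 → ∀ F : Finset (Z2 × Z2 × Z2),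
    (∀ t ∈ F, R t.1 t.2.1 t.2.2) →
    ¬ (clt (a, a + (3 : ℤ) • e, a + (3 : ℤ) • e + (6 : ℤ) • f) ⊆ ⋃ t ∈ F, clt t)
  conn : ∀ {p q r p' q' r' : Z2}, R p q r → R p' q' r' →
    Relation.ReflTransGen (Step R) (p, q, r) (p', q', r')

theorem LR_int (p q a : Z2) : ∃ k : ℤ, LR (em p) (em q) (em a) = (k : ℝ) ∧ k = dt (q - p) (a - p) :=
  ⟨_, LR_em p q a, rfl⟩

/-- barycentric coordinates -/
theorem bary {p q r : R2} (h : LR p q r = 1) (z : R2) :
    z = (LR q r z * p.1 + LR r p z * q.1 + LR p q z * r.1,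
      LR q r z * p.2 + LR r p z * q.2 + LR p q z * r.2) := by
  have h' := h
  unfold LR at h' ⊢
  ext
  · simp only
    linear_combination (-z.1) * h'
  · simp only
    linear_combination (-z.2) * h'

/-- the form `LR x y` at a barycentric combination -/
theorem LR_comb (x y p q r : R2) {a b c : ℝ} (h : a + b + c = 1) :
    LR x y (a * p.1 + b * q.1 + c * r.1, a * p.2 + b * q.2 + c * r.2) =
      a * LR x y p + b * LR x y q + c * LR x y r := by
  unfold LR
  simp only
  linear_combination (x.2 * (y.1 - x.1) - x.1 * (y.2 - x.2)) * h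

theorem exists_op_inter {p q r p' q' r' z w : R2} (hz : z ∈ cl p' q' r') (hw : w ∈ op p' q' r')
    (h0 : LR p q z = 0) (h1 : 0 < LR q r z) (h2 : 0 < LR r p z) (hf : 0 < LR p q w) :
    (op p q r ∩ op p' q' r').Nonempty := by
  have hc : Filter.Tendsto (fun t : ℝ => pt z w t) (nhdsWithin 0 (Set.Ioi 0)) (nhds z) := by
    have := (continuous_pt z w).tendsto 0
    rw [pt_zero] at this
    exact this.mono_left nhdsWithin_le_nhds
  have e1 : ∀ᶠ t : ℝ in nhdsWithin 0 (Set.Ioi 0), 0 < LR q r (pt z w t) := by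
    have : IsOpen {y | 0 < LR q r y} := isOpen_lt continuous_const (continuous_LR q r)
    exact hc (this.mem_nhds h1)
  have e2 : ∀ᶠ t : ℝ in nhdsWithin 0 (Set.Ioi 0), 0 < LR r p (pt z w t) := by
    have : IsOpen {y | 0 < LR r p y} := isOpen_lt continuous_const (continuous_LR r p)
    exact hc (this.mem_nhds h2)
  have e3 : ∀ᶠ t : ℝ in nhdsWithin 0 (Set.Ioi 0), t ∈ Set.Ioo (0 : ℝ) 1 :=
    Ioo_mem_nhdsGT one_pos
  obtain ⟨t, ht1, ht2, ht3⟩ := (e1.and (e2.and e3)).exists
  refine ⟨pt z w t, ⟨?_, ht1, ht2⟩, pt_mem_op hz hw ht3.1 ht3.2.le⟩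
  rw [LR_pt, h0]
  have := mul_pos ht3.1 hf
  linarith

theorem exists_op_near {p' q' r' a : R2} (huni : LR p' q' r' = 1) (ha : a ∈ cl p' q' r') {p q : R2}
    (hf : 0 < LR p q a) : ∃ w ∈ op p' q' r', 0 < LR p q w := by
  have hU : IsOpen {y | 0 < LR p q y} := isOpen_lt continuous_const (continuous_LR p q)
  obtain ⟨w, hw1, hw2⟩ := op_inter_of_cl_inter huni hU hf ha
  exact ⟨w, hw2, hw1⟩

theorem uniR {p q r : Z2} (h : dt (q - p) (r - p) = 1) : LR (em p) (em q) (em r) = 1 := by
  rw [LR_em, h]; norm_num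

theorem vert_mem_cl {p q r : Z2} (h : dt (q - p) (r - p) = 1) :
    em p ∈ cl (em p) (em q) (em r) := by
  have h1 := uniR h
  refine ⟨by rw [LR_self_left], ?_, by rw [LR_self_right]⟩
  rw [LR_rot, h1]; norm_num

theorem dt_rot {p q r : Z2} (h : dt (q - p) (r - p) = 1) : dt (r - q) (p - q) = 1 := by
  rw [← h]; simp only [dt, Prod.fst_sub, Prod.snd_sub]; ring

/-- the key computation of the face-to-face lemma -/
theorem ff_core {p q r p' q' r' : Z2} (hu : dt (q - p) (r - p) = 1)
    (hu' : dt (q' - p') (r' - p') = 1) {z : R2} (hz : z ∈ cl (em p') (em q') (em r'))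
    (h0 : LR (em p) (em q) z = 0) (h1 : 0 < LR (em q) (em r) z) (h2 : 0 < LR (em r) (em p) z)
    (hp : dt (q - p) (p' - p) = 0) (hq : dt (q - p) (q' - p) = 0) (hr : dt (q - p) (r' - p) < 0) :
    p' = q ∧ q' = p := by
  set v := q - p with hv
  -- coordinates along the line
  set j := dt (p' - p) (r - p) with hj
  set k := dt (q' - p) (r - p) with hk
  have hu1 : v.1 * (r - p).2 - v.2 * (r - p).1 = 1 := hu
  have hp1 : p' - p = j • v := by
    have e1 : v.1 * (p' - p).2 - v.2 * (p' - p).1 = 0 := hp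
    ext
    · rw [hj, Prod.smul_fst, smul_eq_mul]; simp only [dt]
      linear_combination (-(p' - p).1) * hu1 + (r - p).1 * e1
    · rw [hj, Prod.smul_snd, smul_eq_mul]; simp only [dt]
      linear_combination (-(p' - p).2) * hu1 + (r - p).2 * e1
  have hq1 : q' - p = k • v := by
    have e1 : v.1 * (q' - p).2 - v.2 * (q' - p).1 = 0 := hq
    ext
    · rw [hk, Prod.smul_fst, smul_eq_mul]; simp only [dt]
      linear_combination (-(q' - p).1) * hu1 + (r - p).1 * e1
    · rw [hk, Prod.smul_snd, smul_eq_mul]; simp only [dt]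
      linear_combination (-(q' - p).2) * hu1 + (r - p).2 * e1
  have hkj : (k - j) * dt v (r' - p) = 1 := by
    have e : dt (q' - p') (r' - p') = (k - j) * dt v (r' - p) := by
      have e2 : q' - p' = (k - j) • v := by
        rw [sub_smul, ← hp1, ← hq1]; abel
      have e3 : r' - p' = (r' - p) - j • v := by rw [← hp1]; abel
      rw [e2, e3]; simp only [dt, Prod.fst_sub, Prod.snd_sub, Prod.smul_fst, Prod.smul_snd,
        smul_eq_mul]; ring
    rw [← e, hu']
  have hkj1 : k - j = -1 := by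
    have : k - j < 0 := by
      by_contra hcon
      push Not at hcon
      have := mul_nonpos_of_nonneg_of_nonpos hcon hr.le
      omega
    have h3 : k - j = 1 ∨ k - j = -1 := Int.eq_one_or_neg_one_of_mul_eq_one hkj
    omega
  -- the point z
  have hz' := bary (uniR hu') z
  obtain ⟨a1, a2, a3⟩ := hz
  set lr := LR (em p') (em q') z with hlr
  set lp := LR (em q') (em r') z with hlp
  set lq := LR (em r') (em p') z with hlq
  have hsum : lr + lp + lq = 1 := by
    rw [hlr, hlp, hlq, LR_add, uniR hu']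
  have hfz : LR (em p) (em q) z = lp * LR (em p) (em q) (em p') + lq * LR (em p) (em q) (em q')
      + lr * LR (em p) (em q) (em r') := by
    have hs' : lp + lq + lr = 1 := by linarith
    conv_lhs => rw [hz']
    exact LR_comb _ _ _ _ _ hs'
  rw [h0, LR_em, LR_em, LR_em, hp, hq] at hfz
  have hrr : ((dt v (r' - p) : ℤ) : ℝ) < 0 := by exact_mod_cast hr
  have hlr0 : lr = 0 := by
    have : lr * ((dt v (r' - p) : ℤ) : ℝ) = 0 := by simpa using hfz.symm
    rcases mul_eq_zero.1 this with h | h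
    · exact h
    · exact absurd h hrr.ne
  -- LR r p z = j - lq
  have hτ : LR (em r) (em p) z = (j : ℝ) * lp + (k : ℝ) * lq := by
    have hs' : lp + lq + lr = 1 := by linarith
    have e : LR (em r) (em p) z = lp * LR (em r) (em p) (em p') + lq * LR (em r) (em p) (em q')
      + lr * LR (em r) (em p) (em r') := by
      conv_lhs => rw [hz']
      exact LR_comb _ _ _ _ _ hs'
    rw [e, hlr0]
    have f1 : LR (em r) (em p) (em p') = (j : ℝ) := by
      rw [hj, LR_em]; congr 1; simp only [dt, Prod.fst_sub, Prod.snd_sub]; ring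
    have f2 : LR (em r) (em p) (em q') = (k : ℝ) := by
      rw [hk, LR_em]; congr 1; simp only [dt, Prod.fst_sub, Prod.snd_sub]; ring
    rw [f1, f2]; ring
  have hsum3 : LR (em q) (em r) z + LR (em r) (em p) z = 1 := by
    have := LR_add (em p) (em q) (em r) z
    rw [h0, uniR hu] at this; linarith
  have hkR : (k : ℝ) = j - 1 := by
    have : k = j - 1 := by omega
    rw [this]; push_cast; ring
  have hτ2 : LR (em r) (em p) z = (j : ℝ) - lq := by
    rw [hτ, hkR]
    have : lp = 1 - lq := by linarith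
    rw [this]; ring
  have hj1 : j = 1 := by
    have g1 : (0 : ℝ) < j := by nlinarith
    have g2 : (j : ℝ) < 2 := by nlinarith
    have g1' : 0 < j := by exact_mod_cast g1
    have g2' : j < 2 := by exact_mod_cast g2
    omega
  have hk0 : k = 0 := by omega
  constructor
  · have : p' - p = q - p := by rw [hp1, hj1, one_smul]
    exact sub_left_injective this
  · have : q' - p = 0 := by rw [hq1, hk0, zero_smul]
    exact sub_eq_zero.1 this

namespace Room

variable (M : Room)

theorem rot2 {p q r : Z2} (h : M.R p q r) : M.R r p q := M.rot (M.rot h)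

theorem ffaux {p q r p' q' r' : Z2} (h : M.R p q r) (h' : M.R p' q' r') {z : R2}
    (hz : z ∈ cl (em p') (em q') (em r'))
    (h0 : LR (em p) (em q) z = 0) (h1 : 0 < LR (em q) (em r) z) (h2 : 0 < LR (em r) (em p) z)
    (hpos : ∃ a, em a ∈ cl (em p') (em q') (em r') ∧ 0 < dt (q - p) (a - p)) :
    Same p q r p' q' r' := by
  obtain ⟨a, ha, hf⟩ := hpos
  have hf' : 0 < LR (em p) (em q) (em a) := by rw [LR_em]; exact_mod_cast hf
  obtain ⟨w, hw1, hw2⟩ := exists_op_near (uniR (M.uni h')) ha hf'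
  exact M.disj h h' (exists_op_inter hz hw1 h0 h1 h2 hw2)

/-- face-to-face lemma -/
theorem ff {p q r p' q' r' : Z2} (h : M.R p q r) (h' : M.R p' q' r') {z : R2}
    (hz : z ∈ cl (em p') (em q') (em r'))
    (h0 : LR (em p) (em q) z = 0) (h1 : 0 < LR (em q) (em r) z) (h2 : 0 < LR (em r) (em p) z) :
    Same p q r p' q' r' ∨ (p' = q ∧ q' = p) ∨ (q' = q ∧ r' = p) ∨ (r' = q ∧ p' = p) := by
  have hu := M.uni h
  have hu' := M.uni h'
  have hu2 := dt_rot hu'
  have hu3 := dt_rot hu2
  have vp : em p' ∈ cl (em p') (em q') (em r') := vert_mem_cl hu'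
  have vq : em q' ∈ cl (em p') (em q') (em r') := by rw [← cl_rot]; exact vert_mem_cl hu2
  have vr : em r' ∈ cl (em p') (em q') (em r') := by
    rw [← cl_rot, ← cl_rot]; exact vert_mem_cl hu3
  by_cases c1 : 0 < dt (q - p) (p' - p)
  · exact Or.inl (M.ffaux h h' hz h0 h1 h2 ⟨_, vp, c1⟩)
  by_cases c2 : 0 < dt (q - p) (q' - p)
  · exact Or.inl (M.ffaux h h' hz h0 h1 h2 ⟨_, vq, c2⟩)
  by_cases c3 : 0 < dt (q - p) (r' - p)
  · exact Or.inl (M.ffaux h h' hz h0 h1 h2 ⟨_, vr, c3⟩)
  push Not at c1 c2 c3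
  right
  -- weights
  have hz' := bary (uniR hu') z
  have hzz := hz
  obtain ⟨a1, a2, a3⟩ := hzz
  set lr := LR (em p') (em q') z with hlr
  set lp := LR (em q') (em r') z with hlp
  set lq := LR (em r') (em p') z with hlq
  have hsum : lr + lp + lq = 1 := by
    rw [hlr, hlp, hlq, LR_add, uniR hu']
  have hs' : lp + lq + lr = 1 := by linarith
  have hfz : LR (em p) (em q) z = lp * LR (em p) (em q) (em p') + lq * LR (em p) (em q) (em q')
      + lr * LR (em p) (em q) (em r') := by
    conv_lhs => rw [hz']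
    exact LR_comb _ _ _ _ _ hs'
  rw [h0, LR_em, LR_em, LR_em] at hfz
  set fp := dt (q - p) (p' - p) with hfp
  set fq := dt (q - p) (q' - p) with hfq
  set fr := dt (q - p) (r' - p) with hfr
  have c1' : (fp : ℝ) ≤ 0 := by exact_mod_cast c1
  have c2' : (fq : ℝ) ≤ 0 := by exact_mod_cast c2
  have c3' : (fr : ℝ) ≤ 0 := by exact_mod_cast c3
  have e1 : lp * (fp : ℝ) = 0 := by
    nlinarith [mul_nonneg a2 (neg_nonneg.2 c1'), mul_nonneg a3 (neg_nonneg.2 c2'),
      mul_nonneg a1 (neg_nonneg.2 c3')]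
  have e2 : lq * (fq : ℝ) = 0 := by
    nlinarith [mul_nonneg a2 (neg_nonneg.2 c1'), mul_nonneg a3 (neg_nonneg.2 c2'),
      mul_nonneg a1 (neg_nonneg.2 c3')]
  have e3 : lr * (fr : ℝ) = 0 := by
    nlinarith [mul_nonneg a2 (neg_nonneg.2 c1'), mul_nonneg a3 (neg_nonneg.2 c2'),
      mul_nonneg a1 (neg_nonneg.2 c3')]
  -- z is not a lattice point
  have hsum3 : LR (em q) (em r) z + LR (em r) (em p) z = 1 := by
    have := LR_add (em p) (em q) (em r) z
    rw [h0, uniR hu] at this; linarith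
  have hnl : ∀ a : Z2, z ≠ em a := by
    intro a hza
    rw [hza, LR_em] at h1
    rw [hza, LR_em] at h2
    rw [hza, LR_em, LR_em] at hsum3
    have g1 : 0 < dt (r - q) (a - q) := by exact_mod_cast h1
    have g2 : 0 < dt (p - r) (a - r) := by exact_mod_cast h2
    have g3 : dt (r - q) (a - q) + dt (p - r) (a - r) = 1 := by exact_mod_cast hsum3
    omega
  -- nondegeneracy: not all three vanish
  have hnd : ¬ (fp = 0 ∧ fq = 0 ∧ fr = 0) := by
    rintro ⟨g1, g2, g3⟩
    have hv : dt (q - p) (r - p) = 1 := hu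
    -- all points on the line: determinant zero
    have key : dt (q - p) (r - p) * dt (q' - p') (r' - p') =
        dt (q' - p') (r - p) * (fr - fp) - (fq - fp) * dt (r' - p') (r - p) := by
      rw [hfp, hfq, hfr]; simp only [dt, Prod.fst_sub, Prod.snd_sub]; ring
    rw [hv, hu', g1, g2, g3] at key
    norm_num at key
  -- two positive weights
  have hz1 : ¬ (lp = 0 ∧ lq = 0) := by
    rintro ⟨g1, g2⟩
    have g3 : lr = 1 := by linarith
    apply hnl r'
    rw [hz', g1, g2, g3]; ext <;> simp [em]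
  have hz2 : ¬ (lp = 0 ∧ lr = 0) := by
    rintro ⟨g1, g2⟩
    have g3 : lq = 1 := by linarith
    apply hnl q'
    rw [hz', g1, g2, g3]; ext <;> simp [em]
  have hz3 : ¬ (lq = 0 ∧ lr = 0) := by
    rintro ⟨g1, g2⟩
    have g3 : lp = 1 := by linarith
    apply hnl p'
    rw [hz', g1, g2, g3]; ext <;> simp [em]
  have f1 : lp = 0 ∨ fp = 0 := by
    rcases mul_eq_zero.1 e1 with g | g
    · exact Or.inl g
    · exact Or.inr (by exact_mod_cast g)
  have f2 : lq = 0 ∨ fq = 0 := by
    rcases mul_eq_zero.1 e2 with g | g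
    · exact Or.inl g
    · exact Or.inr (by exact_mod_cast g)
  have f3 : lr = 0 ∨ fr = 0 := by
    rcases mul_eq_zero.1 e3 with g | g
    · exact Or.inl g
    · exact Or.inr (by exact_mod_cast g)
  by_cases d1 : fp = 0
  · by_cases d2 : fq = 0
    · have d3 : fr < 0 := by
        rcases lt_or_eq_of_le c3 with g | g
        · exact g
        · exact absurd ⟨d1, d2, g⟩ hnd
      exact Or.inl (ff_core hu hu' hz h0 h1 h2 d1 d2 d3)
    · have d2' : fq < 0 := lt_of_le_of_ne c2 d2
      have d3 : fr = 0 := by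
        by_contra d3
        exact hz3 ⟨f2.resolve_right d2, f3.resolve_right d3⟩
      right; right
      have := ff_core (r := r) hu hu3 (z := z) (by rw [← cl_rot]; exact hz) h0 h1 h2 d3 d1 d2'
      exact this
  · have d1' : fp < 0 := lt_of_le_of_ne c1 d1
    have d2 : fq = 0 := by
      by_contra d2
      exact hz1 ⟨f1.resolve_right d1, f2.resolve_right d2⟩
    have d3 : fr = 0 := by
      by_contra d3
      exact hz2 ⟨f1.resolve_right d1, f3.resolve_right d3⟩
    right; left
    exact ff_core (r := r) hu hu2 (z := z) (by rw [cl_rot]; exact hz) h0 h1 h2 d2 d3 d1'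

end Room

/-! ### the open set of a room -/

/-- union of finitely many closed triangles -/
def UF (F : Finset (Z2 × Z2 × Z2)) : Set R2 := ⋃ t ∈ F, clt t

theorem isClosed_UF (F : Finset (Z2 × Z2 × Z2)) : IsClosed (UF F) := by
  unfold UF
  exact Set.Finite.isClosed_biUnion F.finite_toSet (fun t _ => isClosed_cl _ _ _)

theorem mem_UF {F : Finset (Z2 × Z2 × Z2)} {z : R2} : z ∈ UF F ↔ ∃ t ∈ F, z ∈ clt t := by
  simp [UF]

theorem UF_mono {F G : Finset (Z2 × Z2 × Z2)} (h : F ⊆ G) : UF F ⊆ UF G := by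
  intro z hz
  obtain ⟨t, ht, hz⟩ := mem_UF.1 hz
  exact mem_UF.2 ⟨t, h ht, hz⟩

namespace Room

variable (M : Room)

/-- a finite set of room triangles -/
def Fin (F : Finset (Z2 × Z2 × Z2)) : Prop := ∀ t ∈ F, M.R t.1 t.2.1 t.2.2

/-- points having a neighbourhood covered by finitely many room triangles -/
def Om : Set R2 := {z | ∃ F : Finset (Z2 × Z2 × Z2), M.Fin F ∧ z ∈ interior (UF F)}

theorem isOpen_Om : IsOpen M.Om := by
  rw [isOpen_iff_mem_nhds]
  rintro z ⟨F, hF, hz⟩
  have : interior (UF F) ⊆ M.Om := fun w hw => ⟨F, hF, hw⟩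
  exact Filter.mem_of_superset (isOpen_interior.mem_nhds hz) this

theorem op_subset_Om {p q r : Z2} (h : M.R p q r) : op (em p) (em q) (em r) ⊆ M.Om := by
  intro z hz
  refine ⟨{(p, q, r)}, ?_, ?_⟩
  · intro t ht
    rw [Finset.mem_singleton] at ht
    subst ht; exact h
  · rw [mem_interior]
    refine ⟨op (em p) (em q) (em r), ?_, isOpen_op _ _ _, hz⟩
    intro w hw
    exact mem_UF.2 ⟨(p, q, r), by simp, op_subset_cl _ _ _ hw⟩

theorem fin_union [DecidableEq (Z2 × Z2 × Z2)] {F G : Finset (Z2 × Z2 × Z2)} (hF : M.Fin F) (hG : M.Fin G) : M.Fin (F ∪ G) := by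
  intro t ht
  rcases Finset.mem_union.1 ht with h | h
  · exact hF t h
  · exact hG t h

/-- compact subsets of `Om` are covered by finitely many room triangles -/
theorem exists_fin_of_compact {K : Set R2} (hK : IsCompact K) (h : K ⊆ M.Om) :
    ∃ F, M.Fin F ∧ K ⊆ interior (UF F) := by
  classical
  refine hK.induction_on (p := fun s => ∃ F, M.Fin F ∧ s ⊆ interior (UF F)) ?_ ?_ ?_ ?_
  · exact ⟨∅, by intro t ht; simp at ht, by simp⟩
  · rintro s t hst ⟨F, hF, ht⟩
    exact ⟨F, hF, hst.trans ht⟩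
  · rintro s t ⟨F, hF, hs⟩ ⟨G, hG, ht⟩
    refine ⟨F ∪ G, M.fin_union hF hG, ?_⟩
    apply Set.union_subset
    · exact hs.trans (interior_mono (UF_mono Finset.subset_union_left))
    · exact ht.trans (interior_mono (UF_mono Finset.subset_union_right))
  · intro z hz
    obtain ⟨F, hF, hz'⟩ := h hz
    refine ⟨interior (UF F), ?_, F, hF, subset_rfl⟩
    exact mem_nhdsWithin_of_mem_nhds (isOpen_interior.mem_nhds hz')

/-- a room triangle containing an interior point of the union belongs to the family -/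
theorem mem_of_interior {F : Finset (Z2 × Z2 × Z2)} (hF : M.Fin F) {z : R2}
    (hz : z ∈ interior (UF F)) {p q r : Z2} (h : M.R p q r)
    (hzc : z ∈ cl (em p) (em q) (em r)) :
    ∃ t ∈ F, Same p q r t.1 t.2.1 t.2.2 := by
  obtain ⟨w, hw1, hw2⟩ := op_inter_of_cl_inter (uniR (M.uni h)) isOpen_interior hz hzc
  obtain ⟨t, ht, hwt⟩ := mem_UF.1 (interior_subset hw1)
  obtain ⟨y, hy1, hy2⟩ := op_inter_of_cl_inter (uniR (M.uni (hF t ht)))
    (isOpen_op (em p) (em q) (em r)) hw2 hwt
  exact ⟨t, ht, M.disj h (hF t ht) ⟨y, hy1, hy2⟩⟩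

theorem Same.cl_eq {p q r p' q' r' : Z2} (h : Same p q r p' q' r') :
    cl (em p') (em q') (em r') = cl (em p) (em q) (em r) := by
  rcases h with ⟨rfl, rfl, rfl⟩ | ⟨rfl, rfl, rfl⟩ | ⟨rfl, rfl, rfl⟩
  · rfl
  · exact cl_rot _ _ _
  · rw [← cl_rot]

/-- two triangles on the two sides of an edge cover a neighbourhood of the inner points of the edge -/
theorem edge_interior {p q r s : Z2} (h : M.R p q r) (h' : M.R q p s) {z : R2}
    (h0 : LR (em p) (em q) z = 0) (h1 : 0 < LR (em q) (em r) z) (h2 : 0 < LR (em r) (em p) z) :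
    z ∈ interior (cl (em p) (em q) (em r) ∪ cl (em q) (em p) (em s)) := by
  -- the two other forms of the second triangle are positive
  have hz := bary (uniR (M.uni h)) z
  have hs : LR (em q) (em r) z + LR (em r) (em p) z = 1 := by
    have := LR_add (em p) (em q) (em r) z
    rw [h0, uniR (M.uni h)] at this; linarith
  set a := LR (em q) (em r) z with ha
  set b := LR (em r) (em p) z with hb
  have hu := uniR (M.uni h')
  have k1 : LR (em p) (em s) z = b * 1 := by
    have e : LR (em p) (em s) z = a * LR (em p) (em s) (em p) + b * LR (em p) (em s) (em q)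
        + 0 * LR (em p) (em s) (em r) := by
      conv_lhs => rw [hz, h0]
      exact LR_comb _ _ _ _ _ (by linarith)
    rw [e, LR_self_left]
    have : LR (em p) (em s) (em q) = 1 := by rw [← hu]; unfold LR; ring
    rw [this]; ring
  have k2 : LR (em s) (em q) z = a * 1 := by
    have e : LR (em s) (em q) z = a * LR (em s) (em q) (em p) + b * LR (em s) (em q) (em q)
        + 0 * LR (em s) (em q) (em r) := by
      conv_lhs => rw [hz, h0]
      exact LR_comb _ _ _ _ _ (by linarith)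
    rw [e, LR_self_right]
    have : LR (em s) (em q) (em p) = 1 := by rw [← hu]; unfold LR; ring
    rw [this]; ring
  have o1 : IsOpen {y | 0 < LR (em q) (em r) y} := isOpen_lt continuous_const (continuous_LR _ _)
  have o2 : IsOpen {y | 0 < LR (em r) (em p) y} := isOpen_lt continuous_const (continuous_LR _ _)
  have o3 : IsOpen {y | 0 < LR (em p) (em s) y} := isOpen_lt continuous_const (continuous_LR _ _)
  have o4 : IsOpen {y | 0 < LR (em s) (em q) y} := isOpen_lt continuous_const (continuous_LR _ _)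
  rw [mem_interior]
  refine ⟨_, ?_, (o1.inter o2).inter (o3.inter o4), ⟨⟨h1, h2⟩, ?_, ?_⟩⟩
  · rintro y ⟨⟨y1, y2⟩, y3, y4⟩
    rcases le_total 0 (LR (em p) (em q) y) with g | g
    · left; exact ⟨g, y1.le, y2.le⟩
    · right; refine ⟨?_, y3.le, y4.le⟩
      rw [LR_swap]; linarith
  · change 0 < LR (em p) (em s) z
    rw [k1]; linarith
  · change 0 < LR (em s) (em q) z
    rw [k2]; linarith

theorem edge_mem_Om {p q r s : Z2} (h : M.R p q r) (h' : M.R q p s) {z : R2}
    (h0 : LR (em p) (em q) z = 0) (h1 : 0 < LR (em q) (em r) z) (h2 : 0 < LR (em r) (em p) z) :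
    z ∈ M.Om := by
  classical
  refine ⟨{(p, q, r), (q, p, s)}, ?_, ?_⟩
  · intro t ht
    simp only [Finset.mem_insert, Finset.mem_singleton] at ht
    rcases ht with rfl | rfl
    · exact h
    · exact h'
  · refine interior_mono ?_ (M.edge_interior h h' h0 h1 h2)
    rintro y (hy | hy)
    · exact mem_UF.2 ⟨(p, q, r), by simp, hy⟩
    · exact mem_UF.2 ⟨(q, p, s), by simp, hy⟩

/-- if an inner point of an edge is in `Om` then the neighbour across the edge is in the room -/
theorem neighbor_of_Om {p q r : Z2} (h : M.R p q r) {z : R2} (hz : z ∈ M.Om)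
    (h0 : LR (em p) (em q) z = 0) (h1 : 0 < LR (em q) (em r) z) (h2 : 0 < LR (em r) (em p) z) :
    ∃ s, M.R q p s := by
  obtain ⟨F, hF, hz⟩ := hz
  -- points on the other side
  have hc : Filter.Tendsto (fun t : ℝ => pt z (em r) (-t)) (nhdsWithin 0 (Set.Ioi 0)) (nhds z) := by
    have hcont : Continuous (fun t : ℝ => pt z (em r) (-t)) := by unfold pt; fun_prop
    have := hcont.tendsto 0
    simp only [neg_zero, pt_zero] at this
    exact this.mono_left nhdsWithin_le_nhds
  have e1 : ∀ᶠ t : ℝ in nhdsWithin 0 (Set.Ioi 0), pt z (em r) (-t) ∈ UF F :=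
    hc (mem_interior_iff_mem_nhds.1 hz)
  have e2 : ∃ᶠ t : ℝ in nhdsWithin 0 (Set.Ioi 0), pt z (em r) (-t) ∈ UF F := e1.frequently
  have e3 : ∃ t ∈ F, ∃ᶠ x : ℝ in nhdsWithin 0 (Set.Ioi 0), pt z (em r) (-x) ∈ clt t := by
    by_contra hcon
    push Not at hcon
    have : ∀ᶠ x : ℝ in nhdsWithin 0 (Set.Ioi 0), ∀ t ∈ F, ¬ (pt z (em r) (-x) ∈ clt t) := by
      rw [Finset.eventually_all]
      intro t ht
      exact hcon t ht
    obtain ⟨x, g1, g2⟩ := (e1.and this).exists
    obtain ⟨t, ht, hx⟩ := mem_UF.1 g1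
    exact g2 t ht hx
  obtain ⟨t, ht, hf⟩ := e3
  have hzt : z ∈ clt t := by
    have : z ∈ closure (clt t) := mem_closure_of_frequently_of_tendsto hf hc
    rwa [(show IsClosed (clt t) from isClosed_cl _ _ _).closure_eq] at this
  have hnot : ¬ Same p q r t.1 t.2.1 t.2.2 := by
    intro hs
    have hcl : clt t = cl (em p) (em q) (em r) := Same.cl_eq hs
    obtain ⟨x, g1, g2⟩ := (hf.and_eventually (self_mem_nhdsWithin : Set.Ioi (0:ℝ) ∈ _)).exists
    rw [hcl] at g1
    have := g1.1
    rw [LR_pt, h0, uniR (M.uni h)] at this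
    have g2' : (0:ℝ) < x := g2
    linarith
  rcases M.ff h (hF t ht) hzt h0 h1 h2 with g | ⟨g1, g2⟩ | ⟨g1, g2⟩ | ⟨g1, g2⟩
  · exact absurd g hnot
  · have := hF t ht
    rw [g1, g2] at this
    exact ⟨_, this⟩
  · have := M.rot (hF t ht)
    rw [g1, g2] at this
    exact ⟨_, this⟩
  · have := M.rot2 (hF t ht)
    rw [g1, g2] at this
    exact ⟨_, this⟩

end Room

end Pool.IT.RM
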