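import Pool.Agent.IT.RoomConv

set_option autoImplicit false

/-!
Abstract rooms, part 6: directions at a vertex, finite covers.
-/

namespace Pool.IT.RM

theorem exit_scalar' {b c b' c' : ℝ} (hb : 0 ≤ b) (hc : 0 ≤ c) (h : b' < 0 ∨ c' < 0) :
    ∃ τ : ℝ, 0 ≤ τ ∧ τ ≤ 1 ∧ 0 ≤ (1 - τ) * b + τ * b' ∧ 0 ≤ (1 - τ) * c + τ * c' ∧
      ((1 - τ) * b + τ * b' = 0 ∨ (1 - τ) * c + τ * c' = 0) := by
  have key : ∀ {b c b' c' : ℝ}, 0 ≤ b → 0 ≤ c → b' < 0 → (c' < 0 → b * (c - c') ≤ c * (b - b')) →
      ∃ τ : ℝ, 0 ≤ τ ∧ τ ≤ 1 ∧ 0 ≤ (1 - τ) * b + τ * b' ∧ 0 ≤ (1 - τ) * c + τ * c' ∧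
      ((1 - τ) * b + τ * b' = 0 ∨ (1 - τ) * c + τ * c' = 0) := by
    intro b c b' c' hb hc hb' hcc
    have hpos : 0 < b - b' := by linarith
    have e0 : (1 - b / (b - b')) * b + b / (b - b') * b' = 0 := by
      field_simp; ring
    refine ⟨b / (b - b'), div_nonneg hb hpos.le, ?_, e0.ge, ?_, Or.inl e0⟩
    · rw [div_le_one hpos]; linarith
    · have e1 : (1 - b / (b - b')) * c + b / (b - b') * c' = (c * (b - b') - b * (c - c')) / (b - b') := by
        field_simp; ring
      rw [e1]
      apply div_nonneg _ hpos.le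
      rcases lt_or_ge c' 0 with g | g
      · linarith [hcc g]
      · nlinarith [mul_nonneg hb g, mul_nonneg hc (neg_pos.2 hb').le]
  rcases h with h | h
  · rcases lt_or_ge c' 0 with g | g
    · rcases le_total (b * (c - c')) (c * (b - b')) with k | k
      · exact key hb hc h (fun _ => k)
      · obtain ⟨τ, h1, h2, h3, h4, h5⟩ := key hc hb g (fun _ => k)
        exact ⟨τ, h1, h2, h4, h3, h5.symm⟩
    · exact key hb hc h (fun k => absurd k (not_lt.2 g))
  · rcases lt_or_ge b' 0 with g | g
    · rcases le_total (b * (c - c')) (c * (b - b')) with k | k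
      · exact key hb hc g (fun _ => k)
      · obtain ⟨τ, h1, h2, h3, h4, h5⟩ := key hc hb h (fun _ => k)
        exact ⟨τ, h1, h2, h4, h3, h5.symm⟩
    · obtain ⟨τ, h1, h2, h3, h4, h5⟩ := key hc hb h (fun k => absurd k (not_lt.2 g))
      exact ⟨τ, h1, h2, h4, h3, h5.symm⟩

theorem dr_pt_right (u c d : R2) (s : ℝ) : dr u (pt c d s) = (1 - s) * dr u c + s * dr u d := by
  unfold dr pt; simp only; ring

theorem dr_pt_left (u c d : R2) (s : ℝ) : dr (pt c d s) u = (1 - s) * dr c u + s * dr d u := by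
  unfold dr pt; simp only; ring

theorem dr_smul_right (u y : R2) (t : ℝ) : dr u (t • y) = t * dr u y := by
  unfold dr; simp; ring

theorem dr_smul_left (u y : R2) (t : ℝ) : dr (t • y) u = t * dr y u := by
  unfold dr; simp; ring

theorem one_le_norm {a v : Z2} (h : a ≠ v) : 1 ≤ ‖em a - em v‖ := by
  have key : ∀ k : ℤ, k ≠ 0 → (1:ℝ) ≤ |(k:ℝ)| := by
    intro k hk
    have := Int.one_le_abs hk
    exact_mod_cast this
  by_cases h1 : a.1 = v.1
  · have h2 : a.2 ≠ v.2 := fun h2 => h (Prod.ext h1 h2)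
    have := key (a.2 - v.2) (sub_ne_zero.2 h2)
    push_cast at this
    exact this.trans (norm_snd_le (em a - em v))
  · have := key (a.1 - v.1) (sub_ne_zero.2 h1)
    push_cast at this
    exact this.trans (norm_fst_le (em a - em v))

/-- the closed triangle near its first vertex is the cone -/
theorem mem_cl_iff_cone (v u w : Z2) (y : R2) :
    em v + y ∈ cl (em v) (em u) (em w) ↔ y ∈ cone v u w ∧ 0 ≤ LR (em u) (em w) (em v + y) := by
  unfold cl cone
  simp only [Set.mem_ofPred_eq]
  rw [LR_add_vec (em v) (em u), LR_add_vec (em w) (em v), LR_self_left, LR_self_right]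
  have : dr (em v - em w) y = dr y (em w - em v) := by
    unfold dr; simp only [Prod.fst_sub, Prod.snd_sub]; ring
  rw [this, zero_add, zero_add]
  tauto

namespace Room

variable (M : Room)

/-- vertices of the room -/
def Vx (v : Z2) : Prop := ∃ u w, M.R v u w

variable {M}

theorem vx1 {p q r : Z2} (h : M.R p q r) : M.Vx p := ⟨q, r, h⟩
theorem vx2 {p q r : Z2} (h : M.R p q r) : M.Vx q := ⟨r, p, M.rot h⟩
theorem vx3 {p q r : Z2} (h : M.R p q r) : M.Vx r := ⟨p, q, M.rot2 h⟩

theorem cl_subset_closure {p q r : Z2} (h : M.R p q r) :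
    cl (em p) (em q) (em r) ⊆ closure M.Om := by
  intro z hz
  rw [mem_closure_iff]
  intro U hU hzU
  obtain ⟨w, hw1, hw2⟩ := op_inter_of_cl_inter (uniR (M.uni h)) hU hzU hz
  exact ⟨w, hw1, M.op_subset_Om h hw2⟩

theorem Vx.mem_closure {v : Z2} (h : M.Vx v) : em v ∈ closure M.Om := by
  obtain ⟨u, w, hR⟩ := h
  exact cl_subset_closure hR (vert_mem_cl (M.uni hR))

theorem exists_mem_cl {z : R2} (h : z ∈ M.Om) : ∃ p q r, M.R p q r ∧ z ∈ cl (em p) (em q) (em r) := by
  obtain ⟨F, hF, hz⟩ := h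
  obtain ⟨t, ht, hz'⟩ := mem_UF.1 (interior_subset hz)
  exact ⟨t.1, t.2.1, t.2.2, hF t ht, hz'⟩

/-- going from a point of the closure towards a point of `Om` -/
theorem pt_mem_Om {x y : R2} (hx : x ∈ closure M.Om) (hy : y ∈ M.Om) {t : ℝ} (h0 : 0 < t)
    (h1 : t ≤ 1) : pt x y t ∈ M.Om := by
  rcases h1.lt_or_eq with h1 | rfl
  · have hc := M.convex_Om
    have hi : interior M.Om = M.Om := M.isOpen_Om.interior_eq
    have := hc.openSegment_closure_interior_subset_interior hx (by rwa [hi])
    rw [hi] at this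
    apply this
    refine ⟨1 - t, t, by linarith, h0, by ring, ?_⟩
    rw [pt_eq]
  · rw [pt_one]; exact hy

/-- scaling a direction at a point of the closure -/
theorem dir_mem_Om {x d : R2} (hx : x ∈ closure M.Om) {ε : ℝ} (hd : x + ε • d ∈ M.Om) {δ : ℝ}
    (h0 : 0 < δ) (h1 : δ ≤ ε) : x + δ • d ∈ M.Om := by
  have hε : 0 < ε := lt_of_lt_of_le h0 h1
  have := pt_mem_Om hx hd (t := δ / ε) (div_pos h0 hε) ((div_le_one hε).2 h1)
  convert this using 1
  ext <;> simp [pt] <;> field_simp <;> ring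

/-- a local version of `starCone_nhds` -/
theorem cone_nhds {v u w : Z2} (hR : M.R v u w) {y : R2} (hy : y ≠ 0) (h : y ∈ cone v u w)
    (hsucc : dr y (em w - em v) = 0 → ∃ x, M.R v w x)
    (hpred : dr (em u - em v) y = 0 → ∃ x, M.R v x u) :
    ∃ G : Finset (Z2 × Z2), (∀ uw ∈ G, M.R v uw.1 uw.2) ∧
      ∀ᶠ z in nhds y, ∃ uw ∈ G, z ∈ cone v uw.1 uw.2 := by
  classical
  obtain ⟨h1, h2⟩ := h
  have hu := M.uni hR
  have hdet : dr (em u - em v) (em w - em v) = 1 := by rw [dr_em, hu]; norm_num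
  have hco := cone_coord hu y
  rcases h1.lt_or_eq with g1 | g1 <;> rcases h2.lt_or_eq with g2 | g2
  · -- interior of the cone
    refine ⟨{(u, w)}, ?_, ?_⟩
    · intro uw huw
      rw [Finset.mem_singleton] at huw
      subst huw; exact hR
    · have hO : IsOpen ({y | 0 < dr (em u - em v) y} ∩ {y | 0 < dr y (em w - em v)}) :=
        (isOpen_lt continuous_const (continuous_dr_right _)).inter
          (isOpen_lt continuous_const (continuous_dr_left _))
      filter_upwards [hO.mem_nhds ⟨g1, g2⟩] with z hz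
      exact ⟨(u, w), by simp, le_of_lt hz.1, le_of_lt hz.2⟩
  · -- on the ray `w`
    obtain ⟨x, hx⟩ := hsucc g2.symm
    have hux := M.uni hx
    have hdetx : dr (em w - em v) (em x - em v) = 1 := by rw [dr_em, hux]; norm_num
    set β := dr (em u - em v) y with hβ
    have e3 : dr y (em x - em v) = β := by
      rw [← g2] at hco
      have e : dr y (em x - em v) = β * dr (em w - em v) (em x - em v) := by
        conv_lhs => rw [hco]
        unfold dr; ring
      rw [e, hdetx, mul_one]
    refine ⟨{(u, w), (w, x)}, ?_, ?_⟩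
    · intro uw huw
      simp only [Finset.mem_insert, Finset.mem_singleton] at huw
      rcases huw with rfl | rfl
      · exact hR
      · exact hx
    · have hO : IsOpen ({y | 0 < dr (em u - em v) y} ∩ {y | 0 < dr y (em x - em v)}) :=
        (isOpen_lt continuous_const (continuous_dr_right _)).inter
          (isOpen_lt continuous_const (continuous_dr_left _))
      filter_upwards [hO.mem_nhds ⟨g1, by change 0 < dr y (em x - em v); rw [e3]; exact g1⟩] with z hz
      rcases le_total 0 (dr z (em w - em v)) with k | k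
      · exact ⟨(u, w), by simp, le_of_lt hz.1, k⟩
      · refine ⟨(w, x), by simp, ?_, le_of_lt hz.2⟩
        rw [dr_anti]; linarith
  · -- on the ray `u`
    obtain ⟨x, hx⟩ := hpred g1.symm
    have hux := M.uni hx
    have hdetx : dr (em x - em v) (em u - em v) = 1 := by rw [dr_em, hux]; norm_num
    set α := dr y (em w - em v) with hα
    have e3 : dr (em x - em v) y = α := by
      rw [← g1] at hco
      have e : dr (em x - em v) y = α * dr (em x - em v) (em u - em v) := by
        conv_lhs => rw [hco]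
        unfold dr; ring
      rw [e, hdetx, mul_one]
    refine ⟨{(u, w), (x, u)}, ?_, ?_⟩
    · intro uw huw
      simp only [Finset.mem_insert, Finset.mem_singleton] at huw
      rcases huw with rfl | rfl
      · exact hR
      · exact hx
    · have hO : IsOpen ({y | 0 < dr y (em w - em v)} ∩ {y | 0 < dr (em x - em v) y}) :=
        (isOpen_lt continuous_const (continuous_dr_left _)).inter
          (isOpen_lt continuous_const (continuous_dr_right _))
      filter_upwards [hO.mem_nhds ⟨g2, by change 0 < dr (em x - em v) y; rw [e3]; exact g2⟩] with z hz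
      rcases le_total 0 (dr (em u - em v) z) with k | k
      · exact ⟨(u, w), by simp, k, le_of_lt hz.1⟩
      · refine ⟨(x, u), by simp, le_of_lt hz.2, ?_⟩
        rw [dr_anti]; linarith
  · exfalso
    apply hy
    rw [hco, ← g1, ← g2]; ext <;> simp

/-- if the direction `y` points into `Om` and is in a cone of the star then it has a neighbourhood
of directions covered by two triangles of the star -/
theorem cone_nhds' {v u w : Z2} (hR : M.R v u w) {y : R2} (hy : y ≠ 0) (h : y ∈ cone v u w)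
    {ε : ℝ} (hε : 0 < ε) (hO : em v + ε • y ∈ M.Om) :
    ∃ G : Finset (Z2 × Z2), (∀ uw ∈ G, M.R v uw.1 uw.2) ∧
      ∀ᶠ z in nhds y, ∃ uw ∈ G, z ∈ cone v uw.1 uw.2 := by
  have hcl : em v ∈ closure M.Om := (vx1 hR).mem_closure
  have hu := uniR (M.uni hR)
  have hco := cone_coord (M.uni hR) y
  obtain ⟨h1, h2⟩ := h
  refine cone_nhds hR hy ⟨h1, h2⟩ ?_ ?_
  · intro h0
    -- `y = β (w - v)`
    set β := dr (em u - em v) y with hβ
    have hyβ : y = β • (em w - em v) := by
      rw [h0] at hco; rw [hco]; ext <;> simp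
    have hβ0 : 0 < β := by
      rcases h1.lt_or_eq with g | g
      · exact g
      · exfalso; apply hy; rw [hyβ, ← g, zero_smul]
    -- a small point
    set δ := min ε (1 / (2 * β)) with hδ
    have hδ0 : 0 < δ := lt_min hε (by positivity)
    have hδ1 : δ * β ≤ 1 / 2 := by
      have : δ ≤ 1 / (2 * β) := min_le_right _ _
      calc δ * β ≤ 1 / (2 * β) * β := by gcongr
        _ = 1 / 2 := by field_simp
    have hm := dir_mem_Om hcl hO hδ0 (min_le_left _ _)
    have e : em v + δ • y = pt (em w) (em v) (1 - δ * β) := by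
      rw [hyβ]; ext <;> simp [pt] <;> ring
    rw [e] at hm
    have hR2 := M.rot2 hR
    obtain ⟨s, hs⟩ := M.neighbor_of_Om hR2 hm (by rw [LR_pt, LR_self_left, LR_self_right]; ring)
      (by rw [LR_pt, LR_self_left, show LR (em v) (em u) (em w) = 1 from hu]
          nlinarith [mul_pos hδ0 hβ0])
      (by rw [LR_pt, LR_self_right, show LR (em u) (em w) (em v) = 1 from by
            rw [← hu]; unfold LR; ring]
          nlinarith [mul_pos hδ0 hβ0])
    exact ⟨s, hs⟩
  · intro h0
    set α := dr y (em w - em v) with hα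
    have hyα : y = α • (em u - em v) := by
      rw [h0] at hco; rw [hco]; ext <;> simp
    have hα0 : 0 < α := by
      rcases h2.lt_or_eq with g | g
      · exact g
      · exfalso; apply hy; rw [hyα, ← g, zero_smul]
    set δ := min ε (1 / (2 * α)) with hδ
    have hδ0 : 0 < δ := lt_min hε (by positivity)
    have hδ1 : δ * α ≤ 1 / 2 := by
      have : δ ≤ 1 / (2 * α) := min_le_right _ _
      calc δ * α ≤ 1 / (2 * α) * α := by gcongr
        _ = 1 / 2 := by field_simp
    have hm := dir_mem_Om hcl hO hδ0 (min_le_left _ _)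
    have e : em v + δ • y = pt (em v) (em u) (δ * α) := by
      rw [hyα]; ext <;> simp [pt] <;> ring
    rw [e] at hm
    obtain ⟨s, hs⟩ := M.neighbor_of_Om hR hm (by rw [LR_pt, LR_self_left, LR_self_right]; ring)
      (by rw [LR_pt, LR_self_left, show LR (em u) (em w) (em v) = 1 from by
            rw [← hu]; unfold LR; ring]
          nlinarith [mul_pos hδ0 hα0])
      (by rw [LR_pt, LR_self_right, show LR (em w) (em v) (em u) = 1 from by
            rw [← hu]; unfold LR; ring]
          nlinarith [mul_pos hδ0 hα0])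
    exact ⟨s, M.rot hs⟩

/-- the sector lemma: from a direction inside a triangle of the star to another direction -/
theorem sector {v u0 w0 : Z2} (h0 : M.R v u0 w0) {c d : R2} (hc1 : 0 < dr (em u0 - em v) c)
    (hc2 : 0 < dr c (em w0 - em v)) (hne : ∀ s ∈ Set.Icc (0:ℝ) 1, pt c d s ≠ 0) {ε : ℝ} (hε : 0 < ε)
    (hO : ∀ s ∈ Set.Icc (0:ℝ) 1, em v + ε • pt c d s ∈ M.Om) :
    ∃ u w, M.R v u w ∧ d ∈ cone v u w := by
  classical
  have hcl : em v ∈ closure M.Om := (vx1 h0).mem_closure
  -- make ε small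
  obtain ⟨B, hB⟩ := (isCompact_Icc.image (continuous_pt c d) : IsCompact ((fun s => pt c d s) '' Set.Icc (0:ℝ) 1)).isBounded.exists_norm_le
  have hB0 : 0 ≤ B := (norm_nonneg _).trans (hB _ ⟨0, ⟨le_rfl, zero_le_one⟩, rfl⟩)
  set δ := min ε (1 / (B + 1)) with hδ
  have hδ0 : 0 < δ := lt_min hε (by positivity)
  have hδO : ∀ s ∈ Set.Icc (0:ℝ) 1, em v + δ • pt c d s ∈ M.Om := fun s hs =>
    dir_mem_Om hcl (hO s hs) hδ0 (min_le_left _ _)
  have hδB : ∀ s ∈ Set.Icc (0:ℝ) 1, ‖δ • pt c d s‖ ≤ 1 := by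
    intro s hs
    rw [norm_smul, Real.norm_eq_abs, abs_of_pos hδ0]
    have h1 := hB _ ⟨s, hs, rfl⟩
    have h2 : δ ≤ 1 / (B + 1) := min_le_right _ _
    calc δ * ‖pt c d s‖ ≤ 1 / (B + 1) * B := by gcongr
      _ ≤ 1 := by rw [div_mul_eq_mul_div, one_mul, div_le_one (by positivity)]; linarith
  -- finite cover of the segment
  have hK : IsCompact ((fun s => em v + δ • pt c d s) '' Set.Icc (0:ℝ) 1) :=
    isCompact_Icc.image (continuous_const.add ((continuous_pt c d).const_smul δ))
  obtain ⟨F, hF, hKF⟩ := M.exists_fin_of_compact hK (by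
    rintro _ ⟨s, hs, rfl⟩; exact hδO s hs)
  -- the triangles at v whose cone meets the segment of directions
  set S : Set (Z2 × Z2) := {uw | M.R v uw.1 uw.2 ∧ ∃ s ∈ Set.Icc (0:ℝ) 1, pt c d s ∈ cone v uw.1 uw.2}
    with hS
  have hSfin : S.Finite := by
    apply Set.Finite.subset (s := insert (u0, w0) (((F.image (fun t => (t.2.1, t.2.2))) ∪
      (F.image (fun t => (t.2.2, t.1))) ∪ (F.image (fun t => (t.1, t.2.1))) : Finset (Z2 × Z2)) : Set (Z2 × Z2)))
    · exact (Finset.finite_toSet _).insert _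
    rintro ⟨u, w⟩ ⟨hR, s, hs, hcone⟩
    simp only at hR hcone
    by_cases hcc : c ∈ cone v u w
    · -- then the triangles are the same
      left
      have : (op (em v) (em u0) (em w0) ∩ op (em v) (em u) (em w)).Nonempty := by
        -- an open set around v + t c meets the second triangle
        have hc0 : c ≠ 0 := by
          have := hne 0 ⟨le_rfl, zero_le_one⟩; rwa [pt_zero] at this
        have hev : ∀ᶠ t : ℝ in nhdsWithin 0 (Set.Ioi 0), 0 < LR (em u0) (em w0) (em v + t • c) ∧
            0 < LR (em u) (em w) (em v + t • c) := by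
          have hc1 : Filter.Tendsto (fun t : ℝ => em v + t • c) (nhdsWithin 0 (Set.Ioi 0))
              (nhds (em v)) := by
            have hcont : Continuous (fun t : ℝ => em v + t • c) := by fun_prop
            have := hcont.tendsto 0
            simp only [zero_smul, add_zero] at this
            exact this.mono_left nhdsWithin_le_nhds
          have o1 : IsOpen {y | 0 < LR (em u0) (em w0) y} := isOpen_lt continuous_const (continuous_LR _ _)
          have o2 : IsOpen {y | 0 < LR (em u) (em w) y} := isOpen_lt continuous_const (continuous_LR _ _)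
          have m1 : em v ∈ {y | 0 < LR (em u0) (em w0) y} := by
            change 0 < LR (em u0) (em w0) (em v)
            rw [LR_rot, uniR (M.uni h0)]; norm_num
          have m2 : em v ∈ {y | 0 < LR (em u) (em w) y} := by
            change 0 < LR (em u) (em w) (em v)
            rw [LR_rot, uniR (M.uni hR)]; norm_num
          exact (hc1.eventually (o1.mem_nhds m1)).and (hc1.eventually (o2.mem_nhds m2))
        obtain ⟨t, ⟨t1, t2⟩, t3⟩ := (hev.and (self_mem_nhdsWithin : Set.Ioi (0:ℝ) ∈ _)).exists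
        have t3' : (0:ℝ) < t := t3
        have k1 : em v + t • c ∈ op (em v) (em u0) (em w0) := by
          refine ⟨?_, t1, ?_⟩
          · rw [LR_add_vec, LR_self_left, dr_smul_right, zero_add]; exact mul_pos t3' hc1
          · rw [LR_add_vec, LR_self_right, dr_smul_right, zero_add]
            have : dr (em v - em w0) c = dr c (em w0 - em v) := by
              unfold dr; simp only [Prod.fst_sub, Prod.snd_sub]; ring
            rw [this]; exact mul_pos t3' hc2
        have k2 : em v + t • c ∈ cl (em v) (em u) (em w) := by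
          rw [mem_cl_iff_cone]
          refine ⟨⟨?_, ?_⟩, t2.le⟩
          · rw [dr_smul_right]; exact mul_nonneg t3'.le hcc.1
          · rw [dr_smul_left]; exact mul_nonneg t3'.le hcc.2
        obtain ⟨y, hy1, hy2⟩ := op_inter_of_cl_inter (uniR (M.uni hR)) (isOpen_op _ _ _) k1 k2
        exact ⟨y, hy1, hy2⟩
      rcases M.disj h0 hR this with ⟨_, rfl, rfl⟩ | ⟨h1, _, _⟩ | ⟨h1, _, _⟩
      · rfl
      · exfalso; have := M.uni h0; rw [← h1] at this; simp [dt] at this
      · exfalso; have := M.uni h0; rw [← h1] at this; simp [dt] at this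
    · right
      -- exit
      have hex : dr (em u - em v) c < 0 ∨ dr c (em w - em v) < 0 := by
        by_contra hcon
        push Not at hcon
        exact hcc hcon
      obtain ⟨τ, τ0, τ1, g1, g2, g3⟩ := exit_scalar' hcone.1 hcone.2 hex
      set s' := (1 - τ) * s with hs'
      have hs'm : s' ∈ Set.Icc (0:ℝ) 1 :=
        ⟨mul_nonneg (by linarith) hs.1, by nlinarith [hs.1, hs.2, mul_nonneg τ0 hs.1]⟩
      have e1 : dr (em u - em v) (pt c d s') = (1 - τ) * dr (em u - em v) (pt c d s) +
          τ * dr (em u - em v) c := by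
        rw [dr_pt_right, dr_pt_right, hs']; ring
      have e2 : dr (pt c d s') (em w - em v) = (1 - τ) * dr (pt c d s) (em w - em v) +
          τ * dr c (em w - em v) := by
        rw [dr_pt_left, dr_pt_left, hs']; ring
      rw [← e1, ← e2] at g3
      rw [← e1] at g1
      rw [← e2] at g2
      set y := pt c d s' with hy
      have hy0 : y ≠ 0 := hne s' hs'm
      have hco := cone_coord (M.uni hR) y
      have hun : u ≠ v := by
        rintro rfl
        have := M.uni hR; simp [dt] at this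
      have hwn : w ≠ v := by
        rintro rfl
        have := M.uni hR; simp [dt] at this
      -- the point is in the closed triangle
      have hmem : em v + δ • y ∈ cl (em v) (em u) (em w) := by
        rw [mem_cl_iff_cone]
        refine ⟨⟨?_, ?_⟩, ?_⟩
        · rw [dr_smul_right]; exact mul_nonneg hδ0.le g1
        · rw [dr_smul_left]; exact mul_nonneg hδ0.le g2
        · have hL : LR (em u) (em w) (em v + δ • y) =
              1 - δ * (dr (em u - em v) y + dr y (em w - em v)) := by
            rw [LR_add_vec, LR_rot, uniR (M.uni hR), dr_smul_right]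
            have : dr (em w - em u) y = -(dr (em u - em v) y + dr y (em w - em v)) := by
              unfold dr; simp only [Prod.fst_sub, Prod.snd_sub]; ring
            rw [this]; ring
          rw [hL]
          have hnorm := hδB s' hs'm
          rw [← hy] at hnorm
          rcases g3 with g3 | g3
          · rw [g3] at hco ⊢
            have hya : y = dr y (em w - em v) • (em u - em v) := by
              conv_lhs => rw [hco]
              ext <;> simp
            rw [hya, smul_smul, norm_smul, Real.norm_eq_abs, abs_of_nonneg (mul_nonneg hδ0.le g2)] at hnorm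
            have := one_le_norm hun
            nlinarith [mul_nonneg hδ0.le g2]
          · rw [g3] at hco ⊢
            have hya : y = dr (em u - em v) y • (em w - em v) := by
              conv_lhs => rw [hco]
              ext <;> simp
            rw [hya, smul_smul, norm_smul, Real.norm_eq_abs, abs_of_nonneg (mul_nonneg hδ0.le g1)] at hnorm
            have := one_le_norm hwn
            nlinarith [mul_nonneg hδ0.le g1]
      obtain ⟨t, ht, hsame⟩ := M.mem_of_interior hF (hKF ⟨s', hs'm, rfl⟩) hR hmem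
      simp only [Finset.coe_union, Finset.coe_image, Set.mem_union, Set.mem_image, Finset.mem_coe]
      rcases hsame with ⟨a1, a2, a3⟩ | ⟨a1, a2, a3⟩ | ⟨a1, a2, a3⟩
      · left; left
        exact ⟨t, ht, by rw [a2, a3]⟩
      · right
        exact ⟨t, ht, by rw [a1, a2]⟩
      · left; right
        exact ⟨t, ht, by rw [a1, a3]⟩
  -- connectedness
  set g : ℝ → ℝ := fun s => max 0 (min s 1) with hg
  have hgc : Continuous g := by fun_prop
  have hgm : ∀ s, g s ∈ Set.Icc (0:ℝ) 1 := fun s =>
    ⟨le_max_left _ _, max_le zero_le_one (min_le_right _ _)⟩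
  set A : Set ℝ := {s | ∃ uw ∈ S, pt c d (g s) ∈ cone v uw.1 uw.2} with hA
  have hAcl : IsClosed A := by
    have : A = ⋃ uw ∈ S, (fun s => pt c d (g s)) ⁻¹' cone v uw.1 uw.2 := by
      ext s; simp only [hA, Set.mem_iUnion, Set.mem_preimage, Set.mem_ofPred_eq]
      constructor
      · rintro ⟨uw, h1, h2⟩; exact ⟨uw, h1, h2⟩
      · rintro ⟨uw, h1, h2⟩; exact ⟨uw, h1, h2⟩
    rw [this]
    exact hSfin.isClosed_biUnion (fun uw _ => (isClosed_cone _ _ _).preimage
      ((continuous_pt c d).comp hgc))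
  have hAop : IsOpen A := by
    rw [isOpen_iff_mem_nhds]
    rintro s ⟨⟨u, w⟩, hS1, hcone⟩
    obtain ⟨G, hG, hev⟩ := cone_nhds' hS1.1 (hne _ (hgm s)) hcone hδ0 (hδO _ (hgm s))
    have := ((continuous_pt c d).comp hgc).tendsto s
    filter_upwards [this.eventually hev] with s' hs'
    obtain ⟨uw, h1, h2⟩ := hs'
    exact ⟨uw, ⟨hG _ h1, g s', hgm s', h2⟩, h2⟩
  have h0A : (0:ℝ) ∈ A := by
    have e : g 0 = 0 := by simp [hg]
    have hm : pt c d (g 0) ∈ cone v u0 w0 := by
      rw [e, pt_zero]; exact ⟨hc1.le, hc2.le⟩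
    exact ⟨(u0, w0), ⟨h0, g 0, hgm 0, hm⟩, hm⟩
  have hAu : A = Set.univ := IsClopen.eq_univ ⟨hAcl, hAop⟩ ⟨0, h0A⟩
  have h1A : (1:ℝ) ∈ A := by rw [hAu]; trivial
  obtain ⟨uw, hS1, hcone⟩ := h1A
  have e : g 1 = 1 := by simp [hg]
  rw [e, pt_one] at hcone
  exact ⟨uw.1, uw.2, hS1.1, hcone⟩

/-- a direction pointing into `Om` at a vertex is in the cone of a room triangle -/
theorem sec {v : Z2} (hv : M.Vx v) {d : R2} (hd : d ≠ 0) {ε : ℝ} (hε : 0 < ε)
    (hO : em v + ε • d ∈ M.Om) : ∃ u w, M.R v u w ∧ d ∈ cone v u w := by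
  obtain ⟨u0, w0, h0⟩ := hv
  have hcl : em v ∈ closure M.Om := (vx1 h0).mem_closure
  have hu := M.uni h0
  have huR := uniR hu
  set a := em u0 - em v with ha
  set b := em w0 - em v with hb
  have hab : dr a b = 1 := by rw [ha, hb, dr_em, hu]; norm_num
  -- the choice of the initial direction
  have hch : ∃ x y : ℝ, 0 < x ∧ 0 < y ∧ x + y < 1 ∧ dr (x • a + y • b) d ≠ 0 := by
    by_cases h1 : dr ((1/3 : ℝ) • a + (1/3 : ℝ) • b) d = 0
    · refine ⟨1/4, 1/2, by norm_num, by norm_num, by norm_num, ?_⟩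
      intro h2
      apply hd
      have e1 : dr ((1/3 : ℝ) • a + (1/3 : ℝ) • b) d = (1/3) * dr a d + (1/3) * dr b d := by
        unfold dr; simp; ring
      have e2 : dr ((1/4 : ℝ) • a + (1/2 : ℝ) • b) d = (1/4) * dr a d + (1/2) * dr b d := by
        unfold dr; simp; ring
      rw [e1] at h1
      rw [e2] at h2
      have ea : dr a d = 0 := by linarith
      have eb : dr b d = 0 := by linarith
      have hc := cone_coord hu d
      rw [← ha, ← hb] at hc
      have eb' : dr d b = 0 := by rw [dr_anti, eb, neg_zero]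
      rw [ea, eb'] at hc
      rw [hc]; ext <;> simp
    · exact ⟨1/3, 1/3, by norm_num, by norm_num, by norm_num, h1⟩
  obtain ⟨x, y, hx, hy, hxy, hcd⟩ := hch
  set c := x • a + y • b with hc
  have hc1 : dr a c = y := by
    rw [hc]
    have : dr a (x • a + y • b) = y * dr a b := by unfold dr; simp; ring
    rw [this, hab, mul_one]
  have hc2 : dr c b = x := by
    rw [hc]
    have : dr (x • a + y • b) b = x * dr a b := by unfold dr; simp; ring
    rw [this, hab, mul_one]
  have hcO : em v + (1:ℝ) • c ∈ M.Om := by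
    apply M.op_subset_Om h0
    rw [one_smul]
    refine ⟨?_, ?_, ?_⟩
    · rw [LR_add_vec, LR_self_left, zero_add, ← ha, hc1]; exact hy
    · rw [LR_add_vec, LR_rot, huR]
      have : dr (em w0 - em u0) c = dr b c - dr a c := by
        rw [ha, hb]; unfold dr; simp only [Prod.fst_sub, Prod.snd_sub]; ring
      rw [this, hc1, dr_anti b c, hc2]; linarith
    · rw [LR_add_vec, LR_self_right, zero_add]
      have : dr (em v - em w0) c = dr c b := by
        rw [hb]; unfold dr; simp only [Prod.fst_sub, Prod.snd_sub]; ring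
      rw [this, hc2]; exact hx
  set δ := min ε 1 with hδ
  have hδ0 : 0 < δ := lt_min hε one_pos
  refine sector h0 (c := c) (d := d) (by rw [← ha, hc1]; exact hy) (by rw [← hb, hc2]; exact hx)
    ?_ hδ0 ?_
  · intro s hs h
    have e1 : dr c (pt c d s) = s * dr c d := by
      rw [dr_pt_right]; unfold dr; ring
    rw [h] at e1
    have e2 : dr c (0 : R2) = 0 := by unfold dr; simp
    rw [e2] at e1
    rcases mul_eq_zero.1 e1.symm with g | g
    · rw [g, pt_zero] at h
      rw [h] at hc1
      have : dr a (0 : R2) = 0 := by unfold dr; simp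
      rw [this] at hc1
      linarith
    · exact hcd g
  · intro s hs
    have k1 := dir_mem_Om hcl hcO hδ0 (min_le_right _ _)
    have k2 := dir_mem_Om hcl hO hδ0 (min_le_left _ _)
    have := M.convex_pt k1 k2 hs.1 hs.2
    convert this using 1
    ext <;> simp [pt] <;> ring

/-- with a neighbourhood of directions -/
theorem sec_nhds {v : Z2} (hv : M.Vx v) {d : R2} (hd : d ≠ 0) {ε : ℝ} (hε : 0 < ε)
    (hO : em v + ε • d ∈ M.Om) :
    ∃ G : Finset (Z2 × Z2), (∀ uw ∈ G, M.R v uw.1 uw.2) ∧
      ∀ᶠ z in nhds d, ∃ uw ∈ G, z ∈ cone v uw.1 uw.2 := by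
  obtain ⟨u, w, hR, hcone⟩ := sec hv hd hε hO
  exact cone_nhds' hR hd hcone hε hO

theorem cone_smul {v u w : Z2} {y : R2} {t : ℝ} (ht : 0 ≤ t) (h : y ∈ cone v u w) :
    t • y ∈ cone v u w := by
  refine ⟨?_, ?_⟩
  · rw [dr_smul_right]; exact mul_nonneg ht h.1
  · rw [dr_smul_left]; exact mul_nonneg ht h.2

/-- local finiteness of the cover at a vertex -/
theorem loc_vertex {v : Z2} (hv : M.Vx v) {C T : Set R2} (hT : IsClosed T)
    (hsc : ∀ y ∈ T, ∀ t : ℝ, 0 < t → t • y ∈ T) (hC : ∀ z ∈ C, z - em v ∈ T)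
    (hcov : ∀ y ∈ T, y ≠ 0 → ∃ G : Finset (Z2 × Z2), (∀ uw ∈ G, M.R v uw.1 uw.2) ∧
      ∀ᶠ z in nhdsWithin y T, ∃ uw ∈ G, z ∈ cone v uw.1 uw.2) :
    ∃ F, M.Fin F ∧ UF F ∈ nhdsWithin (em v) C := by
  classical
  obtain ⟨u0, w0, h0⟩ := hv
  have hK : IsCompact (T ∩ Metric.sphere (0 : R2) 1) := (isCompact_sphere 0 1).inter_left hT
  have hG : ∃ G : Finset (Z2 × Z2), (∀ uw ∈ G, M.R v uw.1 uw.2) ∧
      ∀ y ∈ T ∩ Metric.sphere (0 : R2) 1, ∃ uw ∈ G, y ∈ cone v uw.1 uw.2 := by
    refine hK.induction_on (p := fun s => ∃ G : Finset (Z2 × Z2), (∀ uw ∈ G, M.R v uw.1 uw.2) ∧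
      ∀ y ∈ s, ∃ uw ∈ G, y ∈ cone v uw.1 uw.2) ?_ ?_ ?_ ?_
    · exact ⟨∅, by simp, by simp⟩
    · rintro s t hst ⟨G, hG, ht⟩
      exact ⟨G, hG, fun y hy => ht y (hst hy)⟩
    · rintro s t ⟨G, hG, hs⟩ ⟨G', hG', ht⟩
      refine ⟨G ∪ G', ?_, ?_⟩
      · intro uw huw
        rcases Finset.mem_union.1 huw with h | h
        · exact hG _ h
        · exact hG' _ h
      · rintro y (hy | hy)
        · obtain ⟨uw, h1, h2⟩ := hs y hy
          exact ⟨uw, Finset.mem_union_left _ h1, h2⟩
        · obtain ⟨uw, h1, h2⟩ := ht y hy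
          exact ⟨uw, Finset.mem_union_right _ h1, h2⟩
    · rintro y ⟨hy, hy1⟩
      have hy0 : y ≠ 0 := by
        rintro rfl
        simp at hy1
      obtain ⟨G, hG, hev⟩ := hcov y hy hy0
      refine ⟨{z | ∃ uw ∈ G, z ∈ cone v uw.1 uw.2}, ?_, G, hG, fun z hz => hz⟩
      exact nhdsWithin_mono _ Set.inter_subset_left hev
  obtain ⟨G, hG, hcovG⟩ := hG
  refine ⟨insert (v, u0, w0) (G.image (fun uw => (v, uw.1, uw.2))), ?_, ?_⟩
  · intro t ht
    simp only [Finset.mem_insert, Finset.mem_image] at ht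
    rcases ht with rfl | ⟨uw, h1, rfl⟩
    · exact h0
    · exact hG _ h1
  · have hev : ∀ᶠ z in nhds (em v), ∀ uw ∈ G, 0 < LR (em uw.1) (em uw.2) z := by
      rw [Finset.eventually_all]
      intro uw huw
      have o1 : IsOpen {y | 0 < LR (em uw.1) (em uw.2) y} := isOpen_lt continuous_const (continuous_LR _ _)
      apply o1.mem_nhds
      change 0 < LR (em uw.1) (em uw.2) (em v)
      rw [LR_rot, uniR (M.uni (hG _ huw))]; norm_num
    filter_upwards [mem_nhdsWithin_of_mem_nhds hev, self_mem_nhdsWithin] with z hz hzC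
    set y := z - em v with hy
    have hzy : z = em v + y := by rw [hy]; abel
    by_cases hy0 : y = 0
    · rw [hzy, hy0, add_zero]
      exact mem_UF.2 ⟨(v, u0, w0), by simp, vert_mem_cl (M.uni h0)⟩
    · have hn : 0 < ‖y‖ := norm_pos_iff.2 hy0
      have hy1 : (‖y‖)⁻¹ • y ∈ T ∩ Metric.sphere (0 : R2) 1 := by
        refine ⟨hsc _ (hC z hzC) _ (inv_pos.2 hn), ?_⟩
        rw [mem_sphere_zero_iff_norm, norm_smul, norm_inv, norm_norm, inv_mul_cancel₀ hn.ne']
      obtain ⟨uw, h1, h2⟩ := hcovG _ hy1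
      have h3 : y ∈ cone v uw.1 uw.2 := by
        have := cone_smul hn.le h2
        rwa [smul_smul, mul_inv_cancel₀ hn.ne', one_smul] at this
      refine mem_UF.2 ⟨(v, uw.1, uw.2), ?_, ?_⟩
      · simp only [Finset.mem_insert, Finset.mem_image]
        right; exact ⟨uw, h1, rfl⟩
      · change z ∈ cl (em v) (em uw.1) (em uw.2)
        rw [hzy, mem_cl_iff_cone]
        refine ⟨h3, ?_⟩
        rw [← hzy]; exact (hz uw h1).le

theorem loc_Om {z : R2} (hz : z ∈ M.Om) (C : Set R2) : ∃ F, M.Fin F ∧ UF F ∈ nhdsWithin z C := by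
  obtain ⟨F, hF, hz⟩ := hz
  exact ⟨F, hF, mem_nhdsWithin_of_mem_nhds (mem_interior_iff_mem_nhds.1 hz)⟩

theorem cover_of_local {C : Set R2} (hC : IsCompact C)
    (h : ∀ z ∈ C, ∃ F, M.Fin F ∧ UF F ∈ nhdsWithin z C) : ∃ F, M.Fin F ∧ C ⊆ UF F := by
  classical
  refine hC.induction_on (p := fun s => ∃ F, M.Fin F ∧ s ⊆ UF F) ?_ ?_ ?_ ?_
  · exact ⟨∅, by intro t ht; simp at ht, by simp⟩
  · rintro s t hst ⟨F, hF, ht⟩
    exact ⟨F, hF, hst.trans ht⟩
  · rintro s t ⟨F, hF, hs⟩ ⟨G, hG, ht⟩
    refine ⟨F ∪ G, M.fin_union hF hG, ?_⟩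
    apply Set.union_subset
    · exact hs.trans (UF_mono Finset.subset_union_left)
    · exact ht.trans (UF_mono Finset.subset_union_right)
  · intro z hz
    obtain ⟨F, hF, hz'⟩ := h z hz
    exact ⟨UF F, hz', F, hF, subset_rfl⟩

end Room

end Pool.IT.RM
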