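import Pool.Agent.IT.RoomTri

set_option autoImplicit false

/-!
Abstract rooms, part 4: finite stars close up.
-/

namespace Pool.IT.RM

/-- the closed cone of a triangle at its first vertex, in coordinates relative to the vertex -/
def cone (v u w : Z2) : Set R2 := {y | 0 ≤ dr (em u - em v) y ∧ 0 ≤ dr y (em w - em v)}

theorem isClosed_cone (v u w : Z2) : IsClosed (cone v u w) := by
  have h1 : IsClosed {y : R2 | 0 ≤ dr (em u - em v) y} :=
    isClosed_le continuous_const (by unfold dr; fun_prop)
  have h2 : IsClosed {y : R2 | 0 ≤ dr y (em w - em v)} :=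
    isClosed_le continuous_const (by unfold dr; fun_prop)
  exact h1.inter h2

theorem LR_add_vec (x y z w : R2) : LR x y (z + w) = LR x y z + dr (y - x) w := by
  unfold LR dr; simp only [Prod.fst_add, Prod.snd_add, Prod.fst_sub, Prod.snd_sub]; ring

theorem dr_em (v u w : Z2) : dr (em u - em v) (em w - em v) = ((dt (u - v) (w - v) : ℤ) : ℝ) := by
  unfold dr em dt; push_cast [Prod.fst_sub, Prod.snd_sub]; ring

theorem dr_anti (x y : R2) : dr x y = - dr y x := by unfold dr; ring

theorem continuous_dr_right (x : R2) : Continuous (fun y => dr x y) := by unfold dr; fun_prop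
theorem continuous_dr_left (x : R2) : Continuous (fun y => dr y x) := by unfold dr; fun_prop

/-- expansion in the basis of a cone -/
theorem cone_coord {v u w : Z2} (h : dt (u - v) (w - v) = 1) (y : R2) :
    y = (dr y (em w - em v) * (em u - em v).1 + dr (em u - em v) y * (em w - em v).1,
      dr y (em w - em v) * (em u - em v).2 + dr (em u - em v) y * (em w - em v).2) := by
  have h' : dr (em u - em v) (em w - em v) = 1 := by rw [dr_em, h]; norm_num
  unfold dr at h' ⊢
  ext
  · simp only; linear_combination (-y.1) * h'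
  · simp only; linear_combination (-y.2) * h'

namespace Room

variable (M : Room)

/-- union of the cones of the star -/
def starCone (v : Z2) : Set R2 := {y | ∃ u w, M.R v u w ∧ y ∈ cone v u w}

theorem starCone_nhds {v : Z2} (hsucc : ∀ u w, M.R v u w → ∃ x, M.R v w x)
    (hpred : ∀ u w, M.R v u w → ∃ y, M.R v y u) {y : R2} (hy : y ≠ 0) (h : y ∈ M.starCone v) :
    y ∈ interior (M.starCone v) := by
  obtain ⟨u, w, hR, h1, h2⟩ := h
  have hu := M.uni hR
  have hdet : dr (em u - em v) (em w - em v) = 1 := by rw [dr_em, hu]; norm_num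
  have hco := cone_coord hu y
  rcases h1.lt_or_eq with g1 | g1 <;> rcases h2.lt_or_eq with g2 | g2
  · -- interior of the cone
    rw [mem_interior]
    refine ⟨{y | 0 < dr (em u - em v) y} ∩ {y | 0 < dr y (em w - em v)}, ?_, ?_, ⟨g1, g2⟩⟩
    · rintro z ⟨z1, z2⟩
      exact ⟨u, w, hR, le_of_lt z1, le_of_lt z2⟩
    · exact (isOpen_lt continuous_const (continuous_dr_right _)).inter
        (isOpen_lt continuous_const (continuous_dr_left _))
  · -- on the ray `w`
    obtain ⟨x, hx⟩ := hsucc u w hR
    have hux := M.uni hx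
    have hdetx : dr (em w - em v) (em x - em v) = 1 := by rw [dr_em, hux]; norm_num
    set β := dr (em u - em v) y with hβ
    have e3 : dr y (em x - em v) = β := by
      rw [← g2] at hco
      have e : dr y (em x - em v) = β * dr (em w - em v) (em x - em v) := by
        conv_lhs => rw [hco]
        unfold dr; ring
      rw [e, hdetx, mul_one]
    rw [mem_interior]
    refine ⟨{y | 0 < dr (em u - em v) y} ∩ {y | 0 < dr y (em x - em v)}, ?_, ?_, ⟨g1, ?_⟩⟩
    · rintro z ⟨z1, z2⟩
      rcases le_total 0 (dr z (em w - em v)) with k | k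
      · exact ⟨u, w, hR, le_of_lt z1, k⟩
      · refine ⟨w, x, hx, ?_, le_of_lt z2⟩
        rw [dr_anti]; linarith
    · exact (isOpen_lt continuous_const (continuous_dr_right _)).inter
        (isOpen_lt continuous_const (continuous_dr_left _))
    · change 0 < dr y (em x - em v)
      rw [e3]; exact g1
  · -- on the ray `u`
    obtain ⟨x, hx⟩ := hpred u w hR
    have hux := M.uni hx
    have hdetx : dr (em x - em v) (em u - em v) = 1 := by rw [dr_em, hux]; norm_num
    set α := dr y (em w - em v) with hα
    have e3 : dr (em x - em v) y = α := by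
      rw [← g1] at hco
      have e : dr (em x - em v) y = α * dr (em x - em v) (em u - em v) := by
        conv_lhs => rw [hco]
        unfold dr; ring
      rw [e, hdetx, mul_one]
    rw [mem_interior]
    refine ⟨{y | 0 < dr y (em w - em v)} ∩ {y | 0 < dr (em x - em v) y}, ?_, ?_, ⟨g2, ?_⟩⟩
    · rintro z ⟨z1, z2⟩
      rcases le_total 0 (dr (em u - em v) z) with k | k
      · exact ⟨u, w, hR, k, le_of_lt z1⟩
      · refine ⟨x, u, hx, le_of_lt z2, ?_⟩
        rw [dr_anti]; linarith
    · exact (isOpen_lt continuous_const (continuous_dr_left _)).inter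
        (isOpen_lt continuous_const (continuous_dr_right _))
    · change 0 < dr (em x - em v) y
      rw [e3]; exact g2
  · exfalso
    apply hy
    rw [hco, ← g1, ← g2]; ext <;> simp

theorem one_lt_rank : 1 < Module.rank ℝ R2 := by
  have : Module.rank ℝ (ℝ × ℝ) = 2 := by
    rw [rank_prod', Module.rank_self]; norm_num
  rw [this]; norm_num

/-- a finite star without walls closes up -/
theorem star_mem_Om {v : Z2} (hfin : {uw : Z2 × Z2 | M.R v uw.1 uw.2}.Finite)
    (hne : ∃ u w, M.R v u w) (hsucc : ∀ u w, M.R v u w → ∃ x, M.R v w x)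
    (hpred : ∀ u w, M.R v u w → ∃ y, M.R v y u) : em v ∈ M.Om := by
  classical
  have hclosed : IsClosed (M.starCone v) := by
    have : M.starCone v = ⋃ uw ∈ {uw : Z2 × Z2 | M.R v uw.1 uw.2}, cone v uw.1 uw.2 := by
      ext y; constructor
      · rintro ⟨u, w, h1, h2⟩
        simp only [Set.mem_iUnion]
        exact ⟨(u, w), h1, h2⟩
      · intro hy
        simp only [Set.mem_iUnion] at hy
        obtain ⟨uw, h1, h2⟩ := hy
        exact ⟨uw.1, uw.2, h1, h2⟩
    rw [this]
    exact hfin.isClosed_biUnion (fun uw _ => isClosed_cone _ _ _)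
  have hpre : IsPreconnected ({0}ᶜ : Set R2) :=
    (isConnected_compl_singleton_of_one_lt_rank one_lt_rank (0 : R2)).isPreconnected
  have hall : ({0}ᶜ : Set R2) ⊆ interior (M.starCone v) := by
    apply hpre.subset_of_closure_inter_subset isOpen_interior
    · obtain ⟨u, w, hR⟩ := hne
      have hu := M.uni hR
      have hdet : dr (em u - em v) (em w - em v) = 1 := by rw [dr_em, hu]; norm_num
      have hy0 : em u - em v ≠ 0 := by
        intro h
        rw [h] at hdet
        unfold dr at hdet; simp at hdet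
      refine ⟨em u - em v, hy0, ?_⟩
      apply M.starCone_nhds hsucc hpred hy0
      refine ⟨u, w, hR, ?_, ?_⟩
      · unfold dr; linarith
      · rw [hdet]; norm_num
    · rintro y ⟨h1, h2⟩
      have : y ∈ M.starCone v := by
        have := closure_mono interior_subset h1
        rwa [hclosed.closure_eq] at this
      exact M.starCone_nhds hsucc hpred h2 this
  have hallv : ∀ y : R2, y ∈ M.starCone v := by
    intro y
    by_cases hy : y = 0
    · obtain ⟨u, w, hR⟩ := hne
      refine ⟨u, w, hR, ?_, ?_⟩ <;> rw [hy] <;> unfold dr <;> simp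
    · exact interior_subset (hall hy)
  refine ⟨hfin.toFinset.image (fun uw => (v, uw.1, uw.2)), ?_, ?_⟩
  · intro t ht
    simp only [Finset.mem_image, Set.Finite.mem_toFinset, Set.mem_ofPred_eq] at ht
    obtain ⟨uw, h1, rfl⟩ := ht
    exact h1
  · rw [mem_interior]
    refine ⟨⋂ uw ∈ {uw : Z2 × Z2 | M.R v uw.1 uw.2}, {z | 0 < LR (em uw.1) (em uw.2) z}, ?_, ?_, ?_⟩
    · intro z hz
      simp only [Set.mem_iInter] at hz
      obtain ⟨u, w, hR, h1, h2⟩ := hallv (z - em v)
      refine mem_UF.2 ⟨(v, u, w), ?_, ?_⟩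
      · simp only [Finset.mem_image, Set.Finite.mem_toFinset, Set.mem_ofPred_eq]
        exact ⟨(u, w), hR, rfl⟩
      · have h3 := hz (u, w) hR
        refine ⟨?_, le_of_lt h3, ?_⟩
        · change 0 ≤ LR (em v) (em u) z
          have : LR (em v) (em u) z = dr (em u - em v) (z - em v) := by
            unfold LR dr; simp
          rw [this]; exact h1
        · change 0 ≤ LR (em w) (em v) z
          have : LR (em w) (em v) z = dr (z - em v) (em w - em v) := by
            unfold LR dr; simp only [Prod.fst_sub, Prod.snd_sub]; ring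
          rw [this]; exact h2
    · exact hfin.isOpen_biInter (fun uw _ => isOpen_lt continuous_const (continuous_LR _ _))
    · simp only [Set.mem_iInter]
      rintro ⟨u, w⟩ hR
      change 0 < LR (em u) (em w) (em v)
      have : LR (em u) (em w) (em v) = LR (em v) (em u) (em w) := by unfold LR; ring
      rw [this, uniR (M.uni hR)]; norm_num

end Room

namespace TriData

variable {M : Room} (T : TriData M)

theorem inn_subset_Om {w0 : R2} (hw0 : w0 ∈ T.inn) : T.inn ⊆ M.Om :=
  fun _ hw => ⟨T.F, T.hF, T.inn_subset hw0 hw⟩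

theorem rank_aff {f : R2 → ℝ} (hf : Aff f) (z y : R2) (t : ℝ) :
    f (z + t • y) = f z + t * (f (z + y) - f z) := by
  have : z + t • y = pt z (z + y) t := by
    ext <;> simp [pt] <;> ring
  rw [this, hf.2]; ring

/-- lattice points on the side opposite to the apex -/
theorem lattice_mem_Om {v : Z2} {d : R2} (hA0 : T.A (em v) = 0) (hB0 : 0 < T.B (em v))
    (hC0 : 0 < T.C (em v)) (hd : ∀ z y : R2, T.A (z + y) = T.A z + dr d y) : em v ∈ M.Om := by
  classical
  obtain ⟨ya, hya⟩ := T.toward_apex hA0.ge hB0 hC0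
  have hw0 := hya (1 / 2) (by norm_num) (by norm_num)
  -- directions on the positive side enter the open triangle
  have hdir : ∀ y : R2, 0 < dr d y → ∀ᶠ ε : ℝ in nhdsWithin 0 (Set.Ioi 0), em v + ε • y ∈ T.inn := by
    intro y hy
    have hcB : Filter.Tendsto (fun ε : ℝ => T.B (em v + ε • y)) (nhdsWithin 0 (Set.Ioi 0))
        (nhds (T.B (em v))) := by
      have hcont : Continuous (fun ε : ℝ => T.B (em v + ε • y)) := T.hB.1.comp (by fun_prop)
      have := hcont.tendsto 0
      simp only [zero_smul, add_zero] at this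
      exact this.mono_left nhdsWithin_le_nhds
    have hcC : Filter.Tendsto (fun ε : ℝ => T.C (em v + ε • y)) (nhdsWithin 0 (Set.Ioi 0))
        (nhds (T.C (em v))) := by
      have hcont : Continuous (fun ε : ℝ => T.C (em v + ε • y)) := T.hC.1.comp (by fun_prop)
      have := hcont.tendsto 0
      simp only [zero_smul, add_zero] at this
      exact this.mono_left nhdsWithin_le_nhds
    have e1 := hcB.eventually (lt_mem_nhds hB0)
    have e2 := hcC.eventually (lt_mem_nhds hC0)
    filter_upwards [e1, e2, self_mem_nhdsWithin] with ε g1 g2 g3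
    refine ⟨?_, g1, g2⟩
    rw [hd, hA0]
    have : dr d (ε • y) = ε * dr d y := by unfold dr; simp; ring
    rw [this, zero_add]
    exact mul_pos g3 hy
  -- the finite family at v
  set Fv : Finset (Z2 × Z2) := ((T.F.image (fun t => (t.2.1, t.2.2))) ∪
    (T.F.image (fun t => (t.2.2, t.1))) ∪ (T.F.image (fun t => (t.1, t.2.1)))).filter
      (fun uw => M.R v uw.1 uw.2) with hFv
  have hgen : ∀ a : Z2, a ≠ v → dr d (em a - em v) ≠ 0 := by
    intro a ha h0
    apply ha
    apply T.gen a v _ hA0
    have := hd (em v) (em a - em v)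
    rw [h0, hA0] at this
    simpa using this
  have hcov : ∀ y : R2, 0 < dr d y → ∃ uw ∈ Fv, 0 ≤ dr (em uw.1 - em v) y ∧
      0 ≤ dr y (em uw.2 - em v) := by
    intro y hy
    have e1 : ∀ᶠ ε : ℝ in nhdsWithin 0 (Set.Ioi 0), em v + ε • y ∈ UF T.F := by
      filter_upwards [hdir y hy] with ε hε
      exact interior_subset (T.inn_subset hw0 hε)
    have e3 : ∃ t ∈ T.F, ∃ᶠ ε : ℝ in nhdsWithin 0 (Set.Ioi 0), em v + ε • y ∈ clt t := by
      by_contra hcon
      push Not at hcon
      have : ∀ᶠ x : ℝ in nhdsWithin 0 (Set.Ioi 0), ∀ t ∈ T.F, ¬ (em v + x • y ∈ clt t) := by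
        rw [Finset.eventually_all]
        intro t ht
        exact hcon t ht
      obtain ⟨x, g1, g2⟩ := (e1.and this).exists
      obtain ⟨t, ht, hx⟩ := mem_UF.1 g1
      exact g2 t ht hx
    obtain ⟨t, ht, hf⟩ := e3
    have hcl : IsClosed (clt t) := isClosed_cl _ _ _
    have hv : em v ∈ clt t := by
      have hc : Filter.Tendsto (fun ε : ℝ => em v + ε • y) (nhdsWithin 0 (Set.Ioi 0))
          (nhds (em v)) := by
        have hcont : Continuous (fun ε : ℝ => em v + ε • y) := by fun_prop
        have := hcont.tendsto 0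
        simp only [zero_smul, add_zero] at this
        exact this.mono_left nhdsWithin_le_nhds
      have : em v ∈ closure (clt t) := mem_closure_of_frequently_of_tendsto hf hc
      rwa [hcl.closure_eq] at this
    obtain ⟨p, q, r⟩ := t
    have hR : M.R p q r := T.hF _ ht
    obtain ⟨ε, hε, hε0⟩ := (hf.and_eventually (self_mem_nhdsWithin : Set.Ioi (0:ℝ) ∈ _)).exists
    have hε0' : (0:ℝ) < ε := hε0
    -- general computation
    have comp : ∀ u w : Z2, 0 ≤ LR (em v) (em u) (em v + ε • y) → 0 ≤ LR (em w) (em v) (em v + ε • y) →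
        0 ≤ dr (em u - em v) y ∧ 0 ≤ dr y (em w - em v) := by
      intro u w k1 k2
      rw [LR_add_vec, LR_self_left] at k1
      rw [LR_add_vec, LR_self_right] at k2
      have s1 : dr (em u - em v) (ε • y) = ε * dr (em u - em v) y := by
        unfold dr; simp; ring
      have s2 : dr (em v - em w) (ε • y) = ε * dr y (em w - em v) := by
        unfold dr; simp; ring
      rw [s1, zero_add] at k1
      rw [s2, zero_add] at k2
      exact ⟨nonneg_of_mul_nonneg_right k1 hε0', nonneg_of_mul_nonneg_right k2 hε0'⟩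
    obtain ⟨k1, k2, k3⟩ := hε
    rcases lattice_mem_cl (M.uni hR) hv with rfl | rfl | rfl
    · refine ⟨(q, r), ?_, comp q r k1 k3⟩
      rw [hFv, Finset.mem_filter]
      refine ⟨?_, hR⟩
      exact Finset.mem_union_left _ (Finset.mem_union_left _ (Finset.mem_image.2 ⟨_, ht, rfl⟩))
    · refine ⟨(r, p), ?_, comp r p k2 k1⟩
      rw [hFv, Finset.mem_filter]
      refine ⟨?_, M.rot hR⟩
      exact Finset.mem_union_left _ (Finset.mem_union_right _ (Finset.mem_image.2 ⟨_, ht, rfl⟩))
    · refine ⟨(p, q), ?_, comp p q k3 k2⟩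
      rw [hFv, Finset.mem_filter]
      refine ⟨?_, M.rot2 hR⟩
      exact Finset.mem_union_right _ (Finset.mem_image.2 ⟨_, ht, rfl⟩)
  have hfin := M.star_fin v Fv d (fun uw huw => (Finset.mem_filter.1 huw).2) hgen hcov
  -- inner points of edges at v on the positive side have neighbours
  have hnb : ∀ a r : Z2, M.R v a r → 0 < dr d (em a - em v) → ∃ s, M.R a v s := by
    intro a r hR hpos
    obtain ⟨ε, g1, g2⟩ := ((hdir _ hpos).and (Ioo_mem_nhdsGT one_pos : Set.Ioo (0:ℝ) 1 ∈ _)).exists
    have hu := uniR (M.uni hR)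
    have e : em v + ε • (em a - em v) = pt (em v) (em a) ε := by
      ext <;> simp [pt] <;> ring
    rw [e] at g1
    refine M.neighbor_of_Om hR (T.inn_subset_Om hw0 g1) ?_ ?_ ?_
    · rw [LR_pt, LR_self_left, LR_self_right]; ring
    · rw [LR_pt, LR_self_left, show LR (em a) (em r) (em v) = 1 from by rw [LR_rot, hu]]
      linarith [g2.2]
    · rw [LR_pt, LR_self_right, show LR (em r) (em v) (em a) = 1 from by
        rw [← hu]; unfold LR; ring]
      linarith [g2.1]
  have hnb' : ∀ a r : Z2, M.R a v r → 0 < dr d (em a - em v) → ∃ s, M.R v a s := by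
    intro a r hR hpos
    obtain ⟨ε, g1, g2⟩ := ((hdir _ hpos).and (Ioo_mem_nhdsGT one_pos : Set.Ioo (0:ℝ) 1 ∈ _)).exists
    have hu := uniR (M.uni hR)
    have e : em v + ε • (em a - em v) = pt (em v) (em a) ε := by
      ext <;> simp [pt] <;> ring
    rw [e] at g1
    refine M.neighbor_of_Om hR (T.inn_subset_Om hw0 g1) ?_ ?_ ?_
    · rw [LR_pt, LR_self_left, LR_self_right]; ring
    · rw [LR_pt, LR_self_left, show LR (em v) (em r) (em a) = 1 from by rw [← hu]; unfold LR; ring]
      linarith [g2.1]
    · rw [LR_pt, LR_self_right, show LR (em r) (em a) (em v) = 1 from by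
        rw [← hu]; unfold LR; ring]
      linarith [g2.2]
  have hnonempty : ∃ u w, M.R v u w := by
    obtain ⟨uw, huw, -⟩ := hcov (- (em v - ya)) (by
      have h1 := hya (1/2) (by norm_num) (by norm_num)
      have h2 := h1.1
      have e : pt (em v) ya (1/2) = em v + (1/2 : ℝ) • (-(em v - ya)) := by
        ext <;> simp [pt] <;> ring
      rw [e, hd, hA0] at h2
      have : dr d ((1/2 : ℝ) • (-(em v - ya))) = (1/2) * dr d (-(em v - ya)) := by
        unfold dr; simp; ring
      rw [this] at h2
      linarith)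
    exact ⟨uw.1, uw.2, (Finset.mem_filter.1 huw).2⟩
  have hne_of : ∀ {a b : Z2}, dt (a - v) (b - v) = 1 → a ≠ v := by
    intro a b h hav
    rw [hav] at h; simp [dt] at h
  have hsign : ∀ a : Z2, a ≠ v → 0 < dr d (em a - em v) ∨ 0 < dr d (em (2 • v - a) - em v) := by
    intro a ha
    have h1 := hgen a ha
    have h2 : dr d (em (2 • v - a) - em v) = - dr d (em a - em v) := by
      unfold dr em; push_cast [Prod.fst_sub, Prod.snd_sub, Prod.smul_fst, Prod.smul_snd]; simp; ring
    rw [h2]
    rcases lt_or_gt_of_ne h1 with g | g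
    · right; linarith
    · left; exact g
  refine M.star_mem_Om hfin hnonempty ?_ ?_
  · -- successors
    intro u w hR
    by_contra hcon
    push Not at hcon
    have hw : w ≠ v := by
      intro h; have := M.uni hR; rw [h] at this; simp [dt] at this
    have hR2 := M.rot2 hR
    rcases hsign w hw with g | g
    · obtain ⟨s, hs⟩ := hnb' w u hR2 g
      exact hcon s hs
    · obtain ⟨⟨r', hr'⟩, hno⟩ := M.wall_line hR2 hcon 1
      have e1 : w + (1 : ℤ) • (v - w) = v := by rw [one_smul]; abel
      have e2 : v + (1 : ℤ) • (v - w) = 2 • v - w := by rw [one_smul, two_smul]; abel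
      rw [e1, e2] at hr'
      rw [e1, e2] at hno
      obtain ⟨s, hs⟩ := hnb _ _ hr' g
      exact hno s hs
  · -- predecessors
    intro u w hR
    by_contra hcon
    push Not at hcon
    have hcon' : ∀ s, ¬ M.R u v s := fun s hs => hcon s (M.rot hs)
    have hu0 : u ≠ v := by
      intro h; have := M.uni hR; rw [h] at this; simp [dt] at this
    rcases hsign u hu0 with g | g
    · obtain ⟨s, hs⟩ := hnb u w hR g
      exact hcon' s hs
    · obtain ⟨⟨r', hr'⟩, hno⟩ := M.wall_line hR hcon' (-1)
      have e1 : v + (-1 : ℤ) • (u - v) = 2 • v - u := by rw [neg_smul, one_smul, two_smul]; abel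
      have e2 : u + (-1 : ℤ) • (u - v) = v := by rw [neg_smul, one_smul]; abel
      rw [e1, e2] at hr'
      rw [e1, e2] at hno
      obtain ⟨s, hs⟩ := hnb' _ _ hr' g
      exact hno s hs

/-- all points of the closed triangle are in the open set of the room -/
theorem all_mem_Om {d : R2} (hd : ∀ z y : R2, T.A (z + y) = T.A z + dr d y) {w : R2}
    (hA0 : 0 ≤ T.A w) (hB0 : 0 ≤ T.B w) (hC0 : 0 ≤ T.C w) : w ∈ M.Om := by
  by_cases hbc : T.B w = 0 ∨ T.C w = 0
  · exact ⟨T.F, T.hF, T.gam w hA0 hB0 hC0 hbc⟩
  · push Not at hbc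
    have hB : 0 < T.B w := lt_of_le_of_ne hB0 (Ne.symm hbc.1)
    have hC : 0 < T.C w := lt_of_le_of_ne hC0 (Ne.symm hbc.2)
    have hUF := T.side_mem_UF hA0 hB hC
    by_cases hl : ∃ a : Z2, w = em a
    · obtain ⟨a, rfl⟩ := hl
      have := T.lat a hA0 hB0 hC0
      exact T.lattice_mem_Om this.1 hB hC hd
    · push Not at hl
      exact ⟨T.F, T.hF, T.key hA0 hB hC hl hUF⟩

end TriData

end Pool.IT.RM
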