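import Pool.Agent.IT.RoomOm

set_option autoImplicit false

/-!
Abstract rooms, part 3: a triangle two sides of which are in the open set of the room is in it.
-/

namespace Pool.IT.RM

/-- scalar exit lemma -/
theorem exit_scalar {b c b' c' : ℝ} (hb : 0 < b) (hc : 0 < c) (h : b' < 0 ∨ c' < 0) :
    ∃ τ : ℝ, 0 < τ ∧ τ < 1 ∧ 0 ≤ (1 - τ) * b + τ * b' ∧ 0 ≤ (1 - τ) * c + τ * c' ∧
      ((1 - τ) * b + τ * b' = 0 ∨ (1 - τ) * c + τ * c' = 0) := by
  have key : ∀ {b c b' c' : ℝ}, 0 < b → 0 < c → b' < 0 →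
      ∃ τ : ℝ, 0 < τ ∧ τ < 1 ∧ 0 ≤ (1 - τ) * b + τ * b' ∧ 0 ≤ (1 - τ) * c + τ * c' ∧
      ((1 - τ) * b + τ * b' = 0 ∨ (1 - τ) * c + τ * c' = 0) := by
    intro b c b' c' hb hc hb'
    have hbb : 0 < b - b' := by linarith
    set τ := b / (b - b') with hτ
    have h0 : 0 < τ := div_pos hb hbb
    have h1 : τ < 1 := by rw [hτ, div_lt_one hbb]; linarith
    have hz : (1 - τ) * b + τ * b' = 0 := by
      rw [hτ]; field_simp; ring
    by_cases hcc : 0 ≤ (1 - τ) * c + τ * c'
    · exact ⟨τ, h0, h1, hz.ge, hcc, Or.inl hz⟩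
    · push Not at hcc
      have hc' : c' < 0 := by
        by_contra hcon
        push Not at hcon
        have := mul_pos (sub_pos.2 h1) hc
        have := mul_nonneg h0.le hcon
        linarith
      have hcd : 0 < c - c' := by linarith
      set σ := c / (c - c') with hσ
      have g0 : 0 < σ := div_pos hc hcd
      have g1 : σ < 1 := by rw [hσ, div_lt_one hcd]; linarith
      have gz : (1 - σ) * c + σ * c' = 0 := by
        rw [hσ]; field_simp; ring
      have hlt : σ < τ := by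
        by_contra hcon
        push Not at hcon
        have : (1 - τ) * c + τ * c' - ((1 - σ) * c + σ * c') = (σ - τ) * (c - c') := by ring
        have h2 : 0 ≤ (σ - τ) * (c - c') := mul_nonneg (sub_nonneg.2 hcon) hcd.le
        linarith
      refine ⟨σ, g0, g1, ?_, gz.ge, Or.inr gz⟩
      have : (1 - σ) * b + σ * b' - ((1 - τ) * b + τ * b') = (τ - σ) * (b - b') := by ring
      have h2 : 0 ≤ (τ - σ) * (b - b') := mul_nonneg (sub_nonneg.2 hlt.le) hbb.le
      linarith
  rcases h with h | h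
  · exact key hb hc h
  · obtain ⟨τ, h1, h2, h3, h4, h5⟩ := key (b := c) (c := b) (b' := c') (c' := b') hc hb h
    exact ⟨τ, h1, h2, h4, h3, h5.symm⟩

/-- an affine functional on the plane, abstractly -/
def Aff (f : R2 → ℝ) : Prop := Continuous f ∧ ∀ z w t, f (pt z w t) = (1 - t) * f z + t * f w

theorem Aff.comb {f : R2 → ℝ} (hf : Aff f) {p q : R2} {a b : ℝ} (h : a + b = 1) :
    f (a * p.1 + b * q.1, a * p.2 + b * q.2) = a * f p + b * f q := by
  have : (a * p.1 + b * q.1, a * p.2 + b * q.2) = pt p q b := by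
    have : a = 1 - b := by linarith
    rw [this]; rfl
  rw [this, hf.2]
  have : a = 1 - b := by linarith
  rw [this]

/-- data of the triangle argument -/
structure TriData (M : Room) where
  A : R2 → ℝ
  B : R2 → ℝ
  C : R2 → ℝ
  hA : Aff A
  hB : Aff B
  hC : Aff C
  hsum : ∀ z, A z + B z + C z = 1
  F : Finset (Z2 × Z2 × Z2)
  hF : M.Fin F
  gam : ∀ z, 0 ≤ A z → 0 ≤ B z → 0 ≤ C z → (B z = 0 ∨ C z = 0) → z ∈ interior (UF F)
  lat : ∀ a : Z2, 0 ≤ A (em a) → 0 ≤ B (em a) → 0 ≤ C (em a) →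
    A (em a) = 0 ∧ 0 < B (em a) ∧ 0 < C (em a)
  gen : ∀ a b : Z2, A (em a) = 0 → A (em b) = 0 → a = b
  apex : ∃ y0, A y0 = 1 ∧ B y0 = 0 ∧ C y0 = 0

namespace TriData

variable {M : Room} (T : TriData M)

theorem lat_exit {a : Z2} (h : 0 < T.A (em a)) : T.B (em a) < 0 ∨ T.C (em a) < 0 := by
  by_contra hcon
  push Not at hcon
  have := T.lat a h.le hcon.1 hcon.2
  linarith [this.1]

/-- along an edge: if the inner point `w` of the edge `pq` of a room triangle is in the triangle and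
one end is on the positive side of `A` then the neighbour exists and both triangles are in the family -/
theorem edge_case {p q r : Z2} (h : M.R p q r) {w : R2} (hA0 : 0 ≤ T.A w) (hB0 : 0 < T.B w)
    (hC0 : 0 < T.C w) (h0 : LR (em p) (em q) w = 0) (h1 : 0 < LR (em q) (em r) w)
    (h2 : 0 < LR (em r) (em p) w) (hpq : 0 < T.A (em p) ∨ 0 < T.A (em q)) :
    w ∈ interior (UF T.F) := by
  classical
  have hu := uniR (M.uni h)
  -- the exit point
  have key : ∃ ζ : R2, LR (em p) (em q) ζ = 0 ∧ 0 < LR (em q) (em r) ζ ∧ 0 < LR (em r) (em p) ζ ∧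
      ζ ∈ interior (UF T.F) := by
    rcases hpq with g | g
    · obtain ⟨τ, t0, t1, tb, tc, tz⟩ := exit_scalar hB0 hC0 (T.lat_exit g)
      refine ⟨pt w (em p) τ, ?_, ?_, ?_, ?_⟩
      · rw [LR_pt, h0, LR_self_left]; ring
      · rw [LR_pt, show LR (em q) (em r) (em p) = 1 from by rw [LR_rot, hu]]
        have := mul_pos (sub_pos.2 t1) h1
        linarith
      · rw [LR_pt, LR_self_right]
        have := mul_pos (sub_pos.2 t1) h2
        linarith
      · apply T.gam
        · rw [T.hA.2]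
          have := mul_nonneg (sub_nonneg.2 t1.le) hA0
          have := mul_pos t0 g
          linarith
        · rw [T.hB.2]; exact tb
        · rw [T.hC.2]; exact tc
        · rw [T.hB.2, T.hC.2]; exact tz
    · obtain ⟨τ, t0, t1, tb, tc, tz⟩ := exit_scalar hB0 hC0 (T.lat_exit g)
      refine ⟨pt w (em q) τ, ?_, ?_, ?_, ?_⟩
      · rw [LR_pt, h0, LR_self_right]; ring
      · rw [LR_pt, LR_self_left]
        have := mul_pos (sub_pos.2 t1) h1
        linarith
      · rw [LR_pt]
        have e : LR (em r) (em p) (em q) = 1 := by rw [← hu]; unfold LR; ring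
        rw [e]
        have := mul_pos (sub_pos.2 t1) h2
        linarith
      · apply T.gam
        · rw [T.hA.2]
          have := mul_nonneg (sub_nonneg.2 t1.le) hA0
          have := mul_pos t0 g
          linarith
        · rw [T.hB.2]; exact tb
        · rw [T.hC.2]; exact tc
        · rw [T.hB.2, T.hC.2]; exact tz
  obtain ⟨ζ, z0, z1, z2, z3⟩ := key
  obtain ⟨s, hs⟩ := M.neighbor_of_Om h ⟨T.F, T.hF, z3⟩ z0 z1 z2
  have hint := M.edge_interior h hs h0 h1 h2
  -- both triangles are in F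
  have c1 : cl (em p) (em q) (em r) ⊆ UF T.F := by
    obtain ⟨t, ht, hsame⟩ := M.mem_of_interior T.hF z3 h ⟨z0.ge, z1.le, z2.le⟩
    intro y hy
    exact mem_UF.2 ⟨t, ht, by unfold clt; rw [Room.Same.cl_eq hsame]; exact hy⟩
  have c2 : cl (em q) (em p) (em s) ⊆ UF T.F := by
    have hzc : ζ ∈ cl (em q) (em p) (em s) := by
      have hmem := interior_subset (M.edge_interior h hs z0 z1 z2)
      -- direct computation
      have hu' := uniR (M.uni hs)
      have hz := bary (uniR (M.uni h)) ζ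
      refine ⟨by rw [LR_swap, z0]; norm_num, ?_, ?_⟩
      · have hsm : LR (em q) (em r) ζ + LR (em r) (em p) ζ + 0 = 1 := by
          have := LR_add (em p) (em q) (em r) ζ
          rw [z0, hu] at this; linarith
        have e : LR (em p) (em s) ζ = LR (em q) (em r) ζ * LR (em p) (em s) (em p) +
            LR (em r) (em p) ζ * LR (em p) (em s) (em q) + 0 * LR (em p) (em s) (em r) := by
          conv_lhs => rw [hz, z0]
          exact LR_comb _ _ _ _ _ hsm
        rw [e, LR_self_left]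
        have : LR (em p) (em s) (em q) = 1 := by rw [← hu']; unfold LR; ring
        rw [this]; linarith
      · have hsm : LR (em q) (em r) ζ + LR (em r) (em p) ζ + 0 = 1 := by
          have := LR_add (em p) (em q) (em r) ζ
          rw [z0, hu] at this; linarith
        have e : LR (em s) (em q) ζ = LR (em q) (em r) ζ * LR (em s) (em q) (em p) +
            LR (em r) (em p) ζ * LR (em s) (em q) (em q) + 0 * LR (em s) (em q) (em r) := by
          conv_lhs => rw [hz, z0]
          exact LR_comb _ _ _ _ _ hsm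
        rw [e, LR_self_right]
        have : LR (em s) (em q) (em p) = 1 := by rw [← hu']; unfold LR; ring
        rw [this]; linarith
    obtain ⟨t, ht, hsame⟩ := M.mem_of_interior T.hF z3 hs hzc
    intro y hy
    exact mem_UF.2 ⟨t, ht, by unfold clt; rw [Room.Same.cl_eq hsame]; exact hy⟩
  exact interior_mono (Set.union_subset c1 c2) hint

/-- a non-vertex boundary point of a triangle is an inner point of an edge -/
theorem cl_cases {p q r : Z2} (h : dt (q - p) (r - p) = 1) {w : R2} (hw : w ∈ cl (em p) (em q) (em r))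
    (hnl : ∀ a : Z2, w ≠ em a) :
    w ∈ op (em p) (em q) (em r) ∨
    (LR (em p) (em q) w = 0 ∧ 0 < LR (em q) (em r) w ∧ 0 < LR (em r) (em p) w) ∨
    (LR (em q) (em r) w = 0 ∧ 0 < LR (em r) (em p) w ∧ 0 < LR (em p) (em q) w) ∨
    (LR (em r) (em p) w = 0 ∧ 0 < LR (em p) (em q) w ∧ 0 < LR (em q) (em r) w) := by
  obtain ⟨a1, a2, a3⟩ := hw
  have hb := bary (uniR h) w
  have hs := LR_add (em p) (em q) (em r) w
  rw [uniR h] at hs
  rcases a1.lt_or_eq with g1 | g1 <;> rcases a2.lt_or_eq with g2 | g2 <;>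
    rcases a3.lt_or_eq with g3 | g3
  · left; exact ⟨g1, g2, g3⟩
  · right; right; right; exact ⟨g3.symm, g1, g2⟩
  · right; right; left; exact ⟨g2.symm, g3, g1⟩
  · exfalso; apply hnl r
    rw [← g2, ← g3] at hs
    have e : LR (em p) (em q) w = 1 := by linarith
    rw [hb, ← g2, ← g3, e]; ext <;> simp
  · right; left; exact ⟨g1.symm, g2, g3⟩
  · exfalso; apply hnl p
    rw [← g1, ← g3] at hs
    have e : LR (em q) (em r) w = 1 := by linarith
    rw [hb, ← g1, ← g3, e]; ext <;> simp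
  · exfalso; apply hnl q
    rw [← g1, ← g2] at hs
    have e : LR (em r) (em p) w = 1 := by linarith
    rw [hb, ← g1, ← g2, e]; ext <;> simp
  · exfalso; rw [← g1, ← g2, ← g3] at hs; norm_num at hs

/-- values of an affine functional at an inner point of an edge -/
theorem edge_value {f : R2 → ℝ} (hf : Aff f) {p q r : Z2} (h : dt (q - p) (r - p) = 1) {w : R2}
    (h0 : LR (em p) (em q) w = 0) :
    f w = LR (em q) (em r) w * f (em p) + LR (em r) (em p) w * f (em q) := by
  have hb := bary (uniR h) w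
  have hs := LR_add (em p) (em q) (em r) w
  rw [uniR h, h0] at hs
  have : w = (LR (em q) (em r) w * (em p).1 + LR (em r) (em p) w * (em q).1,
      LR (em q) (em r) w * (em p).2 + LR (em r) (em p) w * (em q).2) := by
    rw [h0] at hb; simpa using hb
  conv_lhs => rw [this]
  exact hf.comb (by linarith)

theorem key {w : R2} (hA0 : 0 ≤ T.A w) (hB0 : 0 < T.B w) (hC0 : 0 < T.C w)
    (hnl : ∀ a : Z2, w ≠ em a) (hw : w ∈ UF T.F) : w ∈ interior (UF T.F) := by
  obtain ⟨t, ht, hwt⟩ := mem_UF.1 hw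
  obtain ⟨p, q, r⟩ := t
  have hR : M.R p q r := T.hF _ ht
  -- one of the ends of an edge through `w` is on the positive side
  have hend : ∀ {p q r : Z2}, M.R p q r → LR (em p) (em q) w = 0 → 0 < LR (em q) (em r) w →
      0 < LR (em r) (em p) w → 0 < T.A (em p) ∨ 0 < T.A (em q) := by
    intro p q r h h0 h1 h2
    by_contra hcon
    push Not at hcon
    have hv := edge_value T.hA (M.uni h) h0
    have e1 : LR (em q) (em r) w * T.A (em p) ≤ 0 := mul_nonpos_of_nonneg_of_nonpos h1.le hcon.1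
    have e2 : LR (em r) (em p) w * T.A (em q) ≤ 0 := mul_nonpos_of_nonneg_of_nonpos h2.le hcon.2
    have e3 : LR (em q) (em r) w * T.A (em p) = 0 := by linarith
    have e4 : LR (em r) (em p) w * T.A (em q) = 0 := by linarith
    have e5 : T.A (em p) = 0 := by
      rcases mul_eq_zero.1 e3 with g | g
      · exact absurd g h1.ne'
      · exact g
    have e6 : T.A (em q) = 0 := by
      rcases mul_eq_zero.1 e4 with g | g
      · exact absurd g h2.ne'
      · exact g
    have hpq := T.gen p q e5 e6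
    have := M.uni h
    rw [hpq] at this
    simp [dt] at this
  rcases cl_cases (M.uni hR) hwt hnl with g | ⟨g0, g1, g2⟩ | ⟨g0, g1, g2⟩ | ⟨g0, g1, g2⟩
  · rw [mem_interior]
    refine ⟨_, ?_, isOpen_op _ _ _, g⟩
    intro y hy
    exact mem_UF.2 ⟨_, ht, op_subset_cl _ _ _ hy⟩
  · exact T.edge_case hR hA0 hB0 hC0 g0 g1 g2 (hend hR g0 g1 g2)
  · exact T.edge_case (M.rot hR) hA0 hB0 hC0 g0 g1 g2 (hend (M.rot hR) g0 g1 g2)
  · exact T.edge_case (M.rot2 hR) hA0 hB0 hC0 g0 g1 g2 (hend (M.rot2 hR) g0 g1 g2)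

/-- the open triangle -/
def inn : Set R2 := {z | 0 < T.A z ∧ 0 < T.B z ∧ 0 < T.C z}

theorem isOpen_inn : IsOpen T.inn :=
  (isOpen_lt continuous_const T.hA.1).inter ((isOpen_lt continuous_const T.hB.1).inter
    (isOpen_lt continuous_const T.hC.1))

theorem inn_not_lattice {w : R2} (hw : w ∈ T.inn) (a : Z2) : w ≠ em a := by
  rintro rfl
  have := T.lat a hw.1.le hw.2.1.le hw.2.2.le
  linarith [this.1, hw.1]

theorem convex_inn : Convex ℝ T.inn := by
  intro x hx y hy a b ha hb hab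
  have hp : a • x + b • y = pt x y b := by
    rw [pt_eq]; have : a = 1 - b := by linarith
    rw [this]
  rw [hp]
  have ha' : a = 1 - b := by linarith
  subst ha'
  have hor : 0 < 1 - b ∨ 0 < b := by
    by_contra hcon; push Not at hcon; linarith
  obtain ⟨x1, x2, x3⟩ := hx
  obtain ⟨y1, y2, y3⟩ := hy
  refine ⟨?_, ?_, ?_⟩
  · rw [T.hA.2]; rcases hor with g | g <;> nlinarith [mul_nonneg ha x1.le, mul_nonneg hb y1.le,
      mul_pos g x1, mul_pos g y1]
  · rw [T.hB.2]; rcases hor with g | g <;> nlinarith [mul_nonneg ha x2.le, mul_nonneg hb y2.le,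
      mul_pos g x2, mul_pos g y2]
  · rw [T.hC.2]; rcases hor with g | g <;> nlinarith [mul_nonneg ha x3.le, mul_nonneg hb y3.le,
      mul_pos g x3, mul_pos g y3]

/-- a point with `B, C > 0`, `A ≥ 0` is in the closure of the open triangle: move towards the apex -/
theorem toward_apex {w : R2} (hA0 : 0 ≤ T.A w) (hB0 : 0 < T.B w) (hC0 : 0 < T.C w) :
    ∃ y0 : R2, ∀ t : ℝ, 0 < t → t < 1 → pt w y0 t ∈ T.inn := by
  obtain ⟨y0, h1, h2, h3⟩ := T.apex
  refine ⟨y0, fun t t0 t1 => ⟨?_, ?_, ?_⟩⟩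
  · rw [T.hA.2, h1]; nlinarith [mul_nonneg (sub_nonneg.2 t1.le) hA0]
  · rw [T.hB.2, h2]; nlinarith [mul_pos (sub_pos.2 t1) hB0]
  · rw [T.hC.2, h3]; nlinarith [mul_pos (sub_pos.2 t1) hC0]

theorem inn_subset {w0 : R2} (hw0 : w0 ∈ T.inn) : T.inn ⊆ interior (UF T.F) := by
  have hpre : IsPreconnected T.inn := T.convex_inn.isPreconnected
  apply hpre.subset_of_closure_inter_subset isOpen_interior
  · -- nonempty: near the apex
    obtain ⟨y0, h1, h2, h3⟩ := T.apex
    have hy0 : y0 ∈ interior (UF T.F) :=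
      T.gam y0 (by rw [h1]; norm_num) h2.ge h3.ge (Or.inl h2)
    have hc : Filter.Tendsto (fun t : ℝ => pt y0 w0 t) (nhdsWithin 0 (Set.Ioi 0)) (nhds y0) := by
      have := (continuous_pt y0 w0).tendsto 0
      rw [pt_zero] at this
      exact this.mono_left nhdsWithin_le_nhds
    have e1 : ∀ᶠ t : ℝ in nhdsWithin 0 (Set.Ioi 0), pt y0 w0 t ∈ interior (UF T.F) :=
      hc (isOpen_interior.mem_nhds hy0)
    have e2 : ∀ᶠ t : ℝ in nhdsWithin 0 (Set.Ioi 0), t ∈ Set.Ioo (0 : ℝ) 1 := Ioo_mem_nhdsGT one_pos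
    obtain ⟨t, t1, t2⟩ := (e1.and e2).exists
    refine ⟨pt y0 w0 t, ⟨?_, ?_, ?_⟩, t1⟩
    · rw [T.hA.2, h1]; nlinarith [mul_pos t2.1 hw0.1, t2.2]
    · rw [T.hB.2, h2]; nlinarith [mul_pos t2.1 hw0.2.1]
    · rw [T.hC.2, h3]; nlinarith [mul_pos t2.1 hw0.2.2]
  · rintro w ⟨hw, hin⟩
    have hw' : w ∈ UF T.F := by
      have := closure_mono interior_subset hw
      rwa [(isClosed_UF _).closure_eq] at this
    exact T.key hin.1.le hin.2.1 hin.2.2 (T.inn_not_lattice hin) hw'

/-- the side opposite to the apex -/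
theorem side_mem_UF {w : R2} (hA0 : 0 ≤ T.A w) (hB0 : 0 < T.B w) (hC0 : 0 < T.C w) : w ∈ UF T.F := by
  obtain ⟨y0, hy⟩ := T.toward_apex hA0 hB0 hC0
  have hhalf := hy (1 / 2) (by norm_num) (by norm_num)
  have hsub := T.inn_subset hhalf
  have hc : Filter.Tendsto (fun t : ℝ => pt w y0 t) (nhdsWithin 0 (Set.Ioi 0)) (nhds w) := by
    have := (continuous_pt w y0).tendsto 0
    rw [pt_zero] at this
    exact this.mono_left nhdsWithin_le_nhds
  have e1 : ∀ᶠ t : ℝ in nhdsWithin 0 (Set.Ioi 0), pt w y0 t ∈ UF T.F := by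
    filter_upwards [(Ioo_mem_nhdsGT one_pos : Set.Ioo (0:ℝ) 1 ∈ _)] with t ht
    exact interior_subset (hsub (hy t ht.1 ht.2))
  exact (isClosed_UF _).mem_of_tendsto hc e1

end TriData

end Pool.IT.RM
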