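import Pool.Agent.IT.Flip
import Pool.Agent.IT.Frame

/-!
# Two triangles sharing a non-lattice point share an edge; triangles meeting a convex open set are
dual-connected
-/

set_option autoImplicit false

namespace Pool.Agent.IT

open Filter Topology

variable {n : ℕ} {T : Finset (Finset Pt)}

/-- Two triangles with a common point in the relative interior of an edge of both. -/
theorem Pos.share (hT : UT n T) {p q r a b c : Pt} (h : Pos T p q r) (g : Pos T a b c)
    {x : ℝ × ℝ} (a1 : dl p q x = 0) (a2 : 0 < dl q r x) (a3 : 0 < dl r p x)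
    (b1 : dl a b x = 0) (b2 : 0 < dl b c x) (b3 : 0 < dl c a x) :
    ({p, q, r} : Finset Pt) = {a, b, c} ∨ (a = q ∧ b = p) := by
  set u : Pt := (q.1 - p.1, q.2 - p.2) with hu
  set v : Pt := (b.1 - a.1, b.2 - a.2) with hv
  by_cases hk : crs u v = 0
  swap
  · left; exact h.eq_of_cross hT g a1 a2 a3 b1 b2 b3 hk
  set u' : Pt := (r.1 - p.1, r.2 - p.2) with hu'
  set v' : Pt := (c.1 - a.1, c.2 - a.2) with hv'
  have hd : crs u u' = 1 := by rw [← h.2]; simp only [crs, det, hu, hu']
  have gd : crs v v' = 1 := by rw [← g.2]; simp only [crs, det, hv, hv']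
  have e1 := eq_smul_of_crs hd hk
  have hk' : crs v u = 0 := by simp only [crs] at *; linarith
  have e2 := eq_smul_of_crs gd hk'
  have hm : crs v u' * crs u v' = 1 := by
    have : crs v v' = crs v u' * crs u v' := by
      conv_lhs => rw [e1]
      simp only [crs]; ring
    rw [← this]; exact gd
  obtain ⟨m, hmv, hmm⟩ : ∃ m : ℤ, v = (m * u.1, m * u.2) ∧ (m = 1 ∨ m = -1) :=
    ⟨crs v u', e1, Int.eq_one_or_neg_one_of_mul_eq_one hm⟩
  have hv1 : b.1 - a.1 = m * (q.1 - p.1) := congrArg Prod.fst hmv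
  have hv2 : b.2 - a.2 = m * (q.2 - p.2) := congrArg Prod.snd hmv
  have hm0 : m ≠ 0 := by rcases hmm with h | h <;> rw [h] <;> norm_num
  have hm0' : (m : ℝ) ≠ 0 := by exact_mod_cast hm0
  have hv1' : (b.1 : ℝ) - a.1 = m * (q.1 - p.1) := by exact_mod_cast hv1
  have hv2' : (b.2 : ℝ) - a.2 = m * (q.2 - p.2) := by exact_mod_cast hv2
  -- `a` is on the line `p q`
  have hpa : det p q a = 0 := by
    have h1 : (m : ℝ) * (det p q a : ℝ) = 0 := by
      have : dl a b x = m * dl p q x - m * (det p q a : ℝ) := by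
        simp only [dl, det]; push_cast
        rw [hv1', hv2']; ring
      rw [a1, b1] at this
      linarith
    rcases mul_eq_zero.mp h1 with h2 | h2
    · exact absurd h2 hm0'
    · exact_mod_cast h2
  have hia := eq_smul_of_crs hd (v := (a.1 - p.1, a.2 - p.2)) (by
    simp only [crs, hu]; simp only [det] at hpa; exact hpa)
  obtain ⟨i, hi⟩ : ∃ i : ℤ, ((a.1 - p.1, a.2 - p.2) : Pt) = (i * u.1, i * u.2) := ⟨_, hia⟩
  have hi1 : a.1 - p.1 = i * (q.1 - p.1) := congrArg Prod.fst hi
  have hi2 : a.2 - p.2 = i * (q.2 - p.2) := congrArg Prod.snd hi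
  have hi1' : (a.1 : ℝ) - p.1 = i * (q.1 - p.1) := by exact_mod_cast hi1
  have hi2' : (a.2 : ℝ) - p.2 = i * (q.2 - p.2) := by exact_mod_cast hi2
  -- parameters
  have s1 := dl_sum p q r x
  have s2 := dl_sum a b c x
  rw [h.2, a1] at s1
  rw [g.2, b1] at s2
  push_cast at s1 s2
  have x1 := bary1 h.2 x
  have x2 := bary2 h.2 x
  have y1 := bary1 g.2 x
  have y2 := bary2 g.2 x
  rw [a1] at x1 x2
  rw [b1] at y1 y2
  set α := dl r p x with hα
  set σ := dl c a x with hσ
  have hα1 : dl q r x = 1 - α := by linarith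
  have hσ1 : dl b c x = 1 - σ := by linarith
  rw [hα1] at x1 x2 a2
  rw [hσ1] at y1 y2 b2
  have z1 : (α - i - σ * m) * ((q.1 : ℝ) - p.1) = 0 := by
    linear_combination (-1) * x1 + y1 + hi1' + σ * hv1'
  have z2 : (α - i - σ * m) * ((q.2 : ℝ) - p.2) = 0 := by
    linear_combination (-1) * x2 + y2 + hi2' + σ * hv2'
  have hα2 : α = i + σ * m := by
    have h1 : (det p q r : ℝ) = 1 := by exact_mod_cast h.2
    have : (α - i - σ * m) * 1 = 0 := by
      rw [← h1]; simp only [det]; push_cast
      linear_combination ((r.2 : ℝ) - p.2) * z1 - ((r.1 : ℝ) - p.1) * z2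
    linarith
  rcases hmm with rfl | rfl
  · have hi0 : i = 0 := by
      have l1 : (i : ℝ) < 1 := by push_cast at hα2; linarith
      have l2 : (-1 : ℝ) < i := by push_cast at hα2; linarith
      have l1' : i < 1 := by exact_mod_cast l1
      have l2' : -1 < i := by exact_mod_cast l2
      omega
    subst hi0
    have ea : a = p := Prod.ext (by linarith) (by linarith)
    have eb : b = q := by
      subst ea
      exact Prod.ext (by linarith) (by linarith)
    subst ea; subst eb
    left
    have := h.unique hT g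
    rw [this]
  · have hi0 : i = 1 := by
      have l1 : (i : ℝ) < 2 := by push_cast at hα2; linarith
      have l2 : (0 : ℝ) < i := by push_cast at hα2; linarith
      have l1' : i < 2 := by exact_mod_cast l1
      have l2' : 0 < i := by exact_mod_cast l2
      omega
    subst hi0
    right
    have ea : a = q := Prod.ext (by linarith) (by linarith)
    refine ⟨ea, ?_⟩
    rw [ea] at hv1 hv2
    exact Prod.ext (by linarith) (by linarith)

/-- A non-lattice point of a cell is interior or in the relative interior of an edge. -/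
theorem UT.interior_or_edge (hT : UT n T) {t : Finset Pt} (ht : t ∈ T) {x : ℝ × ℝ}
    (hx : x ∈ cell t) (hnl : ∀ v : Pt, x ≠ emb v) :
    x ∈ interior (cell t) ∨ ∃ p q r, t = {p, q, r} ∧ Pos T p q r ∧ dl p q x = 0 ∧
      0 < dl q r x ∧ 0 < dl r p x := by
  obtain ⟨p, q, r, rfl, h⟩ := hT.exists_pos ht
  rw [mem_cell_iff h.2] at hx
  obtain ⟨h1, h2, h3⟩ := hx
  have key : ∀ a b c : Pt, det a b c = 1 → dl a b x = 0 → dl b c x = 0 → False := by
    intro a b c hd e1 e2
    have s := dl_sum a b c x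
    rw [hd, e1, e2] at s
    have x1 := bary1 hd x
    have x2 := bary2 hd x
    rw [e1, e2] at x1 x2
    push_cast at s
    have e3 : dl c a x = 1 := by linarith
    rw [e3] at x1 x2
    apply hnl b
    ext
    · simp only [emb]; linarith
    · simp only [emb]; linarith
  have hd1 := h.2
  have hd2 := h.cyc.2
  have hd3 := h.cyc'.2
  rcases h1.lt_or_eq with g1 | g1
  · rcases h2.lt_or_eq with g2 | g2
    · rcases h3.lt_or_eq with g3 | g3
      · left; rw [mem_interior_cell_iff h.2]; exact ⟨g1, g2, g3⟩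
      · right
        refine ⟨r, p, q, ?_, h.cyc', g3.symm, g1, g2⟩
        exact (Ins.tri_rot q r p).trans (Ins.tri_rot p q r) |>.symm
    · rcases h3.lt_or_eq with g3 | g3
      · right
        exact ⟨q, r, p, (Ins.tri_rot p q r).symm, h.cyc, g2.symm, g3, g1⟩
      · exact absurd (key q r p hd2 g2.symm g3.symm) id
  · rcases h2.lt_or_eq with g2 | g2
    · rcases h3.lt_or_eq with g3 | g3
      · right
        exact ⟨p, q, r, rfl, h, g1.symm, g2, g3⟩
      · exact absurd (key r p q hd3 g3.symm g1.symm) id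
    · exact absurd (key p q r hd1 g1.symm g2.symm) id

/-- Adjacency of triangles: at least two common vertices. -/
def Adj (t s : Finset Pt) : Prop := ∃ p q, p ≠ q ∧ p ∈ t ∧ q ∈ t ∧ p ∈ s ∧ q ∈ s

theorem Adj.symm {t s : Finset Pt} (h : Adj t s) : Adj s t := by
  obtain ⟨p, q, h0, h1, h2, h3, h4⟩ := h
  exact ⟨p, q, h0, h3, h4, h1, h2⟩

/-- Two triangles of `T` sharing a non-lattice point are equal or share an edge. -/
theorem UT.adj_of_mem (hT : UT n T) {t s : Finset Pt} (ht : t ∈ T) (hs : s ∈ T) {x : ℝ × ℝ}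
    (hx : x ∈ cell t) (hx' : x ∈ cell s) (hnl : ∀ v : Pt, x ≠ emb v) : t = s ∨ Adj t s := by
  rcases hT.interior_or_edge ht hx hnl with h | ⟨p, q, r, rfl, h, a1, a2, a3⟩
  · left; exact hT.eq_of_mem_interior ht hs h hx'
  rcases hT.interior_or_edge hs hx' hnl with h' | ⟨a, b, c, rfl, h', b1, b2, b3⟩
  · left; exact (hT.eq_of_mem_interior hs ht h' hx).symm
  rcases h.share hT h' a1 a2 a3 b1 b2 b3 with h0 | ⟨rfl, rfl⟩
  · left; exact h0
  · right
    exact ⟨a, b, h'.ne, by simp, by simp, by simp, by simp⟩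

end Pool.Agent.IT
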