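import Pool.Agent.IT.StrDefs
import Pool.Agent.IT.GoodCount
import Pool.Agent.IT.HullD

/-!
# Dual balls: symmetry, size, connectivity of the dual graph
(`dball_symm` is in GoodCount, `jball_symm`, `jball_add`, `jball_subset_dball` are in HullD.)
-/

set_option autoImplicit false

namespace Pool.Agent.IT

variable {n : ℕ} {T : Finset (Finset Pt)}

theorem dball_card {n : ℕ} {T : Finset (Finset Pt)} (hT : UT n T) {t : Finset Pt} (_ht : t ∈ T) (ρ : ℕ) :
    (dball T t ρ).card ≤ 4 ^ ρ := hT.card_dball t ρ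

theorem jball_sub_dball {T : Finset (Finset Pt)} {J : ℕ} {t : Finset Pt} {ρ : ℕ} :
    jball T J t ρ ⊆ dball T t ρ := jball_subset_dball t ρ

/-- two different triangles of `T` with two common vertices are neighbours -/
theorem UT.nb_of_two (hT : UT n T) {a b : Finset Pt} (ha : a ∈ T) (hb : b ∈ T) (hne : a ≠ b)
    {p q : Pt} (hpq : p ≠ q) (hpa : p ∈ a) (hqa : q ∈ a) (hpb : p ∈ b) (hqb : q ∈ b) : Nb T a b := by
  obtain ⟨r, hr, ea⟩ := hT.pos_of_mem ha hpa hqa hpq.symm
  obtain ⟨z, hz, eb⟩ := hT.pos_of_mem hb hpb hqb hpq.symm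
  have sw : ∀ x : Pt, ({p, q, x} : Finset Pt) = {q, p, x} := by
    intro x
    ext s; simp only [Finset.mem_insert, Finset.mem_singleton]; tauto
  rcases hr with hr | hr <;> rcases hz with hz | hz
  · exact absurd (by rw [ea, eb, hr.unique hT hz]) hne
  · exact ⟨p, q, r, z, hr, hz, ea, by rw [eb, sw]⟩
  · exact ⟨q, p, r, z, hr, hz, by rw [ea, sw], eb⟩
  · exact absurd (by rw [ea, eb, hr.unique hT hz]) hne

theorem interior_cell_nonempty {a b c : Pt} (h : det a b c = 1) :
    (interior (cell {a, b, c})).Nonempty := by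
  obtain ⟨w, hw⟩ := toward_center h (emb_mem_cell (p := a) (by simp))
  obtain ⟨ε, hε⟩ := hw.exists
  exact ⟨_, hε⟩

theorem ne_emb_of_interior {a b c : Pt} (h : det a b c = 1) {x : ℝ × ℝ}
    (hx : x ∈ interior (cell {a, b, c})) (v : Pt) : x ≠ emb v := by
  rintro rfl
  rw [mem_interior_cell_iff h, dl_emb, dl_emb, dl_emb] at hx
  obtain ⟨h1, h2, h3⟩ := hx
  have h1' : 0 < det a b v := by exact_mod_cast h1
  have h2' : 0 < det b c v := by exact_mod_cast h2
  have h3' : 0 < det c a v := by exact_mod_cast h3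
  have hs : det a b v + det b c v + det c a v = 1 := by
    rw [← h]; simp only [det]; ring
  omega

/-- dual connectivity of the whole triangulation -/
theorem UT.connected {n : ℕ} {T : Finset (Finset Pt)} (hT : UT n T) {C : Finset (Finset Pt)} (hC : C ⊆ T)
    (hne : C.Nonempty) (hcl : ∀ t ∈ C, ∀ s, Nb T t s → s ∈ C) : C = T := by
  apply Finset.Subset.antisymm hC
  obtain ⟨t0, ht0⟩ := hne
  have hball : ∀ ρ, dball T t0 ρ ⊆ C := by
    intro ρ
    induction ρ with
    | zero => rw [dball_zero]; simpa using ht0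
    | succ ρ ih =>
      intro t ht
      rcases mem_dball_succ.mp ht with h | ⟨s, hs, h⟩
      · exact ih h
      · exact hcl s (ih hs) t h
  intro s hs
  obtain ⟨a, b, c, rfl, hpos⟩ := hT.exists_pos (hC ht0)
  obtain ⟨a', b', c', rfl, hpos'⟩ := hT.exists_pos hs
  obtain ⟨x, hx⟩ := interior_cell_nonempty hpos.2
  obtain ⟨y, hy, hgen⟩ := exists_generic (O := interior (cell {a', b', c'})) isOpen_interior
    (interior_cell_nonempty hpos'.2) (L := Set.range (fun v : Pt => (x, emb v)))
    (Set.countable_range _) (by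
      rintro l ⟨v, rfl⟩
      exact ne_emb_of_interior hpos.2 hx v)
  have hxS : x ∈ Sq n := hT.cell_sub hpos.1 (interior_subset hx)
  have hyS : y ∈ Sq n := hT.cell_sub hpos'.1 (interior_subset hy)
  have hconv : Convex ℝ (Sq n) := by
    unfold Sq
    exact convex_Icc _ _
  have hseg : segment ℝ x y ⊆ Sq n := hconv.segment_subset hxS hyS
  have hlat : ∀ v : Pt, emb v ∉ segment ℝ x y := by
    intro v hv
    apply hgen (x, emb v) ⟨v, rfl⟩
    obtain ⟨α, β, hα, hβ, hαβ, hv⟩ := hv
    change sa x (emb v) y = 0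
    rw [← hv]
    have hα' : α = 1 - β := by linarith
    subst hα'
    simp only [sa, Prod.fst_add, Prod.snd_add, Prod.smul_fst, Prod.smul_snd, smul_eq_mul]
    ring
  have hmem : ({a, b, c} : Finset Pt) ∈ FM T (segment ℝ x y) := by
    rw [mem_FM]
    exact ⟨hpos.1, x, interior_subset hx, left_mem_segment ℝ x y⟩
  have hmem' : ({a', b', c'} : Finset Pt) ∈ FM T (segment ℝ x y) := by
    rw [mem_FM]
    exact ⟨hpos'.1, y, interior_subset hy, right_mem_segment ℝ x y⟩
  have := hT.FM_subset_dball (convex_segment x y).isPreconnected hseg hlat hmem hmem'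
  exact hball _ this

end Pool.Agent.IT
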