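import Pool.Agent.IT.StrBall

/-!
# Jump balls around base-good triangles grow
-/

set_option autoImplicit false

namespace Pool.Agent.IT

variable {n : ℕ} {T : Finset (Finset Pt)}

namespace StrComp

theorem mem_jball_succ {J : ℕ} {t0 t : Finset Pt} {ρ : ℕ} :
    t ∈ jball T J t0 (ρ + 1) ↔ t ∈ jball T J t0 ρ ∨ (t ∈ T ∧ ∃ s ∈ jball T J t0 ρ, JNb T J s t) := by
  classical
  rw [jball, Finset.mem_union, Finset.mem_filter]

theorem jball_succ_sub {J : ℕ} {t0 : Finset Pt} {ρ : ℕ} : jball T J t0 ρ ⊆ jball T J t0 (ρ + 1) :=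
  fun _ h => StrComp.mem_jball_succ.2 (Or.inl h)

theorem jball_le {J : ℕ} {t0 : Finset Pt} {ρ σ : ℕ} (h : ρ ≤ σ) : jball T J t0 ρ ⊆ jball T J t0 σ := by
  induction σ, h using Nat.le_induction with
  | base => exact Finset.Subset.refl _
  | succ m _ ih => exact ih.trans jball_succ_sub

theorem self_mem {J : ℕ} {t0 : Finset Pt} {ρ : ℕ} : t0 ∈ jball T J t0 ρ :=
  jball_le (Nat.zero_le ρ) (by rw [jball]; exact Finset.mem_singleton_self _)

theorem jball_sub_T {J : ℕ} {t0 : Finset Pt} (h0 : t0 ∈ T) {ρ : ℕ} : jball T J t0 ρ ⊆ T := by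
  induction ρ with
  | zero =>
    intro x hx
    rw [jball, Finset.mem_singleton] at hx
    rw [hx]; exact h0
  | succ m ih =>
    intro x hx
    rcases StrComp.mem_jball_succ.1 hx with h | h
    · exact ih h
    · exact h.1

theorem JNb.mem_right {J : ℕ} {s t : Finset Pt} (h : JNb T J s t) : t ∈ T := by
  obtain ⟨p, q, r, z, k, -, h2, -, rfl, -⟩ := h
  exact h2.1

/-- a set closed under jump steps contains the jump balls of its members -/
theorem jball_sub_of_closed {J : ℕ} {C : Finset (Finset Pt)}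
    (hcl : ∀ s ∈ C, ∀ u, JNb T J s u → u ∈ C) {t0 : Finset Pt} (h0 : t0 ∈ C) (ρ : ℕ) :
    jball T J t0 ρ ⊆ C := by
  induction ρ with
  | zero =>
    intro x hx
    rw [jball, Finset.mem_singleton] at hx
    rw [hx]; exact h0
  | succ m ih =>
    intro x hx
    rcases StrComp.mem_jball_succ.1 hx with h | ⟨-, s, hs, h⟩
    · exact ih h
    · exact hcl s (ih hs) x h

/-- either the jump ball is large or it is already closed -/
theorem grow (J : ℕ) (t : Finset Pt) (k : ℕ) : k + 1 ≤ (jball T J t k).card ∨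
    ∃ i, i < k ∧ jball T J t (i + 1) = jball T J t i := by
  induction k with
  | zero =>
    left
    exact Finset.card_pos.2 ⟨t, self_mem⟩
  | succ m ih =>
    rcases ih with ih | ⟨i, hi, he⟩
    · by_cases h : jball T J t (m + 1) = jball T J t m
      · exact Or.inr ⟨m, Nat.lt_succ_self m, h⟩
      · left
        have hlt : jball T J t m ⊂ jball T J t (m + 1) :=
          lt_of_le_of_ne jball_succ_sub (fun e => h e.symm)
        have := Finset.card_lt_card hlt
        omega
    · exact Or.inr ⟨i, by omega, he⟩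

theorem tri_card_le (t : Finset Pt) (hT : UT n T) (ht : t ∈ T) : t.card ≤ 3 := by
  obtain ⟨p, q, r, rfl, -⟩ := hT.exists_pos ht
  exact Finset.card_le_three

end StrComp

open StrComp in
theorem comp_size {K : ℕ → ℕ} {J D R M : ℕ}
    (hwall : ∀ (n : ℕ) (T : Finset (Finset Pt)) (t t' : Finset Pt) (p q : Pt) (k : ℤ), UT n T → t ∈ T →
      MarksLE n T t K → t' ∈ dball T t R → p ∈ t' → q ∈ t' → Jump T p q k → (J : ℤ) < k →
      ∀ i : ℕ, i ≤ 3 * R + 30 → p + (i : ℤ) • (q - p) ∈ jverts T J t' D)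
    {n : ℕ} {T : Finset (Finset Pt)} (hT : UT n T) (hn : 4 ^ R < 2 * n ^ 2) (hcard : T.card = 2 * n ^ 2)
    {t : Finset Pt} (ht : BG n T K M R t) {k : ℕ} (hk : k ≤ R) : k + 1 ≤ (jball T J t k).card := by
  classical
  by_contra hcon
  push Not at hcon
  obtain ⟨i, hik, he⟩ : ∃ i, i < k ∧ jball T J t (i + 1) = jball T J t i := by
    rcases grow (T := T) J t k with h | h
    · omega
    · exact h
  set C := jball T J t i with hC
  have htT : t ∈ T := ht.1
  have hMarks : MarksLE n T t K := (ht.2 t (mem_dball_self t R)).1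
  have hcl : ∀ s ∈ C, ∀ u, JNb T J s u → u ∈ C := by
    intro s hs u hu
    have : u ∈ jball T J t (i + 1) := StrComp.mem_jball_succ.2 (Or.inr ⟨JNb.mem_right hu, s, hs, hu⟩)
    rwa [he] at this
  have hCcard : C.card ≤ R := by
    have h1 : C.card ≤ (jball T J t k).card := Finset.card_le_card (jball_le hik.le)
    omega
  have hCT : C ⊆ T := jball_sub_T htT
  have hCne : C ≠ T := by
    intro e
    have h1 : C.card = 2 * n ^ 2 := by rw [e, hcard]
    have h2 : R < 4 ^ R := Nat.lt_pow_self (by norm_num)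
    omega
  -- a step leaving `C`
  obtain ⟨s, hs, u, hsu, huC⟩ : ∃ s ∈ C, ∃ u, Nb T s u ∧ u ∉ C := by
    by_contra hno
    push Not at hno
    exact hCne (hT.connected hCT ⟨t, self_mem⟩ hno)
  have hsball : s ∈ dball T t R := dball_mono (by omega) (jball_sub_dball hs)
  -- the large jump
  obtain ⟨p, q, κ, hp, hq, hpq, hjump, hκ⟩ : ∃ (p q : Pt) (κ : ℤ), p ∈ s ∧ q ∈ s ∧ p ≠ q ∧
      Jump T p q κ ∧ (J : ℤ) < κ := by
    obtain ⟨p, q, r, z, h1, h2, h3, h4⟩ := hsu
    obtain ⟨κ, hκ⟩ := Jump.of_pos h1 h2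
    have hpos : (J : ℤ) < |κ| := by
      by_contra hle
      push Not at hle
      exact huC (hcl s hs u ⟨p, q, r, z, κ, h1, h2, h3, h4, hκ, hle⟩)
    rcases le_or_gt 0 κ with h0 | h0
    · rw [abs_of_nonneg h0] at hpos
      exact ⟨p, q, κ, by rw [h3]; simp, by rw [h3]; simp, h1.ne, hκ, hpos⟩
    · rw [abs_of_neg h0] at hpos
      exact ⟨q, p, -κ, by rw [h3]; simp, by rw [h3]; simp, h1.ne.symm, hκ.neg, hpos⟩
  have hw := hwall n T t s p q κ hT htT hMarks hsball hp hq hjump hκ
  -- the vertices of `C`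
  have hsub : (Finset.range (3 * R + 31)).image (fun j : ℕ => p + (j : ℤ) • (q - p)) ⊆ C.biUnion id := by
    intro x hx
    obtain ⟨j, hj, rfl⟩ := Finset.mem_image.1 hx
    have := hw j (by rw [Finset.mem_range] at hj; omega)
    exact Finset.biUnion_subset_biUnion_of_subset_left id (jball_sub_of_closed hcl hs D) this
  have hinj : Function.Injective (fun j : ℕ => p + (j : ℤ) • (q - p)) := by
    intro a b hab
    simp only [add_right_inj] at hab
    have h1 := congrArg Prod.fst hab
    have h2 := congrArg Prod.snd hab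
    simp only [Prod.smul_fst, Prod.smul_snd, Prod.fst_sub, Prod.snd_sub, smul_eq_mul] at h1 h2
    by_contra hne
    have hne' : ((a : ℤ) - b) ≠ 0 := sub_ne_zero.2 (by exact_mod_cast hne)
    have e1 : ((a : ℤ) - b) * (q.1 - p.1) = 0 := by linarith
    have e2 : ((a : ℤ) - b) * (q.2 - p.2) = 0 := by linarith
    have f1 : q.1 = p.1 := by
      rcases mul_eq_zero.1 e1 with h | h
      · exact absurd h hne'
      · linarith
    have f2 : q.2 = p.2 := by
      rcases mul_eq_zero.1 e2 with h | h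
      · exact absurd h hne'
      · linarith
    exact hpq (Prod.ext f1.symm f2.symm)
  have h1 := Finset.card_le_card hsub
  rw [Finset.card_image_of_injective _ hinj, Finset.card_range] at h1
  have h2 : (C.biUnion id).card ≤ C.card * 3 :=
    Finset.card_biUnion_le_card_mul _ _ _ (fun x hx => tri_card_le x hT (hCT hx))
  omega

end Pool.Agent.IT
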