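import Pool.Agent.IT.Defs
import Pool.Agent.IT.Frame

/-! Definitions for the structure theorem (helper66). -/

set_option autoImplicit false

namespace Pool.Agent.IT

/-- `t` is `M`-fat: all triangles of `T` meeting the interior of some copy `gQ` in the square are at dual
distance at most `M` from `t`. -/
def Fat (n : ℕ) (T : Finset (Finset Pt)) (M : ℕ) (t : Finset Pt) : Prop :=
  ∃ g, IsFrame n g ∧ ∀ s ∈ T, MeetsQ g s → s ∈ dball T t M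

/-- no edge of `t` lies on the boundary of the square -/
def NB (T : Finset (Finset Pt)) (t : Finset Pt) : Prop :=
  ∀ p ∈ t, ∀ q ∈ t, p ≠ q → ∃ s ∈ T, s ≠ t ∧ p ∈ s ∧ q ∈ s

/-- base-good triangle -/
def BG (n : ℕ) (T : Finset (Finset Pt)) (K : ℕ → ℕ) (M R : ℕ) (t : Finset Pt) : Prop :=
  t ∈ T ∧ ∀ s ∈ dball T t R, MarksLE n T s K ∧ ¬ Fat n T M s ∧ NB T s

/-- exact slab of a set of lattice points -/
structure ExSlab (P : Set Pt) (σ : Slab) : Prop where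
  dir : Dir σ.1
  w0 : 0 ≤ σ.2.2
  w3 : σ.2.2 ≤ 3
  sub : ∀ p ∈ P, σ.2.1 ≤ crs σ.1 p ∧ crs σ.1 p ≤ σ.2.1 + σ.2.2
  lo : ∃ p ∈ P, crs σ.1 p = σ.2.1
  hi : ∃ p ∈ P, crs σ.1 p = σ.2.1 + σ.2.2
  long : ∃ x : Pt, ∀ i : ℕ, i ≤ 20 → emb (x + (i : ℤ) • σ.1) ∈ hullR P
  side : σ.2.2 = 3 → ({p : Pt | emb p ∈ hullR P ∧ crs σ.1 p = σ.2.1}).ncard ≤ 10 ∧
    ({p : Pt | emb p ∈ hullR P ∧ crs σ.1 p = σ.2.1 + 3}).ncard ≤ 10

end Pool.Agent.IT
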