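import Pool.Agent.IT.StrDefs
import Pool.Agent.IT.MeetSet

/-! STR/NoCopy: a non-fat triangle has no copy of the pattern region in its hulls. -/

set_option autoImplicit false

namespace Pool.Agent.IT

open Filter Topology

namespace NoCopy

theorem emb_mem_hullR {P : Set Pt} {p : Pt} (h : p ∈ P) : emb p ∈ hullR P :=
  subset_convexHull ℝ _ ⟨p, h, rfl⟩

theorem convex_hullR (P : Set Pt) : Convex ℝ (hullR P) := convex_convexHull ℝ _

theorem opn_sub_hullR {a b c : Pt} (hd : 0 < det a b c) : opn a b c ⊆ hullR {a, b, c} := by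
  rintro x ⟨h1, h2, h3⟩
  have hd' : (0:ℝ) < det a b c := by exact_mod_cast hd
  have hs := dl_sum a b c x
  have e1 := bary1' a b c x
  have e2 := bary2' a b c x
  set D : ℝ := (det a b c : ℝ) with hD
  have ha : emb a ∈ hullR {a, b, c} := emb_mem_hullR (by simp)
  have hb : emb b ∈ hullR {a, b, c} := emb_mem_hullR (by simp)
  have hc : emb c ∈ hullR {a, b, c} := emb_mem_hullR (by simp)
  have hx : x = (dl b c x / D) • emb a + (dl c a x / D) • emb b + (dl a b x / D) • emb c := by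
    ext
    · simp only [emb, Prod.fst_add, Prod.smul_fst, smul_eq_mul]
      field_simp; linarith
    · simp only [emb, Prod.snd_add, Prod.smul_snd, smul_eq_mul]
      field_simp; linarith
  have n1 : 0 ≤ dl b c x / D := (div_pos h2 hd').le
  have n2 : 0 ≤ dl c a x / D := (div_pos h3 hd').le
  have n3 : 0 ≤ dl a b x / D := (div_pos h1 hd').le
  have := (convex_hullR {a, b, c}).sum_mem (t := (Finset.univ : Finset (Fin 3)))
    (w := ![dl b c x / D, dl c a x / D, dl a b x / D]) (z := ![emb a, emb b, emb c])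
    (by intro i _; fin_cases i <;> simp [n1, n2, n3])
    (by
      simp only [Fin.sum_univ_three, Matrix.cons_val_zero, Matrix.cons_val_one, Matrix.cons_val]
      rw [← add_div, ← add_div, div_eq_one_iff_eq hd'.ne']
      linarith)
    (by intro i _; fin_cases i <;> simp [ha, hb, hc])
  rw [hx]
  simpa [Fin.sum_univ_three] using this

theorem convex_Sq (n : ℕ) : Convex ℝ (Sq n) := convex_Icc _ _

theorem insq_of_emb {n : ℕ} {p : Pt} (h : emb p ∈ Sq n) : InSq n p := by
  rw [mem_Sq] at h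
  obtain ⟨h1, h2, h3, h4⟩ := h
  simp only [emb] at h1 h2 h3 h4
  exact ⟨by exact_mod_cast h1, by exact_mod_cast h2, by exact_mod_cast h3, by exact_mod_cast h4⟩

theorem emb_mem_Sq {n : ℕ} {p : Pt} (h : InSq n p) : emb p ∈ Sq n := by
  rw [mem_Sq]
  obtain ⟨h1, h2, h3, h4⟩ := h
  simp only [emb]
  exact ⟨by exact_mod_cast h1, by exact_mod_cast h2, by exact_mod_cast h3, by exact_mod_cast h4⟩

theorem jball_subset {T : Finset (Finset Pt)} {J : ℕ} {t : Finset Pt} (ht : t ∈ T) (k : ℕ) :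
    jball T J t k ⊆ T := by
  induction k with
  | zero => intro s hs; rw [jball, Finset.mem_singleton] at hs; rw [hs]; exact ht
  | succ k ih =>
    classical
    intro s hs
    rw [jball, Finset.mem_union, Finset.mem_filter] at hs
    rcases hs with hs | hs
    · exact ih hs
    · exact hs.1

theorem hullR_jverts_sub {n : ℕ} {T : Finset (Finset Pt)} (hT : UT n T) {t : Finset Pt} (ht : t ∈ T)
    (J k : ℕ) : hullR (jverts T J t k) ⊆ Sq n := by
  apply convexHull_min _ (convex_Sq n)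
  rintro x ⟨p, hp, rfl⟩
  have hp' : p ∈ jverts T J t k := hp
  rw [jverts, Finset.mem_biUnion] at hp'
  obtain ⟨s, hs, hps⟩ := hp'
  exact emb_mem_Sq (hT.insq (jball_subset ht k hs) hps)

/-- an open set meeting the cell of a triangle of `T` meets its interior -/
theorem interior_meets {n : ℕ} {T : Finset (Finset Pt)} (hT : UT n T) {s : Finset Pt} (hs : s ∈ T)
    {U : Set (ℝ × ℝ)} (hU : IsOpen U) {x : ℝ × ℝ} (hx : x ∈ cell s) (hxU : x ∈ U) :
    (interior (cell s) ∩ U).Nonempty := by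
  obtain ⟨a, b, c, rfl, hpos⟩ := hT.exists_pos hs
  obtain ⟨w, hw⟩ := toward_center hpos.2 hx
  have hcont : Continuous (fun ε : ℝ => x + ε • w) := by fun_prop
  have h2 : ∀ᶠ ε in 𝓝[>] (0:ℝ), x + ε • w ∈ U := by
    have : ∀ᶠ ε in 𝓝 (0:ℝ), x + ε • w ∈ U := by
      apply hcont.continuousAt.eventually_mem
      have h00 : x + (0:ℝ) • w = x := by simp
      rw [h00]; exact hU.mem_nhds hxU
    exact this.filter_mono nhdsWithin_le_nhds
  obtain ⟨ε, h3, h4⟩ := (hw.and h2).exists
  exact ⟨_, h3, h4⟩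

end NoCopy

open NoCopy

/-! STR/NoCopy -/
theorem no_copy {K : ℕ → ℕ} {J k M0 : ℕ}
    (hM0 : ∀ (n : ℕ) (T : Finset (Finset Pt)) (t : Finset Pt), UT n T → t ∈ T → MarksLE n T t K → ∀ s ∈ T,
      (interior (cell s) ∩ interior (hullR (jverts T J t k))).Nonempty → s ∈ dball T t M0)
    {n : ℕ} {T : Finset (Finset Pt)} (hT : UT n T) {t : Finset Pt} (ht : t ∈ T) (hK : MarksLE n T t K)
    {M : ℕ} (hM : M0 ≤ M) (hfat : ¬ Fat n T M t) (g : Pt × Pt × Pt) (hg : crs g.2.1 g.2.2 = 1) :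
    ¬ (hullR {fr g (0, 0), fr g (3, 3), fr g (-3, 3)} ⊆ hullR (jverts T J t k)) := by
  intro hsub
  apply hfat
  have hSq := hullR_jverts_sub hT ht J k
  have m1 : InSq n (fr g (0, 0)) := insq_of_emb (hSq (hsub (emb_mem_hullR (by simp))))
  have m2 : InSq n (fr g (3, 3)) := insq_of_emb (hSq (hsub (emb_mem_hullR (by simp))))
  have m3 : InSq n (fr g (-3, 3)) := insq_of_emb (hSq (hsub (emb_mem_hullR (by simp))))
  refine ⟨g, ⟨hg, m1, m2, m3⟩, ?_⟩
  intro s hs hmeet
  obtain ⟨x, hx1, hx2⟩ := hmeet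
  apply dball_mono hM
  apply hM0 n T t hT ht hK s hs
  have hd : 0 < det (fr g (0, 0)) (fr g (3, 3)) (fr g (-3, 3)) := by
    have : det (fr g (0, 0)) (fr g (3, 3)) (fr g (-3, 3)) = 18 * crs g.2.1 g.2.2 := by
      simp only [det, fr, crs]; ring
    rw [this, hg]; norm_num
  have hopen := isOpen_opn (fr g (0, 0)) (fr g (3, 3)) (fr g (-3, 3))
  have hint : opn (fr g (0, 0)) (fr g (3, 3)) (fr g (-3, 3)) ⊆ interior (hullR (jverts T J t k)) :=
    interior_maximal ((opn_sub_hullR hd).trans hsub) hopen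
  obtain ⟨y, hy1, hy2⟩ := interior_meets hT hs hopen hx1 hx2
  exact ⟨y, hy1, hint hy2⟩

end Pool.Agent.IT
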