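import Pool.Agent.IT.StrDefs
import Pool.Agent.IT.MeetSet
import Pool.Agent.IT.GoodCount

/-!
# Structure theorem: counting the triangles which are not base-good
-/

set_option autoImplicit false

namespace Pool.Agent.IT

namespace StrNotBG

variable {n : ℕ} {T : Finset (Finset Pt)}

theorem finite_inSq (n : ℕ) : {p : Pt | InSq n p}.Finite := by
  refine Set.Finite.subset
    ((Finset.Icc (0 : ℤ) n ×ˢ Finset.Icc (0 : ℤ) n).finite_toSet) ?_
  rintro p ⟨h1, h2, h3, h4⟩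
  rw [Finset.mem_coe, Finset.mem_product, Finset.mem_Icc, Finset.mem_Icc]
  exact ⟨⟨h1, h2⟩, h3, h4⟩

theorem finite_frames (n : ℕ) : {g : Pt × Pt × Pt | IsFrame n g}.Finite := by
  refine Set.Finite.of_injOn (f := fun g : Pt × Pt × Pt => (fr g (0, 0), fr g (3, 3), fr g (-3, 3)))
    (t := {p : Pt | InSq n p} ×ˢ ({p : Pt | InSq n p} ×ˢ {p : Pt | InSq n p})) ?_ ?_
    ((finite_inSq n).prod ((finite_inSq n).prod (finite_inSq n)))
  · rintro g ⟨_, h1, h2, h3⟩
    exact ⟨h1, h2, h3⟩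
  · rintro ⟨⟨a1, a2⟩, ⟨b1, b2⟩, ⟨c1, c2⟩⟩ _ ⟨⟨a1', a2'⟩, ⟨b1', b2'⟩, ⟨c1', c2'⟩⟩ _ h
    simp only [fr, Prod.mk.injEq] at h
    obtain ⟨⟨h1, h2⟩, ⟨h3, h4⟩, h5, h6⟩ := h
    simp only [Prod.mk.injEq]
    refine ⟨⟨by linarith, by linarith⟩, ⟨by linarith, by linarith⟩, by linarith, by linarith⟩

theorem meetSet_nonempty (hT : UT n T) {g : Pt × Pt × Pt} (hg : IsFrame n g) :
    ∃ s ∈ T, MeetsQ g s := by
  obtain ⟨h0, h1, h2, h3⟩ := hg
  have hd : det (fr g (0, 0)) (fr g (3, 3)) (fr g (-3, 3)) = 18 := by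
    rw [det_fr, h0]; simp [det]
  have hd' : (det (fr g (0, 0)) (fr g (3, 3)) (fr g (-3, 3)) : ℝ) = 18 := by exact_mod_cast hd
  set a := fr g (0, 0)
  set b := fr g (3, 3)
  set c := fr g (-3, 3)
  set x : ℝ × ℝ := (((a.1 : ℝ) + b.1 + c.1) / 3, ((a.2 : ℝ) + b.2 + c.2) / 3) with hx
  have e1 : dl a b x = (det a b c : ℝ) / 3 := by
    simp only [dl, det, hx]; push_cast; ring
  have e2 : dl b c x = (det a b c : ℝ) / 3 := by
    simp only [dl, det, hx]; push_cast; ring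
  have e3 : dl c a x = (det a b c : ℝ) / 3 := by
    simp only [dl, det, hx]; push_cast; ring
  have hmem : x ∈ opn a b c := by
    refine ⟨?_, ?_, ?_⟩
    · rw [e1, hd']; norm_num
    · rw [e2, hd']; norm_num
    · rw [e3, hd']; norm_num
  have hsq := opn_sub (n := n) (by rw [hd]; norm_num) h1 h2 h3 hmem
  obtain ⟨s, hs, hxs⟩ := hT.exists_cell hsq
  exact ⟨s, hs, x, hxs, hmem⟩

theorem ncard_T (P : Finset Pt → Prop) [DecidablePred P] :
    ({t | t ∈ T ∧ P t}).ncard = (T.filter P).card := by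
  rw [← Set.ncard_coe_finset]
  congr 1
  ext t
  simp

/-- three ways to list a triangle -/
theorem pair_pos (hT : UT n T) {t : Finset Pt} (ht : t ∈ T) {p q : Pt} (hp : p ∈ t) (hq : q ∈ t)
    (hpq : p ≠ q) : (∃ r, Pos T p q r ∧ t = {p, q, r}) ∨ ∃ r, Pos T q p r ∧ t = {q, p, r} := by
  obtain ⟨r, h | h, e⟩ := hT.pos_of_mem ht hp hq hpq.symm
  · exact Or.inl ⟨r, h, e⟩
  · refine Or.inr ⟨r, h, ?_⟩
    rw [e]; ext s; simp only [Finset.mem_insert, Finset.mem_singleton]; tauto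

/-- an edge without second triangle lies on the boundary of the square -/
theorem onSide_of_alone (hT : UT n T) {t : Finset Pt} (ht : t ∈ T) {p q : Pt} (hp : p ∈ t)
    (hq : q ∈ t) (hpq : p ≠ q) (hal : ∀ s ∈ T, s ≠ t → p ∈ s → q ∉ s) :
    (∃ r, (det p q r = 1 ∨ det q p r = 1) ∧ InSq n r) ∧ OnSide n p q := by
  rcases pair_pos hT ht hp hq hpq with ⟨r, h, e⟩ | ⟨r, h, e⟩
  · refine ⟨⟨r, Or.inl h.2, h.cyc'.insq hT⟩, ?_⟩
    by_contra hs
    obtain ⟨z, hz⟩ := h.neighbor hT hs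
    have hne : ({q, p, z} : Finset Pt) ≠ t := by
      have := Nb.ne (T := T) ⟨p, q, r, z, h, hz, rfl, rfl⟩
      rw [e]; exact this.symm
    exact hal _ hz.1 hne (by simp) (by simp)
  · refine ⟨⟨r, Or.inr h.2, h.cyc'.insq hT⟩, ?_⟩
    by_contra hs
    obtain ⟨z, hz⟩ := h.neighbor hT (fun h' => hs h'.symm)
    have hne : ({p, q, z} : Finset Pt) ≠ t := by
      have := Nb.ne (T := T) ⟨q, p, r, z, h, hz, rfl, rfl⟩
      rw [e]; exact this.symm
    exact hal _ hz.1 hne (by simp) (by simp)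

/-- (doubled) midpoints of the unit segments on the boundary -/
def bdMid (n : ℕ) : Finset Pt :=
  (Finset.range n).image (fun j : ℕ => ((0 : ℤ), 2 * (j : ℤ) + 1)) ∪
  ((Finset.range n).image (fun j : ℕ => (2 * (n : ℤ), 2 * (j : ℤ) + 1)) ∪
  ((Finset.range n).image (fun j : ℕ => (2 * (j : ℤ) + 1, (0 : ℤ))) ∪
  (Finset.range n).image (fun j : ℕ => (2 * (j : ℤ) + 1, 2 * (n : ℤ)))))

theorem card_bdMid (n : ℕ) : (bdMid n).card ≤ 4 * n := by
  unfold bdMid
  have h : ∀ f : ℕ → Pt, ((Finset.range n).image f).card ≤ n := fun f =>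
    Finset.card_image_le.trans (by simp)
  have h1 := h (fun j : ℕ => ((0 : ℤ), 2 * (j : ℤ) + 1))
  have h2 := h (fun j : ℕ => (2 * (n : ℤ), 2 * (j : ℤ) + 1))
  have h3 := h (fun j : ℕ => (2 * (j : ℤ) + 1, (0 : ℤ)))
  have h4 := h (fun j : ℕ => (2 * (j : ℤ) + 1, 2 * (n : ℤ)))
  refine (Finset.card_union_le _ _).trans ?_
  refine (Nat.add_le_add_left (Finset.card_union_le _ _) _).trans ?_
  refine (Nat.add_le_add_left (Nat.add_le_add_left (Finset.card_union_le _ _) _) _).trans ?_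
  omega

theorem consecutive {a b : ℤ} {n : ℕ} (h : (b - a = 1 ∨ b - a = -1)) (ha : 0 ≤ a) (ha' : a ≤ n)
    (hb : 0 ≤ b) (hb' : b ≤ n) : ∃ j : ℕ, j < n ∧ 2 * (j : ℤ) + 1 = a + b := by
  rcases h with h | h
  · exact ⟨a.toNat, by omega, by omega⟩
  · exact ⟨b.toNat, by omega, by omega⟩

theorem unit_of_det {x y : ℤ} (h : x * y = 1 ∨ x * y = -1) : x = 1 ∨ x = -1 := by
  rcases h with h | h
  · exact Int.eq_one_or_neg_one_of_mul_eq_one h
  · exact Int.eq_one_or_neg_one_of_mul_eq_neg_one h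

theorem mid_mem {p q r : Pt} (hp : InSq n p) (hq : InSq n q) (hd : det p q r = 1 ∨ det q p r = 1)
    (hs : OnSide n p q) : p + q ∈ bdMid n := by
  obtain ⟨p1, p2, p3, p4⟩ := hp
  obtain ⟨q1, q2, q3, q4⟩ := hq
  have hd' : (q.1 - p.1) * (r.2 - p.2) - (q.2 - p.2) * (r.1 - p.1) = 1 ∨
      (q.1 - p.1) * (r.2 - p.2) - (q.2 - p.2) * (r.1 - p.1) = -1 := by
    rcases hd with h | h
    · left; exact h
    · right
      have := det_swap p q r
      rw [h] at this
      simp only [det] at this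
      linarith
  unfold bdMid
  rw [Finset.mem_union, Finset.mem_union, Finset.mem_union]
  simp only [Finset.mem_image, Finset.mem_range]
  rcases hs with ⟨e1, e2⟩ | ⟨e1, e2⟩ | ⟨e1, e2⟩ | ⟨e1, e2⟩ <;> rw [e1, e2] at hd'
  · have hu : q.2 - p.2 = 1 ∨ q.2 - p.2 = -1 := by
      apply unit_of_det (y := r.1)
      rcases hd' with h | h
      · right; linarith
      · left; linarith
    obtain ⟨j, hj, hj'⟩ := consecutive hu p3 p4 q3 q4
    left
    exact ⟨j, hj, Prod.ext (by simp [e1, e2]) (by simpa using hj')⟩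
  · have hu : q.2 - p.2 = 1 ∨ q.2 - p.2 = -1 := by
      apply unit_of_det (y := r.1 - n)
      rcases hd' with h | h
      · right; linarith
      · left; linarith
    obtain ⟨j, hj, hj'⟩ := consecutive hu p3 p4 q3 q4
    right; left
    exact ⟨j, hj, Prod.ext (by simp [e1, e2]; ring) (by simpa using hj')⟩
  · have hu : q.1 - p.1 = 1 ∨ q.1 - p.1 = -1 := by
      apply unit_of_det (y := r.2)
      rcases hd' with h | h
      · left; linarith
      · right; linarith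
    obtain ⟨j, hj, hj'⟩ := consecutive hu p1 p2 q1 q2
    right; right; left
    exact ⟨j, hj, Prod.ext (by simpa using hj') (by simp [e1, e2])⟩
  · have hu : q.1 - p.1 = 1 ∨ q.1 - p.1 = -1 := by
      apply unit_of_det (y := r.2 - n)
      rcases hd' with h | h
      · left; linarith
      · right; linarith
    obtain ⟨j, hj, hj'⟩ := consecutive hu p1 p2 q1 q2
    right; right; right
    exact ⟨j, hj, Prod.ext (by simpa using hj') (by simp [e1, e2]; ring)⟩

end StrNotBG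

open StrNotBG

theorem fat_count {n : ℕ} {T : Finset (Finset Pt)} (hT : UT n T) (M : ℕ) :
    ({t | t ∈ T ∧ Fat n T M t}).ncard ≤ 4 ^ M * ({g | FatAt n (4 ^ M) T g}).ncard := by
  classical
  have hfin : ({g | FatAt n (4 ^ M) T g}).Finite :=
    (finite_frames n).subset (fun g hg => hg.1)
  rw [ncard_T, Set.ncard_eq_toFinset_card _ hfin]
  have hch : ∀ g : Pt × Pt × Pt, ∃ s : Finset Pt, IsFrame n g → s ∈ T ∧ MeetsQ g s := by
    intro g
    by_cases hg : IsFrame n g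
    · obtain ⟨s, hs, h⟩ := meetSet_nonempty hT hg
      exact ⟨s, fun _ => ⟨hs, h⟩⟩
    · exact ⟨∅, fun h => absurd h hg⟩
  choose σ hσ using hch
  have hsub : T.filter (Fat n T M) ⊆ hfin.toFinset.biUnion (fun g => dball T (σ g) M) := by
    intro t ht
    rw [Finset.mem_filter] at ht
    obtain ⟨htT, g, hg, hs⟩ := ht
    rw [Finset.mem_biUnion]
    refine ⟨g, ?_, ?_⟩
    · rw [Set.Finite.mem_toFinset]
      refine ⟨hg, ?_⟩
      refine (Finset.card_le_card ?_).trans (hT.card_dball t M)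
      intro s hsm
      unfold meetSet at hsm
      rw [Finset.mem_filter] at hsm
      exact hs s hsm.1 hsm.2
    · exact dball_symm (hs (σ g) (hσ g hg).1 (hσ g hg).2)
  calc (T.filter (Fat n T M)).card
      ≤ (hfin.toFinset.biUnion (fun g => dball T (σ g) M)).card := Finset.card_le_card hsub
    _ ≤ ∑ g ∈ hfin.toFinset, (dball T (σ g) M).card := Finset.card_biUnion_le
    _ ≤ ∑ g ∈ hfin.toFinset, 4 ^ M := Finset.sum_le_sum (fun g _ => hT.card_dball (σ g) M)
    _ = 4 ^ M * hfin.toFinset.card := by rw [Finset.sum_const, smul_eq_mul, mul_comm]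

theorem nb_count {n : ℕ} {T : Finset (Finset Pt)} (hT : UT n T) :
    ({t | t ∈ T ∧ ¬ NB T t}).ncard ≤ 4 * n := by
  classical
  rw [ncard_T]
  have hch : ∀ t : Finset Pt, ∃ pq : Pt × Pt, t ∈ T → ¬ NB T t → pq.1 ∈ t ∧ pq.2 ∈ t ∧
      pq.1 ≠ pq.2 ∧ ∀ s ∈ T, s ≠ t → pq.1 ∈ s → pq.2 ∉ s := by
    intro t
    by_cases h : NB T t
    · exact ⟨(0, 0), fun _ h' => absurd h h'⟩
    · unfold NB at h
      push Not at h
      obtain ⟨p, hp, q, hq, hpq, h⟩ := h
      exact ⟨(p, q), fun _ _ => ⟨hp, hq, hpq, h⟩⟩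
  choose f hf using hch
  refine (Finset.card_le_card_of_injOn (t := bdMid n) (fun t => (f t).1 + (f t).2) ?_ ?_).trans
    (card_bdMid n)
  · intro t ht
    rw [Finset.mem_coe, Finset.mem_filter] at ht
    obtain ⟨h1, h2, h3, h4⟩ := hf t ht.1 ht.2
    obtain ⟨⟨r, hr, _⟩, hs⟩ := onSide_of_alone hT ht.1 h1 h2 h3 h4
    exact mid_mem (hT.insq ht.1 h1) (hT.insq ht.1 h2) hr hs
  · intro t ht t' ht' he
    rw [Finset.mem_coe, Finset.mem_filter] at ht ht'
    obtain ⟨h1, h2, h3, h4⟩ := hf t ht.1 ht.2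
    obtain ⟨h1', h2', h3', h4'⟩ := hf t' ht'.1 ht'.2
    have hE : IsEdge T (f t).1 (f t).2 := by
      rcases pair_pos hT ht.1 h1 h2 h3 with ⟨r, h, _⟩ | ⟨r, h, _⟩
      · exact h.edge
      · exact h.edge'
    have hE' : IsEdge T (f t').1 (f t').2 := by
      rcases pair_pos hT ht'.1 h1' h2' h3' with ⟨r, h, _⟩ | ⟨r, h, _⟩
      · exact h.edge
      · exact h.edge'
    by_contra hne
    rcases hE.eq_of_mid hT hE' (congrArg Prod.fst he) (congrArg Prod.snd he) with ⟨e1, e2⟩ | ⟨e1, e2⟩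
    · exact h4 t' ht'.1 (Ne.symm hne) (by rw [e1]; exact h1') (by rw [e2]; exact h2')
    · exact h4 t' ht'.1 (Ne.symm hne) (by rw [e1]; exact h2') (by rw [e2]; exact h1')

theorem bg_count {n : ℕ} {T : Finset (Finset Pt)} (hT : UT n T) (K : ℕ → ℕ) (M R : ℕ) :
    ({t | t ∈ T ∧ ¬ BG n T K M R t}).ncard ≤ 4 ^ R *
      (({t | t ∈ T ∧ ¬ MarksLE n T t K}).ncard + ({t | t ∈ T ∧ Fat n T M t}).ncard +
        ({t | t ∈ T ∧ ¬ NB T t}).ncard) := by
  classical
  rw [ncard_T, ncard_T, ncard_T, ncard_T]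
  set A := T.filter (fun t => ¬ MarksLE n T t K) with hA
  set B := T.filter (Fat n T M) with hB
  set C := T.filter (fun t => ¬ NB T t) with hC
  have hsub : T.filter (fun t => ¬ BG n T K M R t) ⊆ (A ∪ B ∪ C).biUnion (fun s => dball T s R) := by
    intro t ht
    rw [Finset.mem_filter] at ht
    obtain ⟨htT, hbg⟩ := ht
    have hex : ∃ s ∈ dball T t R, ¬ (MarksLE n T s K ∧ ¬ Fat n T M s ∧ NB T s) := by
      by_contra hcon
      push Not at hcon
      apply hbg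
      refine ⟨htT, fun s hs => ?_⟩
      have := hcon s hs
      tauto
    obtain ⟨s, hs, h⟩ := hex
    have hsT := dball_subset htT R hs
    rw [Finset.mem_biUnion]
    refine ⟨s, ?_, dball_symm hs⟩
    rw [Finset.mem_union, Finset.mem_union, hA, hB, hC, Finset.mem_filter, Finset.mem_filter,
      Finset.mem_filter]
    tauto
  have hcard : (A ∪ B ∪ C).card ≤ A.card + B.card + C.card :=
    (Finset.card_union_le _ _).trans (Nat.add_le_add_right (Finset.card_union_le _ _) _)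
  calc (T.filter (fun t => ¬ BG n T K M R t)).card
      ≤ ((A ∪ B ∪ C).biUnion (fun s => dball T s R)).card := Finset.card_le_card hsub
    _ ≤ ∑ s ∈ A ∪ B ∪ C, (dball T s R).card := Finset.card_biUnion_le
    _ ≤ ∑ s ∈ A ∪ B ∪ C, 4 ^ R := Finset.sum_le_sum (fun s _ => hT.card_dball s R)
    _ = 4 ^ R * (A ∪ B ∪ C).card := by rw [Finset.sum_const, smul_eq_mul, mul_comm]
    _ ≤ 4 ^ R * (A.card + B.card + C.card) := Nat.mul_le_mul_left _ hcard

end Pool.Agent.IT
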