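import Pool.Agent.IT.StrDefs

/-! Uniqueness and monotonicity of exact slabs (helper6). -/

set_option autoImplicit false

namespace Pool.Agent.IT

namespace StrSlab

/-- real version of the level function of a slab -/
def crsR (e : Pt) (z : ℝ × ℝ) : ℝ := (e.1 : ℝ) * z.2 - (e.2 : ℝ) * z.1

theorem crsR_emb (e p : Pt) : crsR e (emb p) = (crs e p : ℝ) := by
  simp only [crsR, emb, crs]; push_cast; ring

theorem crs_add_smul (e x v : Pt) (i : ℤ) : crs e (x + i • v) = crs e x + i * crs e v := by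
  simp only [crs, Prod.fst_add, Prod.snd_add, Prod.smul_fst, Prod.smul_snd, smul_eq_mul]
  ring

theorem slab_convex (e : Pt) (a b : ℝ) : Convex ℝ {z : ℝ × ℝ | a ≤ crsR e z ∧ crsR e z ≤ b} := by
  intro x hx y hy s t hs ht hst
  simp only [Set.mem_ofPred_eq] at *
  have h1 : crsR e (s • x + t • y) = s * crsR e x + t * crsR e y := by
    simp only [crsR, Prod.fst_add, Prod.snd_add, Prod.smul_fst, Prod.smul_snd, smul_eq_mul]
    ring
  rw [h1]
  constructor
  · have ha : s * a + t * a = a := by rw [← add_mul, hst, one_mul]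
    have := mul_le_mul_of_nonneg_left hx.1 hs
    have := mul_le_mul_of_nonneg_left hy.1 ht
    linarith
  · have hb : s * b + t * b = b := by rw [← add_mul, hst, one_mul]
    have := mul_le_mul_of_nonneg_left hx.2 hs
    have := mul_le_mul_of_nonneg_left hy.2 ht
    linarith

/-- lattice points of the hull lie in the slab -/
theorem hullR_slab {P : Set Pt} {e : Pt} {c w : ℤ} (h : ∀ p ∈ P, c ≤ crs e p ∧ crs e p ≤ c + w)
    {p : Pt} (hp : emb p ∈ hullR P) : c ≤ crs e p ∧ crs e p ≤ c + w := by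
  have h1 : hullR P ⊆ {z : ℝ × ℝ | (c : ℝ) ≤ crsR e z ∧ crsR e z ≤ ((c + w : ℤ) : ℝ)} := by
    apply convexHull_min _ (slab_convex e _ _)
    rintro _ ⟨q, hq, rfl⟩
    simp only [Set.mem_ofPred_eq, crsR_emb]
    exact ⟨by exact_mod_cast (h q hq).1, by exact_mod_cast (h q hq).2⟩
  have h2 := h1 hp
  simp only [Set.mem_ofPred_eq, crsR_emb] at h2
  exact ⟨by exact_mod_cast h2.1, by exact_mod_cast h2.2⟩

/-- a linear function taking values in an interval of length at most 3 along 21 steps is constant -/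
theorem crs_zero_of_bounded {e x v : Pt} {c w : ℤ} (hw : w ≤ 3)
    (h : ∀ i : ℕ, i ≤ 20 → c ≤ crs e (x + (i : ℤ) • v) ∧ crs e (x + (i : ℤ) • v) ≤ c + w) :
    crs e v = 0 := by
  have h0 := h 0 (by norm_num)
  have h20 := h 20 (by norm_num)
  rw [crs_add_smul] at h0 h20
  push_cast at h0 h20
  omega

theorem hullR_mono {P P' : Set Pt} (h : P ⊆ P') : hullR P ⊆ hullR P' :=
  convexHull_mono (Set.image_mono h)

/-- two parallel lexicographically positive primitive vectors are equal -/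
theorem dir_eq_of_crs {e e' : Pt} (h : Dir e) (h' : Dir e') (hc : crs e' e = 0) : e = e' := by
  obtain ⟨hco, hlex⟩ := h
  obtain ⟨hco', hlex'⟩ := h'
  simp only [crs] at hc
  have hab : e'.1 * e.2 = e'.2 * e.1 := by linarith
  -- e.1 ∣ e'.1 and conversely
  have d1 : e.1 ∣ e'.1 := by
    have : e.1 ∣ e'.1 * e.2 := ⟨e'.2, by rw [hab]; ring⟩
    exact hco.dvd_of_dvd_mul_right this
  have d2 : e'.1 ∣ e.1 := by
    have : e'.1 ∣ e.1 * e'.2 := ⟨e.2, by rw [mul_comm e.1, ← hab]⟩
    exact hco'.dvd_of_dvd_mul_right this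
  have d3 : e.2 ∣ e'.2 := by
    have : e.2 ∣ e'.2 * e.1 := ⟨e'.1, by rw [← hab]; ring⟩
    exact hco.symm.dvd_of_dvd_mul_right this
  have d4 : e'.2 ∣ e.2 := by
    have : e'.2 ∣ e.2 * e'.1 := ⟨e.1, by rw [mul_comm e.2, hab]⟩
    exact hco'.symm.dvd_of_dvd_mul_right this
  have a1 : e.1 = e'.1 ∨ e.1 = - e'.1 := by
    have := Int.natAbs_eq_natAbs_iff.mp (Nat.dvd_antisymm (Int.natAbs_dvd_natAbs.mpr d1)
      (Int.natAbs_dvd_natAbs.mpr d2))
    exact this
  have a2 : e.2 = e'.2 ∨ e.2 = - e'.2 := by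
    have := Int.natAbs_eq_natAbs_iff.mp (Nat.dvd_antisymm (Int.natAbs_dvd_natAbs.mpr d3)
      (Int.natAbs_dvd_natAbs.mpr d4))
    exact this
  unfold LexPos at hlex hlex'
  have key : e.1 = e'.1 ∧ e.2 = e'.2 := by
    rcases a1 with a1 | a1
    · refine ⟨a1, ?_⟩
      rcases a2 with a2 | a2
      · exact a2
      · rcases hlex with hl | ⟨hl0, hl⟩
        · -- e'.1 * e.2 = e'.2 * e.1, e.1 = e'.1 > 0
          rw [← a1] at hab
          have : e.1 * (e.2 - e'.2) = 0 := by linarith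
          rcases mul_eq_zero.mp this with h0 | h0
          · omega
          · omega
        · rcases hlex' with hl' | ⟨hl0', hl'⟩
          · omega
          · omega
    · rcases hlex with hl | ⟨hl0, hl⟩
      · rcases hlex' with hl' | ⟨hl0', hl'⟩ <;> omega
      · rcases hlex' with hl' | ⟨hl0', hl'⟩
        · omega
        · refine ⟨by omega, ?_⟩
          rcases a2 with a2 | a2
          · exact a2
          · omega
  exact Prod.ext key.1 key.2

end StrSlab

open StrSlab

theorem exslab_dir {P P' : Set Pt} (hP : P ⊆ P') {σ σ' : Slab} (h : ExSlab P σ) (h' : ExSlab P' σ') :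
    σ.1 = σ'.1 ∧ σ'.2.1 ≤ σ.2.1 ∧ σ.2.1 + σ.2.2 ≤ σ'.2.1 + σ'.2.2 := by
  obtain ⟨x, hx⟩ := h.long
  have hc : crs σ'.1 σ.1 = 0 := by
    apply crs_zero_of_bounded (x := x) (c := σ'.2.1) (w := σ'.2.2) h'.w3
    intro i hi
    exact hullR_slab h'.sub (hullR_mono hP (hx i hi))
  have heq : σ.1 = σ'.1 := dir_eq_of_crs h.dir h'.dir hc
  refine ⟨heq, ?_, ?_⟩
  · obtain ⟨p, hp, hpc⟩ := h.lo
    have := (h'.sub p (hP hp)).1
    rw [← heq, hpc] at this
    exact this
  · obtain ⟨p, hp, hpc⟩ := h.hi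
    have := (h'.sub p (hP hp)).2
    rw [← heq, hpc] at this
    exact this

/-- a set containing 21 collinear equidistant points of difference `v` has its slab parallel to `v` -/
theorem exslab_par {P : Set Pt} {σ : Slab} (h : ExSlab P σ) {x v : Pt}
    (hx : ∀ i : ℕ, i ≤ 20 → x + (i : ℤ) • v ∈ P) : crs σ.1 v = 0 := by
  apply crs_zero_of_bounded (x := x) (c := σ.2.1) (w := σ.2.2) h.w3
  intro i hi
  exact h.sub _ (hx i hi)

end Pool.Agent.IT
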