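import Mathlib
import Pool.Agent.IT.Defs
import Pool.Agent.IT.Frame

/-!
# Strips (pure lattice geometry)

A lattice polygon with many lattice points and without a unimodular copy of
`Q = conv((0,0),(-3,3),(3,3))` lies in a slab of width at most three.
-/

set_option autoImplicit false

namespace Pool.Agent.IT

namespace Strip

theorem cr_add (e u v : Pt) : crs e (u + v) = crs e u + crs e v := by
  simp only [crs, Prod.fst_add, Prod.snd_add]; ring

theorem cr_sub (e u v : Pt) : crs e (u - v) = crs e u - crs e v := by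
  simp only [crs, Prod.fst_sub, Prod.snd_sub]; ring

theorem cr_smul (e u : Pt) (k : ℤ) : crs e (k • u) = k * crs e u := by
  simp only [crs, Prod.smul_fst, Prod.smul_snd, smul_eq_mul]; ring

theorem cr_self (e : Pt) : crs e e = 0 := by
  simp only [crs]; ring

/-- integer barycentric combinations of three lattice points of a convex set -/
theorem mem_of_bary {H : Set (ℝ × ℝ)} (hH : Convex ℝ H) {u v w p : Pt} (hu : emb u ∈ H)
    (hv : emb v ∈ H) (hw : emb w ∈ H) {A B C N : ℤ} (hA : 0 ≤ A) (hB : 0 ≤ B) (hC : 0 ≤ C)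
    (hN : A + B + C = N) (hN0 : 0 < N) (hp : N • p = A • u + B • v + C • w) : emb p ∈ H := by
  have hN' : (0 : ℝ) < N := by exact_mod_cast hN0
  have h1 : (N : ℝ) * p.1 = A * u.1 + B * v.1 + C * w.1 := by
    have := congrArg Prod.fst hp
    simp only [Prod.smul_fst, Prod.fst_add, smul_eq_mul] at this
    exact_mod_cast this
  have h2 : (N : ℝ) * p.2 = A * u.2 + B * v.2 + C * w.2 := by
    have := congrArg Prod.snd hp
    simp only [Prod.smul_snd, Prod.snd_add, smul_eq_mul] at this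
    exact_mod_cast this
  have hA' : (0 : ℝ) ≤ A := by exact_mod_cast hA
  have hB' : (0 : ℝ) ≤ B := by exact_mod_cast hB
  have hC' : (0 : ℝ) ≤ C := by exact_mod_cast hC
  have hs : (A : ℝ) + B + C = N := by exact_mod_cast hN
  have key := hH.sum_mem (t := Finset.univ) (w := ![(A : ℝ) / N, (B : ℝ) / N, (C : ℝ) / N])
    (z := ![emb u, emb v, emb w]) (by
      intro i _
      fin_cases i
      · exact div_nonneg hA' hN'.le
      · exact div_nonneg hB' hN'.le
      · exact div_nonneg hC' hN'.le) (by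
      rw [Fin.sum_univ_three]
      simp only [Matrix.cons_val_zero, Matrix.cons_val_one, Matrix.cons_val_two, Matrix.head_cons,
        Matrix.tail_cons]
      rw [← add_div, ← add_div, hs, div_self hN'.ne']) (by
      intro i _
      fin_cases i
      · exact hu
      · exact hv
      · exact hw)
  rw [Fin.sum_univ_three] at key
  simp only [Matrix.cons_val_zero, Matrix.cons_val_one, Matrix.cons_val_two, Matrix.head_cons,
        Matrix.tail_cons] at key
  convert key using 1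
  ext
  · simp only [emb, Prod.fst_add, Prod.smul_fst, smul_eq_mul]
    field_simp
    linarith
  · simp only [emb, Prod.snd_add, Prod.smul_snd, smul_eq_mul]
    field_simp
    linarith

/-- lattice points of a lattice segment -/
theorem mem_seg {H : Set (ℝ × ℝ)} (hH : Convex ℝ H) {x e : Pt} {N : ℤ} (hx : emb x ∈ H)
    (hy : emb (x + N • e) ∈ H) {i : ℤ} (hi0 : 0 ≤ i) (hiN : i ≤ N) : emb (x + i • e) ∈ H := by
  rcases hi0.eq_or_lt with h | h
  · subst h; simpa using hx
  · refine mem_of_bary hH (u := x) (v := x + N • e) (w := x) (A := N - i) (B := i) (C := 0) (N := N)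
      hx hy hx (by omega) hi0 le_rfl (by ring) (by omega) ?_
    ext
    · simp only [Prod.smul_fst, Prod.fst_add, smul_eq_mul]; ring
    · simp only [Prod.smul_snd, Prod.snd_add, smul_eq_mul]; ring

/-- vectors of level zero are multiples of `e` -/
theorem exists_smul {e f d : Pt} (hf : crs e f = 1) (hd : crs e d = 0) : ∃ s : ℤ, d = s • e := by
  refine ⟨f.2 * d.1 - f.1 * d.2, ?_⟩
  simp only [crs] at hf hd
  ext
  · simp only [Prod.smul_fst, smul_eq_mul]
    linear_combination (-d.1) * hf + f.1 * hd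
  · simp only [Prod.smul_snd, smul_eq_mul]
    linear_combination (-d.2) * hf + f.2 * hd

/-- no unimodular copy of `Q` in `H` -/
def NoQ (H : Set (ℝ × ℝ)) : Prop := ∀ g : Pt × Pt × Pt, crs g.2.1 g.2.2 = 1 →
  ¬ (hullR {fr g (0, 0), fr g (3, 3), fr g (-3, 3)} ⊆ H)

theorem cv_subset {H : Set (ℝ × ℝ)} (hH : Convex ℝ H) {t : Set Pt} (ht : ∀ p ∈ t, emb p ∈ H) :
    hullR t ⊆ H := by
  refine convexHull_min ?_ hH
  rintro _ ⟨p, hp, rfl⟩
  exact ht p hp

/-- an apex and nine consecutive lattice points three levels higher -/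
theorem noQ_up {H : Set (ℝ × ℝ)} (hH : Convex ℝ H) (hQ : NoQ H) {e f o y : Pt} (hf : crs e f = 1)
    (ho : emb o ∈ H) (hy : emb y ∈ H) (hy8 : emb (y + (8 : ℤ) • e) ∈ H)
    (hl : crs e (y - o) = 3) : False := by
  obtain ⟨s, hs⟩ := exists_smul (d := y - o - (3 : ℤ) • f) hf (by
    rw [cr_sub, cr_smul, hl, hf]; norm_num)
  set k : ℤ := (s + 5) / 3 with hk
  have hk1 : s + 3 ≤ 3 * k := by omega
  have hk2 : 3 * k ≤ s + 5 := by omega
  refine hQ (o, e, f + k • e) (by rw [cr_add, cr_smul, cr_self, hf]; ring) (cv_subset hH ?_)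
  intro p hp
  simp only [fr, Set.mem_insert_iff, Set.mem_singleton_iff] at hp
  have hs1 := congrArg Prod.fst hs
  have hs2 := congrArg Prod.snd hs
  simp only [Prod.fst_sub, Prod.snd_sub, Prod.smul_fst, Prod.smul_snd, smul_eq_mul] at hs1 hs2
  rcases hp with rfl | rfl | rfl
  · simpa using ho
  · have := mem_seg hH hy hy8 (i := 3 * k - s + 3) (by omega) (by omega)
    convert this using 2
    ext
    · simp only [Prod.smul_fst, Prod.fst_add, smul_eq_mul]; linear_combination -hs1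
    · simp only [Prod.smul_snd, Prod.snd_add, smul_eq_mul]; linear_combination -hs2
  · have := mem_seg hH hy hy8 (i := 3 * k - s - 3) (by omega) (by omega)
    convert this using 2
    ext
    · simp only [Prod.smul_fst, Prod.fst_add, smul_eq_mul]; linear_combination -hs1
    · simp only [Prod.smul_snd, Prod.snd_add, smul_eq_mul]; linear_combination -hs2

/-- an apex and nine consecutive lattice points three levels lower -/
theorem noQ_down {H : Set (ℝ × ℝ)} (hH : Convex ℝ H) (hQ : NoQ H) {e f o y : Pt} (hf : crs e f = 1)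
    (ho : emb o ∈ H) (hy : emb y ∈ H) (hy8 : emb (y + (8 : ℤ) • e) ∈ H)
    (hl : crs e (y - o) = -3) : False := by
  refine noQ_up hH hQ (e := -e) (f := -f) (o := o) (y := y + (8 : ℤ) • e) ?_ ho hy8 ?_ ?_
  · simp only [crs, Prod.fst_neg, Prod.snd_neg] at hf ⊢; linarith
  · convert hy using 2
    ext
    · simp
    · simp
  · simp only [crs, Prod.fst_neg, Prod.snd_neg, Prod.fst_sub, Prod.snd_sub, Prod.fst_add,
      Prod.snd_add, Prod.smul_fst, Prod.smul_snd, smul_eq_mul] at hl ⊢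
    linarith

/-- lattice points on an intermediate level -/
theorem level {H : Set (ℝ × ℝ)} (hH : Convex ℝ H) {e f x y : Pt} (hf : crs e f = 1)
    (hx : emb x ∈ H) (hx20 : emb (x + (20 : ℤ) • e) ∈ H) (hy : emb y ∈ H) {h t m : ℤ}
    (hh : crs e (y - x) = h) (ht0 : 0 < t) (hth : t < h) (hmh : m * h ≤ 20 * (h - t)) :
    ∃ z : Pt, crs e (z - x) = t ∧ ∀ i : ℤ, 0 ≤ i → i < m → emb (z + i • e) ∈ H := by
  obtain ⟨s, hs⟩ := exists_smul (d := y - x - h • f) hf (by
    rw [cr_sub, cr_smul, hh, hf]; ring)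
  have hh0 : 0 < h := by omega
  -- the first index: the ceiling of `t s / h`
  set r : ℤ := -((-(t * s)) / h) with hr
  have hr1 : t * s ≤ h * r := by
    have := Int.mul_ediv_self_le (x := -(t * s)) (k := h) hh0.ne'
    rw [hr]; linarith
  have hr2 : h * r < t * s + h := by
    have := Int.lt_mul_ediv_self_add (x := -(t * s)) (k := h) hh0
    rw [hr]; linarith
  refine ⟨x + t • f + r • e, ?_, ?_⟩
  · rw [cr_sub, cr_add, cr_add, cr_smul, cr_smul, cr_self, hf]; ring
  · intro i hi0 him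
    have hs1 := congrArg Prod.fst hs
    have hs2 := congrArg Prod.snd hs
    simp only [Prod.fst_sub, Prod.snd_sub, Prod.smul_fst, Prod.smul_snd, smul_eq_mul] at hs1 hs2
    have him' : h * (r + i) ≤ t * s + 20 * (h - t) := by nlinarith
    refine mem_of_bary hH (u := x) (v := x + (20 : ℤ) • e) (w := y)
      (A := 20 * h - 20 * t - (h * (r + i) - t * s)) (B := h * (r + i) - t * s) (C := 20 * t)
      (N := 20 * h) hx hx20 hy (by linarith) (by nlinarith) (by linarith) (by ring) (by linarith) ?_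
    ext
    · simp only [Prod.smul_fst, Prod.fst_add, smul_eq_mul]
      linear_combination (-(20 * t)) * hs1
    · simp only [Prod.smul_snd, Prod.snd_add, smul_eq_mul]
      linear_combination (-(20 * t)) * hs2

/-- all lattice points of `H` are at level at most two above a long segment -/
theorem le_two {H : Set (ℝ × ℝ)} (hH : Convex ℝ H) (hQ : NoQ H) {e f x y : Pt} (hf : crs e f = 1)
    (hx : emb x ∈ H) (hx20 : emb (x + (20 : ℤ) • e) ∈ H) (hy : emb y ∈ H) :
    crs e (y - x) ≤ 2 := by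
  by_contra hlt
  push Not at hlt
  set h : ℤ := crs e (y - x) with hh
  rcases (show h = 3 ∨ 4 ≤ h by omega) with h3 | h4
  · refine noQ_down hH hQ (o := y) (y := x) hf hy hx (mem_seg hH hx hx20 (by norm_num)
      (by norm_num)) ?_
    rw [cr_sub] at hh ⊢
    linarith
  · obtain ⟨z, hz, hzm⟩ := level hH (t := 1) (m := 9) hf hx hx20 hy hh.symm (by norm_num) (by omega)
      (by omega)
    obtain ⟨o, ho, hoH⟩ : ∃ o : Pt, crs e (o - x) = 4 ∧ emb o ∈ H := by
      rcases (show h = 4 ∨ 5 ≤ h by omega) with h4' | h5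
      · exact ⟨y, by rw [← hh, h4'], hy⟩
      · obtain ⟨o, ho, hom⟩ := level hH (t := 4) (m := 1) hf hx hx20 hy hh.symm (by norm_num)
          (by omega) (by omega)
        exact ⟨o, ho, by simpa using hom 0 le_rfl (by norm_num)⟩
    refine noQ_down hH hQ (o := o) (y := z) hf hoH (by simpa using hzm 0 le_rfl (by norm_num))
      (hzm 8 (by norm_num) (by norm_num)) ?_
    rw [cr_sub] at hz ho ⊢
    linarith

theorem ge_neg_two {H : Set (ℝ × ℝ)} (hH : Convex ℝ H) (hQ : NoQ H) {e f x y : Pt}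
    (hf : crs e f = 1) (hx : emb x ∈ H) (hx20 : emb (x + (20 : ℤ) • e) ∈ H) (hy : emb y ∈ H) :
    -2 ≤ crs e (y - x) := by
  have := le_two hH hQ (e := -e) (f := -f) (x := x + (20 : ℤ) • e) (y := y)
    (by simp only [crs, Prod.fst_neg, Prod.snd_neg] at hf ⊢; linarith) hx20 (by
      convert hx using 2
      ext
      · simp
      · simp) hy
  simp only [crs, Prod.fst_neg, Prod.snd_neg, Prod.fst_sub, Prod.snd_sub, Prod.fst_add,
      Prod.snd_add, Prod.smul_fst, Prod.smul_snd, smul_eq_mul] at this ⊢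
  linarith

theorem not_both {H : Set (ℝ × ℝ)} (hH : Convex ℝ H) (hQ : NoQ H) {e f x y y' : Pt}
    (hf : crs e f = 1) (hx : emb x ∈ H) (hx20 : emb (x + (20 : ℤ) • e) ∈ H) (hy : emb y ∈ H)
    (hy' : emb y' ∈ H) (h1 : crs e (y - x) = 2) (h2 : crs e (y' - x) = -2) : False := by
  obtain ⟨z, hz, hzm⟩ := level hH (t := 1) (m := 9) hf hx hx20 hy h1 (by norm_num) (by omega)
      (by omega)
  refine noQ_up hH hQ (o := y') (y := z) hf hy' (by simpa using hzm 0 le_rfl (by norm_num))
      (hzm 8 (by norm_num) (by norm_num)) ?_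
  rw [cr_sub] at hz h2 ⊢
  linarith

/-- more than ten lattice points on a level: nine consecutive ones -/
theorem nine {H : Set (ℝ × ℝ)} (hH : Convex ℝ H) {e f : Pt} (hf : crs e f = 1) {c : ℤ}
    (hc : 10 < ({p : Pt | emb p ∈ H ∧ crs e p = c}).ncard) :
    ∃ y : Pt, crs e y = c ∧ emb y ∈ H ∧ emb (y + (8 : ℤ) • e) ∈ H := by
  set A : Set Pt := {p : Pt | emb p ∈ H ∧ crs e p = c} with hA
  have hfin : A.Finite := by
    by_contra h
    rw [Set.Infinite.ncard h] at hc
    omega
  have hne : A.Nonempty := by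
    by_contra h
    rw [Set.not_nonempty_iff_eq_empty] at h
    rw [h] at hc
    simp at hc
  obtain ⟨p0, hp0⟩ := hne
  have hex : ∀ p ∈ A, ∃ s : ℤ, p = p0 + s • e := by
    intro p hp
    obtain ⟨s, hs⟩ := exists_smul (d := p - p0) hf (by rw [cr_sub, hp.2, hp0.2]; ring)
    exact ⟨s, by rw [← hs]; abel⟩
  choose! g hg using hex
  obtain ⟨p1, hp1, hmin⟩ := Set.exists_min_image A g hfin ⟨p0, hp0⟩
  obtain ⟨p2, hp2, hmax⟩ := Set.exists_max_image A g hfin ⟨p0, hp0⟩
  have hsub : A.ncard ≤ (Finset.Icc (g p1) (g p2)).card := by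
    rw [← Set.ncard_coe_finset]
    refine Set.ncard_le_ncard_of_injOn g ?_ ?_ (Finset.finite_toSet _)
    · intro p hp
      exact Finset.mem_coe.mpr (Finset.mem_Icc.mpr ⟨hmin p hp, hmax p hp⟩)
    · intro p hp q hq hpq
      rw [hg p hp, hg q hq, hpq]
  rw [Int.card_Icc] at hsub
  have h8 : g p1 + 8 ≤ g p2 := by omega
  refine ⟨p1, hp1.2, hp1.1, ?_⟩
  refine mem_seg hH (N := g p2 - g p1) hp1.1 ?_ (by norm_num) (by omega)
  have : p1 + (g p2 - g p1) • e = p0 + g p2 • e := by
    rw [sub_smul]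
    nth_rewrite 1 [hg p1 hp1]
    abel
  rw [this, ← hg p2 hp2]
  exact hp2.1

/-- a primitive direction has a complement -/
theorem exists_compl {e : Pt} (he : IsCoprime e.1 e.2) : ∃ f : Pt, crs e f = 1 := by
  obtain ⟨a, b, hab⟩ := he
  exact ⟨(-b, a), by simp only [crs]; linarith⟩

/-- pigeonhole: a long lattice segment in `H` -/
theorem long_segment {H : Set (ℝ × ℝ)} (hH : Convex ℝ H) {Q0 : Finset Pt} (hQ0 : 400 < Q0.card)
    (hQH : ∀ p ∈ Q0, emb p ∈ H) :
    ∃ e x : Pt, Dir e ∧ emb x ∈ H ∧ emb (x + (20 : ℤ) • e) ∈ H := by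
  obtain ⟨p, hp, q, hq, hpq, hmod⟩ := Finset.exists_ne_map_eq_of_card_lt_of_maps_to
    (s := Q0) (t := Finset.Ico (0 : ℤ) 20 ×ˢ Finset.Ico (0 : ℤ) 20)
    (f := fun p => (p.1 % 20, p.2 % 20)) (by
      rw [Finset.card_product, Int.card_Ico]
      norm_num
      exact hQ0) (by
      intro p _
      simp only [Finset.coe_product, Set.mem_prod, Finset.coe_Ico, Set.mem_Ico]
      omega)
  simp only [Prod.mk.injEq] at hmod
  obtain ⟨u1, hu1⟩ : ∃ u : ℤ, q.1 - p.1 = 20 * u := ⟨(q.1 - p.1) / 20, by omega⟩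
  obtain ⟨u2, hu2⟩ : ∃ u : ℤ, q.2 - p.2 = 20 * u := ⟨(q.2 - p.2) / 20, by omega⟩
  have hu : ¬ (u1 = 0 ∧ u2 = 0) := by
    rintro ⟨rfl, rfl⟩
    exact hpq (Prod.ext (by omega) (by omega))
  have hg : 0 < Int.gcd u1 u2 := by
    rw [Nat.pos_iff_ne_zero, Ne, Int.gcd_eq_zero_iff]
    exact hu
  obtain ⟨g, e1, e2, hg0, hcop, he1, he2⟩ := Int.exists_gcd_one' hg
  rw [← Int.isCoprime_iff_gcd_eq_one] at hcop
  have hg1 : (1 : ℤ) ≤ g := by exact_mod_cast hg0
  have hqp : q = p + (20 * (g : ℤ)) • ((e1, e2) : Pt) := by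
    ext
    · simp only [Prod.fst_add, Prod.smul_fst, smul_eq_mul]
      rw [he1] at hu1
      linarith
    · simp only [Prod.snd_add, Prod.smul_snd, smul_eq_mul]
      rw [he2] at hu2
      linarith
  by_cases hlex : LexPos (e1, e2)
  · refine ⟨(e1, e2), p, ⟨hcop, hlex⟩, hQH p hp, ?_⟩
    refine mem_seg hH (N := 20 * (g : ℤ)) (hQH p hp) ?_ (by norm_num) (by linarith)
    rw [← hqp]
    exact hQH q hq
  · refine ⟨(-e1, -e2), q, ⟨?_, ?_⟩, hQH q hq, ?_⟩
    · exact hcop.neg_neg
    · simp only [LexPos, not_or, not_lt, not_and] at hlex ⊢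
      obtain ⟨h1, h2⟩ := hlex
      rcases h1.lt_or_eq with h | h
      · left; linarith
      · right
        refine ⟨by linarith, ?_⟩
        have h3 := h2 h
        rcases h3.lt_or_eq with h' | h'
        · linarith
        · exfalso
          rw [h, h'] at hcop
          exact not_isCoprime_zero_zero hcop
    · refine mem_seg hH (N := 20 * (g : ℤ)) (hQH q hq) ?_ (by norm_num) (by linarith)
      have : q + (20 * (g : ℤ)) • ((-e1, -e2) : Pt) = p := by
        rw [hqp]
        ext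
        · simp only [Prod.fst_add, Prod.smul_fst, smul_eq_mul]; ring
        · simp only [Prod.snd_add, Prod.smul_snd, smul_eq_mul]; ring
      rw [this]
      exact hQH p hp

end Strip

open Strip in
/-- a slab of width at most three containing five consecutive points of a lattice line in a
primitive direction has this direction -/
theorem strip_unique {e e' x : Pt} {c w : ℤ} (he : Dir e) (he' : Dir e') (hw : w ≤ 3)
    (h : ∀ i : ℕ, i ≤ 4 → c ≤ crs e (x + (i : ℤ) • e') ∧ crs e (x + (i : ℤ) • e') ≤ c + w) :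
    e' = e := by
  have h0 := h 0 (by norm_num)
  have h4 := h 4 le_rfl
  rw [cr_add, cr_smul] at h0 h4
  push_cast at h0 h4
  have hz : crs e e' = 0 := by omega
  obtain ⟨f, hf⟩ := exists_compl he.1
  obtain ⟨s, hs⟩ := exists_smul hf hz
  have h1 := congrArg Prod.fst hs
  have h2 := congrArg Prod.snd hs
  simp only [Prod.smul_fst, Prod.smul_snd, smul_eq_mul] at h1 h2
  have hunit : IsUnit s := by
    obtain ⟨a, b, hab⟩ := he'.1
    exact IsUnit.of_mul_eq_one (a * e.1 + b * e.2) (by rw [h1, h2] at hab; linarith)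
  rcases Int.isUnit_iff.mp hunit with rfl | rfl
  · rw [hs, one_smul]
  · exfalso
    have l1 := he.2
    have l2 := he'.2
    simp only [LexPos] at l1 l2
    omega

open Strip in
theorem strip : ∃ L : ℕ, ∀ P : Set Pt, P.Finite →
    (∃ Q0 : Finset Pt, L < Q0.card ∧ ∀ p ∈ Q0, emb p ∈ hullR P) →
    (∀ g : Pt × Pt × Pt, crs g.2.1 g.2.2 = 1 →
      ¬ (hullR {fr g (0, 0), fr g (3, 3), fr g (-3, 3)} ⊆ hullR P)) →
    ∃ e : Pt, Dir e ∧ ∃ c w : ℤ, 0 ≤ w ∧ w ≤ 3 ∧ (∀ p ∈ P, c ≤ crs e p ∧ crs e p ≤ c + w) ∧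
      (∃ p ∈ P, crs e p = c) ∧ (∃ p ∈ P, crs e p = c + w) ∧
      (∃ x : Pt, ∀ i : ℕ, i ≤ 20 → emb (x + (i : ℤ) • e) ∈ hullR P) ∧
      (w = 3 → ({p : Pt | emb p ∈ hullR P ∧ crs e p = c}).ncard ≤ 10 ∧
        ({p : Pt | emb p ∈ hullR P ∧ crs e p = c + 3}).ncard ≤ 10) := by
  refine ⟨400, fun P hP ⟨Q0, hQ0, hQH⟩ hQ => ?_⟩
  have hH : Convex ℝ (hullR P) := convex_convexHull ℝ _
  have hPH : ∀ p ∈ P, emb p ∈ hullR P := fun p hp =>
    subset_convexHull ℝ _ (Set.mem_image_of_mem _ hp)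
  obtain ⟨e, x, he, hx, hx20⟩ := long_segment hH hQ0 hQH
  obtain ⟨f, hf⟩ := exists_compl he.1
  have hne : P.Nonempty := by
    by_contra h
    rw [Set.not_nonempty_iff_eq_empty] at h
    rw [h] at hx
    simp [hullR] at hx
  obtain ⟨p1, hp1, hmin⟩ := Set.exists_min_image P (crs e) hP hne
  obtain ⟨p2, hp2, hmax⟩ := Set.exists_max_image P (crs e) hP hne
  have a1 := le_two hH hQ hf hx hx20 (hPH p2 hp2)
  have a2 := ge_neg_two hH hQ hf hx hx20 (hPH p1 hp1)
  have a3 : ¬ (crs e (p2 - x) = 2 ∧ crs e (p1 - x) = -2) := fun h =>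
    not_both hH hQ hf hx hx20 (hPH p2 hp2) (hPH p1 hp1) h.1 h.2
  rw [cr_sub] at a1 a2
  rw [cr_sub, cr_sub] at a3
  have hw3 : crs e p2 - crs e p1 ≤ 3 := by
    by_contra h
    exact a3 ⟨by omega, by omega⟩
  refine ⟨e, he, crs e p1, crs e p2 - crs e p1, by linarith [hmin p2 hp2], hw3, fun p hp =>
    ⟨hmin p hp, by linarith [hmax p hp]⟩, ⟨p1, hp1, rfl⟩, ⟨p2, hp2, by ring⟩,
    ⟨x, fun i hi => mem_seg hH hx hx20 (by positivity) (by exact_mod_cast hi)⟩, fun hw => ⟨?_, ?_⟩⟩
  · by_contra h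
    push Not at h
    obtain ⟨y, hy, hyH, hy8⟩ := nine hH hf h
    exact noQ_down hH hQ hf (hPH p2 hp2) hyH hy8 (by rw [cr_sub, hy]; linarith)
  · by_contra h
    push Not at h
    obtain ⟨y, hy, hyH, hy8⟩ := nine hH hf h
    exact noQ_up hH hQ hf (hPH p1 hp1) hyH hy8 (by rw [cr_sub, hy]; ring)

end Pool.Agent.IT
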