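import Pool.Agent.IT.Base2
import Pool.Agent.IT.SweepT

/-! IT/Wall: the degree of the end of an edge of jump at least two. -/

set_option autoImplicit false

namespace Pool.Agent.IT

variable {n : ℕ} {T : Finset (Finset Pt)}

theorem nbr_mem_nbrs {q c : Pt} (h : IsEdge T q c) : c ∈ nbrs T q := by
  rw [mem_nbrs]
  obtain ⟨r, h | h⟩ := h
  · exact ⟨_, h.1, by simp, by simp, h.ne.symm⟩
  · exact ⟨_, h.1, by simp, by simp, h.ne⟩

/-- at the end of an edge `p → q` with jump at least two the vertex `q` is interior and its degree is
controlled by the antipodes of the rays at `q` in the two triangles at the edge -/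
theorem wall_deg (hT : UT n T) {p q z r : Pt} {k : ℤ} (h1 : Pos T p q z) (h2 : Pos T q p r)
    (e1 : z.1 + r.1 = p.1 + q.1 + k * (q.1 - p.1)) (e2 : z.2 + r.2 = p.2 + q.2 + k * (q.2 - p.2))
    (hk : 2 ≤ k) :
    InSqo n q ∧ (nbr T q).card ≤ 1 + (anti T {p, q, z} q).card + (anti T {q, p, r} q).card := by
  classical
  have d1 := h1.2
  have d2 := h2.2
  constructor
  · -- interior
    obtain ⟨p1, p2, p3, p4⟩ := h1.insq hT
    obtain ⟨z1, z2, z3, z4⟩ := h1.cyc'.insq hT
    obtain ⟨r1, r2, r3, r4⟩ := h2.cyc'.insq hT
    obtain ⟨q1, q2, q3, q4⟩ := h1.cyc.insq hT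
    simp only [det] at d1
    refine ⟨?_, ?_, ?_, ?_⟩
    · refine lt_of_le_of_ne q1 (fun h => ?_)
      have hp : p.1 = 0 := by nlinarith
      have hz : z.1 = 0 := by nlinarith
      rw [hp, hz, ← h] at d1
      simp at d1
    · refine lt_of_le_of_ne q2 (fun h => ?_)
      have hp : p.1 = n := by nlinarith
      have hz : z.1 = n := by nlinarith
      rw [hp, hz, h] at d1
      simp at d1
    · refine lt_of_le_of_ne q3 (fun h => ?_)
      have hp : p.2 = 0 := by nlinarith
      have hz : z.2 = 0 := by nlinarith
      rw [hp, hz, ← h] at d1
      simp at d1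
    · refine lt_of_le_of_ne q4 (fun h => ?_)
      have hp : p.2 = n := by nlinarith
      have hz : z.2 = n := by nlinarith
      rw [hp, hz, h] at d1
      simp at d1
  · have hsub : nbr T q ⊆ {p} ∪ (anti T {p, q, z} q ∪ anti T {q, p, r} q) := by
      intro c hc
      rw [mem_nbr] at hc
      rw [Finset.mem_union, Finset.mem_union, Finset.mem_singleton]
      by_cases hcp : c = p
      · exact Or.inl hcp
      right
      have hcn := nbr_mem_nbrs hc
      have dz : det q z p = 1 := by rw [← d1]; simp only [det]; ring
      have hcoordz1 : z.1 + r.1 - 2 * q.1 = (k - 1) * (q.1 - p.1) := by linarith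
      have hcoordz2 : z.2 + r.2 - 2 * q.2 = (k - 1) * (q.2 - p.2) := by linarith
      rcases lt_trichotomy (det p q c) 0 with hs | hs | hs
      · -- c on the side of r : antipode in the cone of {p, q, z}
        left
        have hr : 0 ≤ crs (r.1 - q.1, r.2 - q.2) (c.1 - q.1, c.2 - q.2) := by
          by_contra hcon
          push Not at hcon
          refine h2.no_cone hT hc ?_ ?_
          · simp only [det] at hs ⊢; linarith
          · simp only [crs] at hcon; simp only [det]; linarith
        rw [anti, Finset.mem_filter]
        refine ⟨hcn, z, p, ?_, dz, ?_, ?_⟩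
        · ext s; simp only [Finset.mem_insert, Finset.mem_singleton]; tauto
        · have : crs (z.1 - q.1, z.2 - q.2) (q.1 - c.1, q.2 - c.2) =
              (k - 1) * (-det p q c) + crs (r.1 - q.1, r.2 - q.2) (c.1 - q.1, c.2 - q.2) := by
            simp only [crs, det]
            linear_combination (q.2 - c.2) * hcoordz1 - (q.1 - c.1) * hcoordz2
          rw [this]
          have : 0 ≤ (k - 1) * (-det p q c) := mul_nonneg (by linarith) (by linarith)
          linarith
        · have : crs (q.1 - c.1, q.2 - c.2) (p.1 - q.1, p.2 - q.2) = - det p q c := by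
            simp only [crs, det]; ring
          rw [this]; linarith
      · -- c on the line
        have hc1 : 0 ≤ crs (c.1 - q.1, c.2 - q.2) (z.1 - q.1, z.2 - q.2) := by
          by_contra hcon
          push Not at hcon
          apply hcp
          apply IsEdge.eq_of_dir hc h1.edge.symm (c := z)
          · simp only [det] at hs ⊢; linarith
          · left; simp only [crs] at hcon; simp only [det]; linarith
          · constructor
            · intro _; rw [dz]; norm_num
            · intro _; simp only [crs] at hcon; simp only [det]; linarith
          · constructor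
            · intro h; exfalso; simp only [crs] at hcon; simp only [det] at h; linarith
            · intro h; exfalso; simp only [det] at h dz; linarith
        right
        rw [anti, Finset.mem_filter]
        refine ⟨hcn, p, r, rfl, d2, ?_, ?_⟩
        · have : crs (p.1 - q.1, p.2 - q.2) (q.1 - c.1, q.2 - c.2) = det p q c := by
            simp only [crs, det]; ring
          rw [this, hs]
        · have : crs (q.1 - c.1, q.2 - c.2) (r.1 - q.1, r.2 - q.2) =
              (k - 1) * (det p q c) + crs (c.1 - q.1, c.2 - q.2) (z.1 - q.1, z.2 - q.2) := by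
            simp only [crs, det]
            linear_combination (-(q.2 - c.2)) * hcoordz1 + (q.1 - c.1) * hcoordz2
          rw [this, hs]; linarith
      · -- c on the side of z : antipode in the cone of {q, p, r}
        right
        have hz : 0 ≤ crs (c.1 - q.1, c.2 - q.2) (z.1 - q.1, z.2 - q.2) := by
          by_contra hcon
          push Not at hcon
          refine h1.cyc.no_cone hT hc ?_ ?_
          · simp only [crs] at hcon; simp only [det]; linarith
          · simp only [det] at hs ⊢; linarith
        rw [anti, Finset.mem_filter]
        refine ⟨hcn, p, r, rfl, d2, ?_, ?_⟩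
        · have : crs (p.1 - q.1, p.2 - q.2) (q.1 - c.1, q.2 - c.2) = det p q c := by
            simp only [crs, det]; ring
          rw [this]; linarith
        · have : crs (q.1 - c.1, q.2 - c.2) (r.1 - q.1, r.2 - q.2) =
              (k - 1) * (det p q c) + crs (c.1 - q.1, c.2 - q.2) (z.1 - q.1, z.2 - q.2) := by
            simp only [crs, det]
            linear_combination (-(q.2 - c.2)) * hcoordz1 + (q.1 - c.1) * hcoordz2
          rw [this]
          have : 0 ≤ (k - 1) * (det p q c) := mul_nonneg (by linarith) (by linarith)
          linarith
    refine (Finset.card_le_card hsub).trans ?_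
    refine (Finset.card_union_le _ _).trans ?_
    rw [Finset.card_singleton, add_assoc]
    exact Nat.add_le_add_left (Finset.card_union_le _ _) 1

end Pool.Agent.IT
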