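import Pool.Agent.IT.WallFan
import Pool.Agent.IT.WallDeg

/-!
# Long straight runs at an edge of large jump
-/

set_option autoImplicit false

namespace Pool.Agent.IT

variable {n : ℕ} {T : Finset (Finset Pt)}

namespace WallAux

/-- the triangles of `T` containing an edge -/
theorem tri_cases (hT : UT n T) {t : Finset Pt} (ht : t ∈ T) {p q r z : Pt} (h1 : Pos T p q r)
    (h2 : Pos T q p z) (hp : p ∈ t) (hq : q ∈ t) : t = {p, q, r} ∨ t = {q, p, z} := by
  obtain ⟨a, b, c, rfl, g⟩ := hT.exists_pos ht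

  have hpq : p ≠ q := h1.ne
  have key : ∃ w, ({a, b, c} : Finset Pt) = {p, q, w} ∧ Pos T p q w ∨
      ({a, b, c} : Finset Pt) = {q, p, w} ∧ Pos T q p w := by
    simp only [Finset.mem_insert, Finset.mem_singleton] at hp hq
    rcases hp with rfl | rfl | rfl <;> rcases hq with rfl | rfl | rfl
    · exact absurd rfl hpq
    · exact ⟨_, Or.inl ⟨rfl, g⟩⟩
    · refine ⟨b, Or.inr ⟨?_, g.cyc'⟩⟩
      ext x; simp only [Finset.mem_insert, Finset.mem_singleton]; tauto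
    · exact ⟨_, Or.inr ⟨rfl, g⟩⟩
    · exact absurd rfl hpq
    · refine ⟨a, Or.inl ⟨?_, g.cyc⟩⟩
      ext x; simp only [Finset.mem_insert, Finset.mem_singleton]; tauto
    · refine ⟨b, Or.inl ⟨?_, g.cyc'⟩⟩
      ext x; simp only [Finset.mem_insert, Finset.mem_singleton]; tauto
    · refine ⟨a, Or.inr ⟨?_, g.cyc⟩⟩
      ext x; simp only [Finset.mem_insert, Finset.mem_singleton]; tauto
    · exact absurd rfl hpq
  obtain ⟨w, ⟨e, h⟩ | ⟨e, h⟩⟩ := key
  · left; rw [e, h.unique hT h1]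
  · right; rw [e, h.unique hT h2]

theorem mem_jv {J : ℕ} {t0 : Finset Pt} {k : ℕ} {p : Pt} :
    p ∈ jverts T J t0 k ↔ ∃ t ∈ jball T J t0 k, p ∈ t := by
  simp [jverts]

theorem wall_step (hT : UT n T) {K : ℕ → ℕ} {d J : ℕ} {t t' : Finset Pt} {p q : Pt} {k : ℤ}
    (ht : t ∈ T) (hM : MarksLE n T t K) (hJ : 2 ^ (3 + 2 * K (d + 1)) ≤ J) (ht' : t' ∈ dball T t d)
    (hp : p ∈ t') (hq : q ∈ t') (hj : Jump T p q k) (hk : 3 ≤ k) :
    ∃ t'' ∈ jball T J t' (3 + 2 * K (d + 1)), ∃ l : ℤ, k - 2 ≤ l ∧ q ∈ t'' ∧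
      wopp q p ∈ t'' ∧ Jump T q (wopp q p) l := by
  classical
  obtain ⟨l, hl, hkl⟩ := hj.forward hT hk
  obtain ⟨r, z, h1, h2, h3, h4⟩ := hj
  have hl' := hl
  obtain ⟨r', z', g1, g2, -, -⟩ := hl
  change Pos T q (wopp q p) r' at g1
  change Pos T (wopp q p) q z' at g2
  obtain ⟨hin, hdeg⟩ := wall_deg hT h1 h2 (k := k) h3 h4 (by omega)
  have hnb : Nb T {p, q, r} {q, p, z} := ⟨p, q, r, z, h1, h2, rfl, rfl⟩
  have ht'T := dball_subset ht d ht'
  have hcase := tri_cases hT ht'T h1 h2 hp hq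
  have hb1 : ({p, q, r} : Finset Pt) ∈ dball T t (d + 1) := by
    rcases hcase with e | e
    · rw [← e]; exact dball_mono (Nat.le_succ d) ht'
    · exact mem_dball_succ.mpr (Or.inr ⟨_, e ▸ ht', hnb.symm⟩)
  have hb2 : ({q, p, z} : Finset Pt) ∈ dball T t (d + 1) := by
    rcases hcase with e | e
    · exact mem_dball_succ.mpr (Or.inr ⟨_, e ▸ ht', hnb⟩)
    · rw [← e]; exact dball_mono (Nat.le_succ d) ht'
  have hm1 := hM (d + 1) _ hb1 q (by simp) hin
  have hm2 := hM (d + 1) _ hb2 q (by simp) hin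
  have hcard : (nbr T q).card ≤ 1 + 2 * K (d + 1) := by omega
  have hpow : ∀ m : ℕ, m ≤ 2 + 2 * K (d + 1) → (2 : ℤ) ^ (m + 1) ≤ (J : ℤ) := by
    intro m hm
    have h5 : (2 : ℕ) ^ (m + 1) ≤ 2 ^ (3 + 2 * K (d + 1)) :=
      Nat.pow_le_pow_right (by norm_num) (by omega)
    exact_mod_cast h5.trans hJ
  have hJ1 : 1 ≤ J := le_trans Nat.one_le_two_pow hJ
  rcases hcase with e | e
  · -- left side, run the fan backwards
    have hy : Pos T q r (wopp q (wopp q p)) := by rw [wopp_wopp]; exact h1.cyc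
    obtain ⟨L, L1, L2, L3⟩ := side_fan hT g1 hy
    have hreach := fan_reach hJ1 (L ++ [wopp q (wopp q p)]) (wopp q p) r' L1 (by
      intro P R x g y hP
      obtain ⟨c1, c2⟩ := side_coeff L1 L3 hP
      exact ⟨c1, c2.trans (hpow _ (by omega))⟩)
    rw [wopp_wopp] at hreach L1
    obtain ⟨x, hx, hx'⟩ := lastTri_concat p L (wopp q p) r' L1
    have hxr : x = r := by
      have a1 : Pos T p q x := hx'.cyc'
      exact a1.unique hT h1
    rw [hx, hxr] at hreach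
    have e' : ({q, r, p} : Finset Pt) = t' := by
      rw [e]; ext x; simp only [Finset.mem_insert, Finset.mem_singleton]; tauto
    rw [e'] at hreach
    refine ⟨_, jball_mono ?_ hreach.2, l, hkl, by simp, by simp, hl'⟩
    rw [List.length_append, List.length_singleton]
    omega
  · -- right side
    have hy : Pos T q z' (wopp q p) := g2.cyc
    obtain ⟨L, L1, L2, L3⟩ := side_fan hT h2 hy
    have hreach := fan_reach hJ1 (L ++ [wopp q p]) p z L1 (by
      intro P R x g y hP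
      obtain ⟨c1, c2⟩ := side_coeff L1 L3 hP
      exact ⟨c1, c2.trans (hpow _ (by omega))⟩)
    obtain ⟨x, hx, hx'⟩ := lastTri_concat (wopp q p) L p z L1
    rw [hx, ← e] at hreach
    refine ⟨_, jball_mono ?_ hreach.1, l, hkl, by simp, by simp, hl'⟩
    rw [List.length_append, List.length_singleton]
    omega

theorem wall_aux (K : ℕ → ℕ) (s : ℕ) : ∀ d : ℕ, ∃ J0 D : ℕ, ∀ J, J0 ≤ J → ∀ (n : ℕ)
    (T : Finset (Finset Pt)) (t t' : Finset Pt) (p q : Pt) (k : ℤ), UT n T → t ∈ T →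
    MarksLE n T t K → t' ∈ dball T t d → p ∈ t' → q ∈ t' → Jump T p q k → 2 * (s : ℤ) + 1 ≤ k →
    ∀ i : ℕ, i ≤ s → p + (i : ℤ) • (q - p) ∈ jverts T J t' D := by
  induction s with
  | zero =>
    intro d
    refine ⟨0, 0, fun J _ n T t t' p q k hT ht hM ht' hp hq hj hk i hi => ?_⟩
    obtain rfl : i = 0 := by omega
    simpa using mem_jv.2 ⟨t', mem_jball_self t' 0, hp⟩
  | succ s ih =>
    intro d
    obtain ⟨J0, D, h⟩ := ih (d + (3 + 2 * K (d + 1)))
    refine ⟨max J0 (2 ^ (3 + 2 * K (d + 1))), (3 + 2 * K (d + 1)) + D,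
      fun J hJ n T t t' p q k hT ht hM ht' hp hq hj hk i hi => ?_⟩
    have hJ1 : J0 ≤ J := le_trans (le_max_left _ _) hJ
    have hJ2 : 2 ^ (3 + 2 * K (d + 1)) ≤ J := le_trans (le_max_right _ _) hJ
    rcases Nat.eq_zero_or_pos i with rfl | hi0
    · simpa using mem_jv.2 ⟨t', mem_jball_self t' _, hp⟩
    obtain ⟨i, rfl⟩ : ∃ i', i = i' + 1 := ⟨i - 1, by omega⟩
    push_cast at hk
    obtain ⟨t'', h1, l, h2, h3, h4, h5⟩ := wall_step hT ht hM hJ2 ht' hp hq hj (by linarith)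
    have h6 : t'' ∈ dball T t (d + (3 + 2 * K (d + 1))) :=
      dball_add ht' (jball_subset_dball _ _ h1)
    have h7 := h J hJ1 n T t t'' q (wopp q p) l hT ht hM h6 h3 h4 h5 (by linarith) i (by omega)
    obtain ⟨t3, h8, h9⟩ := mem_jv.1 h7
    refine mem_jv.2 ⟨t3, jball_add h1 h8, ?_⟩
    have : p + ((i + 1 : ℕ) : ℤ) • (q - p) = q + (i : ℤ) • (wopp q p - q) := by
      ext
      · simp only [wopp, Prod.fst_add, Prod.smul_fst, Prod.fst_sub, smul_eq_mul]; push_cast; ring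
      · simp only [wopp, Prod.snd_add, Prod.smul_snd, Prod.snd_sub, smul_eq_mul]; push_cast; ring
    rw [this]
    exact h9

end WallAux

/-- **Wall lemma.** -/
theorem wall (K : ℕ → ℕ) (d s : ℕ) : ∃ J0 D : ℕ, ∀ J, J0 ≤ J → ∀ (n : ℕ) (T : Finset (Finset Pt))
    (t t' : Finset Pt) (p q : Pt) (k : ℤ), UT n T → t ∈ T → MarksLE n T t K → t' ∈ dball T t d →
    p ∈ t' → q ∈ t' → Jump T p q k → (J : ℤ) < k →
    ∀ i : ℕ, i ≤ s → p + (i : ℤ) • (q - p) ∈ jverts T J t' D := by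
  obtain ⟨J0, D, h⟩ := WallAux.wall_aux K s d
  refine ⟨max J0 (2 * s), D, fun J hJ n T t t' p q k hT ht hM ht' hp hq hj hk => ?_⟩
  have h1 : J0 ≤ J := le_trans (le_max_left _ _) hJ
  have h2 : 2 * s ≤ J := le_trans (le_max_right _ _) hJ
  have h3 : 2 * (s : ℤ) ≤ (J : ℤ) := by exact_mod_cast h2
  exact h J h1 n T t t' p q k hT ht hM ht' hp hq hj (by omega)

end Pool.Agent.IT
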