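import Pool.Agent.IT.StrComp
import Pool.Agent.IT.StrNotBG
import Pool.Agent.IT.Wall
import Pool.Agent.IT.Strip
import Pool.Agent.IT.Hull
import Pool.Agent.IT.GoodCount
import Pool.Agent.IT.StrNoCopy
import Pool.Agent.IT.StrSlab
import Pool.Agent.IT.Card

/-! The structure theorem (helper66). -/

set_option autoImplicit false

namespace Pool.Agent.IT.StrA

open Finset

/-! ### small facts about jump balls -/

theorem jball_zero (T : Finset (Finset Pt)) (J : ℕ) (t0 : Finset Pt) : jball T J t0 0 = {t0} := rfl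

theorem mem_jball_succ {T : Finset (Finset Pt)} {J : ℕ} {t0 t : Finset Pt} {ρ : ℕ} :
    t ∈ jball T J t0 (ρ + 1) ↔ t ∈ jball T J t0 ρ ∨ t ∈ T ∧ ∃ s ∈ jball T J t0 ρ, JNb T J s t := by
  classical
  rw [jball, Finset.mem_union, Finset.mem_filter]

theorem jball_mono {T : Finset (Finset Pt)} {J : ℕ} {t0 : Finset Pt} {ρ σ : ℕ} (h : ρ ≤ σ) :
    jball T J t0 ρ ⊆ jball T J t0 σ := by
  induction h with
  | refl => exact subset_rfl
  | step _ ih => exact fun t ht => mem_jball_succ.mpr (Or.inl (ih ht))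

theorem jball_sub {T : Finset (Finset Pt)} {J : ℕ} {t0 : Finset Pt} (h0 : t0 ∈ T) (ρ : ℕ) :
    jball T J t0 ρ ⊆ T := by
  induction ρ with
  | zero => rw [jball_zero]; simpa using h0
  | succ ρ ih =>
    intro t ht
    rcases mem_jball_succ.mp ht with h | ⟨h, _⟩
    · exact ih h
    · exact h

theorem mem_jball_self (T : Finset (Finset Pt)) (J : ℕ) (t0 : Finset Pt) (ρ : ℕ) : t0 ∈ jball T J t0 ρ :=
  jball_mono (Nat.zero_le ρ) (by simp [jball_zero])

theorem mem_jverts {T : Finset (Finset Pt)} {J : ℕ} {t0 : Finset Pt} {k : ℕ} {p : Pt} :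
    p ∈ jverts T J t0 k ↔ ∃ s ∈ jball T J t0 k, p ∈ s := by
  simp [jverts, Finset.mem_biUnion]

theorem jverts_mono {T : Finset (Finset Pt)} {J : ℕ} {t0 : Finset Pt} {ρ σ : ℕ} (h : ρ ≤ σ) :
    jverts T J t0 ρ ⊆ jverts T J t0 σ := by
  intro p hp
  rw [mem_jverts] at hp ⊢
  obtain ⟨s, hs, hps⟩ := hp
  exact ⟨s, jball_mono h hs, hps⟩

theorem mem_jverts_self {T : Finset (Finset Pt)} {J : ℕ} {t0 : Finset Pt} {k : ℕ} {p : Pt} (hp : p ∈ t0) :
    p ∈ jverts T J t0 k := mem_jverts.mpr ⟨t0, mem_jball_self T J t0 k, hp⟩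

theorem hullR_mono {P P' : Set Pt} (h : P ⊆ P') : hullR P ⊆ hullR P' :=
  convexHull_mono (Set.image_mono h)

theorem emb_mem_hullR {P : Set Pt} {p : Pt} (hp : p ∈ P) : emb p ∈ hullR P :=
  subset_convexHull ℝ _ ⟨p, hp, rfl⟩

theorem jnb_right_mem {T : Finset (Finset Pt)} {J : ℕ} {t s : Finset Pt} (h : JNb T J t s) : s ∈ T := by
  obtain ⟨p, q, r, z, k, h1, h2, h3, h4, h5, h6⟩ := h
  rw [h4]; exact h2.1

theorem jnb_mem_jball_one {T : Finset (Finset Pt)} {J : ℕ} {t s : Finset Pt} (h : JNb T J t s) :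
    s ∈ jball T J t 1 :=
  mem_jball_succ.mpr (Or.inr ⟨jnb_right_mem h, t, by simp [jball_zero], h⟩)

theorem jverts_of_nb {T : Finset (Finset Pt)} {J : ℕ} {t s : Finset Pt} {m k : ℕ} (h : s ∈ jball T J t m) :
    jverts T J s k ⊆ jverts T J t (m + k) := by
  intro p hp
  rw [mem_jverts] at hp ⊢
  obtain ⟨u, hu, hpu⟩ := hp
  exact ⟨u, jball_add h hu, hpu⟩

/-! ### many triangles have many vertices -/

theorem card_le_cube {n : ℕ} {T : Finset (Finset Pt)} (hT : UT n T) {C : Finset (Finset Pt)} (hC : C ⊆ T) :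
    C.card ≤ (C.biUnion id).card ^ 3 := by
  have h : C ⊆ (C.biUnion id).powersetCard 3 := by
    intro t ht
    rw [Finset.mem_powersetCard]
    refine ⟨fun p hp => Finset.mem_biUnion.mpr ⟨t, ht, hp⟩, hT.card_three (hC ht)⟩
  calc C.card ≤ ((C.biUnion id).powersetCard 3).card := Finset.card_le_card h
    _ = (C.biUnion id).card.choose 3 := Finset.card_powersetCard _ _
    _ ≤ (C.biUnion id).card ^ 3 := Nat.choose_le_pow _ _

/-! ### environment -/

/-- everything the assembly needs about base-good triangles -/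
structure Env (n : ℕ) (T : Finset (Finset Pt)) (G : Finset Pt → Prop) (J R k0 Dm : ℕ) : Prop where
  hT : UT n T
  mem : ∀ t, G t → t ∈ T
  nb : ∀ t, G t → NB T t
  hR : R ≤ Dm
  size : ∀ t, G t → ∀ k ≤ R, k + 1 ≤ (jball T J t k).card
  slab : ∀ t, G t → ∀ k, k0 ≤ k → k ≤ Dm → ∃ σ, ExSlab (jverts T J t k) σ
  par : ∀ t, G t → ∀ p ∈ t, ∀ q ∈ t, ∀ k, Jump T p q k → (J : ℤ) < |k| →
    ∀ σ, ExSlab (jverts T J t Dm) σ → crs σ.1 (q - p) = 0

theorem env_of {L : ℕ} (hL : ∀ P : Set Pt, P.Finite →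
    (∃ Q0 : Finset Pt, L < Q0.card ∧ ∀ p ∈ Q0, emb p ∈ hullR P) →
    (∀ g : Pt × Pt × Pt, crs g.2.1 g.2.2 = 1 →
      ¬ (hullR {fr g (0, 0), fr g (3, 3), fr g (-3, 3)} ⊆ hullR P)) →
    ∃ e : Pt, Dir e ∧ ∃ c w : ℤ, 0 ≤ w ∧ w ≤ 3 ∧ (∀ p ∈ P, c ≤ crs e p ∧ crs e p ≤ c + w) ∧
      (∃ p ∈ P, crs e p = c) ∧ (∃ p ∈ P, crs e p = c + w) ∧
      (∃ x : Pt, ∀ i : ℕ, i ≤ 20 → emb (x + (i : ℤ) • e) ∈ hullR P) ∧
      (w = 3 → ({p : Pt | emb p ∈ hullR P ∧ crs e p = c}).ncard ≤ 10 ∧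
        ({p : Pt | emb p ∈ hullR P ∧ crs e p = c + 3}).ncard ≤ 10))
    {K : ℕ → ℕ} {J D R k0 M : ℕ} {Mf : ℕ → ℕ}
    (hMf : ∀ k (n : ℕ) (T : Finset (Finset Pt)) (t : Finset Pt), UT n T → t ∈ T → MarksLE n T t K → ∀ s ∈ T,
      (interior (cell s) ∩ interior (hullR (jverts T J t k))).Nonempty → s ∈ dball T t (Mf k))
    (hwall : ∀ (n : ℕ) (T : Finset (Finset Pt)) (t t' : Finset Pt) (p q : Pt) (k : ℤ), UT n T → t ∈ T →
      MarksLE n T t K → t' ∈ dball T t R → p ∈ t' → q ∈ t' → Jump T p q k → (J : ℤ) < k →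
      ∀ i : ℕ, i ≤ 3 * R + 30 → p + (i : ℤ) • (q - p) ∈ jverts T J t' D)
    (hk0 : L ^ 3 ≤ k0) (hk0R : k0 ≤ R)
    (hM : ∀ k ≤ max R D, Mf k ≤ M)
    {n : ℕ} {T : Finset (Finset Pt)} (hT : UT n T) (hn : 4 ^ R < 2 * n ^ 2) :
    Env n T (BG n T K M R) J R k0 (max R D) := by
  have hself : ∀ t, BG n T K M R t → MarksLE n T t K ∧ ¬ Fat n T M t ∧ NB T t :=
    fun t ht => ht.2 t (mem_dball_self t R)
  have hsize : ∀ t, BG n T K M R t → ∀ k ≤ R, k + 1 ≤ (jball T J t k).card :=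
    fun t ht k hk => comp_size hwall hT hn (ut_card hT) ht hk
  have hslab : ∀ t, BG n T K M R t → ∀ k, k0 ≤ k → k ≤ max R D → ∃ σ, ExSlab (jverts T J t k) σ := by
    intro t ht k hk hkD
    have hcard : L < (jverts T J t k).card := by
      have h1 : k0 + 1 ≤ (jball T J t k0).card := hsize t ht k0 hk0R
      have h2 := card_le_cube hT (jball_sub (J := J) ht.1 k0)
      have h3 : ((jball T J t k0).biUnion id).card ≤ (jverts T J t k).card :=
        Finset.card_le_card (jverts_mono hk)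
      by_contra hcon
      push Not at hcon
      have h4 : ((jball T J t k0).biUnion id).card ^ 3 ≤ L ^ 3 := Nat.pow_le_pow_left (h3.trans hcon) 3
      omega
    obtain ⟨e, he, c, w, hw0, hw3, hsub, hlo, hhi, hlong, hside⟩ :=
      hL (jverts T J t k) (Finset.finite_toSet _) ⟨jverts T J t k, hcard, fun p hp => emb_mem_hullR hp⟩
        (fun g hg => no_copy (hMf k) hT ht.1 (hself t ht).1 (hM k hkD) (hself t ht).2.1 g hg)
    exact ⟨(e, c, w), ⟨he, hw0, hw3, hsub, hlo, hhi, hlong, hside⟩⟩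
  refine ⟨hT, fun t ht => ht.1, fun t ht => (hself t ht).2.2, le_max_left _ _, hsize, hslab, ?_⟩
  intro t ht p hp q hq k hk hkJ σ hσ
  have hmain : ∀ p ∈ t, ∀ q ∈ t, ∀ k, Jump T p q k → (J : ℤ) < k → crs σ.1 (q - p) = 0 := by
    intro p hp q hq k hk hkJ
    refine exslab_par hσ (x := p) (v := q - p) fun i hi => ?_
    have := hwall n T t t p q k hT ht.1 (hself t ht).1 (mem_dball_self t R) hp hq hk hkJ i (by omega)
    exact jverts_mono (le_max_right R D) this
  rcases abs_choice k with h | h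
  · rw [h] at hkJ; exact hmain p hp q hq k hk hkJ
  · rw [h] at hkJ
    have := hmain q hq p hp (-k) hk.neg hkJ
    have h2 : crs σ.1 (q - p) = - crs σ.1 (p - q) := by simp only [crs, Prod.fst_sub, Prod.snd_sub]; ring
    rw [h2, this]; rfl

/-! ### slabs at a scale -/

open Classical in
/-- the slab of `t` at scale `k` -/
noncomputable def slabAt (T : Finset (Finset Pt)) (J : ℕ) (t : Finset Pt) (k : ℕ) : Slab :=
  if h : ∃ σ, ExSlab (jverts T J t k) σ then Classical.choose h else ((1, 0), 0, 1)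

theorem slabAt_spec {T : Finset (Finset Pt)} {J : ℕ} {t : Finset Pt} {k : ℕ}
    (h : ∃ σ, ExSlab (jverts T J t k) σ) : ExSlab (jverts T J t k) (slabAt T J t k) := by
  unfold slabAt
  rw [dif_pos h]
  exact Classical.choose_spec h

section env

variable {n : ℕ} {T : Finset (Finset Pt)} {G : Finset Pt → Prop} {J R k0 Dm : ℕ}

theorem Env.ex (E : Env n T G J R k0 Dm) {t : Finset Pt} (ht : G t) {k : ℕ} (h0 : k0 ≤ k) (h1 : k ≤ Dm) :
    ExSlab (jverts T J t k) (slabAt T J t k) := slabAt_spec (E.slab t ht k h0 h1)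

theorem Env.mono (E : Env n T G J R k0 Dm) {t s : Finset Pt} (ht : G t) (hs : G s) {k l : ℕ} (h0 : k0 ≤ k)
    (h1 : k ≤ Dm) (h2 : k0 ≤ l) (h3 : l ≤ Dm) (hsub : jverts T J s k ⊆ jverts T J t l) :
    (slabAt T J s k).1 = (slabAt T J t l).1 ∧ (slabAt T J t l).2.1 ≤ (slabAt T J s k).2.1 ∧
      (slabAt T J s k).2.1 + (slabAt T J s k).2.2 ≤ (slabAt T J t l).2.1 + (slabAt T J t l).2.2 :=
  exslab_dir (P := (jverts T J s k : Set Pt)) (P' := (jverts T J t l : Set Pt))
    (by exact_mod_cast hsub) (E.ex hs h0 h1) (E.ex ht h2 h3)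

theorem slab_ext {σ τ : Slab} (h1 : σ.1 = τ.1) (h2 : σ.2.1 = τ.2.1) (h3 : σ.2.2 = τ.2.2) : σ = τ :=
  Prod.ext h1 (Prod.ext h2 h3)

/-- if the slab changes, the width increases -/
theorem Env.change (E : Env n T G J R k0 Dm) {t : Finset Pt} (ht : G t) {k l : ℕ} (h0 : k0 ≤ k)
    (hkl : k ≤ l) (h3 : l ≤ Dm) :
    (slabAt T J t k).2.2 ≤ (slabAt T J t l).2.2 ∧
      (slabAt T J t k ≠ slabAt T J t l → (slabAt T J t k).2.2 + 1 ≤ (slabAt T J t l).2.2) := by
  obtain ⟨m1, m2, m3⟩ := E.mono ht ht h0 (hkl.trans h3) (h0.trans hkl) h3 (jverts_mono hkl)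
  refine ⟨by linarith, fun hne => ?_⟩
  by_contra hcon
  apply hne
  apply slab_ext m1
  · omega
  · omega

theorem Env.w_pos (E : Env n T G J R k0 Dm) {t : Finset Pt} (ht : G t) {k : ℕ} (h0 : k0 ≤ k)
    (h1 : k ≤ Dm) : 1 ≤ (slabAt T J t k).2.2 := by
  have h := E.ex ht h0 h1
  by_contra hcon
  have hw : (slabAt T J t k).2.2 = 0 := le_antisymm (by omega) h.w0
  obtain ⟨a, b, c, rfl, hpos⟩ := E.hT.exists_pos (E.mem t ht)
  have hv : ∀ p ∈ ({a, b, c} : Finset Pt), crs (slabAt T J {a, b, c} k).1 p = (slabAt T J {a, b, c} k).2.1 := by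
    intro p hp
    have := h.sub p (mem_jverts_self hp)
    rw [hw] at this
    omega
  have ha := hv a (by simp)
  have hb := hv b (by simp)
  have hc := hv c (by simp)
  obtain ⟨u, v, huv⟩ := h.dir.1
  have hd := hpos.2
  set e := (slabAt T J {a, b, c} k).1 with he
  simp only [crs, det] at *
  -- e × (b - a) = 0, e × (c - a) = 0, so (b - a) × (c - a) = 0
  have e1 : e.1 * (b.2 - a.2) - e.2 * (b.1 - a.1) = 0 := by linarith
  have e2 : e.1 * (c.2 - a.2) - e.2 * (c.1 - a.1) = 0 := by linarith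
  have key : (u * e.1 + v * e.2) * ((b.1 - a.1) * (c.2 - a.2) - (b.2 - a.2) * (c.1 - a.1)) = 0 := by
    linear_combination (u * (b.1 - a.1) + v * (b.2 - a.2)) * e2 - (u * (c.1 - a.1) + v * (c.2 - a.2)) * e1
  rw [huv, hd] at key
  norm_num at key

open Classical in
/-- number of changes over the scales -/
theorem Env.changes (E : Env n T G J R k0 Dm) {ks : ℕ → ℕ} (hks : ∀ i, ks i ≤ ks (i + 1)) {q : ℕ}
    (h0 : k0 ≤ ks 0) (hq : ks q ≤ Dm) {t : Finset Pt} (ht : G t) :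
    ((Finset.range q).filter fun i => slabAt T J t (ks i) ≠ slabAt T J t (ks (i + 1))).card ≤ 3 := by
  have hmono : Monotone ks := monotone_nat_of_le_succ hks
  have hk0 : ∀ i, k0 ≤ ks i := fun i => h0.trans (hmono (Nat.zero_le i))
  have hle : ∀ i < q, ks (i + 1) ≤ Dm := fun i hi => (hmono hi).trans hq
  have h1 : (((Finset.range q).filter fun i => slabAt T J t (ks i) ≠ slabAt T J t (ks (i + 1))).card : ℤ)
      ≤ ∑ i ∈ Finset.range q, ((slabAt T J t (ks (i + 1))).2.2 - (slabAt T J t (ks i)).2.2) := by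
    rw [Finset.card_filter]
    push_cast
    apply Finset.sum_le_sum
    intro i hi
    rw [Finset.mem_range] at hi
    obtain ⟨c1, c2⟩ := E.change ht (hk0 i) (hks i) (hle i hi)
    split_ifs with h
    · have := c2 h; linarith
    · linarith
  rw [Finset.sum_range_sub (fun i => (slabAt T J t (ks i)).2.2)] at h1
  have h2 := (E.ex ht (hk0 q) hq).w3
  have h3 := (E.ex ht (hk0 0) ((hmono (Nat.zero_le q)).trans hq)).w0
  have : (((Finset.range q).filter fun i => slabAt T J t (ks i) ≠ slabAt T J t (ks (i + 1))).card : ℤ) ≤ 3 := by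
    linarith
  exact_mod_cast this

open Classical in
/-- pigeonhole over the scales -/
theorem Env.pigeon (E : Env n T G J R k0 Dm) {ks : ℕ → ℕ} (hks : ∀ i, ks i ≤ ks (i + 1)) {q : ℕ}
    (hq0 : 0 < q) (h0 : k0 ≤ ks 0) (hq : ks q ≤ Dm) :
    ∃ i < q, q * (T.filter fun t => G t ∧ slabAt T J t (ks i) ≠ slabAt T J t (ks (i + 1))).card
      ≤ 3 * T.card := by
  by_contra hcon
  push Not at hcon
  have h1 : ∑ i ∈ Finset.range q,
      (T.filter fun t => G t ∧ slabAt T J t (ks i) ≠ slabAt T J t (ks (i + 1))).card ≤ 3 * T.card := by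
    have hswap : ∑ i ∈ Finset.range q,
        (T.filter fun t => G t ∧ slabAt T J t (ks i) ≠ slabAt T J t (ks (i + 1))).card =
        ∑ t ∈ T, ((Finset.range q).filter fun i =>
          G t ∧ slabAt T J t (ks i) ≠ slabAt T J t (ks (i + 1))).card := by
      simp_rw [Finset.card_filter]
      exact Finset.sum_comm
    rw [hswap]
    calc ∑ t ∈ T, ((Finset.range q).filter fun i =>
          G t ∧ slabAt T J t (ks i) ≠ slabAt T J t (ks (i + 1))).card ≤ ∑ t ∈ T, 3 := by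
          apply Finset.sum_le_sum
          intro t _
          by_cases ht : G t
          · refine le_trans (Finset.card_le_card ?_) (E.changes hks h0 hq ht)
            intro i hi
            rw [Finset.mem_filter] at hi ⊢
            exact ⟨hi.1, hi.2.2⟩
          · have : ((Finset.range q).filter fun i =>
              G t ∧ slabAt T J t (ks i) ≠ slabAt T J t (ks (i + 1))) = ∅ := by
              apply Finset.filter_eq_empty_iff.mpr
              intro i _ h
              exact ht h.1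
            rw [this]; simp
      _ = 3 * T.card := by rw [Finset.sum_const, smul_eq_mul]; ring
  have h2 : q * (3 * T.card) < ∑ i ∈ Finset.range q,
      q * (T.filter fun t => G t ∧ slabAt T J t (ks i) ≠ slabAt T J t (ks (i + 1))).card := by
    have : q * (3 * T.card) = ∑ i ∈ Finset.range q, 3 * T.card := by
      rw [Finset.sum_const, Finset.card_range, smul_eq_mul]
    rw [this]
    apply Finset.sum_lt_sum_of_nonempty
    · exact ⟨0, Finset.mem_range.mpr hq0⟩
    · intro i hi; exact hcon i (Finset.mem_range.mp hi)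
  rw [← Finset.mul_sum] at h2
  have h3 := Nat.mul_le_mul_left q h1
  omega

/-- two triangles of `T` sharing two vertices -/
theorem shared_pos {n : ℕ} {T : Finset (Finset Pt)} (hT : UT n T) {t s : Finset Pt} (ht : t ∈ T) (hs : s ∈ T)
    (hne : s ≠ t) {p q : Pt} (hpq : p ≠ q) (hpt : p ∈ t) (hqt : q ∈ t) (hps : p ∈ s) (hqs : q ∈ s) :
    ∃ a b r z, ((a = p ∧ b = q) ∨ (a = q ∧ b = p)) ∧ Pos T a b r ∧ Pos T b a z ∧ t = {a, b, r} ∧
      s = {b, a, z} := by
  obtain ⟨r, hr, htr⟩ := hT.pos_of_mem ht hpt hqt hpq.symm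
  obtain ⟨z, hz, hsz⟩ := hT.pos_of_mem hs hps hqs hpq.symm
  have hsw : ∀ r : Pt, ({q, p, r} : Finset Pt) = {p, q, r} := by
    intro r; ext x; simp only [Finset.mem_insert, Finset.mem_singleton]; tauto
  rcases hr with hr | hr <;> rcases hz with hz | hz
  · exfalso; apply hne; rw [htr, hsz, hr.unique hT hz]
  · exact ⟨p, q, r, z, Or.inl ⟨rfl, rfl⟩, hr, hz, htr, by rw [hsz, hsw]⟩
  · exact ⟨q, p, r, z, Or.inr ⟨rfl, rfl⟩, hr, hz, by rw [htr, hsw], hsz⟩
  · exfalso; apply hne; rw [htr, hsz, hr.unique hT hz]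

/-- adjacent across an edge not parallel to the slab: a small jump -/
theorem Env.jnb (E : Env n T G J R k0 Dm) {t s : Finset Pt} (ht : G t) (hs : s ∈ T) (hne : s ≠ t)
    {p q : Pt} (hpt : p ∈ t) (hqt : q ∈ t) (hps : p ∈ s) (hqs : q ∈ s) {k : ℕ} (h0 : k0 ≤ k) (h1 : k ≤ Dm)
    (hpar : crs (slabAt T J t k).1 p ≠ crs (slabAt T J t k).1 q) : JNb T J t s := by
  have hpq : p ≠ q := by rintro rfl; exact hpar rfl
  obtain ⟨a, b, r, z, hab, h1', h2', h3', h4'⟩ := shared_pos E.hT (E.mem t ht) hs hne hpq hpt hqt hps hqs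
  obtain ⟨j, hj⟩ := Jump.of_pos h1' h2'
  refine ⟨a, b, r, z, j, h1', h2', h3', h4', hj, ?_⟩
  by_contra hcon
  push Not at hcon
  have ha : a ∈ t := by rw [h3']; simp
  have hb : b ∈ t := by rw [h3']; simp
  have hDm : k0 ≤ Dm := h0.trans h1
  have h5 := E.par t ht a ha b hb j hj hcon _ (E.ex ht hDm le_rfl)
  have h6 := (E.mono ht ht h0 h1 hDm le_rfl (jverts_mono h1)).1
  rw [← h6] at h5
  apply hpar
  have h7 : crs (slabAt T J t k).1 (b - a) =
      crs (slabAt T J t k).1 b - crs (slabAt T J t k).1 a := by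
    simp only [crs, Prod.fst_sub, Prod.snd_sub]; ring
  rw [h7] at h5
  rcases hab with ⟨rfl, rfl⟩ | ⟨rfl, rfl⟩
  · linarith
  · linarith

/-- (adj) -/
theorem Env.adj (E : Env n T G J R k0 Dm) {t s : Finset Pt} (ht : G t) (hs : G s)
    {k l : ℕ} (h0 : k0 ≤ k) (hkl : k + 1 ≤ l) (hl : l ≤ Dm)
    (hst : slabAt T J t k = slabAt T J t l) (hss : slabAt T J s k = slabAt T J s l)
    {p q : Pt} (hpt : p ∈ t) (hqt : q ∈ t) (hps : p ∈ s) (hqs : q ∈ s)
    (hpar : crs (slabAt T J t k).1 p ≠ crs (slabAt T J t k).1 q) : slabAt T J s k = slabAt T J t k := by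
  by_cases hne : s = t
  · rw [hne]
  have hkD : k ≤ Dm := by omega
  have hJ := E.jnb ht (E.mem s hs) hne hpt hqt hps hqs h0 hkD hpar
  have m1 := E.mono ht hs h0 hkD (by omega) hl
    ((jverts_of_nb (jnb_mem_jball_one hJ)).trans (jverts_mono (by omega : 1 + k ≤ l)))
  have m2 := E.mono hs ht h0 hkD (by omega) hl
    ((jverts_of_nb (jnb_mem_jball_one hJ.symm)).trans (jverts_mono (by omega : 1 + k ≤ l)))
  rw [← hst] at m1
  rw [← hss] at m2
  obtain ⟨a1, a2, a3⟩ := m1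
  obtain ⟨b1, b2, b3⟩ := m2
  exact slab_ext a1 (le_antisymm b2 a2) (by linarith)

/-- exceptional triangle of width three -/
def Exc (σ : Slab) (t : Finset Pt) : Prop :=
  σ.2.2 = 3 ∧ ∃ p ∈ t, ∃ q ∈ t, p ≠ q ∧ (crs σ.1 q - crs σ.1 p = 3 ∨
    (crs σ.1 p = crs σ.1 q ∧ (crs σ.1 p = σ.2.1 ∨ crs σ.1 p = σ.2.1 + 3)))

theorem hullR_sub_Sq {P : Set Pt} (hP : ∀ p ∈ P, InSq n p) : hullR P ⊆ Sq n := by
  apply convexHull_min
  · rintro _ ⟨p, hp, rfl⟩
    obtain ⟨h1, h2, h3, h4⟩ := hP p hp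
    rw [mem_Sq]
    simp only [emb]
    exact ⟨by exact_mod_cast h1, by exact_mod_cast h2, by exact_mod_cast h3, by exact_mod_cast h4⟩
  · exact convex_Icc _ _

theorem insq_finite (n : ℕ) : {p : Pt | InSq n p}.Finite := by
  apply Set.Finite.subset ((Set.finite_Icc (0:ℤ) n).prod (Set.finite_Icc (0:ℤ) n))
  rintro p ⟨h1, h2, h3, h4⟩
  exact ⟨⟨h1, h2⟩, ⟨h3, h4⟩⟩

theorem lat_finite {P : Set Pt} (hP : ∀ p ∈ P, InSq n p) : {p : Pt | emb p ∈ hullR P}.Finite := by
  apply (insq_finite n).subset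
  intro p hp
  have h := hullR_sub_Sq hP hp
  rw [mem_Sq] at h
  simp only [emb] at h
  obtain ⟨h1, h2, h3, h4⟩ := h
  exact ⟨by exact_mod_cast h1, by exact_mod_cast h2, by exact_mod_cast h3, by exact_mod_cast h4⟩

theorem jverts_insq (hT : UT n T) {t : Finset Pt} (ht : t ∈ T) (k : ℕ) :
    ∀ p ∈ (jverts T J t k : Set Pt), InSq n p := by
  intro p hp
  obtain ⟨s, hs, hps⟩ := mem_jverts.mp (by exact_mod_cast hp)
  exact hT.insq (jball_sub ht k hs) hps

open Classical in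
theorem Env.exc_local (E : Env n T G J R k0 Dm) {u : Finset Pt} (hu : G u) {k : ℕ} (h0 : k0 ≤ k)
    (h1 : k0 + k ≤ Dm) :
    (T.filter fun s => (G s ∧ Exc (slabAt T J s k) s) ∧ s ∈ jball T J u k0).card ≤ 800 := by
  set P := jverts T J u (k0 + k) with hP
  set σ := slabAt T J u (k0 + k) with hσ
  have hex : ExSlab P σ := E.ex hu (by omega) h1
  set Z := P.filter fun p => crs σ.1 p = σ.2.1 ∨ crs σ.1 p = σ.2.1 + 3 with hZ
  have hkey : ∀ s, G s → Exc (slabAt T J s k) s → s ∈ jball T J u k0 →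
      σ.2.2 = 3 ∧ ∃ p ∈ Z, ∃ q ∈ Z, p ≠ q ∧ p ∈ s ∧ q ∈ s := by
    intro s hs hexc hsu
    have hsub : jverts T J s k ⊆ jverts T J u (k0 + k) := jverts_of_nb hsu
    obtain ⟨m1, m2, m3⟩ := E.mono hu hs h0 (by omega) (by omega) h1 hsub
    rw [← hσ] at m1 m2 m3
    obtain ⟨hw, p, hp, q, hq, hpq, hcase⟩ := hexc
    rw [hw] at m3
    have hw3 := hex.w3
    have hc : (slabAt T J s k).2.1 = σ.2.1 := by omega
    have hσw : σ.2.2 = 3 := by omega
    rw [m1, hc] at hcase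
    have hpP : p ∈ P := hsub (mem_jverts_self hp)
    have hqP : q ∈ P := hsub (mem_jverts_self hq)
    have hp' := hex.sub p hpP
    have hq' := hex.sub q hqP
    refine ⟨hσw, p, ?_, q, ?_, hpq, hp, hq⟩
    · rw [hZ, Finset.mem_filter]
      refine ⟨hpP, ?_⟩
      rcases hcase with h | ⟨h, h'⟩
      · left; omega
      · exact h'
    · rw [hZ, Finset.mem_filter]
      refine ⟨hqP, ?_⟩
      rcases hcase with h | ⟨h, h'⟩
      · right; omega
      · rw [← h]; exact h'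
  by_cases hne : (T.filter fun s => (G s ∧ Exc (slabAt T J s k) s) ∧ s ∈ jball T J u k0).Nonempty
  swap
  · rw [Finset.not_nonempty_iff_eq_empty.mp hne]; simp
  obtain ⟨s0, hs0⟩ := hne
  rw [Finset.mem_filter] at hs0
  have hσw : σ.2.2 = 3 := (hkey s0 hs0.2.1.1 hs0.2.1.2 hs0.2.2).1
  have hZcard : Z.card ≤ 20 := by
    obtain ⟨g1, g2⟩ := hex.side hσw
    have hfin : {p : Pt | emb p ∈ hullR (P : Set Pt)}.Finite := lat_finite (jverts_insq E.hT (E.mem u hu) _)
    have hsub : (Z : Set Pt) ⊆ {p : Pt | emb p ∈ hullR (P : Set Pt) ∧ crs σ.1 p = σ.2.1} ∪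
        {p : Pt | emb p ∈ hullR (P : Set Pt) ∧ crs σ.1 p = σ.2.1 + 3} := by
      intro p hp
      rw [Finset.mem_coe, hZ, Finset.mem_filter] at hp
      rcases hp with ⟨hp, h | h⟩
      · exact Or.inl ⟨emb_mem_hullR hp, h⟩
      · exact Or.inr ⟨emb_mem_hullR hp, h⟩
    have h3 := Set.ncard_le_ncard hsub ((hfin.subset fun p hp => hp.1).union (hfin.subset fun p hp => hp.1))
    rw [Set.ncard_coe_finset] at h3
    have h4 := Set.ncard_union_le {p : Pt | emb p ∈ hullR (P : Set Pt) ∧ crs σ.1 p = σ.2.1}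
        {p : Pt | emb p ∈ hullR (P : Set Pt) ∧ crs σ.1 p = σ.2.1 + 3}
    omega
  have hcov : (T.filter fun s => (G s ∧ Exc (slabAt T J s k) s) ∧ s ∈ jball T J u k0) ⊆
      ((Z ×ˢ Z).filter fun pq => pq.2 ≠ pq.1).biUnion
        fun pq => T.filter fun t => pq.1 ∈ t ∧ pq.2 ∈ t := by
    intro s hs
    rw [Finset.mem_filter] at hs
    obtain ⟨-, p, hp, q, hq, hpq, hps, hqs⟩ := hkey s hs.2.1.1 hs.2.1.2 hs.2.2
    rw [Finset.mem_biUnion]
    refine ⟨(p, q), ?_, ?_⟩
    · rw [Finset.mem_filter, Finset.mem_product]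
      exact ⟨⟨hp, hq⟩, hpq.symm⟩
    · rw [Finset.mem_filter]
      exact ⟨hs.1, hps, hqs⟩
  calc _ ≤ _ := Finset.card_le_card hcov
    _ ≤ ∑ pq ∈ (Z ×ˢ Z).filter fun pq => pq.2 ≠ pq.1, (T.filter fun t => pq.1 ∈ t ∧ pq.2 ∈ t).card :=
        Finset.card_biUnion_le
    _ ≤ ∑ pq ∈ (Z ×ˢ Z).filter fun pq => pq.2 ≠ pq.1, 2 := by
        apply Finset.sum_le_sum
        intro pq hpq
        rw [Finset.mem_filter] at hpq
        exact E.hT.card_edge_le hpq.2
    _ ≤ ∑ pq ∈ Z ×ˢ Z, 2 := Finset.sum_le_sum_of_subset (Finset.filter_subset _ _)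
    _ = (Z.card * Z.card) * 2 := by rw [Finset.sum_const, Finset.card_product, smul_eq_mul]
    _ ≤ (20 * 20) * 2 := Nat.mul_le_mul_right _ (Nat.mul_le_mul hZcard hZcard)
    _ = 800 := by norm_num

open Classical in
/-- double counting of the exceptional triangles -/
theorem Env.exc_count (E : Env n T G J R k0 Dm) {k : ℕ} (hk0R : k0 ≤ R) (h0 : k0 ≤ k)
    (h1 : k0 + k ≤ Dm) :
    (k0 + 1) * (T.filter fun s => G s ∧ Exc (slabAt T J s k) s).card ≤
      800 * T.card + 4 ^ k0 * (T.filter fun s => ¬ G s).card := by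
  set B := T.filter fun s => G s ∧ Exc (slabAt T J s k) s with hB
  have hBT : B ⊆ T := Finset.filter_subset _ _
  have e1 : (k0 + 1) * B.card ≤ ∑ s ∈ B, (jball T J s k0).card := by
    rw [mul_comm, ← smul_eq_mul, ← Finset.sum_const]
    apply Finset.sum_le_sum
    intro s hs
    rw [hB, Finset.mem_filter] at hs
    exact E.size s hs.2.1 k0 hk0R
  have e2 : ∑ s ∈ B, (jball T J s k0).card = ∑ u ∈ T, (B.filter fun s => s ∈ jball T J u k0).card := by
    have : ∀ s ∈ B, (jball T J s k0).card = ∑ u ∈ T, if s ∈ jball T J u k0 then 1 else 0 := by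
      intro s hs
      rw [← Finset.card_filter]
      congr 1
      ext u
      rw [Finset.mem_filter]
      constructor
      · intro h
        exact ⟨jball_sub (hBT hs) k0 h, jball_symm h⟩
      · rintro ⟨_, h⟩
        exact jball_symm h
    rw [Finset.sum_congr rfl this, Finset.sum_comm]
    apply Finset.sum_congr rfl
    intro u _
    rw [Finset.card_filter]
  have e3 : ∑ u ∈ T, (B.filter fun s => s ∈ jball T J u k0).card ≤
      ∑ u ∈ T, (800 + if ¬ G u then 4 ^ k0 else 0) := by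
    apply Finset.sum_le_sum
    intro u hu
    by_cases hG : G u
    · have := E.exc_local hG h0 h1
      have h2 : (B.filter fun s => s ∈ jball T J u k0) =
          T.filter fun s => (G s ∧ Exc (slabAt T J s k) s) ∧ s ∈ jball T J u k0 := by
        rw [hB, Finset.filter_filter]
      rw [h2]
      exact this.trans (Nat.le_add_right _ _)
    · rw [if_pos hG]
      have h2 : (B.filter fun s => s ∈ jball T J u k0) ⊆ dball T u k0 := by
        intro s hs
        exact jball_subset_dball u k0 (Finset.mem_filter.mp hs).2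
      have h3 := (Finset.card_le_card h2).trans (E.hT.card_dball u k0)
      exact h3.trans (Nat.le_add_left _ _)
  have e4 : ∑ u ∈ T, (800 + if ¬ G u then 4 ^ k0 else 0) =
      800 * T.card + 4 ^ k0 * (T.filter fun s => ¬ G s).card := by
    rw [Finset.sum_add_distrib, Finset.sum_const, ← Finset.sum_filter, Finset.sum_const,
      smul_eq_mul, smul_eq_mul]
    ring
  rw [← e4]
  exact e1.trans (e2.le.trans e3)

end env

open Classical in
/-- assembly from an environment -/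
theorem Env.str {n : ℕ} {T : Finset (Finset Pt)} {G : Finset Pt → Prop} {J R k0 Dm q : ℕ}
    (E : Env n T G J R k0 Dm) (hq0 : 0 < q) (hR : 2 * k0 + q + 1 ≤ R) :
    ∃ V S, Str n T V S ∧ q * (k0 + 1) * (T \ V).card ≤
      q * (k0 + 1) * (T.filter fun s => ¬ G s).card + (k0 + 1) * (3 * T.card) +
        q * (800 * T.card + 4 ^ k0 * (T.filter fun s => ¬ G s).card) := by
  have hRD := E.hR
  obtain ⟨i, hi, hpig⟩ := E.pigeon (ks := fun i => k0 + i) (fun i => by show k0 + i ≤ k0 + (i + 1); omega) hq0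
    (by show k0 ≤ k0 + 0; omega) (by show k0 + q ≤ Dm; omega)
  have hexc := E.exc_count (k := k0 + i) (by omega) (by omega) (by omega)
  set V := T.filter fun t => (G t ∧ slabAt T J t (k0 + i) = slabAt T J t (k0 + (i + 1))) ∧
    ¬ Exc (slabAt T J t (k0 + i)) t with hV
  have hVm : ∀ t, t ∈ V → t ∈ T ∧ (G t ∧ slabAt T J t (k0 + i) = slabAt T J t (k0 + (i + 1))) ∧
    ¬ Exc (slabAt T J t (k0 + i)) t := fun t ht => Finset.mem_filter.mp ht
  refine ⟨V, fun t => slabAt T J t (k0 + i), ?_, ?_⟩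
  · have hex : ∀ t ∈ V, ExSlab (jverts T J t (k0 + i)) (slabAt T J t (k0 + i)) :=
      fun t ht => E.ex (hVm t ht).2.1.1 (by omega) (by omega)
    refine ⟨Finset.filter_subset _ _, fun t ht => (hex t ht).dir, ?_, ?_, ?_, ?_, ?_⟩
    · intro t ht
      exact ⟨E.w_pos (hVm t ht).2.1.1 (by omega) (by omega), (hex t ht).w3⟩
    · intro t ht p hp
      exact (hex t ht).sub p (mem_jverts_self hp)
    · intro t ht
      exact E.nb t (hVm t ht).2.1.1
    · intro t ht s hs p q' hpt hqt hps hqs hpar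
      exact E.adj (hVm t ht).2.1.1 (hVm s hs).2.1.1 (l := k0 + (i + 1)) (by omega) (by omega) (by omega)
        (hVm t ht).2.1.2 (hVm s hs).2.1.2 hpt hqt hps hqs hpar
    · intro t ht hw p hp q' hq' hpq
      have h := (hVm t ht).2.2
      constructor
      · intro h3
        exact h ⟨hw, p, hp, q', hq', hpq, Or.inl h3⟩
      · intro h3
        exact h ⟨hw, p, hp, q', hq', hpq, Or.inr h3⟩
  · set B := T.filter fun s => G s ∧ Exc (slabAt T J s (k0 + i)) s with hB
    set Ch := T.filter fun t => G t ∧ slabAt T J t (k0 + i) ≠ slabAt T J t (k0 + (i + 1)) with hCh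
    set N := T.filter fun s => ¬ G s with hN
    have hsub : T \ V ⊆ N ∪ (Ch ∪ B) := by
      intro t ht
      rw [Finset.mem_sdiff] at ht
      simp only [Finset.mem_union, hN, hCh, hB, Finset.mem_filter]
      by_cases hG : G t
      · by_cases hs : slabAt T J t (k0 + i) = slabAt T J t (k0 + (i + 1))
        · by_cases he : Exc (slabAt T J t (k0 + i)) t
          · exact Or.inr (Or.inr ⟨ht.1, hG, he⟩)
          · exact absurd (Finset.mem_filter.mpr ⟨ht.1, ⟨hG, hs⟩, he⟩) ht.2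
        · exact Or.inr (Or.inl ⟨ht.1, hG, hs⟩)
      · exact Or.inl ⟨ht.1, hG⟩
    have hc : (T \ V).card ≤ N.card + (Ch.card + B.card) :=
      (Finset.card_le_card hsub).trans ((Finset.card_union_le _ _).trans
        (Nat.add_le_add_left (Finset.card_union_le _ _) _))
    calc q * (k0 + 1) * (T \ V).card ≤ q * (k0 + 1) * (N.card + (Ch.card + B.card)) :=
          Nat.mul_le_mul_left _ hc
      _ = q * (k0 + 1) * N.card + (k0 + 1) * (q * Ch.card) + q * ((k0 + 1) * B.card) := by ring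
      _ ≤ q * (k0 + 1) * N.card + (k0 + 1) * (3 * T.card) +
          q * (800 * T.card + 4 ^ k0 * N.card) := by
          apply Nat.add_le_add
          · exact Nat.add_le_add_left (Nat.mul_le_mul_left _ hpig) _
          · exact Nat.mul_le_mul_left _ hexc

open Classical in
theorem ncard_filter (T : Finset (Finset Pt)) (P : Finset Pt → Prop) :
    ({t | t ∈ T ∧ P t} : Set (Finset Pt)).ncard = (T.filter P).card := by
  rw [← Set.ncard_coe_finset]
  congr 1
  ext t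
  simp

theorem arith_final {q k N β n2 W F : ℝ} (hq : 0 < q) (hk : 0 ≤ k) (_hβ : 0 < β) (hn2 : 0 ≤ n2)
    (hN : 0 ≤ N) (hF : 0 ≤ F) (hqβ : 24 < q * β) (hkβ : 6400 < (k + 1) * β)
    (r7 : (1 + F) * N ≤ β / 2 * n2)
    (hc : q * (k + 1) * W ≤ q * (k + 1) * N + (k + 1) * (3 * (2 * n2)) + q * (800 * (2 * n2) + F * N)) :
    W ≤ β * n2 := by
  have hprod : 0 < q * (k + 1) := by positivity
  have t1 : (k + 1) * (3 * (2 * n2)) ≤ q * (k + 1) * (β / 4 * n2) := by
    have : 6 * n2 ≤ (q * β) / 4 * n2 := mul_le_mul_of_nonneg_right (by linarith) hn2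
    calc (k + 1) * (3 * (2 * n2)) = (k + 1) * (6 * n2) := by ring
      _ ≤ (k + 1) * ((q * β) / 4 * n2) := mul_le_mul_of_nonneg_left this (by positivity)
      _ = _ := by ring
  have t2 : q * (800 * (2 * n2)) ≤ q * (k + 1) * (β / 4 * n2) := by
    have : 1600 * n2 ≤ ((k + 1) * β) / 4 * n2 := mul_le_mul_of_nonneg_right (by linarith) hn2
    calc q * (800 * (2 * n2)) = q * (1600 * n2) := by ring
      _ ≤ q * (((k + 1) * β) / 4 * n2) := mul_le_mul_of_nonneg_left this hq.le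
      _ = _ := by ring
  have hFN : 0 ≤ F * N := by positivity
  have t3 : q * (F * N) ≤ q * (k + 1) * (F * N) := by
    have : F * N ≤ (k + 1) * (F * N) := le_mul_of_one_le_left hFN (by linarith)
    calc q * (F * N) ≤ q * ((k + 1) * (F * N)) := mul_le_mul_of_nonneg_left this hq.le
      _ = _ := by ring
  have t4 : q * (k + 1) * ((1 + F) * N) ≤ q * (k + 1) * (β / 2 * n2) :=
    mul_le_mul_of_nonneg_left r7 hprod.le
  refine le_of_mul_le_mul_left (hc.trans ?_) hprod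
  have e1 : q * (k + 1) * N + (k + 1) * (3 * (2 * n2)) + q * (800 * (2 * n2) + F * N) =
      q * (k + 1) * N + (k + 1) * (3 * (2 * n2)) + q * (800 * (2 * n2)) + q * (F * N) := by ring
  have e2 : q * (k + 1) * ((1 + F) * N) = q * (k + 1) * N + q * (k + 1) * (F * N) := by ring
  have e3 : q * (k + 1) * (β * n2) = q * (k + 1) * (β / 4 * n2) + q * (k + 1) * (β / 4 * n2) +
      q * (k + 1) * (β / 2 * n2) := by ring
  rw [e1, e3]
  rw [e2] at t4
  linarith

open Classical in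
theorem structure_thm' : ∀ β : ℝ, 0 < β → ∃ M : ℕ, ∀ D : ℕ, ∃ n0 : ℕ, ∀ n, n0 ≤ n →
    ∀ T : Finset (Finset Pt), UT n T → ({g | FatAt n M T g}).ncard < D →
    ∃ V S, Str n T V S ∧ ((T \ V).card : ℝ) ≤ β * (n : ℝ) ^ 2 := by
  intro β hβ
  obtain ⟨L, hL⟩ := strip
  obtain ⟨q, hq⟩ := exists_nat_gt (24 / β)
  have hq0 : 0 < q := by
    have : (0:ℝ) < q := lt_trans (by positivity) hq
    exact_mod_cast this
  obtain ⟨k1, hk1⟩ := exists_nat_gt (6400 / β)
  set k0 := max k1 (L ^ 3) with hk0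
  set R := 2 * k0 + q + 1 with hR
  set A := (1 + 4 ^ k0) * 4 ^ R with hA
  obtain ⟨c, hc⟩ := exists_nat_gt (400 * (A : ℝ) / β)
  set K : ℕ → ℕ := fun ρ => c * 16 ^ ρ with hK
  obtain ⟨J, D, hw⟩ := wall K R (3 * R + 30)
  have hMex := fun k => hull_lemma K J k
  choose Mf hMf using hMex
  set M := (Finset.range (max R D + 1)).sup Mf with hM
  refine ⟨4 ^ M, fun D' => ?_⟩
  obtain ⟨n1, hn1⟩ := exists_nat_gt (4 / β * ((A : ℝ) * (4 ^ M * D' + 4)))
  refine ⟨n1 + 4 ^ R + 1, fun n hn T hT hfat => ?_⟩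
  have hn1' : n1 ≤ n := le_trans (le_trans (Nat.le_add_right _ _) (Nat.le_add_right _ _)) hn
  have hnR : 4 ^ R < n :=
    lt_of_lt_of_le (Nat.lt_succ_of_le (Nat.le_add_left (4 ^ R) n1)) hn
  have hnpos : 0 < n := lt_of_le_of_lt (Nat.zero_le _) hnR
  have hn2 : 4 ^ R < 2 * n ^ 2 := by nlinarith
  have E := env_of hL (K := K) (J := J) (D := D) (R := R) (k0 := k0) (M := M) hMf
    (hw J le_rfl) (le_max_right _ _) (by omega)
    (fun k hk => Finset.le_sup (f := Mf) (Finset.mem_range.mpr (by omega))) hT hn2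
  obtain ⟨V, S, hS, hcard⟩ := E.str hq0 le_rfl
  refine ⟨V, S, hS, ?_⟩
  have hTcard := ut_card hT
  set N := (T.filter fun s => ¬ BG n T K M R s).card with hN
  -- bound on N
  have hb : N ≤ 4 ^ R *
      (({t | t ∈ T ∧ ¬ MarksLE n T t K}).ncard + ({t | t ∈ T ∧ Fat n T M t}).ncard +
        ({t | t ∈ T ∧ ¬ NB T t}).ncard) := by
    have := bg_count hT K M R
    rw [ncard_filter T (fun t => ¬ BG n T K M R t)] at this
    rw [hN]
    convert this
  have hg := good_count hT c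
  have hf := fat_count hT M
  have hnb := nb_count hT
  set g := ({t | t ∈ T ∧ ¬ MarksLE n T t (fun ρ => c * 16 ^ ρ)} : Set (Finset Pt)).ncard with hgdef
  set f := ({t | t ∈ T ∧ Fat n T M t} : Set (Finset Pt)).ncard with hfdef
  set b := ({t | t ∈ T ∧ ¬ NB T t} : Set (Finset Pt)).ncard with hbdef
  have hf' : f ≤ 4 ^ M * D' := hf.trans (Nat.mul_le_mul_left _ hfat.le)
  have hnR' : (1:ℝ) ≤ n := by exact_mod_cast hnpos
  -- real versions
  have r1 : (N : ℝ) ≤ 4 ^ R * (g + f + b) := by exact_mod_cast hb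
  have r2 : (c : ℝ) * g ≤ 100 * n ^ 2 := by exact_mod_cast hg
  have r3 : (f : ℝ) ≤ 4 ^ M * D' := by exact_mod_cast hf'
  have r4 : (b : ℝ) ≤ 4 * n := by exact_mod_cast hnb
  have rc : 400 * (A : ℝ) < c * β := by
    rw [div_lt_iff₀ hβ] at hc; exact hc
  have hApos : (0:ℝ) < A := by
    have : 0 < A := by rw [hA]; positivity
    exact_mod_cast this
  have hcpos : (0:ℝ) < c := by
    by_contra hcon
    push Not at hcon
    nlinarith
  have r5 : (A : ℝ) * g ≤ β / 4 * n ^ 2 := by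
    have h1 : (c : ℝ) * (A * g) ≤ A * (100 * n ^ 2) := by
      calc (c : ℝ) * (A * g) = A * (c * g) := by ring
        _ ≤ A * (100 * n ^ 2) := mul_le_mul_of_nonneg_left r2 hApos.le
    have h2 : (A : ℝ) * (100 * n ^ 2) ≤ c * (β / 4 * n ^ 2) := by
      have : (0:ℝ) ≤ (n:ℝ) ^ 2 := by positivity
      nlinarith
    exact le_of_mul_le_mul_left (h1.trans h2) hcpos
  have r6 : (A : ℝ) * (f + b) ≤ β / 4 * n ^ 2 := by
    have h1 : (f : ℝ) + b ≤ (4 ^ M * D' + 4) * n := by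
      have h3 : (0:ℝ) ≤ 4 ^ M * D' := by positivity
      nlinarith
    have h2 : (A : ℝ) * (4 ^ M * D' + 4) ≤ β / 4 * n := by
      have h3 : (n1 : ℝ) ≤ n := by exact_mod_cast hn1'
      have h4 : 4 / β * ((A : ℝ) * (4 ^ M * D' + 4)) ≤ n := hn1.le.trans h3
      rw [div_mul_eq_mul_div, div_le_iff₀ hβ] at h4
      linarith
    calc (A : ℝ) * (f + b) ≤ A * ((4 ^ M * D' + 4) * n) := mul_le_mul_of_nonneg_left h1 hApos.le
      _ = (A * (4 ^ M * D' + 4)) * n := by ring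
      _ ≤ (β / 4 * n) * n := mul_le_mul_of_nonneg_right h2 (by positivity)
      _ = β / 4 * n ^ 2 := by ring
  have r7 : (1 + 4 ^ k0 : ℝ) * N ≤ β / 2 * n ^ 2 := by
    calc (1 + 4 ^ k0 : ℝ) * N ≤ (1 + 4 ^ k0) * (4 ^ R * (g + f + b)) :=
          mul_le_mul_of_nonneg_left r1 (by positivity)
      _ = A * g + A * (f + b) := by rw [hA]; push_cast; ring
      _ ≤ β / 4 * n ^ 2 + β / 4 * n ^ 2 := add_le_add r5 r6
      _ = β / 2 * n ^ 2 := by ring
  -- final
  have hqR : 24 < q * β := by rw [div_lt_iff₀ hβ] at hq; exact hq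
  have hk0R : 6400 < ((k0 : ℝ) + 1) * β := by
    rw [div_lt_iff₀ hβ] at hk1
    have : (k1 : ℝ) ≤ k0 := by exact_mod_cast le_max_left _ _
    nlinarith
  have hcard' : (q : ℝ) * (k0 + 1) * (T \ V).card ≤
      q * (k0 + 1) * N + (k0 + 1) * (3 * (2 * n ^ 2)) + q * (800 * (2 * n ^ 2) + 4 ^ k0 * N) := by
    have := hcard
    rw [hTcard] at this
    exact_mod_cast this
  exact arith_final (by exact_mod_cast hq0) (Nat.cast_nonneg k0) hβ (by positivity) (Nat.cast_nonneg N)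
    (by positivity) hqR hk0R r7 hcard'

end Pool.Agent.IT.StrA

namespace Pool.Agent.IT

theorem structure_thm : ∀ β : ℝ, 0 < β → ∃ M : ℕ, ∀ D : ℕ, ∃ n0 : ℕ, ∀ n, n0 ≤ n →
    ∀ T : Finset (Finset Pt), UT n T → ({g | FatAt n M T g}).ncard < D →
    ∃ V S, Str n T V S ∧ ((T \ V).card : ℝ) ≤ β * (n : ℝ) ^ 2 := StrA.structure_thm'

end Pool.Agent.IT
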