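import Pool.Agent.IT.SweepL1

set_option autoImplicit false
open Set Filter Topology

namespace Pool.Agent.IT

variable {n : ℕ} {T : Finset (Finset Pt)}

/-- Two triangles of `T` sharing an edge. -/
def Nb (T : Finset (Finset Pt)) (t t' : Finset Pt) : Prop :=
  ∃ p q r z, Pos T p q r ∧ Pos T q p z ∧ t = {p, q, r} ∧ t' = {q, p, z}

theorem Nb.symm {t t' : Finset Pt} (h : Nb T t t') : Nb T t' t := by
  obtain ⟨p, q, r, z, h1, h2, h3, h4⟩ := h
  exact ⟨q, p, z, r, h2, h1, h4, h3⟩

theorem Nb.mem_left {t t' : Finset Pt} (h : Nb T t t') : t ∈ T := by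
  obtain ⟨p, q, r, z, h1, h2, h3, h4⟩ := h
  rw [h3]; exact h1.1

theorem Nb.mem_right {t t' : Finset Pt} (h : Nb T t t') : t' ∈ T := h.symm.mem_left

/-- A boundary point of a cell which is not a lattice point lies in the relative interior of one side. -/
theorem boundary_side {a b c : Pt} (h : det a b c = 1) {x : ℝ × ℝ} (hx : x ∈ cell {a, b, c})
    (hni : x ∉ interior (cell {a, b, c})) (hlat : ∀ p : Pt, x ≠ emb p) :
    ∃ p q r : Pt, ((p = a ∧ q = b ∧ r = c) ∨ (p = b ∧ q = c ∧ r = a) ∨ (p = c ∧ q = a ∧ r = b)) ∧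
      dl p q x = 0 ∧ 0 < dl q r x ∧ 0 < dl r p x := by
  have hx' := (mem_cell_iff h x).mp hx
  have hn : ¬ (0 < dl a b x ∧ 0 < dl b c x ∧ 0 < dl c a x) := fun g =>
    hni ((mem_interior_cell_iff h x).mpr g)
  obtain ⟨h1, h2, h3⟩ := hx'
  have b1 := bary1 h x
  have b2 := bary2 h x
  have hs := dl_sum a b c x
  rw [h] at hs
  push_cast at hs
  -- no two functionals vanish
  have hab : ¬ (dl a b x = 0 ∧ dl b c x = 0) := by
    rintro ⟨g1, g2⟩
    apply hlat b
    rw [g1, g2] at b1 b2 hs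
    have : dl c a x = 1 := by linarith
    rw [this] at b1 b2
    ext
    · simp only [emb]; linarith
    · simp only [emb]; linarith
  have hbc : ¬ (dl b c x = 0 ∧ dl c a x = 0) := by
    rintro ⟨g1, g2⟩
    apply hlat c
    rw [g1, g2] at b1 b2 hs
    have : dl a b x = 1 := by linarith
    rw [this] at b1 b2
    ext
    · simp only [emb]; linarith
    · simp only [emb]; linarith
  have hca : ¬ (dl c a x = 0 ∧ dl a b x = 0) := by
    rintro ⟨g1, g2⟩
    apply hlat a
    rw [g1, g2] at b1 b2 hs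
    have : dl b c x = 1 := by linarith
    rw [this] at b1 b2
    ext
    · simp only [emb]; linarith
    · simp only [emb]; linarith
  rcases h1.eq_or_lt with e1 | e1
  · refine ⟨a, b, c, Or.inl ⟨rfl, rfl, rfl⟩, e1.symm, ?_, ?_⟩
    · exact lt_of_le_of_ne h2 (fun e => hab ⟨e1.symm, e.symm⟩)
    · exact lt_of_le_of_ne h3 (fun e => hca ⟨e.symm, e1.symm⟩)
  · rcases h2.eq_or_lt with e2 | e2
    · refine ⟨b, c, a, Or.inr (Or.inl ⟨rfl, rfl, rfl⟩), e2.symm, ?_, ?_⟩
      · exact lt_of_le_of_ne h3 (fun e => hbc ⟨e2.symm, e.symm⟩)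
      · exact e1
    · rcases h3.eq_or_lt with e3 | e3
      · exact ⟨c, a, b, Or.inr (Or.inr ⟨rfl, rfl, rfl⟩), e3.symm, e1, e2⟩
      · exact absurd ⟨e1, e2, e3⟩ hn

/-- coordinates of a point on a side -/
theorem on_side {p q r : Pt} (h : det p q r = 1) {x : ℝ × ℝ} (h0 : dl p q x = 0)
    (h1 : 0 < dl q r x) (h2 : 0 < dl r p x) :
    ∃ s : ℝ, 0 < s ∧ s < 1 ∧ x.1 = p.1 + s * (q.1 - p.1) ∧ x.2 = p.2 + s * (q.2 - p.2) := by
  have b1 := bary1 h x
  have b2 := bary2 h x
  have hs := dl_sum p q r x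
  rw [h] at hs; push_cast at hs
  rw [h0] at b1 b2 hs
  have e : dl q r x = 1 - dl r p x := by linarith
  refine ⟨dl r p x, h2, by linarith, ?_, ?_⟩
  · rw [b1, e]; ring
  · rw [b2, e]; ring

/-- Edge-to-edge property. -/
theorem UT.edge_to_edge (hT : UT n T) {t t' : Finset Pt} (ht : t ∈ T) (ht' : t' ∈ T) (hne : t ≠ t')
    {x : ℝ × ℝ} (hx : x ∈ cell t) (hx' : x ∈ cell t') (hlat : ∀ p : Pt, x ≠ emb p) : Nb T t t' := by
  have n1 : x ∉ interior (cell t) := fun h => hne (hT.eq_of_mem_interior ht ht' h hx')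
  have n2 : x ∉ interior (cell t') := fun h => hne (hT.eq_of_mem_interior ht' ht h hx).symm
  obtain ⟨a, b, c, rfl, hpos⟩ := hT.exists_pos ht
  obtain ⟨a', b', c', rfl, hpos'⟩ := hT.exists_pos ht'
  obtain ⟨p, q, r, hpqr, h0, h1, h2⟩ := boundary_side hpos.2 hx n1 hlat
  obtain ⟨u, v, w, huvw, g0, g1, g2⟩ := boundary_side hpos'.2 hx' n2 hlat
  have hP : Pos T p q r ∧ ({a, b, c} : Finset Pt) = {p, q, r} := by
    rcases hpqr with ⟨rfl, rfl, rfl⟩ | ⟨rfl, rfl, rfl⟩ | ⟨rfl, rfl, rfl⟩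
    · exact ⟨hpos, rfl⟩
    · exact ⟨hpos.cyc, by ext s; simp only [Finset.mem_insert, Finset.mem_singleton]; tauto⟩
    · exact ⟨hpos.cyc', by ext s; simp only [Finset.mem_insert, Finset.mem_singleton]; tauto⟩
  have hU : Pos T u v w ∧ ({a', b', c'} : Finset Pt) = {u, v, w} := by
    rcases huvw with ⟨rfl, rfl, rfl⟩ | ⟨rfl, rfl, rfl⟩ | ⟨rfl, rfl, rfl⟩
    · exact ⟨hpos', rfl⟩
    · exact ⟨hpos'.cyc, by ext s; simp only [Finset.mem_insert, Finset.mem_singleton]; tauto⟩
    · exact ⟨hpos'.cyc', by ext s; simp only [Finset.mem_insert, Finset.mem_singleton]; tauto⟩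
  obtain ⟨hP, eP⟩ := hP
  obtain ⟨hU, eU⟩ := hU
  rw [eP, eU] at hne ⊢
  by_cases hk : crs (q.1 - p.1, q.2 - p.2) (v.1 - u.1, v.2 - u.2) = 0
  · -- parallel
    have d1 : crs (q.1 - p.1, q.2 - p.2) (r.1 - p.1, r.2 - p.2) = 1 := by
      rw [← hP.2]; simp only [crs, det]
    have d2 : crs (v.1 - u.1, v.2 - u.2) (w.1 - u.1, w.2 - u.2) = 1 := by
      rw [← hU.2]; simp only [crs, det]
    have hk' : crs (v.1 - u.1, v.2 - u.2) (q.1 - p.1, q.2 - p.2) = 0 := by
      simp only [crs] at *; linarith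
    have m1 := eq_smul_of_crs d1 hk
    have m2 := eq_smul_of_crs d2 hk'
    set k := crs (v.1 - u.1, v.2 - u.2) (r.1 - p.1, r.2 - p.2)
    set l := crs (q.1 - p.1, q.2 - p.2) (w.1 - u.1, w.2 - u.2)
    have m11 : v.1 - u.1 = k * (q.1 - p.1) := congrArg Prod.fst m1
    have m12 : v.2 - u.2 = k * (q.2 - p.2) := congrArg Prod.snd m1
    have m21 : q.1 - p.1 = l * (v.1 - u.1) := congrArg Prod.fst m2
    have m22 : q.2 - p.2 = l * (v.2 - u.2) := congrArg Prod.snd m2
    have hkl : k * l = 1 := by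
      -- (q - p) = l k (q - p), and q - p ≠ 0
      have e1 : (1 - k * l) * (q.1 - p.1) = 0 := by rw [m11] at m21; linarith
      have e2 : (1 - k * l) * (q.2 - p.2) = 0 := by rw [m12] at m22; linarith
      have : (1 - k * l) * crs (q.1 - p.1, q.2 - p.2) (r.1 - p.1, r.2 - p.2) = 0 := by
        simp only [crs]; linear_combination (r.2 - p.2) * e1 - (r.1 - p.1) * e2
      rw [d1] at this; linarith
    have hk1 : k = 1 ∨ k = -1 := by
      rcases Int.eq_one_or_neg_one_of_mul_eq_one hkl with h | h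
      · exact Or.inl h
      · exact Or.inr h
    obtain ⟨s, s0, s1, x1, x2⟩ := on_side hP.2 h0 h1 h2
    obtain ⟨s', s0', s1', y1, y2⟩ := on_side hU.2 g0 g1 g2
    -- u - p is a multiple of q - p
    have hu : crs (q.1 - p.1, q.2 - p.2) (u.1 - p.1, u.2 - p.2) = 0 := by
      have : ((crs (q.1 - p.1, q.2 - p.2) (u.1 - p.1, u.2 - p.2) : ℤ) : ℝ) = 0 := by
        have m11' : (v.1:ℝ) - u.1 = k * (q.1 - p.1) := by exact_mod_cast m11
        have m12' : (v.2:ℝ) - u.2 = k * (q.2 - p.2) := by exact_mod_cast m12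
        simp only [crs]; push_cast
        have z1 : (u.1:ℝ) - p.1 = (s - s' * k) * (q.1 - p.1) := by
          have := x1.symm.trans y1
          rw [m11'] at this; linarith
        have z2 : (u.2:ℝ) - p.2 = (s - s' * k) * (q.2 - p.2) := by
          have := x2.symm.trans y2
          rw [m12'] at this; linarith
        rw [z1, z2]; ring
      exact_mod_cast this
    have m3 := eq_smul_of_crs d1 hu
    set m := crs (u.1 - p.1, u.2 - p.2) (r.1 - p.1, r.2 - p.2)
    have m31 : u.1 - p.1 = m * (q.1 - p.1) := congrArg Prod.fst m3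
    have m32 : u.2 - p.2 = m * (q.2 - p.2) := congrArg Prod.snd m3
    have hm : (m : ℝ) = s - s' * k := by
      have m11' : (v.1:ℝ) - u.1 = k * (q.1 - p.1) := by exact_mod_cast m11
      have m12' : (v.2:ℝ) - u.2 = k * (q.2 - p.2) := by exact_mod_cast m12
      have m31' : (u.1:ℝ) - p.1 = m * (q.1 - p.1) := by exact_mod_cast m31
      have m32' : (u.2:ℝ) - p.2 = m * (q.2 - p.2) := by exact_mod_cast m32
      have z1 : (u.1:ℝ) - p.1 = (s - s' * k) * (q.1 - p.1) := by
        have := x1.symm.trans y1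
        rw [m11'] at this; linarith
      have z2 : (u.2:ℝ) - p.2 = (s - s' * k) * (q.2 - p.2) := by
        have := x2.symm.trans y2
        rw [m12'] at this; linarith
      have d1' : ((q.1:ℝ) - p.1) * (r.2 - p.2) - (q.2 - p.2) * (r.1 - p.1) = 1 := by
        have := d1; simp only [crs] at this; exact_mod_cast this
      have w1 : ((m:ℝ) - (s - s' * k)) * (q.1 - p.1) = 0 := by linarith
      have w2 : ((m:ℝ) - (s - s' * k)) * (q.2 - p.2) = 0 := by linarith
      have : ((m:ℝ) - (s - s' * k)) * 1 = 0 := by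
        rw [← d1']; linear_combination (r.2 - p.2) * w1 - (r.1 - p.1) * w2
      linarith
    rcases hk1 with hk1 | hk1
    · -- same direction: m = 0, so u = p, v = q, contradiction
      have h1m : (m:ℝ) < 1 := by rw [hm, hk1]; push_cast; linarith
      have h2m : (-1:ℝ) < m := by rw [hm, hk1]; push_cast; linarith
      have h1m' : m < 1 := by exact_mod_cast h1m
      have h2m' : -1 < m := by exact_mod_cast h2m
      have m0 : m = 0 := by omega
      rw [m0] at m31 m32
      rw [hk1] at m11 m12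
      have eu : u = p := by ext <;> linarith
      have ev : v = q := by ext <;> linarith
      subst eu ev
      exact absurd (by rw [hP.unique hT hU]) hne
    · have h1m : (m:ℝ) < 2 := by rw [hm, hk1]; push_cast; linarith
      have h2m : (0:ℝ) < m := by rw [hm, hk1]; push_cast; linarith
      have h1m' : m < 2 := by exact_mod_cast h1m
      have h2m' : 0 < m := by exact_mod_cast h2m
      have m0 : m = 1 := by omega
      rw [m0] at m31 m32
      rw [hk1] at m11 m12
      have eu : u = q := by ext <;> linarith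
      have ev : v = p := by ext <;> linarith
      subst eu ev
      exact ⟨_, _, _, _, hP, hU, rfl, rfl⟩
  · exact absurd (hP.eq_of_cross hT hU h0 h1 h2 g0 g1 g2 hk) hne

end Pool.Agent.IT
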