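import Mathlib

set_option autoImplicit false
open Set

namespace Pool.Agent.IT

/-- signed area functional: positive iff z lies to the left of x → y -/
def sa (x y z : ℝ × ℝ) : ℝ := (y.1 - x.1) * (z.2 - x.2) - (y.2 - x.2) * (z.1 - x.1)

/-- barycentric coordinate of `a` in the triangle `a b c` -/
noncomputable def cf (a b c u : ℝ × ℝ) : ℝ := sa b c u / sa a b c

/-- closed triangle (for non-degenerate `a b c`) -/
def Trg (a b c : ℝ × ℝ) : Set (ℝ × ℝ) := {u | 0 ≤ cf a b c u ∧ 0 ≤ cf b c a u ∧ 0 ≤ cf c a b u}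

theorem sa_combo (x y a b : ℝ × ℝ) {s t : ℝ} (h : s + t = 1) :
    sa x y (s • a + t • b) = s * sa x y a + t * sa x y b := by
  have ht : t = 1 - s := by linarith
  subst ht
  simp only [sa, Prod.fst_add, Prod.snd_add, Prod.smul_fst, Prod.smul_snd, smul_eq_mul]
  ring

theorem sa_cyc (x y z : ℝ × ℝ) : sa y z x = sa x y z := by simp only [sa]; ring

theorem sa_swap (x y z : ℝ × ℝ) : sa x z y = - sa x y z := by simp only [sa]; ring

theorem sa_swap' (x y z : ℝ × ℝ) : sa y x z = - sa x y z := by simp only [sa]; ring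

theorem cf_combo (a b c u v : ℝ × ℝ) {s t : ℝ} (h : s + t = 1) :
    cf a b c (s • u + t • v) = s * cf a b c u + t * cf a b c v := by
  simp only [cf]; rw [sa_combo b c u v h]; ring

theorem cf_swap (a b c u : ℝ × ℝ) : cf a c b u = cf a b c u := by
  simp only [cf]
  rw [sa_swap a b c, sa_swap' b c u, neg_div_neg_eq]

theorem cf_self {a b c : ℝ × ℝ} (h : sa a b c ≠ 0) : cf a b c a = 1 := by
  simp only [cf]; rw [sa_cyc a b c]; exact div_self h

theorem cf_right (a b c : ℝ × ℝ) : cf a b c b = 0 := by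
  have : sa b c b = 0 := by simp only [sa]; ring
  simp only [cf, this, zero_div]

theorem cf_right' (a b c : ℝ × ℝ) : cf a b c c = 0 := by
  have : sa b c c = 0 := by simp only [sa]; ring
  simp only [cf, this, zero_div]

theorem cf_sum {a b c : ℝ × ℝ} (h : sa a b c ≠ 0) (u : ℝ × ℝ) :
    cf a b c u + cf b c a u + cf c a b u = 1 := by
  simp only [cf]
  rw [sa_cyc a b c, show sa c a b = sa a b c by simp only [sa]; ring, ← add_div, ← add_div,
    div_eq_one_iff_eq h]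
  simp only [sa]; ring

theorem cf_repr {a b c : ℝ × ℝ} (h : sa a b c ≠ 0) (u : ℝ × ℝ) :
    u = cf a b c u • a + cf b c a u • b + cf c a b u • c := by
  simp only [cf]
  rw [sa_cyc a b c, show sa c a b = sa a b c by simp only [sa]; ring]
  ext
  · simp only [Prod.fst_add, Prod.smul_fst, smul_eq_mul]
    field_simp
    simp only [sa]; ring
  · simp only [Prod.snd_add, Prod.smul_snd, smul_eq_mul]
    field_simp
    simp only [sa]; ring

theorem Trg_swap (a b c : ℝ × ℝ) : Trg c b a = Trg a b c := by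
  ext u
  simp only [Trg]
  rw [show (u ∈ {u | 0 ≤ cf c b a u ∧ 0 ≤ cf b a c u ∧ 0 ≤ cf a c b u}) =
    (0 ≤ cf c b a u ∧ 0 ≤ cf b a c u ∧ 0 ≤ cf a c b u) from rfl,
    show (u ∈ {u | 0 ≤ cf a b c u ∧ 0 ≤ cf b c a u ∧ 0 ≤ cf c a b u}) =
    (0 ≤ cf a b c u ∧ 0 ≤ cf b c a u ∧ 0 ≤ cf c a b u) from rfl,
    cf_swap c a b u, cf_swap b c a u, cf_swap a b c u]
  tauto

theorem mem_seg_of_cf {a b c u : ℝ × ℝ} (h : sa a b c ≠ 0) (h0 : cf c a b u = 0)
    (h1 : 0 ≤ cf a b c u) (h2 : 0 ≤ cf b c a u) : u ∈ segment ℝ a b := by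
  have hs := cf_sum h u
  have hr := cf_repr h u
  refine ⟨cf a b c u, cf b c a u, h1, h2, by linarith, ?_⟩
  rw [h0, zero_smul, add_zero] at hr
  exact hr.symm

theorem sa_ne_cyc {a b c : ℝ × ℝ} (h : sa a b c ≠ 0) : sa b c a ≠ 0 := by rwa [sa_cyc]

/-- **Exit lemma.** A convex set containing a point of the triangle `a b c` and a point `w` on the
inner side of the line `a c` but outside the triangle meets `[a,b] ∪ [b,c]`. -/
theorem exit_lemma {a b c : ℝ × ℝ} (h : sa a b c ≠ 0) {C : Set (ℝ × ℝ)} (hC : Convex ℝ C)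
    {z0 w : ℝ × ℝ} (hz0 : z0 ∈ C) (hz0T : z0 ∈ Trg a b c) (hw : w ∈ C) (hwf : 0 ≤ cf b c a w)
    (hwT : w ∉ Trg a b c) : ∃ u ∈ C, u ∈ segment ℝ a b ∪ segment ℝ b c := by
  obtain ⟨ha0, hf0, hc0⟩ := hz0T
  have hb : sa b c a ≠ 0 := sa_ne_cyc h
  have key : ∀ s : ℝ, 0 ≤ s → s ≤ 1 → (1 - s) • z0 + s • w ∈ C := fun s hs0 hs1 =>
    hC hz0 hw (by linarith) hs0 (by ring)
  have hcomb : ∀ (p q r : ℝ × ℝ) (s : ℝ), cf p q r ((1 - s) • z0 + s • w)
      = (1 - s) * cf p q r z0 + s * cf p q r w := fun p q r s => cf_combo p q r z0 w (by ring)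
  have hf : ∀ s : ℝ, 0 ≤ s → s ≤ 1 → 0 ≤ cf b c a ((1 - s) • z0 + s • w) := by
    intro s hs0 hs1
    rw [hcomb]
    have := mul_nonneg (by linarith : (0:ℝ) ≤ 1 - s) hf0
    have := mul_nonneg hs0 hwf
    linarith
  -- g = coordinate of c (vanishes on ab), k = coordinate of a (vanishes on bc)
  set g0 := cf c a b z0
  set k0 := cf a b c z0
  set g1 := cf c a b w with hg1
  set k1 := cf a b c w with hk1
  have caseG : g1 < 0 → (0 ≤ k1 ∨ g0 * (k0 - k1) ≤ k0 * (g0 - g1)) →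
      ∃ u ∈ C, u ∈ segment ℝ a b ∪ segment ℝ b c := by
    intro hgneg hor
    have hd : 0 < g0 - g1 := by linarith
    set s := g0 / (g0 - g1) with hs
    have hs0 : 0 ≤ s := div_nonneg hc0 hd.le
    have hs1 : s ≤ 1 := by rw [hs, div_le_one hd]; linarith
    have hsd : s * (g0 - g1) = g0 := by rw [hs]; field_simp
    refine ⟨_, key s hs0 hs1, Or.inl ?_⟩
    refine mem_seg_of_cf h ?_ ?_ (hf s hs0 hs1)
    · rw [hcomb]; change (1 - s) * g0 + s * g1 = 0; nlinarith
    · rw [hcomb]; change 0 ≤ (1 - s) * k0 + s * k1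
      rcases hor with h | h
      · have := mul_nonneg (by linarith : (0:ℝ) ≤ 1 - s) ha0
        have := mul_nonneg hs0 h
        linarith
      · have : (1 - s) * k0 + s * k1 = (k0 * (g0 - g1) - g0 * (k0 - k1)) / (g0 - g1) := by
          rw [hs]; field_simp; ring
        rw [this]; exact div_nonneg (by linarith) hd.le
  have caseH : k1 < 0 → (0 ≤ g1 ∨ k0 * (g0 - g1) ≤ g0 * (k0 - k1)) →
      ∃ u ∈ C, u ∈ segment ℝ a b ∪ segment ℝ b c := by
    intro hhneg hor
    have hd : 0 < k0 - k1 := by linarith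
    set s := k0 / (k0 - k1) with hs
    have hs0 : 0 ≤ s := div_nonneg ha0 hd.le
    have hs1 : s ≤ 1 := by rw [hs, div_le_one hd]; linarith
    have hsd : s * (k0 - k1) = k0 := by rw [hs]; field_simp
    refine ⟨_, key s hs0 hs1, Or.inr ?_⟩
    refine mem_seg_of_cf hb ?_ (hf s hs0 hs1) ?_
    · rw [hcomb]; change (1 - s) * k0 + s * k1 = 0; nlinarith
    · rw [hcomb]; change 0 ≤ (1 - s) * g0 + s * g1
      rcases hor with h | h
      · have := mul_nonneg (by linarith : (0:ℝ) ≤ 1 - s) hc0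
        have := mul_nonneg hs0 h
        linarith
      · have : (1 - s) * g0 + s * g1 = (g0 * (k0 - k1) - k0 * (g0 - g1)) / (k0 - k1) := by
          rw [hs]; field_simp; ring
        rw [this]; exact div_nonneg (by linarith) hd.le
  by_cases hg : g1 < 0
  · by_cases hh : k1 < 0
    · rcases le_total (g0 * (k0 - k1)) (k0 * (g0 - g1)) with h | h
      · exact caseG hg (Or.inr h)
      · exact caseH hh (Or.inr h)
    · exact caseG hg (Or.inl (not_lt.mp hh))
  · by_cases hh : k1 < 0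
    · exact caseH hh (Or.inl (not_lt.mp hg))
    · exact absurd ⟨not_lt.mp hh, hwf, not_lt.mp hg⟩ hwT

theorem cf_seg_zero {a b c u : ℝ × ℝ} (hu : u ∈ segment ℝ b c) : cf a b c u = 0 := by
  obtain ⟨s, t, hs, ht, hst, rfl⟩ := hu
  rw [cf_combo a b c b c hst, cf_right, cf_right']; ring

theorem seg_subset_Trg {a b c : ℝ × ℝ} (h : sa a b c ≠ 0) {u : ℝ × ℝ}
    (hu : u ∈ segment ℝ a b) : u ∈ Trg a b c := by
  have h3 : cf c a b u = 0 := cf_seg_zero hu
  obtain ⟨s, t, hs, ht, hst, rfl⟩ := hu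
  refine ⟨?_, ?_, h3.ge⟩
  · rw [cf_combo a b c a b hst, cf_self h, cf_right]; linarith
  · rw [cf_combo b c a a b hst, cf_right', cf_self (sa_ne_cyc h)]; linarith

theorem Trg_cyc (a b c : ℝ × ℝ) : Trg b c a = Trg a b c := by
  ext u
  rw [show (u ∈ Trg b c a) = (0 ≤ cf b c a u ∧ 0 ≤ cf c a b u ∧ 0 ≤ cf a b c u) from rfl,
    show (u ∈ Trg a b c) = (0 ≤ cf a b c u ∧ 0 ≤ cf b c a u ∧ 0 ≤ cf c a b u) from rfl]
  tauto

end Pool.Agent.IT
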