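import Pool.Agent.IT.Base
import Pool.Agent.IT.SweepGeo

/-!
# Sweeping lemma, elementary steps

`NM T S` is the number of triangles of `T` meeting the set `S`. (L0): if the closed triangle `a b c`
contains no lattice point then every cell meeting `[a,c]` meets `[a,b] ∪ [b,c]`. (L1): if it contains
exactly one lattice point `v`, the number of cells meeting `[a,c]` is controlled by the number of cells
meeting the two other sides and by the number of antipodes of rays of `v` in these cells.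
-/

set_option autoImplicit false
open Set

namespace Pool.Agent.IT

theorem cell_convex (t : Finset Pt) : Convex ℝ (cell t) := convex_convexHull ℝ _

/-- `t` meets `S` -/
def Meets (t : Finset Pt) (S : Set (ℝ × ℝ)) : Prop := (cell t ∩ S).Nonempty

theorem cf_convex_lt (a b c : ℝ × ℝ) (r : ℝ) : Convex ℝ {w | cf a b c w < r} := by
  intro u hu v hv s t hs ht hst
  change cf a b c u < r at hu
  change cf a b c v < r at hv
  change cf a b c (s • u + t • v) < r
  rw [cf_combo a b c u v hst]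
  have hc : s * r + t * r = r := by rw [← add_mul, hst, one_mul]
  rcases hs.eq_or_lt with h | h
  · have : t = 1 := by linarith
    subst this; rw [← h]; linarith
  · have h1 : s * cf a b c u < s * r := mul_lt_mul_of_pos_left hu h
    have h2 : t * cf a b c v ≤ t * r := mul_le_mul_of_nonneg_left hv.le ht
    linarith

theorem exists_vertex_ge {t : Finset Pt} {a b c z0 : ℝ × ℝ} {r : ℝ} (hz : z0 ∈ cell t)
    (h : r ≤ cf a b c z0) : ∃ p ∈ t, r ≤ cf a b c (emb p) := by
  by_contra hcon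
  push Not at hcon
  have hsub : cell t ⊆ {w | cf a b c w < r} := by
    apply convexHull_min _ (cf_convex_lt a b c r)
    rintro _ ⟨p, hp, rfl⟩
    exact hcon p hp
  have h2 : cf a b c z0 < r := hsub hz
  exact absurd h2 (not_lt.mpr h)

theorem seg_ac_subset {a b c u : ℝ × ℝ} (h : sa a b c ≠ 0) (hu : u ∈ segment ℝ a c) :
    u ∈ Trg a b c ∧ cf b c a u = 0 := by
  have hcab : sa c a b ≠ 0 := by rw [show sa c a b = sa a b c by simp only [sa]; ring]; exact h
  rw [segment_symm] at hu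
  have h1 := seg_subset_Trg hcab hu
  rw [show Trg c a b = Trg a b c by rw [Trg_cyc b c a, Trg_cyc a b c]] at h1
  exact ⟨h1, cf_seg_zero hu⟩

/-- A cell meeting the side `[a,c]` meets another side or has a vertex in the triangle. -/
theorem meets_or_vertex {a b c : ℝ × ℝ} (h : sa a b c ≠ 0) {t : Finset Pt}
    (hm : Meets t (segment ℝ a c)) :
    Meets t (segment ℝ a b ∪ segment ℝ b c) ∨
      ((∃ p ∈ t, 0 ≤ cf b c a (emb p)) ∧ ∀ p ∈ t, 0 ≤ cf b c a (emb p) → emb p ∈ Trg a b c) := by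
  obtain ⟨z0, hz0, hz0s⟩ := hm
  obtain ⟨hT, hz⟩ := seg_ac_subset h hz0s
  by_cases hm : Meets t (segment ℝ a b ∪ segment ℝ b c)
  · exact Or.inl hm
  · refine Or.inr ⟨exists_vertex_ge hz0 hz.ge, ?_⟩
    intro p hp hpf
    by_contra hnot
    obtain ⟨u, hu, hu'⟩ := exit_lemma h (cell_convex t) hz0 hT (emb_mem_cell hp) hpf hnot
    exact hm ⟨u, hu, hu'⟩

/-- (L0) -/
theorem meets_L0 {a b c : ℝ × ℝ} (h : sa a b c ≠ 0) (hlat : ∀ p : Pt, emb p ∉ Trg a b c)
    {t : Finset Pt} (hm : Meets t (segment ℝ a c)) :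
    Meets t (segment ℝ a b ∪ segment ℝ b c) := by
  rcases meets_or_vertex h hm with h | ⟨⟨p, hp, hpf⟩, hall⟩
  · exact h
  · exact absurd (hall p hp hpf) (hlat p)

/-- (L1), first half. -/
theorem meets_L1 {a b c : ℝ × ℝ} (h : sa a b c ≠ 0) {v : Pt}
    (hlat : ∀ p : Pt, emb p ∈ Trg a b c → p = v)
    {t : Finset Pt} (hm : Meets t (segment ℝ a c))
    (h' : ¬ Meets t (segment ℝ a b ∪ segment ℝ b c)) :
    v ∈ t ∧ ∀ p ∈ t, p ≠ v → cf b c a (emb p) < 0 := by
  rcases meets_or_vertex h hm with h | ⟨⟨p, hp, hpf⟩, hall⟩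
  · exact absurd h h'
  · have := hlat p (hall p hp hpf)
    refine ⟨this ▸ hp, fun q hq hqv => ?_⟩
    by_contra hnn
    exact hqv (hlat q (hall q hq (not_lt.mp hnn)))

/-- (L1), second half. -/
theorem meets_of_far {a b c : ℝ × ℝ} (h : sa a b c ≠ 0) {v : Pt}
    (hv : emb v ∈ Trg a b c) (hlat : ∀ p : Pt, emb p ∈ Trg a b c → p = v)
    {D : Finset Pt} (hvD : v ∈ D) {p : Pt} (hp : p ∈ D)
    (hfar : cf b c a (emb v) < cf b c a (emb p)) : Meets D (segment ℝ a b ∪ segment ℝ b c) := by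
  have hpv : p ≠ v := by
    rintro rfl; exact absurd hfar (lt_irrefl _)
  have hp0 : 0 ≤ cf b c a (emb p) := le_trans hv.2.1 hfar.le
  have hpT : emb p ∉ Trg a b c := fun h => hpv (hlat p h)
  obtain ⟨u, hu, hu'⟩ := exit_lemma h (cell_convex D) (emb_mem_cell hvD) hv
    (emb_mem_cell hp) hp0 hpT
  exact ⟨u, hu, hu'⟩

theorem Meets.mono {t : Finset Pt} {S S' : Set (ℝ × ℝ)} (h : Meets t S) (hS : S ⊆ S') :
    Meets t S' := Set.Nonempty.mono (inter_subset_inter_right _ hS) h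

theorem meets_union {t : Finset Pt} {S S' : Set (ℝ × ℝ)} :
    Meets t (S ∪ S') ↔ Meets t S ∨ Meets t S' := by
  unfold Meets; rw [inter_union_distrib_left, union_nonempty]

open Classical in
/-- the members of `T` meeting `S` -/
noncomputable def FM (T : Finset (Finset Pt)) (S : Set (ℝ × ℝ)) : Finset (Finset Pt) :=
  T.filter fun t => Meets t S

theorem mem_FM {T : Finset (Finset Pt)} {S : Set (ℝ × ℝ)} {t : Finset Pt} :
    t ∈ FM T S ↔ t ∈ T ∧ Meets t S := by
  classical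
  unfold FM; rw [Finset.mem_filter]

/-- number of members of `T` meeting `S` -/
noncomputable def NM (T : Finset (Finset Pt)) (S : Set (ℝ × ℝ)) : ℕ := (FM T S).card

theorem FM_mono (T : Finset (Finset Pt)) {S S' : Set (ℝ × ℝ)} (hS : S ⊆ S') :
    FM T S ⊆ FM T S' := fun t ht => by
  rw [mem_FM] at *; exact ⟨ht.1, ht.2.mono hS⟩

theorem NM_mono (T : Finset (Finset Pt)) {S S' : Set (ℝ × ℝ)} (hS : S ⊆ S') :
    NM T S ≤ NM T S' := Finset.card_le_card (FM_mono T hS)

theorem NM_union (T : Finset (Finset Pt)) (S S' : Set (ℝ × ℝ)) :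
    NM T (S ∪ S') ≤ NM T S + NM T S' := by
  unfold NM
  refine le_trans (Finset.card_le_card ?_) (Finset.card_union_le _ _)
  intro t ht
  rw [mem_FM, meets_union] at ht
  rw [Finset.mem_union, mem_FM, mem_FM]
  tauto

theorem NM_L0 {a b c : ℝ × ℝ} (h : sa a b c ≠ 0) (hlat : ∀ p : Pt, emb p ∉ Trg a b c)
    (T : Finset (Finset Pt)) :
    NM T (segment ℝ a c) ≤ NM T (segment ℝ a b ∪ segment ℝ b c) :=
  Finset.card_le_card (fun t ht => by
    rw [mem_FM] at *; exact ⟨ht.1, meets_L0 h hlat ht.2⟩)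

open Classical in
/-- neighbours of `v` (ends of the rays at `v`) -/
noncomputable def nbrs (T : Finset (Finset Pt)) (v : Pt) : Finset Pt :=
  (T.filter fun t => v ∈ t).biUnion fun t => t.erase v

theorem mem_nbrs {T : Finset (Finset Pt)} {v p : Pt} :
    p ∈ nbrs T v ↔ ∃ t ∈ T, v ∈ t ∧ p ∈ t ∧ p ≠ v := by
  classical
  unfold nbrs
  simp only [Finset.mem_biUnion, Finset.mem_filter, Finset.mem_erase]
  constructor
  · rintro ⟨t, ⟨h1, h2⟩, h3, h4⟩; exact ⟨t, h1, h2, h4, h3⟩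
  · rintro ⟨t, h1, h2, h3, h4⟩; exact ⟨t, ⟨h1, h2⟩, h4, h3⟩

open Classical in
/-- ends `p` of the rays at `v` whose antipode lies in the closed cone of `D` at `v` -/
noncomputable def anti (T : Finset (Finset Pt)) (D : Finset Pt) (v : Pt) : Finset Pt :=
  (nbrs T v).filter fun p => ∃ q r, D = {v, q, r} ∧ det v q r = 1 ∧
    0 ≤ crs (q.1 - v.1, q.2 - v.2) (v.1 - p.1, v.2 - p.2) ∧
    0 ≤ crs (v.1 - p.1, v.2 - p.2) (r.1 - v.1, r.2 - v.2)

theorem cf_emb_cone {a b c : ℝ × ℝ} {v q r p : Pt} (hd : det v q r = 1)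
    (h1 : 0 ≤ crs (q.1 - v.1, q.2 - v.2) (v.1 - p.1, v.2 - p.2))
    (h2 : 0 ≤ crs (v.1 - p.1, v.2 - p.2) (r.1 - v.1, r.2 - v.2))
    (hp : cf a b c (emb p) < cf a b c (emb v)) :
    cf a b c (emb v) < cf a b c (emb q) ∨ cf a b c (emb v) < cf a b c (emb r) := by
  -- v - p = α (q - v) + β (r - v)
  set α : ℤ := crs (v.1 - p.1, v.2 - p.2) (r.1 - v.1, r.2 - v.2) with hα
  set β : ℤ := crs (q.1 - v.1, q.2 - v.2) (v.1 - p.1, v.2 - p.2) with hβ
  have e1 : v.1 - p.1 = α * (q.1 - v.1) + β * (r.1 - v.1) := by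
    simp only [hα, hβ, crs, det] at *
    linear_combination (-(v.1 - p.1)) * hd
  have e2 : v.2 - p.2 = α * (q.2 - v.2) + β * (r.2 - v.2) := by
    simp only [hα, hβ, crs, det] at *
    linear_combination (-(v.2 - p.2)) * hd
  have f1 : (v.1:ℝ) - p.1 = α * (q.1 - v.1) + β * (r.1 - v.1) := by exact_mod_cast e1
  have f2 : (v.2:ℝ) - p.2 = α * (q.2 - v.2) + β * (r.2 - v.2) := by exact_mod_cast e2
  have g : cf a b c (emb v) - cf a b c (emb p) =
      α * (cf a b c (emb q) - cf a b c (emb v)) + β * (cf a b c (emb r) - cf a b c (emb v)) := by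
    simp only [cf, ← sub_div, ← mul_div_assoc, ← add_div]
    congr 1
    simp only [sa, emb]
    linear_combination (c.1 - b.1) * f2 - (c.2 - b.2) * f1
  by_contra hcon
  push Not at hcon
  have hα0 : (0:ℝ) ≤ α := by exact_mod_cast h2
  have hβ0 : (0:ℝ) ≤ β := by exact_mod_cast h1
  have k1 : (α:ℝ) * (cf a b c (emb q) - cf a b c (emb v)) ≤ 0 :=
    mul_nonpos_of_nonneg_of_nonpos hα0 (by linarith [hcon.1])
  have k2 : (β:ℝ) * (cf a b c (emb r) - cf a b c (emb v)) ≤ 0 :=
    mul_nonpos_of_nonneg_of_nonpos hβ0 (by linarith [hcon.2])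
  linarith

end Pool.Agent.IT
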