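import Pool.Agent.IT.SweepL

set_option autoImplicit false
open Set Filter Topology

namespace Pool.Agent.IT

variable {n : ℕ} {T : Finset (Finset Pt)}

theorem UT.card_three (hT : UT n T) {t : Finset Pt} (ht : t ∈ T) : t.card = 3 := by
  obtain ⟨a, b, c, rfl, h⟩ := hT.exists_pos ht
  rw [Finset.card_eq_three]
  exact ⟨a, b, c, h.ne, h.ne', h.cyc.ne, rfl⟩

/-- A triangle of `T` with two given vertices. -/
theorem UT.pos_of_mem (hT : UT n T) {t : Finset Pt} (ht : t ∈ T) {v p : Pt} (hv : v ∈ t) (hp : p ∈ t)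
    (hvp : p ≠ v) : ∃ r, (Pos T v p r ∨ Pos T p v r) ∧ t = {v, p, r} := by
  obtain ⟨a, b, c, rfl, h⟩ := hT.exists_pos ht
  simp only [Finset.mem_insert, Finset.mem_singleton] at hv hp
  have key : ∀ x y z : Pt, Pos T x y z → ({a, b, c} : Finset Pt) = {x, y, z} →
      ∀ u w : Pt, (u = x ∧ w = y) ∨ (u = y ∧ w = x) →
      ∃ r, (Pos T u w r ∨ Pos T w u r) ∧ ({a, b, c} : Finset Pt) = {u, w, r} := by
    intro x y z hpos he u w huw
    rcases huw with ⟨rfl, rfl⟩ | ⟨rfl, rfl⟩
    · exact ⟨z, Or.inl hpos, he⟩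
    · refine ⟨z, Or.inr hpos, ?_⟩
      rw [he]; ext s; simp only [Finset.mem_insert, Finset.mem_singleton]; tauto
  have e1 : ({a, b, c} : Finset Pt) = {b, c, a} := by
    ext s; simp only [Finset.mem_insert, Finset.mem_singleton]; tauto
  have e2 : ({a, b, c} : Finset Pt) = {c, a, b} := by
    ext s; simp only [Finset.mem_insert, Finset.mem_singleton]; tauto
  rcases hv with rfl | rfl | rfl <;> rcases hp with rfl | rfl | rfl
  · exact absurd rfl hvp
  · exact key _ _ _ h rfl _ _ (Or.inl ⟨rfl, rfl⟩)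
  · exact key _ _ _ h.cyc' e2 _ _ (Or.inr ⟨rfl, rfl⟩)
  · exact key _ _ _ h rfl _ _ (Or.inr ⟨rfl, rfl⟩)
  · exact absurd rfl hvp
  · exact key _ _ _ h.cyc e1 _ _ (Or.inl ⟨rfl, rfl⟩)
  · exact key _ _ _ h.cyc' e2 _ _ (Or.inl ⟨rfl, rfl⟩)
  · exact key _ _ _ h.cyc e1 _ _ (Or.inr ⟨rfl, rfl⟩)
  · exact absurd rfl hvp

theorem UT.card_edge_le (hT : UT n T) {v p : Pt} (hvp : p ≠ v) :
    (T.filter fun t => v ∈ t ∧ p ∈ t).card ≤ 2 := by
  classical
  -- all such triangles are {v,p,r} with r one of at most two points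
  have hsub : ∃ r s : Pt, (T.filter fun t => v ∈ t ∧ p ∈ t) ⊆ {({v, p, r} : Finset Pt), {v, p, s}} := by
    by_cases h1 : ∃ r, Pos T v p r
    · obtain ⟨r, hr⟩ := h1
      by_cases h2 : ∃ s, Pos T p v s
      · obtain ⟨s, hs⟩ := h2
        refine ⟨r, s, fun t ht => ?_⟩
        rw [Finset.mem_filter] at ht
        obtain ⟨q, hq, rfl⟩ := hT.pos_of_mem ht.1 ht.2.1 ht.2.2 hvp
        rcases hq with hq | hq
        · rw [hr.unique hT hq]; simp
        · rw [hs.unique hT hq]; simp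
      · refine ⟨r, r, fun t ht => ?_⟩
        rw [Finset.mem_filter] at ht
        obtain ⟨q, hq, rfl⟩ := hT.pos_of_mem ht.1 ht.2.1 ht.2.2 hvp
        rcases hq with hq | hq
        · rw [hr.unique hT hq]; simp
        · exact absurd ⟨q, hq⟩ h2
    · by_cases h2 : ∃ s, Pos T p v s
      · obtain ⟨s, hs⟩ := h2
        refine ⟨s, s, fun t ht => ?_⟩
        rw [Finset.mem_filter] at ht
        obtain ⟨q, hq, rfl⟩ := hT.pos_of_mem ht.1 ht.2.1 ht.2.2 hvp
        rcases hq with hq | hq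
        · exact absurd ⟨q, hq⟩ h1
        · rw [hs.unique hT hq]; simp
      · refine ⟨p, p, fun t ht => ?_⟩
        rw [Finset.mem_filter] at ht
        obtain ⟨q, hq, rfl⟩ := hT.pos_of_mem ht.1 ht.2.1 ht.2.2 hvp
        rcases hq with hq | hq
        · exact absurd ⟨q, hq⟩ h1
        · exact absurd ⟨q, hq⟩ h2
  obtain ⟨r, s, h⟩ := hsub
  exact le_trans (Finset.card_le_card h) Finset.card_le_two

/-- strictly inside the square -/
def InSqo (n : ℕ) (p : Pt) : Prop := 0 < p.1 ∧ p.1 < (n : ℤ) ∧ 0 < p.2 ∧ p.2 < (n : ℤ)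

/-- The star of an interior lattice point is complete. -/
theorem UT.exists_cone_int (hT : UT n T) {v : Pt} (hv : InSqo n v) (w : Pt) :
    ∃ q r, Pos T v q r ∧ 0 ≤ crs (q.1 - v.1, q.2 - v.2) w ∧ 0 ≤ crs w (r.1 - v.1, r.2 - v.2) := by
  apply hT.exists_cone
  obtain ⟨h1, h2, h3, h4⟩ := hv
  have h1' : (0:ℝ) < v.1 := by exact_mod_cast h1
  have h2' : (v.1:ℝ) < n := by exact_mod_cast h2
  have h3' : (0:ℝ) < v.2 := by exact_mod_cast h3
  have h4' : (v.2:ℝ) < n := by exact_mod_cast h4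
  filter_upwards [ev_pos (A := (v.1:ℝ)) (B := w.1) (Or.inl h1'),
    ev_pos (A := n - (v.1:ℝ)) (B := -w.1) (Or.inl (by linarith)),
    ev_pos (A := (v.2:ℝ)) (B := w.2) (Or.inl h3'),
    ev_pos (A := n - (v.2:ℝ)) (B := -w.2) (Or.inl (by linarith))] with ε g1 g2 g3 g4
  rw [mem_Sq]
  simp only [emb, Prod.fst_add, Prod.snd_add, Prod.smul_fst, Prod.smul_snd, smul_eq_mul]
  refine ⟨by linarith, by linarith, by linarith, by linarith⟩

/-- (L1), counted. -/
theorem UT.NM_L1 (hT : UT n T) {a b c : ℝ × ℝ} (h : sa a b c ≠ 0) {v : Pt} (hvin : InSqo n v)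
    (hv : emb v ∈ Trg a b c) (hlat : ∀ p : Pt, emb p ∈ Trg a b c → p = v)
    {K : ℕ} (hK : ∀ D ∈ T, v ∈ D → Meets D (segment ℝ a b ∪ segment ℝ b c) →
      (anti T D v).card ≤ K) :
    NM T (segment ℝ a c) ≤ (K + 1) * NM T (segment ℝ a b ∪ segment ℝ b c) := by
  classical
  set S1 := segment ℝ a b ∪ segment ℝ b c with hS1
  set New := T.filter (fun t => Meets t (segment ℝ a c) ∧ ¬ Meets t S1) with hNew
  have hnew : ∀ t ∈ New, v ∈ t ∧ ∀ p ∈ t, p ≠ v → cf b c a (emb p) < 0 := by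
    intro t ht
    rw [hNew, Finset.mem_filter] at ht
    exact meets_L1 h hlat ht.2.1 ht.2.2
  have h1 : NM T (segment ℝ a c) ≤ NM T S1 + New.card := by
    unfold NM
    refine le_trans (Finset.card_le_card ?_) (Finset.card_union_le _ _)
    intro t ht
    rw [mem_FM] at ht
    rw [Finset.mem_union, mem_FM, hNew, Finset.mem_filter]
    by_cases hm : Meets t S1
    · exact Or.inl ⟨ht.1, hm⟩
    · exact Or.inr ⟨ht.1, ht.2, hm⟩
  -- the set of outer vertices of new triangles
  set P := New.biUnion (fun t => t.erase v) with hP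
  have hPn : ∀ p ∈ P, p ∈ nbrs T v ∧ p ≠ v ∧ cf b c a (emb p) < 0 := by
    intro p hp
    rw [hP, Finset.mem_biUnion] at hp
    obtain ⟨t, ht, hpt⟩ := hp
    rw [Finset.mem_erase] at hpt
    have htT : t ∈ T := (Finset.mem_filter.mp ht).1
    exact ⟨mem_nbrs.mpr ⟨t, htT, (hnew t ht).1, hpt.2, hpt.1⟩, hpt.1, (hnew t ht).2 p hpt.2 hpt.1⟩
  -- double counting pairs (t, p)
  have h2 : 2 * New.card ≤ 2 * P.card := by
    have e1 : ∑ t ∈ New, (t.erase v).card = 2 * New.card := by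
      rw [Finset.sum_congr rfl (g := fun _ => 2)]
      · simp [mul_comm]
      · intro t ht
        rw [Finset.card_erase_of_mem (hnew t ht).1, hT.card_three (Finset.mem_filter.mp ht).1]
    have e2 : ∑ t ∈ New, (t.erase v).card = ∑ p ∈ P, (New.filter fun t => p ∈ t.erase v).card := by
      have e3 := Finset.sum_card_bipartiteAbove_eq_sum_card_bipartiteBelow
        (fun (t : Finset Pt) (p : Pt) => p ∈ t.erase v) (s := New) (t := P)
      simp only [Finset.bipartiteBelow] at e3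
      rw [← e3]
      apply Finset.sum_congr rfl
      intro t ht
      congr 1
      ext p
      simp only [Finset.bipartiteAbove, Finset.mem_filter, hP, Finset.mem_biUnion]
      constructor
      · intro hp; exact ⟨⟨t, ht, hp⟩, hp⟩
      · exact fun h => h.2
    rw [← e1, e2, mul_comm, ← smul_eq_mul]
    apply Finset.sum_le_card_nsmul
    intro p hp
    refine le_trans (Finset.card_le_card ?_) (hT.card_edge_le (hPn p hp).2.1)
    intro t ht
    rw [Finset.mem_filter] at ht ⊢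
    exact ⟨(Finset.mem_filter.mp ht.1).1, (hnew t ht.1).1, (Finset.mem_erase.mp ht.2).2⟩
  have h3 : P.card ≤ K * NM T S1 := by
    have hsub : P ⊆ ((FM T S1).filter fun D => v ∈ D).biUnion (fun D => anti T D v) := by
      intro p hp
      obtain ⟨hpn, hpv, hneg⟩ := hPn p hp
      obtain ⟨q, r, hpos, c1, c2⟩ := hT.exists_cone_int hvin (v.1 - p.1, v.2 - p.2)
      have hv0 : 0 ≤ cf b c a (emb v) := hv.2.1
      have hvD : v ∈ ({v, q, r} : Finset Pt) := by simp
      have hm : Meets ({v, q, r} : Finset Pt) S1 := by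
        rcases cf_emb_cone hpos.2 c1 c2 (lt_of_lt_of_le hneg hv0) with hfar | hfar
        · exact meets_of_far h hv hlat hvD (by simp) hfar
        · exact meets_of_far h hv hlat hvD (by simp) hfar
      rw [Finset.mem_biUnion]
      refine ⟨{v, q, r}, ?_, ?_⟩
      · rw [Finset.mem_filter, mem_FM]
        exact ⟨⟨hpos.1, hm⟩, hvD⟩
      · unfold anti
        rw [Finset.mem_filter]
        exact ⟨hpn, q, r, rfl, hpos.2, c1, c2⟩
    refine le_trans (Finset.card_le_card hsub) (le_trans Finset.card_biUnion_le ?_)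
    have : ∑ D ∈ (FM T S1).filter (fun D => v ∈ D), (anti T D v).card ≤
        ∑ _D ∈ (FM T S1).filter (fun D => v ∈ D), K := by
      apply Finset.sum_le_sum
      intro D hD
      rw [Finset.mem_filter, mem_FM] at hD
      exact hK D hD.1.1 hD.2 hD.1.2
    refine this.trans ?_
    rw [Finset.sum_const, smul_eq_mul, mul_comm]
    exact Nat.mul_le_mul_left _ (Finset.card_le_card (Finset.filter_subset _ _))
  calc NM T (segment ℝ a c) ≤ NM T S1 + New.card := h1
    _ ≤ NM T S1 + P.card := by omega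
    _ ≤ NM T S1 + K * NM T S1 := by omega
    _ = (K + 1) * NM T S1 := by ring

end Pool.Agent.IT
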