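import Pool.Agent.IT.SweepE

set_option autoImplicit false
open Set Filter Topology

namespace Pool.Agent.IT

variable {n : ℕ} {T : Finset (Finset Pt)}

open Classical in
/-- the triangles of `T` at dual distance at most `ρ` from `t0` -/
noncomputable def dball (T : Finset (Finset Pt)) (t0 : Finset Pt) : ℕ → Finset (Finset Pt)
  | 0 => {t0}
  | ρ + 1 => dball T t0 ρ ∪ T.filter fun t => ∃ s ∈ dball T t0 ρ, Nb T s t

theorem dball_zero (t0 : Finset Pt) : dball T t0 0 = {t0} := rfl

theorem mem_dball_succ {t0 t : Finset Pt} {ρ : ℕ} :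
    t ∈ dball T t0 (ρ + 1) ↔ t ∈ dball T t0 ρ ∨ ∃ s ∈ dball T t0 ρ, Nb T s t := by
  classical
  rw [dball, Finset.mem_union, Finset.mem_filter]
  constructor
  · rintro (h | ⟨_, h⟩)
    · exact Or.inl h
    · exact Or.inr h
  · rintro (h | ⟨s, hs, h⟩)
    · exact Or.inl h
    · exact Or.inr ⟨h.mem_right, s, hs, h⟩

theorem dball_mono {t0 : Finset Pt} {ρ σ : ℕ} (h : ρ ≤ σ) : dball T t0 ρ ⊆ dball T t0 σ := by
  induction h with
  | refl => exact subset_rfl
  | step _ ih => exact fun t ht => mem_dball_succ.mpr (Or.inl (ih ht))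

theorem mem_dball_self (t0 : Finset Pt) (ρ : ℕ) : t0 ∈ dball T t0 ρ :=
  dball_mono (Nat.zero_le ρ) (by simp [dball_zero])

theorem dball_subset {t0 : Finset Pt} (h0 : t0 ∈ T) (ρ : ℕ) : dball T t0 ρ ⊆ T := by
  induction ρ with
  | zero => rw [dball_zero]; simpa using h0
  | succ ρ ih =>
    intro t ht
    rcases mem_dball_succ.mp ht with h | ⟨s, _, h⟩
    · exact ih h
    · exact h.mem_right

theorem dball_add {t0 t1 t2 : Finset Pt} {ρ σ : ℕ} (h1 : t1 ∈ dball T t0 ρ)
    (h2 : t2 ∈ dball T t1 σ) : t2 ∈ dball T t0 (ρ + σ) := by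
  induction σ generalizing t2 with
  | zero => rw [dball_zero, Finset.mem_singleton] at h2; rw [h2]; exact h1
  | succ σ ih =>
    rcases mem_dball_succ.mp h2 with h | ⟨s, hs, h⟩
    · exact dball_mono (by omega) (ih h)
    · exact mem_dball_succ.mpr (Or.inr ⟨s, ih hs, h⟩)

/-- A connected family of triangles lies in a dual ball whose radius is its cardinality. -/
theorem subset_dball_of_connected {F : Finset (Finset Pt)} {t0 : Finset Pt} (h0 : t0 ∈ F)
    (hc : ∀ A ⊆ F, t0 ∈ A → A ≠ F → ∃ s ∈ A, ∃ t ∈ F, t ∉ A ∧ Nb T s t) :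
    F ⊆ dball T t0 F.card := by
  classical
  have key : ∀ ρ : ℕ, F ⊆ dball T t0 ρ ∨ ρ + 1 ≤ (F.filter fun t => t ∈ dball T t0 ρ).card := by
    intro ρ
    induction ρ with
    | zero =>
      right
      apply Finset.card_pos.mpr
      exact ⟨t0, Finset.mem_filter.mpr ⟨h0, mem_dball_self t0 0⟩⟩
    | succ ρ ih =>
      rcases ih with ih | ih
      · left; exact ih.trans (dball_mono (Nat.le_succ ρ))
      · set G := F.filter (fun t => t ∈ dball T t0 ρ) with hG
        by_cases hall : G = F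
        · left
          intro t ht
          rw [← hall, hG, Finset.mem_filter] at ht
          exact dball_mono (Nat.le_succ ρ) ht.2
        · right
          obtain ⟨s, hs, t, ht, htA, hst⟩ := hc G (Finset.filter_subset _ _)
            (Finset.mem_filter.mpr ⟨h0, mem_dball_self t0 ρ⟩) hall
          have hsub : insert t G ⊆ (F.filter fun t => t ∈ dball T t0 (ρ + 1)) := by
            intro u hu
            rw [Finset.mem_insert] at hu
            rcases hu with rfl | hu
            · exact Finset.mem_filter.mpr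
                ⟨ht, mem_dball_succ.mpr (Or.inr ⟨s, (Finset.mem_filter.mp hs).2, hst⟩)⟩
            · rw [hG, Finset.mem_filter] at hu
              exact Finset.mem_filter.mpr ⟨hu.1, dball_mono (Nat.le_succ ρ) hu.2⟩
          have := Finset.card_le_card hsub
          rw [Finset.card_insert_of_notMem htA] at this
          omega
  rcases key F.card with h | h
  · exact h
  · have := Finset.card_le_card (Finset.filter_subset (fun t => t ∈ dball T t0 F.card) F)
    omega

/-- **Segment lemma.** The triangles meeting a preconnected subset of the square without lattice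
points lie in a dual ball around each of them. -/
theorem UT.FM_subset_dball (hT : UT n T) {S : Set (ℝ × ℝ)} (hS : IsPreconnected S) (hSq : S ⊆ Sq n)
    (hlat : ∀ p : Pt, emb p ∉ S) {t0 : Finset Pt} (h0 : t0 ∈ FM T S) :
    FM T S ⊆ dball T t0 (NM T S) := by
  classical
  apply subset_dball_of_connected h0
  intro A hA h0A hne
  -- the two closed sets
  set U := ⋃ t ∈ A, cell t with hU
  set V := ⋃ t ∈ (FM T S) \ A, cell t with hV
  have hcl : ∀ t ∈ T, IsClosed (cell t) := by
    intro t ht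
    obtain ⟨a, b, c, rfl, h⟩ := hT.exists_pos ht
    exact isClosed_cell h.2
  have hUc : IsClosed U := isClosed_biUnion_finset (fun t ht => hcl t (mem_FM.mp (hA ht)).1)
  have hVc : IsClosed V := isClosed_biUnion_finset
    (fun t ht => hcl t (mem_FM.mp (Finset.mem_sdiff.mp ht).1).1)
  have hcov : S ⊆ U ∪ V := by
    intro x hx
    obtain ⟨t, ht, hxt⟩ := hT.exists_cell (hSq hx)
    have htF : t ∈ FM T S := mem_FM.mpr ⟨ht, x, hxt, hx⟩
    by_cases htA : t ∈ A
    · left; exact mem_biUnion htA hxt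
    · right; exact mem_biUnion (s := (↑((FM T S) \ A) : Set (Finset Pt)))
        (by exact_mod_cast Finset.mem_sdiff.mpr ⟨htF, htA⟩) hxt
  have hUne : (S ∩ U).Nonempty := by
    obtain ⟨x, hx1, hx2⟩ := (mem_FM.mp (hA h0A)).2
    exact ⟨x, hx2, mem_biUnion h0A hx1⟩
  have hVne : (S ∩ V).Nonempty := by
    have : ∃ t ∈ FM T S, t ∉ A := by
      by_contra hcon
      push Not at hcon
      exact hne (Finset.Subset.antisymm hA hcon)
    obtain ⟨t, ht, htA⟩ := this
    obtain ⟨x, hx1, hx2⟩ := (mem_FM.mp ht).2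
    exact ⟨x, hx2, mem_biUnion (s := (↑((FM T S) \ A) : Set (Finset Pt)))
        (by exact_mod_cast Finset.mem_sdiff.mpr ⟨ht, htA⟩) hx1⟩
  obtain ⟨x, hxS, hxU, hxV⟩ := (isPreconnected_closed_iff.mp hS) U V hUc hVc hcov hUne hVne
  rw [hU, mem_iUnion₂] at hxU
  rw [hV, mem_iUnion₂] at hxV
  obtain ⟨s, hs, hxs⟩ := hxU
  obtain ⟨t, ht, hxt⟩ := hxV
  rw [Finset.mem_sdiff] at ht
  refine ⟨s, hs, t, ht.1, ht.2, ?_⟩
  apply hT.edge_to_edge (mem_FM.mp (hA hs)).1 (mem_FM.mp ht.1).1 _ hxs hxt
  · intro p hp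
    exact hlat p (hp ▸ hxS)
  · rintro rfl; exact ht.2 hs

end Pool.Agent.IT
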