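import Pool.Agent.IT.InsPatt

/-!
# Switching: regular triangulations with many fat frames are rare
-/

set_option autoImplicit false

namespace Pool.Agent.IT

open Ins (flipT Cross pair_cases)

variable {n : ℕ} {T : Finset (Finset Pt)}

/-- the lattice points of the square -/
noncomputable def sqBox (n : ℕ) : Finset Pt := Finset.Icc (0 : ℤ) n ×ˢ Finset.Icc (0 : ℤ) n

theorem mem_sqBox {p : Pt} : p ∈ sqBox n ↔ InSq n p := by
  simp only [sqBox, Finset.mem_product, Finset.mem_Icc, InSq]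
  tauto

theorem UT.mem_pow (hT : UT n T) : T ∈ (sqBox n).powerset.powerset := by
  rw [Finset.mem_powerset]
  intro t ht
  rw [Finset.mem_powerset]
  intro p hp
  rw [mem_sqBox]
  exact hT.insq ht hp

open Classical in
/-- all unimodular triangulations as a finset -/
noncomputable def utSet (n : ℕ) : Finset (Finset (Finset Pt)) :=
  (sqBox n).powerset.powerset.filter (UT n)

theorem mem_utSet : T ∈ utSet n ↔ UT n T := by
  classical
  simp only [utSet, Finset.mem_filter]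
  exact ⟨fun h => h.2, fun h => ⟨h.mem_pow, h⟩⟩

theorem coe_utSet : (utSet n : Set (Finset (Finset Pt))) = {T | UT n T} := by
  ext T
  simp only [Finset.mem_coe, mem_utSet, Set.mem_ofPred_eq]

/-- a finite set containing all frames in the square -/
noncomputable def frBox (n : ℕ) : Finset (Pt × Pt × Pt) :=
  (Finset.Icc (-(n:ℤ)) n ×ˢ Finset.Icc (-(n:ℤ)) n) ×ˢ
    ((Finset.Icc (-(n:ℤ)) n ×ˢ Finset.Icc (-(n:ℤ)) n) ×ˢ
      (Finset.Icc (-(n:ℤ)) n ×ˢ Finset.Icc (-(n:ℤ)) n))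

theorem mem_frBox {g : Pt × Pt × Pt} (hg : IsFrame n g) : g ∈ frBox n := by
  obtain ⟨h0, ⟨a1, a2, a3, a4⟩, ⟨b1, b2, b3, b4⟩, ⟨c1, c2, c3, c4⟩⟩ := hg
  simp only [fr] at a1 a2 a3 a4 b1 b2 b3 b4 c1 c2 c3 c4
  simp only [frBox, Finset.mem_product, Finset.mem_Icc]
  refine ⟨⟨⟨?_, ?_⟩, ?_, ?_⟩, ⟨⟨?_, ?_⟩, ?_, ?_⟩, ⟨?_, ?_⟩, ?_, ?_⟩ <;> linarith

/-- a frame is determined by its values at the vertices of a unimodular triangle -/
theorem fr_inj {g g' : Pt × Pt × Pt} {a b c : Pt} (hd : det a b c = 1)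
    (ha : fr g a = fr g' a) (hb : fr g b = fr g' b) (hc : fr g c = fr g' c) : g = g' := by
  obtain ⟨⟨o1, o2⟩, ⟨u1, u2⟩, v1, v2⟩ := g
  obtain ⟨⟨o1', o2'⟩, ⟨u1', u2'⟩, v1', v2'⟩ := g'
  simp only [fr, Prod.mk.injEq] at ha hb hc
  simp only [det] at hd
  obtain ⟨ha1, ha2⟩ := ha
  obtain ⟨hb1, hb2⟩ := hb
  obtain ⟨hc1, hc2⟩ := hc
  have hu1 : u1 = u1' := by
    linear_combination (u1' - u1) * hd + (c.2 - a.2) * (hb1 - ha1) - (b.2 - a.2) * (hc1 - ha1)
  have hu2 : u2 = u2' := by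
    linear_combination (u2' - u2) * hd + (c.2 - a.2) * (hb2 - ha2) - (b.2 - a.2) * (hc2 - ha2)
  have hv1 : v1 = v1' := by
    linear_combination (v1' - v1) * hd - (c.1 - a.1) * (hb1 - ha1) + (b.1 - a.1) * (hc1 - ha1)
  have hv2 : v2 = v2' := by
    linear_combination (v2' - v2) * hd - (c.1 - a.1) * (hb2 - ha2) + (b.1 - a.1) * (hc2 - ha2)
  subst hu1 hu2 hv1 hv2
  have ho1 : o1 = o1' := by linarith
  have ho2 : o2 = o2' := by linarith
  subst ho1 ho2
  rfl

/-- the size of the set of codes -/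
def swF (a : ℕ) : ℕ := 2 ^ a * (2 ^ 2 ^ (3 * a) * ((3 * a) * ((3 * a) * (3 * a))))

/-- the constant of the switching argument -/
def swC (m : ℕ) : ℕ := swF (18 * 6 ^ m)

theorem sw_bound {u w a : ℕ} (hu : u ≤ a) (hw : w ≤ 3 * a) :
    2 ^ u * (2 ^ 2 ^ w * (w * (w * w))) ≤ swF a := by
  have h1 : 2 ^ u ≤ 2 ^ a := Nat.pow_le_pow_right (by norm_num) hu
  have h2 : 2 ^ w ≤ 2 ^ (3 * a) := Nat.pow_le_pow_right (by norm_num) hw
  have h3 : 2 ^ 2 ^ w ≤ 2 ^ 2 ^ (3 * a) := Nat.pow_le_pow_right (by norm_num) h2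
  exact Nat.mul_le_mul h1 (Nat.mul_le_mul h3 (Nat.mul_le_mul hw (Nat.mul_le_mul hw hw)))

theorem card_verts (hT : UT n T) {U : Finset (Finset Pt)} (hU : U ⊆ T) :
    (U.biUnion id).card ≤ 3 * U.card := by
  calc (U.biUnion id).card ≤ ∑ t ∈ U, (id t).card := Finset.card_biUnion_le
    _ ≤ ∑ t ∈ U, 3 := by
        apply Finset.sum_le_sum
        intro t ht
        obtain ⟨p, q, r, rfl, _⟩ := hT.exists_pos (hU ht)
        exact Finset.card_le_three
    _ = 3 * U.card := by rw [Finset.sum_const, smul_eq_mul, mul_comm]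

/-- the triangulation after insertion of the pattern, and its patch -/
theorem exists_insert' (n : ℕ) (T : Finset (Finset Pt)) (g : Pt × Pt × Pt) :
    ∃ R : Finset (Finset Pt) × Finset (Finset Pt), UT n T → IsFrame n g →
      UT n R.1 ∧ (∀ t ∈ patt, Pos R.1 (fr g t.1) (fr g t.2.1) (fr g t.2.2)) ∧
      R.2 ⊆ R.1 ∧ R.1 \ R.2 = T \ meetSet T g ∧ R.2.card ≤ (meetSet T g).card ∧ Conn R.2 ∧
        (∀ t ∈ patt, ({fr g t.1, fr g t.2.1, fr g t.2.2} : Finset Pt) ∈ R.2) ∧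
        R.2.biUnion id = (meetSet T g).biUnion id := by
  by_cases h : UT n T ∧ IsFrame n g
  · obtain ⟨T', h1, h2, S', h3, h4, h5, h6, h7, h8⟩ := exists_insert h.1 h.2
    exact ⟨(T', S'), fun _ _ => ⟨h1, h2, h3, h4, h5, h6, h7, h8⟩⟩
  · exact ⟨(∅, ∅), fun h1 h2 => absurd ⟨h1, h2⟩ h⟩

/-- result of the insertion -/
noncomputable def ins (n : ℕ) (T : Finset (Finset Pt)) (g : Pt × Pt × Pt) :
    Finset (Finset Pt) × Finset (Finset Pt) := Classical.choose (exists_insert' n T g)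

theorem ins_spec {T : Finset (Finset Pt)} {g : Pt × Pt × Pt} (hT : UT n T) (hg : IsFrame n g) :
    UT n (ins n T g).1 ∧ (∀ t ∈ patt, Pos (ins n T g).1 (fr g t.1) (fr g t.2.1) (fr g t.2.2)) ∧
      (ins n T g).2 ⊆ (ins n T g).1 ∧ (ins n T g).1 \ (ins n T g).2 = T \ meetSet T g ∧
      (ins n T g).2.card ≤ (meetSet T g).card ∧ Conn (ins n T g).2 ∧
        (∀ t ∈ patt, ({fr g t.1, fr g t.2.1, fr g t.2.2} : Finset Pt) ∈ (ins n T g).2) ∧
        (ins n T g).2.biUnion id = (meetSet T g).biUnion id :=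
  Classical.choose_spec (exists_insert' n T g) hT hg

/-- irregularity of triangulations containing a copy of the pattern -/
def PattIrr : Prop := ∀ (n : ℕ) (T : Finset (Finset Pt)) (g : Pt × Pt × Pt), UT n T →
  crs g.2.1 g.2.2 = 1 → (∀ t ∈ patt, Pos T (fr g t.1) (fr g t.2.1) (fr g t.2.2)) → ¬ Reg n T

/-- the patch of a preimage lies near the old copy -/
theorem fiber_facts (irr : PattIrr) {m : ℕ} {T T' : Finset (Finset Pt)} {g g1 : Pt × Pt × Pt}
    (hg1 : IsFrame n g1)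
    (hP1 : ∀ t ∈ patt, Pos T' (fr g1 t.1) (fr g1 t.2.1) (fr g1 t.2.2)) (hT : UT n T)
    (hR : Reg n T) (hg : FatAt n m T g) (hT' : (ins n T g).1 = T') {P1 : Finset (Finset Pt)}
    (hP : ∀ t ∈ patt, ({fr g1 t.1, fr g1 t.2.1, fr g1 t.2.2} : Finset Pt) ∈ P1)
    (hPT : ∀ t ∈ P1, t ∈ T') :
    (ins n T g).2 ⊆ P1.biUnion fun t => bal T' m t := by
  obtain ⟨h1, -, h3, h4, h5, h6, h7, h8⟩ := ins_spec hT hg.1
  rw [hT'] at h1 h3 h4
  have hne : ∃ τ ∈ P1, τ ∈ (ins n T g).2 := by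
    by_contra hcon
    push Not at hcon
    apply irr n T g1 hT hg1.1 _ hR
    intro t ht
    have hmem := hP t ht
    refine ⟨?_, (hP1 t ht).2⟩
    have h9 : ({fr g1 t.1, fr g1 t.2.1, fr g1 t.2.2} : Finset Pt) ∈
        T' \ (ins n T g).2 := Finset.mem_sdiff.2 ⟨hPT _ hmem, hcon _ hmem⟩
    rw [h4] at h9
    exact (Finset.mem_sdiff.1 h9).1
  obtain ⟨τ, hτ1, hτ2⟩ := hne
  intro s hs
  rw [Finset.mem_biUnion]
  exact ⟨τ, hτ1, conn_sub_bal h1 h3 h6 (h5.trans hg.2) hτ2 hs⟩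

theorem t0_mem : (((-3, 3), (-2, 2), (0, 1)) : Pt × Pt × Pt) ∈ patt := by decide

/-- code of a pair (triangulation, fat frame) -/
noncomputable def code (n : ℕ) (x : Finset (Finset Pt) × (Pt × Pt × Pt)) :
    Finset (Finset Pt) × (Finset (Finset Pt) × (Pt × (Pt × Pt))) :=
  ((ins n x.1 x.2).2, meetSet x.1 x.2, fr x.2 (-3, 3), fr x.2 (-2, 2), fr x.2 (0, 1))

theorem code_mem {T : Finset (Finset Pt)} {g : Pt × Pt × Pt} (hT : UT n T) (hg : IsFrame n g)
    {U : Finset (Finset Pt)} (hU : (ins n T g).2 ⊆ U) :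
    code n (T, g) ∈ U.powerset ×ˢ ((U.biUnion id).powerset.powerset ×ˢ
      ((U.biUnion id) ×ˢ ((U.biUnion id) ×ˢ (U.biUnion id)))) := by
  obtain ⟨-, -, -, -, -, -, h7, h8⟩ := ins_spec hT hg
  have hSW : (ins n T g).2.biUnion id ⊆ U.biUnion id :=
    Finset.biUnion_subset_biUnion_of_subset_left _ hU
  have hvW : ∀ y ∈ ({fr g (-3, 3), fr g (-2, 2), fr g (0, 1)} : Finset Pt), y ∈ U.biUnion id := by
    intro y hy
    apply hSW
    rw [Finset.mem_biUnion]
    exact ⟨_, h7 _ t0_mem, hy⟩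
  simp only [code, Finset.mem_product, Finset.mem_powerset]
  refine ⟨hU, ?_, hvW _ (by simp), hvW _ (by simp), hvW _ (by simp)⟩
  intro t ht
  rw [Finset.mem_powerset]
  intro y hy
  apply hSW
  rw [h8, Finset.mem_biUnion]
  exact ⟨t, ht, hy⟩

theorem code_inj {T₁ T₂ : Finset (Finset Pt)} {g₁ g₂ : Pt × Pt × Pt} (h₁ : UT n T₁) (h₂ : UT n T₂)
    (hg₁ : IsFrame n g₁) (hg₂ : IsFrame n g₂) (hT : (ins n T₁ g₁).1 = (ins n T₂ g₂).1)
    (hc : code n (T₁, g₁) = code n (T₂, g₂)) :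
    ((T₁, g₁) : Finset (Finset Pt) × (Pt × Pt × Pt)) = (T₂, g₂) := by
  obtain ⟨-, -, -, hx4, -⟩ := ins_spec h₁ hg₁
  obtain ⟨-, -, -, hy4, -⟩ := ins_spec h₂ hg₂
  simp only [code, Prod.mk.injEq] at hc
  obtain ⟨e1, e2, e3, e4, e5⟩ := hc
  have hg : g₁ = g₂ := fr_inj (patt_det _ t0_mem) e3 e4 e5
  have hTT : T₁ = T₂ := by
    have hx0 : meetSet T₁ g₁ ⊆ T₁ := fun t ht => (mem_meetSet.1 ht).1
    have hy0 : meetSet T₂ g₂ ⊆ T₂ := fun t ht => (mem_meetSet.1 ht).1
    rw [← Finset.sdiff_union_of_subset hx0, ← Finset.sdiff_union_of_subset hy0, ← hx4, ← hy4,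
      hT, e1, e2]
  rw [hg, hTT]

theorem fiber_bound (irr : PattIrr) (m : ℕ)
    (X : Finset (Finset (Finset Pt) × (Pt × Pt × Pt)))
    (hX : ∀ x ∈ X, UT n x.1 ∧ Reg n x.1 ∧ FatAt n m x.1 x.2) (T' : Finset (Finset Pt)) :
    (X.filter fun x => (ins n x.1 x.2).1 = T').card ≤ swC m := by
  classical
  by_cases he : ∃ x1 ∈ X, (ins n x1.1 x1.2).1 = T'
  swap
  · have : (X.filter fun x => (ins n x.1 x.2).1 = T') = ∅ := by
      rw [Finset.filter_eq_empty_iff]
      intro x hx h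
      exact he ⟨x, hx, h⟩
    rw [this]; exact Nat.zero_le _
  obtain ⟨x1, hx1X, hx1T⟩ := he
  obtain ⟨hT1, _, hg1⟩ := hX x1 hx1X
  obtain ⟨hT', hP1, -⟩ := ins_spec hT1 hg1.1
  rw [hx1T] at hT' hP1
  obtain ⟨P1, hPd⟩ : ∃ P1 : Finset (Finset Pt), P1 =
    (patt.map fun t => ({fr x1.2 t.1, fr x1.2 t.2.1, fr x1.2 t.2.2} : Finset Pt)).toFinset :=
    ⟨_, rfl⟩
  have hP : ∀ t ∈ patt, ({fr x1.2 t.1, fr x1.2 t.2.1, fr x1.2 t.2.2} : Finset Pt) ∈ P1 := by
    intro t ht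
    rw [hPd, List.mem_toFinset, List.mem_map]
    exact ⟨t, ht, rfl⟩
  have hP1T : ∀ t ∈ P1, t ∈ T' := by
    intro t ht
    rw [hPd, List.mem_toFinset, List.mem_map] at ht
    obtain ⟨τ, hτ, rfl⟩ := ht
    exact (hP1 τ hτ).1
  have hP1c : P1.card ≤ 18 := by
    rw [hPd]
    refine (List.toFinset_card_le _).trans ?_
    rw [List.length_map, patt_length]
  have hUT' : (P1.biUnion fun t => bal T' m t) ⊆ T' := by
    intro s hs
    rw [Finset.mem_biUnion] at hs
    obtain ⟨t, ht, hs⟩ := hs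
    exact bal_sub (hP1T t ht) m hs
  have hUc : (P1.biUnion fun t => bal T' m t).card ≤ 18 * 6 ^ m := by
    calc (P1.biUnion fun t => bal T' m t).card ≤ ∑ t ∈ P1, (bal T' m t).card :=
          Finset.card_biUnion_le
      _ ≤ ∑ t ∈ P1, 6 ^ m := Finset.sum_le_sum fun t ht => card_bal hT' (hP1T t ht) m
      _ = P1.card * 6 ^ m := by rw [Finset.sum_const, smul_eq_mul]
      _ ≤ 18 * 6 ^ m := Nat.mul_le_mul_right _ hP1c
  have hWc := (card_verts hT' hUT').trans (Nat.mul_le_mul_left _ hUc)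
  have hsub : ∀ x ∈ X, (ins n x.1 x.2).1 = T' →
      (ins n x.1 x.2).2 ⊆ P1.biUnion fun t => bal T' m t := by
    intro x hx hxT
    obtain ⟨a1, a2, a3⟩ := hX x hx
    exact fiber_facts irr hg1.1 hP1 a1 a2 a3 hxT hP hP1T
  generalize (P1.biUnion fun t => bal T' m t) = U at hUT' hUc hWc hsub
  have hcard : (U.powerset ×ˢ ((U.biUnion id).powerset.powerset ×ˢ
      ((U.biUnion id) ×ˢ ((U.biUnion id) ×ˢ (U.biUnion id))))).card ≤ swC m := by
    simp only [Finset.card_product, Finset.card_powerset]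
    exact sw_bound hUc hWc
  refine le_trans (Finset.card_le_card_of_injOn (code n) ?_ ?_) hcard
  · intro x hx
    have hx' := Finset.mem_filter.1 hx
    obtain ⟨a1, _, a3⟩ := hX x hx'.1
    exact code_mem a1 a3.1 (hsub x hx'.1 hx'.2)
  · intro x hx y hy hxy
    have hx' := Finset.mem_filter.1 hx
    have hy' := Finset.mem_filter.1 hy
    obtain ⟨a1, _, a3⟩ := hX x hx'.1
    obtain ⟨b1, _, b3⟩ := hX y hy'.1
    exact code_inj a1 b1 a3.1 b3.1 (hx'.2.trans hy'.2.symm) hxy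

/-- **Switching.** For every `m` there is a constant `C` such that for all `n` and `D`, `D` times the number of
regular triangulations with at least `D` frames that are `m`-fat is at most `C` times the number of all
triangulations. -/
theorem switching_of (irr : PattIrr) (m : ℕ) : ∃ C : ℕ, ∀ n D : ℕ,
    D * ({T | UT n T ∧ Reg n T ∧ D ≤ ({g | FatAt n m T g}).ncard}).ncard ≤
      C * ({T | UT n T} : Set (Finset (Finset Pt))).ncard := by
  classical
  refine ⟨swC m, ?_⟩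
  intro n D
  set A : Finset (Finset (Finset Pt)) :=
    (utSet n).filter fun T => Reg n T ∧ D ≤ ({g | FatAt n m T g}).ncard with hA
  have hAs : {T | UT n T ∧ Reg n T ∧ D ≤ ({g | FatAt n m T g}).ncard} = (A : Set _) := by
    ext T
    simp only [hA, Finset.coe_filter, mem_utSet, Set.mem_ofPred_eq]
  rw [hAs, Set.ncard_coe_finset, ← coe_utSet, Set.ncard_coe_finset]
  set X : Finset (Finset (Finset Pt) × (Pt × Pt × Pt)) :=
    (A ×ˢ frBox n).filter fun x => FatAt n m x.1 x.2 with hXd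
  have hX : ∀ x ∈ X, UT n x.1 ∧ Reg n x.1 ∧ FatAt n m x.1 x.2 := by
    intro x hx
    rw [hXd, Finset.mem_filter, Finset.mem_product, hA, Finset.mem_filter, mem_utSet] at hx
    exact ⟨hx.1.1.1, hx.1.1.2.1, hx.2⟩
  have h1 : D * A.card ≤ X.card := by
    have : X.card = ∑ T ∈ A, (X.filter fun x => x.1 = T).card := by
      apply Finset.card_eq_sum_card_fiberwise
      intro x hx
      have hx' : x ∈ X := hx
      rw [hXd, Finset.mem_filter, Finset.mem_product] at hx'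
      exact hx'.1.1
    rw [this, mul_comm, ← smul_eq_mul, ← Finset.sum_const]
    apply Finset.sum_le_sum
    intro T hT
    have hD : D ≤ ({g | FatAt n m T g}).ncard := by
      rw [hA, Finset.mem_filter] at hT
      exact hT.2.2
    refine hD.trans ?_
    have hsub : ({g | FatAt n m T g} : Set (Pt × Pt × Pt)) ⊆
        ((X.filter fun x => x.1 = T).image Prod.snd : Finset (Pt × Pt × Pt)) := by
      intro g hg
      have hg' : FatAt n m T g := hg
      rw [Finset.mem_coe, Finset.mem_image]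
      refine ⟨(T, g), ?_, rfl⟩
      rw [Finset.mem_filter, hXd, Finset.mem_filter, Finset.mem_product]
      exact ⟨⟨⟨hT, mem_frBox hg'.1⟩, hg'⟩, rfl⟩
    calc ({g | FatAt n m T g}).ncard
        ≤ (((X.filter fun x => x.1 = T).image Prod.snd : Finset (Pt × Pt × Pt)) :
          Set (Pt × Pt × Pt)).ncard := Set.ncard_le_ncard hsub (Finset.finite_toSet _)
      _ = ((X.filter fun x => x.1 = T).image Prod.snd).card := Set.ncard_coe_finset _
      _ ≤ _ := Finset.card_image_le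
  have h2 : X.card ≤ swC m * (utSet n).card := by
    apply Finset.card_le_mul_card_image_of_maps_to (f := fun x => (ins n x.1 x.2).1)
    · intro x hx
      obtain ⟨hT, -, hg⟩ := hX x hx
      exact mem_utSet.2 (ins_spec hT hg.1).1
    · intro T' _
      exact fiber_bound irr m X hX T'
  exact h1.trans h2

end Pool.Agent.IT
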