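import Pool.Agent.IT.UnpCount

/-!
# Unpredicted edges of the refilled triangulation: the counting argument
-/

set_option autoImplicit false

namespace Pool.Agent.IT.UnpM

open Finset Classical

theorem pred_symm {r : ℕ} {T : Finset (Finset Pt)} {p q : Pt} (h : Pred r T p q) : Pred r T q p := h.symm

theorem dir_ne {e : Pt} (h : LexPos e) : e ≠ 0 := by
  rintro rfl
  rcases h with h | h
  · exact absurd h (by simp)
  · exact absurd h.2 (by simp)

theorem cr_smul_self (e : Pt) (k : ℤ) (v : Pt) : crs e (v + k • e) = crs e v := by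
  simp only [crs, Prod.fst_add, Prod.snd_add, Prod.smul_fst, Prod.smul_snd, smul_eq_mul]; ring

theorem cr_sub_smul_self (e : Pt) (k : ℤ) (v a : Pt) : crs e (v - k • e - a) = crs e (v - a) := by
  simp only [crs, Prod.fst_sub, Prod.snd_sub, Prod.smul_fst, Prod.smul_snd, smul_eq_mul]; ring

/-! ### the canonical filling -/

section box

variable {D : BoxD} {T : Finset (Finset Pt)}

theorem ucr_v1 {D : BoxD} (h : D.Ok) : crs D.e (D.v1 - D.a) = 1 := by
  have h1 := h.two
  have h2 := h.half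
  have a1 := congrArg Prod.fst h2
  have a2 := congrArg Prod.snd h2
  simp only [crs, Prod.fst_add, Prod.snd_add, Prod.fst_sub, Prod.snd_sub] at *
  have : 2 * (D.e.1 * (D.v1.2 - D.a.2) - D.e.2 * (D.v1.1 - D.a.1)) = 2 := by
    have e1 : 2 * (D.v1.2 - D.a.2) = D.b.2 - D.a.2 + D.e.2 := by linarith
    have e2 : 2 * (D.v1.1 - D.a.1) = D.b.1 - D.a.1 + D.e.1 := by linarith
    calc 2 * (D.e.1 * (D.v1.2 - D.a.2) - D.e.2 * (D.v1.1 - D.a.1))
        = D.e.1 * (2 * (D.v1.2 - D.a.2)) - D.e.2 * (2 * (D.v1.1 - D.a.1)) := by ring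
      _ = 2 := by rw [e1, e2]; linarith
  omega

theorem ucr_v1b {D : BoxD} (h : D.Ok) : crs D.e (D.v1 - D.b) = -1 := by
  have h1 := h.two
  have h2 := (ucr_v1 h)
  simp only [crs, Prod.fst_sub, Prod.snd_sub] at *
  linarith

theorem ucr_mid {D : BoxD} (h : D.Ok) (i : ℕ) : crs D.e (D.mid i - D.a) = 1 := by
  rw [← (ucr_v1 h)]
  simp only [BoxD.mid, crs, Prod.fst_add, Prod.snd_add, Prod.fst_sub, Prod.snd_sub, Prod.smul_fst,
    Prod.smul_snd, smul_eq_mul]; ring

theorem ucr_midb {D : BoxD} (h : D.Ok) (i : ℕ) : crs D.e (D.mid i - D.b) = -1 := by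
  rw [← (ucr_v1b h)]
  simp only [BoxD.mid, crs, Prod.fst_add, Prod.snd_add, Prod.fst_sub, Prod.snd_sub, Prod.smul_fst,
    Prod.smul_snd, smul_eq_mul]; ring

theorem mid_ne_a (h : D.Ok) (i : ℕ) (k : ℤ) : D.mid i ≠ D.a + k • D.e := by
  intro he
  have := (ucr_mid h) i
  rw [he] at this
  simp only [crs, Prod.fst_add, Prod.snd_add, Prod.fst_sub, Prod.snd_sub, Prod.smul_fst,
    Prod.smul_snd, smul_eq_mul] at this
  ring_nf at this
  omega

theorem mid_ne_b (h : D.Ok) (i : ℕ) (k : ℤ) : D.mid i ≠ D.b + k • D.e := by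
  intro he
  have := (ucr_midb h) i
  rw [he] at this
  simp only [crs, Prod.fst_add, Prod.snd_add, Prod.fst_sub, Prod.snd_sub, Prod.smul_fst,
    Prod.smul_snd, smul_eq_mul] at this
  ring_nf at this
  omega

theorem mid_succ (D : BoxD) (i : ℕ) : D.mid (i + 1) = D.mid i + D.e := by
  simp only [BoxD.mid]; push_cast; rw [add_smul, one_smul, add_assoc]

theorem mid_sub (D : BoxD) {i j : ℕ} (h : j ≤ i) : D.mid i - (j : ℤ) • D.e = D.mid (i - j) := by
  obtain ⟨k, rfl⟩ := Nat.exists_eq_add_of_le h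
  rw [Nat.add_sub_cancel_left]
  simp only [BoxD.mid]; push_cast; rw [add_smul]; abel

theorem canon_t1 : ({D.a, D.b, D.mid 0} : Finset Pt) ∈ D.canon := by
  simp [BoxD.canon]

theorem canon_t2 : ({D.a', D.b', D.mid (D.h - 1)} : Finset Pt) ∈ D.canon := by
  simp [BoxD.canon]

theorem canon_f1 {i : ℕ} (hi : i < D.h - 1) : ({D.a, D.mid i, D.mid (i + 1)} : Finset Pt) ∈ D.canon := by
  simp only [BoxD.canon, mem_union, mem_image, mem_range]
  left; left; left; right
  exact ⟨i, hi, rfl⟩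

theorem canon_f2 {i : ℕ} (hi : i < D.h - 1) : ({D.b, D.mid i, D.mid (i + 1)} : Finset Pt) ∈ D.canon := by
  simp only [BoxD.canon, mem_union, mem_image, mem_range]
  left; left; right
  exact ⟨i, hi, rfl⟩

theorem canon_f3 {j : ℕ} (hj : j < D.p) :
    ({D.a + (j : ℤ) • D.e, D.a + ((j : ℤ) + 1) • D.e, D.mid (D.h - 1)} : Finset Pt) ∈ D.canon := by
  simp only [BoxD.canon, mem_union, mem_image, mem_range]
  left; right
  exact ⟨j, hj, rfl⟩

theorem canon_f4 {j : ℕ} (hj : j < D.q) :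
    ({D.b + (j : ℤ) • D.e, D.b + ((j : ℤ) + 1) • D.e, D.mid (D.h - 1)} : Finset Pt) ∈ D.canon := by
  simp only [BoxD.canon, mem_union, mem_image, mem_range]
  right
  exact ⟨j, hj, rfl⟩

theorem edge_a_mid (hD : D.Ok) (hU : TriOK T) (hc : D.canon ⊆ T) {k : ℕ} (hk : k < D.h) : IsEdge T D.a (D.mid k) := by
  refine eMk hU ?_ ?_
  · have := mid_ne_a hD k 0
    rw [zero_smul, add_zero] at this
    exact this.symm
  · by_cases h1 : k < D.h - 1
    · exact ⟨_, hc (canon_f1 h1), by simp, by simp⟩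
    · by_cases h0 : D.h - 1 = 0
      · have : k = 0 := by omega
        subst this
        exact ⟨_, hc canon_t1, by simp, by simp⟩
      · have h2 : k - 1 < D.h - 1 := by omega
        have h3 : k - 1 + 1 = k := by omega
        refine ⟨_, hc (canon_f1 h2), by simp, by rw [h3]; simp⟩

theorem edge_b_mid (hD : D.Ok) (hU : TriOK T) (hc : D.canon ⊆ T) {k : ℕ} (hk : k < D.h) : IsEdge T D.b (D.mid k) := by
  refine eMk hU ?_ ?_
  · have := mid_ne_b hD k 0
    rw [zero_smul, add_zero] at this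
    exact this.symm
  · by_cases h1 : k < D.h - 1
    · exact ⟨_, hc (canon_f2 h1), by simp, by simp⟩
    · by_cases h0 : D.h - 1 = 0
      · have : k = 0 := by omega
        subst this
        exact ⟨_, hc canon_t1, by simp, by simp⟩
      · have h2 : k - 1 < D.h - 1 := by omega
        have h3 : k - 1 + 1 = k := by omega
        refine ⟨_, hc (canon_f2 h2), by simp, by rw [h3]; simp⟩

theorem edge_mid_mid (hD : D.Ok) (hU : TriOK T) (hc : D.canon ⊆ T) {k : ℕ} (hk : k + 1 < D.h) :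
    IsEdge T (D.mid k) (D.mid (k + 1)) := by
  refine eMk hU ?_ ⟨_, hc (canon_f1 (i := k) (by omega)), by simp, by simp⟩
  rw [mid_succ]
  intro h
  exact dir_ne hD.dir.2 (left_eq_add.mp h)

theorem edge_mid_a (hD : D.Ok) (hU : TriOK T) (hc : D.canon ⊆ T) {j : ℕ} (hj : j ≤ D.p) :
    IsEdge T (D.mid (D.h - 1)) (D.a + (j : ℤ) • D.e) := by
  refine eMk hU (mid_ne_a hD _ _) ?_
  rcases hj.lt_or_eq with h | h
  · exact ⟨_, hc (canon_f3 h), by simp, by simp⟩
  · subst h
    exact ⟨_, hc canon_t2, by simp, by simp [BoxD.a']⟩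

theorem edge_mid_b (hD : D.Ok) (hU : TriOK T) (hc : D.canon ⊆ T) {j : ℕ} (hj : j ≤ D.q) :
    IsEdge T (D.mid (D.h - 1)) (D.b + (j : ℤ) • D.e) := by
  refine eMk hU (mid_ne_b hD _ _) ?_
  rcases hj.lt_or_eq with h | h
  · exact ⟨_, hc (canon_f4 h), by simp, by simp⟩
  · subst h
    exact ⟨_, hc canon_t2, by simp, by simp [BoxD.b']⟩

theorem edge_a_a (hD : D.Ok) (hU : TriOK T) (hc : D.canon ⊆ T) {j : ℕ} (hj : j < D.p) :
    IsEdge T (D.a + (j : ℤ) • D.e) (D.a + ((j : ℤ) + 1) • D.e) := by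
  refine eMk hU ?_ ⟨_, hc (canon_f3 hj), by simp, by simp⟩
  rw [add_smul, one_smul, ← add_assoc]
  intro h
  exact dir_ne hD.dir.2 (left_eq_add.mp h)

theorem edge_b_b (hD : D.Ok) (hU : TriOK T) (hc : D.canon ⊆ T) {j : ℕ} (hj : j < D.q) :
    IsEdge T (D.b + (j : ℤ) • D.e) (D.b + ((j : ℤ) + 1) • D.e) := by
  refine eMk hU ?_ ⟨_, hc (canon_f4 hj), by simp, by simp⟩
  rw [add_smul, one_smul, ← add_assoc]
  intro h
  exact dir_ne hD.dir.2 (left_eq_add.mp h)

variable {r : ℕ}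

theorem pred_a_mid (hD : D.Ok) (hU : TriOK T) (hc : D.canon ⊆ T) {i : ℕ} (h1 : r ≤ i) (h2 : i < D.h) :
    Pred r T D.a (D.mid i) := by
  refine Or.inl (Or.inr ⟨D.e, hD.dir.2, ?_, ?_⟩)
  · rw [(ucr_mid hD)]; rfl
  · intro j hj hjr
    rw [mid_sub D (hjr.trans h1)]
    exact edge_a_mid hD hU hc (by omega)

theorem pred_b_mid (hD : D.Ok) (hU : TriOK T) (hc : D.canon ⊆ T) {i : ℕ} (h1 : r ≤ i) (h2 : i < D.h) :
    Pred r T D.b (D.mid i) := by
  refine Or.inl (Or.inr ⟨D.e, hD.dir.2, ?_, ?_⟩)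
  · rw [(ucr_midb hD)]; rfl
  · intro j hj hjr
    rw [mid_sub D (hjr.trans h1)]
    exact edge_b_mid hD hU hc (by omega)

theorem pred_mid_mid (hD : D.Ok) (hU : TriOK T) (hc : D.canon ⊆ T) {i : ℕ} (h1 : r ≤ i) (h2 : i + 1 < D.h) :
    Pred r T (D.mid i) (D.mid (i + 1)) := by
  refine Or.inl (Or.inl ?_)
  have h3 : D.mid (i + 1) - D.mid i = D.e := by rw [mid_succ]; abel
  rw [h3]
  refine ⟨hD.dir.2, ?_⟩
  intro j hj hjr
  rw [mid_sub D (hjr.trans h1), mid_sub D (by omega), show i + 1 - j = i - j + 1 by omega]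
  exact edge_mid_mid hD hU hc (by omega)

theorem shift_sub (a e : Pt) {i j : ℕ} (h : j ≤ i) :
    a + (i : ℤ) • e - (j : ℤ) • e = a + ((i - j : ℕ) : ℤ) • e := by
  obtain ⟨k, rfl⟩ := Nat.exists_eq_add_of_le h
  rw [Nat.add_sub_cancel_left]
  push_cast; rw [add_smul]; abel

theorem pred_mid_a (hD : D.Ok) (hU : TriOK T) (hc : D.canon ⊆ T) {i : ℕ} (h1 : r ≤ i) (h2 : i ≤ D.p) :
    Pred r T (D.mid (D.h - 1)) (D.a + (i : ℤ) • D.e) := by
  refine Or.inl (Or.inr ⟨D.e, hD.dir.2, ?_, ?_⟩)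
  · have h3 : crs D.e (D.a + (i : ℤ) • D.e - D.mid (D.h - 1)) = -1 := by
      have := (ucr_mid hD) (D.h - 1)
      simp only [crs, Prod.fst_add, Prod.snd_add, Prod.fst_sub, Prod.snd_sub, Prod.smul_fst,
        Prod.smul_snd, smul_eq_mul] at *
      linarith
    rw [h3]; rfl
  · intro j hj hjr
    rw [shift_sub _ _ (hjr.trans h1)]
    exact edge_mid_a hD hU hc (by omega)

theorem pred_mid_b (hD : D.Ok) (hU : TriOK T) (hc : D.canon ⊆ T) {i : ℕ} (h1 : r ≤ i) (h2 : i ≤ D.q) :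
    Pred r T (D.mid (D.h - 1)) (D.b + (i : ℤ) • D.e) := by
  refine Or.inl (Or.inr ⟨D.e, hD.dir.2, ?_, ?_⟩)
  · have h3 : crs D.e (D.b + (i : ℤ) • D.e - D.mid (D.h - 1)) = 1 := by
      have := (ucr_midb hD) (D.h - 1)
      simp only [crs, Prod.fst_add, Prod.snd_add, Prod.fst_sub, Prod.snd_sub, Prod.smul_fst,
        Prod.smul_snd, smul_eq_mul] at *
      linarith
    rw [h3]; rfl
  · intro j hj hjr
    rw [shift_sub _ _ (hjr.trans h1)]
    exact edge_mid_b hD hU hc (by omega)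

theorem pred_a_a (hD : D.Ok) (hU : TriOK T) (hc : D.canon ⊆ T) {i : ℕ} (h1 : r ≤ i) (h2 : i < D.p) :
    Pred r T (D.a + (i : ℤ) • D.e) (D.a + ((i : ℤ) + 1) • D.e) := by
  refine Or.inl (Or.inl ?_)
  have h3 : D.a + ((i : ℤ) + 1) • D.e - (D.a + (i : ℤ) • D.e) = D.e := by
    rw [add_smul, one_smul]; abel
  rw [h3]
  refine ⟨hD.dir.2, ?_⟩
  intro j hj hjr
  have h4 : D.a + ((i : ℤ) + 1) • D.e - (j : ℤ) • D.e = D.a + (((i - j : ℕ) : ℤ) + 1) • D.e := by
    have := shift_sub D.a D.e (hjr.trans h1)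
    rw [add_smul, one_smul, add_smul, one_smul, ← add_assoc, ← add_assoc, ← this]; abel
  rw [shift_sub _ _ (hjr.trans h1), h4]
  exact edge_a_a hD hU hc (by omega)

theorem pred_b_b (hD : D.Ok) (hU : TriOK T) (hc : D.canon ⊆ T) {i : ℕ} (h1 : r ≤ i) (h2 : i < D.q) :
    Pred r T (D.b + (i : ℤ) • D.e) (D.b + ((i : ℤ) + 1) • D.e) := by
  refine Or.inl (Or.inl ?_)
  have h3 : D.b + ((i : ℤ) + 1) • D.e - (D.b + (i : ℤ) • D.e) = D.e := by
    rw [add_smul, one_smul]; abel
  rw [h3]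
  refine ⟨hD.dir.2, ?_⟩
  intro j hj hjr
  have h4 : D.b + ((i : ℤ) + 1) • D.e - (j : ℤ) • D.e = D.b + (((i - j : ℕ) : ℤ) + 1) • D.e := by
    have := shift_sub D.b D.e (hjr.trans h1)
    rw [add_smul, one_smul, add_smul, one_smul, ← add_assoc, ← add_assoc, ← this]; abel
  rw [shift_sub _ _ (hjr.trans h1), h4]
  exact edge_b_b hD hU hc (by omega)

/-- the triangles of the canonical filling which may have unpredicted edges -/
noncomputable def badC (r : ℕ) (D : BoxD) : Finset (Finset Pt) :=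
  {{D.a, D.b, D.mid 0}, {D.a', D.b', D.mid (D.h - 1)}} ∪
  ((range r).image (fun i => {D.a, D.mid i, D.mid (i + 1)}) ∪
  (range r).image (fun i => {D.b, D.mid i, D.mid (i + 1)})) ∪
  ((range r).image
    (fun j : ℕ => {D.a + (j : ℤ) • D.e, D.a + ((j : ℤ) + 1) • D.e, D.mid (D.h - 1)}) ∪
  (range r).image
    (fun j : ℕ => {D.b + (j : ℤ) • D.e, D.b + ((j : ℤ) + 1) • D.e, D.mid (D.h - 1)}))

theorem card_badC : (badC r D).card ≤ 4 * r + 2 := by
  unfold badC
  have h := fun f : ℕ → Finset Pt => (card_image_le (s := range r) (f := f)).trans (card_range r).le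
  refine (card_union_le _ _).trans ?_
  refine (add_le_add (card_union_le _ _) (card_union_le _ _)).trans ?_
  refine (add_le_add (add_le_add card_le_two ((card_union_le _ _).trans (add_le_add (h _) (h _))))
    (add_le_add (h _) (h _))).trans ?_
  omega

theorem uu_canon (hD : D.Ok) (hU : TriOK T) (hc : D.canon ⊆ T) {t : Finset Pt} (ht : t ∈ D.canon) (hb : t ∉ badC r D) :
    uu r T t = 0 := by
  simp only [BoxD.canon, mem_union, mem_image, mem_range, mem_insert, mem_singleton] at ht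
  simp only [badC, mem_union, mem_image, mem_range, mem_insert, mem_singleton, not_or, not_exists,
    not_and] at hb
  obtain ⟨⟨⟨b1, b2⟩, ⟨b3, b4⟩⟩, ⟨b5, b6⟩⟩ := hb
  rcases ht with (((ht | ht) | ⟨i, hi, rfl⟩) | ⟨i, hi, rfl⟩) | ⟨i, hi, rfl⟩
  · rcases ht with rfl | rfl
    · exact absurd rfl b1
    · exact absurd rfl b2
  · obtain ⟨i, hi, rfl⟩ := ht
    have hr : r ≤ i := by
      by_contra hlt
      exact b3 i (by omega) rfl
    exact uu_zero (pred_a_mid hD hU hc hr (by omega)) (pred_a_mid hD hU hc (by omega) (by omega))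
      (pred_mid_mid hD hU hc hr (by omega))
  · have hr : r ≤ i := by
      by_contra hlt
      exact b4 i (by omega) rfl
    exact uu_zero (pred_b_mid hD hU hc hr (by omega)) (pred_b_mid hD hU hc (by omega) (by omega))
      (pred_mid_mid hD hU hc hr (by omega))
  · have hr : r ≤ i := by
      by_contra hlt
      exact b5 i (by omega) rfl
    have h5 := pred_mid_a (r := r) hD hU hc (i := i + 1) (by omega) (by omega)
    rw [Nat.cast_add, Nat.cast_one] at h5
    exact uu_zero (pred_a_a hD hU hc hr hi) (pred_mid_a hD hU hc hr (by omega)).symm h5.symm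
  · have hr : r ≤ i := by
      by_contra hlt
      exact b6 i (by omega) rfl
    have h5 := pred_mid_b (r := r) hD hU hc (i := i + 1) (by omega) (by omega)
    rw [Nat.cast_add, Nat.cast_one] at h5
    exact uu_zero (pred_b_b hD hU hc hr hi) (pred_mid_b hD hU hc hr (by omega)).symm h5.symm

theorem sum_uu_canon (hD : D.Ok) (hU : TriOK T) (hc : D.canon ⊆ T) (h3 : ∀ t ∈ T, t.card = 3) :
    ∑ t ∈ D.canon, uu r T t ≤ 12 * r + 6 := by
  rw [← sum_filter_add_sum_filter_not D.canon (fun t => t ∈ badC r D)]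
  have h1 : ∑ t ∈ D.canon.filter (fun t => t ∉ badC r D), uu r T t = 0 := by
    apply sum_eq_zero
    intro t ht
    rw [mem_filter] at ht
    exact uu_canon hD hU hc ht.1 ht.2
  rw [h1, add_zero]
  have h2 : ∑ t ∈ D.canon.filter (fun t => t ∈ badC r D), uu r T t ≤
      ∑ t ∈ D.canon.filter (fun t => t ∈ badC r D), 3 := by
    apply sum_le_sum
    intro t ht
    rw [mem_filter] at ht
    exact uu_le (h3 t (hc ht.1))
  refine h2.trans ?_
  rw [sum_const, smul_eq_mul]
  have h4 : (D.canon.filter (fun t => t ∈ badC r D)).card ≤ 4 * r + 2 := by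
    refine (card_le_card ?_).trans (card_badC (r := r) (D := D))
    intro t ht
    exact (mem_filter.mp ht).2
  omega

end box

/-! ### sums over unions -/

theorem sum_union_le' (f : Finset Pt → ℕ) (A B : Finset (Finset Pt)) :
    ∑ t ∈ A ∪ B, f t ≤ ∑ t ∈ A, f t + ∑ t ∈ B, f t := by
  have := sum_union_inter (f := f) (s₁ := A) (s₂ := B)
  omega

theorem sum_biUnion_le' (f : Finset Pt → ℕ) (F : Finset BoxD) (g : BoxD → Finset (Finset Pt)) :
    ∑ t ∈ F.biUnion g, f t ≤ ∑ D ∈ F, ∑ t ∈ g D, f t := by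
  induction F using Finset.induction_on with
  | empty => simp
  | insert D F hD ih =>
    rw [biUnion_insert, sum_insert hD]
    exact (sum_union_le' _ _ _).trans (Nat.add_le_add_left ih _)

/-! ### the main count -/

theorem pair_mem_unpF {r : ℕ} {T : Finset (Finset Pt)} {t : Finset Pt} (ht : t.card = 3)
    (h : uu r T t = 3) {x y : Pt} (hne : x ≠ y) (hx : x ∈ t) (hy : y ∈ t) : {x, y} ∈ unpF r T := by
  have h1 : (unpF r T).filter (fun ε => ε ⊆ t) = t.powersetCard 2 := by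
    apply eq_of_subset_of_card_le uu_sub
    rw [card_powersetCard, ht]
    unfold uu at h
    rw [h]; decide
  have h2 : ({x, y} : Finset Pt) ∈ t.powersetCard 2 := by
    rw [mem_powersetCard]
    refine ⟨?_, card_pair hne⟩
    intro z hz
    simp only [mem_insert, mem_singleton] at hz
    rcases hz with rfl | rfl <;> assumption
  rw [← h1] at h2
  exact (mem_filter.mp h2).1

theorem unp_core {n r : ℕ} {T V : Finset (Finset Pt)} {S : Finset Pt → Slab} {F : Finset BoxD}
    (hV : Str n T V S)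
    (hcard : T.card = 2 * n ^ 2)
    (hT' : BaseOK n (refill T F)) (hU : TriOK (refill T F))
    (hBT : ∀ D ∈ F, (D.BT T).card = 2 * (D.p + D.q))
    (hdisj : ∀ D ∈ F, ∀ D' ∈ F, D ≠ D' → Disjoint (D.BT T) (D'.BT T))
    (hbox : ∀ D ∈ F, ∀ t ∈ D.BT T, t ∈ V ∧ S t = (D.e, crs D.e D.a, 2))
    (hok : ∀ D ∈ F, D.Ok)
    (hsurv : ∀ D ∈ F, ∀ t ∈ D.BT T, ∀ x, x ∈ t → x + D.e ∈ t → ∃ s ∈ D.canon, x ∈ s ∧ x + D.e ∈ s)
    (X1 X3 : ℕ)
    (h1 : ({t | t ∈ V ∧ t ∉ F.biUnion (fun D => D.BT T) ∧ (S t).2.2 ≤ 2 ∧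
      ¬ Straight r V S t}).ncard ≤ X1)
    (h3 : ({t | t ∈ V ∧ (S t).2.2 = 3 ∧ ¬ Fine3 r V S t}).ncard ≤ X3) :
    2 * Unp r (refill T F) + 2 * ∑ D ∈ F, 2 * (D.p + D.q) ≤
      4 * n ^ 2 + 4 * n + (T \ V).card + X1 + X3 + (12 * r + 6) * F.card := by
  set T' := refill T F with hT'def
  set B := F.biUnion (fun D => D.BT T) with hB
  set A := T \ B with hA
  have hAT' : A ⊆ T' := by
    intro t ht
    rw [hT'def]; unfold refill
    exact mem_union_left _ ht
  have hcT' : ∀ D ∈ F, D.canon ⊆ T' := by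
    intro D hD t ht
    rw [hT'def]; unfold refill
    exact mem_union_right _ (mem_biUnion.mpr ⟨D, hD, ht⟩)
  have hBsub : B ⊆ T := by
    intro t ht
    rw [hB, mem_biUnion] at ht
    obtain ⟨D, -, ht⟩ := ht
    exact (mem_filter.mp ht).1
  -- cardinality of A
  have hcA : A.card + ∑ D ∈ F, 2 * (D.p + D.q) = 2 * n ^ 2 := by
    have e1 : B.card = ∑ D ∈ F, 2 * (D.p + D.q) := by
      rw [hB, card_biUnion]
      · exact sum_congr rfl hBT
      · intro D hD D' hD' hne
        exact hdisj D hD D' hD' hne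
    rw [← e1, ← hcard]
    exact card_sdiff_add_card_eq_card hBsub
  -- total
  have hsum : ∑ t ∈ T', uu r T' t ≤ ∑ t ∈ A, uu r T' t + (12 * r + 6) * F.card := by
    have e1 : ∑ t ∈ T', uu r T' t ≤ ∑ t ∈ A, uu r T' t + ∑ t ∈ F.biUnion (fun D => D.canon), uu r T' t := by
      conv_lhs => rw [hT'def]
      unfold refill
      exact sum_union_le' _ _ _
    refine e1.trans (Nat.add_le_add_left ?_ _)
    refine (sum_biUnion_le' _ _ _).trans ?_
    have e2 : ∑ D ∈ F, ∑ t ∈ D.canon, uu r T' t ≤ ∑ D ∈ F, (12 * r + 6) :=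
      sum_le_sum (fun D hD => sum_uu_canon (hok D hD) hU (hcT' D hD) hT'.c3)
    refine e2.trans ?_
    rw [sum_const, smul_eq_mul, mul_comm]
  -- edges parallel to the slab direction survive
  have hpar : ∀ s ∈ V, ∀ x, x ∈ s → x + (S s).1 ∈ s → IsEdge T' x (x + (S s).1) := by
    intro s hs x hx hxe
    have hne : x ≠ x + (S s).1 := by
      intro h
      exact dir_ne (hV.dir s hs).2 (left_eq_add.mp h)
    refine eMk hU hne ?_
    by_cases hsB : s ∈ B
    · rw [hB, mem_biUnion] at hsB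
      obtain ⟨D, hD, hsD⟩ := hsB
      have hS := (hbox D hD s hsD).2
      rw [hS] at hxe ⊢
      obtain ⟨s', hs', a1, a2⟩ := hsurv D hD s hsD x hx hxe
      exact ⟨s', hcT' D hD hs', a1, a2⟩
    · exact ⟨s, hAT' (mem_sdiff.mpr ⟨hV.sub hs, hsB⟩), hx, hxe⟩
  -- triangles of width three are not in boxes
  have hw3 : ∀ s ∈ V, (S s).2.2 = 3 → s ∈ A := by
    intro s hs hw
    rw [hA, mem_sdiff]
    refine ⟨hV.sub hs, fun hsB => ?_⟩
    rw [hB, mem_biUnion] at hsB
    obtain ⟨D, hD, hsD⟩ := hsB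
    rw [(hbox D hD s hsD).2] at hw
    exact absurd hw (by norm_num)
  -- straight
  have hstraight : ∀ t ∈ V, Straight r V S t → ∃ x y, x ∈ t ∧ y ∈ t ∧ x ≠ y ∧ Pred r T' x y := by
    intro t ht ⟨x, hx, hxe, hj⟩
    refine ⟨x, x + (S t).1, hx, hxe, ?_, Or.inl (Or.inl ?_)⟩
    · intro h
      exact dir_ne (hV.dir t ht).2 (left_eq_add.mp h)
    · have e1 : x + (S t).1 - x = (S t).1 := by abel
      rw [e1]
      refine ⟨(hV.dir t ht).2, ?_⟩
      intro i hi hir
      obtain ⟨s, hs, hSs, b1, b2⟩ := hj i hir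
      have e2 : x + (S t).1 - (i : ℤ) • (S t).1 = x - (i : ℤ) • (S t).1 + (S t).1 := by abel
      rw [e2]
      rw [← hSs] at b1 b2 ⊢
      exact hpar s hs _ b1 b2
  -- fanned, width three
  have hfanned : ∀ σ : Slab, σ.2.2 = 3 → LexPos σ.1 → ∀ a v, Fanned r V S σ a v → Pred r T' a v := by
    intro σ hσ hlex a v ⟨hdet, hj⟩
    refine Or.inl (Or.inr ⟨σ.1, hlex, hdet, ?_⟩)
    intro i hi hir
    obtain ⟨s, hs, hSs, b1, b2⟩ := hj i hir
    refine eMk hU ?_ ⟨s, hAT' (hw3 s hs (by rw [hSs]; exact hσ)), b1, b2⟩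
    intro h
    have := cr_sub_smul_self σ.1 (i : ℤ) v a
    rw [← h] at this
    rw [← this] at hdet
    simp [crs] at hdet
  -- the non-fine triangles
  set N1 : Set (Finset Pt) := {t | t ∈ V ∧ t ∉ B ∧ (S t).2.2 ≤ 2 ∧ ¬ Straight r V S t} with hN1
  set N3 : Set (Finset Pt) := {t | t ∈ V ∧ (S t).2.2 = 3 ∧ ¬ Fine3 r V S t} with hN3
  set M1 : Finset (Finset Pt) := V.filter (fun t => t ∈ N1) with hM1
  set M3 : Finset (Finset Pt) := V.filter (fun t => t ∈ N3) with hM3
  have cM1 : M1.card ≤ X1 := by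
    refine le_trans ?_ h1
    rw [show N1 = ((M1 : Finset (Finset Pt)) : Set (Finset Pt)) from ?_, Set.ncard_coe_finset]
    ext t
    simp only [hM1, coe_filter, Set.mem_ofPred_eq]
    exact ⟨fun h => ⟨h.1, h⟩, fun h => h.2⟩
  have cM3 : M3.card ≤ X3 := by
    refine le_trans ?_ h3
    rw [show N3 = ((M3 : Finset (Finset Pt)) : Set (Finset Pt)) from ?_, Set.ncard_coe_finset]
    ext t
    simp only [hM3, coe_filter, Set.mem_ofPred_eq]
    exact ⟨fun h => ⟨h.1, h⟩, fun h => h.2⟩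
  set N := (T \ V) ∪ (M1 ∪ M3) with hN
  have cN : N.card ≤ (T \ V).card + X1 + X3 := by
    refine (card_union_le _ _).trans ?_
    have := card_union_le M1 M3
    omega
  set A3 := A.filter (fun t => uu r T' t = 3) with hA3
  set A1 := A.filter (fun t => uu r T' t ≤ 1) with hA1
  have hcard3 : ∀ t ∈ A, t.card = 3 := fun t ht => hT'.c3 t (hAT' ht)
  have hAsum : ∑ t ∈ A, uu r T' t + A1.card ≤ 2 * A.card + A3.card := by
    rw [hA1, hA3, card_filter, card_filter, ← sum_add_distrib, mul_comm, ← smul_eq_mul, ← sum_const,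
      ← sum_add_distrib]
    apply sum_le_sum
    intro t ht
    have := uu_le (r := r) (T := T') (hcard3 t ht)
    split_ifs <;> omega
  -- third case
  have hkey : ∀ t ∈ A3 \ N, ∃ s ∈ A, s ≠ t ∧ ∃ x y, x ≠ y ∧ x ∈ t ∧ y ∈ t ∧ x ∈ s ∧ y ∈ s ∧
      (unpF r T').filter (fun ε => ε ⊆ s) ⊆ {{x, y}} := by
    intro t ht
    rw [mem_sdiff, hA3, mem_filter] at ht
    obtain ⟨⟨htA, htu⟩, htN⟩ := ht
    have htT : t ∈ T := (mem_sdiff.mp htA).1
    have htB : t ∉ B := (mem_sdiff.mp htA).2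
    rw [hN, mem_union, mem_union, not_or, not_or] at htN
    obtain ⟨n1, n2, n3⟩ := htN
    have htV : t ∈ V := by
      by_contra h
      exact n1 (mem_sdiff.mpr ⟨htT, h⟩)
    have hno : ∀ x y, x ∈ t → y ∈ t → x ≠ y → ¬ Pred r T' x y := by
      intro x y hx hy hne hp
      have := uu_le_two (hcard3 t htA) hx hy hne hp
      omega
    have hnS : ¬ Straight r V S t := by
      intro h
      obtain ⟨x, y, hx, hy, hne, hp⟩ := hstraight t htV h
      exact hno x y hx hy hne hp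
    have hw := hV.wid t htV
    by_cases hw2 : (S t).2.2 ≤ 2
    · exfalso
      apply n2
      rw [hM1, mem_filter]
      exact ⟨htV, htV, htB, hw2, hnS⟩
    · have hw3' : (S t).2.2 = 3 := by omega
      have hf : Fine3 r V S t := by
        by_contra h
        apply n3
        rw [hM3, mem_filter]
        exact ⟨htV, htV, hw3', h⟩
      rcases hf with h | ⟨a, ha, v, hv, h⟩ | ⟨s, hs, hSs, hst, a, x, y, rfl, hat, hxt, hyt, hxy, f1, f2⟩
      · exact absurd h hnS
      · exfalso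
        refine hno a v ha hv ?_ (hfanned _ hw3' (hV.dir t htV).2 a v h)
        rintro rfl
        have := h.1
        simp [crs] at this
      · have p1 := hfanned _ hw3' (hV.dir t htV).2 a x f1
        have p2 := hfanned _ hw3' (hV.dir t htV).2 a y f2
        have hax : a ≠ x := fun h => hat (h ▸ hxt)
        have hay : a ≠ y := fun h => hat (h ▸ hyt)
        refine ⟨{a, x, y}, hw3 _ hs (by rw [hSs]; exact hw3'), hst, x, y, hxy, hxt, hyt, by simp, by simp, ?_⟩
        exact uu_le_one hax hay hxy p1 p2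
  choose! g hg using hkey
  have hinj : (A3 \ N).card ≤ A1.card := by
    apply card_le_card_of_injOn g
    · intro t ht
      obtain ⟨g1, g2, x, y, g3, g4, g5, g6, g7, g8⟩ := hg t ht
      rw [hA1, mem_coe, mem_filter]
      refine ⟨g1, ?_⟩
      unfold uu
      exact (card_le_card g8).trans (card_singleton _).le
    · intro t ht t' ht' hgg
      obtain ⟨g1, g2, x, y, g3, g4, g5, g6, g7, g8⟩ := hg t ht
      obtain ⟨k1, k2, x', y', k3, k4, k5, k6, k7, k8⟩ := hg t' ht'
      have tA : t ∈ A3 := (mem_sdiff.mp ht).1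
      have tA' : t' ∈ A3 := (mem_sdiff.mp ht').1
      rw [hA3, mem_filter] at tA tA'
      have u1 := pair_mem_unpF (hcard3 t tA.1) tA.2 g3 g4 g5
      have u2 := pair_mem_unpF (hcard3 t' tA'.1) tA'.2 k3 k4 k5
      have v2 : ({x', y'} : Finset Pt) ∈ (unpF r T').filter (fun ε => ε ⊆ g t) := by
        rw [mem_filter]
        refine ⟨u2, ?_⟩
        rw [hgg]
        intro z hz
        simp only [mem_insert, mem_singleton] at hz
        rcases hz with rfl | rfl <;> assumption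
      have v3 := g8 v2
      rw [mem_singleton] at v3
      have hx' : x ∈ t' := by
        have : x ∈ ({x', y'} : Finset Pt) := by rw [v3]; simp
        simp only [mem_insert, mem_singleton] at this
        rcases this with h | h <;> rw [h] <;> assumption
      have hy' : y ∈ t' := by
        have : y ∈ ({x', y'} : Finset Pt) := by rw [v3]; simp
        simp only [mem_insert, mem_singleton] at this
        rcases this with h | h <;> rw [h] <;> assumption
      rcases hT'.two t (hAT' tA.1) t' (hAT' tA'.1) (g t) (hAT' g1) x y g3 g4 g5 hx' hy' g6 g7 with h | h | h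
      · exact h
      · exact absurd h.symm g2
      · rw [hgg] at h
        exact absurd h.symm k2
  have hA3c : A3.card ≤ N.card + A1.card := by
    have e1 : A3.card ≤ (A3 ∩ N).card + (A3 \ N).card := by
      rw [card_inter_add_card_sdiff]
    have e2 : (A3 ∩ N).card ≤ N.card := card_le_card inter_subset_right
    omega
  have hfin := two_unp_le (r := r) hT'
  have : 2 * (2 * n ^ 2) = 4 * n ^ 2 := by ring
  omega

end Pool.Agent.IT.UnpM
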