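import Pool.Agent.IT.Defs

/-!
# Unpredicted edges: double counting over the triangles
-/

set_option autoImplicit false

namespace Pool.Agent.IT.UnpM

open Finset Classical

theorem eNe {T : Finset (Finset Pt)} {p q : Pt} (h : IsEdge T p q) : p ≠ q := by
  obtain ⟨r, h | h⟩ := h
  · exact h.ne
  · exact h.ne.symm

theorem eMem {T : Finset (Finset Pt)} {p q : Pt} (h : IsEdge T p q) : ∃ t ∈ T, p ∈ t ∧ q ∈ t := by
  obtain ⟨r, h | h⟩ := h
  · exact ⟨_, h.1, by simp, by simp⟩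
  · exact ⟨_, h.1, by simp, by simp⟩

/-- every member of `T` is a positively oriented unimodular triangle -/
def TriOK (T : Finset (Finset Pt)) : Prop := ∀ t ∈ T, ∃ p q r, t = {p, q, r} ∧ Pos T p q r

theorem eMk {T : Finset (Finset Pt)} (hT : TriOK T) {p q : Pt} (hne : p ≠ q)
    (h : ∃ t ∈ T, p ∈ t ∧ q ∈ t) : IsEdge T p q := by
  obtain ⟨t, ht, hp, hq⟩ := h
  obtain ⟨a, b, c, rfl, h⟩ := hT t ht
  simp only [mem_insert, mem_singleton] at hp hq
  rcases hp with rfl | rfl | rfl <;> rcases hq with rfl | rfl | rfl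
  · exact absurd rfl hne
  · exact h.edge
  · exact h.cyc'.edge'
  · exact h.edge'
  · exact absurd rfl hne
  · exact h.cyc.edge
  · exact h.cyc'.edge
  · exact h.cyc.edge'
  · exact absurd rfl hne

/-- both endpoints on a common side of the square -/
def OnSd (n : ℕ) (p q : Pt) : Prop :=
  (p.1 = 0 ∧ q.1 = 0) ∨ (p.1 = n ∧ q.1 = n) ∨ (p.2 = 0 ∧ q.2 = 0) ∨ (p.2 = n ∧ q.2 = n)

theorem mem_unpSet {r : ℕ} {T : Finset (Finset Pt)} {p q : Pt} :
    ({p, q} : Finset Pt) ∈ UnpSet r T ↔ IsEdge T p q ∧ ¬ Pred r T p q := by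
  constructor
  · rintro ⟨p', q', he, h1, h2⟩
    have hne : p' ≠ q' := eNe h1
    have hp : p' ∈ ({p, q} : Finset Pt) := by rw [he]; simp
    have hq : q' ∈ ({p, q} : Finset Pt) := by rw [he]; simp
    simp only [mem_insert, mem_singleton] at hp hq
    rcases hp with rfl | rfl <;> rcases hq with rfl | rfl
    · exact absurd rfl hne
    · exact ⟨h1, h2⟩
    · exact ⟨h1.symm, fun h => h2 h.symm⟩
    · exact absurd rfl hne
  · rintro ⟨h1, h2⟩
    exact ⟨p, q, rfl, h1, h2⟩

/-- the unpredicted edges as a finset -/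
noncomputable def unpF (r : ℕ) (T : Finset (Finset Pt)) : Finset (Finset Pt) :=
  (T.biUnion (fun t => t.powersetCard 2)).filter (fun ε => ε ∈ UnpSet r T)

theorem mem_unpF {r : ℕ} {T : Finset (Finset Pt)} {ε : Finset Pt} : ε ∈ unpF r T ↔ ε ∈ UnpSet r T := by
  unfold unpF
  rw [mem_filter]
  constructor
  · exact fun h => h.2
  · intro h
    refine ⟨?_, h⟩
    obtain ⟨p, q, rfl, he, -⟩ := h
    have hne := eNe he
    obtain ⟨t, ht, hp, hq⟩ := eMem he
    rw [mem_biUnion]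
    refine ⟨t, ht, ?_⟩
    rw [mem_powersetCard]
    refine ⟨?_, card_pair hne⟩
    intro x hx
    simp only [mem_insert, mem_singleton] at hx
    rcases hx with rfl | rfl <;> assumption

theorem unp_eq (r : ℕ) (T : Finset (Finset Pt)) : Unp r T = (unpF r T).card := by
  unfold Unp
  rw [show UnpSet r T = ((unpF r T : Finset (Finset Pt)) : Set (Finset Pt)) from ?_, Set.ncard_coe_finset]
  ext ε
  rw [mem_coe, mem_unpF]

/-- number of unpredicted edges of the triangle `t` -/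
noncomputable def uu (r : ℕ) (T : Finset (Finset Pt)) (t : Finset Pt) : ℕ :=
  ((unpF r T).filter (fun ε => ε ⊆ t)).card

theorem uu_sub {r : ℕ} {T : Finset (Finset Pt)} {t : Finset Pt} :
    (unpF r T).filter (fun ε => ε ⊆ t) ⊆ t.powersetCard 2 := by
  intro ε hε
  rw [mem_filter, mem_unpF] at hε
  obtain ⟨⟨p, q, rfl, h, -⟩, h2⟩ := hε
  rw [mem_powersetCard]
  exact ⟨h2, card_pair (eNe h)⟩

theorem uu_le {r : ℕ} {T : Finset (Finset Pt)} {t : Finset Pt} (ht : t.card = 3) : uu r T t ≤ 3 := by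
  refine (card_le_card uu_sub).trans ?_
  rw [card_powersetCard, ht]
  decide

/-- one predicted edge -/
theorem uu_le_two {r : ℕ} {T : Finset (Finset Pt)} {t : Finset Pt} (ht : t.card = 3) {p q : Pt}
    (hp : p ∈ t) (hq : q ∈ t) (hne : p ≠ q) (h : Pred r T p q) : uu r T t ≤ 2 := by
  have h1 : (unpF r T).filter (fun ε => ε ⊆ t) ⊆ (t.powersetCard 2).erase {p, q} := by
    intro ε hε
    rw [mem_erase]
    refine ⟨?_, uu_sub hε⟩
    rintro rfl
    rw [mem_filter, mem_unpF, mem_unpSet] at hε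
    exact hε.1.2 h
  refine (card_le_card h1).trans ?_
  rw [card_erase_of_mem, card_powersetCard, ht]
  · decide
  · rw [mem_powersetCard]
    refine ⟨?_, card_pair hne⟩
    intro x hx
    simp only [mem_insert, mem_singleton] at hx
    rcases hx with rfl | rfl <;> assumption

/-- two predicted edges -/
theorem uu_le_one {r : ℕ} {T : Finset (Finset Pt)} {a x y : Pt} (hax : a ≠ x) (hay : a ≠ y) (hxy : x ≠ y)
    (h1 : Pred r T a x) (h2 : Pred r T a y) :
    (unpF r T).filter (fun ε => ε ⊆ ({a, x, y} : Finset Pt)) ⊆ {{x, y}} := by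
  intro ε hε
  rw [mem_singleton]
  have h3 := uu_sub hε
  rw [mem_filter, mem_unpF] at hε
  obtain ⟨hε, hs⟩ := hε
  obtain ⟨p, q, rfl, h, h4⟩ := hε
  have hp : p ∈ ({a, x, y} : Finset Pt) := hs (by simp)
  have hq : q ∈ ({a, x, y} : Finset Pt) := hs (by simp)
  have hne := eNe h
  simp only [mem_insert, mem_singleton] at hp hq
  rcases hp with rfl | rfl | rfl <;> rcases hq with rfl | rfl | rfl
  · exact absurd rfl hne
  · exact absurd h1 h4
  · exact absurd h2 h4
  · exact absurd h1.symm h4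
  · exact absurd rfl hne
  · rfl
  · exact absurd h2.symm h4
  · exact pair_comm _ _
  · exact absurd rfl hne

/-- all three edges predicted -/
theorem uu_zero {r : ℕ} {T : Finset (Finset Pt)} {a x y : Pt}
    (h1 : Pred r T a x) (h2 : Pred r T a y) (h3 : Pred r T x y) : uu r T {a, x, y} = 0 := by
  unfold uu
  rw [card_eq_zero, filter_eq_empty_iff]
  intro ε hε hs
  rw [mem_unpF] at hε
  obtain ⟨p, q, rfl, h, h4⟩ := hε
  have hp : p ∈ ({a, x, y} : Finset Pt) := hs (by simp)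
  have hq : q ∈ ({a, x, y} : Finset Pt) := hs (by simp)
  have hne := eNe h
  simp only [mem_insert, mem_singleton] at hp hq
  rcases hp with rfl | rfl | rfl <;> rcases hq with rfl | rfl | rfl
  · exact absurd rfl hne
  · exact absurd h1 h4
  · exact absurd h2 h4
  · exact absurd h1.symm h4
  · exact absurd rfl hne
  · exact absurd h3 h4
  · exact absurd h2.symm h4
  · exact absurd h3.symm h4
  · exact absurd rfl hne

/-- what is needed from a unimodular triangulation of the square -/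
structure BaseOK (n : ℕ) (T : Finset (Finset Pt)) : Prop where
  c3 : ∀ t ∈ T, t.card = 3
  two : ∀ t ∈ T, ∀ s ∈ T, ∀ u ∈ T, ∀ x y : Pt, x ≠ y → x ∈ t → y ∈ t → x ∈ s → y ∈ s → x ∈ u → y ∈ u →
    t = s ∨ t = u ∨ s = u
  nb : ∀ t ∈ T, ∀ x y : Pt, x ≠ y → x ∈ t → y ∈ t → ¬ OnSd n x y → ∃ s ∈ T, s ≠ t ∧ x ∈ s ∧ y ∈ s
  side : ∀ t ∈ T, ∀ x y : Pt, x ≠ y → x ∈ t → y ∈ t → OnSd n x y →
    InSq n x ∧ InSq n y ∧ |x.1 - y.1| ≤ 1 ∧ |x.2 - y.2| ≤ 1

/-- boundary edges of the square -/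
noncomputable def bdF (n : ℕ) : Finset (Finset Pt) :=
  (range n).image (fun i : ℕ => {((0 : ℤ), (i : ℤ)), (0, (i : ℤ) + 1)}) ∪
  (range n).image (fun i : ℕ => {((n : ℤ), (i : ℤ)), ((n : ℤ), (i : ℤ) + 1)}) ∪
  ((range n).image (fun i : ℕ => {((i : ℤ), (0 : ℤ)), ((i : ℤ) + 1, 0)}) ∪
  (range n).image (fun i : ℕ => {((i : ℤ), (n : ℤ)), ((i : ℤ) + 1, (n : ℤ))}))

theorem card_bdF (n : ℕ) : (bdF n).card ≤ 4 * n := by
  unfold bdF
  have h := fun f : ℕ → Finset Pt => (card_image_le (s := range n) (f := f)).trans (card_range n).le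
  refine (card_union_le _ _).trans ?_
  refine (add_le_add (card_union_le _ _) (card_union_le _ _)).trans ?_
  have := add_le_add (add_le_add (h (fun i : ℕ => {((0 : ℤ), (i : ℤ)), (0, (i : ℤ) + 1)}))
    (h (fun i : ℕ => {((n : ℤ), (i : ℤ)), ((n : ℤ), (i : ℤ) + 1)})))
    (add_le_add (h (fun i : ℕ => {((i : ℤ), (0 : ℤ)), ((i : ℤ) + 1, 0)}))
    (h (fun i : ℕ => {((i : ℤ), (n : ℤ)), ((i : ℤ) + 1, (n : ℤ))})))
  refine this.trans (by omega)

theorem mem_bdF {n : ℕ} {x y : Pt} (hne : x ≠ y) (hx : InSq n x) (hy : InSq n y) (h1 : |x.1 - y.1| ≤ 1)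
    (h2 : |x.2 - y.2| ≤ 1) (hs : OnSd n x y) : ({x, y} : Finset Pt) ∈ bdF n := by
  obtain ⟨x1, x2⟩ := x
  obtain ⟨y1, y2⟩ := y
  simp only [InSq] at hx hy
  simp only at h1 h2
  simp only [OnSd] at hs
  rw [abs_le] at h1 h2
  unfold bdF
  simp only [mem_union, mem_image, mem_range]
  rcases hs with ⟨e1, e2⟩ | ⟨e1, e2⟩ | ⟨e1, e2⟩ | ⟨e1, e2⟩
  · left; left
    have hne2 : x2 ≠ y2 := fun h => hne (by rw [e1, e2, h])
    rcases lt_or_gt_of_ne hne2 with h | h
    · refine ⟨x2.toNat, by omega, ?_⟩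
      rw [Int.toNat_of_nonneg (by omega), show x2 + 1 = y2 by omega, e1, e2]
    · refine ⟨y2.toNat, by omega, ?_⟩
      rw [Int.toNat_of_nonneg (by omega), show y2 + 1 = x2 by omega, e1, e2, pair_comm]
  · left; right
    have hne2 : x2 ≠ y2 := fun h => hne (by rw [e1, e2, h])
    rcases lt_or_gt_of_ne hne2 with h | h
    · refine ⟨x2.toNat, by omega, ?_⟩
      rw [Int.toNat_of_nonneg (by omega), show x2 + 1 = y2 by omega, e1, e2]
    · refine ⟨y2.toNat, by omega, ?_⟩
      rw [Int.toNat_of_nonneg (by omega), show y2 + 1 = x2 by omega, e1, e2, pair_comm]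
  · right; left
    have hne2 : x1 ≠ y1 := fun h => hne (by rw [e1, e2, h])
    rcases lt_or_gt_of_ne hne2 with h | h
    · refine ⟨x1.toNat, by omega, ?_⟩
      rw [Int.toNat_of_nonneg (by omega), show x1 + 1 = y1 by omega, e1, e2]
    · refine ⟨y1.toNat, by omega, ?_⟩
      rw [Int.toNat_of_nonneg (by omega), show y1 + 1 = x1 by omega, e1, e2, pair_comm]
  · right; right
    have hne2 : x1 ≠ y1 := fun h => hne (by rw [e1, e2, h])
    rcases lt_or_gt_of_ne hne2 with h | h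
    · refine ⟨x1.toNat, by omega, ?_⟩
      rw [Int.toNat_of_nonneg (by omega), show x1 + 1 = y1 by omega, e1, e2]
    · refine ⟨y1.toNat, by omega, ?_⟩
      rw [Int.toNat_of_nonneg (by omega), show y1 + 1 = x1 by omega, e1, e2, pair_comm]

theorem two_unp_le {n r : ℕ} {T : Finset (Finset Pt)} (hT : BaseOK n T) :
    2 * Unp r T ≤ ∑ t ∈ T, uu r T t + 4 * n := by
  rw [unp_eq]
  have h1 : ∀ ε ∈ unpF r T, 2 ≤ (T.filter (fun t => ε ⊆ t)).card + (if ε ∈ bdF n then 1 else 0) := by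
    intro ε hε
    rw [mem_unpF] at hε
    obtain ⟨x, y, rfl, he, -⟩ := hε
    have hne := eNe he
    obtain ⟨t, ht, hx, hy⟩ := eMem he
    have ht' : t ∈ T.filter (fun t => ({x, y} : Finset Pt) ⊆ t) := by
      rw [mem_filter]
      refine ⟨ht, ?_⟩
      intro z hz
      simp only [mem_insert, mem_singleton] at hz
      rcases hz with rfl | rfl <;> assumption
    by_cases hs : OnSd n x y
    · obtain ⟨a, b, c, d⟩ := hT.side t ht x y hne hx hy hs
      rw [if_pos (mem_bdF hne a b c d hs)]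
      have : 0 < (T.filter (fun t => ({x, y} : Finset Pt) ⊆ t)).card := card_pos.mpr ⟨t, ht'⟩
      omega
    · obtain ⟨s, hs1, hs2, hs3, hs4⟩ := hT.nb t ht x y hne hx hy hs
      have hs' : s ∈ T.filter (fun t => ({x, y} : Finset Pt) ⊆ t) := by
        rw [mem_filter]
        refine ⟨hs1, ?_⟩
        intro z hz
        simp only [mem_insert, mem_singleton] at hz
        rcases hz with rfl | rfl <;> assumption
      have : 1 < (T.filter (fun t => ({x, y} : Finset Pt) ⊆ t)).card :=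
        one_lt_card.mpr ⟨s, hs', t, ht', hs2⟩
      omega
  have h2 := sum_le_sum h1
  rw [sum_const, smul_eq_mul, sum_add_distrib] at h2
  have h3 : ∑ ε ∈ unpF r T, (T.filter (fun t => ε ⊆ t)).card = ∑ t ∈ T, uu r T t := by
    unfold uu
    simp only [card_filter]
    rw [sum_comm]
  have h4 : ∑ ε ∈ unpF r T, (if ε ∈ bdF n then 1 else 0) ≤ 4 * n := by
    rw [← card_filter]
    refine le_trans (card_le_card ?_) (card_bdF n)
    intro ε hε
    exact (mem_filter.mp hε).2
  rw [h3] at h2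
  omega

end Pool.Agent.IT.UnpM
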