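import Pool.Agent.IT.UnpCore

/-!
# M15 `unp_refill` from the statements of the other modules
-/

set_option autoImplicit false

namespace Pool.Agent.IT.UnpM

open Finset Classical

variable {n : ℕ} {T : Finset (Finset Pt)}

theorem pos_cyc {p q r : Pt} (h : Pos T p q r) : Pos T q r p := by
  refine ⟨?_, ?_⟩
  · have : ({q, r, p} : Finset Pt) = {p, q, r} := by
      ext x; simp only [mem_insert, mem_singleton]; tauto
    rw [this]; exact h.1
  · rw [← h.2]; simp only [det]; ring

theorem pos_ne {p q r : Pt} (h : Pos T p q r) : p ≠ q := by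
  rintro rfl
  have := h.2
  simp [det] at this

/-- every edge of a triangle, oriented -/
theorem edge_pos {t : Finset Pt} (h : ∃ p q r, t = {p, q, r} ∧ Pos T p q r) {x y : Pt} (hne : x ≠ y)
    (hx : x ∈ t) (hy : y ∈ t) : ∃ z, t = {x, y, z} ∧ (Pos T x y z ∨ Pos T y x z) := by
  obtain ⟨p, q, r, rfl, h⟩ := h
  have h2 := pos_cyc h
  have h3 := pos_cyc h2
  simp only [mem_insert, mem_singleton] at hx hy
  rcases hx with rfl | rfl | rfl <;> rcases hy with rfl | rfl | rfl
  · exact absurd rfl hne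
  · exact ⟨r, rfl, Or.inl h⟩
  · exact ⟨q, by ext z; simp only [mem_insert, mem_singleton]; tauto, Or.inr h3⟩
  · exact ⟨r, by ext z; simp only [mem_insert, mem_singleton]; tauto, Or.inr h⟩
  · exact absurd rfl hne
  · exact ⟨p, by ext z; simp only [mem_insert, mem_singleton]; tauto, Or.inl h2⟩
  · exact ⟨q, by ext z; simp only [mem_insert, mem_singleton]; tauto, Or.inl h3⟩
  · exact ⟨p, by ext z; simp only [mem_insert, mem_singleton]; tauto, Or.inr h2⟩
  · exact absurd rfl hne

theorem side_aux {a b : ℤ} (h : a * b = 1 ∨ a * b = -1) : |a| ≤ 1 := by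
  have h1 : |a| * |b| = 1 := by
    rw [← abs_mul]
    rcases h with h | h <;> rw [h] <;> simp
  have h2 := abs_nonneg a
  have h3 := abs_nonneg b
  by_contra hc
  have hb : |b| ≠ 0 := by rintro h0; rw [h0] at h1; simp at h1
  have : 1 ≤ |b| := by omega
  nlinarith

theorem baseOK_of (hsq : ∀ t ∈ T, ∀ p ∈ t, InSq n p)
    (hpos : ∀ t ∈ T, ∃ p q r, t = {p, q, r} ∧ Pos T p q r)
    (huniq : ∀ p q r s, Pos T p q r → Pos T p q s → r = s)
    (hnb : ∀ p q r, Pos T p q r → ¬ OnSd n p q → ∃ z, Pos T q p z) : BaseOK n T where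
  c3 := by
    intro t ht
    obtain ⟨p, q, r, rfl, h⟩ := hpos t ht
    have h2 := pos_ne h
    have h3 := pos_ne (pos_cyc h)
    have h4 := pos_ne (pos_cyc (pos_cyc h))
    exact card_eq_three.mpr ⟨p, q, r, h2, h4.symm, h3, rfl⟩
  two := by
    intro t ht s hs u hu x y hne h1 h2 h3 h4 h5 h6
    obtain ⟨z1, e1, p1⟩ := edge_pos (hpos t ht) hne h1 h2
    obtain ⟨z2, e2, p2⟩ := edge_pos (hpos s hs) hne h3 h4
    obtain ⟨z3, e3, p3⟩ := edge_pos (hpos u hu) hne h5 h6
    rcases p1 with p1 | p1 <;> rcases p2 with p2 | p2 <;> rcases p3 with p3 | p3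
    · left; rw [e1, e2, huniq _ _ _ _ p1 p2]
    · left; rw [e1, e2, huniq _ _ _ _ p1 p2]
    · right; left; rw [e1, e3, huniq _ _ _ _ p1 p3]
    · right; right; rw [e2, e3, huniq _ _ _ _ p2 p3]
    · right; right; rw [e2, e3, huniq _ _ _ _ p2 p3]
    · right; left; rw [e1, e3, huniq _ _ _ _ p1 p3]
    · left; rw [e1, e2, huniq _ _ _ _ p1 p2]
    · left; rw [e1, e2, huniq _ _ _ _ p1 p2]
  nb := by
    intro t ht x y hne hx hy hs
    obtain ⟨z, e, p⟩ := edge_pos (hpos t ht) hne hx hy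
    have hs' : ¬ OnSd n y x := by
      intro h; apply hs
      rcases h with h | h | h | h
      · exact Or.inl h.symm
      · exact Or.inr (Or.inl h.symm)
      · exact Or.inr (Or.inr (Or.inl h.symm))
      · exact Or.inr (Or.inr (Or.inr h.symm))
    have hkey : ∀ a b c d : Pt, Pos T a b c → Pos T b a d → ({b, a, d} : Finset Pt) ≠ {a, b, c} := by
      intro a b c d g1 g2 he
      have hd : d ∈ ({a, b, c} : Finset Pt) := by rw [← he]; simp
      have n1 := pos_ne (pos_cyc g2)
      have n2 := pos_ne (pos_cyc (pos_cyc g2))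
      simp only [mem_insert, mem_singleton] at hd
      rcases hd with rfl | rfl | rfl
      · exact n1 rfl
      · exact n2 rfl
      · have a1 := g1.2
        have a2 := g2.2
        simp only [det] at a1 a2
        linarith
    rcases p with p | p
    · obtain ⟨w, hw⟩ := hnb _ _ _ p hs
      refine ⟨_, hw.1, ?_, by simp, by simp⟩
      rw [e]
      exact hkey _ _ _ _ p hw
    · obtain ⟨w, hw⟩ := hnb _ _ _ p hs'
      refine ⟨_, hw.1, ?_, by simp, by simp⟩
      have e' : t = {y, x, z} := by rw [e]; ext u; simp only [mem_insert, mem_singleton]; tauto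
      rw [e']
      exact hkey _ _ _ _ p hw
  side := by
    intro t ht x y hne hx hy hs
    refine ⟨hsq t ht x hx, hsq t ht y hy, ?_⟩
    obtain ⟨z, e, p⟩ := edge_pos (hpos t ht) hne hx hy
    have hdet : det x y z = 1 ∨ det x y z = -1 := by
      rcases p with p | p
      · exact Or.inl p.2
      · right
        have := p.2
        simp only [det] at this ⊢
        linarith
    simp only [det] at hdet
    rcases hs with ⟨e1, e2⟩ | ⟨e1, e2⟩ | ⟨e1, e2⟩ | ⟨e1, e2⟩
    · rw [e1, e2] at hdet ⊢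
      refine ⟨by simp, side_aux (b := z.1) ?_⟩
      rcases hdet with h | h
      · left; linarith
      · right; linarith
    · rw [e1, e2] at hdet ⊢
      refine ⟨by simp, side_aux (b := z.1 - n) ?_⟩
      rcases hdet with h | h
      · left; linarith
      · right; linarith
    · rw [e1, e2] at hdet ⊢
      refine ⟨side_aux (b := z.2) ?_, by simp⟩
      rcases hdet with h | h
      · right; linarith
      · left; linarith
    · rw [e1, e2] at hdet ⊢
      refine ⟨side_aux (b := z.2 - n) ?_, by simp⟩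
      rcases hdet with h | h
      · right; linarith
      · left; linarith

/-- `unp_refill` from the statements of the other modules -/
theorem unp_refill_of
    (ut_card : ∀ {n : ℕ} {T : Finset (Finset Pt)}, UT n T → T.card = 2 * n ^ 2)
    (pos_of_mem : ∀ {n : ℕ} {T : Finset (Finset Pt)}, UT n T → ∀ {t : Finset Pt}, t ∈ T →
      ∃ p q r, t = {p, q, r} ∧ Pos T p q r)
    (pos_unique : ∀ {n : ℕ} {T : Finset (Finset Pt)}, UT n T → ∀ {p q r s : Pt},
      Pos T p q r → Pos T p q s → r = s)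
    (pos_neighbor : ∀ {n : ℕ} {T : Finset (Finset Pt)}, UT n T → ∀ {p q r : Pt}, Pos T p q r →
      ¬ OnSd n p q → ∃ z, Pos T q p z)
    (family : ∃ C : ℕ, ∀ (n : ℕ) (T V : Finset (Finset Pt)) (S : Finset Pt → Slab), UT n T → Str n T V S →
      ∃ F : Finset BoxD, Fam n T F ∧
      (∀ D ∈ F, ∀ t ∈ D.BT T, t ∈ V ∧ S t = (D.e, crs D.e D.a, 2)) ∧
      F.card ≤ C * (T \ V).card ∧
      ∀ r : ℕ, ({t | t ∈ V ∧ t ∉ F.biUnion (fun D => D.BT T) ∧ (S t).2.2 ≤ 2 ∧ ¬ Straight r V S t}).ncard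
        ≤ C * (r + 1) * (T \ V).card)
    (fine3_count : ∃ C : ℕ, ∀ (n : ℕ) (T V : Finset (Finset Pt)) (S : Finset Pt → Slab), UT n T →
      Str n T V S → ∀ r : ℕ,
      ({t | t ∈ V ∧ (S t).2.2 = 3 ∧ ¬ Fine3 r V S t}).ncard ≤ C * (r + 1) * (T \ V).card)
    (BT_card : ∀ {n : ℕ} {T : Finset (Finset Pt)}, UT n T → ∀ {D : BoxD}, IsBox n T D →
      (D.BT T).card = 2 * (D.p + D.q))
    (refill_UT : ∀ {n : ℕ} {T : Finset (Finset Pt)}, UT n T → ∀ {F : Finset BoxD}, Fam n T F →
      UT n (refill T F))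
    (unit_survives : ∀ {n : ℕ} {T : Finset (Finset Pt)}, UT n T → ∀ {D : BoxD}, IsBox n T D →
      ∀ {t : Finset Pt}, t ∈ D.BT T → ∀ {x : Pt}, x ∈ t → x + D.e ∈ t →
      ∃ s ∈ D.canon, x ∈ s ∧ x + D.e ∈ s) :
    ∃ C : ℕ, ∀ (n : ℕ) (T V : Finset (Finset Pt)) (S : Finset Pt → Slab), UT n T →
    Str n T V S → ∃ F : Finset BoxD, Fam n T F ∧ F.card ≤ C * (T \ V).card ∧
      ∀ r : ℕ, Unp r (refill T F) + ∑ D ∈ F, 2 * (D.p + D.q) ≤
        2 * n ^ 2 + 2 * n + C * (r + 1) * (T \ V).card := by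
  obtain ⟨C1, h1⟩ := family
  obtain ⟨C3, h3⟩ := fine3_count
  refine ⟨1 + 13 * C1 + C3, ?_⟩
  intro n T V S hT hV
  obtain ⟨F, hF, hbox, hFc, hX⟩ := h1 n T V S hT hV
  have hT' := refill_UT hT hF
  refine ⟨F, hF, ?_, ?_⟩
  · refine hFc.trans (Nat.mul_le_mul_right _ (by omega))
  · intro r
    have hb : BaseOK n (refill T F) := baseOK_of
      (fun t ht p hp => by obtain ⟨a, b, c, -, h, -⟩ := hT'.tri t ht; exact h p hp)
      (fun t ht => pos_of_mem hT' ht) (fun p q r s => pos_unique hT') (fun p q r => pos_neighbor hT')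
    have hU : TriOK (refill T F) := fun t ht => pos_of_mem hT' ht
    have key := unp_core (r := r) hV (ut_card hT) hb hU (fun D hD => BT_card hT (hF.box D hD)) hF.disj hbox
      (fun D hD => (hF.box D hD).ok)
      (fun D hD t ht x hx hxe => unit_survives hT (hF.box D hD) ht hx hxe)
      _ _ (hX r) (h3 n T V S hT hV r)
    have e1 : (12 * r + 6) * F.card ≤ (12 * r + 12) * (C1 * (T \ V).card) :=
      Nat.mul_le_mul (by omega) hFc
    set v := (T \ V).card with hv
    have e2 : (12 * r + 12) * (C1 * v) = 12 * C1 * (r + 1) * v := by ring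
    have e3 : (1 + 13 * C1 + C3) * (r + 1) * v =
      (r + 1) * v + 12 * C1 * (r + 1) * v + C1 * (r + 1) * v + C3 * (r + 1) * v := by ring
    have e4 : v ≤ (r + 1) * v := Nat.le_mul_of_pos_left v (by omega)
    have e5 : 2 * (2 * n ^ 2) = 4 * n ^ 2 := by ring
    omega

end Pool.Agent.IT.UnpM
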