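import Pool.Agent.IT.EdgeFn

/-!
# A set of `m` triangles has at least `m / 2` vertices

Every triangle has a middle vertex with respect to the linear form `lf`, and a vertex is the middle
vertex of at most two triangles (one on each side).
-/

set_option autoImplicit false

namespace Pool.Agent.IT

variable {n : ℕ} {T : Finset (Finset Pt)}

namespace VC

/-- a linear form -/
def li (α β : ℤ) (m v : Pt) : ℤ := α * (v.1 - m.1) + β * (v.2 - m.2)

theorem li_identity (α β : ℤ) (m u v w : Pt) :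
    li α β m u * det m v w + li α β m v * det m w u + li α β m w * det m u v = 0 := by
  simp only [li, det]; ring

theorem key (hT : UT n T) {α β : ℤ} {m x y x' y' : Pt} (h : Pos T m x y) (h' : Pos T m x' y')
    (hx : 0 < li α β m x) (hy : li α β m y < 0) (hx' : 0 < li α β m x') (hy' : li α β m y' < 0) :
    x = x' := by
  have aux : ∀ {x y x' y' : Pt}, Pos T m x y → Pos T m x' y' → 0 < li α β m x → li α β m y < 0 →
      0 < li α β m x' → li α β m y' < 0 → ¬ 0 < det m x x' := by
    intro x y x' y' h h' hx hy hx' hy' hd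
    apply h.no_cone hT h'.edge hd
    have e := li_identity α β m x x' y
    have h1 : det m y x = -1 := by
      rw [det_swap' m x y, h.2]
    rw [h1] at e
    nlinarith
  rcases lt_trichotomy (det m x x') 0 with hd | hd | hd
  · exfalso
    apply aux h' h hx' hy' hx hy
    rw [det_swap' m x x']
    linarith
  · obtain ⟨k, k1, k2⟩ := h.edge.eq_of_det_zero hd
    have hd' : det m x' x = 0 := by rw [det_swap' m x x', hd]; ring
    obtain ⟨j, j1, j2⟩ := h'.edge.eq_of_det_zero hd'
    have e1 : li α β m x' = k * li α β m x := by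
      simp only [li]; rw [k1, k2]; ring
    have e2 : li α β m x = j * li α β m x' := by
      simp only [li]; rw [j1, j2]; ring
    have hk := eq_one_of_mutual hx' hx e1 e2
    rw [hk] at k1 k2
    exact Prod.ext (by linarith) (by linarith)
  · exact absurd hd (aux h h' hx hy hx' hy')

theorem key2 (hT : UT n T) {α β : ℤ} {m x y x' y' : Pt} (h : Pos T m x y) (h' : Pos T m x' y')
    (hx : 0 < li α β m x) (hy : li α β m y < 0) (hx' : 0 < li α β m x') (hy' : li α β m y' < 0) :
    ({m, x, y} : Finset Pt) = {m, x', y'} := by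
  obtain rfl := key hT h h' hx hy hx' hy'
  obtain rfl := h.unique hT h'
  rfl

/-- the middle vertex -/
theorem exists_mid (hT : UT n T) {t : Finset Pt} (ht : t ∈ T) :
    ∃ (m x y : Pt) (b : Bool), Pos T m x y ∧ t = {m, x, y} ∧
      (b = true → 0 < li ((n : ℤ) + 1) 1 m x ∧ li ((n : ℤ) + 1) 1 m y < 0) ∧
      (b = false → 0 < li (-((n : ℤ) + 1)) (-1) m x ∧ li (-((n : ℤ) + 1)) (-1) m y < 0) := by
  obtain ⟨p, q, r, rfl, h⟩ := hT.exists_pos ht
  have hB : (n : ℤ) < (n : ℤ) + 1 := by linarith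
  have hp := h.insq hT
  have hq := h.cyc.insq hT
  have hr := h.cyc'.insq hT
  have n1 : lf ((n : ℤ) + 1) p ≠ lf ((n : ℤ) + 1) q := fun e => h.ne (lf_injOn hB hp hq e)
  have n2 : lf ((n : ℤ) + 1) q ≠ lf ((n : ℤ) + 1) r := fun e => h.cyc.ne (lf_injOn hB hq hr e)
  have n3 : lf ((n : ℤ) + 1) p ≠ lf ((n : ℤ) + 1) r := fun e => h.ne' (lf_injOn hB hp hr e)
  have l1 : ∀ a b : Pt, li ((n : ℤ) + 1) 1 a b = lf ((n : ℤ) + 1) b - lf ((n : ℤ) + 1) a := by
    intro a b; simp only [li, lf]; ring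
  have l2 : ∀ a b : Pt, li (-((n : ℤ) + 1)) (-1) a b = lf ((n : ℤ) + 1) a - lf ((n : ℤ) + 1) b := by
    intro a b; simp only [li, lf]; ring
  have e1 : ({p, q, r} : Finset Pt) = {q, r, p} := by ext x; simp; tauto
  have e2 : ({p, q, r} : Finset Pt) = {r, p, q} := by ext x; simp; tauto
  simp only [l1, l2]
  rcases lt_or_gt_of_ne n1 with g1 | g1 <;> rcases lt_or_gt_of_ne n2 with g2 | g2 <;>
    rcases lt_or_gt_of_ne n3 with g3 | g3
  · -- p < q < r : middle q, next r up, p down
    exact ⟨q, r, p, true, h.cyc, e1, fun _ => ⟨by linarith, by linarith⟩, by simp⟩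
  · exfalso; linarith
  · -- p < r < q : middle r, next p down, q up
    exact ⟨r, p, q, false, h.cyc', e2, by simp, fun _ => ⟨by linarith, by linarith⟩⟩
  · -- r < p < q : middle p, next q up, r down
    exact ⟨p, q, r, true, h, rfl, fun _ => ⟨by linarith, by linarith⟩, by simp⟩
  · -- q < p < r: middle p, next q down, r up
    exact ⟨p, q, r, false, h, rfl, by simp, fun _ => ⟨by linarith, by linarith⟩⟩
  · -- q < r < p : middle r, next p up, q down
    exact ⟨r, p, q, true, h.cyc', e2, fun _ => ⟨by linarith, by linarith⟩, by simp⟩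
  · exfalso; linarith
  · -- r < q < p : middle q, next r down, p up
    exact ⟨q, r, p, false, h.cyc, e1, by simp, fun _ => ⟨by linarith, by linarith⟩⟩

end VC

open VC in
/-- A set of `m` triangles of a unimodular triangulation has at least `m / 2` vertices. -/
theorem card_le_verts (hT : UT n T) {C : Finset (Finset Pt)} (hC : C ⊆ T) :
    C.card ≤ 2 * (C.biUnion id).card := by
  classical
  have hex : ∀ t ∈ C, ∃ w : Pt × Pt × Pt × Bool, Pos T w.1 w.2.1 w.2.2.1 ∧ t = {w.1, w.2.1, w.2.2.1} ∧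
      (w.2.2.2 = true → 0 < li ((n : ℤ) + 1) 1 w.1 w.2.1 ∧ li ((n : ℤ) + 1) 1 w.1 w.2.2.1 < 0) ∧
      (w.2.2.2 = false → 0 < li (-((n : ℤ) + 1)) (-1) w.1 w.2.1 ∧
        li (-((n : ℤ) + 1)) (-1) w.1 w.2.2.1 < 0) := by
    intro t ht
    obtain ⟨m, x, y, b, h⟩ := exists_mid hT (hC ht)
    exact ⟨(m, x, y, b), h⟩
  choose! w hw using hex
  have h1 := Finset.card_le_card_of_injOn (s := C) (t := (C.biUnion id) ×ˢ (Finset.univ : Finset Bool))
    (fun t => ((w t).1, (w t).2.2.2)) ?_ ?_
  · rw [Finset.card_product, Finset.card_univ, Fintype.card_bool] at h1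
    linarith
  · intro t ht
    have ht' := Finset.mem_coe.1 ht
    obtain ⟨g1, g2, -⟩ := hw t ht'
    simp only [Finset.coe_product, Finset.coe_univ, Set.mem_prod, Set.mem_univ, and_true,
      Finset.mem_coe]
    refine Finset.mem_biUnion.2 ⟨t, ht', ?_⟩
    have : (w t).1 ∈ ({(w t).1, (w t).2.1, (w t).2.2.1} : Finset Pt) := by simp
    exact (congrArg (fun f => (w t).1 ∈ f) g2).mpr this
  · intro t ht s hs he
    have ht' := Finset.mem_coe.1 ht
    have hs' := Finset.mem_coe.1 hs
    obtain ⟨g1, g2, g3, g4⟩ := hw t ht'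
    obtain ⟨k1, k2, k3, k4⟩ := hw s hs'
    simp only [Prod.mk.injEq] at he
    obtain ⟨e1, e2⟩ := he
    rw [← e1] at k1 k2 k3 k4
    rw [← e2] at k3 k4
    rw [g2, k2]
    rcases Bool.eq_false_or_eq_true (w t).2.2.2 with hb | hb
    · exact key2 hT g1 k1 (g3 hb).1 (g3 hb).2 (k3 hb).1 (k3 hb).2
    · exact key2 hT g1 k1 (g4 hb).1 (g4 hb).2 (k4 hb).1 (k4 hb).2

end Pool.Agent.IT
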