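import Pool.Agent.IT.Star

/-!
# Heights in a unimodular fan with straight ends
-/

set_option autoImplicit false

namespace Pool.Agent.IT

namespace WallAux

theorem crs_add_right (u v w : Pt) : crs u (v + w) = crs u v + crs u w := by
  simp only [crs, Prod.fst_add, Prod.snd_add]; ring

theorem crs_self (u : Pt) : crs u u = 0 := by simp only [crs]; ring

theorem crs_neg_right (u v : Pt) : crs u (-v) = - crs u v := by
  simp only [crs, Prod.fst_neg, Prod.snd_neg]; ring

/-- coordinates with respect to a unimodular basis -/
theorem basis_eq {a g : Pt} (h : crs a g = 1) (w : Pt) :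
    w = crs w g • a + crs a w • g := by
  simp only [crs] at *
  ext
  · simp only [Prod.fst_add, Prod.smul_fst, smul_eq_mul]
    linear_combination (-w.1) * h
  · simp only [Prod.snd_add, Prod.smul_snd, smul_eq_mul]
    linear_combination (-w.2) * h

theorem three_term {a g b : Pt} (h1 : crs a g = 1) (h2 : crs g b = 1) : a + b = crs a b • g := by
  have h := basis_eq h1 b
  have h3 : crs b g = -1 := by
    have : crs b g = - crs g b := by simp only [crs]; ring
    rw [this, h2]
  rw [h3] at h
  have h4 : a + b = a + ((-1 : ℤ) • a + crs a b • g) := by rw [← h]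
  rw [h4]
  ext
  · simp only [Prod.fst_add, Prod.smul_fst, smul_eq_mul]; ring
  · simp only [Prod.snd_add, Prod.smul_snd, smul_eq_mul]; ring

theorem height_three {e a g b : Pt} (h1 : crs a g = 1) (h2 : crs g b = 1) :
    crs e a + crs e b = crs a b * crs e g := by
  have h := three_term h1 h2
  have h3 : crs e (a + b) = crs a b * crs e g := by
    rw [h]
    simp only [crs, Prod.smul_fst, Prod.smul_snd, smul_eq_mul]
    ring
  rw [← h3, crs_add_right]

/-- **Heights lemma.** -/
theorem heights (e : Pt) : ∀ (N : ℕ) (l : List Pt), l.length = N → l ≠ [] →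
    List.IsChain (fun a b => crs a b = 1) (e :: (l ++ [-e])) → (∀ g ∈ l, 0 < crs e g) →
    ∀ g ∈ l, crs e g ≤ 2 ^ (N - 1) := by
  intro N
  induction N using Nat.strong_induction_on with
  | _ N ih =>
    intro l hlen hl hch hpos
    by_cases hsmall : ∀ g ∈ l, crs e g ≤ 1
    · intro g hg
      exact (hsmall g hg).trans (one_le_pow₀ (by norm_num))
    push Not at hsmall
    obtain ⟨g0, hg0, hg0'⟩ := hsmall
    classical
    obtain ⟨g, hg, hmax⟩ := l.toFinset.exists_max_image (fun g => crs e g)
      ⟨g0, List.mem_toFinset.2 hg0⟩
    rw [List.mem_toFinset] at hg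
    have hmax' : ∀ x ∈ l, crs e x ≤ crs e g := fun x hx => hmax x (List.mem_toFinset.2 hx)
    have hH : 2 ≤ crs e g := by
      have := hmax' g0 hg0
      omega
    -- `e` is primitive
    have hprim : ∃ f, crs e f = 1 := by
      cases l with
      | nil => exact absurd rfl hl
      | cons x l =>
        rw [List.cons_append, List.isChain_cons_cons] at hch
        exact ⟨x, hch.1⟩
    obtain ⟨f, hf⟩ := hprim
    obtain ⟨l1, l2, rfl⟩ := List.append_of_mem hg
    -- predecessor
    obtain ⟨A', a, hA⟩ : ∃ A' a, e :: l1 = A' ++ [a] := by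
      rcases List.eq_nil_or_concat (e :: l1) with h | ⟨A', a, h⟩
      · exact absurd h (by simp)
      · exact ⟨A', a, by simpa using h⟩
    obtain ⟨b, B', hB⟩ : ∃ b B', l2 ++ [-e] = b :: B' := by
      cases hB : l2 ++ [-e] with
      | nil => simp at hB
      | cons b B' => exact ⟨b, B', rfl⟩
    have hfull : e :: ((l1 ++ g :: l2) ++ [-e]) = A' ++ (a :: g :: b :: B') := by
      have : e :: ((l1 ++ g :: l2) ++ [-e]) = (e :: l1) ++ (g :: (l2 ++ [-e])) := by simp
      rw [this, hA, hB]
      simp
    rw [hfull, List.isChain_split, List.isChain_cons_cons, List.isChain_cons_cons] at hch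
    obtain ⟨c1, c2, c3, c4⟩ := hch
    -- membership
    have ha : a = e ∨ a ∈ l1 := by
      have : a ∈ e :: l1 := by rw [hA]; simp
      simpa using this
    have hb : b = -e ∨ b ∈ l2 := by
      have : b ∈ l2 ++ [-e] := by rw [hB]; simp
      rcases List.mem_append.1 this with h | h
      · exact Or.inr h
      · exact Or.inl (List.mem_singleton.1 h)
    have ha0 : 0 ≤ crs e a ∧ crs e a ≤ crs e g := by
      rcases ha with rfl | h
      · rw [crs_self]; omega
      · have hm : a ∈ l1 ++ g :: l2 := by simp [h]
        exact ⟨(hpos a hm).le, hmax' a hm⟩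
    have hb0 : 0 ≤ crs e b ∧ crs e b ≤ crs e g := by
      rcases hb with rfl | h
      · rw [crs_neg_right, crs_self]; omega
      · have hm : b ∈ l1 ++ g :: l2 := by simp [h]
        exact ⟨(hpos b hm).le, hmax' b hm⟩
    -- neighbours are strictly lower
    have hdiv : ∀ H : ℤ, 2 ≤ H → ∀ w : Pt, e = H • w → False := by
      intro H hH w hw
      have h1 : H * crs w f = 1 := by
        rw [← hf, hw]
        simp only [crs, Prod.smul_fst, Prod.smul_snd, smul_eq_mul]; ring
      rcases Int.eq_one_or_neg_one_of_mul_eq_one h1 with h | h <;> omega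
    have ha1 : crs e a ≠ crs e g := by
      intro h
      refine hdiv _ hH (a - g) ?_
      have h1 := basis_eq c2 e
      have h2 : crs a e = - crs e g := by rw [← h]; simp only [crs]; ring
      rw [h2] at h1
      conv_lhs => rw [h1]
      ext
      · simp only [Prod.fst_add, Prod.smul_fst, Prod.fst_sub, smul_eq_mul]; ring
      · simp only [Prod.snd_add, Prod.smul_snd, Prod.snd_sub, smul_eq_mul]; ring
    have hb1 : crs e b ≠ crs e g := by
      intro h
      refine hdiv _ hH (g - b) ?_
      have h1 := basis_eq c3 e
      have h2 : crs g e = - crs e g := by simp only [crs]; ring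
      rw [h2, h] at h1
      conv_lhs => rw [h1]
      ext
      · simp only [Prod.fst_add, Prod.smul_fst, Prod.fst_sub, smul_eq_mul]; ring
      · simp only [Prod.snd_add, Prod.smul_snd, Prod.snd_sub, smul_eq_mul]; ring
    have hsum := height_three (e := e) c2 c3
    set c := crs a b with hc
    have hcle : c ≤ 1 := by
      by_contra hcon
      push Not at hcon
      have h2 : 2 * crs e g ≤ c * crs e g := by nlinarith
      omega
    have hends : ¬ (a = e ∧ b = -e) := by
      rintro ⟨rfl, rfl⟩
      rw [c2] at hH
      omega
    have hcpos : 0 < c := by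
      by_contra hcon
      push Not at hcon
      have h2 : c * crs e g ≤ 0 := by nlinarith
      have h3 : crs e a = 0 := by omega
      have h4 : crs e b = 0 := by omega
      apply hends
      constructor
      · rcases ha with h | h
        · exact h
        · have := hpos a (by simp [h]); omega
      · rcases hb with h | h
        · exact h
        · have := hpos b (by simp [h]); omega
    have hc1 : c = 1 := by omega
    rw [hc1, one_mul] at hsum
    -- the shorter list
    have hne : l1 ++ l2 ≠ [] := by
      intro h
      obtain ⟨h1, h2⟩ := List.append_eq_nil_iff.1 h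
      apply hends
      rw [h1] at ha
      rw [h2] at hb
      exact ⟨by simpa using ha, by simpa using hb⟩
    have hch' : List.IsChain (fun a b => crs a b = 1) (e :: ((l1 ++ l2) ++ [-e])) := by
      have : e :: ((l1 ++ l2) ++ [-e]) = A' ++ (a :: b :: B') := by
        have : e :: ((l1 ++ l2) ++ [-e]) = (e :: l1) ++ (l2 ++ [-e]) := by simp
        rw [this, hA, hB]
        simp
      rw [this, List.isChain_split, List.isChain_cons_cons]
      exact ⟨c1, hc1, c4⟩
    have hlen' : (l1 ++ l2).length = N - 1 := by
      rw [← hlen]; simp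
    have hN : 2 ≤ N := by
      have h1 : 0 < (l1 ++ l2).length := List.length_pos_iff.2 hne
      omega
    have ih' := ih (N - 1) (by omega) (l1 ++ l2) hlen' hne hch'
      (fun x hx => hpos x (by
        rcases List.mem_append.1 hx with h | h
        · simp [h]
        · simp [h]))
    have hpow : (0 : ℤ) ≤ 2 ^ (N - 1 - 1) := by positivity
    have ha2 : crs e a ≤ 2 ^ (N - 1 - 1) := by
      rcases ha with h | h
      · rw [h, crs_self]; exact hpow
      · exact ih' a (by simp [h])
    have hb2 : crs e b ≤ 2 ^ (N - 1 - 1) := by
      rcases hb with h | h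
      · rw [h, crs_neg_right, crs_self]; simp
      · exact ih' b (by simp [h])
    have hp2 : (2 : ℤ) ^ (N - 1) = 2 * 2 ^ (N - 1 - 1) := by
      rw [← pow_succ']
      congr 1
      omega
    intro x hx
    have := hmax' x hx
    omega

/-- The coefficients of a unimodular fan with straight ends are bounded. -/
theorem coeff_bound {e : Pt} {l : List Pt} (hl : l ≠ [])
    (hch : List.IsChain (fun a b => crs a b = 1) (e :: (l ++ [-e])))
    (hpos : ∀ g ∈ l, 0 < crs e g) {A B : List Pt} {a g b : Pt}
    (h : e :: (l ++ [-e]) = A ++ (a :: g :: b :: B)) : 0 ≤ crs a b ∧ crs a b ≤ 2 ^ l.length := by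
  have hh := heights e l.length l rfl hl hch hpos
  have hpow : (0 : ℤ) < 2 ^ (l.length - 1) := by positivity
  have hp2 : (2 : ℤ) ^ l.length = 2 * 2 ^ (l.length - 1) := by
    rw [← pow_succ']
    congr 1
    have := List.length_pos_iff.2 hl
    omega
  have hch0 := hch
  rw [h, List.isChain_split, List.isChain_cons_cons, List.isChain_cons_cons] at hch
  obtain ⟨-, c2, c3, -⟩ := hch
  have hmem : ∀ x ∈ e :: (l ++ [-e]), 0 ≤ crs e x ∧ crs e x ≤ 2 ^ (l.length - 1) := by
    intro x hx
    rcases List.mem_cons.1 hx with rfl | hx
    · rw [crs_self]; exact ⟨le_rfl, hpow.le⟩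
    · rcases List.mem_append.1 hx with hx | hx
      · exact ⟨(hpos x hx).le, hh x hx⟩
      · rw [List.mem_singleton.1 hx, crs_neg_right, crs_self]
        exact ⟨by norm_num, by simp⟩
  have hg : g ∈ l := by
    -- `g` is neither the first nor the last element
    have h1 : l ++ [-e] = (A ++ [a]).tail ++ (g :: b :: B) := by
      have : (e :: (l ++ [-e])).tail = (A ++ (a :: g :: b :: B)).tail := by rw [h]
      rw [List.tail_cons] at this
      rw [this]
      cases A with
      | nil => simp
      | cons x A => simp
    have h2 : l = (A ++ [a]).tail ++ (g :: (b :: B).dropLast) := by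
      have : (l ++ [-e]).dropLast = ((A ++ [a]).tail ++ (g :: b :: B)).dropLast := by rw [h1]
      rw [List.dropLast_concat] at this
      rw [this, List.dropLast_append_of_ne_nil (by simp)]
      rfl
    rw [h2]
    simp
  have hsum := height_three (e := e) c2 c3
  have ha := hmem a (by rw [h]; simp)
  have hb := hmem b (by rw [h]; simp)
  have hg1 := hpos g hg
  constructor
  · by_contra hcon
    push Not at hcon
    have : crs a b * crs e g < 0 := mul_neg_of_neg_of_pos hcon hg1
    omega
  · by_contra hcon
    push Not at hcon
    have h3 : crs a b ≤ crs a b * crs e g := by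
      have h4 : 0 ≤ crs a b := by
        have : (0 : ℤ) < 2 ^ l.length := by positivity
        omega
      nlinarith
    omega

end WallAux

end Pool.Agent.IT
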