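import Pool.Agent.IT.HullD
import Pool.Agent.IT.WallH

/-!
# Fans around a vertex with a straight line, and steps of small jump
-/

set_option autoImplicit false

namespace Pool.Agent.IT

variable {n : ℕ} {T : Finset (Finset Pt)}

namespace WallAux

/-- The rays of a sector of angle less than 180 degrees as a list. -/
theorem fan_list (hT : UT n T) {q b : Pt} (hb : IsEdge T q b) (k : ℕ) :
    ∀ a : Pt, IsEdge T q a → 0 < det q a b → (btw T q a b).card < k →
    ∃ l : List Pt, List.IsChain (Pos T q) (a :: (l ++ [b])) ∧ l.length ≤ (btw T q a b).card ∧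
      ∀ c ∈ l, 0 < det q a c ∧ 0 < det q c b := by
  induction k with
  | zero => intro a _ _ h; omega
  | succ k ih =>
    intro a ha hab hk
    obtain ⟨r, hr, hr'⟩ := ha.next hT hb hab
    have h1 : det q a r = 1 := hr.2
    rcases hr' with rfl | ⟨hrb, hre, hlt⟩
    · exact ⟨[], by simpa using hr, by simp, by simp⟩
    · obtain ⟨l, l1, l2, l3⟩ := ih r hre hrb (by omega)
      refine ⟨r :: l, ?_, ?_, ?_⟩
      · rw [List.cons_append, List.isChain_cons_cons]
        exact ⟨hr, l1⟩
      · rw [List.length_cons]; omega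
      · intro c hc
        rcases List.mem_cons.1 hc with rfl | hc
        · exact ⟨by rw [h1]; norm_num, hrb⟩
        · obtain ⟨g1, g2⟩ := l3 c hc
          exact ⟨det_between (by rw [h1]; norm_num) hrb hab g1 g2, g2⟩

/-- the point opposite to `A` with respect to `q` -/
def wopp (q A : Pt) : Pt := (2 * q.1 - A.1, 2 * q.2 - A.2)

theorem wopp_wopp (q A : Pt) : wopp q (wopp q A) = A := by
  ext <;> simp [wopp]

/-- The rays on one side of a straight line through `q` as a list. -/
theorem side_fan (hT : UT n T) {q A x y : Pt} (hx : Pos T q A x) (hy : Pos T q y (wopp q A)) :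
    ∃ L : List Pt, List.IsChain (Pos T q) (A :: x :: (L ++ [wopp q A])) ∧
      L.length ≤ (nbr T q).card + 1 ∧ ∀ c ∈ x :: L, 0 < det q A c := by
  have hAx : det q A x = 1 := hx.2
  have hAy : det q A y = 1 := by
    rw [← hy.2]; simp only [det, wopp]; ring
  have hex : IsEdge T q x := hx.cyc'.edge'
  have hey : IsEdge T q y := hy.edge
  have h1 : ¬ 0 < det q y x := fun h => hx.no_cone hT hey (by rw [hAy]; norm_num) h
  have h2 : 0 ≤ det q x y := by rw [det_swap' q y x]; linarith
  rcases h2.lt_or_eq with h2 | h2
  · obtain ⟨l, l1, l2, l3⟩ := fan_list hT hey _ x hex h2 (Nat.lt_succ_self _)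
    refine ⟨l ++ [y], ?_, ?_, ?_⟩
    · rw [List.isChain_cons_cons]
      refine ⟨hx, ?_⟩
      have e : x :: (l ++ [y] ++ [wopp q A]) = (x :: l) ++ y :: [wopp q A] := by simp
      rw [e, List.isChain_split]
      refine ⟨by simpa using l1, ?_⟩
      simpa using hy
    · rw [List.length_append, List.length_singleton]
      have : (btw T q x y).card ≤ (nbr T q).card := by
        classical
        refine Finset.card_le_card fun c hc => ?_
        rw [mem_btw] at hc
        rw [mem_nbr]
        exact hc.1
      omega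
    · intro c hc
      rcases List.mem_cons.1 hc with rfl | hc
      · rw [hAx]; norm_num
      · rcases List.mem_append.1 hc with hc | hc
        · obtain ⟨g1, g2⟩ := l3 c hc
          have key : det q x y * det q A c = det q c y * det q A x + det q x c * det q A y := by
            simp only [det]; ring
          rw [hAx, hAy] at key
          have : 0 < det q x y * det q A c := by rw [key]; linarith
          exact (pos_iff_pos_of_mul_pos this).mp h2
        · rw [List.mem_singleton.1 hc, hAy]; norm_num
  · have hxy : x = y := by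
      refine hex.eq_of_dir hey h2.symm (c := A) (Or.inl (by rw [hAx]; norm_num)) ?_ ?_
      · rw [hAx, hAy]
      · rw [det_swap' q A x, det_swap' q A y, hAx, hAy]
    refine ⟨[], ?_, by simp, ?_⟩
    · rw [List.nil_append, List.isChain_cons_cons]
      exact ⟨hx, by simpa [hxy] using hy⟩
    · intro c hc
      rw [List.mem_singleton.1 hc, hAx]; norm_num

theorem det_eq_crs (q a b : Pt) : det q a b = crs (a - q) (b - q) := by
  simp only [det, crs, Prod.fst_sub, Prod.snd_sub]

/-- The coefficients of a side fan are bounded. -/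
theorem side_coeff {q A x : Pt} {L : List Pt}
    (hch : List.IsChain (Pos T q) (A :: x :: (L ++ [wopp q A])))
    (hpos : ∀ c ∈ x :: L, 0 < det q A c) {P R : List Pt} {a g b : Pt}
    (h : A :: x :: (L ++ [wopp q A]) = P ++ (a :: g :: b :: R)) :
    0 ≤ crs (a - q) (b - q) ∧ crs (a - q) (b - q) ≤ 2 ^ (L.length + 1) := by
  have hop : wopp q A - q = -(A - q) := by
    ext
    · simp only [wopp, Prod.fst_sub, Prod.fst_neg]; ring
    · simp only [wopp, Prod.snd_sub, Prod.snd_neg]; ring
  have key := coeff_bound (e := A - q) (l := (x :: L).map (fun c => c - q)) (by simp) ?_ ?_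
    (A := P.map (fun c => c - q)) (B := R.map (fun c => c - q)) (a := a - q) (g := g - q)
    (b := b - q) ?_
  · simpa using key
  · have : (A - q) :: ((x :: L).map (fun c => c - q) ++ [-(A - q)]) =
        (A :: x :: (L ++ [wopp q A])).map (fun c => c - q) := by simp [hop]
    rw [this, List.isChain_map]
    exact hch.imp fun c d hcd => by rw [← det_eq_crs]; exact hcd.2
  · intro g hg
    obtain ⟨c, hc, rfl⟩ := List.mem_map.1 hg
    rw [← det_eq_crs]
    exact hpos c hc
  · have := congrArg (List.map (fun c => c - q)) h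
    simpa [hop] using this

/-! ### jump balls -/

theorem nb_mem_jball {J : ℕ} {t s : Finset Pt} (h : JNb T J t s) : s ∈ jball T J t 1 :=
  mem_jball_succ.mpr (Or.inr ⟨t, by simp [jball], h⟩)

/-- crossing a ray of the fan -/
theorem nb_of_fan {J : ℕ} {q a b c : Pt} (h1 : Pos T q a b) (h2 : Pos T q b c)
    (h3 : 0 ≤ crs (a - q) (c - q)) (h4 : crs (a - q) (c - q) ≤ (J : ℤ)) (hJ : 1 ≤ J) :
    JNb T J {q, a, b} {q, b, c} := by
  have d1 : crs (a - q) (b - q) = 1 := by rw [← det_eq_crs]; exact h1.2
  have d2 : crs (b - q) (c - q) = 1 := by rw [← det_eq_crs]; exact h2.2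
  have h := three_term d1 d2
  refine ⟨b, q, a, c, 1 - crs (a - q) (c - q), h1.cyc.cyc, h2, ?_, rfl, ?_, ?_⟩
  · ext x; simp only [Finset.mem_insert, Finset.mem_singleton]; tauto
  · have e1 := congrArg Prod.fst h
    have e2 := congrArg Prod.snd h
    simp only [Prod.fst_add, Prod.fst_sub, Prod.smul_fst, smul_eq_mul] at e1
    simp only [Prod.snd_add, Prod.snd_sub, Prod.smul_snd, smul_eq_mul] at e2
    exact ⟨a, c, h1.cyc.cyc, h2, by linarith, by linarith⟩
  · rw [abs_le]
    have : (1 : ℤ) ≤ J := by exact_mod_cast hJ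
    constructor <;> linarith

/-- last triangle of a fan -/
def lastTri (q : Pt) : Pt → Pt → List Pt → Finset Pt
  | a, b, [] => {q, a, b}
  | _, b, c :: L => lastTri q b c L

theorem lastTri_concat {q : Pt} (p : Pt) : ∀ (L : List Pt) (a b : Pt),
    List.IsChain (Pos T q) (a :: b :: (L ++ [p])) →
    ∃ x, lastTri q a b (L ++ [p]) = {q, x, p} ∧ Pos T q x p := by
  intro L
  induction L with
  | nil =>
    intro a b h
    rw [List.nil_append, List.isChain_cons_cons, List.isChain_cons_cons] at h
    exact ⟨b, rfl, h.2.1⟩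
  | cons c L ih =>
    intro a b h
    rw [List.cons_append, List.isChain_cons_cons] at h
    exact ih b c h.2

theorem fan_reach {q : Pt} {J : ℕ} (hJ : 1 ≤ J) : ∀ (L : List Pt) (a b : Pt),
    List.IsChain (Pos T q) (a :: b :: L) →
    (∀ (P R : List Pt) (x g y : Pt), a :: b :: L = P ++ (x :: g :: y :: R) →
      0 ≤ crs (x - q) (y - q) ∧ crs (x - q) (y - q) ≤ (J : ℤ)) →
    lastTri q a b L ∈ jball T J {q, a, b} L.length ∧
      {q, a, b} ∈ jball T J (lastTri q a b L) L.length := by
  intro L
  induction L with
  | nil =>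
    intro a b _ _
    simp [lastTri, jball]
  | cons c L ih =>
    intro a b hch hco
    rw [List.isChain_cons_cons] at hch
    obtain ⟨h1, h2⟩ := hch
    have h3 : Pos T q b c := by
      rw [List.isChain_cons_cons] at h2
      exact h2.1
    obtain ⟨g1, g2⟩ := hco [] L a b c rfl
    have hn := nb_of_fan h1 h3 g1 g2 hJ
    obtain ⟨i1, i2⟩ := ih b c h2 (fun P R x g y h => hco (a :: P) R x g y (by rw [h]; rfl))
    rw [List.length_cons]
    constructor
    · rw [add_comm]
      exact jball_add (nb_mem_jball hn) i1
    · exact jball_add i2 (nb_mem_jball hn.symm)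

end WallAux

end Pool.Agent.IT
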